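import Pool.Agent.MP_5cfbf6_gt.Defs

section

set_option autoImplicit false

namespace Pool.Agent.MP_5cfbf6_gt

open Set Filter Topology

def dt (x y : E3) : ℝ := x 0 * y 0 + x 1 * y 1 + x 2 * y 2

def cr (x y : E3) : E3 :=
  !₂[x 1 * y 2 - x 2 * y 1, x 2 * y 0 - x 0 * y 2, x 0 * y 1 - x 1 * y 0]

def det3 (a b c : E3) : ℝ := dt a (cr b c)

@[simp] lemma cr_0 (x y : E3) : cr x y 0 = x 1 * y 2 - x 2 * y 1 := rfl
@[simp] lemma cr_1 (x y : E3) : cr x y 1 = x 2 * y 0 - x 0 * y 2 := rfl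
@[simp] lemma cr_2 (x y : E3) : cr x y 2 = x 0 * y 1 - x 1 * y 0 := rfl

lemma ext3 {x y : E3} (h0 : x 0 = y 0) (h1 : x 1 = y 1) (h2 : x 2 = y 2) : x = y := by
  ext i; fin_cases i <;> assumption

lemma dt_eq_inner (x y : E3) : dt x y = inner ℝ x y := by
  simp [dt, PiLp.inner_apply, Fin.sum_univ_three]; ring

lemma dt_self (x : E3) : dt x x = ‖x‖ ^ 2 := by
  rw [dt_eq_inner, real_inner_self_eq_norm_sq]

lemma dt_self_nonneg (x : E3) : 0 ≤ dt x x := by rw [dt_self]; positivity

lemma dt_self_pos {x : E3} (h : x ≠ 0) : 0 < dt x x := by rw [dt_self]; positivity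

lemma eq_zero_of_dt_self {x : E3} (h : dt x x = 0) : x = 0 := by
  by_contra h'; exact (dt_self_pos h').ne' h

lemma abs_dt_le (x y : E3) : |dt x y| ≤ ‖x‖ * ‖y‖ := by
  rw [dt_eq_inner]; exact abs_real_inner_le_norm x y

lemma dt_le (x y : E3) : dt x y ≤ ‖x‖ * ‖y‖ := (le_abs_self _).trans (abs_dt_le x y)

lemma dt_sq_le (x y : E3) : dt x y ^ 2 ≤ dt x x * dt y y := by
  unfold dt
  nlinarith [sq_nonneg (x 1 * y 2 - x 2 * y 1), sq_nonneg (x 2 * y 0 - x 0 * y 2),
    sq_nonneg (x 0 * y 1 - x 1 * y 0)]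

lemma dt_comm (x y : E3) : dt x y = dt y x := by unfold dt; ring
lemma dt_add (u x y : E3) : dt u (x + y) = dt u x + dt u y := by simp [dt]; ring
lemma dt_sub (u x y : E3) : dt u (x - y) = dt u x - dt u y := by simp [dt]; ring
lemma dt_smul (u x : E3) (t : ℝ) : dt u (t • x) = t * dt u x := by simp [dt]; ring
lemma dt_neg (u x : E3) : dt u (-x) = -dt u x := by simp [dt]; ring
lemma add_dt (u v x : E3) : dt (u + v) x = dt u x + dt v x := by simp [dt]; ring
lemma sub_dt (u v x : E3) : dt (u - v) x = dt u x - dt v x := by simp [dt]; ring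
lemma smul_dt (u x : E3) (t : ℝ) : dt (t • u) x = t * dt u x := by simp [dt]; ring
lemma neg_dt (u x : E3) : dt (-u) x = -dt u x := by simp [dt]; ring
@[simp] lemma dt_zero (u : E3) : dt u 0 = 0 := by simp [dt]
@[simp] lemma zero_dt (u : E3) : dt 0 u = 0 := by simp [dt]

lemma dt_sum {ι : Type} (u : E3) (s : Finset ι) (f : ι → E3) :
    dt u (∑ i ∈ s, f i) = ∑ i ∈ s, dt u (f i) := by
  simp only [dt_eq_inner, inner_sum]

lemma sum_dt {ι : Type} (u : E3) (s : Finset ι) (f : ι → E3) :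
    dt (∑ i ∈ s, f i) u = ∑ i ∈ s, dt (f i) u := by
  simp only [dt_eq_inner, sum_inner]

@[fun_prop] lemma continuous_dt {X : Type} [TopologicalSpace X] {f g : X → E3}
    (hf : Continuous f) (hg : Continuous g) : Continuous fun x => dt (f x) (g x) := by
  unfold dt; fun_prop

@[fun_prop] lemma continuous_cr {X : Type} [TopologicalSpace X] {f g : X → E3}
    (hf : Continuous f) (hg : Continuous g) : Continuous fun x => cr (f x) (g x) := by
  unfold cr; fun_prop

@[fun_prop] lemma continuous_det3 {X : Type} [TopologicalSpace X] {f g k : X → E3}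
    (hf : Continuous f) (hg : Continuous g) (hk : Continuous k) :
    Continuous fun x => det3 (f x) (g x) (k x) := by
  unfold det3; fun_prop

/-- the linear functional `dt u` as a continuous linear map -/
noncomputable def dtL (u : E3) : E3 →L[ℝ] ℝ := innerSL ℝ u

@[simp] lemma dtL_apply (u x : E3) : dtL u x = dt u x := by
  simp [dtL, dt_eq_inner]

lemma exists_dt (l : E3 →L[ℝ] ℝ) : ∃ u : E3, ∀ x, l x = dt u x := by
  refine ⟨(InnerProductSpace.toDual ℝ E3).symm l, fun x => ?_⟩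
  rw [dt_eq_inner, InnerProductSpace.toDual_symm_apply]

lemma det3_swap12 (a b c : E3) : det3 b a c = -det3 a b c := by simp [det3, dt]; ring
lemma det3_swap23 (a b c : E3) : det3 a c b = -det3 a b c := by simp [det3, dt]; ring
lemma det3_rot (a b c : E3) : det3 b c a = det3 a b c := by simp [det3, dt]; ring
lemma dt_cr (a b c : E3) : dt c (cr a b) = det3 a b c := by simp [det3, dt]; ring
lemma dt_cr_left (a b : E3) : dt a (cr a b) = 0 := by simp [dt]; ring
lemma dt_cr_right (a b : E3) : dt b (cr a b) = 0 := by simp [dt]; ring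
lemma cr_anti (a b : E3) : cr b a = -cr a b := by
  apply ext3 <;> simp <;> ring
lemma det3_same12 (a c : E3) : det3 a a c = 0 := by simp [det3, dt]; ring
lemma det3_same13 (a c : E3) : det3 a c a = 0 := by simp [det3, dt]; ring
lemma det3_same23 (a c : E3) : det3 c a a = 0 := by simp [det3, dt]; ring

lemma dt_cr_cr (a b : E3) : dt (cr a b) (cr a b) = dt a a * dt b b - dt a b ^ 2 := by
  simp [dt]; ring

/-- solution of `a.x = p, b.x = q, c.x = r` -/
noncomputable def sol (a b c : E3) (p q r : ℝ) : E3 :=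
  (det3 a b c)⁻¹ • (p • cr b c + q • cr c a + r • cr a b)

lemma dt_sol (a b c : E3) (p q r : ℝ) (x : E3) :
    dt x (sol a b c p q r)
      = (det3 a b c)⁻¹ * (p * det3 x b c + q * det3 a x c + r * det3 a b x) := by
  unfold sol
  rw [dt_smul]; congr 1
  simp [det3, dt]; ring

lemma dt_sol1 {a b c : E3} (h : det3 a b c ≠ 0) (p q r : ℝ) : dt a (sol a b c p q r) = p := by
  rw [dt_sol, det3_same12, det3_same13]; field_simp; ring
lemma dt_sol2 {a b c : E3} (h : det3 a b c ≠ 0) (p q r : ℝ) : dt b (sol a b c p q r) = q := by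
  rw [dt_sol, det3_same12, det3_same23]; field_simp; ring
lemma dt_sol3 {a b c : E3} (h : det3 a b c ≠ 0) (p q r : ℝ) : dt c (sol a b c p q r) = r := by
  rw [dt_sol, det3_same13, det3_same23]; field_simp; ring

lemma eq_sol {a b c : E3} (h : det3 a b c ≠ 0) (x : E3) :
    x = sol a b c (dt a x) (dt b x) (dt c x) := by
  unfold sol
  have : dt a x • cr b c + dt b x • cr c a + dt c x • cr a b = det3 a b c • x := by
    apply ext3 <;> simp [det3, dt] <;> ring
  rw [this, smul_smul, inv_mul_cancel₀ h, one_smul]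

lemma eq_of_dt3 {a b c : E3} (h : det3 a b c ≠ 0) {x y : E3} (h1 : dt a x = dt a y)
    (h2 : dt b x = dt b y) (h3 : dt c x = dt c y) : x = y := by
  rw [eq_sol h x, eq_sol h y, h1, h2, h3]

lemma sol_swap12 (a b c : E3) (p q r : ℝ) : sol b a c q p r = sol a b c p q r := by
  unfold sol
  rw [det3_swap12, cr_anti c a, cr_anti b c, cr_anti a b, inv_neg]
  apply ext3 <;> simp <;> ring

lemma sol_swap23 (a b c : E3) (p q r : ℝ) : sol a c b p r q = sol a b c p q r := by
  unfold sol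
  rw [det3_swap23, cr_anti c a, cr_anti b c, cr_anti a b, inv_neg]
  apply ext3 <;> simp <;> ring

lemma sol_add (a b c : E3) (p q r p' q' r' : ℝ) :
    sol a b c (p + p') (q + q') (r + r') = sol a b c p q r + sol a b c p' q' r' := by
  unfold sol
  apply ext3 <;> simp <;> ring

lemma sol_smul (a b c : E3) (t p q r : ℝ) :
    sol a b c (t * p) (t * q) (t * r) = t • sol a b c p q r := by
  unfold sol
  apply ext3 <;> simp <;> ring

/-- decomposition of a vector in the basis `a, b, c` -/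
lemma decomp {a b c : E3} (h : det3 a b c ≠ 0) (x : E3) :
    x = (det3 x b c / det3 a b c) • a + (det3 a x c / det3 a b c) • b
      + (det3 a b x / det3 a b c) • c := by
  have : det3 a b c • x = det3 x b c • a + det3 a x c • b + det3 a b x • c := by
    apply ext3 <;> simp [det3, dt] <;> ring
  have h2 : x = (det3 a b c)⁻¹ • (det3 a b c • x) := by
    rw [smul_smul, inv_mul_cancel₀ h, one_smul]
  rw [this] at h2
  conv_lhs => rw [h2]
  simp only [smul_add, smul_smul, div_eq_inv_mul]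

/-- a vector orthogonal to `a` and `b` is parallel to the cross product -/
lemma par_cr {a b x : E3} (h1 : dt a x = 0) (h2 : dt b x = 0) :
    dt (cr a b) (cr a b) • x = dt x (cr a b) • cr a b := by
  have e : dt (cr a b) (cr a b) • x - dt x (cr a b) • cr a b
      = dt a x • (dt b b • a - dt a b • b) + dt b x • (dt a a • b - dt a b • a) := by
    apply ext3 <;> simp [dt] <;> ring
  rw [h1, h2, zero_smul, zero_smul, add_zero, sub_eq_zero] at e
  exact e

lemma cr_ne_zero {a b c : E3} (h : det3 a b c ≠ 0) : cr a b ≠ 0 := by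
  intro h0
  rw [← dt_cr, h0, dt_zero] at h
  exact h rfl

lemma exists_orth2 (a b : E3) : ∃ z : E3, z ≠ 0 ∧ dt a z = 0 ∧ dt b z = 0 := by
  by_cases h : cr a b = 0
  · by_cases ha : a = 0
    · by_cases hb : b 0 = 0 ∧ b 1 = 0
      · refine ⟨!₂[1, 0, 0], ?_, by simp [ha], by simp [dt, hb.1]⟩
        intro e; have := congrArg (fun v : E3 => v 0) e; simp at this
      · refine ⟨!₂[-b 1, b 0, 0], ?_, by simp [ha], by simp [dt]; ring⟩
        intro e
        have e0 := congrArg (fun v : E3 => v 0) e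
        have e1 := congrArg (fun v : E3 => v 1) e
        simp at e0 e1
        exact hb ⟨e1, e0⟩
    · have key : ∀ z, dt a z = 0 → dt b z = 0 := by
        intro z hz
        have e : dt a a * dt b z = dt a b * dt a z + dt (cr a b) (cr a z) := by
          simp [dt]; ring
        rw [h, hz, zero_dt] at e
        have := dt_self_pos ha
        simp at e
        rcases e with e | e
        · exact absurd e this.ne'
        · exact e
      by_cases hb : a 0 = 0 ∧ a 1 = 0
      · have : dt a !₂[1, 0, 0] = 0 := by simp [dt, hb.1]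
        refine ⟨!₂[1, 0, 0], ?_, this, key _ this⟩
        intro e; have := congrArg (fun v : E3 => v 0) e; simp at this
      · have : dt a !₂[-a 1, a 0, 0] = 0 := by simp [dt]; ring
        refine ⟨!₂[-a 1, a 0, 0], ?_, this, key _ this⟩
        intro e
        have e0 := congrArg (fun v : E3 => v 0) e
        have e1 := congrArg (fun v : E3 => v 1) e
        simp at e0 e1
        exact hb ⟨e1, e0⟩
  · exact ⟨cr a b, h, dt_cr_left a b, dt_cr_right a b⟩

lemma exists_orth3 {a b c : E3} (h : det3 a b c = 0) :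
    ∃ z : E3, z ≠ 0 ∧ dt a z = 0 ∧ dt b z = 0 ∧ dt c z = 0 := by
  by_cases h1 : cr a b = 0
  · by_cases ha : a = 0
    · obtain ⟨z, hz, e1, e2⟩ := exists_orth2 b c
      exact ⟨z, hz, by simp [ha], e1, e2⟩
    · obtain ⟨z, hz, e1, e2⟩ := exists_orth2 a c
      refine ⟨z, hz, e1, ?_, e2⟩
      have e : dt a a * dt b z = dt a b * dt a z + dt (cr a b) (cr a z) := by
        simp [dt]; ring
      rw [h1, e1, zero_dt] at e
      have := dt_self_pos ha
      simp at e
      rcases e with e | e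
      · exact absurd e this.ne'
      · exact e
  · exact ⟨cr a b, h1, dt_cr_left a b, dt_cr_right a b, by rw [dt_cr, h]⟩

end Pool.Agent.MP_5cfbf6_gt

end

section

set_option autoImplicit false
set_option linter.unusedSectionVars false

namespace Pool.Agent.MP_5cfbf6_gt

open Set Filter Topology

variable {ι : Type} [Fintype ι] [DecidableEq ι]

def poly (u : ι → E3) (h : ι → ℝ) : Set E3 := {x | ∀ i, dt (u i) x ≤ h i}

def fc (u : ι → E3) (h : ι → ℝ) (A : Set ι) : Set E3 :=
  {x | x ∈ poly u h ∧ ∀ i ∈ A, dt (u i) x = h i}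

noncomputable def vx (u : ι → E3) (h : ι → ℝ) (i j k : ι) : E3 :=
  sol (u i) (u j) (u k) (h i) (h j) (h k)

structure Sys (u : ι → E3) (h : ι → ℝ) (Tr : ι → ι → ι → Prop) : Prop where
  s12 : ∀ i j k, Tr i j k → Tr j i k
  s23 : ∀ i j k, Tr i j k → Tr i k j
  det : ∀ i j k, Tr i j k → det3 (u i) (u j) (u k) ≠ 0
  strict : ∀ i j k, Tr i j k → ∀ l, l ≠ i → l ≠ j → l ≠ k → dt (u l) (vx u h i j k) < h l
  cover : ∀ x ∈ poly u h, ∃ i j k, Tr i j k ∧ ∀ l, dt (u l) x = h l → l = i ∨ l = j ∨ l = k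
  bdd : Bornology.IsBounded (poly u h)
  used : ∀ i, ∃ j k, Tr i j k
  ne : ∃ i j k, Tr i j k

lemma vx_swap12 (u : ι → E3) (h : ι → ℝ) (i j k : ι) : vx u h j i k = vx u h i j k :=
  sol_swap12 _ _ _ _ _ _
lemma vx_swap23 (u : ι → E3) (h : ι → ℝ) (i j k : ι) : vx u h i k j = vx u h i j k :=
  sol_swap23 _ _ _ _ _ _

lemma convex_poly (u : ι → E3) (h : ι → ℝ) : Convex ℝ (poly u h) := by
  intro x hx y hy a b ha hb hab i
  rw [dt_add, dt_smul, dt_smul]
  have := hx i; have := hy i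
  calc _ ≤ a * h i + b * h i := by gcongr
    _ = h i := by rw [← add_mul, hab, one_mul]

lemma isClosed_poly (u : ι → E3) (h : ι → ℝ) : IsClosed (poly u h) := by
  have : poly u h = ⋂ i, {x | dt (u i) x ≤ h i} := by ext x; simp [poly]
  rw [this]
  exact isClosed_iInter fun i => isClosed_le (by fun_prop) continuous_const

lemma convex_fc (u : ι → E3) (h : ι → ℝ) (A : Set ι) : Convex ℝ (fc u h A) := by
  intro x hx y hy a b ha hb hab
  refine ⟨convex_poly u h hx.1 hy.1 ha hb hab, fun i hi => ?_⟩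
  rw [dt_add, dt_smul, dt_smul, hx.2 i hi, hy.2 i hi, ← add_mul, hab, one_mul]

lemma isClosed_fc (u : ι → E3) (h : ι → ℝ) (A : Set ι) : IsClosed (fc u h A) := by
  have : fc u h A = poly u h ∩ ⋂ i ∈ A, {x | dt (u i) x = h i} := by ext x; simp [fc]
  rw [this]
  exact (isClosed_poly u h).inter (isClosed_biInter fun i _ =>
    isClosed_eq (by fun_prop) continuous_const)

lemma fc_subset (u : ι → E3) (h : ι → ℝ) (A : Set ι) : fc u h A ⊆ poly u h := fun _ hx => hx.1

/-- strict inequalities persist under small moves -/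
lemma exists_move (u : ι → E3) (h : ι → ℝ) (x z : E3) :
    ∃ δ > 0, ∀ t : ℝ, |t| ≤ δ → ∀ l, dt (u l) x < h l → dt (u l) (x + t • z) < h l := by
  have : ∀ᶠ t : ℝ in 𝓝 0, ∀ l, dt (u l) x < h l → dt (u l) (x + t • z) < h l := by
    rw [eventually_all]
    intro l
    by_cases hl : dt (u l) x < h l
    · have hc : Continuous fun t : ℝ => dt (u l) (x + t • z) := by fun_prop
      have := hc.continuousAt (x := 0) |>.eventually_lt continuousAt_const (by simpa using hl)
      exact this.mono fun t ht _ => ht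
    · exact Eventually.of_forall fun t h' => absurd h' hl
  obtain ⟨ε, hε, H⟩ := Metric.eventually_nhds_iff.1 this
  refine ⟨ε / 2, by positivity, fun t ht => H ?_⟩
  rw [Real.dist_eq, sub_zero]; linarith

namespace Sys

variable {u : ι → E3} {h : ι → ℝ} {Tr : ι → ι → ι → Prop}

lemma rot (S : Sys u h Tr) {i j k : ι} (T : Tr i j k) : Tr j k i := S.s23 _ _ _ (S.s12 _ _ _ T)

lemma ne12 (S : Sys u h Tr) {i j k : ι} (T : Tr i j k) : i ≠ j := by
  rintro rfl; exact S.det _ _ _ T (det3_same12 _ _)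
lemma ne13 (S : Sys u h Tr) {i j k : ι} (T : Tr i j k) : i ≠ k := by
  rintro rfl; exact S.det _ _ _ T (det3_same13 _ _)
lemma ne23 (S : Sys u h Tr) {i j k : ι} (T : Tr i j k) : j ≠ k := by
  rintro rfl; exact S.det _ _ _ T (det3_same23 _ _)

lemma vx1 (S : Sys u h Tr) {i j k : ι} (T : Tr i j k) (y : ι → ℝ) :
    dt (u i) (vx u y i j k) = y i := dt_sol1 (S.det _ _ _ T) _ _ _
lemma vx2 (S : Sys u h Tr) {i j k : ι} (T : Tr i j k) (y : ι → ℝ) :
    dt (u j) (vx u y i j k) = y j := dt_sol2 (S.det _ _ _ T) _ _ _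
lemma vx3 (S : Sys u h Tr) {i j k : ι} (T : Tr i j k) (y : ι → ℝ) :
    dt (u k) (vx u y i j k) = y k := dt_sol3 (S.det _ _ _ T) _ _ _

lemma vx_mem (S : Sys u h Tr) {i j k : ι} (T : Tr i j k) : vx u h i j k ∈ poly u h := by
  intro l
  by_cases h1 : l = i
  · rw [h1, S.vx1 T]
  by_cases h2 : l = j
  · rw [h2, S.vx2 T]
  by_cases h3 : l = k
  · rw [h3, S.vx3 T]
  exact (S.strict _ _ _ T l h1 h2 h3).le

lemma vx_act (S : Sys u h Tr) {i j k : ι} (T : Tr i j k) {l : ι}
    (hl : dt (u l) (vx u h i j k) = h l) : l = i ∨ l = j ∨ l = k := by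
  by_contra hc
  push Not at hc
  exact (S.strict _ _ _ T l hc.1 hc.2.1 hc.2.2).ne hl

lemma eq_vx (S : Sys u h Tr) {i j k : ι} (T : Tr i j k) {x : E3} (h1 : dt (u i) x = h i)
    (h2 : dt (u j) x = h j) (h3 : dt (u k) x = h k) : x = vx u h i j k :=
  eq_of_dt3 (S.det _ _ _ T) (by rw [h1, S.vx1 T]) (by rw [h2, S.vx2 T]) (by rw [h3, S.vx3 T])

lemma isCompact (S : Sys u h Tr) : IsCompact (poly u h) :=
  Metric.isCompact_of_isClosed_isBounded (isClosed_poly u h) S.bdd

lemma isCompact_fc (S : Sys u h Tr) (A : Set ι) : IsCompact (fc u h A) :=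
  S.isCompact.of_isClosed_subset (isClosed_fc u h A) (fc_subset u h A)

lemma u_ne (S : Sys u h Tr) (i : ι) : u i ≠ 0 := by
  obtain ⟨j, k, T⟩ := S.used i
  intro e
  apply S.det _ _ _ T
  rw [e, det3, zero_dt]

/-- points near a vertex with prescribed slacks -/
lemma near_vx (S : Sys u h Tr) {i j k : ι} (T : Tr i j k) (a b c : ℝ) :
    ∃ δ > 0, ∀ t : ℝ, |t| ≤ δ → ∃ x : E3, x = vx u h i j k - t • sol (u i) (u j) (u k) a b c ∧
      dt (u i) x = h i - t * a ∧ dt (u j) x = h j - t * b ∧ dt (u k) x = h k - t * c ∧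
      ∀ l, l ≠ i → l ≠ j → l ≠ k → dt (u l) x < h l := by
  obtain ⟨δ, hδ, H⟩ := exists_move u h (vx u h i j k) (-sol (u i) (u j) (u k) a b c)
  have hd := S.det _ _ _ T
  refine ⟨δ, hδ, fun t ht => ⟨_, rfl, ?_, ?_, ?_, ?_⟩⟩
  · rw [dt_sub, dt_smul, S.vx1 T, dt_sol1 hd]
  · rw [dt_sub, dt_smul, S.vx2 T, dt_sol2 hd]
  · rw [dt_sub, dt_smul, S.vx3 T, dt_sol3 hd]
  · intro l h1 h2 h3
    have := H t ht l (S.strict _ _ _ T l h1 h2 h3)
    rwa [smul_neg, ← sub_eq_add_neg] at this

/-- a point with prescribed active set -/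
lemma exists_act (S : Sys u h Tr) {i j k : ι} (T : Tr i j k) (A : Set ι)
    (hA : ∀ l ∈ A, l = i ∨ l = j ∨ l = k) :
    ∃ x ∈ poly u h, ∀ l, dt (u l) x = h l ↔ l ∈ A := by
  classical
  obtain ⟨δ, hδ, H⟩ := S.near_vx T (if i ∈ A then 0 else 1) (if j ∈ A then 0 else 1)
    (if k ∈ A then 0 else 1)
  obtain ⟨x, -, h1, h2, h3, h4⟩ := H δ (by rw [abs_of_pos hδ])
  have key : ∀ l, dt (u l) x ≤ h l ∧ (dt (u l) x = h l ↔ l ∈ A) := by
    intro l
    by_cases e1 : l = i
    · subst e1; rw [h1]; by_cases hl : l ∈ A <;> simp [hl, hδ.le, hδ.ne']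
    by_cases e2 : l = j
    · subst e2; rw [h2]; by_cases hl : l ∈ A <;> simp [hl, hδ.le, hδ.ne']
    by_cases e3 : l = k
    · subst e3; rw [h3]; by_cases hl : l ∈ A <;> simp [hl, hδ.le, hδ.ne']
    have := h4 l e1 e2 e3
    refine ⟨this.le, ⟨fun e => absurd e this.ne, fun hl => ?_⟩⟩
    rcases hA l hl with e | e | e <;> contradiction
  exact ⟨x, fun l => (key l).1, fun l => (key l).2⟩

lemma exists_strict (S : Sys u h Tr) : ∃ x : E3, ∀ l, dt (u l) x < h l := by
  obtain ⟨i, j, k, T⟩ := S.ne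
  obtain ⟨x, hx, H⟩ := S.exists_act T ∅ (by simp)
  exact ⟨x, fun l => lt_of_le_of_ne (hx l) fun e => (H l).1 e⟩

lemma exists_center (S : Sys u h Tr) (i : ι) :
    ∃ c : E3, dt (u i) c = h i ∧ ∀ l, l ≠ i → dt (u l) c < h l := by
  obtain ⟨j, k, T⟩ := S.used i
  obtain ⟨x, hx, H⟩ := S.exists_act T {i} (by simp)
  exact ⟨x, (H i).2 rfl, fun l hl => lt_of_le_of_ne (hx l) fun e => hl ((H l).1 e)⟩

/-- the cover property with a prescribed first index -/
lemma cover1 (S : Sys u h Tr) {x : E3} (hx : x ∈ poly u h) {i : ι} (hi : dt (u i) x = h i) :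
    ∃ j k, Tr i j k ∧ ∀ l, dt (u l) x = h l → l = i ∨ l = j ∨ l = k := by
  obtain ⟨a, b, c, T, H⟩ := S.cover x hx
  rcases H i hi with rfl | rfl | rfl
  · exact ⟨b, c, T, H⟩
  · exact ⟨a, c, S.s12 _ _ _ T, fun l hl => by rcases H l hl with e | e | e <;> simp [e]⟩
  · exact ⟨a, b, S.rot (S.rot T), fun l hl => by rcases H l hl with e | e | e <;> simp [e]⟩

lemma cover2 (S : Sys u h Tr) {x : E3} (hx : x ∈ poly u h) {i j : ι} (hij : i ≠ j)
    (hi : dt (u i) x = h i) (hj : dt (u j) x = h j) :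
    ∃ k, Tr i j k ∧ ∀ l, dt (u l) x = h l → l = i ∨ l = j ∨ l = k := by
  obtain ⟨b, c, T, H⟩ := S.cover1 hx hi
  rcases H j hj with e | rfl | rfl
  · exact absurd e.symm hij
  · exact ⟨c, T, H⟩
  · exact ⟨b, S.s23 _ _ _ T, fun l hl => by rcases H l hl with e | e | e <;> simp [e]⟩

theorem eventually (S : Sys u h Tr) :
    ∀ᶠ p : (ι → E3) × (ι → ℝ) in 𝓝 (u, h), Sys p.1 p.2 Tr := by
  have e1 : ∀ᶠ p : (ι → E3) × (ι → ℝ) in 𝓝 (u, h),
      ∀ i j k, Tr i j k → det3 (p.1 i) (p.1 j) (p.1 k) ≠ 0 := by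
    simp only [eventually_all]
    intro i j k T
    have hc : Continuous fun p : (ι → E3) × (ι → ℝ) => det3 (p.1 i) (p.1 j) (p.1 k) := by
      fun_prop
    exact hc.continuousAt.eventually_ne (S.det _ _ _ T)
  have e2 : ∀ᶠ p : (ι → E3) × (ι → ℝ) in 𝓝 (u, h),
      ∀ i j k, Tr i j k → ∀ l, l ≠ i → l ≠ j → l ≠ k →
        dt (p.1 l) (vx p.1 p.2 i j k) < p.2 l := by
    simp only [eventually_all]
    intro i j k T l h1 h2 h3
    have hc : ContinuousAt (fun p : (ι → E3) × (ι → ℝ) => dt (p.1 l) (vx p.1 p.2 i j k))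
        (u, h) := by
      simp only [vx, dt_sol]
      refine ContinuousAt.mul (ContinuousAt.inv₀ ?_ (S.det _ _ _ T)) ?_
      · exact Continuous.continuousAt (by fun_prop)
      · exact Continuous.continuousAt (by fun_prop)
    exact hc.eventually_lt (Continuous.continuousAt (by fun_prop)) (S.strict _ _ _ T l h1 h2 h3)
  obtain ⟨x0, hx0⟩ := S.exists_strict
  have e3 : ∀ᶠ p : (ι → E3) × (ι → ℝ) in 𝓝 (u, h), ∀ l, dt (p.1 l) x0 < p.2 l := by
    simp only [eventually_all]
    intro l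
    exact ContinuousAt.eventually_lt (Continuous.continuousAt (by fun_prop))
      (Continuous.continuousAt (by fun_prop)) (hx0 l)
  obtain ⟨R, hR⟩ := S.bdd.subset_ball x0
  have e4 : ∀ᶠ p : (ι → E3) × (ι → ℝ) in 𝓝 (u, h), ∀ y ∈ Metric.closedBall x0 R,
      y ∈ poly p.1 p.2 → (y ∈ Metric.ball x0 R ∧
        ∃ i j k, Tr i j k ∧ ∀ l, dt (p.1 l) y = p.2 l → l = i ∨ l = j ∨ l = k) := by
    apply (isCompact_closedBall x0 R).eventually_forall_of_forall_eventually
    intro y _
    by_cases hy : y ∈ poly u h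
    · obtain ⟨i, j, k, T, H⟩ := S.cover y hy
      have a1 : ∀ᶠ z : ((ι → E3) × (ι → ℝ)) × E3 in 𝓝 ((u, h), y), z.2 ∈ Metric.ball x0 R :=
        continuous_snd.continuousAt.eventually (Metric.isOpen_ball.mem_nhds (hR hy))
      have a2 : ∀ᶠ z : ((ι → E3) × (ι → ℝ)) × E3 in 𝓝 ((u, h), y),
          ∀ l, dt (u l) y < h l → dt (z.1.1 l) z.2 < z.1.2 l := by
        simp only [eventually_all]
        intro l hl
        exact ContinuousAt.eventually_lt (Continuous.continuousAt (by fun_prop))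
          (Continuous.continuousAt (by fun_prop)) hl
      filter_upwards [a1, a2] with z h1 h2 _
      refine ⟨h1, i, j, k, T, fun l hl => H l ?_⟩
      by_contra hne
      exact (h2 l (lt_of_le_of_ne (hy l) hne)).ne hl
    · simp only [poly, mem_ofPred_eq, not_forall, not_le] at hy
      obtain ⟨l, hl⟩ := hy
      have a2 : ∀ᶠ z : ((ι → E3) × (ι → ℝ)) × E3 in 𝓝 ((u, h), y),
          z.1.2 l < dt (z.1.1 l) z.2 :=
        ContinuousAt.eventually_lt (Continuous.continuousAt (by fun_prop))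
          (Continuous.continuousAt (by fun_prop)) hl
      filter_upwards [a2] with z h2 h3
      exact absurd (h3 l) (not_le.2 h2)
  have hR0 : 0 < R := by
    have := hR (show x0 ∈ poly u h from fun l => (hx0 l).le)
    simpa using this
  filter_upwards [e1, e2, e3, e4] with p h1 h2 h3 h4
  have hsub : poly p.1 p.2 ⊆ Metric.closedBall x0 R := by
    intro y hy
    by_contra hc
    rw [Metric.mem_closedBall, not_le, dist_eq_norm] at hc
    have hn : 0 < ‖y - x0‖ := hR0.trans hc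
    set t := R / ‖y - x0‖ with ht
    have t0 : 0 ≤ t := by positivity
    have t1 : t ≤ 1 := by rw [ht, div_le_one hn]; exact hc.le
    have hm : (1 - t) • x0 + t • y ∈ poly p.1 p.2 :=
      convex_poly _ _ (fun l => (h3 l).le) hy (by linarith) t0 (by ring)
    have hd : dist ((1 - t) • x0 + t • y) x0 = R := by
      rw [dist_eq_norm]
      have : (1 - t) • x0 + t • y - x0 = t • (y - x0) := by module
      rw [this, norm_smul, Real.norm_of_nonneg t0, ht, div_mul_cancel₀ _ hn.ne']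
    have := (h4 _ (by rw [Metric.mem_closedBall, hd]) hm).1
    rw [Metric.mem_ball, hd] at this
    exact lt_irrefl _ this
  exact ⟨S.s12, S.s23, h1, h2, fun x hx => (h4 x (hsub hx) hx).2,
    Metric.isBounded_closedBall.subset hsub, S.used, S.ne⟩

end Sys

end Pool.Agent.MP_5cfbf6_gt

end

section

set_option autoImplicit false
set_option linter.unusedSectionVars false

namespace Pool.Agent.MP_5cfbf6_gt

open Set Filter Topology

variable {ι : Type} [Fintype ι] [DecidableEq ι]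

def Adj (Tr : ι → ι → ι → Prop) (i j : ι) : Prop := ∃ k, Tr i j k

open Classical in
noncomputable def kp (u : ι → E3) (Tr : ι → ι → ι → Prop) (i j : ι) : ι :=
  if h : ∃ k, Tr i j k ∧ 0 < det3 (u i) (u j) (u k) then h.choose else i

open Classical in
noncomputable def km (u : ι → E3) (Tr : ι → ι → ι → Prop) (i j : ι) : ι :=
  if h : ∃ k, Tr i j k ∧ det3 (u i) (u j) (u k) < 0 then h.choose else i

/-- upper endpoint of the edge -/
noncomputable def ep (u : ι → E3) (Tr : ι → ι → ι → Prop) (y : ι → ℝ) (i j : ι) : E3 :=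
  vx u y i j (kp u Tr i j)

/-- lower endpoint of the edge -/
noncomputable def em (u : ι → E3) (Tr : ι → ι → ι → Prop) (y : ι → ℝ) (i j : ι) : E3 :=
  vx u y i j (km u Tr i j)

open Classical in
noncomputable def mu (u : ι → E3) (Tr : ι → ι → ι → Prop) (y : ι → ℝ) (i j : ι) : ℝ :=
  if Adj Tr i j then
    dt (ep u Tr y i j - em u Tr y i j) (cr (u i) (u j)) / dt (cr (u i) (u j)) (cr (u i) (u j))
  else 0

noncomputable def sg (x : ℝ) : ℝ := if 0 < x then 1 else -1

lemma sg_neg {x : ℝ} (h : x ≠ 0) : sg (-x) = -sg x := by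
  unfold sg
  rcases lt_or_gt_of_ne h with h | h
  · rw [if_pos (by linarith), if_neg (by linarith)]; ring
  · rw [if_neg (by linarith), if_pos h]

lemma vx_add (u : ι → E3) (y z : ι → ℝ) (i j k : ι) :
    vx u (y + z) i j k = vx u y i j k + vx u z i j k := sol_add _ _ _ _ _ _ _ _ _

lemma vx_smul (u : ι → E3) (t : ℝ) (y : ι → ℝ) (i j k : ι) :
    vx u (t • y) i j k = t • vx u y i j k := sol_smul _ _ _ _ _ _ _

lemma mu_add (u : ι → E3) (Tr : ι → ι → ι → Prop) (y z : ι → ℝ) (i j : ι) :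
    mu u Tr (y + z) i j = mu u Tr y i j + mu u Tr z i j := by
  unfold mu
  split_ifs
  · simp only [ep, em, vx_add, sub_dt, add_dt]; ring
  · simp

lemma mu_smul (u : ι → E3) (Tr : ι → ι → ι → Prop) (t : ℝ) (y : ι → ℝ) (i j : ι) :
    mu u Tr (t • y) i j = t * mu u Tr y i j := by
  unfold mu
  split_ifs
  · simp only [ep, em, vx_smul, sub_dt, smul_dt]; ring
  · simp

lemma mu_of_not {u : ι → E3} {Tr : ι → ι → ι → Prop} {i j : ι} (h : ¬ Adj Tr i j)
    (y : ι → ℝ) : mu u Tr y i j = 0 := by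
  unfold mu; rw [if_neg h]

namespace Sys

variable {u : ι → E3} {h : ι → ℝ} {Tr : ι → ι → ι → Prop}

lemma adj_symm (S : Sys u h Tr) {i j : ι} (A : Adj Tr i j) : Adj Tr j i := by
  obtain ⟨k, T⟩ := A; exact ⟨k, S.s12 _ _ _ T⟩

lemma adj_ne (S : Sys u h Tr) {i j : ι} (A : Adj Tr i j) : i ≠ j := by
  obtain ⟨k, T⟩ := A; exact S.ne12 T

lemma cr_pos (S : Sys u h Tr) {i j : ι} (A : Adj Tr i j) :
    0 < dt (cr (u i) (u j)) (cr (u i) (u j)) := by
  obtain ⟨k, T⟩ := A; exact dt_self_pos (cr_ne_zero (S.det _ _ _ T))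

lemma exists_opp (S : Sys u h Tr) {i j k : ι} (T : Tr i j k) :
    ∃ k', Tr i j k' ∧ det3 (u i) (u j) (u k) * det3 (u i) (u j) (u k') < 0 := by
  set z : E3 := (-det3 (u i) (u j) (u k)) • cr (u i) (u j) with hz
  have hd := S.det _ _ _ T
  have z0 : z ≠ 0 := smul_ne_zero (neg_ne_zero.2 hd) (cr_ne_zero hd)
  have hne : (fc u h {i, j}).Nonempty := ⟨vx u h i j k, S.vx_mem T, by
    intro l hl
    rcases hl with rfl | rfl
    · exact S.vx1 T h
    · exact S.vx2 T h⟩
  obtain ⟨x, hx, hmax⟩ := (S.isCompact_fc {i, j}).exists_isMaxOn hne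
    (f := fun x => dt z x) (Continuous.continuousOn (by fun_prop))
  have hi := hx.2 i (by simp)
  have hj := hx.2 j (by simp)
  obtain ⟨k', T', H⟩ := S.cover2 hx.1 (S.ne12 T) hi hj
  refine ⟨k', T', ?_⟩
  by_contra hc
  push Not at hc
  have zi : dt (u i) z = 0 := by rw [hz, dt_smul, dt_cr_left, mul_zero]
  have zj : dt (u j) z = 0 := by rw [hz, dt_smul, dt_cr_right, mul_zero]
  have zk : dt (u k') z ≤ 0 := by rw [hz, dt_smul, dt_cr]; linarith
  obtain ⟨δ, hδ, Hm⟩ := exists_move u h x z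
  have hmem : x + δ • z ∈ fc u h {i, j} := by
    refine ⟨fun l => ?_, ?_⟩
    · rcases (hx.1 l).eq_or_lt with e | e
      · rw [dt_add, dt_smul, e]
        rcases H l e with rfl | rfl | rfl
        · rw [zi]; simp
        · rw [zj]; simp
        · nlinarith
      · exact (Hm δ (by rw [abs_of_pos hδ]) l e).le
    · intro l hl
      rcases hl with rfl | rfl
      · rw [dt_add, dt_smul, hi, zi]; simp
      · rw [dt_add, dt_smul, hj, zj]; simp
  have := hmax hmem
  simp only [mem_ofPred_eq, dt_add, dt_smul] at this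
  have := mul_pos hδ (dt_self_pos z0)
  linarith

lemma uniq (S : Sys u h Tr) {i j k k' : ι} (T : Tr i j k) (T' : Tr i j k')
    (hs : 0 < det3 (u i) (u j) (u k) * det3 (u i) (u j) (u k')) : k = k' := by
  by_contra hne
  have h1 := S.strict _ _ _ T k' (S.ne13 T').symm (S.ne23 T').symm (Ne.symm hne)
  have h2 := S.strict _ _ _ T' k (S.ne13 T).symm (S.ne23 T).symm hne
  have e := par_cr (a := u i) (b := u j) (x := vx u h i j k - vx u h i j k')
    (by rw [dt_sub, S.vx1 T, S.vx1 T', sub_self]) (by rw [dt_sub, S.vx2 T, S.vx2 T', sub_self])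
  have e1 := congrArg (dt (u k)) e
  have e2 := congrArg (dt (u k')) e
  rw [dt_smul, dt_smul, dt_sub, dt_cr (u i) (u j) (u k), S.vx3 T] at e1
  rw [dt_smul, dt_smul, dt_sub, dt_cr (u i) (u j) (u k'), S.vx3 T'] at e2
  have hp := S.cr_pos ⟨k, T⟩
  set W := dt (cr (u i) (u j)) (cr (u i) (u j))
  set s := dt (vx u h i j k - vx u h i j k') (cr (u i) (u j))
  have a1 : 0 < s * det3 (u i) (u j) (u k) := by rw [← e1]; apply mul_pos hp; linarith
  have a2 : s * det3 (u i) (u j) (u k') < 0 := by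
    rw [← e2]; apply mul_neg_of_pos_of_neg hp; linarith
  nlinarith [mul_pos a1 (neg_pos.2 a2), sq_nonneg s]

lemma kp_spec (S : Sys u h Tr) {i j : ι} (A : Adj Tr i j) :
    Tr i j (kp u Tr i j) ∧ 0 < det3 (u i) (u j) (u (kp u Tr i j)) := by
  have : ∃ k, Tr i j k ∧ 0 < det3 (u i) (u j) (u k) := by
    obtain ⟨k, T⟩ := A
    obtain ⟨k', T', H⟩ := S.exists_opp T
    rcases lt_or_gt_of_ne (S.det _ _ _ T) with e | e
    · exact ⟨k', T', by nlinarith⟩
    · exact ⟨k, T, e⟩
  unfold kp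
  rw [dif_pos this]
  exact this.choose_spec

lemma km_spec (S : Sys u h Tr) {i j : ι} (A : Adj Tr i j) :
    Tr i j (km u Tr i j) ∧ det3 (u i) (u j) (u (km u Tr i j)) < 0 := by
  have : ∃ k, Tr i j k ∧ det3 (u i) (u j) (u k) < 0 := by
    obtain ⟨k, T⟩ := A
    obtain ⟨k', T', H⟩ := S.exists_opp T
    rcases lt_or_gt_of_ne (S.det _ _ _ T) with e | e
    · exact ⟨k, T, e⟩
    · exact ⟨k', T', by nlinarith⟩
  unfold km
  rw [dif_pos this]
  exact this.choose_spec

lemma eq_kp (S : Sys u h Tr) {i j k : ι} (T : Tr i j k) (hd : 0 < det3 (u i) (u j) (u k)) :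
    k = kp u Tr i j :=
  S.uniq T (S.kp_spec ⟨k, T⟩).1 (mul_pos hd (S.kp_spec ⟨k, T⟩).2)

lemma eq_km (S : Sys u h Tr) {i j k : ι} (T : Tr i j k) (hd : det3 (u i) (u j) (u k) < 0) :
    k = km u Tr i j :=
  S.uniq T (S.km_spec ⟨k, T⟩).1 (mul_pos_of_neg_of_neg hd (S.km_spec ⟨k, T⟩).2)

lemma kp_ne_km (S : Sys u h Tr) {i j : ι} (A : Adj Tr i j) : kp u Tr i j ≠ km u Tr i j := by
  intro e
  have h1 := (S.kp_spec A).2
  have h2 := (S.km_spec A).2
  rw [e] at h1; linarith

lemma kp_swap (S : Sys u h Tr) {i j : ι} (A : Adj Tr i j) : kp u Tr j i = km u Tr i j :=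
  S.eq_km (S.s12 _ _ _ (S.kp_spec (S.adj_symm A)).1) (by
    have := (S.kp_spec (S.adj_symm A)).2
    rw [det3_swap12] at this; linarith)

lemma km_swap (S : Sys u h Tr) {i j : ι} (A : Adj Tr i j) : km u Tr j i = kp u Tr i j :=
  S.eq_kp (S.s12 _ _ _ (S.km_spec (S.adj_symm A)).1) (by
    have := (S.km_spec (S.adj_symm A)).2
    rw [det3_swap12] at this; linarith)

lemma ep_swap (S : Sys u h Tr) {i j : ι} (A : Adj Tr i j) (y : ι → ℝ) :
    ep u Tr y j i = em u Tr y i j := by
  unfold ep em; rw [S.kp_swap A, vx_swap12]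

lemma em_swap (S : Sys u h Tr) {i j : ι} (A : Adj Tr i j) (y : ι → ℝ) :
    em u Tr y j i = ep u Tr y i j := by
  unfold ep em; rw [S.km_swap A, vx_swap12]

lemma ep1 (S : Sys u h Tr) {i j : ι} (A : Adj Tr i j) (y : ι → ℝ) :
    dt (u i) (ep u Tr y i j) = y i := S.vx1 (S.kp_spec A).1 y
lemma ep2 (S : Sys u h Tr) {i j : ι} (A : Adj Tr i j) (y : ι → ℝ) :
    dt (u j) (ep u Tr y i j) = y j := S.vx2 (S.kp_spec A).1 y
lemma em1 (S : Sys u h Tr) {i j : ι} (A : Adj Tr i j) (y : ι → ℝ) :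
    dt (u i) (em u Tr y i j) = y i := S.vx1 (S.km_spec A).1 y
lemma em2 (S : Sys u h Tr) {i j : ι} (A : Adj Tr i j) (y : ι → ℝ) :
    dt (u j) (em u Tr y i j) = y j := S.vx2 (S.km_spec A).1 y
lemma ep_mem (S : Sys u h Tr) {i j : ι} (A : Adj Tr i j) : ep u Tr h i j ∈ poly u h :=
  S.vx_mem (S.kp_spec A).1
lemma em_mem (S : Sys u h Tr) {i j : ι} (A : Adj Tr i j) : em u Tr h i j ∈ poly u h :=
  S.vx_mem (S.km_spec A).1

lemma ep_sub (S : Sys u h Tr) {i j : ι} (A : Adj Tr i j) (y : ι → ℝ) :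
    ep u Tr y i j - em u Tr y i j = mu u Tr y i j • cr (u i) (u j) := by
  have e := par_cr (a := u i) (b := u j) (x := ep u Tr y i j - em u Tr y i j)
    (by rw [dt_sub, S.ep1 A, S.em1 A, sub_self]) (by rw [dt_sub, S.ep2 A, S.em2 A, sub_self])
  have hp := S.cr_pos A
  unfold mu
  rw [if_pos A, div_eq_inv_mul, ← smul_smul, ← e, smul_smul, inv_mul_cancel₀ hp.ne', one_smul]

lemma mu_pos (S : Sys u h Tr) {i j : ι} (A : Adj Tr i j) : 0 < mu u Tr h i j := by
  have e := congrArg (dt (u (kp u Tr i j))) (S.ep_sub A h)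
  rw [dt_sub, dt_smul, dt_cr] at e
  have h1 : dt (u (kp u Tr i j)) (ep u Tr h i j) = h (kp u Tr i j) := S.vx3 (S.kp_spec A).1 h
  have h2 : dt (u (kp u Tr i j)) (em u Tr h i j) < h (kp u Tr i j) :=
    S.strict _ _ _ (S.km_spec A).1 _ (S.ne13 (S.kp_spec A).1).symm
      (S.ne23 (S.kp_spec A).1).symm (S.kp_ne_km A)
  have h3 := (S.kp_spec A).2
  by_contra hc
  push Not at hc
  nlinarith

lemma mu_nonneg (S : Sys u h Tr) (i j : ι) : 0 ≤ mu u Tr h i j := by
  by_cases A : Adj Tr i j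
  · exact (S.mu_pos A).le
  · rw [mu_of_not A]

lemma mu_symm (S : Sys u h Tr) (y : ι → ℝ) (i j : ι) : mu u Tr y j i = mu u Tr y i j := by
  by_cases A : Adj Tr i j
  · unfold mu
    rw [if_pos A, if_pos (S.adj_symm A), S.ep_swap A, S.em_swap A, cr_anti (u i) (u j)]
    simp only [dt_neg, neg_dt, sub_dt]; ring
  · rw [mu_of_not A, mu_of_not (fun B => A (S.adj_symm B))]

/-- points of an edge -/
lemma edge_pt (S : Sys u h Tr) {i j : ι} (hij : i ≠ j) {x : E3} (hx : x ∈ poly u h)
    (hi : dt (u i) x = h i) (hj : dt (u j) x = h j) :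
    Adj Tr i j ∧ ∃ t : ℝ, 0 ≤ t ∧ t ≤ 1 ∧ x = t • ep u Tr h i j + (1 - t) • em u Tr h i j := by
  obtain ⟨k, T, -⟩ := S.cover2 hx hij hi hj
  have A : Adj Tr i j := ⟨k, T⟩
  refine ⟨A, ?_⟩
  have e := par_cr (a := u i) (b := u j) (x := x - em u Tr h i j)
    (by rw [dt_sub, hi, S.em1 A, sub_self]) (by rw [dt_sub, hj, S.em2 A, sub_self])
  have hp := S.cr_pos A
  have hm := S.mu_pos A
  set W := dt (cr (u i) (u j)) (cr (u i) (u j))
  set s := dt (x - em u Tr h i j) (cr (u i) (u j))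
  have e0 : x = em u Tr h i j + (s / W) • cr (u i) (u j) := by
    rw [div_eq_inv_mul, ← smul_smul, ← e, smul_smul, inv_mul_cancel₀ hp.ne', one_smul]; abel
  have e1 : ep u Tr h i j = em u Tr h i j + mu u Tr h i j • cr (u i) (u j) := by
    rw [← S.ep_sub A]; abel
  have b1 := hx (km u Tr i j)
  have b2 := hx (kp u Tr i j)
  have c1 : dt (u (km u Tr i j)) (em u Tr h i j) = h (km u Tr i j) := S.vx3 (S.km_spec A).1 h
  have c2 : dt (u (kp u Tr i j)) (ep u Tr h i j) = h (kp u Tr i j) := S.vx3 (S.kp_spec A).1 h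
  rw [e0, dt_add, dt_smul, dt_cr, c1] at b1
  rw [e1, dt_add, dt_smul, dt_cr] at c2
  rw [e0, dt_add, dt_smul, dt_cr] at b2
  have d1 := (S.km_spec A).2
  have d2 := (S.kp_spec A).2
  have f1 : 0 ≤ s / W := by by_contra hc; push Not at hc; nlinarith
  have f2 : s / W ≤ mu u Tr h i j := by by_contra hc; push Not at hc; nlinarith
  refine ⟨s / W / mu u Tr h i j, by positivity, (div_le_one hm).2 f2, ?_⟩
  rw [e1, smul_add, smul_smul, div_mul_cancel₀ _ hm.ne']
  conv_lhs => rw [e0]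
  module

open Classical in
/-- `mu` as a sum over vertices -/
lemma mu_eq_sum (S : Sys u h Tr) (y : ι → ℝ) (i j : ι) (g : ℝ) :
    mu u Tr y i j * g = ∑ k, if Tr i j k then sg (det3 (u i) (u j) (u k))
      * (dt (vx u y i j k) (cr (u i) (u j)) / dt (cr (u i) (u j)) (cr (u i) (u j))) * g else 0 := by
  by_cases A : Adj Tr i j
  · rw [Finset.sum_eq_add (kp u Tr i j) (km u Tr i j) (S.kp_ne_km A)]
    · rw [if_pos (S.kp_spec A).1, if_pos (S.km_spec A).1]
      unfold mu sg
      rw [if_pos A, if_pos (S.kp_spec A).2, if_neg (not_lt.2 (S.km_spec A).2.le), sub_dt]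
      unfold ep em
      ring
    · intro k _ hk
      rw [if_neg]
      intro T
      rcases lt_or_gt_of_ne (S.det _ _ _ T) with e | e
      · exact hk.2 (S.eq_km T e)
      · exact hk.1 (S.eq_kp T e)
    · simp
    · simp
  · rw [mu_of_not A, zero_mul, Finset.sum_eq_zero]
    intro k _
    rw [if_neg fun T => A ⟨k, T⟩]

end Sys

end Pool.Agent.MP_5cfbf6_gt

end

section

set_option autoImplicit false
set_option linter.unusedSectionVars false

namespace Pool.Agent.MP_5cfbf6_gt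

open Set Filter Topology MeasureTheory Module

variable {ι : Type} [Fintype ι] [DecidableEq ι]

lemma not_extreme {u : ι → E3} {h : ι → ℝ} {x z : E3} (hz : z ≠ 0)
    (H : ∀ l, dt (u l) x = h l → dt (u l) z = 0) : x ∉ (poly u h).extremePoints ℝ := by
  intro hx
  obtain ⟨δ, hδ, Hm⟩ := exists_move u h x z
  have mem : ∀ t : ℝ, |t| ≤ δ → x + t • z ∈ poly u h := by
    intro t ht l
    rcases (hx.1 l).eq_or_lt with e | e
    · rw [dt_add, dt_smul, H l e, e]; simp
    · exact (Hm t ht l e).le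
  have h1 := mem δ (by rw [abs_of_pos hδ])
  have h2 := mem (-δ) (by rw [abs_neg, abs_of_pos hδ])
  have h3 : x ∈ openSegment ℝ (x + δ • z) (x + (-δ) • z) :=
    ⟨1 / 2, 1 / 2, by norm_num, by norm_num, by norm_num, by module⟩
  have := (mem_extremePoints.1 hx).2 _ h1 _ h2 h3
  have e : δ • z = 0 := by simpa using this.1
  rcases smul_eq_zero.1 e with e | e
  · exact hδ.ne' e
  · exact hz e

def act (u : ι → E3) (h : ι → ℝ) (F : Set E3) : Set ι := {l | ∀ x ∈ F, dt (u l) x = h l}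

def Good (Tr : ι → ι → ι → Prop) (A : Set ι) : Prop :=
  A = univ ∨ ∃ i j k, Tr i j k ∧ ∀ l ∈ A, l = i ∨ l = j ∨ l = k

noncomputable def perp (a : E3) : Submodule ℝ E3 := (ℝ ∙ a)ᗮ

lemma mem_perp {a x : E3} : x ∈ perp a ↔ dt a x = 0 := by
  rw [perp, Submodule.mem_orthogonal_singleton_iff_inner_right, dt_eq_inner]

lemma finrank_perp {a : E3} (ha : a ≠ 0) : finrank ℝ (perp a) = 2 := by
  have : Fact (finrank ℝ E3 = 2 + 1) := ⟨by simp⟩
  exact Submodule.finrank_orthogonal_span_singleton ha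

lemma vectorSpan_le_perp {F : Set E3} {a : E3} {c : ℝ} (H : ∀ x ∈ F, dt a x = c) :
    vectorSpan ℝ F ≤ perp a := by
  rw [vectorSpan_def, Submodule.span_le]
  rintro _ ⟨x, hx, y, hy, rfl⟩
  show x - y ∈ perp a
  rw [mem_perp, dt_sub, H x hx, H y hy, sub_self]

lemma fc_anti (u : ι → E3) (h : ι → ℝ) {A B : Set ι} (hAB : A ⊆ B) : fc u h B ⊆ fc u h A :=
  fun _ hx => ⟨hx.1, fun i hi => hx.2 i (hAB hi)⟩

lemma act_anti (u : ι → E3) (h : ι → ℝ) {F G : Set E3} (hFG : F ⊆ G) :
    act u h G ⊆ act u h F := fun _ hl x hx => hl x (hFG hx)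

/-- an exposed face of an H-polyhedron is cut out by its active constraints -/
lemma exists_relint {u : ι → E3} {h : ι → ℝ} {F : Set E3} (hc : Convex ℝ F) (hF : F ⊆ poly u h)
    (hne : F.Nonempty) : ∃ x ∈ F, ∀ l, dt (u l) x = h l → l ∈ act u h F := by
  classical
  have key : ∀ s : Finset ι, ∃ x ∈ F, ∀ l ∈ s, dt (u l) x = h l → l ∈ act u h F := by
    intro s
    induction s using Finset.induction_on with
    | empty => obtain ⟨x, hx⟩ := hne; exact ⟨x, hx, by simp⟩
    | insert a s _ ih =>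
      obtain ⟨x, hx, H⟩ := ih
      by_cases ha : a ∈ act u h F
      · refine ⟨x, hx, fun l hl e => ?_⟩
        rcases Finset.mem_insert.1 hl with rfl | hl
        · exact ha
        · exact H l hl e
      · simp only [act, mem_ofPred_eq, not_forall] at ha
        obtain ⟨y, hy, hy2⟩ := ha
        refine ⟨(1 / 2 : ℝ) • x + (1 / 2 : ℝ) • y,
          hc hx hy (by norm_num) (by norm_num) (by norm_num), fun l hl e => ?_⟩
        rw [dt_add, dt_smul, dt_smul] at e
        have b1 := hF hx l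
        have b2 := hF hy l
        rcases Finset.mem_insert.1 hl with rfl | hl
        · exact absurd (by linarith) hy2
        · exact H l hl (by linarith)
  obtain ⟨x, hx, H⟩ := key Finset.univ
  exact ⟨x, hx, fun l => H l (Finset.mem_univ l)⟩

lemma fc_act_of_exposed {u : ι → E3} {h : ι → ℝ} {F : Set E3}
    (hF : IsExposed ℝ (poly u h) F) (hne : F.Nonempty) : fc u h (act u h F) = F := by
  apply Subset.antisymm
  · intro x hx
    obtain ⟨x0, hx0, H⟩ := exists_relint (hF.convex (convex_poly u h)) hF.subset hne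
    obtain ⟨l, hl⟩ := hF hne
    obtain ⟨δ, hδ, Hm⟩ := exists_move u h x0 (x0 - x)
    have hm : x0 + δ • (x0 - x) ∈ poly u h := by
      intro i
      rcases (hF.subset hx0 i).eq_or_lt with e | e
      · rw [dt_add, dt_smul, dt_sub, e, hx.2 i (H i e)]; simp
      · exact (Hm δ (by rw [abs_of_pos hδ]) i e).le
    have h0 := hx0
    rw [hl] at h0 ⊢
    have h1 := h0.2 _ hm
    simp only [map_add, map_smul, map_sub, smul_eq_mul] at h1
    refine ⟨hx.1, fun y hy => (h0.2 y hy).trans ?_⟩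
    nlinarith
  · intro x hx
    exact ⟨hF.subset hx, fun i hi => hi x hx⟩

namespace Sys

variable {u : ι → E3} {h : ι → ℝ} {Tr : ι → ι → ι → Prop}

lemma extreme_sub (S : Sys u h Tr) {x : E3} (hx : x ∈ (poly u h).extremePoints ℝ) :
    ∃ i j k, Tr i j k ∧ x = vx u h i j k := by
  obtain ⟨i, j, k, T, H⟩ := S.cover x hx.1
  refine ⟨i, j, k, T, S.eq_vx T ?_ ?_ ?_⟩
  · by_contra hc
    obtain ⟨z, hz, e1, e2⟩ := exists_orth2 (u j) (u k)
    refine not_extreme hz (fun l hl => ?_) hx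
    rcases H l hl with rfl | rfl | rfl
    · exact absurd hl hc
    · exact e1
    · exact e2
  · by_contra hc
    obtain ⟨z, hz, e1, e2⟩ := exists_orth2 (u i) (u k)
    refine not_extreme hz (fun l hl => ?_) hx
    rcases H l hl with rfl | rfl | rfl
    · exact e1
    · exact absurd hl hc
    · exact e2
  · by_contra hc
    obtain ⟨z, hz, e1, e2⟩ := exists_orth2 (u i) (u j)
    refine not_extreme hz (fun l hl => ?_) hx
    rcases H l hl with rfl | rfl | rfl
    · exact e1
    · exact e2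
    · exact absurd hl hc

lemma interior_ne (S : Sys u h Tr) : (interior (poly u h)).Nonempty := by
  obtain ⟨x, hx⟩ := S.exists_strict
  refine ⟨x, mem_interior_iff_mem_nhds.2 ?_⟩
  have : ∀ᶠ y in 𝓝 x, ∀ l, dt (u l) y < h l := by
    rw [eventually_all]
    intro l
    exact ContinuousAt.eventually_lt (Continuous.continuousAt (by fun_prop)) continuousAt_const
      (hx l)
  exact this.mono fun y hy l => (hy l).le

lemma isPolytope (S : Sys u h Tr) : IsPolytope (poly u h) := by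
  classical
  refine ⟨⟨(Finset.univ.filter fun t : ι × ι × ι => Tr t.1 t.2.1 t.2.2).image
    fun t => vx u h t.1 t.2.1 t.2.2, ?_⟩, S.interior_ne⟩
  apply Subset.antisymm
  · rw [← closure_convexHull_extremePoints S.isCompact (convex_poly u h)]
    refine closure_minimal (convexHull_mono ?_) ((Finset.finite_toSet _).isClosed_convexHull ℝ)
    intro x hx
    obtain ⟨i, j, k, T, rfl⟩ := S.extreme_sub hx
    simp only [Finset.coe_image, Finset.coe_filter, Finset.mem_univ, true_and, mem_image,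
      mem_ofPred_eq]
    exact ⟨(i, j, k), T, rfl⟩
  · refine convexHull_min ?_ (convex_poly u h)
    intro x hx
    simp only [Finset.coe_image, Finset.coe_filter, Finset.mem_univ, true_and, mem_image,
      mem_ofPred_eq] at hx
    obtain ⟨t, T, rfl⟩ := hx
    exact S.vx_mem T

lemma fc_univ (S : Sys u h Tr) : fc u h univ = ∅ := by
  rw [eq_empty_iff_forall_notMem]
  intro x hx
  obtain ⟨i, j, k, T, H⟩ := S.cover x hx.1
  obtain ⟨k', T', e⟩ := S.exists_opp T
  rcases H k' (hx.2 k' trivial) with e' | e' | e'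
  · exact S.ne13 T' e'.symm
  · exact S.ne23 T' e'.symm
  · rw [e'] at e; nlinarith [sq_nonneg (det3 (u i) (u j) (u k))]

lemma good_spec (S : Sys u h Tr) {A : Set ι} (hA : Good Tr A) :
    IsExposed ℝ (poly u h) (fc u h A) ∧ act u h (fc u h A) = A := by
  classical
  rcases hA with rfl | ⟨i, j, k, T, H⟩
  · rw [S.fc_univ]
    exact ⟨isExposed_empty, by ext l; simp [act]⟩
  · obtain ⟨x0, hx0, H0⟩ := S.exists_act T A H
    have m0 : x0 ∈ fc u h A := ⟨hx0, fun l hl => (H0 l).2 hl⟩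
    refine ⟨fun _ => ⟨dtL (∑ l ∈ Finset.univ.filter (· ∈ A), u l), ?_⟩, ?_⟩
    · ext x
      simp only [mem_ofPred_eq, dtL_apply, sum_dt]
      constructor
      · intro hx
        refine ⟨hx.1, fun y hy => Finset.sum_le_sum fun l hl => ?_⟩
        rw [hx.2 l (by simpa using hl)]; exact hy l
      · rintro ⟨hx, H1⟩
        refine ⟨hx, fun l hl => ?_⟩
        have h2 := H1 x0 hx0
        by_contra hne
        have : ∑ l ∈ Finset.univ.filter (· ∈ A), dt (u l) x
            < ∑ l ∈ Finset.univ.filter (· ∈ A), dt (u l) x0 := by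
          apply Finset.sum_lt_sum
          · intro m hm
            rw [m0.2 m (by simpa using hm)]; exact hx m
          · exact ⟨l, by simpa using hl, by rw [m0.2 l hl]; exact lt_of_le_of_ne (hx l) hne⟩
        linarith
    · ext l
      exact ⟨fun hl => (H0 l).1 (hl x0 m0), fun hl x hx => hx.2 l hl⟩

lemma exposed_spec (S : Sys u h Tr) {F : Set E3} (hF : IsExposed ℝ (poly u h) F) :
    Good Tr (act u h F) ∧ fc u h (act u h F) = F := by
  rcases F.eq_empty_or_nonempty with rfl | hne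
  · have : act u h ∅ = univ := by ext l; simp [act]
    rw [this]; exact ⟨Or.inl rfl, S.fc_univ⟩
  · refine ⟨Or.inr ?_, fc_act_of_exposed hF hne⟩
    obtain ⟨x, hx⟩ := hne
    obtain ⟨i, j, k, T, H⟩ := S.cover x (hF.subset hx)
    exact ⟨i, j, k, T, fun l hl => H l (hl x hx)⟩

theorem sameType (S : Sys u h Tr) {u' : ι → E3} {h' : ι → ℝ} (S' : Sys u' h' Tr) :
    SameType (poly u h) (poly u' h') := by
  refine ⟨{
    toFun := fun F => ⟨fc u' h' (act u h F.1), (S'.good_spec (S.exposed_spec F.2).1).1⟩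
    invFun := fun F => ⟨fc u h (act u' h' F.1), (S.good_spec (S'.exposed_spec F.2).1).1⟩
    left_inv := fun F => Subtype.ext ?_
    right_inv := fun F => Subtype.ext ?_
    map_rel_iff' := ?_ }⟩
  · simp only
    rw [(S'.good_spec (S.exposed_spec F.2).1).2, (S.exposed_spec F.2).2]
  · simp only
    rw [(S.good_spec (S'.exposed_spec F.2).1).2, (S'.exposed_spec F.2).2]
  · intro F G
    simp only [Equiv.coe_fn_mk, Subtype.mk_le_mk]
    constructor
    · intro H
      have := act_anti u' h' H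
      rw [(S'.good_spec (S.exposed_spec F.2).1).2, (S'.good_spec (S.exposed_spec G.2).1).2] at this
      have h2 := fc_anti u h this
      rw [(S.exposed_spec F.2).2, (S.exposed_spec G.2).2] at h2
      exact h2
    · intro H
      exact fc_anti u' h' (act_anti u h H)

lemma good_single (S : Sys u h Tr) (i : ι) : Good Tr {i} := by
  obtain ⟨j, k, T⟩ := S.used i
  exact Or.inr ⟨i, j, k, T, by simp⟩

lemma vectorSpan_face (S : Sys u h Tr) (i : ι) : vectorSpan ℝ (fc u h {i}) = perp (u i) := by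
  apply le_antisymm (vectorSpan_le_perp fun x hx => hx.2 i rfl)
  intro z hz
  rw [mem_perp] at hz
  obtain ⟨c, hc, H⟩ := S.exists_center i
  obtain ⟨δ, hδ, Hm⟩ := exists_move u h c z
  have m1 : c ∈ fc u h {i} := ⟨fun l => by
    by_cases e : l = i
    · rw [e, hc]
    · exact (H l e).le, by simpa using hc⟩
  have m2 : c + δ • z ∈ fc u h {i} := ⟨fun l => by
    by_cases e : l = i
    · rw [e, dt_add, dt_smul, hc, hz]; simp
    · exact (Hm δ (by rw [abs_of_pos hδ]) l (H l e)).le, by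
    intro l hl; rw [mem_singleton_iff.1 hl, dt_add, dt_smul, hc, hz]; simp⟩
  have := vsub_mem_vectorSpan ℝ m2 m1
  simp only [vsub_eq_sub, add_sub_cancel_left] at this
  have h2 := (vectorSpan ℝ (fc u h {i})).smul_mem δ⁻¹ this
  rwa [smul_smul, inv_mul_cancel₀ hδ.ne', one_smul] at h2

lemma twoFaces_eq (S : Sys u h Tr) : twoFaces (poly u h) = range fun i => fc u h {i} := by
  ext F
  constructor
  · rintro ⟨hF, hd⟩
    obtain ⟨-, e⟩ := S.exposed_spec hF
    rcases F.eq_empty_or_nonempty with rfl | hne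
    · rw [vectorSpan_empty] at hd; simp at hd
    rcases (act u h F).eq_empty_or_nonempty with e0 | ⟨i, hi⟩
    · exfalso
      have : F = poly u h := by rw [← e, e0]; ext x; simp [fc]
      have h2 : vectorSpan ℝ F = ⊤ := by
        rw [this, ← direction_affineSpan,
          (convex_poly u h).interior_nonempty_iff_affineSpan_eq_top.1 S.interior_ne,
          AffineSubspace.direction_top]
      rw [h2] at hd; simp at hd
    · refine ⟨i, ?_⟩
      have : act u h F = {i} := by
        refine Subset.antisymm (fun j hj => ?_) (by simpa using hi)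
        by_contra hji
        obtain ⟨x, hx⟩ := hne
        obtain ⟨A, -⟩ := S.edge_pt (Ne.symm hji) (hF.subset hx) (hi x hx) (hj x hx)
        have h1 : vectorSpan ℝ F = perp (u i) :=
          Submodule.eq_of_le_of_finrank_eq (vectorSpan_le_perp hi)
            (by rw [hd, finrank_perp (S.u_ne i)])
        have h2 := vectorSpan_le_perp hj
        rw [h1] at h2
        have h3 : cr (u i) (cr (u i) (u j)) ∈ perp (u i) := mem_perp.2 (dt_cr_left _ _)
        have h4 := mem_perp.1 (h2 h3)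
        have h5 : dt (u j) (cr (u i) (cr (u i) (u j))) = -dt (cr (u i) (u j)) (cr (u i) (u j)) := by
          simp [dt]; ring
        have := S.cr_pos A
        linarith
      simp only
      rw [← this, e]
  · rintro ⟨i, rfl⟩
    exact ⟨(S.good_spec (S.good_single i)).1, by
      simp only; rw [S.vectorSpan_face, finrank_perp (S.u_ne i)]⟩

lemma face_inj (S : Sys u h Tr) : Function.Injective fun i => fc u h {i} := by
  intro i j e
  have h1 := (S.good_spec (S.good_single i)).2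
  have h2 := (S.good_spec (S.good_single j)).2
  simp only at e
  rw [e, h2] at h1
  exact (singleton_injective h1).symm

end Sys

/-- area of face `i` -/
noncomputable def ar (u : ι → E3) (h : ι → ℝ) (i : ι) : ℝ := (μHE[2] (fc u h {i})).toReal

/-- volume -/
noncomputable def vol (u : ι → E3) (h : ι → ℝ) : ℝ := (volume (poly u h)).toReal

lemma Sys.surfaceArea_eq {u : ι → E3} {h : ι → ℝ} {Tr : ι → ι → ι → Prop} (S : Sys u h Tr) :
    surfaceArea (poly u h) = ∑ i, ar u h i := by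
  unfold surfaceArea
  rw [S.twoFaces_eq, finsum_mem_range S.face_inj, finsum_eq_sum_of_fintype]
  rfl

/-- abstract optimality -/
def Opt (u : ι → E3) (h : ι → ℝ) (Tr : ι → ι → ι → Prop) : Prop :=
  ∀ u' h', Sys u' h' Tr → vol u' h' ^ 2 / (∑ i, ar u' h' i) ^ 3 ≤ vol u h ^ 2 / (∑ i, ar u h i) ^ 3

lemma Sys.opt_of_best {u : ι → E3} {h : ι → ℝ} {Tr : ι → ι → ι → Prop} (S : Sys u h Tr)
    (hb : IsBest (poly u h)) : Opt u h Tr := by
  intro u' h' S'
  have := hb.2 _ S'.isPolytope (S.sameType S')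
  unfold isoQuot at this
  rwa [S.surfaceArea_eq, S'.surfaceArea_eq] at this

end Pool.Agent.MP_5cfbf6_gt

end
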