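import Pool.Agent.Mg.F5cfbf6.G9c630b

section

set_option autoImplicit false
set_option linter.unusedSectionVars false

namespace Pool.Agent.MP_5cfbf6_gt

open Set Filter Topology MeasureTheory Module

variable {ι : Type} [Fintype ι] [DecidableEq ι]
variable {u : ι → E3} {h : ι → ℝ} {Tr : ι → ι → ι → Prop}

lemma aa_add_left (y y' z : ι → ℝ) (i : ι) :
    aa u Tr (y + y') z i = aa u Tr y z i + aa u Tr y' z i := by
  simp only [aa, mu_add, ← Finset.sum_add_distrib]
  exact Finset.sum_congr rfl fun j _ => by ring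
lemma aa_add_right (y z z' : ι → ℝ) (i : ι) :
    aa u Tr y (z + z') i = aa u Tr y z i + aa u Tr y z' i := by
  simp only [aa, Pi.add_apply, ← Finset.sum_add_distrib]
  exact Finset.sum_congr rfl fun j _ => by ring
lemma aa_smul_left (t : ℝ) (y z : ι → ℝ) (i : ι) : aa u Tr (t • y) z i = t * aa u Tr y z i := by
  simp only [aa, mu_smul, Finset.mul_sum]
  exact Finset.sum_congr rfl fun j _ => by ring
lemma aa_smul_right (t : ℝ) (y z : ι → ℝ) (i : ι) : aa u Tr y (t • z) i = t * aa u Tr y z i := by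
  simp only [aa, Pi.smul_apply, smul_eq_mul, Finset.mul_sum]
  exact Finset.sum_congr rfl fun j _ => by ring

lemma alg_key (a b v w : E3) :
    dt v (cr a b) * (dt a a * dt b w - dt a b * dt a w)
      - dt w (cr a b) * (dt a a * dt b v - dt a b * dt a v)
      = -dt (cr a b) (cr a b) * det3 a v w := by
  simp [det3, dt]; ring

theorem Sys.aa_symm (S : Sys u h Tr) (hu : ∀ i, dt (u i) (u i) = 1) (y z : ι → ℝ) (i : ι) :
    aa u Tr y z i = aa u Tr z y i := by
  classical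
  let F : ι → ι → ℝ := fun j k => if Tr i j k then
    -(sg (det3 (u i) (u j) (u k)) * det3 (u i) (vx u y i j k) (vx u z i j k)) else 0
  have h1 : aa u Tr y z i - aa u Tr z y i = ∑ j, ∑ k, F j k := by
    simp only [aa, S.mu_eq_sum, ← Finset.sum_sub_distrib]
    refine Finset.sum_congr rfl fun j _ => Finset.sum_congr rfl fun k _ => ?_
    simp only [F]
    by_cases T : Tr i j k
    · simp only [if_pos T]
      have e := alg_key (u i) (u j) (vx u y i j k) (vx u z i j k)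
      rw [hu i, S.vx1 T, S.vx1 T, S.vx2 T, S.vx2 T] at e
      have hp := (S.cr_pos ⟨k, T⟩).ne'
      field_simp
      linear_combination sg (det3 (u i) (u j) (u k)) * e
    · simp only [if_neg T, sub_zero]
  have h2 : ∀ j k, F k j = -F j k := fun j k => by
    simp only [F]
    by_cases T : Tr i j k
    · rw [if_pos T, if_pos (S.s23 _ _ _ T), vx_swap23 u y i j k, vx_swap23 u z i j k,
        det3_swap23 (u i) (u j), sg_neg (S.det _ _ _ T)]
      ring
    · rw [if_neg T, if_neg fun T' => T (S.s23 _ _ _ T'), neg_zero]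
  have h3 : ∑ j, ∑ k, F j k = -∑ j, ∑ k, F j k := by
    conv_lhs => rw [Finset.sum_comm]
    simp only [← Finset.sum_neg_distrib]
    exact Finset.sum_congr rfl fun j _ => Finset.sum_congr rfl fun k _ => h2 j k
  linarith

theorem Sys.TT_swap13 (S : Sys u h Tr) (x y z : ι → ℝ) : TT u Tr x y z = TT u Tr z y x := by
  have e : ∀ x z : ι → ℝ, TT u Tr x y z = ∑ i, ∑ j, x i * mu u Tr y i j * z j
      - ∑ i, ∑ j, mu u Tr y i j * dt (u i) (u j) * (x i * z i) := fun x z => by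
    simp only [TT, aa, Finset.mul_sum, ← Finset.sum_sub_distrib]
    exact Finset.sum_congr rfl fun i _ => Finset.sum_congr rfl fun j _ => by ring
  rw [e, e, Finset.sum_comm]
  congr 1
  · exact Finset.sum_congr rfl fun i _ => Finset.sum_congr rfl fun j _ => by
      rw [S.mu_symm y i j]; ring
  · exact Finset.sum_congr rfl fun i _ => Finset.sum_congr rfl fun j _ => by ring

lemma Sys.mu_lin (S : Sys u h Tr) (o : E3) (i j : ι) : mu u Tr (fun l => dt (u l) o) i j = 0 := by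
  by_cases A : Adj Tr i j
  · have e1 : ep u Tr (fun l => dt (u l) o) i j = o := (eq_sol (S.det _ _ _ (S.kp_spec A).1) o).symm
    have e2 : em u Tr (fun l => dt (u l) o) i j = o := (eq_sol (S.det _ _ _ (S.km_spec A).1) o).symm
    unfold mu
    rw [if_pos A, e1, e2, sub_self, zero_dt, zero_div]
  · exact mu_of_not A _

theorem Sys.closed (S : Sys u h Tr) (hu : ∀ i, dt (u i) (u i) = 1) (y : ι → ℝ) (o : E3) (i : ι) :
    ∑ j, mu u Tr y i j * (dt (u j) o - dt (u i) (u j) * dt (u i) o) = 0 := by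
  have := S.aa_symm hu y (fun l => dt (u l) o) i
  simpa only [aa, S.mu_lin, zero_mul, Finset.sum_const_zero] using this

lemma Sys.alg_step (S : Sys u h Tr) {z : ι → ℝ} (hz : ∀ i j, mu u Tr z i j = 0) {i j k : ι}
    (T : Tr i j k) {w : E3} {a b g : ℝ} (hw : w = a • u i + b • u j + g • u k) (hg : g < 0) :
    ∃ k', Tr i j k' ∧ vx u z i j k' = vx u z i j k ∧ dt w (vx u h i j k) < dt w (vx u h i j k') := by
  obtain ⟨k', T', e⟩ := S.exists_opp T
  have hk : k ≠ k' := by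
    rintro rfl
    nlinarith [sq_nonneg (det3 (u i) (u j) (u k))]
  have h1 := S.strict _ _ _ T' k (S.ne13 T).symm (S.ne23 T).symm hk
  have h2 := S.ep_sub ⟨k, T⟩ z
  rw [hz, zero_smul, sub_eq_zero] at h2
  refine ⟨k', T', ?_, ?_⟩
  · rcases lt_or_gt_of_ne (S.det _ _ _ T) with d | d
    · rw [S.eq_km T d, S.eq_kp T' (by nlinarith)]
      exact h2
    · rw [S.eq_kp T d, S.eq_km T' (by nlinarith)]
      exact h2.symm
  · simp only [hw, add_dt, smul_dt, S.vx1 T, S.vx2 T, S.vx3 T, S.vx1 T', S.vx2 T']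
    nlinarith

theorem Sys.conn (S : Sys u h Tr) {z : ι → ℝ} (hz : ∀ i j, mu u Tr z i j = 0) :
    ∃ o : E3, ∀ l, z l = dt (u l) o := by
  obtain ⟨i0, j0, k0, T0⟩ := S.ne
  refine ⟨vx u z i0 j0 k0, fun l => ?_⟩
  obtain ⟨⟨i, j, k⟩, ⟨T, e⟩, hm⟩ := Set.exists_max_image
    {t : ι × ι × ι | Tr t.1 t.2.1 t.2.2 ∧ vx u z t.1 t.2.1 t.2.2 = vx u z i0 j0 k0}
    (fun t => dt (u l) (vx u h t.1 t.2.1 t.2.2)) (Set.toFinite _) ⟨(i0, j0, k0), T0, rfl⟩
  simp only at T e hm
  rw [← e]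
  by_cases h1 : l = i
  · rw [h1, S.vx1 T]
  by_cases h2 : l = j
  · rw [h2, S.vx2 T]
  by_cases h3 : l = k
  · rw [h3, S.vx3 T]
  exfalso
  obtain ⟨a, b, g, hw⟩ : ∃ a b g : ℝ, u l = a • u i + b • u j + g • u k :=
    ⟨_, _, _, decomp (S.det _ _ _ T) (u l)⟩
  rcases lt_or_ge g 0 with hg | hg
  · obtain ⟨k', T', e1, e2⟩ := S.alg_step hz T hw hg
    exact absurd (hm (i, j, k') ⟨T', e1.trans e⟩) (not_le.2 e2)
  rcases lt_or_ge b 0 with hb | hb
  · obtain ⟨k', T', e1, e2⟩ := S.alg_step hz (S.s23 _ _ _ T) (a := a) (b := g) (g := b)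
      (hw.trans (by abel)) hb
    rw [vx_swap23 u z i j k] at e1
    rw [vx_swap23 u h i j k] at e2
    exact absurd (hm (i, k, k') ⟨T', e1.trans e⟩) (not_le.2 e2)
  rcases lt_or_ge a 0 with ha | ha
  · obtain ⟨k', T', e1, e2⟩ := S.alg_step hz (S.rot T) (a := b) (b := g) (g := a)
      (hw.trans (by abel)) ha
    rw [vx_swap23 u z j i k, vx_swap12 u z i j k] at e1
    rw [vx_swap23 u h j i k, vx_swap12 u h i j k] at e2
    exact absurd (hm (j, k, k') ⟨T', e1.trans e⟩) (not_le.2 e2)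
  obtain ⟨j', k', T'⟩ := S.used l
  have h4 := S.vx1 T' h
  have h5 := S.strict _ _ _ T l h1 h2 h3
  have h6 := S.vx_mem T'
  generalize vx u h l j' k' = x at h4 h6
  rw [hw] at h4 h5
  simp only [add_dt, smul_dt, S.vx1 T, S.vx2 T, S.vx3 T] at h4 h5
  linarith [mul_le_mul_of_nonneg_left (h6 i) ha, mul_le_mul_of_nonneg_left (h6 j) hb,
    mul_le_mul_of_nonneg_left (h6 k) hg]

lemma Sys.alg_DD (S : Sys u h Tr) (hu : ∀ i, dt (u i) (u i) = 1) {c : ι → E3} (hc : Ctr u h c)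
    (i : ι) : ∑ j, DD u Tr h c i j = h i * aa u Tr h h i := by
  have := S.closed hu h (c i) i
  rw [(hc i).1] at this
  rw [← sub_zero (aa u Tr h h i), ← this]
  simp only [DD, aa, ← Finset.sum_sub_distrib, Finset.mul_sum]
  exact Finset.sum_congr rfl fun j _ => by ring

theorem Sys.ar_aa (S : Sys u h Tr) (hu : ∀ i, dt (u i) (u i) = 1) (hh : ∀ i, 0 < h i) (i : ι) :
    ar u h i = aa u Tr h h i / 2 := by
  obtain ⟨c, hc⟩ := S.exists_ctr
  have h1 := S.ar_eq hh hc i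
  have h2 : ‖u i‖ = 1 := by
    have := hu i
    rw [dt_self] at this
    exact (pow_eq_one_iff_of_nonneg (norm_nonneg _) two_ne_zero).1 this
  rw [h2, one_mul, S.alg_DD hu hc, mul_div_assoc] at h1
  exact mul_left_cancel₀ (hh i).ne' h1

theorem Sys.vol_TT (S : Sys u h Tr) (hu : ∀ i, dt (u i) (u i) = 1) (hh : ∀ i, 0 < h i) :
    vol u h = TT u Tr h h h / 6 := by
  obtain ⟨c, hc⟩ := S.exists_ctr
  simp only [S.vol_eq hh hc, S.alg_DD hu hc, TT]

theorem Sys.ar_pos (S : Sys u h Tr) (hh : ∀ i, 0 < h i) (i : ι) : 0 < ar u h i := by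
  obtain ⟨c, hc⟩ := S.exists_ctr
  have h1 := S.ar_eq hh hc i
  have h2 := mul_pos (norm_pos_iff.2 (S.u_ne i)) (S.sum_DD_pos hh hc i)
  exact (mul_pos_iff_of_pos_left (hh i)).1 (by linarith)

theorem Sys.mink (S : Sys u h Tr) (hu : ∀ i, dt (u i) (u i) = 1) (hh : ∀ i, 0 < h i) (o : E3) :
    ∑ i, ar u h i * dt (u i) o = 0 := by
  have h1 := S.TT_swap13 (fun l => dt (u l) o) h h
  have h2 : ∀ i, aa u Tr h (fun l => dt (u l) o) i = 0 := fun i => S.closed hu h o i
  simp only [TT, h2, mul_zero, Finset.sum_const_zero] at h1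
  rw [← zero_div 2, ← h1, Finset.sum_div]
  exact Finset.sum_congr rfl fun i _ => by rw [S.ar_aa hu hh]; ring

theorem Sys.ar_one (S : Sys u 1 Tr) (hu : ∀ i, dt (u i) (u i) = 1) (i : ι) :
    ar u 1 i = (∑ j, mu u Tr 1 i j * (1 - dt (u i) (u j))) / 2 := by
  rw [S.ar_aa hu fun _ => one_pos]
  simp only [aa, Pi.one_apply, mul_one]

end Pool.Agent.MP_5cfbf6_gt

end

section

set_option autoImplicit false
set_option linter.unusedSectionVars false

namespace Pool.Agent.MP_5cfbf6_gt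

open Set Filter Topology MeasureTheory Module

variable {ι : Type} [Fintype ι] [DecidableEq ι]
variable {u : ι → E3} {Tr : ι → ι → ι → Prop}

lemma var1_one_pos (i : ι) : 0 < (1 : ι → ℝ) i := one_pos

lemma var1_norm_le {a : E3} (h : dt a a ≤ 1) : ‖a‖ ≤ 1 := by
  rw [dt_self] at h
  nlinarith [norm_nonneg a]

lemma var1_norm_eq {a : E3} (h : dt a a = 1) : ‖a‖ = 1 := by
  rw [dt_self] at h
  nlinarith [norm_nonneg a]

lemma Sys.var1_ar (S : Sys u 1 Tr) (hu : ∀ i, dt (u i) (u i) = 1) {c : ι → E3} (hc : Ctr u 1 c)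
    (i : ι) : ar u 1 i = (∑ j, DD u Tr 1 c i j) / 2 := by
  have := S.ar_eq var1_one_pos hc i
  rwa [var1_norm_eq (hu i), Pi.one_apply, one_mul, one_mul] at this

lemma Sys.var1_sum_ar (S : Sys u 1 Tr) (hu : ∀ i, dt (u i) (u i) = 1) :
    ∑ i, ar u 1 i = 3 * vol u 1 := by
  rw [S.vol_eq var1_one_pos (S.ctr_u hu), Finset.sum_congr rfl fun i _ => S.var1_ar hu
    (S.ctr_u hu) i, ← Finset.sum_div]
  ring

lemma Sys.var1_sum_pos (S : Sys u 1 Tr) : 0 < ∑ i, ar u 1 i := by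
  obtain ⟨i, -⟩ := S.ne
  exact Finset.sum_pos (fun i _ => S.ar_pos var1_one_pos i) ⟨i, Finset.mem_univ _⟩

theorem Sys.vol_le_of (S : Sys u 1 Tr) (O : Opt u 1 Tr) (hu : ∀ i, dt (u i) (u i) = 1)
    {a : ι → E3} (Sa : Sys a 1 Tr) (ha : ∀ i, dt (a i) (a i) ≤ 1) : vol u 1 ≤ vol a 1 := by
  obtain ⟨c, hc⟩ := Sa.exists_ctr
  have h1 : ∑ i, ar a 1 i ≤ 3 * vol a 1 := by
    have : ∑ i, ar a 1 i ≤ ∑ i, (∑ j, DD a Tr 1 c i j) / 2 := Finset.sum_le_sum fun i _ => by
      have e := Sa.ar_eq var1_one_pos hc i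
      rw [Pi.one_apply, one_mul] at e
      have := mul_le_of_le_one_left (Sa.sum_DD_pos var1_one_pos hc i).le (var1_norm_le (ha i))
      linarith
    rw [← Finset.sum_div] at this
    rw [Sa.vol_eq var1_one_pos hc]
    linarith
  have h2 := O a 1 Sa
  have h3 := Sa.var1_sum_pos
  have h4 := S.var1_sum_pos
  rw [S.var1_sum_ar hu] at h2 h4
  have hV : 0 < vol u 1 := by linarith
  have hV' : 0 < vol a 1 := by linarith
  have h5 : vol a 1 ^ 2 / (3 * vol a 1) ^ 3 ≤ vol a 1 ^ 2 / (∑ i, ar a 1 i) ^ 3 := by gcongr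
  have h6 := h5.trans h2
  have e : ∀ V : ℝ, 0 < V → V ^ 2 / (3 * V) ^ 3 = 1 / (27 * V) := fun V hV => by
    field_simp
    norm_num
  rw [e _ hV, e _ hV'] at h6
  have := le_of_one_div_le_one_div (by positivity) h6
  linarith

lemma var1_dt_deriv {a : ℝ → E3} {w : E3} (h : HasDerivAt a w 0) (x : E3) :
    HasDerivAt (fun ε => dt (a ε) x) (dt w x) 0 := by
  have := (dtL x).hasFDerivAt.comp_hasDerivAt 0 h
  simpa only [Function.comp_def, dtL_apply, dt_comm x] using this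

lemma var1_inv_deriv {f g k : ℝ → ℝ} {p q r : ℝ} (hf : HasDerivAt f p 0) (hg : HasDerivAt g q 0)
    (hk : HasDerivAt k r 0) (f0 : f 0 = 1) (g0 : g 0 = 1) (k0 : k 0 = 1) :
    HasDerivAt (fun ε => 1 / (6 * f ε * g ε * k ε)) (-((p + q + r) / 6)) 0 := by
  have h1 := (((hf.const_mul 6).mul hg).mul hk).inv (by simp [f0, g0, k0])
  simp only [one_div]
  refine HasDerivAt.congr_deriv h1 ?_
  simp only [Pi.mul_apply, f0, g0, k0]
  ring

/-- first variation of the flag upper bound -/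
lemma Sys.var1_key (S : Sys u 1 Tr) {c : ι → E3} (hc : Ctr u 1 c) {a : ℝ → ι → E3} {w : ι → E3}
    (h0 : a 0 = u) (ha : ∀ k, HasDerivAt (fun ε => a ε k) (w k) 0) {φ : ℝ → ℝ} {φ' : ℝ}
    (hφ : HasDerivAt φ φ' 0) (hφ0 : φ 0 = vol u 1) (hle : ∀ᶠ ε in 𝓝 (0 : ℝ), φ ε ≤ vol (a ε) 1) :
    ∑ k, ∑ l, DD u Tr 1 c k l * (dt (w k) (c k) + dt (w k) (ep u Tr 1 k l)
      + dt (w k) (em u Tr 1 k l)) = -6 * φ' := by
  let g : ι → ι → ℝ → ℝ := fun k l ε =>
    1 / (6 * dt (a ε k) (c k) * dt (a ε k) (ep u Tr 1 k l) * dt (a ε k) (em u Tr 1 k l))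
  have a1 : ∀ k, dt (a 0 k) (c k) = 1 := fun k => by rw [h0]; exact (hc k).1
  have a2 : ∀ k l, Adj Tr k l → dt (a 0 k) (ep u Tr 1 k l) = 1 := fun k l A => by
    rw [h0]; exact S.ep1 A 1
  have a3 : ∀ k l, Adj Tr k l → dt (a 0 k) (em u Tr 1 k l) = 1 := fun k l A => by
    rw [h0]; exact S.em1 A 1
  have z : ∀ k l, ¬ Adj Tr k l → DD u Tr 1 c k l = 0 := fun k l A => by simp [DD, mu_of_not A]
  have hG : HasDerivAt (fun ε => ∑ k, ∑ l, DD u Tr 1 c k l * g k l ε)
      (∑ k, ∑ l, DD u Tr 1 c k l * -((dt (w k) (c k) + dt (w k) (ep u Tr 1 k l)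
        + dt (w k) (em u Tr 1 k l)) / 6)) 0 := by
    refine HasDerivAt.fun_sum fun k _ => HasDerivAt.fun_sum fun l _ => ?_
    by_cases A : Adj Tr k l
    · exact (var1_inv_deriv (var1_dt_deriv (ha k) _) (var1_dt_deriv (ha k) _)
        (var1_dt_deriv (ha k) _) (a1 k) (a2 k l A) (a3 k l A)).const_mul _
    · simp only [z k l A, zero_mul]
      exact hasDerivAt_const _ _
  have hG0 : ∑ k, ∑ l, DD u Tr 1 c k l * g k l 0 = vol u 1 := by
    rw [S.vol_eq var1_one_pos hc, Finset.sum_div]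
    refine Finset.sum_congr rfl fun k _ => ?_
    rw [Finset.sum_div]
    refine Finset.sum_congr rfl fun l _ => ?_
    by_cases A : Adj Tr k l
    · simp only [g, a1 k, a2 k l A, a3 k l A]
      ring
    · simp [z k l A]
  have hp : ∀ᶠ ε in 𝓝 (0 : ℝ), ∀ k l, Adj Tr k l → 0 < dt (a ε k) (c k) ∧
      0 < dt (a ε k) (ep u Tr 1 k l) ∧ 0 < dt (a ε k) (em u Tr 1 k l) := by
    simp only [eventually_all]
    intro k l A
    refine Eventually.and ?_ (Eventually.and ?_ ?_)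
    · exact continuousAt_const.eventually_lt (var1_dt_deriv (ha k) _).continuousAt
        (by rw [a1]; exact one_pos)
    · exact continuousAt_const.eventually_lt (var1_dt_deriv (ha k) _).continuousAt
        (by rw [a2 k l A]; exact one_pos)
    · exact continuousAt_const.eventually_lt (var1_dt_deriv (ha k) _).continuousAt
        (by rw [a3 k l A]; exact one_pos)
  have hm : IsLocalMin (fun ε => ∑ k, ∑ l, DD u Tr 1 c k l * g k l ε - φ ε) 0 := by
    filter_upwards [hp, hle] with ε h1 h2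
    have := S.vol_le_flags var1_one_pos hc (poly (a ε) 1) (fun k l => tet (dt (a ε k) (c k))
      (dt (a ε k) (ep u Tr 1 k l)) (dt (a ε k) (em u Tr 1 k l))) (fun k l => g k l ε)
      (fun k l _ y hy hx => ⟨hy, by
        have := hx k
        rw [dt_lin, Pi.one_apply] at this
        linarith⟩)
      (fun k l A => by
        obtain ⟨b1, b2, b3⟩ := h1 k l A
        positivity)
      (fun k l A => by
        obtain ⟨b1, b2, b3⟩ := h1 k l A
        exact (vol_tet b1 b2 b3).le)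
    rw [hG0, hφ0, sub_self, sub_nonneg]
    exact h2.trans this
  have e := hm.hasDerivAt_eq_zero (hG.sub hφ)
  rw [sub_eq_zero] at e
  rw [← e, Finset.mul_sum]
  refine Finset.sum_congr rfl fun k _ => ?_
  rw [Finset.mul_sum]
  exact Finset.sum_congr rfl fun l _ => by ring

lemma Sys.var1_tangent (S : Sys u 1 Tr) (O : Opt u 1 Tr) (hu : ∀ i, dt (u i) (u i) = 1)
    {c : ι → E3} (hc : Ctr u 1 c) {w : ι → E3} (hw : ∀ k, dt (u k) (w k) = 0) :
    ∑ k, ∑ l, DD u Tr 1 c k l * (dt (w k) (c k) + dt (w k) (ep u Tr 1 k l)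
      + dt (w k) (em u Tr 1 k l)) = 0 := by
  let a : ℝ → ι → E3 := fun ε k => (1 - ε ^ 2 * dt (w k) (w k)) • u k + ε • w k
  have h0 : a 0 = u := by
    ext1 k
    simp [a]
  have hS : ∀ᶠ ε in 𝓝 (0 : ℝ), Sys (a ε) 1 Tr := by
    have hc : Continuous fun ε : ℝ => (a ε, (1 : ι → ℝ)) := by fun_prop
    exact (hc.tendsto' 0 (u, 1) (by rw [h0])).eventually S.eventually
  have hs : ∀ᶠ ε in 𝓝 (0 : ℝ), ∀ k, ε ^ 2 * dt (w k) (w k) < 1 := by
    simp only [eventually_all]
    intro k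
    exact ContinuousAt.eventually_lt (by fun_prop) continuousAt_const (by simp)
  have := S.var1_key hc (a := a) (w := w) h0 (fun k => by
      have h1 : HasDerivAt (fun ε : ℝ => 1 - ε ^ 2 * dt (w k) (w k)) 0 0 := by
        simpa using ((hasDerivAt_pow 2 (0 : ℝ)).mul_const (dt (w k) (w k))).const_sub 1
      exact ((h1.smul_const (u k)).add ((hasDerivAt_id (0 : ℝ)).smul_const (w k))).congr_deriv
        (by simp))
    (hasDerivAt_const 0 (vol u 1)) rfl (by
      filter_upwards [hS, hs] with ε h1 h2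
      refine S.vol_le_of O hu h1 fun k => ?_
      simp only [a, dt_add, add_dt, dt_smul, smul_dt, hu, hw, dt_comm (w k) (u k)]
      nlinarith [mul_nonneg (mul_nonneg (sq_nonneg ε) (dt_self_nonneg (w k)))
        (sub_nonneg.2 (h2 k).le)])
  simpa using this

lemma Sys.var1_ctr (S : Sys u 1 Tr) (hu : ∀ i, dt (u i) (u i) = 1) (i : ι)
    {c : E3} (hc1 : dt (u i) c = 1) (hc : ∀ l, l ≠ i → dt (u l) c < 1) :
    Ctr u 1 (Function.update u i c) := fun k => by
  by_cases e : k = i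
  · subst e
    rw [Function.update_self]
    exact ⟨hc1, hc⟩
  · rw [Function.update_of_ne e]
    exact S.ctr_u hu k

theorem Sys.first_var (S : Sys u 1 Tr) (O : Opt u 1 Tr) (hu : ∀ i, dt (u i) (u i) = 1) (i : ι)
    {c : E3} (hc1 : dt (u i) c = 1) (hc : ∀ l, l ≠ i → dt (u l) c < 1) {v : E3}
    (hv : dt (u i) v = 0) :
    ∑ j, mu u Tr 1 i j * (1 - dt (u j) c)
      * (dt v c + dt v (ep u Tr 1 i j) + dt v (em u Tr 1 i j)) = 0 := by
  have := S.var1_tangent O hu (S.var1_ctr hu i hc1 hc) (w := Pi.single i v) fun k => by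
    by_cases e : k = i
    · rw [e, Pi.single_eq_same, hv]
    · rw [Pi.single_eq_of_ne e, dt_zero]
  rw [Finset.sum_eq_single i (fun k _ e => by simp [Pi.single_eq_of_ne e]) (by simp)] at this
  simpa [DD] using this

lemma Sys.var1_ep (S : Sys u 1 Tr) {i j : ι} (A : Adj Tr i j) :
    ep u Tr 1 i j ∈ fc u 1 {i} ∧ em u Tr 1 i j ∈ fc u 1 {i} :=
  ⟨⟨S.ep_mem A, fun l hl => by rw [mem_singleton_iff.1 hl]; exact S.ep1 A 1⟩,
   ⟨S.em_mem A, fun l hl => by rw [mem_singleton_iff.1 hl]; exact S.em1 A 1⟩⟩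

theorem Sys.strip (S : Sys u 1 Tr) (O : Opt u 1 Tr) (hu : ∀ i, dt (u i) (u i) = 1) (i : ι)
    {e : E3} {ρ : ℝ} (he : dt (u i) e = 0) (H : ∀ x ∈ fc u 1 {i}, dt e x ≤ ρ) :
    ∀ x ∈ fc u 1 {i}, -2 * ρ ≤ dt e x := by
  have key : ∀ c : E3, dt (u i) c = 1 → (∀ l, l ≠ i → dt (u l) c < 1) → -2 * ρ ≤ dt e c := by
    intro c hc1 hc
    have h1 := S.first_var O hu i hc1 hc he
    have hC := S.var1_ctr hu i hc1 hc
    have eD : ∀ j, DD u Tr 1 (Function.update u i c) i j = mu u Tr 1 i j * (1 - dt (u j) c) :=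
      fun j => by simp [DD]
    have h2 := S.sum_DD_pos var1_one_pos hC i
    simp only [← eD] at h1
    have h3 : ∑ j, DD u Tr 1 (Function.update u i c) i j * (dt e c + dt e (ep u Tr 1 i j)
        + dt e (em u Tr 1 i j)) ≤
        ∑ j, DD u Tr 1 (Function.update u i c) i j * (dt e c + 2 * ρ) := by
      refine Finset.sum_le_sum fun j _ => ?_
      by_cases A : Adj Tr i j
      · refine mul_le_mul_of_nonneg_left ?_ (S.DD_nonneg var1_one_pos hC i j)
        linarith [H _ (S.var1_ep A).1, H _ (S.var1_ep A).2]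
      · simp [DD, mu_of_not A]
    rw [h1, ← Finset.sum_mul] at h3
    linarith [nonneg_of_mul_nonneg_right h3 h2]
  intro x hx
  have ht : Tendsto (fun t : ℝ => (1 - t) * dt e x) (𝓝[>] 0) (𝓝 (dt e x)) :=
    (Continuous.tendsto' (by fun_prop) 0 _ (by simp)).mono_left nhdsWithin_le_nhds
  refine ge_of_tendsto ht ?_
  filter_upwards [Ioo_mem_nhdsGT (zero_lt_one' ℝ)] with t ht
  have := key ((1 - t) • x + t • u i) (by
      rw [dt_add, dt_smul, dt_smul, hx.2 i rfl, hu, Pi.one_apply]; ring) fun l hl => by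
    have b1 : dt (u l) x ≤ 1 := hx.1 l
    have b2 := S.cos_lt hu hl
    rw [dt_add, dt_smul, dt_smul]
    nlinarith [ht.1, ht.2]
  rwa [dt_add, dt_smul, dt_smul, dt_comm e (u i), he, mul_zero, add_zero] at this

lemma var1_vol_stretch (u : ι → E3) (x : E3) {ε : ℝ} (h : 0 < 1 + ε * dt x x) :
    vol (fun k => u k + ε • dt (u k) x • x) 1 = vol u 1 / (1 + ε * dt x x) := by
  let M := lin (!₂[1, 0, 0] + (ε * x 0) • x) (!₂[0, 1, 0] + (ε * x 1) • x)
    (!₂[0, 0, 1] + (ε * x 2) • x)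
  have hd : LinearMap.det M = 1 + ε * dt x x := by
    rw [det_lin]
    simp [det3, dt]
    ring
  have e : poly (fun k => u k + ε • dt (u k) x • x) 1 = M ⁻¹' poly u 1 := by
    ext y
    refine forall_congr' fun k => ?_
    have : dt (u k + ε • dt (u k) x • x) y = dt (u k) (M y) := by
      rw [dt_lin]
      simp [dt]
      ring
    rw [this]
  unfold vol
  rw [e, Measure.addHaar_preimage_linearMap _ (by rw [hd]; exact h.ne'), hd, ENNReal.toReal_mul,
    ENNReal.toReal_ofReal (abs_nonneg _), abs_of_pos (inv_pos.2 h), div_eq_inv_mul]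

lemma Sys.var1_moment (S : Sys u 1 Tr) (O : Opt u 1 Tr) (hu : ∀ i, dt (u i) (u i) = 1) (x : E3) :
    ∑ k, ar u 1 k * dt (u k) x ^ 2 = vol u 1 * dt x x := by
  have h1 : HasDerivAt (fun ε : ℝ => 1 + ε * dt x x) (dt x x) 0 := by
    simpa using ((hasDerivAt_id (0 : ℝ)).mul_const (dt x x)).const_add 1
  have h2 : HasDerivAt (fun ε : ℝ => vol u 1 / (1 + ε * dt x x)) (-(vol u 1 * dt x x)) 0 := by
    have := (hasDerivAt_const (0 : ℝ) (vol u 1)).div h1 (by simp)
    exact this.congr_deriv (by simp)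
  have := S.var1_key (S.ctr_u hu) (a := fun ε k => u k + ε • dt (u k) x • x)
    (w := fun k => dt (u k) x • x) (by ext1 k; simp) (fun k => by
      simpa using ((hasDerivAt_id (0 : ℝ)).smul_const (dt (u k) x • x)).const_add (u k))
    h2 (by simp) (by
      filter_upwards [(continuousAt_const (y := (0 : ℝ))).eventually_lt h1.continuousAt
        (by simp)] with ε hε
      exact (var1_vol_stretch u x hε).ge)
  have e : ∀ k, ∑ l, DD u Tr 1 u k l * (dt (dt (u k) x • x) (u k)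
      + dt (dt (u k) x • x) (ep u Tr 1 k l) + dt (dt (u k) x • x) (em u Tr 1 k l))
      = 6 * (ar u 1 k * dt (u k) x ^ 2) := fun k => by
    have f := S.first_var O hu k (hu k) (fun l hl => S.cos_lt hu hl) (v := x - dt (u k) x • u k)
      (by rw [dt_sub, dt_smul, hu]; ring)
    have : ∑ l, DD u Tr 1 u k l * (dt (dt (u k) x • x) (u k)
        + dt (dt (u k) x • x) (ep u Tr 1 k l) + dt (dt (u k) x • x) (em u Tr 1 k l))
        = dt (u k) x * ∑ j, mu u Tr 1 k j * (1 - dt (u j) (u k))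
          * (dt (x - dt (u k) x • u k) (u k) + dt (x - dt (u k) x • u k) (ep u Tr 1 k j)
            + dt (x - dt (u k) x • u k) (em u Tr 1 k j))
          + 3 * dt (u k) x ^ 2 * ∑ l, DD u Tr 1 u k l := by
      rw [Finset.mul_sum, Finset.mul_sum, ← Finset.sum_add_distrib]
      refine Finset.sum_congr rfl fun l _ => ?_
      by_cases A : Adj Tr k l
      · simp only [DD, sub_dt, smul_dt, hu, S.ep1 A, S.em1 A, Pi.one_apply]
        ring
      · simp [DD, mu_of_not A]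
    rw [this, f, S.var1_ar hu (S.ctr_u hu)]
    ring
  rw [Finset.sum_congr rfl fun k _ => e k, ← Finset.mul_sum] at this
  linarith

theorem Sys.radius (S : Sys u 1 Tr) (O : Opt u 1 Tr) (hu : ∀ i, dt (u i) (u i) = 1) :
    ∀ x ∈ poly u 1, dt x x ≤ 9 := by
  intro x hx
  have h1 := S.var1_moment O hu x
  have h2 := S.mink hu var1_one_pos x
  have h3 := S.var1_sum_ar hu
  have h4 := S.var1_sum_pos
  have h5 : 0 ≤ ∑ k, ar u 1 k * ((dt (u k) x + ‖x‖) * (1 - dt (u k) x)) :=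
    Finset.sum_nonneg fun k _ => by
      have b1 := abs_le.1 (abs_dt_le (u k) x)
      rw [var1_norm_eq (hu k), one_mul] at b1
      have b2 : dt (u k) x ≤ 1 := hx k
      exact mul_nonneg (S.ar_pos var1_one_pos k).le
        (mul_nonneg (by linarith [b1.1]) (by linarith))
  have h6 : ∑ k, ar u 1 k * ((dt (u k) x + ‖x‖) * (1 - dt (u k) x)) =
      (1 - ‖x‖) * ∑ k, ar u 1 k * dt (u k) x + ‖x‖ * ∑ k, ar u 1 k
        - ∑ k, ar u 1 k * dt (u k) x ^ 2 := by
    rw [Finset.mul_sum, Finset.mul_sum, ← Finset.sum_add_distrib, ← Finset.sum_sub_distrib]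
    exact Finset.sum_congr rfl fun k _ => by ring
  rw [h6, h1, h2, h3, dt_self] at h5
  rw [dt_self]
  have hV : 0 < vol u 1 := by linarith
  have h7 : 0 ≤ vol u 1 * (3 * ‖x‖ - ‖x‖ ^ 2) := by linarith
  have h8 := nonneg_of_mul_nonneg_right h7 hV
  nlinarith [norm_nonneg x]

end Pool.Agent.MP_5cfbf6_gt

end
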