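import Pool.Agent.Mg.F5cfbf6.G9c630b
import Pool.Agent.Mg.F5cfbf6.Gf3e060
import Pool.Agent.MP_7791e4_an.BM
import Pool.Agent.Mg.F5cfbf6.Gd23183

section

set_option autoImplicit false
set_option linter.unusedSectionVars false

namespace Pool.Agent.MP_5cfbf6_gt

open Set Filter Topology MeasureTheory Module
open scoped Pointwise

variable {ι : Type} [Fintype ι] [DecidableEq ι]
variable {u : ι → E3} {h : ι → ℝ} {Tr : ι → ι → ι → Prop}

lemma aff_fc (u : ι → E3) (h : ι → ℝ) {t : ℝ} (ht : 0 < t) (o : E3) (A : Set ι) :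
    fc u (fun l => t * h l + dt (u l) o) A = o +ᵥ (t • fc u h A) := by
  ext x
  rw [mem_vadd_set_iff_neg_vadd_mem, mem_smul_set_iff_inv_smul_mem₀ ht.ne']
  have e : ∀ l, dt (u l) (t⁻¹ • (-o +ᵥ x)) = (dt (u l) x - dt (u l) o) / t := fun l => by
    rw [vadd_eq_add, dt_smul, dt_add, dt_neg]; field_simp; ring
  simp only [fc, poly, mem_setOf_eq, e, div_le_iff₀ ht, div_eq_iff ht.ne']
  refine and_congr (forall_congr' fun l => ⟨fun H => by linarith, fun H => by linarith⟩)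
    (forall₂_congr fun l _ => ⟨fun H => by linarith, fun H => by linarith⟩)

lemma aff_poly (u : ι → E3) (h : ι → ℝ) {t : ℝ} (ht : 0 < t) (o : E3) :
    poly u (fun l => t * h l + dt (u l) o) = o +ᵥ (t • poly u h) := by
  have e : ∀ h : ι → ℝ, poly u h = fc u h ∅ := fun h => by ext x; simp [fc]
  rw [e, e, aff_fc u h ht]

theorem Sys.affine (S : Sys u h Tr) {t : ℝ} (ht : 0 < t) (o : E3) :
    Sys u (fun l => t * h l + dt (u l) o) Tr := by
  refine ⟨S.s12, S.s23, S.det, fun i j k T l h1 h2 h3 => ?_, fun x hx => ?_, ?_, S.used, S.ne⟩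
  · have e : vx u (fun l => t * h l + dt (u l) o) i j k = t • vx u h i j k + o :=
      eq_of_dt3 (S.det _ _ _ T) (by rw [S.vx1 T, dt_add, dt_smul, S.vx1 T])
        (by rw [S.vx2 T, dt_add, dt_smul, S.vx2 T]) (by rw [S.vx3 T, dt_add, dt_smul, S.vx3 T])
    rw [e, dt_add, dt_smul]
    nlinarith [S.strict i j k T l h1 h2 h3]
  · rw [aff_poly u h ht] at hx
    obtain ⟨_, ⟨y, hy, rfl⟩, rfl⟩ := hx
    obtain ⟨i, j, k, T, H⟩ := S.cover y hy
    refine ⟨i, j, k, T, fun l hl => H l ?_⟩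
    simp only [vadd_eq_add, dt_add, dt_smul] at hl
    exact mul_left_cancel₀ ht.ne' (by linarith)
  · rw [aff_poly u h ht]
    exact (S.bdd.smul₀ t).vadd o

theorem vol_affine (u : ι → E3) (h : ι → ℝ) {t : ℝ} (ht : 0 < t) (o : E3) :
    vol u (fun l => t * h l + dt (u l) o) = t ^ 3 * vol u h := by
  rw [vol, aff_poly u h ht, measure_vadd, Measure.addHaar_smul, ENNReal.toReal_mul,
    ENNReal.toReal_ofReal (abs_nonneg _), vol, abs_of_pos (by positivity)]
  simp

theorem ar_affine (u : ι → E3) (h : ι → ℝ) {t : ℝ} (ht : 0 < t) (o : E3) (i : ι) :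
    ar u (fun l => t * h l + dt (u l) o) i = t ^ 2 * ar u h i := by
  rw [ar, aff_fc u h ht, measure_vadd, Measure.euclideanHausdorffMeasure_smul₀ 2 ht.ne', ar]
  simp [ENNReal.smul_def, abs_of_pos ht]

theorem Opt.affine (O : Opt u h Tr) {t : ℝ} (ht : 0 < t) (o : E3) :
    Opt u (fun l => t * h l + dt (u l) o) Tr := by
  intro u' h' S'
  refine (O u' h' S').trans (le_of_eq ?_)
  simp only [vol_affine u h ht, ar_affine u h ht, ← Finset.mul_sum, mul_pow, ← pow_mul]
  rw [mul_div_mul_left _ _ (by positivity)]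

end Pool.Agent.MP_5cfbf6_gt

end

section

set_option autoImplicit false
set_option linter.unusedSectionVars false

namespace Pool.Agent.MP_5cfbf6_gt

open Set Filter Topology MeasureTheory Module

variable {ι : Type} [Fintype ι] [DecidableEq ι]
variable {u : ι → E3} {h : ι → ℝ} {Tr : ι → ι → ι → Prop}

lemma Sys.lind_ev (S : Sys u h Tr) (hh : ∀ i, 0 < h i) (y : ι → ℝ) :
    ∀ᶠ t : ℝ in 𝓝 0, Sys u (h + t • y) Tr ∧ ∀ l, 0 < (h + t • y) l := by
  have hc : Continuous fun t : ℝ => (u, h + t • y) := by fun_prop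
  have h1 : Tendsto (fun t : ℝ => (u, h + t • y)) (𝓝 0) (𝓝 (u, h)) := by
    simpa using hc.tendsto 0
  refine (h1.eventually S.eventually).and (eventually_all.2 fun l => ?_)
  have h2 : Continuous fun t : ℝ => (h + t • y) l := by fun_prop
  exact continuousAt_const.eventually_lt h2.continuousAt (by simpa using hh l)

lemma lind_ar_pl {i : ι} {e : E3} (hu : dt (u i) (u i) = 1) (he : dt e e = 1)
    (hne : dt (u i) e = 0) (h : ι → ℝ) :
    ar u h i = volume.real (pl (h i • u i) e (cr (u i) e) ⁻¹' fc u h {i}) := by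
  rw [ar, area_pl (b := h i • u i) hu he hne fun x hx => by
    rw [hx.2 i rfl, dt_smul, hu, mul_one]]
  rfl

open Pointwise in
lemma Sys.lind_bm (S : Sys u h Tr) (hu : ∀ i, dt (u i) (u i) = 1) {y : ι → ℝ}
    (S₁ : Sys u (h + y) Tr) (S₂ : Sys u (h - y) Tr) (i : ι) :
    1 / 2 * √(ar u (h + y) i) + 1 / 2 * √(ar u (h - y) i) ≤ √(ar u h i) := by
  obtain ⟨e, he, hne⟩ := exists_frame (n := u i)
  have ne : ∀ {g : ι → ℝ}, Sys u g Tr →
      (pl (g i • u i) e (cr (u i) e) ⁻¹' fc u g {i}).Nonempty := fun {g} G => by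
    obtain ⟨c, h1, h2⟩ := G.exists_center i
    refine ⟨⟨dt e (c - g i • u i), dt (cr (u i) e) (c - g i • u i)⟩, ?_⟩
    rw [mem_preimage, mem_range_pl (hu i) he hne (by rw [h1, dt_smul, hu, mul_one])]
    refine ⟨fun l => ?_, fun l hl => ?_⟩
    · rcases eq_or_ne l i with rfl | hl
      · exact h1.le
      · exact (h2 l hl).le
    · rw [mem_singleton_iff.1 hl, h1]
  rw [lind_ar_pl (hu i) he hne, lind_ar_pl (hu i) he hne, lind_ar_pl (hu i) he hne]
  refine (MP_7791e4_an.bm_comb (isCompact_pl (hu i) he hne (S₁.isCompact_fc _))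
    (convex_pl _ _ _ (convex_fc _ _ _)) (ne S₁) (isCompact_pl (hu i) he hne (S₂.isCompact_fc _))
    (convex_pl _ _ _ (convex_fc _ _ _)) (ne S₂) (by norm_num) (by norm_num)).trans
    (Real.sqrt_le_sqrt (measureReal_mono ?_
      (isCompact_pl (hu i) he hne (S.isCompact_fc _)).measure_lt_top.ne))
  rintro _ ⟨_, ⟨z, hz, rfl⟩, _, ⟨w, hw, rfl⟩, rfl⟩
  have e1 : pl (h i • u i) e (cr (u i) e) ((1 / 2 : ℝ) • z + (1 / 2 : ℝ) • w) =
      (1 / 2 : ℝ) • pl ((h + y) i • u i) e (cr (u i) e) z +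
        (1 / 2 : ℝ) • pl ((h - y) i • u i) e (cr (u i) e) w := by
    simp only [pl, Complex.add_re, Complex.add_im, Complex.smul_re, Complex.smul_im, smul_eq_mul,
      Pi.add_apply, Pi.sub_apply]
    module
  rw [mem_preimage] at hz hw ⊢
  simp only
  rw [e1]
  refine ⟨fun l => ?_, fun l hl => ?_⟩
  · have h1 := hz.1 l
    have h2 := hw.1 l
    rw [Pi.add_apply h y l] at h1
    rw [Pi.sub_apply h y l] at h2
    rw [dt_add, dt_smul, dt_smul]
    linarith
  · rw [dt_add, dt_smul, dt_smul, hz.2 l hl, hw.2 l hl, Pi.add_apply, Pi.sub_apply]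
    ring

lemma Sys.lind_aa (S : Sys u h Tr) (hu : ∀ i, dt (u i) (u i) = 1) (x y : ι → ℝ) (t : ℝ) (i : ι) :
    aa u Tr (x + t • y) (x + t • y) i =
      aa u Tr x x i + 2 * t * aa u Tr x y i + t ^ 2 * aa u Tr y y i := by
  rw [aa_add_left, aa_add_right, aa_add_right, aa_smul_left, aa_smul_left, aa_smul_right,
    aa_smul_right, S.aa_symm hu y x]
  ring

theorem Sys.aa_nonpos (S : Sys u h Tr) (hu : ∀ i, dt (u i) (u i) = 1) (hh : ∀ i, 0 < h i)
    {y : ι → ℝ} {i : ι} (hy : aa u Tr h y i = 0) : aa u Tr y y i ≤ 0 := by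
  have h1 := S.lind_ev hh y
  have h2 := (show Tendsto (fun t : ℝ => -t) (𝓝 0) (𝓝 0) by
    simpa using (continuous_neg (G := ℝ)).tendsto 0).eventually h1
  obtain ⟨t, ⟨⟨S₁, p₁⟩, S₂, p₂⟩, ht⟩ :=
    (((h1.and h2).filter_mono nhdsWithin_le_nhds).and self_mem_nhdsWithin).exists
      (f := 𝓝[>] (0 : ℝ))
  have ht' : 0 < t := ht
  have a₁ := S₁.ar_aa hu p₁ i
  have a₂ := S₂.ar_aa hu p₂ i
  have a₀ := S.ar_aa hu hh i
  rw [S.lind_aa hu, hy] at a₁ a₂
  rw [neg_smul, ← sub_eq_add_neg] at S₂ a₂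
  have hb := S.lind_bm hu S₁ S₂ i
  have e : ar u (h - t • y) i = ar u (h + t • y) i := by rw [a₁, a₂]; ring
  rw [e] at hb
  have h3 : √(ar u (h + t • y) i) ≤ √(ar u h i) := by linarith
  rw [Real.sqrt_le_sqrt_iff (S.ar_pos hh i).le, a₁, a₀] at h3
  by_contra hc
  have := mul_pos (pow_pos ht' 2) (not_le.1 hc)
  linarith

lemma Sys.lind_sum_pos (S : Sys u h Tr) (hh : ∀ i, 0 < h i) : 0 < ∑ l, ar u h l := by
  obtain ⟨i, -⟩ := S.ne
  exact Finset.sum_pos (fun l _ => S.ar_pos hh l) ⟨i, Finset.mem_univ i⟩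

lemma Sys.lind_vol_pos (S : Sys u h Tr) (hu : ∀ i, dt (u i) (u i) = 1) (hh : ∀ i, 0 < h i) :
    0 < vol u h := by
  obtain ⟨i, -⟩ := S.ne
  rw [S.vol_TT hu hh]
  refine div_pos (Finset.sum_pos (fun l _ => mul_pos (hh l) ?_) ⟨i, Finset.mem_univ i⟩)
    (by norm_num)
  linarith [S.ar_pos hh l, S.ar_aa hu hh l]

lemma lind_TT_single (x y : ι → ℝ) (i : ι) : TT u Tr (Pi.single i 1) x y = aa u Tr x y i := by
  simp [TT, Pi.single_apply]

theorem Sys.critical (S : Sys u h Tr) (O : Opt u h Tr) (hu : ∀ i, dt (u i) (u i) = 1)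
    (hh : ∀ i, 0 < h i) (i : ι) :
    aa u Tr h ((∑ l, ar u h l) • h + (-(3 * vol u h)) • (1 : ι → ℝ)) i = 0 := by
  obtain ⟨y, hy⟩ : ∃ y : ι → ℝ, y = Pi.single i 1 := ⟨_, rfl⟩
  obtain ⟨A, hA⟩ : ∃ A : ι → ℝ → ℝ, A = fun l t =>
    aa u Tr h h l + 2 * t * aa u Tr h y l + t ^ 2 * aa u Tr y y l := ⟨_, rfl⟩
  have dA : ∀ l, HasDerivAt (A l) (2 * aa u Tr h y l) 0 := fun l => by
    rw [hA]
    have := ((((hasDerivAt_id (0 : ℝ)).const_mul 2).mul_const (aa u Tr h y l)).const_add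
      (aa u Tr h h l)).add (((hasDerivAt_id (0 : ℝ)).pow 2).mul_const (aa u Tr y y l))
    refine this.congr_deriv ?_
    simp
  have A0 : ∀ l, A l 0 = aa u Tr h h l := fun l => by simp [hA]
  obtain ⟨V, hV⟩ : ∃ V : ℝ → ℝ, V = fun t => (∑ l, (h l + t * y l) * A l t) / 6 := ⟨_, rfl⟩
  obtain ⟨F, hF⟩ : ∃ F : ℝ → ℝ, F = fun t => ∑ l, A l t / 2 := ⟨_, rfl⟩
  have dV : HasDerivAt V (aa u Tr h h i / 2) 0 := by
    rw [hV]
    have := (HasDerivAt.fun_sum (u := Finset.univ) fun l _ =>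
      (((hasDerivAt_id (0 : ℝ)).mul_const (y l)).const_add (h l)).mul (dA l)).div_const 6
    refine this.congr_deriv ?_
    have e := S.TT_swap13 h h y
    have e2 := lind_TT_single (u := u) (Tr := Tr) h h i
    rw [← hy] at e2
    rw [e2] at e
    simp only [TT] at e e2
    simp only [A0, id, zero_mul, add_zero, one_mul, Finset.sum_add_distrib, e2,
      mul_left_comm _ (2 : ℝ), ← Finset.mul_sum, e]
    ring
  have dF : HasDerivAt F (aa u Tr h 1 i) 0 := by
    rw [hF]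
    have := HasDerivAt.fun_sum (u := Finset.univ) fun l _ => (dA l).div_const 2
    refine this.congr_deriv ?_
    have e := S.TT_swap13 1 h y
    rw [hy, lind_TT_single, ← hy] at e
    rw [← e]
    simp [TT]
  have V0 : V 0 = vol u h := by simp [hV, A0, S.vol_TT hu hh, TT]
  have F0 : F 0 = ∑ l, ar u h l := by simp [hF, A0, S.ar_aa hu hh]
  have pV := S.lind_vol_pos hu hh
  have pF := S.lind_sum_pos hh
  have hm : IsLocalMax (fun t => V t ^ 2 * F 0 ^ 3 - V 0 ^ 2 * F t ^ 3) 0 := by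
    filter_upwards [S.lind_ev hh y] with t ht
    have h1 := O u _ ht.1
    have e1 : vol u (h + t • y) = V t := by
      rw [ht.1.vol_TT hu ht.2, hV, hA]
      simp only [TT, S.lind_aa hu, Pi.add_apply, Pi.smul_apply, smul_eq_mul]
    have e2 : ∑ l, ar u (h + t • y) l = F t := by
      rw [hF, hA]
      exact Finset.sum_congr rfl fun l _ => by rw [ht.1.ar_aa hu ht.2, S.lind_aa hu]
    have p2 := ht.1.lind_sum_pos ht.2
    rw [div_le_div_iff₀ (pow_pos p2 3) (pow_pos pF 3), e1, e2, ← V0, ← F0] at h1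
    linarith
  have hd := hm.hasDerivAt_eq_zero
    (((dV.pow 2).mul_const (F 0 ^ 3)).sub ((dF.pow 3).const_mul (V 0 ^ 2)))
  rw [V0, F0] at hd
  rw [aa_add_right, aa_smul_right, aa_smul_right]
  have : vol u h * (∑ l, ar u h l) ^ 2 *
      ((∑ l, ar u h l) * aa u Tr h h i + -(3 * vol u h) * aa u Tr h 1 i) = 0 := by
    rw [← hd]
    push_cast
    ring
  exact (mul_eq_zero.1 this).resolve_left (by positivity)

lemma lind_quad {b c : ℝ} (H : ∀ s : ℝ, 2 * s * b + s ^ 2 * c ≤ 0) : b = 0 := by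
  have p : 0 < |c| + 1 := by positivity
  have h1 := H (b / (|c| + 1))
  have h2 : 2 * (b / (|c| + 1)) * b + (b / (|c| + 1)) ^ 2 * c =
      b ^ 2 * (2 * (|c| + 1) + c) / (|c| + 1) ^ 2 := by
    field_simp
  rw [h2, div_nonpos_iff] at h1
  have h3 : 0 < 2 * (|c| + 1) + c := by linarith [neg_abs_le c, abs_nonneg c]
  by_contra hb
  have h4 := mul_pos (pow_pos (abs_pos.2 hb) 2) h3
  rw [sq_abs] at h4
  rcases h1 with h1 | h1
  · linarith [h1.2, pow_pos p 2]
  · linarith [h1.1]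

lemma Sys.lind_pos (S : Sys u h Tr) (O : Opt u h Tr) (hu : ∀ i, dt (u i) (u i) = 1)
    (hh : ∀ i, 0 < h i) : Sys u 1 Tr ∧ Opt u 1 Tr := by
  obtain ⟨z, hz⟩ : ∃ z, z = (∑ l, ar u h l) • h + (-(3 * vol u h)) • (1 : ι → ℝ) := ⟨_, rfl⟩
  have z1 : ∀ i, aa u Tr h z i = 0 := fun i => hz ▸ S.critical O hu hh i
  have z2 : ∀ i, aa u Tr z z i = 0 := by
    have e : TT u Tr h z z = 0 := by
      rw [S.TT_swap13]
      exact Finset.sum_eq_zero fun l _ => by rw [S.aa_symm hu, z1, mul_zero]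
    have := (Finset.sum_eq_zero_iff_of_nonpos fun l _ =>
      mul_nonpos_of_nonneg_of_nonpos (hh l).le (S.aa_nonpos hu hh (z1 l))).1 e
    exact fun i => (mul_eq_zero.1 (this i (Finset.mem_univ i))).resolve_left (hh i).ne'
  have z3 : ∀ y i, aa u Tr h y i = 0 → aa u Tr z y i = 0 := fun y i hy =>
    lind_quad (c := aa u Tr y y i) fun s => by
      have := S.aa_nonpos hu hh (y := z + s • y) (i := i) (by
        rw [aa_add_right, aa_smul_right, z1, hy, mul_zero, add_zero])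
      rwa [S.lind_aa hu, z2, zero_add] at this
  have z4 : ∀ y i, aa u Tr z y i = 0 := fun y i => by
    have p : aa u Tr h h i ≠ 0 := by
      have := S.ar_pos hh i
      rw [S.ar_aa hu hh] at this
      intro e
      rw [e] at this
      simp at this
    have := z3 (y + (-(aa u Tr h y i / aa u Tr h h i)) • h) i (by
      rw [aa_add_right, aa_smul_right]
      field_simp
      ring)
    rwa [aa_add_right, aa_smul_right, S.aa_symm hu z h, z1, mul_zero, add_zero] at this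
  obtain ⟨o, ho⟩ := S.conn (z := z) fun i j => by
    rcases eq_or_ne j i with rfl | hij
    · exact mu_of_not (fun A => S.adj_ne A rfl) z
    · simpa [aa, Pi.single_apply, hij.symm] using z4 (Pi.single j 1) i
  have pV := S.lind_vol_pos hu hh
  have pF := S.lind_sum_pos hh
  have e : (fun l => (∑ l, ar u h l) / (3 * vol u h) * h l +
      dt (u l) ((-(3 * vol u h)⁻¹) • o)) = 1 := by
    funext l
    rw [dt_smul, ← ho l, hz]
    simp only [Pi.add_apply, Pi.smul_apply, Pi.one_apply, smul_eq_mul]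
    field_simp
    ring
  have pt : 0 < (∑ l, ar u h l) / (3 * vol u h) := by positivity
  exact ⟨e ▸ S.affine pt _, e ▸ O.affine pt _⟩

theorem Sys.lindelof (S : Sys u h Tr) (O : Opt u h Tr) (hu : ∀ i, dt (u i) (u i) = 1) :
    Sys u 1 Tr ∧ Opt u 1 Tr := by
  obtain ⟨x, hx⟩ := S.exists_strict
  exact (S.affine one_pos (-x)).lind_pos (O.affine one_pos (-x)) hu fun l => by
    rw [dt_neg]
    linarith [hx l]

end Pool.Agent.MP_5cfbf6_gt

end

section

set_option autoImplicit false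
set_option linter.unusedSectionVars false

namespace Pool.Agent.MP_5cfbf6_gt

open Set Filter Topology MeasureTheory Module

theorem extreme_triple {ι : Type} [Fintype ι] [DecidableEq ι] {u : ι → E3} {h : ι → ℝ} {x : E3}
    (hx : x ∈ (poly u h).extremePoints ℝ) : ∃ i j k, dt (u i) x = h i ∧ dt (u j) x = h j ∧
      dt (u k) x = h k ∧ det3 (u i) (u j) (u k) ≠ 0 := by
  by_contra H
  push Not at H
  by_cases h1 : ∃ i j, dt (u i) x = h i ∧ dt (u j) x = h j ∧ cr (u i) (u j) ≠ 0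
  · obtain ⟨i, j, hi, hj, hz⟩ := h1
    exact not_extreme hz (fun l hl => by rw [dt_cr, H i j l hi hj hl]) hx
  push Not at h1
  by_cases h2 : ∃ i, dt (u i) x = h i ∧ u i ≠ 0
  · obtain ⟨i, hi, hu⟩ := h2
    obtain ⟨z, hz, e1, -⟩ := exists_orth2 (u i) (u i)
    refine not_extreme hz (fun l hl => ?_) hx
    have e : dt (u i) (u i) * dt (u l) z =
        dt (u i) (u l) * dt (u i) z + dt (cr (u i) (u l)) (cr (u i) z) := by
      simp [dt]; ring
    rw [h1 i l hi hl, e1, zero_dt, mul_zero, add_zero] at e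
    exact (mul_eq_zero.1 e).resolve_left (dt_self_pos hu).ne'
  push Not at h2
  obtain ⟨z, hz, -⟩ := exists_orth2 0 0
  exact not_extreme hz (fun l hl => by rw [h2 l hl, zero_dt]) hx

theorem rep1_isExposed {ι : Type} [Fintype ι] [DecidableEq ι] (u : ι → E3) (h : ι → ℝ)
    (A : Set ι) : IsExposed ℝ (poly u h) (fc u h A) := by
  classical
  rintro ⟨x0, m0⟩
  refine ⟨dtL (∑ l ∈ Finset.univ.filter (· ∈ A), u l), ?_⟩
  ext x
  simp only [mem_ofPred_eq, dtL_apply, sum_dt]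
  constructor
  · intro hx
    refine ⟨hx.1, fun y hy => Finset.sum_le_sum fun l hl => ?_⟩
    rw [hx.2 l (by simpa using hl)]; exact hy l
  · rintro ⟨hx, H1⟩
    refine ⟨hx, fun l hl => ?_⟩
    have h2 := H1 x0 m0.1
    by_contra hne
    have : ∑ l ∈ Finset.univ.filter (· ∈ A), dt (u l) x
        < ∑ l ∈ Finset.univ.filter (· ∈ A), dt (u l) x0 := by
      apply Finset.sum_lt_sum
      · intro m hm
        rw [m0.2 m (by simpa using hm)]; exact hx m
      · exact ⟨l, by simpa using hl, by rw [m0.2 l hl]; exact lt_of_le_of_ne (hx l) hne⟩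
    linarith

theorem isExtreme_fc {ι : Type} [Fintype ι] [DecidableEq ι] (u : ι → E3) (h : ι → ℝ) (A : Set ι) :
    IsExtreme ℝ (poly u h) (fc u h A) := (rep1_isExposed u h A).isExtreme

theorem isExposed_fc {ι : Type} [Fintype ι] [DecidableEq ι] (u : ι → E3) (h : ι → ℝ) (A : Set ι) :
    IsExposed ℝ (poly u h) (fc u h A) := rep1_isExposed u h A

theorem IsPolytope.isCompact {P : Set E3} (hP : IsPolytope P) : IsCompact P := by
  obtain ⟨⟨S, rfl⟩, -⟩ := hP
  exact S.finite_toSet.isCompact_convexHull ℝ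

theorem rep1_half (a y : E3) : Convex ℝ {x : E3 | dt a (x - y) ≤ 1} := by
  intro x hx z hz s t hs ht hst
  have e : s • x + t • z - y = s • (x - y) + t • (z - y) := by
    rw [smul_sub, smul_sub, ← add_sub_add_comm, ← add_smul, hst, one_smul]
  simp only [mem_ofPred_eq] at hx hz ⊢
  rw [e, dt_add, dt_smul, dt_smul]
  nlinarith

theorem rep1_half' (y : E3) : Convex ℝ {a : E3 | dt a y ≤ 1} := by
  simpa only [sub_zero, dt_comm y] using rep1_half y 0

theorem exists_hrep {P : Set E3} (hP : IsPolytope P) :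
    ∃ (ι : Type) (_ : Fintype ι) (_ : DecidableEq ι) (u : ι → E3) (h : ι → ℝ),
      (∀ i, dt (u i) (u i) = 1) ∧ P = poly u h ∧
      (∀ i, (fc u h {i}).Nonempty ∧ vectorSpan ℝ (fc u h {i}) = perp (u i)) ∧
      Function.Injective (fun i => fc u h {i}) := by
  classical
  have hPc := hP.isCompact
  obtain ⟨⟨S, rfl⟩, x0, hx0⟩ := hP
  obtain ⟨ε, hε, hball⟩ := Metric.mem_nhds_iff.1 (mem_interior_iff_mem_nhds.1 hx0)
  set v : S → E3 := fun s => s.1 - x0 with hv
  set Q := poly v fun _ => 1 with hQ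
  have key : ∀ a ∈ Q, ∀ x ∈ convexHull ℝ (S : Set E3), dt a (x - x0) ≤ 1 := fun a ha =>
    convexHull_min (fun s hs => by
      have := ha ⟨s, hs⟩
      rwa [dt_comm] at this) (rep1_half a x0)
  have hQc : IsCompact Q := by
    refine Metric.isCompact_of_isClosed_isBounded (isClosed_poly _ _)
      ((Metric.isBounded_closedBall (x := (0 : E3)) (r := 2 / ε)).subset fun a ha => ?_)
    rw [mem_closedBall_zero_iff]
    rcases (norm_nonneg a).eq_or_lt with e | e
    · rw [← e]; positivity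
    have := key a ha (x0 + (ε / 2 / ‖a‖) • a) (hball (by
      rw [Metric.mem_ball, dist_eq_norm, add_sub_cancel_left, norm_smul,
        Real.norm_of_nonneg (by positivity), div_mul_cancel₀ _ e.ne']
      linarith))
    rw [add_sub_cancel_left, dt_smul, dt_self, sq, ← mul_assoc, div_mul_cancel₀ _ e.ne'] at this
    rw [le_div_iff₀ hε]
    linarith
  have hfin : (Q.extremePoints ℝ).Finite := by
    refine (finite_range fun t : S × S × S => sol (v t.1) (v t.2.1) (v t.2.2) 1 1 1).subset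
      fun a ha => ?_
    obtain ⟨i, j, k, h1, h2, h3, h4⟩ := extreme_triple ha
    refine ⟨(i, j, k), ?_⟩
    rw [eq_sol h4 a, h1, h2, h3]
  have hpos : ∀ a : Q.extremePoints ℝ, 0 < ‖a.1‖ := fun a => by
    obtain ⟨i, -, -, h1, -⟩ := extreme_triple a.2
    refine norm_pos_iff.2 fun e => ?_
    rw [e, dt_zero] at h1
    exact zero_ne_one h1
  let _ : Fintype (Q.extremePoints ℝ) := hfin.fintype
  set u : Q.extremePoints ℝ → E3 := fun a => ‖a.1‖⁻¹ • a.1 with hu
  set h : Q.extremePoints ℝ → ℝ := fun a => ‖a.1‖⁻¹ * (1 + dt a.1 x0) with hh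
  have hle : ∀ a x, dt (u a) x ≤ h a ↔ dt a.1 (x - x0) ≤ 1 := fun a x => by
    rw [hu, hh, smul_dt, mul_le_mul_iff_right₀ (inv_pos.2 (hpos a)), dt_sub, sub_le_iff_le_add]
  have heq : ∀ a x, dt (u a) x = h a ↔ dt a.1 (x - x0) = 1 := fun a x => by
    rw [hu, hh, smul_dt, mul_right_inj' (inv_pos.2 (hpos a)).ne', dt_sub, sub_eq_iff_eq_add]
  have hPe : convexHull ℝ (S : Set E3) = poly u h := by
    refine Subset.antisymm (fun x hx a => (hle a x).2 (key a.1 a.2.1 x hx)) fun x hx => ?_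
    by_contra hn
    obtain ⟨f, c, h1, h2⟩ := geometric_hahn_banach_closed_point (convex_convexHull ℝ _)
      hPc.isClosed hn
    obtain ⟨w, hw⟩ := exists_dt f
    simp only [hw] at h1 h2
    have hc : 0 < c - dt w x0 := sub_pos.2 (h1 x0 (interior_subset hx0))
    have ha : (c - dt w x0)⁻¹ • w ∈ Q := fun s => by
      rw [dt_smul, inv_mul_le_iff₀ hc, dt_comm, hv, dt_sub]
      linarith [h1 s.1 (subset_convexHull ℝ _ s.2)]
    rw [← closure_convexHull_extremePoints hQc (convex_poly _ _)] at ha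
    have := closure_minimal (convexHull_min (fun a ha => (hle ⟨a, ha⟩ x).1 (hx _))
      (rep1_half' (x - x0))) (isClosed_le (by fun_prop) continuous_const) ha
    rw [mem_ofPred_eq, smul_dt, inv_mul_le_iff₀ hc, dt_sub] at this
    linarith
  have hmem : ∀ (a : Q.extremePoints ℝ) (s : S), s.1 ∈ fc u h {a} ↔ dt (v s) a.1 = 1 := by
    intro a s
    rw [dt_comm, hv, ← heq]
    exact ⟨fun hs => hs.2 a rfl, fun hs => ⟨hPe ▸ subset_convexHull ℝ _ s.2, by simpa using hs⟩⟩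
  refine ⟨Q.extremePoints ℝ, inferInstance, inferInstance, u, h, fun a => ?_, hPe, fun a => ?_,
    fun a b hab => ?_⟩
  · rw [hu, smul_dt, dt_smul, dt_self]
    field_simp [(hpos a).ne']
  · obtain ⟨i, j, k, h1, h2, h3, h4⟩ := extreme_triple a.2
    refine ⟨⟨_, (hmem a i).2 h1⟩, le_antisymm (vectorSpan_le_perp fun x hx => hx.2 a rfl)
      fun z hz => ?_⟩
    rw [mem_perp, hu, smul_dt, mul_eq_zero] at hz
    replace hz := hz.resolve_left (inv_pos.2 (hpos a)).ne'
    have hd : det3 (v i) (v j - v i) (v k - v i) ≠ 0 := by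
      have : det3 (v i) (v j - v i) (v k - v i) = det3 (v i) (v j) (v k) := by
        simp only [det3, dt, cr_0, cr_1, cr_2, PiLp.sub_apply]; ring
      rwa [this]
    obtain ⟨α, β, γ, e⟩ : ∃ α β γ : ℝ, z = α • v i + β • (v j - v i) + γ • (v k - v i) :=
      ⟨_, _, _, decomp hd z⟩
    rw [e, dt_add, dt_add, dt_smul, dt_smul, dt_smul, dt_sub _ (v j) (v i), dt_sub _ (v k) (v i),
      dt_comm _ (v i), dt_comm _ (v j), dt_comm _ (v k), h1, h2, h3] at hz
    have hα : α = 0 := by linarith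
    rw [e, hα, zero_smul, zero_add, hv]
    simp only [sub_sub_sub_cancel_right]
    exact Submodule.add_mem _
      (Submodule.smul_mem _ _ (vsub_mem_vectorSpan ℝ ((hmem a j).2 h2) ((hmem a i).2 h1)))
      (Submodule.smul_mem _ _ (vsub_mem_vectorSpan ℝ ((hmem a k).2 h3) ((hmem a i).2 h1)))
  · obtain ⟨i, j, k, h1, h2, h3, h4⟩ := extreme_triple a.2
    have : ∀ s, dt (v s) a.1 = 1 → dt (v s) a.1 = dt (v s) b.1 := fun s hs => by
      have := (hmem a s).2 hs
      simp only at hab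
      rw [hab, hmem] at this
      rw [hs, this]
    exact Subtype.ext (eq_of_dt3 h4 (this i h1) (this j h2) (this k h3))

end Pool.Agent.MP_5cfbf6_gt

end

section

set_option autoImplicit false
set_option linter.unusedSectionVars false

namespace Pool.Agent.MP_5cfbf6_gt

open Set Filter Topology MeasureTheory Module

/-- at an extreme point of a simple polytope exactly three constraints are active -/
theorem simple_act {ι : Type} [Fintype ι] [DecidableEq ι] {u : ι → E3} {h : ι → ℝ}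
    (hu : ∀ i, dt (u i) (u i) = 1)
    (hf : ∀ i, vectorSpan ℝ (fc u h {i}) = perp (u i))
    (hinj : Function.Injective (fun i => fc u h {i})) (hs : IsSimple (poly u h))
    {v : E3} (hv : v ∈ (poly u h).extremePoints ℝ) :
    ∃ i j k, dt (u i) v = h i ∧ dt (u j) v = h j ∧ dt (u k) v = h k ∧
      det3 (u i) (u j) (u k) ≠ 0 ∧ ∀ l, dt (u l) v = h l → l = i ∨ l = j ∨ l = k := by
  obtain ⟨i, j, k, hi, hj, hk, hd⟩ := extreme_triple hv
  refine ⟨i, j, k, hi, hj, hk, hd, fun l hl => ?_⟩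
  have une : ∀ m, u m ≠ 0 := by
    intro m e
    have := hu m
    rw [e, zero_dt] at this
    exact zero_ne_one this
  have mem : ∀ m, dt (u m) v = h m → fc u h {m} ∈ {F ∈ twoFaces (poly u h) | v ∈ F} := by
    intro m hm
    refine ⟨⟨isExposed_fc u h {m}, ?_⟩, hv.1, ?_⟩
    · rw [hf m, finrank_perp (une m)]
    · intro a ha
      rw [mem_singleton_iff.1 ha, hm]
  have h3 := hs v hv
  have hfin : {F ∈ twoFaces (poly u h) | v ∈ F}.Finite := by
    apply Set.finite_of_ncard_ne_zero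
    rw [h3]; norm_num
  have ij : i ≠ j := by rintro rfl; exact hd (det3_same12 _ _)
  have ik : i ≠ k := by rintro rfl; exact hd (det3_same13 _ _)
  have jk : j ≠ k := by rintro rfl; exact hd (det3_same23 _ _)
  have sub : ({fc u h {i}, fc u h {j}, fc u h {k}} : Set (Set E3))
      ⊆ {F ∈ twoFaces (poly u h) | v ∈ F} := by
    intro F hF
    rcases hF with rfl | rfl | rfl
    · exact mem i hi
    · exact mem j hj
    · exact mem k hk
  have c3 : ({fc u h {i}, fc u h {j}, fc u h {k}} : Set (Set E3)).ncard = 3 :=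
    Set.ncard_eq_three.2 ⟨_, _, _, fun e => ij (hinj e), fun e => ik (hinj e),
      fun e => jk (hinj e), rfl⟩
  have e := Set.eq_of_subset_of_ncard_le sub (by rw [h3, c3]) hfin
  have hm := mem l hl
  rw [← e] at hm
  rcases hm with e1 | e1 | e1
  · exact Or.inl (hinj e1)
  · exact Or.inr (Or.inl (hinj e1))
  · exact Or.inr (Or.inr (hinj e1))

theorem exists_sys {P : Set E3} (hP : IsPolytope P) (hs : IsSimple P) :
    ∃ (ι : Type) (_ : Fintype ι) (_ : DecidableEq ι) (u : ι → E3) (h : ι → ℝ)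
      (Tr : ι → ι → ι → Prop), Sys u h Tr ∧ (∀ i, dt (u i) (u i) = 1) ∧ P = poly u h := by
  obtain ⟨ι, i1, i2, u, h, hu, rfl, hf, hinj⟩ := exists_hrep hP
  have hc := hP.isCompact
  let Tr : ι → ι → ι → Prop := fun i j k => det3 (u i) (u j) (u k) ≠ 0 ∧
    ∀ l, l ≠ i → l ≠ j → l ≠ k → dt (u l) (vx u h i j k) < h l
  have cover : ∀ x ∈ poly u h,
      ∃ i j k, Tr i j k ∧ ∀ l, dt (u l) x = h l → l = i ∨ l = j ∨ l = k := by
    intro x hx
    have hne : (fc u h {l | dt (u l) x = h l}).Nonempty := ⟨x, hx, fun l hl => hl⟩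
    have hcf : IsCompact (fc u h {l | dt (u l) x = h l}) :=
      hc.of_isClosed_subset (isClosed_fc u h _) (fc_subset u h _)
    obtain ⟨v, hv⟩ := hcf.extremePoints_nonempty hne
    have hv2 := (isExtreme_fc u h _).extremePoints_subset_extremePoints hv
    obtain ⟨i, j, k, hi, hj, hk, hd, H⟩ := simple_act hu (fun i => (hf i).2) hinj hs hv2
    have ev : v = vx u h i j k := by
      have := eq_sol hd v
      rw [hi, hj, hk] at this
      exact this
    refine ⟨i, j, k, ⟨hd, fun l h1 h2 h3 => ?_⟩, fun l hl => H l (hv.1.2 l hl)⟩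
    rw [← ev]
    refine lt_of_le_of_ne (hv2.1 l) fun e => ?_
    rcases H l e with e | e | e
    · exact h1 e
    · exact h2 e
    · exact h3 e
  have s12 : ∀ i j k, Tr i j k → Tr j i k := by
    intro i j k T
    refine ⟨?_, fun l h1 h2 h3 => ?_⟩
    · rw [det3_swap12]; exact neg_ne_zero.2 T.1
    · rw [vx_swap12]; exact T.2 l h2 h1 h3
  have s23 : ∀ i j k, Tr i j k → Tr i k j := by
    intro i j k T
    refine ⟨?_, fun l h1 h2 h3 => ?_⟩
    · rw [det3_swap23]; exact neg_ne_zero.2 T.1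
    · rw [vx_swap23]; exact T.2 l h1 h3 h2
  refine ⟨ι, i1, i2, u, h, Tr, ⟨s12, s23, fun i j k T => T.1, fun i j k T => T.2, cover,
    hc.isBounded, fun i => ?_, ?_⟩, hu, rfl⟩
  · obtain ⟨x, hx⟩ := (hf i).1
    obtain ⟨a, b, c, T, H⟩ := cover x hx.1
    rcases H i (hx.2 i rfl) with rfl | rfl | rfl
    · exact ⟨b, c, T⟩
    · exact ⟨a, c, s12 _ _ _ T⟩
    · exact ⟨a, b, s12 _ _ _ (s23 _ _ _ T)⟩
  · obtain ⟨x, hx⟩ := hP.2
    obtain ⟨a, b, c, T, -⟩ := cover x (interior_subset hx)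
    exact ⟨a, b, c, T⟩

theorem Sys.encard_face {ι : Type} [Fintype ι] [DecidableEq ι] {u : ι → E3} {h : ι → ℝ}
    {Tr : ι → ι → ι → Prop} (S : Sys u h Tr) (i : ι) :
    (fc u h {i} ∩ (poly u h).extremePoints ℝ).encard ≤ ({j | Adj Tr i j}.ncard : ℕ∞) := by
  have sub : fc u h {i} ∩ (poly u h).extremePoints ℝ ⊆ ep u Tr h i '' {j | Adj Tr i j} := by
    rintro x ⟨hx, hv⟩
    have key : ∃ j k, Tr i j k ∧ x = vx u h i j k := by
      obtain ⟨a, b, c, T, e⟩ := S.extreme_sub hv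
      have hi := hx.2 i rfl
      rw [e] at hi
      rcases S.vx_act T hi with rfl | rfl | rfl
      · exact ⟨b, c, T, e⟩
      · exact ⟨a, c, S.s12 _ _ _ T, by rw [e, vx_swap12]⟩
      · exact ⟨a, b, S.s12 _ _ _ (S.s23 _ _ _ T),
          e.trans ((vx_swap23 u h _ _ _).trans (vx_swap12 u h _ _ _))⟩
    obtain ⟨j, k, T, e⟩ := key
    rcases lt_or_gt_of_ne (S.det _ _ _ T) with d | d
    · have T' := S.s23 _ _ _ T
      refine ⟨k, ⟨j, T'⟩, ?_⟩
      have := S.eq_kp T' (by rw [det3_swap23]; linarith)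
      unfold ep
      rw [← this, e, vx_swap23]
    · refine ⟨j, ⟨k, T⟩, ?_⟩
      unfold ep
      rw [← S.eq_kp T d, e]
  refine (Set.encard_le_encard sub).trans ((Set.encard_image_le _ _).trans ?_)
  rw [(Set.toFinite _).cast_ncard_eq]

end Pool.Agent.MP_5cfbf6_gt

end

section

set_option autoImplicit false
set_option linter.unusedSectionVars false

namespace Pool.Agent.MP_5cfbf6_gt

open Set Filter Topology MeasureTheory Module

/-- coatoms of the face lattice -/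
def TypCoat (P F : Set E3) : Prop :=
  IsExposed ℝ P F ∧ F ≠ P ∧ ∀ G, IsExposed ℝ P G → F ⊆ G → G = F ∨ G = P

/-- atoms of the face lattice -/
def TypAtom (P F : Set E3) : Prop :=
  IsExposed ℝ P F ∧ F ≠ ∅ ∧ ∀ G, IsExposed ℝ P G → G ⊆ F → G = F ∨ G = ∅

lemma typ_sub_of_span {P F G : Set E3} (hF : IsExposed ℝ P F) (hne : F.Nonempty) (hG : G ⊆ P)
    (hFG : F ⊆ G) (h : vectorSpan ℝ G ≤ vectorSpan ℝ F) : G ⊆ F := by
  obtain ⟨l, hl⟩ := hF hne
  obtain ⟨x, hx⟩ := hne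
  have hk : vectorSpan ℝ F ≤ LinearMap.ker (l : E3 →ₗ[ℝ] ℝ) := by
    rw [vectorSpan_def, Submodule.span_le]
    rintro _ ⟨a, ha, b, hb, rfl⟩
    rw [hl] at ha hb
    show l (a - b) = 0
    rw [map_sub, le_antisymm (hb.2 a ha.1) (ha.2 b hb.1), sub_self]
  intro y hy
  have h1 : l (y - x) = 0 := hk (h (vsub_mem_vectorSpan ℝ hy (hFG hx)))
  rw [map_sub, sub_eq_zero] at h1
  rw [hl] at hx ⊢
  exact ⟨hG hy, fun z hz => h1 ▸ hx.2 z hz⟩

lemma typ_rank {P : Set E3} (hP : IsPolytope P) : finrank ℝ (vectorSpan ℝ P) = 3 := by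
  have h : affineSpan ℝ P = ⊤ :=
    affineSpan_eq_top_of_nonempty_interior (hP.2.mono (interior_mono (subset_convexHull ℝ P)))
  rw [AffineSubspace.vectorSpan_eq_top_of_affineSpan_eq_top ℝ E3 E3 h]
  simp

lemma typ_exists_fc {ι : Type} [Fintype ι] [DecidableEq ι] {u : ι → E3} {h : ι → ℝ}
    (hP : IsPolytope (poly u h)) {F : Set E3} (hF : IsExposed ℝ (poly u h) F)
    (hne : F ≠ poly u h) : ∃ i, F ⊆ fc u h {i} := by
  rcases F.eq_empty_or_nonempty with rfl | h0
  · by_contra hc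
    push Not at hc
    have : poly u h = univ := eq_univ_of_forall fun x i => absurd (empty_subset _) (hc i)
    exact noncompact_univ E3 (this ▸ hP.isCompact)
  · have h1 := fc_act_of_exposed hF h0
    rcases (act u h F).eq_empty_or_nonempty with h2 | ⟨i, hi⟩
    · rw [h2] at h1
      refine absurd (h1.symm.trans ?_) hne
      ext x
      simp [fc]
    · exact ⟨i, h1 ▸ fc_anti u h (singleton_subset_iff.2 hi)⟩

lemma typ_coat {P : Set E3} (hP : IsPolytope P) {F : Set E3} : F ∈ twoFaces P ↔ TypCoat P F := by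
  obtain ⟨ι, _, _, u, h, hu, rfl, hf, -⟩ := exists_hrep hP
  have hr : ∀ i, finrank ℝ (vectorSpan ℝ (fc u h {i})) = 2 := fun i => by
    rw [(hf i).2]
    refine finrank_perp fun e => ?_
    have := hu i
    rw [e, dt_zero] at this
    exact zero_ne_one this
  have h3 := typ_rank hP
  constructor
  · rintro ⟨hF, h2⟩
    refine ⟨hF, fun e => by rw [e, h3] at h2; omega, fun G hG hFG => ?_⟩
    by_cases e : G = poly u h
    · exact Or.inr e
    obtain ⟨j, hj⟩ := typ_exists_fc hP hG e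
    have hne : F.Nonempty := by
      rw [nonempty_iff_ne_empty]
      rintro rfl
      rw [vectorSpan_empty, finrank_bot] at h2
      omega
    have e2 : vectorSpan ℝ F = vectorSpan ℝ (fc u h {j}) :=
      Submodule.eq_of_le_of_finrank_eq (vectorSpan_mono ℝ (hFG.trans hj)) (by rw [h2, hr])
    exact Or.inl ((typ_sub_of_span hF hne hG.subset hFG
      (e2 ▸ vectorSpan_mono ℝ hj)).antisymm hFG)
  · rintro ⟨hF, hne, H⟩
    obtain ⟨i, hi⟩ := typ_exists_fc hP hF hne
    rcases H _ (isExposed_fc u h {i}) hi with e | e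
    · exact ⟨hF, e ▸ hr i⟩
    · have := hr i
      rw [e, h3] at this
      omega

lemma typ_single {P : Set E3} (hP : IsPolytope P) {v : E3} (hv : v ∈ P.extremePoints ℝ) :
    IsExposed ℝ P {v} := by
  obtain ⟨ι, _, _, u, h, -, rfl, -, -⟩ := exists_hrep hP
  obtain ⟨i, j, k, h1, h2, h3, hd⟩ := extreme_triple hv
  have : fc u h {i, j, k} = {v} := by
    ext x
    constructor
    · intro hx
      exact eq_of_dt3 hd (by rw [h1, hx.2 i (by simp)]) (by rw [h2, hx.2 j (by simp)])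
        (by rw [h3, hx.2 k (by simp)])
    · rintro rfl
      refine ⟨hv.1, fun l hl => ?_⟩
      rcases hl with rfl | rfl | rfl <;> assumption
  exact this ▸ isExposed_fc u h _

lemma typ_atom {P : Set E3} (hP : IsPolytope P) {F : Set E3} :
    TypAtom P F ↔ ∃ v ∈ P.extremePoints ℝ, {v} = F := by
  constructor
  · rintro ⟨hF, hne, H⟩
    obtain ⟨v, hv⟩ := (hF.isCompact hP.isCompact).extremePoints_nonempty
      (nonempty_iff_ne_empty.2 hne)
    have hv2 := hF.isExtreme.extremePoints_subset_extremePoints hv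
    rcases H _ (typ_single hP hv2) (singleton_subset_iff.2 hv.1) with e | e
    · exact ⟨v, hv2, e⟩
    · exact absurd e (singleton_ne_empty v)
  · rintro ⟨v, hv, rfl⟩
    exact ⟨typ_single hP hv, singleton_ne_empty v, fun G _ hG =>
      (subset_singleton_iff_eq.1 hG).symm⟩

/-- an isomorphism of face lattices as a pair of maps on sets -/
structure TypIso (P Q : Set E3) (φ ψ : Set E3 → Set E3) : Prop where
  e1 : ∀ F, IsExposed ℝ P F → IsExposed ℝ Q (φ F)
  e2 : ∀ G, IsExposed ℝ Q G → IsExposed ℝ P (ψ G)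
  l1 : ∀ F, IsExposed ℝ P F → ψ (φ F) = F
  l2 : ∀ G, IsExposed ℝ Q G → φ (ψ G) = G
  m1 : ∀ F F', IsExposed ℝ P F → IsExposed ℝ P F' → F ⊆ F' → φ F ⊆ φ F'
  m2 : ∀ G G', IsExposed ℝ Q G → IsExposed ℝ Q G' → G ⊆ G' → ψ G ⊆ ψ G'

lemma SameType.typIso {P Q : Set E3} (e : SameType P Q) : ∃ φ ψ, TypIso P Q φ ψ := by
  classical
  obtain ⟨e⟩ := e
  refine ⟨fun F => if h : IsExposed ℝ P F then (e ⟨F, h⟩).1 else ∅,
    fun G => if h : IsExposed ℝ Q G then (e.symm ⟨G, h⟩).1 else ∅, fun F hF => ?_, fun F hF => ?_,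
    fun F hF => ?_, fun F hF => ?_, fun F F' hF hF' h => ?_, fun F F' hF hF' h => ?_⟩
  · rw [dif_pos hF]
    exact (e ⟨F, hF⟩).2
  · rw [dif_pos hF]
    exact (e.symm ⟨F, hF⟩).2
  · simp only [dif_pos hF, dif_pos (e ⟨F, hF⟩).2, Subtype.coe_eta, OrderIso.symm_apply_apply]
  · simp only [dif_pos hF, dif_pos (e.symm ⟨F, hF⟩).2, Subtype.coe_eta, OrderIso.apply_symm_apply]
  · rw [dif_pos hF, dif_pos hF']
    exact e.monotone (a := ⟨F, hF⟩) (b := ⟨F', hF'⟩) h
  · rw [dif_pos hF, dif_pos hF']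
    exact e.symm.monotone (a := ⟨F, hF⟩) (b := ⟨F', hF'⟩) h

namespace TypIso

variable {P Q : Set E3} {φ ψ : Set E3 → Set E3}

lemma symm (e : TypIso P Q φ ψ) : TypIso Q P ψ φ := ⟨e.e2, e.e1, e.l2, e.l1, e.m2, e.m1⟩

lemma top (e : TypIso P Q φ ψ) : φ P = Q := by
  refine (e.e1 P (IsExposed.refl P)).subset.antisymm ?_
  have h := e.e2 Q (IsExposed.refl Q)
  have := e.m1 _ _ h (IsExposed.refl P) h.subset
  rwa [e.l2 Q (IsExposed.refl Q)] at this

lemma bot (e : TypIso P Q φ ψ) : φ ∅ = ∅ := by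
  have := e.m1 _ _ isExposed_empty (e.e2 ∅ isExposed_empty) (empty_subset _)
  rw [e.l2 ∅ isExposed_empty] at this
  exact subset_empty_iff.1 this

lemma coat (e : TypIso P Q φ ψ) {F : Set E3} (h : TypCoat P F) : TypCoat Q (φ F) := by
  refine ⟨e.e1 F h.1, fun c => h.2.1 ?_, fun G hG hs => ?_⟩
  · rw [← e.l1 F h.1, c, e.symm.top]
  · have h1 := e.m2 _ _ (e.e1 F h.1) hG hs
    rw [e.l1 F h.1] at h1
    rcases h.2.2 _ (e.e2 G hG) h1 with c | c
    · exact Or.inl (by rw [← c, e.l2 G hG])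
    · exact Or.inr (by rw [← e.l2 G hG, c, e.top])

lemma atom (e : TypIso P Q φ ψ) {F : Set E3} (h : TypAtom P F) : TypAtom Q (φ F) := by
  refine ⟨e.e1 F h.1, fun c => h.2.1 ?_, fun G hG hs => ?_⟩
  · rw [← e.l1 F h.1, c, e.symm.bot]
  · have h1 := e.m2 _ _ hG (e.e1 F h.1) hs
    rw [e.l1 F h.1] at h1
    rcases h.2.2 _ (e.e2 G hG) h1 with c | c
    · exact Or.inl (by rw [← c, e.l2 G hG])
    · exact Or.inr (by rw [← e.l2 G hG, c, e.bot])

lemma injOn (e : TypIso P Q φ ψ) {S : Set (Set E3)} (hS : ∀ F ∈ S, IsExposed ℝ P F) :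
    InjOn φ S := fun F hF F' hF' h => by rw [← e.l1 F (hS F hF), h, e.l1 F' (hS F' hF')]

end TypIso

lemma typ_encard {P : Set E3} (hP : IsPolytope P) (F : Set E3) :
    (F ∩ P.extremePoints ℝ).encard = {A | TypAtom P A ∧ A ⊆ F}.encard := by
  rw [← (singleton_injective (α := E3)).encard_image]
  congr 1
  ext A
  simp only [mem_image, mem_inter_iff, mem_ofPred_eq, typ_atom hP]
  constructor
  · rintro ⟨v, ⟨h1, h2⟩, rfl⟩
    exact ⟨⟨v, h2, rfl⟩, singleton_subset_iff.2 h1⟩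
  · rintro ⟨⟨v, h2, rfl⟩, h1⟩
    exact ⟨v, ⟨singleton_subset_iff.1 h1, h2⟩, rfl⟩

theorem SameType.simple {P Q : Set E3} (hP : IsPolytope P) (hQ : IsPolytope Q)
    (e : SameType P Q) (hs : IsSimple P) : IsSimple Q := by
  obtain ⟨φ, ψ, e⟩ := e.typIso
  intro v hv
  have hv1 := typ_single hQ hv
  obtain ⟨w, hw, hwv⟩ := (typ_atom hP).1 (e.symm.atom ((typ_atom hQ).2 ⟨v, hv, rfl⟩))
  rw [← hs w hw, ← (e.injOn (S := {F ∈ twoFaces P | w ∈ F})
    fun F hF => hF.1.1).ncard_image]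
  congr 1
  ext G
  constructor
  · rintro ⟨h1, h2⟩
    refine ⟨ψ G, ⟨(typ_coat hP).2 (e.symm.coat ((typ_coat hQ).1 h1)), ?_⟩, e.l2 G h1.1⟩
    rw [← singleton_subset_iff, hwv]
    exact e.m2 _ _ hv1 h1.1 (singleton_subset_iff.2 h2)
  · rintro ⟨F, ⟨h1, h2⟩, rfl⟩
    refine ⟨(typ_coat hQ).2 (e.coat ((typ_coat hP).1 h1)), ?_⟩
    rw [← singleton_subset_iff, ← e.l2 _ hv1, ← hwv]
    exact e.m1 _ _ (typ_single hP hw) h1.1 (singleton_subset_iff.2 h2)

theorem SameType.face {P Q : Set E3} (hP : IsPolytope P) (hQ : IsPolytope Q)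
    (e : SameType P Q) {F : Set E3} (hF : F ∈ twoFaces P) :
    ∃ G ∈ twoFaces Q, (G ∩ Q.extremePoints ℝ).encard = (F ∩ P.extremePoints ℝ).encard := by
  obtain ⟨φ, ψ, e⟩ := e.typIso
  refine ⟨φ F, (typ_coat hQ).2 (e.coat ((typ_coat hP).1 hF)), ?_⟩
  rw [typ_encard hP, typ_encard hQ, ← (e.injOn (S := {A | TypAtom P A ∧ A ⊆ F})
    fun A hA => hA.1.1).encard_image]
  congr 1
  ext G
  constructor
  · rintro ⟨h1, h2⟩
    refine ⟨ψ G, ⟨e.symm.atom h1, ?_⟩, e.l2 G h1.1⟩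
    have := e.m2 _ _ h1.1 (e.e1 F hF.1) h2
    rwa [e.l1 F hF.1] at this
  · rintro ⟨A, ⟨h1, h2⟩, rfl⟩
    exact ⟨e.atom h1, e.m1 _ _ h1.1 hF.1 h2⟩

end Pool.Agent.MP_5cfbf6_gt

end
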