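import Pool.Agent.Mg.F5cfbf6.G0a0e5f
import Pool.Agent.Mg.F5cfbf6.G48ad15

set_option autoImplicit false
set_option linter.unusedSectionVars false

namespace Pool.Agent.MP_5cfbf6_gt

open Set Filter Topology MeasureTheory Module

lemma transfer_inter {P Q : Set E3} {φ ψ : Set E3 → Set E3} (e : TypIso P Q φ ψ) {F G : Set E3}
    (hF : IsExposed ℝ P F) (hG : IsExposed ℝ P G) : φ (F ∩ G) = φ F ∩ φ G := by
  have hFG := hF.inter hG
  refine Subset.antisymm (subset_inter (e.m1 _ _ hFG hF inter_subset_left)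
    (e.m1 _ _ hFG hG inter_subset_right)) ?_
  have h := (e.e1 F hF).inter (e.e1 G hG)
  rw [← e.l2 _ h]
  refine e.m1 _ _ (e.e2 _ h) hFG (subset_inter ?_ ?_)
  · have := e.m2 _ _ h (e.e1 F hF) inter_subset_left
    rwa [e.l1 F hF] at this
  · have := e.m2 _ _ h (e.e1 G hG) inter_subset_right
    rwa [e.l1 G hG] at this

lemma transfer_nontrivial {P Q : Set E3} {φ ψ : Set E3 → Set E3} (hQ : IsPolytope Q)
    (e : TypIso P Q φ ψ) {A : Set E3} (hA : IsExposed ℝ P A) (h : (φ A).Nontrivial) :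
    A.Nontrivial := by
  by_contra hn
  rcases (not_nontrivial_iff.1 hn).eq_empty_or_singleton with rfl | ⟨v, rfl⟩
  · rw [e.bot] at h
    exact not_nontrivial_empty h
  · obtain ⟨w, -, hw⟩ := (typ_atom hQ).1 (e.atom ⟨hA, singleton_ne_empty v, fun G _ hG =>
      (subset_singleton_iff_eq.1 hG).symm⟩)
    rw [← hw] at h
    exact not_nontrivial_singleton h

lemma transfer_encard {P Q : Set E3} {φ ψ : Set E3 → Set E3} (hP : IsPolytope P)
    (hQ : IsPolytope Q) (e : TypIso P Q φ ψ) {F : Set E3} (hF : IsExposed ℝ P F) :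
    (φ F ∩ Q.extremePoints ℝ).encard = (F ∩ P.extremePoints ℝ).encard := by
  rw [typ_encard hP, typ_encard hQ, ← (e.injOn (S := {A | TypAtom P A ∧ A ⊆ F})
    fun A hA => hA.1.1).encard_image]
  congr 1
  ext G
  constructor
  · rintro ⟨h1, h2⟩
    refine ⟨ψ G, ⟨e.symm.atom h1, ?_⟩, e.l2 G h1.1⟩
    have := e.m2 _ _ h1.1 (e.e1 F hF) h2
    rwa [e.l1 F hF] at this
  · rintro ⟨A, ⟨h1, h2⟩, rfl⟩
    exact ⟨e.atom h1, e.m1 _ _ h1.1 hF h2⟩

section

variable {ι : Type} [Fintype ι] [DecidableEq ι] {u : ι → E3} {h : ι → ℝ} {Tr : ι → ι → ι → Prop}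

lemma transfer_extreme (S : Sys u h Tr) {i j k : ι} (T : Tr i j k) :
    vx u h i j k ∈ (poly u h).extremePoints ℝ := by
  have : fc u h {i, j, k} = {vx u h i j k} := by
    ext x
    constructor
    · intro hx
      exact S.eq_vx T (hx.2 i (by simp)) (hx.2 j (by simp)) (hx.2 k (by simp))
    · rintro rfl
      refine ⟨S.vx_mem T, fun l hl => ?_⟩
      rcases hl with rfl | rfl | rfl
      exacts [S.vx1 T h, S.vx2 T h, S.vx3 T h]
  exact isExtreme_singleton.1 (this ▸ isExtreme_fc u h _)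

lemma transfer_face (S : Sys u h Tr) (i : ι) :
    (fc u h {i} ∩ (poly u h).extremePoints ℝ).encard = ({j | Adj Tr i j}.ncard : ℕ∞) := by
  refine (S.encard_face i).antisymm ?_
  have inj : InjOn (ep u Tr h i) {j | Adj Tr i j} := by
    intro j A j' A' e
    by_contra hne
    obtain ⟨T, d⟩ := S.kp_spec A
    obtain ⟨T', d'⟩ := S.kp_spec A'
    have h1 : j' = kp u Tr i j := by
      have := S.ep2 A' h
      rw [← e] at this
      rcases S.vx_act T this with c | c | c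
      exacts [absurd c.symm (S.adj_ne A'), absurd c.symm hne, c]
    have h2 : j = kp u Tr i j' := by
      have := S.ep2 A h
      rw [e] at this
      rcases S.vx_act T' this with c | c | c
      exacts [absurd c.symm (S.adj_ne A), absurd c hne, c]
    rw [← h1] at d
    rw [← h2, det3_swap23] at d'
    linarith
  rw [(Set.toFinite _).cast_ncard_eq, ← inj.encard_image]
  refine encard_le_encard ?_
  rintro _ ⟨j, A, rfl⟩
  exact ⟨⟨S.ep_mem A, fun l hl => by rw [mem_singleton_iff.1 hl]; exact S.ep1 A h⟩,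
    transfer_extreme S (S.kp_spec A).1⟩

lemma transfer_adj (S : Sys u h Tr) {i j : ι} (hij : i ≠ j) :
    (fc u h {i} ∩ fc u h {j}).Nontrivial ↔ Adj Tr i j := by
  constructor
  · rintro ⟨x, hx, -⟩
    exact (S.edge_pt hij hx.1.1 (hx.1.2 i rfl) (hx.2.2 j rfl)).1
  · intro A
    refine ⟨ep u Tr h i j, ⟨⟨S.ep_mem A, by simpa using S.ep1 A h⟩, S.ep_mem A,
      by simpa using S.ep2 A h⟩, em u Tr h i j, ⟨⟨S.em_mem A, by simpa using S.em1 A h⟩,
      S.em_mem A, by simpa using S.em2 A h⟩, fun e => ?_⟩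
    have h1 := S.ep_sub A h
    rw [e, sub_self, eq_comm, smul_eq_zero] at h1
    have h2 := S.cr_pos A
    rcases h1 with c | c
    · exact (S.mu_pos A).ne' c
    · rw [c, dt_zero] at h2
      exact lt_irrefl _ h2

end

theorem exists_crit {P : Set E3} (hP : IsPolytope P) (hs : IsSimple P)
    (hb : ∃ Q : Set E3, SameType P Q ∧ IsBest Q) :
    ∃ (ι : Type) (_ : Fintype ι) (_ : DecidableEq ι) (u : ι → E3) (Tr : ι → ι → ι → Prop),
      Crit u Tr ∧ ∃ φ : faceGraph P ≃g adjG Tr, ∀ F : twoFaces P,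
        (F.1 ∩ P.extremePoints ℝ).encard = ({j | Adj Tr (φ F) j}.ncard : ℕ∞) := by
  obtain ⟨Q, e, hQ⟩ := hb
  obtain ⟨ι, i1, i2, u, h, Tr, S, hu, rfl⟩ := exists_sys hQ.1 (e.simple hP hQ.1 hs)
  obtain ⟨S1, O1⟩ := S.lindelof (S.opt_of_best hQ) hu
  obtain ⟨φ, ψ, e⟩ := e.typIso
  have hf : ∀ i, fc u h {i} ∈ twoFaces (poly u h) := fun i => S.twoFaces_eq ▸ ⟨i, rfl⟩
  let f : ι → twoFaces P := fun i =>
    ⟨ψ (fc u h {i}), (typ_coat hP).2 (e.symm.coat ((typ_coat hQ.1).1 (hf i)))⟩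
  have hi : Function.Injective f := fun i j c => S.face_inj
    (e.symm.injOn (S := twoFaces (poly u h)) (fun _ hF => hF.1) (hf i) (hf j)
      (congrArg Subtype.val c))
  have hsu : Function.Surjective f := fun F => by
    have := (typ_coat hQ.1).2 (e.coat ((typ_coat hP).1 F.2))
    rw [S.twoFaces_eq] at this
    obtain ⟨i, hi⟩ := this
    exact ⟨i, Subtype.ext (by simp only [f]; rw [show fc u h {i} = _ from hi, e.l1 _ F.2.1])⟩
  let Φ : adjG Tr ≃g faceGraph P := ⟨Equiv.ofBijective f ⟨hi, hsu⟩, fun {i j} => by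
    rw [S.adjG_adj]
    show (f i ≠ f j ∧ (ψ (fc u h {i}) ∩ ψ (fc u h {j})).Nontrivial) ↔ _
    have hx := (hf i).1.inter (hf j).1
    rw [← transfer_inter e.symm (hf i).1 (hf j).1]
    constructor
    · rintro ⟨h1, h2⟩
      exact (transfer_adj S (fun c => h1 (congrArg f c))).1 (transfer_nontrivial hP e.symm hx h2)
    · intro A
      refine ⟨hi.ne (S.adj_ne A), transfer_nontrivial hQ.1 e (e.e2 _ hx) ?_⟩
      rw [e.l2 _ hx]
      exact (transfer_adj S (S.adj_ne A)).2 A⟩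
  refine ⟨ι, i1, i2, u, Tr, ⟨S1, O1, hu⟩, Φ.symm, fun F => ?_⟩
  obtain ⟨i, rfl⟩ := Φ.surjective F
  rw [RelIso.symm_apply_apply, ← transfer_face S i]
  exact transfer_encard hQ.1 hP e.symm (hf i).1

end Pool.Agent.MP_5cfbf6_gt
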