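import Pool.Agent.Mg.F5cfbf6.G0a0e5f
import Pool.Agent.Mg.F5cfbf6.Ga7960e

section

set_option autoImplicit false
set_option linter.unusedSectionVars false

namespace Pool.Agent.MP_5cfbf6_gt

open Set Filter Topology MeasureTheory Module

variable {ι : Type} [Fintype ι] [DecidableEq ι]
variable {u : ι → E3} {Tr : ι → ι → ι → Prop}

lemma Path_norm_one {x : E3} (h : dt x x = 1) : ‖x‖ = 1 := by
  rw [dt_self] at h
  exact (sq_eq_sq₀ (norm_nonneg _) zero_le_one).1 (by rw [h]; norm_num)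

lemma Path_dt_one {x : E3} (h : ‖x‖ = 1) : dt x x = 1 := by rw [dt_self, h]; norm_num

lemma Path_ne {x n w p : E3} (hx : ‖x‖ = 1) (hnx : dt n x = 0) (hnw : dt n w = 1)
    (hp : p ∈ segment ℝ x w) : p ≠ 0 := by
  obtain ⟨a, s, -, -, hab, rfl⟩ := hp
  intro e
  have h1 := congrArg (dt n) e
  rw [dt_add, dt_smul, dt_smul, hnx, hnw, dt_zero] at h1
  have hs : s = 0 := by linarith
  have ha : a = 1 := by linarith
  rw [hs, ha, one_smul, zero_smul, add_zero] at e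
  rw [e, norm_zero] at hx
  exact zero_ne_one hx

/-- coordinates of a normalised point of a segment -/
lemma Path_pt {x n g G p : E3} {τ : ℝ} (hx : ‖x‖ = 1) (hn : ‖n‖ = 1) (hg : ‖g‖ ≤ 2)
    (hnx : dt n x = 0) (hng : dt n g = 0) (hGx : dt G x = 0) (hGn : dt G n = 0) (t0 : 0 ≤ τ)
    (t1 : τ ≤ 1) (hp : p ∈ segment ℝ x (n + τ • g)) :
    ∃ α : ℝ, 0 ≤ α ∧ dt n (‖p‖⁻¹ • p) = α ∧ dt G (‖p‖⁻¹ • p) = α * τ * dt G g ∧
      ‖‖p‖⁻¹ • p - x‖ ≤ 8 * α := by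
  have hw : dt n (n + τ • g) = 1 := by rw [dt_add, dt_smul, hng, Path_dt_one hn]; ring
  have hp0 : 0 < ‖p‖ := norm_pos_iff.2 (Path_ne hx hnx hw hp)
  obtain ⟨a, s, -, hs, hab, e⟩ := hp
  have ha : a = 1 - s := by linarith
  refine ⟨‖p‖⁻¹ * s, by positivity, ?_, ?_, ?_⟩
  · rw [dt_smul]
    congr 1
    rw [← e, dt_add, dt_smul, dt_smul, hnx, hw]; ring
  · rw [dt_smul, mul_assoc, mul_assoc]
    congr 1
    rw [← e, dt_add, dt_smul, dt_smul, dt_add, dt_smul, hGx, hGn]; ring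
  · have h1 : p - x = s • (n + τ • g - x) := by rw [← e, ha]; module
    have h2 : ‖n + τ • g - x‖ ≤ 4 := by
      have a1 := norm_sub_le (n + τ • g) x
      have a2 := norm_add_le n (τ • g)
      rw [norm_smul, Real.norm_of_nonneg t0] at a2
      nlinarith [norm_nonneg g]
    have h3 : ‖p - x‖ ≤ 4 * s := by
      rw [h1, norm_smul, Real.norm_of_nonneg hs]; nlinarith
    have h4 : |1 - ‖p‖| ≤ ‖p - x‖ := by
      rw [← hx, norm_sub_rev]; exact abs_norm_sub_norm_le x p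
    have h5 : ‖p‖⁻¹ • p - x = ‖p‖⁻¹ • ((p - x) + (1 - ‖p‖) • x) := by
      have : (p - x) + (1 - ‖p‖) • x = p - ‖p‖ • x := by module
      rw [this, smul_sub, smul_smul, inv_mul_cancel₀ hp0.ne', one_smul]
    have h6 := norm_add_le (p - x) ((1 - ‖p‖) • x)
    rw [norm_smul, hx, Real.norm_eq_abs, mul_one] at h6
    rw [h5, norm_smul, Real.norm_of_nonneg (by positivity)]
    calc ‖p‖⁻¹ * ‖p - x + (1 - ‖p‖) • x‖ ≤ ‖p‖⁻¹ * (8 * s) :=
          mul_le_mul_of_nonneg_left (by linarith) (by positivity)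
      _ = 8 * (‖p‖⁻¹ * s) := by ring

/-- a small cone far from `x` does not block two different segments -/
lemma Path_block {x n g G p p' c : E3} {τ τ' D r : ℝ} (hx : ‖x‖ = 1) (hn : ‖n‖ = 1)
    (hg : ‖g‖ ≤ 2) (hG : ‖G‖ = 1) (hnx : dt n x = 0) (hng : dt n g = 0) (hGx : dt G x = 0)
    (hGn : dt G n = 0) (hGg : 1 ≤ dt G g ^ 2) (t0 : 0 ≤ τ) (t1 : τ ≤ 1) (t0' : 0 ≤ τ')
    (t1' : τ' ≤ 1) (hD : 1 ≤ D) (hτ : 1 ≤ 2 * D * |τ - τ'|) (hp : p ∈ segment ℝ x (n + τ • g))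
    (hp' : p' ∈ segment ℝ x (n + τ' • g)) (h1 : ‖‖p‖⁻¹ • p - c‖ ≤ r)
    (h2 : ‖‖p'‖⁻¹ • p' - c‖ ≤ r) : ‖x - c‖ ≤ 80 * D * r := by
  obtain ⟨α, α0, a1, a2, a3⟩ := Path_pt hx hn hg hnx hng hGx hGn t0 t1 hp
  obtain ⟨β, β0, b1, b2, -⟩ := Path_pt hx hn hg hnx hng hGx hGn t0' t1' hp'
  set P := ‖p‖⁻¹ • p
  set P' := ‖p'‖⁻¹ • p'
  have r0 : 0 ≤ r := (norm_nonneg _).trans h1
  have hPP : ‖P - P'‖ ≤ 2 * r := by
    have := norm_sub_le (P - c) (P' - c)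
    rw [sub_sub_sub_cancel_right] at this
    linarith
  have c1 : |α - β| ≤ 2 * r := by
    have := abs_dt_le n (P - P')
    rw [dt_sub, a1, b1, hn, one_mul] at this
    linarith
  have c2 : |α * τ - β * τ'| ≤ 2 * r := by
    have h3 := abs_dt_le G (P - P')
    rw [dt_sub, a2, b2, hG, one_mul, ← sub_mul, abs_mul] at h3
    have h4 : 1 ≤ |dt G g| := by
      rw [← sq_abs] at hGg
      nlinarith [abs_nonneg (dt G g)]
    nlinarith [abs_nonneg (α * τ - β * τ')]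
  have c3 : α * |τ - τ'| ≤ 4 * r := by
    have e : α * (τ - τ') = (α * τ - β * τ') - (α - β) * τ' := by ring
    have h3 := abs_sub (α * τ - β * τ') ((α - β) * τ')
    rw [← e, abs_mul, abs_mul, abs_of_nonneg α0, abs_of_nonneg t0'] at h3
    nlinarith [abs_nonneg (α - β)]
  have c4 : α ≤ 8 * D * r := by
    have h3 := mul_le_mul_of_nonneg_left hτ α0
    have h4 := mul_le_mul_of_nonneg_left c3 (by linarith : 0 ≤ 2 * D)
    nlinarith
  have c5 := norm_sub_le (P - c) (P - x)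
  rw [sub_sub_sub_cancel_left] at c5
  nlinarith

lemma Path_frame {x y : E3} (hx : ‖x‖ = 1) (hy : ‖y‖ = 1) :
    ∃ n g G G' : E3, ‖n‖ = 1 ∧ ‖g‖ ≤ 2 ∧ dt n g = 0 ∧
      (‖G‖ = 1 ∧ dt n x = 0 ∧ dt G x = 0 ∧ dt G n = 0 ∧ 1 ≤ dt G g ^ 2) ∧
      (‖G'‖ = 1 ∧ dt n y = 0 ∧ dt G' y = 0 ∧ dt G' n = 0 ∧ 1 ≤ dt G' g ^ 2) := by
  obtain ⟨z, hz, z1, z2⟩ := exists_orth2 x y
  have hz0 : 0 < ‖z‖ := norm_pos_iff.2 hz
  obtain ⟨n, hn, n1, n2⟩ : ∃ n : E3, ‖n‖ = 1 ∧ dt n x = 0 ∧ dt n y = 0 :=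
    ⟨‖z‖⁻¹ • z, by rw [norm_smul, norm_inv, norm_norm, inv_mul_cancel₀ hz0.ne'],
      by rw [smul_dt, dt_comm, z1, mul_zero], by rw [smul_dt, dt_comm, z2, mul_zero]⟩
  have xx := Path_dt_one hx
  have yy := Path_dt_one hy
  have nn := Path_dt_one hn
  have g1 : dt (cr n x) (cr n x) = 1 := by rw [dt_cr_cr, nn, xx, n1]; norm_num
  have g2 : dt (cr n y) (cr n y) = 1 := by rw [dt_cr_cr, nn, yy, n2]; norm_num
  have g3 : dt (cr n y) (cr n x) = dt x y := by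
    have : dt (cr n y) (cr n x) = dt n n * dt x y - dt n x * dt n y := by simp [dt]; ring
    rw [this, nn, n1]; ring
  have g4 : dt (cr n y) x ^ 2 = 1 - dt x y ^ 2 := by
    have : dt (cr n y) x ^ 2 = dt n n * (dt x x * dt y y - dt x y ^ 2)
        - dt n x * (dt n x * dt y y - dt x y * dt n y)
        + dt n y * (dt n x * dt x y - dt x x * dt n y) := by simp [dt]; ring
    rw [this, nn, xx, yy, n1, n2]; ring
  obtain ⟨σ, hσ, hs⟩ : ∃ σ : ℝ, σ ^ 2 = 1 ∧ 0 ≤ σ * (dt (cr n y) x * dt x y) := by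
    rcases le_total 0 (dt (cr n y) x * dt x y) with h | h
    · exact ⟨1, by norm_num, by linarith⟩
    · exact ⟨-1, by norm_num, by linarith⟩
  have hσ1 : |σ| = 1 := by
    rw [← sq_abs] at hσ
    nlinarith [abs_nonneg σ]
  refine ⟨n, x + σ • cr n x, cr n x, cr n y, hn, ?_, ?_,
    ⟨Path_norm_one g1, n1, by rw [dt_comm, dt_cr_right], by rw [dt_comm, dt_cr_left], ?_⟩,
    ⟨Path_norm_one g2, n2, by rw [dt_comm, dt_cr_right], by rw [dt_comm, dt_cr_left], ?_⟩⟩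
  · have := norm_add_le x (σ • cr n x)
    rw [norm_smul, Real.norm_eq_abs, hσ1, hx, Path_norm_one g1] at this
    linarith
  · rw [dt_add, dt_smul, n1, dt_cr_left]; ring
  · rw [dt_add, dt_smul, g1, dt_comm, dt_cr_right]; nlinarith
  · rw [dt_add, dt_smul, g3]
    have : (dt (cr n y) x + σ * dt x y) ^ 2 = dt (cr n y) x ^ 2 + σ ^ 2 * dt x y ^ 2 +
        2 * (σ * (dt (cr n y) x * dt x y)) := by ring
    rw [this, g4, hσ]; linarith

open Classical in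
lemma Path_count {κ : Type} (B : Finset κ) (c : κ → E3) (r : κ → ℝ) {x n g G : E3} (hx : ‖x‖ = 1)
    (hn : ‖n‖ = 1) (hg : ‖g‖ ≤ 2) (hng : dt n g = 0)
    (hG : ‖G‖ = 1 ∧ dt n x = 0 ∧ dt G x = 0 ∧ dt G n = 0 ∧ 1 ≤ dt G g ^ 2) {k : ℕ}
    (h1 : ∀ b ∈ B, 80 * ((k : ℝ) + 1) * r b < ‖x - c b‖) :
    ((Finset.range (2 * k + 1)).filter fun m : ℕ => ∃ b ∈ B,
      ∃ p ∈ segment ℝ x (n + ((m : ℝ) / (2 * ((k : ℝ) + 1))) • g),
        ‖‖p‖⁻¹ • p - c b‖ ≤ r b).card ≤ B.card := by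
  obtain ⟨hG, hnx, hGx, hGn, hGg⟩ := hG
  have hk : (0 : ℝ) < 2 * ((k : ℝ) + 1) := by positivity
  have ht : ∀ m : ℕ, m < 2 * k + 1 → (m : ℝ) / (2 * ((k : ℝ) + 1)) ≤ 1 := fun m hm => by
    rw [div_le_one hk]
    have : (m : ℝ) < 2 * k + 1 := by exact_mod_cast hm
    linarith
  refine Finset.card_le_card_of_forall_subsingleton
    (fun (m : ℕ) b => ∃ p ∈ segment ℝ x (n + ((m : ℝ) / (2 * ((k : ℝ) + 1))) • g),
      ‖‖p‖⁻¹ • p - c b‖ ≤ r b) (fun m hm => (Finset.mem_filter.1 hm).2) ?_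
  rintro b hb m ⟨hm, p, hp, hpr⟩ m' ⟨hm', p', hp', hpr'⟩
  have l1 := Finset.mem_range.1 (Finset.mem_filter.1 hm).1
  have l2 := Finset.mem_range.1 (Finset.mem_filter.1 hm').1
  by_contra hne
  refine absurd (h1 b hb) (not_lt.2 (Path_block hx hn hg hG hnx hng hGx hGn hGg (by positivity)
    (ht m l1) (by positivity) (ht m' l2) (by linarith [Nat.cast_nonneg (α := ℝ) k]) ?_ hp hp'
    hpr hpr'))
  rw [← sub_div, abs_div, abs_of_pos hk, mul_div_cancel₀ _ hk.ne']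
  have : (1 : ℤ) ≤ |(m : ℤ) - m'| := Int.one_le_abs (by omega)
  exact_mod_cast this

/-- two segments that avoid small cones -/
theorem exists_detour {κ : Type} (B : Finset κ) (c : κ → E3) (r : κ → ℝ) (hc : ∀ b, ‖c b‖ = 1)
    (hr : ∀ b, 0 ≤ r b) {x y : E3} (hx : ‖x‖ = 1) (hy : ‖y‖ = 1) {k : ℕ} (hk : B.card ≤ k)
    (h1 : ∀ b ∈ B, 80 * ((k : ℝ) + 1) * r b < ‖x - c b‖)
    (h2 : ∀ b ∈ B, 80 * ((k : ℝ) + 1) * r b < ‖y - c b‖) :
    ∃ w : E3, ∀ p ∈ segment ℝ x w ∪ segment ℝ y w,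
      p ≠ 0 ∧ ∀ b ∈ B, r b < ‖‖p‖⁻¹ • p - c b‖ := by
  classical
  have _ := hc
  have _ := hr
  obtain ⟨n, g, G, G', hn, hg, hng, hG, hG'⟩ := Path_frame hx hy
  have c1 := Path_count B c r hx hn hg hng hG h1
  have c2 := Path_count B c r hy hn hg hng hG' h2
  obtain ⟨m, hm, hm'⟩ := Finset.exists_mem_notMem_of_card_lt_card
    (t := Finset.range (2 * k + 1)) (lt_of_le_of_lt (Finset.card_union_le _ _)
      (lt_of_le_of_lt (add_le_add c1 c2) (by rw [Finset.card_range]; omega)))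
  simp only [Finset.mem_union, Finset.mem_filter, hm, true_and, not_or, not_exists, not_and,
    not_le] at hm'
  have hw : dt n (n + ((m : ℝ) / (2 * ((k : ℝ) + 1))) • g) = 1 := by
    rw [dt_add, dt_smul, hng, Path_dt_one hn]; ring
  refine ⟨n + ((m : ℝ) / (2 * ((k : ℝ) + 1))) • g, fun p hp => ?_⟩
  rcases hp with hp | hp
  · exact ⟨Path_ne hx hG.2.1 hw hp, fun b hb => hm'.1 b hb p hp⟩
  · exact ⟨Path_ne hy hG'.2.1 hw hp, fun b hb => hm'.2 b hb p hp⟩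

lemma Path_pos (C : Crit u Tr) {p : E3} (hp : p ≠ 0) {l : ι}
    (hl : ∀ a, dt (u a) p ≤ dt (u l) p) : 0 < dt (u l) p := by
  by_contra hc
  push Not at hc
  obtain ⟨R, hR⟩ := C.sys.bdd.exists_norm_le
  have hp0 : 0 < ‖p‖ := norm_pos_iff.2 hp
  have ht : 0 < (|R| + 1) / ‖p‖ := by positivity
  have := hR (((|R| + 1) / ‖p‖) • p) fun a => by
    rw [dt_smul]
    exact (mul_nonpos_of_nonneg_of_nonpos ht.le ((hl a).trans hc)).trans zero_le_one
  rw [norm_smul, Real.norm_of_nonneg ht.le, div_mul_cancel₀ _ hp0.ne'] at this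
  linarith [le_abs_self R]

lemma Path_mem (C : Crit u Tr) {p : E3} (hp : p ≠ 0) {l : ι}
    (hl : ∀ a, dt (u a) p ≤ dt (u l) p) : (dt (u l) p)⁻¹ • p ∈ fc u 1 {l} := by
  have h0 := Path_pos C hp hl
  refine ⟨fun a => ?_, fun a ha => ?_⟩
  · rw [dt_smul, Pi.one_apply, inv_mul_le_one₀ h0]; exact hl a
  · rw [mem_singleton_iff.1 ha, dt_smul, Pi.one_apply, inv_mul_cancel₀ h0.ne']

lemma Path_near (C : Crit u Tr) {p : E3} (hp : p ≠ 0) {l : ι}
    (hl : ∀ a, dt (u a) p ≤ dt (u l) p) : ‖‖p‖⁻¹ • p - u l‖ ≤ √(rsq u l) := by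
  have h0 := Path_pos C hp hl
  have hp0 : 0 < ‖p‖ := norm_pos_iff.2 hp
  have h1 := C.le_rsq (Path_mem C hp hl)
  refine Real.le_sqrt_of_sq_le ?_
  rw [← dt_self]
  simp only [dt_sub, sub_dt, dt_smul, smul_dt, C.unit, dt_comm p (u l), dt_self p] at h1 ⊢
  set M := dt (u l) p
  set ρ := ‖p‖
  have ht : 0 < ρ / M := by positivity
  have e1 : M⁻¹ * (M⁻¹ * ρ ^ 2) = (ρ / M) ^ 2 := by field_simp
  have e2 : ρ⁻¹ * (ρ⁻¹ * ρ ^ 2) = 1 := by field_simp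
  have e3 : ρ⁻¹ * M = (ρ / M)⁻¹ := by field_simp
  set t := ρ / M
  have e4 : 2 - 2 * t⁻¹ ≤ t ^ 2 - 1 := by
    have : t ^ 2 - 1 - (2 - 2 * t⁻¹) = (t - 1) ^ 2 * (t + 2) / t := by field_simp; ring
    have h2 : 0 ≤ (t - 1) ^ 2 * (t + 2) / t := by positivity
    linarith
  rw [e1] at h1
  nlinarith

theorem Crit.walk_of_detour (C : Crit u Tr) (B : Set ι) {i j : ι} {w : E3}
    (H : ∀ p ∈ segment ℝ (u i) w ∪ segment ℝ (u j) w,
      p ≠ 0 ∧ ∀ b ∈ B, √(rsq u b) < ‖‖p‖⁻¹ • p - u b‖) :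
    ∃ W : (adjG Tr).Walk i j, ∀ l ∈ W.support, l ∉ B := by
  set S := segment ℝ (u i) w ∪ segment ℝ (u j) w with hS
  set Rch : Set ι := {l | ∃ W : (adjG Tr).Walk i l, ∀ a ∈ W.support, a ∉ B} with hR
  have hcl : ∀ A : Set ι, IsClosed (⋃ l ∈ A, {p : E3 | ∀ a, dt (u a) p ≤ dt (u l) p}) := by
    intro A
    refine (Set.toFinite A).isClosed_biUnion fun l _ => ?_
    rw [Set.ofPred_forall]
    exact isClosed_iInter fun a => isClosed_le (by fun_prop) (by fun_prop)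
  have hB : ∀ p ∈ S, ∀ l, (∀ a, dt (u a) p ≤ dt (u l) p) → l ∉ B := fun p hp l hl hb =>
    absurd ((H p hp).2 l hb) (not_lt.2 (Path_near C (H p hp).1 hl))
  have hself : ∀ l a, dt (u a) (u l) ≤ dt (u l) (u l) := fun l a => by
    rw [C.unit]; exact C.cos_le a l
  have hpre : IsPreconnected S :=
    IsPreconnected.union w (right_mem_segment _ _ _) (right_mem_segment _ _ _)
      (convex_segment _ _).isPreconnected (convex_segment _ _).isPreconnected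
  have hi : u i ∈ S := Or.inl (left_mem_segment _ _ _)
  have hj : u j ∈ S := Or.inr (left_mem_segment _ _ _)
  by_contra hcon
  obtain ⟨p, hp, h1, h2⟩ := isPreconnected_closed_iff.1 hpre _ _ (hcl Rch) (hcl Rchᶜ)
    (fun p _ => by
      have : Nonempty ι := ⟨i⟩
      obtain ⟨l, hl⟩ := Finite.exists_max fun a => dt (u a) p
      by_cases e : l ∈ Rch
      · exact Or.inl (mem_biUnion e hl)
      · exact Or.inr (mem_biUnion e hl))
    ⟨u i, hi, mem_biUnion (show i ∈ Rch from ⟨SimpleGraph.Walk.nil, fun a ha => by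
      rw [SimpleGraph.Walk.support_nil, List.mem_singleton] at ha
      rw [ha]; exact hB _ hi i (hself i)⟩) (hself i)⟩
    ⟨u j, hj, mem_biUnion (show j ∈ Rchᶜ from hcon) (hself j)⟩
  obtain ⟨l, ⟨W, hW⟩, hl⟩ := mem_iUnion₂.1 h1
  obtain ⟨l', hl1, hl'⟩ := mem_iUnion₂.1 h2
  have hne : l ≠ l' := fun e => hl1 (e ▸ ⟨W, hW⟩)
  have hp0 := (H p hp).1
  have hm := Path_mem C hp0 hl
  have hA := (C.sys.edge_pt hne hm.1 (hm.2 l rfl) (by
    rw [dt_smul, le_antisymm (hl l') (hl' l), Pi.one_apply,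
      inv_mul_cancel₀ (Path_pos C hp0 hl).ne'])).1
  refine hl1 ⟨W.concat (C.sys.adjG_adj.2 hA), fun a ha => ?_⟩
  rw [SimpleGraph.Walk.support_concat] at ha
  simp only [List.mem_append, List.mem_singleton] at ha
  rcases ha with ha | ha
  · exact hW a ha
  · rw [ha]; exact hB p hp l' hl'

end Pool.Agent.MP_5cfbf6_gt

end

section

set_option autoImplicit false
set_option linter.unusedSectionVars false

namespace Pool.Agent.MP_5cfbf6_gt

open Set Filter Topology MeasureTheory Module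

lemma sep_ncard_le {ι : Type} [Fintype ι] (B : Set ι) (N : ι → Set ι) (M : ℕ)
    (h : ∀ b, (N b).ncard ≤ M) : (⋃ b ∈ B, N b).ncard ≤ B.ncard * M := by
  induction B, B.toFinite using Set.Finite.induction_on with
  | empty => simp
  | @insert a s ha hs ih =>
    rw [biUnion_insert, ncard_insert_of_notMem ha hs, add_mul, one_mul]
    have h1 := ncard_union_le (N a) (⋃ b ∈ s, N b)
    have h2 := h a
    omega

lemma sep_lt_norm {x : E3} {c r : ℝ} (hr : 0 ≤ r) (h : ¬ dt x x ≤ c ^ 2 * r) :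
    c * √r < ‖x‖ := by
  refine lt_of_pow_lt_pow_left₀ 2 (norm_nonneg _) ?_
  rw [mul_pow, Real.sq_sqrt hr, ← dt_self]
  exact not_le.1 h

theorem separators : ∃ K D : ℕ,
    ∀ (ι : Type) [Fintype ι] [DecidableEq ι] (u : ι → E3) (Tr : ι → ι → ι → Prop), Crit u Tr →
    ∀ (k : ℕ) (B : Set ι), B.ncard ≤ k → ∃ E : Set ι, E.ncard ≤ K * (k + 1) ^ D ∧
      ∀ i j, i ∉ E → j ∉ E → ∃ W : (adjG Tr).Walk i j, ∀ l ∈ W.support, l ∉ B := by
  classical
  obtain ⟨K, D, H⟩ := near_card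
  refine ⟨K * 80 ^ D, D + 1, fun ι _ _ u Tr C k B hB => ?_⟩
  have hn : ∀ i, ‖u i‖ = 1 := fun i => by
    have h := C.unit i
    rw [dt_self] at h
    exact (pow_eq_one_iff_of_nonneg (norm_nonneg _) two_ne_zero).1 h
  have hL : ((80 * k + 79 : ℕ) : ℝ) + 1 = 80 * ((k : ℝ) + 1) := by push_cast; ring
  refine ⟨⋃ b ∈ B, {j | dt (u j - u b) (u j - u b) ≤
    (((80 * k + 79 : ℕ) : ℝ) + 1) ^ 2 * rsq u b}, ?_, fun i j hi hj => ?_⟩
  · refine (sep_ncard_le B _ _ fun b => H ι u Tr C b (80 * k + 79)).trans ?_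
    have h1 : 80 * k + 79 + 1 = 80 * (k + 1) := by ring
    rw [h1, mul_pow]
    calc B.ncard * (K * (80 ^ D * (k + 1) ^ D)) ≤ (k + 1) * (K * (80 ^ D * (k + 1) ^ D)) :=
          Nat.mul_le_mul_right _ (by omega)
      _ = _ := by ring
  · have key : ∀ i, i ∉ (⋃ b ∈ B, {j | dt (u j - u b) (u j - u b) ≤
        (((80 * k + 79 : ℕ) : ℝ) + 1) ^ 2 * rsq u b}) → ∀ b ∈ B.toFinite.toFinset,
        80 * ((k : ℝ) + 1) * √(rsq u b) < ‖u i - u b‖ := fun i hi b hb => by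
      refine sep_lt_norm (C.rsq_nonneg b) fun h => hi ?_
      exact mem_biUnion ((Finite.mem_toFinset _).1 hb) (by rw [hL]; exact h)
    obtain ⟨w, hw⟩ := exists_detour B.toFinite.toFinset u (fun b => √(rsq u b)) hn
      (fun _ => Real.sqrt_nonneg _) (hn i) (hn j) (k := k)
      (by rwa [← ncard_eq_toFinset_card B B.toFinite]) (key i hi) (key j hj)
    exact C.walk_of_detour B fun p hp =>
      ⟨(hw p hp).1, fun b hb => (hw p hp).2 b ((Finite.mem_toFinset _).2 hb)⟩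

end Pool.Agent.MP_5cfbf6_gt

end
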