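import Pool.Agent.Mg.F5cfbf6.G2f7109
import Pool.Agent.MP_5cfbf6_gt.Defs2

section

set_option autoImplicit false
set_option linter.unusedSectionVars false

namespace Pool.Agent.MP_5cfbf6_gt

open Set Filter Topology MeasureTheory Module

variable {ι : Type} [Fintype ι] [DecidableEq ι]

/-- a best simple polytope circumscribed about the unit ball -/
structure Crit (u : ι → E3) (Tr : ι → ι → ι → Prop) : Prop where
  sys : Sys u 1 Tr
  opt : Opt u 1 Tr
  unit : ∀ i, dt (u i) (u i) = 1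

/-- squared radius of face `i` about its tangent point -/
noncomputable def rsq (u : ι → E3) (i : ι) : ℝ := sSup ((fun x => dt x x - 1) '' fc u 1 {i})

noncomputable def WW (t s : ℝ) : ℝ := (s ^ 2 + t ^ 2)⁻¹

/-- the part of the polytope outside the ball, in the half-space of `e` -/
def Om (u : ι → E3) (e : E3) : Set E3 := {x | x ∈ poly u 1 ∧ 1 < dt x x ∧ 0 ≤ dt e x}

noncomputable def UU (u : ι → E3) (e : E3) (t : ℝ) : ℝ :=
  ∫ x in Om u e, t ^ 2 * WW t (1 - dt e x) ^ 2

noncomputable def II (u : ι → E3) (e : E3) (t : ℝ) : ℝ := ∫ x in Om u e, WW t (1 - dt e x)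

noncomputable def XX (u : ι → E3) (e : E3) (t : ℝ) (k : ι) : ℝ :=
  ∫ x in fc u 1 {k}, (dt e x - dt e (u k)) * (WW t (1 - dt e x) - WW t (1 - dt e (u k))) ∂μHE[2]

/-- the adjacency graph of the faces -/
def adjG (Tr : ι → ι → ι → Prop) : SimpleGraph ι := SimpleGraph.fromRel (Adj Tr)

variable {u : ι → E3} {Tr : ι → ι → ι → Prop}

lemma Sys.adjG_adj {h : ι → ℝ} (S : Sys u h Tr) {i j : ι} : (adjG Tr).Adj i j ↔ Adj Tr i j := by
  rw [adjG, SimpleGraph.fromRel_adj]
  exact ⟨fun H => H.2.elim id S.adj_symm, fun A => ⟨S.adj_ne A, Or.inl A⟩⟩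

lemma WW_pos {t : ℝ} (ht : 0 < t) (s : ℝ) : 0 < WW t s := by unfold WW; positivity

lemma continuous_WW {t : ℝ} (ht : 0 < t) : Continuous (WW t) :=
  Continuous.inv₀ (by fun_prop) fun s => by positivity

lemma measurableSet_Om (u : ι → E3) (e : E3) : MeasurableSet (Om u e) :=
  (isClosed_poly u 1).measurableSet.inter
    ((isOpen_lt continuous_const (by fun_prop : Continuous fun x : E3 => dt x x)).measurableSet.inter
      (isClosed_le continuous_const (by fun_prop : Continuous fun x : E3 => dt e x)).measurableSet)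

namespace Crit

lemma mem_face {i : ι} {x : E3} (hx : x ∈ fc u 1 {i}) : dt (u i) x = 1 := hx.2 i rfl

lemma exists_rsq (C : Crit u Tr) (i : ι) :
    ∃ x ∈ fc u 1 {i}, rsq u i = dt x x - 1 ∧ ∀ y ∈ fc u 1 {i}, dt y y - 1 ≤ dt x x - 1 :=
  (C.sys.isCompact_fc {i}).exists_sSup_image_eq_and_ge ⟨_, C.sys.u_mem C.unit i⟩
    (Continuous.continuousOn (by fun_prop))

lemma le_rsq (C : Crit u Tr) {i : ι} {x : E3} (hx : x ∈ fc u 1 {i}) : dt x x ≤ 1 + rsq u i := by
  obtain ⟨y, -, e, H⟩ := C.exists_rsq i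
  have := H x hx
  linarith

lemma sub_sq (C : Crit u Tr) {i : ι} {x : E3} (hx : dt (u i) x = 1) :
    dt (x - u i) (x - u i) = dt x x - 1 := by
  rw [dt_sub, sub_dt, sub_dt, C.unit, hx, dt_comm x (u i), hx]; ring

lemma rsq_nonneg (C : Crit u Tr) (i : ι) : 0 ≤ rsq u i := by
  have := C.le_rsq (C.sys.u_mem C.unit i)
  rw [C.unit] at this; linarith

lemma rsq_le_eight (C : Crit u Tr) (i : ι) : rsq u i ≤ 8 := by
  obtain ⟨y, hy, e, -⟩ := C.exists_rsq i
  have := C.sys.radius C.opt C.unit y hy.1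
  linarith

lemma cos_le (C : Crit u Tr) (i j : ι) : dt (u i) (u j) ≤ 1 := (C.sys.u_mem C.unit j).1 i

lemma neg_le_cos (C : Crit u Tr) (i j : ι) : -1 ≤ dt (u i) (u j) := by
  have := dt_sq_le (u i) (u j)
  rw [C.unit, C.unit] at this
  nlinarith

/-- fatness -/
lemma rsq_le (C : Crit u Tr) {i l : ι} (hl : l ≠ i) :
    rsq u i * (1 + dt (u i) (u l)) ≤ 484 * (1 - dt (u i) (u l)) := by
  set c := dt (u i) (u l) with hc
  have c1 : c < 1 := C.sys.cos_lt C.unit hl.symm
  rcases (C.neg_le_cos i l).eq_or_lt with e | c2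
  · rw [← hc] at e; rw [← e]; norm_num
  rw [← hc] at c2
  have hs : 0 < 1 - c ^ 2 := by nlinarith
  set s := √(1 - c ^ 2) with hsd
  have s0 : 0 < s := Real.sqrt_pos.2 hs
  have ss : s ^ 2 = 1 - c ^ 2 := Real.sq_sqrt hs.le
  have h := C.sys.fat C.opt C.unit i (e := s⁻¹ • (u l - c • u i)) (ρ := (1 - c) / s)
    (by rw [dt_smul, dt_sub, dt_smul, C.unit, ← hc]; ring)
    (by
      simp only [dt_smul, smul_dt, dt_sub, sub_dt, C.unit, dt_comm (u l) (u i), ← hc]
      field_simp; linarith)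
    (by
      intro x hx
      have h1 : dt (u l) x ≤ 1 := hx.1 l
      rw [smul_dt, sub_dt, smul_dt, mem_face hx, div_eq_inv_mul]
      gcongr; linarith)
  obtain ⟨y, hy, e, -⟩ := C.exists_rsq i
  have h2 := h y hy
  rw [div_pow, ss] at h2
  have h3 : (1 - c) ^ 2 / (1 - c ^ 2) * (1 + c) = 1 - c := by
    field_simp; ring
  have : rsq u i ≤ 484 * ((1 - c) ^ 2 / (1 - c ^ 2)) := by linarith
  calc _ ≤ 484 * ((1 - c) ^ 2 / (1 - c ^ 2)) * (1 + c) := by gcongr; linarith
    _ = _ := by rw [mul_assoc, h3]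

lemma dt_tan_sq (C : Crit u Tr) (i l : ι) {y : E3} (hy : dt (u i) y = 0) :
    dt (u l) y ^ 2 ≤ (1 - dt (u i) (u l) ^ 2) * dt y y := by
  have := dt_sq_le (u l - dt (u i) (u l) • u i) y
  simp only [dt_smul, smul_dt, dt_sub, sub_dt, C.unit, dt_comm (u l) (u i), hy] at this
  nlinarith

/-- the face contains the disc of radius `R / 22` -/
lemma disc (C : Crit u Tr) (i : ι) {y : E3} (hy : dt (u i) y = 0) (h : 484 * dt y y ≤ rsq u i) :
    u i + y ∈ fc u 1 {i} := by
  refine ⟨fun l => ?_, fun l hl => by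
    rw [mem_singleton_iff.1 hl, dt_add, hy, C.unit]; simp⟩
  rw [dt_add]
  by_cases e : l = i
  · rw [e, hy, C.unit]; simp
  have h1 := C.rsq_le e
  have h2 := C.dt_tan_sq i l hy
  have h3 := C.cos_le i l
  have h4 := C.neg_le_cos i l
  rw [dt_comm (u l) (u i)]
  set c := dt (u i) (u l)
  have h5 : dt y y * (1 + c) ≤ 1 - c := by nlinarith
  have h6 : dt (u l) y ^ 2 ≤ (1 - c) ^ 2 := by nlinarith
  have := abs_le_of_sq_le_sq' h6 (by linarith)
  show c + dt (u l) y ≤ 1
  linarith [this.2]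

lemma adj_cos (C : Crit u Tr) {i j : ι} (A : Adj Tr i j) :
    1 - dt (u i) (u j) ≤ rsq u i * (1 + dt (u i) (u j)) := by
  have hx : ep u Tr 1 i j ∈ fc u 1 {i} :=
    ⟨C.sys.ep_mem A, fun l hl => by rw [mem_singleton_iff.1 hl]; exact C.sys.ep1 A 1⟩
  have h1 := C.le_rsq hx
  have h2 := C.dt_tan_sq i j (y := ep u Tr 1 i j - u i) (by rw [dt_sub, mem_face hx, C.unit, sub_self])
  rw [C.sub_sq (mem_face hx), dt_sub, C.sys.ep2 A, dt_comm (u j) (u i)] at h2
  have h3 := C.sys.cos_lt C.unit (C.sys.adj_ne A)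
  have h4 := C.neg_le_cos i j
  set c := dt (u i) (u j)
  simp only [Pi.one_apply] at h2
  have h5 : (1 - c) * (1 - c) ≤ (1 - c) * (rsq u i * (1 + c)) := by
    have : (1 - c ^ 2) * (dt (ep u Tr 1 i j) (ep u Tr 1 i j) - 1) ≤ (1 - c ^ 2) * rsq u i := by
      apply mul_le_mul_of_nonneg_left _ (by nlinarith); linarith
    nlinarith
  exact le_of_mul_le_mul_left h5 (by linarith)

lemma rsq_pos (C : Crit u Tr) (i : ι) : 0 < rsq u i := by
  obtain ⟨j, k, T⟩ := C.sys.used i
  have h1 := C.adj_cos ⟨k, T⟩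
  have h3 := C.sys.cos_lt C.unit (C.sys.ne12 T)
  rcases (C.rsq_nonneg i).eq_or_lt with e | e
  · rw [← e] at h1; linarith
  · exact e

lemma ball_subset (C : Crit u Tr) {x : E3} (hx : dt x x ≤ 1) : x ∈ poly u 1 := by
  intro l
  have := dt_sq_le (u l) x
  rw [C.unit] at this
  show dt (u l) x ≤ 1
  nlinarith

end Crit

end Pool.Agent.MP_5cfbf6_gt

end

section

set_option autoImplicit false
set_option linter.unusedSectionVars false

namespace Pool.Agent.MP_5cfbf6_gt

open Set Filter Topology MeasureTheory Module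

variable {ι : Type} [Fintype ι] [DecidableEq ι]
variable {u : ι → E3} {h : ι → ℝ} {Tr : ι → ι → ι → Prop}

namespace PyrX

open FlagX

/-- the radial weight -/
noncomputable def rad : Measure ℝ :=
  (volume.restrict (Ioc (0 : ℝ) 1)).withDensity fun l => ENNReal.ofReal (l ^ 2)

instance sfinite_rad : SFinite rad := by unfold rad; infer_instance

lemma sfin {i : ι} (hu : dt (u i) (u i) = 1) :
    SFinite ((μHE[2] : Measure E3).restrict (fc u h {i})) := by
  obtain ⟨e, he, hne⟩ := exists_frame (n := u i)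
  have hi := isometry_pl (h i • u i) he (dt_cr_unit hu he hne) (dt_cr_right (u i) e)
  have h1 := hi.map_euclideanHausdorffMeasure (d := 2)
  have h3 : (μHE[finrank ℝ ℂ] : Measure ℂ) = volume :=
    InnerProductSpace.euclideanHausdorffMeasure_eq_volume
  rw [Complex.finrank_real_complex] at h3
  have h2 : fc u h {i} ⊆ range (pl (h i • u i) e (cr (u i) e)) := fun x hx =>
    ⟨_, mem_range_pl hu he hne (by rw [dt_smul, hu, mul_one]; exact hx.2 i rfl)⟩
  rw [← Measure.restrict_restrict_of_subset h2, ← h1, h3]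
  infer_instance

lemma meas_pyr (u : ι → E3) (h : ι → ℝ) (i : ι) : MeasurableSet (pyr u h i) := by
  have h1 := MeasurableSet.iInter fun l => (isClosed_le
    (f := fun x => h i * dt (u l) x) (g := fun x => h l * dt (u i) x)
    (by fun_prop) (by fun_prop)).measurableSet
  rw [← ofPred_forall] at h1
  exact (isOpen_lt (f := fun _ => (0 : ℝ)) (g := fun x => dt (u i) x) continuous_const
    (by fun_prop)).measurableSet.inter ((isClosed_le (f := fun x => dt (u i) x)
      (g := fun _ => h i) (by fun_prop) continuous_const).measurableSet.inter h1)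

lemma smul_mem {i : ι} (hi : 0 < h i) {t : ℝ} (ht : t ∈ Ioc (0 : ℝ) 1) {y : E3}
    (hy : y ∈ fc u h {i}) : t • y ∈ pyr u h i := by
  have h4 : dt (u i) (t • y) = t * h i := by rw [dt_smul, hy.2 i rfl]
  refine ⟨h4 ▸ mul_pos ht.1 hi, by nlinarith [ht.2], fun l => ?_⟩
  rw [h4, dt_smul]
  have := mul_le_mul_of_nonneg_left (hy.1 l) (mul_pos ht.1 hi).le
  linarith

lemma key {i : ι} (hi : 0 < h i) (hu : dt (u i) (u i) = 1) :
    volume.restrict (pyr u h i) = ENNReal.ofReal (h i) •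
      Measure.map (fun p : ℝ × E3 => p.1 • p.2)
        (rad.prod ((μHE[2] : Measure E3).restrict (fc u h {i}))) := by
  have := sfin (h := h) hu
  have hu0 : u i ≠ 0 := fun e => by simp [e] at hu
  have hn : ‖u i‖ = 1 := by
    rw [MP_5cfbf6_gt.dt_self] at hu
    exact (sq_eq_sq₀ (norm_nonneg _) zero_le_one).1 (by rw [hu, one_pow])
  have hv : h i • u i ≠ 0 := smul_ne_zero hi.ne' hu0
  have hΦ : Measurable fun p : ℝ × E3 => p.1 • p.2 := by fun_prop
  ext t ht
  have h1 := EuclideanGeometry.euclideanHausdorffMeasure_eq_lintegral (0 : E3) hv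
    (ht.inter (meas_pyr u h i))
  have h2 : ∀ l : ℝ, μHE[2] (t ∩ pyr u h i ∩ AffineSubspace.mk' (l • h i • u i +ᵥ (0 : E3))
      (Submodule.orthogonal (ℝ ∙ h i • u i))) =
      (Ioc (0 : ℝ) 1).indicator (fun l => ENNReal.ofReal (l ^ 2) *
        (μHE[2] : Measure E3).restrict (fc u h {i})
          (Prod.mk l ⁻¹' ((fun p : ℝ × E3 => p.1 • p.2) ⁻¹' t))) l := by
    intro l
    have h3 : ∀ x : E3, x ∈ (AffineSubspace.mk' (l • h i • u i +ᵥ (0 : E3))
        (Submodule.orthogonal (ℝ ∙ h i • u i)) : Set E3) ↔ dt (u i) x = l * h i := fun x => by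
      rw [SetLike.mem_coe, AffineSubspace.mem_mk', ← perp, mem_perp, smul_dt, vadd_eq_add, add_zero,
        vsub_eq_sub, dt_sub, dt_smul, dt_smul, hu, mul_one, mul_eq_zero, or_iff_right hi.ne',
        sub_eq_zero]
    by_cases hl : l ∈ Ioc (0 : ℝ) 1
    · rw [indicator_of_mem hl, ENNReal.ofReal_pow hl.1.le, ← Real.enorm_eq_ofReal hl.1.le,
        Measure.restrict_apply (measurable_prodMk_left (hΦ ht))]
      refine Eq.trans ?_ (Measure.euclideanHausdorffMeasure_smul₀ 2 hl.1.ne' _)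
      congr 1
      ext x
      rw [mem_smul_set_iff_inv_smul_mem₀ hl.1.ne', mem_inter_iff, h3, mem_inter_iff, mem_inter_iff,
        mem_preimage, mem_preimage]
      simp only [smul_inv_smul₀ hl.1.ne']
      refine ⟨fun hx => ⟨hx.1.1, (pyr_mem hi hx.1.2 hx.2).2⟩, fun hx => ⟨⟨hx.1, ?_⟩, ?_⟩⟩
      · simpa only [smul_inv_smul₀ hl.1.ne'] using smul_mem hi hl hx.2
      · have h4 := hx.2.2 i rfl
        rwa [dt_smul, inv_mul_eq_iff_eq_mul₀ hl.1.ne'] at h4
    · rw [indicator_of_notMem hl]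
      exact measure_mono_null (fun x hx => (hl (pyr_mem hi hx.1.2 ((h3 x).1 hx.2)).1).elim)
        measure_empty
  rw [InnerProductSpace.euclideanHausdorffMeasure_eq_volume, finrank_euclideanSpace_fin] at h1
  simp only [show 3 - 1 = 2 from rfl, h2] at h1
  rw [Measure.restrict_apply ht, h1, lintegral_indicator measurableSet_Ioc, Measure.smul_apply,
    Measure.map_apply hΦ ht, Measure.prod_apply (hΦ ht), rad,
    lintegral_withDensity_eq_lintegral_mul _ (by fun_prop) (measurable_measure_prodMk_left (hΦ ht)),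
    ← ofReal_norm, norm_smul, hn, mul_one, Real.norm_of_nonneg hi.le]
  rfl

lemma pyr_sub (hh : ∀ i, 0 < h i) (i : ι) : pyr u h i ⊆ poly u h := fun x hx l =>
  le_of_mul_le_mul_left ((hx.2.2 l).trans (by
    rw [mul_comm (h i)]; exact mul_le_mul_of_nonneg_left hx.2.1 (hh l).le)) (hh i)

lemma split (S : Sys u h Tr) (hh : ∀ i, 0 < h i) :
    volume.restrict (poly u h) = ∑ i, volume.restrict (pyr u h i) := by
  rw [← Measure.sum_fintype, ← Measure.restrict_iUnion_ae ?_
    fun i => (meas_pyr u h i).nullMeasurableSet]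
  · refine Measure.restrict_congr_set (ae_eq_set.2 ⟨?_, ?_⟩)
    · refine measure_mono_null (t := {0}) (fun x hx => by_contra fun e => hx.2 ?_)
        (measure_singleton 0)
      obtain ⟨i, t, h1, h2, h3⟩ := ray S (b := 0) (fun l => by simpa using (hh l).le) e
      rw [zero_add] at h2 h3
      rw [dt_smul] at h3
      refine mem_iUnion.2 ⟨i, h1, hx.1 i, fun l => ?_⟩
      have := h2 l
      rw [dt_smul] at this
      rw [← h3]
      nlinarith
    · rw [sdiff_eq_empty.2 (iUnion_subset (pyr_sub hh)), measure_empty]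
  · intro i j hij
    obtain ⟨c, hc, H⟩ := S.exists_center i
    refine measure_mono_null (fun x hx => ?_) (vol_plane (a := h j • u i - h i • u j) ?_ 0)
    · show dt (h j • u i - h i • u j) x = 0
      rw [sub_dt, smul_dt, smul_dt]
      linarith [hx.1.2.2 j, hx.2.2.2 i]
    · intro e
      have := congrArg (fun v => dt v c) e
      simp only [sub_dt, smul_dt, zero_dt, hc] at this
      nlinarith [H j (Ne.symm hij), hh i]

end PyrX

open PyrX

theorem Sys.mu_fc_lt_top (S : Sys u h Tr) (hu : ∀ i, dt (u i) (u i) = 1) (i : ι) :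
    μHE[2] (fc u h {i}) < ⊤ := by
  obtain ⟨e, he, hne⟩ := exists_frame (n := u i)
  rw [area_pl (b := h i • u i) (hu i) he hne fun x hx => by
    rw [dt_smul, hu, mul_one]; exact hx.2 i rfl]
  exact (isCompact_pl (hu i) he hne (S.isCompact_fc {i})).measure_lt_top

theorem pyr_lintegral1 {i : ι} (hi : 0 < h i) (hu : dt (u i) (u i) = 1) {φ : E3 → ENNReal}
    (hφ : Measurable φ) :
    ∫⁻ x in FlagX.pyr u h i, φ x = ENNReal.ofReal (h i) * ∫⁻ x in fc u h {i},
      (∫⁻ l in Ioc (0 : ℝ) 1, ENNReal.ofReal (l ^ 2) * φ (l • x)) ∂μHE[2] := by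
  have := sfin (h := h) hu
  rw [key hi hu, lintegral_smul_measure, lintegral_map hφ (by fun_prop),
    lintegral_prod_symm' _ (by fun_prop), smul_eq_mul]
  congr 2
  funext x
  rw [rad, lintegral_withDensity_eq_lintegral_mul _ (by fun_prop) (by fun_prop)]
  rfl

theorem Sys.pyr_lintegral (S : Sys u h Tr) (hh : ∀ i, 0 < h i) (hu : ∀ i, dt (u i) (u i) = 1)
    {φ : E3 → ENNReal} (hφ : Measurable φ) :
    ∫⁻ x in poly u h, φ x = ∑ i, ENNReal.ofReal (h i) * ∫⁻ x in fc u h {i},
      (∫⁻ l in Ioc (0 : ℝ) 1, ENNReal.ofReal (l ^ 2) * φ (l • x)) ∂μHE[2] := by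
  rw [split S hh, lintegral_finsetSum_measure]
  exact Finset.sum_congr rfl fun i _ => pyr_lintegral1 (hh i) (hu i) hφ

theorem Sys.pyr_integral1 (S : Sys u h Tr) (hh : ∀ i, 0 < h i) (hu : ∀ i, dt (u i) (u i) = 1)
    (i : ι) {φ : E3 → ℝ} (hφ : Continuous φ) :
    ∫ x in FlagX.pyr u h i, φ x = h i * ∫ x in fc u h {i},
      (∫ l in (0 : ℝ)..1, l ^ 2 * φ (l • x)) ∂μHE[2] := by
  have := sfin (h := h) (hu i)
  have hΦ : Measurable fun p : ℝ × E3 => p.1 • p.2 := by fun_prop
  have i1 : Integrable φ (volume.restrict (FlagX.pyr u h i)) :=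
    (hφ.continuousOn.integrableOn_compact S.isCompact).mono_set (pyr_sub hh i)
  rw [key (hh i) (hu i), integrable_smul_measure (by simpa using hh i) ENNReal.ofReal_ne_top,
    integrable_map_measure hφ.aestronglyMeasurable hΦ.aemeasurable] at i1
  rw [key (hh i) (hu i), integral_smul_measure, integral_map hΦ.aemeasurable
    hφ.aestronglyMeasurable, integral_prod_symm (fun p : ℝ × E3 => φ (p.1 • p.2)) i1,
    ENNReal.toReal_ofReal (hh i).le, smul_eq_mul]
  congr 2
  funext x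
  rw [rad, integral_withDensity_eq_integral_toReal_smul (by fun_prop)
    (Eventually.of_forall fun _ => ENNReal.ofReal_lt_top), intervalIntegral.integral_of_le zero_le_one]
  simp only [ENNReal.toReal_ofReal (sq_nonneg _), smul_eq_mul]

theorem Sys.pyr_integral (S : Sys u h Tr) (hh : ∀ i, 0 < h i) (hu : ∀ i, dt (u i) (u i) = 1)
    {φ : E3 → ℝ} (hφ : Continuous φ) :
    ∫ x in poly u h, φ x = ∑ i, h i * ∫ x in fc u h {i},
      (∫ l in (0 : ℝ)..1, l ^ 2 * φ (l • x)) ∂μHE[2] := by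
  rw [split S hh, integral_finsetSum_measure fun i _ =>
    (hφ.continuousOn.integrableOn_compact S.isCompact).mono_set (pyr_sub hh i)]
  exact Finset.sum_congr rfl fun i _ => S.pyr_integral1 hh hu i hφ

theorem Sys.integrableOn_fc (S : Sys u h Tr) (hu : ∀ i, dt (u i) (u i) = 1) (i : ι)
    {φ : E3 → ℝ} (hφ : Continuous φ) : IntegrableOn φ (fc u h {i}) μHE[2] := by
  obtain ⟨B, hB⟩ := (S.isCompact_fc {i}).exists_bound_of_continuousOn hφ.continuousOn
  exact Measure.integrableOn_of_bounded (S.mu_fc_lt_top hu i).ne hφ.aestronglyMeasurable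
    (ae_restrict_of_forall_mem (isClosed_fc u h {i}).measurableSet hB)

end Pool.Agent.MP_5cfbf6_gt

end
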