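import Mathlib
import Pool.Agent.MP_616ade_gt.Defs

section

namespace Pool.Agent.MP_616ade_gt

open Finset

/-- Small quadrilaterals have short diagonals (a weak four point condition). -/
def SmallQuad (M : Type*) [PseudoMetricSpace M] (r : ℝ) : Prop :=
  ∀ δ : ℝ, δ ≤ r → ∀ a b c d : M, dist a b ≤ δ → dist b c ≤ δ → dist c d ≤ δ → dist d a ≤ δ →
    dist a c + dist b d ≤ 2 * δ

lemma line_deficit_aux {M : Type*} [PseudoMetricSpace M] (P : ℤ → M) (T : Set ℤ) (L : ℝ)
    (hup : ∀ i ∈ T, ∀ j ∈ T, i ≤ j → dist (P i) (P j) ≤ L * ((j : ℝ) - i))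
    (G : Finset ℤ) :
    (∀ i ∈ G, i ∈ T ∧ i + 1 ∈ T) → ∀ i0 ∈ T, (∀ i ∈ G, i0 ≤ i) → ∀ j ∈ T, i0 ≤ j →
      (∀ i ∈ G, i + 1 ≤ j) →
      dist (P i0) (P j) + ∑ i ∈ G, (L - dist (P i) (P (i + 1))) ≤ L * ((j : ℝ) - i0) := by
  induction G using Finset.induction_on_max with
  | empty =>
    intro _ i0 hi0 _ j hj hij _
    simpa using hup i0 hi0 j hj hij
  | insert m G hm ih =>
    intro hG i0 hi0 hle j hj hij hge
    have hmG : m ∉ G := fun h => lt_irrefl _ (hm m h)
    rw [Finset.sum_insert hmG]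
    have hmT := hG m (mem_insert_self _ _)
    have h1 := ih (fun i hi => hG i (mem_insert_of_mem hi)) i0 hi0
      (fun i hi => hle i (mem_insert_of_mem hi)) m hmT.1 (hle m (mem_insert_self _ _))
      (fun i hi => hm i hi)
    have h2 := hup (m + 1) hmT.2 j hj (hge m (mem_insert_self _ _))
    have h3 : dist (P i0) (P j) ≤ dist (P i0) (P m) + dist (P m) (P (m + 1))
        + dist (P (m + 1)) (P j) := dist_triangle4 _ _ _ _
    push_cast at h2
    nlinarith

lemma line_deficit {M : Type*} [PseudoMetricSpace M] (P : ℤ → M) (T : Set ℤ) (L ε : ℝ)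
    (hε : 0 ≤ ε)
    (hup : ∀ i ∈ T, ∀ j ∈ T, i ≤ j → dist (P i) (P j) ≤ L * ((j : ℝ) - i))
    (hlow : ∀ i ∈ T, ∀ j ∈ T, i ≤ j → L * ((j : ℝ) - i) - ε ≤ dist (P i) (P j))
    (G : Finset ℤ) (hG : ∀ i ∈ G, i ∈ T ∧ i + 1 ∈ T) :
    ∑ i ∈ G, (L - dist (P i) (P (i + 1))) ≤ ε := by
  rcases G.eq_empty_or_nonempty with rfl | hne
  · simpa using hε
  have h0 := hG _ (G.min'_mem hne)
  have h1 := hG _ (G.max'_mem hne)
  have hle : G.min' hne ≤ G.max' hne + 1 := by
    have := G.min'_le_max' hne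
    omega
  have h := line_deficit_aux P T L hup G hG (G.min' hne) h0.1 (fun i hi => G.min'_le i hi)
    (G.max' hne + 1) h1.2 hle (fun i hi => by have := G.le_max' i hi; omega)
  have h' := hlow _ h0.1 _ h1.2 hle
  linarith

/-- The counting argument. -/
lemma grid_obstruction {M : Type*} [PseudoMetricSpace M] {r : ℝ} (hM : SmallQuad M r)
    (N : ℕ) (δ ε : ℝ) (hδr : δ ≤ r) (hε : 0 ≤ ε)
    (T : Set ℤ) (G : Finset ℤ) (hG : ∀ i ∈ G, i ∈ T ∧ i + 1 ∈ T)
    (hGN : ∀ i ∈ G, 0 ≤ i ∧ i < N)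
    (F : ℤ → ℤ → M)
    (hup : ∀ i ∈ T, ∀ j ∈ T, ∀ i' ∈ T, ∀ j' ∈ T,
      dist (F i j) (F i' j') ≤ δ * (|(i : ℝ) - i'| + |(j : ℝ) - j'|))
    (hlow : ∀ i ∈ T, ∀ j ∈ T, ∀ i' ∈ T, ∀ j' ∈ T,
      δ * (|(i : ℝ) - i'| + |(j : ℝ) - j'|) - ε ≤ dist (F i j) (F i' j')) :
    2 * δ * (G.card : ℝ) ^ 2 ≤ 4 * N * ε := by
  classical
  -- deficits
  set φ : ℤ × ℤ → ℝ := fun p => 2 * δ - dist (F p.1 p.2) (F (p.1 + 1) (p.2 + 1)) with hφ
  set ψ : ℤ × ℤ → ℝ := fun p => 2 * δ - dist (F p.1 (p.2 + 1)) (F (p.1 + 1) p.2) with hψ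
  have hsq : ∀ p ∈ G ×ˢ G, 2 * δ ≤ φ p + ψ p := by
    rintro ⟨i, j⟩ hp
    rw [mem_product] at hp
    obtain ⟨hi, hi1⟩ := hG i hp.1
    obtain ⟨hj, hj1⟩ := hG j hp.2
    have e1 := hup i hi j hj (i + 1) hi1 j hj
    have e2 := hup (i + 1) hi1 j hj (i + 1) hi1 (j + 1) hj1
    have e3 := hup (i + 1) hi1 (j + 1) hj1 i hi (j + 1) hj1
    have e4 := hup i hi (j + 1) hj1 i hi j hj
    push_cast at e1 e2 e3 e4
    simp at e1 e2 e3 e4
    have := hM δ hδr _ _ _ _ e1 e2 e3 e4
    simp only [hφ, hψ]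
    rw [dist_comm (F i (j + 1))]
    linarith
  have hA : ∑ p ∈ G ×ˢ G, φ p ≤ 2 * N * ε := by
    rw [← Finset.sum_fiberwise_of_maps_to (s := G ×ˢ G) (t := Finset.Ico (-(N : ℤ)) N)
      (g := fun p => p.2 - p.1)]
    · have hb : ∀ k ∈ Finset.Ico (-(N : ℤ)) N,
          ∑ p ∈ (G ×ˢ G) with p.2 - p.1 = k, φ p ≤ ε := by
        intro k _
        have := line_deficit (fun i => F i (i + k)) {i | i ∈ T ∧ i + k ∈ T} (2 * δ) ε hε
          (by
            rintro i ⟨hi, hik⟩ j ⟨hj, hjk⟩ hij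
            have h := hup i hi _ hik j hj _ hjk
            have hij' : (i : ℝ) ≤ j := by exact_mod_cast hij
            push_cast at h
            rw [show (i : ℝ) + k - (j + k) = i - j by ring, abs_of_nonpos (by linarith)] at h
            linarith)
          (by
            rintro i ⟨hi, hik⟩ j ⟨hj, hjk⟩ hij
            have h := hlow i hi _ hik j hj _ hjk
            have hij' : (i : ℝ) ≤ j := by exact_mod_cast hij
            push_cast at h
            rw [show (i : ℝ) + k - (j + k) = i - j by ring, abs_of_nonpos (by linarith)] at h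
            linarith)
          (G.filter fun i => i + k ∈ G)
          (by
            intro i hi
            rw [mem_filter] at hi
            refine ⟨⟨(hG i hi.1).1, (hG _ hi.2).1⟩, (hG i hi.1).2, ?_⟩
            have := (hG _ hi.2).2
            rwa [show i + 1 + k = i + k + 1 by ring])
        refine le_trans (le_of_eq ?_) this
        refine Finset.sum_nbij' (fun p => p.1) (fun i => (i, i + k)) ?_ ?_ ?_ ?_ ?_
        · rintro ⟨i, j⟩ hp
          simp only [mem_filter, mem_product] at hp ⊢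
          refine ⟨hp.1.1, ?_⟩
          have : i + k = j := by omega
          rw [this]; exact hp.1.2
        · intro i hi
          simp only [mem_filter, mem_product] at hi ⊢
          exact ⟨⟨hi.1, hi.2⟩, by ring⟩
        · rintro ⟨i, j⟩ hp
          simp only [mem_filter, mem_product] at hp
          have : i + k = j := by omega
          simp [this]
        · intro i _; rfl
        · rintro ⟨i, j⟩ hp
          simp only [mem_filter, mem_product] at hp
          have : i + k = j := by omega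
          subst this
          simp only [hφ]
          rw [show i + 1 + k = i + k + 1 by ring]
      calc _ ≤ ∑ k ∈ Finset.Ico (-(N : ℤ)) N, ε := Finset.sum_le_sum hb
        _ = 2 * N * ε := by
          rw [Finset.sum_const, Int.card_Ico, nsmul_eq_mul]
          have : ((N : ℤ) - -(N : ℤ)).toNat = 2 * N := by omega
          rw [this]; push_cast; ring
    · rintro ⟨i, j⟩ hp
      rw [mem_product] at hp
      have := hGN i hp.1
      have := hGN j hp.2
      simp only [mem_Ico]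
      omega
  have hB : ∑ p ∈ G ×ˢ G, ψ p ≤ 2 * N * ε := by
    rw [← Finset.sum_fiberwise_of_maps_to (s := G ×ˢ G) (t := Finset.Ico (0 : ℤ) (2 * N))
      (g := fun p => p.2 + p.1 + 1)]
    · have hb : ∀ k ∈ Finset.Ico (0 : ℤ) (2 * N),
          ∑ p ∈ (G ×ˢ G) with p.2 + p.1 + 1 = k, ψ p ≤ ε := by
        intro k _
        have := line_deficit (fun i => F i (k - i)) {i | i ∈ T ∧ k - i ∈ T} (2 * δ) ε hε
          (by
            rintro i ⟨hi, hik⟩ j ⟨hj, hjk⟩ hij
            have h := hup i hi _ hik j hj _ hjk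
            have hij' : (i : ℝ) ≤ j := by exact_mod_cast hij
            push_cast at h
            rw [show (k : ℝ) - i - (k - j) = j - i by ring, abs_of_nonpos (by linarith),
              abs_of_nonneg (by linarith)] at h
            linarith)
          (by
            rintro i ⟨hi, hik⟩ j ⟨hj, hjk⟩ hij
            have h := hlow i hi _ hik j hj _ hjk
            have hij' : (i : ℝ) ≤ j := by exact_mod_cast hij
            push_cast at h
            rw [show (k : ℝ) - i - (k - j) = j - i by ring, abs_of_nonpos (by linarith),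
              abs_of_nonneg (by linarith)] at h
            linarith)
          (G.filter fun i => k - i - 1 ∈ G)
          (by
            intro i hi
            rw [mem_filter] at hi
            refine ⟨⟨(hG i hi.1).1, ?_⟩, (hG i hi.1).2, ?_⟩
            · have := (hG _ hi.2).2
              rwa [show k - i - 1 + 1 = k - i by ring] at this
            · have := (hG _ hi.2).1
              rwa [show k - (i + 1) = k - i - 1 by ring])
        refine le_trans (le_of_eq ?_) this
        refine Finset.sum_nbij' (fun p => p.1) (fun i => (i, k - i - 1)) ?_ ?_ ?_ ?_ ?_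
        · rintro ⟨i, j⟩ hp
          simp only [mem_filter, mem_product] at hp ⊢
          refine ⟨hp.1.1, ?_⟩
          have : k - i - 1 = j := by omega
          rw [this]; exact hp.1.2
        · intro i hi
          simp only [mem_filter, mem_product] at hi ⊢
          exact ⟨⟨hi.1, hi.2⟩, by ring⟩
        · rintro ⟨i, j⟩ hp
          simp only [mem_filter, mem_product] at hp
          have : k - i - 1 = j := by omega
          simp [this]
        · intro i _; rfl
        · rintro ⟨i, j⟩ hp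
          simp only [mem_filter, mem_product] at hp
          have h1 : k - i = j + 1 := by omega
          have h2 : k - (i + 1) = j := by omega
          simp only [hψ]
          rw [h1, h2]
      calc _ ≤ ∑ k ∈ Finset.Ico (0 : ℤ) (2 * N), ε := Finset.sum_le_sum hb
        _ = 2 * N * ε := by
          rw [Finset.sum_const, Int.card_Ico, nsmul_eq_mul]
          have : (2 * (N : ℤ) - 0).toNat = 2 * N := by omega
          rw [this]; push_cast; ring
    · rintro ⟨i, j⟩ hp
      rw [mem_product] at hp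
      have := hGN i hp.1
      have := hGN j hp.2
      simp only [mem_Ico]
      omega
  have hC : ∑ p ∈ G ×ˢ G, (2 * δ) ≤ ∑ p ∈ G ×ˢ G, (φ p + ψ p) := Finset.sum_le_sum hsq
  rw [Finset.sum_add_distrib, Finset.sum_const, Finset.card_product, nsmul_eq_mul] at hC
  push_cast at hC
  nlinarith

end Pool.Agent.MP_616ade_gt

end

section

open scoped ENNReal Topology
open Set

namespace Pool.Agent.MP_616ade_gt

variable {M : Type*} [MetricSpace M]

lemma edist_le_curveLength {x y : M} (γ : Path x y) : edist x y ≤ curveLength γ := by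
  have := eVariationOn.edist_le γ (s := univ) (mem_univ 0) (mem_univ 1)
  simpa [curveLength] using this

lemma edist_le_inducedLengthDist (S : Set M) (x y : M) :
    edist x y ≤ inducedLengthDist S x y :=
  le_iInf fun γ => le_iInf fun _ => edist_le_curveLength γ

/-- The initial piece of a path. -/
noncomputable def initialPath {x y : M} (γ : Path x y) (t : unitInterval) : Path x (γ t) where
  toFun s := γ (min s t)
  continuous_toFun := γ.continuous.comp (continuous_id.min continuous_const)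
  source' := by simp
  target' := by
    have : min (1 : unitInterval) t = t := min_eq_right unitInterval.le_one'
    simp [this]

lemma split_length {x y : M} (γ : Path x y) (t : unitInterval) (S : Set M)
    (hS : ∀ s ≤ t, γ s ∈ S) :
    inducedLengthDist S x (γ t) + edist (γ t) y ≤ curveLength γ := by
  have h1 : inducedLengthDist S x (γ t) ≤ eVariationOn γ (Iic t) := by
    refine le_trans (iInf_le_of_le (initialPath γ t) (iInf_le_of_le ?_ le_rfl)) ?_
    · rintro _ ⟨s, rfl⟩
      exact hS _ (min_le_right _ _)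
    · exact eVariationOn.comp_le_of_monotoneOn γ (s := Iic t) (t := univ) (fun s => min s t)
        (fun a _ b _ hab => min_le_min_right _ hab) (fun s _ => mem_Iic.2 (min_le_right _ _))
  have h2 : edist (γ t) y ≤ eVariationOn γ (Ici t) := by
    have := eVariationOn.edist_le γ (s := Ici t) (x := t) (y := 1) (mem_Ici.2 le_rfl)
      (mem_Ici.2 unitInterval.le_one')
    simpa using this
  calc _ ≤ eVariationOn γ (Iic t) + eVariationOn γ (Ici t) := add_le_add h1 h2
    _ ≤ eVariationOn γ (Iic t ∪ Ici t) :=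
      eVariationOn.add_le_union γ (fun a ha b hb => le_trans ha hb)
    _ = curveLength γ := by rw [Iic_union_Ici]; rfl

/-- A path which starts in a closed set `S` and leaves it passes through a point of `S ∩ R`,
where `R` is any closed set containing the complement of `S`. -/
lemma exists_exit {x y : M} (γ : Path x y) (S R : Set M) (hS : IsClosed S) (hR : IsClosed R)
    (hSR : ∀ z, z ∉ S → z ∈ R) (hx : x ∈ S) (hγ : ¬ range γ ⊆ S) :
    ∃ t : unitInterval, (∀ s ≤ t, γ s ∈ S) ∧ γ t ∈ R := by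
  set A : Set unitInterval := {t | γ t ∉ S} with hA
  have hne : A.Nonempty := by
    rw [range_subset_iff] at hγ
    push Not at hγ
    exact hγ
  refine ⟨sInf A, ?_, ?_⟩
  · have hlt : ∀ s < sInf A, γ s ∈ S := by
      intro s hs
      by_contra h
      exact absurd (sInf_le (show s ∈ A from h)) (not_le.2 hs)
    intro s hs
    rcases hs.lt_or_eq with h | h
    · exact hlt s h
    · by_cases h0 : s = 0
      · rw [h0]; simpa using hx
      · have hpos : (0 : unitInterval) < s := lt_of_le_of_ne unitInterval.nonneg' (Ne.symm h0)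
        have hcl : IsClosed (γ ⁻¹' S) := hS.preimage γ.continuous
        have hsub : Ico (0 : unitInterval) s ⊆ γ ⁻¹' S := fun a ha => hlt a (h ▸ ha.2)
        have : s ∈ closure (Ico (0 : unitInterval) s) := by
          rw [closure_Ico hpos.ne]
          exact ⟨hpos.le, le_rfl⟩
        exact hcl.closure_subset_iff.2 hsub this
  · have hcl : IsClosed (γ ⁻¹' R) := hR.preimage γ.continuous
    have hsub : A ⊆ γ ⁻¹' R := fun a ha => hSR _ ha
    exact hcl.closure_subset_iff.2 hsub (sInf_mem_closure hne)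

/-- Abstract description of a finite metric graph. -/
structure GraphData (M : Type*) [MetricSpace M] (ι : Type*) where
  S : ι → Set M
  V : Set M
  τ : ι → M → ℝ
  closed : ∀ i, IsClosed (S i)
  cover : ∀ x, ∃ i, x ∈ S i
  finV : V.Finite
  inter : ∀ i j, i ≠ j → ∀ x, x ∈ S i → x ∈ S j → x ∈ V
  coord : ∀ i, ∀ x ∈ S i, ∀ y ∈ S i,
    inducedLengthDist (S i) x y = ENNReal.ofReal |τ i x - τ i y|

namespace GraphData

variable {ι : Type*} [Finite ι] (D : GraphData M ι)

omit [Finite ι] in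
lemma dist_le_coord {i : ι} {x y : M} (hx : x ∈ D.S i) (hy : y ∈ D.S i) :
    dist x y ≤ |D.τ i x - D.τ i y| := by
  have := edist_le_inducedLengthDist (D.S i) x y
  rw [D.coord i x hx y hy, edist_dist] at this
  exact (ENNReal.ofReal_le_ofReal_iff (abs_nonneg _)).1 this

lemma exit (hL : IsLengthSpace M) {i : ι} {x : M} (hx : x ∈ D.S i) (y : M) :
    (y ∈ D.S i ∧ dist x y = |D.τ i x - D.τ i y|) ∨
      ∃ w ∈ D.V, w ∈ D.S i ∧ dist x y = |D.τ i x - D.τ i w| + dist w y := by
  classical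
  by_contra hcon
  push Not at hcon
  obtain ⟨h1, h2⟩ := hcon
  -- all candidates are strictly larger than the distance
  have hfin : (D.V ∩ D.S i).Finite := D.finV.inter_of_left _
  let C : Finset ℝ := (hfin.toFinset.image fun w => |D.τ i x - D.τ i w| + dist w y) ∪
    (if y ∈ D.S i then {|D.τ i x - D.τ i y|} else ∅)
  have hC : ∀ c ∈ C, dist x y < c := by
    intro c hc
    simp only [C, Finset.mem_union, Finset.mem_image, Finite.mem_toFinset] at hc
    rcases hc with ⟨w, hw, rfl⟩ | hc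
    · refine lt_of_le_of_ne ?_ (h2 w hw.1 hw.2)
      have := D.dist_le_coord hx hw.2
      linarith [dist_triangle x w y]
    · split_ifs at hc with hy
      · rw [Finset.mem_singleton] at hc
        subst hc
        exact lt_of_le_of_ne (D.dist_le_coord hx hy) (h1 hy)
      · simp at hc
  obtain ⟨m, hm, hmC⟩ : ∃ m, dist x y < m ∧ ∀ c ∈ C, m ≤ c := by
    rcases C.eq_empty_or_nonempty with h | h
    · exact ⟨dist x y + 1, by linarith, by simp [h]⟩
    · exact ⟨C.min' h, hC _ (C.min'_mem h), fun c hc => C.min'_le c hc⟩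
  have hle : ENNReal.ofReal m ≤ edist x y := by
    rw [hL x y]
    refine le_iInf fun γ => ?_
    by_cases hγ : range γ ⊆ D.S i
    · have hy : y ∈ D.S i := hγ ⟨1, by simp⟩
      have hc : m ≤ |D.τ i x - D.τ i y| := hmC _ (by simp [C, hy])
      calc ENNReal.ofReal m ≤ ENNReal.ofReal |D.τ i x - D.τ i y| := ENNReal.ofReal_le_ofReal hc
        _ = inducedLengthDist (D.S i) x y := (D.coord i x hx y hy).symm
        _ ≤ curveLength γ := iInf_le_of_le γ (iInf_le_of_le hγ le_rfl)
    · obtain ⟨t, ht, htR⟩ := exists_exit γ (D.S i) (⋃ j : {j // j ≠ i}, D.S j) (D.closed i)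
        (isClosed_iUnion_of_finite fun j => D.closed j)
        (by
          intro z hz
          obtain ⟨j, hj⟩ := D.cover z
          refine mem_iUnion.2 ⟨⟨j, ?_⟩, hj⟩
          rintro rfl
          exact hz hj) hx hγ
      obtain ⟨j, hj⟩ := mem_iUnion.1 htR
      have hw : γ t ∈ D.S i := ht t le_rfl
      have hwV : γ t ∈ D.V := D.inter i j (Ne.symm j.2) _ hw hj
      have hc : m ≤ |D.τ i x - D.τ i (γ t)| + dist (γ t) y := by
        apply hmC
        simp only [C, Finset.mem_union, Finset.mem_image, Finite.mem_toFinset]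
        exact Or.inl ⟨γ t, ⟨hwV, hw⟩, rfl⟩
      calc ENNReal.ofReal m ≤ ENNReal.ofReal (|D.τ i x - D.τ i (γ t)| + dist (γ t) y) :=
            ENNReal.ofReal_le_ofReal hc
        _ = inducedLengthDist (D.S i) x (γ t) + edist (γ t) y := by
            rw [ENNReal.ofReal_add (abs_nonneg _) dist_nonneg, D.coord i x hx _ hw, edist_dist]
        _ ≤ curveLength γ := split_length γ t _ ht
  rw [edist_dist, ENNReal.ofReal_le_ofReal_iff dist_nonneg] at hle
  linarith

omit [Finite ι] in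
lemma exists_sep : ∃ r > 0, ∀ v ∈ D.V, ∀ w ∈ D.V, dist v w < r → v = w := by
  obtain ⟨C, hC, h⟩ := D.finV.relatively_discrete
  obtain ⟨r, hr0, hr⟩ : ∃ r : ℝ, 0 < r ∧ ENNReal.ofReal r ≤ C := by
    rcases eq_or_ne C ⊤ with rfl | hT
    · exact ⟨1, one_pos, le_top⟩
    · exact ⟨C.toReal, ENNReal.toReal_pos hC.ne' hT, by rw [ENNReal.ofReal_toReal hT]⟩
  refine ⟨r, hr0, fun v hv w hw hvw => ?_⟩
  by_contra hne
  have := h v hv w hw hne
  rw [edist_dist] at this
  have := (ENNReal.ofReal_le_ofReal_iff dist_nonneg).1 (hr.trans this)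
  linarith

variable {r : ℝ}

/-- close to a vertex -/
lemma near_vertex (hL : IsLengthSpace M) (hr : ∀ v ∈ D.V, ∀ w ∈ D.V, dist v w < r → v = w)
    {i : ι} {x w : M} (hx : x ∈ D.S i) (hw : w ∈ D.V) (h : dist x w < r) :
    w ∈ D.S i ∧ dist x w = |D.τ i x - D.τ i w| := by
  rcases D.exit hL hx w with h1 | ⟨w', hw', hw'S, h1⟩
  · exact h1
  · have : w' = w := hr w' hw' w hw (by linarith [abs_nonneg (D.τ i x - D.τ i w')])
    subst this
    exact ⟨hw'S, by simpa using h1⟩

lemma local_isom (hL : IsLengthSpace M) (hr : ∀ v ∈ D.V, ∀ w ∈ D.V, dist v w < r → v = w)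
    {i : ι} {x y : M} (hx : x ∈ D.S i) (hy : y ∈ D.S i) (h : dist x y < r) :
    dist x y = |D.τ i x - D.τ i y| := by
  rcases D.exit hL hx y with h1 | ⟨w, hw, hwS, h1⟩
  · exact h1.2
  · have h2 := D.near_vertex hL hr hy hw
      (by rw [dist_comm]; linarith [abs_nonneg (D.τ i x - D.τ i w)])
    refine le_antisymm (D.dist_le_coord hx hy) ?_
    rw [h1, dist_comm w y, h2.2, abs_sub_comm (D.τ i y)]
    exact abs_sub_le _ _ _

lemma through_vertex (hL : IsLengthSpace M) {i : ι} {x y : M} (hx : x ∈ D.S i)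
    (hy : y ∉ D.S i) : ∃ w ∈ D.V, dist x y = dist x w + dist w y := by
  rcases D.exit hL hx y with h1 | ⟨w, hw, hwS, h1⟩
  · exact absurd h1.1 hy
  · refine ⟨w, hw, le_antisymm (dist_triangle _ _ _) ?_⟩
    linarith [D.dist_le_coord hx hwS]

end GraphData

lemma quad_real (δ a b c d : ℝ) (h1 : |a - b| ≤ δ) (h2 : |b - c| ≤ δ) (h3 : |c - d| ≤ δ)
    (h4 : |d - a| ≤ δ) : |a - c| + |b - d| ≤ 2 * δ := by
  rw [abs_le] at h1 h2 h3 h4
  rcases abs_cases (a - c) with h | h <;> rcases abs_cases (b - d) with h' | h' <;>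
    linarith [h1.1, h1.2, h2.1, h2.2, h3.1, h3.2, h4.1, h4.2, h.1, h'.1]

open Classical in
/-- distance in a star with legs indexed by `κ` -/
noncomputable def starDist {κ : Type*} (l l' : κ) (t t' : ℝ) : ℝ :=
  if l = l' then |t - t'| else t + t'

lemma quad_star {κ : Type*} (δ : ℝ) (la lb lc ld : κ) (a b c d : ℝ) (ha : 0 ≤ a) (hb : 0 ≤ b)
    (hc : 0 ≤ c) (hd : 0 ≤ d)
    (h1 : starDist la lb a b ≤ δ) (h2 : starDist lb lc b c ≤ δ) (h3 : starDist lc ld c d ≤ δ)
    (h4 : starDist ld la d a ≤ δ) : starDist la lc a c + starDist lb ld b d ≤ 2 * δ := by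
  unfold starDist at *
  rcases abs_cases (a - c) with h | h <;> rcases abs_cases (b - d) with h' | h' <;>
  split_ifs at h1 h2 h3 h4 ⊢ <;>
  first
  | (exfalso; subst_vars; contradiction)
  | (simp only [abs_le] at h1 h2 h3 h4 ⊢; grind)
  | grind

theorem GraphData.smallQuad {ι : Type*} [Finite ι] (D : GraphData M ι) (hL : IsLengthSpace M) :
    ∃ r > 0, SmallQuad M r := by
  classical
  obtain ⟨r, hr0, hr⟩ := D.exists_sep
  refine ⟨r / 16, by positivity, fun δ hδ a b c d hab hbc hcd hda => ?_⟩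
  have hac : dist a c ≤ 2 * δ := by linarith [dist_triangle a b c]
  have hbd : dist b d ≤ 2 * δ := by linarith [dist_triangle b c d]
  have hδ0 : 0 ≤ δ := le_trans dist_nonneg hab
  by_cases hw : ∃ w ∈ D.V, dist a w < r / 4
  · obtain ⟨w, hw, haw⟩ := hw
    choose I hI using D.cover
    let leg : M → ι × Prop := fun x => (I x, D.τ (I x) w ≤ D.τ (I x) x)
    have key : ∀ x y : M, dist x w < r / 2 → dist y w < r / 2 → dist x y < r / 2 →
        dist x y = starDist (leg x) (leg y) (dist x w) (dist y w) := by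
      intro x y hxw hyw hxy
      have hx := D.near_vertex hL hr (hI x) hw (by linarith)
      have hy := D.near_vertex hL hr (hI y) hw (by linarith)
      by_cases hij : I x = I y
      · have hyx : y ∈ D.S (I x) := hij ▸ hI y
        have h1 := D.local_isom hL hr (hI x) hyx (by linarith)
        have hy2 := hy.2
        rw [← hij] at hy2
        unfold starDist
        have hleg : leg x = leg y ↔
            (D.τ (I x) w ≤ D.τ (I x) x ↔ D.τ (I x) w ≤ D.τ (I x) y) := by
          simp only [leg, Prod.mk.injEq, ← hij, true_and, eq_iff_iff]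
        rw [h1, hx.2, hy2]
        by_cases p1 : D.τ (I x) w ≤ D.τ (I x) x <;> by_cases p2 : D.τ (I x) w ≤ D.τ (I x) y
        · rw [if_pos (hleg.2 (by tauto)), abs_of_nonneg (sub_nonneg.2 p1),
            abs_of_nonneg (sub_nonneg.2 p2)]
          congr 1; ring
        · rw [if_neg (by rw [hleg]; tauto)]
          push Not at p2
          rw [abs_of_nonneg (sub_nonneg.2 p1), abs_of_neg (sub_neg.2 p2),
            abs_of_nonneg (by linarith)]
          ring
        · rw [if_neg (by rw [hleg]; tauto)]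
          push Not at p1
          rw [abs_of_nonneg (sub_nonneg.2 p2), abs_of_neg (sub_neg.2 p1),
            abs_of_nonpos (by linarith)]
          ring
        · rw [if_pos (hleg.2 (by tauto))]
          push Not at p1 p2
          rw [abs_of_neg (sub_neg.2 p1), abs_of_neg (sub_neg.2 p2), ← abs_neg]
          congr 1; ring
      · have hleg : leg x ≠ leg y := fun h => hij (congrArg Prod.fst h)
        unfold starDist
        rw [if_neg hleg]
        by_cases hyx : y ∈ D.S (I x)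
        · have hyV := D.inter _ _ hij y hyx (hI y)
          have : y = w := hr y hyV w hw (by linarith)
          subst this
          simp
        · obtain ⟨w', hw', h⟩ := D.through_vertex hL (hI x) hyx
          have : w' = w := by
            apply hr w' hw' w hw
            have h1 := dist_triangle w' x w
            rw [dist_comm w' x] at h1
            linarith [dist_nonneg (x := w') (y := y)]
          subst this
          rw [h, dist_comm y]
    have hb : dist b w < r / 2 := by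
      have := dist_triangle b a w
      rw [dist_comm b a] at this
      linarith
    have hc : dist c w < r / 2 := by
      have := dist_triangle c a w
      rw [dist_comm c a] at this
      linarith
    have hd : dist d w < r / 2 := by
      have := dist_triangle d a w
      linarith
    have ha : dist a w < r / 2 := by linarith
    rw [key a c ha hc (by linarith), key b d hb hd (by linarith)]
    apply quad_star δ _ _ _ _ _ _ _ _ dist_nonneg dist_nonneg dist_nonneg dist_nonneg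
    · rwa [← key a b ha hb (by linarith)]
    · rwa [← key b c hb hc (by linarith)]
    · rwa [← key c d hc hd (by linarith)]
    · rwa [← key d a hd ha (by linarith)]
  · push Not at hw
    obtain ⟨i, hi⟩ := D.cover a
    have hin : ∀ x, dist a x ≤ 2 * δ → x ∈ D.S i := by
      intro x hx
      by_contra hxi
      obtain ⟨w, hwV, h⟩ := D.through_vertex hL hi hxi
      have := hw w hwV
      linarith [dist_nonneg (x := w) (y := x)]
    have hb := hin b (by linarith)
    have hc := hin c hac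
    have hd := hin d (by rw [dist_comm]; linarith)
    rw [D.local_isom hL hr hi hc (by linarith), D.local_isom hL hr hb hd (by linarith)]
    apply quad_real
    · rwa [← D.local_isom hL hr hi hb (by linarith)]
    · rwa [← D.local_isom hL hr hb hc (by linarith)]
    · rwa [← D.local_isom hL hr hc hd (by linarith)]
    · rwa [← D.local_isom hL hr hd hi (by linarith)]

end Pool.Agent.MP_616ade_gt

end

section

open scoped ENNReal Topology
open Set Filter

namespace Pool.Agent.MP_616ade_gt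

variable {K : Type*} [MetricSpace K]

/-- Chains with steps at most `ε` and total length `ℓ`. -/
inductive Chain (ε : ℝ) (p : K) : K → ℝ → Prop
  | refl : Chain ε p p 0
  | step {q r : K} {ℓ : ℝ} : Chain ε p q ℓ → dist q r ≤ ε → Chain ε p r (ℓ + dist q r)

namespace Chain

lemma mono {ε ε' : ℝ} (h : ε ≤ ε') {p q : K} {ℓ : ℝ} (hc : Chain ε p q ℓ) : Chain ε' p q ℓ := by
  induction hc with
  | refl => exact refl
  | step _ hd ih => exact ih.step (hd.trans h)

lemma trans {ε : ℝ} {p q r : K} {ℓ ℓ' : ℝ} (h1 : Chain ε p q ℓ) (h2 : Chain ε q r ℓ') :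
    Chain ε p r (ℓ + ℓ') := by
  induction h2 with
  | refl => simpa using h1
  | step _ hd ih => rw [← add_assoc]; exact ih.step hd

lemma single {ε : ℝ} {p q : K} (h : dist p q ≤ ε) : Chain ε p q (dist p q) := by
  simpa using (refl (ε := ε) (p := p)).step h

lemma symm {ε : ℝ} {p q : K} {ℓ : ℝ} (hc : Chain ε p q ℓ) : Chain ε q p ℓ := by
  induction hc with
  | refl => exact refl
  | @step q r ℓ _ hd ih =>
    have := (single (ε := ε) (p := r) (q := q) (by rwa [dist_comm])).trans ih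
    rwa [add_comm, dist_comm] at this

lemma dist_le {ε : ℝ} {p q : K} {ℓ : ℝ} (hc : Chain ε p q ℓ) : dist p q ≤ ℓ := by
  induction hc with
  | refl => simp
  | @step q r ℓ _ _ ih => linarith [dist_triangle p q r]

lemma param {ε : ℝ} (hε : 0 ≤ ε) {p q : K} {ℓ : ℝ} (hc : Chain ε p q ℓ) :
    ∃ γ : ℝ → K, γ 0 = p ∧ (∀ t, ℓ ≤ t → γ t = q) ∧
      ∀ s t, s ≤ t → ∃ ℓ' ≤ t - s + ε, Chain ε (γ s) (γ t) ℓ' := by
  classical
  induction hc with
  | refl => exact ⟨fun _ => p, rfl, fun _ _ => rfl, fun s t hst => ⟨0, by linarith, refl⟩⟩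
  | @step q r ℓ hc hd ih =>
    obtain ⟨γ, h0, h1, h2⟩ := ih
    have hℓ : 0 ≤ ℓ := le_trans dist_nonneg hc.dist_le
    have hd0 : 0 ≤ dist q r := dist_nonneg
    refine ⟨fun t => if ℓ + dist q r ≤ t then r else γ t, ?_, fun t ht => by simp [ht], ?_⟩
    · by_cases h : ℓ + dist q r ≤ 0
      · simp only [h, if_true]
        have e1 : dist q r = 0 := by linarith
        have e2 : γ 0 = q := h1 0 (by linarith)
        rw [← h0, e2]
        exact (dist_eq_zero.1 e1).symm
      · simp only [h, if_false, h0]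
    · intro s t hst
      by_cases hs : ℓ + dist q r ≤ s
      · have ht : ℓ + dist q r ≤ t := hs.trans hst
        simp only [hs, ht, if_true]
        exact ⟨0, by linarith, refl⟩
      · by_cases ht : ℓ + dist q r ≤ t
        · simp only [hs, ht, if_true, if_false]
          by_cases hsl : ℓ ≤ s
          · rw [h1 s hsl]
            exact ⟨dist q r, by linarith, single hd⟩
          · obtain ⟨ℓ', h3, h4⟩ := h2 s ℓ (le_of_not_ge hsl)
            rw [h1 ℓ le_rfl] at h4
            exact ⟨ℓ' + dist q r, by linarith, h4.step hd⟩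
        · simp only [hs, ht, if_false]
          exact h2 s t hst

end Chain

/-- The chain distance from `p` to `q` is at most `L`. -/
def CLe (p q : K) (L : ℝ) : Prop := ∀ ε > 0, ∃ ℓ ≤ L + ε, Chain ε p q ℓ

namespace CLe

lemma refl (p : K) : CLe p p 0 := fun ε hε => ⟨0, by linarith, Chain.refl⟩

lemma mono {p q : K} {L L' : ℝ} (h : CLe p q L) (hL : L ≤ L') : CLe p q L' := fun ε hε =>
  let ⟨ℓ, h1, h2⟩ := h ε hε
  ⟨ℓ, by linarith, h2⟩

lemma symm {p q : K} {L : ℝ} (h : CLe p q L) : CLe q p L := fun ε hε =>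
  let ⟨ℓ, h1, h2⟩ := h ε hε
  ⟨ℓ, h1, h2.symm⟩

lemma trans {p q r : K} {L L' : ℝ} (h : CLe p q L) (h' : CLe q r L') : CLe p r (L + L') := by
  intro ε hε
  obtain ⟨ℓ, h1, h2⟩ := h (ε / 2) (by linarith)
  obtain ⟨ℓ', h1', h2'⟩ := h' (ε / 2) (by linarith)
  exact ⟨ℓ + ℓ', by linarith, (h2.trans h2').mono (by linarith)⟩

lemma dist_le {p q : K} {L : ℝ} (h : CLe p q L) : dist p q ≤ L := by
  apply le_of_forall_pos_le_add
  intro ε hε
  obtain ⟨ℓ, h1, h2⟩ := h ε hε
  exact h2.dist_le.trans h1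

lemma of_approx {p q : K} {L : ℝ}
    (h : ∀ η > 0, ∃ p' q' : K, dist p p' ≤ η ∧ dist q q' ≤ η ∧ ∃ ℓ ≤ L + η, Chain η p' q' ℓ) :
    CLe p q L := by
  intro ε hε
  obtain ⟨p', q', hp, hq, ℓ, h1, h2⟩ := h (ε / 3) (by linarith)
  have hq' : dist q' q ≤ ε / 3 := by rwa [dist_comm]
  exact ⟨dist p p' + ℓ + dist q' q, by linarith,
    (((Chain.single hp).trans h2).step hq').mono (by linarith)⟩

lemma of_approx' {p q : K} {L : ℝ}
    (h : ∀ η > 0, ∃ p' q' : K, dist p p' ≤ η ∧ dist q q' ≤ η ∧ CLe p' q' (L + η)) :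
    CLe p q L := by
  apply of_approx
  intro η hη
  obtain ⟨p', q', hp, hq, h'⟩ := h (η / 2) (by linarith)
  obtain ⟨ℓ, h1, h2⟩ := h' (η / 2) (by linarith)
  exact ⟨p', q', by linarith, by linarith, ℓ, by linarith, h2.mono (by linarith)⟩

lemma of_lipschitz (f : ℝ → K) (L : ℝ) (hL : 0 ≤ L)
    (hf : ∀ s ∈ Icc (0 : ℝ) 1, ∀ t ∈ Icc (0 : ℝ) 1, dist (f s) (f t) ≤ L * |s - t|) :
    CLe (f 0) (f 1) L := by
  intro ε hε
  obtain ⟨n, hn⟩ := exists_nat_gt (L / ε)
  have hn0 : (0 : ℝ) < n := lt_of_le_of_lt (by positivity) hn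
  have hstep : L / n ≤ ε := by
    rw [div_le_iff₀ hn0]
    rw [div_lt_iff₀ hε] at hn
    linarith
  have key : ∀ k : ℕ, k ≤ n → ∃ ℓ ≤ L * (k / n), Chain ε (f 0) (f (k / n)) ℓ := by
    intro k
    induction k with
    | zero => intro _; exact ⟨0, by simp, by simpa using Chain.refl⟩
    | succ k ih =>
      intro hk
      obtain ⟨ℓ, h1, h2⟩ := ih (by omega)
      have hk' : ((k + 1 : ℕ) : ℝ) ≤ n := by exact_mod_cast hk
      have hk'' : (k : ℝ) ≤ n := by push_cast at hk'; linarith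
      have hd : dist (f (k / n)) (f ((k + 1 : ℕ) / n)) ≤ L / n := by
        refine (hf _ ⟨by positivity, (div_le_one hn0).2 hk''⟩ _
          ⟨by positivity, (div_le_one hn0).2 hk'⟩).trans (le_of_eq ?_)
        push_cast
        rw [show (k : ℝ) / n - (k + 1) / n = -(1 / n) by ring, abs_neg,
          abs_of_nonneg (by positivity)]
        ring
      refine ⟨_, ?_, h2.step (hd.trans hstep)⟩
      have : L * (((k + 1 : ℕ) : ℝ) / n) = L * (k / n) + L / n := by push_cast; ring
      linarith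
  obtain ⟨ℓ, h1, h2⟩ := key n le_rfl
  rw [div_self hn0.ne'] at h1 h2
  exact ⟨ℓ, by linarith, h2⟩

end CLe

/-- The chain distance. -/
noncomputable def cdist (p q : K) : ℝ := sInf {L | CLe p q L}

lemma cdist_le {p q : K} {L : ℝ} (h : CLe p q L) : cdist p q ≤ L :=
  csInf_le ⟨dist p q, fun _ hL => CLe.dist_le hL⟩ h

lemma cle_cdist {p q : K} (h : ∃ L, CLe p q L) : CLe p q (cdist p q) := by
  apply CLe.of_approx'
  intro η hη
  refine ⟨p, q, by simpa using hη.le, by simpa using hη.le, ?_⟩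
  obtain ⟨L, hL, hlt⟩ := exists_lt_of_csInf_lt (s := {L | CLe p q L}) h
    (show cdist p q < cdist p q + η by linarith)
  exact CLe.mono hL hlt.le

/-- The space `K` with the chain metric. -/
def Intr (K : Type*) [MetricSpace K] (_ : ∀ p q : K, ∃ L, CLe p q L) : Type _ := K

namespace Intr

variable {hB : ∀ p q : K, ∃ L, CLe p q L}

/-- the underlying point -/
def pt (x : Intr K hB) : K := x

/-- the point in the new space -/
def mk (hB : ∀ p q : K, ∃ L, CLe p q L) (x : K) : Intr K hB := x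

noncomputable instance : MetricSpace (Intr K hB) where
  dist x y := cdist x.pt y.pt
  dist_self x := le_antisymm (cdist_le (CLe.refl _))
    (le_trans dist_nonneg (cle_cdist (hB _ _)).dist_le)
  dist_comm x y := le_antisymm (cdist_le (cle_cdist (hB _ _)).symm)
    (cdist_le (cle_cdist (hB _ _)).symm)
  dist_triangle x y z := cdist_le ((cle_cdist (hB _ _)).trans (cle_cdist (hB _ _)))
  eq_of_dist_eq_zero {x y} h := by
    have h1 : dist x.pt y.pt ≤ 0 := h ▸ (cle_cdist (hB x.pt y.pt)).dist_le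
    have h2 : x.pt = y.pt := dist_le_zero.1 h1
    exact h2

lemma dist_le_iff {x y : Intr K hB} {L : ℝ} : dist x y ≤ L ↔ CLe x.pt y.pt L :=
  ⟨fun h => (cle_cdist (hB _ _)).mono h, cdist_le⟩

lemma dist_pt_le (x y : Intr K hB) : dist x.pt y.pt ≤ dist x y :=
  (cle_cdist (hB x.pt y.pt)).dist_le

lemma lipschitz_pt : LipschitzWith 1 (pt : Intr K hB → K) :=
  LipschitzWith.of_dist_le_mul fun x y => by simpa using dist_pt_le x y

lemma completeSpace [CompleteSpace K] : CompleteSpace (Intr K hB) := by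
  apply Metric.complete_of_cauchySeq_tendsto
  intro u hu
  have hu' : CauchySeq (fun n => (u n).pt) := lipschitz_pt.uniformContinuous.comp_cauchySeq hu
  obtain ⟨a, ha⟩ := cauchySeq_tendsto_of_complete hu'
  refine ⟨mk hB a, ?_⟩
  rw [Metric.tendsto_atTop]
  intro ε hε
  obtain ⟨N, hN⟩ := Metric.cauchySeq_iff.1 hu (ε / 2) (by linarith)
  refine ⟨N, fun n hn => lt_of_le_of_lt (b := ε / 2) ?_ (by linarith)⟩
  rw [dist_le_iff]
  apply CLe.of_approx'
  intro η hη
  obtain ⟨N', hN'⟩ := Metric.tendsto_atTop.1 ha η hη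
  refine ⟨(u n).pt, (u (max N N')).pt, by simpa using hη.le, ?_, ?_⟩
  · rw [dist_comm]
    exact (hN' _ (le_max_right _ _)).le
  · rw [← dist_le_iff]
    linarith [hN n hn (max N N') (le_max_left _ _)]

lemma compactSpace [CompleteSpace K]
    (hT : ∀ η > 0, ∃ t : Set K, t.Finite ∧ ∀ p, ∃ c ∈ t, CLe p c η) :
    CompactSpace (Intr K hB) := by
  have := completeSpace (hB := hB)
  refine ⟨isCompact_iff_totallyBounded_isComplete.2 ⟨?_, isComplete_univ⟩⟩
  rw [Metric.totallyBounded_iff]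
  intro ε hε
  obtain ⟨t, ht, h⟩ := hT (ε / 2) (by linarith)
  refine ⟨mk hB '' t, ht.image _, fun x _ => ?_⟩
  obtain ⟨c, hc, h'⟩ := h x.pt
  simp only [mem_iUnion, Metric.mem_ball]
  refine ⟨mk hB c, mem_image_of_mem _ hc, lt_of_le_of_lt (b := ε / 2) ?_ (by linarith)⟩
  exact dist_le_iff.2 h'

lemma exists_geodesic [CompactSpace K] (x y : Intr K hB) :
    ∃ γ : ℝ → Intr K hB, γ 0 = x ∧ γ 1 = y ∧
      ∀ s t, s ≤ t → dist (γ s) (γ t) ≤ dist x y * (t - s) := by
  set L := dist x y with hL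
  have hL0 : 0 ≤ L := dist_nonneg
  have h1 : ∀ n : ℕ, ∃ γ : ℝ → K, γ 0 = x.pt ∧ γ (L + 1 / (n + 1)) = y.pt ∧
      ∀ s t : ℝ, s ≤ t →
        ∃ ℓ' ≤ t - s + 1 / ((n : ℝ) + 1), Chain (1 / (n + 1)) (γ s) (γ t) ℓ' := by
    intro n
    obtain ⟨ℓ, h1, h2⟩ := (dist_le_iff.1 hL.ge) (1 / (n + 1)) (by positivity)
    obtain ⟨γ, h3, h4, h5⟩ := h2.param (by positivity)
    exact ⟨γ, h3, h4 _ h1, h5⟩
  choose g g0 g1 g2 using h1
  have hlim : ∀ t : ℝ, ∃ a : K, Tendsto (fun n : ℕ => g n (t * (L + 1 / (n + 1))))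
      (hyperfilter ℕ) (𝓝 a) := by
    intro t
    obtain ⟨a, -, ha⟩ := isCompact_univ.ultrafilter_le_nhds
      ((hyperfilter ℕ).map fun n : ℕ => g n (t * (L + 1 / (n + 1)))) (by simp)
    exact ⟨a, ha⟩
  choose γ hγ using hlim
  refine ⟨fun t => mk hB (γ t), ?_, ?_, ?_⟩
  · have := hγ 0
    simp only [zero_mul, g0] at this
    exact (tendsto_nhds_unique tendsto_const_nhds this).symm
  · have := hγ 1
    simp only [one_mul, g1] at this
    exact (tendsto_nhds_unique tendsto_const_nhds this).symm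
  · intro s t hst
    rw [dist_le_iff]
    apply CLe.of_approx
    intro η hη
    have e1 := Metric.tendsto_nhds.1 (hγ s) η hη
    have e2 := Metric.tendsto_nhds.1 (hγ t) η hη
    have e3 : ∀ᶠ n : ℕ in hyperfilter ℕ, (t - s + 1) * (1 / ((n : ℝ) + 1)) < η := by
      apply Nat.hyperfilter_le_atTop
      have := tendsto_one_div_add_atTop_nhds_zero_nat (𝕜 := ℝ) |>.const_mul (t - s + 1)
      rw [mul_zero] at this
      exact this.eventually (gt_mem_nhds hη)
    obtain ⟨n, ⟨f1, f2⟩, f3⟩ := ((e1.and e2).and e3).exists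
    have hpos : (0 : ℝ) < 1 / (n + 1) := by positivity
    obtain ⟨ℓ, h1, h2⟩ := g2 n (s * (L + 1 / (n + 1))) (t * (L + 1 / (n + 1)))
      (mul_le_mul_of_nonneg_right hst (by positivity))
    refine ⟨_, _, by rw [dist_comm]; exact f1.le, by rw [dist_comm]; exact f2.le, ℓ, ?_,
      h2.mono ?_⟩
    · nlinarith
    · nlinarith

lemma isLengthSpace [CompactSpace K] : IsLengthSpace (Intr K hB) := by
  intro x y
  refine le_antisymm (le_iInf fun γ => edist_le_curveLength γ) ?_
  obtain ⟨γ, h0, h1, h2⟩ := exists_geodesic x y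
  have hlip : LipschitzWith (nndist x y) γ := by
    apply LipschitzWith.of_dist_le_mul
    intro s t
    rcases le_total s t with h | h
    · rw [Real.dist_eq, abs_of_nonpos (by linarith)]
      simpa using h2 s t h
    · rw [Real.dist_eq, abs_of_nonneg (by linarith), dist_comm]
      simpa using h2 t s h
  let P : Path x y :=
    { toFun := fun s => γ s
      continuous_toFun := hlip.continuous.comp continuous_subtype_val
      source' := by simpa using h0
      target' := by simpa using h1 }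
  refine iInf_le_of_le P ?_
  have e1 : curveLength P ≤ (nndist x y : ℝ≥0∞) *
      eVariationOn (Subtype.val : unitInterval → ℝ) univ :=
    LipschitzOnWith.comp_eVariationOn_le (hlip.lipschitzOnWith (s := univ)) (mapsTo_univ _ _)
  have e2 : eVariationOn (Subtype.val : unitInterval → ℝ) univ ≤ 1 := by
    have := MonotoneOn.eVariationOn_eq (f := (Subtype.val : unitInterval → ℝ)) (s := univ)
      (fun a _ b _ h => h) (a := 0) (b := 1) (mem_univ _) (mem_univ _)
    have h3 : (univ ∩ Icc (0 : unitInterval) 1) = univ := by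
      ext a; simp [unitInterval.le_one']
    rw [h3] at this
    simpa using this.le
  calc curveLength P ≤ (nndist x y : ℝ≥0∞) * 1 := e1.trans (by gcongr)
    _ = edist x y := by rw [mul_one, edist_nndist]

end Intr

end Pool.Agent.MP_616ade_gt

end

section

open scoped ENNReal Topology
open Set Filter

namespace Pool.Agent.MP_616ade_gt

lemma cle_of_segment {E : Type*} [NormedAddCommGroup E] [NormedSpace ℝ E] {S : Set E} (p q : S)
    (h : segment ℝ (p : E) q ⊆ S) : CLe p q (dist p q) := by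
  let f : ℝ → S := fun s => ⟨AffineMap.lineMap (p : E) (q : E) (projIcc (0 : ℝ) 1 zero_le_one s : ℝ),
    h (by rw [segment_eq_image_lineMap]; exact mem_image_of_mem _ (projIcc _ _ _ s).2)⟩
  have h0 : f 0 = p := by ext; simp [f]
  have h1 : f 1 = q := by ext; simp [f]
  have := CLe.of_lipschitz f (dist p q) dist_nonneg (by
    intro s hs t ht
    simp only [f, Subtype.dist_eq, projIcc_of_mem _ hs, projIcc_of_mem _ ht]
    rw [dist_lineMap_lineMap, Real.dist_eq, mul_comm])
  rwa [h0, h1] at this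

/-- subdivision ratios -/
def ra (n : ℕ) : ℕ := 2 ^ (n + 3)

/-- number of intervals of generation `n` -/
def NN : ℕ → ℕ
  | 0 => 1
  | n + 1 => ra n * NN n

lemma ra_ge (n : ℕ) : 8 ≤ ra n := by
  unfold ra
  rw [pow_add]
  have := Nat.one_le_two_pow (n := n)
  omega

lemma NN_pos (n : ℕ) : 0 < NN n := by
  induction n with
  | zero => simp [NN]
  | succ n ih => have := ra_ge n; simp only [NN]; positivity

lemma NN_posR (n : ℕ) : (0 : ℝ) < NN n := by exact_mod_cast NN_pos n

lemma NN_succR (n : ℕ) : (NN (n + 1) : ℝ) = ra n * NN n := by simp [NN]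

lemma ra_geR (n : ℕ) : (8 : ℝ) ≤ ra n := by exact_mod_cast ra_ge n

lemma NN_ge (n : ℕ) : n + 1 ≤ NN n := by
  induction n with
  | zero => simp [NN]
  | succ n ih => have := ra_ge n; simp only [NN]; nlinarith

lemma exists_NN (η : ℝ) (hη : 0 < η) : ∃ m0 : ℕ, ∀ m ≥ m0, 1 / (NN m : ℝ) ≤ η := by
  obtain ⟨n, hn⟩ := exists_nat_gt (1 / η)
  refine ⟨n, fun m hm => ?_⟩
  have h1 : ((m : ℝ) + 1) ≤ NN m := by exact_mod_cast NN_ge m
  have h2 : (n : ℝ) ≤ m := by exact_mod_cast hm
  rw [div_le_iff₀ (NN_posR m)]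
  rw [div_lt_iff₀ hη] at hn
  nlinarith

/-- the holes of generation `n` -/
def Hole (n : ℕ) : Set ℝ :=
  {x | ∃ i : ℤ, (ra n : ℝ) * i + 1 < NN (n + 1) * x ∧ NN (n + 1) * x < ra n * i + 2}

lemma isOpen_Hole (n : ℕ) : IsOpen (Hole n) := by
  have : Hole n = ⋃ i : ℤ, {x : ℝ | (ra n : ℝ) * i + 1 < NN (n + 1) * x} ∩
      {x : ℝ | NN (n + 1) * x < ra n * i + 2} := by
    ext x; simp [Hole]
  rw [this]
  refine isOpen_iUnion fun i => IsOpen.inter ?_ ?_
  · exact isOpen_lt (by fun_prop) (by fun_prop)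
  · exact isOpen_lt (by fun_prop) (by fun_prop)

/-- grid points of generation `m` -/
def IsGrid (m : ℕ) (x : ℝ) : Prop := ∃ k : ℤ, NN m * x = k

lemma IsGrid.mono {m m' : ℕ} {x : ℝ} (h : IsGrid m x) (hm : m ≤ m') : IsGrid m' x := by
  induction hm with
  | refl => exact h
  | @step m' _ ih =>
    obtain ⟨k, hk⟩ := ih
    refine ⟨ra m' * k, ?_⟩
    rw [NN_succR]
    push_cast
    rw [← hk]; ring

lemma IsGrid.not_hole {m n : ℕ} {x : ℝ} (h : IsGrid m x) (hm : m ≤ n + 1) : x ∉ Hole n := by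
  obtain ⟨k, hk⟩ := h.mono hm
  rintro ⟨i, h1, h2⟩
  rw [hk] at h1 h2
  have h1' : (ra n : ℤ) * i + 1 < k := by exact_mod_cast h1
  have h2' : k < (ra n : ℤ) * i + 2 := by exact_mod_cast h2
  omega

/-- rounding down to the grid -/
noncomputable def fl (m : ℕ) (x : ℝ) : ℝ := ⌊NN m * x⌋ / NN m

lemma fl_grid (m : ℕ) (x : ℝ) : IsGrid m (fl m x) :=
  ⟨⌊NN m * x⌋, by unfold fl; field_simp [(NN_posR m).ne']⟩

lemma fl_le (m : ℕ) (x : ℝ) : fl m x ≤ x := by
  unfold fl
  rw [div_le_iff₀ (NN_posR m), mul_comm x]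
  exact Int.floor_le _

lemma sub_fl_le (m : ℕ) (x : ℝ) : x - fl m x ≤ 1 / NN m := by
  unfold fl
  have := Int.lt_floor_add_one ((NN m : ℝ) * x)
  rw [sub_le_iff_le_add, ← add_div, le_div_iff₀ (NN_posR m)]
  linarith

lemma le_fl {m : ℕ} {g x : ℝ} (hg : IsGrid m g) (h : g ≤ x) : g ≤ fl m x := by
  obtain ⟨k, hk⟩ := hg
  unfold fl
  rw [le_div_iff₀ (NN_posR m), mul_comm g, hk]
  have : k ≤ ⌊NN m * x⌋ := by
    rw [Int.le_floor, ← hk]
    exact mul_le_mul_of_nonneg_left h (NN_posR m).le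
  exact_mod_cast this

lemma fl_nonneg (m : ℕ) {x : ℝ} (h : 0 ≤ x) : 0 ≤ fl m x := le_fl ⟨0, by simp⟩ h

lemma fl_le_succ (m : ℕ) (x : ℝ) : fl m x ≤ fl (m + 1) x :=
  le_fl ((fl_grid m x).mono (Nat.le_succ m)) (fl_le m x)

lemma not_hole_of_between {m n : ℕ} {x t : ℝ} (hx : x ∉ Hole n) (hn : n < m)
    (h1 : fl m x ≤ t) (h2 : t ≤ x) : t ∉ Hole n := by
  rintro ⟨i, h3, h4⟩
  have hN := NN_posR (n + 1)
  have h5 : (ra n : ℝ) * i + 2 ≤ NN (n + 1) * x := by
    by_contra h
    push Not at h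
    exact hx ⟨i, by nlinarith, h⟩
  have hg : IsGrid (n + 1) (((ra n : ℝ) * i + 2) / NN (n + 1)) :=
    ⟨ra n * i + 2, by push_cast; field_simp⟩
  have h6 := le_fl (hg.mono hn) (x := x) (by rw [div_le_iff₀ hN]; linarith)
  rw [div_le_iff₀ hN] at h6
  nlinarith

/-- the plane with the sum norm -/
abbrev Pl := WithLp 1 (ℝ × ℝ)

/-- membership in the carpet -/
def InC (x y : ℝ) : Prop :=
  x ∈ Icc (0 : ℝ) 1 ∧ y ∈ Icc (0 : ℝ) 1 ∧ ∀ n, x ∉ Hole n ∨ y ∉ Hole n

/-- the carpet -/
def Carpet : Set Pl := {p | InC p.fst p.snd}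

/-- a point of the carpet -/
def cpt (x y : ℝ) (h : InC x y) : Carpet := ⟨WithLp.toLp 1 (x, y), h⟩

lemma dist_cpt {x y x' y' : ℝ} (h : InC x y) (h' : InC x' y') :
    dist (cpt x y h) (cpt x' y' h') = |x - x'| + |y - y'| := by
  simp [cpt, Subtype.dist_eq, WithLp.prod_dist_eq_of_L1, Real.dist_eq]

lemma cle_h {x x' y : ℝ} (h : InC x y) (h' : InC x' y) (hs : ∀ t ∈ uIcc x x', InC t y) :
    CLe (cpt x y h) (cpt x' y h') |x - x'| := by
  have := cle_of_segment (cpt x y h) (cpt x' y h') (by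
    rintro _ ⟨a, b, ha, hb, hab, rfl⟩
    have e : a * y + b * y = y := by rw [← add_mul, hab, one_mul]
    simp only [Carpet, cpt, mem_ofPred_eq, WithLp.add_fst, WithLp.smul_fst, WithLp.toLp_fst,
      WithLp.add_snd, WithLp.smul_snd, WithLp.toLp_snd, smul_eq_mul, e]
    apply hs
    rw [← segment_eq_uIcc]
    exact ⟨a, b, ha, hb, hab, rfl⟩)
  rw [dist_cpt] at this
  simpa using this

lemma cle_v {x y y' : ℝ} (h : InC x y) (h' : InC x y') (hs : ∀ t ∈ uIcc y y', InC x t) :
    CLe (cpt x y h) (cpt x y' h') |y - y'| := by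
  have := cle_of_segment (cpt x y h) (cpt x y' h') (by
    rintro _ ⟨a, b, ha, hb, hab, rfl⟩
    have e : a * x + b * x = x := by rw [← add_mul, hab, one_mul]
    simp only [Carpet, cpt, mem_ofPred_eq, WithLp.add_fst, WithLp.smul_fst, WithLp.toLp_fst,
      WithLp.add_snd, WithLp.smul_snd, WithLp.toLp_snd, smul_eq_mul, e]
    apply hs
    rw [← segment_eq_uIcc]
    exact ⟨a, b, ha, hb, hab, rfl⟩)
  rw [dist_cpt] at this
  simpa using this

lemma InC.of_rect {x y : ℝ} (h : InC x y) {m : ℕ} {s t : ℝ} (hs1 : fl m x ≤ s) (hs2 : s ≤ x)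
    (ht1 : fl m y ≤ t) (ht2 : t ≤ y) (hg : IsGrid (m + 1) s ∨ IsGrid (m + 1) t) : InC s t := by
  refine ⟨⟨(fl_nonneg m h.1.1).trans hs1, hs2.trans h.1.2⟩,
    ⟨(fl_nonneg m h.2.1.1).trans ht1, ht2.trans h.2.1.2⟩, fun n => ?_⟩
  rcases lt_or_ge n m with hn | hn
  · rcases h.2.2 n with h' | h'
    · exact Or.inl (not_hole_of_between h' hn hs1 hs2)
    · exact Or.inr (not_hole_of_between h' hn ht1 ht2)
  · rcases hg with hg | hg
    · exact Or.inl (hg.not_hole (by omega))
    · exact Or.inr (hg.not_hole (by omega))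

lemma InC.fl {x y : ℝ} (h : InC x y) (m : ℕ) : InC (fl m x) (fl m y) :=
  h.of_rect le_rfl (fl_le m x) le_rfl (fl_le m y) (Or.inl ((fl_grid m x).mono (Nat.le_succ m)))

lemma cle_step {x y : ℝ} (h : InC x y) (m : ℕ) :
    CLe (cpt _ _ (h.fl m)) (cpt _ _ (h.fl (m + 1))) (2 / NN m) := by
  have hmid : InC (fl (m + 1) x) (fl m y) :=
    h.of_rect (fl_le_succ m x) (fl_le _ x) le_rfl (fl_le m y) (Or.inl (fl_grid _ x))
  have h1 := cle_h (h.fl m) hmid (by
    intro t ht
    rw [uIcc_of_le (fl_le_succ m x)] at ht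
    exact h.of_rect ht.1 (ht.2.trans (fl_le _ x)) le_rfl (fl_le m y)
      (Or.inr ((fl_grid m y).mono (Nat.le_succ m))))
  have h2 := cle_v hmid (h.fl (m + 1)) (by
    intro t ht
    rw [uIcc_of_le (fl_le_succ m y)] at ht
    exact h.of_rect (fl_le_succ m x) (fl_le _ x) ht.1 (ht.2.trans (fl_le _ y))
      (Or.inl (fl_grid _ x)))
  refine (h1.trans h2).mono ?_
  rw [abs_of_nonpos (sub_nonpos.2 (fl_le_succ m x)), abs_of_nonpos (sub_nonpos.2 (fl_le_succ m y))]
  have := sub_fl_le m x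
  have := sub_fl_le m y
  have := fl_le (m + 1) x
  have := fl_le (m + 1) y
  have e : (2 : ℝ) / NN m = 1 / NN m + 1 / NN m := by ring
  linarith

lemma cle_steps {x y : ℝ} (h : InC x y) (m k : ℕ) :
    CLe (cpt _ _ (h.fl m)) (cpt _ _ (h.fl (m + k))) (4 / NN m - 4 / NN (m + k)) := by
  induction k with
  | zero => simpa using CLe.refl _
  | succ k ih =>
    refine (ih.trans (cle_step h (m + k))).mono ?_
    have h1 := NN_posR (m + k)
    have h2 := ra_geR (m + k)
    have : (4 : ℝ) / NN (m + (k + 1)) ≤ 2 / NN (m + k) := by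
      rw [← add_assoc, NN_succR, div_le_div_iff₀ (by positivity) h1]
      nlinarith
    have e : (4 : ℝ) / NN (m + k) = 2 / NN (m + k) + 2 / NN (m + k) := by ring
    linarith

lemma cle_corner {x y : ℝ} (h : InC x y) (m : ℕ) :
    CLe (cpt _ _ (h.fl m)) (cpt x y h) (4 / NN m) := by
  apply CLe.of_approx'
  intro η hη
  obtain ⟨k, hk⟩ := exists_NN (η / 2) (by linarith)
  refine ⟨cpt _ _ (h.fl m), cpt _ _ (h.fl (m + k)), by simpa using hη.le, ?_,
    (cle_steps h m k).mono ?_⟩
  · rw [dist_cpt, abs_of_nonneg (sub_nonneg.2 (fl_le _ x)),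
      abs_of_nonneg (sub_nonneg.2 (fl_le _ y))]
    have := sub_fl_le (m + k) x
    have := sub_fl_le (m + k) y
    have := hk (m + k) (by omega)
    linarith
  · have : (0 : ℝ) ≤ 4 / NN (m + k) := by positivity
    linarith

/-- the fat Cantor set -/
def IsC (x : ℝ) : Prop := x ∈ Icc (0 : ℝ) 1 ∧ ∀ n, x ∉ Hole n

lemma IsC.inC_left {x y : ℝ} (hx : IsC x) (hy : y ∈ Icc (0 : ℝ) 1) : InC x y :=
  ⟨hx.1, hy, fun n => Or.inl (hx.2 n)⟩

lemma IsC.inC_right {x y : ℝ} (hy : IsC y) (hx : x ∈ Icc (0 : ℝ) 1) : InC x y :=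
  ⟨hx, hy.1, fun n => Or.inr (hy.2 n)⟩

lemma cle_CC {x y x' y' : ℝ} (h : InC x y) (h' : InC x' y') (hy : IsC y) (hx' : IsC x') :
    CLe (cpt x y h) (cpt x' y' h') (|x - x'| + |y - y'|) := by
  have hmid : InC x' y := hx'.inC_left hy.1
  have h1 := cle_h h hmid fun t ht =>
    hy.inC_right ((ordConnected_Icc.uIcc_subset h.1 hx'.1) ht)
  have h2 := cle_v hmid h' fun t ht =>
    hx'.inC_left ((ordConnected_Icc.uIcc_subset hy.1 h'.2.1) ht)
  exact h1.trans h2

lemma isC_fl_zero {x : ℝ} (hx : x ∈ Icc (0 : ℝ) 1) : IsC (fl 0 x) :=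
  ⟨⟨fl_nonneg 0 hx.1, (fl_le 0 x).trans hx.2⟩, fun n => (fl_grid 0 x).not_hole (by omega)⟩

lemma carpet_hB (p q : Carpet) : ∃ L, CLe p q L := by
  obtain ⟨⟨x, y⟩, h⟩ := p
  obtain ⟨⟨x', y'⟩, h'⟩ := q
  have h : InC x y := h
  have h' : InC x' y' := h'
  exact ⟨_, ((cle_corner h 0).symm.trans (cle_CC (h.fl 0) (h'.fl 0) (isC_fl_zero h.2.1)
    (isC_fl_zero h'.1))).trans (cle_corner h' 0)⟩

lemma finite_grid (m : ℕ) : {x : ℝ | x ∈ Icc (0 : ℝ) 1 ∧ IsGrid m x}.Finite := by
  refine ((finite_Icc (0 : ℤ) (NN m)).image fun k : ℤ => (k : ℝ) / NN m).subset ?_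
  rintro x ⟨hx, k, hk⟩
  have hN := NN_posR m
  refine ⟨k, ⟨?_, ?_⟩, ?_⟩
  · have : (0 : ℝ) ≤ k := by rw [← hk]; exact mul_nonneg hN.le hx.1
    exact_mod_cast this
  · have : (k : ℝ) ≤ NN m := by rw [← hk]; nlinarith [hx.2]
    exact_mod_cast this
  · simp only [← hk]; field_simp

lemma carpet_hT (η : ℝ) (hη : 0 < η) :
    ∃ t : Set Carpet, t.Finite ∧ ∀ p, ∃ c ∈ t, CLe p c η := by
  obtain ⟨m, hm⟩ := exists_NN (η / 4) (by linarith)
  refine ⟨{p | IsGrid m p.1.fst ∧ IsGrid m p.1.snd}, ?_, ?_⟩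
  · refine Finite.of_finite_image (f := fun p : Carpet => (p.1.fst, p.1.snd))
      (((finite_grid m).prod (finite_grid m)).subset ?_) ?_
    · rintro _ ⟨p, hp, rfl⟩
      exact ⟨⟨p.2.1, hp.1⟩, ⟨p.2.2.1, hp.2⟩⟩
    · rintro ⟨⟨x, y⟩, h⟩ _ ⟨⟨x', y'⟩, h'⟩ _ hpq
      simp only [Prod.mk.injEq] at hpq
      obtain ⟨h1, h2⟩ := hpq
      have h1 : x = x' := h1
      have h2 : y = y' := h2
      subst h1 h2
      rfl
  · rintro ⟨⟨x, y⟩, h⟩
    have h : InC x y := h
    refine ⟨cpt _ _ (h.fl m), ⟨fl_grid m x, fl_grid m y⟩, (cle_corner h m).symm.mono ?_⟩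
    have := hm m le_rfl
    have e : (4 : ℝ) / NN m = 4 * (1 / NN m) := by ring
    linarith

lemma isCompact_carpet : IsCompact Carpet := by
  have h1 : IsCompact ((WithLp.toLp 1 : ℝ × ℝ → Pl) '' (Icc (0 : ℝ) 1 ×ˢ Icc (0 : ℝ) 1)) :=
    (isCompact_Icc.prod isCompact_Icc).image (WithLp.prod_continuous_toLp 1 ℝ ℝ)
  refine h1.of_isClosed_subset ?_ ?_
  · have : Carpet = (WithLp.fst ⁻¹' Icc (0 : ℝ) 1) ∩ ((WithLp.snd ⁻¹' Icc (0 : ℝ) 1) ∩
        ⋂ n, ((WithLp.fst ⁻¹' (Hole n)ᶜ) ∪ (WithLp.snd ⁻¹' (Hole n)ᶜ))) := by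
      ext p; simp [Carpet, InC]
    rw [this]
    have hf := WithLp.continuous_fst 1 ℝ ℝ
    have hs := WithLp.continuous_snd 1 ℝ ℝ
    exact (isClosed_Icc.preimage hf).inter ((isClosed_Icc.preimage hs).inter
      (isClosed_iInter fun n => ((isOpen_Hole n).isClosed_compl.preimage hf).union
        ((isOpen_Hole n).isClosed_compl.preimage hs)))
  · rintro ⟨x, y⟩ h
    exact ⟨(x, y), ⟨h.1, h.2.1⟩, rfl⟩

instance : CompactSpace Carpet := isCompact_iff_compactSpace.1 isCompact_carpet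

end Pool.Agent.MP_616ade_gt

end

section

open scoped ENNReal Topology
open Set Filter

namespace Pool.Agent.MP_616ade_gt

lemma CoveringDimLE.of_homeomorph {X Y : Type*} [TopologicalSpace X] [TopologicalSpace Y]
    (e : X ≃ₜ Y) {n : ℕ} (h : CoveringDimLE Y n) : CoveringDimLE X n := by
  intro 𝒰 hfin hopen hcov
  obtain ⟨𝒱, h1, h2, h3, h4, h5⟩ := h ((fun U => e.symm ⁻¹' U) '' 𝒰) (hfin.image _)
    (by rintro _ ⟨U, hU, rfl⟩; exact (hopen U hU).preimage e.symm.continuous)
    (by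
      rw [eq_univ_iff_forall]
      intro y
      have : e.symm y ∈ ⋃₀ 𝒰 := hcov ▸ mem_univ _
      obtain ⟨U, hU, hy⟩ := this
      exact ⟨_, mem_image_of_mem _ hU, hy⟩)
  refine ⟨(fun V => e ⁻¹' V) '' 𝒱, h1.image _, ?_, ?_, ?_, ?_⟩
  · rintro _ ⟨V, hV, rfl⟩
    exact (h2 V hV).preimage e.continuous
  · rw [eq_univ_iff_forall]
    intro x
    have : e x ∈ ⋃₀ 𝒱 := h3 ▸ mem_univ _
    obtain ⟨V, hV, hx⟩ := this
    exact ⟨_, mem_image_of_mem _ hV, hx⟩
  · rintro _ ⟨V, hV, rfl⟩
    obtain ⟨_, ⟨U, hU, rfl⟩, hVU⟩ := h4 V hV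
    refine ⟨U, hU, fun x hx => ?_⟩
    simpa using hVU hx
  · intro x
    have : {V | V ∈ (fun V => e ⁻¹' V) '' 𝒱 ∧ x ∈ V} =
        (fun V => e ⁻¹' V) '' {V | V ∈ 𝒱 ∧ e x ∈ V} := by
      ext W
      constructor
      · rintro ⟨⟨V, hV, rfl⟩, hx⟩
        exact ⟨V, ⟨hV, hx⟩, rfl⟩
      · rintro ⟨V, ⟨hV, hx⟩, rfl⟩
        exact ⟨⟨V, hV, rfl⟩, hx⟩
    rw [this]
    exact (ncard_image_le (h1.subset fun V hV => hV.1)).trans (h5 (e x))

lemma not_coveringDimLE_zero {X : Type*} [TopologicalSpace X] [T1Space X] [PreconnectedSpace X]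
    {p q : X} (hpq : p ≠ q) : ¬ CoveringDimLE X 0 := by
  intro h
  obtain ⟨𝒱, h1, h2, h3, h4, h5⟩ := h {{p}ᶜ, {q}ᶜ} (toFinite _)
    (by rintro U (rfl | rfl) <;> exact isOpen_compl_singleton)
    (by
      rw [eq_univ_iff_forall]
      intro x
      by_cases hx : x = p
      · exact ⟨{q}ᶜ, by simp, by simpa [hx] using hpq⟩
      · exact ⟨{p}ᶜ, by simp, hx⟩)
  have : p ∈ ⋃₀ 𝒱 := h3 ▸ mem_univ _
  obtain ⟨V, hV, hp⟩ := this
  have hclosed : IsClosed V := by
    rw [← isOpen_compl_iff, isOpen_iff_forall_mem_open]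
    intro x hx
    have : x ∈ ⋃₀ 𝒱 := h3 ▸ mem_univ _
    obtain ⟨W, hW, hxW⟩ := this
    refine ⟨W, fun z hzW hzV => ?_, h2 W hW, hxW⟩
    have := (ncard_le_one (h1.subset fun V hV => hV.1)).1 (h5 z) V ⟨hV, hzV⟩ W ⟨hW, hzW⟩
    exact hx (this ▸ hxW)
  have huniv : V = univ := IsClopen.eq_univ ⟨hclosed, h2 V hV⟩ ⟨p, hp⟩
  obtain ⟨U, hU, hVU⟩ := h4 V hV
  rw [huniv] at hVU
  rcases hU with rfl | rfl
  · exact hVU (mem_univ p) rfl
  · exact hVU (mem_univ q) rfl

/-- covering intervals of generation `n` -/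
def JJ (n : ℕ) (i : ℤ) : Set ℝ :=
  {x | (ra n : ℝ) * i + 1 < NN (n + 1) * x ∧ NN (n + 1) * x < ra n * (i + 1) + 2}

lemma isOpen_JJ (n : ℕ) (i : ℤ) : IsOpen (JJ n i) := by
  have h1 : IsOpen {x : ℝ | (ra n : ℝ) * i + 1 < NN (n + 1) * x} :=
    isOpen_lt (by fun_prop) (by fun_prop)
  have h2 : IsOpen {x : ℝ | NN (n + 1) * x < (ra n : ℝ) * (i + 1) + 2} :=
    isOpen_lt (by fun_prop) (by fun_prop)
  exact h1.inter h2

lemma exists_JJ (n : ℕ) {x : ℝ} (hx : x ∈ Icc (0 : ℝ) 1) :
    ∃ i ∈ Icc (-1 : ℤ) (NN n), x ∈ JJ n i := by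
  have ha := ra_geR n
  have hN := NN_posR n
  have ha0 : (0 : ℝ) < ra n := by linarith
  set u : ℝ := (NN (n + 1) * x - 3 / 2) / ra n with hu
  have hu' : (ra n : ℝ) * u = NN (n + 1) * x - 3 / 2 := by rw [hu]; field_simp
  have h1 := Int.floor_le u
  have h2 := Int.lt_floor_add_one u
  have h3 : (0 : ℝ) ≤ NN (n + 1) * x := mul_nonneg (NN_posR _).le hx.1
  have h4 : (NN (n + 1) : ℝ) * x ≤ ra n * NN n := by
    rw [← NN_succR]; nlinarith [NN_posR (n + 1), hx.2]
  refine ⟨⌊u⌋, ⟨?_, ?_⟩, ?_, ?_⟩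
  · rw [Int.le_floor]
    push_cast
    nlinarith
  · have : (⌊u⌋ : ℝ) ≤ NN n := by nlinarith
    exact_mod_cast this
  · nlinarith
  · nlinarith

lemma JJ_two {n : ℕ} {x : ℝ} {i i' : ℤ} (h : x ∈ JJ n i) (h' : x ∈ JJ n i') (hlt : i < i') :
    i' = i + 1 ∧ x ∈ Hole n := by
  have ha := ra_geR n
  have h1 : (ra n : ℝ) * i' + 1 < ra n * (i + 1) + 2 := h'.1.trans h.2
  have h2 : i' = i + 1 := by
    by_contra hne
    have : i + 2 ≤ i' := by omega
    have : (i : ℝ) + 2 ≤ i' := by exact_mod_cast this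
    nlinarith
  refine ⟨h2, i', h'.1, ?_⟩
  rw [h2]; push_cast
  exact h.2

lemma JJ_unique {n : ℕ} {x : ℝ} {i i' : ℤ} (hx : x ∉ Hole n) (h : x ∈ JJ n i)
    (h' : x ∈ JJ n i') : i = i' := by
  rcases lt_trichotomy i i' with hlt | heq | hlt
  · exact absurd (JJ_two h h' hlt).2 hx
  · exact heq
  · exact absurd (JJ_two h' h hlt).2 hx

lemma JJ_pair (n : ℕ) (x : ℝ) : ∃ k : ℤ, ∀ i, x ∈ JJ n i → i = k ∨ i = k + 1 := by
  by_cases h : ∃ i i', x ∈ JJ n i ∧ x ∈ JJ n i' ∧ i < i'
  · obtain ⟨i, i', h1, h2, h3⟩ := h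
    have e := (JJ_two h1 h2 h3).1
    refine ⟨i, fun j hj => ?_⟩
    rcases lt_trichotomy j i with hlt | heq | hlt
    · have := (JJ_two hj h2 (by omega)).1
      omega
    · exact Or.inl heq
    · exact Or.inr (JJ_two h1 hj hlt).1
  · push Not at h
    by_cases h0 : ∃ i, x ∈ JJ n i
    · obtain ⟨i, hi⟩ := h0
      exact ⟨i, fun j hj => Or.inl (le_antisymm (h i j hi hj) (h j i hj hi))⟩
    · exact ⟨0, fun j hj => absurd ⟨j, hj⟩ h0⟩

lemma JJ_diam {n : ℕ} {x x' : ℝ} {i : ℤ} (h : x ∈ JJ n i) (h' : x' ∈ JJ n i) :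
    |x - x'| ≤ 2 * (1 / NN n) := by
  have ha := ra_geR n
  have hN := NN_posR n
  obtain ⟨h1, h2⟩ := h
  obtain ⟨h3, h4⟩ := h'
  rw [NN_succR] at h1 h2 h3 h4
  have key : ∀ s : ℝ, (ra n : ℝ) * NN n * s < ra n + 1 → s ≤ 2 * (1 / NN n) := by
    intro s hs
    rw [← mul_div_assoc, le_div_iff₀ hN]
    by_contra hc
    push Not at hc
    nlinarith
  rw [abs_le]
  constructor
  · have := key (x' - x) (by nlinarith)
    linarith
  · exact key (x - x') (by nlinarith)

theorem coveringDimLE_carpet : CoveringDimLE Carpet 1 := by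
  intro 𝒰 hfin hopen hcov
  obtain ⟨δ, hδ, hleb⟩ := lebesgue_number_lemma_of_metric_sUnion (s := (univ : Set Carpet))
    isCompact_univ hopen (hcov ▸ subset_rfl)
  obtain ⟨n, hn⟩ := exists_NN (δ / 5) (by linarith)
  have hn := hn n le_rfl
  let W : ℤ × ℤ → Set Carpet := fun ij => {p | p.1.fst ∈ JJ n ij.1 ∧ p.1.snd ∈ JJ n ij.2}
  let I : Set (ℤ × ℤ) := Icc (-1 : ℤ) (NN n) ×ˢ Icc (-1 : ℤ) (NN n)
  have hI : I.Finite := (finite_Icc _ _).prod (finite_Icc _ _)
  refine ⟨W '' {ij | ij ∈ I ∧ (W ij).Nonempty}, (hI.subset fun _ h => h.1).image _, ?_, ?_, ?_, ?_⟩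
  · rintro _ ⟨ij, -, rfl⟩
    exact ((isOpen_JJ n ij.1).preimage
      ((WithLp.continuous_fst 1 ℝ ℝ).comp continuous_subtype_val)).inter
      ((isOpen_JJ n ij.2).preimage ((WithLp.continuous_snd 1 ℝ ℝ).comp continuous_subtype_val))
  · rw [eq_univ_iff_forall]
    intro p
    obtain ⟨i, hi, hx⟩ := exists_JJ n p.2.1
    obtain ⟨j, hj, hy⟩ := exists_JJ n p.2.2.1
    exact ⟨W (i, j), ⟨(i, j), ⟨⟨hi, hj⟩, p, hx, hy⟩, rfl⟩, hx, hy⟩
  · rintro _ ⟨ij, ⟨-, p, hp⟩, rfl⟩
    obtain ⟨U, hU, hball⟩ := hleb p (mem_univ _)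
    refine ⟨U, hU, fun q hq => hball ?_⟩
    rw [Metric.mem_ball, Subtype.dist_eq, WithLp.prod_dist_eq_of_L1, Real.dist_eq, Real.dist_eq]
    have := JJ_diam hq.1 hp.1
    have := JJ_diam hq.2 hp.2
    linarith
  · intro p
    have hsub : ∃ a b : ℤ × ℤ, ∀ ij, p ∈ W ij → ij = a ∨ ij = b := by
      obtain ⟨i, -, hx⟩ := exists_JJ n p.2.1
      obtain ⟨j, -, hy⟩ := exists_JJ n p.2.2.1
      rcases p.2.2.2 n with h | h
      · obtain ⟨k, hk⟩ := JJ_pair n p.1.snd
        refine ⟨(i, k), (i, k + 1), ?_⟩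
        rintro ⟨i', j'⟩ hij
        have e := JJ_unique h hx hij.1
        rcases hk j' hij.2 with e' | e'
        · left; simp only at e; rw [e, e']
        · right; simp only at e; rw [e, e']
      · obtain ⟨k, hk⟩ := JJ_pair n p.1.fst
        refine ⟨(k, j), (k + 1, j), ?_⟩
        rintro ⟨i', j'⟩ hij
        have e := JJ_unique h hy hij.2
        rcases hk i' hij.1 with e' | e'
        · left; simp only at e; rw [e, e']
        · right; simp only at e; rw [e, e']
    obtain ⟨a, b, hab⟩ := hsub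
    have : {V | V ∈ W '' {ij | ij ∈ I ∧ (W ij).Nonempty} ∧ p ∈ V} ⊆ {W a, W b} := by
      rintro _ ⟨⟨ij, -, rfl⟩, hp⟩
      rcases hab ij hp with rfl | rfl
      · left; rfl
      · right; rfl
    refine (ncard_le_ncard this (toFinite _)).trans ?_
    exact (ncard_insert_le _ _).trans (by simp)

open Classical in
/-- good indices of generation `m` -/
noncomputable def Good (m : ℕ) : Finset ℤ :=
  (Finset.Ico (0 : ℤ) (NN m)).filter fun k =>
    ∀ n < m, ∀ t : ℝ, (k : ℝ) ≤ NN m * t → NN m * t ≤ k + 1 → t ∉ Hole n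

lemma card_good_succ (m : ℕ) : (ra m - 1) * (Good m).card ≤ (Good (m + 1)).card := by
  classical
  have ha := ra_ge m
  have haR := ra_geR m
  have hN := NN_posR m
  have hc : (((Finset.Ico (0 : ℤ) (ra m)).erase 1) ×ˢ Good m).card
      = (ra m - 1) * (Good m).card := by
    rw [Finset.card_product, Finset.card_erase_of_mem (by simp; omega), Int.card_Ico]
    simp
  rw [← hc]
  refine Finset.card_le_card_of_injOn (fun rk => ra m * rk.2 + rk.1) ?_ ?_
  · rintro ⟨r, k⟩ hrk
    simp only [Finset.coe_product, Finset.coe_erase, Finset.coe_Ico, mem_prod, Set.mem_sdiff, mem_Ico,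
      mem_singleton_iff, Finset.mem_coe, Good, Finset.mem_filter, Finset.mem_Ico] at hrk ⊢
    obtain ⟨⟨⟨hr0, hr1⟩, hr2⟩, ⟨hk0, hk1⟩, hk⟩ := hrk
    refine ⟨⟨by positivity, ?_⟩, ?_⟩
    · simp only [NN]
      push_cast
      have : (0 : ℤ) ≤ ra m := by positivity
      nlinarith
    · intro n hn t h1 h2
      rw [NN_succR] at h1 h2
      push_cast at h1 h2
      have hr0' : (0 : ℝ) ≤ r := by exact_mod_cast hr0
      have hr1' : (r : ℝ) + 1 ≤ ra m := by exact_mod_cast hr1
      rcases Nat.lt_succ_iff_lt_or_eq.1 hn with hn | rfl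
      · apply hk n hn t
        · by_contra hc
          push Not at hc
          nlinarith
        · by_contra hc
          push Not at hc
          nlinarith
      · rintro ⟨i, h3, h4⟩
        rw [NN_succR] at h3 h4
        have h5 : (ra n : ℤ) * i + 1 < ra n * k + r + 1 := by
          have : (ra n : ℝ) * i + 1 < ra n * k + r + 1 := by linarith
          exact_mod_cast this
        have h6 : (ra n : ℤ) * k + r < ra n * i + 2 := by
          have : (ra n : ℝ) * k + r < ra n * i + 2 := by linarith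
          exact_mod_cast this
        have h7 : (ra n : ℤ) * (i - k) = r - 1 := by
          have : (ra n : ℤ) * k + r = ra n * i + 1 := by omega
          linarith
        have ha' : (8 : ℤ) ≤ ra n := by exact_mod_cast ha
        rcases lt_trichotomy (i - k) 0 with h | h | h
        · nlinarith
        · rw [h] at h7; omega
        · nlinarith
  · rintro ⟨r, k⟩ hrk ⟨r', k'⟩ hrk' heq
    simp only [Finset.coe_product, Finset.coe_erase, Finset.coe_Ico, mem_prod, Set.mem_sdiff, mem_Ico,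
      mem_singleton_iff] at hrk hrk' heq
    have h7 : (ra m : ℤ) * (k - k') = r' - r := by linarith
    have hk : k = k' := by
      rcases lt_trichotomy (k - k') 0 with h | h | h
      · nlinarith [hrk.1.1.1, hrk.1.1.2, hrk'.1.1.1, hrk'.1.1.2]
      · omega
      · nlinarith [hrk.1.1.1, hrk.1.1.2, hrk'.1.1.1, hrk'.1.1.2]
    subst hk
    have : r = r' := by linarith
    rw [this]

lemma card_good (m : ℕ) : (NN m : ℝ) * (1 / 2 + 1 / 2 ^ (m + 1)) ≤ (Good m).card := by
  induction m with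
  | zero =>
    have : Good 0 = {0} := by
      ext k; simp [Good, NN]; omega
    rw [this]; simp [NN]; norm_num
  | succ m ih =>
    have h1 := card_good_succ m
    have ha := ra_ge m
    have h2 : ((ra m : ℝ) - 1) * (Good m).card ≤ (Good (m + 1)).card := by
      have : (((ra m - 1 : ℕ) : ℝ)) = (ra m : ℝ) - 1 := by
        rw [Nat.cast_sub (by omega)]; simp
      rw [← this]
      exact_mod_cast h1
    have hN := NN_posR m
    have haR := ra_geR m
    have e : (ra m : ℝ) = 8 * 2 ^ m := by unfold ra; push_cast; ring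
    have hp : (1 : ℝ) ≤ 2 ^ m := one_le_pow₀ (by norm_num)
    have h3 : (ra m : ℝ) * (1 / 2 + 1 / 2 ^ (m + 1 + 1)) ≤
        (ra m - 1) * (1 / 2 + 1 / 2 ^ (m + 1)) := by
      rw [e, pow_succ, pow_succ]
      have hp0 : (0 : ℝ) < 2 ^ m := by positivity
      set u : ℝ := 2 ^ m
      have : (8 * u - 1) * (1 / 2 + 1 / (u * 2)) - 8 * u * (1 / 2 + 1 / (u * 2 * 2))
          = (3 * u - 1) / (2 * u) := by field_simp; ring
      have h : 0 ≤ (3 * u - 1) / (2 * u) := div_nonneg (by linarith) (by linarith)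
      linarith
    rw [NN_succR]
    calc (ra m : ℝ) * NN m * (1 / 2 + 1 / 2 ^ (m + 1 + 1))
        = NN m * (ra m * (1 / 2 + 1 / 2 ^ (m + 1 + 1))) := by ring
      _ ≤ NN m * ((ra m - 1) * (1 / 2 + 1 / 2 ^ (m + 1))) := by gcongr
      _ = (ra m - 1) * (NN m * (1 / 2 + 1 / 2 ^ (m + 1))) := by ring
      _ ≤ (ra m - 1) * (Good m).card := by gcongr; linarith
      _ ≤ _ := h2

lemma good_isC {m : ℕ} {k : ℤ} (hk : k ∈ Good m) :
    IsC ((k : ℝ) / NN m) ∧ IsC (((k + 1 : ℤ) : ℝ) / NN m) ∧ 0 ≤ k ∧ k < NN m := by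
  classical
  simp only [Good, Finset.mem_filter, Finset.mem_Ico] at hk
  obtain ⟨⟨h0, h1⟩, h2⟩ := hk
  have hN := NN_posR m
  have h0' : (0 : ℝ) ≤ k := by exact_mod_cast h0
  have h1' : (k : ℝ) + 1 ≤ NN m := by exact_mod_cast h1
  have e : ∀ c : ℝ, (NN m : ℝ) * (c / NN m) = c := fun c => by field_simp
  refine ⟨⟨⟨by positivity, (div_le_one hN).2 (by linarith)⟩, fun n => ?_⟩,
    ⟨⟨by push_cast; positivity, (div_le_one hN).2 (by push_cast; linarith)⟩, fun n => ?_⟩, h0, h1⟩
  · rcases lt_or_ge n m with hn | hn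
    · exact h2 n hn _ (by rw [e]) (by rw [e]; linarith)
    · exact IsGrid.not_hole (m := m) ⟨k, e _⟩ (by omega)
  · rcases lt_or_ge n m with hn | hn
    · exact h2 n hn _ (by rw [e]; push_cast; linarith) (by rw [e]; push_cast; linarith)
    · exact IsGrid.not_hole (m := m) ⟨k + 1, e _⟩ (by omega)

end Pool.Agent.MP_616ade_gt

end

section

open scoped ENNReal Topology
open Set

namespace Pool.Agent.MP_616ade_gt

variable {M : Type*} [MetricSpace M]

lemma induced_of_restricted {E : Type*} [NormedAddCommGroup E] [NormedSpace ℝ E] {H : Set E}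
    (hH : Convex ℝ H) {S : Set M} {ψ : E → M} (hm : MapsTo ψ H S)
    (hiso : ∀ a ∈ H, ∀ b ∈ H, edist (ψ a) (ψ b) = edist a b) :
    ∀ a ∈ H, ∀ b ∈ H, inducedLengthDist S (ψ a) (ψ b) = edist a b := by
  intro a ha b hb
  refine le_antisymm ?_ (hiso a ha b hb ▸ edist_le_inducedLengthDist S _ _)
  have hmem : ∀ t ∈ Icc (0 : ℝ) 1, AffineMap.lineMap a b t ∈ H := fun t ht =>
    hH.segment_subset ha hb (by rw [segment_eq_image_lineMap]; exact mem_image_of_mem _ ht)
  have hlip : LipschitzOnWith (nndist a b) (fun t : ℝ => ψ (AffineMap.lineMap a b t))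
      (Icc (0 : ℝ) 1) := by
    intro s hs t ht
    simp only
    rw [hiso _ (hmem s hs) _ (hmem t ht)]
    exact lipschitzWith_lineMap a b s t
  let P : Path (ψ a) (ψ b) :=
    { toFun := fun s => ψ (AffineMap.lineMap a b (s : ℝ))
      continuous_toFun := hlip.continuousOn.comp_continuous continuous_subtype_val
        (fun s => s.2)
      source' := by simp
      target' := by simp }
  refine iInf_le_of_le P (iInf_le_of_le ?_ ?_)
  · rintro _ ⟨s, rfl⟩
    exact hm (hmem _ s.2)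
  have e1 : curveLength P ≤ (nndist a b : ℝ≥0∞) *
      eVariationOn (Subtype.val : unitInterval → ℝ) univ :=
    LipschitzOnWith.comp_eVariationOn_le hlip (fun s _ => s.2)
  have e2 : eVariationOn (Subtype.val : unitInterval → ℝ) univ ≤ 1 := by
    have := MonotoneOn.eVariationOn_eq (f := (Subtype.val : unitInterval → ℝ)) (s := univ)
      (fun a _ b _ h => h) (a := 0) (b := 1) (mem_univ _) (mem_univ _)
    have h3 : (univ ∩ Icc (0 : unitInterval) 1) = univ := by
      ext a; simp [unitInterval.le_one']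
    rw [h3] at this
    simpa using this.le
  calc curveLength P ≤ (nndist a b : ℝ≥0∞) * 1 := e1.trans (by gcongr)
    _ = edist a b := by rw [mul_one, edist_nndist]

lemma exists_coord {S : Set M} (h : IsMinkowskiSimplex 1 S) :
    ∃ τ : M → ℝ, ∀ x ∈ S, ∀ y ∈ S, inducedLengthDist S x y = ENNReal.ofReal |τ x - τ y| := by
  obtain ⟨E, _, _, _, k, hk, Δ, ψ, hbij, hiso⟩ := h
  replace hiso : ∀ a ∈ convexHull ℝ (range Δ.points), ∀ b ∈ convexHull ℝ (range Δ.points),
      inducedLengthDist S (ψ a) (ψ b) = edist a b := by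
    rcases hiso with hiso | hiso
    · exact induced_of_restricted (convex_convexHull ℝ _) hbij.mapsTo hiso
    · exact hiso
  set H := convexHull ℝ (range Δ.points) with hH
  have hsub : H ⊆ segment ℝ (Δ.points 0) (Δ.points (Fin.last k)) := by
    rw [← convexHull_pair]
    apply convexHull_mono
    rintro _ ⟨i, rfl⟩
    have : i = 0 ∨ i = Fin.last k := by
      rcases i with ⟨i, hi⟩
      simp only [Fin.ext_iff, Fin.val_zero, Fin.val_last]
      omega
    rcases this with rfl | rfl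
    · left; rfl
    · right; rfl
  have hdist : ∀ a ∈ H, ∀ b ∈ H, dist a b = |‖a - Δ.points 0‖ - ‖b - Δ.points 0‖| := by
    intro a ha b hb
    have ha' := hsub ha
    have hb' := hsub hb
    rw [segment_eq_image'] at ha' hb'
    obtain ⟨s, hs, rfl⟩ := ha'
    obtain ⟨t, ht, rfl⟩ := hb'
    simp only [dist_add_left, add_sub_cancel_left]
    rw [dist_eq_norm, ← sub_smul, norm_smul, norm_smul, norm_smul, Real.norm_eq_abs,
      Real.norm_eq_abs, Real.norm_eq_abs, abs_of_nonneg hs.1, abs_of_nonneg ht.1, ← sub_mul,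
      abs_mul, abs_norm]
  refine ⟨fun x => ‖Function.invFunOn ψ H x - Δ.points 0‖, fun x hx y hy => ?_⟩
  have hx' := hbij.surjOn hx
  have hy' := hbij.surjOn hy
  have h1 := Function.invFunOn_pos (f := ψ) (s := H) (b := x) hx'
  have h2 := Function.invFunOn_pos (f := ψ) (s := H) (b := y) hy'
  have := hiso _ h1.1 _ h2.1
  rw [h1.2, h2.2, edist_dist, hdist _ h1.1 _ h2.1] at this
  exact this

theorem IsMinkowskiPolyhedron.smallQuad (h : IsMinkowskiPolyhedron 1 M) :
    ∃ r > 0, SmallQuad M r := by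
  classical
  obtain ⟨hL, N, K, h, hfin, hK⟩ := h
  have : Finite K.faces := hfin
  choose τ hτ using fun s : K.faces => exists_coord (hK s s.2).2
  let D : GraphData M K.faces :=
    { S := fun s => {x : M | (h x : Fin N → ℝ) ∈
        convexHull ℝ ((s : Finset (Fin N → ℝ)) : Set (Fin N → ℝ))}
      V := (fun x => (h x : Fin N → ℝ)) ⁻¹' (⋃ s ∈ K.faces, (s : Set (Fin N → ℝ)))
      τ := τ
      closed := fun s => by
        have hc : IsClosed (convexHull ℝ ((s : Finset (Fin N → ℝ)) : Set (Fin N → ℝ))) :=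
          (Finset.finite_toSet _).isCompact_convexHull ℝ |>.isClosed
        exact hc.preimage (continuous_subtype_val.comp h.continuous)
      cover := fun x => by
        obtain ⟨s, hs, hx⟩ := Geometry.SimplicialComplex.mem_space_iff.1 (h x).2
        exact ⟨⟨s, hs⟩, hx⟩
      finV := by
        refine Set.Finite.preimage ?_ (hfin.biUnion fun s _ => s.finite_toSet)
        exact (Subtype.val_injective.comp h.injective).injOn
      inter := fun s t hst x hs ht => by
        have hx := K.inter_subset_convexHull s.2 t.2 ⟨hs, ht⟩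
        have hcard : ((s : Finset (Fin N → ℝ)) ∩ t).card ≤ 1 := by
          by_contra hc
          push Not at hc
          have h1 := Finset.eq_of_subset_of_card_le
            (Finset.inter_subset_left (s₁ := (s : Finset (Fin N → ℝ))) (s₂ := t))
            (by have := (hK s s.2).1; omega)
          have h2 := Finset.eq_of_subset_of_card_le
            (Finset.inter_subset_right (s₁ := (s : Finset (Fin N → ℝ))) (s₂ := t))
            (by have := (hK t t.2).1; omega)
          exact hst (Subtype.ext (h1.symm.trans h2))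
        have hsing : (((s : Finset (Fin N → ℝ)) : Set (Fin N → ℝ)) ∩ t).Subsingleton := by
          rw [← Finset.coe_inter]
          exact Finset.card_le_one_iff_subsingleton.1 hcard
        rw [hsing.convex.convexHull_eq] at hx
        exact mem_biUnion s.2 hx.1
      coord := hτ }
  exact D.smallQuad hL

end Pool.Agent.MP_616ade_gt

end

section

open scoped ENNReal Topology
open Set Filter

namespace Pool.Agent.MP_616ade_gt

universe u

/-- The fat carpet with its intrinsic metric. -/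
abbrev FatCarpet : Type := Intr Carpet carpet_hB

instance : CompactSpace FatCarpet := Intr.compactSpace carpet_hT

theorem isLengthSpace_fatCarpet : IsLengthSpace FatCarpet := Intr.isLengthSpace

/-- identity homeomorphism -/
noncomputable def fatHomeo : FatCarpet ≃ₜ Carpet :=
  Continuous.homeoOfEquivCompactToT2
    (f := (⟨Intr.pt, Intr.mk carpet_hB, fun _ => rfl, fun _ => rfl⟩ : FatCarpet ≃ Carpet))
    Intr.lipschitz_pt.continuous

lemma isC_zero : IsC 0 := ⟨⟨le_rfl, zero_le_one⟩, fun n =>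
  IsGrid.not_hole (m := 0) ⟨0, by simp⟩ (by omega)⟩

lemma isC_one : IsC 1 := ⟨⟨zero_le_one, le_rfl⟩, fun n =>
  IsGrid.not_hole (m := 0) ⟨1, by simp [NN]⟩ (by omega)⟩

/-- points of the product of Cantor sets -/
noncomputable def ccpt (x y : ℝ) (hx : IsC x) (hy : IsC y) : FatCarpet :=
  Intr.mk carpet_hB (cpt x y (hx.inC_left hy.1))

lemma dist_ccpt {x y x' y' : ℝ} (hx : IsC x) (hy : IsC y) (hx' : IsC x') (hy' : IsC y') :
    dist (ccpt x y hx hy) (ccpt x' y' hx' hy') = |x - x'| + |y - y'| := by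
  apply le_antisymm
  · exact Intr.dist_le_iff.2 (cle_CC _ _ hy hx')
  · rw [← dist_cpt (hx.inC_left hy.1) (hx'.inC_left hy'.1)]
    exact Intr.dist_pt_le (ccpt x y hx hy) (ccpt x' y' hx' hy')

theorem hasCoveringDim_fatCarpet : HasCoveringDim FatCarpet 1 := by
  refine ⟨coveringDimLE_carpet.of_homeomorph fatHomeo, fun n hn => ?_⟩
  by_contra h
  have h0 : n = 0 := by omega
  subst h0
  have : PathConnectedSpace FatCarpet := by
    refine ⟨⟨ccpt 0 0 isC_zero isC_zero⟩, fun x y => ?_⟩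
    have h1 := isLengthSpace_fatCarpet x y
    by_contra hc
    have : IsEmpty (Path x y) := ⟨fun γ => hc ⟨γ⟩⟩
    rw [iInf_of_isEmpty] at h1
    simp at h1
  refine not_coveringDimLE_zero (p := ccpt 0 0 isC_zero isC_zero)
    (q := ccpt 1 0 isC_one isC_zero) ?_ hn
  intro he
  have := dist_ccpt isC_zero isC_zero isC_one isC_zero
  rw [he] at this
  simp at this

theorem not_inverseLimit_fatCarpet : ¬ IsInverseLimitOfMinkowskiPolyhedra.{u} 1 FatCarpet := by
  classical
  rintro ⟨M, _, f, hM, hf, π, hπ⟩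
  let g : ℕ → FatCarpet × FatCarpet → ℝ := fun n z => dist ((π z.1).1 n) ((π z.2).1 n)
  have hmono : Monotone g := by
    apply monotone_nat_of_le_succ
    intro n z
    have := (hf n).dist_le_mul ((π z.1).1 (n + 1)) ((π z.2).1 (n + 1))
    rw [(π z.1).2 n, (π z.2).2 n] at this
    simpa using this
  have hle : ∀ n x y, dist ((π x).1 n) ((π y).1 n) ≤ dist x y := fun n x y =>
    Monotone.ge_of_tendsto (f := fun n => g n (x, y)) (fun a b hab => hmono hab (x, y))
      (hπ x y) n
  have hlip : ∀ n, Continuous fun x => (π x).1 n := fun n =>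
    (LipschitzWith.of_dist_le_mul (K := 1) fun x y => by simpa using hle n x y).continuous
  have hunif : TendstoUniformly g (fun z => dist z.1 z.2) atTop :=
    Monotone.tendstoUniformly_of_forall_tendsto
      (fun n => ((hlip n).comp continuous_fst).dist ((hlip n).comp continuous_snd)) hmono
      continuous_dist (fun z => hπ z.1 z.2)
  obtain ⟨n, hn⟩ := (Metric.tendstoUniformly_iff.1 hunif (1 / 10) (by norm_num)).exists
  have hlow : ∀ x y, dist x y - 1 / 10 ≤ dist ((π x).1 n) ((π y).1 n) := by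
    intro x y
    have := hn (x, y)
    rw [Real.dist_eq, abs_lt] at this
    simp only [g] at this
    linarith [this.2]
  obtain ⟨r, hr, hq⟩ := (hM n).smallQuad
  obtain ⟨m, hm⟩ := exists_NN r hr
  have hm := hm m le_rfl
  have hN := NN_posR m
  let T : Set ℤ := {k | IsC ((k : ℝ) / NN m)}
  let F : ℤ → ℤ → M n := fun i j =>
    if h : i ∈ T ∧ j ∈ T then (π (ccpt _ _ h.1 h.2)).1 n
    else (π (ccpt 0 0 isC_zero isC_zero)).1 n
  have hd : ∀ i j i' j' : ℤ, |(i : ℝ) / NN m - i' / NN m| + |(j : ℝ) / NN m - j' / NN m|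
      = 1 / NN m * (|(i : ℝ) - i'| + |(j : ℝ) - j'|) := by
    intro i j i' j'
    rw [← sub_div, ← sub_div, abs_div, abs_div, abs_of_pos hN]
    ring
  have key := grid_obstruction hq (NN m) (1 / NN m) (1 / 10) hm (by norm_num) T (Good m)
    (fun i hi => ⟨(good_isC hi).1, (good_isC hi).2.1⟩) (fun i hi => (good_isC hi).2.2) F
    (by
      intro i hi j hj i' hi' j' hj'
      simp only [F, hi, hj, hi', hj', and_self, dite_true]
      refine (hle n _ _).trans (le_of_eq ?_)
      rw [dist_ccpt, hd])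
    (by
      intro i hi j hj i' hi' j' hj'
      simp only [F, hi, hj, hi', hj', and_self, dite_true]
      refine le_trans (le_of_eq ?_) (hlow _ _)
      rw [dist_ccpt, hd])
  have hc := card_good m
  have hc' : (NN m : ℝ) / 2 ≤ (Good m).card := by
    have : (0 : ℝ) ≤ NN m * (1 / 2 ^ (m + 1)) := by positivity
    linarith
  have h2 : ((NN m : ℝ) / 2) ^ 2 ≤ ((Good m).card : ℝ) ^ 2 := by gcongr
  have h3 : 2 * (1 / (NN m : ℝ)) * ((NN m : ℝ) / 2) ^ 2 = NN m / 2 := by field_simp
  have h4 : 2 * (1 / (NN m : ℝ)) * ((NN m : ℝ) / 2) ^ 2 ≤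
      2 * (1 / (NN m : ℝ)) * ((Good m).card : ℝ) ^ 2 := by gcongr
  linarith

theorem main :
    ¬ ∀ d : ℕ, 1 ≤ d → ∀ (X : Type) [MetricSpace X] [CompactSpace X],
      IsLengthSpace X → HasCoveringDim X d → IsInverseLimitOfMinkowskiPolyhedra.{u} d X :=
  fun h => not_inverseLimit_fatCarpet
    (h 1 le_rfl FatCarpet isLengthSpace_fatCarpet hasCoveringDim_fatCarpet)

theorem main_exists :
    ∃ (X : Type) (_ : MetricSpace X), CompactSpace X ∧ IsLengthSpace X ∧ HasCoveringDim X 1 ∧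
      ¬ IsInverseLimitOfMinkowskiPolyhedra.{u} 1 X :=
  ⟨FatCarpet, inferInstance, inferInstance, isLengthSpace_fatCarpet, hasCoveringDim_fatCarpet,
    not_inverseLimit_fatCarpet⟩

end Pool.Agent.MP_616ade_gt

end
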