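import Pool.Agent.Mg.F5cfbf6.G9c630b

set_option autoImplicit false
set_option linter.unusedSectionVars false

namespace Pool.Agent.MP_5cfbf6_gt

open Set Filter Topology MeasureTheory Module

/-- the squared positive part integrated over the wedge height -/
noncomputable def cutG (D p q : ℝ) : ℝ := ∫ τ in (0 : ℝ)..D, (max (p + q * τ) 0) ^ 2

lemma cutG_nonneg {D : ℝ} (hD : 0 ≤ D) (p q : ℝ) : 0 ≤ cutG D p q :=
  intervalIntegral.integral_nonneg hD fun _ _ => sq_nonneg _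

lemma cut_measurable (α0 α1 α2 β0 β1 β2 : ℝ) : MeasurableSet (cut α0 α1 α2 β0 β1 β2) := by
  have h : ∀ i : Fin 3, IsClosed {z : E3 | 0 ≤ z i} := fun i =>
    isClosed_le (by fun_prop) (by fun_prop)
  have h' : ∀ a b c : ℝ, IsClosed {z : E3 | a * z 0 + b * z 1 + c * z 2 ≤ 1} := fun a b c =>
    isClosed_le (by fun_prop) (by fun_prop)
  exact ((((h 0).inter ((h 1).inter (h 2))).inter (h' α0 α1 α2)).inter
    (h' β0 β1 β2)).measurableSet

lemma cut_le {α0 α1 α2 β0 β1 β2 D m0 m1 k0 k1 : ℝ} (h0 : 0 < α0) (h1 : 0 < α1) (h2 : 0 < α2)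
    (hD : 0 ≤ D) (hD1 : D ≤ 1) (e0 : m0 = β1 / α1 - 1) (e1 : m1 = β2 - β1 * α2 / α1)
    (e2 : k0 = β1 * α0 / α1 - β0) (e3 : k1 = β1 / α1) (hk0 : 0 < k0) (hk1 : 0 < k1)
    (hs : α2 * D + (|m0| + |m1|) * (α0 / k0 + 1 / k1) ≤ 1) :
    volume (cut α0 α1 α2 β0 β1 β2) ≠ ⊤ ∧ (volume (cut α0 α1 α2 β0 β1 β2)).toReal ≤
      1 / (6 * α0 * α1 * α2) - 1 / (2 * k0 * k1 * α1) * cutG D m0 m1 := by
  set W := {z : E3 | 0 ≤ z 0 ∧ 0 ≤ z 1 ∧ 0 ≤ z 2 ∧ z 2 ≤ D ∧ k0 * z 0 + k1 * z 1 < m0 + m1 * z 2}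
    with hW
  set L := lin !₂[1, -α0 / α1, 0] !₂[0, -1 / α1, 0] !₂[0, -α2 / α1, 1] with hL
  set v : E3 := !₂[0, 1 / α1, 0] with hv
  have hvol : volume ((fun y => v + y) '' (L '' W)) =
      ENNReal.ofReal (1 / (2 * k0 * k1 * α1) * cutG D m0 m1) := by
    rw [image_add_left, measure_preimage_add, hL, vol_lin, hW, vol_wedge m0 m1 hD hk0 hk1,
      ← ENNReal.ofReal_mul (abs_nonneg _)]
    congr 1
    have : det3 !₂[1, -α0 / α1, 0] !₂[0, -1 / α1, 0] !₂[0, -α2 / α1, 1] = -(1 / α1) := by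
      simp [det3, dt]; ring
    rw [this, abs_neg, abs_of_pos (by positivity), cutG]
    field_simp
  have hsub : ∀ y ∈ (fun y => v + y) '' (L '' W),
      y ∈ tet α0 α1 α2 ∧ y ∉ cut α0 α1 α2 β0 β1 β2 := by
    rintro _ ⟨_, ⟨z, ⟨z0, z1, z2, z3, z4⟩, rfl⟩, rfl⟩
    have c0 : (v + L z) 0 = z 0 := by simp [hv, hL, lin_apply]
    have c1 : (v + L z) 1 = (1 - z 1 - α0 * z 0 - α2 * z 2) / α1 := by
      simp [hv, hL, lin_apply]; ring
    have c2 : (v + L z) 2 = z 2 := by simp [hv, hL, lin_apply]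
    have b1 : m0 + m1 * z 2 ≤ |m0| + |m1| := by
      have : m1 * z 2 ≤ |m1| := by
        calc m1 * z 2 ≤ |m1| * z 2 := by gcongr; exact le_abs_self _
          _ ≤ |m1| * 1 := by gcongr; linarith
          _ = _ := mul_one _
      linarith [le_abs_self m0]
    have b2 : z 0 ≤ (|m0| + |m1|) / k0 := by
      rw [le_div_iff₀ hk0]; nlinarith [mul_nonneg hk1.le z1]
    have b3 : z 1 ≤ (|m0| + |m1|) / k1 := by
      rw [le_div_iff₀ hk1]; nlinarith [mul_nonneg hk0.le z0]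
    have b4 : α0 * z 0 ≤ α0 * ((|m0| + |m1|) / k0) := by gcongr
    have b5 : α2 * z 2 ≤ α2 * D := by gcongr
    have b6 : (|m0| + |m1|) * (α0 / k0 + 1 / k1)
        = α0 * ((|m0| + |m1|) / k0) + (|m0| + |m1|) / k1 := by ring
    refine ⟨⟨⟨c0 ▸ z0, ?_, c2 ▸ z2⟩, ?_⟩, fun h => ?_⟩
    · rw [c1]; exact div_nonneg (by linarith) h1.le
    · rw [c0, c1, c2, mul_div_cancel₀ _ h1.ne']; linarith
    · have h3 := h.2
      rw [c0, c1, c2] at h3
      have : β0 * z 0 + β1 * ((1 - z 1 - α0 * z 0 - α2 * z 2) / α1) + β2 * z 2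
          = 1 + (m0 + m1 * z 2) - (k0 * z 0 + k1 * z 1) := by
        rw [e0, e1, e2, e3]; ring
      linarith
  have hle : volume (cut α0 α1 α2 β0 β1 β2) + ENNReal.ofReal (1 / (2 * k0 * k1 * α1) * cutG D m0 m1)
      ≤ ENNReal.ofReal (1 / (6 * α0 * α1 * α2)) := by
    rw [← hvol, ← vol_tet h0 h1 h2, ← measure_union' (disjoint_right.2 fun y hy => (hsub y hy).2)
      (cut_measurable ..)]
    exact measure_mono (union_subset (fun y hy => hy.1) fun y hy => (hsub y hy).1)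
  have hne : volume (cut α0 α1 α2 β0 β1 β2) ≠ ⊤ :=
    ne_top_of_le_ne_top ENNReal.ofReal_ne_top (le_self_add.trans hle)
  refine ⟨hne, ?_⟩
  have := ENNReal.toReal_mono ENNReal.ofReal_ne_top hle
  have hG := cutG_nonneg hD m0 m1
  rw [ENNReal.toReal_add hne ENNReal.ofReal_ne_top, ENNReal.toReal_ofReal (by positivity),
    ENNReal.toReal_ofReal (by positivity)] at this
  linarith

/-- the integral of the square of an affine function -/
noncomputable def cutI (D p q : ℝ) : ℝ := p ^ 2 * D + p * q * D ^ 2 + q ^ 2 * D ^ 3 / 3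

lemma cut_int (D a b c : ℝ) :
    ∫ τ in (0 : ℝ)..D, (a + b * τ + c * τ ^ 2) = a * D + b * D ^ 2 / 2 + c * D ^ 3 / 3 := by
  rw [intervalIntegral.integral_add, intervalIntegral.integral_add]
  · rw [intervalIntegral.integral_const_mul, intervalIntegral.integral_const_mul]
    simp; ring
  all_goals exact Continuous.intervalIntegrable (by fun_prop) _ _

lemma cut_pt (u v : ℝ) : u ^ 2 - 2 * (|u| * |v|) ≤ (max (v + u) 0) ^ 2 + (max (v - u) 0) ^ 2 := by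
  have key : ∀ u : ℝ, 0 ≤ u → u ^ 2 - 2 * (u * |v|) ≤ (max (v + u) 0) ^ 2 := fun u hu => by
    nlinarith [sq_nonneg (max (v + u) 0 - u), mul_le_mul_of_nonneg_left (le_max_left (v + u) 0) hu,
      mul_le_mul_of_nonneg_left (neg_abs_le v) hu]
  rcases le_total 0 u with h | h
  · rw [abs_of_nonneg h]
    linarith [key u h, sq_nonneg (max (v - u) 0)]
  · rw [abs_of_nonpos h, sub_eq_add_neg v u]
    linarith [key (-u) (by linarith), sq_nonneg (max (v + u) 0), neg_sq u]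

lemma cutG_lower {D : ℝ} (hD : 0 ≤ D) (hD1 : D ≤ 1) (ε s0 s1 t0 t1 : ℝ) :
    ε ^ 2 * (cutI D ((s0 + t0) / 2) ((s1 + t1) / 2)
      - (|s0 + t0| + |s1 + t1|) * (|s0 - t0| + |s1 - t1|) / 2)
      ≤ cutG D (ε * s0) (ε * s1) + cutG D (-ε * t0) (-ε * t1) := by
  set E := (|s0 + t0| + |s1 + t1|) * (|s0 - t0| + |s1 - t1|) / 2 with hE
  have hE0 : 0 ≤ E := by positivity
  have h1 := cut_int D (ε ^ 2 * (((s0 + t0) / 2) ^ 2 - E))
    (ε ^ 2 * (2 * ((s0 + t0) / 2) * ((s1 + t1) / 2))) (ε ^ 2 * ((s1 + t1) / 2) ^ 2)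
  rw [cutG, cutG, ← intervalIntegral.integral_add
    (Continuous.intervalIntegrable (by fun_prop) _ _)
    (Continuous.intervalIntegrable (by fun_prop) _ _)]
  refine le_trans ?_ (h1.ge.trans (intervalIntegral.integral_mono_on hD
    (Continuous.intervalIntegrable (by fun_prop) _ _)
    (Continuous.intervalIntegrable (by fun_prop) _ _) fun τ hτ => ?_))
  · unfold cutI
    nlinarith [mul_nonneg (mul_nonneg (sq_nonneg ε) hE0) (sub_nonneg.2 hD1)]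
  · have h2 := cut_pt (ε * ((s0 + t0) + (s1 + t1) * τ) / 2) (ε * ((s0 - t0) + (s1 - t1) * τ) / 2)
    have h3 : ∀ a b : ℝ, |ε * (a + b * τ) / 2| ≤ |ε| * (|a| + |b|) / 2 := fun a b => by
      rw [abs_div, abs_mul, abs_two]
      gcongr
      refine (abs_add_le _ _).trans ?_
      rw [abs_mul, abs_of_nonneg hτ.1]
      nlinarith [abs_nonneg b, hτ.2]
    have h4 := mul_le_mul (h3 (s0 + t0) (s1 + t1)) (h3 (s0 - t0) (s1 - t1)) (abs_nonneg _)
      (by positivity)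
    have h5 : |ε| * (|s0 + t0| + |s1 + t1|) / 2 * (|ε| * (|s0 - t0| + |s1 - t1|) / 2)
        = ε ^ 2 * E / 2 := by rw [hE, ← sq_abs ε]; ring
    have e1 : ε * ((s0 - t0) + (s1 - t1) * τ) / 2 + ε * ((s0 + t0) + (s1 + t1) * τ) / 2
        = ε * s0 + ε * s1 * τ := by ring
    have e2 : ε * ((s0 - t0) + (s1 - t1) * τ) / 2 - ε * ((s0 + t0) + (s1 + t1) * τ) / 2
        = -ε * t0 + -ε * t1 * τ := by ring
    rw [e1, e2] at h2
    nlinarith

noncomputable def cutR0 (A B a1 b1 ε : ℝ) : ℝ :=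
  (b1 - a1 + ε * (A - B) / 2 + ε ^ 2 * (b1 * A - a1 * B) / 2) / ((1 + ε * a1) * (1 + ε ^ 2 * B / 2))

noncomputable def cutR1 (B a1 a2 b1 b2 ε : ℝ) : ℝ :=
  (b2 + a1 - b1 - a2 + ε * (b2 * a1 - b1 * a2)) / ((1 + ε * a1) * (1 + ε ^ 2 * B / 2))

noncomputable def cutK0 (B c a1 b0 b1 ε : ℝ) : ℝ :=
  ((1 + ε * b1) / (1 + ε * a1) - (c + ε * b0)) / (1 + ε ^ 2 * B / 2)

noncomputable def cutK1 (A B a1 b1 ε : ℝ) : ℝ :=
  (1 + ε * b1) * (1 + ε ^ 2 * A / 2) / ((1 + ε * a1) * (1 + ε ^ 2 * B / 2))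

noncomputable def cutW (A B c a1 b0 b1 ε : ℝ) : ℝ :=
  1 / (2 * cutK0 B c a1 b0 b1 ε * cutK1 A B a1 b1 ε * ((1 + ε * a1) / (1 + ε ^ 2 * A / 2)))

lemma cutR0_tendsto (A B a1 b1 : ℝ) : Tendsto (cutR0 A B a1 b1) (𝓝 0) (𝓝 (b1 - a1)) := by
  have : ContinuousAt (cutR0 A B a1 b1) 0 := by unfold cutR0; fun_prop (disch := simp)
  simpa [cutR0] using this.tendsto

lemma cutR1_tendsto (B a1 a2 b1 b2 : ℝ) :
    Tendsto (cutR1 B a1 a2 b1 b2) (𝓝 0) (𝓝 (b2 + a1 - b1 - a2)) := by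
  have : ContinuousAt (cutR1 B a1 a2 b1 b2) 0 := by unfold cutR1; fun_prop (disch := simp)
  simpa [cutR1] using this.tendsto

lemma cutK0_tendsto (B c a1 b0 b1 : ℝ) : Tendsto (cutK0 B c a1 b0 b1) (𝓝 0) (𝓝 (1 - c)) := by
  have : ContinuousAt (cutK0 B c a1 b0 b1) 0 := by unfold cutK0; fun_prop (disch := simp)
  simpa [cutK0] using this.tendsto

lemma cutK1_tendsto (A B a1 b1 : ℝ) : Tendsto (cutK1 A B a1 b1) (𝓝 0) (𝓝 1) := by
  have : ContinuousAt (cutK1 A B a1 b1) 0 := by unfold cutK1; fun_prop (disch := simp)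
  simpa [cutK1] using this.tendsto

lemma cut_lin_tendsto (a : ℝ) : Tendsto (fun ε : ℝ => 1 + ε * a) (𝓝 0) (𝓝 1) := by
  have : Continuous fun ε : ℝ => 1 + ε * a := by fun_prop
  simpa using this.tendsto 0

lemma cut_sq_tendsto (a : ℝ) : Tendsto (fun ε : ℝ => 1 + ε ^ 2 * a / 2) (𝓝 0) (𝓝 1) := by
  have : Continuous fun ε : ℝ => 1 + ε ^ 2 * a / 2 := by fun_prop
  simpa using this.tendsto 0

lemma cutW_tendsto (A B a1 b0 b1 : ℝ) {c : ℝ} (hc : c < 1) :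
    Tendsto (cutW A B c a1 b0 b1) (𝓝 0) (𝓝 (1 / (2 * (1 - c)))) := by
  have := (tendsto_const_nhds (x := (1 : ℝ))).div
    ((((cutK0_tendsto B c a1 b0 b1).const_mul 2).mul (cutK1_tendsto A B a1 b1)).mul
      ((cut_lin_tendsto a1).div (cut_sq_tendsto A) one_ne_zero))
    (by simpa using (sub_pos.2 hc).ne')
  simp only [mul_one, div_one] at this
  exact this

lemma cutE_le (A B a1 a2 b0 b1 b2 : ℝ) {c D : ℝ} (hc : c < 1) (hD : 0 ≤ D) (hD1 : D < 1) :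
    ∀ᶠ ε : ℝ in 𝓝 0, volume (cutE A B c a1 a2 b0 b1 b2 ε) ≠ ⊤ ∧
      (volume (cutE A B c a1 a2 b0 b1 b2 ε)).toReal ≤
        (1 + ε ^ 2 * A / 2) ^ 3 / (6 * (1 + ε * a1) * (1 + ε * a2)) - cutW A B c a1 b0 b1 ε *
          cutG D (ε * cutR0 A B a1 b1 ε) (ε * cutR1 B a1 a2 b1 b2 ε) := by
  have t0 := (tendsto_id (x := 𝓝 (0 : ℝ))).mul (cutR0_tendsto A B a1 b1)
  have t1 := (tendsto_id (x := 𝓝 (0 : ℝ))).mul (cutR1_tendsto B a1 a2 b1 b2)
  have t2 := (((cut_lin_tendsto a2).div (cut_sq_tendsto A) one_ne_zero).mul_const D).add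
    ((t0.abs.add t1.abs).mul
      ((((tendsto_const_nhds (x := (1 : ℝ))).div (cut_sq_tendsto A) one_ne_zero).div
        (cutK0_tendsto B c a1 b0 b1) (sub_pos.2 hc).ne').add
        ((tendsto_const_nhds (x := (1 : ℝ))).div (cutK1_tendsto A B a1 b1) one_ne_zero)))
  filter_upwards [t2.eventually_le_const (u := 1) (by simpa using hD1),
    (cut_lin_tendsto a1).eventually_const_lt one_pos,
    (cut_lin_tendsto a2).eventually_const_lt one_pos,
    (cut_sq_tendsto A).eventually_const_lt one_pos,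
    (cut_sq_tendsto B).eventually_const_lt one_pos,
    (cutK0_tendsto B c a1 b0 b1).eventually_const_lt (sub_pos.2 hc),
    (cutK1_tendsto A B a1 b1).eventually_const_lt one_pos] with ε h1 h2 h3 h4 h5 h6 h7
  have hA : 2 + ε ^ 2 * A ≠ 0 := by linarith
  have hB : 2 + ε ^ 2 * B ≠ 0 := by linarith
  have := cut_le (β0 := (c + ε * b0) / (1 + ε ^ 2 * B / 2))
    (β1 := (1 + ε * b1) / (1 + ε ^ 2 * B / 2)) (β2 := (1 + ε * b2) / (1 + ε ^ 2 * B / 2))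
    (one_div_pos.2 h4) (div_pos h2 h4) (div_pos h3 h4) hD hD1.le
    (m0 := ε * cutR0 A B a1 b1 ε) (m1 := ε * cutR1 B a1 a2 b1 b2 ε)
    (by unfold cutR0; field_simp; ring)
    (by unfold cutR1; field_simp; ring) (by unfold cutK0; field_simp)
    (by unfold cutK1; field_simp) h6 h7 h1
  refine ⟨this.1, this.2.trans_eq ?_⟩
  unfold cutW
  congr 1
  field_simp

theorem cut_asymp (A B a1 a2 b0 b1 b2 : ℝ) {c η : ℝ} (hc : c < 1) (hη : 0 < η) :
    ∀ᶠ ε : ℝ in 𝓝 0, volume (cutE A B c a1 a2 b0 b1 b2 ε) ≠ ⊤ ∧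
      (volume (cutE A B c a1 a2 b0 b1 b2 ε)).toReal
        + (volume (cutE A B c a1 a2 b0 b1 b2 (-ε))).toReal
      ≤ 1 / 3 + ε ^ 2 * ((3 * A / 2 + QQ a1 a2) / 3
          - QQ (b1 - a1) (b2 - a2) / (6 * (1 - c)) + η) := by
  have hc' := sub_pos.2 hc
  obtain ⟨D, hD, hD1, hD2⟩ : ∃ D : ℝ, 0 ≤ D ∧ D < 1 ∧ QQ (b1 - a1) (b2 - a2) / (6 * (1 - c)) - η <
      1 / (2 * (1 - c)) * cutI D (b1 - a1) (b2 + a1 - b1 - a2) := by
    have h1 : Continuous fun D : ℝ => 1 / (2 * (1 - c)) * cutI D (b1 - a1) (b2 + a1 - b1 - a2) := by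
      unfold cutI; fun_prop
    have h2 := (h1.tendsto 1).eventually_const_lt
      (u := QQ (b1 - a1) (b2 - a2) / (6 * (1 - c)) - η) (by
        have : 1 / (2 * (1 - c)) * cutI 1 (b1 - a1) (b2 + a1 - b1 - a2)
            = QQ (b1 - a1) (b2 - a2) / (6 * (1 - c)) := by
          unfold cutI QQ; field_simp; ring
        linarith)
    obtain ⟨D, h3, h4⟩ := ((h2.filter_mono (nhdsWithin_le_nhds (s := Iio 1))).and
      (Ioo_mem_nhdsLT one_pos)).exists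
    exact ⟨D, h4.1.le, h4.2, h3⟩
  have hneg : Tendsto (fun ε : ℝ => -ε) (𝓝 0) (𝓝 0) := by simpa using continuous_neg.tendsto (0 : ℝ)
  have r0 := cutR0_tendsto A B a1 b1
  have r1 := cutR1_tendsto B a1 a2 b1 b2
  have r0' := r0.comp hneg
  have r1' := r1.comp hneg
  have w := cutW_tendsto A B a1 b0 b1 hc
  have w' := w.comp hneg
  have hI : Tendsto (fun ε => cutI D ((cutR0 A B a1 b1 ε + cutR0 A B a1 b1 (-ε)) / 2)
      ((cutR1 B a1 a2 b1 b2 ε + cutR1 B a1 a2 b1 b2 (-ε)) / 2)) (𝓝 0)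
      (𝓝 (cutI D (b1 - a1) (b2 + a1 - b1 - a2))) := by
    have h1 : Continuous fun p : ℝ × ℝ => cutI D p.1 p.2 := by unfold cutI; fun_prop
    have := (h1.tendsto _).comp (((r0.add r0').div_const 2).prodMk_nhds ((r1.add r1').div_const 2))
    simp only [add_self_div_two] at this
    exact this
  have hR : Tendsto (fun ε : ℝ => ((3 * A / 2 + 3 * ε ^ 2 * A ^ 2 / 4 + ε ^ 4 * A ^ 3 / 8) *
      (1 + ε ^ 2 * (a1 * a2)) + QQ a1 a2 - ε ^ 2 * a1 ^ 2 * a2 ^ 2) /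
      (3 * ((1 + ε * a1) * (1 + -ε * a1)) * ((1 + ε * a2) * (1 + -ε * a2)))) (𝓝 0)
      (𝓝 ((3 * A / 2 + QQ a1 a2) / 3)) := by
    refine ContinuousAt.tendsto (by fun_prop (disch := simp)) |>.trans_eq ?_
    simp
  have hK := hR.sub ((w.min w').mul
    (hI.sub ((((r0.add r0').abs.add (r1.add r1').abs).mul
      ((r0.sub r0').abs.add (r1.sub r1').abs)).div_const 2)))
  have hE := cutE_le A B a1 a2 b0 b1 b2 hc hD hD1
  filter_upwards [hE, hneg.eventually hE, hK.eventually_le_const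
      (u := (3 * A / 2 + QQ a1 a2) / 3 - QQ (b1 - a1) (b2 - a2) / (6 * (1 - c)) + η)
      (by simp only [sub_self, abs_zero, add_zero, mul_zero, zero_div, sub_zero, min_self]; linarith),
    (w.min w').eventually_const_lt (u := 0) (by rw [min_self]; positivity),
    (cut_lin_tendsto a1).eventually_const_lt one_pos,
    (cut_lin_tendsto a2).eventually_const_lt one_pos,
    hneg.eventually ((cut_lin_tendsto a1).eventually_const_lt one_pos),
    hneg.eventually ((cut_lin_tendsto a2).eventually_const_lt one_pos)]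
    with ε h1 h2 h3 h4 h5 h6 h7 h8
  refine ⟨h1.1, ?_⟩
  have k1 := cutG_lower hD hD1.le ε (cutR0 A B a1 b1 ε) (cutR1 B a1 a2 b1 b2 ε)
    (cutR0 A B a1 b1 (-ε)) (cutR1 B a1 a2 b1 b2 (-ε))
  have k2 := mul_le_mul_of_nonneg_right (min_le_left (cutW A B c a1 b0 b1 ε)
    (cutW A B c a1 b0 b1 (-ε))) (cutG_nonneg hD (ε * cutR0 A B a1 b1 ε) (ε * cutR1 B a1 a2 b1 b2 ε))
  have k3 := mul_le_mul_of_nonneg_right (min_le_right (cutW A B c a1 b0 b1 ε)
    (cutW A B c a1 b0 b1 (-ε)))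
    (cutG_nonneg hD (-ε * cutR0 A B a1 b1 (-ε)) (-ε * cutR1 B a1 a2 b1 b2 (-ε)))
  have k4 := mul_le_mul_of_nonneg_left k1 h4.le
  have k5 := mul_le_mul_of_nonneg_left h3 (sq_nonneg ε)
  have k6 : (1 + ε ^ 2 * A / 2) ^ 3 / (6 * (1 + ε * a1) * (1 + ε * a2)) +
      (1 + (-ε) ^ 2 * A / 2) ^ 3 / (6 * (1 + -ε * a1) * (1 + -ε * a2)) = 1 / 3 + ε ^ 2 *
      (((3 * A / 2 + 3 * ε ^ 2 * A ^ 2 / 4 + ε ^ 4 * A ^ 3 / 8) *
      (1 + ε ^ 2 * (a1 * a2)) + QQ a1 a2 - ε ^ 2 * a1 ^ 2 * a2 ^ 2) /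
      (3 * ((1 + ε * a1) * (1 + -ε * a1)) * ((1 + ε * a2) * (1 + -ε * a2)))) := by
    have h7' : 1 - ε * a1 ≠ 0 := by linarith
    have h8' : 1 - ε * a2 ≠ 0 := by linarith
    simp only [QQ, neg_mul, ← sub_eq_add_neg, neg_sq]
    field_simp
    ring
  simp only [Function.comp_apply] at h3 h4 k4 k5
  linarith [h1.2, h2.2]

end Pool.Agent.MP_5cfbf6_gt
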