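import Pool.Agent.Mg.F5cfbf6.Gf3e060
import Pool.Agent.Mg.F5cfbf6.G9e7321
import Pool.Agent.MP_7791e4_an.BM

section

set_option autoImplicit false
set_option linter.unusedSectionVars false

namespace Pool.Agent.MP_5cfbf6_gt

open Set Filter Topology MeasureTheory Module

variable {ι : Type} [Fintype ι] [DecidableEq ι]
variable {u : ι → E3} {Tr : ι → ι → ι → Prop}

/-- the perturbed normals -/
noncomputable def var2N (u v : ι → E3) (ε : ℝ) (k : ι) : E3 :=
  (1 / (1 + ε ^ 2 * dt (v k) (v k) / 2)) • (u k + ε • v k)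

lemma var2N_dt (u v : ι → E3) (ε : ℝ) (k : ι) (x : E3) : dt (var2N u v ε k) x =
    (dt (u k) x + ε * dt (v k) x) / (1 + ε ^ 2 * dt (v k) (v k) / 2) := by
  rw [var2N, smul_dt, add_dt, smul_dt]; ring

lemma var2N_le (hu : ∀ i, dt (u i) (u i) = 1) {v : ι → E3} (hv : ∀ i, dt (u i) (v i) = 0) (ε : ℝ)
    (k : ι) : dt (var2N u v ε k) (var2N u v ε k) ≤ 1 := by
  rw [var2N_dt, dt_comm (u k), dt_comm (v k) (var2N u v ε k), var2N_dt, var2N_dt, hu, hv,
    dt_comm (v k) (u k), hv]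
  have h0 : 0 ≤ ε ^ 2 * dt (v k) (v k) := mul_nonneg (sq_nonneg ε) (dt_self_nonneg _)
  have hp : 0 < 1 + ε ^ 2 * dt (v k) (v k) / 2 := by linarith
  rw [div_le_one hp, ← mul_div_assoc, ← add_div, div_le_iff₀ hp]
  nlinarith [sq_nonneg (ε ^ 2 * dt (v k) (v k))]

lemma Sys.var2_eventually (S : Sys u 1 Tr) (v : ι → E3) :
    ∀ᶠ ε : ℝ in 𝓝 0, Sys (var2N u v ε) 1 Tr := by
  have hc : Continuous fun ε : ℝ => (var2N u v ε, (1 : ι → ℝ)) := by
    refine Continuous.prodMk (continuous_pi fun k => ?_) continuous_const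
    have h1 : Continuous fun ε : ℝ => 1 / (1 + ε ^ 2 * dt (v k) (v k) / 2) :=
      continuous_const.div (by fun_prop) fun ε => by
        linarith [mul_nonneg (sq_nonneg ε) (dt_self_nonneg (v k))]
    exact h1.smul (by fun_prop : Continuous fun ε : ℝ => u k + ε • v k)
  have h0 : (var2N u v 0, (1 : ι → ℝ)) = (u, 1) := by
    congr 1
    ext1 k
    simp [var2N]
  have := hc.tendsto 0
  rw [h0] at this
  exact this.eventually S.eventually

/-- the cut tetrahedron of the flag `k l` -/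
def var2Z (u v : ι → E3) (Tr : ι → ι → ι → Prop) (ε : ℝ) (k l : ι) : Set E3 :=
  cutE (dt (v k) (v k)) (dt (v l) (v l)) (dt (u k) (u l)) (dt (v k) (ep u Tr 1 k l))
    (dt (v k) (em u Tr 1 k l)) (dt (v l) (u k)) (dt (v l) (ep u Tr 1 k l))
    (dt (v l) (em u Tr 1 k l)) ε

lemma Sys.var2_le (S : Sys u 1 Tr) (O : Opt u 1 Tr) (hu : ∀ i, dt (u i) (u i) = 1)
    {v : ι → E3} (hv : ∀ i, dt (u i) (v i) = 0) {ε : ℝ} (Sa : Sys (var2N u v ε) 1 Tr)
    (hf : ∀ k l, Adj Tr k l → volume (var2Z u v Tr ε k l) ≠ ⊤) :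
    vol u 1 ≤ ∑ k, ∑ l, DD u Tr 1 u k l * (volume (var2Z u v Tr ε k l)).toReal := by
  refine (S.vol_le_of O hu Sa (var2N_le hu hv ε)).trans (S.vol_le_flags (fun _ => one_pos)
    (S.ctr_u hu) _ (var2Z u v Tr ε) _ (fun k l A z hz hx => ⟨⟨hz, ?_⟩, ?_⟩)
    (fun _ _ _ => ENNReal.toReal_nonneg) fun k l A => (ENNReal.ofReal_toReal (hf k l A)).ge)
  · have := hx k
    rw [dt_lin, var2N_dt, var2N_dt, var2N_dt, hu, S.ep1 A, S.em1 A, dt_comm (v k) (u k), hv,
      mul_zero, add_zero] at this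
    simp only [Pi.one_apply] at this
    linarith
  · have := hx l
    rw [dt_lin, var2N_dt, var2N_dt, var2N_dt, S.ep2 A, S.em2 A, dt_comm (u l) (u k)] at this
    simp only [Pi.one_apply] at this
    linarith

theorem Sys.second_var (S : Sys u 1 Tr) (O : Opt u 1 Tr) (hu : ∀ i, dt (u i) (u i) = 1)
    (v : ι → E3) (hv : ∀ i, dt (u i) (v i) = 0) :
    0 ≤ ∑ k, ∑ l, mu u Tr 1 k l * ((1 - dt (u k) (u l)) * (3 * dt (v k) (v k)
        + 2 * QQ (dt (v k) (ep u Tr 1 k l)) (dt (v k) (em u Tr 1 k l)))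
      - QQ (dt (v l - v k) (ep u Tr 1 k l)) (dt (v l - v k) (em u Tr 1 k l))) := by
  obtain ⟨X, hX⟩ : ∃ X : ι → ι → ℝ, ∀ k l, X k l = (3 * dt (v k) (v k) / 2
      + QQ (dt (v k) (ep u Tr 1 k l)) (dt (v k) (em u Tr 1 k l))) / 3
      - QQ (dt (v l) (ep u Tr 1 k l) - dt (v k) (ep u Tr 1 k l))
        (dt (v l) (em u Tr 1 k l) - dt (v k) (em u Tr 1 k l)) / (6 * (1 - dt (u k) (u l))) :=
    ⟨_, fun _ _ => rfl⟩
  have hD := S.DD_nonneg (fun _ => one_pos) (S.ctr_u hu)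
  have hV := S.vol_eq (fun _ => one_pos) (S.ctr_u hu)
  have key : ∀ η : ℝ, 0 < η → 0 ≤ ∑ k, ∑ l, DD u Tr 1 u k l * X k l + η * (6 * vol u 1) := by
    intro η hη
    have e1 : ∀ᶠ ε : ℝ in 𝓝 0, Sys (var2N u v ε) 1 Tr ∧ ∀ k l, Adj Tr k l →
        volume (var2Z u v Tr ε k l) ≠ ⊤ ∧ (volume (var2Z u v Tr ε k l)).toReal
          + (volume (var2Z u v Tr (-ε) k l)).toReal ≤ 1 / 3 + ε ^ 2 * (X k l + η) := by
      refine (S.var2_eventually v).and ?_
      simp only [eventually_all]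
      intro k l A
      rw [hX]
      exact cut_asymp _ _ _ _ _ _ _ (S.cos_lt hu (S.adj_ne A)) hη
    have e2 : Tendsto (fun ε : ℝ => -ε) (𝓝 0) (𝓝 0) := by
      simpa using (continuous_neg (G := ℝ)).tendsto 0
    obtain ⟨ε, ⟨⟨a1, a2⟩, a3, a4⟩, e0⟩ :=
      (((e1.and (e2.eventually e1)).filter_mono (nhdsWithin_le_nhds (s := {0}ᶜ))).and
        self_mem_nhdsWithin).exists
    have b1 := S.var2_le O hu hv a1 fun k l A => (a2 k l A).1
    have b2 := S.var2_le O hu hv a3 fun k l A => (a4 k l A).1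
    have b3 : ∑ k, ∑ l, DD u Tr 1 u k l * (volume (var2Z u v Tr ε k l)).toReal
        + ∑ k, ∑ l, DD u Tr 1 u k l * (volume (var2Z u v Tr (-ε) k l)).toReal
        ≤ ∑ k, ∑ l, DD u Tr 1 u k l * (1 / 3 + ε ^ 2 * (X k l + η)) := by
      rw [← Finset.sum_add_distrib]
      refine Finset.sum_le_sum fun k _ => ?_
      rw [← Finset.sum_add_distrib]
      refine Finset.sum_le_sum fun l _ => ?_
      by_cases A : Adj Tr k l
      · rw [← mul_add]
        exact mul_le_mul_of_nonneg_left (a2 k l A).2 (hD k l)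
      · simp [DD, mu_of_not A]
    have b4 : ∑ k, ∑ l, DD u Tr 1 u k l * (1 / 3 + ε ^ 2 * (X k l + η)) = 2 * vol u 1
        + ε ^ 2 * (∑ k, ∑ l, DD u Tr 1 u k l * X k l + η * (6 * vol u 1)) := by
      rw [hV, mul_div_cancel₀ _ (by norm_num : (6 : ℝ) ≠ 0), ← mul_div_assoc]
      simp only [Finset.mul_sum, Finset.sum_div, ← Finset.sum_add_distrib]
      refine Finset.sum_congr rfl fun k _ => Finset.sum_congr rfl fun l _ => ?_
      ring
    have e3 : 0 < ε ^ 2 := by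
      have : ε ≠ 0 := e0
      positivity
    exact nonneg_of_mul_nonneg_right (by linarith) e3
  have h0 : 0 ≤ ∑ k, ∑ l, DD u Tr 1 u k l * X k l := by
    have : Tendsto (fun η : ℝ => ∑ k, ∑ l, DD u Tr 1 u k l * X k l + η * (6 * vol u 1)) (𝓝[>] 0)
        (𝓝 (∑ k, ∑ l, DD u Tr 1 u k l * X k l + 0 * (6 * vol u 1))) :=
      (Continuous.tendsto (by fun_prop) 0).mono_left nhdsWithin_le_nhds
    simpa using ge_of_tendsto this (eventually_nhdsWithin_of_forall key)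
  refine (mul_nonneg (by norm_num : (0 : ℝ) ≤ 6) h0).trans (le_of_eq ?_)
  simp only [Finset.mul_sum]
  refine Finset.sum_congr rfl fun k _ => Finset.sum_congr rfl fun l _ => ?_
  by_cases A : Adj Tr k l
  · have : 1 - dt (u k) (u l) ≠ 0 := (sub_pos.2 (S.cos_lt hu (S.adj_ne A))).ne'
    rw [hX, DD, sub_dt, sub_dt, dt_comm (u l) (u k)]
    simp only [Pi.one_apply]
    field_simp
    ring
  · simp [DD, mu_of_not A]

theorem Sys.second_single (S : Sys u 1 Tr) (O : Opt u 1 Tr) (hu : ∀ i, dt (u i) (u i) = 1)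
    (i : ι) {v : E3} (hv : dt (u i) v = 0) (hv1 : dt v v = 1) :
    ∑ j, mu u Tr 1 i j * dt (u i) (u j) * QQ (dt v (ep u Tr 1 i j)) (dt v (em u Tr 1 i j))
      ≤ 3 * ar u 1 i := by
  have H := S.second_var O hu (fun k => if k = i then v else 0) fun k => by
    split_ifs with h
    · rw [h, hv]
    · simp
  obtain ⟨Q, hQ⟩ : ∃ Q : ι → ℝ, ∀ j, Q j = QQ (dt v (ep u Tr 1 i j)) (dt v (em u Tr 1 i j)) :=
    ⟨_, fun _ => rfl⟩
  have hii : mu u Tr 1 i i = 0 := mu_of_not (fun A => S.adj_ne A rfl) _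
  rw [Finset.sum_congr rfl fun k _ => Finset.sum_congr rfl fun l _ => show _ =
    (if k = i then mu u Tr 1 i l * ((1 - dt (u i) (u l)) * (3 + 2 * Q l) - Q l) else 0)
      + (if l = i then -(mu u Tr 1 i k * Q k) else 0) from ?_] at H
  · simp only [Finset.sum_add_distrib, Finset.sum_ite_eq', Finset.mem_univ, if_true,
      Finset.sum_ite_irrel, Finset.sum_const_zero] at H
    rw [S.ar_one hu, ← mul_div_assoc, le_div_iff₀ two_pos, Finset.mul_sum, Finset.sum_mul,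
      ← sub_nonneg, ← Finset.sum_sub_distrib]
    rw [← Finset.sum_add_distrib] at H
    refine H.trans (le_of_eq (Finset.sum_congr rfl fun j _ => ?_))
    rw [hQ]
    ring
  · by_cases hk : k = i <;> by_cases hl : l = i
    · simp [hk, hl, hii]
    · simp only [hk, hl, if_true, if_false, hv1, hQ, zero_sub, neg_dt, QQ]
      ring
    · by_cases A : Adj Tr i k
      · simp only [hk, hl, if_true, if_false, hQ, sub_zero, zero_dt, QQ, S.ep_swap A, S.em_swap A,
          S.mu_symm 1 i k]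
        ring
      · simp [hk, hl, S.mu_symm 1 i k, mu_of_not A]
    · simp [hk, hl, QQ]

end Pool.Agent.MP_5cfbf6_gt

end

section

set_option autoImplicit false
set_option linter.unusedSectionVars false

namespace Pool.Agent.MP_5cfbf6_gt

open Set Filter Topology MeasureTheory Module

variable {ι : Type} [Fintype ι] [DecidableEq ι]
variable {u : ι → E3} {Tr : ι → ι → ι → Prop}

namespace Geo1

/-- the primitive of the absolute value -/
noncomputable def Phi (s : ℝ) : ℝ := s * |s| / 2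

lemma Phi_cont : Continuous Phi := by unfold Phi; fun_prop

lemma Phi_mono : Monotone Phi := by
  intro a b h
  unfold Phi
  rcases le_total 0 a with ha | ha <;> rcases le_total 0 b with hb | hb <;>
    simp only [abs_of_nonneg, abs_of_nonpos, ha, hb] <;> nlinarith

lemma Phi_sq (a b : ℝ) : (Phi a - Phi b) ^ 2 ≤ (a - b) ^ 2 * (QQ a b / 3) := by
  have key : ∀ a b : ℝ, 0 ≤ a → b ≤ 0 →
      (a * a / 2 - b * -b / 2) ^ 2 ≤ (a - b) ^ 2 * ((a ^ 2 + a * b + b ^ 2) / 3) := by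
    intro a b ha hb
    have h1 : 0 ≤ a * -b := mul_nonneg ha (neg_nonneg.2 hb)
    nlinarith [mul_nonneg h1 (sq_nonneg (a + b)), sq_nonneg (a ^ 2 - b ^ 2), mul_nonneg h1 h1]
  unfold Phi QQ
  rcases le_total 0 a with ha | ha <;> rcases le_total 0 b with hb | hb
  · rw [abs_of_nonneg ha, abs_of_nonneg hb]
    nlinarith [sq_nonneg ((a - b) ^ 2)]
  · rw [abs_of_nonneg ha, abs_of_nonpos hb]
    exact key a b ha hb
  · rw [abs_of_nonpos ha, abs_of_nonneg hb]
    nlinarith [key b a hb ha]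
  · rw [abs_of_nonpos ha, abs_of_nonpos hb]
    nlinarith [sq_nonneg ((a - b) ^ 2)]

lemma QQ_nonneg (a b : ℝ) : 0 ≤ QQ a b := by
  unfold QQ
  nlinarith [sq_nonneg (a + b), sq_nonneg a, sq_nonneg b]

lemma cover_le (s : Finset ι) (p q : ι → ℝ) {a b : ℝ}
    (H : ∀ t ∈ Icc b a, ∃ j ∈ s, t ∈ uIcc (p j) (q j)) :
    Phi a - Phi b ≤ ∑ j ∈ s, |Phi (p j) - Phi (q j)| := by
  have h0 : 0 ≤ ∑ j ∈ s, |Phi (p j) - Phi (q j)| := Finset.sum_nonneg fun _ _ => abs_nonneg _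
  rcases le_total a b with hab | hab
  · linarith [Phi_mono hab]
  have h1 : Icc (Phi b) (Phi a) ⊆ ⋃ j ∈ s, uIcc (Phi (q j)) (Phi (p j)) := by
    intro t ht
    obtain ⟨r, hr, rfl⟩ := intermediate_value_Icc hab Phi_cont.continuousOn ht
    obtain ⟨j, hj, h2⟩ := H r hr
    refine mem_iUnion₂.2 ⟨j, hj, ?_⟩
    rw [uIcc_comm]
    exact Phi_mono.image_uIcc_subset ⟨r, h2, rfl⟩
  have h2 := (measure_mono (μ := volume) h1).trans (measure_biUnion_finset_le s _)
  simp only [Real.volume_Icc, Real.volume_interval] at h2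
  rwa [← ENNReal.ofReal_sum_of_nonneg fun _ _ => abs_nonneg _,
    ENNReal.ofReal_le_ofReal_iff h0] at h2

lemma hit {h : ι → ℝ} (S : Sys u h Tr) (i : ι) {v f : E3} (hf : dt (u i) f = 0)
    (hvf : dt v f = 0) (hf0 : 0 < dt f f) {z : E3} (hz : z ∈ fc u h {i}) :
    ∃ j, Adj Tr i j ∧ 0 < dt (u j) f ∧
      dt v z ∈ uIcc (dt v (ep u Tr h i j)) (dt v (em u Tr h i j)) := by
  have hK : IsCompact (fc u h {i} ∩ {w | dt v w = dt v z}) :=
    (S.isCompact_fc {i}).inter_right (isClosed_eq (by fun_prop) continuous_const)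
  obtain ⟨w, hw, hmax⟩ := hK.exists_isMaxOn ⟨z, hz, rfl⟩ (f := fun x => dt f x)
    (Continuous.continuousOn (by fun_prop))
  have hi := hw.1.2 i rfl
  have hex : ∃ l, dt (u l) w = h l ∧ 0 < dt (u l) f := by
    by_contra hc
    push Not at hc
    obtain ⟨δ, hδ, Hm⟩ := exists_move u h w f
    have hmem : w + δ • f ∈ fc u h {i} ∩ {w | dt v w = dt v z} := by
      refine ⟨⟨fun l => ?_, fun l hl => ?_⟩, ?_⟩
      · rcases (hw.1.1 l).eq_or_lt with e | e
        · rw [dt_add, dt_smul, e]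
          nlinarith [hc l e]
        · exact (Hm δ (by rw [abs_of_pos hδ]) l e).le
      · rw [mem_singleton_iff.1 hl, dt_add, dt_smul, hi, hf, mul_zero, add_zero]
      · show dt v (w + δ • f) = dt v z
        rw [dt_add, dt_smul, hvf, mul_zero, add_zero]
        exact hw.2
    have h1 := hmax hmem
    simp only [mem_ofPred_eq, dt_add, dt_smul] at h1
    linarith [mul_pos hδ hf0]
  obtain ⟨j, h1, h2⟩ := hex
  have hij : i ≠ j := by
    rintro rfl
    exact h2.ne' hf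
  obtain ⟨A, t, t0, t1, e⟩ := S.edge_pt hij hw.1.1 hi h1
  refine ⟨j, A, h2, ?_⟩
  have e2 : dt v z = t * dt v (ep u Tr h i j) + (1 - t) * dt v (em u Tr h i j) := by
    rw [← dt_smul, ← dt_smul, ← dt_add, ← e]
    exact hw.2.symm
  rw [e2, ← segment_eq_uIcc]
  exact ⟨t, 1 - t, t0, by linarith, by ring, rfl⟩

open Classical in
lemma half {h : ι → ℝ} (S : Sys u h Tr) (i : ι) {v f : E3} (hf : dt (u i) f = 0)
    (hvf : dt v f = 0) (hf0 : 0 < dt f f) {x y : E3} (hx : x ∈ fc u h {i})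
    (hy : y ∈ fc u h {i}) :
    Phi (dt v x) - Phi (dt v y) ≤ ∑ j, if Adj Tr i j ∧ 0 < dt (u j) f then
      |Phi (dt v (ep u Tr h i j)) - Phi (dt v (em u Tr h i j))| else 0 := by
  rw [← Finset.sum_filter]
  refine cover_le _ _ _ fun t ht => ?_
  obtain ⟨a, b, ha, hb, hab, e⟩ : t ∈ segment ℝ (dt v y) (dt v x) := by
    rw [segment_eq_uIcc]
    exact Icc_subset_uIcc ht
  obtain ⟨j, h1, h2, h3⟩ := hit S i hf hvf hf0 (convex_fc u h {i} hy hx ha hb hab)
  refine ⟨j, by simp [h1, h2], ?_⟩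
  rwa [dt_add, dt_smul, dt_smul, show a * dt v y + b * dt v x = t from e] at h3

lemma edge_le (S : Sys u 1 Tr) (O : Opt u 1 Tr) (hu : ∀ i, dt (u i) (u i) = 1) {i j : ι}
    (A : Adj Tr i j) {v : E3} (hv : dt (u i) v = 0) (hv1 : dt v v = 1) :
    |Phi (dt v (ep u Tr 1 i j)) - Phi (dt v (em u Tr 1 i j))| ≤
      17 / 6 * (mu u Tr 1 i j * (1 - dt (u i) (u j))) + 1 / 9 * (mu u Tr 1 i j * dt (u i) (u j) *
        QQ (dt v (ep u Tr 1 i j)) (dt v (em u Tr 1 i j))) := by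
  have rad : ∀ p ∈ poly u 1, dt (u i) p = 1 → dt v p ^ 2 ≤ 8 := by
    intro p hp h1
    have h2 := S.radius O hu p hp
    rw [frame_sq (hu i) hv1 hv p p, h1] at h2
    nlinarith [mul_self_nonneg (dt (cr (u i) v) p)]
  have r1 := rad _ (S.ep_mem A) (S.ep1 A 1)
  have r2 := rad _ (S.em_mem A) (S.em1 A 1)
  have e1 : dt v (ep u Tr 1 i j) - dt v (em u Tr 1 i j) =
      mu u Tr 1 i j * dt v (cr (u i) (u j)) := by rw [← dt_sub, S.ep_sub A, dt_smul]
  have e2 := dt_sq_le v (cr (u i) (u j))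
  rw [hv1, one_mul, dt_cr_cr, hu, hu, one_mul] at e2
  have e3 := Phi_sq (dt v (ep u Tr 1 i j)) (dt v (em u Tr 1 i j))
  have e4 := QQ_nonneg (dt v (ep u Tr 1 i j)) (dt v (em u Tr 1 i j))
  have e5 : QQ (dt v (ep u Tr 1 i j)) (dt v (em u Tr 1 i j)) ≤ 24 := by
    unfold QQ
    nlinarith [sq_nonneg (dt v (ep u Tr 1 i j) - dt v (em u Tr 1 i j))]
  have hm := (S.mu_pos A).le
  rw [e1] at e3
  generalize QQ (dt v (ep u Tr 1 i j)) (dt v (em u Tr 1 i j)) = Q at *
  generalize Phi (dt v (ep u Tr 1 i j)) - Phi (dt v (em u Tr 1 i j)) = D at *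
  generalize mu u Tr 1 i j = m at *
  generalize dt (u i) (u j) = c at *
  generalize dt v (cr (u i) (u j)) = w at *
  have c1 : c ≤ 1 := by nlinarith [sq_nonneg w]
  have c2 : -1 ≤ c := by nlinarith [sq_nonneg w]
  have hX : 0 ≤ m * (1 - c) := mul_nonneg hm (by linarith)
  have hY : 0 ≤ m * (1 + c) * (Q / 3) := mul_nonneg (mul_nonneg hm (by linarith)) (by linarith)
  have h1 : D ^ 2 ≤ m * (1 - c) * (m * (1 + c) * (Q / 3)) := by
    refine e3.trans ?_
    have := mul_le_mul_of_nonneg_left e2 (show 0 ≤ m ^ 2 * (Q / 3) by positivity)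
    nlinarith
  have h2 : |D| ≤ (3 * (m * (1 - c)) + m * (1 + c) * (Q / 3) / 3) / 2 := by
    refine abs_le_of_sq_le_sq (h1.trans ?_) (by positivity)
    nlinarith [sq_nonneg (3 * (m * (1 - c)) - m * (1 + c) * (Q / 3) / 3)]
  nlinarith [mul_le_mul_of_nonneg_left e5 hX]

end Geo1

open Geo1

theorem Sys.extent (S : Sys u 1 Tr) (O : Opt u 1 Tr) (hu : ∀ i, dt (u i) (u i) = 1) (i : ι)
    {v : E3} (hv : dt (u i) v = 0) (hv1 : dt v v = 1) {x y : E3} (hx : x ∈ fc u 1 {i})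
    (hy : y ∈ fc u 1 {i}) (hx0 : 0 ≤ dt v x) (hy0 : dt v y ≤ 0) :
    dt v x ^ 2 + dt v y ^ 2 ≤ 6 * ar u 1 i := by
  classical
  have f1 := dt_cr_left (u i) v
  have f2 := dt_cr_right (u i) v
  have f3 : 0 < dt (cr (u i) v) (cr (u i) v) := by
    rw [dt_cr_unit (hu i) hv1 hv]
    exact one_pos
  have h1 := half S i f1 f2 f3 hx hy
  have h2 := half S i (v := v) (f := -cr (u i) v) (by rw [dt_neg, f1, neg_zero])
    (by rw [dt_neg, f2, neg_zero]) (by rwa [dt_neg, neg_dt, neg_neg]) hx hy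
  have h3 := add_le_add h1 h2
  rw [← Finset.sum_add_distrib] at h3
  have h4 := h3.trans (Finset.sum_le_sum (g := fun j =>
    17 / 6 * (mu u Tr 1 i j * (1 - dt (u i) (u j))) + 1 / 9 * (mu u Tr 1 i j * dt (u i) (u j) *
      QQ (dt v (ep u Tr 1 i j)) (dt v (em u Tr 1 i j)))) fun j _ => by
    by_cases A : Adj Tr i j
    · have e := edge_le S O hu A hv hv1
      have e0 := abs_nonneg (Phi (dt v (ep u Tr 1 i j)) - Phi (dt v (em u Tr 1 i j)))
      rw [dt_neg]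
      split_ifs with a b b
      · linarith [a.2, b.2]
      · linarith
      · linarith
      · linarith
    · simp [A, mu_of_not A])
  rw [Finset.sum_add_distrib, ← Finset.mul_sum, ← Finset.mul_sum] at h4
  have h5 := S.ar_one hu i
  have h6 := S.second_single O hu i hv hv1
  unfold Phi at h4
  rw [abs_of_nonneg hx0, abs_of_nonpos hy0] at h4
  nlinarith

theorem Sys.fat (S : Sys u 1 Tr) (O : Opt u 1 Tr) (hu : ∀ i, dt (u i) (u i) = 1) (i : ι)
    {e : E3} {ρ : ℝ} (he : dt (u i) e = 0) (he1 : dt e e = 1) (H : ∀ x ∈ fc u 1 {i}, dt e x ≤ ρ) :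
    ∀ x ∈ fc u 1 {i}, dt x x ≤ 1 + 484 * ρ ^ 2 := by
  have hK := S.isCompact_fc {i}
  have hm := S.u_mem hu i
  have f1 := dt_cr_left (u i) e
  have f2 := dt_cr_right (u i) e
  have f3 := dt_cr_unit (hu i) he1 he
  obtain ⟨p, hp, hmax⟩ := hK.exists_isMaxOn ⟨_, hm⟩ (f := fun x => dt (cr (u i) e) x)
    (Continuous.continuousOn (by fun_prop))
  obtain ⟨q, hq, hmin⟩ := hK.exists_isMinOn ⟨_, hm⟩ (f := fun x => dt (cr (u i) e) x)
    (Continuous.continuousOn (by fun_prop))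
  have hp' : ∀ x ∈ fc u 1 {i}, dt (cr (u i) e) x ≤ dt (cr (u i) e) p := fun x hx => hmax hx
  have hq' : ∀ x ∈ fc u 1 {i}, dt (cr (u i) e) q ≤ dt (cr (u i) e) x := fun x hx => hmin hx
  have p0 := hp' _ hm
  have q0 := hq' _ hm
  have r0 := H _ hm
  rw [dt_comm, f1] at p0
  rw [dt_comm _ (u i), f1] at q0
  rw [dt_comm, he] at r0
  have H' := S.strip O hu i he H
  have h1 := S.extent O hu i f1 f3 hp hq p0 q0
  have h2 : ar u 1 i ≤ (ρ - -2 * ρ) * (dt (cr (u i) e) p - dt (cr (u i) e) q) := by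
    rw [← MP_7791e4_an.ar_rect (by linarith) (by linarith), ar,
      area_pl (b := u i) (hu i) he1 he fun x hx => by rw [hx.2 i rfl, hu]; rfl]
    refine ENNReal.toReal_mono ?_ (measure_mono fun z hz => ?_)
    · rw [MP_7791e4_an.vol_rect]
      exact ENNReal.mul_ne_top ENNReal.ofReal_ne_top ENNReal.ofReal_ne_top
    · have a1 : dt e (pl (u i) e (cr (u i) e) z) = z.re := by
        simp only [pl, dt_add, dt_smul, dt_comm e (u i), he, he1, f2]
        ring
      have a2 : dt (cr (u i) e) (pl (u i) e (cr (u i) e) z) = z.im := by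
        simp only [pl, dt_add, dt_smul, dt_comm (cr (u i) e) (u i), dt_comm (cr (u i) e) e,
          f1, f2, f3]
        ring
      exact ⟨⟨a1 ▸ H' _ hz, a1 ▸ H _ hz⟩, a2 ▸ hq' _ hz, a2 ▸ hp' _ hz⟩
  intro x hx
  have b1 := hp' x hx
  have b2 := hq' x hx
  have b3 := H x hx
  have b4 := H' x hx
  rw [frame_sq (hu i) he1 he x x, hx.2 i rfl]
  generalize dt (cr (u i) e) p = L at *
  generalize dt (cr (u i) e) q = L' at *
  generalize dt (cr (u i) e) x = s at *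
  generalize dt e x = t at *
  have c1 : L ≤ 21.8 * ρ := by
    by_contra hc
    push Not at hc
    nlinarith [sq_nonneg (L' + 9 * ρ)]
  have c2 : -L' ≤ 21.8 * ρ := by
    by_contra hc
    push Not at hc
    nlinarith [sq_nonneg (L - 9 * ρ)]
  have d1 : s * s ≤ (21.8 * ρ) ^ 2 := by nlinarith
  have d2 : t * t ≤ (2 * ρ) ^ 2 := by nlinarith
  simp only [Pi.one_apply]
  nlinarith [sq_nonneg ρ]

end Pool.Agent.MP_5cfbf6_gt

end
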