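import Pool.Agent.Mg.F5cfbf6.G62e878
import Pool.Agent.Mg.F5cfbf6.G50443c
import Pool.Agent.Mg.F5cfbf6.G48ad15

set_option autoImplicit false
set_option linter.unusedSectionVars false

namespace Pool.Agent.MP_5cfbf6_gt

open Set Filter Topology MeasureTheory Module
open scoped Pointwise

variable {ι : Type} [Fintype ι] [DecidableEq ι]
variable {u : ι → E3} {Tr : ι → ι → ι → Prop}

lemma Mono_transl (μ : Measure E3) [μ.IsAddLeftInvariant] (o : E3) (A : Set E3) (f : E3 → ℝ) :
    ∫ x in o +ᵥ ((1 : ℝ) • A), f x ∂μ = ∫ x in A, f (o + x) ∂μ := by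
  rw [one_smul]
  exact (measurePreserving_add_left μ o).setIntegral_image_emb (measurableEmbedding_addLeft o) f A

lemma Mono_cone {h : ι → ℝ} (S : Sys u h Tr) (hh : ∀ i, 0 < h i) (hu : ∀ i, dt (u i) (u i) = 1)
    (e : E3) {G G' : ℝ → ℝ} (hG : ∀ s, HasDerivAt G (G' s) s) (hc : Continuous G') :
    ∫ x in poly u h, (3 * G (dt e x) + dt e x * G' (dt e x))
      = ∑ k, h k * ∫ x in fc u h {k}, G (dt e x) ∂μHE[2] := by
  have hc0 : Continuous G := continuous_iff_continuousAt.2 fun s => (hG s).continuousAt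
  rw [S.pyr_integral hh hu (φ := fun x => 3 * G (dt e x) + dt e x * G' (dt e x)) (by fun_prop)]
  refine Finset.sum_congr rfl fun k _ => ?_
  congr 2
  funext x
  simp only [dt_smul]
  have := intervalIntegral.integral_eq_sub_of_hasDerivAt (a := (0 : ℝ)) (b := 1)
    (f := fun l => l ^ 3 * G (l * dt e x))
    (f' := fun l => l ^ 2 * (3 * G (l * dt e x) + l * dt e x * G' (l * dt e x)))
    (fun l _ => by
      have h1 := (hasDerivAt_pow 3 l).mul
        ((hG (l * dt e x)).comp l ((hasDerivAt_id l).mul_const (dt e x)))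
      refine h1.congr_deriv ?_
      simp only [Function.comp, id]
      push_cast
      ring) (Continuous.intervalIntegrable (by fun_prop) _ _)
  rw [this]
  simp

lemma Mono_flux (S : Sys u 1 Tr) (hu : ∀ i, dt (u i) (u i) = 1) {e : E3} (he : dt e e = 1)
    {Θ Θ' : ℝ → ℝ} (hΘ : ∀ s, HasDerivAt Θ (Θ' s) s) (hc : Continuous Θ') :
    ∫ x in poly u 1, Θ' (dt e x)
      = ∑ k, dt e (u k) * ∫ x in fc u 1 {k}, Θ (dt e x) ∂μHE[2] := by
  have hc0 : Continuous Θ := continuous_iff_continuousAt.2 fun s => (hΘ s).continuousAt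
  have A1 := Mono_cone S (fun _ => one_pos) hu e hΘ hc
  have hpos : ∀ l, 0 < 1 * (1 : ι → ℝ) l + dt (u l) ((1 / 2 : ℝ) • e) := fun l => by
    have := dt_sq_le (u l) e
    rw [hu, he] at this
    rw [dt_smul, Pi.one_apply]
    nlinarith
  have A2 := Mono_cone (S.affine one_pos ((1 / 2 : ℝ) • e)) hpos hu e
    (G := fun s => Θ (s - 1 / 2)) (G' := fun s => Θ' (s - 1 / 2))
    (fun s => (hΘ (s - 1 / 2)).comp_sub_const s (1 / 2)) (by fun_prop)
  simp only [aff_poly u 1 one_pos, aff_fc u 1 one_pos, Mono_transl] at A2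
  simp only [dt_add, dt_smul, he, mul_one, add_sub_cancel_left] at A2
  have i1 : IntegrableOn (fun x => 3 * Θ (dt e x) + dt e x * Θ' (dt e x)) (poly u 1) :=
    (Continuous.continuousOn (by fun_prop)).integrableOn_compact S.isCompact
  have i2 : IntegrableOn (fun x => 1 / 2 * Θ' (dt e x)) (poly u 1) :=
    (Continuous.continuousOn (by fun_prop)).integrableOn_compact S.isCompact
  have e1 : ∫ x in poly u 1, (3 * Θ (dt e x) + (1 / 2 + dt e x) * Θ' (dt e x)) =
      (∫ x in poly u 1, (3 * Θ (dt e x) + dt e x * Θ' (dt e x))) +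
        1 / 2 * ∫ x in poly u 1, Θ' (dt e x) := by
    rw [← integral_const_mul, ← integral_add i1 i2]
    congr 1; funext x; ring
  have e2 : ∑ k, (1 * (1 : ι → ℝ) k + 1 / 2 * dt (u k) e) *
      ∫ x in fc u 1 {k}, Θ (dt e x) ∂μHE[2] =
      ∑ k, (1 : ι → ℝ) k * ∫ x in fc u 1 {k}, Θ (dt e x) ∂μHE[2] +
        1 / 2 * ∑ k, dt e (u k) * ∫ x in fc u 1 {k}, Θ (dt e x) ∂μHE[2] := by
    rw [Finset.mul_sum, ← Finset.sum_add_distrib]
    refine Finset.sum_congr rfl fun k _ => ?_
    rw [dt_comm (u k) e]; ring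
  rw [e1, e2, A1] at A2
  linarith

theorem Sys.div_thm (S : Sys u 1 Tr) (hu : ∀ i, dt (u i) (u i) = 1) {e : E3} (he : dt e e = 1)
    {Θ Θ' : ℝ → ℝ} (hΘ : ∀ s, HasDerivAt Θ (Θ' s) s) (hc : Continuous Θ') :
    ∑ k, ∫ x in fc u 1 {k}, (dt e x - dt e (u k)) * Θ (dt e x) ∂μHE[2]
      = ∫ x in poly u 1, (4 * dt e x * Θ (dt e x) - (1 - dt e x ^ 2) * Θ' (dt e x)) := by
  have hc0 : Continuous Θ := continuous_iff_continuousAt.2 fun s => (hΘ s).continuousAt
  have A0 := Mono_cone S (fun _ => one_pos) hu e (G := fun s => s * Θ s)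
    (G' := fun s => 1 * Θ s + s * Θ' s) (fun s => (hasDerivAt_id' s).mul (hΘ s)) (by fun_prop)
  have A1 := Mono_flux S hu he hΘ hc
  have i1 : IntegrableOn (fun x => 3 * (dt e x * Θ (dt e x)) +
      dt e x * (1 * Θ (dt e x) + dt e x * Θ' (dt e x))) (poly u 1) :=
    (Continuous.continuousOn (by fun_prop)).integrableOn_compact S.isCompact
  have i2 : IntegrableOn (fun x => Θ' (dt e x)) (poly u 1) :=
    (Continuous.continuousOn (by fun_prop)).integrableOn_compact S.isCompact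
  have e1 : ∫ x in poly u 1, (4 * dt e x * Θ (dt e x) - (1 - dt e x ^ 2) * Θ' (dt e x)) =
      (∫ x in poly u 1, (3 * (dt e x * Θ (dt e x)) +
        dt e x * (1 * Θ (dt e x) + dt e x * Θ' (dt e x)))) - ∫ x in poly u 1, Θ' (dt e x) := by
    rw [← integral_sub i1 i2]
    congr 1; funext x; ring
  rw [e1, A0, A1, ← Finset.sum_sub_distrib]
  refine Finset.sum_congr rfl fun k _ => ?_
  have j1 := S.integrableOn_fc hu k (φ := fun x => dt e x * Θ (dt e x)) (by fun_prop)
  have j2 := S.integrableOn_fc hu k (φ := fun x => dt e (u k) * Θ (dt e x)) (by fun_prop)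
  rw [Pi.one_apply, one_mul, ← integral_const_mul, ← integral_sub j1 j2]
  congr 1; funext x; ring

lemma Mono_deriv {t : ℝ} (ht : 0 < t) (s : ℝ) :
    HasDerivAt (fun s => WW t (1 - s)) (2 * (1 - s) * WW t (1 - s) ^ 2) s := by
  have h0 : (1 - s) ^ 2 + t ^ 2 ≠ 0 := by positivity
  have h1 := ((((hasDerivAt_id' s).const_sub 1).pow 2).add_const (t ^ 2)).inv h0
  refine h1.congr_deriv ?_
  simp only [WW, Pi.pow_apply]
  field_simp
  push_cast
  ring

lemma Mono_integrand {t : ℝ} (ht : 0 < t) (s : ℝ) :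
    4 * s * WW t (1 - s) - (1 - s ^ 2) * (2 * (1 - s) * WW t (1 - s) ^ 2) =
      WW t (1 - s) ^ 2 * (4 * t ^ 2 * s - 2 * (1 - s) ^ 3) := by
  have h0 : (1 - s) ^ 2 + t ^ 2 ≠ 0 := by positivity
  simp only [WW]
  field_simp
  ring

theorem Crit.mono (C : Crit u Tr) (i : ι) {t : ℝ} (ht : 0 < t) :
    ∑ k, XX u (u i) t k ≤ 4 * UU u (u i) t := by
  have hW := continuous_WW ht
  have hc : Continuous fun s => 2 * (1 - s) * WW t (1 - s) ^ 2 := by fun_prop
  have A := C.sys.div_thm C.unit (C.unit i) (Mono_deriv ht) hc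
  have B := ball_div (C.unit i) (Mono_deriv ht) hc
  simp only [Mono_integrand ht] at A B
  have e1 : ∀ k, XX u (u i) t k =
      ∫ x in fc u 1 {k}, (dt (u i) x - dt (u i) (u k)) * WW t (1 - dt (u i) x) ∂μHE[2] := by
    intro k
    have j1 := C.sys.integrableOn_fc C.unit k
      (φ := fun x => (dt (u i) x - dt (u i) (u k)) * WW t (1 - dt (u i) x)) (by fun_prop)
    have j2 := C.sys.integrableOn_fc C.unit k (φ := fun x => dt (u i) x) (by fun_prop)
    have j3 := C.sys.integrableOn_fc C.unit k (φ := fun _ => dt (u i) (u k)) (by fun_prop)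
    have j4 := C.sys.integrableOn_fc C.unit k
      (φ := fun x => WW t (1 - dt (u i) (u k)) * (dt (u i) x - dt (u i) (u k))) (by fun_prop)
    have z : ∫ x in fc u 1 {k}, WW t (1 - dt (u i) (u k)) * (dt (u i) x - dt (u i) (u k))
        ∂μHE[2] = 0 := by
      rw [integral_const_mul, integral_sub j2 j3, C.centroid, setIntegral_const, smul_eq_mul,
        mul_comm (dt (u i) (u k))]
      simp [ar, Measure.real]
    rw [← sub_zero (∫ x in fc u 1 {k}, (dt (u i) x - dt (u i) (u k)) * WW t (1 - dt (u i) x)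
      ∂μHE[2]), ← z, ← integral_sub j1 j4, XX]
    congr 1; funext x; ring
  simp only [e1]
  rw [A]
  set g : E3 → ℝ := fun x => WW t (1 - dt (u i) x) ^ 2 *
    (4 * t ^ 2 * dt (u i) x - 2 * (1 - dt (u i) x) ^ 3) with hg
  have ig : IntegrableOn g (poly u 1) :=
    (Continuous.continuousOn (by fun_prop)).integrableOn_compact C.sys.isCompact
  have mB : MeasurableSet {x : E3 | dt x x ≤ 1} :=
    (isClosed_le (by fun_prop) continuous_const).measurableSet
  have sB : {x : E3 | dt x x ≤ 1} ⊆ poly u 1 := fun x hx => C.ball_subset hx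
  have sO : Om u (u i) ⊆ poly u 1 \ {x : E3 | dt x x ≤ 1} := fun x hx =>
    ⟨hx.1, not_le.2 hx.2.1⟩
  have d1 := setIntegral_sdiff mB ig sB
  have d2 := setIntegral_sdiff (measurableSet_Om u (u i)) (ig.mono_set sdiff_subset) sO
  have d3 : ∫ x in (poly u 1 \ {x : E3 | dt x x ≤ 1}) \ Om u (u i), g x ≤ 0 := by
    refine setIntegral_nonpos (((isClosed_poly u 1).measurableSet.diff mB).diff
      (measurableSet_Om u (u i))) fun x hx => ?_
    have h1 : dt (u i) x < 0 := by
      by_contra hcon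
      exact hx.2 ⟨hx.1.1, not_le.1 hx.1.2, not_lt.1 hcon⟩
    refine mul_nonpos_of_nonneg_of_nonpos (sq_nonneg _) ?_
    have h2 : 0 ≤ (1 - dt (u i) x) ^ 3 := pow_nonneg (by linarith) 3
    nlinarith [sq_nonneg t]
  have d4 : ∫ x in Om u (u i), g x ≤ 4 * UU u (u i) t := by
    rw [UU, ← integral_const_mul]
    refine setIntegral_mono_on (ig.mono_set fun x hx => hx.1)
      (IntegrableOn.mono_set ((Continuous.continuousOn (by fun_prop)).integrableOn_compact
        C.sys.isCompact) fun x hx => hx.1) (measurableSet_Om u (u i)) fun x hx => ?_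
    have h1 : dt (u i) x ≤ 1 := hx.1 i
    have h2 : 0 ≤ (1 - dt (u i) x) ^ 3 := pow_nonneg (by linarith) 3
    have h3 : 4 * t ^ 2 * dt (u i) x - 2 * (1 - dt (u i) x) ^ 3 ≤ 4 * t ^ 2 := by
      nlinarith [sq_nonneg t]
    have := mul_le_mul_of_nonneg_left h3 (sq_nonneg (WW t (1 - dt (u i) x)))
    simp only [hg]
    linarith
  linarith

end Pool.Agent.MP_5cfbf6_gt
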