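import Pool.Agent.Mg.F5cfbf6.G52ca4d

section

/-! Regions between two spheres and their joins with a passive complex. -/

namespace Pool.Agent.MP_6a6613_co

open Set

/-- `R` is a region between `S` and `S'` whose crossing costs `L` steps. -/
structure Cob {V : Type} [Fintype V] [DecidableEq V] (z : V) (S S' R : Set (Finset V)) (d : ℕ)
    (L : ℤ) : Prop where
  dS : Down S
  dS' : Down S'
  dR : Down R
  card : ∀ F ∈ R, F.card ≤ d
  ri : RI (cone z S) (R ∪ cone z S') {F | z ∉ F}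
  pot : ∃ φ : Finset V → ℤ, (∀ F, 0 ≤ φ F ∧ φ F ≤ L) ∧
    (∀ F ∈ R, ∀ G ∈ R, F.card = d → G.card = d → (F ∩ G).card + 1 = d → φ G ≤ φ F + 1) ∧
    (∀ F ∈ R, F.card = d → ∀ G ⊆ F, G ∈ S → d ≤ G.card + 1 → φ F ≤ 0) ∧
    ∀ F ∈ R, F.card = d → ∀ G ⊆ F, G ∈ S' → d ≤ G.card + 1 → L ≤ φ F

variable {α V : Type} [Fintype α] [DecidableEq α] [Fintype V] [DecidableEq V]

/-- The part of `F` outside the range of `e`. -/
def rest (e : α → V) (F : Finset V) : Finset V := F.filter fun v => ∀ a, e a ≠ v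

/-- Join of a complex on `α` with a complex on the complement of the range of `e`. -/
def lift (e : α → V) (N : Set (Finset V)) (D : Set (Finset α)) : Set (Finset V) :=
  {F | pre e F ∈ D ∧ rest e F ∈ N}

omit [DecidableEq α] [Fintype V] in
@[simp] theorem mem_rest {e : α → V} {F : Finset V} {v : V} :
    v ∈ rest e F ↔ v ∈ F ∧ ∀ a, e a ≠ v := by simp [rest]

omit [DecidableEq α] [Fintype V] in
theorem pre_mono (e : α → V) {F G : Finset V} (h : G ⊆ F) : pre e G ⊆ pre e F :=
  fun _ ha => mem_pre.2 (h (mem_pre.1 ha))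

omit [DecidableEq α] [Fintype V] in
theorem rest_mono (e : α → V) {F G : Finset V} (h : G ⊆ F) : rest e G ⊆ rest e F :=
  fun _ ha => mem_rest.2 ⟨h (mem_rest.1 ha).1, (mem_rest.1 ha).2⟩

omit [DecidableEq α] [Fintype V] in
theorem Down.lift {e : α → V} {N : Set (Finset V)} {D : Set (Finset α)} (hN : Down N)
    (hD : Down D) : Down (lift e N D) :=
  fun _ hF _ hG => ⟨hD _ hF.1 _ (pre_mono e hG), hN _ hF.2 _ (rest_mono e hG)⟩

omit [DecidableEq α] in
theorem supp_comp (e : α → V) (p : V → ℝ) : supp (fun a => p (e a)) = pre e (supp p) := by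
  ext a; simp

omit [Fintype V] in
theorem card_pre_rest {e : α → V} (he : Function.Injective e) (F : Finset V) :
    F.card = (pre e F).card + (rest e F).card := by
  rw [← Finset.card_image_of_injective (pre e F) he, ← Finset.card_union_of_disjoint]
  · congr 1
    ext v
    simp only [Finset.mem_union, Finset.mem_image, mem_pre, mem_rest]
    constructor
    · intro hv
      by_cases h : ∃ a, e a = v
      · obtain ⟨a, rfl⟩ := h
        exact Or.inl ⟨a, hv, rfl⟩
      · exact Or.inr ⟨hv, fun a ha => h ⟨a, ha⟩⟩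
    · rintro (⟨a, ha, rfl⟩ | h)
      exacts [ha, h.1]
  · rw [Finset.disjoint_left]
    intro v hv hv'
    obtain ⟨a, -, rfl⟩ := Finset.mem_image.1 hv
    exact (mem_rest.1 hv').2 a rfl

/-- Apply `f` in the coordinates of the range of `e`. -/
noncomputable def ext (e : α → V) (f : (α → ℝ) → (α → ℝ)) (p : V → ℝ) : V → ℝ :=
  Function.extend e (f fun a => p (e a)) p

omit [DecidableEq α] [DecidableEq V] [Fintype α] [Fintype V] in
theorem ext_in {e : α → V} (he : Function.Injective e) (f : (α → ℝ) → (α → ℝ)) (p : V → ℝ)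
    (a : α) : ext e f p (e a) = f (fun a => p (e a)) a := he.extend_apply _ _ _

omit [DecidableEq α] [DecidableEq V] [Fintype α] [Fintype V] in
theorem ext_out {e : α → V} (f : (α → ℝ) → (α → ℝ)) (p : V → ℝ) {v : V}
    (hv : ¬ ∃ a, e a = v) : ext e f p v = p v := Function.extend_apply' _ _ _ hv

omit [DecidableEq α] in
theorem ext_aux {e : α → V} (he : Function.Injective e) {N : Set (Finset V)}
    {D D' : Set (Finset α)} {f g : (α → ℝ) → (α → ℝ)} (h : HH f g (Cn D) (Cn D')) :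
    ContinuousOn (ext e f) (Cn (lift e N D)) ∧
      MapsTo (ext e f) (Cn (lift e N D)) (Cn (lift e N D')) ∧
      ∀ p ∈ Cn (lift e N D), ext e g (ext e f p) = p := by
  have hm : MapsTo (fun (p : V → ℝ) a => p (e a)) (Cn (lift e N D)) (Cn D) :=
    fun p hp => ⟨fun a => hp.1 _, by rw [supp_comp]; exact hp.2.1⟩
  have hc : ∀ p, (fun a => ext e f p (e a)) = f fun a => p (e a) :=
    fun p => funext (ext_in he f p)
  refine ⟨continuousOn_pi.2 fun v => ?_, fun p hp => ⟨fun v => ?_, ?_, ?_⟩, fun p hp => ?_⟩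
  · by_cases hv : ∃ a, e a = v
    · obtain ⟨a, rfl⟩ := hv
      simp only [ext_in he]
      exact (continuous_apply a).comp_continuousOn (h.cf.comp (by fun_prop) hm)
    · simp only [ext_out _ _ hv]
      exact (continuous_apply v).continuousOn
  · by_cases hv : ∃ a, e a = v
    · obtain ⟨a, rfl⟩ := hv
      rw [ext_in he]
      exact (h.mf (hm hp)).1 a
    · rw [ext_out _ _ hv]; exact hp.1 v
  · rw [← supp_comp, hc]; exact (h.mf (hm hp)).2
  · have : rest e (supp (ext e f p)) = rest e (supp p) := by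
      ext v
      simp only [mem_rest, mem_supp]
      exact and_congr_left fun hv => by rw [ext_out _ _ fun ⟨a, ha⟩ => hv a ha]
    rw [this]; exact hp.2.2
  · funext v
    by_cases hv : ∃ a, e a = v
    · obtain ⟨a, rfl⟩ := hv
      rw [ext_in he, hc, h.gf _ (hm hp)]
    · rw [ext_out _ _ hv, ext_out _ _ hv]

omit [DecidableEq α] in
theorem RI.lift {e : α → V} (he : Function.Injective e) {N : Set (Finset V)} (hN : Down N)
    {D D' Γ : Set (Finset α)} (hD : Down D) (h : RI D D' Γ) :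
    RI (lift e N D) (lift e N D') {F | pre e F ∈ Γ} := by
  obtain ⟨f, g, h, hf⟩ := h
  have a := ext_aux (N := N) he h
  have b := ext_aux (N := N) he h.symm
  have hm : MapsTo (fun (p : V → ℝ) a => p (e a)) (Cn (Pool.Agent.MP_6a6613_co.lift e N D))
      (Cn D) := fun p hp => ⟨fun a => hp.1 _, by rw [supp_comp]; exact hp.2.1⟩
  refine ⟨ext e f, ext e g, ⟨a.1, b.1, a.2.1, b.2.1, a.2.2, b.2.2, (hN.lift hD).smul,
    fun p hp t ht => ?_⟩, fun p hp hs => ?_⟩
  · funext v
    by_cases hv : ∃ a, e a = v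
    · obtain ⟨a, rfl⟩ := hv
      have := h.hf _ (hm hp) t ht
      rw [Pi.smul_apply, ext_in he, ext_in he, ← Pi.smul_apply, ← this]
      rfl
    · rw [Pi.smul_apply, ext_out _ _ hv, ext_out _ _ hv, Pi.smul_apply]
  · funext v
    by_cases hv : ∃ a, e a = v
    · obtain ⟨a, rfl⟩ := hv
      rw [ext_in he, hf _ (hm hp) (by rw [supp_comp]; exact hs)]
    · rw [ext_out _ _ hv]

omit [Fintype V] in
theorem cone_lift {e : α → V} (he : Function.Injective e) (N : Set (Finset V))
    (S : Set (Finset α)) (z : α) : cone (e z) (lift e N S) = lift e N (cone z S) := by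
  ext F
  have h1 : pre e (F.erase (e z)) = (pre e F).erase z := by
    ext a; simp [he.eq_iff]
  have h2 : rest e (F.erase (e z)) = rest e F := by
    ext v
    simp only [mem_rest, Finset.mem_erase]
    exact ⟨fun h => ⟨h.1.2, h.2⟩, fun h => ⟨⟨fun e' => h.2 z e'.symm, h.1⟩, h.2⟩⟩
  simp only [cone, lift, mem_ofPred_eq, h1, h2]

theorem Cob.lift {e : α → V} (he : Function.Injective e) {N : Set (Finset V)} (hN : Down N)
    {c : ℕ} (hc : ∀ F ∈ N, F.card ≤ c) {z : α} {S S' R : Set (Finset α)} {d : ℕ} {L : ℤ}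
    (h : Cob z S S' R d L) :
    Cob (e z) (lift e N S) (lift e N S') (lift e N R) (d + c) L where
  dS := hN.lift h.dS
  dS' := hN.lift h.dS'
  dR := hN.lift h.dR
  card F hF := by
    have := h.card _ hF.1
    have := hc _ hF.2
    have := card_pre_rest he F
    omega
  ri := by
    have := h.ri.lift he hN (h.dS.cone z)
    rw [cone_lift he, cone_lift he]
    convert this using 1
    · ext F; simp only [Pool.Agent.MP_6a6613_co.lift, mem_union, mem_ofPred_eq]; tauto
    · ext F; simp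
  pot := by
    obtain ⟨φ, h0, h1, h2, h3⟩ := h.pot
    have key : ∀ F ∈ Pool.Agent.MP_6a6613_co.lift e N R, F.card = d + c → (pre e F).card = d :=
      fun F hF hd => by
        have := h.card _ hF.1
        have := hc _ hF.2
        have := card_pre_rest he F
        omega
    refine ⟨fun F => φ (pre e F), fun F => h0 _, fun F hF G hG a b ab => ?_,
      fun F hF a G hG hS b => ?_, fun F hF a G hG hS b => ?_⟩
    · have e1 : pre e (F ∩ G) = pre e F ∩ pre e G := by ext; simp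
      have e2 := card_pre_rest he (F ∩ G)
      have e3 := hc _ (hN _ hF.2 _ (rest_mono e (Finset.inter_subset_left (s₂ := G))))
      have a' := key F hF a
      have b' := key G hG b
      rw [e1] at e2
      by_cases hh : (pre e F ∩ pre e G).card + 1 = d
      · exact h1 _ hF.1 _ hG.1 a' b' hh
      · have e4 := Finset.card_le_card (Finset.inter_subset_left (s₁ := pre e F) (s₂ := pre e G))
        have e5 : pre e F ∩ pre e G = pre e F :=
          Finset.eq_of_subset_of_card_le Finset.inter_subset_left (by omega)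
        have e6 : pre e F ∩ pre e G = pre e G :=
          Finset.eq_of_subset_of_card_le Finset.inter_subset_right (by omega)
        show φ (pre e G) ≤ φ (pre e F) + 1
        rw [← e6, e5]; omega
    · have := card_pre_rest he G
      have := hc _ hS.2
      exact h2 _ hF.1 (key F hF a) _ (pre_mono e hG) hS.1 (by omega)
    · have := card_pre_rest he G
      have := hc _ hS.2
      exact h3 _ hF.1 (key F hF a) _ (pre_mono e hG) hS.1 (by omega)

/-- The invariant of the construction: `U` is the part built so far, `S` its boundary. -/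
structure Inv (zt zb : V) (U S : Set (Finset V)) (d : ℕ) (D : ℤ) : Prop where
  dU : Down U
  nz : ∀ F ∈ U, zb ∉ F
  top : {zt} ∈ U
  sph : Sph (U ∪ cone zb S) d
  pot : ∃ Φ : Finset V → ℤ, (∀ F, Φ F ≤ D) ∧
    (∀ F ∈ U, ∀ G ∈ U, F.card = d → G.card = d → (F ∩ G).card + 1 = d → Φ G ≤ Φ F + 1) ∧
    (∀ F ∈ U, F.card = d → zt ∈ F → Φ F ≤ 0) ∧
    ∀ F ∈ U, F.card = d → ∀ G ⊆ F, G ∈ S → d ≤ G.card + 1 → D ≤ Φ F

theorem Inv.step {zt zb : V} {U S S' R : Set (Finset V)} {d : ℕ} {D L : ℤ}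
    (h : Inv zt zb U S d D) (hc : Cob zb S S' R d L) (h1 : U ∩ R ⊆ S) (h2 : U ∩ S' ⊆ S)
    (h3 : ∀ F ∈ U ∩ S', F.card + 1 < d) (h4 : ∀ F ∈ R, zb ∉ F ∧ zt ∉ F) :
    Inv zt zb (U ∪ R) S' d (D + L) where
  dU := h.dU.union hc.dR
  nz F hF := hF.elim (h.nz F) fun a => (h4 F a).1
  top := Or.inl h.top
  sph := by
    rw [union_assoc]
    refine (hc.ri.glue h.dU (hc.dS.cone zb) (hc.dR.union (hc.dS'.cone zb))
      (fun F hF => h.nz F hF.1) fun F hF => ?_).sph h.sph
    have e := Finset.erase_eq_of_notMem (h.nz F hF.1)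
    rcases hF.2 with a | a
    · show F.erase zb ∈ S
      rw [e]; exact h1 ⟨hF.1, a⟩
    · show F.erase zb ∈ S
      have a' : F.erase zb ∈ S' := a
      rw [e] at a' ⊢; exact h2 ⟨hF.1, a'⟩
  pot := by
    classical
    obtain ⟨Φ, a0, a1, a2, a3⟩ := h.pot
    obtain ⟨φ, b0, b1, b2, b3⟩ := hc.pot
    have cross : ∀ F ∈ U, ∀ G ∈ R, F.card = d → G.card = d → (F ∩ G).card + 1 = d →
        D ≤ Φ F ∧ φ G ≤ 0 := fun F hF G hG a b ab => by
      have hS : F ∩ G ∈ S := h1 ⟨h.dU F hF _ Finset.inter_subset_left,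
        hc.dR G hG _ Finset.inter_subset_right⟩
      exact ⟨a3 F hF a _ Finset.inter_subset_left hS ab.ge,
        b2 G hG b _ Finset.inter_subset_right hS ab.ge⟩
    refine ⟨fun F => if F ∈ U then Φ F else D + φ F, fun F => ?_, fun F hF G hG a b ab => ?_,
      fun F hF a b => ?_, fun F hF a G hG hS b => ?_⟩
    · have := a0 F
      have := b0 F
      dsimp only
      split_ifs <;> omega
    · dsimp only
      by_cases x : F ∈ U <;> by_cases y : G ∈ U <;> simp only [x, y, if_true, if_false]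
      · exact a1 F x G y a b ab
      · have := cross F x G (hG.resolve_left y) a b ab
        omega
      · have := a0 G
        have := b0 F
        omega
      · have := b1 F (hF.resolve_left x) G (hG.resolve_left y) a b ab
        omega
    · have x : F ∈ U := hF.resolve_right fun y => (h4 F y).2 b
      simp only [x, if_true]
      exact a2 F x a b
    · dsimp only
      by_cases x : F ∈ U
      · have := h3 G ⟨h.dU F x G hG, hS⟩
        omega
      · simp only [x, if_false]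
        have := b3 F (hF.resolve_left x) a G hG hS b
        omega

theorem Inv.final (hF : FinalStmt) {zt zb : V} {U S : Set (Finset V)} {d : ℕ} {D : ℤ}
    (h : Inv zt zb U S d D) (hd : 2 ≤ d) (dS : Down S) (h0 : ∅ ∈ S) (hz : zt ≠ zb)
    (h1 : ∀ F ∈ S, F.card < d ∧ zt ∉ F) (hD : 2 * (Fintype.card V : ℤ) ≤ D) : Target := by
  obtain ⟨Φ, a0, a1, a2, a3⟩ := h.pot
  have inU : ∀ F ∈ U ∪ cone zb S, F.card = d → zb ∉ F → F ∈ U := fun F hF a b =>
    hF.resolve_right fun c => by
      have c' : F.erase zb ∈ S := c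
      rw [Finset.erase_eq_of_notMem b] at c'
      have := (h1 F c').1
      omega
  have inS : ∀ F ∈ U ∪ cone zb S, zb ∈ F → F.erase zb ∈ S := fun F hF b =>
    hF.resolve_left fun c => h.nz F c b
  refine hF V (U ∪ cone zb S) d (fun F => if zb ∈ F then D else Φ F) zt zb
    (h.dU.union (dS.cone zb)) hd h.sph (Or.inl h.top) (Or.inr (by simpa [cone] using h0))
    (fun F hF G hG a b ab => ?_) (fun F hF a b => ?_) fun F _ _ b => by simpa [b] using hD
  · by_cases x : zb ∈ F <;> by_cases y : zb ∈ G <;> simp only [x, y, if_true, if_false]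
    · omega
    · have := a0 G
      omega
    · have hS : F ∩ G ∈ S := dS _ (inS G hG y) _ fun v hv => Finset.mem_erase.2
        ⟨fun e => x (e ▸ (Finset.mem_inter.1 hv).1), (Finset.mem_inter.1 hv).2⟩
      have := a3 F (inU F hF a x) a _ Finset.inter_subset_left hS ab.ge
      omega
    · exact a1 F (inU F hF a x) G (inU G hG b y) a b ab
  · have x : zb ∉ F := fun y => (h1 _ (inS F hF y)).2 (Finset.mem_erase.2 ⟨hz, b⟩)
    simp only [x, if_false]
    exact a2 F (inU F hF a x) a b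

end Pool.Agent.MP_6a6613_co

end

section

/-! The model region with the long structures substituted for the two hexagons. -/

namespace Pool.Agent.MP_6a6613_co

open Set

/-- Vertices of the local region. -/
abbrev LV (W : Type) : Type := W ⊕ W ⊕ Fin 3 ⊕ Fin 3 ⊕ Unit

/-- The apex of the local region. -/
def lz {W : Type} : LV W := Sum.inr (Sum.inr (Sum.inr (Sum.inr ())))

/-- The boundary of a triangle, or the empty complex. -/
def Tri (b : Bool) : Set (Finset (Fin 3)) := {G | G ≠ Finset.univ ∧ (b = false → G = ∅)}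

/-- The model face of a local face. -/
def md {W : Type} (t : Finset W → Finset (Fin 6)) (F : Finset (LV W)) : Finset MV :=
  (t F.toLeft).disjSum ((t F.toRight.toLeft).disjSum F.toRight.toRight)

/-- Substitution of `B` into the model complex. -/
def Loc {W : Type} (B : Set (Finset W)) (t : Finset W → Finset (Fin 6)) (K : Set (Finset MV)) :
    Set (Finset (LV W)) := {F | F.toLeft ∈ B ∧ F.toRight.toLeft ∈ B ∧ md t F ∈ K}

/-- Local joins. -/
def LS {W : Type} (B B' : Set (Finset W)) (c d : Bool) : Set (Finset (LV W)) :=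
  {F | F.toLeft ∈ B ∧ F.toRight.toLeft ∈ B' ∧ F.toRight.toRight.toLeft ∈ Tri c ∧
    F.toRight.toRight.toRight.toLeft ∈ Tri d ∧ lz ∉ F}

variable {W : Type}

@[simp] theorem mX_md (t : Finset W → Finset (Fin 6)) (F : Finset (LV W)) :
    mX (md t F) = t F.toLeft := by ext; simp [mX, md]

@[simp] theorem mY_md (t : Finset W → Finset (Fin 6)) (F : Finset (LV W)) :
    mY (md t F) = t F.toRight.toLeft := by ext; simp [mY, md]

@[simp] theorem mC_md (t : Finset W → Finset (Fin 6)) (F : Finset (LV W)) :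
    mC (md t F) = F.toRight.toRight.toLeft := by ext; simp [mC, md]

@[simp] theorem mD_md (t : Finset W → Finset (Fin 6)) (F : Finset (LV W)) :
    mD (md t F) = F.toRight.toRight.toRight.toLeft := by ext; simp [mD, md]

@[simp] theorem mz_md (t : Finset W → Finset (Fin 6)) (F : Finset (LV W)) :
    mz ∈ md t F ↔ lz ∈ F := by simp [mz, lz, md]

theorem down_C6 : Down C6 := fun _ ⟨k, hk⟩ _ hG => ⟨k, hG.trans hk⟩

theorem mX_mono {T T' : Finset MV} (h : T ⊆ T') : mX T ⊆ mX T' := pre_mono _ h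

theorem mY_mono {T T' : Finset MV} (h : T ⊆ T') : mY T ⊆ mY T' := pre_mono _ h

theorem mC_mono {T T' : Finset MV} (h : T ⊆ T') : mC T ⊆ mC T' := pre_mono _ h

theorem mD_mono {T T' : Finset MV} (h : T ⊆ T') : mD T ⊆ mD T' := pre_mono _ h

theorem ne_univ_of_sub {α : Type} [Fintype α] {A B : Finset α} (h : A ⊆ B)
    (hB : B ≠ Finset.univ) : A ≠ Finset.univ :=
  fun e => hB (Finset.univ_subset_iff.1 (e ▸ h))

theorem down_G0 : Down G0 := fun _ hF _ hG =>
  ⟨down_C6 _ hF.1 _ (mX_mono hG), Finset.subset_empty.1 (hF.2.1 ▸ mY_mono hG),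
    ne_univ_of_sub (mC_mono hG) hF.2.2.1, Finset.subset_empty.1 (hF.2.2.2.1 ▸ mD_mono hG),
    fun h => hF.2.2.2.2 (hG h)⟩

theorem down_G1 : Down G1 := fun _ hF _ hG =>
  ⟨Finset.subset_empty.1 (hF.1 ▸ mX_mono hG), down_C6 _ hF.2.1 _ (mY_mono hG),
    Finset.subset_empty.1 (hF.2.2.1 ▸ mC_mono hG), ne_univ_of_sub (mD_mono hG) hF.2.2.2.1,
    fun h => hF.2.2.2.2 (hG h)⟩

theorem empty_C6 : (∅ : Finset (Fin 6)) ∈ C6 := ⟨0, Finset.empty_subset _⟩

theorem mX_erase (T : Finset MV) : mX (T.erase mz) = mX T := by ext; simp [mX, mz]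

theorem mY_erase (T : Finset MV) : mY (T.erase mz) = mY T := by ext; simp [mY, mz]

variable [Fintype W] [DecidableEq W]

/-- The forward coordinate change. -/
def fw (h : (W → ℝ) → (W → ℝ) × (Fin 6 → ℝ)) (p : LV W → ℝ) :
    ((W → ℝ) × (W → ℝ)) × (MV → ℝ) :=
  (((h fun w => p (Sum.inl w)).1, (h fun w => p (Sum.inr (Sum.inl w))).1),
    Sum.elim (h fun w => p (Sum.inl w)).2
      (Sum.elim (h fun w => p (Sum.inr (Sum.inl w))).2 fun s => p (Sum.inr (Sum.inr s))))

/-- The backward coordinate change. -/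
def bw (g : (W → ℝ) × (Fin 6 → ℝ) → (W → ℝ)) (q : ((W → ℝ) × (W → ℝ)) × (MV → ℝ)) :
    LV W → ℝ :=
  Sum.elim (g (q.1.1, fun i => q.2 (Sum.inl i)))
    (Sum.elim (g (q.1.2, fun i => q.2 (Sum.inr (Sum.inl i)))) fun s => q.2 (Sum.inr (Sum.inr s)))

omit [DecidableEq W] in
theorem supp_l (p : LV W → ℝ) : supp (fun w => p (Sum.inl w)) = (supp p).toLeft := by
  ext; simp

omit [DecidableEq W] in
theorem supp_r (p : LV W → ℝ) :
    supp (fun w => p (Sum.inr (Sum.inl w))) = (supp p).toRight.toLeft := by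
  ext; simp

theorem supp_mX (q : MV → ℝ) : supp (fun i => q (Sum.inl i)) = mX (supp q) := by
  ext; simp [mX]

theorem supp_mY (q : MV → ℝ) : supp (fun i => q (Sum.inr (Sum.inl i))) = mY (supp q) := by
  ext; simp [mY]

omit [Fintype W] [DecidableEq W] in
theorem Loc_down {B : Set (Finset W)} {t : Finset W → Finset (Fin 6)} (hB : Down B)
    (ht : ∀ F ∈ B, ∀ G ⊆ F, t G ⊆ t F) {K : Set (Finset MV)} (hK : Down K) :
    Down (Loc B t K) := fun F hF G hG => by
  have a : G.toLeft ⊆ F.toLeft := Finset.toLeft_subset_toLeft hG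
  have b : G.toRight.toLeft ⊆ F.toRight.toLeft :=
    Finset.toLeft_subset_toLeft (Finset.toRight_subset_toRight hG)
  exact ⟨hB _ hF.1 _ a, hB _ hF.2.1 _ b, hK _ hF.2.2 _ (Finset.disjSum_mono (ht _ hF.1 _ a)
    (Finset.disjSum_mono (ht _ hF.2.1 _ b)
      (Finset.toRight_subset_toRight (Finset.toRight_subset_toRight hG))))⟩

omit [DecidableEq W] in
theorem loc_hh {B B' : Set (Finset W)} {t : Finset W → Finset (Fin 6)} (hB : Down B)
    (ht : ∀ F ∈ B, ∀ G ⊆ F, t G ⊆ t F) {h : (W → ℝ) → (W → ℝ) × (Fin 6 → ℝ)}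
    {g : (W → ℝ) × (Fin 6 → ℝ) → (W → ℝ)} (hh : HH h g (Cn B) (Cn B' ×ˢ Cn C6))
    (hs : ∀ p ∈ Cn B, supp (h p).2 = t (supp p)) {K : Set (Finset MV)} (hK : Down K)
    (hC : ∀ T ∈ K, mX T ∈ C6 ∧ mY T ∈ C6) :
    HH (fw h) (bw g) (Cn (Loc B t K)) ((Cn B' ×ˢ Cn B') ×ˢ Cn K) ∧
      ∀ p ∈ Cn (Loc B t K), supp (fw h p).2 = md t (supp p) := by
  have l1 : ∀ p : LV W → ℝ, (∀ v, 0 ≤ p v) → (supp p).toLeft ∈ B →
      (fun w => p (Sum.inl w)) ∈ Cn B := fun p a b => ⟨fun _ => a _, by rwa [supp_l]⟩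
  have l2 : ∀ p : LV W → ℝ, (∀ v, 0 ≤ p v) → (supp p).toRight.toLeft ∈ B →
      (fun w => p (Sum.inr (Sum.inl w))) ∈ Cn B := fun p a b => ⟨fun _ => a _, by rwa [supp_r]⟩
  have key : ∀ p : LV W → ℝ, (fun w => p (Sum.inl w)) ∈ Cn B →
      (fun w => p (Sum.inr (Sum.inl w))) ∈ Cn B → supp (fw h p).2 = md t (supp p) :=
    fun p a b => by
      have a' := hs _ a
      have b' := hs _ b
      rw [supp_l] at a'
      rw [supp_r] at b'
      ext v
      rcases v with v | v | v
      · simp [fw, md, ← a']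
      · simp [fw, md, ← b']
      · simp [fw, md]
  have m1 : ∀ q ∈ (Cn B' ×ˢ Cn B') ×ˢ Cn K, (q.1.1, fun i => q.2 (Sum.inl i)) ∈ Cn B' ×ˢ Cn C6 :=
    fun q hq => ⟨hq.1.1, fun _ => hq.2.1 _, by rw [supp_mX]; exact (hC _ hq.2.2).1⟩
  have m2 : ∀ q ∈ (Cn B' ×ˢ Cn B') ×ˢ Cn K,
      (q.1.2, fun i => q.2 (Sum.inr (Sum.inl i))) ∈ Cn B' ×ˢ Cn C6 :=
    fun q hq => ⟨hq.1.2, fun _ => hq.2.1 _, by rw [supp_mY]; exact (hC _ hq.2.2).2⟩
  have fg : ∀ q ∈ (Cn B' ×ˢ Cn B') ×ˢ Cn K, fw h (bw g q) = q := fun q hq => by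
    have a := hh.fg _ (m1 q hq)
    have b := hh.fg _ (m2 q hq)
    simp only [fw, bw, Sum.elim_inl, Sum.elim_inr]
    rw [a, b]
    refine Prod.ext rfl (funext fun v => ?_)
    rcases v with v | v | v <;> rfl
  have c1 : ContinuousOn (fun p : LV W → ℝ => h fun w => p (Sum.inl w)) (Cn (Loc B t K)) :=
    hh.cf.comp (by fun_prop) fun p hp => l1 p hp.1 hp.2.1
  have c2 : ContinuousOn (fun p : LV W → ℝ => h fun w => p (Sum.inr (Sum.inl w)))
      (Cn (Loc B t K)) := hh.cf.comp (by fun_prop) fun p hp => l2 p hp.1 hp.2.2.1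
  have d1 : ContinuousOn (fun q : ((W → ℝ) × (W → ℝ)) × (MV → ℝ) =>
      g (q.1.1, fun i => q.2 (Sum.inl i))) ((Cn B' ×ˢ Cn B') ×ˢ Cn K) :=
    hh.cg.comp (by fun_prop) m1
  have d2 : ContinuousOn (fun q : ((W → ℝ) × (W → ℝ)) × (MV → ℝ) =>
      g (q.1.2, fun i => q.2 (Sum.inr (Sum.inl i)))) ((Cn B' ×ˢ Cn B') ×ˢ Cn K) :=
    hh.cg.comp (by fun_prop) m2
  refine ⟨⟨?_, ?_, fun p hp => ?_, fun q hq => ?_, fun p hp => ?_, fg,
    (Loc_down hB ht hK).smul, fun p hp s hs => ?_⟩,
    fun p hp => key p (l1 p hp.1 hp.2.1) (l2 p hp.1 hp.2.2.1)⟩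
  · refine (c1.fst.prodMk c2.fst).prodMk (continuousOn_pi.2 fun v => ?_)
    rcases v with v | v | v
    · exact (continuous_apply v).comp_continuousOn c1.snd
    · exact (continuous_apply v).comp_continuousOn c2.snd
    · exact (continuous_apply _).continuousOn
  · refine continuousOn_pi.2 fun v => ?_
    rcases v with v | v | v
    · exact (continuous_apply v).comp_continuousOn d1
    · exact (continuous_apply v).comp_continuousOn d2
    · exact ((continuous_apply _).comp continuous_snd).continuousOn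
  · have a := hh.mf (l1 p hp.1 hp.2.1)
    have b := hh.mf (l2 p hp.1 hp.2.2.1)
    refine ⟨⟨a.1, b.1⟩, fun v => ?_, ?_⟩
    · rcases v with v | v | v
      exacts [a.2.1 v, b.2.1 v, hp.1 _]
    · rw [key p (l1 p hp.1 hp.2.1) (l2 p hp.1 hp.2.2.1)]; exact hp.2.2.2
  · have a := hh.mg (m1 q hq)
    have b := hh.mg (m2 q hq)
    refine ⟨fun v => ?_, ?_, ?_, ?_⟩
    · rcases v with v | v | v
      exacts [a.1 v, b.1 v, hq.2.1 _]
    · rw [← supp_l]; exact a.2
    · rw [← supp_r]; exact b.2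
    · rw [← key _ a b, fg q hq]; exact hq.2.2
  · have a := hh.gf _ (l1 p hp.1 hp.2.1)
    have b := hh.gf _ (l2 p hp.1 hp.2.2.1)
    funext v
    rcases v with v | v | v
    exacts [congrFun a v, congrFun b v, rfl]
  · have a := hh.hf _ (l1 p hp.1 hp.2.1) s hs
    have b := hh.hf _ (l2 p hp.1 hp.2.2.1) s hs
    have a' : (h fun w => (s • p) (Sum.inl w)) = s • h fun w => p (Sum.inl w) := a
    have b' : (h fun w => (s • p) (Sum.inr (Sum.inl w))) = s • h fun w => p (Sum.inr (Sum.inl w)) :=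
      b
    simp only [fw]
    rw [a', b']
    refine Prod.ext rfl (funext fun v => ?_)
    rcases v with v | v | v <;> rfl

omit [DecidableEq W] in
theorem loc_ri {B B' : Set (Finset W)} {t : Finset W → Finset (Fin 6)} (hB : Down B)
    (hB' : Down B') (ht : ∀ F ∈ B, ∀ G ⊆ F, t G ⊆ t F) {h : (W → ℝ) → (W → ℝ) × (Fin 6 → ℝ)}
    {g : (W → ℝ) × (Fin 6 → ℝ) → (W → ℝ)} (hh : HH h g (Cn B) (Cn B' ×ˢ Cn C6))
    (hs : ∀ p ∈ Cn B, supp (h p).2 = t (supp p)) {K K' Γ : Set (Finset MV)} (hK : Down K)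
    (hK' : Down K') (hC : ∀ T ∈ K, mX T ∈ C6 ∧ mY T ∈ C6) (hC' : ∀ T ∈ K', mX T ∈ C6 ∧ mY T ∈ C6)
    (r : RI K K' Γ) : RI (Loc B t K) (Loc B t K') {F | md t F ∈ Γ} := by
  obtain ⟨a, a'⟩ := loc_hh hB ht hh hs hK hC
  obtain ⟨b, -⟩ := loc_hh hB ht hh hs hK' hC'
  obtain ⟨f, f', r, hf⟩ := r
  refine ⟨_, _, (a.trans (((HH.refl hB'.smul).prod (HH.refl hB'.smul)).prod r)).trans b.symm,
    fun p hp hs => ?_⟩
  have := hf _ (a.mf hp).2 (by rw [a' p hp]; exact hs)
  show bw g (((fw h p).1.1, (fw h p).1.2), f (fw h p).2) = p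
  rw [this]
  exact a.gf p hp

omit [Fintype W] in
theorem Loc_cone (B : Set (Finset W)) (t : Finset W → Finset (Fin 6)) (K : Set (Finset MV)) :
    cone lz (Loc B t K) = Loc B t (cone mz K) := by
  ext F
  have a : (F.erase lz).toLeft = F.toLeft := by ext; simp [lz]
  have b : (F.erase lz).toRight.toLeft = F.toRight.toLeft := by ext; simp [lz]
  have c : md t (F.erase lz) = (md t F).erase mz := by
    ext v
    rcases v with v | v | v
    · simp [md, a, mz]
    · simp [md, b, mz]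
    · simp [md, mz, lz]
  simp only [cone, Loc, mem_ofPred_eq, a, b, c]

omit [Fintype W] [DecidableEq W] in
theorem card_md (t : Finset W → Finset (Fin 6)) (F : Finset (LV W)) {c : ℕ}
    (h1 : F.toLeft.card ≤ c + (t F.toLeft).card)
    (h2 : F.toRight.toLeft.card ≤ c + (t F.toRight.toLeft).card) :
    F.card ≤ 2 * c + (md t F).card := by
  have a := Finset.card_toLeft_add_card_toRight (u := F)
  have b := Finset.card_toLeft_add_card_toRight (u := F.toRight)
  simp only [md, Finset.card_disjSum]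
  omega

theorem BD.tC6 {K M : ℕ} {A : ℕ → Set (Finset W)} {τ : ℕ → Finset W → Finset (Fin 6)}
    {pos : ℕ → Finset W → ℤ} (bd : BD K M A τ pos) {j : ℕ} (hj : j < K) {F : Finset W}
    (hF : F ∈ A (j + 1)) : τ j F ∈ C6 := by
  obtain ⟨h, g, hh, hs⟩ := bd.iso j hj
  have := (hh.mf (ind_mem hF)).2.2
  rwa [hs _ (ind_mem hF), supp_ind] at this

theorem BD.locG0 {K M : ℕ} {A : ℕ → Set (Finset W)} {τ : ℕ → Finset W → Finset (Fin 6)}
    {pos : ℕ → Finset W → ℤ} (bd : BD K M A τ pos) {j : ℕ} (hj : j < K) :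
    Loc (A (j + 1)) (τ j) G0 = LS (A (j + 1)) (A j) true false := by
  ext F
  simp only [Loc, G0, LS, Tri, mem_ofPred_eq, mX_md, mY_md, mC_md, mD_md, mz_md]
  constructor
  · rintro ⟨a, b, -, c, d, e, f⟩
    exact ⟨a, (bd.tempty j hj _ b).1 c, ⟨d, by simp⟩, ⟨by rw [e]; decide, fun _ => e⟩, f⟩
  · rintro ⟨a, b, c, d, e⟩
    exact ⟨a, bd.mono j b, bd.tC6 hj a, (bd.tempty j hj _ (bd.mono j b)).2 b, c.1, d.2 trivial, e⟩

theorem BD.locG1 {K M : ℕ} {A : ℕ → Set (Finset W)} {τ : ℕ → Finset W → Finset (Fin 6)}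
    {pos : ℕ → Finset W → ℤ} (bd : BD K M A τ pos) {j : ℕ} (hj : j < K) :
    Loc (A (j + 1)) (τ j) G1 = LS (A j) (A (j + 1)) false true := by
  ext F
  simp only [Loc, G1, LS, Tri, mem_ofPred_eq, mX_md, mY_md, mC_md, mD_md, mz_md]
  constructor
  · rintro ⟨a, b, c, -, d, e, f⟩
    exact ⟨(bd.tempty j hj _ a).1 c, b, ⟨by rw [d]; decide, fun _ => d⟩, ⟨e, by simp⟩, f⟩
  · rintro ⟨a, b, c, d, e⟩
    exact ⟨bd.mono j a, b, (bd.tempty j hj _ (bd.mono j a)).2 a, bd.tC6 hj b, c.2 trivial, d.1, e⟩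

theorem clamp_lip {a b c L : ℤ} (hc : 0 < c) (h : b ≤ a + c) :
    max 0 (min L (b / c)) ≤ max 0 (min L (a / c)) + 1 := by
  have h1 := Int.ediv_le_ediv hc h
  have h2 : (a + c) / c = a / c + 1 := by
    have := Int.add_mul_ediv_right a 1 hc.ne'
    rwa [one_mul] at this
  omega

theorem BD.cob (hM : ModelStmt) {K M : ℕ} {A : ℕ → Set (Finset W)}
    {τ : ℕ → Finset W → Finset (Fin 6)} {pos : ℕ → Finset W → ℤ} (bd : BD K M A τ pos) {j : ℕ}
    (hj : j < K) {L : ℤ} (h0 : 0 ≤ L) (hL : 4 * ((j : ℤ) + 1) * L + 3 * (j + 1) ≤ M) :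
    ∃ R, R ⊆ LS (A (j + 1)) (A (j + 1)) true true ∧
      Cob lz (LS (A (j + 1)) (A j) true false) (LS (A j) (A (j + 1)) false true) R
        (4 * j + 5) L := by
  obtain ⟨R, dR, hR, ri, hP⟩ := hM
  obtain ⟨h, g, hh, hs⟩ := bd.iso j hj
  have dn : ∀ {K : Set (Finset MV)}, Down K → Down (Loc (A (j + 1)) (τ j) K) :=
    fun hK => Loc_down (bd.down _) (bd.tmono j hj) hK
  have cd : ∀ {K : Set (Finset MV)}, ∀ F ∈ Loc (A (j + 1)) (τ j) K,
      F.card ≤ 4 * j + (md (τ j) F).card := fun F hF => by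
    have := card_md (τ j) F (bd.card j hj _ hF.1) (bd.card j hj _ hF.2.1)
    omega
  have mm : ∀ {K : Set (Finset MV)}, ∀ F ∈ Loc (A (j + 1)) (τ j) K, ∀ G ⊆ F,
      md (τ j) G ⊆ md (τ j) F := fun F hF G hG =>
    (Loc_down (K := {T | T ⊆ md (τ j) F}) (bd.down _) (bd.tmono j hj)
      (fun _ a _ b => b.trans a) F ⟨hF.1, hF.2.1, Finset.Subset.refl _⟩ G hG).2.2
  rw [← bd.locG0 hj, ← bd.locG1 hj]
  refine ⟨Loc (A (j + 1)) (τ j) R, fun F hF => ?_, dn down_G0, dn down_G1, dn dR,
    fun F hF => ?_, ?_, ?_⟩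
  · have := hR _ hF.2.2
    simp only [mX_md, mY_md, mC_md, mD_md, mz_md] at this
    exact ⟨hF.1, hF.2.1, ⟨this.2.2.1, by simp⟩, ⟨this.2.2.2.1, by simp⟩, this.2.2.2.2.1⟩
  · have := cd F hF
    have := (hR _ hF.2.2).2.2.2.2.2
    omega
  · have := loc_ri (bd.down _) (bd.down _) (bd.tmono j hj) hh hs (down_G0.cone mz)
      (dR.union (down_G1.cone mz))
      (fun T hT => by
        have a : T.erase mz ∈ G0 := hT
        have b := a.1
        have c := a.2.1
        rw [mX_erase] at b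
        rw [mY_erase] at c
        exact ⟨b, c ▸ empty_C6⟩)
      (fun T hT => by
        rcases hT with a | a
        · exact ⟨(hR T a).1, (hR T a).2.1⟩
        · have a' : T.erase mz ∈ G1 := a
          have b := a'.1
          have c := a'.2.1
          rw [mX_erase] at b
          rw [mY_erase] at c
          exact ⟨b ▸ empty_C6, c⟩) ri
    rw [Loc_cone, Loc_cone]
    convert this using 1
    · ext F; simp only [Loc, mem_union, mem_ofPred_eq]; tauto
    · ext F; simp
  have c5 : ∀ F ∈ Loc (A (j + 1)) (τ j) R, F.card = 4 * j + 5 → (md (τ j) F).card = 5 :=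
    fun F hF a => by
      have := cd F hF
      have := (hR _ hF.2.2).2.2.2.2.2
      omega
  have c4 : ∀ F ∈ Loc (A (j + 1)) (τ j) R, ∀ G ⊆ F, 4 * j + 5 ≤ G.card + 1 →
      4 ≤ (md (τ j) G).card := fun F hF G hG a => by
    have := cd G (dn dR F hF G hG)
    omega
  have nA : ∀ F ∈ A (j + 1), τ j F ≠ ∅ → F ∉ A j := fun F hF a b => a ((bd.tempty j hj F hF).2 b)
  have pole : ∀ F ∈ A (j + 1), τ j F = {2} ∨ τ j F = {5} →
      -((j : ℤ) + 1) ≤ pos j F ∧ pos j F ≤ j + 1 := fun F hF a => by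
    have n : F ∉ A j := nA F hF (by rcases a with a | a <;> rw [a] <;> decide)
    exact ⟨bd.vp j hj F hF n (by rcases a with a | a <;> rw [a] <;> decide),
      bd.vn j hj F hF n (by rcases a with a | a <;> rw [a] <;> decide)⟩
  let ψ : Finset (LV W) → ℤ := fun F =>
    min (M - pos j F.toRight.toLeft + max (-pos j F.toLeft) 0)
      (M + pos j F.toRight.toLeft + max (pos j F.toLeft) 0) - 2 * (j + 1)
  have hc : (0 : ℤ) < 4 * (j + 1) := by omega
  have lo : ∀ F ∈ Loc (A (j + 1)) (τ j) R, F.card = 4 * j + 5 → ∀ G ⊆ F, md (τ j) G ∈ G0 →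
      4 * j + 5 ≤ G.card + 1 → max 0 (min L (ψ F / (4 * (j + 1)))) ≤ 0 :=
    fun F hF a G hG hS b => by
      obtain ⟨x0, y0, H⟩ := hP _ hF.2.2 (c5 F hF a)
      have H' := (H _ (mm F hF G hG) (c4 F hF G hG b)).2.2.1 hS
      simp only [mX_md, mY_md] at x0 y0 H'
      have : ψ F ≤ 0 := by
        rcases H' with ⟨u, v⟩ | ⟨u, v⟩
        · have := bd.vp j hj _ hF.1 (nA _ hF.1 x0) u
          have := bd.v01 j hj _ hF.2.1 v
          simp only [ψ]; omega
        · have := bd.vn j hj _ hF.1 (nA _ hF.1 x0) u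
          have := bd.v34 j hj _ hF.2.1 v
          simp only [ψ]; omega
      have := Int.ediv_le_ediv hc this
      rw [Int.zero_ediv] at this
      omega
  have hi : ∀ F ∈ Loc (A (j + 1)) (τ j) R, F.card = 4 * j + 5 → ∀ G ⊆ F, md (τ j) G ∈ G1 →
      4 * j + 5 ≤ G.card + 1 → L ≤ max 0 (min L (ψ F / (4 * (j + 1)))) :=
    fun F hF a G hG hS b => by
      obtain ⟨x0, y0, H⟩ := hP _ hF.2.2 (c5 F hF a)
      have H' := (H _ (mm F hF G hG) (c4 F hF G hG b)).2.2.2 hS
      simp only [mX_md, mY_md] at x0 y0 H'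
      have b1 := bd.bnd j F.toLeft
      have b2 := bd.bnd j F.toRight.toLeft
      have : (M : ℤ) - 3 * (j + 1) ≤ ψ F := by
        rcases H' with ⟨u, v⟩ | ⟨u, v⟩
        · have := bd.vp j hj _ hF.2.1 (nA _ hF.2.1 y0) u
          have := bd.v34 j hj _ hF.1 v
          simp only [ψ]; omega
        · have := bd.vn j hj _ hF.2.1 (nA _ hF.2.1 y0) u
          have := bd.v01 j hj _ hF.1 v
          simp only [ψ]; omega
      have : L ≤ ψ F / (4 * (j + 1)) := Int.le_ediv_of_mul_le hc (by linarith)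
      omega
  refine ⟨fun F => max 0 (min L (ψ F / (4 * (j + 1)))), fun F => ⟨le_max_left _ _, max_le h0 (min_le_left _ _)⟩,
    fun F hF G hG a b ab => ?_, fun F hF a G hG hS b => lo F hF a G hG hS.2.2 b,
    fun F hF a G hG hS b => hi F hF a G hG hS.2.2 b⟩
  have iF : F ∩ G ⊆ F := Finset.inter_subset_left
  have iG : F ∩ G ⊆ G := Finset.inter_subset_right
  by_cases g0 : md (τ j) (F ∩ G) ∈ G0
  · exact (lo G hG b _ iG g0 ab.ge).trans ((le_max_left _ _).trans (le_add_of_nonneg_right zero_le_one))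
  by_cases g1 : md (τ j) (F ∩ G) ∈ G1
  · exact (max_le h0 (min_le_left _ _)).trans
      ((hi F hF a _ iF g1 ab.ge).trans (le_add_of_nonneg_right zero_le_one))
  have HF := (hP _ hF.2.2 (c5 F hF a)).2.2 _ (mm F hF _ iF) (c4 F hF _ iF ab.ge)
  have HG := (hP _ hG.2.2 (c5 G hG b)).2.2 _ (mm G hG _ iG) (c4 G hG _ iG ab.ge)
  have hE := dn dR F hF _ iF
  simp only [mX_md, mY_md, g0, g1, false_or] at HF HG
  have lip : ∀ X ∈ A (j + 1), ∀ Y ∈ A (j + 1), (τ j (X ∩ Y) = ∅ → τ j X = {2} ∨ τ j X = {5}) →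
      (τ j (X ∩ Y) = ∅ → τ j Y = {2} ∨ τ j Y = {5}) →
      pos j Y ≤ pos j X + 2 * (j + 1) ∧ pos j X ≤ pos j Y + 2 * (j + 1) := fun X hX Y hY u v => by
    by_cases w : X ∩ Y ∈ A j
    · have e := (bd.tempty j hj _ (bd.mono j w)).2 w
      have := pole X hX (u e)
      have := pole Y hY (v e)
      omega
    · exact ⟨bd.lip j hj X hX Y hY w, bd.lip j hj Y hY X hX (by rwa [Finset.inter_comm])⟩
  have e1 : (F ∩ G).toLeft = F.toLeft ∩ G.toLeft := by ext; simp
  have e2 : (F ∩ G).toRight.toLeft = F.toRight.toLeft ∩ G.toRight.toLeft := by ext; simp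
  rw [e1, e2] at HF HG
  have l1 := lip _ hF.1 _ hG.1 HF.1 HG.1
  have l2 := lip _ hF.2.1 _ hG.2.1 HF.2.1 HG.2.1
  exact clamp_lip hc (by simp only [ψ]; omega)

end Pool.Agent.MP_6a6613_co

end

section

/-! The chain of regions. -/

namespace Pool.Agent.MP_6a6613_co

open Set

/-- Changing a function at two points. -/
def up2 {α β : Type} [DecidableEq α] (u v : α) (f : α → β) (x y : β) : α → β :=
  fun i => if i = u then x else if i = v then y else f i

theorem forall_up2 {α β : Type} [DecidableEq α] {u v : α} (h : u ≠ v) (f : α → β) (x y : β)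
    (P : α → β → Prop) :
    (∀ i, P i (up2 u v f x y i)) ↔ P u x ∧ P v y ∧ ∀ i, i ≠ u → i ≠ v → P i (f i) := by
  constructor
  · intro H
    exact ⟨by simpa [up2] using H u, by simpa [up2, h.symm] using H v,
      fun i a b => by simpa [up2, a, b] using H i⟩
  · rintro ⟨a, b, c⟩ i
    unfold up2
    split_ifs with d e
    exacts [d ▸ a, e ▸ b, c i d e]

theorem up2_self {α β : Type} [DecidableEq α] {u v : α} {f : α → β} {x y : β} (a : f u = x)
    (b : f v = y) : up2 u v f x y = f := by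
  funext i
  unfold up2
  split_ifs with d e
  exacts [d ▸ a.symm, e ▸ b.symm, rfl]

theorem sum_up2 {α β : Type} [Fintype α] [DecidableEq α] {u v : α} (h : u ≠ v) (f : α → β)
    (g : β → ℕ) : ∃ c, ∀ x y, ∑ i, g (up2 u v f x y i) = g x + g y + c := by
  refine ⟨∑ i ∈ (Finset.univ.erase u).erase v, g (f i), fun x y => ?_⟩
  rw [← Finset.add_sum_erase _ _ (Finset.mem_univ u), ← Finset.add_sum_erase _ _
    (Finset.mem_erase.2 ⟨h.symm, Finset.mem_univ v⟩), add_assoc]
  congr 1
  · simp [up2]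
  congr 1
  · simp [up2, h.symm]
  · refine Finset.sum_congr rfl fun i hi => ?_
    simp only [Finset.mem_erase] at hi
    simp [up2, hi.1, hi.2.1]

theorem card_fib {ι W : Type} [Fintype ι] [Fintype W] [DecidableEq ι] [DecidableEq W]
    (F : Finset (ι × W)) : F.card = ∑ i, (pre (fun w => (i, w)) F).card := by
  rw [Finset.card_eq_sum_card_fiberwise (f := Prod.fst) (t := Finset.univ) fun _ _ => by simp]
  refine Finset.sum_congr rfl fun i _ => ?_
  rw [← Finset.card_image_of_injective (pre (fun w => (i, w)) F) (f := fun w => (i, w))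
    fun a b h => by simpa using h]
  congr 1
  ext ⟨k, w⟩
  simp only [Finset.mem_filter, Finset.mem_image, mem_pre, Prod.mk.injEq]
  constructor
  · rintro ⟨a, rfl⟩
    exact ⟨w, a, rfl, rfl⟩
  · rintro ⟨w, a, rfl, rfl⟩
    exact ⟨a, rfl⟩

/-- The global vertex set. -/
abbrev GV (ι κ W : Type) : Type := ((ι × Bool) × W) ⊕ ((κ × Bool) × Fin 3) ⊕ Bool

variable {ι κ W : Type} [Fintype ι] [Fintype κ] [Fintype W] [DecidableEq ι] [DecidableEq κ]
  [DecidableEq W]

/-- The first apex. -/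
def zt : GV ι κ W := Sum.inr (Sum.inr false)

/-- The second apex. -/
def zb : GV ι κ W := Sum.inr (Sum.inr true)

/-- The part of a face in a long structure. -/
def fib (i : ι × Bool) (F : Finset (GV ι κ W)) : Finset W := pre (fun w => Sum.inl (i, w)) F

/-- The part of a face in a triangle. -/
def tri (q : κ × Bool) (F : Finset (GV ι κ W)) : Finset (Fin 3) :=
  pre (fun c => Sum.inr (Sum.inl (q, c))) F

/-- The join spheres. -/
def Sig (A : ℕ → Set (Finset W)) (l : ι × Bool → ℕ) (act : κ × Bool → Bool) :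
    Set (Finset (GV ι κ W)) :=
  {F | (∀ i, fib i F ∈ A (l i)) ∧ (∀ q, tri q F ∈ Tri (act q)) ∧ zt ∉ F ∧ zb ∉ F}

/-- The size of the facets of the join spheres. -/
def dimf (l : ι × Bool → ℕ) (act : κ × Bool → Bool) : ℕ :=
  ∑ i, 2 * l i + ∑ q, if act q then 2 else 0

/-- The embedding of the local region. -/
def emb (a b : ι) (p : κ) : LV W → GV ι κ W :=
  Sum.elim (fun w => Sum.inl ((a, false), w)) (Sum.elim (fun w => Sum.inl ((b, true), w))
    (Sum.elim (fun c => Sum.inr (Sum.inl ((p, false), c)))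
      (Sum.elim (fun c => Sum.inr (Sum.inl ((p, true), c))) fun _ => zb)))

omit [Fintype ι] [Fintype κ] [Fintype W] [DecidableEq ι] [DecidableEq κ] [DecidableEq W] in
theorem emb_inj (a b : ι) (p : κ) : Function.Injective (emb (W := W) a b p) := by
  rintro (x | x | x | x | x) (y | y | y | y | y) h <;> simp_all [emb, zb]

theorem down_Tri (b : Bool) : Down (Tri b) := fun _ hF _ hG =>
  ⟨ne_univ_of_sub hG hF.1, fun h => Finset.subset_empty.1 (hF.2 h ▸ hG)⟩

omit [Fintype ι] [Fintype κ] in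
theorem down_Sig {A : ℕ → Set (Finset W)} (hA : ∀ j, Down (A j)) (l : ι × Bool → ℕ)
    (act : κ × Bool → Bool) : Down (Sig A l act) := fun _ hF _ hG =>
  ⟨fun i => hA _ _ (hF.1 i) _ (pre_mono _ hG), fun q => down_Tri _ _ (hF.2.1 q) _ (pre_mono _ hG),
    fun h => hF.2.2.1 (hG h), fun h => hF.2.2.2 (hG h)⟩

theorem empty_Tri (b : Bool) : ∅ ∈ Tri b := ⟨by decide, fun _ => rfl⟩

omit [Fintype ι] [Fintype κ] in
theorem lift_LS {A : ℕ → Set (Finset W)} (h0 : ∅ ∈ A 0) (a b : ι) (p : κ) (l : ι × Bool → ℕ)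
    (act : κ × Bool → Bool) (x y : ℕ) (c d : Bool) :
    lift (emb a b p) (Sig A (up2 (a, false) (b, true) l 0 0)
      (up2 (p, false) (p, true) act false false)) (LS (A x) (A y) c d) =
      Sig A (up2 (a, false) (b, true) l x y) (up2 (p, false) (p, true) act c d) := by
  ext F
  have e1 : (pre (emb a b p) F).toLeft = fib (a, false) F := by ext; simp [emb, fib]
  have e2 : (pre (emb a b p) F).toRight.toLeft = fib (b, true) F := by ext; simp [emb, fib]
  have e3 : (pre (emb a b p) F).toRight.toRight.toLeft = tri (p, false) F := by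
    ext; simp [emb, tri]
  have e4 : (pre (emb a b p) F).toRight.toRight.toRight.toLeft = tri (p, true) F := by
    ext; simp [emb, tri]
  have e5 : lz ∈ pre (emb a b p) F ↔ zb ∈ F := by simp [emb, lz]
  have r1 : fib (a, false) (rest (emb a b p) F) = ∅ := by ext; simp [emb, fib]
  have r2 : fib (b, true) (rest (emb a b p) F) = ∅ := by ext; simp [emb, fib]
  have r3 : tri (p, false) (rest (emb a b p) F) = ∅ := by ext; simp [emb, tri]
  have r4 : tri (p, true) (rest (emb a b p) F) = ∅ := by ext; simp [emb, tri]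
  have r5 : ∀ i, i ≠ (a, false) → i ≠ (b, true) → fib i (rest (emb a b p) F) = fib i F :=
    fun i u v => by ext; simp [emb, fib, zb, u.symm, v.symm]
  have r6 : ∀ i, i ≠ (p, false) → i ≠ (p, true) → tri i (rest (emb a b p) F) = tri i F :=
    fun i u v => by ext; simp [emb, tri, zb, u.symm, v.symm]
  have r7 : zt ∈ rest (emb a b p) F ↔ zt ∈ F := by simp [emb, zt, zb]
  have r8 : zb ∉ rest (emb a b p) F := by simp [emb, zb]
  have n1 : (a, false) ≠ (b, true) := by simp
  have n2 : (p, false) ≠ (p, true) := by simp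
  simp only [lift, LS, Sig, mem_ofPred_eq, e1, e2, e3, e4, e5, r7]
  rw [forall_up2 n1 l 0 0 fun i j => fib i (rest (emb a b p) F) ∈ A j,
    forall_up2 n1 l x y fun i j => fib i F ∈ A j,
    forall_up2 n2 act false false fun i j => tri i (rest (emb a b p) F) ∈ Tri j,
    forall_up2 n2 act c d fun i j => tri i F ∈ Tri j, r1, r2, r3, r4]
  constructor
  · rintro ⟨⟨a1, a2, a3, a4, a5⟩, ⟨-, -, b1⟩, ⟨-, -, b2⟩, b3, -⟩
    exact ⟨⟨a1, a2, fun i u v => r5 i u v ▸ b1 i u v⟩, ⟨a3, a4, fun i u v => r6 i u v ▸ b2 i u v⟩,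
      b3, a5⟩
  · rintro ⟨⟨a1, a2, b1⟩, ⟨a3, a4, b2⟩, b3, a5⟩
    exact ⟨⟨a1, a2, a3, a4, a5⟩, ⟨h0, h0, fun i u v => (r5 i u v).symm ▸ b1 i u v⟩,
      ⟨empty_Tri _, empty_Tri _, fun i u v => (r6 i u v).symm ▸ b2 i u v⟩, b3, r8⟩

theorem card_Tri {b : Bool} {G : Finset (Fin 3)} (h : G ∈ Tri b) :
    G.card ≤ if b then 2 else 0 := by
  cases b
  · simp [h.2 rfl]
  · have := Finset.card_lt_card (Finset.ssubset_univ_iff.2 h.1)
    simp only [Finset.card_univ, Fintype.card_fin] at this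
    simp only [if_true]
    omega

theorem card_Sig {A : ℕ → Set (Finset W)} {l : ι × Bool → ℕ} {act : κ × Bool → Bool}
    (hA : ∀ i, ∀ G ∈ A (l i), G.card ≤ 2 * l i) {F : Finset (GV ι κ W)} (hF : F ∈ Sig A l act) :
    F.card ≤ dimf l act := by
  have a := Finset.card_toLeft_add_card_toRight (u := F)
  have b := Finset.card_toLeft_add_card_toRight (u := F.toRight)
  have c : F.toRight.toRight = ∅ := by
    ext v
    have u := hF.2.2.1
    have w := hF.2.2.2
    cases v
    · simpa [zt] using u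
    · simpa [zb] using w
  have d : F.toLeft.card ≤ ∑ i, 2 * l i := by
    rw [card_fib]
    refine Finset.sum_le_sum fun i _ => hA i _ ?_
    convert hF.1 i using 1
    ext; simp [fib]
  have e : F.toRight.toLeft.card ≤ ∑ q, if act q then 2 else 0 := by
    rw [card_fib]
    refine Finset.sum_le_sum fun i _ => card_Tri ?_
    convert hF.2.1 i using 1
    ext; simp [tri]
  rw [c, Finset.card_empty] at b
  unfold dimf
  omega

variable {K M : ℕ} {A : ℕ → Set (Finset W)} {τ : ℕ → Finset W → Finset (Fin 6)}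
  {pos : ℕ → Finset W → ℤ}

theorem BD.card_le (bd : BD K M A τ pos) {j : ℕ} (hj : j ≤ K) : ∀ G ∈ A j, G.card ≤ 2 * j := by
  intro G hG
  rcases j with _ | j
  · rw [bd.zero] at hG
    simp [mem_singleton_iff.1 hG]
  · have a := bd.card j hj G hG
    obtain ⟨k, hk⟩ := bd.tC6 hj hG
    have b := (Finset.card_le_card hk).trans (Finset.card_le_two)
    omega

theorem BD.empty (bd : BD K M A τ pos) (j : ℕ) : ∅ ∈ A j := by
  induction j with
  | zero => rw [bd.zero]; rfl
  | succ j ih => exact bd.mono j ih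

theorem BD.sph (hS : SphStmt) (bd : BD K M A τ pos) (j : ℕ) (hj : j ≤ K) : Sph (A j) (2 * j) := by
  induction j with
  | zero => rw [bd.zero]; exact hS.2.2.1 W
  | succ j ih =>
    obtain ⟨h, g, hh, -⟩ := bd.iso j hj
    exact hS.2.2.2.2 W _ _ _ h g hh (ih (by omega))

theorem sph_Tri (hS : SphStmt) (b : Bool) : Sph (Tri b) (if b then 2 else 0) := by
  cases b
  · have : Tri false = {∅} := by
      ext G
      exact ⟨fun h => h.2 rfl, fun h => (mem_singleton_iff.1 h).symm ▸ empty_Tri _⟩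
    rw [this]; exact hS.2.2.1 _
  · have : Tri true = {G | G ≠ Finset.univ} := by ext G; simp [Tri]
    rw [this]; exact hS.2.2.2.1 _ 2 (by simp)

/-- The states of the construction. -/
def Good (A : ℕ → Set (Finset W)) (l : ι × Bool → ℕ) (act : κ × Bool → Bool) (D : ℤ) : Prop :=
  ∃ U, Inv zt zb U (Sig A l act) (dimf l act + 1) D ∧
    ∀ F ∈ U, (∀ i, fib (i, true) F ∈ A (l (i, true))) ∧ ∀ q, tri (q, true) F ∈ Tri (act (q, true))

theorem BD.init (hS : SphStmt) (bd : BD K M A τ pos) {l : ι × Bool → ℕ} (hl : ∀ i, l i ≤ K)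
    (act : κ × Bool → Bool) : Good A l act 0 := by
  have f1 : ∀ (b : Bool) i (F : Finset (GV ι κ W)),
      fib i (F.erase (Sum.inr (Sum.inr b))) = fib i F := fun b i F => by ext; simp [fib]
  have f2 : ∀ (b : Bool) i (F : Finset (GV ι κ W)),
      tri i (F.erase (Sum.inr (Sum.inr b))) = tri i F := fun b i F => by ext; simp [tri]
  refine ⟨cone zt (Sig A l act), ⟨(down_Sig bd.down l act).cone _, fun F hF h => ?_, ?_, ?_,
    fun _ => 0, fun _ => le_rfl, fun _ _ _ _ _ _ _ => by simp, fun _ _ _ _ => le_rfl,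
    fun _ _ _ _ _ _ _ => le_rfl⟩, fun F hF => ⟨fun i => ?_, fun q => ?_⟩⟩
  · exact hF.2.2.2 (Finset.mem_erase.2 ⟨by simp [zt, zb], h⟩)
  · show ({zt} : Finset (GV ι κ W)).erase zt ∈ Sig A l act
    rw [Finset.erase_singleton]
    exact ⟨fun i => bd.down _ _ (bd.empty _) _ fun _ h => by simp [fib] at h,
      fun q => down_Tri _ _ (empty_Tri _) _ fun _ h => by simp [tri] at h, by simp, by simp⟩
  · have := hS.2.1 _ _ _ _ _ _ (hS.1 _ _ (fun i => A (l i)) _ fun i => bd.sph hS _ (hl i))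
      (hS.2.1 _ _ _ _ _ _ (hS.1 _ _ (fun q => Tri (act q)) _ fun q => sph_Tri hS _)
        (hS.2.2.2.1 Bool 1 (by simp)))
    convert this using 1
    · ext F
      have g1 : ∀ i, pre (fun w => (i, w)) F.toLeft = fib i F := fun i => by ext; simp [fib]
      have g2 : ∀ i, pre (fun w => (i, w)) F.toRight.toLeft = tri i F := fun i => by
        ext; simp [tri]
      have g3 : F.toRight.toRight ≠ Finset.univ ↔ zb ∉ F ∨ zt ∉ F := by
        rw [Ne, Finset.eq_univ_iff_forall]
        simp [zb, zt]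
        tauto
      simp only [cone, Sig, sumC, piC, mem_union, mem_ofPred_eq, zt, zb, f1, f2, g1, g2, g3]
      simp only [Finset.mem_erase, ne_eq, not_true, false_and, not_false_iff, Sum.inr.injEq,
        Bool.true_eq_false, Bool.false_eq_true, true_and, and_true]
      tauto
    · simp only [dimf]; omega
  · have := hF.1 (i, true)
    rwa [zt, f1] at this
  · have := hF.2.1 (q, true)
    rwa [zt, f2] at this

theorem BD.step (hM : ModelStmt) (bd : BD K M A τ pos) {l : ι × Bool → ℕ} (hl : ∀ i, l i ≤ K)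
    {act : κ × Bool → Bool} {D : ℤ} (G : Good A l act D) {a b : ι} {p : κ} {j : ℕ}
    (h1 : l (a, false) = j + 1) (h2 : l (b, true) = j) (h3 : act (p, false) = true)
    (h4 : act (p, true) = false) {L : ℤ} (h0 : 0 ≤ L)
    (hL : 4 * ((j : ℤ) + 1) * L + 3 * (j + 1) ≤ M) :
    Good A (up2 (a, false) (b, true) l j (j + 1)) (up2 (p, false) (p, true) act false true)
      (D + L) := by
  have hj : j < K := by have := hl (a, false); omega
  have n1 : (a, false) ≠ (b, true) := by simp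
  have n2 : (p, false) ≠ (p, true) := by simp
  obtain ⟨U, inv, hU⟩ := G
  obtain ⟨R, hR, cob⟩ := bd.cob hM hj h0 hL
  obtain ⟨c1, s1⟩ := sum_up2 n1 l fun x => 2 * x
  obtain ⟨c2, s2⟩ := sum_up2 n2 act fun x => if x then 2 else 0
  have cd : ∀ x y c d, x ≤ K → y ≤ K → ∀ F ∈ Sig A (up2 (a, false) (b, true) l x y)
      (up2 (p, false) (p, true) act c d),
      F.card ≤ 2 * x + 2 * y + c1 + ((if c then 2 else 0) + (if d then 2 else 0) + c2) :=
    fun x y c d hx hy F hF => by
      have := card_Sig (fun i => bd.card_le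
        ((forall_up2 n1 l x y fun _ j => j ≤ K).2 ⟨hx, hy, fun i _ _ => hl i⟩ i)) hF
      rwa [dimf, s1, s2] at this
  have cob' := cob.lift (emb_inj a b p) (down_Sig bd.down (up2 (a, false) (b, true) l 0 0)
    (up2 (p, false) (p, true) act false false)) (c := c1 + c2) fun F hF => by
      simpa using cd 0 0 false false (by omega) (by omega) F hF
  rw [lift_LS (bd.empty 0), lift_LS (bd.empty 0), up2_self h1 h2, up2_self h3 h4] at cob'
  have hR' : lift (emb a b p) (Sig A (up2 (a, false) (b, true) l 0 0)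
      (up2 (p, false) (p, true) act false false)) R ⊆
      Sig A (up2 (a, false) (b, true) l (j + 1) (j + 1)) (up2 (p, false) (p, true) act true true) := by
    rw [← lift_LS (bd.empty 0) a b p l act (j + 1) (j + 1) true true]
    exact fun F hF => ⟨hR hF.1, hF.2⟩
  generalize lift (emb a b p) _ R = R' at hR' cob'
  have d1 : dimf l act + 1 = 4 * j + 5 + (c1 + c2) := by
    rw [← up2_self h1 h2, ← up2_self h3 h4, dimf, s1, s2]
    simp only [if_true, Bool.false_eq_true, if_false]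
    omega
  have d2 : dimf (up2 (a, false) (b, true) l j (j + 1)) (up2 (p, false) (p, true) act false true)
      + 1 = 4 * j + 5 + (c1 + c2) := by
    rw [dimf, s1, s2]
    simp only [if_true, Bool.false_eq_true, if_false]
    omega
  have low : ∀ x y c d, ∀ F ∈ U, F ∈ Sig A (up2 (a, false) (b, true) l x y)
      (up2 (p, false) (p, true) act c d) → F ∈ Sig A (up2 (a, false) (b, true) l x j)
      (up2 (p, false) (p, true) act c false) := fun x y c d F hF hS => by
    have u := (forall_up2 n1 l x y fun i j => fib i F ∈ A j).1 hS.1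
    have v := (forall_up2 n2 act c d fun i j => tri i F ∈ Tri j).1 hS.2.1
    exact ⟨(forall_up2 n1 l x j fun i j => fib i F ∈ A j).2 ⟨u.1, h2 ▸ (hU F hF).1 b, u.2.2⟩,
      (forall_up2 n2 act c false fun i j => tri i F ∈ Tri j).2 ⟨v.1, h4 ▸ (hU F hF).2 p, v.2.2⟩,
      hS.2.2⟩
  rw [d1] at inv
  rw [Good, d2]
  refine ⟨U ∪ R', inv.step cob' (fun F hF => ?_) (fun F hF => ?_) (fun F hF => ?_)
    fun F hF => (hR' hF).2.2.symm, fun F hF => ?_⟩
  · have := low _ _ _ _ F hF.1 (hR' hF.2)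
    rwa [up2_self h1 h2, up2_self h3 h4] at this
  · have hS := low _ _ _ _ F hF.1 hF.2
    have u := (forall_up2 n1 l j j fun i j => fib i F ∈ A j).1 hS.1
    have v := (forall_up2 n2 act false false fun i j => tri i F ∈ Tri j).1 hS.2.1
    rw [← up2_self h1 h2, ← up2_self h3 h4]
    exact ⟨(forall_up2 n1 l _ _ fun i j => fib i F ∈ A j).2 ⟨bd.mono j u.1, u.2⟩,
      (forall_up2 n2 act _ _ fun i j => tri i F ∈ Tri j).2 ⟨⟨v.1.1, by simp⟩, v.2⟩, hS.2.2⟩
  · have := cd _ _ _ _ hj.le hj.le F (low _ _ _ _ F hF.1 hF.2)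
    simp only [Bool.false_eq_true, if_false] at this
    omega
  · rcases hF with hF | hF
    · refine ⟨fun i => ?_, fun q => ?_⟩
      · by_cases e : i = b
        · subst e
          simpa [up2] using bd.mono j (h2 ▸ (hU F hF).1 i)
        · simpa [up2, e] using (hU F hF).1 i
      · by_cases e : q = p
        · subst e
          simpa [up2, Tri] using ((hU F hF).2 q).1
        · simpa [up2, e] using (hU F hF).2 q
    · exact ⟨fun i => by simpa [up2] using (hR' hF).1 (i, true),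
        fun q => by simpa [up2] using (hR' hF).2.1 (q, true)⟩

end Pool.Agent.MP_6a6613_co

end

section

/-! The schedule of the regions and the final count. -/

namespace Pool.Agent.MP_6a6613_co

open Set

/-- The levels before the pair `(a, b)` is treated. -/
def lv (K a b : ℕ) : Fin K × Bool → ℕ := fun i =>
  if i.2 then (if (i.1 : ℕ) < b then a - i.1 else a - 1 - i.1)
  else if (i.1 : ℕ) < a then 0 else if (i.1 : ℕ) = a then a - b else i.1

/-- The active triangles before the pair `(a, b)` is treated. -/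
def ac (K a b : ℕ) : (Fin K × Fin K) × Bool → Bool := fun q =>
  decide (((q.1.2 : ℕ) < q.1.1 ∧ ((q.1.1 : ℕ) < a ∨ ((q.1.1 : ℕ) = a ∧ (q.1.2 : ℕ) < b))) ↔
    q.2 = true)

theorem lv_le {K a : ℕ} (b : ℕ) (ha : a ≤ K) (i : Fin K × Bool) : lv K a b i ≤ K := by
  have := i.1.2
  unfold lv
  split_ifs <;> omega

theorem lv_next (K a : ℕ) : lv K a a = lv K (a + 1) 0 := by
  funext i
  unfold lv
  split_ifs <;> omega

theorem ac_next (K a : ℕ) : ac K a a = ac K (a + 1) 0 := by
  funext q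
  unfold ac
  rw [decide_eq_decide]
  refine iff_congr ?_ Iff.rfl
  omega

theorem lv_step {K : ℕ} (a b : Fin K) (h : (b : ℕ) < a) :
    up2 (a, false) (b, true) (lv K a b) (a - 1 - b) (a - 1 - b + 1) = lv K a (b + 1) := by
  funext ⟨i, c⟩
  cases c
  · simp only [up2, lv, Prod.mk.injEq, Fin.ext_iff, and_true, Bool.false_eq_true, and_false,
      if_false]
    split_ifs <;> omega
  · simp only [up2, lv, Prod.mk.injEq, Fin.ext_iff, and_true, Bool.true_eq_false, and_false,
      if_false, if_true]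
    split_ifs <;> omega

theorem ac_step {K : ℕ} (a b : Fin K) (h : (b : ℕ) < a) :
    up2 ((a, b), false) ((a, b), true) (ac K a b) false true = ac K a (b + 1) := by
  funext ⟨⟨i, k⟩, c⟩
  by_cases e : (i, k) = (a, b)
  · obtain ⟨rfl, rfl⟩ := Prod.mk.inj e
    cases c <;> simp [up2, ac, h]
  · have e' : ¬ ((i : ℕ) = a ∧ (k : ℕ) = b) := by simpa [Fin.ext_iff] using e
    simp only [up2, Prod.mk.injEq (i, k), e, false_and, if_false, ac]
    rw [decide_eq_decide]
    refine iff_congr ?_ Iff.rfl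
    omega

variable {W : Type} [Fintype W] [DecidableEq W] {K M : ℕ} {A : ℕ → Set (Finset W)}
  {τ : ℕ → Finset W → Finset (Fin 6)} {pos : ℕ → Finset W → ℤ}

theorem BD.chain (hS : SphStmt) (hM : ModelStmt) (bd : BD K M A τ pos) (L : ℕ → ℤ)
    (h0 : ∀ j, 0 ≤ L j) (hL : ∀ j < K, 4 * ((j : ℤ) + 1) * L j + 3 * (j + 1) ≤ M) (a : ℕ)
    (ha : a ≤ K) :
    Good A (lv K a 0) (ac K a 0) (∑ i ∈ Finset.range a, ∑ k ∈ Finset.range i, L k) := by
  induction a with
  | zero => exact bd.init hS (lv_le 0 ha) _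
  | succ a ih =>
    have inner : ∀ b ≤ a, Good A (lv K a b) (ac K a b)
        (∑ i ∈ Finset.range a, ∑ k ∈ Finset.range i, L k + ∑ k ∈ Finset.range b, L (a - 1 - k)) := by
      intro b hb
      induction b with
      | zero => simpa using ih (by omega)
      | succ b ih' =>
        have := bd.step hM (lv_le b (by omega)) (ih' (by omega)) (a := ⟨a, ha⟩)
          (b := ⟨b, by omega⟩) (p := (⟨a, ha⟩, ⟨b, by omega⟩)) (j := a - 1 - b)
          (by simp only [lv]; simp; omega) (by simp [lv]) (by simp [ac]) (by simp [ac])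
          (h0 (a - 1 - b)) (hL _ (by omega))
        have e1 := lv_step (K := K) ⟨a, ha⟩ ⟨b, by omega⟩ hb
        have e2 := ac_step (K := K) ⟨a, ha⟩ ⟨b, by omega⟩ hb
        rw [e1, e2] at this
        rwa [Finset.sum_range_succ, ← add_assoc]
    have := inner a le_rfl
    rwa [lv_next, ac_next, Finset.sum_range_reflect, ← Finset.sum_range_succ
      (fun i => ∑ k ∈ Finset.range i, L k)] at this

theorem count : ∃ k : ℕ, 1 ≤ k ∧ (499 * k ^ 2 : ℤ) ≤
    ∑ i ∈ Finset.range (2 * k), ∑ j ∈ Finset.range i, ((k / (2 * (j + 1)) : ℕ) : ℤ) := by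
  obtain ⟨k, hk, hk1⟩ := ((Real.tendsto_sum_range_one_div_nat_succ_atTop.eventually_ge_atTop
    1000).and (Filter.eventually_ge_atTop 1)).exists
  refine ⟨k, hk1, ?_⟩
  have h1 : (499 * k : ℤ) ≤ ∑ j ∈ Finset.range k, ((k / (2 * (j + 1)) : ℕ) : ℤ) := by
    have a : ∀ j ∈ Finset.range k, (k : ℝ) / 2 * (1 / ((j : ℝ) + 1)) - 1 ≤
        ((k / (2 * (j + 1)) : ℕ) : ℝ) := fun j _ => by
      have b : (k : ℝ) < (2 * (j + 1)) * (((k / (2 * (j + 1)) : ℕ) : ℝ) + 1) := by
        exact_mod_cast Nat.lt_mul_div_succ k (show 0 < 2 * (j + 1) by omega)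
      have c : (k : ℝ) / 2 * (1 / ((j : ℝ) + 1)) = k / (2 * (j + 1)) := by field_simp
      rw [c, sub_le_iff_le_add, div_le_iff₀ (by positivity)]
      linarith
    have b := Finset.sum_le_sum a
    rw [Finset.sum_sub_distrib, ← Finset.mul_sum] at b
    simp only [Finset.sum_const, Finset.card_range, nsmul_eq_mul, mul_one] at b
    have c : (0 : ℝ) ≤ k := Nat.cast_nonneg k
    have d : (499 * k : ℝ) ≤ ∑ j ∈ Finset.range k, ((k / (2 * (j + 1)) : ℕ) : ℝ) := by nlinarith
    exact_mod_cast d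
  calc (499 * k ^ 2 : ℤ) = ∑ _i ∈ Finset.Ico k (2 * k), (499 * k : ℤ) := by
        simp [show 2 * k - k = k by omega]; ring
    _ ≤ ∑ i ∈ Finset.Ico k (2 * k), ∑ j ∈ Finset.range i, ((k / (2 * (j + 1)) : ℕ) : ℤ) :=
        Finset.sum_le_sum fun i hi => h1.trans (Finset.sum_le_sum_of_subset_of_nonneg
          (Finset.range_mono (Finset.mem_Ico.1 hi).1) fun _ _ _ => Int.natCast_nonneg _)
    _ ≤ _ := Finset.sum_le_sum_of_subset_of_nonneg (fun i hi => Finset.mem_range.2
          (Finset.mem_Ico.1 hi).2) fun _ _ _ => Finset.sum_nonneg fun _ _ => Int.natCast_nonneg _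

theorem target_of (hF : FinalStmt) (hS : SphStmt) (hB : BDStmt) (hM : ModelStmt) : Target := by
  obtain ⟨k, hk, hc⟩ := count
  have : NeZero (6 * (8 * k)) := ⟨by omega⟩
  obtain ⟨τ, pos, bd⟩ := hB (2 * k) (8 * k) (by omega)
  obtain ⟨U, inv, -⟩ := bd.chain hS hM (fun j => ((k / (2 * (j + 1)) : ℕ) : ℤ))
    (fun _ => Int.natCast_nonneg _) (fun j hj => by
      have a := Nat.mul_div_le k (2 * (j + 1))
      have b : 4 * (j + 1) * (k / (2 * (j + 1))) + 3 * (j + 1) ≤ 8 * k := by nlinarith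
      exact_mod_cast b) (2 * k) le_rfl
  refine inv.final hF ?_ (down_Sig bd.down _ _) ⟨fun i => bd.down _ _ (bd.empty _) _
    fun _ h => by simp [fib] at h, fun q => down_Tri _ _ (empty_Tri _) _
      fun _ h => by simp [tri] at h, by simp, by simp⟩ (by simp [zt, zb])
    (fun F h => ⟨Nat.lt_succ_of_le (card_Sig (fun i => bd.card_le (lv_le 0 le_rfl i)) h),
      h.2.2.1⟩) (le_trans ?_ hc)
  · have := Finset.single_le_sum (f := fun q => if ac (2 * k) (2 * k) 0 q then 2 else 0)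
      (fun _ _ => Nat.zero_le _)
      (Finset.mem_univ (((⟨0, by omega⟩, ⟨0, by omega⟩), false) : (Fin (2 * k) × Fin (2 * k)) × Bool))
    rw [if_pos (by simp [ac])] at this
    unfold dimf
    omega
  · simp only [Fintype.card_sum, Fintype.card_prod, Fintype.card_fin, Fintype.card_bool, ZMod.card]
    have : (1 : ℤ) ≤ k := by exact_mod_cast hk
    push_cast
    nlinarith

end Pool.Agent.MP_6a6613_co

end
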