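import Pool.Agent.Mg.F5cfbf6.G0a0e5f

set_option autoImplicit false
set_option linter.unusedSectionVars false

namespace Pool.Agent.MP_5cfbf6_gt

open Set Filter Topology MeasureTheory Module

variable {ι : Type} [Fintype ι] [DecidableEq ι]
variable {u : ι → E3} {Tr : ι → ι → ι → Prop}

/-- a rectangle in the plane `n.x = 1` -/
def face2Rect (n g : E3) (a b c d : ℝ) : Set E3 :=
  {x | dt n x = 1 ∧ dt g x ∈ Icc a b ∧ dt (cr n g) x ∈ Icc c d}

lemma face2_closed (n g : E3) (a b c d : ℝ) : IsClosed (face2Rect n g a b c d) :=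
  (isClosed_eq (by fun_prop) continuous_const).inter
    ((isClosed_Icc.preimage (by fun_prop : Continuous fun x : E3 => dt g x)).inter
      (isClosed_Icc.preimage (by fun_prop : Continuous fun x : E3 => dt (cr n g) x)))

lemma face2_mu {n g : E3} (hn : dt n n = 1) (hg : dt g g = 1) (hng : dt n g = 0) (a b c d : ℝ) :
    μHE[2] (face2Rect n g a b c d) = ENNReal.ofReal (b - a) * ENNReal.ofReal (d - c) := by
  have f1 := dt_cr_left n g
  have f2 := dt_cr_right n g
  have f3 := dt_cr_unit hn hg hng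
  rw [area_pl (b := n) hn hg hng fun x hx => by rw [hx.1, hn], ← MP_7791e4_an.vol_rect]
  congr 1
  ext z
  have a0 : dt n (pl n g (cr n g) z) = 1 := by
    simp only [pl, dt_add, dt_smul, hn, hng, f1]
    ring
  have a1 : dt g (pl n g (cr n g) z) = z.re := by
    simp only [pl, dt_add, dt_smul, dt_comm g n, hng, hg, f2]
    ring
  have a2 : dt (cr n g) (pl n g (cr n g) z) = z.im := by
    simp only [pl, dt_add, dt_smul, dt_comm (cr n g) n, dt_comm (cr n g) g, f1, f2, f3]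
    ring
  simp only [face2Rect, mem_preimage, mem_ofPred_eq, a0, a1, a2, true_and]

lemma face2_real {n g : E3} (hn : dt n n = 1) (hg : dt g g = 1) (hng : dt n g = 0) {a b c d : ℝ}
    (hab : a ≤ b) (hcd : c ≤ d) :
    (μHE[2] (face2Rect n g a b c d)).toReal = (b - a) * (d - c) := by
  rw [face2_mu hn hg hng, ENNReal.toReal_mul, ENNReal.toReal_ofReal (by linarith),
    ENNReal.toReal_ofReal (by linarith)]

lemma Crit.face2_in (C : Crit u Tr) {k : ι} {g x : E3} (hg : dt g g = 1) (hng : dt (u k) g = 0)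
    (hx : dt (u k) x = 1) (h : 484 * (dt g x ^ 2 + dt (cr (u k) g) x ^ 2) ≤ rsq u k) :
    x ∈ fc u 1 {k} := by
  have := C.disc k (y := x - u k) (by rw [dt_sub, hx, C.unit, sub_self]) (by
    rw [C.sub_sq hx, frame_sq (C.unit k) hg hng x x, hx]; nlinarith)
  simpa using this

lemma Crit.face2_out (C : Crit u Tr) {k : ι} {g x : E3} (hg : dt g g = 1) (hng : dt (u k) g = 0)
    (hx : x ∈ fc u 1 {k}) : dt g x ^ 2 + dt (cr (u k) g) x ^ 2 ≤ rsq u k := by
  have := C.le_rsq hx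
  rw [frame_sq (C.unit k) hg hng x x, Crit.mem_face hx] at this
  nlinarith

lemma Crit.face2_sub (C : Crit u Tr) {k : ι} {g : E3} (hg : dt g g = 1) (hng : dt (u k) g = 0)
    {a : ℝ} (ha : -(√(rsq u k) / 44) ≤ a) :
    face2Rect (u k) g a (√(rsq u k) / 44) (-(√(rsq u k) / 44)) (√(rsq u k) / 44) ⊆
      fc u 1 {k} := by
  intro x hx
  have hR := Real.sq_sqrt (C.rsq_nonneg k)
  have h1 := sq_le_sq' (ha.trans hx.2.1.1) hx.2.1.2
  have h2 := sq_le_sq' hx.2.2.1 hx.2.2.2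
  have h3 := C.rsq_nonneg k
  refine C.face2_in hg hng hx.1 ?_
  rw [div_pow, hR] at h1 h2
  linarith

theorem Crit.rsq_le_ar (C : Crit u Tr) (k : ι) : rsq u k ≤ 484 * ar u 1 k := by
  obtain ⟨g, hg, hng⟩ := exists_frame (n := u k)
  have hR := Real.sq_sqrt (C.rsq_nonneg k)
  have h0 := Real.sqrt_nonneg (rsq u k)
  have h := ENNReal.toReal_mono (C.sys.mu_fc_lt_top C.unit k).ne
    (measure_mono (C.face2_sub hg hng le_rfl))
  rw [face2_real (C.unit k) hg hng (by linarith) (by linarith)] at h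
  unfold ar
  nlinarith

theorem Crit.ar_le_rsq (C : Crit u Tr) (k : ι) : ar u 1 k ≤ 4 * rsq u k := by
  obtain ⟨g, hg, hng⟩ := exists_frame (n := u k)
  have hR := Real.sq_sqrt (C.rsq_nonneg k)
  have h0 := Real.sqrt_nonneg (rsq u k)
  have hs : fc u 1 {k} ⊆ face2Rect (u k) g (-√(rsq u k)) √(rsq u k) (-√(rsq u k)) √(rsq u k) := by
    intro x hx
    have := C.face2_out hg hng hx
    exact ⟨Crit.mem_face hx, abs_le_of_sq_le_sq' (by nlinarith [sq_nonneg (dt (cr (u k) g) x)]) h0,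
      abs_le_of_sq_le_sq' (by nlinarith [sq_nonneg (dt g x)]) h0⟩
  have h := ENNReal.toReal_mono (by
    rw [face2_mu (C.unit k) hg hng]
    exact ENNReal.mul_ne_top ENNReal.ofReal_ne_top ENNReal.ofReal_ne_top) (measure_mono hs)
  rw [face2_real (C.unit k) hg hng (by linarith) (by linarith)] at h
  unfold ar
  nlinarith

lemma face2_WW {t : ℝ} (ht : 0 < t) (a c : ℝ) : (a - c) * (WW t (1 - a) - WW t (1 - c)) =
    (a - c) ^ 2 * ((1 - c) + (1 - a)) * WW t (1 - a) * WW t (1 - c) := by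
  unfold WW
  field_simp
  ring

lemma face2_meas (u : ι → E3) (k : ι) : MeasurableSet (fc u 1 {k}) :=
  (isClosed_fc u 1 {k}).measurableSet

theorem Crit.XX_nonneg (C : Crit u Tr) (i k : ι) {t : ℝ} (ht : 0 < t) : 0 ≤ XX u (u i) t k := by
  refine setIntegral_nonneg (face2_meas u k) fun x hx => ?_
  have h1 : dt (u i) x ≤ 1 := hx.1 i
  have h2 := C.cos_le i k
  have h3 := WW_pos ht (1 - dt (u i) x)
  have h4 := WW_pos ht (1 - dt (u i) (u k))
  have h5 : 0 ≤ (1 - dt (u i) (u k)) + (1 - dt (u i) x) := by linarith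
  rw [face2_WW ht]
  positivity

lemma face2_WW_le {t z w : ℝ} (ht : 0 < t) (hz : 0 ≤ z) (h : z ≤ w) : WW t w ≤ WW t z :=
  inv_anti₀ (by positivity) (by nlinarith)

lemma face2_WW_half {t z w : ℝ} (ht : 0 < t) (hw : 0 ≤ w) (h : w / 2 ≤ z) :
    WW t z ≤ 4 * WW t w := by
  unfold WW
  rw [← div_eq_mul_inv, inv_eq_one_div, div_le_div_iff₀ (by positivity) (by positivity)]
  nlinarith [sq_nonneg t]

lemma face2_WW_low {t w : ℝ} (ht : 0 < t) (h : t ≤ w) : 1 ≤ 2 * w ^ 2 * WW t w := by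
  unfold WW
  rw [← div_eq_mul_inv, le_div_iff₀ (by positivity)]
  nlinarith

/-- the two integral bounds behind `XX_ge1` and `XX_ge2` -/
lemma Crit.face2_key (C : Crit u Tr) (i k : ι) {t : ℝ} (ht : 0 < t)
    (hz : t ≤ 1 - dt (u i) (u k)) (hc : -0.9995 ≤ dt (u i) (u k)) :
    ∃ J : ℝ, J ≤ 4000 * XX u (u i) t k ∧
      rsq u k ^ 2 * WW t (1 - dt (u i) (u k)) ≤ 15000000 * J ∧
      rsq u k * ∫ x in fc u 1 {k}, WW t (1 - dt (u i) x) ∂μHE[2] ≤
        1936 * J + 16 * (rsq u k ^ 2 * WW t (1 - dt (u i) (u k))) := by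
  obtain ⟨c, hcd⟩ : ∃ c, c = dt (u i) (u k) := ⟨_, rfl⟩
  have cW := continuous_WW ht
  have hs : 0 < 1 - c ^ 2 := by rw [← hcd] at hz hc; nlinarith
  obtain ⟨s, s0, ss⟩ : ∃ s : ℝ, 0 < s ∧ s ^ 2 = 1 - c ^ 2 :=
    ⟨_, Real.sqrt_pos.2 hs, Real.sq_sqrt hs.le⟩
  obtain ⟨g, hgd⟩ : ∃ g : E3, g = s⁻¹ • (u i - c • u k) := ⟨_, rfl⟩
  have hng : dt (u k) g = 0 := by
    rw [hgd, dt_smul, dt_sub, dt_smul, C.unit, dt_comm (u k), ← hcd]; ring
  have hg : dt g g = 1 := by
    simp only [hgd, dt_smul, smul_dt, dt_sub, sub_dt, C.unit, dt_comm (u k) (u i), ← hcd]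
    field_simp; linarith
  have hgx : ∀ x, dt (u k) x = 1 → dt (u i) x - c = s * dt g x := fun x hx => by
    rw [hgd, smul_dt, sub_dt, smul_dt, hx]; field_simp
  obtain ⟨R, R0, hR, hRd⟩ : ∃ R : ℝ, 0 ≤ R ∧ R ^ 2 = rsq u k ∧ R = √(rsq u k) :=
    ⟨_, Real.sqrt_nonneg _, Real.sq_sqrt (C.rsq_nonneg k), rfl⟩
  have int := fun {φ : E3 → ℝ} (h : Continuous φ) => C.sys.integrableOn_fc C.unit k h
  have iJ : IntegrableOn (fun x => dt g x ^ 2 * WW t (1 - dt (u i) x)) (fc u 1 {k}) μHE[2] :=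
    int (by fun_prop)
  have Wc := WW_pos ht (1 - c)
  rw [← hcd] at hz hc
  refine ⟨∫ x in fc u 1 {k}, dt g x ^ 2 * WW t (1 - dt (u i) x) ∂μHE[2], ?_, ?_, ?_⟩
  · unfold XX
    rw [← integral_const_mul, ← hcd]
    refine setIntegral_mono_on iJ (int (by fun_prop)) (face2_meas u k) fun x hx => ?_
    have h1 : dt (u i) x ≤ 1 := hx.1 i
    have h3 := WW_pos ht (1 - dt (u i) x)
    have h4 := face2_WW_low ht hz
    rw [face2_WW ht, hgx x (Crit.mem_face hx), mul_pow, ss]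
    have h5 : 1 ≤ 4000 * ((1 - c ^ 2) * ((1 - c) + (1 - dt (u i) x)) * WW t (1 - c)) := by
      have h6 : (1 - c ^ 2) * (1 - c) * WW t (1 - c) ≤
          (1 - c ^ 2) * ((1 - c) + (1 - dt (u i) x)) * WW t (1 - c) := by
        gcongr; linarith
      have h7 : (1 - c ^ 2) * (1 - c) * WW t (1 - c) =
          (1 + c) / 2 * (2 * (1 - c) ^ 2 * WW t (1 - c)) := by ring
      have h8 : (1 + c) / 2 * 1 ≤ (1 + c) / 2 * (2 * (1 - c) ^ 2 * WW t (1 - c)) := by
        gcongr; linarith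
      linarith
    have h9 : 0 ≤ dt g x ^ 2 * WW t (1 - dt (u i) x) := by positivity
    nlinarith [mul_le_mul_of_nonneg_left h5 h9]
  · have hsub : face2Rect (u k) g (R / 88) (R / 44) (-(R / 44)) (R / 44) ⊆ fc u 1 {k} := by
      rw [hRd]
      exact C.face2_sub hg hng (by rw [← hRd]; linarith)
    have h1 : ∫ x in face2Rect (u k) g (R / 88) (R / 44) (-(R / 44)) (R / 44),
        dt g x ^ 2 * WW t (1 - dt (u i) x) ∂μHE[2] ≤
        ∫ x in fc u 1 {k}, dt g x ^ 2 * WW t (1 - dt (u i) x) ∂μHE[2] :=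
      setIntegral_mono_set iJ (Eventually.of_forall fun x =>
        mul_nonneg (sq_nonneg _) (WW_pos ht _).le) hsub.eventuallyLE
    have h2 := setIntegral_ge_of_const_le_real (μ := μHE[2]) (c := (R / 88) ^ 2 * WW t (1 - c))
      (face2_closed (u k) g (R / 88) (R / 44) (-(R / 44)) (R / 44)).measurableSet
      ((measure_mono hsub).trans_lt (C.sys.mu_fc_lt_top C.unit k)).ne
      (f := fun x => dt g x ^ 2 * WW t (1 - dt (u i) x)) (fun x hx => by
        have h3 : dt (u i) x ≤ 1 := (hsub hx).1 i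
        have h4 := hgx x hx.1
        have h5 := hx.2.1.1
        have h6 : 0 ≤ s * dt g x := mul_nonneg s0.le (by linarith)
        exact mul_le_mul (pow_le_pow_left₀ (by linarith) h5 2)
          (face2_WW_le ht (by linarith) (by linarith)) Wc.le (sq_nonneg _)) (iJ.mono_set hsub)
    rw [Measure.real, face2_real (C.unit k) hg hng (by linarith) (by linarith)] at h2
    rw [← hcd, ← hR]
    have h7 : 0 ≤ (R ^ 2) ^ 2 * WW t (1 - c) := by positivity
    nlinarith
  · have hp : u k + (R / 22) • g ∈ fc u 1 {k} :=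
      C.disc k (by rw [dt_smul, hng, mul_zero]) (by
        rw [dt_smul, smul_dt, hg, ← hR]; exact le_of_eq (by ring))
    have h1 : s * (R / 22) ≤ 1 - c := by
      have h2 := hgx _ (Crit.mem_face hp)
      have h3 : dt (u i) (u k + (R / 22) • g) ≤ 1 := hp.1 i
      rw [dt_add g, dt_smul g, hg, dt_comm g, hng] at h2
      linarith
    have h2 : ∫ x in fc u 1 {k}, rsq u k * WW t (1 - dt (u i) x) ∂μHE[2] ≤
        ∫ x in fc u 1 {k}, (1936 * (dt g x ^ 2 * WW t (1 - dt (u i) x)) +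
          4 * rsq u k * WW t (1 - c)) ∂μHE[2] := by
      refine setIntegral_mono_on (int (by fun_prop)) (int (by fun_prop)) (face2_meas u k)
        fun x hx => ?_
      have h3 := WW_pos ht (1 - dt (u i) x)
      have h4 := hgx x (Crit.mem_face hx)
      have h5 := C.rsq_nonneg k
      rcases le_total (dt g x) (R / 44) with h6 | h6
      · have h7 : s * dt g x ≤ s * (R / 44) := by gcongr
        have h8 := face2_WW_half (z := 1 - dt (u i) x) (w := 1 - c) ht (by linarith) (by linarith)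
        have h9 : 0 ≤ dt g x ^ 2 * WW t (1 - dt (u i) x) := by positivity
        nlinarith [mul_le_mul_of_nonneg_left h8 h5]
      · have h7 : rsq u k ≤ 1936 * dt g x ^ 2 := by
          have := pow_le_pow_left₀ (by linarith) h6 2
          rw [div_pow, hR] at this
          linarith
        have h8 : 0 ≤ rsq u k * WW t (1 - c) := by positivity
        nlinarith [mul_le_mul_of_nonneg_right h7 h3.le]
    rw [integral_const_mul, integral_add (int (by fun_prop)) (int (by fun_prop)),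
      integral_const_mul, setIntegral_const, smul_eq_mul] at h2
    have h3 : (μHE[2] : Measure E3).real (fc u 1 {k}) ≤ 4 * rsq u k := C.ar_le_rsq k
    have h4 : 0 ≤ 4 * rsq u k * WW t (1 - c) := by have := C.rsq_nonneg k; positivity
    rw [← hcd]
    nlinarith [mul_le_mul_of_nonneg_right h3 h4]

theorem Crit.XX_ge1 (C : Crit u Tr) (i k : ι) {t : ℝ} (ht : 0 < t) (hz : t ≤ 1 - dt (u i) (u k))
    (hc : -0.9995 ≤ dt (u i) (u k)) :
    rsq u k * ∫ x in fc u 1 {k}, WW t (1 - dt (u i) x) ∂μHE[2] ≤ 10 ^ 13 * XX u (u i) t k := by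
  obtain ⟨J, h1, h2, h3⟩ := C.face2_key i k ht hz hc
  have := C.XX_nonneg i k ht
  linarith

theorem Crit.XX_ge2 (C : Crit u Tr) (i k : ι) {t : ℝ} (ht : 0 < t) (hz : t ≤ 1 - dt (u i) (u k))
    (hc : -0.9995 ≤ dt (u i) (u k)) :
    rsq u k ^ 2 ≤ 10 ^ 13 * (1 - dt (u i) (u k)) ^ 2 * XX u (u i) t k := by
  obtain ⟨J, h1, h2, -⟩ := C.face2_key i k ht hz hc
  have h3 := C.XX_nonneg i k ht
  have h4 := face2_WW_low ht hz
  have h5 : rsq u k ^ 2 * WW t (1 - dt (u i) (u k)) ≤ 10 ^ 11 * XX u (u i) t k := by linarith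
  have h6 := mul_le_mul_of_nonneg_left h5 (sq_nonneg (1 - dt (u i) (u k)))
  have h7 := mul_le_mul_of_nonneg_left h4 (sq_nonneg (rsq u k))
  have h8 := mul_nonneg (sq_nonneg (1 - dt (u i) (u k))) h3
  nlinarith

/-- a box in an orthonormal frame -/
def face2Box (e f : E3) (a b : ℝ) : Set E3 :=
  {x | |dt e x| ≤ a ∧ |dt f x| ≤ b ∧ |dt (cr e f) x| ≤ b}

lemma face2_box_closed (e f : E3) (a b : ℝ) : IsClosed (face2Box e f a b) :=
  have h : ∀ (w : E3) (r : ℝ), IsClosed {x : E3 | |dt w x| ≤ r} := fun w r =>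
    isClosed_le (by fun_prop) continuous_const
  (h e a).inter ((h f b).inter (h (cr e f) b))

lemma face2_vol {e f : E3} (he : dt e e = 1) (hf : dt f f = 1) (hef : dt e f = 0) {a b : ℝ}
    (ha : 0 ≤ a) (hb : 0 ≤ b) : volume (face2Box e f a b) ≤ ENNReal.ofReal (8 * a * b ^ 2) := by
  have hs : face2Box e f a b ⊆ lin e f (cr e f) '' ((fun z : E3 => ((z 2, z 0, z 1) : ℝ × ℝ × ℝ)) ⁻¹'
      (Icc (-b) b ×ˢ Icc (-a) a ×ˢ Icc (-b) b)) := fun x hx =>
    ⟨!₂[dt e x, dt f x, dt (cr e f) x], ⟨abs_le.1 hx.2.2, abs_le.1 hx.1, abs_le.1 hx.2.1⟩,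
      (frame_expand he hf hef x).symm⟩
  refine (measure_mono hs).trans_eq ?_
  rw [vol_lin, ← dt_cr, dt_cr_unit he hf hef, mp_coord.measure_preimage
    (measurableSet_Icc.prod (measurableSet_Icc.prod measurableSet_Icc)).nullMeasurableSet,
    Measure.volume_eq_prod, Measure.prod_prod, Measure.volume_eq_prod, Measure.prod_prod]
  simp only [Real.volume_Icc, abs_one, ENNReal.ofReal_one, one_mul]
  rw [← ENNReal.ofReal_mul (by linarith), ← ENNReal.ofReal_mul (by linarith)]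
  congr 1
  ring

lemma face2_abs {e x : E3} (he : dt e e = 1) {r : ℝ} (hr : 0 ≤ r) (hx : dt x x ≤ r ^ 2) :
    |dt e x| ≤ r := by
  have := dt_sq_le e x
  rw [he, one_mul] at this
  exact abs_le.2 (abs_le_of_sq_le_sq' (this.trans hx) hr)

theorem Crit.pack (C : Crit u Tr) {e : E3} (he : dt e e = 1) {ρ : ℝ} (hρ : 0 ≤ ρ) (G : Finset ι)
    (hG : ∀ k ∈ G, ∀ x ∈ fc u 1 {k}, dt (x - e) (x - e) ≤ ρ) : ∑ k ∈ G, ar u 1 k ≤ 72 * ρ := by
  obtain ⟨f, hf, hef⟩ := exists_frame (n := e)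
  have mB := (face2_box_closed e f 3 √ρ).measurableSet
  have h1 := C.sys.pyr_lintegral var1_one_pos C.unit
    (φ := (face2Box e f 3 √ρ).indicator 1) (measurable_one.indicator mB)
  have h2 : ∫⁻ x in poly u 1, (face2Box e f 3 √ρ).indicator 1 x ≤ ENNReal.ofReal (24 * ρ) := by
    refine (setLIntegral_le_lintegral _ _).trans ?_
    rw [lintegral_indicator_one mB]
    refine (face2_vol he hf hef (by norm_num) (Real.sqrt_nonneg ρ)).trans_eq ?_
    rw [Real.sq_sqrt hρ]; norm_num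
  have h3 : ∫⁻ l in Ioc (0 : ℝ) 1, ENNReal.ofReal (l ^ 2) = ENNReal.ofReal (1 / 3) := by
    rw [← ofReal_integral_eq_lintegral_ofReal
      ((by fun_prop : Continuous fun l : ℝ => l ^ 2).integrableOn_Icc.mono_set Ioc_subset_Icc_self)
      (Eventually.of_forall fun l => sq_nonneg l), ← intervalIntegral.integral_of_le zero_le_one,
      integral_pow]
    norm_num
  have h4 : ∀ k ∈ G, ENNReal.ofReal ((1 : ι → ℝ) k) * ∫⁻ x in fc u 1 {k},
      (∫⁻ l in Ioc (0 : ℝ) 1, ENNReal.ofReal (l ^ 2) *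
        (face2Box e f 3 √ρ).indicator 1 (l • x)) ∂μHE[2] = ENNReal.ofReal (ar u 1 k / 3) := by
    intro k hk
    rw [setLIntegral_congr_fun (face2_meas u k) (g := fun _ => ENNReal.ofReal (1 / 3))
      fun x hx => ?_, setLIntegral_const, Pi.one_apply, ENNReal.ofReal_one, one_mul, ar,
      ← ENNReal.ofReal_toReal (C.sys.mu_fc_lt_top C.unit k).ne,
      ← ENNReal.ofReal_mul (by norm_num), ENNReal.toReal_ofReal ENNReal.toReal_nonneg]
    · congr 1; ring
    rw [← h3]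
    refine setLIntegral_congr_fun measurableSet_Ioc fun l hl => ?_
    have hb : ∀ (w : E3) (r : ℝ), |dt w x| ≤ r → |dt w (l • x)| ≤ r := fun w r h => by
      rw [dt_smul, abs_mul, abs_of_pos hl.1]
      exact (mul_le_of_le_one_left (abs_nonneg _) hl.2).trans h
    have hr : dt (x - e) (x - e) ≤ √ρ ^ 2 := by rw [Real.sq_sqrt hρ]; exact hG k hk x hx
    have b1 := face2_abs hf (Real.sqrt_nonneg ρ) hr
    have b2 := face2_abs (dt_cr_unit he hf hef) (Real.sqrt_nonneg ρ) hr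
    rw [dt_sub, dt_comm f e, hef, sub_zero] at b1
    rw [dt_sub, dt_comm _ e, dt_cr_left, sub_zero] at b2
    have hm : l • x ∈ face2Box e f 3 √ρ :=
      ⟨hb _ _ (face2_abs he (by norm_num) ((C.sys.radius C.opt C.unit x hx.1).trans
        (by norm_num))), hb _ _ b1, hb _ _ b2⟩
    simp only [indicator_of_mem hm, Pi.one_apply, mul_one]
  have ar0 : ∀ k, 0 ≤ ar u 1 k / 3 := fun k => div_nonneg ENNReal.toReal_nonneg (by norm_num)
  have h5 : ENNReal.ofReal (∑ k ∈ G, ar u 1 k / 3) ≤ ENNReal.ofReal (24 * ρ) := by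
    rw [ENNReal.ofReal_sum_of_nonneg fun k _ => ar0 k, ← Finset.sum_congr rfl h4]
    exact (Finset.sum_le_sum_of_subset (Finset.subset_univ G)).trans (h1.ge.trans h2)
  rw [ENNReal.ofReal_le_ofReal_iff (by positivity), ← Finset.sum_div] at h5
  linarith

theorem Crit.sum_ar_le (C : Crit u Tr) : ∑ k, ar u 1 k ≤ 648 := by
  obtain ⟨e, he, -⟩ := exists_frame (n := 0)
  obtain ⟨f, hf, hef⟩ := exists_frame (n := e)
  have hs : poly u 1 ⊆ face2Box e f 3 3 := fun x hx => by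
    have := (C.sys.radius C.opt C.unit x hx).trans (by norm_num : (9 : ℝ) ≤ 3 ^ 2)
    exact ⟨face2_abs he (by norm_num) this, face2_abs hf (by norm_num) this,
      face2_abs (dt_cr_unit he hf hef) (by norm_num) this⟩
  have h := ENNReal.toReal_le_of_le_ofReal (by norm_num)
    ((measure_mono hs).trans (face2_vol he hf hef (by norm_num) (by norm_num)))
  rw [C.sys.var1_sum_ar C.unit, vol]
  linarith

end Pool.Agent.MP_5cfbf6_gt
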