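import Pool.Agent.MP_d539bc_co.Brouwer
import Pool.Agent.MP_d539bc_co.Defs

section

/-! Invariance of domain and non-separation by sets of codimension two. -/

namespace Pool.Agent.MP_d539bc_co

open Metric Set Module Topology Filter

section inner

variable {E : Type} [NormedAddCommGroup E] [InnerProductSpace ℝ E] [FiniteDimensional ℝ E]

theorem brouwer_ball {x : E} {r : ℝ} (hr : 0 < r) {F : E → E}
    (hF : ContinuousOn F (closedBall x r)) (hb : ∀ y ∈ closedBall x r, ‖y - F y - x‖ ≤ r) :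
    ∃ y ∈ closedBall x r, F y = 0 := by
  let π : E → E := fun y => x + (r / max r ‖y - x‖) • (y - x)
  have hpos : ∀ y : E, 0 < max r ‖y - x‖ := fun y => lt_max_of_lt_left hr
  have hπ : Continuous π := by
    apply continuous_const.add
    apply Continuous.smul _ (by fun_prop)
    exact continuous_const.div (by fun_prop) (fun y => (hpos y).ne')
  have hπm : ∀ y, π y ∈ closedBall x r := by
    intro y
    rw [mem_closedBall, dist_eq_norm]
    simp only [π, add_sub_cancel_left, norm_smul, Real.norm_eq_abs]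
    rw [abs_of_pos (div_pos hr (hpos y)), div_mul_eq_mul_div, div_le_iff₀ (hpos y)]
    exact mul_le_mul_of_nonneg_left (le_max_right _ _) hr.le
  have hπid : ∀ y ∈ closedBall x r, π y = y := by
    intro y hy
    rw [mem_closedBall, dist_eq_norm] at hy
    simp only [π, max_eq_left hy, div_self hr.ne', one_smul, add_sub_cancel]
  obtain ⟨y, hy⟩ := fixed_of_bounded (fun y => π y - F (π y))
    (hπ.sub (hF.comp_continuous hπ hπm)) (M := ‖x‖ + r) (fun y => by
      have := hb _ (hπm y)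
      calc ‖π y - F (π y)‖ = ‖x + (π y - F (π y) - x)‖ := by congr 1; abel
        _ ≤ ‖x‖ + ‖π y - F (π y) - x‖ := norm_add_le _ _
        _ ≤ _ := by linarith)
  have hym : y ∈ closedBall x r := by
    rw [mem_closedBall, dist_eq_norm, ← hy]
    exact hb _ (hπm y)
  refine ⟨y, hym, ?_⟩
  simp only [hπid y hym] at hy
  simpa using hy

end inner

theorem tietze_compact {A B C : Type} [NormedAddCommGroup A] [NormedAddCommGroup B]
    [NormedAddCommGroup C] [NormedSpace ℝ C] [FiniteDimensional ℝ C] {S : Set A}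
    (hS : IsCompact S) {f : A → B} (hf : ContinuousOn f S) (hinj : InjOn f S) {g : A → C}
    (hg : ContinuousOn g S) : ∃ G : B → C, Continuous G ∧ ∀ y ∈ S, G (f y) = g y := by
  have : CompactSpace S := isCompact_iff_compactSpace.1 hS
  have : TietzeExtension.{0, 0} C := TietzeExtension.of_tvs ℝ
  have he : IsClosedEmbedding (S.domRestrict f) :=
    hf.domRestrict.isClosedEmbedding (injOn_iff_injective.1 hinj)
  obtain ⟨G, hG⟩ := ContinuousMap.exists_extension' he ⟨S.domRestrict g, hg.domRestrict⟩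
  exact ⟨G, G.continuous, fun y hy => congrFun hG ⟨y, hy⟩⟩

section inner

variable {E : Type} [NormedAddCommGroup E] [InnerProductSpace ℝ E] [FiniteDimensional ℝ E]

theorem iod_ball {x : E} {r : ℝ} (hr : 0 < r) {f : E → E}
    (hf : ContinuousOn f (closedBall x r)) (hinj : InjOn f (closedBall x r)) :
    f '' closedBall x r ∈ 𝓝 (f x) := by
  by_contra hcon
  have hcomp := isCompact_closedBall x r
  obtain ⟨G, hG, hGf⟩ := tietze_compact hcomp hf hinj (g := fun y => y - x) (by fun_prop)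
  have hx : x ∈ closedBall x r := mem_closedBall_self hr.le
  have hG0 : G (f x) = 0 := by rw [hGf x hx, sub_self]
  obtain ⟨δ, hδ, hδ'⟩ := Metric.continuous_iff.1 hG (f x) (r / 4) (by positivity)
  set ε := δ / 2 with hε
  have hε0 : 0 < ε := by positivity
  have hGs : ∀ z, dist z (f x) < 2 * ε → ‖G z‖ < r / 4 := by
    intro z hz
    have := hδ' z (by linarith)
    rwa [hG0, dist_zero_right] at this
  obtain ⟨c, hc, hcC⟩ : ∃ c, dist c (f x) < ε ∧ c ∉ f '' closedBall x r := by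
    by_contra h
    push Not at h
    exact hcon (mem_of_superset (ball_mem_nhds _ hε0) h)
  have hne : ∀ y ∈ closedBall x r, 0 < ‖f y - c‖ := fun y hy =>
    norm_pos_iff.2 (sub_ne_zero.2 (fun e => hcC ⟨y, hy, e⟩))
  let Φ : E → E := fun y => c + (max (ε / ‖f y - c‖) 1) • (f y - c)
  have hΦ : ContinuousOn Φ (closedBall x r) := by
    apply continuousOn_const.add
    apply ContinuousOn.smul _ (hf.sub continuousOn_const)
    apply ContinuousOn.sup _ continuousOn_const
    exact continuousOn_const.div (hf.sub continuousOn_const).norm (fun y hy => (hne y hy).ne')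
  have hΦ1 : ∀ y ∈ closedBall x r, ε ≤ ‖f y - c‖ → Φ y = f y := by
    intro y hy h
    simp only [Φ, max_eq_right ((div_le_one (hne y hy)).2 h), one_smul, add_sub_cancel]
  have hΦ2 : ∀ y ∈ closedBall x r, ‖f y - c‖ < ε → Φ y ∈ sphere c ε := by
    intro y hy h
    rw [mem_sphere, dist_eq_norm]
    simp only [Φ, max_eq_left ((one_le_div (hne y hy)).2 h.le), add_sub_cancel_left, norm_smul,
      Real.norm_eq_abs]
    rw [abs_of_pos (div_pos hε0 (hne y hy)), div_mul_cancel₀ _ (hne y hy).ne']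
  obtain ⟨η, hη, hη1, hη2⟩ : ∃ η > 0, η ≤ r / 4 ∧
      ∀ y ∈ closedBall x r, ε ≤ ‖f y - c‖ → η ≤ ‖y - x‖ := by
    have h1 : ContinuousWithinAt f (closedBall x r) x := hf x hx
    obtain ⟨θ, hθ, hθ'⟩ := Metric.continuousWithinAt_iff.1 h1 (ε - dist c (f x)) (by linarith)
    refine ⟨min θ (r / 4), by positivity, min_le_right _ _, fun y hy h => ?_⟩
    by_contra hlt
    push Not at hlt
    have h2 := hθ' hy (by rw [dist_eq_norm]; exact hlt.trans_le (min_le_left _ _))
    have h3 := dist_triangle (f y) (f x) c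
    rw [dist_comm (f x) c, dist_eq_norm] at h3
    linarith
  obtain ⟨P, hP, hPG, -⟩ := hG.exists_contDiff_approx 1 (ε := fun _ => η / 2) continuous_const
    (fun _ => by positivity)
  obtain ⟨w, hw, hwP⟩ : ∃ w, ‖w‖ < η / 2 ∧ w ∉ P '' sphere c ε := by
    borelize E
    have h0 : (MeasureTheory.Measure.addHaar : MeasureTheory.Measure E) (P '' sphere c ε) = 0 :=
      MeasureTheory.addHaar_image_eq_zero_of_differentiableOn_of_addHaar_eq_zero _
        (hP.differentiable (by simp)).differentiableOn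
        (MeasureTheory.Measure.addHaar_sphere_of_ne_zero _ c hε0.ne')
    have h1 := MeasureTheory.Measure.interior_eq_empty_of_null h0
    by_contra h
    push Not at h
    have : (0 : E) ∈ interior (P '' sphere c ε) :=
      mem_interior_iff_mem_nhds.2 (mem_of_superset (ball_mem_nhds 0 (show 0 < η / 2 by positivity))
        (fun w hw => h w (by simpa using hw)))
    rw [h1] at this
    exact this
  have hPG' : ∀ z, ‖P z - w - G z‖ < η := by
    intro z
    have h1 := hPG z
    rw [dist_eq_norm] at h1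
    calc ‖P z - w - G z‖ = ‖(P z - G z) - w‖ := by congr 1; abel
      _ ≤ ‖P z - G z‖ + ‖w‖ := norm_sub_le _ _
      _ < η := by linarith
  obtain ⟨y, hy, hy0⟩ := brouwer_ball hr (F := fun y => P (Φ y) - w)
    ((hP.continuous.comp_continuousOn hΦ).sub continuousOn_const) (by
      intro y hy
      have e : y - (P (Φ y) - w) - x = G (f y) - (P (Φ y) - w) := by rw [hGf y hy]; abel
      rw [e]
      rcases le_or_gt ε ‖f y - c‖ with h | h
      · rw [hΦ1 y hy h, norm_sub_rev]
        linarith [hPG' (f y)]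
      · have h1 := hGs (f y) (by
          have := dist_triangle (f y) c (f x)
          rw [dist_eq_norm (f y) c] at this
          linarith)
        have h2 := hGs (Φ y) (by
          have := dist_triangle (Φ y) c (f x)
          rw [mem_sphere.1 (hΦ2 y hy h)] at this
          linarith)
        have h3 := hPG' (Φ y)
        calc ‖G (f y) - (P (Φ y) - w)‖ = ‖G (f y) - G (Φ y) - (P (Φ y) - w - G (Φ y))‖ := by
              congr 1; abel
          _ ≤ ‖G (f y) - G (Φ y)‖ + ‖P (Φ y) - w - G (Φ y)‖ := norm_sub_le _ _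
          _ ≤ ‖G (f y)‖ + ‖G (Φ y)‖ + ‖P (Φ y) - w - G (Φ y)‖ := by
              linarith [norm_sub_le (G (f y)) (G (Φ y))]
          _ ≤ r := by linarith)
  rcases le_or_gt ε ‖f y - c‖ with h | h
  · have h1 := hPG' (f y)
    rw [hΦ1 y hy h] at hy0
    rw [hy0, zero_sub, norm_neg, hGf y hy] at h1
    linarith [hη2 y hy h]
  · exact hwP ⟨_, hΦ2 y hy h, sub_eq_zero.1 hy0⟩

end inner

variable {A B : Type} [NormedAddCommGroup A] [NormedSpace ℝ A] [FiniteDimensional ℝ A]
  [NormedAddCommGroup B] [NormedSpace ℝ B] [FiniteDimensional ℝ B]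

theorem iod {f : A → B} {U : Set A} {a : A} (hU : U ∈ 𝓝 a) (hf : ContinuousOn f U)
    (hinj : InjOn f U) (hd : finrank ℝ A = finrank ℝ B) : f '' U ∈ 𝓝 (f a) := by
  let eA : A ≃L[ℝ] EuclideanSpace ℝ (Fin (finrank ℝ B)) :=
    ContinuousLinearEquiv.ofFinrankEq (by simp [hd])
  let eB : B ≃L[ℝ] EuclideanSpace ℝ (Fin (finrank ℝ B)) :=
    ContinuousLinearEquiv.ofFinrankEq (by simp)
  have h1 : eA.symm ⁻¹' U ∈ 𝓝 (eA a) :=
    eA.symm.continuous.continuousAt.preimage_mem_nhds (by simpa using hU)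
  obtain ⟨r, hr, hr'⟩ := Metric.nhds_basis_closedBall.mem_iff.1 h1
  have h2 := iod_ball hr (f := fun y => eB (f (eA.symm y)))
    (eB.continuous.comp_continuousOn (hf.comp eA.symm.continuous.continuousOn hr'))
    (fun y hy y' hy' h => eA.symm.injective (hinj (hr' hy) (hr' hy') (eB.injective h)))
  simp only [ContinuousLinearEquiv.symm_apply_apply] at h2
  refine mem_of_superset (eB.continuous.continuousAt.preimage_mem_nhds h2) ?_
  rintro b ⟨y, hy, h⟩
  exact ⟨_, hr' hy, eB.injective h⟩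

theorem iod_le {f : A → B} {U : Set A} {a : A} (hU : U ∈ 𝓝 a) (hf : ContinuousOn f U)
    (hinj : InjOn f U) : finrank ℝ A ≤ finrank ℝ B := by
  by_contra h
  push Not at h
  obtain ⟨ι, hι⟩ := (finrank_le_iff_exists_linearMap (R := ℝ) (M := B) (M' := A)).1 h.le
  have h1 := iod (f := fun y => ι (f y)) hU
    (ι.continuous_of_finiteDimensional.comp_continuousOn hf)
    (fun y hy y' hy' h => hinj hy hy' (hι h)) rfl
  have h2 : LinearMap.range ι = ⊤ := by
    apply Submodule.eq_top_of_nonempty_interior'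
    refine ⟨_, mem_interior_iff_mem_nhds.2 (mem_of_superset h1 ?_)⟩
    rintro _ ⟨y, -, rfl⟩
    exact ⟨_, rfl⟩
  have h3 := LinearMap.finrank_range_le ι
  rw [h2, finrank_top] at h3
  omega

end Pool.Agent.MP_d539bc_co

end

section

/-! Local charts of subsets of a normed space. -/

namespace Pool.Agent.MP_d539bc_co

open Metric Set Module Topology Filter

abbrev Eu (m : ℕ) := EuclideanSpace ℝ (Fin m)

variable {A : Type} [NormedAddCommGroup A]

def LC (X : Set A) (m : ℕ) (x : A) : Prop :=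
  ∃ (h : A → Eu m) (φ : Eu m → A) (U : Set A) (O : Set (Eu m)), IsOpen U ∧ IsOpen O ∧ x ∈ X ∩ U ∧
    ContinuousOn h (X ∩ U) ∧ ContinuousOn φ O ∧ MapsTo h (X ∩ U) O ∧ MapsTo φ O (X ∩ U) ∧
    (∀ y ∈ X ∩ U, φ (h y) = y) ∧ ∀ z ∈ O, h (φ z) = z

theorem lc_of_charted {X : Set A} {m : ℕ} (c : ChartedSpace (Eu m) X) {x : A} (hx : x ∈ X) :
    LC X m x := by
  classical
  let e := chartAt (Eu m) (⟨x, hx⟩ : X)
  obtain ⟨U, hU, hUe⟩ := isOpen_induced_iff.1 e.open_source
  have hsrc : ∀ y (hy : y ∈ X), y ∈ U ↔ (⟨y, hy⟩ : X) ∈ e.source := by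
    intro y hy; rw [← hUe]; rfl
  refine ⟨fun y => if hy : y ∈ X then e ⟨y, hy⟩ else 0, fun z => (e.symm z : X), U, e.target, hU,
    e.open_target, ⟨hx, (hsrc x hx).2 (mem_chart_source _ _)⟩, ?_,
    continuous_subtype_val.comp_continuousOn e.continuousOn_symm, ?_, ?_, ?_, ?_⟩
  · rw [continuousOn_iff_continuous_domRestrict]
    have : Continuous (fun y : ↥(X ∩ U) => e ⟨y.1, y.2.1⟩) :=
      e.continuousOn.comp_continuous (continuous_subtype_val.subtype_mk _)
        (fun y => (hsrc _ y.2.1).1 y.2.2)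
    convert this using 1
    funext y
    simp [y.2.1]
  · intro y hy
    simp only [hy.1, dif_pos]
    exact e.map_source ((hsrc _ hy.1).1 hy.2)
  · intro z hz
    exact ⟨(e.symm z).2, (hsrc _ (e.symm z).2).2 (e.map_target hz)⟩
  · intro y hy
    simp only [hy.1, dif_pos]
    rw [e.left_inv ((hsrc _ hy.1).1 hy.2)]
  · intro z hz
    simp only [(e.symm z).2, dif_pos]
    exact e.right_inv hz

variable {B : Type} [NormedAddCommGroup B] [NormedSpace ℝ B] [FiniteDimensional ℝ B]

theorem LC.into {X : Set A} {m : ℕ} {x : A} (hc : LC X m x) {ρ : B → A} (hρ : Continuous ρ)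
    (hinj : Function.Injective ρ) (h0 : ρ 0 = x) (hX : ∀ᶠ w in 𝓝 0, ρ w ∈ X) :
    finrank ℝ B ≤ m ∧ (finrank ℝ B = m → range ρ ∈ 𝓝[X] x) := by
  obtain ⟨h, φ, U, O, hU, -, hx, hh, -, -, -, hφh, -⟩ := hc
  have hN : ρ ⁻¹' (X ∩ U) ∈ 𝓝 (0 : B) :=
    inter_mem hX (hρ.continuousAt.preimage_mem_nhds (hU.mem_nhds (h0 ▸ hx.2)))
  have h1 : ContinuousOn (fun w => h (ρ w)) (ρ ⁻¹' (X ∩ U)) :=
    hh.comp hρ.continuousOn (fun _ hw => hw)
  have h2 : InjOn (fun w => h (ρ w)) (ρ ⁻¹' (X ∩ U)) := by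
    intro w hw w' hw' e
    apply hinj
    rw [← hφh _ hw, ← hφh _ hw']
    exact congrArg φ e
  refine ⟨by simpa using iod_le hN h1 h2, fun hm => ?_⟩
  have h3 := iod hN h1 h2 (by simpa using hm)
  simp only [h0] at h3
  have h4 := (hh x hx).preimage_mem_nhdsWithin h3
  rw [← nhdsWithin_restrict' X (hU.mem_nhds hx.2)] at h4
  have h5 : X ∩ U ∈ 𝓝[X] x := inter_mem_nhdsWithin X (hU.mem_nhds hx.2)
  filter_upwards [h4, h5] with y hy hy'
  obtain ⟨w, hw, e⟩ := hy
  refine ⟨w, ?_⟩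
  rw [← hφh _ hw, ← hφh _ hy']
  exact congrArg φ e

theorem LC.out {X : Set A} {m : ℕ} {x : A} (hc : LC X m x) {π : A → B} (hπ : Continuous π)
    {N : Set A} (hN : N ∈ 𝓝 x) (hinj : InjOn π (X ∩ N)) :
    m ≤ finrank ℝ B ∧ (m = finrank ℝ B → π '' X ∈ 𝓝 (π x)) := by
  obtain ⟨h, φ, U, O, -, hO, hx, -, hφ, hhm, hφm, hφh, hhφ⟩ := hc
  have hO' := hO.mem_nhds (hhm hx)
  have hN' : O ∩ φ ⁻¹' N ∈ 𝓝 (h x) :=
    inter_mem hO' ((hφ.continuousAt hO').preimage_mem_nhds (by rwa [hφh x hx]))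
  have h1 : ContinuousOn (fun z => π (φ z)) (O ∩ φ ⁻¹' N) :=
    hπ.comp_continuousOn (hφ.mono inter_subset_left)
  have h2 : InjOn (fun z => π (φ z)) (O ∩ φ ⁻¹' N) := by
    intro z hz z' hz' e
    rw [← hhφ z hz.1, ← hhφ z' hz'.1, hinj ⟨(hφm hz.1).1, hz.2⟩ ⟨(hφm hz'.1).1, hz'.2⟩ e]
  refine ⟨by simpa using iod_le hN' h1 h2, fun hm => ?_⟩
  have h3 := iod hN' h1 h2 (by simpa using hm)
  simp only [hφh x hx] at h3
  refine mem_of_superset h3 ?_
  rintro _ ⟨z, hz, rfl⟩
  exact ⟨_, (hφm hz.1).1, rfl⟩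

theorem LC.nosep {V : Type} [Fintype V] [DecidableEq V] {X : Set (V → ℝ)} {m : ℕ} {x : V → ℝ}
    (hc : LC X m x) (hm : 0 < m) {A B : Set (V → ℝ)} (hA : IsClosed A) (hB : IsClosed B)
    (hcov : X ⊆ A ∪ B)
    (hK : ∀ y ∈ A ∩ B, ∃ s : Finset V, s.card < m ∧ ∑ v, y v = 1 ∧ ∀ v, v ∉ s → y v = 0)
    (hxA : x ∈ closure (X \ A)) (hxB : x ∈ closure (X \ B)) : False := by
  obtain ⟨h, φ, U, O, hU, hO, hx, hh, hφ, hhm, hφm, hφh, hhφ⟩ := hc
  obtain ⟨r2, hr2, hball⟩ := Metric.nhds_basis_closedBall.mem_iff.1 (hO.mem_nhds (hhm hx))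
  set r := r2 / 2 with hr
  have hr0 : 0 < r := by positivity
  have pick : ∀ C : Set (V → ℝ), IsClosed C → x ∈ closure (X \ C) →
      ∃ a, dist a (h x) < r ∧ ∃ ε > 0, ∀ z, dist z a < ε → φ z ∉ C := by
    intro C hC hxC
    have h1 := (hh x hx).preimage_mem_nhdsWithin (ball_mem_nhds (h x) hr0)
    obtain ⟨W, hW, hW'⟩ := mem_nhdsWithin_iff_exists_mem_nhds_inter.1 h1
    obtain ⟨y, hy1, hy2⟩ := mem_closure_iff_nhds.1 hxC _ (inter_mem hW (hU.mem_nhds hx.2))
    have hy : y ∈ X ∩ U := ⟨hy2.1, hy1.2⟩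
    refine ⟨h y, hW' ⟨hy1.1, hy⟩, ?_⟩
    have h2 := (hφ.continuousAt (hO.mem_nhds (hhm hy))).preimage_mem_nhds
      (hC.isOpen_compl.mem_nhds (by rw [hφh y hy]; exact hy2.2))
    obtain ⟨ε, hε, hε'⟩ := Metric.mem_nhds_iff.1 h2
    exact ⟨ε, hε, fun z hz => hε' hz⟩
  obtain ⟨a, ha, ε1, hε1, ha'⟩ := pick B hB hxB
  obtain ⟨b, hb, ε2, hε2, hb'⟩ := pick A hA hxA
  set ε := min (min ε1 ε2) r with hε
  have hε0 : 0 < ε := by positivity
  have hφS : ContinuousOn φ (closedBall (h x) r2) := hφ.mono hball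
  obtain ⟨H, hH, hHφ⟩ := tietze_compact (isCompact_closedBall (h x) r2) hφS
    (fun z hz z' hz' e => by rw [← hhφ z (hball hz), ← hhφ z' (hball hz'), e])
    (g := fun z => z) continuousOn_id
  obtain ⟨g, hg, hgH, -⟩ := hH.exists_contDiff_approx 1 (ε := fun _ => ε / 2) continuous_const
    (fun _ => by positivity)
  let ι : (s : Finset V) → (s → ℝ) → (V → ℝ) := fun s y => ∑ w : s, y w • Pi.single (w : V) 1
  let Ψ : (s : Finset V) → V → (s → ℝ) → Eu m := fun s s0 y =>
    g (ι s y + (1 - ∑ w, y w) • Pi.single s0 1) - (a + (∑ w, y w) • (b - a))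
  have hΨ : ∀ s s0, ContDiff ℝ 1 (Ψ s s0) := by
    intro s s0
    apply ContDiff.sub (hg.comp _) (by fun_prop)
    simp only [ι]
    fun_prop
  obtain ⟨w, hw, hwΨ⟩ : ∃ w : Eu m, ‖w‖ < ε / 2 ∧
      ∀ (s : Finset V) s0, s.card < m → w ∉ range (Ψ s s0) := by
    have hd : dimH (⋃ e : {e : Finset V × V // e.1.card < m}, range (Ψ e.1.1 e.1.2))
        < finrank ℝ (Eu m) := by
      rw [dimH_iUnion]
      refine lt_of_le_of_lt (iSup_le (fun e => (hΨ _ _).dimH_range_le.trans
        (Nat.cast_le.2 (show _ ≤ m - 1 by have := e.2; simp; omega)))) (Nat.cast_lt.2 ?_)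
      simp; omega
    obtain ⟨w, hw1, hw2⟩ := (dense_compl_of_dimH_lt_finrank hd).exists_mem_open isOpen_ball
      (nonempty_ball.2 (show 0 < ε / 2 by positivity) : (ball (0 : Eu m) (ε / 2)).Nonempty)
    refine ⟨w, by simpa using hw2, fun s s0 hs h => hw1 (mem_iUnion.2 ⟨⟨(s, s0), hs⟩, h⟩)⟩
  let ψ : Eu m → Eu m := fun z => g (φ z) - w
  have hψ : ContinuousOn ψ (closedBall (h x) r2) :=
    (hg.continuous.comp_continuousOn hφS).sub continuousOn_const
  have hψz : ∀ z ∈ closedBall (h x) r2, ‖z - ψ z‖ < ε := by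
    intro z hz
    have h1 := hgH (φ z)
    rw [hHφ z hz, dist_comm, dist_eq_norm] at h1
    calc ‖z - ψ z‖ = ‖(z - g (φ z)) + w‖ := by congr 1; simp only [ψ]; abel
      _ ≤ ‖z - g (φ z)‖ + ‖w‖ := norm_add_le _ _
      _ < ε := by linarith
  let Sg : Set (Eu m) := (fun t : ℝ => a + t • (b - a)) '' Icc 0 1
  have hSg : IsClosed Sg := (isCompact_Icc.image (by fun_prop)).isClosed
  have hcl : ∀ C : Set (V → ℝ), IsClosed C →
      IsClosed (closedBall (h x) r2 ∩ (fun z => (ψ z, φ z)) ⁻¹' (Sg ×ˢ C)) := fun C hC =>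
    (hψ.prodMk hφS).preimage_isClosed_of_isClosed isClosed_closedBall (hSg.prod hC)
  obtain ⟨τ, hτ0, hτ1, hτ⟩ := exists_continuous_zero_one_of_isClosed (hcl B hB) (hcl A hA) (by
    rw [Set.disjoint_left]
    rintro z ⟨-, ⟨t, -, ht⟩, hzB⟩ ⟨-, -, hzA⟩
    obtain ⟨s, hs, hsum, hsupp⟩ := hK (φ z) ⟨hzA, hzB⟩
    obtain ⟨s0, hs0⟩ : s.Nonempty := by
      rw [Finset.nonempty_iff_ne_empty]
      rintro rfl
      simp [hsupp] at hsum
    apply hwΨ s s0 hs
    have e1 : ∑ v : s, φ z v = 1 := by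
      rw [← hsum, Finset.sum_coe_sort s (φ z)]
      exact Finset.sum_subset (Finset.subset_univ _) (fun v _ hv => hsupp v hv)
    have e2 : ∑ v : s, (φ z v + if (v : V) = s0 then t - 1 else 0) = t := by
      rw [Finset.sum_add_distrib, e1, Finset.sum_coe_sort s (fun v => if v = s0 then t - 1 else 0)]
      simp [hs0]
    refine ⟨fun v => φ z v + if (v : V) = s0 then t - 1 else 0, ?_⟩
    simp only [Ψ, e2]
    have e3 : ι s (fun v => φ z v + if (v : V) = s0 then t - 1 else 0) + (1 - t) • Pi.single s0 1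
        = φ z := by
      funext v
      simp only [ι, Pi.add_apply, Finset.sum_apply, Pi.smul_apply, Pi.single_apply, smul_eq_mul,
        mul_ite, mul_one, mul_zero]
      rw [Finset.sum_coe_sort s (fun u => if v = u then φ z u + (if u = s0 then t - 1 else 0) else 0),
        Finset.sum_ite_eq]
      by_cases hv : v ∈ s
      · by_cases hv0 : v = s0
        · simp only [hv0, hs0, if_true]; ring
        · simp [hv, hv0]
      · have : v ≠ s0 := fun e => hv (e ▸ hs0)
        simp [hv, this, hsupp v hv]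
    rw [e3]
    simp only [ψ] at ht
    rw [ht]; abel)
  obtain ⟨z, hz, hz0⟩ := brouwer_ball hr2 (x := h x) (F := fun z => ψ z - (a + τ z • (b - a)))
    (hψ.sub (by fun_prop)) (by
      intro z hz
      have h1 := hψz z hz
      have h2 : ‖a + τ z • (b - a) - h x‖ ≤ r := by
        have e : a + τ z • (b - a) - h x = (1 - τ z) • (a - h x) + τ z • (b - h x) := by module
        rw [dist_eq_norm] at ha hb
        rw [e]
        refine (norm_add_le _ _).trans ?_
        rw [norm_smul, norm_smul, Real.norm_eq_abs, Real.norm_eq_abs,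
          abs_of_nonneg (sub_nonneg.2 (hτ z).2), abs_of_nonneg (hτ z).1]
        nlinarith [(hτ z).1, (hτ z).2]
      have h3 : ε ≤ r := min_le_right _ _
      calc ‖z - (ψ z - (a + τ z • (b - a))) - h x‖
          = ‖(z - ψ z) + (a + τ z • (b - a) - h x)‖ := by congr 1; abel
        _ ≤ _ := norm_add_le _ _
        _ ≤ r2 := by linarith)
  have hz1 : ψ z = a + τ z • (b - a) := sub_eq_zero.1 hz0
  have hzS : ψ z ∈ Sg := ⟨τ z, hτ z, hz1.symm⟩
  have h1 := hψz z hz
  rcases hcov (hφm (hball hz)).1 with hzA | hzB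
  · have := hτ1 (show z ∈ _ from ⟨hz, hzS, hzA⟩)
    rw [hz1, this] at h1
    apply hb' z _ hzA
    rw [dist_eq_norm]
    have h3 : ε ≤ ε2 := (min_le_left _ _).trans (min_le_right _ _)
    simpa using h1.trans_le h3
  · have := hτ0 (show z ∈ _ from ⟨hz, hzS, hzB⟩)
    rw [hz1, this] at h1
    apply ha' z _ hzB
    rw [dist_eq_norm]
    have h3 : ε ≤ ε1 := (min_le_left _ _).trans (min_le_left _ _)
    simpa using h1.trans_le h3

end Pool.Agent.MP_d539bc_co

end

section

/-! Triangulated connected manifolds are strongly connected pseudomanifolds. -/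

namespace Pool.Agent.MP_d539bc_co

open Metric Set Module Topology Filter

variable {V : Type} [Fintype V] [DecidableEq V]

structure PM (K : AbstractSimplicialComplex V) (d : ℕ) : Prop where
  pure : ∀ s ∈ K.faces, ∃ t ∈ K.faces, s ⊆ t ∧ t.card = d
  ridge : ∀ R ∈ K.faces, R.card + 1 = d → ∃ z1 z2, z1 ≠ z2 ∧ z1 ∉ R ∧ z2 ∉ R ∧
    insert z1 R ∈ K.faces ∧ insert z2 R ∈ K.faces ∧
    ∀ z, z ∉ R → insert z R ∈ K.faces → z = z1 ∨ z = z2
  strong : ∀ S : Finset V → Prop, (∀ (R : Finset V) z z', R.card + 1 = d → z ∉ R → z' ∉ R →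
    insert z R ∈ K.faces → insert z' R ∈ K.faces → S (insert z R) → S (insert z' R)) →
    ∀ F ∈ K.faces, ∀ F' ∈ K.faces, F.card = d → F'.card = d → S F → S F'

omit [Fintype V] [DecidableEq V] in
lemma face_down {K : AbstractSimplicialComplex V} {s t : Finset V} (hs : s ∈ K.faces) (h : t ⊆ s)
    (ht : t.Nonempty) : t ∈ K.faces := (K.isRelLowerSet_faces hs).2 h ht

omit [Fintype V] [DecidableEq V] in
lemma face_nonempty {K : AbstractSimplicialComplex V} {s : Finset V} (hs : s ∈ K.faces) :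
    s.Nonempty := (K.isRelLowerSet_faces hs).1

noncomputable def bary (s : Finset V) : V → ℝ := fun v => if v ∈ s then (s.card : ℝ)⁻¹ else 0

def Sx (s : Finset V) : Set (V → ℝ) := {y | (∀ v, 0 ≤ y v) ∧ ∑ v, y v = 1 ∧ ∀ v, v ∉ s → y v = 0}

def Nb (s : Finset V) : Set (V → ℝ) := {y | ∀ v ∈ s, 0 < y v}

omit [DecidableEq V] in
lemma isClosed_Sx (s : Finset V) : IsClosed (Sx s) := by
  simp only [Sx, ofPred_and, ofPred_forall]
  refine (isClosed_iInter (fun v => isClosed_le continuous_const (continuous_apply v))).inter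
    ((isClosed_eq (by fun_prop) continuous_const).inter
      (isClosed_iInter (fun v => isClosed_iInter (fun _ =>
        isClosed_eq (continuous_apply v) continuous_const))))

omit [Fintype V] [DecidableEq V] in
lemma isOpen_Nb (s : Finset V) : IsOpen (Nb s) := by
  simp only [Nb, ofPred_forall]
  exact isOpen_biInter_finset (fun v _ => isOpen_lt continuous_const (continuous_apply v))

omit [Fintype V] in
lemma bary_pos {s : Finset V} {v : V} (hv : v ∈ s) : 0 < bary s v := by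
  have : 0 < s.card := Finset.card_pos.2 ⟨v, hv⟩
  simp [bary, hv, this]

omit [Fintype V] in
lemma bary_zero {s : Finset V} {v : V} (hv : v ∉ s) : bary s v = 0 := by simp [bary, hv]

omit [Fintype V] in
lemma bary_mem_Nb (s : Finset V) : bary s ∈ Nb s := fun _ hv => bary_pos hv

lemma bary_mem_Sx {s : Finset V} (hs : s.Nonempty) : bary s ∈ Sx s := by
  refine ⟨fun v => ?_, ?_, fun v hv => bary_zero hv⟩
  · by_cases hv : v ∈ s
    · exact (bary_pos hv).le
    · rw [bary_zero hv]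
  · have : (s.card : ℝ) ≠ 0 := by exact_mod_cast (Finset.card_pos.2 hs).ne'
    simp [bary, Finset.sum_ite_mem, this]

omit [DecidableEq V] in
lemma mem_real {K : AbstractSimplicialComplex V} {y : V → ℝ} :
    y ∈ realization K ↔ ∃ s ∈ K.faces, y ∈ Sx s := by
  simp only [realization, Sx, mem_ofPred_eq]
  constructor
  · rintro ⟨h1, h2, s, hs, h3⟩; exact ⟨s, hs, h1, h2, h3⟩
  · rintro ⟨s, hs, h1, h2, h3⟩; exact ⟨h1, h2, s, hs, h3⟩

omit [DecidableEq V] in
lemma sub_of_Nb {s t : Finset V} {y : V → ℝ} (h1 : y ∈ Nb s) (h2 : y ∈ Sx t) : s ⊆ t := by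
  intro v hv
  by_contra h
  exact (h1 v hv).ne' (h2.2.2 v h)

omit [DecidableEq V] in
lemma Sx_mono {s t : Finset V} (h : s ⊆ t) : Sx s ⊆ Sx t :=
  fun _ hy => ⟨hy.1, hy.2.1, fun v hv => hy.2.2 v (fun h' => hv (h h'))⟩

omit [DecidableEq V] in
lemma Sx_convex {s : Finset V} {y y' : V → ℝ} (h : y ∈ Sx s) (h' : y' ∈ Sx s) {t : ℝ}
    (h0 : 0 ≤ t) (h1 : t ≤ 1) : (1 - t) • y + t • y' ∈ Sx s := by
  refine ⟨fun v => ?_, ?_, fun v hv => by simp [h.2.2 v hv, h'.2.2 v hv]⟩
  · have := h.1 v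
    have := h'.1 v
    have : 0 ≤ 1 - t := by linarith
    simp only [Pi.add_apply, Pi.smul_apply, smul_eq_mul]
    positivity
  · simp [Finset.sum_add_distrib, ← Finset.mul_sum, h.2.1, h'.2.1]

omit [Fintype V] [DecidableEq V] in
lemma tendsto_seg (y y' : V → ℝ) :
    Tendsto (fun t : ℝ => (1 - t) • y + t • y') (𝓝[>] 0) (𝓝 y) := by
  apply Tendsto.mono_left _ nhdsWithin_le_nhds
  have : Continuous (fun t : ℝ => (1 - t) • y + t • y') := by fun_prop
  simpa using this.tendsto 0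

lemma injOn_restr (t : Finset V) (s0 : V) :
    InjOn (fun (y : V → ℝ) (v : t.erase s0) => y v) (Sx t) := by
  intro y hy y' hy' h
  have h1 : ∀ v, v ≠ s0 → y v = y' v := by
    intro v hv
    by_cases hvt : v ∈ t
    · exact congrFun h ⟨v, Finset.mem_erase.2 ⟨hv, hvt⟩⟩
    · rw [hy.2.2 v hvt, hy'.2.2 v hvt]
  funext v
  by_cases hv : v = s0
  · have e1 := hy.2.1
    have e2 := hy'.2.1
    rw [← Finset.add_sum_erase _ _ (Finset.mem_univ s0)] at e1 e2
    rw [Finset.sum_congr rfl (fun v hv => h1 v (Finset.ne_of_mem_erase hv))] at e1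
    rw [hv]; linarith
  · exact h1 v hv

lemma out_gen {K : AbstractSimplicialComplex V} {m : ℕ} {s t : Finset V}
    (hc : LC (realization K) m (bary s)) (ht : ∀ t' ∈ K.faces, s ⊆ t' → t' ⊆ t) {s0 : V}
    (hs0 : s0 ∈ t) : m + 1 ≤ t.card ∧ (m + 1 = t.card →
      (fun (y : V → ℝ) (v : t.erase s0) => y v) '' realization K ∈
        𝓝 (fun v : t.erase s0 => bary s v)) := by
  have := hc.out (π := fun (y : V → ℝ) (v : t.erase s0) => y v) (by fun_prop)
    ((isOpen_Nb s).mem_nhds (bary_mem_Nb s)) ((injOn_restr t s0).mono (by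
      rintro y ⟨h1, h2⟩
      obtain ⟨t', ht', h3⟩ := mem_real.1 h1
      exact Sx_mono (ht t' ht' (sub_of_Nb h2 h3)) h3))
  have e := Finset.card_erase_add_one hs0
  simp only [finrank_fintype_fun_eq_card, Fintype.card_coe] at this
  exact ⟨by omega, fun h => this.2 (by omega)⟩

lemma into_gen {K : AbstractSimplicialComplex V} {m : ℕ} {s : Finset V}
    (hc : LC (realization K) m (bary s)) {s0 : V} (hs0 : s0 ∈ s) {ι : Type} [Fintype ι]
    {ω : (ι → ℝ) → (V → ℝ)} (hω : Continuous ω) (hinj : Function.Injective ω) (h0 : ω 0 = 0)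
    (h1 : ∀ w, ω w s0 = 0) (h2 : ∀ w v, v ∉ s → 0 ≤ ω w v)
    (h3 : ∀ w, ∃ t ∈ K.faces, s ⊆ t ∧ ∀ v, v ∉ t → ω w v = 0) :
    Fintype.card ι ≤ m ∧ (Fintype.card ι = m →
      ∀ᶠ y in 𝓝[realization K] (bary s), ∃ w, ∀ v, v ∉ s → y v = ω w v) := by
  let ρ : (ι → ℝ) → (V → ℝ) := fun w => bary s + ω w - (∑ v, ω w v) • Pi.single s0 1
  have hρ : Continuous ρ := by fun_prop
  have hρv : ∀ w v, v ≠ s0 → ρ w v = bary s v + ω w v := by
    intro w v hv; simp [ρ, hv]
  have hρ0 : ρ 0 = bary s := by simp [ρ, h0]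
  have := hc.into hρ (by
    intro w w' h
    apply hinj
    funext v
    by_cases hv : v = s0
    · rw [hv, h1, h1]
    · have := congrFun h v
      rw [hρv w v hv, hρv w' v hv] at this
      linarith) hρ0 (by
    have : ρ ⁻¹' Nb s ∈ 𝓝 0 := hρ.continuousAt.preimage_mem_nhds
      (by rw [hρ0]; exact (isOpen_Nb s).mem_nhds (bary_mem_Nb s))
    filter_upwards [this] with w hw
    obtain ⟨t, ht, hst, ht'⟩ := h3 w
    refine mem_real.2 ⟨t, ht, fun v => ?_, ?_, fun v hv => ?_⟩
    · by_cases hv : v ∈ s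
      · exact (hw v hv).le
      · rw [hρv w v (fun e => hv (e ▸ hs0)), bary_zero hv, zero_add]; exact h2 w v hv
    · simp [ρ, Finset.sum_add_distrib, (bary_mem_Sx ⟨s0, hs0⟩).2.1, Pi.single_apply]
    · rw [hρv w v (fun e => hv (e ▸ hst hs0)), bary_zero (fun h => hv (hst h)), ht' v hv, zero_add])
  simp only [finrank_fintype_fun_eq_card] at this
  refine ⟨this.1, fun h => ?_⟩
  filter_upwards [this.2 h] with y hy
  obtain ⟨w, rfl⟩ := hy
  exact ⟨w, fun v hv => by rw [hρv w v (fun e => hv (e ▸ hs0)), bary_zero hv, zero_add]⟩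

lemma bary_mem_real {K : AbstractSimplicialComplex V} {s : Finset V} (hs : s ∈ K.faces) :
    bary s ∈ realization K := mem_real.2 ⟨s, hs, bary_mem_Sx (face_nonempty hs)⟩

lemma card_le_of_lc {K : AbstractSimplicialComplex V} {m : ℕ} {s : Finset V} (hs : s ∈ K.faces)
    (hc : LC (realization K) m (bary s)) : s.card ≤ m + 1 := by
  obtain ⟨s0, hs0⟩ := face_nonempty hs
  have := (into_gen hc hs0 (ι := s.erase s0)
    (ω := fun w v => if h : v ∈ s.erase s0 then w ⟨v, h⟩ else 0)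
    (continuous_pi (fun v => by split_ifs <;> fun_prop))
    (fun w w' h => by funext v; simpa [v.2] using congrFun h v)
    (by funext v; simp) (by simp) (fun w v hv => by simp [hv])
    (fun w => ⟨s, hs, subset_rfl, fun v hv => by simp [hv]⟩)).1
  have e := Finset.card_erase_add_one hs0
  simp only [Fintype.card_coe] at this
  omega

omit [DecidableEq V] in
lemma exists_max_face {K : AbstractSimplicialComplex V} {s : Finset V} (hs : s ∈ K.faces) :
    ∃ t ∈ K.faces, s ⊆ t ∧ ∀ t' ∈ K.faces, t ⊆ t' → t' ⊆ t := by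
  obtain ⟨t, ht, hmax⟩ := (Set.toFinite K.faces).exists_le_maximal hs
  exact ⟨t, hmax.1, ht, fun t' h1 h2 => hmax.2 h1 h2⟩

section main

variable {K : AbstractSimplicialComplex V} {m d : ℕ}
  (hc : ∀ x ∈ realization K, LC (realization K) m x) (hdim : HasDim K d)
include hc hdim

lemma pure_of_lc : m + 1 = d ∧ ∀ s ∈ K.faces, ∃ t ∈ K.faces, s ⊆ t ∧ t.card = d := by
  obtain ⟨F, hF, hFc⟩ := hdim.2
  have h1 := card_le_of_lc hF (hc _ (bary_mem_real hF))
  have key : ∀ s ∈ K.faces, ∃ t ∈ K.faces, s ⊆ t ∧ m + 1 ≤ t.card := by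
    intro s hs
    obtain ⟨t, ht, hst, hmax⟩ := exists_max_face hs
    obtain ⟨s0, hs0⟩ := face_nonempty ht
    exact ⟨t, ht, hst, (out_gen (hc _ (bary_mem_real ht)) hmax hs0).1⟩
  obtain ⟨t, ht, -, h2⟩ := key F hF
  have h3 := hdim.1 t ht
  refine ⟨by omega, fun s hs => ?_⟩
  obtain ⟨t, ht, hst, h2⟩ := key s hs
  have h3 := hdim.1 t ht
  exact ⟨t, ht, hst, by omega⟩

lemma ridge_two {R : Finset V} (hR : R ∈ K.faces) (hRc : R.card + 1 = d) {z : V} (hz : z ∉ R) :
    ∃ z', z' ≠ z ∧ z' ∉ R ∧ insert z' R ∈ K.faces := by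
  by_contra hcon
  push Not at hcon
  obtain ⟨s0, hs0⟩ := face_nonempty hR
  have h1 := (out_gen (hc _ (bary_mem_real hR)) (t := insert z R) (fun t ht hRt v hv => by
    by_contra hv'
    rw [Finset.mem_insert, not_or] at hv'
    exact hcon v hv'.1 hv'.2 (face_down ht (Finset.insert_subset hv hRt)
      (Finset.insert_nonempty _ _))) (Finset.mem_insert_of_mem hs0)).2
    (by rw [Finset.card_insert_of_notMem hz, hRc, (pure_of_lc hc hdim).1])
  let j : (insert z R).erase s0 :=
    ⟨z, Finset.mem_erase.2 ⟨fun e => hz (e ▸ hs0), Finset.mem_insert_self _ _⟩⟩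
  have h2 : Tendsto (fun t : ℝ => (fun v : (insert z R).erase s0 => bary R v) - t • Pi.single j 1)
      (𝓝[>] 0) (𝓝 (fun v : (insert z R).erase s0 => bary R v)) := by
    apply Tendsto.mono_left _ nhdsWithin_le_nhds
    have : Continuous (fun t : ℝ =>
      (fun v : (insert z R).erase s0 => bary R v) - t • (Pi.single j 1 : _ → ℝ)) := by fun_prop
    simpa using this.tendsto 0
  obtain ⟨t, ⟨y, hy, e⟩, ht⟩ := ((h2.eventually h1).and self_mem_nhdsWithin).exists
  have h3 := congrFun e j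
  have h4 := hy.1 z
  simp [j, bary_zero hz] at h3
  have : 0 < t := ht
  linarith

lemma ridge_not_three {R : Finset V} (hR : R ∈ K.faces) (hRc : R.card + 1 = d) {z1 z2 z3 : V}
    (h1 : z1 ∉ R) (h2 : z2 ∉ R) (h3 : z3 ∉ R) (h12 : z1 ≠ z2) (h31 : z3 ≠ z1) (h32 : z3 ≠ z2)
    (f1 : insert z1 R ∈ K.faces) (f2 : insert z2 R ∈ K.faces) (f3 : insert z3 R ∈ K.faces) :
    False := by
  obtain ⟨s0, hs0⟩ := face_nonempty hR
  let j : R := ⟨s0, hs0⟩
  have n1 : z1 ∉ R.erase s0 := fun h => h1 (Finset.mem_of_mem_erase h)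
  have n2 : z2 ∉ R.erase s0 := fun h => h2 (Finset.mem_of_mem_erase h)
  have n3 : z3 ∉ R.erase s0 := fun h => h3 (Finset.mem_of_mem_erase h)
  have e1 : s0 ≠ z1 := fun e => h1 (e ▸ hs0)
  have e2 : s0 ≠ z2 := fun e => h2 (e ▸ hs0)
  have := (into_gen (hc _ (bary_mem_real hR)) hs0 (ι := R)
    (ω := fun w v => if h : v ∈ R.erase s0 then w ⟨v, Finset.mem_of_mem_erase h⟩ else
      if v = z1 then max (w j) 0 else if v = z2 then max (-w j) 0 else 0)
    (continuous_pi (fun v => by split_ifs <;> fun_prop))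
    (fun w w' h => by
      funext v
      by_cases hv : v = j
      · have a1 := congrFun h z1
        have a2 := congrFun h z2
        simp only [n1, n2, dif_neg, not_false_iff, if_true, h12.symm, if_false] at a1 a2
        rw [hv, ← max_zero_sub_max_neg_zero_eq_self (w j), a1, a2,
          max_zero_sub_max_neg_zero_eq_self]
      · have hv' : (v : V) ∈ R.erase s0 :=
          Finset.mem_erase.2 ⟨fun e => hv (Subtype.ext e), v.2⟩
        simpa only [hv', dif_pos] using congrFun h v)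
    (by funext v; simp) (by simp [e1, e2])
    (fun w v hv => by
      have : v ∉ R.erase s0 := fun h => hv (Finset.mem_of_mem_erase h)
      simp only [this, dif_neg, not_false_iff]
      split_ifs <;> simp)
    (fun w => by
      rcases le_total 0 (w j) with h | h
      · refine ⟨_, f1, Finset.subset_insert _ _, fun v hv => ?_⟩
        rw [Finset.mem_insert, not_or] at hv
        have : v ∉ R.erase s0 := fun h => hv.2 (Finset.mem_of_mem_erase h)
        simp only [this, dif_neg, not_false_iff, hv.1, if_false]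
        split_ifs <;> simp [h]
      · refine ⟨_, f2, Finset.subset_insert _ _, fun v hv => ?_⟩
        rw [Finset.mem_insert, not_or] at hv
        have : v ∉ R.erase s0 := fun h => hv.2 (Finset.mem_of_mem_erase h)
        simp only [this, dif_neg, not_false_iff, hv.1, if_false]
        split_ifs <;> simp [h])).2
    (by have := (pure_of_lc hc hdim).1; simp only [Fintype.card_coe]; omega)
  have hlt : ∀ᶠ t : ℝ in 𝓝[>] 0, t < 1 := nhdsWithin_le_nhds (Iio_mem_nhds one_pos)
  have ht : Tendsto (fun t : ℝ => (1 - t) • bary R + t • bary (insert z3 R)) (𝓝[>] 0)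
      (𝓝[realization K] (bary R)) := by
    apply tendsto_nhdsWithin_of_tendsto_nhds_of_eventually_within _ (tendsto_seg _ _)
    filter_upwards [hlt, self_mem_nhdsWithin] with t h1 h0
    exact mem_real.2 ⟨_, f3, Sx_convex (Sx_mono (Finset.subset_insert _ _) (bary_mem_Sx ⟨s0, hs0⟩))
      (bary_mem_Sx (Finset.insert_nonempty _ _)) (le_of_lt h0) h1.le⟩
  obtain ⟨t, ⟨w, hw⟩, ht0⟩ := ((ht.eventually this).and self_mem_nhdsWithin).exists
  have h4 := hw z3 h3
  have h5 : 0 < t := ht0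
  have h6 := bary_pos (Finset.mem_insert_self z3 R)
  simp only [n3, dif_neg, not_false_iff, h31, h32, if_false, Pi.add_apply, Pi.smul_apply,
    bary_zero h3, smul_eq_mul, mul_zero, zero_add] at h4
  exact (mul_pos h5 h6).ne' h4

theorem pm_of_lc (hd : 2 ≤ d) (hconn : IsPreconnected (realization K)) : PM K d := by
  obtain ⟨hm, hpure⟩ := pure_of_lc hc hdim
  refine ⟨hpure, fun R hR hRc => ?_, ?_⟩
  · obtain ⟨t, ht, hRt, htc⟩ := hpure R hR
    obtain ⟨z1, hz1, hz1'⟩ : ∃ z ∈ t, z ∉ R := Finset.exists_mem_notMem_of_card_lt_card (by omega)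
    have f1 := face_down ht (Finset.insert_subset hz1 hRt) (Finset.insert_nonempty _ _)
    obtain ⟨z2, h21, hz2, f2⟩ := ridge_two hc hdim hR hRc hz1'
    refine ⟨z1, z2, h21.symm, hz1', hz2, f1, f2, fun z hz f3 => ?_⟩
    by_contra h
    push Not at h
    exact ridge_not_three hc hdim hR hRc hz1' hz2 hz h21.symm h.1 h.2 f1 f2 f3
  intro S hS F hF F' hF' hFc hFc' hSF
  by_contra hSF'
  let U : (Finset V → Prop) → Set (V → ℝ) := fun P =>
    ⋃ t ∈ {t | t ∈ K.faces ∧ t.card = d ∧ P t}, Sx t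
  have hU : ∀ P y, y ∈ U P ↔ ∃ t, (t ∈ K.faces ∧ t.card = d ∧ P t) ∧ y ∈ Sx t := by
    intro P y; simp only [U, mem_iUnion, exists_prop]; rfl
  have hUc : ∀ P, IsClosed (U P) := fun P =>
    (Set.toFinite _).isClosed_biUnion (fun t _ => isClosed_Sx t)
  have hcov : realization K ⊆ U S ∪ U (fun t => ¬ S t) := by
    intro y hy
    obtain ⟨s, hs, hy⟩ := mem_real.1 hy
    obtain ⟨t, ht, hst, htc⟩ := hpure s hs
    by_cases h : S t
    · exact Or.inl ((hU _ _).2 ⟨t, ⟨ht, htc, h⟩, Sx_mono hst hy⟩)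
    · exact Or.inr ((hU _ _).2 ⟨t, ⟨ht, htc, h⟩, Sx_mono hst hy⟩)
  obtain ⟨x, hx, hx1, hx2⟩ := isPreconnected_closed_iff.1 hconn _ _ (hUc _) (hUc _) hcov
    ⟨_, bary_mem_real hF, (hU _ _).2 ⟨F, ⟨hF, hFc, hSF⟩, bary_mem_Sx (face_nonempty hF)⟩⟩
    ⟨_, bary_mem_real hF', (hU _ _).2 ⟨F', ⟨hF', hFc', hSF'⟩, bary_mem_Sx (face_nonempty hF')⟩⟩
  have hcl : ∀ P Q : Finset V → Prop, (∀ t, P t → ¬ Q t) → x ∈ U P →
      x ∈ closure (realization K \ U Q) := by
    intro P Q hPQ hxP
    obtain ⟨s, ⟨hs, hsc, hPs⟩, hxs⟩ := (hU _ _).1 hxP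
    apply mem_closure_of_tendsto (tendsto_seg x (bary s))
    have hlt : ∀ᶠ t : ℝ in 𝓝[>] 0, t < 1 := nhdsWithin_le_nhds (Iio_mem_nhds one_pos)
    filter_upwards [hlt, self_mem_nhdsWithin] with t h1 h0
    have h0 : 0 < t := h0
    refine ⟨mem_real.2 ⟨s, hs, Sx_convex hxs (bary_mem_Sx (face_nonempty hs)) h0.le h1.le⟩, ?_⟩
    intro h
    obtain ⟨s', ⟨-, hsc', hQs⟩, hy⟩ := (hU _ _).1 h
    have : s ⊆ s' := sub_of_Nb (fun v hv => by
      have := hxs.1 v
      have := bary_pos hv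
      have : 0 ≤ 1 - t := by linarith
      simp only [Pi.add_apply, Pi.smul_apply, smul_eq_mul]
      positivity) hy
    rw [← Finset.eq_of_subset_of_card_le this (by omega)] at hQs
    exact hPQ s hPs hQs
  refine (hc x hx).nosep (by omega) (hUc _) (hUc _) hcov ?_
    (hcl _ _ (fun t h => h) hx2) (hcl _ _ (fun t h => not_not.2 h) hx1)
  rintro y ⟨hy1, hy2⟩
  obtain ⟨s, ⟨hs, hsc, hPs⟩, hys⟩ := (hU _ _).1 hy1
  obtain ⟨s', ⟨hs', hsc', hPs'⟩, hys'⟩ := (hU _ _).1 hy2
  refine ⟨s ∩ s', ?_, hys.2.1, fun v hv => ?_⟩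
  · by_contra hlt
    push Not at hlt
    have hne : s ≠ s' := fun e => hPs' (e ▸ hPs)
    obtain ⟨z, hz, hz'⟩ : ∃ z ∈ s, z ∉ s' := by
      by_contra h
      push Not at h
      exact hne (Finset.eq_of_subset_of_card_le h (by omega))
    obtain ⟨z', hw, hw'⟩ : ∃ z ∈ s', z ∉ s := by
      by_contra h
      push Not at h
      exact hne (Finset.eq_of_subset_of_card_le h (by omega)).symm
    have a1 : z ∉ s ∩ s' := fun h => hz' (Finset.mem_inter.1 h).2
    have a2 : z' ∉ s ∩ s' := fun h => hw' (Finset.mem_inter.1 h).1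
    have b1 : insert z (s ∩ s') = s := Finset.eq_of_subset_of_card_le
      (Finset.insert_subset hz Finset.inter_subset_left)
      (by rw [Finset.card_insert_of_notMem a1]; omega)
    have b2 : insert z' (s ∩ s') = s' := Finset.eq_of_subset_of_card_le
      (Finset.insert_subset hw Finset.inter_subset_right)
      (by rw [Finset.card_insert_of_notMem a2]; omega)
    have := hS (s ∩ s') z z' (by rw [← Finset.card_insert_of_notMem a1, b1, hsc]) a1 a2
      (by rwa [b1]) (by rwa [b2]) (by rwa [b1])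
    rw [b2] at this
    exact hPs' this
  · rw [Finset.mem_inter, not_and_or] at hv
    exact hv.elim (hys.2.2 v) (hys'.2.2 v)

end main

theorem pm_of_manifold {K : AbstractSimplicialComplex V} {d : ℕ} (hd : 2 ≤ d) (hdim : HasDim K d)
    (h : IsConnManifold K) : PM K d := by
  obtain ⟨h1, m, ⟨c⟩⟩ := h
  exact pm_of_lc (fun x hx => lc_of_charted c hx) hdim hd h1.isPreconnected

theorem pm_of_sphere {K : AbstractSimplicialComplex V} {d : ℕ} (hd : 2 ≤ d) (hdim : HasDim K d)
    (h : IsSphere K) : PM K d := by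
  obtain ⟨m, ⟨e⟩⟩ := h
  have c : ChartedSpace (Eu m) (realization K) := e.symm.chartedSpace
  have hc : ∀ x ∈ realization K, LC (realization K) m x := fun x hx => lc_of_charted c hx
  have hm := (pure_of_lc hc hdim).1
  refine pm_of_lc hc hdim hd ?_
  have h1 : IsPreconnected (sphere (0 : EuclideanSpace ℝ (Fin (m + 1))) 1) := by
    apply isPreconnected_sphere
    rw [← finrank_eq_rank, finrank_euclideanSpace_fin]
    exact_mod_cast (by omega : 1 < m + 1)
  rw [isPreconnected_iff_preconnectedSpace] at h1 ⊢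
  exact e.symm.surjective.denseRange.preconnectedSpace e.symm.continuous

omit [Fintype V] in
theorem pm_of_normal {K : AbstractSimplicialComplex V} {d : ℕ} (hd : 2 ≤ d)
    (h : IsNormalPM K d) : PM K d := by
  obtain ⟨hpure, hconn, hridge, hlink⟩ := h
  have hins : ∀ {R t : Finset V}, R.card + 1 = d → t.card = d → R ⊆ t →
      ∃ z, z ∉ R ∧ t = insert z R := by
    intro R t h1 h2 h3
    obtain ⟨z, hz, hz'⟩ : ∃ z ∈ t, z ∉ R := Finset.exists_mem_notMem_of_card_lt_card (by omega)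
    exact ⟨z, hz', (Finset.eq_of_subset_of_card_le (Finset.insert_subset hz h3)
      (by rw [Finset.card_insert_of_notMem hz']; omega)).symm⟩
  refine ⟨hpure, fun R hR hRc => ?_, ?_⟩
  · obtain ⟨t1, t2, hne, ht⟩ := Set.ncard_eq_two.1 (hridge R hR hRc)
    have m1 : t1 ∈ {t | t ∈ K.faces ∧ t.card = d ∧ R ⊆ t} := by rw [ht]; simp
    have m2 : t2 ∈ {t | t ∈ K.faces ∧ t.card = d ∧ R ⊆ t} := by rw [ht]; simp
    obtain ⟨z1, hz1, rfl⟩ := hins hRc m1.2.1 m1.2.2
    obtain ⟨z2, hz2, rfl⟩ := hins hRc m2.2.1 m2.2.2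
    refine ⟨z1, z2, fun e => hne (by rw [e]), hz1, hz2, m1.1, m2.1, fun z hz hf => ?_⟩
    have m3 : insert z R ∈ {t | t ∈ K.faces ∧ t.card = d ∧ R ⊆ t} :=
      ⟨hf, by rw [Finset.card_insert_of_notMem hz, hRc], Finset.subset_insert _ _⟩
    rw [ht] at m3
    have hz' := Finset.mem_insert_self z R
    rcases m3 with e | e
    · rw [e] at hz'; exact Or.inl ((Finset.mem_insert.1 hz').resolve_right hz)
    · rw [Set.mem_singleton_iff.1 e] at hz'
      exact Or.inr ((Finset.mem_insert.1 hz').resolve_right hz)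
  intro S hS
  have key : ∀ n, ∀ σ : Finset V, σ.card + 1 + n = d → ∀ F ∈ K.faces, ∀ F' ∈ K.faces,
      F.card = d → F'.card = d → σ ⊆ F → σ ⊆ F' → S F → S F' := by
    intro n
    induction n with
    | zero =>
      intro σ hσ F hF F' hF' hc hc' h1 h2 hSF
      obtain ⟨z, hz, rfl⟩ := hins hσ hc h1
      obtain ⟨z', hz', rfl⟩ := hins hσ hc' h2
      exact hS σ z z' hσ hz hz' hF hF' hSF
    | succ n ih =>
      intro σ hσ F hF F' hF' hc hc' h1 h2 hSF
      have hl : LinkConnected K σ := by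
        rcases σ.eq_empty_or_nonempty with rfl | hne
        · exact hconn
        · exact hlink σ (face_down hF h1 hne) (by omega)
      obtain ⟨a, ha, ha'⟩ : ∃ z ∈ F, z ∉ σ := Finset.exists_mem_notMem_of_card_lt_card (by omega)
      obtain ⟨b, hb, hb'⟩ : ∃ z ∈ F', z ∉ σ := Finset.exists_mem_notMem_of_card_lt_card (by omega)
      have hpath := hl a b ha' hb'
        (face_down hF (Finset.insert_subset ha h1) (Finset.insert_nonempty _ _))
        (face_down hF' (Finset.insert_subset hb h2) (Finset.insert_nonempty _ _))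
      have : ∀ t ∈ K.faces, t.card = d → insert b σ ⊆ t → S t := by
        clear hb hb'
        induction hpath with
        | refl =>
          intro t ht htc hs
          exact ih (insert a σ) (by rw [Finset.card_insert_of_notMem ha']; omega) F hF t ht hc htc
            (Finset.insert_subset ha h1) hs hSF
        | @tail x y _ hxy ih2 =>
          intro t ht htc hs
          obtain ⟨t', ht', hs', htc'⟩ := hpure _ hxy.2.2
          exact ih (insert y σ) (by rw [Finset.card_insert_of_notMem hxy.2.1]; omega) t' ht' t ht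
            htc' htc ((Finset.subset_insert _ _).trans hs') hs
            (ih2 t' ht' htc' ((Finset.insert_subset_insert _ (Finset.subset_insert _ _)).trans hs'))
      exact this F' hF' hc' (Finset.insert_subset hb h2)
  intro F hF F' hF' hc hc'
  exact key (d - 1) ∅ (by simp; omega) F hF F' hF' hc hc' (Finset.empty_subset _)
    (Finset.empty_subset _)

end Pool.Agent.MP_d539bc_co

end
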