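import Mathlib
import Pool.Agent.Mg.F5cfbf6.Ge0db86

section

/-! Cones over finite set families, homogeneous homeomorphisms, generalized bistellar flips. -/

namespace Pool.Agent.MP_6a6613_co

open Set

/-- `f`, `g` are mutually inverse, positively homogeneous homeomorphisms between `X` and `Y`. -/
structure HH {E E' : Type} [TopologicalSpace E] [TopologicalSpace E'] [SMul ℝ E] [SMul ℝ E']
    (f : E → E') (g : E' → E) (X : Set E) (Y : Set E') : Prop where
  cf : ContinuousOn f X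
  cg : ContinuousOn g Y
  mf : MapsTo f X Y
  mg : MapsTo g Y X
  gf : ∀ x ∈ X, g (f x) = x
  fg : ∀ y ∈ Y, f (g y) = y
  sX : ∀ x ∈ X, ∀ t : ℝ, 0 ≤ t → t • x ∈ X
  hf : ∀ x ∈ X, ∀ t : ℝ, 0 ≤ t → f (t • x) = t • f x

section HH

variable {E E' E'' E''' : Type} [TopologicalSpace E] [TopologicalSpace E'] [TopologicalSpace E'']
  [TopologicalSpace E'''] [SMul ℝ E] [SMul ℝ E'] [SMul ℝ E''] [SMul ℝ E''']

theorem HH.symm {f : E → E'} {g : E' → E} {X : Set E} {Y : Set E'} (h : HH f g X Y) :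
    HH g f Y X where
  cf := h.cg
  cg := h.cf
  mf := h.mg
  mg := h.mf
  gf := h.fg
  fg := h.gf
  sX y hy t ht := by
    have := h.mf (h.sX _ (h.mg hy) t ht)
    rwa [h.hf _ (h.mg hy) t ht, h.fg y hy] at this
  hf y hy t ht := by
    have := h.gf _ (h.sX _ (h.mg hy) t ht)
    rwa [h.hf _ (h.mg hy) t ht, h.fg y hy] at this

theorem HH.trans {f : E → E'} {g : E' → E} {X : Set E} {Y : Set E'} {f' : E' → E''}
    {g' : E'' → E'} {Z : Set E''} (h : HH f g X Y) (h' : HH f' g' Y Z) :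
    HH (fun x => f' (f x)) (fun z => g (g' z)) X Z where
  cf := h'.cf.comp h.cf h.mf
  cg := h.cg.comp h'.cg h'.mg
  mf _ hx := h'.mf (h.mf hx)
  mg _ hz := h.mg (h'.mg hz)
  gf x hx := by rw [h'.gf _ (h.mf hx), h.gf x hx]
  fg z hz := by rw [h.fg _ (h'.mg hz), h'.fg z hz]
  sX := h.sX
  hf x hx t ht := by rw [h.hf x hx t ht, h'.hf _ (h.mf hx) t ht]

theorem HH.refl {X : Set E} (hX : ∀ x ∈ X, ∀ t : ℝ, 0 ≤ t → t • x ∈ X) :
    HH (fun x => x) (fun x => x) X X :=
  ⟨continuousOn_id, continuousOn_id, fun _ h => h, fun _ h => h, fun _ _ => rfl, fun _ _ => rfl,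
    hX, fun _ _ _ _ => rfl⟩

theorem HH.prod {f : E → E'} {g : E' → E} {X : Set E} {Y : Set E'} {f' : E'' → E'''}
    {g' : E''' → E''} {X' : Set E''} {Y' : Set E'''} (h : HH f g X Y) (h' : HH f' g' X' Y') :
    HH (fun x : E × E'' => (f x.1, f' x.2)) (fun y : E' × E''' => (g y.1, g' y.2))
      (X ×ˢ X') (Y ×ˢ Y') where
  cf := (h.cf.comp continuousOn_fst fun _ hx => hx.1).prodMk
    (h'.cf.comp continuousOn_snd fun _ hx => hx.2)
  cg := (h.cg.comp continuousOn_fst fun _ hx => hx.1).prodMk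
    (h'.cg.comp continuousOn_snd fun _ hx => hx.2)
  mf _ hx := ⟨h.mf hx.1, h'.mf hx.2⟩
  mg _ hx := ⟨h.mg hx.1, h'.mg hx.2⟩
  gf x hx := by simp [h.gf _ hx.1, h'.gf _ hx.2]
  fg x hx := by simp [h.fg _ hx.1, h'.fg _ hx.2]
  sX x hx t ht := ⟨h.sX _ hx.1 t ht, h'.sX _ hx.2 t ht⟩
  hf x hx t ht := by simp [h.hf _ hx.1 t ht, h'.hf _ hx.2 t ht]

/-- Restriction to matching subsets. -/
theorem HH.restrict {f : E → E'} {g : E' → E} {X : Set E} {Y : Set E'} (h : HH f g X Y)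
    {X' : Set E} {Y' : Set E'} (hX : X' ⊆ X) (hY : Y' ⊆ Y) (h1 : MapsTo f X' Y')
    (h2 : MapsTo g Y' X') (hs : ∀ x ∈ X', ∀ t : ℝ, 0 ≤ t → t • x ∈ X') : HH f g X' Y' :=
  ⟨h.cf.mono hX, h.cg.mono hY, h1, h2, fun x hx => h.gf x (hX hx), fun y hy => h.fg y (hY hy), hs,
    fun x hx => h.hf x (hX hx)⟩

theorem HH.inj {f : E → E'} {g : E' → E} {X : Set E} {Y : Set E'} (h : HH f g X Y) {x x' : E}
    (hx : x ∈ X) (hx' : x' ∈ X) (e : f x = f x') : x = x' := by
  rw [← h.gf x hx, e, h.gf x' hx']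

/-- Gluing along finite closed covers. -/
theorem HH.glue {ι : Type} [Finite ι] [Nonempty E] [Nonempty E'] {X : ι → Set E} {Y : ι → Set E'}
    {f : ι → E → E'} {g : ι → E' → E} (h : ∀ i, HH (f i) (g i) (X i) (Y i))
    (cX : ∀ i, IsClosed (X i)) (cY : ∀ i, IsClosed (Y i))
    (hf : ∀ i k, ∀ x, x ∈ X i → x ∈ X k → f i x = f k x)
    (hg : ∀ i k, ∀ y, y ∈ Y i → y ∈ Y k → g i y = g k y) :
    ∃ F G, HH F G (⋃ i, X i) (⋃ i, Y i) ∧ (∀ i, ∀ x ∈ X i, F x = f i x) ∧
      ∀ i, ∀ y ∈ Y i, G y = g i y := by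
  classical
  let F : E → E' := fun x => if hx : ∃ i, x ∈ X i then f hx.choose x else Classical.arbitrary _
  let G : E' → E := fun y => if hy : ∃ i, y ∈ Y i then g hy.choose y else Classical.arbitrary _
  have hF : ∀ i, ∀ x ∈ X i, F x = f i x := fun i x hx => by
    have hx' : ∃ i, x ∈ X i := ⟨i, hx⟩
    simp only [F, dif_pos hx']
    exact hf _ _ x hx'.choose_spec hx
  have hG : ∀ i, ∀ y ∈ Y i, G y = g i y := fun i y hy => by
    have hy' : ∃ i, y ∈ Y i := ⟨i, hy⟩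
    simp only [G, dif_pos hy']
    exact hg _ _ y hy'.choose_spec hy
  refine ⟨F, G, ⟨?_, ?_, ?_, ?_, ?_, ?_, ?_, ?_⟩, hF, hG⟩
  · exact (locallyFinite_of_finite X).continuousOn_iUnion cX
      fun i => (h i).cf.congr fun x hx => hF i x hx
  · exact (locallyFinite_of_finite Y).continuousOn_iUnion cY
      fun i => (h i).cg.congr fun x hx => hG i x hx
  · intro x hx
    obtain ⟨i, hi⟩ := mem_iUnion.1 hx
    exact mem_iUnion.2 ⟨i, hF i x hi ▸ (h i).mf hi⟩
  · intro x hx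
    obtain ⟨i, hi⟩ := mem_iUnion.1 hx
    exact mem_iUnion.2 ⟨i, hG i x hi ▸ (h i).mg hi⟩
  · intro x hx
    obtain ⟨i, hi⟩ := mem_iUnion.1 hx
    rw [hF i x hi, hG i _ ((h i).mf hi), (h i).gf x hi]
  · intro x hx
    obtain ⟨i, hi⟩ := mem_iUnion.1 hx
    rw [hG i x hi, hF i _ ((h i).mg hi), (h i).fg x hi]
  · intro x hx t ht
    obtain ⟨i, hi⟩ := mem_iUnion.1 hx
    exact mem_iUnion.2 ⟨i, (h i).sX x hi t ht⟩
  · intro x hx t ht
    obtain ⟨i, hi⟩ := mem_iUnion.1 hx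
    rw [hF i x hi, hF i _ ((h i).sX x hi t ht), (h i).hf x hi t ht]

/-- Gluing of two pieces. -/
theorem HH.glue2 [Nonempty E] [Nonempty E'] {X1 X2 : Set E} {Y1 Y2 : Set E'}
    {f1 f2 : E → E'} {g1 g2 : E' → E} (h1 : HH f1 g1 X1 Y1) (h2 : HH f2 g2 X2 Y2)
    (c1 : IsClosed X1) (c2 : IsClosed X2) (d1 : IsClosed Y1) (d2 : IsClosed Y2)
    (hf : ∀ x, x ∈ X1 → x ∈ X2 → f1 x = f2 x) (hg : ∀ y, y ∈ Y1 → y ∈ Y2 → g1 y = g2 y) :
    ∃ F G, HH F G (X1 ∪ X2) (Y1 ∪ Y2) ∧ (∀ x ∈ X1, F x = f1 x) ∧ (∀ x ∈ X2, F x = f2 x) ∧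
      (∀ y ∈ Y1, G y = g1 y) ∧ ∀ y ∈ Y2, G y = g2 y := by
  obtain ⟨F, G, h, hF, hG⟩ := HH.glue (ι := Bool) (X := fun b => cond b X1 X2)
    (Y := fun b => cond b Y1 Y2) (f := fun b => cond b f1 f2) (g := fun b => cond b g1 g2)
    (fun b => by cases b; exacts [h2, h1]) (fun b => by cases b; exacts [c2, c1])
    (fun b => by cases b; exacts [d2, d1])
    (fun b b' x hx hx' => by
      cases b <;> cases b'
      exacts [rfl, (hf x hx' hx).symm, hf x hx hx', rfl])
    (fun b b' x hx hx' => by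
      cases b <;> cases b'
      exacts [rfl, (hg x hx' hx).symm, hg x hx hx', rfl])
  refine ⟨F, G, ?_, hF true, hF false, hG true, hG false⟩
  rwa [← union_eq_iUnion, ← union_eq_iUnion] at h

end HH

variable {V : Type} [Fintype V] [DecidableEq V]

open Classical in
/-- The support of a vector. -/
noncomputable def supp (p : V → ℝ) : Finset V := Finset.univ.filter fun v => p v ≠ 0

/-- The cone over a family of finite sets: nonnegative vectors with support in the family. -/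
def Cn (K : Set (Finset V)) : Set (V → ℝ) := {p | (∀ v, 0 ≤ p v) ∧ supp p ∈ K}

/-- Down-closed families. -/
def Down (K : Set (Finset V)) : Prop := ∀ F ∈ K, ∀ G, G ⊆ F → G ∈ K

omit [DecidableEq V] in
@[simp] theorem mem_supp {p : V → ℝ} {v : V} : v ∈ supp p ↔ p v ≠ 0 := by simp [supp]

omit [DecidableEq V] in
theorem supp_smul_sub (p : V → ℝ) (t : ℝ) : supp (t • p) ⊆ supp p := fun v hv => by
  rw [mem_supp] at hv ⊢
  exact fun h => hv (by simp [h])

omit [DecidableEq V] in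
theorem Down.smul {K : Set (Finset V)} (hK : Down K) : ∀ p ∈ Cn K, ∀ t : ℝ, 0 ≤ t → t • p ∈ Cn K :=
  fun p hp t ht => ⟨fun v => mul_nonneg ht (hp.1 v), hK _ hp.2 _ (supp_smul_sub p t)⟩

omit [DecidableEq V] in
theorem Cn_mono {K L : Set (Finset V)} (h : K ⊆ L) : Cn K ⊆ Cn L := fun _ hp => ⟨hp.1, h hp.2⟩

omit [DecidableEq V] in
theorem Cn_union (K L : Set (Finset V)) : Cn (K ∪ L) = Cn K ∪ Cn L := by
  ext p; simp only [Cn, mem_ofPred_eq, mem_union]; tauto

omit [DecidableEq V] in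
theorem Cn_iUnion {ι : Type} (K : ι → Set (Finset V)) : Cn (⋃ i, K i) = ⋃ i, Cn (K i) := by
  ext p; simp only [Cn, mem_ofPred_eq, mem_iUnion]; tauto

omit [DecidableEq V] in
theorem Down.isClosed {K : Set (Finset V)} (hK : Down K) : IsClosed (Cn K) := by
  have : Cn K = ⋃ F ∈ K, {p : V → ℝ | (∀ v, 0 ≤ p v) ∧ ∀ v, v ∉ F → p v = 0} := by
    ext p
    simp only [Cn, mem_ofPred_eq, mem_iUnion]
    constructor
    · rintro ⟨h1, h2⟩
      exact ⟨_, h2, h1, fun v hv => by simpa using hv⟩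
    · rintro ⟨F, hF, h1, h2⟩
      exact ⟨h1, hK F hF _ fun v hv => by_contra fun h => (mem_supp.1 hv) (h2 v h)⟩
  rw [this]
  refine (toFinite K).isClosed_biUnion fun F _ => ?_
  simp only [ofPred_and, ofPred_forall]
  exact (isClosed_iInter fun v => isClosed_le continuous_const (continuous_apply v)).inter
    (isClosed_iInter fun v => isClosed_iInter fun _ =>
      isClosed_eq (continuous_apply v) continuous_const)

omit [Fintype V] [DecidableEq V] in
theorem Down.union {K L : Set (Finset V)} (hK : Down K) (hL : Down L) : Down (K ∪ L) :=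
  fun F hF G hG => hF.elim (fun h => Or.inl (hK F h G hG)) fun h => Or.inr (hL F h G hG)

/-- The indicator vector of a finite set. -/
def ind (F : Finset V) : V → ℝ := fun v => if v ∈ F then 1 else 0

@[simp] theorem supp_ind (F : Finset V) : supp (ind F) = F := by
  ext v; simp [ind]

theorem ind_mem {K : Set (Finset V)} {F : Finset V} (h : F ∈ K) : ind F ∈ Cn K :=
  ⟨fun v => by unfold ind; split_ifs <;> norm_num, by simpa using h⟩

/-- The cone with apex `z`. -/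
def cone (z : V) (K : Set (Finset V)) : Set (Finset V) := {F | F.erase z ∈ K}

omit [Fintype V] in
theorem Down.cone {K : Set (Finset V)} (hK : Down K) (z : V) : Down (cone z K) :=
  fun _ hF _ hG => hK _ hF _ (Finset.erase_subset_erase z hG)

/-- The cone over `K` is homogeneously homeomorphic to `ℝ^d`. -/
def Sph (K : Set (Finset V)) (d : ℕ) : Prop :=
  ∃ (f : (V → ℝ) → (Fin d → ℝ)) (g : (Fin d → ℝ) → (V → ℝ)), HH f g (Cn K) univ

/-- Homeomorphism of cones fixing the points supported on members of `Γ`. -/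
def RI (D D' Γ : Set (Finset V)) : Prop :=
  ∃ f g : (V → ℝ) → (V → ℝ), HH f g (Cn D) (Cn D') ∧ ∀ p ∈ Cn D, supp p ∈ Γ → f p = p

/-- `D` is a ball with boundary `Γ`. -/
def Ball (D Γ : Set (Finset V)) : Prop :=
  ∃ (f : (V → ℝ) → (V → ℝ) × ℝ) (g : (V → ℝ) × ℝ → (V → ℝ)),
    HH f g (Cn D) (Cn Γ ×ˢ Ici (0 : ℝ)) ∧ ∀ p ∈ Cn Γ, p ∈ Cn D ∧ f p = (p, 0)

omit [DecidableEq V] in
theorem RI.refl {D : Set (Finset V)} (hD : Down D) (Γ : Set (Finset V)) : RI D D Γ :=
  ⟨_, _, HH.refl hD.smul, fun _ _ _ => rfl⟩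

omit [DecidableEq V] in
theorem RI.trans {D D' D'' Γ : Set (Finset V)} (h : RI D D' Γ) (h' : RI D' D'' Γ) :
    RI D D'' Γ := by
  obtain ⟨f, g, h, hf⟩ := h
  obtain ⟨f', g', h', hf'⟩ := h'
  refine ⟨_, _, h.trans h', fun p hp hs => ?_⟩
  have := h.mf hp
  rw [hf p hp hs] at this ⊢
  exact hf' p this hs

omit [DecidableEq V] in
theorem RI.sph {D D' Γ : Set (Finset V)} {d : ℕ} (h : RI D D' Γ) (hs : Sph D d) : Sph D' d := by
  obtain ⟨f, g, h, -⟩ := h
  obtain ⟨f', g', h'⟩ := hs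
  exact ⟨_, _, h.symm.trans h'⟩

omit [DecidableEq V] in
theorem RI.ball {D D' Γ : Set (Finset V)} (h : RI D D' Γ) (hb : Ball D Γ) : Ball D' Γ := by
  obtain ⟨f, g, h, hf⟩ := h
  obtain ⟨f', g', h', hf'⟩ := hb
  refine ⟨_, _, h.symm.trans h', fun p hp => ?_⟩
  have h1 := (hf' p hp).1
  have h2 := hf p h1 hp.2
  have h3 := h.mf h1
  have h4 := h.gf p h1
  rw [h2] at h3 h4
  exact ⟨h3, by simp only [h4, (hf' p hp).2]⟩

omit [DecidableEq V] in
theorem RI.glue {U D D' Γ : Set (Finset V)} (h : RI D D' Γ) (hU : Down U) (hD : Down D)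
    (hD' : Down D') (h1 : U ∩ D ⊆ Γ) (h2 : U ∩ D' ⊆ D) : RI (U ∪ D) (U ∪ D') U := by
  obtain ⟨f, g, h, hf⟩ := h
  obtain ⟨F, G, hh, a1, -, -, -⟩ := HH.glue2 (HH.refl hU.smul) h hU.isClosed hD.isClosed
    hU.isClosed hD'.isClosed (fun p hp hp' => (hf p hp' (h1 ⟨hp.2, hp'.2⟩)).symm)
    (fun p hp hp' => by
      have a : p ∈ Cn D := ⟨hp.1, h2 ⟨hp.2, hp'.2⟩⟩
      have b := h.gf p a
      rw [hf p a (h1 ⟨hp.2, a.2⟩)] at b
      exact b.symm)
  rw [← Cn_union, ← Cn_union] at hh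
  exact ⟨F, G, hh, fun p hp hs => a1 p ⟨hp.1, hs⟩⟩

/-- The conditions for a generalized bistellar flip. -/
structure FC (K : Set (Finset V)) (σ τ : Finset V) : Prop where
  down : Down K
  disj : Disjoint σ τ
  nσ : σ.Nonempty
  nτ : τ.Nonempty
  new : ∀ F ∈ K, ¬ τ ⊆ F
  link : ∀ F ∈ K, σ ⊆ F → ∀ t ∈ τ, (F ∪ τ).erase t ∈ K

/-- The result of a flip. -/
def flip (K : Set (Finset V)) (σ τ : Finset V) : Set (Finset V) :=
  {F | ¬ σ ⊆ F ∧ (F ∈ K ∨ (τ ⊆ F ∧ ∀ t ∈ τ, (F ∪ σ).erase t ∈ K))}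

/-- The minimum of the coordinates in `σ`. -/
noncomputable def mn (σ : Finset V) (p : V → ℝ) : ℝ := if h : σ.Nonempty then σ.inf' h p else 0

/-- The flip map. -/
noncomputable def fl (σ τ : Finset V) (p : V → ℝ) : V → ℝ := p + mn σ p • (ind τ - ind σ)

omit [Fintype V] [DecidableEq V] in
theorem mn_le {σ : Finset V} (p : V → ℝ) {v : V} (hv : v ∈ σ) : mn σ p ≤ p v := by
  rw [mn, dif_pos ⟨v, hv⟩]; exact Finset.inf'_le _ hv

omit [Fintype V] [DecidableEq V] in
theorem exists_mn {σ : Finset V} (h : σ.Nonempty) (p : V → ℝ) : ∃ v ∈ σ, mn σ p = p v := by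
  rw [mn, dif_pos h]; exact Finset.exists_mem_eq_inf' h p

omit [Fintype V] [DecidableEq V] in
theorem mn_eq {σ : Finset V} {p : V → ℝ} {c : ℝ} (h1 : ∀ v ∈ σ, c ≤ p v) {w : V} (hw : w ∈ σ)
    (h2 : p w = c) : mn σ p = c := by
  obtain ⟨v, hv, e⟩ := exists_mn ⟨w, hw⟩ p
  exact le_antisymm (h2 ▸ mn_le p hw) (e ▸ h1 v hv)

omit [Fintype V] [DecidableEq V] in
theorem mn_nonneg (σ : Finset V) {p : V → ℝ} (hp : ∀ v, 0 ≤ p v) : 0 ≤ mn σ p := by
  by_cases h : σ.Nonempty
  · obtain ⟨v, -, e⟩ := exists_mn h p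
    exact e ▸ hp v
  · rw [mn, dif_neg h]

omit [DecidableEq V] in
theorem mn_zero {σ : Finset V} {p : V → ℝ} (hp : ∀ v, 0 ≤ p v) (h : ¬ σ ⊆ supp p) :
    mn σ p = 0 := by
  obtain ⟨v, hv, hv'⟩ := Finset.not_subset.1 h
  exact mn_eq (fun v _ => hp v) hv (by simpa using hv')

omit [DecidableEq V] in
theorem sub_of_mn_pos {σ : Finset V} {p : V → ℝ} (h : 0 < mn σ p) : σ ⊆ supp p :=
  fun _ hv => mem_supp.2 (h.trans_le (mn_le p hv)).ne'

omit [Fintype V] [DecidableEq V] in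
theorem mn_add {σ : Finset V} (h : σ.Nonempty) {p q : V → ℝ} {c : ℝ}
    (hq : ∀ v ∈ σ, q v = p v + c) : mn σ q = mn σ p + c := by
  obtain ⟨v, hv, e⟩ := exists_mn h p
  exact mn_eq (fun w hw => by rw [hq w hw]; linarith [mn_le p hw]) hv (by rw [hq v hv, e])

omit [Fintype V] [DecidableEq V] in
theorem mn_smul (σ : Finset V) (p : V → ℝ) {t : ℝ} (ht : 0 ≤ t) : mn σ (t • p) = t * mn σ p := by
  by_cases h : σ.Nonempty
  · obtain ⟨v, hv, e⟩ := exists_mn h p
    exact mn_eq (fun w hw => mul_le_mul_of_nonneg_left (mn_le p hw) ht) hv (by simp [e])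
  · simp [mn, dif_neg h]

omit [Fintype V] [DecidableEq V] in
theorem continuous_mn (σ : Finset V) : Continuous (mn σ : (V → ℝ) → ℝ) := by
  by_cases h : σ.Nonempty
  · have : (mn σ : (V → ℝ) → ℝ) = fun p => σ.inf' h p := by funext p; rw [mn, dif_pos h]
    rw [this]
    exact Continuous.finset_inf'_apply h fun v _ => continuous_apply v
  · have : (mn σ : (V → ℝ) → ℝ) = fun _ => 0 := by funext p; rw [mn, dif_neg h]
    rw [this]; exact continuous_const

omit [Fintype V] in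
theorem continuous_fl (σ τ : Finset V) : Continuous (fl σ τ) :=
  continuous_id.add ((continuous_mn σ).smul continuous_const)

theorem fl_fix {σ : Finset V} (τ : Finset V) {p : V → ℝ} (hp : ∀ v, 0 ≤ p v)
    (h : ¬ σ ⊆ supp p) : fl σ τ p = p := by simp [fl, mn_zero hp h]

omit [Fintype V] in
theorem fl_smul (σ τ : Finset V) (p : V → ℝ) {t : ℝ} (ht : 0 ≤ t) :
    fl σ τ (t • p) = t • fl σ τ p := by
  simp only [fl, mn_smul σ p ht, smul_add, mul_smul]

omit [Fintype V] in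
theorem FC.symm {K : Set (Finset V)} {σ τ : Finset V} (h : FC K σ τ) : FC (flip K σ τ) τ σ where
  down F hF G hG := by
    refine ⟨fun a => hF.1 (a.trans hG), ?_⟩
    rcases hF.2 with a | ⟨-, a⟩
    · exact Or.inl (h.down F a G hG)
    · by_cases b : τ ⊆ G
      · exact Or.inr ⟨b, fun t ht => h.down _ (a t ht) _
          (Finset.erase_subset_erase t (Finset.union_subset_union_left hG))⟩
      · obtain ⟨t, ht, ht'⟩ := Finset.not_subset.1 b
        exact Or.inl (h.down _ (a t ht) _ fun v hv => Finset.mem_erase.2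
          ⟨fun e => ht' (e ▸ hv), Finset.mem_union_left _ (hG hv)⟩)
  disj := h.disj.symm
  nσ := h.nτ
  nτ := h.nσ
  new F hF := hF.1
  link F hF hτ s hs := by
    rcases hF.2 with a | ⟨-, a⟩
    · exact absurd hτ (h.new F a)
    · refine ⟨fun b => by simpa using b hs, Or.inr ⟨fun t ht => Finset.mem_erase.2
        ⟨fun e => Finset.disjoint_left.1 h.disj hs (e ▸ ht), Finset.mem_union_left _ (hτ ht)⟩,
        fun t ht => h.down _ (a t ht) _ (Finset.erase_subset_erase t ?_)⟩⟩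
      exact Finset.union_subset (Finset.erase_subset _ _) Finset.subset_union_right

omit [Fintype V] in
theorem FC.flip_flip {K : Set (Finset V)} {σ τ : Finset V} (h : FC K σ τ) :
    flip (flip K σ τ) τ σ = K := by
  ext F
  constructor
  · rintro ⟨h1, ⟨-, a | a⟩ | ⟨h2, h3⟩⟩
    · exact a
    · exact absurd a.1 h1
    · obtain ⟨s, hs⟩ := h.nσ
      obtain ⟨t, ht, ht'⟩ := Finset.not_subset.1 h1
      have b : τ ⊆ (F ∪ τ).erase s := fun t ht => Finset.mem_erase.2
        ⟨fun e => Finset.disjoint_left.1 h.disj hs (e ▸ ht), Finset.mem_union_right _ ht⟩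
      rcases (h3 s hs).2 with a | a
      · exact absurd b (h.new _ a)
      · refine h.down _ (a.2 t ht) _ fun v hv => Finset.mem_erase.2 ⟨fun e => ht' (e ▸ hv), ?_⟩
        by_cases e : v = s
        · exact Finset.mem_union_right _ (e ▸ hs)
        · exact Finset.mem_union_left _ (Finset.mem_erase.2 ⟨e, Finset.mem_union_left _ hv⟩)
  · intro hF
    refine ⟨h.new F hF, ?_⟩
    by_cases a : σ ⊆ F
    · refine Or.inr ⟨a, fun s hs => ⟨fun b => by simpa using b hs, Or.inr ⟨fun t ht =>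
        Finset.mem_erase.2 ⟨fun e => Finset.disjoint_left.1 h.disj hs (e ▸ ht),
          Finset.mem_union_right _ ht⟩, fun t ht => h.down _ (h.link F hF a t ht) _
            (Finset.erase_subset_erase t ?_)⟩⟩⟩
      exact Finset.union_subset (Finset.erase_subset _ _) (a.trans Finset.subset_union_left)
    · exact Or.inl ⟨a, Or.inl hF⟩

omit [Fintype V] in
theorem fl_apply (σ τ : Finset V) (p : V → ℝ) (v : V) :
    fl σ τ p v = p v + mn σ p * ((if v ∈ τ then 1 else 0) - if v ∈ σ then 1 else 0) := rfl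

theorem FC.maps {K : Set (Finset V)} {σ τ : Finset V} (h : FC K σ τ) :
    MapsTo (fl σ τ) (Cn K) (Cn (flip K σ τ)) ∧ ∀ p ∈ Cn K, fl τ σ (fl σ τ p) = p := by
  have hd := Finset.disjoint_left.1 h.disj
  have key : ∀ p ∈ Cn K, mn τ (fl σ τ p) = mn σ p := fun p hp => by
    rw [mn_add (p := p) (c := mn σ p) h.nτ fun v hv => by
      simp [fl_apply, hv, show v ∉ σ from fun a => hd a hv], mn_zero hp.1 (h.new _ hp.2), zero_add]
  refine ⟨fun p hp => ?_, fun p hp => ?_⟩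
  · have h0 := mn_nonneg σ hp.1
    rcases h0.eq_or_lt with e | e
    · have : fl σ τ p = p := by simp [fl, ← e]
      rw [this]
      obtain ⟨v, hv, e'⟩ := exists_mn h.nσ p
      exact ⟨hp.1, fun a => mem_supp.1 (a hv) (by rw [← e', ← e]), Or.inl hp.2⟩
    · refine ⟨fun v => ?_, ?_, Or.inr ⟨sub_of_mn_pos (by rwa [key p hp]), fun t ht =>
        h.down _ (h.link _ hp.2 (sub_of_mn_pos e) t ht) _ (Finset.erase_subset_erase t ?_)⟩⟩
      · rw [fl_apply]
        by_cases a : v ∈ σ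
        · simp only [a, hd a, if_true, if_false]; linarith [mn_le p a]
        · have := hp.1 v
          simp only [a, if_false]; split_ifs <;> linarith
      · obtain ⟨v, hv, e'⟩ := exists_mn h.nσ p
        exact fun a => mem_supp.1 (a hv) (by simp [fl_apply, hv, hd hv, e'])
      · refine Finset.union_subset (fun v hv => ?_) ((sub_of_mn_pos e).trans
          Finset.subset_union_left)
        by_cases a : v ∈ τ
        · exact Finset.mem_union_right _ a
        · by_cases b : v ∈ σ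
          · exact Finset.mem_union_left _ (sub_of_mn_pos e b)
          · exact Finset.mem_union_left _ (by simpa [fl_apply, a, b] using hv)
  · funext v
    rw [fl_apply, key p hp, fl_apply]
    ring

theorem FC.hh {K : Set (Finset V)} {σ τ : Finset V} (h : FC K σ τ) :
    HH (fl σ τ) (fl τ σ) (Cn K) (Cn (flip K σ τ)) where
  cf := (continuous_fl σ τ).continuousOn
  cg := (continuous_fl τ σ).continuousOn
  mf := h.maps.1
  mg := by have := h.symm.maps.1; rwa [h.flip_flip] at this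
  gf := h.maps.2
  fg := h.symm.maps.2
  sX := h.down.smul
  hf p _ _ ht := fl_smul σ τ p ht

theorem FC.ri {K : Set (Finset V)} {σ τ : Finset V} (h : FC K σ τ) {Γ : Set (Finset V)}
    (hΓ : ∀ F ∈ Γ, ¬ σ ⊆ F) : RI K (flip K σ τ) Γ :=
  ⟨_, _, h.hh, fun _ hp hs => fl_fix τ hp.1 (hΓ _ hs)⟩

end Pool.Agent.MP_6a6613_co

end

section

/-! Definitions and the statements of the independent pieces. -/

namespace Pool.Agent.MP_6a6613_co

open Set

/-- The faces of the hexagon. -/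
def C6 : Set (Finset (Fin 6)) := {T | ∃ k : Fin 6, T ⊆ {k, k + 1}}

/-- Preimage of a finite set. -/
def pre {α V : Type} [Fintype α] [DecidableEq V] (e : α → V) (F : Finset V) : Finset α :=
  Finset.univ.filter fun a => e a ∈ F

@[simp] theorem mem_pre {α V : Type} [Fintype α] [DecidableEq V] {e : α → V} {F : Finset V}
    {a : α} : a ∈ pre e F ↔ e a ∈ F := by simp [pre]

/-- `Ω` is a pinched cylinder from the page `K0` to the page `K`. -/
def Arc {V : Type} [Fintype V] (K0 Ω K : Set (Finset V)) : Prop :=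
  ∃ (Ψ : (V → ℝ) → (V → ℝ) × ℝ) (Ψ' : (V → ℝ) × ℝ → (V → ℝ)) (π π' : (V → ℝ) → (V → ℝ))
    (len : (V → ℝ) → ℝ),
    HH Ψ Ψ' (Cn Ω) {q | q.1 ∈ Cn K0 ∧ 0 ≤ q.2 ∧ q.2 ≤ len q.1} ∧ HH π π' (Cn K) (Cn K0) ∧
    ContinuousOn len (Cn K0) ∧ (∀ y ∈ Cn K0, 0 ≤ len y) ∧
    (∀ y ∈ Cn K0, ∀ t : ℝ, 0 ≤ t → len (t • y) = t * len y) ∧
    K0 ⊆ Ω ∧ K ⊆ Ω ∧ (∀ y ∈ Cn K0, Ψ y = (y, 0)) ∧ ∀ p ∈ Cn K, Ψ p = (π p, len (π p))

def ArcStmt : Prop :=
  ∀ (V : Type) [Fintype V] [DecidableEq V],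
    (∀ K : Set (Finset V), Down K → Arc K K K) ∧
    ∀ (K0 Ω K : Set (Finset V)) (σ τ : Finset V), Arc K0 Ω K → FC K σ τ → Down Ω →
      (∀ F ∈ Ω, ¬ τ ⊆ F) → Arc K0 (Ω ∪ {F | ∃ G ∈ K, σ ⊆ G ∧ F ⊆ G ∪ τ}) (flip K σ τ)

def BookStmt : Prop :=
  ∀ (V : Type) [Fintype V] [DecidableEq V] (A' : Set (Finset V)) (P Ω : Fin 6 → Set (Finset V)),
    Down A' → (∀ k, Down (P k)) → (∀ k, Down (Ω k)) → (∀ k, Ball (P k) A') →
    (∀ k, Arc (P k) (Ω k) (P (k + 1))) → (∀ k, P k ∩ P (k + 1) ⊆ A') →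
    (∀ k, Ω k ∩ Ω (k + 1) ⊆ P (k + 1)) →
    (∀ k l, l ≠ k → l ≠ k + 1 → k ≠ l + 1 → Ω k ∩ Ω l ⊆ A') →
    ∃ (h : (V → ℝ) → (V → ℝ) × (Fin 6 → ℝ)) (g : (V → ℝ) × (Fin 6 → ℝ) → (V → ℝ)),
      HH h g (Cn (⋃ k, Ω k)) (Cn A' ×ˢ Cn C6) ∧
      ∀ k, ∀ p ∈ Cn (⋃ k, Ω k), (supp p ∈ Ω k ↔ supp (h p).2 ⊆ {k, k + 1})

/-- Join of a family of complexes on copies of `W`. -/
def piC {ι W : Type} [Fintype W] [DecidableEq ι] [DecidableEq W] (K : ι → Set (Finset W)) :
    Set (Finset (ι × W)) := {F | ∀ i, pre (fun w => (i, w)) F ∈ K i}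

/-- Join of two complexes. -/
def sumC {V V' : Type} (K : Set (Finset V)) (L : Set (Finset V')) : Set (Finset (V ⊕ V')) :=
  {F | F.toLeft ∈ K ∧ F.toRight ∈ L}

def SphStmt : Prop :=
  (∀ (ι W : Type) [Fintype ι] [Fintype W] [DecidableEq ι] [DecidableEq W]
    (K : ι → Set (Finset W)) (n : ι → ℕ), (∀ i, Sph (K i) (n i)) → Sph (piC K) (∑ i, n i)) ∧
  (∀ (V V' : Type) [Fintype V] [Fintype V'] (K : Set (Finset V)) (L : Set (Finset V')) (a b : ℕ),
    Sph K a → Sph L b → Sph (sumC K L) (a + b)) ∧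
  (∀ (V : Type) [Fintype V], Sph ({∅} : Set (Finset V)) 0) ∧
  (∀ (V : Type) [Fintype V] (d : ℕ), Fintype.card V = d + 1 →
    Sph {G : Finset V | G ≠ Finset.univ} d) ∧
  ∀ (V : Type) [Fintype V] (A A' : Set (Finset V)) (d : ℕ)
    (h : (V → ℝ) → (V → ℝ) × (Fin 6 → ℝ)) (g : (V → ℝ) × (Fin 6 → ℝ) → (V → ℝ)),
    HH h g (Cn A) (Cn A' ×ˢ Cn C6) → Sph A' d → Sph A (d + 2)

open Classical in
/-- The statement to be proved. -/
def Target : Prop :=
  ∃ d n m : ℕ, 2 ≤ d ∧
    ∃ K : Geometry.SimplicialComplex ℝ (EuclideanSpace ℝ (Fin m)),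
      K.faces.Finite ∧
      K.vertices.ncard = n ∧
      Nonempty (K.space ≃ₜ Metric.sphere (0 : EuclideanSpace ℝ (Fin d)) 1) ∧
      (∀ s ∈ K.facets, s.card = d) ∧
      2 * (n - d) ≤
        (SimpleGraph.fromRel (fun s t : K.facets => (s.1 ∩ t.1).card + 1 = d)).diam

def FinalStmt : Prop :=
  ∀ (V : Type) [Fintype V] [DecidableEq V] (K : Set (Finset V)) (d : ℕ) (Φ : Finset V → ℤ)
    (z0 z1 : V), Down K → 2 ≤ d → Sph K d → {z0} ∈ K → {z1} ∈ K →
    (∀ F ∈ K, ∀ G ∈ K, F.card = d → G.card = d → (F ∩ G).card + 1 = d → Φ G ≤ Φ F + 1) →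
    (∀ F ∈ K, F.card = d → z0 ∈ F → Φ F ≤ 0) →
    (∀ F ∈ K, F.card = d → z1 ∈ F → 2 * (Fintype.card V : ℤ) ≤ Φ F) →
    Target

/-! ### The cyclic complexes -/

/-- Separated subsets of the cycle. -/
def Sep {m : ℕ} (I : Finset (ZMod m)) : Prop := ∀ x ∈ I, x + 1 ∉ I

/-- The boundary of the cyclic `2j`-polytope with `m` vertices. -/
def Aj (m j : ℕ) : Set (Finset (ZMod m)) := {F | ∀ I ⊆ F, Sep I → I.card ≤ j}

/-- The shift. -/
def sh {m : ℕ} (I : Finset (ZMod m)) : Finset (ZMod m) := I.image (· + 1)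

/-- The sum of `I` is congruent to a number in `[a, b)`. -/
def Win {m : ℕ} (a b : ℕ) (I : Finset (ZMod m)) : Prop :=
  ∃ s : ℕ, a ≤ s ∧ s < b ∧ (s : ZMod m) = ∑ x ∈ I, x

/-- The page at time `t`. -/
def Pg (m j t : ℕ) : Set (Finset (ZMod m)) :=
  {F | F ∈ Aj m j ∧ ∀ I ⊆ F, Sep I → I.card = j → Win t (t + j) I}

/-- The region between the pages at times `a` and `b`. -/
def Om (m j a b : ℕ) : Set (Finset (ZMod m)) :=
  Pg m j a ∪ {F | ∃ I, Sep I ∧ I.card = j ∧ Win a b I ∧ F ⊆ I ∪ sh I}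

/-- The cone page. -/
def Q0 (m j : ℕ) : Set (Finset (ZMod m)) :=
  {F | F ∈ Aj m j ∧ ∀ I ⊆ F, Sep I → I.card = j → (0 : ZMod m) ∈ I}

def BallQStmt : Prop :=
  ∀ (m : ℕ) [NeZero m] (j : ℕ), 4 * (j + 1) ≤ m → Ball (Q0 m (j + 1)) (Aj m j)

def PageStmt : Prop :=
  ∀ (m : ℕ) [NeZero m] (j : ℕ), 4 * (j + 1) ≤ m →
    (∀ t, RI (Q0 m (j + 1)) (Pg m (j + 1) t) (Aj m j)) ∧
    ∀ a b, a ≤ b → b + (j + 1) ≤ a + m →
      Arc (Pg m (j + 1) a) (Om m (j + 1) a b) (Pg m (j + 1) b)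

/-- The interface of a nested family of open books. -/
structure BD {W : Type} [Fintype W] [DecidableEq W] (K M : ℕ) (A : ℕ → Set (Finset W))
    (τ : ℕ → Finset W → Finset (Fin 6)) (pos : ℕ → Finset W → ℤ) : Prop where
  down : ∀ j, Down (A j)
  zero : A 0 = {∅}
  mono : ∀ j, A j ⊆ A (j + 1)
  iso : ∀ j < K, ∃ (h : (W → ℝ) → (W → ℝ) × (Fin 6 → ℝ)) (g : (W → ℝ) × (Fin 6 → ℝ) → (W → ℝ)),
    HH h g (Cn (A (j + 1))) (Cn (A j) ×ˢ Cn C6) ∧
      ∀ p ∈ Cn (A (j + 1)), supp (h p).2 = τ j (supp p)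
  tempty : ∀ j < K, ∀ F ∈ A (j + 1), (τ j F = ∅ ↔ F ∈ A j)
  tmono : ∀ j < K, ∀ F ∈ A (j + 1), ∀ G ⊆ F, τ j G ⊆ τ j F
  card : ∀ j < K, ∀ F ∈ A (j + 1), F.card ≤ 2 * j + (τ j F).card
  lip : ∀ j < K, ∀ F ∈ A (j + 1), ∀ G ∈ A (j + 1), F ∩ G ∉ A j →
    pos j G ≤ pos j F + 2 * (j + 1)
  bnd : ∀ j F, -(M : ℤ) ≤ pos j F ∧ pos j F ≤ M
  v01 : ∀ j < K, ∀ F ∈ A (j + 1), τ j F = {0} ∨ τ j F = {1} → (M : ℤ) - (j + 1) ≤ pos j F
  v34 : ∀ j < K, ∀ F ∈ A (j + 1), τ j F = {3} ∨ τ j F = {4} → pos j F ≤ -(M : ℤ) + (j + 1)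
  vp : ∀ j < K, ∀ F ∈ A (j + 1), F ∉ A j →
    τ j F ⊆ {5, 0} ∨ τ j F ⊆ {0, 1} ∨ τ j F ⊆ {1, 2} → -((j : ℤ) + 1) ≤ pos j F
  vn : ∀ j < K, ∀ F ∈ A (j + 1), F ∉ A j →
    τ j F ⊆ {2, 3} ∨ τ j F ⊆ {3, 4} ∨ τ j F ⊆ {4, 5} → pos j F ≤ (j : ℤ) + 1

def BDStmt : Prop :=
  ∀ (K M : ℕ) [NeZero (6 * M)], K ≤ M → ∃ τ pos, BD K M (Aj (6 * M)) τ pos

/-! ### The finite model -/

/-- The vertices of the model. -/
abbrev MV : Type := Fin 6 ⊕ Fin 6 ⊕ Fin 3 ⊕ Fin 3 ⊕ Unit

def mX (T : Finset MV) : Finset (Fin 6) := pre (fun i => Sum.inl i) T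
def mY (T : Finset MV) : Finset (Fin 6) := pre (fun i => Sum.inr (Sum.inl i)) T
def mC (T : Finset MV) : Finset (Fin 3) := pre (fun i => Sum.inr (Sum.inr (Sum.inl i))) T
def mD (T : Finset MV) : Finset (Fin 3) := pre (fun i => Sum.inr (Sum.inr (Sum.inr (Sum.inl i)))) T
def mz : MV := Sum.inr (Sum.inr (Sum.inr (Sum.inr ())))

def G0 : Set (Finset MV) :=
  {T | mX T ∈ C6 ∧ mY T = ∅ ∧ mC T ≠ Finset.univ ∧ mD T = ∅ ∧ mz ∉ T}

def G1 : Set (Finset MV) :=
  {T | mX T = ∅ ∧ mY T ∈ C6 ∧ mC T = ∅ ∧ mD T ≠ Finset.univ ∧ mz ∉ T}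

/-- Arcs around the positive pole. -/
def ArcP (T : Finset (Fin 6)) : Prop := T ⊆ {5, 0} ∨ T ⊆ {0, 1} ∨ T ⊆ {1, 2}

/-- Arcs around the negative pole. -/
def ArcN (T : Finset (Fin 6)) : Prop := T ⊆ {2, 3} ∨ T ⊆ {3, 4} ∨ T ⊆ {4, 5}

def ModelStmt : Prop :=
  ∃ R : Set (Finset MV), Down R ∧
    (∀ T ∈ R, mX T ∈ C6 ∧ mY T ∈ C6 ∧ mC T ≠ Finset.univ ∧ mD T ≠ Finset.univ ∧ mz ∉ T ∧
      T.card ≤ 5) ∧
    RI (cone mz G0) (R ∪ cone mz G1) {T | mz ∉ T} ∧
    ∀ T ∈ R, T.card = 5 → mX T ≠ ∅ ∧ mY T ≠ ∅ ∧ ∀ G ⊆ T, 4 ≤ G.card →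
      (mX G = ∅ → G ∈ G1 ∨ mX T = {2} ∨ mX T = {5}) ∧
      (mY G = ∅ → G ∈ G0 ∨ mY T = {2} ∨ mY T = {5}) ∧
      (G ∈ G0 → (ArcP (mX T) ∧ (mY T = {0} ∨ mY T = {1})) ∨
        (ArcN (mX T) ∧ (mY T = {3} ∨ mY T = {4}))) ∧
      (G ∈ G1 → (ArcP (mY T) ∧ (mX T = {3} ∨ mX T = {4})) ∨
        (ArcN (mY T) ∧ (mX T = {0} ∨ mX T = {1})))

end Pool.Agent.MP_6a6613_co

end

section

/-! From a cone homeomorphism and a potential to the statement on geometric complexes. -/

namespace Pool.Agent.MP_6a6613_co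

open Set

namespace Final

open Pool.Agent.MP_d539bc_co (realization HasDim IsSphere PM pm_of_sphere pure_of_lc
  lc_of_charted Eu LC)

section Restrict

variable {V W : Type} [Fintype V] [Fintype W]

theorem supp_extend (e : W ↪ V) (x : W → ℝ) :
    supp (Function.extend e x 0) = (supp x).map e := by
  ext v
  rw [mem_supp, Finset.mem_map]
  constructor
  · intro h
    by_cases hv : ∃ w, e w = v
    · obtain ⟨w, rfl⟩ := hv
      rw [e.injective.extend_apply] at h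
      exact ⟨w, mem_supp.2 h, rfl⟩
    · rw [Function.extend_apply' _ _ _ hv] at h
      exact absurd rfl h
  · rintro ⟨w, hw, rfl⟩
    rw [e.injective.extend_apply]
    exact mem_supp.1 hw

theorem hh_extend (e : W ↪ V) {K : Set (Finset V)} (hK : Down K)
    (he : ∀ v, {v} ∈ K → ∃ w, e w = v) :
    HH (fun x : W → ℝ => Function.extend e x 0) (fun p : V → ℝ => p ∘ e)
      (Cn {s : Finset W | s.map e ∈ K}) (Cn K) := by
  have hfg : ∀ p ∈ Cn K, Function.extend e (p ∘ e) 0 = p := by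
    intro p hp
    funext v
    by_cases hv : ∃ w, e w = v
    · obtain ⟨w, rfl⟩ := hv
      rw [e.injective.extend_apply]; rfl
    · rw [Function.extend_apply' _ _ _ hv]
      by_contra h
      exact hv (he v (hK _ hp.2 _ (Finset.singleton_subset_iff.2 (mem_supp.2 (Ne.symm h)))))
  have hd : Down {s : Finset W | s.map e ∈ K} := fun F hF G hG =>
    hK _ hF _ (Finset.map_subset_map.2 hG)
  refine ⟨Continuous.continuousOn (continuous_pi fun v => ?_),
    Continuous.continuousOn (continuous_pi fun w => continuous_apply (e w)), fun x hx => ⟨?_, ?_⟩,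
    fun p hp => ⟨fun w => hp.1 _, ?_⟩, fun x _ => ?_, hfg, hd.smul, fun x _ t _ => ?_⟩
  · by_cases hv : ∃ w, e w = v
    · obtain ⟨w, rfl⟩ := hv
      simp only [e.injective.extend_apply]
      exact continuous_apply w
    · simp only [Function.extend_apply' _ _ _ hv]
      exact continuous_const
  · intro v
    by_cases hv : ∃ w, e w = v
    · obtain ⟨w, rfl⟩ := hv
      simp only [e.injective.extend_apply]
      exact hx.1 w
    · simp only [Function.extend_apply' _ _ _ hv]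
      exact le_rfl
  · rw [supp_extend]; exact hx.2
  · show (supp (p ∘ e)).map e ∈ K
    rw [← supp_extend, hfg p hp]; exact hp.2
  · funext w
    exact e.injective.extend_apply _ _ w
  · funext v
    by_cases hv : ∃ w, e w = v
    · obtain ⟨w, rfl⟩ := hv
      simp only [Pi.smul_apply, e.injective.extend_apply]
    · simp only [Pi.smul_apply, Function.extend_apply' _ _ _ hv]
      simp

end Restrict

theorem sphere_homeo {V : Type} [Fintype V] {K : Set (Finset V)} {d : ℕ} (h : Sph K d) :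
    Nonempty ({p : V → ℝ | p ∈ Cn K ∧ ∑ v, p v = 1} ≃ₜ
      Metric.sphere (0 : EuclideanSpace ℝ (Fin d)) 1) := by
  obtain ⟨f, g, h⟩ := h
  have hs := h.symm
  have hg0 : g 0 = 0 := by simpa using hs.hf 0 (mem_univ _) 0 le_rfl
  have h0 : (0 : V → ℝ) ∈ Cn K := hg0 ▸ h.mg (mem_univ 0)
  have hf0 : f 0 = 0 := by simpa using h.hf 0 h0 0 le_rfl
  let F : (V → ℝ) → EuclideanSpace ℝ (Fin d) := fun p => WithLp.toLp 2 (f p)
  let G : EuclideanSpace ℝ (Fin d) → V → ℝ := fun y => g y.ofLp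
  have hFpos : ∀ p ∈ Cn K, ∑ v, p v = 1 → 0 < ‖F p‖ := by
    intro p hp h1
    rw [norm_pos_iff]
    intro e
    have e1 : f p = f 0 := by
      rw [hf0]; exact congrArg WithLp.ofLp e
    rw [h.inj hp h0 e1] at h1
    simp at h1
  have hGm : ∀ y, G y ∈ Cn K := fun y => h.mg (mem_univ _)
  have hGpos : ∀ y, ‖y‖ = 1 → 0 < ∑ v, G y v := by
    intro y hy
    rcases (Finset.sum_nonneg fun v _ => (hGm y).1 v).eq_or_lt with e | e
    · exfalso
      have e1 : G y = 0 := funext fun v =>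
        (Finset.sum_eq_zero_iff_of_nonneg fun v _ => (hGm y).1 v).1 e.symm v (Finset.mem_univ v)
      have e2 : y.ofLp = 0 := by
        rw [← h.fg y.ofLp (mem_univ _)]
        exact (congrArg f e1).trans hf0
      have e3 : y = 0 := by
        ext i; simpa using congrFun e2 i
      rw [e3] at hy; simp at hy
    · exact e
  have hFG : ∀ y, F (G y) = y := fun y => by
    simp only [F, G, h.fg _ (mem_univ _)]
  have hGF : ∀ p ∈ Cn K, G (F p) = p := fun p hp => h.gf p hp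
  have hFs : ∀ p ∈ Cn K, ∀ t : ℝ, 0 ≤ t → F (t • p) = t • F p := fun p hp t ht => by
    simp only [F, h.hf p hp t ht, WithLp.toLp_smul]
  have hGs : ∀ y, ∀ t : ℝ, 0 ≤ t → G (t • y) = t • G y := fun y t ht => by
    simp only [G, WithLp.ofLp_smul, hs.hf _ (mem_univ _) t ht]
  have hFc : Continuous fun p : {p : V → ℝ | p ∈ Cn K ∧ ∑ v, p v = 1} => F p :=
    (PiLp.continuous_toLp 2 _).comp
      (h.cf.comp_continuous continuous_subtype_val fun p => p.2.1)
  have hGc : Continuous G :=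
    (continuousOn_univ.1 h.cg).comp (PiLp.continuous_ofLp 2 _)
  refine ⟨⟨⟨fun p => ⟨‖F p‖⁻¹ • F p, ?_⟩, fun y => ⟨(∑ v, G y v)⁻¹ • G y, ?_, ?_⟩,
    fun p => ?_, fun y => ?_⟩, ?_, ?_⟩⟩
  · have := hFpos p p.2.1 p.2.2
    rw [mem_sphere_zero_iff_norm, norm_smul, norm_inv, norm_norm, inv_mul_cancel₀ this.ne']
  · exact h.sX _ (hGm y) _ (inv_nonneg.2 (hGpos y (mem_sphere_zero_iff_norm.1 y.2)).le)
  · have := hGpos y (mem_sphere_zero_iff_norm.1 y.2)
    simp only [Pi.smul_apply, smul_eq_mul]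
    rw [← Finset.mul_sum, inv_mul_cancel₀ this.ne']
  · have hp := hFpos p p.2.1 p.2.2
    apply Subtype.ext
    simp only []
    rw [hGs _ _ (inv_nonneg.2 hp.le), hGF p p.2.1]
    simp only [Pi.smul_apply, smul_eq_mul]
    rw [← Finset.mul_sum, p.2.2, mul_one, inv_inv, smul_smul, mul_inv_cancel₀ hp.ne', one_smul]
  · have hy1 := mem_sphere_zero_iff_norm.1 y.2
    have hy := hGpos y hy1
    apply Subtype.ext
    simp only []
    rw [hFs _ (hGm y) _ (inv_nonneg.2 hy.le), hFG, norm_smul, hy1, mul_one, norm_inv,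
      Real.norm_of_nonneg hy.le, inv_inv, smul_smul, mul_inv_cancel₀ hy.ne', one_smul]
  · exact Continuous.subtype_mk
      ((hFc.norm.inv₀ fun p => (hFpos p p.2.1 p.2.2).ne').smul hFc) _
  · have hc : Continuous fun y : Metric.sphere (0 : EuclideanSpace ℝ (Fin d)) 1 => G y :=
      hGc.comp continuous_subtype_val
    exact Continuous.subtype_mk
      (((continuous_finsetSum _ fun v _ => (continuous_apply v).comp hc).inv₀
        fun y => (hGpos y (mem_sphere_zero_iff_norm.1 y.2)).ne').smul hc) _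

/-- The basis vectors. -/
noncomputable def bv (m : ℕ) : Fin m ↪ EuclideanSpace ℝ (Fin m) :=
  ⟨fun i => EuclideanSpace.single i 1, fun i j h => by
    by_contra hij
    have := congrArg (fun y : EuclideanSpace ℝ (Fin m) => y i) h
    simp [hij] at this⟩

theorem bv_apply {m : ℕ} (i j : Fin m) : bv m i j = if j = i then 1 else 0 := by
  simp [bv]

theorem bv_indep (m : ℕ) : AffineIndependent ℝ (bv m) :=
  (EuclideanSpace.orthonormal_single (𝕜 := ℝ) (ι := Fin m)).linearIndependent.affineIndependent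

theorem mem_hull {m : ℕ} (s : Finset (Fin m)) (x : EuclideanSpace ℝ (Fin m)) :
    x ∈ convexHull ℝ ((s.map (bv m) : Finset _) : Set (EuclideanSpace ℝ (Fin m))) ↔
      (∀ i, 0 ≤ x i) ∧ ∑ i, x i = 1 ∧ ∀ i, i ∉ s → x i = 0 := by
  constructor
  · intro hx
    refine convexHull_min (t := {x : EuclideanSpace ℝ (Fin m) |
      (∀ i, 0 ≤ x i) ∧ ∑ i, x i = 1 ∧ ∀ i, i ∉ s → x i = 0}) ?_ ?_ hx
    · intro y hy
      obtain ⟨j, hj, rfl⟩ := Finset.mem_map.1 (Finset.mem_coe.1 hy)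
      refine ⟨fun i => ?_, ?_, fun i hi => ?_⟩
      · rw [bv_apply]; split_ifs <;> norm_num
      · simp [bv_apply]
      · rw [bv_apply, if_neg fun e : i = j => hi (e ▸ hj)]
    · intro y hy z hz a b ha hb hab
      refine ⟨fun i => ?_, ?_, fun i hi => ?_⟩
      · simp only [PiLp.add_apply, PiLp.smul_apply, smul_eq_mul]
        exact add_nonneg (mul_nonneg ha (hy.1 i)) (mul_nonneg hb (hz.1 i))
      · simp only [PiLp.add_apply, PiLp.smul_apply, smul_eq_mul]
        rw [Finset.sum_add_distrib, ← Finset.mul_sum, ← Finset.mul_sum, hy.2.1, hz.2.1]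
        linarith
      · simp only [PiLp.add_apply, PiLp.smul_apply, smul_eq_mul]
        rw [hy.2.2 i hi, hz.2.2 i hi]; simp
  · rintro ⟨h1, h2, h3⟩
    have e : x = ∑ i ∈ s, x i • bv m i := by
      ext j
      simp only [WithLp.ofLp_sum, Finset.sum_apply, PiLp.smul_apply, bv_apply, smul_eq_mul,
        mul_ite, mul_one, mul_zero, Finset.sum_ite_eq]
      split_ifs with hj
      · rfl
      · exact h3 j hj
    rw [e]
    refine (convex_convexHull ℝ _).sum_mem (fun i _ => h1 i) ?_ fun i hi =>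
      subset_convexHull ℝ _ (Finset.mem_coe.2 (Finset.mem_map_of_mem _ hi))
    rw [← h2]
    exact Finset.sum_subset (Finset.subset_univ s) fun i _ hi => h3 i hi

open Classical in
/-- The geometric complex on the basis vectors. -/
noncomputable def geo {m : ℕ} (A : AbstractSimplicialComplex (Fin m)) :
    Geometry.SimplicialComplex ℝ (EuclideanSpace ℝ (Fin m)) :=
  Geometry.SimplicialComplex.ofAffineIndependent
    ⟨{F | ∃ s ∈ A.faces, s.map (bv m) = F}, by
      rintro F ⟨s, hs, rfl⟩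
      refine ⟨(MP_d539bc_co.face_nonempty hs).map, fun G hG hG' => ?_⟩
      obtain ⟨t, ht, rfl⟩ := Finset.subset_map_iff.1 hG
      exact ⟨t, MP_d539bc_co.face_down hs ht (Finset.map_nonempty.1 hG'), rfl⟩⟩
    ((bv_indep m).range.mono fun x hx => by
      simp only [mem_iUnion, Finset.mem_coe] at hx
      obtain ⟨_, ⟨s, -, rfl⟩, hx⟩ := hx
      obtain ⟨i, -, rfl⟩ := Finset.mem_map.1 hx
      exact ⟨i, rfl⟩)

theorem mem_geo {m : ℕ} {A : AbstractSimplicialComplex (Fin m)}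
    {F : Finset (EuclideanSpace ℝ (Fin m))} :
    F ∈ (geo A).faces ↔ ∃ s ∈ A.faces, s.map (bv m) = F := Iff.rfl

theorem mem_space {m : ℕ} {A : AbstractSimplicialComplex (Fin m)}
    {x : EuclideanSpace ℝ (Fin m)} : x ∈ (geo A).space ↔ x.ofLp ∈ realization A := by
  rw [Geometry.SimplicialComplex.mem_space_iff]
  constructor
  · rintro ⟨F, ⟨s, hs, rfl⟩, hx⟩
    obtain ⟨h1, h2, h3⟩ := (mem_hull s x).1 hx
    exact ⟨h1, h2, s, hs, h3⟩
  · rintro ⟨h1, h2, s, hs, h3⟩
    exact ⟨_, ⟨s, hs, rfl⟩, (mem_hull s x).2 ⟨h1, h2, h3⟩⟩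

theorem mem_facets {m d : ℕ} {A : AbstractSimplicialComplex (Fin m)} (hd : HasDim A d)
    (hp : PM A d) {F : Finset (EuclideanSpace ℝ (Fin m))} :
    F ∈ (geo A).facets ↔ ∃ s ∈ A.faces, s.card = d ∧ s.map (bv m) = F := by
  rw [Geometry.SimplicialComplex.mem_facets]
  constructor
  · rintro ⟨⟨s, hs, rfl⟩, h⟩
    obtain ⟨t, ht, hst, htc⟩ := hp.pure s hs
    have := Finset.map_injective _ (h _ ⟨t, ht, rfl⟩ (Finset.map_subset_map.2 hst))
    exact ⟨s, hs, this ▸ htc, rfl⟩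
  · rintro ⟨s, hs, hc, rfl⟩
    refine ⟨⟨s, hs, rfl⟩, ?_⟩
    rintro _ ⟨t, ht, rfl⟩ hst
    rw [Finset.eq_of_subset_of_card_le (Finset.map_subset_map.1 hst) (hc ▸ hd.1 t ht)]

theorem walk_bound {α : Type} {H : SimpleGraph α} (ψ : α → ℤ)
    (h : ∀ u v, H.Adj u v → ψ v ≤ ψ u + 1) {u v : α} (p : H.Walk u v) :
    ψ v ≤ ψ u + p.length := by
  induction p with
  | nil => simp
  | cons huv p ih =>
    have := h _ _ huv
    rw [SimpleGraph.Walk.length_cons]
    push_cast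
    linarith

theorem core {m d : ℕ} (A : AbstractSimplicialComplex (Fin m)) (hd : 2 ≤ d)
    (e : realization A ≃ₜ Metric.sphere (0 : EuclideanSpace ℝ (Fin d)) 1)
    (Φ : Finset (Fin m) → ℤ) (z0 z1 : Fin m)
    (hlip : ∀ F ∈ A.faces, ∀ G ∈ A.faces, F.card = d → G.card = d → (F ∩ G).card + 1 = d →
      Φ G ≤ Φ F + 1)
    (h0 : ∀ F ∈ A.faces, F.card = d → z0 ∈ F → Φ F ≤ 0)
    (h1 : ∀ F ∈ A.faces, F.card = d → z1 ∈ F → 2 * (m : ℤ) ≤ Φ F) : Target := by
  classical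
  obtain ⟨k, rfl⟩ : ∃ k, d = k + 1 := ⟨d - 1, by omega⟩
  have hdim : HasDim A (k + 1) := by
    obtain ⟨s, hs, hmax⟩ := (toFinite A.faces).toFinset.exists_max_image Finset.card
      ⟨{z0}, (Finite.mem_toFinset _).2 (A.singleton_mem z0)⟩
    have hd' : HasDim A s.card :=
      ⟨fun t ht => hmax t ((Finite.mem_toFinset _).2 ht), s, (Finite.mem_toFinset _).1 hs, rfl⟩
    have c : ChartedSpace (Eu k) (realization A) := e.symm.chartedSpace
    have hc : ∀ x ∈ realization A, LC (realization A) k x := fun x hx => lc_of_charted c hx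
    rw [(pure_of_lc hc hd').1]
    exact hd'
  have hp : PM A (k + 1) := pm_of_sphere hd hdim ⟨k, ⟨e⟩⟩
  unfold Target
  refine ⟨k + 1, (geo A).vertices.ncard, m, hd, geo A, ?_, rfl, ⟨?_⟩, ?_, ?_⟩
  · exact ((toFinite A.faces).image (Finset.map (bv m))).subset fun F hF => hF
  · exact ((PiLp.homeomorph 2 fun _ : Fin m => ℝ).subtype fun x => mem_space).trans e
  · intro F hF
    obtain ⟨s, -, hc, rfl⟩ := (mem_facets hdim hp).1 hF
    rw [Finset.card_map, hc]
  · have hn : (geo A).vertices.ncard ≤ m := by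
      have : (geo A).vertices ⊆ bv m '' univ := by
        rintro x ⟨s, -, hs⟩
        have : x ∈ s.map (bv m) := hs ▸ Finset.mem_singleton_self x
        obtain ⟨i, -, rfl⟩ := Finset.mem_map.1 this
        exact ⟨i, mem_univ _, rfl⟩
      refine (ncard_le_ncard this (toFinite _)).trans ((ncard_image_le).trans ?_)
      simp [ncard_univ]
    have hfin : Finite (geo A).facets :=
      (((toFinite A.faces).image (Finset.map (bv m))).subset fun F hF =>
        Geometry.SimplicialComplex.facets_subset hF).to_subtype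
    generalize hH : SimpleGraph.fromRel _ = H
    have hadj : ∀ (s t : Finset (Fin m)) (hs : s.map (bv m) ∈ (geo A).facets)
        (ht : t.map (bv m) ∈ (geo A).facets),
        H.Adj ⟨_, hs⟩ ⟨_, ht⟩ ↔ s ≠ t ∧ (s ∩ t).card + 1 = k + 1 := by
      intro s t hs ht
      rw [← hH, SimpleGraph.fromRel_adj]
      simp only [← Finset.map_inter, Finset.card_map, ne_eq, Subtype.mk.injEq, Finset.map_inj,
        Finset.inter_comm t s, or_self]
    have hmk : ∀ s ∈ A.faces, s.card = k + 1 → s.map (bv m) ∈ (geo A).facets :=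
      fun s hs hc => (mem_facets hdim hp).2 ⟨s, hs, hc, rfl⟩
    obtain ⟨F0, hF0, hz0, c0⟩ := hp.pure _ (A.singleton_mem z0)
    obtain ⟨F1, hF1, hz1, c1⟩ := hp.pure _ (A.singleton_mem z1)
    have hreach : ∀ v, H.Reachable ⟨_, hmk F0 hF0 c0⟩ v := by
      rintro ⟨F, hF⟩
      obtain ⟨s, hs, hc, rfl⟩ := (mem_facets hdim hp).1 hF
      have := hp.strong (fun s => ∀ h : s.map (bv m) ∈ (geo A).facets,
        H.Reachable ⟨_, hmk F0 hF0 c0⟩ ⟨_, h⟩) (fun R z z' hR hz hz' f1 f2 ih h => by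
          have a1 := hmk _ f1 (by rw [Finset.card_insert_of_notMem hz, hR])
          by_cases ezz : z = z'
          · subst ezz; exact ih h
          · refine (ih a1).trans (SimpleGraph.Adj.reachable ((hadj _ _ a1 h).2 ⟨fun e => ?_, ?_⟩))
            · have : z ∈ insert z' R := e ▸ Finset.mem_insert_self z R
              rcases Finset.mem_insert.1 this with a | a
              exacts [ezz a, hz a]
            · rw [← hR]
              congr 2
              ext v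
              simp only [Finset.mem_inter, Finset.mem_insert]
              constructor
              · rintro ⟨a | a, b | b⟩
                exacts [absurd (a.symm.trans b) ezz, b, a, a]
              · exact fun a => ⟨Or.inr a, Or.inr a⟩)
        F0 hF0 s hs c0 hc (fun _ => SimpleGraph.Reachable.refl _)
      exact this hF
    have hne : Nonempty (geo A).facets := ⟨⟨_, hmk F0 hF0 c0⟩⟩
    have hconn : H.Connected := ⟨fun u v => (hreach u).symm.trans (hreach v)⟩
    have hdiam := SimpleGraph.dist_le_diam (SimpleGraph.connected_iff_ediam_ne_top.1 hconn)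
      (u := ⟨_, hmk F0 hF0 c0⟩) (v := ⟨_, hmk F1 hF1 c1⟩)
    obtain ⟨p, hp'⟩ := hconn.exists_walk_length_eq_dist ⟨_, hmk F0 hF0 c0⟩ ⟨_, hmk F1 hF1 c1⟩
    have hpre : ∀ s : Finset (Fin m), pre (bv m) (s.map (bv m)) = s := fun s => by
      ext i; simp
    have hw := walk_bound (H := H) (fun F => Φ (pre (bv m) F.1)) (by
      rintro ⟨F, hF⟩ ⟨G, hG⟩ h
      obtain ⟨s, hs, hc, rfl⟩ := (mem_facets hdim hp).1 hF
      obtain ⟨t, ht, hc', rfl⟩ := (mem_facets hdim hp).1 hG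
      simp only [hpre]
      exact hlip s hs t ht hc hc' ((hadj s t hF hG).1 h).2) p
    simp only [hpre] at hw
    have a0 := h0 F0 hF0 c0 (Finset.singleton_subset_iff.1 hz0)
    have a1 := h1 F1 hF1 c1 (Finset.singleton_subset_iff.1 hz1)
    omega

end Final

open Pool.Agent.MP_d539bc_co (realization) in
theorem finalStmt : FinalStmt := by
  intro V _ _ K d Φ z0 z1 hK hd hS hz0 hz1 hlip h0 h1
  classical
  let V' := {v : V // {v} ∈ K}
  let m := Fintype.card V'
  let e : Fin m ↪ V := (Fintype.equivFin V').symm.toEmbedding.trans (Function.Embedding.subtype _)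
  have he : ∀ v, {v} ∈ K → ∃ w, e w = v := fun v hv =>
    ⟨Fintype.equivFin V' ⟨v, hv⟩,
      congrArg Subtype.val ((Fintype.equivFin V').symm_apply_apply ⟨v, hv⟩)⟩
  have he' : ∀ w, {e w} ∈ K := fun w => ((Fintype.equivFin V').symm w).2
  have hm : m ≤ Fintype.card V := Fintype.card_subtype_le _
  have hS' : Sph {s : Finset (Fin m) | s.map e ∈ K} d := by
    obtain ⟨f, g, h⟩ := hS
    exact ⟨_, _, (Final.hh_extend e hK he).trans h⟩
  obtain ⟨φ⟩ := Final.sphere_homeo hS'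
  let A : AbstractSimplicialComplex (Fin m) :=
    ⟨⟨{s | s.Nonempty ∧ s.map e ∈ K}, fun s hs =>
      ⟨hs.1, fun t ht ht' => ⟨ht', hK _ hs.2 _ (Finset.map_subset_map.2 ht)⟩⟩⟩,
      fun w => ⟨Finset.singleton_nonempty w, by simpa using he' w⟩⟩
  have hA : realization A =
      {p : Fin m → ℝ | p ∈ Cn {s : Finset (Fin m) | s.map e ∈ K} ∧ ∑ v, p v = 1} := by
    ext p
    constructor
    · rintro ⟨a, b, s, hs, c⟩
      exact ⟨⟨a, hK _ hs.2 _ (Finset.map_subset_map.2 fun v hv =>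
        by_contra fun h => mem_supp.1 hv (c v h))⟩, b⟩
    · rintro ⟨⟨a, c⟩, b⟩
      refine ⟨a, b, supp p, ⟨?_, c⟩, fun v hv => by simpa using hv⟩
      by_contra hne
      rw [Finset.not_nonempty_iff_eq_empty] at hne
      have : ∀ v, p v = 0 := fun v => by
        by_contra h
        have : v ∈ supp p := mem_supp.2 h
        simp [hne] at this
      simp [this] at b
  obtain ⟨w0, rfl⟩ := he z0 hz0
  obtain ⟨w1, rfl⟩ := he z1 hz1
  refine Final.core A hd ((Homeomorph.setCongr hA).trans φ) (fun s => Φ (s.map e)) w0 w1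
    (fun F hF G hG c1 c2 c3 => hlip _ hF.2 _ hG.2 (by simpa using c1) (by simpa using c2)
      (by rw [← Finset.map_inter, Finset.card_map, c3]))
    (fun F hF c hz => h0 _ hF.2 (by simpa using c) (Finset.mem_map_of_mem _ hz))
    (fun F hF c hz => le_trans ?_ (h1 _ hF.2 (by simpa using c) (Finset.mem_map_of_mem _ hz)))
  omega

end Pool.Agent.MP_6a6613_co

end

section

/-! The nested family of open books on the cyclic complexes. -/

namespace Pool.Agent.MP_6a6613_co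

open Set

namespace BDaux

variable {m : ℕ}

theorem mem_sh {I : Finset (ZMod m)} {x : ZMod m} : x ∈ sh I ↔ x - 1 ∈ I := by
  unfold sh
  rw [Finset.mem_image]
  constructor
  · rintro ⟨y, hy, rfl⟩
    simpa using hy
  · intro h
    exact ⟨x - 1, h, by ring⟩

theorem card_sh (I : Finset (ZMod m)) : (sh I).card = I.card :=
  Finset.card_image_of_injective _ (add_left_injective 1)

theorem sum_sh (I : Finset (ZMod m)) : ∑ x ∈ sh I, x = ∑ x ∈ I, x + (I.card : ZMod m) := by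
  unfold sh
  rw [Finset.sum_image fun a _ b _ h => add_left_injective 1 h, Finset.sum_add_distrib]
  simp

theorem sep_sh {I : Finset (ZMod m)} (h : Sep I) : Sep (sh I) := fun x hx hx' => by
  rw [mem_sh] at hx hx'
  have := h _ hx
  rw [sub_add_cancel] at this
  exact this (by simpa using hx')

theorem sep_mono {I X : Finset (ZMod m)} (h : Sep I) (hX : X ⊆ I) : Sep X :=
  fun x hx hx' => h x (hX hx) (hX hx')

/-- Splitting of a separated subset of `I ∪ sh I`. -/
theorem split {I X : Finset (ZMod m)} (hI : Sep I) (hX : Sep X) (h : X ⊆ I ∪ sh I) :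
    ∃ X0 X1 : Finset (ZMod m), X0 ⊆ I ∧ X1 ⊆ I ∧ Disjoint X0 X1 ∧ Disjoint X0 (sh X1) ∧
      X = X0 ∪ sh X1 := by
  refine ⟨X ∩ I, I.filter fun i => i + 1 ∈ X, Finset.inter_subset_right, Finset.filter_subset _ _,
    ?_, ?_, ?_⟩
  · rw [Finset.disjoint_left]
    intro x hx hx'
    exact hX x (Finset.mem_inter.1 hx).1 (Finset.mem_filter.1 hx').2
  · rw [Finset.disjoint_left]
    intro x hx hx'
    rw [mem_sh] at hx'
    have := hI _ (Finset.mem_filter.1 hx').1
    rw [sub_add_cancel] at this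
    exact this (Finset.mem_inter.1 hx).2
  · ext x
    rw [Finset.mem_union, mem_sh, Finset.mem_inter, Finset.mem_filter, sub_add_cancel]
    constructor
    · intro hx
      rcases Finset.mem_union.1 (h hx) with a | a
      · exact Or.inl ⟨hx, a⟩
      · exact Or.inr ⟨mem_sh.1 a, hx⟩
    · rintro (a | a)
      exacts [a.1, a.2]

theorem card_le {I X : Finset (ZMod m)} (hI : Sep I) (hX : Sep X) (h : X ⊆ I ∪ sh I) :
    X.card ≤ I.card := by
  obtain ⟨X0, X1, a0, a1, d, d', rfl⟩ := split hI hX h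
  rw [Finset.card_union_of_disjoint d', card_sh, ← Finset.card_union_of_disjoint d]
  exact Finset.card_le_card (Finset.union_subset a0 a1)

theorem sum_eq {I X : Finset (ZMod m)} (hI : Sep I) (hX : Sep X) (h : X ⊆ I ∪ sh I)
    (hc : X.card = I.card) : ∃ r : ℕ, r ≤ I.card ∧ ∑ x ∈ X, x = ∑ x ∈ I, x + (r : ZMod m) := by
  obtain ⟨X0, X1, a0, a1, d, d', rfl⟩ := split hI hX h
  rw [Finset.card_union_of_disjoint d', card_sh, ← Finset.card_union_of_disjoint d] at hc
  have e : X0 ∪ X1 = I := Finset.eq_of_subset_of_card_le (Finset.union_subset a0 a1) hc.ge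
  refine ⟨X1.card, Finset.card_le_card a1, ?_⟩
  rw [Finset.sum_union d', sum_sh, ← e, Finset.sum_union d, add_assoc]

/-- The greedy cover. -/
theorem greedy [NeZero m] {F : Finset (ZMod m)} {g : ZMod m} (hg : g ∉ F) :
    ∃ I : Finset (ZMod m), Sep I ∧ I ⊆ F ∧ F ⊆ I ∪ sh I := by
  classical
  have ex : ∀ x : ZMod m, ∃ n : ℕ, x - (n : ZMod m) ∉ F := fun x =>
    ⟨(x - g).val, by simpa using hg⟩
  have step : ∀ x : ZMod m, x + 1 ∈ F → Nat.find (ex (x + 1)) = Nat.find (ex x) + 1 := by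
    intro x hx
    rw [Nat.find_eq_iff]
    refine ⟨?_, fun n hn => ?_⟩
    · have := Nat.find_spec (ex x)
      push_cast
      rwa [add_sub_add_right_eq_sub]
    · rcases n with _ | n
      · simpa using hx
      · have := Nat.find_min (ex x) (Nat.lt_of_succ_lt_succ hn)
        push_cast
        rwa [add_sub_add_right_eq_sub]
  refine ⟨F.filter fun x => Nat.find (ex x) % 2 = 1, fun x hx hx' => ?_, Finset.filter_subset _ _,
    fun x hx => ?_⟩
  · rw [Finset.mem_filter] at hx hx'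
    have := step x hx'.1
    omega
  · have h1 := step (x - 1) (by simpa using hx)
    rw [sub_add_cancel] at h1
    rw [Finset.mem_union, mem_sh, Finset.mem_filter, Finset.mem_filter]
    by_cases a : Nat.find (ex x) % 2 = 1
    · exact Or.inl ⟨hx, a⟩
    · refine Or.inr ⟨?_, by omega⟩
      have := Nat.find_min (ex (x - 1)) (m := 0) (by omega)
      simpa using this

theorem down_Aj (j : ℕ) : Down (Aj m j) := fun _ hF _ hG I hI => hF I (hI.trans hG)

theorem down_Pg (j t : ℕ) : Down (Pg m j t) := fun F hF G hG =>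
  ⟨down_Aj j F hF.1 G hG, fun I hI => hF.2 I (hI.trans hG)⟩

theorem down_Om (j a b : ℕ) : Down (Om m j a b) := fun F hF G hG => by
  rcases hF with h | ⟨I, h1, h2, h3, h4⟩
  · exact Or.inl (down_Pg j a F h G hG)
  · exact Or.inr ⟨I, h1, h2, h3, hG.trans h4⟩

theorem cover [NeZero m] {j : ℕ} (hm : 2 * j + 2 ≤ m) {F : Finset (ZMod m)} (hF : F ∈ Aj m j) :
    ∃ I : Finset (ZMod m), Sep I ∧ I ⊆ F ∧ F ⊆ I ∪ sh I := by
  by_cases a : ∃ g, g ∉ F
  · obtain ⟨g, hg⟩ := a
    exact greedy hg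
  · exfalso
    push Not at a
    obtain ⟨I, h1, h2, h3⟩ := greedy (F := Finset.univ.erase (0 : ZMod m)) (g := 0) (by simp)
    have b := hF I (fun x _ => a x) h1
    have c := (Finset.card_le_card h3).trans (Finset.card_union_le _ _)
    rw [card_sh, Finset.card_erase_of_mem (Finset.mem_univ _), Finset.card_univ, ZMod.card] at c
    omega

theorem card_Aj [NeZero m] {j : ℕ} (hm : 2 * j + 2 ≤ m) {F : Finset (ZMod m)}
    (hF : F ∈ Aj m j) : F.card ≤ 2 * j := by
  obtain ⟨I, h1, h2, h3⟩ := cover hm hF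
  have b := hF I h2 h1
  have c := (Finset.card_le_card h3).trans (Finset.card_union_le _ _)
  rw [card_sh] at c
  omega

theorem exists_sep {j : ℕ} {F : Finset (ZMod m)} (hF : F ∈ Aj m (j + 1)) (hF' : F ∉ Aj m j) :
    ∃ X ⊆ F, Sep X ∧ X.card = j + 1 := by
  by_contra a
  refine hF' fun I hI hs => ?_
  have := hF I hI hs
  by_contra b
  exact a ⟨I, hI, hs, by omega⟩

/-- The facet lemma. -/
theorem facet [NeZero m] {j : ℕ} (hm : 2 * j + 4 ≤ m) {F : Finset (ZMod m)}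
    (hF : F ∈ Aj m (j + 1)) (hF' : F ∉ Aj m j) :
    ∃ I : Finset (ZMod m), Sep I ∧ I.card = j + 1 ∧ I ⊆ F ∧ F ⊆ I ∪ sh I := by
  obtain ⟨I, h1, h2, h3⟩ := cover (by omega) hF
  obtain ⟨X, a1, a2, a3⟩ := exists_sep hF hF'
  have b := hF I h2 h1
  have c := card_le h1 a2 (a1.trans h3)
  exact ⟨I, h1, by omega, h2, h3⟩

theorem win_iff [NeZero m] {a b : ℕ} (hb : b ≤ 2 * m) (I : Finset (ZMod m)) :
    Win a b I ↔ (a ≤ (∑ x ∈ I, x).val ∧ (∑ x ∈ I, x).val < b) ∨
      (a ≤ (∑ x ∈ I, x).val + m ∧ (∑ x ∈ I, x).val + m < b) := by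
  constructor
  · rintro ⟨s, h1, h2, h3⟩
    rw [← h3, ZMod.val_natCast]
    by_cases c : s < m
    · rw [Nat.mod_eq_of_lt c]
      exact Or.inl ⟨h1, h2⟩
    · rw [Nat.mod_eq_sub_mod (by omega), Nat.mod_eq_of_lt (by omega)]
      exact Or.inr ⟨by omega, by omega⟩
  · rintro (h | h)
    · exact ⟨_, h.1, h.2, by simp⟩
    · exact ⟨_, h.1, h.2, by simp⟩

theorem Pg_period (j : ℕ) : Pg m j m = Pg m j 0 := by
  have key : ∀ I : Finset (ZMod m), Win m (m + j) I ↔ Win 0 (0 + j) I := fun I => by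
    constructor
    · rintro ⟨s, h1, h2, h3⟩
      obtain ⟨s, rfl⟩ := Nat.exists_eq_add_of_le h1
      exact ⟨s, by omega, by omega, by simpa using h3⟩
    · rintro ⟨s, -, h2, h3⟩
      exact ⟨m + s, by omega, by omega, by simpa using h3⟩
  ext F
  simp only [Pg, mem_ofPred_eq, key]

theorem Om_sub {j a b : ℕ} {F : Finset (ZMod m)} (h : F ∈ Om m j a b) : F ∈ Aj m j := by
  rcases h with h | ⟨I, h1, h2, -, h4⟩
  · exact h.1
  · exact fun X hX hs => h2 ▸ card_le h1 hs (hX.trans h4)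

theorem Om_win {j a b : ℕ} (hab : a ≤ b) {F : Finset (ZMod m)} (h : F ∈ Om m j a b)
    {X : Finset (ZMod m)} (hX : X ⊆ F) (hs : Sep X) (hc : X.card = j) : Win a (b + j) X := by
  rcases h with h | ⟨I, h1, h2, ⟨s, b1, b2, b3⟩, h4⟩
  · obtain ⟨s, b1, b2, b3⟩ := h.2 X hX hs hc
    exact ⟨s, b1, by omega, b3⟩
  · obtain ⟨r, c1, c2⟩ := sum_eq h1 hs (hX.trans h4) (by omega)
    exact ⟨s + r, by omega, by omega, by rw [c2, ← b3]; simp⟩

theorem Aj_sub_Om {j a b : ℕ} {F : Finset (ZMod m)} (h : F ∈ Aj m j) : F ∈ Om m (j + 1) a b :=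
  Or.inl ⟨fun I hI hs => (h I hI hs).trans (Nat.le_succ j), fun I hI hs hc => by
    have := h I hI hs
    omega⟩

theorem val_add_nat [NeZero m] (σ : ZMod m) {r : ℕ} (hr : r ≤ m) :
    (σ + (r : ZMod m)).val = σ.val + r ∨ (σ + (r : ZMod m)).val + m = σ.val + r := by
  have e : σ + (r : ZMod m) = ((σ.val + r : ℕ) : ZMod m) := by simp
  have := ZMod.val_lt σ
  rw [e, ZMod.val_natCast]
  by_cases c : σ.val + r < m
  · exact Or.inl (Nat.mod_eq_of_lt c)
  · rw [Nat.mod_eq_sub_mod (by omega), Nat.mod_eq_of_lt (by omega)]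
    exact Or.inr (by omega)

/-- The pages. -/
def P (M j : ℕ) (k : Fin 6) : Set (Finset (ZMod (6 * M))) := Pg (6 * M) (j + 1) (k.val * M)

/-- The regions. -/
def O (M j : ℕ) (k : Fin 6) : Set (Finset (ZMod (6 * M))) :=
  Om (6 * M) (j + 1) (k.val * M) ((k.val + 1) * M)

open Classical in
/-- The carrier in the hexagon. -/
noncomputable def tau (M j : ℕ) (F : Finset (ZMod (6 * M))) : Finset (Fin 6) :=
  Finset.univ.filter fun l => ∀ k : Fin 6, F ∈ O M j k → l = k ∨ l = k + 1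

/-- The height function on the cycle. -/
def w (M x : ℕ) : ℤ :=
  (M : ℤ) - min (2 * (M : ℤ)) (max 0 (min ((x : ℤ) - M) (6 * (M : ℤ) - x)))

open Classical in
/-- The position. -/
noncomputable def pos (M j : ℕ) (F : Finset (ZMod (6 * M))) : ℤ :=
  if h : ∃ X ⊆ F, Sep X ∧ X.card = j + 1 then w M (∑ x ∈ h.choose, x).val else 0

variable {M j : ℕ} [NeZero (6 * M)]

theorem P_win (hj : j + 1 ≤ M) {k : Fin 6} {F X : Finset (ZMod (6 * M))} (h : F ∈ P M j k)
    (hX : X ⊆ F) (hs : Sep X) (hc : X.card = j + 1) :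
    k.val * M ≤ (∑ x ∈ X, x).val ∧ (∑ x ∈ X, x).val < k.val * M + (j + 1) := by
  have a := h.2 X hX hs hc
  have b := ZMod.val_lt (∑ x ∈ X, x)
  have c : k.val * M ≤ 5 * M := Nat.mul_le_mul_right M (by omega)
  rw [win_iff (by omega)] at a
  omega

theorem O_win (hj : j + 1 ≤ M) {k : Fin 6} {F X : Finset (ZMod (6 * M))} (h : F ∈ O M j k)
    (hX : X ⊆ F) (hs : Sep X) (hc : X.card = j + 1) :
    (k.val * M ≤ (∑ x ∈ X, x).val ∧ (∑ x ∈ X, x).val < k.val * M + M + (j + 1)) ∨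
      (∑ x ∈ X, x).val + 6 * M < k.val * M + M + (j + 1) := by
  have a := Om_win (Nat.mul_le_mul_right M (Nat.le_succ _)) h hX hs hc
  have c : k.val * M ≤ 5 * M := Nat.mul_le_mul_right M (by omega)
  have d : k.val.succ * M = k.val * M + M := Nat.succ_mul _ _
  rw [d, win_iff (by omega)] at a
  omega

theorem inter1 (hj : j + 1 ≤ M) (k : Fin 6) : P M j k ∩ P M j (k + 1) ⊆ Aj (6 * M) j := by
  rintro F ⟨h1, h2⟩
  by_contra a
  obtain ⟨X, a1, a2, a3⟩ := exists_sep h1.1 a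
  have b1 := P_win hj h1 a1 a2 a3
  have b2 := P_win hj h2 a1 a2 a3
  fin_cases k <;> simp at b1 b2 <;> omega

theorem inter2 (hj : j + 1 ≤ M) (k : Fin 6) : O M j k ∩ O M j (k + 1) ⊆ P M j (k + 1) := by
  rintro F ⟨h1, h2⟩
  refine ⟨Om_sub h1, fun X a1 a2 a3 => ?_⟩
  have b1 := O_win hj h1 a1 a2 a3
  have b2 := O_win hj h2 a1 a2 a3
  have c : (k + 1).val * M ≤ 5 * M := Nat.mul_le_mul_right M (by omega)
  rw [win_iff (by omega)]
  left
  clear c
  fin_cases k <;> simp at b1 b2 ⊢ <;> omega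

theorem inter3 (hj : j + 1 ≤ M) (k l : Fin 6) (e1 : l ≠ k) (e2 : l ≠ k + 1) (e3 : k ≠ l + 1) :
    O M j k ∩ O M j l ⊆ Aj (6 * M) j := by
  rintro F ⟨h1, h2⟩
  by_contra a
  obtain ⟨X, a1, a2, a3⟩ := exists_sep (Om_sub h1) a
  have b1 := O_win hj h1 a1 a2 a3
  have b2 := O_win hj h2 a1 a2 a3
  clear h1 h2
  fin_cases k <;> fin_cases l <;> simp at b1 b2 e1 e2 e3 <;> omega

theorem union_O (hj : j + 1 ≤ M) : ⋃ k, O M j k = Aj (6 * M) (j + 1) := by
  ext F
  rw [mem_iUnion]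
  constructor
  · rintro ⟨k, hk⟩
    exact Om_sub hk
  · intro hF
    by_cases a : F ∈ Aj (6 * M) j
    · exact ⟨0, Aj_sub_Om a⟩
    · obtain ⟨I, h1, h2, -, h4⟩ := facet (by omega) hF a
      have b := ZMod.val_lt (∑ x ∈ I, x)
      have hM : 0 < M := by omega
      refine ⟨⟨(∑ x ∈ I, x).val / M, (Nat.div_lt_iff_lt_mul hM).2 b⟩,
        Or.inr ⟨I, h1, h2, ⟨(∑ x ∈ I, x).val, Nat.div_mul_le_self _ _, ?_, by simp⟩, h4⟩⟩
      exact (Nat.lt_mul_div_succ _ hM).trans_eq (mul_comm _ _)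

theorem hex : ∀ G : Finset (Fin 6), (∃ k : Fin 6, G ⊆ {k, k + 1}) → ∀ l : Fin 6,
    (l ∈ G ↔ ∀ k : Fin 6, G ⊆ {k, k + 1} → l = k ∨ l = k + 1) := by
  decide +kernel

theorem book (h1 : BallQStmt) (h2 : PageStmt) (h3 : BookStmt) (hj : j + 1 ≤ M) :
    ∃ (h : (ZMod (6 * M) → ℝ) → (ZMod (6 * M) → ℝ) × (Fin 6 → ℝ))
      (g : (ZMod (6 * M) → ℝ) × (Fin 6 → ℝ) → (ZMod (6 * M) → ℝ)),
      HH h g (Cn (Aj (6 * M) (j + 1))) (Cn (Aj (6 * M) j) ×ˢ Cn C6) ∧
      (∀ p ∈ Cn (Aj (6 * M) (j + 1)), supp (h p).2 = tau M j (supp p)) ∧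
      ∀ F ∈ Aj (6 * M) (j + 1), ∀ k, (F ∈ O M j k ↔ tau M j F ⊆ {k, k + 1}) := by
  have hb := h1 (6 * M) j (by omega)
  obtain ⟨hr, ha⟩ := h2 (6 * M) j (by omega)
  obtain ⟨h, g, hh, hk⟩ := h3 (ZMod (6 * M)) (Aj (6 * M) j) (P M j) (O M j) (down_Aj j)
    (fun k => down_Pg _ _) (fun k => down_Om _ _ _) (fun k => (hr _).ball hb)
    (fun k => by
      have a := ha (k.val * M) ((k.val + 1) * M) (Nat.mul_le_mul_right M (Nat.le_succ _))
        (by
          have d : (k.val + 1) * M = k.val * M + M := Nat.succ_mul _ _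
          omega)
      have e : Pg (6 * M) (j + 1) ((k.val + 1) * M) = P M j (k + 1) := by
        unfold P
        fin_cases k
        exacts [rfl, rfl, rfl, rfl, rfl, (Pg_period _).trans (by simp)]
      rw [e] at a
      exact a)
    (inter1 hj) (inter2 hj) (inter3 hj)
  rw [union_O hj] at hh hk
  have key : ∀ p ∈ Cn (Aj (6 * M) (j + 1)), supp (h p).2 = tau M j (supp p) := fun p hp => by
    ext l
    rw [hex _ (hh.mf hp).2.2 l]
    simp only [tau, Finset.mem_filter, Finset.mem_univ, true_and, hk _ p hp]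
  refine ⟨h, g, hh, key, fun F hF k => ?_⟩
  have a := hk k _ (ind_mem hF)
  rwa [key _ (ind_mem hF), supp_ind] at a

omit [NeZero (6 * M)] in
theorem pos_spec {F : Finset (ZMod (6 * M))} (hF : F ∈ Aj (6 * M) (j + 1))
    (hF' : F ∉ Aj (6 * M) j) :
    ∃ X ⊆ F, Sep X ∧ X.card = j + 1 ∧ pos M j F = w M (∑ x ∈ X, x).val := by
  have h := exists_sep hF hF'
  exact ⟨h.choose, h.choose_spec.1, h.choose_spec.2.1, h.choose_spec.2.2, by rw [pos, dif_pos h]⟩

theorem near (hj : j + 1 ≤ M) {F X : Finset (ZMod (6 * M))} (hF : F ∈ Aj (6 * M) (j + 1))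
    (hX : X ⊆ F) (hs : Sep X) (hc : X.card = j + 1) :
    pos M j F ≤ w M (∑ x ∈ X, x).val + (j + 1) ∧ w M (∑ x ∈ X, x).val ≤ pos M j F + (j + 1) := by
  have hF' : F ∉ Aj (6 * M) j := fun a => by
    have := a X hX hs
    omega
  obtain ⟨Y, a1, a2, a3, a4⟩ := pos_spec hF hF'
  obtain ⟨I, b1, b2, -, b4⟩ := facet (by omega) hF hF'
  obtain ⟨r, c1, c2⟩ := sum_eq b1 hs (hX.trans b4) (by omega)
  obtain ⟨r', d1, d2⟩ := sum_eq b1 a2 (a1.trans b4) (by omega)
  have e1 := val_add_nat (∑ x ∈ I, x) (r := r) (by omega)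
  have e2 := val_add_nat (∑ x ∈ I, x) (r := r') (by omega)
  have f0 := ZMod.val_lt (∑ x ∈ I, x)
  have f1 := ZMod.val_lt (∑ x ∈ X, x)
  have f2 := ZMod.val_lt (∑ x ∈ Y, x)
  rw [← c2] at e1
  rw [← d2] at e2
  rw [a4]
  unfold w
  omega

end BDaux

open BDaux in
theorem bdStmt (h1 : BallQStmt) (h2 : PageStmt) (h3 : BookStmt) : BDStmt := by
  intro K M _ hK
  have hM : 0 < M := by
    have := NeZero.ne (6 * M)
    omega
  have hO : ∀ j < K, ∀ F ∈ Aj (6 * M) (j + 1), ∀ k, (F ∈ O M j k ↔ tau M j F ⊆ {k, k + 1}) :=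
    fun j hj => by
      obtain ⟨h, g, -, -, a⟩ := book (M := M) (j := j) h1 h2 h3 (by omega)
      exact a
  have hE : ∀ j < K, ∀ F ∈ Aj (6 * M) (j + 1), (tau M j F = ∅ ↔ F ∈ Aj (6 * M) j) := by
    intro j hj F hF
    constructor
    · intro e
      exact inter3 (by omega) 0 3 (by decide) (by decide) (by decide)
        ⟨(hO j hj F hF 0).2 (by simp [e]), (hO j hj F hF 3).2 (by simp [e])⟩
    · intro a
      have b0 := (hO j hj F hF 0).1 (Aj_sub_Om a)
      have b3 := (hO j hj F hF 3).1 (Aj_sub_Om a)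
      have := Finset.subset_inter b0 b3
      rwa [show ({0, 0 + 1} : Finset (Fin 6)) ∩ {3, 3 + 1} = ∅ by decide,
        Finset.subset_empty] at this
  have hP : ∀ j < K, ∀ F ∈ Aj (6 * M) (j + 1), ∀ l, tau M j F = {l} →
      F ∈ P M j l ∧ F ∉ Aj (6 * M) j := by
    intro j hj F hF l e
    refine ⟨?_, fun a => by simpa [e] using (hE j hj F hF).2 a⟩
    have := inter2 (M := M) (j := j) (by omega) (l - 1)
      ⟨(hO j hj F hF _).2 (by simp [e]), (hO j hj F hF _).2 (by simp [e])⟩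
    rwa [sub_add_cancel] at this
  refine ⟨tau M, pos M, down_Aj, ?_, fun j F hF I hI hs => (hF I hI hs).trans (Nat.le_succ j),
    fun j hj => ?_, hE, ?_, ?_, ?_, ?_, ?_, ?_, ?_, ?_⟩
  · ext F
    rw [mem_singleton_iff]
    constructor
    · intro hF
      have := card_Aj (by omega) hF
      exact Finset.card_eq_zero.1 (by omega)
    · rintro rfl I hI _
      simp [Finset.subset_empty.1 hI]
  · obtain ⟨h, g, a, b, -⟩ := book (M := M) (j := j) h1 h2 h3 (by omega)
    exact ⟨h, g, a, b⟩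
  · intro j _ F _ G hG l hl
    simp only [tau, Finset.mem_filter, Finset.mem_univ, true_and] at hl ⊢
    exact fun k hk => hl k (down_Om _ _ _ F hk G hG)
  · intro j hj F hF
    have c := card_Aj (by omega) hF
    by_cases a : F ∈ Aj (6 * M) j
    · have := card_Aj (by omega) a
      omega
    · have t0 : (tau M j F).card ≠ 0 := fun e => a ((hE j hj F hF).1 (Finset.card_eq_zero.1 e))
      by_cases t1 : (tau M j F).card = 1
      · obtain ⟨l, e⟩ := Finset.card_eq_one.1 t1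
        have p := (hP j hj F hF l e).1
        obtain ⟨I, b1, b2, b3, b4⟩ := facet (by omega) hF a
        by_contra d
        have e' : F = I ∪ sh I := Finset.eq_of_subset_of_card_le b4
          ((Finset.card_union_le _ _).trans (by rw [card_sh]; omega))
        have w1 := P_win (by omega) p b3 b1 b2
        have w2 := P_win (by omega) p (X := sh I) (e' ▸ Finset.subset_union_right) (sep_sh b1)
          (by rw [card_sh, b2])
        rw [sum_sh, b2] at w2
        have := val_add_nat (∑ x ∈ I, x) (r := j + 1) (by omega)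
        omega
      · omega
  · intro j hj F hF G hG a
    obtain ⟨X, a1, a2, a3⟩ := exists_sep (down_Aj _ F hF _ Finset.inter_subset_left) a
    have b1 := near (by omega) hF (a1.trans Finset.inter_subset_left) a2 a3
    have b2 := near (by omega) hG (a1.trans Finset.inter_subset_right) a2 a3
    omega
  · intro j F
    unfold pos
    split_ifs
    · unfold w
      omega
    · omega
  · intro j hj F hF e
    rcases e with e | e <;>
    · obtain ⟨p, a⟩ := hP j hj F hF _ e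
      obtain ⟨X, a1, a2, a3, a4⟩ := pos_spec hF a
      have := P_win (by omega) p a1 a2 a3
      rw [a4]
      unfold w
      simp at this
      omega
  · intro j hj F hF e
    rcases e with e | e <;>
    · obtain ⟨p, a⟩ := hP j hj F hF _ e
      obtain ⟨X, a1, a2, a3, a4⟩ := pos_spec hF a
      have := P_win (by omega) p a1 a2 a3
      rw [a4]
      unfold w
      simp at this
      omega
  · intro j hj F hF a e
    obtain ⟨X, a1, a2, a3, a4⟩ := pos_spec hF a
    have f := ZMod.val_lt (∑ x ∈ X, x)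
    rw [a4]
    unfold w
    rcases e with e | e | e
    · have := O_win (by omega) ((hO j hj F hF 5).2 e) a1 a2 a3
      simp at this
      omega
    · have := O_win (by omega) ((hO j hj F hF 0).2 e) a1 a2 a3
      simp at this
      omega
    · have := O_win (by omega) ((hO j hj F hF 1).2 e) a1 a2 a3
      simp at this
      omega
  · intro j hj F hF a e
    obtain ⟨X, a1, a2, a3, a4⟩ := pos_spec hF a
    have f := ZMod.val_lt (∑ x ∈ X, x)
    rw [a4]
    unfold w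
    rcases e with e | e | e
    · have := O_win (by omega) ((hO j hj F hF 2).2 e) a1 a2 a3
      simp at this
      omega
    · have := O_win (by omega) ((hO j hj F hF 3).2 e) a1 a2 a3
      simp at this
      omega
    · have := O_win (by omega) ((hO j hj F hF 4).2 e) a1 a2 a3
      simp at this
      omega

end Pool.Agent.MP_6a6613_co

end

section

/-! Abstract ball lemmas: simplex, cone over a ball, attaching a cone along a boundary ball. -/

namespace Pool.Agent.MP_6a6613_co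

namespace BallQ

open Set

variable {V : Type} [Fintype V] [DecidableEq V]

theorem supp_update (p : V → ℝ) (v : V) (r : ℝ) :
    (supp (Function.update p v r)).erase v = (supp p).erase v := by
  ext w
  by_cases h : w = v <;> simp [h]

theorem supp_update0 (p : V → ℝ) (v : V) : supp (Function.update p v 0) = (supp p).erase v := by
  ext w
  by_cases h : w = v <;> simp [h]

omit [DecidableEq V] in
theorem zero_at {L : Set (Finset V)} {v : V} (hv : ∀ F ∈ L, v ∉ F) {p : V → ℝ} (hp : p ∈ Cn L) :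
    p v = 0 := by
  simpa using hv _ hp.2

theorem update_self0 {L : Set (Finset V)} {v : V} (hv : ∀ F ∈ L, v ∉ F) {p : V → ℝ}
    (hp : p ∈ Cn L) : Function.update p v 0 = p := by
  rw [← zero_at hv hp, Function.update_eq_self]

theorem update_mem {L : Set (Finset V)} {v : V} {p : V → ℝ} (hp : p ∈ Cn (cone v L)) :
    Function.update p v 0 ∈ Cn L := by
  refine ⟨fun w => ?_, by rw [supp_update0]; exact hp.2⟩
  by_cases h : w = v
  · simp [h]
  · simp [h, hp.1 w]

theorem update_mem_cone {L : Set (Finset V)} {v : V} (hv : ∀ F ∈ L, v ∉ F) {p : V → ℝ}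
    (hp : p ∈ Cn L) {r : ℝ} (hr : 0 ≤ r) : Function.update p v r ∈ Cn (cone v L) := by
  refine ⟨fun w => ?_, ?_⟩
  · by_cases h : w = v
    · simp [h, hr]
    · simp [h, hp.1 w]
  · change (supp (Function.update p v r)).erase v ∈ L
    rw [supp_update, Finset.erase_eq_of_notMem (hv _ hp.2)]
    exact hp.2

theorem smul_Ici : ∀ x ∈ Ici (0 : ℝ), ∀ t : ℝ, 0 ≤ t → t • x ∈ Ici (0 : ℝ) :=
  fun _ hx _ ht => mul_nonneg ht hx

theorem hh_cone {L : Set (Finset V)} (hL : Down L) {v : V} (hv : ∀ F ∈ L, v ∉ F) :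
    HH (fun p : V → ℝ => (Function.update p v 0, p v))
      (fun q : (V → ℝ) × ℝ => Function.update q.1 v q.2) (Cn (cone v L)) (Cn L ×ˢ Ici 0) where
  cf := by fun_prop
  cg := by fun_prop
  mf p hp := ⟨update_mem hp, hp.1 v⟩
  mg q hq := update_mem_cone hv hq.1 hq.2
  gf p _ := by simp
  fg q hq := by simp [update_self0 hv hq.1]
  sX := (hL.cone v).smul
  hf p _ t _ := by
    refine Prod.ext ?_ rfl
    funext w
    by_cases h : w = v <;> simp [h]

theorem ball_sub {D Γ : Set (Finset V)} (h : Ball D Γ) : Γ ⊆ D := by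
  obtain ⟨f, g, -, h2⟩ := h
  intro F hF
  simpa using (h2 _ (ind_mem hF)).1.2

theorem ball_simplex {S : Finset V} (hS : S.Nonempty) :
    Ball {F | F ⊆ S} {F | F ⊆ S ∧ F ≠ S} := by
  have hD : Down {F : Finset V | F ⊆ S} := fun F hF G hG => hG.trans hF
  have key : ∀ q ∈ Cn {F : Finset V | F ⊆ S ∧ F ≠ S}, mn S q = 0 := fun q hq =>
    mn_zero hq.1 fun h => hq.2.2 (Finset.Subset.antisymm hq.2.1 h)
  refine ⟨fun p => (p - mn S p • ind S, mn S p), fun q => q.1 + q.2 • ind S,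
    ⟨?_, ?_, fun p hp => ⟨⟨fun v => ?_, fun v hv => ?_, fun e => ?_⟩, mn_nonneg S hp.1⟩,
      fun q hq => ⟨fun v => ?_, fun v hv => ?_⟩, fun p _ => by simp, fun q hq => ?_, hD.smul,
      fun p _ t ht => ?_⟩, fun p hp => ⟨⟨hp.1, hp.2.1⟩, by simp [key p hp]⟩⟩
  · have := continuous_mn S
    fun_prop
  · fun_prop
  · by_cases h : v ∈ S
    · simpa [ind, h] using mn_le p h
    · simpa [ind, h] using hp.1 v
  · by_contra h
    have h1 : p v = 0 := by_contra fun a => h (hp.2 (mem_supp.2 a))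
    simp [ind, h, h1] at hv
  · obtain ⟨v, hv, e'⟩ := exists_mn hS p
    have h1 : v ∈ supp (p - mn S p • ind S) := by
      have e2 : supp (p - mn S p • ind S) = S := e
      rw [e2]; exact hv
    simp [ind, hv, e'] at h1
  · have h1 := hq.1.1 v
    have h2 : (0 : ℝ) ≤ q.2 := hq.2
    by_cases h : v ∈ S
    · simpa [ind, h] using add_nonneg h1 h2
    · simpa [ind, h] using h1
  · by_contra h
    have h1 : q.1 v = 0 := by_contra fun a => h (hq.1.2.1 (mem_supp.2 a))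
    simp [ind, h, h1] at hv
  · have e : mn S (q.1 + q.2 • ind S) = q.2 := by
      rw [mn_add (p := q.1) (c := q.2) hS fun v hv => by simp [ind, hv], key _ hq.1, zero_add]
    simp [e]
  · simp [mn_smul S p ht, smul_sub, mul_smul]

theorem hh_quad {E : Type} [TopologicalSpace E] [SMul ℝ E] {X : Set E}
    (hX : ∀ x ∈ X, ∀ t : ℝ, 0 ≤ t → t • x ∈ X) :
    HH (fun z : (E × ℝ) × ℝ => (((z.1.1, z.1.2 - min z.1.2 z.2), z.2 - min z.1.2 z.2),
        min z.1.2 z.2))
      (fun w : ((E × ℝ) × ℝ) × ℝ => ((w.1.1.1, w.1.1.2 + w.2), w.1.2 + w.2))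
      ((X ×ˢ Ici 0) ×ˢ Ici 0)
      ({z | z ∈ (X ×ˢ Ici 0) ×ˢ Ici 0 ∧ min z.1.2 z.2 = 0} ×ˢ Ici 0) where
  cf := by fun_prop
  cg := by fun_prop
  mf z hz := ⟨⟨⟨⟨hz.1.1, (sub_nonneg.2 (min_le_left _ _) : 0 ≤ z.1.2 - min z.1.2 z.2)⟩,
    (sub_nonneg.2 (min_le_right _ _) : 0 ≤ z.2 - min z.1.2 z.2)⟩, by
    simp only [min_sub_sub_right, sub_self]⟩, (le_min hz.1.2 hz.2 : 0 ≤ min z.1.2 z.2)⟩
  mg w hw := ⟨⟨hw.1.1.1.1, (add_nonneg hw.1.1.1.2 hw.2 : 0 ≤ w.1.1.2 + w.2)⟩,
    (add_nonneg hw.1.1.2 hw.2 : 0 ≤ w.1.2 + w.2)⟩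
  gf z _ := by simp
  fg w hw := by
    have h : min w.1.1.2 w.1.2 = 0 := hw.1.2
    simp [min_add_add_right, h]
  sX z hz t ht := ⟨⟨hX _ hz.1.1 t ht, mul_nonneg ht hz.1.2⟩, mul_nonneg ht hz.2⟩
  hf z _ t ht := by
    simp [mul_sub, mul_min_of_nonneg _ _ ht]

theorem ball_cone {L Λ : Set (Finset V)} (h : Ball L Λ) (hL : Down L) (hΛ : Down Λ) {v : V}
    (hv : ∀ F ∈ L, v ∉ F) : Ball (cone v L) (L ∪ cone v Λ) := by
  have hsub := ball_sub h
  have hv' : ∀ F ∈ Λ, v ∉ F := fun F hF => hv F (hsub hF)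
  obtain ⟨f, g, h1, h2⟩ := h
  have Φ := (hh_cone hL hv).trans (h1.prod (HH.refl smul_Ici))
  have hin : Cn (L ∪ cone v Λ) ⊆ Cn (cone v L) := Cn_mono fun F hF =>
    hF.elim (fun a => hL F a _ (Finset.erase_subset _ _)) fun a => hsub a
  have m1 : ∀ p ∈ Cn (L ∪ cone v Λ), min (f (Function.update p v 0)).2 (p v) = 0 := by
    intro p hp
    have a := (Φ.mf (hin hp)).1.2
    rw [Cn_union] at hp
    rcases hp with hp | hp
    · rw [zero_at hv hp]
      exact min_eq_right a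
    · rw [(h2 _ (update_mem hp)).2]
      exact min_eq_left (hp.1 v)
  have Φ0 := Φ.restrict (X' := Cn (L ∪ cone v Λ))
    (Y' := {z | z ∈ (Cn Λ ×ˢ Ici 0) ×ˢ Ici 0 ∧ min z.1.2 z.2 = 0}) hin (fun z hz => hz.1)
    (fun p hp => ⟨Φ.mf (hin hp), m1 p hp⟩)
    (fun z hz => by
      rw [Cn_union]
      have a := h1.mg hz.1.1
      rcases min_eq_iff.1 hz.2 with b | b
      · right
        have c := h1.gf _ (h2 _ hz.1.1.1).1
        rw [(h2 _ hz.1.1.1).2, ← b.1] at c
        change Function.update (g z.1) v z.2 ∈ _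
        rw [show g z.1 = z.1.1 from c]
        exact update_mem_cone hv' hz.1.1.1 hz.1.2
      · left
        change Function.update (g z.1) v z.2 ∈ _
        rw [b.1, update_self0 hv a]
        exact a)
    (hL.union (hΛ.cone v)).smul
  refine ⟨_, _, (Φ.trans (hh_quad hΛ.smul)).trans (Φ0.symm.prod (HH.refl smul_Ici)),
    fun p hp => ⟨hin hp, ?_⟩⟩
  have e := Φ0.gf p hp
  simp only [m1 p hp, sub_zero] at e ⊢
  rw [e]

theorem hh_neg {E : Type} [TopologicalSpace E] [SMul ℝ E] {X : Set E}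
    (hX : ∀ x ∈ X, ∀ t : ℝ, 0 ≤ t → t • x ∈ X) :
    HH (fun z : E × ℝ => (z.1, -z.2)) (fun z : E × ℝ => (z.1, -z.2)) (X ×ˢ Ici 0)
      (X ×ˢ Iic 0) where
  cf := by fun_prop
  cg := by fun_prop
  mf z hz := ⟨hz.1, (neg_nonpos.2 hz.2 : -z.2 ≤ 0)⟩
  mg z hz := ⟨hz.1, (neg_nonneg.2 hz.2 : 0 ≤ -z.2)⟩
  gf z _ := by simp
  fg z _ := by simp
  sX z hz t ht := ⟨hX _ hz.1 t ht, mul_nonneg ht hz.2⟩
  hf z _ t _ := by simp

theorem hh_half {E : Type} [TopologicalSpace E] [SMul ℝ E] {X : Set E}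
    (hX : ∀ x ∈ X, ∀ t : ℝ, 0 ≤ t → t • x ∈ X) :
    HH (fun z : (E × ℝ) × ℝ => ((z.1.1, z.1.2 - min z.2 0), z.1.2 + max z.2 0))
      (fun w : (E × ℝ) × ℝ => ((w.1.1, min w.1.2 w.2), w.2 - w.1.2))
      ((X ×ˢ Ici 0) ×ˢ univ) ((X ×ˢ Ici 0) ×ˢ Ici 0) where
  cf := by fun_prop
  cg := by fun_prop
  mf z hz := ⟨⟨hz.1.1, (sub_nonneg.2 ((min_le_right _ _).trans hz.1.2) : 0 ≤ z.1.2 - min z.2 0)⟩,
    (add_nonneg hz.1.2 (le_max_right _ _) : 0 ≤ z.1.2 + max z.2 0)⟩
  mg w hw := ⟨⟨hw.1.1, (le_min hw.1.2 hw.2 : 0 ≤ min w.1.2 w.2)⟩, mem_univ _⟩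
  gf z _ := by
    rcases le_total z.2 0 with h | h <;> simp [h]
  fg w _ := by
    rcases le_total w.1.2 w.2 with h | h <;> simp [h]
  sX z hz t ht := ⟨⟨hX _ hz.1.1 t ht, mul_nonneg ht hz.1.2⟩, mem_univ _⟩
  hf z _ t ht := by
    simp [mul_sub, mul_add, mul_min_of_nonneg _ _ ht, mul_max_of_nonneg _ _ ht]

theorem ball_attach {D T T' Λ : Set (Finset V)} (h : Ball D (T ∪ T')) (hT : Ball T Λ)
    (hi : T ∩ T' = Λ) (dD : Down D) (dT : Down T) (dT' : Down T') (dΛ : Down Λ) {n : V}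
    (hn : ∀ F ∈ D, n ∉ F) : Ball (D ∪ cone n T) (T' ∪ cone n Λ) := by
  have hsub := ball_sub h
  have nT : ∀ F ∈ T, n ∉ F := fun F hF => hn F (hsub (Or.inl hF))
  have nT' : ∀ F ∈ T', n ∉ F := fun F hF => hn F (hsub (Or.inr hF))
  have sΛ : Λ ⊆ T := ball_sub hT
  have nΛ : ∀ F ∈ Λ, n ∉ F := fun F hF => nT F (sΛ hF)
  obtain ⟨f, g, h1, h2⟩ := h
  obtain ⟨f', g', k1, k2⟩ := hT
  have inT : Cn T ⊆ Cn (T ∪ T') := Cn_mono subset_union_left
  have inT' : Cn T' ⊆ Cn (T ∪ T') := Cn_mono subset_union_right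
  obtain ⟨F, G, a, a1, a2, -, -⟩ := HH.glue2 h1 ((hh_cone dT nT).trans (hh_neg dT.smul))
    dD.isClosed (dT.cone n).isClosed ((dT.union dT').isClosed.prod isClosed_Ici)
    (dT.isClosed.prod isClosed_Iic)
    (fun p hp hp' => by
      have b := update_mem hp'
      rw [update_self0 hn hp] at b
      simp only [(h2 p (inT b)).2, update_self0 hn hp, zero_at hn hp, neg_zero])
    (fun q hq hq' => by
      have b : q.2 = 0 := le_antisymm hq'.2 hq.2
      have c := h1.gf _ (h2 _ hq.1).1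
      rw [(h2 _ hq.1).2, ← b] at c
      simp only [b, neg_zero, update_self0 nT hq'.1]
      exact c)
  have e1 : Cn (T ∪ T') ×ˢ Ici (0 : ℝ) ∪ Cn T ×ˢ Iic 0 = Cn T' ×ˢ Ici 0 ∪ Cn T ×ˢ univ := by
    ext q
    simp only [Cn_union, mem_union, mem_prod, mem_Ici, mem_Iic, mem_univ, and_true]
    have := le_total q.2 0
    tauto
  rw [← Cn_union, e1] at a
  have su : ∀ x ∈ (univ : Set ℝ), ∀ t : ℝ, 0 ≤ t → t • x ∈ (univ : Set ℝ) :=
    fun _ _ _ _ => mem_univ _
  obtain ⟨F', G', b, b1, b2, -, -⟩ := HH.glue2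
    (HH.refl (X := Cn T' ×ˢ Ici (0 : ℝ)) fun q hq t ht => ⟨dT'.smul _ hq.1 t ht,
      mul_nonneg ht hq.2⟩)
    (((k1.prod (HH.refl su)).trans (hh_half dΛ.smul)).trans
      ((hh_cone dΛ nΛ).symm.prod (HH.refl smul_Ici)))
    (dT'.isClosed.prod isClosed_Ici) (dT.isClosed.prod isClosed_univ)
    (dT'.isClosed.prod isClosed_Ici) ((dΛ.cone n).isClosed.prod isClosed_Ici)
    (fun q hq hq' => by
      have c : q.1 ∈ Cn Λ := ⟨hq.1.1, hi ▸ ⟨hq'.1.2, hq.1.2⟩⟩
      have d : (0 : ℝ) ≤ q.2 := hq.2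
      simp [(k2 _ c).2, d, update_self0 nΛ c])
    (fun q hq hq' => by
      have c := update_mem hq'.1
      rw [update_self0 nT' hq.1] at c
      have d : (0 : ℝ) ≤ q.2 := hq.2
      have e := k1.gf _ (k2 _ c).1
      rw [(k2 _ c).2] at e
      simp [update_self0 nT' hq.1, zero_at nT' hq.1, d, e])
  rw [← union_prod, ← Cn_union] at b
  refine ⟨_, _, a.trans b, fun p hp => ?_⟩
  rw [Cn_union] at hp
  rcases hp with hp | hp
  · have c := h2 p (inT' hp)
    refine ⟨Cn_mono subset_union_left c.1, ?_⟩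
    rw [a1 p c.1, c.2, b1 (p, 0) ⟨hp, le_refl (0 : ℝ)⟩]
  · have c : p ∈ Cn (cone n T) := ⟨hp.1, sΛ hp.2⟩
    refine ⟨Cn_mono subset_union_right c, ?_⟩
    have d := update_mem hp
    rw [a2 p c, b2 (Function.update p n 0, -p n) ⟨update_mem c, mem_univ _⟩]
    simp [(k2 _ d).2, hp.1 n]

end BallQ

end Pool.Agent.MP_6a6613_co

end

section

/-! The largest separated subset of an interval. -/

namespace Pool.Agent.MP_6a6613_co

namespace BallQ

open Set

variable {m : ℕ}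

/-- No two consecutive values. -/
def SepN (I : Finset (ZMod m)) : Prop := ∀ x ∈ I, ∀ y ∈ I, y.val ≠ x.val + 1

/-- All values lie in the interval. -/
def In (a b : ℕ) (F : Finset (ZMod m)) : Prop := ∀ x ∈ F, a ≤ x.val ∧ x.val ≤ b

open Classical in
/-- The size of the largest separated subset of `F` inside the interval. -/
noncomputable def al (a b : ℕ) (F : Finset (ZMod m)) : ℕ :=
  (F.powerset.filter fun I => In a b I ∧ SepN I).sup Finset.card

theorem le_al {a b : ℕ} {F I : Finset (ZMod m)} (h1 : I ⊆ F) (h2 : In a b I) (h3 : SepN I) :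
    I.card ≤ al a b F := by
  classical
  unfold al
  exact Finset.le_sup (f := Finset.card)
    (Finset.mem_filter.2 ⟨Finset.mem_powerset.2 h1, h2, h3⟩)

theorem exists_al (a b : ℕ) (F : Finset (ZMod m)) :
    ∃ I ⊆ F, In a b I ∧ SepN I ∧ I.card = al a b F := by
  classical
  obtain ⟨I, hI, e⟩ := Finset.exists_mem_eq_sup (F.powerset.filter fun I => In a b I ∧ SepN I)
    ⟨∅, by simp [In, SepN]⟩ Finset.card
  rw [Finset.mem_filter, Finset.mem_powerset] at hI
  exact ⟨I, hI.1, hI.2.1, hI.2.2, by unfold al; convert e.symm⟩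

theorem al_mono {a b a' b' : ℕ} {F F' : Finset (ZMod m)}
    (h : ∀ x ∈ F, a ≤ x.val → x.val ≤ b → x ∈ F' ∧ a' ≤ x.val ∧ x.val ≤ b') :
    al a b F ≤ al a' b' F' := by
  obtain ⟨I, h1, h2, h3, e⟩ := exists_al a b F
  rw [← e]
  exact le_al (fun x hx => (h x (h1 hx) (h2 x hx).1 (h2 x hx).2).1)
    (fun x hx => (h x (h1 hx) (h2 x hx).1 (h2 x hx).2).2) h3

theorem al_le {a b a' b' : ℕ} (F : Finset (ZMod m)) (h1 : a' ≤ a) (h2 : b ≤ b') :
    al a b F ≤ al a' b' F := al_mono fun _ hx p q => ⟨hx, h1.trans p, q.trans h2⟩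

theorem al_sub (a b : ℕ) {F G : Finset (ZMod m)} (h : G ⊆ F) : al a b G ≤ al a b F :=
  al_mono fun _ hx p q => ⟨h hx, p, q⟩

theorem al_erase {a b : ℕ} (F : Finset (ZMod m)) {u : ZMod m} (h : u.val < a ∨ b < u.val) :
    al a b (F.erase u) = al a b F :=
  le_antisymm (al_sub a b (Finset.erase_subset _ _)) (al_mono fun x hx p q =>
    ⟨Finset.mem_erase.2 ⟨fun e => by rw [e] at p q; omega, hx⟩, p, q⟩)

variable [NeZero m]

theorem al_succ {a b a' b' : ℕ} (F : Finset (ZMod m))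
    (h : ∀ x y : ℕ, a ≤ x → x ≤ b → a ≤ y → y ≤ b → ¬ (a' ≤ x ∧ x ≤ b') → ¬ (a' ≤ y ∧ y ≤ b') →
      x ≤ y + 1) : al a b F ≤ al a' b' F + 1 := by
  obtain ⟨I, h1, h2, h3, e⟩ := exists_al a b F
  rw [← e, ← Finset.card_filter_add_card_filter_not (s := I) fun x => a' ≤ x.val ∧ x.val ≤ b']
  refine add_le_add (le_al ((Finset.filter_subset _ _).trans h1)
    (fun x hx => (Finset.mem_filter.1 hx).2)
    fun x hx y hy => h3 x (Finset.mem_filter.1 hx).1 y (Finset.mem_filter.1 hy).1) ?_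
  refine Finset.card_le_one.2 fun x hx y hy => ZMod.val_injective m ?_
  rw [Finset.mem_filter] at hx hy
  have a1 := h2 x hx.1
  have a2 := h2 y hy.1
  have a3 := h _ _ a1.1 a1.2 a2.1 a2.2 hx.2 hy.2
  have a4 := h _ _ a2.1 a2.2 a1.1 a1.2 hy.2 hx.2
  have a5 := h3 x hx.1 y hy.1
  have a6 := h3 y hy.1 x hx.1
  omega

omit [NeZero m] in
theorem al_top {a b b' : ℕ} {F : Finset (ZMod m)} {v : ZMod m} (hv : v ∈ F) (h1 : a ≤ v.val)
    (h2 : v.val ≤ b') (h3 : b + 2 ≤ v.val) : al a b F + 1 ≤ al a b' F := by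
  obtain ⟨I, k1, k2, k3, e⟩ := exists_al a b F
  have hn : v ∉ I := fun h => by have := k2 v h; omega
  rw [← e, ← Finset.card_insert_of_notMem hn]
  refine le_al (Finset.insert_subset hv k1) (fun x hx => ?_) fun x hx y hy => ?_
  · rcases Finset.mem_insert.1 hx with rfl | hx
    · exact ⟨h1, h2⟩
    · have := k2 x hx
      omega
  · rcases Finset.mem_insert.1 hx with ex | hx' <;> rcases Finset.mem_insert.1 hy with ey | hy'
    · rw [ex, ey]
      omega
    · have := k2 y hy'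
      rw [ex]
      omega
    · have := k2 x hx'
      rw [ey]
      omega
    · exact k3 x hx' y hy'

omit [NeZero m] in
theorem al_gap {N c : ℕ} {F : Finset (ZMod m)} (hc : ∀ x ∈ F, x.val ≠ c) (h1 : 1 ≤ c)
    (h2 : c ≤ N + 1) : al 1 N F + al 2 (N + 1) F ≤ al 1 (N + 1) F + al 2 N F := by
  obtain ⟨I, i1, i2, i3, e⟩ := exists_al 1 N F
  obtain ⟨J, j1, j2, j3, e'⟩ := exists_al 2 (N + 1) F
  have key : ∀ (A B : Finset (ZMod m)) (a b : ℕ), A ⊆ F → B ⊆ F → SepN A → SepN B →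
      (∀ x ∈ A, x.val < c → a ≤ x.val ∧ x.val ≤ b) →
      (∀ x ∈ B, c < x.val → a ≤ x.val ∧ x.val ≤ b) →
      (A.filter fun x => x.val < c).card + (B.filter fun x => ¬ x.val < c).card ≤ al a b F := by
    intro A B a b hA hB sA sB iA iB
    have hd : Disjoint (A.filter fun x => x.val < c) (B.filter fun x => ¬ x.val < c) :=
      Finset.disjoint_left.2 fun x hx hx' =>
        (Finset.mem_filter.1 hx').2 (Finset.mem_filter.1 hx).2
    rw [← Finset.card_union_of_disjoint hd]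
    refine le_al (Finset.union_subset ((Finset.filter_subset _ _).trans hA)
      ((Finset.filter_subset _ _).trans hB)) (fun x hx => ?_) fun x hx y hy => ?_
    · rcases Finset.mem_union.1 hx with hx | hx <;> rw [Finset.mem_filter] at hx
      · exact iA x hx.1 hx.2
      · have := hc x (hB hx.1)
        exact iB x hx.1 (by omega)
    · rcases Finset.mem_union.1 hx with hx | hx <;> rcases Finset.mem_union.1 hy with hy | hy <;>
        rw [Finset.mem_filter] at hx hy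
      · exact sA x hx.1 y hy.1
      · have := hc y (hB hy.1)
        omega
      · omega
      · exact sB x hx.1 y hy.1
  have k1 := key I J 1 (N + 1) i1 j1 i3 j3 (fun x hx _ => by have := i2 x hx; omega)
    (fun x hx _ => by have := j2 x hx; omega)
  have k2 := key J I 2 N j1 i1 j3 i3 (fun x hx _ => by have := j2 x hx; omega)
    (fun x hx _ => by have := i2 x hx; omega)
  have k3 := Finset.card_filter_add_card_filter_not (s := I) fun x => x.val < c
  have k4 := Finset.card_filter_add_card_filter_not (s := J) fun x => x.val < c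
  omega

theorem al_ub {a : ℕ} (ha : 1 ≤ a) (F : Finset (ZMod m)) (k : ℕ) :
    ∀ b, b + 1 ≤ a + 2 * k → al a b F ≤ k := by
  induction k with
  | zero =>
    intro b hb
    obtain ⟨I, -, i2, -, e⟩ := exists_al a b F
    rw [← e, Nat.le_zero, Finset.card_eq_zero, Finset.eq_empty_iff_forall_notMem]
    intro x hx
    have := i2 x hx
    omega
  | succ k ih =>
    intro b hb
    have h1 := ih (b - 2) (by omega)
    have h2 : al a b F ≤ al a (b - 2) F + 1 := al_succ F (by omega)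
    omega

omit [NeZero m] in
theorem al_one {a b : ℕ} {F : Finset (ZMod m)} {v : ZMod m} (hv : v ∈ F) (h1 : a ≤ v.val)
    (h2 : v.val ≤ b) : 1 ≤ al a b F := by
  rw [← Finset.card_singleton v]
  refine le_al (Finset.singleton_subset_iff.2 hv) (fun x hx => ?_) fun x hx y hy => ?_
  · rw [Finset.mem_singleton.1 hx]
    exact ⟨h1, h2⟩
  · rw [Finset.mem_singleton.1 hx, Finset.mem_singleton.1 hy]
    omega

omit [NeZero m] in
theorem al_lb {a : ℕ} (F : Finset (ZMod m)) (k : ℕ) :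
    ∀ b, (∀ n, a ≤ n → n ≤ b → ∃ x ∈ F, x.val = n) → a + 2 * k ≤ b → k + 1 ≤ al a b F := by
  induction k with
  | zero =>
    intro b h hb
    obtain ⟨x, hx, e⟩ := h a le_rfl (by omega)
    exact al_one hx (by omega) (by omega)
  | succ k ih =>
    intro b h hb
    obtain ⟨x, hx, e⟩ := h b (by omega) le_rfl
    have h1 := ih (b - 2) (fun n p q => h n p (by omega)) (by omega)
    have h2 : al a (b - 2) F + 1 ≤ al a b F := al_top hx (by omega) (by omega) (by omega)
    omega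

theorem In_erase {c : ℕ} (F : Finset (ZMod m)) {u : ZMod m} (hu : u.val = c + 1) :
    In 1 c (F.erase u) ↔ In 1 (c + 1) F := by
  constructor
  · intro h x hx
    by_cases e : x = u
    · rw [e]; omega
    · have := h x (Finset.mem_erase.2 ⟨e, hx⟩)
      omega
  · intro h x hx
    rw [Finset.mem_erase] at hx
    have h1 := h x hx.2
    have h2 : x.val ≠ u.val := fun e => hx.1 (ZMod.val_injective m e)
    omega

theorem In_iff {c : ℕ} (F : Finset (ZMod m)) {u : ZMod m} (hu : u.val = c + 1) :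
    In 1 c F ↔ In 1 (c + 1) F ∧ u ∉ F := by
  constructor
  · intro h
    exact ⟨fun x hx => by have := h x hx; omega, fun hx => by have := h u hx; omega⟩
  · intro h
    rw [← Finset.erase_eq_of_notMem h.2, In_erase F hu]
    exact h.1

theorem al_not {a c : ℕ} {F : Finset (ZMod m)} {u : ZMod m} (hu : u.val = c + 1) (h : u ∉ F) :
    al a (c + 1) F = al a c F :=
  le_antisymm (al_mono fun x hx p q => ⟨hx, p, by
    have h2 : x.val ≠ u.val := fun e => h (ZMod.val_injective m e ▸ hx)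
    omega⟩) (al_le F le_rfl (Nat.le_succ c))

theorem al_mem {a c : ℕ} {F : Finset (ZMod m)} {u : ZMod m} (hu : u.val = c + 2) (h : u ∈ F)
    (ha : a ≤ c + 2) : al a (c + 2) F = al a c F + 1 :=
  le_antisymm (al_succ F (by omega)) (al_top h (by omega) (by omega) (by omega))

end BallQ

end Pool.Agent.MP_6a6613_co

end

section

/-! The cone page of the cyclic polytope is a ball. -/

namespace Pool.Agent.MP_6a6613_co

namespace BallQ

open Set

variable {m : ℕ}

/-- The ball spanned by `j` pairs on the path. -/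
def LL (m j b : ℕ) : Set (Finset (ZMod m)) := {F | In 1 b F ∧ al 1 b F ≤ j}

/-- Its boundary. -/
def Lam (m j b : ℕ) : Set (Finset (ZMod m)) :=
  {F | In 1 b F ∧ al 1 b F ≤ j ∧ al 2 (b - 1) F < j}

/-- The left part of the boundary. -/
def TL (m j c : ℕ) : Set (Finset (ZMod m)) := {F | In 1 (c + 1) F ∧ al 1 c F ≤ j}

/-- The right part of the boundary. -/
def TR (m j c : ℕ) : Set (Finset (ZMod m)) := {F | In 1 (c + 1) F ∧ al 2 (c + 1) F ≤ j}

theorem down_LL (j b : ℕ) : Down (LL m j b) := fun _ hF _ hG =>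
  ⟨fun x hx => hF.1 x (hG hx), (al_sub _ _ hG).trans hF.2⟩

theorem down_Lam (j b : ℕ) : Down (Lam m j b) := fun _ hF _ hG =>
  ⟨fun x hx => hF.1 x (hG hx), (al_sub _ _ hG).trans hF.2.1, (al_sub _ _ hG).trans_lt hF.2.2⟩

theorem down_TL (j b : ℕ) : Down (TL m j b) := fun _ hF _ hG =>
  ⟨fun x hx => hF.1 x (hG hx), (al_sub _ _ hG).trans hF.2⟩

theorem down_TR (j b : ℕ) : Down (TR m j b) := fun _ hF _ hG =>
  ⟨fun x hx => hF.1 x (hG hx), (al_sub _ _ hG).trans hF.2⟩

variable [NeZero m]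

theorem cone_LL {j c : ℕ} {u : ZMod m} (hu : u.val = c + 1) : cone u (LL m j c) = TL m j c := by
  ext F
  simp only [cone, LL, TL, mem_ofPred_eq, In_erase F hu, al_erase F (Or.inr (by omega) :
    u.val < 1 ∨ c < u.val)]

theorem id1 {j c : ℕ} {u : ZMod m} (hu : u.val = c + 2) :
    LL m j (c + 1) ∪ cone u (Lam m j (c + 1)) = TL m j (c + 1) ∩ TR m j (c + 1) := by
  ext F
  simp only [cone, LL, TL, TR, Lam, mem_ofPred_eq, mem_union, mem_inter_iff, In_erase F hu,
    Nat.add_sub_cancel, al_erase F (Or.inr (by omega) : u.val < 1 ∨ c + 1 < u.val),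
    al_erase F (Or.inr (by omega) : u.val < 2 ∨ c < u.val), In_iff F hu]
  by_cases h : u ∈ F
  · have := al_mem (a := 2) hu h (by omega)
    simp only [h, this]
    constructor
    · rintro (a | a)
      · exact absurd a.1.2 (by simp)
      · exact ⟨⟨a.1, a.2.1⟩, a.1, a.2.2⟩
    · exact fun a => Or.inr ⟨a.1.1, a.1.2, a.2.2⟩
  · have h1 := al_not (a := 2) hu h
    have h2 : al 2 (c + 1) F ≤ al 1 (c + 1) F := al_le F (by omega) le_rfl
    simp only [h, h1]
    constructor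
    · rintro (a | a)
      · exact ⟨⟨a.1.1, a.2⟩, a.1.1, h2.trans a.2⟩
      · exact ⟨⟨a.1, a.2.1⟩, a.1, h2.trans a.2.1⟩
    · exact fun a => Or.inl ⟨⟨a.1.1, by simp⟩, a.1.2⟩

theorem id2 {j c : ℕ} {n : ZMod m} (hn : n.val = c + 2) :
    LL m (j + 1) (c + 1) ∪ cone n (TL m j c) = LL m (j + 1) (c + 2) := by
  ext F
  simp only [cone, LL, TL, mem_ofPred_eq, mem_union, In_erase F hn,
    al_erase F (Or.inr (by omega) : n.val < 1 ∨ c < n.val), In_iff F hn]
  by_cases h : n ∈ F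
  · have := al_mem (a := 1) hn h (by omega)
    simp only [h, this]
    constructor
    · rintro (a | a)
      · exact absurd a.1.2 (by simp)
      · exact ⟨a.1, by omega⟩
    · exact fun a => Or.inr ⟨a.1, by omega⟩
  · have h1 := al_not (a := 1) hn h
    have h2 : al 1 (c + 1) F ≤ al 1 c F + 1 := al_succ F (by omega)
    simp only [h, h1]
    constructor
    · rintro (a | a)
      · exact ⟨a.1.1, a.2⟩
      · exact ⟨a.1, by omega⟩
    · exact fun a => Or.inl ⟨⟨a.1, by simp⟩, a.2⟩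

theorem id3 {j c : ℕ} {n : ZMod m} (hn : n.val = c + 2) :
    TR m j c ∪ cone n (TL m j c ∩ TR m j c) = Lam m (j + 1) (c + 2) := by
  ext F
  simp only [cone, Lam, TL, TR, mem_ofPred_eq, mem_union, mem_inter_iff, In_erase F hn,
    al_erase F (Or.inr (by omega) : n.val < 1 ∨ c < n.val),
    al_erase F (Or.inr (by omega) : n.val < 2 ∨ c + 1 < n.val), In_iff F hn,
    show c + 2 - 1 = c + 1 from rfl]
  by_cases h : n ∈ F
  · have := al_mem (a := 1) hn h (by omega)
    simp only [h, this]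
    constructor
    · rintro (a | a)
      · exact absurd a.1.2 (by simp)
      · exact ⟨a.1.1, by omega, by omega⟩
    · exact fun a => Or.inr ⟨⟨a.1, by omega⟩, a.1, by omega⟩
  · have h1 := al_not (a := 1) hn h
    have h2 : al 1 (c + 1) F ≤ al 2 (c + 1) F + 1 := al_succ F (by omega)
    simp only [h, h1]
    constructor
    · rintro (a | a)
      · exact ⟨a.1.1, by omega, by omega⟩
      · exact ⟨a.1.1, by omega, by omega⟩
    · exact fun a => Or.inl ⟨⟨a.1, by simp⟩, by omega⟩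

theorem step {j c : ℕ} (hc : c + 3 < m)
    (h1 : Ball (LL m (j + 1) (c + 2)) (TL m j (c + 1) ∪ TR m j (c + 1)))
    (h2 : ∀ u : ZMod m, c + 1 < u.val →
      Ball (cone u (LL m j (c + 1))) (LL m j (c + 1) ∪ cone u (Lam m j (c + 1)))) :
    Ball (LL m (j + 1) (c + 3)) (Lam m (j + 1) (c + 3)) := by
  have hu : ((c + 2 : ℕ) : ZMod m).val = c + 2 := ZMod.val_cast_of_lt (by omega)
  have hn : ((c + 3 : ℕ) : ZMod m).val = c + 1 + 2 := ZMod.val_cast_of_lt (by omega)
  have h3 := h2 _ (by rw [hu]; omega)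
  rw [cone_LL hu, id1 hu] at h3
  have h4 := ball_attach h1 h3 rfl (down_LL _ _) (down_TL _ _) (down_TR _ _)
    (fun F hF G hG => ⟨down_TL _ _ F hF.1 G hG, down_TR _ _ F hF.2 G hG⟩)
    (n := ((c + 3 : ℕ) : ZMod m)) fun F hF h => by
      have := hF.1 _ h
      omega
  rwa [id2 hn, id3 hn] at h4

theorem id4 {j c : ℕ} (hc : 2 * j + 2 ≤ c) : Lam m (j + 1) (c + 1) = TL m j c ∪ TR m j c := by
  obtain ⟨c, rfl⟩ : ∃ d, c = d + 1 := ⟨c - 1, by omega⟩
  ext F
  simp only [Lam, TL, TR, mem_ofPred_eq, mem_union, Nat.add_sub_cancel]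
  constructor
  · rintro ⟨a1, a2, a3⟩
    by_cases h : ∀ n, 1 ≤ n → n ≤ c + 1 + 1 → ∃ x ∈ F, x.val = n
    · have := al_lb F (j + 1) _ h (by omega)
      omega
    · push Not at h
      obtain ⟨n, n1, n2, n3⟩ := h
      have := al_gap n3 n1 n2
      by_cases b : al 1 (c + 1) F ≤ j
      · exact Or.inl ⟨a1, b⟩
      · exact Or.inr ⟨a1, by omega⟩
  · rintro (⟨a1, a2⟩ | ⟨a1, a2⟩)
    · have b1 : al 1 (c + 1 + 1) F ≤ al 1 (c + 1) F + 1 := al_succ F (by omega)
      have b2 : al 2 (c + 1) F ≤ al 1 (c + 1) F := al_le F (by omega) le_rfl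
      exact ⟨a1, by omega, by omega⟩
    · have b1 : al 1 (c + 1 + 1) F ≤ al 2 (c + 1 + 1) F + 1 := al_succ F (by omega)
      have b2 : al 2 (c + 1) F ≤ al 2 (c + 1 + 1) F := al_le F le_rfl (by omega)
      exact ⟨a1, by omega, by omega⟩

theorem base {j : ℕ} (hj : 2 * j + 2 < m) :
    Ball (LL m (j + 1) (2 * j + 2)) (TL m j (2 * j + 1) ∪ TR m j (2 * j + 1)) := by
  set S : Finset (ZMod m) := Finset.univ.filter fun x => 1 ≤ x.val ∧ x.val ≤ 2 * j + 2 with hS
  have mS : ∀ x, x ∈ S ↔ 1 ≤ x.val ∧ x.val ≤ 2 * j + 2 := fun x => by simp [hS]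
  have full : ∀ n, 1 ≤ n → n ≤ 2 * j + 2 → ∃ x ∈ S, x.val = n := fun n p q => by
    have e : (n : ZMod m).val = n := ZMod.val_cast_of_lt (by omega)
    exact ⟨n, (mS _).2 (by omega), e⟩
  have iS : ∀ F : Finset (ZMod m), F ⊆ S ↔ In 1 (2 * j + 2) F := fun F =>
    ⟨fun h x hx => (mS x).1 (h hx), fun h x hx => (mS x).2 (h x hx)⟩
  have hne : S.Nonempty := by
    obtain ⟨x, hx, -⟩ := full 1 le_rfl (by omega)
    exact ⟨x, hx⟩
  have h := ball_simplex hne
  have e1 : {F | F ⊆ S} = LL m (j + 1) (2 * j + 2) := by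
    ext F
    simp only [LL, mem_ofPred_eq, iS]
    exact ⟨fun a => ⟨a, al_ub le_rfl F _ _ (by omega)⟩, fun a => a.1⟩
  have e2 : {F | F ⊆ S ∧ F ≠ S} = TL m j (2 * j + 1) ∪ TR m j (2 * j + 1) := by
    ext F
    simp only [TL, TR, mem_ofPred_eq, mem_union]
    constructor
    · rintro ⟨a1, a2⟩
      obtain ⟨x, x1, x2⟩ : ∃ x ∈ S, x ∉ F := by
        by_contra b
        push Not at b
        exact a2 (Finset.Subset.antisymm a1 b)
      have x3 := (mS x).1 x1
      have g := al_gap (N := 2 * j + 1) (F := F) (c := x.val)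
        (fun y hy e => x2 (ZMod.val_injective m e ▸ hy)) x3.1 x3.2
      have u1 := al_ub (a := 1) le_rfl F (j + 1) (2 * j + 1 + 1) (by omega)
      have u2 := al_ub (a := 2) (by omega) F j (2 * j + 1) (by omega)
      by_cases b : al 1 (2 * j + 1) F ≤ j
      · exact Or.inl ⟨(iS F).1 a1, b⟩
      · exact Or.inr ⟨(iS F).1 a1, by omega⟩
    · rintro (⟨a1, a2⟩ | ⟨a1, a2⟩)
      · refine ⟨(iS F).2 a1, fun e => ?_⟩
        have := al_lb (a := 1) S j (2 * j + 1) (fun n p q => full n p (by omega)) (by omega)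
        rw [e] at a2
        omega
      · refine ⟨(iS F).2 a1, fun e => ?_⟩
        have := al_lb (a := 2) S j (2 * j + 1 + 1) (fun n p q => full n (by omega) q) (by omega)
        rw [e] at a2
        omega
  rwa [e1, e2] at h

theorem main (j : ℕ) : ∀ b, 2 * j + 1 ≤ b → b < m → ∀ u : ZMod m, u.val < 1 ∨ b < u.val →
    Ball (cone u (LL m j b)) (LL m j b ∪ cone u (Lam m j b)) := by
  induction j with
  | zero =>
    intro b _ _ u _
    have e0 : LL m 0 b = {∅} := by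
      ext F
      simp only [LL, mem_ofPred_eq, mem_singleton_iff]
      constructor
      · rintro ⟨a1, a2⟩
        refine Finset.eq_empty_iff_forall_notMem.2 fun x hx => ?_
        have := al_one hx (a1 x hx).1 (a1 x hx).2
        omega
      · rintro rfl
        obtain ⟨I, i1, -, -, e⟩ := exists_al 1 b (∅ : Finset (ZMod m))
        refine ⟨fun x hx => absurd hx (by simp), ?_⟩
        rw [← e, Finset.subset_empty.1 i1]
        simp
    have h := ball_simplex (Finset.singleton_nonempty u)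
    have e1 : {F | F ⊆ {u}} = cone u (LL m 0 b) := by
      ext F
      simp only [e0, cone, mem_ofPred_eq, mem_singleton_iff, Finset.subset_singleton_iff,
        Finset.erase_eq_empty_iff]
    have e2 : {F | F ⊆ {u} ∧ F ≠ {u}} = LL m 0 b ∪ cone u (Lam m 0 b) := by
      ext F
      simp only [e0, cone, Lam, mem_ofPred_eq, mem_singleton_iff, Finset.subset_singleton_iff,
        mem_union, Nat.not_lt_zero, and_false, or_false]
      constructor
      · rintro ⟨a | a, b⟩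
        · exact a
        · exact absurd a b
      · rintro rfl
        exact ⟨Or.inl rfl, (Finset.singleton_ne_empty u).symm⟩
    rwa [e1, e2] at h
  | succ j ih =>
    have key : ∀ d, 2 * j + 3 + d < m →
        Ball (LL m (j + 1) (2 * j + d + 3)) (Lam m (j + 1) (2 * j + d + 3)) := by
      intro d
      induction d with
      | zero =>
        intro hd
        exact step (by omega) (base (by omega))
          fun u hu => ih _ (by omega) (by omega) u (Or.inr hu)
      | succ d ihd =>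
        intro hd
        have h := ihd (by omega)
        rw [id4 (c := 2 * j + d + 2) (by omega)] at h
        exact step (c := 2 * j + d + 1) (by omega) h
          fun u hu => ih _ (by omega) (by omega) u (Or.inr hu)
    intro b h1 h2 u hu
    obtain ⟨d, rfl⟩ : ∃ d, b = 2 * j + d + 3 := ⟨b - (2 * j + 3), by omega⟩
    refine ball_cone (key d (by omega)) (down_LL _ _) (down_Lam _ _) fun F hF h => ?_
    have := hF.1 _ h
    omega

theorem val_succ (hm : 1 < m) (x : ZMod m) :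
    (x + 1).val = if x.val + 1 < m then x.val + 1 else 0 := by
  have : Fact (1 < m) := ⟨hm⟩
  rw [ZMod.val_add, ZMod.val_one]
  split_ifs with h
  · exact Nat.mod_eq_of_lt h
  · have := ZMod.val_lt x
    rw [show x.val + 1 = m by omega, Nat.mod_self]

theorem sepN_of_sep (hm : 1 < m) {I : Finset (ZMod m)} (h : Sep I) : SepN I := by
  intro x hx y hy e
  have h1 := ZMod.val_lt y
  have h2 : y = x + 1 := ZMod.val_injective m (by rw [val_succ hm, if_pos (by omega), e])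
  exact h x hx (h2 ▸ hy)

theorem sep_of_sepN (hm : 1 < m) {I : Finset (ZMod m)} (h : SepN I)
    (h0 : (0 : ZMod m) ∈ I → ∀ x ∈ I, x.val + 1 < m) : Sep I := by
  intro x hx hx'
  have h1 := val_succ hm x
  split_ifs at h1 with h2
  · exact h x hx _ hx' h1
  · rw [ZMod.val_eq_zero] at h1
    exact h2 (h0 (h1 ▸ hx') x hx)

theorem In_erase0 (F : Finset (ZMod m)) : In 1 (m - 1) (F.erase 0) := fun x hx => by
  have h1 := ZMod.val_lt x
  have h2 : x.val ≠ 0 := fun e => (Finset.mem_erase.1 hx).1 ((ZMod.val_eq_zero x).1 e)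
  omega

theorem sep_erase (hm : 1 < m) {F I : Finset (ZMod m)} (h1 : I ⊆ F) (h2 : Sep I) :
    (I.erase 0).card ≤ al 1 (m - 1) F :=
  le_al ((Finset.erase_subset _ _).trans h1) (In_erase0 I) fun x hx y hy =>
    sepN_of_sep hm h2 x (Finset.mem_of_mem_erase hx) y (Finset.mem_of_mem_erase hy)

theorem exists_sep (hm : 1 < m) (F : Finset (ZMod m)) :
    ∃ I ⊆ F, (0 : ZMod m) ∉ I ∧ Sep I ∧ I.card = al 1 (m - 1) F := by
  obtain ⟨I, i1, i2, i3, e⟩ := exists_al 1 (m - 1) F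
  have h0 : (0 : ZMod m) ∉ I := fun h => by simpa using (i2 _ h).1
  exact ⟨I, i1, h0, sep_of_sepN hm i3 fun h => absurd h h0, e⟩

theorem Q0_eq (hm : 1 < m) (j : ℕ) : Q0 m (j + 1) = cone 0 (LL m j (m - 1)) := by
  ext F
  simp only [Q0, Aj, cone, LL, mem_ofPred_eq, In_erase0, true_and,
    al_erase F (Or.inl (by simp) : (0 : ZMod m).val < 1 ∨ m - 1 < (0 : ZMod m).val)]
  constructor
  · rintro ⟨a1, a2⟩
    obtain ⟨I, i1, i2, i3, e⟩ := exists_sep hm F
    have b1 := a1 I i1 i3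
    have b2 : I.card ≠ j + 1 := fun c => i2 (a2 I i1 i3 c)
    omega
  · intro a
    refine ⟨fun I i1 i2 => ?_, fun I i1 i2 i3 => ?_⟩
    · have b1 := sep_erase hm i1 i2
      have b2 : I.card - 1 ≤ (I.erase 0).card := Finset.pred_card_le_card_erase
      omega
    · by_contra b
      have b1 := sep_erase hm i1 i2
      rw [Finset.erase_eq_of_notMem b] at b1
      omega

theorem Aj_eq (hm : 1 < m) (j : ℕ) :
    Aj m j = LL m j (m - 1) ∪ cone 0 (Lam m j (m - 1)) := by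
  ext F
  simp only [Aj, cone, LL, Lam, mem_ofPred_eq, mem_union, In_erase0, true_and,
    al_erase F (Or.inl (by simp) : (0 : ZMod m).val < 1 ∨ m - 1 < (0 : ZMod m).val),
    al_erase F (Or.inl (by simp) : (0 : ZMod m).val < 2 ∨ m - 1 - 1 < (0 : ZMod m).val)]
  constructor
  · intro a
    have b : al 1 (m - 1) F ≤ j := by
      obtain ⟨I, i1, -, i3, e⟩ := exists_sep hm F
      exact e ▸ a I i1 i3
    by_cases h : (0 : ZMod m) ∈ F
    · refine Or.inr ⟨b, ?_⟩
      obtain ⟨I, i1, i2, i3, e⟩ := exists_al 2 (m - 1 - 1) F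
      have h0 : (0 : ZMod m) ∉ I := fun h => by simpa using (i2 _ h).1
      have c := a (insert 0 I) (Finset.insert_subset h i1) (sep_of_sepN hm
        (fun x hx y hy => ?_) fun _ x hx => ?_)
      · rw [Finset.card_insert_of_notMem h0] at c
        omega
      · rcases Finset.mem_insert.1 hy with ey | hy'
        · rw [ey, ZMod.val_zero]
          omega
        · rcases Finset.mem_insert.1 hx with ex | hx'
          · have := i2 y hy'
            rw [ex, ZMod.val_zero]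
            omega
          · exact i3 x hx' y hy'
      · rcases Finset.mem_insert.1 hx with ex | hx'
        · rw [ex, ZMod.val_zero]
          omega
        · have := i2 x hx'
          omega
    · refine Or.inl ⟨?_, b⟩
      rw [← Finset.erase_eq_of_notMem h]
      exact In_erase0 F
  · intro a I i1 i2
    by_cases h : (0 : ZMod m) ∈ I
    · rcases a with a | a
      · simpa using (a.1 _ (i1 h)).1
      · have s := sepN_of_sep hm i2
        have b : (I.erase 0).card ≤ al 2 (m - 1 - 1) F := by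
          refine le_al ((Finset.erase_subset _ _).trans i1) (fun x hx => ?_) fun x hx y hy =>
            s x (Finset.mem_of_mem_erase hx) y (Finset.mem_of_mem_erase hy)
          have c1 := In_erase0 I x hx
          have c2 := s 0 h x (Finset.mem_of_mem_erase hx)
          rw [ZMod.val_zero] at c2
          have c3 : x.val + 1 < m := by
            by_contra c
            have c4 := val_succ hm x
            rw [if_neg c, ZMod.val_eq_zero] at c4
            exact i2 x (Finset.mem_of_mem_erase hx) (c4 ▸ h)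
          omega
        have c : I.card - 1 ≤ (I.erase 0).card := Finset.pred_card_le_card_erase
        omega
    · have b := sep_erase hm i1 i2
      rw [Finset.erase_eq_of_notMem h] at b
      exact b.trans (a.elim (fun c => c.2) fun c => c.1)

end BallQ

theorem ballQStmt : BallQStmt := by
  intro m _ j hm
  rw [BallQ.Q0_eq (by omega), BallQ.Aj_eq (by omega)]
  exact BallQ.main j (m - 1) (by omega) (by omega) 0 (Or.inl (by simp))

end Pool.Agent.MP_6a6613_co

end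

section

/-! Page flips of the cyclic open book. -/

namespace Pool.Agent.MP_6a6613_co

open Set

namespace Page

variable {m : ℕ}

theorem mem_sh {I : Finset (ZMod m)} {x : ZMod m} : x ∈ sh I ↔ x - 1 ∈ I := by
  simp only [sh, Finset.mem_image]
  constructor
  · rintro ⟨y, hy, rfl⟩
    simpa using hy
  · exact fun h => ⟨_, h, by simp⟩

theorem succ_mem_sh {I : Finset (ZMod m)} {x : ZMod m} : x + 1 ∈ sh I ↔ x ∈ I := by
  simp [mem_sh]

theorem card_sh (I : Finset (ZMod m)) : (sh I).card = I.card :=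
  Finset.card_image_of_injective _ (add_left_injective 1)

theorem sep_sh {I : Finset (ZMod m)} (h : Sep I) : Sep (sh I) := fun x hx hx' => by
  rw [mem_sh] at hx
  rw [succ_mem_sh] at hx'
  exact h _ hx (by simpa using hx')

theorem sh_inj {I Y : Finset (ZMod m)} (h : sh I = sh Y) : I = Y := by
  ext x
  rw [← succ_mem_sh, h, succ_mem_sh]

theorem sh_surj (X : Finset (ZMod m)) : ∃ Y, sh Y = X :=
  ⟨X.image (· - 1), by
    ext x
    simp only [mem_sh, Finset.mem_image]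
    constructor
    · rintro ⟨y, hy, e⟩
      rwa [← sub_left_inj.1 e]
    · exact fun h => ⟨x, h, rfl⟩⟩

theorem sep_of_sh {I : Finset (ZMod m)} (h : Sep (sh I)) : Sep I := fun _ hx hx' =>
  h _ (succ_mem_sh.2 hx) (succ_mem_sh.2 hx')

theorem disj_sh {I : Finset (ZMod m)} (h : Sep I) : Disjoint I (sh I) :=
  Finset.disjoint_left.2 fun x hx hx' => h _ (mem_sh.1 hx') (by simpa using hx)

theorem sum_sh (I : Finset (ZMod m)) : ∑ x ∈ sh I, x = ∑ x ∈ I, x + (I.card : ZMod m) := by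
  rw [sh, Finset.sum_image fun _ _ _ _ e => add_left_injective 1 e, Finset.sum_add_distrib]
  simp

theorem gap {a b : ℕ} (h : (a : ZMod m) = (b : ZMod m)) : a = b ∨ a + m ≤ b ∨ b + m ≤ a := by
  rw [ZMod.natCast_eq_natCast_iff] at h
  rcases lt_trichotomy a b with e | e | e
  · have := Nat.le_of_dvd (by omega) ((Nat.modEq_iff_dvd' e.le).1 h)
    omega
  · exact Or.inl e
  · have := Nat.le_of_dvd (by omega) ((Nat.modEq_iff_dvd' e.le).1 h.symm)
    omega

/-- The sum of the representatives. -/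
def lam (X : Finset (ZMod m)) : ℕ := ∑ x ∈ X, x.val

/-- The page of faces all of whose maximal separated subsets are alive. -/
def Pa (m J : ℕ) (Al : Finset (ZMod m) → Prop) : Set (Finset (ZMod m)) :=
  {F | F ∈ Aj m J ∧ ∀ X ⊆ F, Sep X → X.card = J → Al X}

theorem Pa.down (J : ℕ) (Al : Finset (ZMod m) → Prop) : Down (Pa m J Al) := fun _ hF _ hG =>
  ⟨fun I hI => hF.1 I (hI.trans hG), fun I hI => hF.2 I (hI.trans hG)⟩

theorem Pa.congr {J : ℕ} {Al Al' : Finset (ZMod m) → Prop}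
    (h : ∀ X, Sep X → X.card = J → (Al X ↔ Al' X)) : Pa m J Al = Pa m J Al' := by
  ext F
  exact ⟨fun a => ⟨a.1, fun X h1 h2 h3 => (h X h2 h3).1 (a.2 X h1 h2 h3)⟩,
    fun a => ⟨a.1, fun X h1 h2 h3 => (h X h2 h3).2 (a.2 X h1 h2 h3)⟩⟩

variable [NeZero m]

theorem cast_lam (X : Finset (ZMod m)) : (lam X : ZMod m) = ∑ x ∈ X, x := by
  simp [lam]

theorem val_succ (hm : 1 < m) (x : ZMod m) :
    (x + 1 ≠ 0 ∧ (x + 1).val = x.val + 1) ∨ (x + 1 = 0 ∧ x.val + 1 = m) := by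
  have : Fact (1 < m) := ⟨hm⟩
  have h1 : (x + 1).val = (x.val + 1) % m := by rw [ZMod.val_add, ZMod.val_one]
  have h2 := ZMod.val_lt x
  rcases Nat.lt_or_ge (x.val + 1) m with e | e
  · rw [Nat.mod_eq_of_lt e] at h1
    refine Or.inl ⟨fun a => ?_, h1⟩
    rw [a, ZMod.val_zero] at h1
    omega
  · have e' : x.val + 1 = m := by omega
    rw [e', Nat.mod_self, ZMod.val_eq_zero] at h1
    exact Or.inr ⟨h1, e'⟩

theorem val_succ_le (hm : 1 < m) (x : ZMod m) : (x + 1).val ≤ x.val + 1 := by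
  rcases val_succ hm x with ⟨-, e⟩ | ⟨e, -⟩
  · exact e.le
  · simp [e]

omit [NeZero m] in
theorem succ_ne (hm : 1 < m) (x : ZMod m) : x + 1 ≠ x := by
  have : Fact (1 < m) := ⟨hm⟩
  simp

theorem lam_sh (hm : 1 < m) (I : Finset (ZMod m)) :
    ((0 : ZMod m) ∉ sh I ∧ lam (sh I) = lam I + I.card) ∨
      ((0 : ZMod m) ∈ sh I ∧ lam (sh I) + m = lam I + I.card) := by
  have h1 : lam (sh I) = ∑ x ∈ I, (x + 1).val := by
    rw [lam, sh, Finset.sum_image fun _ _ _ _ e => add_left_injective 1 e]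
  have h2 : lam I + I.card = ∑ x ∈ I, (x.val + 1) := by
    rw [Finset.sum_add_distrib, lam]; simp
  have h3 : ∀ x : ZMod m, x ≠ 0 - 1 → (x + 1).val = x.val + 1 := fun x hx => by
    rcases val_succ hm x with ⟨-, e⟩ | ⟨e, -⟩
    · exact e
    · exact absurd (eq_sub_of_add_eq e) hx
  rw [h1, h2]
  by_cases h : (0 : ZMod m) ∈ sh I
  · refine Or.inr ⟨h, ?_⟩
    rw [mem_sh] at h
    rw [← Finset.add_sum_erase _ _ h, ← Finset.add_sum_erase _ _ h,
      Finset.sum_congr rfl fun x hx => h3 x (Finset.ne_of_mem_erase hx)]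
    rcases val_succ hm (0 - 1) with ⟨e, -⟩ | ⟨e, e'⟩
    · simp at e
    · rw [e, e', ZMod.val_zero]; omega
  · refine Or.inl ⟨h, Finset.sum_congr rfl fun x hx => h3 x fun e => h (mem_sh.2 (e ▸ hx))⟩

theorem lam_le (X : Finset (ZMod m)) : lam X ≤ X.card * m := by
  rw [lam, ← smul_eq_mul]
  exact Finset.sum_le_card_nsmul _ _ _ fun x _ => (ZMod.val_lt x).le

omit [NeZero m] in
theorem card_le_lam {X : Finset (ZMod m)} (h : (0 : ZMod m) ∉ X) : X.card ≤ lam X := by
  rw [lam, Finset.card_eq_sum_ones]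
  exact Finset.sum_le_sum fun x hx => Nat.one_le_iff_ne_zero.2 fun e =>
    h ((ZMod.val_eq_zero x).1 e ▸ hx)

/-- Separated subsets of a union of pairs. -/
theorem pair (hm : 1 < m) {I X : Finset (ZMod m)} (hX : Sep X) (h : X ⊆ I ∪ sh I) :
    X.card ≤ I.card ∧ (X.card = I.card → ∃ r : ℕ, r ≤ I.card ∧
      ∑ x ∈ X, x = ∑ x ∈ I, x + (r : ZMod m) ∧ lam X ≤ lam I + r ∧ (r = 0 → X = I) ∧
      (r = I.card → X = sh I)) := by
  let φ : ZMod m → ZMod m := fun x => if x ∈ I then x else x - 1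
  have inj : Set.InjOn φ X := fun x hx y hy e => by
    simp only [φ] at e
    split_ifs at e with a b b
    · exact e
    · exact absurd (by rw [e]; simpa using hy) (hX x hx)
    · exact absurd (by rw [← e]; simpa using hx) (hX y hy)
    · exact sub_left_inj.1 e
  have sub : X.image φ ⊆ I := fun y hy => by
    obtain ⟨x, hx, rfl⟩ := Finset.mem_image.1 hy
    simp only [φ]
    split_ifs with a
    · exact a
    · exact mem_sh.1 ((Finset.mem_union.1 (h hx)).resolve_left a)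
  have hc := Finset.card_image_of_injOn inj
  refine ⟨hc ▸ Finset.card_le_card sub, fun e => ?_⟩
  have eq : X.image φ = I := Finset.eq_of_subset_of_card_le sub (by omega)
  refine ⟨(X.filter (· ∉ I)).card, e ▸ Finset.card_filter_le _ _, ?_, ?_, fun a => ?_, fun a => ?_⟩
  · have : ∑ x ∈ I, x = ∑ x ∈ X, φ x := by
      rw [← Finset.sum_image (f := fun x => x) inj, eq]
    rw [this, Finset.card_filter, Nat.cast_sum, ← Finset.sum_add_distrib]
    refine Finset.sum_congr rfl fun x _ => ?_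
    simp only [φ]
    split_ifs <;> simp
  · have : lam I = ∑ x ∈ X, (φ x).val := by
      rw [← Finset.sum_image (f := fun x : ZMod m => x.val) inj, eq, lam]
    rw [this, Finset.card_filter, ← Finset.sum_add_distrib, lam]
    refine Finset.sum_le_sum fun x _ => ?_
    simp only [φ]
    split_ifs
    · simp
    · simpa using val_succ_le hm (x - 1)
  · rw [Finset.card_eq_zero, Finset.filter_eq_empty_iff] at a
    exact Finset.eq_of_subset_of_card_le (fun x hx => not_not.1 (a hx)) e.ge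
  · rw [← e, Finset.card_filter_eq_iff] at a
    exact Finset.eq_of_subset_of_card_le
      (fun x hx => (Finset.mem_union.1 (h hx)).resolve_left (a x hx)) (by rw [card_sh, e])

theorem mem_Aj (hm : 1 < m) {I F : Finset (ZMod m)} (h : F ⊆ I ∪ sh I) : F ∈ Aj m I.card :=
  fun _ h1 h2 => (pair hm h2 (h1.trans h)).1

/-- One flip of a page. -/
theorem flip_page (hm : 1 < m) {J : ℕ} (hJ : 0 < J) {Al : Finset (ZMod m) → Prop}
    {I : Finset (ZMod m)} (hs : Sep I) (hc : I.card = J) (h1 : ¬ Al (sh I))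
    (h2 : ∀ x, x + 1 ∈ I → x ∉ I → ¬ Al (insert x (I.erase (x + 1))))
    (h2' : ∀ y ∈ sh I, ¬ Al (insert (y + 1) ((sh I).erase y)))
    (h3 : ∀ X ⊆ I ∪ sh I, Sep X → X.card = J → X ≠ sh I → Al X) :
    FC (Pa m J Al) I (sh I) ∧
      flip (Pa m J Al) I (sh I) = Pa m J (fun X => X = sh I ∨ (Al X ∧ X ≠ I)) ∧
      {F | ∃ G ∈ Pa m J Al, I ⊆ G ∧ F ⊆ G ∪ sh I} = {F | F ⊆ I ∪ sh I} := by
  have hd := disj_sh hs
  have hd' := Finset.disjoint_left.1 hd
  have hss := sep_sh hs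
  have hcs : (sh I).card = J := by rw [card_sh, hc]
  have nτ : (sh I).Nonempty := Finset.card_pos.1 (by omega)
  have L1 : ∀ F ∈ Pa m J Al, I ⊆ F → F ⊆ I ∪ sh I := fun F hF hI x hx => by
    by_contra a
    rw [Finset.mem_union, not_or, mem_sh] at a
    have b : ∀ y ∈ I, y + 1 ≠ x := fun y hy e => a.2 (by rw [← e]; simpa using hy)
    by_cases c : x + 1 ∈ I
    · refine h2 x c a.1 (hF.2 _ (Finset.insert_subset hx ((Finset.erase_subset _ _).trans hI))
        (fun y hy hy' => ?_) ?_)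
      · rcases Finset.mem_insert.1 hy with rfl | hy
        · rcases Finset.mem_insert.1 hy' with e | e
          · exact succ_ne hm _ e
          · simp at e
        · rcases Finset.mem_insert.1 hy' with e | e
          · exact b y (Finset.mem_of_mem_erase hy) e
          · exact hs y (Finset.mem_of_mem_erase hy) (Finset.mem_of_mem_erase e)
      · rw [Finset.card_insert_of_notMem fun e => a.1 (Finset.mem_of_mem_erase e),
          Finset.card_erase_add_one c, hc]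
    · have := hF.1 (insert x I) (Finset.insert_subset hx hI) fun y hy hy' => by
        rcases Finset.mem_insert.1 hy with rfl | hy
        · rcases Finset.mem_insert.1 hy' with e | e
          · exact succ_ne hm _ e
          · exact c e
        · rcases Finset.mem_insert.1 hy' with e | e
          · exact b y hy e
          · exact hs y hy e
      rw [Finset.card_insert_of_notMem a.1] at this
      omega
  have L2 : ∀ F ∈ Pa m J (fun X => X = sh I ∨ (Al X ∧ X ≠ I)), sh I ⊆ F → F ⊆ I ∪ sh I :=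
    fun F hF hI x hx => by
    by_contra a
    rw [Finset.mem_union, not_or, ← succ_mem_sh] at a
    obtain ⟨w, rfl⟩ : ∃ w, x = w + 1 := ⟨x - 1, by simp⟩
    by_cases c : w ∈ sh I
    · have := hF.2 (insert (w + 1) ((sh I).erase w))
        (Finset.insert_subset hx ((Finset.erase_subset _ _).trans hI)) (fun y hy hy' => ?_) ?_
      · rcases this with e | e
        · exact a.2 (e ▸ Finset.mem_insert_self _ _)
        · exact h2' w c e.1
      · rcases Finset.mem_insert.1 hy with rfl | hy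
        · rcases Finset.mem_insert.1 hy' with e | e
          · exact succ_ne hm _ e
          · exact a.1 (Finset.mem_of_mem_erase e)
        · rcases Finset.mem_insert.1 hy' with e | e
          · exact Finset.ne_of_mem_erase hy (add_left_injective 1 e)
          · exact hss y (Finset.mem_of_mem_erase hy) (Finset.mem_of_mem_erase e)
      · rw [Finset.card_insert_of_notMem fun e => a.2 (Finset.mem_of_mem_erase e),
          Finset.card_erase_add_one c, hcs]
    · have := hF.1 (insert (w + 1) (sh I)) (Finset.insert_subset hx hI) fun y hy hy' => by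
        rcases Finset.mem_insert.1 hy with rfl | hy
        · rcases Finset.mem_insert.1 hy' with e | e
          · exact succ_ne hm _ e
          · exact a.1 e
        · rcases Finset.mem_insert.1 hy' with e | e
          · exact c (add_left_injective 1 e ▸ hy)
          · exact hss y hy e
      rw [Finset.card_insert_of_notMem a.2] at this
      omega
  have L3 : ∀ t ∈ sh I, ∀ F ⊆ (I ∪ sh I).erase t, F ∈ Pa m J Al := fun t ht F hF =>
    ⟨hc ▸ mem_Aj hm (hF.trans (Finset.erase_subset _ _)), fun X a b c =>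
      h3 X (a.trans (hF.trans (Finset.erase_subset _ _))) b c fun e =>
        Finset.notMem_erase t _ (hF (a (e ▸ ht)))⟩
  have L4 : ∀ t ∈ sh I, ∀ F : Finset (ZMod m), I ⊆ (F ∪ I).erase t := fun t ht F x hx =>
    Finset.mem_erase.2 ⟨fun e => hd' hx (e ▸ ht), Finset.mem_union_right _ hx⟩
  refine ⟨⟨Pa.down J Al, hd, Finset.card_pos.1 (by omega), nτ,
    fun F hF a => h1 (hF.2 _ a hss hcs), fun F hF a t ht => L3 t ht _
      (Finset.erase_subset_erase t (Finset.union_subset (L1 F hF a) Finset.subset_union_right))⟩,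
    ?_, ?_⟩
  · ext F
    constructor
    · rintro ⟨a, b | ⟨b, c⟩⟩
      · exact ⟨b.1, fun X a1 a2 a3 => Or.inr ⟨b.2 X a1 a2 a3, fun e => a (e ▸ a1)⟩⟩
      · obtain ⟨t, ht⟩ := nτ
        have d := L1 _ (c t ht) (L4 t ht F)
        have d' : F ⊆ I ∪ sh I := fun x hx => by
          by_cases e : x = t
          · exact Finset.mem_union_right _ (e ▸ ht)
          · exact d (Finset.mem_erase.2 ⟨e, Finset.mem_union_left _ hx⟩)
        refine ⟨hc ▸ mem_Aj hm d', fun X a1 a2 a3 => ?_⟩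
        by_cases e : X = sh I
        · exact Or.inl e
        · exact Or.inr ⟨h3 X (a1.trans d') a2 a3 e, fun e => a (e ▸ a1)⟩
    · intro hF
      refine ⟨fun a => ?_, ?_⟩
      · rcases hF.2 I a hs hc with e | e
        · obtain ⟨t, ht⟩ := nτ
          exact hd' (e ▸ ht) ht
        · exact e.2 rfl
      · by_cases a : sh I ⊆ F
        · exact Or.inr ⟨a, fun t ht => L3 t ht _ (Finset.erase_subset_erase t
            (Finset.union_subset (L2 F hF a) Finset.subset_union_left))⟩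
        · exact Or.inl ⟨hF.1, fun X a1 a2 a3 =>
            ((hF.2 X a1 a2 a3).resolve_left fun e => a (e ▸ a1)).1⟩
  · ext F
    constructor
    · rintro ⟨G, hG, a, b⟩
      exact b.trans (Finset.union_subset (L1 G hG a) Finset.subset_union_right)
    · intro hF
      obtain ⟨t, ht⟩ := nτ
      exact ⟨I, L3 t ht _ fun x hx => Finset.mem_erase.2
        ⟨fun e => hd' hx (e ▸ ht), Finset.mem_union_left _ hx⟩, Finset.Subset.refl _, hF⟩

/-- `s` is an admissible lift of the sum of `X`. -/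
def Lf (X : Finset (ZMod m)) (s : ℕ) : Prop := lam X ≤ s ∧ (s : ZMod m) = ∑ x ∈ X, x

/-- The events at time `t`. -/
def Ev (J t : ℕ) (X : Finset (ZMod m)) : Prop := Sep X ∧ X.card = J ∧ Lf X t

/-- The alive sets at time `t` after the events in `E`. -/
def Al (J t : ℕ) (E : Finset (Finset (ZMod m))) (X : Finset (ZMod m)) : Prop :=
  (∃ s, t < s ∧ s < t + J ∧ Lf X s) ∨ (Lf X t ∧ X ∉ E) ∨ (∃ Y ∈ E, X = sh Y) ∨
    ((0 : ZMod m) ∈ X ∧ t + J ≤ lam X)

omit [NeZero m] in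
theorem Ev.sum {J t : ℕ} {Y : Finset (ZMod m)} (h : Ev J t Y) :
    ∑ x ∈ sh Y, x = ((t + J : ℕ) : ZMod m) := by
  rw [sum_sh, ← h.2.2.2, h.2.1, Nat.cast_add]

omit [NeZero m] in
/-- Sets whose sum is outside the window are not alive. -/
theorem not_al {J t : ℕ} {E : Finset (Finset (ZMod m))} (hJ : 0 < J) (hE : ∀ Y ∈ E, Ev J t Y)
    {X : Finset (ZMod m)} {u : ℕ} (hu : (u : ZMod m) = ∑ x ∈ X, x) (h1 : t + J < u)
    (h2 : u < t + m) (h3 : (0 : ZMod m) ∈ X → lam X < t + J) : ¬ Al J t E X := by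
  rintro (⟨s, a, b, c⟩ | ⟨a, -⟩ | ⟨Y, hY, rfl⟩ | ⟨a, b⟩)
  · have := gap (hu.trans c.2.symm); omega
  · have := gap (hu.trans a.2.symm); omega
  · have := gap (hu.trans (hE Y hY).sum); omega
  · have := h3 a; omega

theorem step {J t : ℕ} (hJ : 0 < J) (hm : 4 * J ≤ m) {E : Finset (Finset (ZMod m))}
    (hE : ∀ Y ∈ E, Ev J t Y) {I : Finset (ZMod m)} (hI : Ev J t I) (hn : I ∉ E) :
    FC (Pa m J (Al J t E)) I (sh I) ∧
      flip (Pa m J (Al J t E)) I (sh I) = Pa m J (Al J t (insert I E)) ∧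
      {F | ∃ G ∈ Pa m J (Al J t E), I ⊆ G ∧ F ⊆ G ∪ sh I} = {F | F ⊆ I ∪ sh I} := by
  have hm1 : 1 < m := by omega
  obtain ⟨hs, hc, hl, hsum⟩ := id hI
  have hsh := lam_sh hm1 I
  have := flip_page hm1 hJ (Al := Al J t E) hs hc ?_ ?_ ?_ ?_
  · refine ⟨this.1, this.2.1.trans (Pa.congr fun X _ _ => ?_), this.2.2⟩
    constructor
    · rintro (rfl | ⟨a | a | ⟨Y, hY, a⟩ | a, b⟩)
      · exact Or.inr (Or.inr (Or.inl ⟨I, Finset.mem_insert_self _ _, rfl⟩))
      · exact Or.inl a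
      · exact Or.inr (Or.inl ⟨a.1, fun e => (Finset.mem_insert.1 e).elim b a.2⟩)
      · exact Or.inr (Or.inr (Or.inl ⟨Y, Finset.mem_insert_of_mem hY, a⟩))
      · exact Or.inr (Or.inr (Or.inr a))
    · rintro (⟨s, a, b, c⟩ | a | ⟨Y, hY, a⟩ | a)
      · refine Or.inr ⟨Or.inl ⟨s, a, b, c⟩, ?_⟩
        rintro rfl
        have := gap (hsum.trans c.2.symm); omega
      · exact Or.inr ⟨Or.inr (Or.inl ⟨a.1, fun e => a.2 (Finset.mem_insert_of_mem e)⟩),
          fun e => a.2 (e ▸ Finset.mem_insert_self _ _)⟩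
      · rcases Finset.mem_insert.1 hY with rfl | hY
        · exact Or.inl a
        · refine Or.inr ⟨Or.inr (Or.inr (Or.inl ⟨Y, hY, a⟩)), fun e => ?_⟩
          have b := (hE Y hY).sum
          rw [← a, e] at b
          have := gap (hsum.trans b); omega
      · refine Or.inr ⟨Or.inr (Or.inr (Or.inr a)), ?_⟩
        rintro rfl
        omega
  · rintro (⟨s, a, b, c⟩ | ⟨a, -⟩ | ⟨Y, hY, e⟩ | ⟨a, b⟩)
    · have := gap (c.2.trans hI.sum); omega
    · have := gap (a.2.trans hI.sum); omega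
    · exact hn (sh_inj e ▸ hY)
    · rcases hsh with ⟨c, -⟩ | ⟨-, c⟩
      · exact c a
      · omega
  · intro x hx hx'
    have hx'' : x ∉ I.erase (x + 1) := fun e => hx' (Finset.mem_of_mem_erase e)
    refine not_al (u := t + (m - 1)) hJ hE ?_ (by omega) (by omega) fun a => ?_
    · rw [Finset.sum_insert hx'', Nat.cast_add, hsum, ← Finset.add_sum_erase _ _ hx,
        Nat.cast_sub hm1.le]
      simp only [CharP.cast_eq_zero, Nat.cast_one]
      ring
    · have e1 : lam (insert x (I.erase (x + 1))) = x.val + lam (I.erase (x + 1)) :=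
        Finset.sum_insert hx''
      have e2 : lam I = (x + 1).val + lam (I.erase (x + 1)) :=
        (Finset.add_sum_erase _ _ hx).symm
      rcases val_succ hm1 x with ⟨-, e⟩ | ⟨e, -⟩
      · omega
      · rw [← e] at a
        rcases Finset.mem_insert.1 a with b | b
        · exact absurd b (succ_ne hm1 x)
        · simp at b
  · intro y hy
    have hy' : y + 1 ∉ (sh I).erase y := fun e => sep_sh hs y hy (Finset.mem_of_mem_erase e)
    refine not_al (u := t + J + 1) hJ hE ?_ (by omega) (by omega) fun a => ?_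
    · rw [Finset.sum_insert hy', Nat.cast_add, ← hI.sum, ← Finset.add_sum_erase _ _ hy]
      simp only [Nat.cast_one]
      ring
    · have e1 : lam (insert (y + 1) ((sh I).erase y)) = (y + 1).val + lam ((sh I).erase y) :=
        Finset.sum_insert hy'
      have e2 : lam (sh I) = y.val + lam ((sh I).erase y) :=
        (Finset.add_sum_erase _ _ hy).symm
      rcases val_succ hm1 y with ⟨e, e'⟩ | ⟨e, e'⟩
      · rcases hsh with ⟨c, -⟩ | ⟨-, c⟩
        · rcases Finset.mem_insert.1 a with b | b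
          · exact absurd b.symm e
          · exact absurd (Finset.mem_of_mem_erase b) c
        · omega
      · rw [e, ZMod.val_zero] at e1
        rw [e]
        rcases hsh with ⟨-, c⟩ | ⟨-, c⟩ <;> omega
  · intro X h1 h2 h3 h4
    obtain ⟨r, a, b, c, d, e⟩ := (pair hm1 h2 h1).2 (h3.trans hc.symm)
    by_cases f : r = 0
    · rw [d f]
      exact Or.inr (Or.inl ⟨hI.2.2, hn⟩)
    · have : r ≠ I.card := fun g => h4 (e g)
      exact Or.inl ⟨t + r, by omega, by omega, by omega, by rw [b, Nat.cast_add, hsum]⟩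

open Classical in
/-- All events at time `t`. -/
noncomputable def EvS (m : ℕ) [NeZero m] (J t : ℕ) : Finset (Finset (ZMod m)) :=
  Finset.univ.filter (Ev J t)

theorem mem_EvS {J t : ℕ} {X : Finset (ZMod m)} : X ∈ EvS m J t ↔ Ev J t X := by
  simp [EvS]

theorem next {J t : ℕ} (hJ : 0 < J) (hm : 4 * J ≤ m) :
    Pa m J (Al J t (EvS m J t)) = Pa m J (Al J (t + 1) ∅) := by
  have hm1 : 1 < m := by omega
  refine Pa.congr fun X hs hc => ?_
  have key : ∀ s, t < s → s ≤ t + J → Lf X s → Al J (t + 1) ∅ X := fun s a b c => by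
    by_cases e : s = t + 1
    · exact Or.inr (Or.inl ⟨e ▸ c, by simp⟩)
    · exact Or.inl ⟨s, by omega, by omega, c⟩
  have key' : ∀ s, t < s → s ≤ t + J → Lf X s → Al J t (EvS m J t) X := fun s a b c => by
    by_cases e : s = t + J
    · obtain ⟨Y, rfl⟩ := sh_surj X
      rw [card_sh] at hc
      have h1 : (t : ZMod m) = ∑ x ∈ Y, x := by
        have := c.2
        rw [e, sum_sh, hc, Nat.cast_add] at this
        exact add_right_cancel this
      by_cases f : lam Y ≤ t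
      · exact Or.inr (Or.inr (Or.inl ⟨Y, mem_EvS.2 ⟨sep_of_sh hs, hc, f, h1⟩, rfl⟩))
      · have h2 := c.1
        have h3 := gap (h1.trans (cast_lam Y).symm)
        rcases lam_sh hm1 Y with ⟨-, g⟩ | ⟨g, g'⟩
        · omega
        · exact Or.inr (Or.inr (Or.inr ⟨g, by omega⟩))
    · exact Or.inl ⟨s, a, by omega, c⟩
  constructor
  · rintro (⟨s, a, b, c⟩ | ⟨a, b⟩ | ⟨Y, hY, rfl⟩ | ⟨a, b⟩)
    · exact key s a b.le c
    · exact absurd (mem_EvS.2 ⟨hs, hc, a⟩) b
    · rw [mem_EvS] at hY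
      refine key (t + J) (by omega) le_rfl ⟨?_, hY.sum.symm⟩
      have := hY.2.2.1
      have := hY.2.1
      rcases lam_sh hm1 Y with ⟨-, g⟩ | ⟨-, g⟩ <;> omega
    · by_cases e : lam X = t + J
      · exact key (t + J) (by omega) le_rfl ⟨e.le, e ▸ cast_lam X⟩
      · exact Or.inr (Or.inr (Or.inr ⟨a, by omega⟩))
  · rintro (⟨s, a, b, c⟩ | ⟨a, -⟩ | ⟨Y, hY, -⟩ | ⟨a, b⟩)
    · exact key' s (by omega) (by omega) c
    · exact key' (t + 1) (by omega) (by omega) a
    · simp at hY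
    · exact Or.inr (Or.inr (Or.inr ⟨a, by omega⟩))

theorem start {J : ℕ} (hJ : 0 < J) : Pa m J (Al J 0 ∅) = Q0 m J := by
  refine Pa.congr (Al' := fun X => (0 : ZMod m) ∈ X) fun X _ hc => ?_
  constructor
  · intro h
    by_contra h0
    have := card_le_lam h0
    rcases h with ⟨s, a, b, c⟩ | ⟨a, -⟩ | ⟨Y, hY, -⟩ | ⟨a, -⟩
    · have := c.1; omega
    · have := a.1; omega
    · simp at hY
    · exact h0 a
  · intro h
    by_cases a : 0 + J ≤ lam X
    · exact Or.inr (Or.inr (Or.inr ⟨h, a⟩))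
    · by_cases b : lam X = 0
      · exact Or.inr (Or.inl ⟨⟨b.le, b ▸ cast_lam X⟩, by simp⟩)
      · exact Or.inl ⟨lam X, by omega, by omega, le_rfl, cast_lam X⟩

theorem late {J t : ℕ} (hJ : 0 < J) (ht : J * m ≤ t) : Pa m J (Al J t ∅) = Pg m J t := by
  refine Pa.congr (Al' := Win t (t + J)) fun X _ hc => ?_
  have hl := lam_le X
  rw [hc] at hl
  constructor
  · rintro (⟨s, a, b, c⟩ | ⟨a, -⟩ | ⟨Y, hY, -⟩ | ⟨-, a⟩)
    · exact ⟨s, a.le, b, c.2⟩
    · exact ⟨t, le_rfl, by omega, a.2⟩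
    · simp at hY
    · omega
  · rintro ⟨s, a, b, c⟩
    by_cases e : s = t
    · exact Or.inr (Or.inl ⟨⟨by omega, e ▸ c⟩, by simp⟩)
    · exact Or.inl ⟨s, by omega, b, by omega, c⟩

omit [NeZero m] in
theorem win_per (a b k : ℕ) (X : Finset (ZMod m)) : Win (a + k * m) (b + k * m) X ↔ Win a b X := by
  constructor
  · rintro ⟨s, h1, h2, h3⟩
    obtain ⟨u, rfl⟩ : ∃ u, s = u + k * m := ⟨s - k * m, by omega⟩
    exact ⟨u, by omega, by omega, by simpa using h3⟩
  · rintro ⟨s, h1, h2, h3⟩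
    exact ⟨s + k * m, by omega, by omega, by simpa using h3⟩

omit [NeZero m] in
theorem pg_per (J t k : ℕ) : Pg m J (t + k * m) = Pg m J t := by
  refine Pa.congr (Al := Win (t + k * m) (t + k * m + J)) (Al' := Win t (t + J)) fun X _ _ => ?_
  rw [add_right_comm, win_per]

omit [NeZero m] in
theorem om_per (J a b k : ℕ) : Om m J (a + k * m) (b + k * m) = Om m J a b := by
  simp only [Om, pg_per, win_per]

theorem ri_stage {j : ℕ} (hm : 4 * (j + 1) ≤ m) (t : ℕ) :
    RI (Q0 m (j + 1)) (Pa m (j + 1) (Al (j + 1) t ∅)) (Aj m j) := by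
  induction t with
  | zero =>
    rw [← start (Nat.succ_pos j)]
    exact RI.refl (Pa.down _ _) _
  | succ t ih =>
    have : ∀ E : Finset (Finset (ZMod m)), (∀ Y ∈ E, Ev (j + 1) t Y) →
        RI (Q0 m (j + 1)) (Pa m (j + 1) (Al (j + 1) t E)) (Aj m j) := by
      intro E
      induction E using Finset.induction_on with
      | empty => exact fun _ => ih
      | insert I E hn ih' =>
        intro h
        have hE : ∀ Y ∈ E, Ev (j + 1) t Y := fun Y hY => h Y (Finset.mem_insert_of_mem hY)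
        have hI := h I (Finset.mem_insert_self _ _)
        obtain ⟨a, b, -⟩ := step (Nat.succ_pos j) hm hE hI hn
        rw [← b]
        refine (ih' hE).trans (a.ri fun F hF c => ?_)
        have := hF I c hI.1
        have := hI.2.1
        omega
    rw [← next (Nat.succ_pos j) hm]
    exact this _ fun Y hY => mem_EvS.1 hY

omit [NeZero m] in
theorem down_sub (P : Finset (ZMod m) → Prop) : Down {F | ∃ I, P I ∧ F ⊆ I ∪ sh I} :=
  fun _ ⟨I, a, b⟩ _ hG => ⟨I, a, hG.trans b⟩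

theorem arc_stage (h : ArcStmt) {J : ℕ} (hJ : 0 < J) (hm : 4 * J ≤ m) {a : ℕ} (ha : J * m ≤ a)
    (b : ℕ) (hab : a ≤ b) (hb : b + J ≤ a + m) : Arc (Pg m J a) (Om m J a b) (Pg m J b) := by
  have hm1 : 1 < m := by omega
  induction b, hab using Nat.le_induction with
  | base =>
    have : Om m J a a = Pg m J a := by
      refine Set.union_eq_left.2 ?_
      rintro F ⟨I, -, -, ⟨s, h1, h2, -⟩, -⟩
      omega
    rw [this]
    exact (h _).1 _ (Pa.down _ _)
  | succ t hat ih =>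
    have : ∀ E : Finset (Finset (ZMod m)), (∀ Y ∈ E, Ev J t Y) →
        Arc (Pg m J a) (Om m J a t ∪ {F | ∃ I, I ∈ E ∧ F ⊆ I ∪ sh I}) (Pa m J (Al J t E)) := by
      intro E
      induction E using Finset.induction_on with
      | empty =>
        intro _
        rw [late hJ (ha.trans hat)]
        simpa using ih (by omega)
      | insert I E hn ih' =>
        intro h'
        have hE : ∀ Y ∈ E, Ev J t Y := fun Y hY => h' Y (Finset.mem_insert_of_mem hY)
        have hI := h' I (Finset.mem_insert_self _ _)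
        obtain ⟨a1, a2, a3⟩ := step hJ hm hE hI hn
        have hcs : (sh I).card = J := by rw [card_sh, hI.2.1]
        have := (h _).2 _ _ _ _ _ (ih' hE) a1 ?_ ?_
        · rw [a2, a3] at this
          convert this using 1
          ext F
          simp only [Set.mem_union, Set.mem_ofPred_eq, Finset.mem_insert]
          constructor
          · rintro (c | ⟨Y, rfl | c, d⟩)
            · exact Or.inl (Or.inl c)
            · exact Or.inr d
            · exact Or.inl (Or.inr ⟨Y, c, d⟩)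
          · rintro ((c | ⟨Y, c, d⟩) | d)
            · exact Or.inl c
            · exact Or.inr ⟨Y, Or.inr c, d⟩
            · exact Or.inr ⟨I, Or.inl rfl, d⟩
        · refine (Down.union (Pa.down _ _) ?_).union (down_sub _)
          exact fun _ ⟨I, a, b, c, d⟩ _ hG => ⟨I, a, b, c, hG.trans d⟩
        · rintro F ((hF | ⟨Y, -, c, ⟨s, d1, d2, d3⟩, e⟩) | ⟨Y, c, e⟩) f
          · obtain ⟨s, d1, d2, d3⟩ := hF.2 _ f (sep_sh hI.1) hcs
            have := gap (d3.trans hI.sum); omega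
          · obtain ⟨r, g1, g2, -⟩ := (pair hm1 (sep_sh hI.1) (f.trans e)).2 (hcs.trans c.symm)
            rw [hI.sum, ← d3, ← Nat.cast_add] at g2
            have := gap g2; omega
          · have hY := hE Y c
            obtain ⟨r, g1, g2, -, -, g3⟩ :=
              (pair hm1 (sep_sh hI.1) (f.trans e)).2 (hcs.trans hY.2.1.symm)
            rw [hI.sum, ← hY.2.2.2, ← Nat.cast_add] at g2
            have := gap g2
            have := hY.2.1
            exact hn (sh_inj (g3 (by omega)) ▸ c)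
    have := this _ fun Y hY => mem_EvS.1 hY
    rw [next hJ hm, late hJ (by omega)] at this
    convert this using 1
    ext F
    simp only [Om, Set.mem_union, Set.mem_ofPred_eq, mem_EvS]
    constructor
    · rintro (c | ⟨Y, c1, c2, ⟨s, d1, d2, d3⟩, e⟩)
      · exact Or.inl (Or.inl c)
      · by_cases f : s = t
        · have := lam_le Y
          rw [c2] at this
          exact Or.inr ⟨Y, ⟨c1, c2, by omega, f ▸ d3⟩, e⟩
        · exact Or.inl (Or.inr ⟨Y, c1, c2, ⟨s, d1, by omega, d3⟩, e⟩)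
    · rintro ((c | ⟨Y, c1, c2, ⟨s, d1, d2, d3⟩, e⟩) | ⟨Y, c, e⟩)
      · exact Or.inl c
      · exact Or.inr ⟨Y, c1, c2, ⟨s, d1, by omega, d3⟩, e⟩
      · exact Or.inr ⟨Y, c.1, c.2.1, ⟨t, hat, by omega, c.2.2.2⟩, e⟩

end Page

theorem pageStmt (h : ArcStmt) : PageStmt := by
  intro m _ j hm
  refine ⟨fun t => ?_, fun a b hab hb => ?_⟩
  · rw [← Page.pg_per (j + 1) t (j + 1), ← Page.late (Nat.succ_pos j) (Nat.le_add_left _ _)]
    exact Page.ri_stage hm _
  · rw [← Page.pg_per (j + 1) a (j + 1), ← Page.pg_per (j + 1) b (j + 1),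
      ← Page.om_per (j + 1) a b (j + 1)]
    exact Page.arc_stage h (J := j + 1) (by omega) hm (Nat.le_add_left _ _) _ (by omega) (by omega)

end Pool.Agent.MP_6a6613_co

end

section

/-! Pinched cylinders swept out by a sequence of flips. -/

namespace Pool.Agent.MP_6a6613_co

open Set

namespace ArcAux

variable {V : Type} [Fintype V] [DecidableEq V]

omit [DecidableEq V] in
theorem base {K : Set (Finset V)} (hK : Down K) : Arc K K K := by
  refine ⟨fun p => (p, 0), fun q => q.1, fun p => p, fun p => p, fun _ => 0,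
    ⟨by fun_prop, by fun_prop, fun p hp => ⟨hp, le_rfl, le_rfl⟩, fun q hq => hq.1,
      fun _ _ => rfl, fun q hq => ?_, hK.smul, fun p _ t _ => by simp⟩,
    HH.refl hK.smul, continuousOn_const, fun _ _ => le_rfl, fun _ _ _ _ => by simp,
    Subset.rfl, Subset.rfl, fun _ _ => rfl, fun _ _ => rfl⟩
  exact Prod.ext rfl (le_antisymm hq.2.1 hq.2.2)

omit [Fintype V] in
theorem mn_fl {σ τ : Finset V} (hd : Disjoint σ τ) (hσ : σ.Nonempty) (q : V → ℝ) :
    mn σ (fl τ σ q) = mn σ q + mn τ q :=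
  mn_add hσ fun v hv => by
    simp [fl_apply, hv, Finset.disjoint_left.1 hd hv]

theorem fl_mem {K : Set (Finset V)} {σ τ G : Finset V} (h : FC K σ τ) (hG : G ∈ K) (hσ : σ ⊆ G)
    {q : V → ℝ} (hq : ∀ v, 0 ≤ q v) (hs : supp q ⊆ G ∪ τ) : fl τ σ q ∈ Cn K := by
  have hd := Finset.disjoint_left.1 h.disj
  have h0 := mn_nonneg τ hq
  obtain ⟨t, ht, e⟩ := exists_mn h.nτ q
  refine ⟨fun v => ?_, h.down _ (h.link G hG hσ t ht) _ fun v hv => ?_⟩
  · rw [fl_apply]
    by_cases a : v ∈ τ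
    · have b : v ∉ σ := fun b => hd b a
      simp only [a, b, if_true, if_false]; linarith [mn_le q a]
    · have := hq v
      simp only [a, if_false]; split_ifs <;> linarith
  · rw [mem_supp, fl_apply] at hv
    refine Finset.mem_erase.2 ⟨fun e' => hv ?_, ?_⟩
    · have b : t ∉ σ := fun b => hd b ht
      simp [e', ht, b, e]
    · by_cases a : v ∈ τ
      · exact Finset.mem_union_right _ a
      · by_cases b : v ∈ σ
        · exact Finset.mem_union_left _ (hσ b)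
        · exact hs (mem_supp.2 (by simpa [a, b] using hv))

theorem step {K0 Ω K : Set (Finset V)} {σ τ : Finset V} (hA : Arc K0 Ω K) (h : FC K σ τ)
    (hΩ : Down Ω) (hτ : ∀ F ∈ Ω, ¬ τ ⊆ F) :
    Arc K0 (Ω ∪ {F | ∃ G ∈ K, σ ⊆ G ∧ F ⊆ G ∪ τ}) (flip K σ τ) := by
  obtain ⟨Ψ, Ψ', π, π', len, hΨ, hπ, hlc, hl0, hls, hK0, hK, e0, e1⟩ := hA
  have hd := Finset.disjoint_left.1 h.disj
  set B : Set (Finset V) := {F | ∃ G ∈ K, σ ⊆ G ∧ F ⊆ G ∪ τ} with hB
  have hBd : Down B := fun F ⟨G, a, b, c⟩ F' hF' => ⟨G, a, b, hF'.trans c⟩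
  have hD : Down (Ω ∪ B) := hΩ.union hBd
  have fixΩ : ∀ q ∈ Cn Ω, mn τ q = 0 ∧ fl τ σ q = q := fun q hq =>
    ⟨mn_zero hq.1 (hτ _ hq.2), fl_fix σ hq.1 (hτ _ hq.2)⟩
  have flB : ∀ q ∈ Cn B, fl τ σ q ∈ Cn K := fun q hq =>
    let ⟨_, a, b, c⟩ := hq.2; fl_mem h a b hq.1 c
  have flΩ : MapsTo (fl τ σ) (Cn (Ω ∪ B)) (Cn Ω) := by
    intro q hq
    rw [Cn_union] at hq
    rcases hq with hq | hq
    · rw [(fixΩ q hq).2]; exact hq
    · exact Cn_mono hK (flB q hq)
  have top : ∀ y ∈ Cn K0, Ψ' (y, len y) = π' y := by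
    intro y hy
    have a := hπ.mg hy
    have b := e1 _ a
    rw [hπ.fg y hy] at b
    rw [← b, hΨ.gf _ (Cn_mono hK a)]
  have hm0 : ∀ y ∈ Cn K0, 0 ≤ mn σ (π' y) := fun y hy => mn_nonneg σ (hπ.mg hy).1
  -- the upper part of the new cylinder
  have upper : ∀ y ∈ Cn K0, ∀ s : ℝ, 0 < s → s ≤ mn σ (π' y) →
      π' y + s • (ind τ - ind σ) ∈ Cn B ∧ mn τ (π' y + s • (ind τ - ind σ)) = s ∧
        fl τ σ (π' y + s • (ind τ - ind σ)) = π' y := by
    intro y hy s hs hs'
    have a := hπ.mg hy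
    have hσ : σ ⊆ supp (π' y) := sub_of_mn_pos (hs.trans_le hs')
    have m : mn τ (π' y + s • (ind τ - ind σ)) = s := by
      rw [mn_add (p := π' y) (c := s) h.nτ fun v hv => by
        simp [ind, hv, show v ∉ σ from fun b => hd b hv], mn_zero a.1 (h.new _ a.2), zero_add]
    refine ⟨⟨fun v => ?_, _, a.2, hσ, fun v hv => ?_⟩, m, ?_⟩
    · have := a.1 v
      by_cases b : v ∈ σ
      · have := mn_le (π' y) b
        simp [ind, b, hd b]; linarith
      · by_cases c : v ∈ τ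
        · simp [ind, b, c]; linarith
        · simpa [ind, b, c] using this
    · by_cases c : v ∈ τ
      · exact Finset.mem_union_right _ c
      · by_cases b : v ∈ σ
        · exact Finset.mem_union_left _ (hσ b)
        · exact Finset.mem_union_left _ (by simpa [ind, b, c] using hv)
    · rw [fl, m]
      module
  have hmin : ∀ q : (V → ℝ) × ℝ, q.1 ∈ Cn K0 → 0 ≤ q.2 →
      (q.1, min q.2 (len q.1)) ∈ {q : (V → ℝ) × ℝ | q.1 ∈ Cn K0 ∧ 0 ≤ q.2 ∧ q.2 ≤ len q.1} :=
    fun q a b => ⟨a, le_min b (hl0 _ a), min_le_right _ _⟩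
  refine ⟨fun q => Ψ (fl τ σ q) + (0, mn τ q),
    fun q => Ψ' (q.1, min q.2 (len q.1)) + max (q.2 - len q.1) 0 • (ind τ - ind σ),
    fun p => π (fl τ σ p), fun y => fl σ τ (π' y), fun y => len y + mn σ (π' y),
    ⟨?_, ?_, ?_, ?_, ?_, ?_, hD.smul, ?_⟩, h.hh.symm.trans hπ,
    hlc.add ((continuous_mn σ).comp_continuousOn hπ.cg),
    fun y hy => add_nonneg (hl0 y hy) (hm0 y hy), fun y hy t ht => ?_,
    hK0.trans subset_union_left, ?_, fun y hy => ?_, fun p hp => ?_⟩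
  · exact (hΨ.cf.comp (continuous_fl τ σ).continuousOn flΩ).add
      (continuous_const.prodMk (continuous_mn τ)).continuousOn
  · have hl : ContinuousOn (fun q : (V → ℝ) × ℝ => len q.1)
        {q | q.1 ∈ Cn K0 ∧ 0 ≤ q.2 ∧ q.2 ≤ len q.1 + mn σ (π' q.1)} :=
      hlc.comp continuousOn_fst fun _ hq => hq.1
    refine (hΨ.cg.comp (continuousOn_fst.prodMk (continuousOn_snd.inf hl))
      fun q hq => hmin q hq.1 hq.2.1).add ?_
    exact ((continuousOn_snd.sub hl).sup continuousOn_const).smul continuousOn_const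
  · intro q hq
    rw [Cn_union] at hq
    rcases hq with hq | hq
    · obtain ⟨a, b⟩ := fixΩ q hq
      obtain ⟨c1, c2, c3⟩ := hΨ.mf hq
      simp only [a, b, mem_ofPred_eq, Prod.fst_add, Prod.snd_add, add_zero]
      exact ⟨c1, c2, c3.trans (le_add_of_nonneg_right (hm0 _ c1))⟩
    · have a := flB q hq
      have b := hπ.mf a
      simp only [e1 _ a, mem_ofPred_eq, Prod.fst_add, Prod.snd_add, add_zero, hπ.gf _ a,
        mn_fl h.disj h.nσ]
      exact ⟨b, add_nonneg (hl0 _ b) (mn_nonneg τ hq.1), by linarith [mn_nonneg σ hq.1]⟩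
  · rintro ⟨y, t⟩ ⟨hy, ht, ht'⟩
    rw [Cn_union]
    rcases le_or_gt t (len y) with c | c
    · left
      simp only [max_eq_right (sub_nonpos.2 c), zero_smul, add_zero]
      exact hΨ.mg (hmin (y, t) hy ht)
    · right
      simp only [max_eq_left (sub_pos.2 c).le, min_eq_right c.le, top y hy]
      exact (upper y hy _ (sub_pos.2 c) (by dsimp only at ht'; linarith)).1
  · intro q hq
    rw [Cn_union] at hq
    rcases hq with hq | hq
    · obtain ⟨a, b⟩ := fixΩ q hq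
      obtain ⟨c1, c2, c3⟩ := hΨ.mf hq
      simp only [a, b, Prod.fst_add, Prod.snd_add, add_zero, min_eq_left c3,
        max_eq_right (sub_nonpos.2 c3), zero_smul, Prod.mk.eta, hΨ.gf q hq]
    · have a := flB q hq
      have b := hπ.mf a
      have c := mn_nonneg τ hq.1
      simp only [e1 _ a, Prod.fst_add, Prod.snd_add, add_zero,
        min_eq_right (le_add_of_nonneg_right c), add_sub_cancel_left, max_eq_left c, top _ b,
        hπ.gf _ a]
      rw [fl]
      module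
  · rintro ⟨y, t⟩ ⟨hy, ht, ht'⟩
    rcases le_or_gt t (len y) with c | c
    · have a := hΨ.mg (hmin (y, t) hy ht)
      simp only [min_eq_left c] at a
      obtain ⟨a1, a2⟩ := fixΩ _ a
      simp only [max_eq_right (sub_nonpos.2 c), zero_smul, add_zero, min_eq_left c, a1, a2]
      rw [hΨ.fg _ ⟨hy, ht, c⟩]
      simp
    · obtain ⟨-, a1, a2⟩ := upper y hy _ (sub_pos.2 c) (by dsimp only at ht'; linarith)
      simp only [max_eq_left (sub_pos.2 c).le, min_eq_right c.le, top y hy, a1, a2,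
        e1 _ (hπ.mg hy), hπ.fg y hy]
      simp
  · intro q hq t ht
    simp only [fl_smul τ σ q ht, hΨ.hf _ (flΩ hq) t ht, mn_smul τ q ht, smul_add, Prod.smul_mk,
      smul_zero, smul_eq_mul]
  · simp only [hls y hy t ht, hπ.symm.hf y hy t ht, mn_smul σ _ ht, mul_add]
  · rintro F ⟨-, a | ⟨a, b⟩⟩
    · exact Or.inl (hK a)
    · obtain ⟨t, ht⟩ := h.nτ
      refine Or.inr ⟨_, b t ht, fun v hv => Finset.mem_erase.2
        ⟨fun e => hd hv (e ▸ ht), Finset.mem_union_right _ hv⟩, fun v hv => ?_⟩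
      by_cases e : v = t
      · exact Finset.mem_union_right _ (e ▸ ht)
      · exact Finset.mem_union_left _ (Finset.mem_erase.2 ⟨e, Finset.mem_union_left _ hv⟩)
  · obtain ⟨a, b⟩ := fixΩ y (Cn_mono hK0 hy)
    simp [a, b, e0 y hy]
  · have a := h.hh.mg hp
    simp only [e1 _ a, hπ.gf _ a, mn_fl h.disj h.nσ, mn_zero hp.1 hp.2.1]
    simp

end ArcAux

theorem arcStmt : ArcStmt := fun _ _ _ =>
  ⟨fun _ hK => ArcAux.base hK, fun _ _ _ _ _ hA h hΩ hτ => ArcAux.step hA h hΩ hτ⟩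

end Pool.Agent.MP_6a6613_co

end

section

/-! Gluing six pinched cylinders into an open book. -/

namespace Pool.Agent.MP_6a6613_co

open Set Filter Topology

namespace BookAux

theorem cont_frac {E : Type} [TopologicalSpace E] {S : Set E} {u v w : E → ℝ}
    (hu : ContinuousOn u S) (hv : ContinuousOn v S) (hw : ContinuousOn w S)
    (h0 : ∀ x ∈ S, 0 ≤ u x) (h1 : ∀ x ∈ S, u x ≤ w x) (h2 : ∀ x ∈ S, w x = 0 → v x = 0) :
    ContinuousOn (fun x => u x * v x / w x) S := by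
  intro x hx
  by_cases e : w x = 0
  · have a : Tendsto (fun y => |v y|) (𝓝[S] x) (𝓝 0) := by
      have := (hv x hx).abs
      rwa [ContinuousWithinAt, h2 x hx e, abs_zero] at this
    rw [ContinuousWithinAt, e, div_zero]
    refine squeeze_zero_norm' ?_ a
    filter_upwards [self_mem_nhdsWithin] with y hy
    have b := h0 y hy
    have c := h1 y hy
    rw [Real.norm_eq_abs, mul_comm, mul_div_assoc, abs_mul]
    refine mul_le_of_le_one_right (abs_nonneg _) ?_
    rw [abs_of_nonneg (div_nonneg b (b.trans c))]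
    exact div_le_one_of_le₀ c (b.trans c)
  · exact ((hu x hx).mul (hv x hx)).div (hw x hx) e

theorem frac_bounds {u v w : ℝ} (h0 : 0 ≤ u) (h1 : u ≤ w) (hv : 0 ≤ v) :
    0 ≤ u * v / w ∧ u * v / w ≤ v := by
  refine ⟨div_nonneg (mul_nonneg h0 hv) (h0.trans h1), ?_⟩
  rw [mul_comm, mul_div_assoc]
  exact mul_le_of_le_one_right hv (div_le_one_of_le₀ h1 (h0.trans h1))

variable {V : Type} [Fintype V]

/-- The Alexander trick on a quadrant bundle. -/
noncomputable def alex (ϱ : (V → ℝ) × ℝ → (V → ℝ) × ℝ) (x : (V → ℝ) × ℝ × ℝ) :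
    (V → ℝ) × ℝ × ℝ :=
  ((ϱ (x.1, x.2.2 - min x.2.1 x.2.2)).1, x.2.1,
    min x.2.1 x.2.2 + (ϱ (x.1, x.2.2 - min x.2.1 x.2.2)).2)

omit [Fintype V] in
theorem alex_low {ϱ : (V → ℝ) × ℝ → (V → ℝ) × ℝ} {x : (V → ℝ) × ℝ × ℝ}
    (h : ϱ (x.1, 0) = (x.1, 0)) (hx : x.2.2 ≤ x.2.1) : alex ϱ x = x := by
  simp [alex, min_eq_right hx, h]

omit [Fintype V] in
theorem alex_aux {A : Set (V → ℝ)} {ϱ ϱ' : (V → ℝ) × ℝ → (V → ℝ) × ℝ}
    (h : HH ϱ ϱ' (A ×ˢ Ici (0 : ℝ)) (A ×ˢ Ici (0 : ℝ))) (hfix : ∀ a ∈ A, ϱ (a, 0) = (a, 0)) :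
    ContinuousOn (alex ϱ) (A ×ˢ Ici (0 : ℝ) ×ˢ Ici (0 : ℝ)) ∧
    MapsTo (alex ϱ) (A ×ˢ Ici (0 : ℝ) ×ˢ Ici (0 : ℝ)) (A ×ˢ Ici (0 : ℝ) ×ˢ Ici (0 : ℝ)) ∧
    ∀ x ∈ A ×ˢ Ici (0 : ℝ) ×ˢ Ici (0 : ℝ), alex ϱ' (alex ϱ x) = x := by
  have m : ∀ x ∈ A ×ˢ Ici (0 : ℝ) ×ˢ Ici (0 : ℝ),
      (x.1, x.2.2 - min x.2.1 x.2.2) ∈ A ×ˢ Ici (0 : ℝ) :=
    fun x hx => ⟨hx.1, mem_Ici.2 (sub_nonneg.2 (min_le_right x.2.1 x.2.2))⟩
  have c : ContinuousOn (fun x : (V → ℝ) × ℝ × ℝ => ϱ (x.1, x.2.2 - min x.2.1 x.2.2))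
      (A ×ˢ Ici (0 : ℝ) ×ˢ Ici (0 : ℝ)) := h.cf.comp (by fun_prop) m
  refine ⟨c.fst.prodMk (ContinuousOn.prodMk (by fun_prop)
      (ContinuousOn.add (by fun_prop) c.snd)),
    fun x hx => ⟨(h.mf (m x hx)).1, hx.2.1,
      mem_Ici.2 (add_nonneg (le_min (mem_Ici.1 hx.2.1) (mem_Ici.1 hx.2.2))
        (mem_Ici.1 (h.mf (m x hx)).2))⟩, fun x hx => ?_⟩
  rcases le_total x.2.2 x.2.1 with e | e
  · rw [alex_low (hfix _ hx.1) e]
    refine alex_low ?_ e
    have := h.gf (x.1, 0) ⟨hx.1, le_refl (0 : ℝ)⟩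
    rwa [hfix _ hx.1] at this
  · have a := m x hx
    have b : 0 ≤ (ϱ (x.1, x.2.2 - min x.2.1 x.2.2)).2 := (h.mf a).2
    have d := h.gf _ a
    rw [min_eq_left e] at b d
    simp only [alex, min_eq_left e, min_eq_left (le_add_of_nonneg_right b), add_sub_cancel_left,
      Prod.mk.eta, d, add_sub_cancel]

omit [Fintype V] in
theorem alex_hh {A : Set (V → ℝ)} {ϱ ϱ' : (V → ℝ) × ℝ → (V → ℝ) × ℝ}
    (h : HH ϱ ϱ' (A ×ˢ Ici (0 : ℝ)) (A ×ˢ Ici (0 : ℝ))) (hfix : ∀ a ∈ A, ϱ (a, 0) = (a, 0)) :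
    HH (alex ϱ) (alex ϱ') (A ×ˢ Ici (0 : ℝ) ×ˢ Ici (0 : ℝ))
      (A ×ˢ Ici (0 : ℝ) ×ˢ Ici (0 : ℝ)) := by
  have hfix' : ∀ a ∈ A, ϱ' (a, 0) = (a, 0) := fun a ha => by
    have := h.gf (a, 0) ⟨ha, le_refl (0 : ℝ)⟩
    rwa [hfix a ha] at this
  obtain ⟨a1, a2, a3⟩ := alex_aux h hfix
  obtain ⟨b1, b2, b3⟩ := alex_aux h.symm hfix'
  refine ⟨a1, b1, a2, b2, a3, b3, fun x hx t ht => ⟨(h.sX (x.1, 0) ⟨hx.1, le_refl (0 : ℝ)⟩ t ht).1,
    mul_nonneg ht hx.2.1, mul_nonneg ht hx.2.2⟩, fun x hx t ht => ?_⟩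
  have e : ((t • x).1, (t • x).2.2 - min (t • x).2.1 (t • x).2.2) =
      t • (x.1, x.2.2 - min x.2.1 x.2.2) := by
    simp [mul_min_of_nonneg _ _ ht, mul_sub]
  have f := h.hf (x.1, x.2.2 - min x.2.1 x.2.2)
    ⟨hx.1, mem_Ici.2 (sub_nonneg.2 (min_le_right x.2.1 x.2.2))⟩ t ht
  simp only [alex]
  rw [e, f]
  simp [mul_min_of_nonneg _ _ ht, mul_add]

theorem quad {A' K0 Ω K : Set (Finset V)} (hA : Arc K0 Ω K) (hK : K0 ∩ K ⊆ A')
    {b0 b1 : (V → ℝ) → (V → ℝ) × ℝ} {c0 c1 : (V → ℝ) × ℝ → (V → ℝ)}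
    (h0 : HH b0 c0 (Cn K0) (Cn A' ×ˢ Ici (0 : ℝ))) (f0 : ∀ p ∈ Cn A', p ∈ Cn K0 ∧ b0 p = (p, 0))
    (h1 : HH b1 c1 (Cn K) (Cn A' ×ˢ Ici (0 : ℝ))) (f1 : ∀ p ∈ Cn A', p ∈ Cn K ∧ b1 p = (p, 0)) :
    ∃ k k', HH k k' (Cn Ω) (Cn A' ×ˢ Ici (0 : ℝ) ×ˢ Ici (0 : ℝ)) ∧
      (∀ y ∈ Cn K0, y ∈ Cn Ω ∧ k y = ((b0 y).1, (b0 y).2, 0)) ∧
      ∀ p ∈ Cn K, p ∈ Cn Ω ∧ k p = ((b1 p).1, 0, (b1 p).2) := by
  obtain ⟨Ψ, Ψ', π, π', len, hΨ, hπ, hlc, hl0, hls, hK0, hK1, e0, e1⟩ := hA
  have g1 : ∀ y ∈ Cn A', π y = y ∧ len y = 0 := by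
    intro y hy
    have a := (e0 y (f0 y hy).1).symm.trans (e1 y (f1 y hy).1)
    have b : π y = y := (congrArg Prod.fst a).symm
    have c : len (π y) = 0 := (congrArg Prod.snd a).symm
    exact ⟨b, b ▸ c⟩
  have g2 : ∀ y ∈ Cn K0, len y = 0 → (b0 y).2 = 0 := by
    intro y hy hl
    have a := hπ.mg hy
    have b := e1 _ a
    rw [hπ.fg y hy, hl, ← e0 y hy] at b
    have c := hΨ.inj (Cn_mono hK1 a) (Cn_mono hK0 hy) b
    rw [c] at a
    rw [(f0 y ⟨hy.1, hK ⟨hy.2, a.2⟩⟩).2]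
  have g3 : ∀ a ∈ Cn A', c0 (a, 0) = a := fun a ha => by
    have := h0.gf a (f0 a ha).1
    rwa [(f0 a ha).2] at this
  have g4 : ∀ y ∈ Cn K0, (b0 y).2 = 0 → len y = 0 := by
    intro y hy hb
    have a := h0.gf y hy
    have b := (h0.mf hy).1
    rw [show b0 y = ((b0 y).1, 0) from Prod.ext rfl hb, g3 _ b] at a
    exact (g1 y (a ▸ b)).2
  set T : Set ((V → ℝ) × ℝ) := {q | q.1 ∈ Cn K0 ∧ 0 ≤ q.2 ∧ q.2 ≤ len q.1} with hT
  let k0 : (V → ℝ) × ℝ → (V → ℝ) × ℝ × ℝ := fun q =>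
    ((b0 q.1).1, (b0 q.1).2 - q.2 * (b0 q.1).2 / len q.1, q.2 * (b0 q.1).2 / len q.1)
  let k0' : (V → ℝ) × ℝ × ℝ → (V → ℝ) × ℝ := fun x =>
    (c0 (x.1, x.2.1 + x.2.2), x.2.2 * len (c0 (x.1, x.2.1 + x.2.2)) / (x.2.1 + x.2.2))
  have m : ∀ x ∈ Cn A' ×ˢ Ici (0 : ℝ) ×ˢ Ici (0 : ℝ),
      (x.1, x.2.1 + x.2.2) ∈ Cn A' ×ˢ Ici (0 : ℝ) :=
    fun x hx => ⟨hx.1, mem_Ici.2 (add_nonneg (mem_Ici.1 hx.2.1) (mem_Ici.1 hx.2.2))⟩
  have hk0 : HH k0 k0' T (Cn A' ×ˢ Ici (0 : ℝ) ×ˢ Ici (0 : ℝ)) := by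
    refine ⟨?_, ?_, ?_, ?_, ?_, ?_, hΨ.symm.sX, ?_⟩
    · have cb : ContinuousOn (fun q : (V → ℝ) × ℝ => b0 q.1) T :=
        h0.cf.comp continuousOn_fst fun _ hq => hq.1
      have cθ := cont_frac (S := T) continuousOn_snd cb.snd
        (hlc.comp continuousOn_fst fun _ hq => hq.1) (fun _ hq => hq.2.1) (fun _ hq => hq.2.2)
        fun q hq => g2 _ hq.1
      exact cb.fst.prodMk ((cb.snd.sub cθ).prodMk cθ)
    · have cc : ContinuousOn (fun x : (V → ℝ) × ℝ × ℝ => c0 (x.1, x.2.1 + x.2.2))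
          (Cn A' ×ˢ Ici (0 : ℝ) ×ˢ Ici (0 : ℝ)) := h0.cg.comp (by fun_prop) m
      refine cc.prodMk (cont_frac (by fun_prop) (hlc.comp cc fun x hx => h0.mg (m x hx))
        (by fun_prop) (fun _ hx => hx.2.2) (fun _ hx => le_add_of_nonneg_left hx.2.1)
        fun x hx e => ?_)
      rw [e, g3 _ hx.1]
      exact (g1 _ hx.1).2
    · intro q hq
      obtain ⟨a, b⟩ := frac_bounds hq.2.1 hq.2.2 (h0.mf hq.1).2
      exact ⟨(h0.mf hq.1).1, sub_nonneg.2 b, a⟩
    · intro x hx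
      have a := h0.mg (m x hx)
      exact ⟨a, frac_bounds hx.2.2 (le_add_of_nonneg_left hx.2.1) (hl0 _ a)⟩
    · rintro ⟨y, t⟩ ⟨hy, ht, ht'⟩
      dsimp only at hy ht ht'
      simp only [k0, k0', sub_add_cancel, Prod.mk.eta, h0.gf y hy]
      congr 1
      by_cases e : len y = 0
      · have : t = 0 := le_antisymm (e ▸ ht') ht
        simp [this]
      · have e' : (b0 y).2 ≠ 0 := fun a => e (g4 y hy a)
        field_simp
    · rintro ⟨a, r, r'⟩ hx
      have hr : 0 ≤ r := hx.2.1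
      have hr' : 0 ≤ r' := hx.2.2
      have b := h0.fg _ (m _ hx)
      have c := h0.mg (m _ hx)
      dsimp only at b c
      have d : r' * len (c0 (a, r + r')) / (r + r') * (r + r') / len (c0 (a, r + r')) = r' := by
        by_cases e : r + r' = 0
        · have : r' = 0 := by linarith
          simp [this]
        · have e' : len (c0 (a, r + r')) ≠ 0 := fun z => e (by simpa [b] using g2 _ c z)
          field_simp
      simp only [k0, k0', b, d, add_sub_cancel_right]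
    · rintro ⟨y, t⟩ ⟨hy, -, -⟩ s hs
      dsimp only at hy
      have d : s * t * (s * (b0 y).2) / (s * len y) = s * (t * (b0 y).2 / len y) := by
        rcases hs.eq_or_lt with e | e
        · simp [← e]
        · rw [mul_assoc, mul_div_mul_left _ _ e.ne']
          ring
      simp only [k0, Prod.smul_mk, smul_eq_mul, h0.hf y hy s hs, hls y hy s hs, Prod.smul_fst,
        Prod.smul_snd, d, mul_sub]
  have hϱ := (h0.symm.trans hπ.symm).trans h1
  have hfix : ∀ a ∈ Cn A', b1 (π' (c0 (a, 0))) = (a, 0) := by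
    intro a ha
    have b := hπ.gf a (f1 a ha).1
    rw [(g1 a ha).1] at b
    rw [g3 a ha, b, (f1 a ha).2]
  refine ⟨_, _, (hΨ.trans hk0).trans (alex_hh hϱ hfix), fun y hy => ⟨Cn_mono hK0 hy, ?_⟩,
    fun p hp => ⟨Cn_mono hK1 hp, ?_⟩⟩
  · simp only [e0 y hy, k0, zero_mul, zero_div, sub_zero]
    exact alex_low (hfix _ (h0.mf hy).1) (h0.mf hy).2
  · have a := hπ.mf hp
    have d : len (π p) * (b0 (π p)).2 / len (π p) = (b0 (π p)).2 := by
      by_cases e : len (π p) = 0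
      · simp [g2 _ a e]
      · field_simp
    have z : 0 ≤ (b0 (π p)).2 := (h0.mf a).2
    simp only [e1 p hp, k0, d, sub_self, alex, min_eq_left z, sub_zero, Prod.mk.eta, h0.gf _ a,
      hπ.gf p hp, zero_add]

theorem succ_ne (k : Fin 6) : k + 1 ≠ k := by revert k; decide

/-- The embedding of a quadrant as a sector of the cone over the hexagon. -/
noncomputable def emb (k : Fin 6) (x : (V → ℝ) × ℝ × ℝ) : (V → ℝ) × (Fin 6 → ℝ) :=
  (x.1, fun l => (if l = k then x.2.1 else 0) + if l = k + 1 then x.2.2 else 0)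

omit [Fintype V] in
theorem emb_hh {A : Set (V → ℝ)} (hA : ∀ a ∈ A, ∀ t : ℝ, 0 ≤ t → t • a ∈ A) (k : Fin 6) :
    HH (emb k) (fun y => (y.1, y.2 k, y.2 (k + 1))) (A ×ˢ Ici (0 : ℝ) ×ˢ Ici (0 : ℝ))
      (A ×ˢ Cn {T | T ⊆ {k, k + 1}}) := by
  have n1 := succ_ne k
  refine ⟨?_, by fun_prop, fun x hx => ⟨hx.1, fun l => ?_, fun l hl => ?_⟩,
    fun y hy => ⟨hy.1, hy.2.1 _, hy.2.1 _⟩, fun x _ => ?_, fun y hy => ?_,
    fun x hx t ht => ⟨hA _ hx.1 t ht, mul_nonneg ht hx.2.1, mul_nonneg ht hx.2.2⟩,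
    fun x _ t _ => ?_⟩
  · refine continuousOn_fst.prodMk (continuousOn_pi.2 fun l => ?_)
    split_ifs <;> fun_prop
  · have a : 0 ≤ x.2.1 := hx.2.1
    have b : 0 ≤ x.2.2 := hx.2.2
    simp only [emb]
    split_ifs <;> linarith
  · rw [mem_supp] at hl
    by_contra e
    simp only [Finset.mem_insert, Finset.mem_singleton, not_or] at e
    exact hl (by simp [emb, e.1, e.2])
  · simp [emb, n1, n1.symm]
  · refine Prod.ext rfl (funext fun l => ?_)
    by_cases e : l = k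
    · simp [emb, e, n1.symm]
    · by_cases e' : l = k + 1
      · simp [emb, e', n1]
      · have : y.2 l = 0 := by
          by_contra z
          have := hy.2.2 (mem_supp.2 z)
          simp [e, e'] at this
        simp [emb, e, e', this]
  · refine Prod.ext rfl (funext fun l => ?_)
    simp [emb, mul_add]

end BookAux

open BookAux in
theorem bookStmt : BookStmt := by
  intro V _ _ A' P Ω dA dP dΩ hB hArc hPP hΩP hΩA
  choose b c hb fb using hB
  choose q q' hq q0 q1 using fun k =>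
    quad (hArc k) (hPP k) (hb k) (fb k) (hb (k + 1)) (fb (k + 1))
  have dY : ∀ k : Fin 6, Down {T : Finset (Fin 6) | T ⊆ {k, k + 1}} :=
    fun k F hF G hG => hG.trans hF
  have hh := fun k => (hq k).trans (emb_hh dA.smul k)
  have page : ∀ k, ∀ x ∈ Cn (P (k + 1)), emb k (q k x) = emb (k + 1) (q (k + 1) x) := by
    intro k x hx
    simp [emb, (q1 k x hx).2, (q0 (k + 1) x hx).2]
  have spine : ∀ k, ∀ x ∈ Cn A', x ∈ Cn (Ω k) ∧ emb k (q k x) = (x, 0) := by
    intro k x hx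
    obtain ⟨a1, a2⟩ := fb k x hx
    exact ⟨(q0 k x a1).1, by simp [emb, (q0 k x a1).2, a2, Pi.zero_def]⟩
  have cases6 : ∀ i k : Fin 6, k = i ∨ k = i + 1 ∨ i = k + 1 ∨
      (k ≠ i ∧ k ≠ i + 1 ∧ i ≠ k + 1) := by decide
  have int1 : ∀ (k l : Fin 6), l ∈ ({k, k + 1} : Finset (Fin 6)) →
      l ∈ ({k + 1, k + 1 + 1} : Finset (Fin 6)) → l = k + 1 := by decide
  have int0 : ∀ (i k l : Fin 6), k ≠ i → k ≠ i + 1 → i ≠ k + 1 →
      l ∈ ({i, i + 1} : Finset (Fin 6)) → l ∉ ({k, k + 1} : Finset (Fin 6)) := by decide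
  have common : ∀ i k y, (∃ p, p ∈ Cn (Ω i) ∧ p ∈ Cn (Ω k) ∧ emb i (q i p) = y ∧
      emb k (q k p) = y) → q' i (y.1, y.2 i, y.2 (i + 1)) = q' k (y.1, y.2 k, y.2 (k + 1)) := by
    rintro i k y ⟨p, a1, a2, a3, a4⟩
    have b1 := (hh i).gf p a1
    have b2 := (hh k).gf p a2
    simp only [a3] at b1
    simp only [a4] at b2
    rw [b1, b2]
  have adj : ∀ k : Fin 6, ∀ y ∈ Cn A' ×ˢ Cn {T : Finset (Fin 6) | T ⊆ {k, k + 1}},
      y ∈ Cn A' ×ˢ Cn {T : Finset (Fin 6) | T ⊆ {k + 1, k + 1 + 1}} →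
      ∃ p, p ∈ Cn (Ω k) ∧ p ∈ Cn (Ω (k + 1)) ∧ emb k (q k p) = y ∧
        emb (k + 1) (q (k + 1) p) = y := by
    intro k y hy hy'
    have m : (y.1, y.2 (k + 1)) ∈ Cn A' ×ˢ Ici (0 : ℝ) := ⟨hy.1, hy.2.1 _⟩
    have a := (hb (k + 1)).mg m
    have e : emb (k + 1) (q (k + 1) (c (k + 1) (y.1, y.2 (k + 1)))) = y := by
      rw [(q0 _ _ a).2, (hb (k + 1)).fg _ m]
      refine Prod.ext rfl (funext fun l => ?_)
      by_cases z : l = k + 1
      · simp [emb, z]
      · have : y.2 l = 0 := by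
          by_contra w
          exact z (int1 k l (hy.2.2 (mem_supp.2 w)) (hy'.2.2 (mem_supp.2 w)))
        simp [emb, z, this]
    exact ⟨_, (q1 k _ a).1, (q0 _ _ a).1, (page k _ a).trans e, e⟩
  obtain ⟨F, G, hFG, hF, hG⟩ := HH.glue hh (fun k => (dΩ k).isClosed)
    (fun k => dA.isClosed.prod (dY k).isClosed)
    (fun i k x hi hk => by
      rcases cases6 i k with e | e | e | ⟨e1, e2, e3⟩
      · rw [e]
      · subst e
        exact page i x ⟨hi.1, hΩP i ⟨hi.2, hk.2⟩⟩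
      · subst e
        exact (page k x ⟨hi.1, hΩP k ⟨hk.2, hi.2⟩⟩).symm
      · have a : x ∈ Cn A' := ⟨hi.1, hΩA i k e1 e2 e3 ⟨hi.2, hk.2⟩⟩
        rw [(spine i x a).2, (spine k x a).2])
    (fun i k y hi hk => by
      rcases cases6 i k with e | e | e | ⟨e1, e2, e3⟩
      · rw [e]
      · subst e
        exact common _ _ y (adj i y hi hk)
      · subst e
        exact (common _ _ y (adj k y hk hi)).symm
      · have z : y = (y.1, 0) := by
          refine Prod.ext rfl (funext fun l => ?_)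
          by_contra w
          exact int0 i k l e1 e2 e3 (hi.2.2 (mem_supp.2 w)) (hk.2.2 (mem_supp.2 w))
        exact common i k y ⟨y.1, (spine i _ hi.1).1, (spine k _ hi.1).1,
          (spine i _ hi.1).2.trans z.symm, (spine k _ hi.1).2.trans z.symm⟩)
  have eY : (⋃ k : Fin 6, Cn A' ×ˢ Cn {T : Finset (Fin 6) | T ⊆ {k, k + 1}}) =
      Cn A' ×ˢ Cn C6 := by
    rw [← prod_iUnion, ← Cn_iUnion]
    congr 2
    ext T
    simp [C6]
  rw [← Cn_iUnion, eY] at hFG
  refine ⟨F, G, hFG, fun k p hp => ⟨fun a => ?_, fun a => ?_⟩⟩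
  · have a' : p ∈ Cn (Ω k) := ⟨hp.1, a⟩
    rw [hF k p a']
    exact ((hh k).mf a').2.2
  · have m := hFG.mf hp
    have m' : F p ∈ Cn A' ×ˢ Cn {T : Finset (Fin 6) | T ⊆ {k, k + 1}} := ⟨m.1, m.2.1, a⟩
    have := (hh k).mg m'
    rw [← hG k _ m', hFG.gf p hp] at this
    exact this.2

end Pool.Agent.MP_6a6613_co

end
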