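import Pool.Agent.Mg.F5cfbf6.G7bd427

section

set_option autoImplicit false

namespace Pool.Agent.MP_7791e4_an

open Set MeasureTheory Real Metric Filter Topology Pointwise

variable {a b : ℝ}

lemma circ_periodic (c : ℂ) (r : ℝ) : Function.Periodic (circ c r) (2 * π) := fun θ => by
  rw [circ_eq, circ_eq, ev_periodic θ]

lemma circ_sub (c : ℂ) (r x y : ℝ) : circ c r y - circ c r x
    = (2 * r * sin ((y - x) / 2)) • ev ((x + y) / 2 + π / 2) := by
  apply Complex.ext <;> simp only [circ, Complex.sub_re, Complex.sub_im, Complex.add_re,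
    Complex.add_im, Complex.smul_re, Complex.smul_im, smul_eq_mul, ev_re, ev_im,
    cos_add_pi_div_two, sin_add_pi_div_two, add_sub_add_left_eq_sub]
  · rw [← mul_sub, cos_sub_cos, add_comm y x]; ring
  · rw [← mul_sub, sin_sub_sin, add_comm y x]; ring

lemma cross_ev_half (θ : ℝ) (w : ℂ) : cross (ev (θ + π / 2)) w = -dot (ev θ) w := by
  simp only [cross, dot, ev_re, ev_im, cos_add_pi_div_two, sin_add_pi_div_two]; ring

lemma circ_ne (c : ℂ) {r x y : ℝ} (hr : 0 < r) (h : x < y) (h' : y < x + 2 * π) :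
    circ c r x ≠ circ c r y := fun e => pt_ne hr hr h h' (add_left_cancel e)

lemma ball_line (c : ℂ) {r x y : ℝ} (hr : 0 < r) (h : x < y) (h' : y < x + 2 * π) {z : ℂ}
    (hz : z ∈ closedBall c r) (h0 : cross (circ c r y - circ c r x) (z - circ c r x) = 0) :
    z ∈ segment ℝ (circ c r x) (circ c r y) := by
  have := on_line hr hr (B_pt_self hr hr x) (B_pt_self hr hr y) (pt_ne hr hr h h') (z := z - c)
    (by rw [ell_self hr, mem_closedBall_zero_iff, ← dist_eq_norm]; exact hz) (by
      rw [← h0]; simp only [circ, pt]; congr 1 <;> ring)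
  rw [← mem_segment_translate ℝ c, add_sub_cancel] at this
  exact this

lemma eq_ball_of_area {Y : Set ℂ} (hY : IsClosed Y) {c : ℂ} {r : ℝ} (hr : 0 < r)
    (h : Y ⊆ closedBall c r) (hA : π * r ^ 2 ≤ volume.real Y) : Y = closedBall c r := by
  refine subset_antisymm h ?_
  rw [← closure_ball c hr.ne']
  refine closure_minimal (fun z hz => ?_) hY
  by_contra hc
  have oW : IsOpen (ball c r \ Y) := isOpen_ball.sdiff hY
  have fB := (isCompact_closedBall c r).measure_lt_top (μ := volume)
  have fW : volume (ball c r \ Y) ≠ ⊤ :=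
    ((measure_mono (sdiff_subset.trans ball_subset_closedBall)).trans_lt fB).ne
  have h1 : 0 < volume.real (ball c r \ Y) :=
    ENNReal.toReal_pos (oW.measure_pos volume ⟨z, hz, hc⟩).ne' fW
  have h2 : volume.real (Y ∪ ball c r \ Y) ≤ volume.real (closedBall c r) :=
    measureReal_mono (union_subset h (sdiff_subset.trans ball_subset_closedBall)) fB.ne
  rw [measureReal_union disjoint_sdiff_right oW.measurableSet ((measure_mono h).trans_lt fB).ne fW,
    ar_closedBall c hr.le] at h2
  linarith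

lemma dido {c : ℂ} {r x y : ℝ} (hr : 0 < r) (h : x < y) (h' : y < x + 2 * π) {X : Set ℂ}
    (hX : IsCompact X) (cX : Convex ℝ X) (sX : X ⊆ HP (circ c r x) (circ c r y))
    (pX : circ c r x ∈ X) (qX : circ c r y ∈ X) (hA : volume.real (seg c r x y) ≤ volume.real X)
    (hp : per X ≤ per (seg c r x y)) : X = seg c r x y := by
  have hne := circ_ne c hr h h'
  have mB : ∀ θ, circ c r θ ∈ closedBall c r := fun θ => by
    rw [mem_closedBall, dist_eq_norm, norm_circ c hr.le]
  set G' := closedBall c r ∩ HP (circ c r y) (circ c r x) with hG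
  have kG : IsCompact G' := (isCompact_closedBall _ _).inter_right (isClosed_HP _ _)
  have kY := hX.union kG
  have nY : (X ∪ G').Nonempty := ⟨_, Or.inl pX⟩
  have a1 := ar_union hne hX kG sX inter_subset_right
  have a2 := ar_union hne (isCompact_seg c r x y) kG inter_subset_right inter_subset_right
  rw [seg, inter_HP_union, ar_closedBall c hr.le] at a2
  have a3 : π * r ^ 2 ≤ volume.real (X ∪ G') := by rw [seg] at hA; linarith
  have p1 := per_union_le hX kG pX qX ⟨mB _, right_mem_HP _ _⟩ ⟨mB _, left_mem_HP _ _⟩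
  have p2 := per_split (isCompact_closedBall c r) (convex_closedBall c r) (mB x)
    fun z hz h0 => ball_line c hr h h' hz h0
  rw [per_closedBall c hr.le] at p2
  obtain ⟨c', e⟩ := eq_disc (isCompact_cch kY) convex_closedConvexHull
    (nY.mono subset_closedConvexHull) hr
    (a3.trans (measureReal_mono subset_closedConvexHull (isCompact_cch kY).measure_lt_top.ne))
    (by rw [per_cch kY nY]; rw [seg] at hp; linarith)
  have e2 := eq_ball_of_area kY.isClosed hr (e ▸ subset_closedConvexHull) a3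
  have ec : c' = c := by
    set θ := (y + (x + 2 * π)) / 2 with hθ
    have k0 : 0 < 2 * r * sin ((x + 2 * π - y) / 2) := by
      have := sin_pos_of_pos_of_lt_pi (x := (x + 2 * π - y) / 2) (by linarith) (by linarith)
      positivity
    have cr : ∀ w, cross (circ c r x - circ c r y) w
        = -(2 * r * sin ((x + 2 * π - y) / 2)) * dot (ev θ) w := by
      intro w
      rw [← circ_periodic c r x, circ_sub, cross_anti, cross_smul, cross_anti, cross_ev_half]; ring
    have z1 := circ_chord_neg c hr (x := y) (y := x + 2 * π) (θ := θ) (by linarith) (by linarith)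
      (by linarith)
    rw [circ_periodic c r x] at z1
    have m1 : circ c r θ ∈ closedBall c' r := e2 ▸ Or.inr ⟨mB _, z1.le⟩
    have d1 := dot_ev_le θ (circ c r θ - c')
    rw [mem_closedBall, dist_eq_norm] at m1
    rw [dot_sub, dot_circ, sub_self, cos_zero] at d1
    have m2 : circ c' r θ ∈ X ∪ G' := by
      rw [e2, mem_closedBall, dist_eq_norm, norm_circ c' hr.le]
    rcases m2 with m2 | m2
    · have : cross _ _ ≤ 0 := sX m2
      rw [cross_flip, cr, dot_sub, dot_circ] at this
      rw [cr, dot_sub, dot_circ] at z1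
      nlinarith
    · have m3 := m2.1
      rw [mem_closedBall, dist_eq_norm, circ_eq, show c' + r • ev θ - c = (c' - c) + r • ev θ by ring]
        at m3
      have m4 := pow_le_pow_left₀ (norm_nonneg _) m3 2
      rw [← dot_self, add_dot, dot_add, dot_add, dot_self, dot_self, norm_smul, norm_ev,
        Real.norm_of_nonneg hr.le, dot_smul, smul_dot, dot_comm (c' - c), dot_sub] at m4
      have : ‖c' - c‖ ^ 2 ≤ 0 := by nlinarith
      exact sub_eq_zero.1 (norm_eq_zero.1 (pow_eq_zero_iff two_ne_zero |>.1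
        (le_antisymm this (sq_nonneg _))))
  rw [ec] at e2
  refine subset_antisymm (fun z hz => ⟨e2 ▸ Or.inl hz, sX hz⟩) fun z hz => ?_
  have : z ∈ X ∪ G' := e2 ▸ hz.1
  refine this.elim id fun k => cX.segment_subset pX qX (ball_line c hr h h' hz.1 ?_)
  have b1 : cross _ _ ≤ 0 := hz.2
  have b2 : cross _ _ ≤ 0 := k.2
  rw [cross_flip] at b2
  linarith

lemma exists_seg {P Q : ℂ} (hne : P ≠ Q) {A : ℝ} (A0 : 0 < A) :
    ∃ (c : ℂ) (r x y : ℝ), 0 < r ∧ x < y ∧ y < x + 2 * π ∧ circ c r x = P ∧ circ c r y = Q ∧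
      r ^ 2 / 2 * (y - x - sin (y - x)) = A := by
  have d0 : 0 < ‖Q - P‖ := norm_pos_iff.2 (sub_ne_zero.2 hne.symm)
  set d := ‖Q - P‖ with hd
  set ω1 := min 1 (2 * A / d ^ 2) with hω
  have o0 : 0 < ω1 := by positivity
  have o1 : ω1 ≤ 1 := min_le_left _ _
  have o2 : ω1 * d ^ 2 ≤ 2 * A := by rw [← le_div_iff₀ (by positivity)]; exact min_le_right _ _
  have p3 := pi_gt_three
  obtain ⟨ω, hω', e⟩ := intermediate_value_Ioo (a := ω1) (b := 2 * π) (by linarith)
    (f := fun ω => d ^ 2 * (ω - sin ω) - 8 * A * sin (ω / 2) ^ 2) (by fun_prop)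
    (show (0:ℝ) ∈ _ from ⟨by
      have s1 := sin_gt_sub_cube o0
      have s2 := sin_gt_sub_cube (x := ω1 / 2) (by linarith)
      have s3 : ω1 / 4 ≤ sin (ω1 / 2) := by nlinarith [mul_pos o0 o0]
      have s4 := pow_le_pow_left₀ (by positivity) s3 2
      have s5 : d ^ 2 * (ω1 - sin ω1) < d ^ 2 * (ω1 ^ 3 / 6) :=
        mul_lt_mul_of_pos_left (by linarith) (by positivity)
      nlinarith [mul_le_mul_of_nonneg_left o2 (sq_nonneg ω1), mul_le_mul_of_nonneg_left s4 A0.le,
        mul_pos A0 (mul_pos o0 o0)], by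
      simp only [sin_two_pi, mul_div_cancel_left₀ π two_ne_zero, sin_pi]
      simp; positivity⟩)
  have s0 := sin_pos_of_pos_of_lt_pi (x := ω / 2) (by linarith [hω'.1]) (by linarith [hω'.2])
  set r := d / (2 * sin (ω / 2)) with hr
  set θ := Complex.arg (Q - P) - π / 2 with hθ
  have e1 : circ (P - r • ev (θ - ω / 2)) r (θ - ω / 2) = P := by rw [circ_eq]; ring
  refine ⟨P - r • ev (θ - ω / 2), r, θ - ω / 2, θ + ω / 2, by positivity, by linarith [hω'.1],
    by linarith [hω'.2], e1, ?_, ?_⟩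
  · have := circ_sub (P - r • ev (θ - ω / 2)) r (θ - ω / 2) (θ + ω / 2)
    rw [e1, show (θ + ω / 2 - (θ - ω / 2)) / 2 = ω / 2 by ring,
      show (θ - ω / 2 + (θ + ω / 2)) / 2 + π / 2 = Complex.arg (Q - P) by rw [hθ]; ring,
      show 2 * r * sin (ω / 2) = d by rw [hr]; field_simp, hd, ← eq_smul_ev] at this
    exact sub_left_injective this
  · rw [show θ + ω / 2 - (θ - ω / 2) = ω by ring, hr]
    simp only at e
    field_simp
    linarith

end Pool.Agent.MP_7791e4_an

end

section

set_option autoImplicit false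

namespace Pool.Agent.MP_7791e4_an

open Set MeasureTheory Real Metric Filter Topology Pointwise

variable {a b : ℝ}

structure Cf (a b s t : ℝ) (c : ℂ) (r x y : ℝ) : Prop where
  hb : 0 < b
  hab : b ≤ a
  st : s < t
  ts : t < s + π
  r0 : 0 < r
  xy : x < y
  yx : y < x + 2 * π
  eP : circ c r x = pt a b t
  eQ : circ c r y = pt a b s
  int : ∀ θ ∈ Ioo x y, circ c r θ ∈ interior (ell a b)
  nz : x + y = 2 * ph a b ((s + t) / 2) + 2 * π

/-- the region bounded by an arc of the ellipse and a circular arc. -/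
def KK (a b s t : ℝ) (c : ℂ) (r x y : ℝ) : Set ℂ := cap a b s t ∪ seg c r x y

lemma norm_angle (ha : 0 < a) (hb : 0 < b) {s t : ℝ} {c : ℂ} {r x y : ℝ} (st : s < t)
    (ts : t < s + 2 * π) (r0 : 0 < r) (xy : x < y) (yx : y < x + 2 * π)
    (eP : circ c r x = pt a b t) (eQ : circ c r y = pt a b s) :
    ∃ n : ℤ, (x + n * (2 * π)) + (y + n * (2 * π)) = 2 * ph a b ((s + t) / 2) + 2 * π := by
  have e1 := circ_sub c r x y
  have e2 := pt_sub ha hb s t
  rw [tg_eq ha hb, smul_smul] at e2
  have n0 := nu_pt_pos ha hb ((s + t) / 2)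
  have s1 := sin_pos_of_pos_of_lt_pi (x := (y - x) / 2) (by linarith) (by linarith)
  have s2 := sin_pos_of_pos_of_lt_pi (x := (t - s) / 2) (by linarith) (by linarith)
  set k1 := 2 * r * sin ((y - x) / 2)
  set k2 := 2 * sin ((t - s) / 2) * (a * b * ‖nu a b (pt a b ((s + t) / 2))‖)
  have p1 : 0 < k1 := by positivity
  have p2 : 0 < k2 := by positivity
  have e3 : k1 • ev ((x + y) / 2 + π / 2) = k2 • ev (ph a b ((s + t) / 2) + π / 2 + π) := by
    rw [← e1, eP, eQ, ev_add_pi, smul_neg, ← e2, neg_sub]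
  have e4 := congrArg norm e3
  rw [norm_smul, norm_smul, norm_ev, norm_ev, Real.norm_of_nonneg p1.le,
    Real.norm_of_nonneg p2.le, mul_one, mul_one] at e4
  rw [e4] at e3
  have e5 := smul_right_injective ℂ p2.ne' e3
  have e6 := dot_ev_ev (ph a b ((s + t) / 2) + π / 2 + π) ((x + y) / 2 + π / 2)
  rw [e5, dot_ev_ev, sub_self, cos_zero] at e6
  obtain ⟨n, hn⟩ := (cos_eq_one_iff _).1 e6.symm
  exact ⟨n, by linarith⟩

lemma hs_dir {K : Set ℂ} (hK : IsCompact K) (nK : K.Nonempty) {t : ℝ} (ht : 0 ≤ t) (u : ℂ) :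
    hs K (t • u) = t * hs K u := by
  obtain ⟨z, hz, e⟩ := exists_hs hK nK u
  apply le_antisymm
  · exact hs_le nK fun w hw => by
      rw [smul_dot]; exact mul_le_mul_of_nonneg_left (le_hs hK hw u) ht
  · rw [← e, ← smul_dot]; exact le_hs hK hz _

lemma B_eq_dot (u : ℝ) (z : ℂ) :
    B a b (pt a b u) z = ‖nu a b (pt a b u)‖ * dot (ev (ph a b u)) z := by
  rw [← dot_nu, ← smul_dot, ← nu_eq]

lemma ell_supp (ha : 0 < a) (hb : 0 < b) (u : ℝ) {z : ℂ} (hz : z ∈ ell a b) :
    dot (ev (ph a b u)) z ≤ dot (ev (ph a b u)) (pt a b u) := by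
  have h := B_le_one (pt_mem ha hb u) hz
  rw [← B_pt_self ha hb u, B_eq_dot, B_eq_dot] at h
  exact le_of_mul_le_mul_left h (nu_pt_pos ha hb u)

lemma ell_supp' (ha : 0 < a) (hb : 0 < b) (u : ℝ) {z : ℂ} (hz : z ∈ ell a b) (h : z ≠ pt a b u) :
    dot (ev (ph a b u)) z < dot (ev (ph a b u)) (pt a b u) := by
  have h := B_lt_one ha hb (pt_mem ha hb u) hz h.symm
  rw [← B_pt_self ha hb u, B_eq_dot, B_eq_dot] at h
  exact lt_of_mul_lt_mul_left h (nu_pt_pos ha hb u).le

lemma corner {x θ y : ℝ} (h1 : x ≤ θ) (h2 : θ ≤ y) (h : y < x + π) {w : ℂ} (d1 : dot (ev x) w ≤ 0)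
    (d2 : dot (ev y) w ≤ 0) : dot (ev θ) w ≤ 0 := by
  rcases (h1.trans h2).eq_or_lt with e | e
  · rwa [show θ = x by linarith]
  have := congrArg (fun u => dot u w) (ev_comb x θ y)
  simp only [smul_dot, add_dot] at this
  have s0 := sin_pos_of_pos_of_lt_pi (x := y - x) (by linarith) (by linarith)
  have s1 := sin_nonneg_of_nonneg_of_le_pi (x := y - θ) (by linarith) (by linarith)
  have s2 := sin_nonneg_of_nonneg_of_le_pi (x := θ - x) (by linarith) (by linarith)
  by_contra hc
  nlinarith [mul_nonneg s1 (neg_nonneg.2 d1), mul_nonneg s2 (neg_nonneg.2 d2),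
    mul_pos s0 (not_le.1 hc)]

namespace Cf

variable {s t : ℝ} {c : ℂ} {r x y : ℝ} (C : Cf a b s t c r x y)
include C

lemma ha : 0 < a := by linarith [C.hb, C.hab]

lemma ts' : t < s + 2 * π := by linarith [C.ts, pi_pos]

lemma arc_mem {θ : ℝ} (h : θ ∈ Icc x y) : circ c r θ ∈ ell a b := by
  rcases h.1.eq_or_lt with e | e
  · rw [← e, C.eP]; exact pt_mem C.ha C.hb _
  rcases h.2.eq_or_lt with e' | e'
  · rw [e', C.eQ]; exact pt_mem C.ha C.hb _
  exact interior_subset (C.int θ ⟨e, e'⟩)

lemma seg_sub : seg c r x y ⊆ ell a b :=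
  seg_subset c C.r0 C.xy C.yx convex_ell fun _ h => C.arc_mem h

lemma seg_HP' : seg c r x y ⊆ HP (pt a b t) (pt a b s) := by
  rw [← C.eP, ← C.eQ]; exact inter_subset_right

lemma P_seg : pt a b t ∈ seg c r x y := C.eP ▸ circ_mem_seg c C.r0 C.yx ⟨le_rfl, C.xy.le⟩

lemma Q_seg : pt a b s ∈ seg c r x y := C.eQ ▸ circ_mem_seg c C.r0 C.yx ⟨C.xy.le, le_rfl⟩

lemma feas : Feas a b (cap a b s t) (KK a b s t c r x y) :=
  ⟨(isCompact_cap C.hb C.hab _ _).union (isCompact_seg _ _ _ _),
    union_convex C.ha C.hb (convex_cap _ _) (convex_seg _ _ _ _) inter_subset_left C.seg_sub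
      (B_pt_self C.ha C.hb s) (B_pt_self C.ha C.hb t) (pt_ne C.ha C.hb C.st C.ts')
      inter_subset_right C.seg_HP' ⟨pt_mem C.ha C.hb _, left_mem_HP _ _⟩
      ⟨pt_mem C.ha C.hb _, right_mem_HP _ _⟩ C.Q_seg C.P_seg,
    subset_union_left, union_subset inter_subset_left C.seg_sub⟩

lemma area : volume.real (KK a b s t c r x y)
    = a * b / 2 * (t - s - sin (t - s)) + r ^ 2 / 2 * (y - x - sin (y - x)) := by
  rw [KK, ar_union (pt_ne C.ha C.hb C.st C.ts') (isCompact_cap C.hb C.hab _ _)
    (isCompact_seg _ _ _ _) inter_subset_right C.seg_HP', ar_cap C.hb C.hab C.st C.ts',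
    ar_seg c C.r0 C.xy C.yx]

lemma pt_mem' {u : ℝ} (h : u ∈ Icc s t) : pt a b u ∈ KK a b s t c r x y :=
  Or.inl (pt_mem_cap C.ha C.hb C.ts' h)

lemma circ_mem {θ : ℝ} (h : θ ∈ Icc x y) : circ c r θ ∈ KK a b s t c r x y :=
  Or.inr (circ_mem_seg c C.r0 C.yx h)

lemma contact (z : ℂ) (hz : B a b z z = 1) :
    z ∈ KK a b s t c r x y ↔ z ∈ HP (pt a b s) (pt a b t) := by
  refine ⟨fun h => h.elim (fun h => h.2) fun h => ?_, fun h => Or.inl ⟨mem_ell.2 hz.le, h⟩⟩
  obtain ⟨θ, hθ, rfl⟩ := extreme C.ha C.hb (X := circ c r '' Icc x y)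
    (isCompact_Icc.image (by fun_prop)) ((nonempty_Icc.2 C.xy.le).image _)
    (by rintro _ ⟨θ, hθ, rfl⟩; exact C.arc_mem hθ)
    (seg_subset c C.r0 C.xy C.yx convex_closedConvexHull
      (fun θ hθ => subset_closedConvexHull (mem_image_of_mem _ hθ)) h) hz
  rcases hθ.1.eq_or_lt with e | e
  · rw [← e, C.eP]; exact right_mem_HP _ _
  rcases hθ.2.eq_or_lt with e' | e'
  · rw [e', C.eQ]; exact left_mem_HP _ _
  exact absurd hz (mem_int.1 (C.int θ ⟨e, e'⟩)).ne

lemma supp {θ : ℝ} (h : θ ∈ Icc x y) {z : ℂ} (hz : z ∈ KK a b s t c r x y) :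
    dot (ev θ) z ≤ dot (ev θ) c + r := by
  have cl : IsClosed {θ | dot (ev θ) z ≤ dot (ev θ) c + r} := isClosed_le (by fun_prop) (by fun_prop)
  refine closure_minimal (fun θ hθ => ?_) cl (closure_Ioo C.xy.ne ▸ h)
  by_contra hc
  have n := circ_chord_neg c C.r0 C.yx hθ.1 hθ.2
  obtain ⟨l, l0, l1, l2⟩ := (ev_pos.and ((ev_lt one_pos).and (ev_neg
    (f := fun l => cross (circ c r y - circ c r x)
      (circ c r θ + l • (z - circ c r θ) - circ c r x)) (by fun_prop) (by simpa using n)))).exists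
  rcases C.feas.cvx.add_smul_sub_mem (C.circ_mem (Ioo_subset_Icc_self hθ)) hz ⟨l0.le, l1.le⟩
    with m | m
  · have : cross _ _ ≤ 0 := m.2
    rw [← C.eP, ← C.eQ, cross_flip] at this
    linarith
  · have m1 := le_hs (isCompact_closedBall c r) m.1 (ev θ)
    rw [hs_closedBall c C.r0.le, norm_ev, dot_add, dot_smul, dot_sub, dot_circ, sub_self,
      cos_zero] at m1
    simp only [mem_ofPred_eq, not_le] at hc
    nlinarith

lemma ph_bounds : ph a b ((s + t) / 2) < ph a b t ∧ ph a b t < ph a b ((s + t) / 2) + π ∧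
    ph a b s < ph a b ((s + t) / 2) ∧ ph a b ((s + t) / 2) < ph a b s + π := by
  have m := strictMono_ph C.ha C.hb
  have := C.st
  have := C.ts'
  exact ⟨m (by linarith), by rw [← ph_add_pi]; exact m (by linarith), m (by linarith),
    by rw [← ph_add_pi]; exact m (by linarith)⟩

lemma ord1 : ph a b t ≤ x := by
  obtain ⟨b1, b2, -, -⟩ := C.ph_bounds
  have := C.nz; have := C.xy; have := C.yx
  by_contra hc
  push Not at hc
  have m1 := min_le_left (ph a b t) y
  have m2 := min_le_right (ph a b t) y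
  have m3 : x < min (ph a b t) y := lt_min hc C.xy
  have h := ell_supp C.ha C.hb t (C.arc_mem (θ := min (ph a b t) y) ⟨m3.le, m2⟩)
  rw [← C.eP, dot_circ, dot_circ] at h
  have := cos_lt_cos_of_nonneg_of_le_pi (x := ph a b t - min (ph a b t) y) (y := ph a b t - x)
    (by linarith) (by linarith) (by linarith)
  nlinarith [C.r0]

lemma ord2 : y ≤ ph a b s + 2 * π := by
  obtain ⟨-, -, b1, b2⟩ := C.ph_bounds
  have := C.nz; have := C.xy; have := C.yx
  by_contra hc
  push Not at hc
  have m1 := le_max_left (ph a b s + 2 * π) x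
  have m2 := le_max_right (ph a b s + 2 * π) x
  have m3 : max (ph a b s + 2 * π) x < y := max_lt hc C.xy
  have h := ell_supp C.ha C.hb s (C.arc_mem (θ := max (ph a b s + 2 * π) x) ⟨m2, m3.le⟩)
  rw [← C.eQ, ← ev_periodic (ph a b s), dot_circ, dot_circ, ← cos_neg,
    ← cos_neg (ph a b s + 2 * π - y)] at h
  have := cos_lt_cos_of_nonneg_of_le_pi (x := -(ph a b s + 2 * π - max (ph a b s + 2 * π) x))
    (y := -(ph a b s + 2 * π - y)) (by linarith) (by linarith) (by linarith)
  nlinarith [C.r0]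

lemma gap1 : x < ph a b t + π := by
  obtain ⟨b1, -, -, -⟩ := C.ph_bounds
  linarith [C.nz, C.xy]

lemma gap2 : ph a b s + 2 * π < y + π := by
  obtain ⟨-, -, b1, -⟩ := C.ph_bounds
  linarith [C.nz, C.xy]

lemma suppP {z : ℂ} (hz : z ∈ KK a b s t c r x y) : dot (ev x) (z - pt a b t) ≤ 0 := by
  have := C.supp ⟨le_rfl, C.xy.le⟩ hz
  rw [dot_sub, ← C.eP, dot_circ, sub_self, cos_zero]; linarith

lemma suppQ {z : ℂ} (hz : z ∈ KK a b s t c r x y) : dot (ev y) (z - pt a b s) ≤ 0 := by
  have := C.supp ⟨C.xy.le, le_rfl⟩ hz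
  rw [dot_sub, ← C.eQ, dot_circ, sub_self, cos_zero]; linarith

lemma corner1 {θ : ℝ} (h : θ ∈ Icc (ph a b t) x) {z : ℂ} (hz : z ∈ KK a b s t c r x y) :
    dot (ev θ) z ≤ dot (ev θ) (pt a b t) := by
  rw [← sub_nonpos, ← dot_sub]
  refine corner h.1 h.2 C.gap1 ?_ (C.suppP hz)
  rw [dot_sub, sub_nonpos]; exact ell_supp C.ha C.hb t (C.feas.sub hz)

lemma corner2 {θ : ℝ} (h : θ ∈ Icc y (ph a b s + 2 * π)) {z : ℂ} (hz : z ∈ KK a b s t c r x y) :
    dot (ev θ) z ≤ dot (ev θ) (pt a b s) := by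
  rw [← sub_nonpos, ← dot_sub]
  refine corner h.1 h.2 C.gap2 (C.suppQ hz) ?_
  rw [dot_sub, sub_nonpos, ev_periodic]; exact ell_supp C.ha C.hb s (C.feas.sub hz)

lemma nonempty : (KK a b s t c r x y).Nonempty := ⟨_, C.pt_mem' ⟨le_rfl, C.st.le⟩⟩

lemma hs_arc {θ : ℝ} (h : θ ∈ Icc x y) : hs (KK a b s t c r x y) (ev θ) = dot (ev θ) c + r := by
  refine le_antisymm (hs_le C.nonempty fun z hz => C.supp h hz) ?_
  have := le_hs C.feas.cpt (C.circ_mem h) (ev θ)
  rwa [dot_circ, sub_self, cos_zero, mul_one] at this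

lemma hs_ell {u : ℝ} (h : u ∈ Icc s t) : hs (KK a b s t c r x y) (nu a b (pt a b u)) = 1 := by
  refine le_antisymm (hs_le C.nonempty fun z hz => ?_) ?_
  · rw [dot_nu]; exact B_le_one (pt_mem C.ha C.hb u) (C.feas.sub hz)
  · have := le_hs C.feas.cpt (C.pt_mem' h) (nu a b (pt a b u))
    rwa [dot_nu, B_pt_self C.ha C.hb] at this

lemma feas' {α β : ℝ} (hs : s ≤ α) (h : α < β) (ht : β ≤ t) :
    Feas a b (cap a b α β) (KK a b s t c r x y) :=
  ⟨C.feas.cpt, C.feas.cvx, cap_subset C.ha C.hb h (by linarith [C.ts']) C.feas.cvx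
    fun u hu => C.pt_mem' ⟨by linarith [hu.1], by linarith [hu.2]⟩, C.feas.sub⟩

lemma first_var {L : Set ℂ} (hL : IsCompact L) (cL : Convex ℝ L) (nL : L.Nonempty)
    (hA : volume.real (KK a b s t c r x y) ≤ volume.real L) :
    0 ≤ (∫ u in s..t, a * b * (hs L (nu a b (pt a b u)) - 1))
      + r * ∫ θ in x..y, (hs L (ev θ) - hs (KK a b s t c r x y) (ev θ)) := by
  have ha := C.ha; have hb := C.hb; have r0 := C.r0
  set K := KK a b s t c r x y with hK
  have cL' := continuous_hs hL nL
  let D1 : ℝ → ℝ := fun u => hs L (nu a b (pt a b u)) - 1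
  let D2 : ℝ → ℝ := fun θ => (hs L (ev θ) - dot (ev θ) c - r) / r
  have c1 : Continuous D1 := (cL'.comp (by fun_prop)).sub continuous_const
  have c2 : Continuous D2 := (((cL'.comp continuous_ev).sub (by fun_prop)).sub
    continuous_const).div_const _
  have e : r * ∫ θ in x..y, (hs L (ev θ) - hs K (ev θ)) = ∫ θ in x..y, r * r * D2 θ := by
    rw [← intervalIntegral.integral_const_mul]
    refine intervalIntegral.integral_congr fun θ hθ => ?_
    rw [uIcc_of_le C.xy.le] at hθ
    simp only [D2, hK, C.hs_arc hθ]; field_simp; ring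
  rw [e]
  apply le_of_forall_small (c := (∫ u in s..t, a * b / 2 * (D1 u ^ 2 / gg s t u))
    + ∫ u in x..y, r * r / 2 * (D2 u ^ 2 / gg x y u))
  intro ε e0 e1
  set M := (1 - ε) • K + ε • L with hM
  have kM : IsCompact M := (C.feas.cpt.smul _).add (hL.smul _)
  have hsM : ∀ z ∈ M, ∀ u, dot u z ≤ (1 - ε) * hs K u + ε * hs L u := fun z hz u => by
    have := le_hs kM hz u
    rwa [hM, hs_add (C.feas.cpt.smul _) C.nonempty.smul_set (hL.smul _) nL.smul_set,
      hs_smul C.feas.cpt C.nonempty (by linarith), hs_smul hL nL e0.le] at this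
  have f1 := fv ha hb C.st C.ts' 0 (M := M) c1 ε fun z hz u hu => by
    have := hsM z hz (nu a b (pt a b u))
    rw [C.hs_ell hu, dot_nu] at this
    simp only [D1, sub_zero]; linarith
  have f2 := fv r0 r0 C.xy C.yx c (M := M) c2 ε fun z hz θ hθ => by
    have := hsM z hz (ev θ)
    rw [C.hs_arc hθ] at this
    have e : B r r (pt r r θ) (z - c) = (dot (ev θ) z - dot (ev θ) c) / r := by
      simp only [B, dot, pt_re, pt_im, ev_re, ev_im, Complex.sub_re, Complex.sub_im]
      field_simp; ring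
    rw [e, div_le_iff₀ r0]
    simp only [D2]; field_simp; linarith
  have b1 := bm_comb C.feas.cpt C.feas.cvx C.nonempty hL cL nL (s := 1 - ε) (by linarith) e0.le
  have b2 : volume.real K ≤ volume.real M := by
    have := mul_le_mul_of_nonneg_left (Real.sqrt_le_sqrt hA) e0.le
    exact (Real.sqrt_le_sqrt_iff measureReal_nonneg).1 (by linarith)
  have b3 := measureReal_union_le (μ := volume) (M ∩ HP (pt a b s) (pt a b t))
    (M ∩ HP (pt a b t) (pt a b s))
  rw [inter_HP_union] at b3
  rw [zero_add, zero_add] at f1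
  change volume.real (M ∩ HP (circ c r x) (circ c r y)) ≤ _ at f2
  rw [C.eP, C.eQ] at f2
  rw [hK, C.area] at b2
  apply le_of_mul_le_mul_left _ e0
  simp only [D1] at f1 ⊢
  nlinarith

lemma suff {α β : ℝ} (hs' : s ≤ α) (ht : β ≤ t) (T1 : β < t → x = ph a b t)
    (T2 : s < α → y = ph a b s + 2 * π) {L : Set ℂ} (F : Feas a b (cap a b α β) L)
    (hA : volume.real (KK a b s t c r x y) ≤ volume.real L) :
    per (KK a b s t c r x y) + (∫ u in s..t, (1 - hs L (nu a b (pt a b u))) * (a * b)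
      * (1 / r - 1 / crv a b u)) ≤ per L := by
  have ha := C.ha; have hb := C.hb; have r0 := C.r0
  have h2 : β < α + 2 * π := by linarith [C.ts']
  have pL : pt a b β ∈ L := F.sup ⟨pt_mem ha hb _, right_mem_HP _ _⟩
  have qL : pt a b α ∈ L := F.sup ⟨pt_mem ha hb _, left_mem_HP _ _⟩
  have nL : L.Nonempty := ⟨_, pL⟩
  have fv := C.first_var F.cpt F.cvx nL hA
  set K := KK a b s t c r x y with hK
  let d : ℝ → ℝ := fun θ => hs L (ev θ) - hs K (ev θ)
  have cd : Continuous d := (continuous_hs_ev F.cpt nL).sub (continuous_hs_ev C.feas.cpt C.nonempty)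
  have id' := fun u v => cd.intervalIntegrable (μ := volume) u v
  have e1 : per L - per K = ∫ θ in ph a b s..ph a b s + 2 * π, d θ := by
    rw [per_window L (ph a b s), per_window K (ph a b s), intervalIntegral.integral_sub
      (ii_hs F.cpt nL _ _) (ii_hs C.feas.cpt C.nonempty _ _)]
  rw [← intervalIntegral.integral_add_adjacent_intervals (id' _ (ph a b t)) (id' _ _),
    ← intervalIntegral.integral_add_adjacent_intervals (id' (ph a b t) x) (id' _ _),
    ← intervalIntegral.integral_add_adjacent_intervals (id' x y) (id' _ _)] at e1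
  have i1 : 0 ≤ ∫ θ in ph a b t..x, d θ := by
    rcases ht.eq_or_lt with e | e
    · refine intervalIntegral.integral_nonneg C.ord1 fun θ hθ => sub_nonneg.2 ?_
      exact (hs_le C.nonempty fun z hz => C.corner1 hθ hz).trans (le_hs F.cpt (e ▸ pL) _)
    · rw [T1 e, intervalIntegral.integral_same]
  have i2 : 0 ≤ ∫ θ in y..ph a b s + 2 * π, d θ := by
    rcases hs'.eq_or_lt with e | e
    · refine intervalIntegral.integral_nonneg C.ord2 fun θ hθ => sub_nonneg.2 ?_
      exact (hs_le C.nonempty fun z hz => C.corner2 hθ hz).trans (le_hs F.cpt (e ▸ qL) _)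
    · rw [T2 e, intervalIntegral.integral_same]
  have n0 := nu_pt_pos ha hb
  have cn : Continuous fun u => ‖nu a b (pt a b u)‖ := by fun_prop
  have cL : Continuous fun u => hs L (nu a b (pt a b u)) :=
    (continuous_hs F.cpt nL).comp (by fun_prop)
  have cc : Continuous fun u => 1 / crv a b u := by
    simp only [crv_eq ha hb]
    exact continuous_const.div (by fun_prop) fun u => by have := n0 u; positivity
  have i3 := intervalIntegral.integral_comp_mul_deriv (a := s) (b := t)
    (fun u _ => hasDerivAt_ph ha hb u) (Continuous.continuousOn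
      (continuous_const.div (by fun_prop) fun u => by have := n0 u; positivity)) cd
  have i4 : (∫ u in s..t, (1 - hs L (nu a b (pt a b u))) * (a * b) * (1 / r - 1 / crv a b u))
      = (∫ θ in ph a b s..ph a b t, d θ)
        - 1 / r * ∫ u in s..t, a * b * (hs L (nu a b (pt a b u)) - 1) := by
    rw [← i3, ← intervalIntegral.integral_const_mul, ← intervalIntegral.integral_sub]
    · refine intervalIntegral.integral_congr fun u hu => ?_
      rw [uIcc_of_le C.st.le] at hu
      have k1 := hs_dir F.cpt nL (n0 u).le (ev (ph a b u))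
      have k2 := hs_dir C.feas.cpt C.nonempty (n0 u).le (ev (ph a b u))
      rw [← nu_eq] at k1 k2
      rw [C.hs_ell hu] at k2
      simp only [Function.comp, d, crv_eq ha hb, k1]
      have := n0 u
      field_simp
      linear_combination (-r) * k2
    · exact ((cd.comp (continuous_ph ha hb)).mul (continuous_const.div (by fun_prop)
        fun u => by have := n0 u; positivity)).intervalIntegrable _ _
    · apply Continuous.intervalIntegrable; fun_prop
  rw [i4]
  have := mul_nonneg (one_div_pos.2 r0).le fv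
  rw [mul_add, ← mul_assoc, one_div_mul_cancel r0.ne', one_mul] at this
  simp only [d] at e1 i1 i2 ⊢
  linarith

end Cf

end Pool.Agent.MP_7791e4_an

end

section

set_option autoImplicit false

namespace Pool.Agent.MP_7791e4_an

open Set MeasureTheory Real Metric Filter Topology Pointwise

variable {a b : ℝ}

lemma crv_pos (ha : 0 < a) (hb : 0 < b) (u : ℝ) : 0 < crv a b u := by
  rw [crv_eq ha hb]; have := nu_pt_pos ha hb u; positivity

lemma continuous_crv : Continuous (crv a b) := by unfold crv; fun_prop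

lemma crv_const (ha : 0 < a) (hb : 0 < b) {u1 u2 r : ℝ} (h : u1 < u2)
    (hc : ∀ u ∈ Icc u1 u2, crv a b u = r) : b = a ∧ r = a := by
  have key : ∀ u ∈ Icc u1 u2, (a ^ 2 - b ^ 2) * (sin (u + u1) * sin (u - u1)) = 0 := by
    intro u hu
    have e := (hc u hu).trans (hc u1 ⟨le_rfl, h.le⟩).symm
    unfold crv at e
    rw [div_left_inj' (by positivity), pow_left_inj₀ (Real.sqrt_nonneg _) (Real.sqrt_nonneg _)
      three_ne_zero, Real.sqrt_inj (by positivity) (by positivity)] at e
    rw [sin_add, sin_sub]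
    linear_combination e + (-b ^ 2 - (a ^ 2 - b ^ 2) * sin u1 ^ 2) * sin_sq_add_cos_sq u
      + (b ^ 2 + (a ^ 2 - b ^ 2) * sin u ^ 2) * sin_sq_add_cos_sq u1
  have ab : b = a := by
    by_contra hne
    have n : a ^ 2 - b ^ 2 ≠ 0 := fun e => hne ((pow_left_inj₀ hb.le ha.le two_ne_zero).1
      (by linarith))
    have m1 := min_le_left (u2 - u1) 1
    have m2 := min_le_right (u2 - u1) 1
    have m3 : 0 < min (u2 - u1) 1 := lt_min (by linarith) one_pos
    set η := min (u2 - u1) 1
    have p3 := pi_gt_three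
    have z : ∀ κ, 0 < κ → κ ≤ η → sin (u1 + κ + u1) = 0 := fun κ k0 k1 => by
      have := (mul_eq_zero.1 (key (u1 + κ) ⟨by linarith, by linarith⟩)).resolve_left n
      exact (mul_eq_zero.1 this).resolve_right
        (sin_pos_of_pos_of_lt_pi (by linarith) (by linarith)).ne'
    have := sin_sub (u1 + η + u1) (u1 + η / 2 + u1)
    rw [z η m3 le_rfl, z (η / 2) (by linarith) (by linarith)] at this
    have p := sin_pos_of_pos_of_lt_pi (x := u1 + η + u1 - (u1 + η / 2 + u1)) (by linarith)
      (by linarith)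
    linarith
  refine ⟨ab, ?_⟩
  rw [← hc u1 ⟨le_rfl, h.le⟩, ab, crv, show (a * sin u1) ^ 2 + (a * cos u1) ^ 2 = a ^ 2 by
    linear_combination a ^ 2 * sin_sq_add_cos_sq u1, Real.sqrt_sq ha.le]
  field_simp

lemma ev_ph_self (ha : 0 < a) (u : ℝ) : ev (ph a a u) = ev u := by
  rw [← nrm_eq ha ha, nrm, show (a * sin u) ^ 2 + (a * cos u) ^ 2 = a ^ 2 by
    linear_combination a ^ 2 * sin_sq_add_cos_sq u, Real.sqrt_sq ha.le]
  apply Complex.ext <;> simp only [ev_re, ev_im] <;> field_simp

namespace Cf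

variable {s t : ℝ} {c : ℂ} {r x y : ℝ} (C : Cf a b s t c r x y)
include C

lemma integrand_nonneg {α β : ℝ} (R : ∀ u ∈ Ioo s α ∪ Ioo β t, r ≤ crv a b u) (hs' : s ≤ α)
    (ht : β ≤ t) {L : Set ℂ} (F : Feas a b (cap a b α β) L) :
    ∀ u ∈ Icc s t, 0 ≤ (1 - hs L (nu a b (pt a b u))) * (a * b) * (1 / r - 1 / crv a b u) := by
  have ha := C.ha; have hb := C.hb; have r0 := C.r0
  have nL : L.Nonempty := ⟨_, F.sup ⟨pt_mem ha hb _, left_mem_HP _ _⟩⟩
  have cL : Continuous fun u => hs L (nu a b (pt a b u)) :=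
    (continuous_hs F.cpt nL).comp (by fun_prop)
  have cc : Continuous fun u => 1 / crv a b u :=
    continuous_const.div continuous_crv fun u => (crv_pos ha hb u).ne'
  intro u hu
  refine closure_minimal (t := {u | 0 ≤ (1 - hs L (nu a b (pt a b u))) * (a * b)
    * (1 / r - 1 / crv a b u)}) (fun u hu => ?_) (isClosed_le continuous_const (by fun_prop))
    (closure_Ioo C.st.ne ▸ hu)
  have h1 : hs L (nu a b (pt a b u)) ≤ 1 := hs_le nL fun z hz => by
    rw [dot_nu]; exact B_le_one (pt_mem ha hb u) (F.sub hz)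
  simp only [mem_ofPred_eq]
  by_cases c : u ∈ Icc α β
  · have := le_hs F.cpt (F.sup (pt_mem_cap ha hb (by linarith [C.ts']) c)) (nu a b (pt a b u))
    rw [dot_nu, B_pt_self ha hb] at this
    rw [le_antisymm h1 this]; simp
  · have : r ≤ crv a b u := R u (by
      rcases lt_or_ge u α with h | h
      · exact Or.inl ⟨hu.1, h⟩
      · exact Or.inr ⟨not_le.1 fun h' => c ⟨h, h'⟩, hu.2⟩)
    exact mul_nonneg (mul_nonneg (by linarith) (by positivity))
      (sub_nonneg.2 (one_div_le_one_div_of_le r0 this))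

lemma min {α β : ℝ} (hs' : s ≤ α) (ht : β ≤ t) (T1 : β < t → x = ph a b t)
    (T2 : s < α → y = ph a b s + 2 * π) (R : ∀ u ∈ Ioo s α ∪ Ioo β t, r ≤ crv a b u)
    {L : Set ℂ} (F : Feas a b (cap a b α β) L)
    (hA : volume.real (KK a b s t c r x y) ≤ volume.real L) : per (KK a b s t c r x y) ≤ per L := by
  have h1 := C.suff hs' ht T1 T2 F hA
  have h2 := intervalIntegral.integral_nonneg (μ := volume) C.st.le
    (C.integrand_nonneg R hs' ht F)
  linarith

lemma uniq {α β : ℝ} (hs' : s ≤ α) (ht : β ≤ t) (T1 : β < t → x = ph a b t)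
    (T2 : s < α → y = ph a b s + 2 * π) (R : ∀ u ∈ Ioo s α ∪ Ioo β t, r ≤ crv a b u)
    {L : Set ℂ} (F : Feas a b (cap a b α β) L)
    (hA : volume.real (KK a b s t c r x y) ≤ volume.real L) (hp : per L ≤ per (KK a b s t c r x y)) :
    L = KK a b s t c r x y := by
  have ha := C.ha; have hb := C.hb; have r0 := C.r0
  have nL : L.Nonempty := ⟨_, F.sup ⟨pt_mem ha hb _, left_mem_HP _ _⟩⟩
  have cL : Continuous fun u => hs L (nu a b (pt a b u)) :=
    (continuous_hs F.cpt nL).comp (by fun_prop)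
  have cc : Continuous fun u => 1 / crv a b u :=
    continuous_const.div continuous_crv fun u => (crv_pos ha hb u).ne'
  have h1 := C.suff hs' ht T1 T2 F hA
  have nn := C.integrand_nonneg R hs' ht F
  have z0 : ∀ u ∈ Icc s t, (1 - hs L (nu a b (pt a b u))) * (a * b) * (1 / r - 1 / crv a b u)
      = 0 := by
    intro u hu
    by_contra hc
    have := intervalIntegral.integral_lt_integral_of_continuousOn_of_le_of_exists_lt C.st
      (f := fun _ => 0) continuousOn_const (by fun_prop) (fun u hu => nn u (Ioc_subset_Icc_self hu))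
      ⟨u, hu, lt_of_le_of_ne (nn u hu) (Ne.symm hc)⟩
    simp only [intervalIntegral.integral_zero] at this
    linarith
  have all : ∀ u ∈ Icc s t, pt a b u ∈ L := by
    intro u hu
    by_contra hc
    have c1 : u ∉ Icc α β := fun h => hc (F.sup (pt_mem_cap ha hb (by linarith [C.ts']) h))
    obtain ⟨z, hz, e⟩ := exists_hs F.cpt nL (nu a b (pt a b u))
    have c2 : hs L (nu a b (pt a b u)) < 1 := by
      rw [← e, dot_nu]; exact B_lt_one ha hb (pt_mem ha hb u) (F.sub hz) fun h => hc (h ▸ hz)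
    obtain ⟨ε, ε0, hε⟩ := Metric.eventually_nhds_iff.1
      (cL.continuousAt.eventually_lt continuousAt_const c2)
    obtain ⟨ab, ra⟩ := crv_const ha hb (u1 := max s (u - ε / 2)) (u2 := Min.min t (u + ε / 2))
      (r := r) (by
        simp only [max_lt_iff, lt_min_iff]
        exact ⟨⟨C.st, by linarith [hu.2]⟩, by linarith [hu.1], by linarith⟩) (by
        intro v hv
        have v1 := max_le_iff.1 hv.1
        have v2 := le_min_iff.1 hv.2
        have := z0 v ⟨v1.1, v2.1⟩
        have c3 := hε (y := v) (by rw [Real.dist_eq, abs_lt]; constructor <;> linarith [v1.2, v2.2])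
        have := (mul_eq_zero.1 this).resolve_left (mul_pos (by linarith) (by positivity)).ne'
        rw [sub_eq_zero, one_div, one_div, inv_inj] at this
        exact this.symm)
    subst ab ra
    have c0 : c = 0 := by
      rcases lt_or_ge u α with h | h
      · have := C.eQ
        rw [T2 (by linarith [hu.1]), circ_eq, ev_periodic, ev_ph_self ha, pt_circ] at this
        simpa using this
      · have := C.eP
        rw [T1 (by linarith [hu.2, not_le.1 fun h' => c1 ⟨h, h'⟩]), circ_eq, ev_ph_self ha,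
          pt_circ] at this
        simpa using this
    have := mem_int.1 (C.int ((x + y) / 2) ⟨by linarith [C.xy], by linarith [C.xy]⟩)
    rw [c0, circ_eq, zero_add, ← pt_circ, B_pt_self ha ha] at this
    exact lt_irrefl _ this
  have F' : Feas a b (cap a b s t) L := ⟨F.cpt, F.cvx, cap_subset ha hb C.st C.ts' F.cvx all, F.sub⟩
  have e1 : L ∩ HP (pt a b s) (pt a b t) = cap a b s t := subset_antisymm
    (inter_subset_inter_left _ F.sub) (subset_inter F'.sup inter_subset_right)
  have kX := F.cpt.inter_right (isClosed_HP (pt a b t) (pt a b s))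
  have p1 := split_cap hb C.hab C.st C.ts' F'
  have p2 := per_union_le (isCompact_cap hb C.hab s t) (isCompact_seg c r x y)
    ⟨pt_mem ha hb _, right_mem_HP _ _⟩ ⟨pt_mem ha hb _, left_mem_HP _ _⟩ C.P_seg C.Q_seg
  have a1 := ar_union (pt_ne ha hb C.st C.ts') (isCompact_cap hb C.hab s t) kX inter_subset_right
    inter_subset_right
  have a2 := ar_union (pt_ne ha hb C.st C.ts') (isCompact_cap hb C.hab s t) (isCompact_seg c r x y)
    inter_subset_right C.seg_HP'
  rw [← e1, inter_HP_union, e1] at a1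
  have e2 := dido C.r0 C.xy C.yx kX (F.cvx.inter (convex_HP _ _))
    (by rw [C.eP, C.eQ]; exact inter_subset_right)
    (by rw [C.eP]; exact ⟨all t ⟨C.st.le, le_rfl⟩, left_mem_HP _ _⟩)
    (by rw [C.eQ]; exact ⟨all s ⟨le_rfl, C.st.le⟩, right_mem_HP _ _⟩)
    (by unfold KK at hA; linarith) (by unfold KK at hp; linarith)
  rw [KK, ← e1, ← e2, inter_HP_union]

lemma kkt {S : Set ℂ} (kS : IsCompact S) (nS : S.Nonempty) (sS : S ⊆ KK a b s t c r x y)
    (Min : ∀ L, Feas a b S L → volume.real (KK a b s t c r x y) ≤ volume.real L →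
      per (KK a b s t c r x y) ≤ per L)
    {φ1 φ2 : ℝ} (h1 : φ1 ≤ φ2) (h2 : φ2 ≤ φ1 + 2 * π) {w : ℂ} (hw : ‖w‖ = 1) {m M : ℝ} (hm : m ≤ M)
    (hF : ∀ θ ∈ Icc φ1 φ2, ∀ z ∈ KK a b s t c r x y,
      dot (ev θ) z = hs (KK a b s t c r x y) (ev θ) → z ∉ S ∧ cross w z ∈ Icc m M) :
    r * (cross w (ev φ2) - cross w (ev φ1)) ≤ M - m := by
  have ha := C.ha; have hb := C.hb; have r0 := C.r0
  have xy := C.xy; have yx := C.yx
  have A0 : 0 < volume.real (KK a b s t c r x y) := by
    rw [C.area]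
    have e1 := sub_sin_lt (x := 0) (y := t - s) (by linarith [C.st])
    have e2 := sub_sin_lt (x := 0) (y := y - x) (by linarith)
    rw [sin_zero, sub_zero] at e1 e2
    positivity
  set δ := (y - x) / 4 with hδ
  have δ0 : 0 < δ := by linarith
  have δ1 : δ < π / 2 := by linarith
  have s0 : 0 < sin δ := sin_pos_of_pos_of_lt_pi δ0 (by linarith [pi_pos])
  have main : ∀ η : ℝ, 0 < η → η ≤ 1 → (cross w (ev φ2) - cross w (ev φ1)) * (2 * (r * sin δ))
      ≤ 2 * sin δ * (M - m) + η * (2 * sin δ + (M - m) + 1) := by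
    intro η η0 η1
    have := combine nS A0 Min (x := M - m + η) (p := cross w (ev φ2) - cross w (ev φ1))
      (y := 2 * (r * sin δ)) (p' := 2 * sin δ + η) (by linarith) (by positivity) (by
        filter_upwards [cut_move C.feas.cpt C.feas.cvx kS nS sS h1 h2 hw hm hF η0] with ε
          ⟨L, l1, l2, l3, l4, l5, l6⟩
        exact ⟨L, ⟨l1, l2, l3, l4.trans C.feas.sub⟩, l5, l6⟩) (by
        filter_upwards [add_move hb C.hab C.feas.cpt C.feas.cvx C.feas.sub (c := c)
          (θ0 := (x + y) / 2) r0 δ0 δ1 δ0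
          (fun θ hθ => C.circ_mem ⟨by linarith [hθ.1], by linarith [hθ.2]⟩)
          (fun θ hθ z hz => C.supp ⟨by linarith [hθ.1], by linarith [hθ.2]⟩ hz)
          (fun θ hθ => C.int θ ⟨by linarith [hθ.1], by linarith [hθ.2]⟩) η0] with ε
          ⟨L, l1, l2, l3, l4, l5, l6⟩
        exact ⟨L, ⟨l1, l2, sS.trans l3, l4⟩, l5, l6⟩)
    nlinarith
  have := le_of_forall_small main
  apply le_of_mul_le_mul_left _ (show 0 < 2 * sin δ by positivity)
  linarith

lemma notin {α β : ℝ} (h : α < β) {u : ℝ} (h1 : β < u) (h2 : u < α + 2 * π) :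
    pt a b u ∉ cap a b α β := fun hc => absurd hc.2 (not_le.2 (chord_pos C.ha C.hb h h1 h2))

lemma tang1 {α β : ℝ} (hs' : s ≤ α) (h : α < β) (ht : β < t)
    (Min : ∀ L, Feas a b (cap a b α β) L → volume.real (KK a b s t c r x y) ≤ volume.real L →
      per (KK a b s t c r x y) ≤ per L) : x = ph a b t := by
  have ha := C.ha; have hb := C.hb; have r0 := C.r0
  by_contra hc
  have o := lt_of_le_of_ne C.ord1 (Ne.symm hc)
  have g := C.gap1
  have := C.kkt (isCompact_cap hb C.hab α β) ⟨_, pt_mem ha hb _, left_mem_HP _ _⟩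
    (C.feas' hs' h ht.le).sup Min (φ1 := ph a b t) (φ2 := (ph a b t + x) / 2) (by linarith)
    (by linarith [pi_pos]) (norm_ev (ph a b t)) (le_refl (cross (ev (ph a b t)) (pt a b t))) (by
      intro θ hθ z hz e
      have e' : z = pt a b t := by
        by_contra hne
        have b1 := ell_supp' ha hb t (C.feas.sub hz) hne
        have b2 := C.suppP hz
        have b3 := le_hs C.feas.cpt (C.pt_mem' ⟨C.st.le, le_rfl⟩) (ev θ)
        have b4 := congrArg (fun u => dot u (z - pt a b t)) (ev_comb (ph a b t) θ x)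
        simp only [smul_dot, add_dot] at b4
        have s0 := sin_pos_of_pos_of_lt_pi (x := x - ph a b t) (by linarith) (by linarith)
        have s1 := sin_pos_of_pos_of_lt_pi (x := x - θ) (by linarith [hθ.2]) (by linarith [hθ.1])
        have s2 := sin_nonneg_of_nonneg_of_le_pi (x := θ - ph a b t) (by linarith [hθ.1])
          (by linarith [hθ.2])
        rw [← sub_neg, ← dot_sub] at b1
        rw [← e, ← sub_nonneg, ← dot_sub] at b3
        nlinarith [mul_pos s1 (neg_pos.2 b1), mul_nonneg s2 (neg_nonneg.2 b2),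
          mul_nonneg s0.le b3]
      rw [e']
      exact ⟨C.notin h ht (by linarith [C.ts']), le_rfl, le_rfl⟩)
  rw [cross_self, cross_ev_ev] at this
  have s0 := sin_pos_of_pos_of_lt_pi (x := (ph a b t + x) / 2 - ph a b t) (by linarith)
    (by linarith)
  nlinarith

lemma tang2 {α β : ℝ} (hs' : s < α) (h : α < β) (ht : β ≤ t)
    (Min : ∀ L, Feas a b (cap a b α β) L → volume.real (KK a b s t c r x y) ≤ volume.real L →
      per (KK a b s t c r x y) ≤ per L) : y = ph a b s + 2 * π := by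
  have ha := C.ha; have hb := C.hb; have r0 := C.r0
  by_contra hc
  have o := lt_of_le_of_ne C.ord2 hc
  have g := C.gap2
  have := C.kkt (isCompact_cap hb C.hab α β) ⟨_, pt_mem ha hb _, left_mem_HP _ _⟩
    (C.feas' hs'.le h ht).sup Min (φ1 := (y + (ph a b s + 2 * π)) / 2) (φ2 := ph a b s + 2 * π)
    (by linarith) (by linarith [pi_pos]) (norm_ev (ph a b s + 2 * π))
    (le_refl (cross (ev (ph a b s + 2 * π)) (pt a b s))) (by
      intro θ hθ z hz e
      have e' : z = pt a b s := by
        by_contra hne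
        have b1 := ell_supp' ha hb s (C.feas.sub hz) hne
        have b2 := C.suppQ hz
        have b3 := le_hs C.feas.cpt (C.pt_mem' ⟨le_rfl, C.st.le⟩) (ev θ)
        have b4 := congrArg (fun u => dot u (z - pt a b s)) (ev_comb y θ (ph a b s + 2 * π))
        simp only [smul_dot, add_dot] at b4
        have s0 := sin_pos_of_pos_of_lt_pi (x := ph a b s + 2 * π - y) (by linarith) (by linarith)
        have s1 := sin_nonneg_of_nonneg_of_le_pi (x := ph a b s + 2 * π - θ) (by linarith [hθ.2])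
          (by linarith [hθ.1])
        have s2 := sin_pos_of_pos_of_lt_pi (x := θ - y) (by linarith [hθ.1]) (by linarith [hθ.2])
        rw [← sub_neg, ← dot_sub, ← ev_periodic] at b1
        rw [← e, ← sub_nonneg, ← dot_sub] at b3
        nlinarith [mul_pos s2 (neg_pos.2 b1), mul_nonneg s1 (neg_nonneg.2 b2),
          mul_nonneg s0.le b3]
      rw [e', ← pt_periodic s]
      exact ⟨C.notin h (by linarith [C.ts']) (by linarith), le_rfl, le_rfl⟩)
  rw [cross_self, cross_ev_ev, ← neg_sub (ph a b s + 2 * π), sin_neg] at this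
  have s0 := sin_pos_of_pos_of_lt_pi (x := ph a b s + 2 * π - (y + (ph a b s + 2 * π)) / 2)
    (by linarith) (by linarith)
  nlinarith

lemma curv {S : Set ℂ} (kS : IsCompact S) (nS : S.Nonempty) (sS : S ⊆ KK a b s t c r x y)
    (Min : ∀ L, Feas a b S L → volume.real (KK a b s t c r x y) ≤ volume.real L →
      per (KK a b s t c r x y) ≤ per L) {u0 u1 : ℝ} (h0 : s ≤ u0) (h1 : u0 < u1) (h2 : u1 ≤ t)
    (hS : ∀ u ∈ Ico u0 u1, pt a b u ∉ S) : r ≤ crv a b u0 := by
  have ha := C.ha; have hb := C.hb; have r0 := C.r0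
  have mono := (strictMono_ph ha hb).monotone
  have n0 := nu_pt_pos ha hb
  have ct : ∀ v, cross (ev (ph a b u0)) (tg a b (pt a b v))
      = a * b * ‖nu a b (pt a b v)‖ * cos (ph a b v - ph a b u0) := fun v => by
    rw [tg_eq ha hb, cross_smul, cross_ev_ev, add_sub_right_comm, sin_add_pi_div_two]
  have ev1 : ∀ᶠ κ : ℝ in 𝓝[>] 0, 0 ≤ cross (ev (ph a b u0)) (pt a b (u0 + κ))
      - r * sin (ph a b (u0 + κ) - ph a b u0) - cross (ev (ph a b u0)) (pt a b u0) := by
    filter_upwards [ev_pos, ev_lt (sub_pos.2 h1), ev_neg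
      (f := fun κ => ph a b (u0 + κ) - ph a b u0 - π / 2)
      (((continuous_ph ha hb).comp (by fun_prop)).sub continuous_const |>.sub continuous_const)
      (by simp; positivity)] with κ k0 k1 k2
    have mon : ∀ u v, u0 ≤ u → u ≤ v → v ≤ u0 + κ →
        cross (ev (ph a b u0)) (pt a b u) ≤ cross (ev (ph a b u0)) (pt a b v) := by
      intro u v a1 a2 a3
      rw [← sub_nonneg, ← cross_sub, pt_sub ha hb, cross_smul, ct]
      have b1 := sin_nonneg_of_nonneg_of_le_pi (x := (v - u) / 2) (by linarith)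
        (by linarith [C.ts, pi_pos])
      have b2 := cos_nonneg_of_mem_Icc (x := ph a b ((u + v) / 2) - ph a b u0)
        ⟨by linarith [mono (show u0 ≤ (u + v) / 2 by linarith), pi_pos],
          by linarith [mono (show (u + v) / 2 ≤ u0 + κ by linarith)]⟩
      have := n0 ((u + v) / 2)
      positivity
    have := C.kkt kS nS sS Min (φ1 := ph a b u0) (φ2 := ph a b (u0 + κ)) (mono (by linarith))
      (by linarith [pi_pos]) (norm_ev (ph a b u0)) (mon u0 (u0 + κ) le_rfl (by linarith) le_rfl) (by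
        intro θ hθ z hz e
        obtain ⟨u, hu, rfl⟩ := intermediate_value_Icc (by linarith)
          (continuous_ph ha hb).continuousOn hθ
        have e' : z = pt a b u := by
          by_contra hne
          have b1 := ell_supp' ha hb u (C.feas.sub hz) hne
          have b3 := le_hs C.feas.cpt (C.pt_mem' (u := u) ⟨by linarith [hu.1], by linarith [hu.2]⟩)
            (ev (ph a b u))
          linarith
        rw [e']
        exact ⟨hS u ⟨hu.1, by linarith [hu.2]⟩, mon _ _ le_rfl hu.1 hu.2, mon _ _ hu.1 hu.2 le_rfl⟩)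
    rw [cross_self, cross_ev_ev] at this
    linarith
  have d1 : HasDerivAt (fun u => cross (ev (ph a b u0)) (pt a b u))
      (cross (ev (ph a b u0)) (tg a b (pt a b u0))) u0 := by
    simp only [cross, tg_pt ha hb, pt_re, pt_im]
    exact ((((hasDerivAt_sin u0).const_mul b).const_mul _).sub
      (((hasDerivAt_cos u0).const_mul a).const_mul _)).congr_deriv (by ring)
  have d2 := d1.sub ((((hasDerivAt_ph ha hb u0).sub_const (ph a b u0)).sin).const_mul r)
  have := ge_of_tendsto d2.tendsto_slope_zero_right (b := 0) (by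
    filter_upwards [ev1, ev_pos] with κ h k0
    simp only [Pi.sub_apply, sub_self, sin_zero, mul_zero, sub_zero, smul_eq_mul]
    exact mul_nonneg (inv_pos.2 k0).le h)
  rw [ct, sub_self, cos_zero, mul_one, one_mul, sub_nonneg, mul_one_div,
    div_le_iff₀ (by have := n0 u0; positivity)] at this
  rw [crv_eq ha hb]
  linarith

end Cf

end Pool.Agent.MP_7791e4_an

end
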