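import Pool.Agent.Mg.F5cfbf6.G0a0e5f

set_option autoImplicit false
set_option linter.unusedSectionVars false

namespace Pool.Agent.MP_5cfbf6_gt

open Set Filter Topology MeasureTheory Module FlagX

variable {ι : Type} [Fintype ι] [DecidableEq ι]
variable {u : ι → E3} {Tr : ι → ι → ι → Prop}

lemma cent_open : IsOpen T0 := by
  refine IsOpen.and ?_ (IsOpen.and ?_ (IsOpen.and ?_ ?_)) <;>
    exact isOpen_lt (by fun_prop) (by fun_prop)

lemma cent_inj {a0 a1 a2 : E3} (hd : det3 a0 a1 a2 ≠ 0) : Function.Injective (lin a0 a1 a2) := by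
  rw [← det_lin] at hd
  exact LinearMap.ker_eq_bot.1 ((LinearMap.isUnit_iff_ker_eq_bot _).1
    ((LinearMap.isUnit_iff_isUnit_det _).2 hd.isUnit))

lemma cent_chg (b : E3) {a0 a1 a2 : E3} (hd : det3 a0 a1 a2 ≠ 0) (g : E3 → ℝ) :
    ∫ x in (fun z => b + lin a0 a1 a2 z) '' T0, g x =
      |det3 a0 a1 a2| * ∫ z in T0, g (b + lin a0 a1 a2 z) := by
  have h := integral_image_eq_integral_abs_det_fderiv_smul volume cent_open.measurableSet
    (f := fun z => b + lin a0 a1 a2 z)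
    (f' := fun _ => LinearMap.toContinuousLinearMap (lin a0 a1 a2))
    (fun x _ => (((LinearMap.toContinuousLinearMap (lin a0 a1 a2)).hasFDerivAt).const_add
      b).hasFDerivWithinAt)
    (fun x _ y _ e => cent_inj hd (add_left_cancel e)) g
  rw [h, ← integral_const_mul]
  simp only [ContinuousLinearMap.det, LinearMap.coe_toContinuousLinearMap, det_lin, smul_eq_mul]

lemma cent_int {f : E3 → E3} (hf : Continuous f) {g : E3 → ℝ} (hg : Continuous g) :
    IntegrableOn g (f '' T0) := by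
  have hK : IsCompact (f '' Metric.closedBall (0 : E3) 2) := (isCompact_closedBall _ _).image hf
  refine (hg.continuousOn.integrableOn_compact hK).mono_set (image_mono fun z hz => ?_)
  obtain ⟨h0, h1, h2, h3⟩ := hz
  rw [mem_closedBall_zero_iff]
  have h4 : ‖z‖ ^ 2 ≤ 2 ^ 2 := by
    rw [← MP_5cfbf6_gt.dt_self, dt]
    nlinarith
  exact (abs_le_of_sq_le_sq' h4 (by norm_num)).2

lemma cent_int0 {g : E3 → ℝ} (hg : Continuous g) : IntegrableOn g T0 := by
  simpa using cent_int continuous_id hg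

lemma cent_sym (b : E3) {a0 a1 a2 : E3} (hd : |det3 a0 a1 a2| = 1)
    (h1 : ∀ z ∈ T0, b + lin a0 a1 a2 z ∈ T0)
    (h2 : ∀ z, b + lin a0 a1 a2 (b + lin a0 a1 a2 z) = z) (g : E3 → ℝ) :
    ∫ x in T0, g x = ∫ z in T0, g (b + lin a0 a1 a2 z) := by
  have h := cent_chg b (a0 := a0) (a1 := a1) (a2 := a2) (fun e => by simp [e] at hd) g
  have e : (fun z => b + lin a0 a1 a2 z) '' T0 = T0 :=
    Subset.antisymm (by rintro _ ⟨z, hz, rfl⟩; exact h1 z hz) fun z hz => ⟨_, h1 z hz, h2 z⟩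
  rw [e, hd, one_mul] at h
  exact h

lemma cent_mom : (∫ z in T0, z 0 = 1 / 24) ∧ (∫ z in T0, z 1 = 1 / 24) ∧
    ∫ z in T0, z 2 = 1 / 24 := by
  have s1 := cent_sym 0 (a0 := !₂[0, 1, 0]) (a1 := !₂[1, 0, 0]) (a2 := !₂[0, 0, 1])
    (by simp [det3, dt])
    (by
      rintro z ⟨h0, h1, h2, h3⟩
      refine ⟨?_, ?_, ?_, ?_⟩ <;> simp [lin_apply] <;> linarith)
    (fun z => ext3 (by simp [lin_apply]) (by simp [lin_apply]) (by simp [lin_apply]))
    (fun z => z 0)
  have s2 := cent_sym 0 (a0 := !₂[0, 0, 1]) (a1 := !₂[0, 1, 0]) (a2 := !₂[1, 0, 0])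
    (by simp [det3, dt])
    (by
      rintro z ⟨h0, h1, h2, h3⟩
      refine ⟨?_, ?_, ?_, ?_⟩ <;> simp [lin_apply] <;> linarith)
    (fun z => ext3 (by simp [lin_apply]) (by simp [lin_apply]) (by simp [lin_apply]))
    (fun z => z 0)
  have s3 := cent_sym !₂[1, 0, 0] (a0 := !₂[-1, 0, 0]) (a1 := !₂[-1, 1, 0]) (a2 := !₂[-1, 0, 1])
    (by simp [det3, dt])
    (by
      rintro z ⟨h0, h1, h2, h3⟩
      refine ⟨?_, ?_, ?_, ?_⟩ <;> simp [lin_apply] <;> linarith)
    (fun z => ext3 (by simp [lin_apply]; ring) (by simp [lin_apply]) (by simp [lin_apply]))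
    (fun z => z 0)
  have e1 : ∀ z : E3, ((0 : E3) + lin !₂[0, 1, 0] !₂[1, 0, 0] !₂[0, 0, 1] z) 0 = z 1 := by
    intro z; simp [lin_apply]
  have e2 : ∀ z : E3, ((0 : E3) + lin !₂[0, 0, 1] !₂[0, 1, 0] !₂[1, 0, 0] z) 0 = z 2 := by
    intro z; simp [lin_apply]
  have e3 : ∀ z : E3, ((!₂[1, 0, 0] : E3) + lin !₂[-1, 0, 0] !₂[-1, 1, 0] !₂[-1, 0, 1] z) 0 =
      1 - (z 0 + z 1 + z 2) := by
    intro z; simp [lin_apply]; ring
  simp only [e1] at s1
  simp only [e2] at s2
  simp only [e3] at s3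
  have i0 : IntegrableOn (fun z : E3 => z 0) T0 := cent_int0 (by fun_prop)
  have i1 : IntegrableOn (fun z : E3 => z 1) T0 := cent_int0 (by fun_prop)
  have i2 : IntegrableOn (fun z : E3 => z 2) T0 := cent_int0 (by fun_prop)
  have i3 : IntegrableOn (fun _ : E3 => (1 : ℝ)) T0 := cent_int0 continuous_const
  have v : ∫ _ in T0, (1 : ℝ) = 1 / 6 := by
    rw [setIntegral_const, smul_eq_mul, mul_one, Measure.real, T0, vol_tet_open,
      ENNReal.toReal_ofReal (by norm_num)]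
  have i4 : IntegrableOn (fun z : E3 => z 0 + z 1) T0 := cent_int0 (by fun_prop)
  have i5 : IntegrableOn (fun z : E3 => z 0 + z 1 + z 2) T0 := cent_int0 (by fun_prop)
  rw [integral_sub i3 i5, integral_add i4 i2, integral_add i0 i1, v] at s3
  exact ⟨by linarith, by linarith, by linarith⟩

lemma cent_lin {a0 a1 a2 : E3} (hd : det3 a0 a1 a2 ≠ 0) (e : E3) :
    ∫ x in lin a0 a1 a2 '' T0, dt e x = |det3 a0 a1 a2| * ((dt e a0 + dt e a1 + dt e a2) / 24) := by
  have h := cent_chg 0 hd (fun x => dt e x)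
  simp only [zero_add, dt_lin] at h
  have i0 : IntegrableOn (fun z : E3 => z 0 * dt e a0) T0 := cent_int0 (by fun_prop)
  have i1 : IntegrableOn (fun z : E3 => z 1 * dt e a1) T0 := cent_int0 (by fun_prop)
  have i2 : IntegrableOn (fun z : E3 => z 2 * dt e a2) T0 := cent_int0 (by fun_prop)
  have i3 : IntegrableOn (fun z : E3 => z 0 * dt e a0 + z 1 * dt e a1) T0 :=
    cent_int0 (by fun_prop)
  rw [integral_add i3 i2, integral_add i0 i1, integral_mul_const, integral_mul_const,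
    integral_mul_const, cent_mom.1, cent_mom.2.1, cent_mom.2.2] at h
  refine h.trans ?_
  ring

lemma cent_null : volume (tet 1 1 1 \ T0) = 0 := by
  have hs : T0 ⊆ tet 1 1 1 := fun z hz =>
    ⟨⟨hz.1.le, hz.2.1.le, hz.2.2.1.le⟩, by linarith [hz.2.2.2]⟩
  rw [measure_diff hs
    cent_open.measurableSet.nullMeasurableSet (by rw [T0, vol_tet_open]; exact ENNReal.ofReal_ne_top),
    vol_tet one_pos one_pos one_pos, T0, vol_tet_open]
  norm_num

lemma cent_pyr {h : ι → ℝ} (S : Sys u h Tr) (hh : ∀ i, 0 < h i) {c : ι → E3} (hc : Ctr u h c)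
    (i : ι) (e : E3) : ∫ x in pyr u h i, dt e x = ∑ j, DD u Tr h c i j *
      ((dt e (c i) + dt e (ep u Tr h i j) + dt e (em u Tr h i j)) / 24) := by
  classical
  set s := Finset.univ.filter fun j => Adj Tr i j with hs
  have hA : ∀ j ∈ s, Adj Tr i j := fun j hj => (Finset.mem_filter.1 hj).2
  have hd : ∀ j ∈ s, det3 (c i) (ep u Tr h i j) (em u Tr h i j) ≠ 0 := fun j hj => by
    rw [det_eq S hc (hA j hj)]
    exact neg_ne_zero.2 (DD_pos S hh hc (hA j hj)).ne'
  have h1 : pyr u h i =ᵐ[volume] ⋃ j ∈ s, LL u Tr h c i j '' T0 := by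
    refine ae_eq_set.2 ⟨?_, ?_⟩
    · refine measure_mono_null (t := ⋃ j ∈ s, LL u Tr h c i j '' (tet 1 1 1 \ T0)) ?_ ?_
      · rintro x ⟨hx, hn⟩
        obtain ⟨h2, h3⟩ := pyr_mem (hh i) hx (div_mul_cancel₀ _ (hh i).ne').symm
        obtain ⟨j, A, z, hz, h4, h5⟩ := cover_face S hc h3 h2.1.le
        have hj : j ∈ s := Finset.mem_filter.2 ⟨Finset.mem_univ _, A⟩
        rw [smul_smul, mul_inv_cancel₀ h2.1.ne', one_smul] at h5
        exact mem_biUnion hj ⟨z, ⟨⟨hz, by linarith [h2.2]⟩,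
          fun h0 => hn (mem_biUnion hj ⟨z, h0, h5⟩)⟩, h5⟩
      · refine (measure_biUnion_null_iff s.countable_toSet).2 fun j hj => ?_
        rw [vol_img S hh hc (hA j hj), cent_null, mul_zero]
    · refine measure_mono_null (t := ∅) ?_ measure_empty
      rintro x ⟨hx, hn⟩
      obtain ⟨j, hj, z, hz, rfl⟩ := mem_iUnion₂.1 hx
      have A := hA j hj
      have h2 := FlagX.dt_self (i := i) (j := j) S hc A z
      have h3 : 0 < z 0 + z 1 + z 2 := by linarith [hz.1, hz.2.1, hz.2.2.1]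
      refine hn ⟨h2 ▸ mul_pos h3 (hh i), by nlinarith [hz.2.2.2, hh i], fun l => ?_⟩
      rw [h2]
      linarith [mul_le_mul_of_nonneg_left (dt_le' (i := i) (j := j) S hc A hz l) (hh i).le]
  rw [setIntegral_congr_set h1, integral_biUnion_finset s (fun j hj => ?_) ?_ fun j _ => ?_]
  · rw [← Finset.sum_filter_of_ne (s := Finset.univ) (p := fun j => Adj Tr i j)
      fun j _ ha => by_contra fun A => ha (by simp [DD, mu_of_not A])]
    refine Finset.sum_congr rfl fun j hj => ?_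
    rw [cent_lin (hd j hj), det_eq S hc (hA j hj), abs_neg, abs_of_pos (DD_pos S hh hc (hA j hj))]
  · intro j hj l hl hne
    refine disjoint_left.2 ?_
    rintro _ ⟨z, hz, rfl⟩ ⟨z', hz', e⟩
    exact hne (disj S hh hc (hA j hj) (hA l hl) hz hz' e.symm).2
  · exact cent_open.measurableSet.image_of_continuousOn_injOn
      (LL u Tr h c i j).continuous_of_finiteDimensional.continuousOn (cent_inj (hd j hj)).injOn
  · exact cent_int (LL u Tr h c i j).continuous_of_finiteDimensional (by fun_prop)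

theorem Crit.centroid (C : Crit u Tr) (i : ι) (e : E3) :
    ∫ x in fc u 1 {i}, dt e x ∂μHE[2] = dt e (u i) * ar u 1 i := by
  have S := C.sys
  have hu := C.unit
  have h1 := S.pyr_integral1 (fun _ => one_pos) hu i (φ := fun x => dt e x) (by fun_prop)
  have h2 : ∀ x : E3, ∫ l in (0 : ℝ)..1, l ^ 2 * dt e (l • x) = 1 / 4 * dt e x := by
    intro x
    have : ∀ l : ℝ, l ^ 2 * dt e (l • x) = l ^ 3 * dt e x := fun l => by rw [dt_smul]; ring
    simp only [this]
    rw [intervalIntegral.integral_mul_const, integral_pow]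
    norm_num
  simp only [h2, Pi.one_apply, one_mul] at h1
  rw [integral_const_mul, cent_pyr S (fun _ => one_pos) (S.ctr_u hu) i e] at h1
  have f := S.first_var C.opt hu i (hu i) (fun l hl => S.cos_lt hu hl)
    (v := e - dt e (u i) • u i) (by rw [dt_sub, dt_smul, hu, dt_comm]; ring)
  have h3 : ∑ j, DD u Tr 1 u i j * ((dt e (u i) + dt e (ep u Tr 1 i j) + dt e (em u Tr 1 i j)) / 24)
      = (∑ j, mu u Tr 1 i j * (1 - dt (u j) (u i)) * (dt (e - dt e (u i) • u i) (u i) +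
          dt (e - dt e (u i) • u i) (ep u Tr 1 i j) + dt (e - dt e (u i) • u i) (em u Tr 1 i j))) / 24
        + dt e (u i) / 8 * ∑ j, mu u Tr 1 i j * (1 - dt (u i) (u j)) := by
    rw [Finset.sum_div, Finset.mul_sum, ← Finset.sum_add_distrib]
    refine Finset.sum_congr rfl fun l _ => ?_
    by_cases A : Adj Tr i l
    · simp only [DD, sub_dt, smul_dt, hu, S.ep1 A, S.em1 A, Pi.one_apply, dt_comm (u l) (u i)]
      ring
    · simp [DD, mu_of_not A]
  rw [h3, f] at h1
  rw [S.ar_one hu]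
  linarith

end Pool.Agent.MP_5cfbf6_gt
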