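import Pool.Agent.Mg.F5cfbf6.Gbfcf44
import Pool.Agent.MP_7791e4_an.DefsQ1

section

set_option autoImplicit false

namespace Pool.Agent.MP_7791e4_an

open Set MeasureTheory Real Metric Filter Topology Pointwise

variable {a b : ℝ}

@[simp] lemma pt_re (u : ℝ) : (pt a b u).re = a * cos u := rfl
@[simp] lemma pt_im (u : ℝ) : (pt a b u).im = b * sin u := rfl

lemma B_pt (ha : 0 < a) (hb : 0 < b) (u v : ℝ) : B a b (pt a b u) (pt a b v) = cos (u - v) := by
  simp only [B, pt_re, pt_im, cos_sub]; field_simp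

lemma B_pt_self (ha : 0 < a) (hb : 0 < b) (u : ℝ) : B a b (pt a b u) (pt a b u) = 1 := by
  rw [B_pt ha hb, sub_self, cos_zero]

lemma pt_mem (ha : 0 < a) (hb : 0 < b) (u : ℝ) : pt a b u ∈ ell a b :=
  mem_ell.2 (B_pt_self ha hb u).le

lemma cross_pt (u v : ℝ) : cross (pt a b u) (pt a b v) = a * b * sin (v - u) := by
  simp only [cross, pt_re, pt_im, sin_sub]; ring

lemma pt_add_pi (u : ℝ) : pt a b (u + π) = -pt a b u := by
  apply Complex.ext <;> simp

lemma pt_periodic : Function.Periodic (pt a b) (2 * π) := fun u => by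
  apply Complex.ext <;> simp

lemma pt_circ (r θ : ℝ) : pt r r θ = r • ev θ := by
  apply Complex.ext <;> simp

lemma circ_eq (c : ℂ) (r θ : ℝ) : circ c r θ = c + r • ev θ := by
  rw [← pt_circ]; rfl

lemma pt_eq (u : ℝ) : pt a b u = ((a * cos u : ℝ) : ℂ) + ((b * sin u : ℝ) : ℂ) * Complex.I := by
  apply Complex.ext <;> simp [-Complex.ofReal_cos, -Complex.ofReal_sin]

@[fun_prop] lemma continuous_pt : Continuous (pt a b) := by
  have : pt a b = fun u => ((a * cos u : ℝ) : ℂ) + ((b * sin u : ℝ) : ℂ) * Complex.I :=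
    funext pt_eq
  rw [this]; fun_prop

@[fun_prop] lemma continuous_circ (c : ℂ) (r : ℝ) : Continuous (circ c r) := by
  have : circ c r = fun θ => c + r • ev θ := funext (circ_eq c r)
  rw [this]; fun_prop

lemma tg_pt (ha : 0 < a) (hb : 0 < b) (u : ℝ) :
    tg a b (pt a b u) = ⟨-(a * sin u), b * cos u⟩ := by
  apply Complex.ext <;> simp only [tg, pt_re, pt_im] <;> field_simp

lemma nu_pt (ha : 0 < a) (hb : 0 < b) (u : ℝ) : nu a b (pt a b u) = ⟨cos u / a, sin u / b⟩ := by
  apply Complex.ext <;> simp only [nu, pt_re, pt_im] <;> field_simp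

lemma exists_pt (ha : 0 < a) (hb : 0 < b) {z : ℂ} (hz : B a b z z = 1) (x : ℝ) :
    ∃ u ∈ Ico x (x + 2 * π), pt a b u = z := by
  have h : z ∈ range (pt a b) := by
    let w : ℂ := ⟨z.re / a, z.im / b⟩
    have n : ‖w‖ = 1 := by
      have : ‖w‖ ^ 2 = 1 := by
        rw [sq_norm', ← hz]; simp only [w, B]; field_simp
      nlinarith [norm_nonneg w]
    have e := eq_smul_ev w
    rw [n, one_smul] at e
    refine ⟨Complex.arg w, Complex.ext ?_ ?_⟩
    · have := congrArg Complex.re e
      simp only [w, ev_re] at this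
      rw [pt_re, ← this]; field_simp
    · have := congrArg Complex.im e
      simp only [w, ev_im] at this
      rw [pt_im, ← this]; field_simp
  obtain ⟨u, rfl⟩ := h
  exact ⟨toIcoMod two_pi_pos x u, toIcoMod_mem_Ico _ _ _, by
    rw [toIcoMod, (pt_periodic.zsmul _).sub_eq]⟩

/-- the closed half-plane to the right of the directed line from `P` to `Q`. -/
def HP (P Q : ℂ) : Set ℂ := {z | cross (Q - P) (z - P) ≤ 0}

lemma cross_flip (P Q z : ℂ) : cross (P - Q) (z - Q) = -cross (Q - P) (z - P) := by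
  simp [cross]; ring

lemma convex_HP (P Q : ℂ) : Convex ℝ (HP P Q) := by
  intro x hx y hy s t hs ht hst
  simp only [HP, mem_ofPred_eq] at *
  have : cross (Q - P) (s • x + t • y - P)
      = s * cross (Q - P) (x - P) + t * cross (Q - P) (y - P) := by
    have e : s = 1 - t := by linarith
    subst e; simp [cross]; ring
  rw [this]; nlinarith [mul_nonneg hs (neg_nonneg.2 hx), mul_nonneg ht (neg_nonneg.2 hy)]

lemma isClosed_HP (P Q : ℂ) : IsClosed (HP P Q) := isClosed_le (by fun_prop) continuous_const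

lemma left_mem_HP (P Q : ℂ) : P ∈ HP P Q := by simp [HP, cross]

lemma right_mem_HP (P Q : ℂ) : Q ∈ HP P Q := (cross_self _).le

lemma mem_HP_or (P Q z : ℂ) : z ∈ HP P Q ∨ z ∈ HP Q P := by
  simp only [HP, mem_ofPred_eq, cross_flip P Q]
  rcases le_total (cross (Q - P) (z - P)) 0 with h | h
  · exact Or.inl h
  · right; linarith

lemma chord_pt (s t u : ℝ) : cross (pt a b t - pt a b s) (pt a b u - pt a b s)
    = -(4 * (a * b) * sin ((t - s) / 2)) * (sin ((t - u) / 2) * sin ((u - s) / 2)) := by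
  rw [cross_sub, sub_cross, sub_cross, cross_self, cross_pt, cross_pt, cross_pt]
  set x := (t - u) / 2
  set y := (u - s) / 2
  rw [show (t - s) / 2 = x + y by simp only [x, y]; ring, show u - t = -(2 * x) by simp only [x]; ring,
    show u - s = 2 * y by simp only [y]; ring, show s - t = -(2 * (x + y)) by simp only [x, y]; ring,
    sin_neg, sin_neg, sin_two_mul, sin_two_mul, sin_two_mul, sin_add, cos_add]
  linear_combination ((2 * a * b * sin x * cos x)) * sin_sq_add_cos_sq y
    + (2 * a * b * sin y * cos y) * sin_sq_add_cos_sq x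

lemma chord_neg (ha : 0 < a) (hb : 0 < b) {s t u : ℝ} (h : t < s + 2 * π) (h1 : s < u) (h2 : u < t) :
    cross (pt a b t - pt a b s) (pt a b u - pt a b s) < 0 := by
  rw [chord_pt]
  have e1 := sin_pos_of_pos_of_lt_pi (x := (t - s) / 2) (by linarith) (by linarith)
  have e2 := sin_pos_of_pos_of_lt_pi (x := (t - u) / 2) (by linarith) (by linarith)
  have e3 := sin_pos_of_pos_of_lt_pi (x := (u - s) / 2) (by linarith) (by linarith)
  have : 0 < 4 * (a * b) * sin ((t - s) / 2) * (sin ((t - u) / 2) * sin ((u - s) / 2)) := by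
    positivity
  linarith

lemma chord_pos (ha : 0 < a) (hb : 0 < b) {s t u : ℝ} (h : s < t) (h1 : t < u) (h2 : u < s + 2 * π) :
    0 < cross (pt a b t - pt a b s) (pt a b u - pt a b s) := by
  have := chord_neg ha hb (s := t) (t := s + 2 * π) (u := u) (by linarith) h1 h2
  rw [pt_periodic s, cross_flip] at this
  linarith

lemma pt_mem_HP (ha : 0 < a) (hb : 0 < b) {s t u : ℝ} (h : t < s + 2 * π) (hu : u ∈ Icc s t) :
    pt a b u ∈ HP (pt a b s) (pt a b t) := by
  rcases hu.1.eq_or_lt with e | e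
  · rw [← e]; exact left_mem_HP _ _
  rcases hu.2.eq_or_lt with e' | e'
  · rw [e']; exact right_mem_HP _ _
  exact (chord_neg ha hb h e e').le

lemma of_mem_HP (ha : 0 < a) (hb : 0 < b) {s t : ℝ} (h : s < t) {z : ℂ} (hz : B a b z z = 1)
    (h1 : z ∈ HP (pt a b s) (pt a b t)) : ∃ u ∈ Icc s t, pt a b u = z := by
  obtain ⟨u, hu, rfl⟩ := exists_pt ha hb hz s
  refine ⟨u, ⟨hu.1, ?_⟩, rfl⟩
  by_contra hc
  exact absurd h1 (not_le.2 (chord_pos ha hb h (not_le.1 hc) hu.2))

lemma pt_ne (ha : 0 < a) (hb : 0 < b) {s t : ℝ} (h : s < t) (h' : t < s + 2 * π) :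
    pt a b s ≠ pt a b t := fun e => by
  have := chord_neg ha hb h' (u := (s + t) / 2) (by linarith) (by linarith)
  rw [e, sub_self] at this
  simp [cross] at this

lemma pt_sub (ha : 0 < a) (hb : 0 < b) (s t : ℝ) : pt a b t - pt a b s
    = (2 * sin ((t - s) / 2)) • tg a b (pt a b ((s + t) / 2)) := by
  rw [tg_pt ha hb]
  apply Complex.ext
  · simp only [Complex.sub_re, pt_re, Complex.smul_re, smul_eq_mul]
    rw [← mul_sub, cos_sub_cos, add_comm t s]; ring
  · simp only [Complex.sub_im, pt_im, Complex.smul_im, smul_eq_mul]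
    rw [← mul_sub, sin_sub_sin, add_comm t s]; ring

lemma hasDerivAt_mk {f g : ℝ → ℝ} {f' g' u : ℝ} (hf : HasDerivAt f f' u) (hg : HasDerivAt g g' u) :
    HasDerivAt (fun x => (⟨f x, g x⟩ : ℂ)) ⟨f', g'⟩ u := by
  have e : (fun x => (⟨f x, g x⟩ : ℂ)) = fun x => (f x : ℂ) + (g x : ℂ) * Complex.I := by
    funext x; apply Complex.ext <;> simp
  rw [e]
  exact (hf.ofReal_comp.add (hg.ofReal_comp.mul_const Complex.I)).congr_deriv
    (by apply Complex.ext <;> simp)

lemma nu_pt_pos (ha : 0 < a) (hb : 0 < b) (u : ℝ) : 0 < ‖nu a b (pt a b u)‖ :=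
  norm_pos_iff.2 fun h => by
    have := B_pt_self ha hb u
    rw [← dot_nu, h] at this; simp [dot] at this

/-- the angle of the outer normal. -/
noncomputable def ph (a b u : ℝ) : ℝ := u + Complex.arg (nu a b (pt a b u) * ev (-u))

lemma re_N_pos (ha : 0 < a) (hb : 0 < b) (u : ℝ) : 0 < (nu a b (pt a b u) * ev (-u)).re := by
  rw [nu_pt ha hb]
  simp only [Complex.mul_re, ev_re, ev_im, cos_neg, sin_neg]
  have h := sin_sq_add_cos_sq u
  have e : cos u / a * cos u - sin u / b * -sin u = cos u ^ 2 / a + sin u ^ 2 / b := by ring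
  rw [e]
  rcases eq_or_ne (cos u) 0 with c | c
  · have : 0 < sin u ^ 2 := by rw [c] at h; nlinarith
    positivity
  · positivity

lemma nu_eq (u : ℝ) : nu a b (pt a b u) = ‖nu a b (pt a b u)‖ • ev (ph a b u) := by
  have e := eq_smul_ev (nu a b (pt a b u) * ev (-u))
  rw [norm_mul, norm_ev, mul_one] at e
  have e0 : ev 0 = 1 := by apply Complex.ext <;> simp
  calc nu a b (pt a b u) = nu a b (pt a b u) * ev (-u) * ev u := by
        rw [mul_assoc, ev_mul, neg_add_cancel, e0, mul_one]
    _ = _ := by rw [e, smul_mul_assoc, ev_mul, ph, add_comm u]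

lemma ph_add_pi (u : ℝ) : ph a b (u + π) = ph a b u + π := by
  have e : ev (-(u + π)) = -ev (-u) := by
    apply Complex.ext <;> simp only [ev_re, ev_im, cos_neg, sin_neg, cos_add_pi, sin_add_pi,
      Complex.neg_re, Complex.neg_im]
  have e2 : nu a b (-pt a b u) = -nu a b (pt a b u) := by
    apply Complex.ext <;> simp [nu, neg_div]
  rw [ph, ph, pt_add_pi, e, e2, neg_mul_neg]; ring

lemma hasDerivAt_ph (ha : 0 < a) (hb : 0 < b) (u : ℝ) :
    HasDerivAt (ph a b) (1 / (a * b * ‖nu a b (pt a b u)‖ ^ 2)) u := by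
  have e : ph a b = fun u => u + (Complex.log ((⟨cos u / a, sin u / b⟩ : ℂ) * ⟨cos u, -sin u⟩)).im := by
    funext x
    rw [ph, Complex.log_im, nu_pt ha hb]
    congr 3
    apply Complex.ext <;> simp
  have d1 := hasDerivAt_mk ((hasDerivAt_cos u).div_const a) ((hasDerivAt_sin u).div_const b)
  have d2 := hasDerivAt_mk (hasDerivAt_cos u) (hasDerivAt_sin u).neg
  have p := re_N_pos ha hb u
  rw [nu_pt ha hb, show ev (-u) = ⟨cos u, -sin u⟩ by apply Complex.ext <;> simp] at p
  have d3 := (d1.mul d2).clog_real (Or.inl p)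
  have d4 := (hasDerivAt_id u).add (Complex.imCLM.hasFDerivAt.comp_hasDerivAt u d3)
  rw [e]
  refine d4.congr_deriv (Eq.symm ?_)
  have n0 := nu_pt_pos ha hb u
  have n1 : (⟨cos u / a, sin u / b⟩ : ℂ) ≠ 0 := by rw [← nu_pt ha hb]; exact norm_pos_iff.1 n0
  have n2 : (⟨cos u, -sin u⟩ : ℂ) ≠ 0 := fun h => by rw [h] at p; simp at p
  simp only [Pi.mul_apply, Pi.neg_apply, Complex.imCLM_apply]
  rw [add_div, mul_div_mul_right _ _ n2, mul_div_mul_left _ _ n1, Complex.add_im, nu_pt ha hb,
    Complex.sq_norm, Complex.div_im, Complex.div_im]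
  have n3 : Complex.normSq (⟨cos u, -sin u⟩ : ℂ) = 1 := by
    rw [Complex.normSq_apply]; simp only; nlinarith [sin_sq_add_cos_sq u]
  have n4 : Complex.normSq (⟨cos u / a, sin u / b⟩ : ℂ) ≠ 0 := by
    rwa [Ne, Complex.normSq_eq_zero]
  rw [n3]
  simp only
  set N := Complex.normSq (⟨cos u / a, sin u / b⟩ : ℂ)
  field_simp
  linear_combination (-1 + a * b * N) * sin_sq_add_cos_sq u

@[fun_prop] lemma continuous_ph (ha : 0 < a) (hb : 0 < b) : Continuous (ph a b) :=
  continuous_iff_continuousAt.2 fun u => (hasDerivAt_ph ha hb u).continuousAt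

lemma strictMono_ph (ha : 0 < a) (hb : 0 < b) : StrictMono (ph a b) :=
  strictMono_of_hasDerivAt_pos (hasDerivAt_ph ha hb) fun u => by
    have := nu_pt_pos ha hb u; positivity

lemma norm_nu_pt (ha : 0 < a) (hb : 0 < b) (u : ℝ) :
    a * b * ‖nu a b (pt a b u)‖ = √((a * sin u) ^ 2 + (b * cos u) ^ 2) := by
  symm
  rw [Real.sqrt_eq_iff_mul_self_eq (by positivity) (by positivity), ← sq, mul_pow (a * b), sq_norm',
    nu_pt ha hb]
  field_simp; ring

lemma nrm_eq (ha : 0 < a) (hb : 0 < b) (u : ℝ) : nrm a b u = ev (ph a b u) := by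
  have n0 := nu_pt_pos ha hb u
  apply smul_right_injective ℂ n0.ne'
  simp only
  rw [← nu_eq, nrm, ← norm_nu_pt ha hb]
  set N := ‖nu a b (pt a b u)‖
  rw [nu_pt ha hb]
  apply Complex.ext <;> simp only [Complex.smul_re, Complex.smul_im, smul_eq_mul] <;> field_simp

lemma crv_eq (ha : 0 < a) (hb : 0 < b) (u : ℝ) :
    crv a b u = (a * b) ^ 2 * ‖nu a b (pt a b u)‖ ^ 3 := by
  rw [crv, ← norm_nu_pt ha hb]; field_simp

lemma tg_eq (ha : 0 < a) (hb : 0 < b) (u : ℝ) : tg a b (pt a b u)
    = (a * b * ‖nu a b (pt a b u)‖) • ev (ph a b u + π / 2) := by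
  have e := nu_eq (a := a) (b := b) u
  set N := ‖nu a b (pt a b u)‖
  rw [nu_pt ha hb] at e
  have e1 := congrArg Complex.re e
  have e2 := congrArg Complex.im e
  simp only [Complex.smul_re, Complex.smul_im, smul_eq_mul, ev_re, ev_im] at e1 e2
  rw [tg_pt ha hb]
  field_simp at e1 e2
  apply Complex.ext <;> simp only [Complex.smul_re, Complex.smul_im, smul_eq_mul, ev_re, ev_im,
    cos_add_pi_div_two, sin_add_pi_div_two]
  · rw [e2]; ring
  · rw [e1]; ring

lemma hasDerivAt_pt (ha : 0 < a) (hb : 0 < b) (u : ℝ) :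
    HasDerivAt (pt a b) (tg a b (pt a b u)) u := by
  rw [tg_pt ha hb]
  have := hasDerivAt_mk ((hasDerivAt_cos u).const_mul a) ((hasDerivAt_sin u).const_mul b)
  rwa [mul_neg] at this

end Pool.Agent.MP_7791e4_an

end

section

set_option autoImplicit false

namespace Pool.Agent.MP_7791e4_an

open Set MeasureTheory Real Metric Filter Topology Pointwise

variable {a b : ℝ}

lemma parallel {y v : ℂ} (hy : y ≠ 0) (h : cross y v = 0) : v = (dot y v / ‖y‖ ^ 2) • y := by
  have n0 : 0 < ‖y‖ ^ 2 := by have := norm_pos_iff.2 hy; positivity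
  rw [sq_norm'] at n0 ⊢
  simp only [cross, dot] at h ⊢
  apply Complex.ext <;> simp only [Complex.smul_re, Complex.smul_im, smul_eq_mul] <;>
    rw [div_mul_eq_mul_div, eq_div_iff n0.ne']
  · linear_combination (-y.im) * h
  · linear_combination (y.re) * h

/-- the midpoint of a chord. -/
noncomputable def md (a b s t : ℝ) : ℂ := (1 / 2 : ℝ) • (pt a b s + pt a b t)

noncomputable def gg (s t u : ℝ) : ℝ := 1 - (cos (u - s) + cos (u - t)) / 2

@[fun_prop] lemma continuous_gg (s t : ℝ) : Continuous (gg s t) := by unfold gg; fun_prop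

lemma B_md (ha : 0 < a) (hb : 0 < b) (s t u : ℝ) :
    B a b (pt a b u) (md a b s t) = 1 - gg s t u := by
  rw [md, B_smul, B_add, B_pt ha hb, B_pt ha hb, gg]; ring

lemma md_int (ha : 0 < a) (hb : 0 < b) {s t : ℝ} (h : s < t) (h' : t < s + 2 * π) :
    B a b (md a b s t) (md a b s t) < 1 := by
  have := B_lt_one ha hb (pt_mem ha hb s) (pt_mem ha hb t) (pt_ne ha hb h h')
  rw [md, smul_add, B_comb, B_pt_self ha hb, B_pt_self ha hb]; linarith

lemma gg_pos {s t : ℝ} (h : s < t) (h' : t < s + 2 * π) (u : ℝ) : 0 < gg s t u := by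
  have h1 := md_int one_pos one_pos h h'
  have := B_lt_one one_pos one_pos (pt_mem one_pos one_pos u) (mem_ell.2 h1.le) (fun e => by
    rw [← e, B_pt_self one_pos one_pos] at h1; exact lt_irrefl _ h1)
  rw [B_md one_pos one_pos] at this
  linarith

lemma cross_md (s t : ℝ) (z : ℂ) : cross (pt a b t - pt a b s) (z - md a b s t)
    = cross (pt a b t - pt a b s) (z - pt a b s) := by
  simp [cross, md]; ring

lemma cover (ha : 0 < a) (hb : 0 < b) {s t : ℝ} (h : s < t) (h' : t < s + 2 * π) {z : ℂ}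
    (hz : z ∈ HP (pt a b s) (pt a b t)) :
    ∃ u ∈ Icc s t, ∃ ρ : ℝ, 0 ≤ ρ ∧ z = md a b s t + ρ • (pt a b u - md a b s t) := by
  have w0 : pt a b t - pt a b s ≠ 0 := sub_ne_zero.2 (pt_ne ha hb h h').symm
  have hz' : cross (pt a b t - pt a b s) (z - md a b s t) ≤ 0 := by rw [cross_md]; exact hz
  have e1 : pt a b s - md a b s t = (-1 / 2 : ℝ) • (pt a b t - pt a b s) := by
    simp only [md, Complex.real_smul]; push_cast; ring
  have e2 : pt a b t - md a b s t = (1 / 2 : ℝ) • (pt a b t - pt a b s) := by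
    simp only [md, Complex.real_smul]; push_cast; ring
  rcases hz'.eq_or_lt with c | c
  · have := parallel w0 c
    set l := dot (pt a b t - pt a b s) (z - md a b s t) / ‖pt a b t - pt a b s‖ ^ 2
    rcases le_total 0 l with l0 | l0
    · refine ⟨t, ⟨h.le, le_rfl⟩, 2 * l, by linarith, ?_⟩
      rw [e2, smul_smul, show 2 * l * (1 / 2) = l by ring, ← this]; ring
    · refine ⟨s, ⟨le_rfl, h.le⟩, -2 * l, by linarith, ?_⟩
      rw [e1, smul_smul, show -2 * l * (-1 / 2) = l by ring, ← this]; ring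
  · let F : ℝ → ℝ := fun u => cross (z - md a b s t) (pt a b u - md a b s t)
    have F1 : F s < 0 := by
      simp only [F]; rw [e1, cross_smul, cross_anti]; linarith
    have F2 : 0 < F t := by
      simp only [F]; rw [e2, cross_smul, cross_anti]; linarith
    obtain ⟨u, hu, e⟩ := intermediate_value_Ioo h.le (f := F) (by fun_prop) ⟨F1, F2⟩
    have n := chord_neg ha hb h' hu.1 hu.2
    rw [← cross_md] at n
    have y0 : pt a b u - md a b s t ≠ 0 := fun e => by rw [e] at n; simp [cross] at n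
    have := parallel y0 (v := z - md a b s t) (by rw [cross_anti]; simp only [F] at e; linarith)
    set l := dot (pt a b u - md a b s t) (z - md a b s t) / ‖pt a b u - md a b s t‖ ^ 2
    refine ⟨u, Ioo_subset_Icc_self hu, l, ?_, by rw [← this]; ring⟩
    rw [this, cross_smul] at c
    by_contra hc
    nlinarith

lemma sector_le (ha : 0 < a) (hb : 0 < b) {s t : ℝ} (h : s < t) (h' : t < s + 2 * π) (c : ℂ)
    {X : Set ℂ} {f : ℝ → ℝ} (hf : Continuous f)
    (hX : ∀ z ∈ X, ∃ u ∈ Icc s t, ∃ ρ : ℝ, 0 ≤ ρ ∧ ρ ≤ f u ∧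
      z = c + md a b s t + ρ • (pt a b u - md a b s t)) :
    volume.real X ≤ ∫ u in s..t, a * b / 2 * gg s t u * f u ^ 2 := by
  set o := md a b s t with ho
  let Φ : ℝ × ℝ → ℝ × ℝ := fun w => (c.re + o.re + w.2 * (a * cos w.1 - o.re),
    c.im + o.im + w.2 * (b * sin w.1 - o.im))
  let Φ' : ℝ × ℝ → (ℝ × ℝ →L[ℝ] ℝ × ℝ) := fun w =>
    (Matrix.toLin (.finTwoProd ℝ) (.finTwoProd ℝ)
      !![-(w.2 * (a * sin w.1)), a * cos w.1 - o.re;
        w.2 * (b * cos w.1), b * sin w.1 - o.im]).toContinuousLinearMap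
  have dΦ : ∀ w, HasFDerivAt Φ (Φ' w) w := by
    intro w
    simp only [Φ']
    rw [Matrix.toLin_finTwoProd_toContinuousLinearMap]
    refine (HasFDerivAt.prodMk (𝕜 := ℝ)
      ((hasFDerivAt_snd.mul ((((hasDerivAt_cos w.1).comp_hasFDerivAt w hasFDerivAt_fst).const_mul
        a).sub_const o.re)).const_add (c.re + o.re))
      ((hasFDerivAt_snd.mul ((((hasDerivAt_sin w.1).comp_hasFDerivAt w hasFDerivAt_fst).const_mul
        b).sub_const o.im)).const_add (c.im + o.im))).congr_fderiv ?_
    ext <;> simp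
  have det : ∀ w, (Φ' w).det = -(w.2 * (a * b * gg s t w.1)) := by
    intro w
    simp only [Φ', LinearMap.det_toContinuousLinearMap, LinearMap.det_toLin, Matrix.det_fin_two_of]
    have e := B_md ha hb s t w.1
    rw [← ho] at e
    simp only [B, pt_re, pt_im] at e
    field_simp at e
    linear_combination (-(w.2 * a * b)) * sin_sq_add_cos_sq w.1 + w.2 * e
  let Ω : Set (ℝ × ℝ) := {w | w.1 ∈ Icc s t ∧ w.2 ∈ Icc 0 (f w.1)}
  have mΩ : MeasurableSet Ω := by
    refine (measurableSet_Icc.preimage measurable_fst).inter ?_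
    exact (measurableSet_le measurable_const measurable_snd).inter
      (measurableSet_le measurable_snd (hf.measurable.comp measurable_fst))
  have h1 : volume X ≤ volume (Φ '' Ω) := by
    rw [← Complex.volume_preserving_equiv_real_prod.measure_preimage_equiv]
    apply measure_mono
    intro z hz
    obtain ⟨u, hu, ρ, r0, r1, e⟩ := hX z hz
    refine ⟨(u, ρ), ⟨hu, r0, r1⟩, ?_⟩
    rw [e]; simp [Φ]
  have h2 := addHaar_image_le_lintegral_abs_det_fderiv volume mΩ
    (fun w _ => (dΦ w).hasFDerivWithinAt)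
  have g0 := gg_pos h h'
  have h3 : ∫⁻ w in Ω, ENNReal.ofReal |(Φ' w).det|
      ≤ ∫⁻ u in Ioc s t, ENNReal.ofReal (a * b / 2 * gg s t u * f u ^ 2) := by
    simp only [det]
    rw [← lintegral_indicator mΩ, Measure.volume_eq_prod, lintegral_prod _
      (Measurable.indicator (by fun_prop) mΩ).aemeasurable, ← restrict_Ioc_eq_restrict_Icc.symm,
      ← lintegral_indicator measurableSet_Icc]
    apply lintegral_mono
    intro u
    by_cases hu : u ∈ Icc s t
    swap
    · have : ∀ y, Ω.indicator (fun w : ℝ × ℝ => ENNReal.ofReal |-(w.2 * (a * b * gg s t w.1))|)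
          (u, y) = 0 := fun y => indicator_of_notMem (fun h => hu h.1) _
      simp only [this, lintegral_zero]
      exact bot_le
    have : ∀ y, Ω.indicator (fun w : ℝ × ℝ => ENNReal.ofReal |-(w.2 * (a * b * gg s t w.1))|)
        (u, y) = (Icc 0 (f u)).indicator (fun y => ENNReal.ofReal (y * (a * b * gg s t u))) y := by
      intro y
      by_cases hy : y ∈ Icc 0 (f u)
      · rw [indicator_of_mem (show (u, y) ∈ Ω from ⟨hu, hy⟩), indicator_of_mem hy, abs_neg,
          abs_of_nonneg (mul_nonneg hy.1 (by have := g0 u; positivity))]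
      · rw [indicator_of_notMem (fun h => hy h.2), indicator_of_notMem hy]
    simp only [this]
    rw [indicator_of_mem hu, lintegral_indicator measurableSet_Icc]
    rcases lt_or_ge (f u) 0 with c | c
    · rw [Icc_eq_empty (not_le.2 c)]; simp
    rw [← ofReal_integral_eq_lintegral_ofReal (by apply Continuous.integrableOn_Icc; fun_prop)
      ((ae_restrict_iff' measurableSet_Icc).2 (Eventually.of_forall fun y hy =>
        mul_nonneg hy.1 (by have := g0 u; positivity))), integral_Icc_eq_integral_Ioc,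
      ← intervalIntegral.integral_of_le c, intervalIntegral.integral_mul_const, integral_id]
    apply le_of_eq; congr 1; ring
  have n0 : ∀ u, 0 ≤ a * b / 2 * gg s t u * f u ^ 2 := fun u => by have := g0 u; positivity
  rw [← ofReal_integral_eq_lintegral_ofReal
    ((by fun_prop : Continuous fun u => a * b / 2 * gg s t u * f u ^ 2).integrableOn_Icc.mono_set
      Ioc_subset_Icc_self) (Eventually.of_forall n0), ← intervalIntegral.integral_of_le h.le] at h3
  exact ENNReal.toReal_le_of_le_ofReal (intervalIntegral.integral_nonneg h.le fun u _ => n0 u)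
    (h1.trans (h2.trans h3))

lemma integral_gg (s t : ℝ) : ∫ u in s..t, gg s t u = t - s - sin (t - s) := by
  unfold gg
  rw [intervalIntegral.integral_sub (by apply Continuous.intervalIntegrable; fun_prop)
    (by apply Continuous.intervalIntegrable; fun_prop), intervalIntegral.integral_div,
    intervalIntegral.integral_add (by apply Continuous.intervalIntegrable; fun_prop)
    (by apply Continuous.intervalIntegrable; fun_prop),
    intervalIntegral.integral_comp_sub_right (fun x => cos x),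
    intervalIntegral.integral_comp_sub_right (fun x => cos x), integral_cos, integral_cos,
    show s - t = -(t - s) by ring, sin_neg]
  simp

lemma HP_shift (c P Q z : ℂ) : z ∈ HP (c + P) (c + Q) ↔ z - c ∈ HP P Q := by
  simp only [HP, mem_ofPred_eq]
  rw [show c + Q - (c + P) = Q - P by ring, show z - (c + P) = z - c - P by ring]

lemma fv (ha : 0 < a) (hb : 0 < b) {s t : ℝ} (h : s < t) (h' : t < s + 2 * π) (c : ℂ)
    {M : Set ℂ} {D : ℝ → ℝ} (hD : Continuous D) (ε : ℝ)
    (hM : ∀ z ∈ M, ∀ u ∈ Icc s t, B a b (pt a b u) (z - c) ≤ 1 + ε * D u) :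
    volume.real (M ∩ HP (c + pt a b s) (c + pt a b t)) ≤ a * b / 2 * (t - s - sin (t - s))
      + ε * (∫ u in s..t, a * b * D u) + ε ^ 2 * ∫ u in s..t, a * b / 2 * (D u ^ 2 / gg s t u) := by
  have g0 := gg_pos h h'
  have cf : Continuous fun u => (gg s t u + ε * D u) / gg s t u :=
    Continuous.div (by fun_prop) (by fun_prop) fun u => (g0 u).ne'
  have c2 : Continuous fun u => D u ^ 2 / gg s t u :=
    Continuous.div (by fun_prop) (by fun_prop) fun u => (g0 u).ne'
  refine (sector_le ha hb h h' c cf fun z hz => ?_).trans (le_of_eq ?_)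
  · obtain ⟨u, hu, ρ, r0, e⟩ := cover ha hb h h' ((HP_shift _ _ _ _).1 hz.2)
    refine ⟨u, hu, ρ, r0, ?_, by rw [add_assoc, ← e]; ring⟩
    have := hM z hz.1 u hu
    rw [e, B_add, B_smul, B_sub, B_md ha hb, B_pt_self ha hb] at this
    rw [le_div_iff₀ (g0 u)]; linarith
  · rw [← integral_gg, ← intervalIntegral.integral_const_mul, ← intervalIntegral.integral_const_mul,
      ← intervalIntegral.integral_const_mul, ← intervalIntegral.integral_add
      (by apply Continuous.intervalIntegrable; fun_prop)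
      (by apply Continuous.intervalIntegrable; fun_prop), ← intervalIntegral.integral_add
      (by apply Continuous.intervalIntegrable; fun_prop)
      (by apply Continuous.intervalIntegrable; fun_prop)]
    congr 1
    funext u
    have := (g0 u).ne'
    field_simp; ring

/-- the cap cut off by the chord from `pt s` to `pt t`. -/
def cap (a b s t : ℝ) : Set ℂ := ell a b ∩ HP (pt a b s) (pt a b t)

lemma cap_le (ha : 0 < a) (hb : 0 < b) {s t : ℝ} (h : s < t) (h' : t < s + 2 * π) :
    volume.real (cap a b s t) ≤ a * b / 2 * (t - s - sin (t - s)) := by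
  have := fv ha hb h h' 0 (M := ell a b) (D := fun _ => 0) continuous_const 0
    fun z hz u _ => by simpa using B_le_one (pt_mem ha hb u) hz
  simpa [cap] using this

lemma ar_cap (hb : 0 < b) (hab : b ≤ a) {s t : ℝ} (h : s < t) (h' : t < s + 2 * π) :
    volume.real (cap a b s t) = a * b / 2 * (t - s - sin (t - s)) := by
  have ha : 0 < a := by linarith
  refine le_antisymm (cap_le ha hb h h') ?_
  have h1 := cap_le ha hb (s := t) (t := s + 2 * π) h' (by linarith)
  have h2 : volume.real (ell a b) ≤ volume.real (cap a b s t ∪ cap a b t (s + 2 * π)) :=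
    measureReal_mono (fun z hz => by
      rcases mem_HP_or (pt a b s) (pt a b t) z with c | c
      · exact Or.inl ⟨hz, c⟩
      · exact Or.inr ⟨hz, by rwa [pt_periodic s]⟩)
      (fin_int hb hab (union_subset inter_subset_left inter_subset_left))
  have h3 := h2.trans (measureReal_union_le _ _)
  rw [ar_ell ha hb] at h3
  rw [show s + 2 * π - t = 2 * π - (t - s) by ring, sin_two_pi_sub] at h1
  linarith

lemma isCompact_cap (hb : 0 < b) (hab : b ≤ a) (s t : ℝ) : IsCompact (cap a b s t) :=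
  (isCompact_ell hb hab).inter_right (isClosed_HP _ _)

lemma convex_cap (s t : ℝ) : Convex ℝ (cap a b s t) := convex_ell.inter (convex_HP _ _)

lemma pt_mem_cap (ha : 0 < a) (hb : 0 < b) {s t u : ℝ} (h : t < s + 2 * π) (hu : u ∈ Icc s t) :
    pt a b u ∈ cap a b s t := ⟨pt_mem ha hb u, pt_mem_HP ha hb h hu⟩

lemma cap_subset (ha : 0 < a) (hb : 0 < b) {s t : ℝ} (h : s < t) (h' : t < s + 2 * π) {K : Set ℂ}
    (cK : Convex ℝ K) (hK : ∀ u ∈ Icc s t, pt a b u ∈ K) : cap a b s t ⊆ K := by
  intro z hz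
  obtain ⟨u, hu, ρ, r0, e⟩ := cover ha hb h h' hz.2
  have h1 := B_le_one (pt_mem ha hb u) hz.1
  rw [e, B_add, B_smul, B_sub, B_md ha hb, B_pt_self ha hb] at h1
  have g0 := gg_pos h h' u
  have r1 : ρ ≤ 1 := by nlinarith
  have m : md a b s t ∈ K := by
    rw [md, smul_add]
    exact cK (hK s ⟨le_rfl, h.le⟩) (hK t ⟨h.le, le_rfl⟩) (by norm_num) (by norm_num) (by norm_num)
  rw [e]
  exact cK.add_smul_sub_mem m (hK u hu) ⟨r0, r1⟩

lemma ell_self {r : ℝ} (hr : 0 < r) : ell r r = closedBall 0 r := by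
  ext z
  rw [mem_closedBall_zero_iff]
  exact ⟨norm_le_of_mem hr le_rfl, mem_of_norm_le hr le_rfl⟩

/-- the circular segment bounded by the arc from angle `x` to angle `y`. -/
def seg (c : ℂ) (r x y : ℝ) : Set ℂ := closedBall c r ∩ HP (circ c r x) (circ c r y)

lemma seg_eq {c : ℂ} {r : ℝ} (hr : 0 < r) (x y : ℝ) :
    seg c r x y = (fun z => (1:ℂ) * z + c) '' cap r r x y := by
  ext z
  constructor
  · intro hz
    refine ⟨z - c, ⟨?_, (HP_shift _ _ _ _).1 hz.2⟩, by ring⟩
    rw [ell_self hr, mem_closedBall_zero_iff, ← dist_eq_norm]; exact hz.1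
  · rintro ⟨w, hw, rfl⟩
    refine ⟨?_, (HP_shift c (pt r r x) (pt r r y) _).2 (by simpa using hw.2)⟩
    have := hw.1
    rw [ell_self hr] at this
    simpa using this

lemma ar_seg (c : ℂ) {r x y : ℝ} (hr : 0 < r) (h : x < y) (h' : y < x + 2 * π) :
    volume.real (seg c r x y) = r ^ 2 / 2 * (y - x - sin (y - x)) := by
  rw [seg_eq hr, ar_mul, ar_cap hr le_rfl h h']; simp; left; ring

lemma isCompact_seg (c : ℂ) (r x y : ℝ) : IsCompact (seg c r x y) :=
  (isCompact_closedBall _ _).inter_right (isClosed_HP _ _)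

lemma convex_seg (c : ℂ) (r x y : ℝ) : Convex ℝ (seg c r x y) :=
  (convex_closedBall _ _).inter (convex_HP _ _)

lemma norm_circ (c : ℂ) {r : ℝ} (hr : 0 ≤ r) (θ : ℝ) : ‖circ c r θ - c‖ = r := by
  rw [circ_eq, add_sub_cancel_left, norm_smul, norm_ev, mul_one, Real.norm_of_nonneg hr]

lemma circ_mem_seg (c : ℂ) {r x y θ : ℝ} (hr : 0 < r) (h : y < x + 2 * π) (hθ : θ ∈ Icc x y) :
    circ c r θ ∈ seg c r x y := by
  rw [seg_eq hr]
  exact ⟨_, pt_mem_cap hr hr h hθ, by simp only [circ, pt]; ring⟩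

lemma seg_subset (c : ℂ) {r x y : ℝ} (hr : 0 < r) (h : x < y) (h' : y < x + 2 * π) {K : Set ℂ}
    (cK : Convex ℝ K) (hK : ∀ θ ∈ Icc x y, circ c r θ ∈ K) : seg c r x y ⊆ K := by
  rw [seg_eq hr, image_subset_iff]
  refine cap_subset hr hr h h' ?_ fun u hu => ?_
  · have := cK.translate_preimage_left c
    simpa using this
  · have := hK u hu
    simp only [mem_preimage, one_mul]
    rwa [add_comm]

lemma circ_chord_neg (c : ℂ) {r x y θ : ℝ} (hr : 0 < r) (h : y < x + 2 * π) (h1 : x < θ)
    (h2 : θ < y) : cross (circ c r y - circ c r x) (circ c r θ - circ c r x) < 0 := by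
  have := chord_neg hr hr h h1 h2
  simp only [circ]
  rwa [add_sub_add_left_eq_sub, add_sub_add_left_eq_sub]

end Pool.Agent.MP_7791e4_an

end
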