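import Pool.Agent.Mg.F5cfbf6.G74cc55
import Pool.Agent.Mg.F5cfbf6.Ga37f64

section

set_option autoImplicit false

namespace Pool.Agent.MP_7791e4_an

open Set MeasureTheory Real Metric Filter Topology Pointwise

variable {a b : ℝ}

lemma cross_point {P Q x y : ℂ} (hx : x ∈ HP P Q) (hy : y ∈ HP Q P) :
    ∃ l ∈ Icc (0:ℝ) 1, cross (Q - P) (x + l • (y - x) - P) = 0 := by
  have h := intermediate_value_Icc (zero_le_one' ℝ)
    (f := fun l : ℝ => cross (Q - P) (x + l • (y - x) - P)) (by fun_prop)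
  have hy' : 0 ≤ cross (Q - P) (y - P) := by
    have : cross (P - Q) (y - Q) ≤ 0 := hy
    rw [cross_flip] at this; linarith
  have hx' : cross (Q - P) (x - P) ≤ 0 := hx
  exact h ⟨by simpa using hx', by simpa using hy'⟩

lemma seg_HP (P Q : ℂ) : segment ℝ P Q ⊆ HP P Q :=
  (convex_HP P Q).segment_subset (left_mem_HP P Q) (right_mem_HP P Q)

lemma per_split {K : Set ℂ} (hK : IsCompact K) (cK : Convex ℝ K) {P Q : ℂ} (hP : P ∈ K)
    (hl : ∀ z ∈ K, cross (Q - P) (z - P) = 0 → z ∈ segment ℝ P Q) :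
    per (K ∩ HP P Q) + per (K ∩ HP Q P) ≤ per K + 2 * ‖P - Q‖ := by
  have k1 := hK.inter_right (isClosed_HP P Q)
  have k2 := hK.inter_right (isClosed_HP Q P)
  have n1 : (K ∩ HP P Q).Nonempty := ⟨P, hP, left_mem_HP _ _⟩
  have n2 : (K ∩ HP Q P).Nonempty := ⟨P, hP, right_mem_HP _ _⟩
  have nK : K.Nonempty := ⟨P, hP⟩
  rw [← integral_max_dot]
  unfold per
  rw [← intervalIntegral.integral_add (ii_hs k1 n1 _ _) (ii_hs k2 n2 _ _),
    ← intervalIntegral.integral_add (ii_hs hK nK _ _)
      (by apply Continuous.intervalIntegrable; fun_prop)]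
  refine intervalIntegral.integral_mono_on two_pi_nonneg ((ii_hs k1 n1 _ _).add (ii_hs k2 n2 _ _))
    ((ii_hs hK nK _ _).add (by apply Continuous.intervalIntegrable; fun_prop)) fun θ _ => ?_
  obtain ⟨x, hx, e1⟩ := exists_hs k1 n1 (ev θ)
  obtain ⟨y, hy, e2⟩ := exists_hs k2 n2 (ev θ)
  obtain ⟨l, hl', e⟩ := cross_point hx.2 hy.2
  have m := hl _ (cK.add_smul_sub_mem hx.1 hy.1 hl') e
  have h1 : dot (ev θ) (x + l • (y - x)) ≤ max (dot (ev θ) P) (dot (ev θ) Q) :=
    (convex_dot_le (ev θ) (max (dot (ev θ) P) (dot (ev θ) Q))).segment_subset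
      (show dot (ev θ) P ≤ _ from le_max_left _ _) (show dot (ev θ) Q ≤ _ from le_max_right _ _) m
  rw [dot_add, dot_smul, dot_sub] at h1
  have h2 := le_hs hK hx.1 (ev θ)
  have h3 := le_hs hK hy.1 (ev θ)
  rw [← e1, ← e2]
  nlinarith [mul_nonneg hl'.1 (sub_nonneg.2 h2), mul_nonneg (sub_nonneg.2 hl'.2) (sub_nonneg.2 h3)]

lemma union_convex (ha : 0 < a) (hb : 0 < b) {X Y : Set ℂ} (cX : Convex ℝ X) (cY : Convex ℝ Y)
    (hX : X ⊆ ell a b) (hY : Y ⊆ ell a b) {P Q : ℂ} (hP : B a b P P = 1) (hQ : B a b Q Q = 1)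
    (hne : P ≠ Q) (sX : X ⊆ HP P Q) (sY : Y ⊆ HP Q P) (pX : P ∈ X) (qX : Q ∈ X) (pY : P ∈ Y)
    (qY : Q ∈ Y) : Convex ℝ (X ∪ Y) := by
  have key : ∀ x ∈ X, ∀ y ∈ Y, openSegment ℝ x y ⊆ X ∪ Y := by
    intro x hx y hy
    obtain ⟨l, hl, e⟩ := cross_point (sX hx) (sY hy)
    have m := on_line ha hb hP hQ hne (convex_ell.add_smul_sub_mem (hX hx) (hY hy) hl) e
    refine (openSegment_subset_union x y (z := x + l • (y - x))
      ⟨l, by rw [AffineMap.lineMap_apply_module']; ring⟩).trans ?_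
    rintro z (rfl | hz | hz)
    · exact Or.inl (cX.segment_subset pX qX m)
    · exact Or.inl (cX.openSegment_subset hx (cX.segment_subset pX qX m) hz)
    · exact Or.inr (cY.openSegment_subset (cY.segment_subset pY qY m) hy hz)
  rw [convex_iff_openSegment_subset]
  rintro x (hx | hx) y (hy | hy)
  · exact (cX.openSegment_subset hx hy).trans subset_union_left
  · exact key x hx y hy
  · rw [openSegment_symm]; exact key y hy x hx
  · exact (cY.openSegment_subset hx hy).trans subset_union_right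

lemma null_line {P Q : ℂ} (hne : P ≠ Q) : volume (HP P Q ∩ HP Q P) = 0 := by
  have h := vol_mul (Q - P) P {z : ℂ | z.im = 0}
  have h0 : volume {z : ℂ | z.im = 0} = 0 := by
    rw [vol_slices (isClosed_eq Complex.continuous_im continuous_const).measurableSet]
    simp
  rw [h0, mul_zero] at h
  refine measure_mono_null (fun z hz => ?_) h
  have h1 : cross (Q - P) (z - P) ≤ 0 := hz.1
  have h2 : cross (P - Q) (z - Q) ≤ 0 := hz.2
  rw [cross_flip] at h2
  have := parallel (sub_ne_zero.2 hne.symm) (v := z - P) (by linarith)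
  refine ⟨(dot (Q - P) (z - P) / ‖Q - P‖ ^ 2 : ℝ), Complex.ofReal_im _, ?_⟩
  simp only
  rw [mul_comm, ← Complex.real_smul, ← this]; ring

lemma ar_union {P Q : ℂ} (hne : P ≠ Q) {X Y : Set ℂ} (hX : IsCompact X) (hY : IsCompact Y)
    (sX : X ⊆ HP P Q) (sY : Y ⊆ HP Q P) :
    volume.real (X ∪ Y) = volume.real X + volume.real Y := by
  have h := measureReal_union_add_inter (μ := volume) (s := X) hY.measurableSet
    hX.measure_lt_top.ne hY.measure_lt_top.ne
  have h0 : volume.real (X ∩ Y) = 0 := by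
    rw [Measure.real, measure_mono_null (inter_subset_inter sX sY) (null_line hne)]; rfl
  linarith

lemma inter_HP_union (K : Set ℂ) (P Q : ℂ) : K ∩ HP P Q ∪ K ∩ HP Q P = K := by
  apply subset_antisymm (union_subset inter_subset_left inter_subset_left)
  intro z hz
  rcases mem_HP_or P Q z with h | h
  · exact Or.inl ⟨hz, h⟩
  · exact Or.inr ⟨hz, h⟩

lemma shift_vert {Y : Set ℂ} (hY : IsCompact Y) (cY : Convex ℝ Y) {m M ε : ℝ} (hm : m ≤ M)
    (hε : 0 ≤ ε) (h : ∀ z ∈ Y, z.re ∈ Icc m M) :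
    volume.real {z | z ∈ Y ∧ z + ε • Complex.I ∉ Y} ≤ ε * (M - m) := by
  apply ENNReal.toReal_le_of_le_ofReal (mul_nonneg hε (sub_nonneg.2 hm))
  have ms : MeasurableSet {z | z ∈ Y ∧ z + ε • Complex.I ∉ Y} :=
    hY.measurableSet.inter (hY.measurableSet.compl.preimage
      (f := fun z : ℂ => z + ε • Complex.I) (by fun_prop))
  rw [vol_slices ms,
    ENNReal.ofReal_mul hε, ← Real.volume_Icc, ← setLIntegral_const,
    ← lintegral_indicator measurableSet_Icc]
  apply lintegral_mono
  intro x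
  simp only
  rcases {y : ℝ | (⟨x, y⟩ : ℂ) ∈ Y}.eq_empty_or_nonempty with e | ne
  · refine (measure_mono (t := ∅) fun y hy => ?_).trans (by simp)
    rw [← e]; exact hy.1
  obtain ⟨u, hu, hmax⟩ := (isCompact_slice hY x).exists_isGreatest ne
  rw [indicator_of_mem (h _ hu)]
  refine (measure_mono (t := Icc (u - ε) u) fun y hy => ⟨?_, hmax hy.1⟩).trans (by simp)
  by_contra hc
  push Not at hc
  apply hy.2
  have l0 : 0 < u - y := by linarith
  have := cY.add_smul_sub_mem hy.1 hu (t := ε / (u - y))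
    ⟨by positivity, (div_le_one l0).2 (by linarith)⟩
  convert this using 2
  apply Complex.ext <;> simp only [Complex.smul_re, Complex.smul_im, Complex.sub_re,
    Complex.sub_im, Complex.I_re, Complex.I_im, smul_eq_mul]
  · ring
  · field_simp

lemma shift_le {Y : Set ℂ} (hY : IsCompact Y) (cY : Convex ℝ Y) {m M ε : ℝ} (hm : m ≤ M)
    (hε : 0 ≤ ε) {w : ℂ} (hw : ‖w‖ = 1) (h : ∀ z ∈ Y, cross w z ∈ Icc m M) :
    volume.real {z | z ∈ Y ∧ z + ε • w ∉ Y} ≤ ε * (M - m) := by
  have w2 : w.re ^ 2 + w.im ^ 2 = 1 := by rw [← sq_norm', hw]; norm_num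
  let k : ℂ := ⟨w.im, w.re⟩
  have k1 : ‖k‖ ^ 2 = 1 := by rw [sq_norm']; simp only [k]; linarith
  have k0 : k ≠ 0 := fun e => by rw [e] at k1; simp at k1
  have kw : k * w = Complex.I := by
    apply Complex.ext <;> simp [k] <;> linarith
  have h1 := shift_vert (hY.image (f := fun z => k * z + 0) (by fun_prop))
    (convex_image_mul cY k 0) (m := -M) (M := -m) (by linarith) hε (by
      rintro _ ⟨z, hz, rfl⟩
      have := h z hz
      simp only [cross] at this
      simp only [k, add_zero, Complex.mul_re]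
      constructor <;> linarith [this.1, this.2])
  have h2 := ar_mul k 0 {z | z ∈ Y ∧ z + ε • w ∉ Y}
  rw [k1, one_mul] at h2
  rw [← h2]
  rw [show -m - -M = M - m by ring] at h1
  refine le_trans (measureReal_mono ?_ ((measure_mono (fun z hz => hz.1)).trans_lt
    (hY.image (f := fun z => k * z + 0) (by fun_prop)).measure_lt_top).ne) h1
  rintro _ ⟨z, hz, rfl⟩
  refine ⟨⟨z, hz.1, rfl⟩, ?_⟩
  rintro ⟨y, hy, e⟩
  apply hz.2
  simp only [add_zero] at e
  rw [← kw, ← mul_smul_comm, ← mul_add] at e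
  rwa [← mul_left_cancel₀ k0 e]

lemma per_window (K : Set ℂ) (x : ℝ) : per K = ∫ θ in x..x + 2 * π, hs K (ev θ) := by
  have : Function.Periodic (fun θ => hs K (ev θ)) (2 * π) := fun θ => by simp only [ev_periodic θ]
  rw [this.intervalIntegral_add_eq x 0, zero_add, per]

lemma integral_dot_ev' (w : ℂ) (x y : ℝ) :
    ∫ θ in x..y, dot (ev θ) w = cross w (ev y) - cross w (ev x) := by
  simp only [dot, ev_re, ev_im, cross]
  rw [intervalIntegral.integral_add (by apply Continuous.intervalIntegrable; fun_prop)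
    (by apply Continuous.intervalIntegrable; fun_prop), intervalIntegral.integral_mul_const,
    intervalIntegral.integral_mul_const, integral_cos, integral_sin]
  ring

lemma min_pos' {T : Type} [TopologicalSpace T] {X : Set T} (hX : IsCompact X) {f : T → ℝ}
    (hf : Continuous f) (h : ∀ x ∈ X, 0 < f x) : ∃ μ, 0 < μ ∧ ∀ x ∈ X, μ ≤ f x := by
  rcases X.eq_empty_or_nonempty with e | ne
  · exact ⟨1, one_pos, by simp [e]⟩
  obtain ⟨x, hx, hm⟩ := hX.exists_isMinOn ne hf.continuousOn
  exact ⟨f x, h x hx, fun y hy => hm hy⟩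

lemma cut_move {K S : Set ℂ} (hK : IsCompact K) (cK : Convex ℝ K) (kS : IsCompact S)
    (nS : S.Nonempty) (sS : S ⊆ K) {x y : ℝ} (h1 : x ≤ y) (h2 : y ≤ x + 2 * π) {w : ℂ}
    (hw : ‖w‖ = 1) {m M : ℝ} (hm : m ≤ M)
    (hF : ∀ θ ∈ Icc x y, ∀ z ∈ K, dot (ev θ) z = hs K (ev θ) → z ∉ S ∧ cross w z ∈ Icc m M)
    {η : ℝ} (hη : 0 < η) :
    ∀ᶠ ε : ℝ in 𝓝[>] 0, ∃ L : Set ℂ, IsCompact L ∧ Convex ℝ L ∧ S ⊆ L ∧ L ⊆ K ∧
      volume.real K - ε * (M - m + η) ≤ volume.real L ∧
      per L ≤ per K - ε * (cross w (ev y) - cross w (ev x)) := by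
  have nK : K.Nonempty := nS.mono sS
  have cK' := continuous_hs_ev hK nK
  have cg : Continuous fun v : ℂ × ℝ => hs K (ev v.2) - dot (ev v.2) v.1 :=
    (cK'.comp continuous_snd).sub (by fun_prop)
  obtain ⟨μ, μ0, hμ⟩ := min_pos' (kS.prod (isCompact_Icc (a := x) (b := y))) cg fun v hv =>
    sub_pos.2 (lt_of_le_of_ne (le_hs hK (sS hv.1) _) fun e => (hF _ hv.2 _ (sS hv.1) e).1 hv.1)
  have kT : IsCompact (K ∩ {z | cross w z ≤ m - η / 2 ∨ M + η / 2 ≤ cross w z}) :=
    hK.inter_right ((isClosed_le (f := cross w) (by fun_prop) continuous_const).union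
      (isClosed_le (g := cross w) continuous_const (by fun_prop)))
  obtain ⟨ν, ν0, hν⟩ := min_pos' (kT.prod (isCompact_Icc (a := x) (b := y))) cg fun v hv =>
    sub_pos.2 (lt_of_le_of_ne (le_hs hK hv.1.1 _) fun e => by
      have := (hF _ hv.2 _ hv.1.1 e).2
      rcases hv.1.2 with c | c <;> linarith [this.1, this.2])
  filter_upwards [ev_pos, ev_lt μ0, ev_lt ν0] with ε e0 e1 e2
  have dw : ∀ θ, dot (ev θ) w ≤ 1 := fun θ => hw ▸ dot_ev_le θ w
  let L := K ∩ ⋂ θ ∈ Icc x y, {z | dot (ev θ) z ≤ hs K (ev θ) - ε * dot (ev θ) w}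
  have kL : IsCompact L := hK.inter_right (isClosed_biInter fun θ _ => isClosed_dot_le _ _)
  have sL : S ⊆ L := fun z hz => ⟨sS hz, mem_biInter fun θ hθ => by
    have := hμ (z, θ) ⟨hz, hθ⟩
    have := mul_le_mul_of_nonneg_left (dw θ) e0.le
    simp only [mem_ofPred_eq] at *
    linarith⟩
  have nL := nS.mono sL
  refine ⟨L, kL, cK.inter (convex_iInter₂ fun θ _ => convex_dot_le _ _), sL, inter_subset_left,
    ?_, ?_⟩
  · let Y := K ∩ ({z | dot (-(Complex.I * w)) z ≤ -(m - η / 2)} ∩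
      {z | dot (Complex.I * w) z ≤ M + η / 2})
    have ec : ∀ z, dot (Complex.I * w) z = cross w z := fun z => by simp [dot, cross]; ring
    have kY : IsCompact Y := hK.inter_right ((isClosed_dot_le _ _).inter (isClosed_dot_le _ _))
    have s1 := shift_le kY (cK.inter ((convex_dot_le _ _).inter (convex_dot_le _ _)))
      (m := m - η / 2) (M := M + η / 2) (by linarith) e0.le hw fun z hz => by
        have b1 := hz.2.1
        have b2 := hz.2.2
        simp only [mem_ofPred_eq, neg_dot, ec] at b1 b2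
        exact ⟨by linarith, b2⟩
    have s2 : volume.real K ≤ volume.real (L ∪ {z | z ∈ Y ∧ z + ε • w ∉ Y}) :=
      measureReal_mono (fun z hz => by
        by_cases c : z ∈ L
        · exact Or.inl c
        right
        have c' : ∃ θ ∈ Icc x y, hs K (ev θ) - ε * dot (ev θ) w < dot (ev θ) z := by
          by_contra hc
          push Not at hc
          exact c ⟨hz, mem_biInter hc⟩
        obtain ⟨θ, hθ, c'⟩ := c'
        have b0 := mul_le_mul_of_nonneg_left (dw θ) e0.le
        refine ⟨⟨hz, ?_⟩, fun hc => ?_⟩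
        · by_contra hc
          have := hν (z, θ) ⟨⟨hz, by
            simp only [mem_inter_iff, mem_ofPred_eq, neg_dot, ec, not_and_or, not_le] at hc ⊢
            rcases hc with c | c
            · left; linarith
            · right; linarith⟩, hθ⟩
          simp only at this
          linarith
        · have := le_hs hK hc.1 (ev θ)
          rw [dot_add, dot_smul] at this
          linarith)
        (measure_union_ne_top kL.measure_lt_top.ne
          ((measure_mono fun z hz => hz.1).trans_lt kY.measure_lt_top).ne)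
    have s3 := s2.trans (measureReal_union_le _ _)
    linarith
  · rw [per_window L x, per_window K x, ← integral_dot_ev',
      ← intervalIntegral.integral_add_adjacent_intervals (ii_hs kL nL x y) (ii_hs kL nL y _),
      ← intervalIntegral.integral_add_adjacent_intervals (ii_hs hK nK x y) (ii_hs hK nK y _)]
    have i1 := intervalIntegral.integral_mono_on h2 (ii_hs kL nL _ _) (ii_hs hK nK _ _)
      fun θ _ => hs_mono hK nL inter_subset_left _
    have i2 := intervalIntegral.integral_mono_on h1 (ii_hs kL nL _ _)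
      (g := fun θ => hs K (ev θ) - ε * dot (ev θ) w)
      (by apply Continuous.intervalIntegrable; fun_prop)
      fun θ hθ => hs_le nL fun z hz => mem_iInter₂.1 hz.2 θ hθ
    rw [intervalIntegral.integral_sub (ii_hs hK nK _ _)
      (by apply Continuous.intervalIntegrable; fun_prop), intervalIntegral.integral_const_mul] at i2
    linarith

end Pool.Agent.MP_7791e4_an

end

section

set_option autoImplicit false

namespace Pool.Agent.MP_7791e4_an

open Set MeasureTheory Real Metric Filter Topology Pointwise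

variable {a b : ℝ}

lemma dot_circ (c : ℂ) (r θ φ : ℝ) :
    dot (ev θ) (circ c r φ) = dot (ev θ) c + r * cos (θ - φ) := by
  rw [circ_eq, dot_add, dot_smul, dot_ev_ev]

lemma band_area {f : ℝ → ℝ} (hf : Continuous f) {ρ ε : ℝ} (hρ : 0 ≤ ρ) (hε : 0 ≤ ε) :
    volume {z : ℂ | z.re ∈ Icc (-ρ) ρ ∧ z.im ∈ Ioc (f z.re) (f z.re + ε)}
      = ENNReal.ofReal (ε * (2 * ρ)) := by
  have ms : MeasurableSet {z : ℂ | z.re ∈ Icc (-ρ) ρ ∧ z.im ∈ Ioc (f z.re) (f z.re + ε)} :=
    (measurableSet_Icc.preimage Complex.measurable_re).inter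
      ((measurableSet_lt (f := fun z : ℂ => f z.re) (by fun_prop) Complex.measurable_im).inter
        (measurableSet_le (g := fun z : ℂ => f z.re + ε) Complex.measurable_im (by fun_prop)))
  rw [vol_slices ms, ENNReal.ofReal_mul hε, show 2 * ρ = ρ - -ρ by ring, ← Real.volume_Icc,
    ← setLIntegral_const, ← lintegral_indicator measurableSet_Icc]
  congr 1
  funext x
  by_cases hx : x ∈ Icc (-ρ) ρ
  · rw [indicator_of_mem hx, show ε = f x + ε - f x by ring, ← Real.volume_Ioc]
    congr 1; ext y; simp [hx.1, hx.2]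
  · rw [indicator_of_notMem hx]
    refine measure_mono_null (t := ∅) (fun y hy => hx hy.1) measure_empty

lemma add_move (hb : 0 < b) (hab : b ≤ a) {K : Set ℂ} (hK : IsCompact K) (cK : Convex ℝ K)
    (hKE : K ⊆ ell a b) {c : ℂ} {r θ0 δ κ : ℝ} (hr : 0 < r) (δ0 : 0 < δ) (δ1 : δ < π / 2)
    (κ0 : 0 < κ) (hA : ∀ θ ∈ Icc (θ0 - δ - κ) (θ0 + δ + κ), circ c r θ ∈ K)
    (hS : ∀ θ ∈ Icc (θ0 - δ) (θ0 + δ), ∀ z ∈ K, dot (ev θ) z ≤ dot (ev θ) c + r)
    (hI : ∀ θ ∈ Icc (θ0 - δ) (θ0 + δ), circ c r θ ∈ interior (ell a b)) {η : ℝ} (hη : 0 < η) :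
    ∀ᶠ ε : ℝ in 𝓝[>] 0, ∃ L : Set ℂ, IsCompact L ∧ Convex ℝ L ∧ K ⊆ L ∧ L ⊆ ell a b ∧
      volume.real K + ε * (2 * (r * sin δ)) ≤ volume.real L ∧
      per L ≤ per K + ε * (2 * sin δ + η) := by
  set A := circ c r '' Icc (θ0 - δ) (θ0 + δ) with hAd
  have kA : IsCompact A := isCompact_Icc.image (by fun_prop)
  have nA : A.Nonempty := (nonempty_Icc.2 (by linarith)).image _
  have sA : A ⊆ K := by
    rintro _ ⟨θ, hθ, rfl⟩; exact hA θ ⟨by linarith [hθ.1], by linarith [hθ.2]⟩
  have nK := nA.mono sA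
  obtain ⟨ρ, ρ0, hρ⟩ := kA.exists_cthickening_subset_open isOpen_interior
    (by rintro _ ⟨θ, hθ, rfl⟩; exact hI θ hθ)
  have cK' := continuous_hs_ev hK nK
  have cA' := continuous_hs_ev kA nA
  have d0 : ∀ θ, 0 ≤ hs K (ev θ) - hs A (ev θ) := fun θ => sub_nonneg.2 (hs_mono hK nA sA _)
  have key : ∀ θ, δ < |θ - θ0| → |θ - θ0| ≤ π → hs K (ev θ) - hs A (ev θ) = 0 →
      cos (θ - θ0) ≤ 0 := by
    intro θ t1 t2 t3
    by_contra hc
    have t4 : |θ - θ0| < π / 2 := by
      by_contra h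
      rw [← cos_abs] at hc
      exact hc (cos_nonpos_of_pi_div_two_le_of_le (not_lt.1 h) (by linarith [pi_pos]))
    obtain ⟨_, ⟨φ, hφ, rfl⟩, e⟩ := exists_hs kA nA (ev θ)
    have main : ∀ φ' ∈ Icc (θ0 - δ - κ) (θ0 + δ + κ), |θ - φ'| < |θ - φ| → False := by
      intro φ' h1 h2
      have b1 := le_hs hK (hA φ' h1) (ev θ)
      rw [dot_circ] at b1 e
      have b2 := cos_lt_cos_of_nonneg_of_le_pi (abs_nonneg _) (y := |θ - φ|) (by
        rw [abs_le]; rw [abs_lt] at t4; constructor <;> linarith [hφ.1, hφ.2]) h2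
      rw [cos_abs, cos_abs] at b2
      nlinarith
    rcases lt_abs.1 t1 with h | h
    · have m1 := min_le_left κ (θ - φ)
      have m2 := min_le_right κ (θ - φ)
      have m3 : 0 < min κ (θ - φ) := lt_min κ0 (by linarith [hφ.2])
      refine main (φ + min κ (θ - φ)) ⟨by linarith [hφ.1], by linarith [hφ.2]⟩ ?_
      rw [abs_of_nonneg (by linarith), abs_of_nonneg (by linarith [hφ.2])]; linarith
    · have m1 := min_le_left κ (φ - θ)
      have m2 := min_le_right κ (φ - θ)
      have m3 : 0 < min κ (φ - θ) := lt_min κ0 (by linarith [hφ.1])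
      refine main (φ - min κ (φ - θ)) ⟨by linarith [hφ.1], by linarith [hφ.2]⟩ ?_
      rw [abs_of_nonpos (by linarith), abs_of_nonpos (by linarith [hφ.1])]; linarith
  have small : ∀ x y, x ≤ y → (∀ θ ∈ Ioo x y, δ < |θ - θ0| ∧ |θ - θ0| ≤ π) → ∀ᶠ t : ℝ in 𝓝[>] 0,
      ∫ θ in x..y, max (cos (θ - θ0) - (hs K (ev θ) - hs A (ev θ)) / t) 0 < η / 2 := by
    intro x y hxy h
    have h1 := tendsto_integral_pen (g := fun _ => 0) (δ := fun θ => hs K (ev θ) - hs A (ev θ))
      (η := fun θ => cos (θ - θ0)) (cK'.sub cA') (by fun_prop) continuous_const d0 x y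
    have h2 : (∫ θ in x..y, if hs K (ev θ) - hs A (ev θ) = 0 then max (cos (θ - θ0)) 0 else 0)
        = 0 := by
      rw [intervalIntegral.integral_of_le hxy, integral_Ioc_eq_integral_Ioo,
        setIntegral_congr_fun measurableSet_Ioo (g := fun _ => 0)]
      · simp
      intro θ hθ
      simp only
      split_ifs with e
      · exact max_eq_right (key θ (h θ hθ).1 (h θ hθ).2 e)
      · rfl
    rw [h2] at h1
    exact h1.eventually (gt_mem_nhds (by linarith))
  filter_upwards [ev_pos, ev_lt ρ0,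
    small (θ0 - π) (θ0 - δ) (by linarith [pi_pos]) (fun θ hθ => by
      rw [abs_of_neg (by linarith [hθ.2])]; constructor <;> linarith [hθ.1, hθ.2]),
    small (θ0 + δ) (θ0 + π) (by linarith [pi_pos]) (fun θ hθ => by
      rw [abs_of_pos (by linarith [hθ.1])]; constructor <;> linarith [hθ.1, hθ.2])]
    with ε e0 e1 e2 e3
  set X := K ∪ (fun z => z + ε • ev θ0) '' A with hX
  have kX : IsCompact X := hK.union (kA.image (by fun_prop))
  have nX : X.Nonempty := nK.mono subset_union_left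
  have sK : K ⊆ closedConvexHull ℝ X := subset_union_left.trans subset_closedConvexHull
  refine ⟨_, isCompact_cch kX, convex_closedConvexHull, sK, cch_subset (union_subset hKE ?_),
    ?_, ?_⟩
  · rintro _ ⟨z, hz, rfl⟩
    refine interior_subset (hρ (mem_cthickening_of_dist_le _ z _ _ hz ?_))
    rw [dist_eq_norm, add_sub_cancel_left, norm_smul, norm_ev, mul_one, Real.norm_of_nonneg e0.le]
    exact e1.le
  · have s0 : 0 < sin δ := sin_pos_of_pos_of_lt_pi δ0 (by linarith [pi_pos])
    have ba := band_area (f := fun x => √(r ^ 2 - x ^ 2)) (by fun_prop) (ρ := r * sin δ)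
      (by positivity) e0.le
    set R0 := {z : ℂ | z.re ∈ Icc (-(r * sin δ)) (r * sin δ) ∧
      z.im ∈ Ioc (√(r ^ 2 - z.re ^ 2)) (√(r ^ 2 - z.re ^ 2) + ε)}
    have vR := vol_mul (-Complex.I * ev θ0) c R0
    rw [ba, norm_mul, norm_neg, Complex.norm_I, norm_ev] at vR
    simp only [mul_one, one_pow, ENNReal.ofReal_one, one_mul] at vR
    set R := (fun z : ℂ => -Complex.I * ev θ0 * z + c) '' R0
    have rep : ∀ z ∈ R, ∃ ψ ∈ Icc (-δ) δ, ∃ τ ∈ Ioc 0 ε, z = circ c r (θ0 - ψ) + τ • ev θ0 := by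
      rintro _ ⟨z, ⟨h1, h2⟩, rfl⟩
      have s1 := sin_le_one δ
      have q1 : -sin δ ≤ z.re / r := by rw [le_div_iff₀ hr]; linarith [h1.1]
      have q2 : z.re / r ≤ sin δ := by rw [div_le_iff₀ hr]; linarith [h1.2]
      have e1 : sin (arcsin (z.re / r)) = z.re / r := sin_arcsin (by linarith) (by linarith)
      have e2 : r * cos (arcsin (z.re / r)) = √(r ^ 2 - z.re ^ 2) := by
        rw [cos_arcsin, ← Real.sqrt_sq hr.le, ← Real.sqrt_mul (sq_nonneg _), Real.sqrt_sq hr.le]
        congr 1; field_simp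
      refine ⟨arcsin (z.re / r), ⟨?_, ?_⟩, z.im - √(r ^ 2 - z.re ^ 2),
        ⟨by linarith [h2.1], by linarith [h2.2]⟩, ?_⟩
      · rw [← arcsin_sin (x := -δ) (by linarith) (by linarith), sin_neg]
        exact monotone_arcsin q1
      · rw [← arcsin_sin (x := δ) (by linarith) (by linarith)]
        exact monotone_arcsin q2
      · rw [← e2]
        have e3 : z.re = r * sin (arcsin (z.re / r)) := by rw [e1]; field_simp
        set ψ := arcsin (z.re / r)
        apply Complex.ext <;> simp [circ, cos_sub, sin_sub, e3, -Complex.ofReal_cos,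
          -Complex.ofReal_sin] <;> ring
    have h1 : volume.real (R ∪ K) ≤ volume.real (closedConvexHull ℝ X) := by
      refine measureReal_mono (union_subset (fun z hz => ?_) sK)
        (isCompact_cch kX).measure_lt_top.ne
      obtain ⟨ψ, hψ, τ, hτ, rfl⟩ := rep z hz
      have m : circ c r (θ0 - ψ) ∈ A := ⟨_, ⟨by linarith [hψ.2], by linarith [hψ.1]⟩, rfl⟩
      have := (convex_closedConvexHull (𝕜 := ℝ) (s := X)).add_smul_mem (sK (sA m))
        (y := ε • ev θ0) (subset_closedConvexHull (Or.inr ⟨_, m, rfl⟩)) (t := τ / ε)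
        ⟨by have := hτ.1; positivity, (div_le_one e0).2 hτ.2⟩
      rwa [smul_smul, div_mul_cancel₀ _ e0.ne'] at this
    rw [measureReal_union (disjoint_left.2 fun z hz hzK => ?_) hK.measurableSet
      (vR ▸ ENNReal.ofReal_ne_top) hK.measure_lt_top.ne, Measure.real, vR,
      ENNReal.toReal_ofReal (by positivity)] at h1
    · linarith
    obtain ⟨ψ, hψ, τ, hτ, rfl⟩ := rep z hz
    have := hS (θ0 - ψ) ⟨by linarith [hψ.2], by linarith [hψ.1]⟩ _ hzK
    rw [dot_add, dot_circ, dot_smul, dot_ev_ev, sub_self, cos_zero] at this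
    have c0 : 0 < cos (θ0 - ψ - θ0) := cos_pos_of_mem_Ioo ⟨by linarith [hψ.2], by linarith [hψ.1]⟩
    nlinarith [mul_pos hτ.1 c0]
  · let F : ℝ → ℝ := fun θ => max (cos (θ - θ0) - (hs K (ev θ) - hs A (ev θ)) / ε) 0
    have cF : Continuous F := by simp only [F]; fun_prop
    rw [per_cch kX nX, per_window X (θ0 - π), per_window K (θ0 - π)]
    have i1 := intervalIntegral.integral_mono_on (a := θ0 - π) (b := θ0 - π + 2 * π)
      (by linarith [pi_pos]) (ii_hs kX nX _ _) (g := fun θ => hs K (ev θ) + ε * F θ)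
      (by apply Continuous.intervalIntegrable; fun_prop) fun θ _ => hs_le nX (by
        rintro z (hz | ⟨z, hz, rfl⟩)
        · have := le_hs hK hz (ev θ)
          have := mul_nonneg e0.le (le_max_right
            (cos (θ - θ0) - (hs K (ev θ) - hs A (ev θ)) / ε) 0)
          simp only [F]; linarith
        · have b0 := le_hs kA hz (ev θ)
          have b1 := mul_le_mul_of_nonneg_left (le_max_left
            (cos (θ - θ0) - (hs K (ev θ) - hs A (ev θ)) / ε) 0) e0.le
          rw [mul_sub, mul_div_cancel₀ _ e0.ne'] at b1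
          simp only [F, dot_add, dot_smul, dot_ev_ev]; linarith)
    rw [intervalIntegral.integral_add (ii_hs hK nK _ _)
      (by apply Continuous.intervalIntegrable; fun_prop), intervalIntegral.integral_const_mul,
      ← intervalIntegral.integral_add_adjacent_intervals (f := F) (b := θ0 - δ)
        (cF.intervalIntegrable _ _) (cF.intervalIntegrable _ _),
      ← intervalIntegral.integral_add_adjacent_intervals (f := F) (a := θ0 - δ) (b := θ0 + δ)
        (cF.intervalIntegrable _ _) (cF.intervalIntegrable _ _)] at i1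
    have i2 := intervalIntegral.integral_mono_on (μ := volume) (a := θ0 - δ) (b := θ0 + δ)
      (by linarith) (cF.intervalIntegrable _ _) (g := fun θ => cos (θ - θ0))
      (by apply Continuous.intervalIntegrable; fun_prop) fun θ hθ => max_le
        (by have := div_nonneg (d0 θ) e0.le; linarith)
        (cos_nonneg_of_mem_Icc ⟨by linarith [hθ.1], by linarith [hθ.2]⟩)
    rw [intervalIntegral.integral_comp_sub_right (fun x => cos x), integral_cos,
      show θ0 + δ - θ0 = δ by ring, show θ0 - δ - θ0 = -δ by ring, sin_neg] at i2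
    rw [show θ0 - π + 2 * π = θ0 + π by ring] at i1 ⊢
    have i3 : (∫ θ in θ0 - π..θ0 - δ, F θ) + ((∫ θ in θ0 - δ..θ0 + δ, F θ)
      + ∫ θ in θ0 + δ..θ0 + π, F θ) ≤ 2 * sin δ + η := by simp only [F] at i2 ⊢; linarith
    nlinarith [mul_le_mul_of_nonneg_left i3 e0.le]

/-- feasible sets of the relaxed problem. -/
structure Feas (a b : ℝ) (S L : Set ℂ) : Prop where
  cpt : IsCompact L
  cvx : Convex ℝ L
  sup : S ⊆ L
  sub : L ⊆ ell a b

lemma Feas.comb {S K L : Set ℂ} (hK : Feas a b S K) (hL : Feas a b S L) {s : ℝ} (s0 : 0 ≤ s)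
    (s1 : s ≤ 1) : Feas a b S ((1 - s) • K + s • L) :=
  ⟨(hK.cpt.smul _).add (hL.cpt.smul _), (hK.cvx.smul _).add (hL.cvx.smul _),
    fun _ hz => mem_comb (hK.sup hz) (hL.sup hz) s, comb_subset convex_ell hK.sub hL.sub s0 s1⟩

lemma per_comb {K L : Set ℂ} (hK : IsCompact K) (nK : K.Nonempty) (hL : IsCompact L)
    (nL : L.Nonempty) {s : ℝ} (s0 : 0 ≤ s) (s1 : s ≤ 1) :
    per ((1 - s) • K + s • L) = (1 - s) * per K + s * per L := by
  rw [per_add (hK.smul _) nK.smul_set (hL.smul _) nL.smul_set, per_smul hK nK (by linarith),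
    per_smul hL nL s0]

lemma sqrt_avg {A x y : ℝ} (A0 : 0 < A) (hxy : x < y) (x0 : 0 ≤ x) :
    ∀ᶠ ε : ℝ in 𝓝[>] 0, √A ≤ (1 - 1 / 2) * √(A - ε * x) + 1 / 2 * √(A + ε * y) := by
  have d1 : HasDerivAt (fun ε : ℝ => (1 - 1 / 2) * √(A - ε * x) + 1 / 2 * √(A + ε * y))
      ((1 - 1 / 2) * (-(1 * x) / (2 * √(A - 0 * x))) + 1 / 2 * ((1 * y) / (2 * √(A + 0 * y)))) 0 :=
    (((((hasDerivAt_id' (0:ℝ)).mul_const x).const_sub A).sqrt (by simpa using A0.ne')).const_mul
      _).add (((((hasDerivAt_id' (0:ℝ)).mul_const y).const_add A).sqrt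
        (by simpa using A0.ne')).const_mul _)
  have s0 : 0 < √A := Real.sqrt_pos.2 A0
  have := d1.tendsto_slope_zero_right.eventually (lt_mem_nhds (a := 0) (by
    simp only [zero_mul, sub_zero, add_zero, one_mul]
    have : (1 - 1 / 2) * (-x / (2 * √A)) + 1 / 2 * (y / (2 * √A)) = (y - x) / (4 * √A) := by
      field_simp; ring
    rw [this]; have := sub_pos.2 hxy; positivity))
  filter_upwards [this, ev_pos] with ε h e0
  simp only [zero_add, zero_mul, sub_zero, add_zero, smul_eq_mul] at h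
  have := (mul_pos_iff_of_pos_left (inv_pos.2 e0)).1 h
  linarith

lemma combine {S K : Set ℂ} (nS : S.Nonempty) (A0 : 0 < volume.real K)
    (Min : ∀ L, Feas a b S L → volume.real K ≤ volume.real L → per K ≤ per L)
    {x p y p' : ℝ} (x0 : 0 ≤ x) (y0 : 0 < y)
    (h1 : ∀ᶠ ε : ℝ in 𝓝[>] 0, ∃ L, Feas a b S L ∧ volume.real K - ε * x ≤ volume.real L ∧
      per L ≤ per K - ε * p)
    (h2 : ∀ᶠ ε : ℝ in 𝓝[>] 0, ∃ L, Feas a b S L ∧ volume.real K + ε * y ≤ volume.real L ∧
      per L ≤ per K + ε * p') : p * y ≤ p' * x := by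
  by_contra hc
  push Not at hc
  obtain ⟨κ, κ0, hκ⟩ := (ev_pos.and (ev_neg (f := fun κ => p' * (x + κ) - p * y) (by fun_prop)
    (by simpa using hc))).exists
  set l := (x + κ) / y with hl
  have l0 : 0 < l := by positivity
  have ly : l * y = x + κ := by rw [hl]; field_simp
  have lim : Tendsto (fun ε : ℝ => ε * l) (𝓝[>] 0) (𝓝[>] 0) := by
    refine tendsto_nhdsWithin_iff.2 ⟨?_, ?_⟩
    · have := ((by fun_prop : Continuous fun ε : ℝ => ε * l).tendsto 0).mono_left
        (nhdsWithin_le_nhds (s := Ioi 0))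
      simpa using this
    · filter_upwards [ev_pos] with ε e0 using mul_pos e0 l0
  obtain ⟨ε, e0, ⟨L1, f1, a1, p1⟩, ⟨L2, f2, a2, p2⟩, e3⟩ := (ev_pos.and (h1.and
    ((lim.eventually h2).and (sqrt_avg A0 (x := x) (y := x + κ) (by linarith) x0)))).exists
  have n1 := nS.mono f1.sup
  have n2 := nS.mono f2.sup
  have m := Min _ (f1.comb f2 (s := 1 / 2) (by norm_num) (by norm_num)) (by
    have b1 := bm_comb f1.cpt f1.cvx n1 f2.cpt f2.cvx n2 (s := 1 - 1 / 2) (t := 1 / 2)
      (by norm_num) (by norm_num)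
    rw [mul_assoc, ly] at a2
    have b2 := Real.sqrt_le_sqrt a1
    have b3 := Real.sqrt_le_sqrt a2
    exact (Real.sqrt_le_sqrt_iff measureReal_nonneg).1 (by linarith))
  rw [per_comb f1.cpt n1 f2.cpt n2 (by norm_num) (by norm_num)] at m
  have b4 : p ≤ l * p' := by
    have : ε * p ≤ ε * (l * p') := by linarith
    exact le_of_mul_le_mul_left this e0
  have b5 := mul_le_mul_of_nonneg_right b4 y0.le
  have : l * p' * y = p' * (x + κ) := by rw [← ly]; ring
  linarith

end Pool.Agent.MP_7791e4_an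

end

section

set_option autoImplicit false

namespace Pool.Agent.MP_7791e4_an

open Set MeasureTheory Real Metric Filter Topology Pointwise

variable {a b : ℝ}

lemma inj_of_simple {p q : ℂ} (hne : p ≠ q) {γ : Path p q}
    (h : ∀ s t, γ s = γ t → s = t ∨ (s = 0 ∧ t = 1) ∨ (s = 1 ∧ t = 0)) : Function.Injective γ := by
  intro s t e
  rcases h s t e with h | ⟨h1, h2⟩ | ⟨h1, h2⟩
  · exact h
  · rw [h1, h2, γ.source, γ.target] at e; exact absurd e hne
  · rw [h1, h2, γ.source, γ.target] at e; exact absurd e.symm hne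

lemma range_eq_of_conn {p q : ℂ} {γ : Path p q} (hi : Function.Injective γ) {Γ : Set ℂ}
    (h : Γ ⊆ range γ) (hc : IsPreconnected Γ) (hp : p ∈ Γ) (hq : q ∈ Γ) : range γ = Γ := by
  have c := preconn_of_image (A := γ ⁻¹' Γ) isCompact_univ γ.continuous hi.injOn (subset_univ _)
    (by rwa [image_preimage_eq_of_subset h])
  refine subset_antisymm ?_ h
  rintro _ ⟨s, rfl⟩
  exact c.Icc_subset (a := 0) (b := 1) (by simpa using hp) (by simpa using hq) ⟨s.2.1, s.2.2⟩

lemma mem_seg_ray {x v z : ℂ} {T : ℝ} (hT : 0 ≤ T) (hz : z ∈ segment ℝ x (x + T • v)) :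
    ∃ t ∈ Icc 0 T, z = x + t • v := by
  rw [segment_eq_image'] at hz
  obtain ⟨θ, hθ, rfl⟩ := hz
  refine ⟨θ * T, ⟨mul_nonneg hθ.1 hT, by nlinarith [hθ.2]⟩, ?_⟩
  simp only [add_sub_cancel_left, smul_smul]

lemma ray_cross (hb : 0 < b) (hab : b ≤ a) {p q : ℂ} (hp : B a b p p = 1) (hq : B a b q q = 1)
    (hne : p ≠ q) (γ : Path p q) (hγ : range γ ⊆ ell a b) {U : Set ℂ} (oU : IsOpen U)
    (cU : IsPreconnected U) (hU : U ⊆ interior (ell a b) \ range γ) {x y m : ℂ} (hx : x ∈ U)
    (hy : y ∈ U) (hm : cross (q - p) (m - p) = 0) (sx : cross (q - p) (x - p) < 0)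
    (sy : 0 < cross (q - p) (y - p))
    (rx : ∀ t : ℝ, 0 ≤ t → x + t • (x - m) ∉ range γ)
    (ry : ∀ t : ℝ, 0 ≤ t → y + t • (y - m) ∉ range γ) :
    False := by
  set v := q - p with hv
  have v0 : 0 < ‖v‖ := norm_pos_iff.2 (sub_ne_zero.2 hne.symm)
  have pE := mem_ell.2 hp.le
  have qE := mem_ell.2 hq.le
  set C := ‖v‖ * (2 * a) with hC
  have C0 : 0 < C := by have : 0 < a := by linarith
                        positivity
  have bd : ∀ z ∈ ell a b, |cross v (z - p)| ≤ C := fun z hz =>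
    (abs_cross_le _ _).trans (mul_le_mul_of_nonneg_left ((norm_sub_le _ _).trans (by
      linarith [norm_le_of_mem hb hab hz, norm_le_of_mem hb hab pE])) v0.le)
  have ray : ∀ (z : ℂ) (t : ℝ), cross v (z + t • (z - m) - p) = (1 + t) * cross v (z - p) := by
    intro z t
    rw [show z + t • (z - m) - p = (z - p) + t • ((z - p) - (m - p)) by ring_nf, cross_add,
      cross_smul, cross_sub v (z - p), hm]; ring
  set T1 := C / -cross v (x - p) with hT1
  set T2 := C / cross v (y - p) with hT2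
  have t1 : 0 ≤ T1 := div_nonneg C0.le (by linarith)
  have t2 : 0 ≤ T2 := div_nonneg C0.le sy.le
  have u1 : T1 * cross v (x - p) = -C := by rw [hT1]; field_simp [sx.ne]
  have u2 : T2 * cross v (y - p) = C := by rw [hT2]; field_simp
  set B0 := segment ℝ x (x + T1 • (x - m)) ∪ U ∪ segment ℝ y (y + T2 • (y - m)) with hB0
  have isBounded_segment : ∀ z w : ℂ, Bornology.IsBounded (segment ℝ z w) := fun z w => by
    rw [← Path.range_segment]; exact (isCompact_range (Path.continuous _)).isBounded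
  have bB : Bornology.IsBounded B0 := ((isBounded_segment _ _).union
    ((isCompact_ell hb hab).isBounded.subset fun z hz => interior_subset (hU hz).1)).union
    (isBounded_segment _ _)
  obtain ⟨R, R0, hR⟩ := (bB.sub (Bornology.isBounded_singleton (x := p))).exists_pos_norm_le
  set M := R / ‖v‖ with hM
  have M0 : 0 ≤ M := by positivity
  have M1 : M * ‖v‖ = R := by rw [hM]; field_simp
  set A0 := segment ℝ p (p + M • -v) ∪ range γ ∪ segment ℝ q (q + M • v) with hA0
  let f : ℂ → ℂ := fun z => ⟨dot v (z - p), cross v (z - p)⟩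
  have ef : f = fun z => (starRingEnd ℂ) v * (z - p) := by
    funext z; apply Complex.ext <;> simp [f, dot, cross]; ring
  have cf : Continuous f := by rw [ef]; fun_prop
  have jA : JoinedIn A0 (p + M • -v) (q + M • v) :=
    ((JoinedIn.of_segment_subset (subset_union_left.trans subset_union_left)).symm.trans
      (show JoinedIn A0 p q from ⟨γ, fun t => Or.inl (Or.inr ⟨t, rfl⟩)⟩)).trans
      (JoinedIn.of_segment_subset subset_union_right)
  have jB : JoinedIn B0 (x + T1 • (x - m)) (y + T2 • (y - m)) :=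
    ((JoinedIn.of_segment_subset (subset_union_left.trans subset_union_left)).symm.trans
      (((oU.isConnected_iff_isPathConnected.1 ⟨⟨x, hx⟩, cU⟩).joinedIn x hx y hy).mono
        (subset_union_right.trans subset_union_left))).trans
      (JoinedIn.of_segment_subset subset_union_right)
  have ext : ∀ z ∈ A0, z ∈ range γ ∨ (cross v (z - p) = 0 ∧ 1 ≤ B a b z z) := by
    have β := B_le_one pE qE
    rintro z ((hz | hz) | hz)
    · obtain ⟨t, ht, rfl⟩ := mem_seg_ray M0 hz
      refine Or.inr ⟨by simp [cross]; ring, ?_⟩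
      rw [show p + t • -v = (1 + t) • p + (-t) • q by simp only [hv, Complex.real_smul]; push_cast; ring,
        B_comb, hp, hq]
      nlinarith [mul_nonneg (mul_nonneg ht.1 (show 0 ≤ 1 + t by linarith [ht.1])) (sub_nonneg.2 β)]
    · exact Or.inl hz
    · obtain ⟨t, ht, rfl⟩ := mem_seg_ray M0 hz
      refine Or.inr ⟨by rw [show q + t • v - p = (1 + t) • v by
        simp only [hv, Complex.real_smul]; push_cast; ring, cross_smul, cross_self, mul_zero], ?_⟩
      rw [show q + t • v = (-t) • p + (1 + t) • q by simp only [hv, Complex.real_smul]; push_cast; ring,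
        B_comb, hp, hq]
      nlinarith [mul_nonneg (mul_nonneg ht.1 (show 0 ≤ 1 + t by linarith [ht.1])) (sub_nonneg.2 β)]
  obtain ⟨_, ⟨z, hz, rfl⟩, w, hw, e⟩ := crossing_joined (jA.map cf) (jB.map cf) (by
    rintro _ ⟨z, hz, rfl⟩
    simp only [f, ray]
    rcases ext z hz with h | h
    · have := abs_le.1 (bd z (hγ h)); constructor <;> linarith [this.1, this.2]
    · rw [h.1]; constructor <;> linarith) (by
    rintro _ ⟨z, hz, rfl⟩
    simp only [f]
    have h1 := hR (z - p) ⟨z, hz, p, rfl, rfl⟩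
    have h2 := abs_le.1 ((abs_dot_le v (z - p)).trans (mul_le_mul_of_nonneg_left h1 v0.le))
    rw [add_sub_cancel_left, dot_smul, dot_neg, dot_self,
      show q + M • v - p = (1 + M) • v by simp only [hv, Complex.real_smul]; push_cast; ring,
      dot_smul, dot_self]
    constructor <;> nlinarith [h2.1, h2.2])
  have e' : w = z := by
    rw [ef] at e
    have := mul_left_cancel₀ ((map_ne_zero _).2 (norm_pos_iff.1 v0)) e
    exact sub_left_injective this
  subst e'
  rcases hw with (hw | hw) | hw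
  · obtain ⟨t, ht, rfl⟩ := mem_seg_ray t1 hw
    rcases ext _ hz with h | h
    · exact rx t ht.1 h
    · have := h.1; rw [ray] at this; nlinarith [ht.1]
  · rcases ext _ hz with h | h
    · exact (hU hw).2 h
    · linarith [mem_int.1 (hU hw).1, h.2]
  · obtain ⟨t, ht, rfl⟩ := mem_seg_ray t2 hw
    rcases ext _ hz with h | h
    · exact ry t ht.1 h
    · have := h.1; rw [ray] at this; nlinarith [ht.1]

/-- the convex set attached to a curve. -/
def hull (a b α β : ℝ) (G : Set ℂ) : Set ℂ :=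
  closedConvexHull ℝ G ∩ HP (pt a b β) (pt a b α) ∪ cap a b α β

lemma md_mem {α β : ℝ} {K : Set ℂ} (cK : Convex ℝ K) (h1 : pt a b α ∈ K) (h2 : pt a b β ∈ K) :
    md a b α β ∈ K := by
  rw [md, smul_add]; exact cK h1 h2 (by norm_num) (by norm_num) (by norm_num)

lemma cross_md' (α β : ℝ) : cross (pt a b α - pt a b β) (md a b α β - pt a b β) = 0 := by
  simp [cross, md]; ring

lemma hull_arc (hb : 0 < b) (hab : b ≤ a) {α β : ℝ} (h1 : α < β) (h2 : β < α + 2 * π)
    {γ : Path (pt a b β) (pt a b α)} (h : Admissible a b γ) :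
    ∃ U V : Set ℂ, IsOpen U ∧ IsOpen V ∧ IsPreconnected V ∧ Disjoint U V ∧
      U ∪ V = interior (ell a b) \ range γ ∧ volume.real U = π * a * b / 2 ∧
      U ⊆ hull a b α β (range γ) := by
  have ha : 0 < a := by linarith
  obtain ⟨U, V, oU, oV, cU, cV, dj, hUV, aU, aV⟩ := adm_parts h ha hb
  have kR : IsCompact (range γ) := isCompact_range γ.continuous
  have hne := (pt_ne ha hb h1 h2).symm
  have A0 : 0 < π * a * b / 2 := by positivity
  by_cases hc : ∀ u ∈ Ioo α β, pt a b u ∈ range γ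
  · exfalso
    have e := range_eq_of_conn (inj_of_simple hne h.1) (Γ := pt a b '' Icc α β) (by
      rintro _ ⟨u, hu, rfl⟩
      rcases hu.1.eq_or_lt with e | e
      · rw [← e]; exact γ.target_mem_range
      rcases hu.2.eq_or_lt with e' | e'
      · rw [e']; exact γ.source_mem_range
      exact hc u ⟨e, e'⟩) (isPreconnected_Icc.image _ (by fun_prop))
      ⟨β, ⟨h1.le, le_rfl⟩, rfl⟩ ⟨α, ⟨le_rfl, h1.le⟩, rfl⟩
    have sub : interior (ell a b) ⊆ U ∪ V := fun z hz => hUV ▸ ⟨hz, by
      rw [e]; rintro ⟨u, -, rfl⟩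
      exact (mem_int.1 hz).ne (B_pt_self ha hb u)⟩
    have nU : U.Nonempty := nonempty_of_measureReal_ne_zero (μ := volume) (aU ▸ A0.ne')
    have nV : V.Nonempty := nonempty_of_measureReal_ne_zero (μ := volume) (aV ▸ A0.ne')
    rcases convex_ell.interior.isPreconnected.subset_or_subset oU oV dj sub with c | c
    · obtain ⟨z, hz⟩ := nV
      exact disjoint_left.1 dj (c (show z ∈ _ \ range γ from hUV ▸ Or.inr hz).1) hz
    · obtain ⟨z, hz⟩ := nU
      exact disjoint_left.1 dj hz (c (show z ∈ _ \ range γ from hUV ▸ Or.inl hz).1)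
  push Not at hc
  obtain ⟨u, hu, hu'⟩ := hc
  set m := md a b α β with hm
  have g0 := gg_pos h1 h2 u
  have Bm : ∀ ρ : ℝ, B a b (pt a b u) (m + ρ • (pt a b u - m)) = 1 + (ρ - 1) * gg α β u := by
    intro ρ
    rw [B_add, B_smul, B_sub, hm, B_md ha hb, B_pt_self ha hb]; ring
  have ev1 : ∀ᶠ ρ : ℝ in 𝓝 1, m + ρ • (pt a b u - m) ∈ (range γ)ᶜ :=
    (by fun_prop : Continuous fun ρ : ℝ => m + ρ • (pt a b u - m)).continuousAt.eventually
      (kR.isClosed.isOpen_compl.mem_nhds (by simpa using hu'))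
  obtain ⟨ε, ε0, hε⟩ := Metric.eventually_nhds_iff.1 ev1
  set ρ0 := 1 - min (ε / 2) (1 / 2) with hρ0
  have r1 := min_le_left (ε / 2) (1 / 2 : ℝ)
  have r2 := min_le_right (ε / 2) (1 / 2 : ℝ)
  have r3 : 0 < min (ε / 2) (1 / 2 : ℝ) := lt_min (by linarith) (by norm_num)
  have av : ∀ ρ, ρ0 ≤ ρ → m + ρ • (pt a b u - m) ∉ range γ := by
    intro ρ hρ
    rcases le_or_gt ρ 1 with c | c
    · exact hε (by rw [Real.dist_eq, abs_lt]; constructor <;> linarith)
    · intro hz
      have := B_le_one (pt_mem ha hb u) (h.2.2.1 hz)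
      rw [Bm] at this
      nlinarith
  set y := m + ρ0 • (pt a b u - m) with hy
  have yE : y ∈ interior (ell a b) := convex_ell.add_smul_sub_mem_interior' (x := pt a b u)
    (subset_closure (pt_mem ha hb u)) (mem_int.2 (md_int ha hb h1 h2)) (t := 1 - ρ0)
    ⟨by linarith, by linarith⟩ |> fun h => by
      convert h using 1
      simp only [hy, hm, Complex.real_smul]; push_cast; ring
  have key : ∀ W : Set ℂ, IsOpen W → IsPreconnected W → W ⊆ interior (ell a b) \ range γ →
      y ∈ W → W ⊆ hull a b α β (range γ) := by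
    intro W oW cW sW yW x hx
    by_contra hc
    have c1 : x ∉ HP (pt a b α) (pt a b β) := fun c => hc (Or.inr ⟨interior_subset (sW hx).1, c⟩)
    have c2 := (mem_HP_or _ _ x).resolve_left c1
    have c3 : x ∉ closedConvexHull ℝ (range γ) := fun c => hc (Or.inl ⟨c, c2⟩)
    refine ray_cross hb hab (B_pt_self ha hb _) (B_pt_self ha hb _) hne γ h.2.2.1 oW cW sW hx yW
      (cross_md' α β) ?_ ?_ (fun t ht hz => c3 ?_) (fun t ht => ?_)
    · rw [cross_flip]; exact neg_neg_of_pos (not_le.1 c1)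
    · rw [cross_flip, ← cross_md, hy, add_sub_cancel_left, cross_smul, cross_md]
      nlinarith [chord_neg ha hb h2 hu.1 hu.2]
    · have m1 : m ∈ closedConvexHull ℝ (range γ) := md_mem convex_closedConvexHull
        (subset_closedConvexHull γ.target_mem_range) (subset_closedConvexHull γ.source_mem_range)
      have := convex_closedConvexHull.add_smul_sub_mem m1 (subset_closedConvexHull hz)
        (t := 1 / (1 + t)) ⟨by positivity, (div_le_one (by positivity)).2 (by linarith)⟩
      convert this using 1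
      have : (1 + (t:ℂ)) ≠ 0 := by exact_mod_cast (show (1 + t) ≠ 0 by positivity)
      simp only [Complex.real_smul]; push_cast; field_simp; ring
    · have := av (ρ0 * (1 + t)) (by nlinarith)
      convert this using 2
      simp only [hy, Complex.real_smul]; push_cast; ring
  have : y ∈ U ∪ V := hUV ▸ ⟨yE, av ρ0 le_rfl⟩
  rcases this with c | c
  · exact ⟨U, V, oU, oV, cV, dj, hUV, aU, key U oU cU (hUV ▸ subset_union_left) c⟩
  · exact ⟨V, U, oV, oU, cU, dj.symm, (union_comm _ _).trans hUV, aV,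
      key V oV cV (hUV ▸ subset_union_right) c⟩

lemma feas_hull (hb : 0 < b) (hab : b ≤ a) {α β : ℝ} (h1 : α < β) (h2 : β < α + 2 * π)
    {γ : Path (pt a b β) (pt a b α)} (h : range γ ⊆ ell a b) :
    Feas a b (cap a b α β) (hull a b α β (range γ)) := by
  have ha : 0 < a := by linarith
  have kR : IsCompact (range γ) := isCompact_range γ.continuous
  have sE : closedConvexHull ℝ (range γ) ∩ HP (pt a b β) (pt a b α) ⊆ ell a b :=
    inter_subset_left.trans (cch_subset h)
  exact ⟨((isCompact_cch kR).inter_right (isClosed_HP _ _)).union (isCompact_cap hb hab _ _),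
    union_convex ha hb (convex_closedConvexHull.inter (convex_HP _ _)) (convex_cap _ _) sE
      inter_subset_left (B_pt_self ha hb _) (B_pt_self ha hb _) (pt_ne ha hb h1 h2).symm
      inter_subset_right inter_subset_right
      ⟨subset_closedConvexHull γ.source_mem_range, left_mem_HP _ _⟩
      ⟨subset_closedConvexHull γ.target_mem_range, right_mem_HP _ _⟩
      ⟨pt_mem ha hb _, right_mem_HP _ _⟩ ⟨pt_mem ha hb _, left_mem_HP _ _⟩,
    subset_union_right, union_subset sE inter_subset_left⟩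

lemma range_sub_hull {α β : ℝ} {G : Set ℂ} (h : G ⊆ ell a b) : G ⊆ hull a b α β G := by
  intro z hz
  rcases mem_HP_or (pt a b β) (pt a b α) z with c | c
  · exact Or.inl ⟨subset_closedConvexHull hz, c⟩
  · exact Or.inr ⟨h hz, c⟩

lemma per_hull (hb : 0 < b) (hab : b ≤ a) {α β : ℝ}
    {γ : Path (pt a b β) (pt a b α)} (h : eVariationOn γ univ ≠ ⊤) :
    per (hull a b α β (range γ)) - per (cap a b α β) + ‖pt a b β - pt a b α‖
      ≤ (eVariationOn γ univ).toReal := by
  have ha : 0 < a := by linarith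
  have kR : IsCompact (range γ) := isCompact_range γ.continuous
  have kX := (isCompact_cch kR).inter_right (isClosed_HP (pt a b β) (pt a b α))
  have e1 := per_union_le kX (isCompact_cap hb hab α β)
    ⟨subset_closedConvexHull γ.source_mem_range, left_mem_HP _ _⟩
    ⟨subset_closedConvexHull γ.target_mem_range, right_mem_HP _ _⟩
    ⟨pt_mem ha hb _, right_mem_HP _ _⟩ ⟨pt_mem ha hb _, left_mem_HP _ _⟩
  have e2 := per_mono kX ⟨_, subset_closedConvexHull γ.source_mem_range, left_mem_HP _ _⟩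
    (isCompact_cch kR) inter_subset_left
  rw [per_cch kR (range_nonempty γ)] at e2
  have e3 := per_range_le γ h
  unfold hull
  linarith

end Pool.Agent.MP_7791e4_an

end

section

set_option autoImplicit false

namespace Pool.Agent.MP_7791e4_an

open Set MeasureTheory Real Metric Filter Topology Pointwise

variable {a b : ℝ}

lemma dot_I (w z : ℂ) : dot (Complex.I * w) z = cross w z := by simp [dot, cross]; ring

lemma int_cap {α β : ℝ} {K : Set ℂ} (h : cap a b α β ⊆ K) {z : ℂ} (h1 : z ∈ interior (ell a b))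
    (h2 : cross (pt a b β - pt a b α) (z - pt a b α) < 0) : z ∈ interior K :=
  interior_maximal (t := interior (ell a b) ∩ {z | cross (pt a b β - pt a b α) (z - pt a b α) < 0})
    (fun _ hz => h ⟨interior_subset hz.1, show cross _ _ ≤ 0 from le_of_lt hz.2⟩)
    (isOpen_interior.inter (isOpen_lt (by fun_prop) continuous_const)) ⟨h1, h2⟩

lemma sub_sin_lt {x y : ℝ} (h : x < y) : x - sin x < y - sin y := by
  have h1 := sin_sub_sin y x
  have h2 : sin ((y - x) / 2) * cos ((y + x) / 2) ≤ |sin ((y - x) / 2)| :=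
    (le_abs_self _).trans (by
      rw [abs_mul]; exact mul_le_of_le_one_right (abs_nonneg _) (abs_cos_le_one _))
  have h3 := abs_sin_lt_abs (x := (y - x) / 2) (by linarith)
  rw [abs_of_pos (by linarith : 0 < (y - x) / 2)] at h3
  linarith

lemma cap_small (hb : 0 < b) (hab : b ≤ a) {α β : ℝ} (h1 : α < β) (h2 : β < α + π) :
    volume.real (cap a b α β) < π * a * b / 2 := by
  have ha : 0 < a := by linarith
  rw [ar_cap hb hab h1 (by linarith [pi_pos])]
  have := sub_sin_lt (x := β - α) (y := π) (by linarith)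
  rw [sin_pi] at this
  nlinarith [mul_pos ha hb]

lemma exists_beyond (hb : 0 < b) (hab : b ≤ a) {α β : ℝ} (h1 : α < β) (h2 : β < α + π) {K : Set ℂ}
    (hKE : K ⊆ ell a b) (hA : π * a * b / 2 ≤ volume.real K) :
    ∃ x ∈ K, 0 < cross (pt a b β - pt a b α) (x - pt a b α) := by
  by_contra hc
  push Not at hc
  have := measureReal_mono (μ := volume) (s₁ := K) (s₂ := cap a b α β)
    (fun z hz => ⟨hKE hz, hc z hz⟩) (isCompact_cap hb hab _ _).measure_lt_top.ne
  linarith [cap_small hb hab h1 h2]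

lemma fr_of_mem {K : Set ℂ} (hK : IsCompact K) (hKE : K ⊆ ell a b) {p : ℂ} (hpK : p ∈ K)
    (hp : B a b p p = 1) : p ∈ frontier K := by
  rw [hK.isClosed.frontier_eq]
  exact ⟨hpK, fun h => (mem_int.1 (interior_mono hKE h)).ne hp⟩

lemma split_cap (hb : 0 < b) (hab : b ≤ a) {α β : ℝ} (h1 : α < β) (h2 : β < α + 2 * π) {K : Set ℂ}
    (F : Feas a b (cap a b α β) K) :
    per (cap a b α β) + per (K ∩ HP (pt a b β) (pt a b α)) ≤ per K + 2 * ‖pt a b β - pt a b α‖ := by
  have ha : 0 < a := by linarith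
  have := per_split F.cpt F.cvx (P := pt a b α) (Q := pt a b β)
    (F.sup ⟨pt_mem ha hb _, left_mem_HP _ _⟩) fun z hz h =>
    on_line ha hb (B_pt_self ha hb _) (B_pt_self ha hb _) (pt_ne ha hb h1 h2) (F.sub hz) h
  rwa [show K ∩ HP (pt a b α) (pt a b β) = cap a b α β from subset_antisymm
    (inter_subset_inter_left _ F.sub) (subset_inter F.sup inter_subset_right), norm_sub_rev] at this

lemma comp_arc (hb : 0 < b) (hab : b ≤ a) {α β : ℝ} (h1 : α < β) (h2 : β < α + π) {K : Set ℂ}
    (F : Feas a b (cap a b α β) K) (hA : volume.real K = π * a * b / 2) {s t : ℝ} (hs : s < t)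
    (hst : t < s + 2 * π)
    (hcon : ∀ z, B a b z z = 1 → (z ∈ K ↔ z ∈ HP (pt a b s) (pt a b t))) :
    ∃ γ : Path (pt a b β) (pt a b α), Admissible a b γ ∧
      (eVariationOn γ univ).toReal ≤ per K - per (cap a b α β) + ‖pt a b β - pt a b α‖ := by
  have ha : 0 < a := by linarith
  have h2' : β < α + 2 * π := by linarith [pi_pos]
  obtain ⟨x, hx, x0⟩ := exists_beyond hb hab h1 h2 F.sub hA.ge
  set m := md a b α β with hm
  have mI : m ∈ interior K := by
    obtain ⟨ε, e0, e1⟩ := (ev_pos.and (ev_neg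
      (f := fun ε => B a b (m - ε • (x - m)) (m - ε • (x - m)) - 1) (by fun_prop)
      (by simpa using md_int ha hb h1 h2'))).exists
    have yI : m - ε • (x - m) ∈ interior K := int_cap F.sup (mem_int.2 (by linarith)) (by
      rw [← cross_md, ← hm, sub_sub_cancel_left, ← neg_smul, cross_smul, hm, cross_md]
      nlinarith)
    have := F.cvx.add_smul_sub_mem_interior hx yI (t := 1 / (1 + ε))
      ⟨by positivity, (div_le_one (by positivity)).2 (by linarith)⟩
    convert this using 1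
    have : (1 + (ε:ℂ)) ≠ 0 := by exact_mod_cast (show (1 + ε) ≠ 0 by positivity)
    simp only [Complex.real_smul]; push_cast; field_simp; ring
  obtain ⟨g, G⟩ := exists_Gg F.cpt F.cvx mI
  have pK : pt a b β ∈ K := F.sup ⟨pt_mem ha hb _, right_mem_HP _ _⟩
  have qK : pt a b α ∈ K := F.sup ⟨pt_mem ha hb _, left_mem_HP _ _⟩
  set w := pt a b β - m with hw
  have w2 : pt a b β - pt a b α = (2:ℝ) • w := by
    simp only [hw, hm, md, Complex.real_smul]; push_cast; ring
  have w3 : pt a b α - m = -w := by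
    simp only [hw, hm, md, Complex.real_smul]; push_cast; ring
  have w0 : 0 < ‖w‖ := norm_pos_iff.2 fun e => by
    rw [e, smul_zero, sub_eq_zero] at w2; exact pt_ne ha hb h1 h2' w2.symm
  set θp := Complex.arg w with hθ
  have e1 := G.eq_rad (fr_of_mem F.cpt F.sub pK (B_pt_self ha hb _)) (θ := θp) rfl
  have e2 := G.eq_rad (fr_of_mem F.cpt F.sub qK (B_pt_self ha hb _)) (θ := θp + π) (by
    rw [w3, ev_add_pi]
    apply smul_right_injective ℂ w0.ne'
    simp only
    rw [smul_neg, ← eq_smul_ev, ← norm_neg w, ← eq_smul_ev])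
  have cr : ∀ θ, cross (pt a b β - pt a b α) (rad m g θ - pt a b α)
      = 2 * ‖w‖ * (g (ev θ))⁻¹ * sin (θ - θp) := by
    intro θ
    rw [← cross_md, ← hm, rad, add_sub_cancel_left, cross_smul, w2, cross_anti, cross_smul]
    conv_lhs => rw [eq_smul_ev w]
    rw [cross_smul, cross_anti, cross_ev_ev]; ring
  obtain ⟨γ, g1, g2, g3⟩ := G.exists_arc (α := θp) (β := θp + π) (by linarith [pi_pos])
    (by linarith [pi_pos]) e1 e2
  have sub : range γ ⊆ K ∩ HP (pt a b β) (pt a b α) := by
    rw [g2]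
    rintro _ ⟨θ, hθ, rfl⟩
    refine ⟨G.rad_mem θ, ?_⟩
    show cross _ _ ≤ 0
    rw [cross_flip, cr]
    have := sin_nonneg_of_nonneg_of_le_pi (x := θ - θp) (by linarith [hθ.1]) (by linarith [hθ.2])
    have := G.pos_ev θ
    rw [neg_nonpos]; positivity
  have kX := F.cpt.inter_right (isClosed_HP (pt a b β) (pt a b α))
  have len := g3 _ kX sub
  have sp := split_cap hb hab h1 h2' F
  refine ⟨γ, admissible_of hb hab F.cpt F.cvx F.sub hA (B_pt_self ha hb _) pK
    (u := Complex.I * (pt a b t - pt a b s)) (κ := cross (pt a b t - pt a b s) (pt a b s))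
    (fun z hz => ?_) (z0 := pt a b ((t + (s + 2 * π)) / 2)) (B_pt_self ha hb _) (fun h => ?_) γ g1
    (ne_top_of_le_ne_top ENNReal.ofReal_ne_top len) ?_ ?_, ?_⟩
  · rw [hcon z hz, dot_I, ← sub_nonpos, ← cross_sub]; rfl
  · exact absurd ((hcon _ (B_pt_self ha hb _)).1 h)
      (not_le.2 (chord_pos ha hb hs (by linarith) (by linarith)))
  · rw [g2]; rintro _ ⟨θ, -, rfl⟩; exact G.rad_fr θ
  · rintro z ⟨hz, hzE⟩
    have hz' := hz
    rw [← G.image_Icc_eq θp] at hz'
    obtain ⟨θ, hθ, rfl⟩ := hz'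
    rw [g2]
    by_cases c : θ ≤ θp + π
    · exact ⟨θ, ⟨hθ.1, c⟩, rfl⟩
    rcases hθ.2.eq_or_lt with e | e
    · exact ⟨θp, ⟨le_rfl, by linarith [pi_pos]⟩, by rw [e, Gg.rad_periodic]⟩
    refine absurd (int_cap F.sup hzE ?_) hz.2
    rw [cr, ← sin_sub_two_pi]
    have s1 := sin_neg_of_neg_of_neg_pi_lt (x := θ - θp - 2 * π) (by linarith) (by linarith)
    have := G.pos_ev θ
    exact mul_neg_of_pos_of_neg (by positivity) s1
  · have := per_range_le γ (ne_top_of_le_ne_top ENNReal.ofReal_ne_top len)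
    have h0 : 0 ≤ per (K ∩ HP (pt a b β) (pt a b α)) - ‖pt a b β - pt a b α‖ := by
      by_contra hc
      rw [ENNReal.ofReal_of_nonpos (not_le.1 hc).le, nonpos_iff_eq_zero,
        eVariationOn.eq_zero_iff] at len
      have := len 0 (mem_univ _) 1 (mem_univ _)
      rw [γ.source, γ.target, edist_eq_zero] at this
      exact pt_ne ha hb h1 h2' this.symm
    linarith [ENNReal.toReal_le_of_le_ofReal h0 len]

lemma per_lt {S K : Set ℂ} (kS : IsCompact S) (nS : S.Nonempty) (hK : IsCompact K) (h : S ⊆ K)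
    {u : ℂ} (hu : hs S u < hs K u) : per S < per K := by
  have nK := nS.mono h
  rw [per_window S (Complex.arg u), per_window K (Complex.arg u)]
  refine intervalIntegral.integral_lt_integral_of_continuousOn_of_le_of_exists_lt
    (by linarith [pi_pos]) (continuous_hs_ev kS nS).continuousOn
    (continuous_hs_ev hK nK).continuousOn (fun θ _ => hs_mono hK nS h _)
    ⟨Complex.arg u, ⟨le_rfl, by linarith [pi_pos]⟩, ?_⟩
  obtain ⟨x, hx, e⟩ := exists_hs hK nK u
  obtain ⟨y, hy, e'⟩ := exists_hs kS nS (ev (Complex.arg u))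
  have h1 := le_hs kS hy u
  have h2 := le_hs hK hx (ev (Complex.arg u))
  have h3 : dot u y < dot u x := by linarith
  rw [eq_smul_ev u, smul_dot, smul_dot] at h3
  have := lt_of_mul_lt_mul_left h3 (norm_nonneg u)
  linarith

lemma per_cap_lt (hb : 0 < b) (hab : b ≤ a) {α β : ℝ} (h1 : α < β) (h2 : β < α + π) {K : Set ℂ}
    (F : Feas a b (cap a b α β) K) (hA : π * a * b / 2 ≤ volume.real K) :
    per (cap a b α β) < per K := by
  have ha : 0 < a := by linarith
  obtain ⟨x, hx, x0⟩ := exists_beyond hb hab h1 h2 F.sub hA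
  have nS : (cap a b α β).Nonempty := ⟨_, pt_mem ha hb _, left_mem_HP _ _⟩
  refine per_lt (isCompact_cap hb hab _ _) nS F.cpt F.sup
    (u := Complex.I * (pt a b β - pt a b α)) ?_
  have e1 := le_hs F.cpt hx (Complex.I * (pt a b β - pt a b α))
  have e2 := hs_le nS (u := Complex.I * (pt a b β - pt a b α))
    (c := cross (pt a b β - pt a b α) (pt a b α)) fun z hz => by
      rw [dot_I, ← sub_nonpos, ← cross_sub]; exact hz.2
  rw [dot_I] at e1
  rw [cross_sub] at x0
  linarith

lemma feas_cap (hb : 0 < b) (hab : b ≤ a) (α β : ℝ) : Feas a b (cap a b α β) (cap a b α β) :=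
  ⟨isCompact_cap hb hab _ _, convex_cap _ _, Subset.rfl, inter_subset_left⟩

lemma ar_comb {K L : Set ℂ} (hK : IsCompact K) (cK : Convex ℝ K) (nK : K.Nonempty)
    (hL : IsCompact L) (cL : Convex ℝ L) (nL : L.Nonempty) {τ : ℝ} (t0 : 0 ≤ τ) (t1 : τ ≤ 1) :
    (1 - τ) ^ 2 * volume.real K ≤ volume.real ((1 - τ) • K + τ • L) := by
  have b1 := bm_comb hK cK nK hL cL nL (s := 1 - τ) (by linarith) t0
  have b2 : (1 - τ) * √(volume.real K) ≤ √(volume.real ((1 - τ) • K + τ • L)) := by
    have := mul_nonneg t0 (Real.sqrt_nonneg (volume.real L)); linarith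
  have b3 := pow_le_pow_left₀ (mul_nonneg (by linarith) (Real.sqrt_nonneg _)) b2 2
  rwa [mul_pow, Real.sq_sqrt measureReal_nonneg, Real.sq_sqrt measureReal_nonneg] at b3

lemma continuous_cut {L : Set ℂ} (hL : IsCompact L) {u : ℂ} (hu : u ≠ 0) :
    Continuous fun h : ℝ => volume.real (L ∩ {z | dot u z ≤ h}) := by
  have ms : ∀ h, MeasurableSet (L ∩ {z | dot u z ≤ h}) := fun h =>
    (hL.inter_right (isClosed_dot_le u h)).measurableSet
  have e : (fun h : ℝ => volume.real (L ∩ {z | dot u z ≤ h}))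
      = fun h => ∫ z, (L ∩ {z | dot u z ≤ h}).indicator (fun _ => (1:ℝ)) z := by
    funext h; rw [integral_indicator (ms h)]; simp
  rw [e, continuous_iff_continuousAt]
  intro h0
  refine continuousAt_of_dominated (bound := L.indicator fun _ => (1:ℝ))
    (Eventually.of_forall fun h => (aestronglyMeasurable_const.indicator (ms h)))
    (Eventually.of_forall fun h => Eventually.of_forall fun z => ?_)
    ((integrable_indicator_iff hL.measurableSet).2 (integrableOn_const hL.measure_lt_top.ne)) ?_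
  · rw [Real.norm_of_nonneg (indicator_nonneg (fun _ _ => zero_le_one) _)]
    exact indicator_le_indicator_of_subset inter_subset_left (fun _ => zero_le_one) _
  · have n0 : 0 < ‖u‖ ^ 2 := by have := norm_pos_iff.2 hu; positivity
    have nl := null_line (P := (h0 / ‖u‖ ^ 2) • u) (Q := (h0 / ‖u‖ ^ 2) • u - Complex.I * u)
      (fun e => hu (by simpa using e.symm))
    have cr : ∀ z, cross ((h0 / ‖u‖ ^ 2) • u - Complex.I * u - (h0 / ‖u‖ ^ 2) • u)
        (z - (h0 / ‖u‖ ^ 2) • u) = dot u z - h0 := by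
      intro z
      have : dot u ((h0 / ‖u‖ ^ 2) • u) = h0 := by rw [dot_smul, dot_self]; field_simp
      rw [sub_sub_cancel_left]
      conv_rhs => rw [← this, ← dot_sub]
      simp [cross, dot]; ring
    filter_upwards [measure_eq_zero_iff_ae_notMem.1 nl] with z hz
    have ne : dot u z ≠ h0 := fun e => hz ⟨by show cross _ _ ≤ 0; rw [cr]; linarith,
      by show cross _ _ ≤ 0; rw [cross_flip, cr]; linarith⟩
    rcases lt_or_gt_of_ne ne with c | c
    · refine (continuousAt_const (y := L.indicator (fun _ => (1:ℝ)) z)).congr ?_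
      filter_upwards [lt_mem_nhds c] with h hh
      by_cases c' : z ∈ L
      · rw [indicator_of_mem c', indicator_of_mem (show z ∈ L ∩ _ from ⟨c', hh.le⟩)]
      · rw [indicator_of_notMem c', indicator_of_notMem fun h => c' h.1]
    · refine (continuousAt_const (y := (0:ℝ))).congr ?_
      filter_upwards [gt_mem_nhds c] with h hh
      simp only [indicator, mem_inter_iff, mem_ofPred_eq, not_le.2 hh, and_false, if_false]

lemma scale_arc (hb : 0 < b) (hab : b ≤ a) {α β : ℝ} (h1 : α < β) (h2 : β < α + π) {L : Set ℂ}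
    (F : Feas a b (cap a b α β) L) (hA : π * a * b / 2 < volume.real L) :
    ∃ γ : Path (pt a b β) (pt a b α), Admissible a b γ ∧
      (eVariationOn γ univ).toReal < per L - per (cap a b α β) + ‖pt a b β - pt a b α‖ := by
  have ha : 0 < a := by linarith
  have h2' : β < α + 2 * π := by linarith [pi_pos]
  have FS := feas_cap hb hab α β
  have nS : (cap a b α β).Nonempty := ⟨_, pt_mem ha hb _, left_mem_HP _ _⟩
  have nL := nS.mono F.sup
  obtain ⟨τ, t0, t1, t2⟩ := (ev_pos.and ((ev_lt one_pos).and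
    (ev_neg (f := fun τ => π * a * b / 2 - (1 - τ) ^ 2 * volume.real L) (by fun_prop)
      (by simpa using hA)))).exists
  have F' := F.comb FS t0.le t1.le
  have a1 := ar_comb F.cpt F.cvx nL FS.cpt FS.cvx nS t0.le t1.le
  have p1 := per_comb F.cpt nL FS.cpt nS t0.le t1.le
  have p2 := per_cap_lt hb hab h1 h2 F hA.le
  have con : ∀ z ∈ (1 - τ) • L + τ • cap a b α β, B a b z z = 1 → z ∈ cap a b α β := by
    rintro _ ⟨_, ⟨x, hx, rfl⟩, _, ⟨y, hy, rfl⟩, rfl⟩ hz
    simp only at hz ⊢
    by_cases e : x = y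
    · rw [e, ← add_smul]; simpa using hy
    exfalso
    have b1 := B_lt_one ha hb (F.sub hx) hy.1 e
    have b2 := mem_ell.1 (F.sub hx)
    have b3 := mem_ell.1 hy.1
    rw [B_comb] at hz
    have := mul_pos (mul_pos (sub_pos.2 t1) t0) (sub_pos.2 b1)
    nlinarith [mul_le_mul_of_nonneg_left b2 (sq_nonneg (1 - τ)),
      mul_le_mul_of_nonneg_left b3 (sq_nonneg τ)]
  set L' := (1 - τ) • L + τ • cap a b α β
  set v := pt a b β - pt a b α with hv
  have v0 : Complex.I * v ≠ 0 := mul_ne_zero Complex.I_ne_zero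
    (sub_ne_zero.2 (pt_ne ha hb h1 h2').symm)
  have hp : ∀ z, z ∈ HP (pt a b α) (pt a b β) ↔ dot (Complex.I * v) z ≤ cross v (pt a b α) :=
    fun z => by rw [dot_I, ← sub_nonpos, ← cross_sub]; rfl
  have c0 : cross v (pt a b α) ≤ hs L' (Complex.I * v) := by
    rw [← dot_I]; exact le_hs F'.cpt (F'.sup ⟨pt_mem ha hb _, left_mem_HP _ _⟩) _
  obtain ⟨h, hh, e⟩ := intermediate_value_Icc c0 (continuous_cut F'.cpt v0).continuousOn
    (show π * a * b / 2 ∈ _ from ⟨(measureReal_mono (s₂ := cap a b α β)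
      (fun z hz => ⟨F'.sub hz.1, (hp z).2 hz.2⟩) FS.cpt.measure_lt_top.ne).trans
        (cap_small hb hab h1 h2).le, by
      rw [inter_eq_left.2 (show L' ⊆ {z | dot (Complex.I * v) z ≤ hs L' (Complex.I * v)} from
        fun z hz => le_hs F'.cpt hz _)]; linarith⟩)
  have F2 : Feas a b (cap a b α β) (L' ∩ {z | dot (Complex.I * v) z ≤ h}) :=
    ⟨F'.cpt.inter_right (isClosed_dot_le _ _), F'.cvx.inter (convex_dot_le _ _),
      fun z hz => ⟨F'.sup hz, ((hp z).1 hz.2).trans hh.1⟩, inter_subset_left.trans F'.sub⟩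
  obtain ⟨γ, g1, g2⟩ := comp_arc hb hab h1 h2 F2 e h1 h2' fun z hz =>
    ⟨fun h => (con z h.1 hz).2, fun h => F2.sup ⟨mem_ell.2 hz.le, h⟩⟩
  have p3 := per_mono F2.cpt (nS.mono F2.sup) F'.cpt inter_subset_left
  exact ⟨γ, g1, by nlinarith⟩

lemma min_arc (hb : 0 < b) (hab : b ≤ a) {α β : ℝ} (h1 : α < β) (h2 : β < α + π)
    {γ : Path (pt a b β) (pt a b α)} (h : Shortest a b γ) {L : Set ℂ}
    (F : Feas a b (cap a b α β) L) (hA : π * a * b / 2 ≤ volume.real L) :
    (eVariationOn γ univ).toReal ≤ per L - per (cap a b α β) + ‖pt a b β - pt a b α‖ := by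
  have ha : 0 < a := by linarith
  apply le_of_forall_small (c := per (ell a b) - per L)
  intro s s0 s1
  have FE : Feas a b (cap a b α β) (ell a b) :=
    ⟨isCompact_ell hb hab, convex_ell, inter_subset_left, Subset.rfl⟩
  have nL : L.Nonempty := ⟨_, F.sup ⟨pt_mem ha hb _, left_mem_HP _ _⟩⟩
  obtain ⟨γ', g1, g2⟩ := scale_arc hb hab h1 h2 (F.comb FE s0.le s1)
    (mix_ell hb hab F.cpt F.cvx nL hA s0 s1)
  rw [per_comb F.cpt nL FE.cpt ⟨0, zero_mem_ell⟩ s0.le s1] at g2
  have := short_le h g1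
  linarith

end Pool.Agent.MP_7791e4_an

end
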