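import Pool.Agent.Mg.F5cfbf6.G52ca4d

/-! Products of homogeneous homeomorphisms: proof of `SphStmt`. -/

namespace Pool.Agent.MP_6a6613_co

open Set

namespace SphAux

theorem hh_equiv {E E' : Type} [NormedAddCommGroup E] [NormedSpace ℝ E] [NormedAddCommGroup E']
    [NormedSpace ℝ E'] (e : E ≃L[ℝ] E') : HH e e.symm (univ : Set E) (univ : Set E') :=
  ⟨e.continuous.continuousOn, e.symm.continuous.continuousOn, fun _ _ => trivial,
    fun _ _ => trivial, fun x _ => e.symm_apply_apply x, fun y _ => e.apply_symm_apply y,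
    fun _ _ _ _ => trivial, fun x _ t _ => map_smul e t x⟩

theorem sph_of {V E : Type} [Fintype V] [NormedAddCommGroup E] [NormedSpace ℝ E]
    [FiniteDimensional ℝ E] {K : Set (Finset V)} {d : ℕ} {f : (V → ℝ) → E} {g : E → V → ℝ}
    (h : HH f g (Cn K) univ) (hd : Module.finrank ℝ E = d) : Sph K d :=
  ⟨_, _, h.trans (hh_equiv (ContinuousLinearEquiv.ofFinrankEq (𝕜 := ℝ) (E := E)
    (F := Fin d → ℝ) (by simp [hd])))⟩

theorem mem_pi {ι W : Type} [Fintype ι] [Fintype W] [DecidableEq ι] [DecidableEq W]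
    (K : ι → Set (Finset W)) (p : ι × W → ℝ) :
    p ∈ Cn (piC K) ↔ ∀ i, (fun w => p (i, w)) ∈ Cn (K i) := by
  have e : ∀ i, pre (fun w => (i, w)) (supp p) = supp fun w => p (i, w) := fun i => by
    ext w; simp
  constructor
  · intro hp i
    exact ⟨fun w => hp.1 _, e i ▸ hp.2 i⟩
  · intro hp
    exact ⟨fun v => (hp v.1).1 v.2, fun i => (e i).symm ▸ (hp i).2⟩

theorem sph_pi (ι W : Type) [Fintype ι] [Fintype W] [DecidableEq ι] [DecidableEq W]
    (K : ι → Set (Finset W)) (n : ι → ℕ) (h : ∀ i, Sph (K i) (n i)) :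
    Sph (piC K) (∑ i, n i) := by
  choose f g h using h
  refine sph_of (E := (i : ι) → Fin (n i) → ℝ) (f := fun p i => f i fun w => p (i, w))
    (g := fun y v => g v.1 (y v.1) v.2) ⟨?_, ?_, fun _ _ => trivial, fun y _ => ?_, fun p hp => ?_,
      fun y _ => ?_, fun p hp t ht => ?_, fun p hp t ht => ?_⟩ ?_
  · refine continuousOn_pi.2 fun i => (h i).cf.comp ?_ fun p hp => (mem_pi K p).1 hp i
    exact (continuous_pi fun w => continuous_apply (i, w)).continuousOn
  · refine continuousOn_pi.2 fun v => ?_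
    exact (continuousOn_pi.1 ((h v.1).cg.comp (continuous_apply v.1).continuousOn
      fun _ _ => trivial)) v.2
  · exact (mem_pi K _).2 fun i => (h i).mg (mem_univ (y i))
  · funext v
    exact congrFun ((h v.1).gf _ ((mem_pi K p).1 hp v.1)) v.2
  · funext i
    exact (h i).fg (y i) trivial
  · exact (mem_pi K _).2 fun i => (h i).sX _ ((mem_pi K p).1 hp i) t ht
  · funext i
    exact (h i).hf _ ((mem_pi K p).1 hp i) t ht
  · simp [Module.finrank_pi_fintype]

theorem mem_sum {V V' : Type} [Fintype V] [Fintype V'] (K : Set (Finset V)) (L : Set (Finset V'))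
    (p : V ⊕ V' → ℝ) :
    p ∈ Cn (sumC K L) ↔ (fun v => p (Sum.inl v)) ∈ Cn K ∧ (fun v => p (Sum.inr v)) ∈ Cn L := by
  have e1 : (supp p).toLeft = supp fun v => p (Sum.inl v) := by ext w; simp
  have e2 : (supp p).toRight = supp fun v => p (Sum.inr v) := by ext w; simp
  constructor
  · intro hp
    exact ⟨⟨fun w => hp.1 _, e1 ▸ hp.2.1⟩, fun w => hp.1 _, e2 ▸ hp.2.2⟩
  · intro hp
    exact ⟨fun v => by cases v; exacts [hp.1.1 _, hp.2.1 _], e1.symm ▸ hp.1.2, e2.symm ▸ hp.2.2⟩

theorem hh_sum {V V' : Type} [Fintype V] [Fintype V'] (K : Set (Finset V)) (L : Set (Finset V'))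
    (hK : ∀ x ∈ Cn K, ∀ t : ℝ, 0 ≤ t → t • x ∈ Cn K)
    (hL : ∀ x ∈ Cn L, ∀ t : ℝ, 0 ≤ t → t • x ∈ Cn L) :
    HH (fun p : V ⊕ V' → ℝ => ((fun v => p (Sum.inl v)), fun v => p (Sum.inr v)))
      (fun q => Sum.elim q.1 q.2) (Cn (sumC K L)) (Cn K ×ˢ Cn L) where
  cf := ((continuous_pi fun _ => continuous_apply _).prodMk
    (continuous_pi fun _ => continuous_apply _)).continuousOn
  cg := (continuous_pi fun v => by
    cases v with
    | inl v => exact (continuous_apply v).comp continuous_fst
    | inr v => exact (continuous_apply v).comp continuous_snd).continuousOn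
  mf p hp := (mem_sum K L p).1 hp
  mg q hq := (mem_sum K L _).2 hq
  gf p _ := by funext v; cases v <;> rfl
  fg _ _ := rfl
  sX p hp t ht := (mem_sum K L _).2
    ⟨hK _ ((mem_sum K L p).1 hp).1 t ht, hL _ ((mem_sum K L p).1 hp).2 t ht⟩
  hf _ _ _ _ := rfl

theorem sph_sum (V V' : Type) [Fintype V] [Fintype V'] (K : Set (Finset V)) (L : Set (Finset V'))
    (a b : ℕ) (hK : Sph K a) (hL : Sph L b) : Sph (sumC K L) (a + b) := by
  obtain ⟨f, g, h⟩ := hK
  obtain ⟨f', g', h'⟩ := hL
  have := (hh_sum K L h.sX h'.sX).trans (h.prod h')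
  rw [univ_prod_univ] at this
  exact sph_of this (by simp)

theorem sph_empty (V : Type) [Fintype V] : Sph ({∅} : Set (Finset V)) 0 := by
  have e : ∀ p : V → ℝ, p ∈ Cn ({∅} : Set (Finset V)) ↔ p = 0 := fun p => by
    constructor
    · intro hp
      funext v
      by_contra hv
      have : v ∈ supp p := mem_supp.2 hv
      rw [show supp p = ∅ from hp.2] at this
      exact absurd this (Finset.notMem_empty v)
    · rintro rfl
      exact ⟨fun _ => le_rfl, by ext v; simp⟩
  exact ⟨fun _ => 0, fun _ => 0, continuousOn_const, continuousOn_const, fun _ _ => trivial,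
    fun _ _ => (e _).2 rfl, fun p hp => ((e p).1 hp).symm, fun y _ => Subsingleton.elim _ _,
    fun p hp t _ => (e _).2 (by rw [(e p).1 hp, smul_zero]), fun _ _ t _ => (smul_zero t).symm⟩

theorem sph_simplex (V : Type) [Fintype V] (d : ℕ) (hV : Fintype.card V = d + 1) :
    Sph {G : Finset V | G ≠ Finset.univ} d := by
  classical
  obtain ⟨v0⟩ : Nonempty V := Fintype.card_pos_iff.1 (by omega)
  have ne : (Finset.univ : Finset V).Nonempty := ⟨v0, Finset.mem_univ _⟩
  let ex : ({v : V // v ≠ v0} → ℝ) → V → ℝ := fun y v => if h : v = v0 then 0 else y ⟨v, h⟩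
  have cex : Continuous ex := continuous_pi fun v => by
    by_cases h : v = v0
    · simp only [ex, dif_pos h]; exact continuous_const
    · simp only [ex, dif_neg h]; exact continuous_apply _
  refine sph_of (E := {v : V // v ≠ v0} → ℝ) (f := fun p v => p v.1 - p v0)
    (g := fun y v => ex y v - mn Finset.univ (ex y)) ⟨?_, ?_, fun _ _ => trivial, fun y _ => ?_,
      fun p hp => ?_, fun y _ => ?_, fun p hp t ht => ?_, fun p _ t _ => ?_⟩ ?_
  · exact (continuous_pi fun v => (continuous_apply v.1).sub (continuous_apply v0)).continuousOn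
  · exact (continuous_pi fun v => ((continuous_apply v).comp cex).sub
      ((continuous_mn _).comp cex)).continuousOn
  · refine ⟨fun v => sub_nonneg.2 (mn_le _ (Finset.mem_univ v)), fun a => ?_⟩
    obtain ⟨v, -, hv⟩ := exists_mn ne (ex y)
    have : v ∈ supp fun v => ex y v - mn Finset.univ (ex y) := by
      rw [a]; exact Finset.mem_univ v
    exact mem_supp.1 this (by rw [hv, sub_self])
  · have e : ∀ v, ex (fun v => p v.1 - p v0) v = p v + -p v0 := fun v => by
      by_cases h : v = v0
      · simp [ex, h]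
      · simp only [ex, dif_neg h]; ring
    have e0 : mn Finset.univ p = 0 :=
      mn_zero hp.1 fun a => hp.2 (Finset.univ_subset_iff.1 a)
    funext v
    rw [mn_add ne (fun v _ => e v), e v, e0]
    ring
  · funext v
    simp only [ex, dif_neg v.2, dif_pos]
    ring
  · refine ⟨fun v => mul_nonneg ht (hp.1 v), fun a => hp.2 (Finset.univ_subset_iff.1 ?_)⟩
    exact a ▸ supp_smul_sub p t
  · funext v
    simp only [Pi.smul_apply, smul_eq_mul]
    ring
  · simp [Fintype.card_subtype_compl, hV]

/-- The inverse of the hexagon map. -/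
def hex (q : ℝ × ℝ) : Fin 6 → ℝ :=
  ![max 0 (q.1 - max q.2 0), max 0 (min q.1 q.2), max 0 (q.2 - max q.1 0),
    max 0 (-q.1 - max (-q.2) 0), max 0 (min (-q.1) (-q.2)), max 0 (-q.2 - max (-q.1) 0)]

theorem mem_C6 {p : Fin 6 → ℝ} (h0 : ∀ v, 0 ≤ p v) (k : Fin 6)
    (h : ∀ v, v ≠ k → v ≠ k + 1 → p v = 0) : p ∈ Cn C6 :=
  ⟨h0, k, fun v hv => by
    by_contra a
    simp only [Finset.mem_insert, Finset.mem_singleton, not_or] at a
    exact mem_supp.1 hv (h v a.1 a.2)⟩

theorem hex_nonneg (q : ℝ × ℝ) (v : Fin 6) : 0 ≤ hex q v := by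
  fin_cases v <;> simp [hex]

theorem hex_mem (q : ℝ × ℝ) : hex q ∈ Cn C6 := by
  obtain ⟨x, y⟩ := q
  rcases le_total 0 x with hx | hx <;> rcases le_total 0 y with hy | hy
  · rcases le_total x y with h | h
    · refine mem_C6 (hex_nonneg _) 1 fun v h1 h2 => ?_
      fin_cases v <;> first
        | exact absurd rfl h1
        | exact absurd rfl h2
        | (change max 0 _ = 0
           simp only [max_def, min_def]
           split_ifs <;> linarith)
    · refine mem_C6 (hex_nonneg _) 0 fun v h1 h2 => ?_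
      fin_cases v <;> first
        | exact absurd rfl h1
        | exact absurd rfl h2
        | (change max 0 _ = 0
           simp only [max_def, min_def]
           split_ifs <;> linarith)
  · refine mem_C6 (hex_nonneg _) 5 fun v h1 h2 => ?_
    fin_cases v <;> first
        | exact absurd rfl h1
        | exact absurd rfl h2
        | (change max 0 _ = 0
           simp only [max_def, min_def]
           split_ifs <;> linarith)
  · refine mem_C6 (hex_nonneg _) 2 fun v h1 h2 => ?_
    fin_cases v <;> first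
        | exact absurd rfl h1
        | exact absurd rfl h2
        | (change max 0 _ = 0
           simp only [max_def, min_def]
           split_ifs <;> linarith)
  · rcases le_total x y with h | h
    · refine mem_C6 (hex_nonneg _) 3 fun v h1 h2 => ?_
      fin_cases v <;> first
        | exact absurd rfl h1
        | exact absurd rfl h2
        | (change max 0 _ = 0
           simp only [max_def, min_def]
           split_ifs <;> linarith)
    · refine mem_C6 (hex_nonneg _) 4 fun v h1 h2 => ?_
      fin_cases v <;> first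
        | exact absurd rfl h1
        | exact absurd rfl h2
        | (change max 0 _ = 0
           simp only [max_def, min_def]
           split_ifs <;> linarith)

theorem hh_hex : HH (fun p : Fin 6 → ℝ => (p 0 + p 1 - p 3 - p 4, p 1 + p 2 - p 4 - p 5)) hex
    (Cn C6) univ where
  cf := by fun_prop
  cg := (continuous_pi fun v => by fin_cases v <;> simp [hex] <;> fun_prop).continuousOn
  mf _ _ := trivial
  mg q _ := hex_mem q
  gf p hp := by
    obtain ⟨h0, k, hk⟩ := hp
    have h : ∀ v, v ≠ k → v ≠ k + 1 → p v = 0 := fun v h1 h2 => by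
      by_contra a
      have := hk (mem_supp.2 a)
      simp [h1, h2] at this
    have a0 := h0 0
    have a1 := h0 1
    have a2 := h0 2
    have a3 := h0 3
    have a4 := h0 4
    have a5 := h0 5
    have b0 := h 0
    have b1 := h 1
    have b2 := h 2
    have b3 := h 3
    have b4 := h 4
    have b5 := h 5
    clear h hk h0
    funext v
    fin_cases k <;> simp at b0 b1 b2 b3 b4 b5 <;> fin_cases v <;>
      simp only [hex, max_def, min_def] <;> simp <;> split_ifs <;> linarith
  fg q _ := by
    obtain ⟨x, y⟩ := q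
    simp only [hex, Prod.mk.injEq]
    simp only [Matrix.cons_val, max_def, min_def]
    constructor <;> split_ifs <;> linarith
  sX p hp t ht := ⟨fun v => mul_nonneg ht (hp.1 v), by
    obtain ⟨k, hk⟩ := hp.2
    exact ⟨k, (supp_smul_sub p t).trans hk⟩⟩
  hf p _ t _ := by
    ext <;> simp only [Pi.smul_apply, smul_eq_mul, Prod.smul_mk] <;> ring

theorem sph_book (V : Type) [Fintype V] (A A' : Set (Finset V)) (d : ℕ)
    (h : (V → ℝ) → (V → ℝ) × (Fin 6 → ℝ)) (g : (V → ℝ) × (Fin 6 → ℝ) → (V → ℝ))
    (hh : HH h g (Cn A) (Cn A' ×ˢ Cn C6)) (hs : Sph A' d) : Sph A (d + 2) := by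
  obtain ⟨f', g', h'⟩ := hs
  have := hh.trans (h'.prod hh_hex)
  rw [univ_prod_univ] at this
  exact sph_of this (by simp)

end SphAux

theorem sphStmt : SphStmt :=
  ⟨SphAux.sph_pi, SphAux.sph_sum, SphAux.sph_empty, SphAux.sph_simplex, SphAux.sph_book⟩

end Pool.Agent.MP_6a6613_co
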