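import Mathlib
import Pool.Agent.MP_89350a_an.Select
import Pool.Agent.MP_89350a_an.Defs

section

open TopologicalSpace Topology Filter Set

namespace Pool.Agent.MP_89350a_an

variable {T : Type*} [TopologicalSpace T] [SecondCountableTopology T]
variable {𝕜 E : Type*} [NontriviallyNormedField 𝕜] [NormedAddCommGroup E] [NormedSpace 𝕜 E]

/-- A countable family of continuous selections that is pointwise dense. -/
lemma exists_dense_selections [CompleteSpace E] [SeparableSpace E]
    (hz : IsTopologicalBasis {s : Set T | IsClopen s})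
    (F : T → ClosedSubmodule 𝕜 E)
    (hF : ∀ U : Set E, IsOpen U → IsOpen {x | ((F x : Set E) ∩ U).Nonempty}) :
    ∃ g : ℕ → T → E, (∀ j, Continuous (g j)) ∧ (∀ j x, g j x ∈ F x) ∧
      ∀ x, ∀ v ∈ F x, ∀ ε > (0 : ℝ), ∃ j, dist v (g j x) < ε := by
  classical
  obtain ⟨B, hBs, hBc, hB⟩ := hz.exists_countable
  obtain ⟨d, hd⟩ := exists_dense_seq E
  have : Countable B := hBc.to_subtype
  have key : ∀ (p : B × ℕ × ℕ), ∃ g : T → E, Continuous g ∧ (∀ x, g x ∈ F x) ∧
      ((∀ x ∈ (p.1 : Set T), ((F x : Set E) ∩ Metric.ball (d p.2.1) (1 / (p.2.2 + 1 : ℝ))).Nonempty)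
        → ∀ x ∈ (p.1 : Set T), dist (d p.2.1) (g x) ≤ 2 * (1 / (p.2.2 + 1 : ℝ))) := by
    rintro ⟨D, k, m⟩
    by_cases h : ∀ x ∈ (D : Set T),
        ((F x : Set E) ∩ Metric.ball (d k) (1 / (m + 1 : ℝ))).Nonempty
    · have hD : IsClopen (D : Set T) := hBs D.2
      have hr : (0 : ℝ) < 1 / (m + 1 : ℝ) := by positivity
      obtain ⟨s, hs, hsF, hsd⟩ := exists_selection hz (fun x => (F x : Set E))
        (fun x => (F x).isClosed) hF (s₀ := (D : Set T).indicator fun _ => d k)
        (hD.continuous_indicator continuous_const) hr (by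
          intro x
          by_cases hx : x ∈ (D : Set T)
          · obtain ⟨y, hy1, hy2⟩ := h x hx
            refine ⟨y, hy1, ?_⟩
            rw [indicator_of_mem hx, dist_comm]
            exact hy2
          · refine ⟨0, (F x).toSubmodule.zero_mem, ?_⟩
            rw [indicator_of_notMem hx]
            simpa using hr)
      refine ⟨s, hs, hsF, fun _ x hx => ?_⟩
      have := hsd x
      rwa [indicator_of_mem hx] at this
    · exact ⟨fun _ => 0, continuous_const, fun x => (F x).toSubmodule.zero_mem,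
        fun h' => (h h').elim⟩
  choose g hgc hgF hgd using key
  obtain ⟨e, he⟩ := exists_surjective_nat (Option (B × ℕ × ℕ))
  refine ⟨fun j => (e j).elim (fun _ => 0) g, ?_, ?_, ?_⟩
  · intro j
    dsimp only
    cases e j with
    | none => exact continuous_const
    | some p => exact hgc p
  · intro j x
    dsimp only
    cases e j with
    | none => exact (F x).toSubmodule.zero_mem
    | some p => exact hgF p x
  · intro x v hv ε hε
    obtain ⟨m, hm⟩ := exists_nat_one_div_lt (show 0 < ε / 3 by positivity)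
    have hr : (0 : ℝ) < 1 / (m + 1 : ℝ) := by positivity
    obtain ⟨k, hk⟩ := hd.exists_dist_lt v hr
    have hx : x ∈ {x | ((F x : Set E) ∩ Metric.ball (d k) (1 / (m + 1 : ℝ))).Nonempty} :=
      ⟨v, hv, hk⟩
    obtain ⟨D, hD, hxD, hDs⟩ := hB.mem_nhds_iff.1 ((hF _ Metric.isOpen_ball).mem_nhds hx)
    obtain ⟨j, hj⟩ := he (some (⟨D, hD⟩, k, m))
    refine ⟨j, ?_⟩
    have h1 := hgd (⟨D, hD⟩, k, m) (fun y hy => hDs hy) x hxD
    simp only [hj, Option.elim]
    have h2 := dist_triangle v (d k) (g (⟨D, hD⟩, k, m) x)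
    simp only at h1
    linarith

omit [SecondCountableTopology T] in
lemma continuous_snoc {n : ℕ} {f : Fin n → T → E} (hf : ∀ i, Continuous (f i)) {s : T → E}
    (hs : Continuous s) :
    Continuous fun x => (Fin.snoc (fun i => f i x) (s x) : Fin (n + 1) → E) := by
  refine continuous_pi fun i => ?_
  refine Fin.lastCases ?_ (fun i => ?_) i
  · simpa using hs
  · simpa using hf i

/-- The inductive step: perturb a selection so that it leaves the span of the previous ones. -/
lemma exists_step [CompleteSpace 𝕜] [PseudoMetrizableSpace T]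
    (hz : IsTopologicalBasis {s : Set T | IsClopen s})
    (F : T → ClosedSubmodule 𝕜 E)
    {g : ℕ → T → E} (hgc : ∀ j, Continuous (g j)) (hgF : ∀ j x, g j x ∈ F x)
    (hgd : ∀ x, ∀ v ∈ F x, ∀ ε > (0 : ℝ), ∃ j, dist v (g j x) < ε)
    {n : ℕ} {f : Fin n → T → E} (hf : ∀ i, Continuous (f i))
    {d : T → E} (hd : Continuous d) (hdF : ∀ x, d x ∈ F x) {ε : ℝ} (hε : 0 < ε) :
    ∃ s : T → E, Continuous s ∧ (∀ x, s x ∈ F x) ∧ (∀ x, dist (s x) (d x) < ε) ∧
      ∀ x, ¬ FiniteDimensional 𝕜 (F x).toSubmodule → LinearIndependent 𝕜 (fun i => f i x) →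
        LinearIndependent 𝕜 (Fin.snoc (fun i => f i x) (s x) : Fin (n + 1) → E) := by
  set O : Set T := ⋃ j, {x | LinearIndependent 𝕜
    (Fin.snoc (fun i => f i x) (g j x) : Fin (n + 1) → E)} with hO
  have hopen : ∀ s : T → E, Continuous s → IsOpen {x | LinearIndependent 𝕜
      (Fin.snoc (fun i => f i x) (s x) : Fin (n + 1) → E)} := fun s hs =>
    isOpen_setOfPred_linearIndependent.preimage (continuous_snoc hf hs)
  have hOo : IsOpen O := isOpen_iUnion fun j => hopen _ (hgc j)
  obtain ⟨s, hs, hsP, hsd, hsε⟩ := exists_glue_near hz hOo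
    (fun x v => v ∈ F x ∧ LinearIndependent 𝕜 (Fin.snoc (fun i => f i x) v : Fin (n + 1) → E))
    hd hε (by
      intro x hx δ hδ
      obtain ⟨j, hj⟩ := mem_iUnion.1 hx
      obtain ⟨hfx, hgx⟩ := linearIndependent_finSnoc.1 hj
      have hex : ∃ t : 𝕜, ‖t • g j x‖ < δ ∧
          d x + t • g j x ∉ Submodule.span 𝕜 (range fun i => f i x) := by
        by_cases h0 : d x ∈ Submodule.span 𝕜 (range fun i => f i x)
        · have hc : Tendsto (fun t : 𝕜 => ‖t • g j x‖) (𝓝[≠] 0) (𝓝 0) := by
            have : Continuous fun t : 𝕜 => ‖t • g j x‖ := by fun_prop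
            simpa using (this.tendsto 0).mono_left nhdsWithin_le_nhds
          obtain ⟨t, ht1, ht2⟩ :=
            ((hc.eventually (gt_mem_nhds hδ)).and self_mem_nhdsWithin).exists
          refine ⟨t, ht1, fun h => hgx ?_⟩
          have h1 := Submodule.sub_mem _ h h0
          rw [add_sub_cancel_left] at h1
          exact (Submodule.smul_mem_iff _ ht2).1 h1
        · exact ⟨0, by simpa using hδ, by simpa using h0⟩
      obtain ⟨t, ht1, ht2⟩ := hex
      have hc : Continuous fun y => d y + t • g j y := hd.add ((hgc j).const_smul t)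
      refine ⟨fun y => d y + t • g j y, hc, by simpa [dist_eq_norm] using ht1, ?_⟩
      have hev := (hopen _ hc).mem_nhds (show x ∈ _ from linearIndependent_finSnoc.2 ⟨hfx, ht2⟩)
      filter_upwards [hev] with y hy
      exact ⟨(F y).toSubmodule.add_mem (hdF y) ((F y).toSubmodule.smul_mem t (hgF j y)), hy⟩)
  refine ⟨s, hs, ?_, hsε, ?_⟩
  · intro x
    by_cases hx : x ∈ O
    · exact (hsP x hx).1
    · rw [hsd x hx]; exact hdF x
  · intro x hinf hfx
    refine (hsP x ?_).2
    by_contra hx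
    apply hinf
    have hall : ∀ j, g j x ∈ Submodule.span 𝕜 (range fun i => f i x) := by
      intro j
      by_contra hj
      exact hx (mem_iUnion.2 ⟨j, linearIndependent_finSnoc.2 ⟨hfx, hj⟩⟩)
    have hfin : FiniteDimensional 𝕜 (Submodule.span 𝕜 (range fun i => f i x)) :=
      FiniteDimensional.span_of_finite 𝕜 (finite_range _)
    have hcl : IsClosed (Submodule.span 𝕜 (range fun i => f i x) : Set E) :=
      Submodule.closed_of_finiteDimensional _
    have hle : (F x).toSubmodule ≤ Submodule.span 𝕜 (range fun i => f i x) := by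
      intro v hv
      have : v ∈ closure (Submodule.span 𝕜 (range fun i => f i x) : Set E) := by
        rw [Metric.mem_closure_iff]
        intro ε hε
        obtain ⟨j, hj⟩ := hgd x v hv ε hε
        exact ⟨g j x, hall j, hj⟩
      rwa [hcl.closure_eq] at this
    exact Submodule.finiteDimensional_of_le hle

/-- Course-of-values recursion. -/
noncomputable def seqRec {α : Type*} (c : ∀ n, (Fin n → α) → α) : ℕ → α
  | n => c n fun i => seqRec c i
decreasing_by exact i.2

lemma seqRec_eq {α : Type*} (c : ∀ n, (Fin n → α) → α) (n : ℕ) :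
    seqRec c n = c n fun i => seqRec c i := by
  rw [seqRec]

/-- Dense, linearly independent continuous selections over a zero-dimensional base. -/
theorem exists_dense_indep [CompleteSpace 𝕜] [CompleteSpace E] [SeparableSpace E]
    [PseudoMetrizableSpace T]
    (hz : IsTopologicalBasis {s : Set T | IsClopen s})
    (F : T → ClosedSubmodule 𝕜 E)
    (hF : ∀ U : Set E, IsOpen U → IsOpen {x | ((F x : Set E) ∩ U).Nonempty}) :
    ∃ h : ℕ → T → E, (∀ i, Continuous (h i)) ∧
      (∀ x, (F x : Set E) = closure (range fun i => h i x)) ∧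
      ∀ x, ¬ FiniteDimensional 𝕜 (F x).toSubmodule → LinearIndependent 𝕜 fun i => h i x := by
  obtain ⟨g, hgc, hgF, hgd⟩ := exists_dense_selections hz F hF
  have step : ∀ (n : ℕ) (f : Fin n → T → E), ∃ s : T → E, (∀ i, Continuous (f i)) →
      Continuous s ∧ (∀ x, s x ∈ F x) ∧
      (∀ x, dist (s x) (g (Nat.unpair n).1 x) < 1 / (n + 1 : ℝ)) ∧
      ∀ x, ¬ FiniteDimensional 𝕜 (F x).toSubmodule → LinearIndependent 𝕜 (fun i => f i x) →
        LinearIndependent 𝕜 (Fin.snoc (fun i => f i x) (s x) : Fin (n + 1) → E) := by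
    intro n f
    by_cases hf : ∀ i, Continuous (f i)
    · obtain ⟨s, hs⟩ := exists_step hz F hgc hgF hgd hf (hgc (Nat.unpair n).1)
        (hgF (Nat.unpair n).1) (show (0 : ℝ) < 1 / (n + 1 : ℝ) by positivity)
      exact ⟨s, fun _ => hs⟩
    · exact ⟨fun _ => 0, fun h => (hf h).elim⟩
  choose c hc using step
  set h : ℕ → T → E := seqRec c with hh
  have hcont : ∀ n, Continuous (h n) := by
    intro n
    induction n using Nat.strong_induction_on with
    | _ n ih =>
      rw [hh, seqRec_eq]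
      exact (hc n _ fun i => ih i i.2).1
  have hspec : ∀ n, (∀ x, h n x ∈ F x) ∧
      (∀ x, dist (h n x) (g (Nat.unpair n).1 x) < 1 / (n + 1 : ℝ)) ∧
      ∀ x, ¬ FiniteDimensional 𝕜 (F x).toSubmodule →
        LinearIndependent 𝕜 (fun i : Fin n => h i x) →
        LinearIndependent 𝕜 (Fin.snoc (fun i : Fin n => h i x) (h n x) : Fin (n + 1) → E) := by
    intro n
    have := (hc n (fun i => h i) fun i => hcont i).2
    rwa [← seqRec_eq c n] at this
  refine ⟨h, hcont, ?_, ?_⟩
  · intro x
    apply Subset.antisymm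
    · intro v hv
      rw [Metric.mem_closure_iff]
      intro ε hε
      obtain ⟨j, hj⟩ := hgd x v hv (ε / 2) (half_pos hε)
      obtain ⟨m, hm⟩ := exists_nat_one_div_lt (half_pos hε)
      refine ⟨h (Nat.pair j m) x, mem_range_self _, ?_⟩
      have h1 := (hspec (Nat.pair j m)).2.1 x
      rw [Nat.unpair_pair] at h1
      have h2 : (1 : ℝ) / (Nat.pair j m + 1 : ℝ) ≤ 1 / (m + 1 : ℝ) := by
        have : (m : ℝ) ≤ Nat.pair j m := by exact_mod_cast Nat.right_le_pair j m
        gcongr
      have h3 := dist_triangle_right v (h (Nat.pair j m) x) (g j x)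
      simp only at h1
      linarith
    · refine closure_minimal ?_ (F x).isClosed
      rintro _ ⟨i, rfl⟩
      exact (hspec i).1 x
  · intro x hinf
    have hfin : ∀ n, LinearIndependent 𝕜 (fun i : Fin n => h i x) := by
      intro n
      induction n with
      | zero => exact linearIndependent_empty_type
      | succ n ih =>
        have := (hspec n).2.2 x hinf ih
        convert this using 1
        funext i
        refine Fin.lastCases ?_ (fun i => ?_) i <;> simp
    rw [linearIndependent_iff_finset_linearIndependent]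
    intro s
    obtain ⟨n, hn⟩ := s.exists_nat_subset_range
    exact (hfin n).comp (fun i : s => (⟨i, Finset.mem_range.1 (hn i.2)⟩ : Fin n))
      (fun a b hab => Subtype.ext (by simpa using hab))

end Pool.Agent.MP_89350a_an

end

section

open TopologicalSpace Topology Filter Set Pointwise

namespace Pool.Agent.MP_89350a_an

/-- A `Gδ` subset of a Polish space is Polish. -/
lemma polishSpace_of_isGδ {α : Type*} [TopologicalSpace α] [PolishSpace α] {s : Set α}
    (hs : IsGδ s) : PolishSpace s := by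
  obtain ⟨U, hU, rfl⟩ := hs.eq_iInter_nat
  have : ∀ n, PolishSpace (U n) := fun n => (hU n).polishSpace
  let φ : (⋂ n, U n : Set α) → (∀ n, U n) := fun x n => ⟨x.1, mem_iInter.1 x.2 n⟩
  have hφc : Continuous φ := continuous_pi fun n => continuous_subtype_val.subtype_mk _
  have hemb : IsEmbedding φ := by
    refine IsEmbedding.of_comp hφc (g := fun y : (∀ n, U n) => (y 0 : α))
      (continuous_subtype_val.comp (continuous_apply 0)) ?_
    exact IsEmbedding.subtypeVal
  have hr : range φ = ⋂ n, {y : (∀ n, U n) | (y n : α) = y 0} := by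
    ext y
    simp only [mem_range, mem_iInter, mem_ofPred_eq]
    constructor
    · rintro ⟨x, rfl⟩ n
      rfl
    · intro h
      refine ⟨⟨y 0, mem_iInter.2 fun n => h n ▸ (y n).2⟩, ?_⟩
      funext n
      exact Subtype.ext (h n).symm
  have hcl : IsClosed (range φ) := by
    rw [hr]
    exact isClosed_iInter fun n => isClosed_eq (continuous_subtype_val.comp (continuous_apply n))
      (continuous_subtype_val.comp (continuous_apply 0))
  exact (IsClosedEmbedding.mk hemb hcl).polishSpace

variable {𝕜 E : Type*} [NontriviallyNormedField 𝕜] [NormedAddCommGroup E] [NormedSpace 𝕜 E]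

open Classical in
/-- The code of a closed subspace with respect to a sequence of open sets. -/
noncomputable def code (𝕜 : Type*) [NontriviallyNormedField 𝕜] [NormedSpace 𝕜 E]
    (U : ℕ → Set E) (X : ClosedSubmodule 𝕜 E) : ℕ → Bool :=
  fun n => decide (X ∈ hits 𝕜 (U n))

lemma code_eq_true {U : ℕ → Set E} {X : ClosedSubmodule 𝕜 E} {n : ℕ} :
    code 𝕜 U X n = true ↔ ((X : Set E) ∩ U n).Nonempty := by
  classical
  unfold code
  exact decide_eq_true_iff

lemma code_injective {U : ℕ → Set E} (hU : IsTopologicalBasis (range U)) :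
    Function.Injective (code 𝕜 U) := by
  have key : ∀ X Y : ClosedSubmodule 𝕜 E, code 𝕜 U X = code 𝕜 U Y → (X : Set E) ⊆ Y := by
    intro X Y h x hx
    rw [← Y.isClosed.closure_eq, hU.mem_closure_iff]
    rintro _ ⟨n, rfl⟩ hxn
    have : code 𝕜 U Y n = true := by
      rw [← h]; exact code_eq_true.2 ⟨x, hx, hxn⟩
    rw [inter_comm]
    exact code_eq_true.1 this
  intro X Y h
  exact SetLike.coe_injective (Subset.antisymm (key X Y h) (key Y X h.symm))

/-- The conditions describing the range of `code`. -/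
structure IsCode (𝕜 : Type*) [NontriviallyNormedField 𝕜] [NormedSpace 𝕜 E]
    (U : ℕ → Set E) (φ : ℕ → Bool) : Prop where
  zero : ∀ n, (0 : E) ∈ U n → φ n = true
  add : ∀ a b c, (∀ x ∈ U a, ∀ y ∈ U b, x + y ∈ U c) → φ a = true → φ b = true → φ c = true
  smul : ∀ (t : 𝕜) a c, (∀ x ∈ U a, t • x ∈ U c) → φ a = true → φ c = true
  nonempty : ∀ n, φ n = true → (U n).Nonempty
  shrink : ∀ n k : ℕ, φ n = true → ∃ m, closure (U m) ⊆ U n ∧
    (∀ x ∈ U m, ∀ y ∈ U m, dist x y ≤ 1 / (k + 1 : ℝ)) ∧ φ m = true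

lemma isCode_code {U : ℕ → Set E} (hU : IsTopologicalBasis (range U))
    (X : ClosedSubmodule 𝕜 E) : IsCode 𝕜 U (code 𝕜 U X) where
  zero n hn := code_eq_true.2 ⟨0, X.toSubmodule.zero_mem, hn⟩
  add a b c h ha hb := by
    obtain ⟨x, hx, hxa⟩ := code_eq_true.1 ha
    obtain ⟨y, hy, hyb⟩ := code_eq_true.1 hb
    exact code_eq_true.2 ⟨x + y, X.toSubmodule.add_mem hx hy, h x hxa y hyb⟩
  smul t a c h ha := by
    obtain ⟨x, hx, hxa⟩ := code_eq_true.1 ha
    exact code_eq_true.2 ⟨t • x, X.toSubmodule.smul_mem t hx, h x hxa⟩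
  nonempty n hn := (code_eq_true.1 hn).mono inter_subset_right
  shrink n k hn := by
    obtain ⟨x, hx, hxn⟩ := code_eq_true.1 hn
    have hn' : U n ∈ 𝓝 x := (hU.isOpen (mem_range_self n)).mem_nhds hxn
    obtain ⟨C, hC, hCc, hCs⟩ := exists_mem_nhds_isClosed_subset hn'
    have hr : (0 : ℝ) < 1 / (k + 1 : ℝ) / 2 := by positivity
    obtain ⟨_, ⟨m, rfl⟩, hxm, hm⟩ := hU.mem_nhds_iff.1 (inter_mem hC (Metric.ball_mem_nhds x hr))
    refine ⟨m, (closure_minimal (hm.trans inter_subset_left) hCc).trans hCs, ?_,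
      code_eq_true.2 ⟨x, hx, hxm⟩⟩
    intro y hy z hz
    have h1 : dist y x < _ := (hm hy).2
    have h2 : dist z x < _ := (hm hz).2
    have h3 := dist_triangle_right y z x
    linarith

lemma exists_code_eq [CompleteSpace E] {U : ℕ → Set E} (hU : IsTopologicalBasis (range U))
    {φ : ℕ → Bool} (hφ : IsCode 𝕜 U φ) : ∃ X : ClosedSubmodule 𝕜 E, code 𝕜 U X = φ := by
  have hUo : ∀ n, IsOpen (U n) := fun n => hU.isOpen (mem_range_self n)
  let S : Submodule 𝕜 E :=
    { carrier := {x | ∀ n, x ∈ U n → φ n = true}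
      zero_mem' := hφ.zero
      add_mem' := by
        intro x y hx hy c hc
        have h1 : (fun p : E × E => p.1 + p.2) ⁻¹' U c ∈ 𝓝 (x, y) :=
          continuous_add.continuousAt.preimage_mem_nhds ((hUo c).mem_nhds hc)
        obtain ⟨A, hA, B, hB, hAB⟩ := mem_nhds_prod_iff.1 h1
        obtain ⟨_, ⟨a, rfl⟩, hxa, ha⟩ := hU.mem_nhds_iff.1 hA
        obtain ⟨_, ⟨b, rfl⟩, hyb, hb⟩ := hU.mem_nhds_iff.1 hB
        exact hφ.add a b c (fun u hu v hv => hAB (mk_mem_prod (ha hu) (hb hv))) (hx a hxa)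
          (hy b hyb)
      smul_mem' := by
        intro t x hx c hc
        have h1 : (fun u : E => t • u) ⁻¹' U c ∈ 𝓝 x :=
          (continuous_const_smul t).continuousAt.preimage_mem_nhds ((hUo c).mem_nhds hc)
        obtain ⟨_, ⟨a, rfl⟩, hxa, ha⟩ := hU.mem_nhds_iff.1 h1
        exact hφ.smul t a c (fun u hu => ha hu) (hx a hxa) }
  have hS : IsClosed (S : Set E) := by
    have : (S : Set E) = ⋂ n ∈ {n | φ n ≠ true}, (U n)ᶜ := by
      ext x
      simp only [mem_iInter, mem_compl_iff, mem_ofPred_eq]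
      exact ⟨fun h n hn hx => hn (h n hx), fun h n hx => by_contra fun hn => h n hn hx⟩
    rw [this]
    exact isClosed_biInter fun n _ => (hUo n).isClosed_compl
  refine ⟨⟨S, hS⟩, ?_⟩
  funext n
  rw [Bool.eq_iff_iff, code_eq_true]
  constructor
  · rintro ⟨x, hx, hxn⟩
    exact hx n hxn
  · intro hn
    have hsh : ∀ n k : ℕ, ∃ m, φ n = true → closure (U m) ⊆ U n ∧
        (∀ x ∈ U m, ∀ y ∈ U m, dist x y ≤ 1 / (k + 1 : ℝ)) ∧ φ m = true := by
      intro n k
      by_cases h : φ n = true
      · obtain ⟨m, hm⟩ := hφ.shrink n k h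
        exact ⟨m, fun _ => hm⟩
      · exact ⟨0, fun h' => (h h').elim⟩
    choose nxt hnxt using hsh
    let u : ℕ → ℕ := fun k => Nat.rec n (fun k m => nxt m k) k
    have hus : ∀ k, u (k + 1) = nxt (u k) k := fun k => rfl
    have hφu : ∀ k, φ (u k) = true := by
      intro k
      induction k with
      | zero => exact hn
      | succ k ih => rw [hus]; exact (hnxt _ _ ih).2.2
    have hcl : ∀ k, closure (U (u (k + 1))) ⊆ U (u k) := fun k => (hnxt _ k (hφu k)).1
    have hdi : ∀ k : ℕ, ∀ x ∈ U (u (k + 1)), ∀ y ∈ U (u (k + 1)), dist x y ≤ 1 / (k + 1 : ℝ) :=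
      fun k => (hnxt _ k (hφu k)).2.1
    have hanti : Antitone fun k => U (u k) :=
      antitone_nat_of_succ_le fun k => subset_closure.trans (hcl k)
    choose x hx using fun k => hφ.nonempty _ (hφu k)
    have hcau : CauchySeq x := by
      rw [Metric.cauchySeq_iff']
      intro ε hε
      obtain ⟨k, hk⟩ := exists_nat_one_div_lt hε
      exact ⟨k + 1, fun j hj => (hdi k _ (hanti hj (hx j)) _ (hx (k + 1))).trans_lt hk⟩
    obtain ⟨z, hz⟩ := cauchySeq_tendsto_of_complete hcau
    have hzU : ∀ k, z ∈ U (u k) := by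
      intro k
      refine hcl k (mem_closure_of_tendsto hz ?_)
      filter_upwards [eventually_ge_atTop (k + 1)] with j hj using hanti hj (hx j)
    refine ⟨z, ?_, hzU 0⟩
    intro m hm
    obtain ⟨ε, hε, hball⟩ := Metric.isOpen_iff.1 (hUo m) z hm
    obtain ⟨k, hk⟩ := exists_nat_one_div_lt hε
    refine hφ.smul 1 (u (k + 1)) m (fun y hy => ?_) (hφu (k + 1))
    rw [one_smul]
    exact hball ((hdi k _ hy _ (hzU (k + 1))).trans_lt hk)

lemma isGδ_isCode (U : ℕ → Set E) : IsGδ {φ : ℕ → Bool | IsCode 𝕜 U φ} := by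
  have hcl : ∀ n, IsClopen {φ : ℕ → Bool | φ n = true} := fun n =>
    (isClopen_discrete ({true} : Set Bool)).preimage (continuous_apply n)
  have himp : ∀ {A B : Set (ℕ → Bool)}, IsClopen A → IsClopen B →
      IsClopen {φ | φ ∈ A → φ ∈ B} := by
    intro A B hA hB
    convert hA.compl.union hB using 1
    ext φ
    simp [imp_iff_not_or]
  have hconst : ∀ p : Prop, IsClopen {_φ : ℕ → Bool | p} := by
    intro p
    by_cases h : p <;> simp [h, isClopen_univ, isClopen_empty]
  have h1 : IsClosed {φ : ℕ → Bool | ∀ n, (0 : E) ∈ U n → φ n = true} := by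
    simp only [ofPred_forall]
    exact isClosed_iInter fun n => isClosed_iInter fun _ => (hcl n).isClosed
  have h2 : IsClosed {φ : ℕ → Bool | ∀ a b c, (∀ x ∈ U a, ∀ y ∈ U b, x + y ∈ U c) →
      φ a = true → φ b = true → φ c = true} := by
    rw [ofPred_forall]; refine isClosed_iInter fun a => ?_
    rw [ofPred_forall]; refine isClosed_iInter fun b => ?_
    rw [ofPred_forall]; refine isClosed_iInter fun c => ?_
    exact (himp (hconst _) (himp (hcl a) (himp (hcl b) (hcl c)))).isClosed
  have h3 : IsClosed {φ : ℕ → Bool | ∀ (t : 𝕜) a c, (∀ x ∈ U a, t • x ∈ U c) →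
      φ a = true → φ c = true} := by
    rw [ofPred_forall]; refine isClosed_iInter fun t => ?_
    rw [ofPred_forall]; refine isClosed_iInter fun a => ?_
    rw [ofPred_forall]; refine isClosed_iInter fun c => ?_
    exact (himp (hconst _) (himp (hcl a) (hcl c))).isClosed
  have h4 : IsClosed {φ : ℕ → Bool | ∀ n, φ n = true → (U n).Nonempty} := by
    rw [ofPred_forall]; refine isClosed_iInter fun n => ?_
    exact (himp (hcl n) (hconst _)).isClosed
  have h5 : IsGδ {φ : ℕ → Bool | ∀ n k : ℕ, φ n = true → ∃ m, closure (U m) ⊆ U n ∧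
      (∀ x ∈ U m, ∀ y ∈ U m, dist x y ≤ 1 / (k + 1 : ℝ)) ∧ φ m = true} := by
    rw [ofPred_forall]; refine IsGδ.iInter fun n => ?_
    rw [ofPred_forall]; refine IsGδ.iInter fun k => ?_
    refine IsOpen.isGδ ?_
    have : {φ : ℕ → Bool | φ n = true → ∃ m, closure (U m) ⊆ U n ∧
        (∀ x ∈ U m, ∀ y ∈ U m, dist x y ≤ 1 / (k + 1 : ℝ)) ∧ φ m = true} =
        {φ : ℕ → Bool | φ n = true}ᶜ ∪ ⋃ m, ({_φ | closure (U m) ⊆ U n} ∩
          ({_φ | ∀ x ∈ U m, ∀ y ∈ U m, dist x y ≤ 1 / (k + 1 : ℝ)} ∩ {φ | φ m = true})) := by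
      ext φ
      simp only [mem_ofPred_eq, mem_union, mem_compl_iff, mem_iUnion, mem_inter_iff]
      exact imp_iff_not_or
    rw [this]
    exact (hcl n).compl.isOpen.union (isOpen_iUnion fun m =>
      ((hconst _).inter ((hconst _).inter (hcl m))).isOpen)
  convert (((h1.isGδ.inter h2.isGδ).inter h3.isGδ).inter h4.isGδ).inter h5 using 1
  ext φ
  exact ⟨fun h => ⟨⟨⟨⟨h.zero, h.add⟩, h.smul⟩, h.nonempty⟩, h.shrink⟩,
    fun h => ⟨h.1.1.1.1, h.1.1.1.2, h.1.1.2, h.1.2, h.2⟩⟩

/-- The main theorem in a general separable Banach space. -/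
theorem exists_admissible [CompleteSpace 𝕜] [CompleteSpace E] [SeparableSpace E] :
    ∃ τ : TopologicalSpace (ClosedSubmodule 𝕜 E), IsAdmissible τ ∧
      IsClosed[@instTopologicalSpaceProd E _ inferInstance τ]
        {p : E × ClosedSubmodule 𝕜 E | p.1 ∈ p.2} ∧
      ∃ h : ℕ → ClosedSubmodule 𝕜 E → E,
        (∀ i, Continuous[τ, inferInstance] (h i)) ∧
        (∀ X : ClosedSubmodule 𝕜 E, (X : Set E) = closure (range fun i => h i X)) ∧
        ∀ X : ClosedSubmodule 𝕜 E, ¬ FiniteDimensional 𝕜 X.toSubmodule →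
          LinearIndependent 𝕜 fun i => h i X := by
  have : SecondCountableTopology E := UniformSpace.secondCountable_of_separable E
  obtain ⟨U, hU⟩ : ∃ U : ℕ → Set E, IsTopologicalBasis (range U) := by
    obtain ⟨U, hU⟩ := ((countable_countableBasis E).insert ∅).exists_eq_range (insert_nonempty _ _)
    exact ⟨U, hU ▸ (isBasis_countableBasis E).insert_empty⟩
  have hUo : ∀ n, IsOpen (U n) := fun n => hU.isOpen (mem_range_self n)
  let τ : TopologicalSpace (ClosedSubmodule 𝕜 E) := induced (code 𝕜 U) inferInstance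
  have hemb : IsEmbedding (code 𝕜 U) := ⟨⟨rfl⟩, code_injective hU⟩
  have hrange : range (code 𝕜 U) = {φ : ℕ → Bool | IsCode 𝕜 U φ} := by
    ext φ
    exact ⟨by rintro ⟨X, rfl⟩; exact isCode_code hU X, fun h => exists_code_eq hU h⟩
  have hPB : PolishSpace (ℕ → Bool) := by
    have : SeparableSpace (ℕ → Bool) := inferInstance
    have : IsCompletelyMetrizableSpace (ℕ → Bool) := inferInstance
    infer_instance
  have hP : PolishSpace (range (code 𝕜 U)) := polishSpace_of_isGδ (hrange ▸ isGδ_isCode U)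
  have hPol : PolishSpace (ClosedSubmodule 𝕜 E) := hemb.toHomeomorph.isClosedEmbedding.polishSpace
  have hclo : ∀ n, IsClopen (hits 𝕜 (U n)) := by
    intro n
    have : hits 𝕜 (U n) = (fun X => code 𝕜 U X n) ⁻¹' {true} := by
      ext X
      simp only [mem_preimage, mem_singleton_iff, code_eq_true]
      rfl
    rw [this]
    exact (isClopen_discrete _).preimage ((continuous_apply n).comp hemb.continuous)
  have hopen : ∀ V : Set E, IsOpen V → IsOpen (hits 𝕜 V) := by
    intro V hV
    rw [isOpen_iff_mem_nhds]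
    rintro X ⟨x, hx, hxV⟩
    obtain ⟨_, ⟨n, rfl⟩, hxn, hn⟩ := hU.mem_nhds_iff.1 (hV.mem_nhds hxV)
    filter_upwards [(hclo n).isOpen.mem_nhds ⟨x, hx, hxn⟩] with Y hY
    exact hY.mono (inter_subset_inter_right _ hn)
  have hz : IsTopologicalBasis {s : Set (ClosedSubmodule 𝕜 E) | IsClopen s} := by
    refine isTopologicalBasis_of_isOpen_of_nhds (fun s hs => hs.isOpen) ?_
    intro X W hXW hW
    obtain ⟨V, hV, rfl⟩ := hemb.isInducing.isOpen_iff.1 hW
    obtain ⟨C, hC, hXC, hCV⟩ := (isTopologicalBasis_isClopen (X := ℕ → Bool)).exists_subset_of_mem_open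
      (show code 𝕜 U X ∈ V from hXW) hV
    exact ⟨_, IsClopen.preimage hC hemb.continuous, hXC, preimage_mono hCV⟩
  refine ⟨τ, ⟨hPol, hopen, ?_⟩, ?_, exists_dense_indep hz (fun X => X) hopen⟩
  · refine ⟨range (fun n => hits 𝕜 (U n)) ∪ range (fun n => (hits 𝕜 (U n))ᶜ), ?_, ?_⟩
    · apply le_antisymm
      · refine le_generateFrom ?_
        rintro s (⟨n, rfl⟩ | ⟨n, rfl⟩)
        · exact (hclo n).isOpen
        · exact (hclo n).compl.isOpen
      · refine continuous_iff_le_induced.1 ?_
        let σ : TopologicalSpace (ClosedSubmodule 𝕜 E) := generateFrom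
          (range (fun n => hits 𝕜 (U n)) ∪ range (fun n => (hits 𝕜 (U n))ᶜ))
        refine @continuous_pi _ _ _ σ _ _ fun n => ?_
        refine (@continuous_discrete_rng _ _ σ _ _ _).2 fun b => ?_
        refine isOpen_generateFrom_of_mem ?_
        cases b with
        | true =>
          refine Or.inl ⟨n, ?_⟩
          ext X
          simp only [mem_preimage, mem_singleton_iff, code_eq_true]
          rfl
        | false =>
          refine Or.inr ⟨n, ?_⟩
          ext X
          simp only [mem_preimage, mem_singleton_iff, mem_compl_iff, ← Bool.not_eq_true,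
            code_eq_true]
          rfl
    · rintro s (⟨n, rfl⟩ | ⟨n, rfl⟩)
      · refine ⟨fun _ => U n, fun _ => ∅, fun _ => hUo n, fun _ => isOpen_empty, ?_⟩
        ext X
        simp [hits]
      · refine ⟨fun _ => univ, fun _ => U n, fun _ => isOpen_univ, fun _ => hUo n, ?_⟩
        ext X
        have : ((X : Set E) ∩ univ).Nonempty := ⟨0, X.toSubmodule.zero_mem, mem_univ _⟩
        simp only [mem_compl_iff, mem_iUnion, Set.mem_sdiff, exists_const]
        exact ⟨fun h => ⟨this, h⟩, fun h => h.2⟩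
  · rw [← isOpen_compl_iff, isOpen_iff_mem_nhds]
    rintro ⟨x, X⟩ hx
    have hx' : x ∈ (X : Set E)ᶜ := hx
    obtain ⟨_, ⟨n, rfl⟩, hxn, hn⟩ := hU.mem_nhds_iff.1 (X.isClosed.isOpen_compl.mem_nhds hx')
    have hX : X ∈ (hits 𝕜 (U n))ᶜ := by
      rintro ⟨y, hy, hyn⟩
      exact hn hyn hy
    filter_upwards [prod_mem_nhds ((hUo n).mem_nhds hxn) ((hclo n).compl.isOpen.mem_nhds hX)]
    rintro ⟨y, Y⟩ ⟨hy, hY⟩ hyY
    exact hY ⟨y, hyY, hy⟩

end Pool.Agent.MP_89350a_an

end
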