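import Pool.Agent.MP_7791e4_an.Supp

section

set_option autoImplicit false

namespace Pool.Agent.MP_7791e4_an

open Set MeasureTheory Real Metric Filter Topology Pointwise unitInterval

lemma seq_A (y : ℕ → ℝ) (n : ℕ) : ∀ j ≤ n,
    |y n - y j| + |y j - y 0| ≤ ∑ k ∈ Finset.range n, |y (k + 1) - y k| := by
  induction n with
  | zero => intro j hj; obtain rfl : j = 0 := by omega
            simp
  | succ n ih =>
    intro j hj
    rw [Finset.sum_range_succ]
    rcases Nat.lt_or_ge n j with h | h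
    · obtain rfl : j = n + 1 := by omega
      have h1 := ih n le_rfl
      have h2 := abs_sub_le (y (n + 1)) (y n) (y 0)
      simp only [sub_self, abs_zero, zero_add] at h1 ⊢
      linarith
    · have h1 := ih j h
      have h2 := abs_sub_le (y (n + 1)) (y n) (y j)
      linarith

lemma seq_B (y : ℕ → ℝ) (n : ℕ) : ∀ i ≤ n, ∀ j ≤ n,
    2 * |y i - y j| ≤ ∑ k ∈ Finset.range n, |y (k + 1) - y k| + |y n - y 0| := by
  have key : ∀ n j, j ≤ n →
      2 * |y n - y j| ≤ ∑ k ∈ Finset.range n, |y (k + 1) - y k| + |y n - y 0| := by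
    intro n j hj
    have h1 := seq_A y n j hj
    have h2 := abs_sub_le (y n) (y 0) (y j)
    rw [abs_sub_comm (y 0) (y j)] at h2
    linarith
  induction n with
  | zero => intro i hi j hj
            obtain rfl : i = 0 := by omega
            obtain rfl : j = 0 := by omega
            simp
  | succ n ih =>
    intro i hi j hj
    rcases Nat.lt_or_ge n i with h | h
    · obtain rfl : i = n + 1 := by omega
      exact key _ _ hj
    rcases Nat.lt_or_ge n j with h' | h'
    · obtain rfl : j = n + 1 := by omega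
      rw [abs_sub_comm]
      exact key _ _ hi
    have h1 := ih i h j h'
    rw [Finset.sum_range_succ]
    have h2 := abs_sub_le (y n) (y (n + 1)) (y 0)
    rw [abs_sub_comm (y n) (y (n + 1))] at h2
    linarith

lemma integral_cyc (x : ℕ → ℂ) (n : ℕ) :
    ∫ θ in (0:ℝ)..2 * π, (∑ k ∈ Finset.range n, |dot (ev θ) (x (k + 1)) - dot (ev θ) (x k)|
      + |dot (ev θ) (x n) - dot (ev θ) (x 0)|)
      = 4 * (∑ k ∈ Finset.range n, ‖x (k + 1) - x k‖ + ‖x n - x 0‖) := by
  simp only [← dot_sub]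
  rw [intervalIntegral.integral_add (by apply Continuous.intervalIntegrable; fun_prop)
    (by apply Continuous.intervalIntegrable; fun_prop), intervalIntegral.integral_finsetSum
    (fun i _ => by apply Continuous.intervalIntegrable; fun_prop)]
  simp only [integral_abs_dot_ev]
  rw [mul_add, Finset.mul_sum]

lemma sum_le_var {p q : ℂ} (γ : Path p q) (hγ : eVariationOn γ univ ≠ ⊤) (u : ℕ → I)
    (hu : Monotone u) (n : ℕ) :
    ∑ k ∈ Finset.range n, ‖γ (u (k + 1)) - γ (u k)‖ ≤ (eVariationOn γ univ).toReal := by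
  have h := eVariationOn.sum_le (f := γ) (n := n) (s := univ) hu (fun _ => mem_univ _)
  have h2 := ENNReal.toReal_mono hγ h
  rw [ENNReal.toReal_sum (fun _ _ => edist_ne_top _ _)] at h2
  simpa [← dist_edist, dist_eq_norm] using h2

/-- perimeter of the hull of a curve is at most length plus chord. -/
lemma per_range_le {p q : ℂ} (γ : Path p q) (hγ : eVariationOn γ univ ≠ ⊤) :
    per (range γ) ≤ (eVariationOn γ univ).toReal + ‖p - q‖ := by
  have hK : IsCompact (range γ) := isCompact_range γ.continuous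
  have hne : (range γ).Nonempty := range_nonempty _
  apply le_of_forall_pos_le_add
  intro ε hε
  have hε' : 0 < ε / (2 * π) := by positivity
  obtain ⟨δ, hδ, hγδ⟩ := Metric.uniformContinuous_iff.1
    (CompactSpace.uniformContinuous_of_continuous γ.continuous) _ hε'
  obtain ⟨m, hm⟩ := exists_nat_one_div_lt hδ
  set n := m + 1 with hn
  have hn0 : (0:ℝ) < n := by rw [hn]; positivity
  have hm' : 1 / (n:ℝ) < δ := by rw [hn]; push_cast; exact hm
  let u : ℕ → I := fun i => ⟨min ((i:ℝ) / n) 1, le_min (by positivity) zero_le_one, min_le_right _ _⟩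
  have hu : Monotone u := fun i j hij => by
    show min ((i:ℝ) / n) 1 ≤ min ((j:ℝ) / n) 1
    exact min_le_min_right _ (div_le_div_of_nonneg_right (by exact_mod_cast hij) hn0.le)
  have hu0 : u 0 = 0 := by ext; simp [u]
  have hun : u n = 1 := by ext; simp [u, hn0.ne']
  have near : ∀ s : I, ∃ i ≤ n, ‖γ s - γ (u i)‖ ≤ ε / (2 * π) := by
    intro s
    have hs0 := s.2.1
    have hs1 := s.2.2
    have hfl : (⌊(s:ℝ) * n⌋₊ : ℝ) ≤ s * n := Nat.floor_le (by positivity)
    have hfl2 : (s:ℝ) * n < ⌊(s:ℝ) * n⌋₊ + 1 := Nat.lt_floor_add_one _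
    have hle : (⌊(s:ℝ) * n⌋₊ : ℝ) ≤ n := by nlinarith
    refine ⟨⌊(s:ℝ) * n⌋₊, by exact_mod_cast hle, ?_⟩
    rw [← dist_eq_norm]
    apply le_of_lt (hγδ _)
    have h1 : (⌊(s:ℝ) * n⌋₊ : ℝ) / n ≤ s := by rw [div_le_iff₀ hn0]; exact hfl
    have h2 : (s:ℝ) - (⌊(s:ℝ) * n⌋₊ : ℝ) / n < 1 / n := by
      rw [sub_lt_iff_lt_add, ← add_div, lt_div_iff₀ hn0]; linarith
    show dist (s:ℝ) (min _ 1) < δ
    rw [min_eq_left (h1.trans hs1), Real.dist_eq, abs_of_nonneg (by linarith)]
    linarith
  have hw : ∀ θ, hs (range γ) (ev θ) + hs (range γ) (-ev θ) ≤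
      (1 / 2) * (∑ k ∈ Finset.range n,
        |dot (ev θ) (γ (u (k + 1))) - dot (ev θ) (γ (u k))|
      + |dot (ev θ) (γ (u n)) - dot (ev θ) (γ (u 0))|) + 2 * (ε / (2 * π)) := by
    intro θ
    obtain ⟨_, ⟨s, rfl⟩, h1⟩ := exists_hs hK hne (ev θ)
    obtain ⟨_, ⟨t, rfl⟩, h2⟩ := exists_hs hK hne (-ev θ)
    obtain ⟨i, hi, hi'⟩ := near s
    obtain ⟨j, hj, hj'⟩ := near t
    have h3 := seq_B (fun k => dot (ev θ) (γ (u k))) n i hi j hj
    have h4 := abs_le.1 ((abs_dot_ev_le θ (γ s - γ (u i))).trans hi')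
    have h5 := abs_le.1 ((abs_dot_ev_le θ (γ t - γ (u j))).trans hj')
    rw [dot_sub] at h4 h5
    rw [← h1, ← h2, neg_dot]
    have h6 := le_abs_self (dot (ev θ) (γ (u i)) - dot (ev θ) (γ (u j)))
    linarith [h4.2, h5.1]
  have hc1 := continuous_hs_ev hK hne
  have hc2 : Continuous fun θ => hs (range γ) (-ev θ) :=
    (continuous_hs hK hne).comp continuous_ev.neg
  have hint := intervalIntegral.integral_mono_on two_pi_nonneg
    (μ := volume) ((hc1.add hc2).intervalIntegrable _ _)
    (by apply Continuous.intervalIntegrable; fun_prop) (fun θ _ => hw θ)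
  rw [show (∫ θ in (0:ℝ)..2 * π, ((fun θ => hs (range γ) (ev θ)) + fun θ => hs (range γ) (-ev θ)) θ)
      = 2 * per (range γ) from two_per hK hne,
    intervalIntegral.integral_add (by apply Continuous.intervalIntegrable; fun_prop)
    (by apply Continuous.intervalIntegrable; fun_prop), intervalIntegral.integral_const_mul,
    integral_cyc (fun k => γ (u k)) n] at hint
  have h7 := sum_le_var γ hγ u hu n
  simp only [hu0, hun, γ.source, γ.target, intervalIntegral.integral_const, sub_zero,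
    smul_eq_mul] at hint
  have h8 : 2 * π * (2 * (ε / (2 * π))) = 2 * ε := by field_simp
  rw [h8, norm_sub_rev q p] at hint
  linarith

lemma seq_C (y : ℕ → ℝ)
    (h1 : ∀ i j k l, i ≤ j → j ≤ k → k ≤ l → min (y j) (y l) ≤ max (y i) (y k))
    (h2 : ∀ i j k l, i ≤ j → j ≤ k → k ≤ l → min (y i) (y k) ≤ max (y j) (y l)) (n : ℕ) :
    ∃ i ≤ n, ∃ j ≤ n, (∀ k ≤ n, y j ≤ y k ∧ y k ≤ y i) ∧
      ∑ k ∈ Finset.range n, |y (k + 1) - y k| + |y n - y 0| ≤ 2 * (y i - y j) := by
  induction n with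
  | zero => exact ⟨0, le_rfl, 0, le_rfl, fun k hk => by obtain rfl : k = 0 := by omega
                                                        exact ⟨le_rfl, le_rfl⟩, by simp⟩
  | succ n ih =>
    obtain ⟨i, hi, j, hj, hb, hs⟩ := ih
    rw [Finset.sum_range_succ]
    have a1 := h1 0 i n (n + 1) (Nat.zero_le _) hi (Nat.le_succ _)
    have a2 := h2 0 j n (n + 1) (Nat.zero_le _) hj (Nat.le_succ _)
    have b0 := hb 0 (Nat.zero_le _)
    have bn := hb n le_rfl
    have ext : ∀ i' j', (∀ k ≤ n, y j' ≤ y k ∧ y k ≤ y i') →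
        (y j' ≤ y (n + 1) ∧ y (n + 1) ≤ y i') → ∀ k ≤ n + 1, y j' ≤ y k ∧ y k ≤ y i' := by
      intro i' j' h h' k hk
      rcases Nat.lt_or_ge n k with h3 | h3
      · obtain rfl : k = n + 1 := by omega
        exact h'
      · exact h k h3
    rcases le_total (y (n + 1)) (y i) with c1 | c1
    · rcases le_total (y j) (y (n + 1)) with c2 | c2
      · refine ⟨i, by omega, j, by omega, ext i j hb ⟨c2, c1⟩, ?_⟩
        rw [min_eq_right c1] at a1
        rw [max_eq_right c2] at a2
        rcases le_total (y 0) (y n) with d | d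
        · rw [max_eq_right d] at a1
          rw [min_eq_left d] at a2
          rw [abs_of_nonneg (show 0 ≤ y n - y 0 by linarith)] at hs
          rw [abs_of_nonpos (show y (n + 1) - y n ≤ 0 by linarith),
            abs_of_nonneg (show 0 ≤ y (n + 1) - y 0 by linarith)]
          linarith
        · rw [max_eq_left d] at a1
          rw [min_eq_right d] at a2
          rw [abs_of_nonpos (show y n - y 0 ≤ 0 by linarith)] at hs
          rw [abs_of_nonneg (show 0 ≤ y (n + 1) - y n by linarith),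
            abs_of_nonpos (show y (n + 1) - y 0 ≤ 0 by linarith)]
          linarith
      · refine ⟨i, by omega, n + 1, le_rfl,
          ext i (n + 1) (fun k hk => ⟨c2.trans (hb k hk).1, (hb k hk).2⟩) ⟨le_rfl, c1⟩, ?_⟩
        rw [max_eq_left c2] at a2
        rw [abs_of_nonpos (show y (n + 1) - y n ≤ 0 by linarith [bn.1]),
            abs_of_nonpos (show y (n + 1) - y 0 ≤ 0 by linarith [b0.1])]
        rcases le_total (y 0) (y n) with d | d
        · rw [min_eq_left d] at a2
          rw [abs_of_nonneg (show 0 ≤ y n - y 0 by linarith)] at hs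
          linarith
        · rw [min_eq_right d] at a2
          rw [abs_of_nonpos (show y n - y 0 ≤ 0 by linarith)] at hs
          linarith
    · refine ⟨n + 1, le_rfl, j, by omega,
        ext (n + 1) j (fun k hk => ⟨(hb k hk).1, (hb k hk).2.trans c1⟩)
          ⟨(hb i hi).1.trans c1, le_rfl⟩, ?_⟩
      rw [min_eq_left c1] at a1
      rw [abs_of_nonneg (show 0 ≤ y (n + 1) - y n by linarith [bn.2]),
          abs_of_nonneg (show 0 ≤ y (n + 1) - y 0 by linarith [b0.2])]
      rcases le_total (y 0) (y n) with d | d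
      · rw [max_eq_right d] at a1
        rw [abs_of_nonneg (show 0 ≤ y n - y 0 by linarith)] at hs
        linarith
      · rw [max_eq_left d] at a1
        rw [abs_of_nonpos (show y n - y 0 ≤ 0 by linarith)] at hs
        linarith

/-- a curve running in convex cyclic order inside `K` has length at most `per K` minus chord. -/
lemma var_le_per {p q : ℂ} (γ : Path p q) {K : Set ℂ} (hK : IsCompact K) (hγ : ∀ s, γ s ∈ K)
    (H : ∀ (u : ℂ) (s0 s1 s2 s3 : I), s0 ≤ s1 → s1 ≤ s2 → s2 ≤ s3 →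
      min (dot u (γ s1)) (dot u (γ s3)) ≤ max (dot u (γ s0)) (dot u (γ s2))) :
    eVariationOn γ univ ≤ ENNReal.ofReal (per K - ‖p - q‖) := by
  have hne : K.Nonempty := ⟨_, hγ 0⟩
  have main : ∀ (v : ℕ → I), Monotone v → ∀ n,
      ∑ k ∈ Finset.range n, ‖γ (v (k + 1)) - γ (v k)‖ + ‖γ (v n) - γ (v 0)‖ ≤ per K := by
    intro v hv n
    have hw : ∀ θ, (∑ k ∈ Finset.range n,
        |dot (ev θ) (γ (v (k + 1))) - dot (ev θ) (γ (v k))|
        + |dot (ev θ) (γ (v n)) - dot (ev θ) (γ (v 0))|)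
        ≤ 2 * (hs K (ev θ) + hs K (-ev θ)) := by
      intro θ
      obtain ⟨i, -, j, -, -, h⟩ := seq_C (fun k => dot (ev θ) (γ (v k)))
        (fun i j k l h1 h2 h3 => H _ _ _ _ _ (hv h1) (hv h2) (hv h3))
        (fun i j k l h1 h2 h3 => by
          have := H (-ev θ) _ _ _ _ (hv h1) (hv h2) (hv h3)
          simp only [neg_dot, min_neg_neg, max_neg_neg] at this
          linarith) n
      have h1 := le_hs hK (hγ (v i)) (ev θ)
      have h2 := le_hs hK (hγ (v j)) (-ev θ)
      rw [neg_dot] at h2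
      linarith
    have hc1 := continuous_hs_ev hK hne
    have hc2 : Continuous fun θ => hs K (-ev θ) :=
      (continuous_hs hK hne).comp continuous_ev.neg
    have hint := intervalIntegral.integral_mono_on two_pi_nonneg
      (μ := volume) (by apply Continuous.intervalIntegrable; fun_prop)
      (by apply Continuous.intervalIntegrable; fun_prop) (fun θ _ => hw θ)
    rw [integral_cyc (fun k => γ (v k)) n, intervalIntegral.integral_const_mul,
      two_per hK hne] at hint
    linarith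
  unfold eVariationOn
  apply iSup_le
  rintro ⟨n, u, hu, -⟩
  let v : ℕ → I := fun i => if i = 0 then 0 else if i ≤ n + 1 then u (i - 1) else 1
  have hv : Monotone v := by
    intro i j hij
    simp only [v]
    split_ifs with h1 h2 h3 h4 h5 h6 h7 h8
    all_goals first
      | exact le_rfl
      | exact unitInterval.nonneg'
      | exact unitInterval.le_one'
      | exact hu (by omega)
      | omega
  have h := main v hv (n + 2)
  rw [Finset.sum_range_succ, Finset.sum_range_succ'] at h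
  have e0 : v 0 = 0 := by simp [v]
  have e1 : v (n + 2) = 1 := by simp [v]
  have e2 : ∀ k ∈ Finset.range n, ‖γ (v (k + 1 + 1)) - γ (v (k + 1))‖ = ‖γ (u (k + 1)) - γ (u k)‖ := by
    intro k hk
    have := Finset.mem_range.1 hk
    simp only [v]
    rw [if_neg (by omega), if_pos (by omega), if_neg (by omega), if_pos (by omega)]
    rfl
  rw [Finset.sum_congr rfl e2, e0, e1, γ.source, γ.target, norm_sub_rev q p] at h
  simp only [edist_dist, dist_eq_norm]
  rw [← ENNReal.ofReal_sum_of_nonneg (fun _ _ => norm_nonneg _)]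
  apply ENNReal.ofReal_le_ofReal
  have := norm_nonneg (γ (v (0 + 1)) - p)
  have := norm_nonneg (q - γ (v (n + 1)))
  linarith

end Pool.Agent.MP_7791e4_an

end

section

set_option autoImplicit false

namespace Pool.Agent.MP_7791e4_an

open Set MeasureTheory Real Metric Filter Topology Pointwise unitInterval

structure Gg (K : Set ℂ) (c : ℂ) (g : ℂ → ℝ) : Prop where
  cont : Continuous g
  smul : ∀ (t : ℝ) (v : ℂ), 0 ≤ t → g (t • v) = t * g v
  add : ∀ v w, g (v + w) ≤ g v + g w
  pos : ∀ v, v ≠ 0 → 0 < g v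
  fr : ∀ v, c + v ∈ frontier K ↔ g v = 1
  mem : ∀ v, c + v ∈ K ↔ g v ≤ 1
  int : ∀ v, c + v ∈ interior K ↔ g v < 1

lemma exists_Gg {K : Set ℂ} (hK : IsCompact K) (cK : Convex ℝ K) {c : ℂ} (hc : c ∈ interior K) :
    ∃ g, Gg K c g := by
  let S : Set ℂ := (Homeomorph.addLeft c) ⁻¹' K
  have cS : Convex ℝ S := cK.translate_preimage_right c
  have nS : S ∈ 𝓝 (0:ℂ) := by
    apply (Homeomorph.addLeft c).continuous.continuousAt.preimage_mem_nhds
    simpa using mem_interior_iff_mem_nhds.1 hc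
  have aS : Absorbent ℝ S := absorbent_nhds_zero nS
  have kS : IsCompact S := (Homeomorph.addLeft c).isCompact_preimage.2 hK
  refine ⟨gauge S, continuous_gauge cS nS, fun t v ht => ?_, gauge_add_le cS aS, fun v hv => ?_,
    fun v => ?_, fun v => ?_, fun v => ?_⟩
  · rw [gauge_smul_of_nonneg ht, smul_eq_mul]
  · exact (gauge_pos aS (kS.isVonNBounded ℝ)).2 hv
  · rw [gauge_eq_one_iff_mem_frontier cS nS, ← Homeomorph.preimage_frontier]; rfl
  · rw [gauge_le_one_iff_mem_closure cS nS, kS.isClosed.closure_eq]; rfl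
  · rw [gauge_lt_one_iff_mem_interior cS nS, ← Homeomorph.preimage_interior]; rfl

noncomputable def rad (c : ℂ) (g : ℂ → ℝ) (θ : ℝ) : ℂ := c + (g (ev θ))⁻¹ • ev θ

lemma ev_ne_zero (θ : ℝ) : ev θ ≠ 0 := fun h => by
  have := norm_ev θ
  rw [h, norm_zero] at this
  exact zero_ne_one this

lemma ev_inj {θ φ : ℝ} (h : ev θ = ev φ) (h2 : |θ - φ| < 2 * π) : θ = φ := by
  have h1 : cos (θ - φ) = 1 := by
    rw [← dot_ev_ev, h, dot_ev_ev]; simp
  have := abs_lt.1 h2
  have := (cos_eq_one_iff_of_lt_of_lt this.1 this.2).1 h1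
  linarith

lemma ev_comb (a b c : ℝ) : sin (c - a) • ev b = sin (c - b) • ev a + sin (b - a) • ev c := by
  apply Complex.ext
  · simp only [Complex.real_smul, Complex.mul_re, Complex.ofReal_re, Complex.ofReal_im,
      Complex.add_re, ev_re, ev_im, sin_sub]
    ring
  · simp only [Complex.real_smul, Complex.mul_im, Complex.ofReal_re, Complex.ofReal_im,
      Complex.add_im, ev_re, ev_im, sin_sub]
    ring

namespace Gg
variable {K : Set ℂ} {c : ℂ} {g : ℂ → ℝ} (G : Gg K c g)
include G

lemma pos_ev (θ : ℝ) : 0 < g (ev θ) := G.pos _ (ev_ne_zero θ)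

lemma cont_rad : Continuous (rad c g) := by
  have h1 : Continuous fun θ => g (ev θ) := G.cont.comp continuous_ev
  exact continuous_const.add ((h1.inv₀ fun θ => (G.pos_ev θ).ne').smul continuous_ev)

lemma rad_fr (θ : ℝ) : rad c g θ ∈ frontier K := by
  rw [rad, G.fr, G.smul _ _ (inv_nonneg.2 (G.pos_ev θ).le), inv_mul_cancel₀ (G.pos_ev θ).ne']

lemma rad_mem (θ : ℝ) : rad c g θ ∈ K := by
  rw [rad, G.mem, G.smul _ _ (inv_nonneg.2 (G.pos_ev θ).le), inv_mul_cancel₀ (G.pos_ev θ).ne']

lemma eq_rad {z : ℂ} (hz : z ∈ frontier K) {θ : ℝ} (hθ : ev θ = ev (Complex.arg (z - c))) :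
    rad c g θ = z := by
  have h1 : g (z - c) = 1 := (G.fr _).1 (by simpa using hz)
  have h2 := eq_smul_ev (z - c)
  rw [← hθ] at h2
  rw [h2, G.smul _ _ (norm_nonneg _)] at h1
  have h3 : (g (ev θ))⁻¹ = ‖z - c‖ := by
    rw [inv_eq_iff_eq_inv]; exact eq_inv_of_mul_eq_one_right h1
  rw [rad, h3, ← h2]; ring

lemma rad_inj {θ φ : ℝ} (h : rad c g θ = rad c g φ) : ev θ = ev φ := by
  have h1 : (g (ev θ))⁻¹ • ev θ = (g (ev φ))⁻¹ • ev φ := add_left_cancel h
  have h2 := congrArg norm h1
  rw [norm_smul, norm_smul, norm_ev, norm_ev, Real.norm_eq_abs, Real.norm_eq_abs,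
    abs_of_pos (inv_pos.2 (G.pos_ev θ)), abs_of_pos (inv_pos.2 (G.pos_ev φ)), mul_one,
    mul_one] at h2
  rw [h2] at h1
  exact smul_right_injective ℂ (inv_pos.2 (G.pos_ev φ)).ne' h1

omit G in
lemma rad_periodic : Function.Periodic (rad c g) (2 * π) := fun θ => by
  simp only [rad, ev_periodic θ]

lemma between (u : ℂ) {a b d μ : ℝ} (hab : a ≤ b) (hbd : b ≤ d) (hda : d - a < π) (hμ : 0 ≤ μ)
    (h1 : μ * g (ev a) ≤ dot u (ev a)) (h2 : μ * g (ev d) ≤ dot u (ev d)) :
    μ * g (ev b) ≤ dot u (ev b) := by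
  rcases eq_or_lt_of_le (hab.trans hbd) with e | e
  · obtain rfl : b = a := le_antisymm (e ▸ hbd) hab
    exact h1
  have s0 : 0 < sin (d - a) := sin_pos_of_pos_of_lt_pi (by linarith) hda
  have s1 : 0 ≤ sin (d - b) := sin_nonneg_of_nonneg_of_le_pi (by linarith) (by linarith)
  have s2 : 0 ≤ sin (b - a) := sin_nonneg_of_nonneg_of_le_pi (by linarith) (by linarith)
  have e1 := congrArg (dot u) (ev_comb a b d)
  have e2 := congrArg g (ev_comb a b d)
  rw [dot_add, dot_smul, dot_smul, dot_smul] at e1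
  have e3 := G.add (sin (d - b) • ev a) (sin (b - a) • ev d)
  rw [← e2, G.smul _ _ s0.le, G.smul _ _ s1, G.smul _ _ s2] at e3
  apply le_of_mul_le_mul_left _ s0
  rw [e1]
  nlinarith [mul_le_mul_of_nonneg_left e3 hμ, mul_le_mul_of_nonneg_left h1 s1,
    mul_le_mul_of_nonneg_left h2 s2]

lemma dot_rad (u : ℂ) (θ μ : ℝ) :
    dot u c + μ ≤ dot u (rad c g θ) ↔ μ * g (ev θ) ≤ dot u (ev θ) := by
  rw [rad, dot_add, dot_smul, add_le_add_iff_left, inv_mul_eq_div, le_div_iff₀ (G.pos_ev θ)]

lemma half (u : ℂ) {a b d e μ : ℝ} (hab : a ≤ b) (hbd : b ≤ d) (hde : d ≤ e) (hea : e ≤ a + 2 * π)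
    (hμ : 0 < μ) (h1 : dot u c + μ ≤ dot u (rad c g b)) (h2 : dot u c + μ ≤ dot u (rad c g e)) :
    dot u c + μ ≤ dot u (rad c g a) ∨ dot u c + μ ≤ dot u (rad c g d) := by
  rw [G.dot_rad] at h1 h2
  rw [G.dot_rad, G.dot_rad]
  rcases lt_trichotomy (e - b) π with h | h | h
  · exact Or.inr (G.between u hbd hde h hμ.le h1 h2)
  · exfalso
    have : e = b + π := by linarith
    rw [this, ev_add_pi, dot_neg] at h2
    have p1 := mul_pos hμ (G.pos_ev b)
    have p2 := mul_pos hμ (G.pos (-ev b) (neg_ne_zero.2 (ev_ne_zero b)))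
    linarith
  · left
    have := G.between u (a := e) (b := a + 2 * π) (d := b + 2 * π) hea (by linarith)
      (by linarith) hμ.le h2 (by rw [ev_periodic b]; exact h1)
    rwa [ev_periodic a] at this

lemma pattern (u : ℂ) {a b d e : ℝ} (hab : a ≤ b) (hbd : b ≤ d) (hde : d ≤ e)
    (hea : e ≤ a + 2 * π) :
    min (dot u (rad c g b)) (dot u (rad c g e)) ≤ max (dot u (rad c g a)) (dot u (rad c g d)) := by
  by_contra hcon
  push Not at hcon
  rcases lt_or_ge (dot u c) (min (dot u (rad c g b)) (dot u (rad c g e))) with h | h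
  · rcases G.half u hab hbd hde hea (μ := min (dot u (rad c g b)) (dot u (rad c g e)) - dot u c)
      (by linarith) (by linarith [min_le_left (dot u (rad c g b)) (dot u (rad c g e))])
      (by linarith [min_le_right (dot u (rad c g b)) (dot u (rad c g e))]) with h' | h'
    · linarith [le_max_left (dot u (rad c g a)) (dot u (rad c g d))]
    · linarith [le_max_right (dot u (rad c g a)) (dot u (rad c g d))]
  · have := G.half (-u) (a := b) (b := d) (d := e) (e := a + 2 * π) hbd hde hea (by linarith)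
      (μ := dot u c - max (dot u (rad c g a)) (dot u (rad c g d))) (by linarith)
      (by simp only [neg_dot]; linarith [le_max_right (dot u (rad c g a)) (dot u (rad c g d))])
      (by rw [rad_periodic a]; simp only [neg_dot]
          linarith [le_max_left (dot u (rad c g a)) (dot u (rad c g d))])
    simp only [neg_dot] at this
    rcases this with h' | h'
    · linarith [min_le_left (dot u (rad c g b)) (dot u (rad c g e))]
    · linarith [min_le_right (dot u (rad c g b)) (dot u (rad c g e))]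

lemma exists_arc {α β : ℝ} (h1 : α < β) (h2 : β ≤ α + 2 * π) {p q : ℂ} (hp : rad c g α = p)
    (hq : rad c g β = q) :
    ∃ γ : Path p q, (∀ s t, γ s = γ t → s = t ∨ (s = 0 ∧ t = 1) ∨ (s = 1 ∧ t = 0)) ∧
      range γ = rad c g '' Icc α β ∧
      ∀ L : Set ℂ, IsCompact L → range γ ⊆ L →
        eVariationOn γ univ ≤ ENNReal.ofReal (per L - ‖p - q‖) := by
  have hd : 0 < β - α := by linarith
  let γ : Path p q :=
    { toFun := fun s => rad c g (α + s * (β - α))
      continuous_toFun := G.cont_rad.comp (by fun_prop)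
      source' := by simpa using hp
      target' := by simpa using hq }
  have hγ : ∀ s : I, γ s = rad c g (α + s * (β - α)) := fun _ => rfl
  refine ⟨γ, fun s t h => ?_, ?_, fun L hL hsub => ?_⟩
  · rw [hγ, hγ] at h
    have h3 := G.rad_inj h
    by_cases h4 : |(s:ℝ) - t| < 1
    · left
      have := ev_inj h3 (by
        rw [show α + s * (β - α) - (α + t * (β - α)) = ((s:ℝ) - t) * (β - α) by ring, abs_mul,
          abs_of_pos hd]
        nlinarith [abs_nonneg ((s:ℝ) - t)])
      ext
      have h5 : ((s:ℝ) - t) * (β - α) = 0 := by linarith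
      rcases mul_eq_zero.1 h5 with h6 | h6 <;> linarith
    · right
      have s0 := s.2.1; have s1 := s.2.2; have t0 := t.2.1; have t1 := t.2.2
      rcases le_abs.1 (not_lt.1 h4) with h5 | h5
      · exact Or.inr ⟨Subtype.ext (show (s:ℝ) = 1 by linarith),
          Subtype.ext (show (t:ℝ) = 0 by linarith)⟩
      · exact Or.inl ⟨Subtype.ext (show (s:ℝ) = 0 by linarith),
          Subtype.ext (show (t:ℝ) = 1 by linarith)⟩
  · apply subset_antisymm
    · rintro _ ⟨s, rfl⟩
      refine ⟨_, ⟨?_, ?_⟩, rfl⟩ <;> nlinarith [s.2.1, s.2.2]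
    · rintro _ ⟨θ, hθ, rfl⟩
      refine ⟨⟨(θ - α) / (β - α), div_nonneg (by linarith [hθ.1]) hd.le,
        (div_le_one hd).2 (by linarith [hθ.2])⟩, ?_⟩
      rw [hγ]; congr 1; field_simp; ring
  · apply var_le_per γ hL (fun s => hsub ⟨s, rfl⟩)
    intro u s0 s1 s2 s3 a1 a2 a3
    have b1 : (s0:ℝ) ≤ s1 := a1
    have b2 : (s1:ℝ) ≤ s2 := a2
    have b3 : (s2:ℝ) ≤ s3 := a3
    simp only [hγ]
    apply G.pattern <;> nlinarith [s0.2.1, s3.2.2]

lemma image_Icc_eq (α : ℝ) : rad c g '' Icc α (α + 2 * π) = frontier K := by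
  rw [rad_periodic.image_Icc (by positivity)]
  apply subset_antisymm
  · rintro _ ⟨θ, rfl⟩; exact G.rad_fr θ
  · exact fun z hz => ⟨_, G.eq_rad hz rfl⟩

end Gg

/-- the boundary of a convex body as a simple closed curve. -/
lemma exists_loop {K : Set ℂ} (hK : IsCompact K) (cK : Convex ℝ K) (hi : (interior K).Nonempty)
    {p : ℂ} (hp : p ∈ frontier K) :
    ∃ γ : Path p p, (∀ s t, γ s = γ t → s = t ∨ (s = 0 ∧ t = 1) ∨ (s = 1 ∧ t = 0)) ∧
      range γ = frontier K ∧ eVariationOn γ univ ≤ ENNReal.ofReal (per K) := by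
  obtain ⟨c, hc⟩ := hi
  obtain ⟨g, G⟩ := exists_Gg hK cK hc
  have e := G.eq_rad hp rfl
  obtain ⟨γ, h1, h2, h3⟩ := G.exists_arc (α := Complex.arg (p - c))
    (β := Complex.arg (p - c) + 2 * π) (by linarith [pi_pos]) le_rfl e (q := p)
    (by rw [Gg.rad_periodic]; exact e)
  rw [G.image_Icc_eq] at h2
  refine ⟨γ, h1, h2, ?_⟩
  simpa using h3 K hK (h2 ▸ hK.isClosed.frontier_subset)

end Pool.Agent.MP_7791e4_an

end
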