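import Pool.Agent.MP_7791e4_an.Defs
import Pool.Agent.MP_7791e4_an.Iso
import Pool.Agent.Mg.F5cfbf6.Gcebfae

section

set_option autoImplicit false

namespace Pool.Agent.MP_7791e4_an

open Set MeasureTheory Real Metric Filter Topology Pointwise unitInterval

noncomputable def B (a b : ℝ) (z w : ℂ) : ℝ := z.re * w.re / a ^ 2 + z.im * w.im / b ^ 2

noncomputable def nu (a b : ℝ) (z : ℂ) : ℂ := ⟨z.re / a ^ 2, z.im / b ^ 2⟩

noncomputable def tg (a b : ℝ) (p : ℂ) : ℂ := ⟨-(a * p.im / b), b * p.re / a⟩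

variable {a b : ℝ}

lemma dot_nu (z w : ℂ) : dot (nu a b z) w = B a b z w := by simp [dot, nu, B]; ring
lemma B_comm (z w : ℂ) : B a b z w = B a b w z := by simp [B]; ring
lemma B_add (z x y : ℂ) : B a b z (x + y) = B a b z x + B a b z y := by simp [B]; ring
lemma B_sub (z x y : ℂ) : B a b z (x - y) = B a b z x - B a b z y := by simp [B]; ring
lemma B_smul (z x : ℂ) (t : ℝ) : B a b z (t • x) = t * B a b z x := by simp [B]; ring
lemma B_neg (z x : ℂ) : B a b z (-x) = -B a b z x := by simp [B]; ring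
lemma add_B (z x y : ℂ) : B a b (x + y) z = B a b x z + B a b y z := by simp [B]; ring
lemma sub_B (z x y : ℂ) : B a b (x - y) z = B a b x z - B a b y z := by simp [B]; ring
lemma smul_B (z x : ℂ) (t : ℝ) : B a b (t • x) z = t * B a b x z := by simp [B]; ring
lemma neg_B (z x : ℂ) : B a b (-x) z = -B a b x z := by simp [B]; ring
@[simp] lemma B_zero (z : ℂ) : B a b z 0 = 0 := by simp [B]

@[fun_prop] lemma continuous_B {X : Type} [TopologicalSpace X] {f g : X → ℂ}
    (hf : Continuous f) (hg : Continuous g) : Continuous fun x => B a b (f x) (g x) := by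
  unfold B; fun_prop

@[fun_prop] lemma continuous_nu {X : Type} [TopologicalSpace X] {f : X → ℂ}
    (hf : Continuous f) : Continuous fun x => nu a b (f x) := by
  have : (fun x => nu a b (f x)) = fun x => (((f x).re / a ^ 2 : ℝ) : ℂ)
      + (((f x).im / b ^ 2 : ℝ) : ℂ) * Complex.I := by
    funext x
    apply Complex.ext
    · simp only [nu, Complex.add_re, Complex.ofReal_re, Complex.mul_re, Complex.I_re,
        Complex.ofReal_im, Complex.I_im]; ring
    · simp only [nu, Complex.add_im, Complex.ofReal_re, Complex.mul_im, Complex.I_re,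
        Complex.ofReal_im, Complex.I_im]; ring
  rw [this]; fun_prop

lemma mem_ell {z : ℂ} : z ∈ ell a b ↔ B a b z z ≤ 1 := by
  simp only [ell, B, mem_ofPred_eq, div_pow, sq z.re, sq z.im]

lemma B_nonneg (z : ℂ) : 0 ≤ B a b z z := by
  unfold B
  have := mul_self_nonneg z.re; have := mul_self_nonneg z.im
  positivity

lemma B_pos (ha : 0 < a) (hb : 0 < b) {z : ℂ} (hz : z ≠ 0) : 0 < B a b z z := by
  unfold B
  have h1 := mul_self_nonneg z.re; have h2 := mul_self_nonneg z.im
  by_cases h : z.re = 0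
  · have : z.im ≠ 0 := fun h' => hz (Complex.ext h h')
    have := mul_self_pos.2 this
    positivity
  · have := mul_self_pos.2 h
    positivity

lemma B_expand (z w : ℂ) : B a b (z - w) (z - w) = B a b z z - 2 * B a b z w + B a b w w := by
  simp [B]; ring

lemma B_le_one {z w : ℂ} (hz : z ∈ ell a b) (hw : w ∈ ell a b) : B a b z w ≤ 1 := by
  have := B_nonneg (a := a) (b := b) (z - w)
  rw [B_expand] at this
  rw [mem_ell] at hz hw
  linarith

lemma B_lt_one (ha : 0 < a) (hb : 0 < b) {z w : ℂ} (hz : z ∈ ell a b) (hw : w ∈ ell a b)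
    (h : z ≠ w) : B a b z w < 1 := by
  have := B_pos ha hb (sub_ne_zero.2 h)
  rw [B_expand] at this
  rw [mem_ell] at hz hw
  linarith

lemma B_comb (z w : ℂ) (s t : ℝ) : B a b (s • z + t • w) (s • z + t • w)
    = s ^ 2 * B a b z z + 2 * s * t * B a b z w + t ^ 2 * B a b w w := by
  simp [B]; ring

lemma convex_ell : Convex ℝ (ell a b) := by
  intro z hz w hw s t hs ht hst
  have h := B_le_one hz hw
  rw [mem_ell] at hz hw ⊢
  rw [B_comb]
  have : (s + t) ^ 2 = 1 := by rw [hst]; ring
  nlinarith [mul_le_mul_of_nonneg_left hz (sq_nonneg s), mul_le_mul_of_nonneg_left hw (sq_nonneg t),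
    mul_le_mul_of_nonneg_left h (mul_nonneg hs ht)]

lemma isClosed_ell : IsClosed (ell a b) := by
  have : ell a b = {z | B a b z z ≤ 1} := by ext z; exact mem_ell
  rw [this]; exact isClosed_le (by fun_prop) continuous_const

lemma B_le_norm (hb : 0 < b) (hab : b ≤ a) (z : ℂ) : B a b z z ≤ ‖z‖ ^ 2 / b ^ 2 := by
  rw [sq_norm', add_div, B, ← sq, ← sq]
  gcongr

lemma norm_le_B (hb : 0 < b) (hab : b ≤ a) (z : ℂ) : ‖z‖ ^ 2 / a ^ 2 ≤ B a b z z := by
  rw [sq_norm', add_div, B, ← sq, ← sq]
  gcongr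

lemma norm_le_of_mem (hb : 0 < b) (hab : b ≤ a) {z : ℂ} (hz : z ∈ ell a b) : ‖z‖ ≤ a := by
  have ha : 0 < a := by linarith
  have := (norm_le_B hb hab z).trans (mem_ell.1 hz)
  rw [div_le_one (by positivity)] at this
  exact le_of_sq_le_sq this ha.le

lemma mem_of_norm_le (hb : 0 < b) (hab : b ≤ a) {z : ℂ} (hz : ‖z‖ ≤ b) : z ∈ ell a b := by
  rw [mem_ell]
  refine (B_le_norm hb hab z).trans ?_
  rw [div_le_one (by positivity)]
  gcongr

lemma isCompact_ell (hb : 0 < b) (hab : b ≤ a) : IsCompact (ell a b) :=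
  (isCompact_closedBall (0:ℂ) a).of_isClosed_subset isClosed_ell fun _ hz =>
    mem_closedBall_zero_iff.2 (norm_le_of_mem hb hab hz)

lemma zero_mem_ell : (0:ℂ) ∈ ell a b := by simp [mem_ell]

lemma neg_mem_ell {z : ℂ} (h : z ∈ ell a b) : -z ∈ ell a b := by
  rw [mem_ell] at h ⊢; rwa [neg_B, B_neg, neg_neg]

lemma mem_int {z : ℂ} : z ∈ interior (ell a b) ↔ B a b z z < 1 := by
  constructor
  · intro h
    have hc : Continuous fun t : ℝ => t • z := by fun_prop
    have h1 : ∀ᶠ t : ℝ in 𝓝 1, t • z ∈ ell a b :=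
      hc.continuousAt.preimage_mem_nhds (by simpa using mem_interior_iff_mem_nhds.1 h)
    obtain ⟨t, h2, h3⟩ := ((h1.filter_mono nhdsWithin_le_nhds).and
      (self_mem_nhdsWithin (s := Ioi (1:ℝ)))).exists
    rw [mem_ell, smul_B, B_smul] at h2
    have h4 : (1:ℝ) < t := h3
    by_contra hc'
    push Not at hc'
    have h5 : t ≤ t * B a b z z := le_mul_of_one_le_right (by linarith) hc'
    nlinarith
  · intro h
    apply interior_maximal (t := {z | B a b z z < 1}) (fun w hw => mem_ell.2 (le_of_lt hw))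
      (isOpen_lt (by fun_prop) continuous_const) h

lemma mem_fr {z : ℂ} : z ∈ frontier (ell a b) ↔ B a b z z = 1 := by
  rw [isClosed_ell.frontier_eq, Set.mem_sdiff, mem_ell, mem_int]
  constructor
  · exact fun h => le_antisymm h.1 (not_lt.1 h.2)
  · exact fun h => ⟨h.le, h.not_lt⟩

lemma ar_ell (ha : 0 < a) (hb : 0 < b) : volume.real (ell a b) = π * a * b := by
  have h := vol_aff a 0 0 b 0 (closedBall 0 1)
  have e : (fun z : ℂ => (⟨a * z.re + 0 * z.im, 0 * z.re + b * z.im⟩ : ℂ) + 0) '' closedBall 0 1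
      = ell a b := by
    ext z
    constructor
    · rintro ⟨w, hw, rfl⟩
      rw [mem_closedBall_zero_iff, ← sq_le_sq₀ (norm_nonneg _) zero_le_one, sq_norm'] at hw
      simp only [ell, mem_ofPred_eq, add_zero, zero_mul, zero_add]
      rw [mul_div_cancel_left₀ _ ha.ne', mul_div_cancel_left₀ _ hb.ne']
      linarith
    · intro hz
      refine ⟨⟨z.re / a, z.im / b⟩, ?_, ?_⟩
      · rw [mem_closedBall_zero_iff, ← sq_le_sq₀ (norm_nonneg _) zero_le_one, sq_norm', one_pow]
        exact hz
      · apply Complex.ext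
        · simp; field_simp
        · simp; field_simp
  rw [e] at h
  have h2 := ar_closedBall (0:ℂ) zero_le_one
  simp only [Measure.real] at h2 ⊢
  rw [h, ENNReal.toReal_mul, h2, ENNReal.toReal_ofReal (abs_nonneg _),
    abs_of_pos (by nlinarith [mul_pos ha hb])]
  ring

lemma ar_interior {K : Set ℂ} (cK : Convex ℝ K) : volume.real (interior K) = volume.real K := by
  simp only [Measure.real]
  rw [measure_interior_of_null_frontier (cK.addHaar_frontier volume)]

lemma B_tg (ha : 0 < a) (hb : 0 < b) (p : ℂ) : B a b p (tg a b p) = 0 := by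
  simp only [B, tg]; field_simp; ring

lemma B_tg_tg (ha : 0 < a) (hb : 0 < b) (p : ℂ) : B a b (tg a b p) (tg a b p) = B a b p p := by
  simp only [B, tg]; field_simp; ring

lemma decomp (ha : 0 < a) (hb : 0 < b) {p : ℂ} (hp : B a b p p = 1) (z : ℂ) :
    z = B a b p z • p + B a b (tg a b p) z • tg a b p := by
  have h : p.re * p.re / a ^ 2 + p.im * p.im / b ^ 2 = 1 := hp
  apply Complex.ext
  · simp only [B, tg, Complex.add_re, Complex.smul_re, smul_eq_mul]
    have : z.re = z.re * (p.re * p.re / a ^ 2 + p.im * p.im / b ^ 2) := by rw [h, mul_one]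
    conv_lhs => rw [this]
    field_simp; ring
  · simp only [B, tg, Complex.add_im, Complex.smul_im, smul_eq_mul]
    have : z.im = z.im * (p.re * p.re / a ^ 2 + p.im * p.im / b ^ 2) := by rw [h, mul_one]
    conv_lhs => rw [this]
    field_simp; ring

lemma B_coord (ha : 0 < a) (hb : 0 < b) {p : ℂ} (hp : B a b p p = 1) (x y x' y' : ℝ) :
    B a b (x • p + y • tg a b p) (x' • p + y' • tg a b p) = x * x' + y * y' := by
  simp only [add_B, B_add, smul_B, B_smul, B_tg ha hb, B_tg_tg ha hb, hp,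
    B_comm (tg a b p) p]
  ring

/-- the part of the open ellipse outside a convex set whose contact set is a cap arc is
contractible. -/
lemma outside_sc (ha : 0 < a) (hb : 0 < b) {K : Set ℂ} (hK : IsCompact K) (cK : Convex ℝ K)
    {p : ℂ} (hp : B a b p p = 1) (hpK : p ∈ K) {u : ℂ} {κ : ℝ}
    (hcon : ∀ z, B a b z z = 1 → (z ∈ K ↔ dot u z ≤ κ)) {z0 : ℂ} (hz0 : B a b z0 z0 = 1)
    (hz0K : z0 ∉ K) : IsSimplyConnected (interior (ell a b) \ K) := by
  set T := tg a b p with hT
  let pt : ℝ → ℝ → ℂ := fun w y => (1 - y) • p + (y * w) • T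
  have Qpt : ∀ w y, B a b (pt w y) (pt w y) = 1 - y * (2 - y * (1 + w ^ 2)) := fun w y => by
    simp only [pt, hT, B_coord ha hb hp]; ring
  let yE : ℝ → ℝ := fun w => 2 / (1 + w ^ 2)
  have yE0 : ∀ w, 0 < yE w := fun w => by positivity
  have yE1 : ∀ w, yE w * (1 + w ^ 2) = 2 := fun w => by simp only [yE]; field_simp
  have cyE : Continuous yE := continuous_const.div (by fun_prop) fun w => by positivity
  have pne : ∀ w : ℝ, (w • T - p) ≠ 0 := by
    intro w h
    have := congrArg (B a b p) h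
    rw [B_sub, B_smul, hT, B_tg ha hb, hp] at this
    simp at this
  have ptsub : ∀ w y y', pt w y - pt w y' = (y - y') • (w • T - p) := fun w y y' => by
    simp only [pt, Complex.real_smul]; push_cast; ring
  have pt0 : ∀ w, pt w 0 = p := fun w => by simp [pt]
  have down : ∀ w y y', 0 ≤ y → y ≤ y' → pt w y' ∈ K → pt w y ∈ K := by
    intro w y y' h0 h1 h2
    rcases eq_or_lt_of_le (h0.trans h1) with e | e
    · rw [show y = y' by linarith]; exact h2
    have := cK hpK h2 (a := 1 - y / y') (b := y / y') (by rw [sub_nonneg, div_le_one e]; exact h1)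
      (by positivity) (by ring)
    convert this using 1
    have e' : (y' : ℂ) ≠ 0 := by exact_mod_cast e.ne'
    simp only [pt, Complex.real_smul]; push_cast; field_simp; ring
  let m : ℝ → ℝ := fun w => yE w - infDist (pt w (yE w)) K / (2 * ‖w • T - p‖)
  have cm : Continuous m := by
    refine cyE.sub (Continuous.div ((continuous_infDist_pt K).comp ?_) (by fun_prop)
      fun w => by have := norm_pos_iff.2 (pne w); positivity)
    simp only [pt]; fun_prop
  have hm : ∀ w, pt w (yE w) ∉ K → 0 < m w ∧ m w < yE w ∧ pt w (m w) ∉ K := by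
    intro w h
    have n0 := norm_pos_iff.2 (pne w)
    have d0 : 0 < infDist (pt w (yE w)) K :=
      (hK.isClosed.notMem_iff_infDist_pos ⟨p, hpK⟩).1 h
    have d1 : infDist (pt w (yE w)) K ≤ yE w * ‖w • T - p‖ := by
      refine (infDist_le_dist_of_mem hpK).trans (le_of_eq ?_)
      rw [dist_eq_norm]
      conv_lhs => rw [← pt0 w]
      rw [ptsub, norm_smul, sub_zero, Real.norm_eq_abs, abs_of_pos (yE0 w)]
    have d2 : infDist (pt w (yE w)) K / (2 * ‖w • T - p‖) ≤ yE w / 2 := by
      rw [div_le_div_iff₀ (by positivity) two_pos]; linarith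
    have d3 : 0 < infDist (pt w (yE w)) K / (2 * ‖w • T - p‖) := by positivity
    refine ⟨by simp only [m]; linarith [yE0 w], by simp only [m]; linarith, ?_⟩
    apply notMem_of_dist_lt_infDist (x := pt w (yE w))
    rw [dist_eq_norm, ptsub, norm_smul, Real.norm_eq_abs, abs_of_pos (by simp only [m]; linarith)]
    simp only [m, sub_sub_cancel]
    rw [div_mul_eq_mul_div, div_lt_iff₀ (by positivity)]
    nlinarith
  have QE : ∀ w, B a b (pt w (yE w)) (pt w (yE w)) = 1 := fun w => by rw [Qpt, yE1]; ring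
  have κp : dot u p ≤ κ := (hcon p hp).1 hpK
  have iffS : ∀ w, pt w (yE w) ∉ K ↔
      0 < (dot u p - κ) * (1 + w ^ 2) + 2 * (w * dot u T - dot u p) := by
    intro w
    rw [hcon _ (QE w), not_le]
    simp only [pt, dot_add, dot_smul]
    have h1 := yE1 w
    have h2 : 0 < 1 + w ^ 2 := by positivity
    have e : (dot u p - κ) * (1 + w ^ 2) + 2 * (w * dot u T - dot u p)
        = (1 + w ^ 2) * ((1 - yE w) * dot u p + yE w * w * dot u T - κ) := by
      linear_combination (dot u p - w * dot u T) * h1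
    rw [e, mul_pos_iff_of_pos_left h2, sub_pos]
  have convS : ∀ w w' l, pt w (yE w) ∉ K → pt w' (yE w') ∉ K → 0 ≤ l → l ≤ 1 →
      pt (w + l * (w' - w)) (yE (w + l * (w' - w))) ∉ K := by
    intro w w' l h1 h2 l0 l1
    rw [iffS] at h1 h2 ⊢
    have h3 : 0 ≤ (κ - dot u p) * (l * (1 - l) * (w' - w) ^ 2) :=
      mul_nonneg (by linarith) (mul_nonneg (mul_nonneg l0 (by linarith)) (sq_nonneg _))
    have e : (dot u p - κ) * (1 + (w + l * (w' - w)) ^ 2)
        + 2 * ((w + l * (w' - w)) * dot u T - dot u p)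
        = (1 - l) * ((dot u p - κ) * (1 + w ^ 2) + 2 * (w * dot u T - dot u p))
          + l * ((dot u p - κ) * (1 + w' ^ 2) + 2 * (w' * dot u T - dot u p))
          + (κ - dot u p) * (l * (1 - l) * (w' - w) ^ 2) := by ring
    rw [e]
    rcases eq_or_lt_of_le l0 with e0 | e0
    · rw [← e0]; simpa using h1
    · have := mul_pos e0 h2
      have := mul_nonneg (sub_nonneg.2 l1) h1.le
      linarith
  let yy : ℂ → ℝ := fun z => 1 - B a b p z
  let ss : ℂ → ℝ := fun z => B a b T z / yy z
  have rep : ∀ z, z ∈ ell a b → z ≠ p → 0 < yy z ∧ pt (ss z) (yy z) = z := by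
    intro z hz hzp
    have h0 : 0 < yy z := sub_pos.2 (B_lt_one ha hb (mem_ell.2 hp.le) hz hzp.symm)
    refine ⟨h0, ?_⟩
    conv_rhs => rw [decomp ha hb hp z]
    simp only [pt, ss]
    rw [mul_div_cancel₀ _ h0.ne']
    simp [yy, hT]
  have inV : ∀ w y, 0 < y → y < yE w → pt w y ∈ interior (ell a b) := by
    intro w y h0 h1
    rw [mem_int, Qpt]
    have := yE1 w
    have h2 : 0 < 1 + w ^ 2 := by positivity
    have : y * (1 + w ^ 2) < 2 := by nlinarith
    nlinarith
  have hV : ∀ z ∈ interior (ell a b) \ K, 0 < yy z ∧ pt (ss z) (yy z) = z ∧ yy z < yE (ss z) ∧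
      pt (ss z) (yE (ss z)) ∉ K := by
    intro z hz
    obtain ⟨h0, h1⟩ := rep z (interior_subset hz.1) (fun h => hz.2 (h ▸ hpK))
    have h2 := mem_int.1 hz.1
    rw [← h1, Qpt] at h2
    have h3 : yy z < yE (ss z) := by
      have h4 : yy z * (1 + ss z ^ 2) < 2 := by nlinarith
      simp only [yE]
      rw [lt_div_iff₀ (by positivity)]; exact h4
    exact ⟨h0, h1, h3, fun h => hz.2 (h1 ▸ down _ _ _ h0.le h3.le h)⟩
  have hw0 : pt (ss z0) (yE (ss z0)) ∉ K := by
    obtain ⟨h0, h1⟩ := rep z0 (mem_ell.2 hz0.le) (fun h => hz0K (h ▸ hpK))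
    have h2 := hz0
    rw [← h1, Qpt] at h2
    have h3 : yy z0 = yE (ss z0) := by
      have h4 : yy z0 * (1 + ss z0 ^ 2) = 2 := by
        have : yy z0 * (2 - yy z0 * (1 + ss z0 ^ 2)) = 0 := by linarith
        rcases mul_eq_zero.1 this with h | h <;> linarith
      simp only [yE]
      rw [eq_div_iff (by positivity)]; exact h4
    rw [← h3, h1]; exact hz0K
  set w0 := ss z0
  let V := interior (ell a b) \ K
  let F : I × V → ℂ := fun x =>
    pt (w0 + min 1 (2 - 2 * (x.1:ℝ)) * (ss x.2 - w0))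
      (m (w0 + min 1 (2 - 2 * (x.1:ℝ)) * (ss x.2 - w0))
        + max (1 - 2 * (x.1:ℝ)) 0 * (yy x.2 - m (ss x.2)))
  have cyy : Continuous yy := by simp only [yy]; fun_prop
  have css : Continuous fun z : V => ss z :=
    Continuous.div (by fun_prop) (cyy.comp continuous_subtype_val) fun z => (hV z z.2).1.ne'
  have cF : Continuous F := by
    have c1 : Continuous fun x : I × V => w0 + min 1 (2 - 2 * (x.1:ℝ)) * (ss x.2 - w0) := by
      have := css.comp (continuous_snd (X := I))
      exact continuous_const.add (Continuous.mul (by fun_prop) (this.sub continuous_const))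
    have c2 : Continuous fun x : I × V => max (1 - 2 * (x.1:ℝ)) 0 * (yy x.2 - m (ss x.2)) :=
      Continuous.mul (by fun_prop) ((cyy.comp (continuous_subtype_val.comp continuous_snd)).sub
        (cm.comp (css.comp continuous_snd)))
    have c3 := (cm.comp c1).add c2
    exact ((continuous_const.sub c3).smul continuous_const).add ((c3.mul c1).smul continuous_const)
  have mF : ∀ x, F x ∈ V := by
    rintro ⟨s, z⟩
    obtain ⟨h0, h1, h2, h3⟩ := hV z z.2
    have s0 := s.2.1
    have s1 := s.2.2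
    simp only [F]
    rcases le_total (s:ℝ) (1 / 2) with h | h
    · rw [min_eq_left (by linarith), max_eq_left (by linarith), one_mul, add_sub_cancel]
      obtain ⟨m0, m1, m2⟩ := hm _ h3
      have l0 : 0 ≤ 1 - 2 * (s:ℝ) := by linarith
      rcases le_total (m (ss z)) (yy z) with c | c
      · have e1 := mul_nonneg l0 (sub_nonneg.2 c)
        have e2 := mul_nonneg s0 (sub_nonneg.2 c)
        exact ⟨inV _ _ (by linarith) (by linarith), fun hk => m2 (down _ _ _ m0.le (by linarith) hk)⟩
      · have e1 := mul_nonneg l0 (sub_nonneg.2 c)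
        have e2 := mul_nonneg s0 (sub_nonneg.2 c)
        exact ⟨inV _ _ (by linarith) (by linarith),
          fun hk => z.2.2 (h1 ▸ down _ _ _ h0.le (by linarith) hk)⟩
    · rw [min_eq_right (by linarith), max_eq_right (by linarith), zero_mul, add_zero]
      obtain ⟨m0, m1, m2⟩ := hm _ (convS w0 (ss z) (2 - 2 * s) hw0 h3 (by linarith) (by linarith))
      exact ⟨inV _ _ m0 m1, m2⟩
  obtain ⟨m0, m1, m2⟩ := hm _ hw0
  have : ContractibleSpace V := by
    rw [contractible_iff_id_nullhomotopic]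
    refine ⟨⟨pt w0 (m w0), inV _ _ m0 m1, m2⟩, ⟨⟨⟨fun x => ⟨F x, mF x⟩, cF.subtype_mk _⟩, ?_, ?_⟩⟩⟩
    · intro z
      apply Subtype.ext
      simp only [F, ContinuousMap.id_apply, Icc.coe_zero]
      norm_num
      exact (hV z z.2).2.1
    · intro z
      apply Subtype.ext
      simp only [F, ContinuousMap.const_apply, Icc.coe_one]
      norm_num
  exact SimplyConnectedSpace.ofContractible V

lemma comp_eq {S U V : Set ℂ} (hS : S = U ∪ V) (oU : IsOpen U) (oV : IsOpen V) (d : Disjoint U V)
    (cU : IsPreconnected U) {z : ℂ} (hz : z ∈ U) : connectedComponentIn S z = U := by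
  apply subset_antisymm
  · exact isPreconnected_connectedComponentIn.subset_left_of_subset_union oU oV d
      (hS ▸ connectedComponentIn_subset _ _)
      ⟨z, mem_connectedComponentIn (hS ▸ Or.inl hz), hz⟩
  · exact cU.subset_connectedComponentIn hz (hS ▸ subset_union_left)

lemma admissible_of (hb : 0 < b) (hab : b ≤ a) {K : Set ℂ} (hK : IsCompact K) (cK : Convex ℝ K)
    (hKE : K ⊆ ell a b) (hA : volume.real K = π * a * b / 2)
    {p q : ℂ} (hp : B a b p p = 1) (hpK : p ∈ K) {u : ℂ} {κ : ℝ}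
    (hcon : ∀ z, B a b z z = 1 → (z ∈ K ↔ dot u z ≤ κ)) {z0 : ℂ} (hz0 : B a b z0 z0 = 1)
    (hz0K : z0 ∉ K) (γ : Path p q)
    (h1 : ∀ s t, γ s = γ t → s = t ∨ (s = 0 ∧ t = 1) ∨ (s = 1 ∧ t = 0))
    (h2 : eVariationOn γ univ ≠ ⊤) (h3 : range γ ⊆ frontier K)
    (h4 : frontier K ∩ interior (ell a b) ⊆ range γ) : Admissible a b γ := by
  have ha : 0 < a := by linarith
  have hpos : 0 < π * a * b / 2 := by positivity
  have sV := outside_sc ha hb hK cK hp hpK hcon hz0 hz0K
  have aU : volume.real (interior K) = π * a * b / 2 := by rw [ar_interior cK, hA]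
  have nU : (interior K).Nonempty := nonempty_of_measureReal_ne_zero (aU ▸ hpos.ne')
  have hS : interior (ell a b) \ range γ = interior K ∪ (interior (ell a b) \ K) := by
    ext z
    constructor
    · rintro ⟨hz, hz'⟩
      by_cases h : z ∈ K
      · left
        by_contra h'
        exact hz' (h4 ⟨by rw [hK.isClosed.frontier_eq]; exact ⟨h, h'⟩, hz⟩)
      · exact Or.inr ⟨hz, h⟩
    · rintro (h | h)
      · exact ⟨interior_mono hKE h, fun h' => (h3 h').2 h⟩
      · exact ⟨h.1, fun h' => h.2 (hK.isClosed.frontier_subset (h3 h'))⟩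
  have oV : IsOpen (interior (ell a b) \ K) := isOpen_interior.sdiff hK.isClosed
  have dj : Disjoint (interior K) (interior (ell a b) \ K) :=
    disjoint_left.2 fun z h h' => h'.2 (interior_subset h)
  have cU : IsPreconnected (interior K) := cK.interior.isPreconnected
  have cV : IsPreconnected (interior (ell a b) \ K) := sV.isPathConnected.isConnected.isPreconnected
  have fE : volume (interior (ell a b)) ≠ ⊤ :=
    ((measure_mono interior_subset).trans_lt (isCompact_ell hb hab).measure_lt_top).ne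
  refine ⟨h1, h2, h3.trans (hK.isClosed.frontier_subset.trans hKE), interior K,
    interior (ell a b) \ K, ?_, ?_, ?_, sV, ?_, ?_⟩
  · intro h
    obtain ⟨z, hz⟩ := nU
    exact (h ▸ hz).2 (interior_subset hz)
  · apply subset_antisymm
    · rintro _ ⟨z, hz, rfl⟩
      rw [hS] at hz
      rcases hz with h | h
      · left; exact comp_eq hS isOpen_interior oV dj cU h
      · right; exact comp_eq (hS.trans (union_comm _ _)) oV isOpen_interior dj.symm cV h
    · rintro _ (rfl | rfl)
      · obtain ⟨z, hz⟩ := nU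
        exact ⟨z, hS ▸ Or.inl hz, comp_eq hS isOpen_interior oV dj cU hz⟩
      · obtain ⟨z, hz⟩ := sV.nonempty
        exact ⟨z, hS ▸ Or.inr hz,
          comp_eq (hS.trans (union_comm _ _)) oV isOpen_interior dj.symm cV hz⟩
  · have := cK.interior.contractibleSpace nU
    exact SimplyConnectedSpace.ofContractible _
  · rw [← aU, ofReal_measureReal ((measure_mono interior_subset).trans_lt hK.measure_lt_top).ne]
  · have e : volume (interior (ell a b) \ K) = volume (interior (ell a b) \ interior K) :=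
      measure_congr (ae_eq_set_sdiff (ae_eq_refl _) (interior_ae_eq_of_null_frontier
        (cK.addHaar_frontier volume)).symm)
    rw [e, ← ofReal_measureReal ((measure_mono sdiff_subset).trans_lt fE.lt_top).ne,
      measureReal_sdiff (interior_mono hKE) isOpen_interior.measurableSet fE, aU,
      ar_interior convex_ell, ar_ell ha hb]
    congr 1; ring

end Pool.Agent.MP_7791e4_an

end

section

set_option autoImplicit false

namespace Pool.Agent.MP_7791e4_an

open Set MeasureTheory Real Metric Filter Topology Pointwise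

variable {a b : ℝ}

lemma shell (hb : 0 < b) (hab : b ≤ a) {f : ℂ} (hf : f ∈ ell a b) {δ τ : ℝ} (hδ : 0 < δ)
    (hδ1 : δ ≤ 1) (hτ : 0 ≤ τ) :
    volume.real {z : ℂ | z ∉ ell a b ∧ ‖z - f‖ ≤ δ ∧ ∃ k ∈ ell a b, ∃ e ∈ ell a b, z = k + τ • e}
      ≤ π * (1 + a) ^ 2 * (2 * τ * δ + τ ^ 2) ∧
    volume {z : ℂ | z ∉ ell a b ∧ ‖z - f‖ ≤ δ ∧ ∃ k ∈ ell a b, ∃ e ∈ ell a b, z = k + τ • e}
      ≠ ⊤ := by
  have ha : 0 < a := by linarith
  set μ : ℝ := (δ + τ) / δ with hμ
  have μ1 : 1 ≤ μ := by rw [hμ, le_div_iff₀ hδ]; linarith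
  have μ0 : 0 < μ := by linarith
  set o : ℂ := (1 - δ) • f with ho
  set S := ell a b ∩ closedBall f (δ * (1 + a)) with hS
  have kS : IsCompact S := (isCompact_ell hb hab).inter_right isClosed_closedBall
  have cS : Convex ℝ S := convex_ell.inter (convex_closedBall _ _)
  have oB : o ∈ closedBall f (δ * (1 + a)) := by
    rw [mem_closedBall, dist_eq_norm, show o - f = (-δ) • f by rw [ho]; simp [sub_smul],
      norm_smul, Real.norm_eq_abs, abs_neg, abs_of_pos hδ]
    have := norm_le_of_mem hb hab hf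
    nlinarith
  have oS : o ∈ S := ⟨convex_ell.smul_mem_of_zero_mem zero_mem_ell hf ⟨by linarith, by linarith⟩, oB⟩
  let h : ℂ → ℂ := fun y => (μ : ℂ) * y + (1 - μ) • o
  have μc : (μ : ℂ) ≠ 0 := by exact_mod_cast μ0.ne'
  have inv : ∀ z, h ((1 - 1 / μ) • o + (1 / μ) • z) = z := fun z => by
    simp only [h, Complex.real_smul]; push_cast; field_simp; ring
  have w0 : 0 ≤ 1 - 1 / μ := by rw [sub_nonneg, div_le_one μ0]; exact μ1
  have w1 : 0 ≤ 1 / μ := by positivity
  have sub1 : S ⊆ h '' S := fun x hx => ⟨_, cS oS hx w0 w1 (by ring), inv x⟩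
  have kh : IsCompact (h '' S) := kS.image (by fun_prop)
  have sub2 : {z : ℂ | z ∉ ell a b ∧ ‖z - f‖ ≤ δ ∧ ∃ k ∈ ell a b, ∃ e ∈ ell a b, z = k + τ • e}
      ⊆ h '' S \ S := by
    rintro z ⟨h1, h2, k, hk, e, he, rfl⟩
    refine ⟨⟨_, ⟨?_, convex_closedBall _ _ oB ?_ w0 w1 (by ring)⟩, inv _⟩, fun h => h1 h.1⟩
    · have m1 : (1 / (1 + τ)) • k + (τ / (1 + τ)) • e ∈ ell a b :=
        convex_ell hk he (by positivity) (by positivity) (by field_simp)
      have m2 := convex_ell hf m1 (show 0 ≤ (1 - 1 / μ) * (1 - δ) from mul_nonneg w0 (by linarith))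
        (show 0 ≤ (1 + τ) / μ by positivity) (by rw [hμ]; field_simp; ring)
      convert m2 using 1
      have : (1 + (τ:ℂ)) ≠ 0 := by exact_mod_cast (show (1 + τ) ≠ 0 by positivity)
      simp only [ho, Complex.real_smul]; push_cast; field_simp
    · rw [mem_closedBall, dist_eq_norm]; nlinarith
  refine ⟨?_, ((measure_mono (sub2.trans sdiff_subset)).trans_lt kh.measure_lt_top).ne⟩
  refine (measureReal_mono sub2 ((measure_mono sdiff_subset).trans_lt kh.measure_lt_top).ne).trans ?_
  rw [measureReal_sdiff sub1 kS.measurableSet kh.measure_lt_top.ne, ar_mul, Complex.norm_real,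
    Real.norm_eq_abs, sq_abs]
  have h3 : volume.real S ≤ π * (δ * (1 + a)) ^ 2 := by
    rw [← ar_closedBall f (by positivity)]
    exact measureReal_mono inter_subset_right (isCompact_closedBall _ _).measure_lt_top.ne
  have h4 : 0 ≤ μ ^ 2 - 1 := by nlinarith
  calc μ ^ 2 * volume.real S - volume.real S = (μ ^ 2 - 1) * volume.real S := by ring
    _ ≤ (μ ^ 2 - 1) * (π * (δ * (1 + a)) ^ 2) := mul_le_mul_of_nonneg_left h3 h4
    _ = _ := by rw [hμ]; field_simp; ring

lemma clip (hb : 0 < b) (hab : b ≤ a) {K D : Set ℂ} (hK : IsCompact K) (hD : IsCompact D)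
    (hKE : K ⊆ ell a b) {f1 f2 : ℂ} (hf1 : f1 ∈ ell a b) (hf2 : f2 ∈ ell a b)
    (h : ∀ k ∈ K, B a b k k = 1 → k ≠ f1 → k ≠ f2 → ∀ d ∈ D, B a b k d < 1) {ε : ℝ} (hε : 0 < ε) :
    ∀ᶠ t : ℝ in 𝓝[>] 0, volume.real (((1 - t) • K + t • D) \ ell a b) ≤ ε * t := by
  have ha : 0 < a := by linarith
  obtain ⟨R, hR0, hR⟩ := hD.isBounded.exists_pos_norm_le
  set C : ℝ := (R + a) / b with hC
  have C0 : 0 < C := by positivity
  have hE : ∀ k ∈ K, ∀ d ∈ D, C⁻¹ • (d - k) ∈ ell a b := by
    intro k hk d hd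
    apply mem_of_norm_le hb hab
    rw [norm_smul, Real.norm_eq_abs, abs_of_pos (inv_pos.2 C0), inv_mul_le_iff₀ C0, hC,
      div_mul_cancel₀ _ hb.ne']
    exact (norm_sub_le _ _).trans (add_le_add (hR d hd) (norm_le_of_mem hb hab (hKE hk)))
  set M : ℝ := π * (1 + a) ^ 2 with hM
  have M0 : 0 < M := by positivity
  set δ : ℝ := min 1 (ε / (8 * M * C)) with hδ
  have δ0 : 0 < δ := by positivity
  have δ1 : δ ≤ 1 := min_le_left _ _
  have δ2 : δ ≤ ε / (8 * M * C) := min_le_right _ _
  let T : Set (ℂ × ℂ) := (K ×ˢ D) ∩ {x | δ / 2 ≤ ‖x.1 - f1‖ ∧ δ / 2 ≤ ‖x.1 - f2‖}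
  have kT : IsCompact T := (hK.prod hD).inter_right
    ((isClosed_le (g := fun x : ℂ × ℂ => ‖x.1 - f1‖) continuous_const (by fun_prop)).inter
      (isClosed_le (g := fun x : ℂ × ℂ => ‖x.1 - f2‖) continuous_const (by fun_prop)))
  obtain ⟨μ, μ0, hμ⟩ : ∃ μ : ℝ, 0 < μ ∧ ∀ x ∈ T,
      min (B a b x.1 x.1 - 1) (B a b x.1 (x.2 - x.1)) ≤ -μ := by
    rcases T.eq_empty_or_nonempty with e | ne
    · exact ⟨1, one_pos, by simp [e]⟩
    obtain ⟨x, hx, hm⟩ := kT.exists_isMaxOn ne
      (f := fun x : ℂ × ℂ => min (B a b x.1 x.1 - 1) (B a b x.1 (x.2 - x.1))) (by fun_prop)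
    refine ⟨-min (B a b x.1 x.1 - 1) (B a b x.1 (x.2 - x.1)), ?_, fun y hy => ?_⟩
    · rw [neg_pos, min_lt_iff]
      rcases eq_or_lt_of_le (mem_ell.1 (hKE hx.1.1)) with e | e
      · right
        have := h _ hx.1.1 e (fun e1 => by have := hx.2.1; rw [e1] at this; simp at this; linarith)
          (fun e1 => by have := hx.2.2; rw [e1] at this; simp at this; linarith) _ hx.1.2
        rw [B_sub]; linarith
      · left; linarith
    · rw [neg_neg]; exact hm hy
  have ev1 : ∀ c : ℝ, 0 < c → ∀ᶠ t : ℝ in 𝓝[>] 0, t < c := fun c hc =>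
    nhdsWithin_le_nhds (Iio_mem_nhds hc)
  filter_upwards [self_mem_nhdsWithin, ev1 (δ / (2 * C * a)) (by positivity),
    ev1 (μ / (3 * C)) (by positivity), ev1 (1 / C) (by positivity),
    ev1 (μ / C ^ 2) (by positivity), ev1 (ε / (4 * M * C ^ 2)) (by positivity)]
    with t t0 t1 t2 t3 t4 t5
  have t0' : 0 < t := t0
  rw [lt_div_iff₀ (by positivity)] at t1 t2 t3 t4 t5
  obtain ⟨s1, s1'⟩ := shell hb hab hf1 δ0 δ1 (τ := C * t) (by positivity)
  obtain ⟨s2, s2'⟩ := shell hb hab hf2 δ0 δ1 (τ := C * t) (by positivity)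
  have sub : ((1 - t) • K + t • D) \ ell a b ⊆
      {z : ℂ | z ∉ ell a b ∧ ‖z - f1‖ ≤ δ ∧ ∃ k ∈ ell a b, ∃ e ∈ ell a b, z = k + (C * t) • e} ∪
      {z : ℂ | z ∉ ell a b ∧ ‖z - f2‖ ≤ δ ∧ ∃ k ∈ ell a b, ∃ e ∈ ell a b, z = k + (C * t) • e} := by
    rintro _ ⟨⟨_, ⟨k, hk, rfl⟩, _, ⟨d, hd, rfl⟩, rfl⟩, hz⟩
    have he := hE k hk d hd
    set e := C⁻¹ • (d - k) with hee
    have ed : d - k = C • e := by rw [hee, smul_smul, mul_inv_cancel₀ C0.ne', one_smul]
    have ez : (1 - t) • k + t • d = k + (C * t) • e := by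
      rw [mul_comm, mul_smul, ← ed]; simp only [Complex.real_smul]; push_cast; ring
    simp only at hz ⊢
    rw [ez] at hz ⊢
    have near : ∀ f : ℂ, ‖k - f‖ < δ / 2 → ‖k + (C * t) • e - f‖ ≤ δ := by
      intro f hf
      rw [show k + (C * t) • e - f = (k - f) + (C * t) • e by ring]
      refine (norm_add_le _ _).trans ?_
      rw [norm_smul, Real.norm_eq_abs, abs_of_pos (by positivity)]
      have := mul_le_mul_of_nonneg_left (norm_le_of_mem hb hab he) (show 0 ≤ C * t by positivity)
      linarith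
    by_cases c1 : ‖k - f1‖ < δ / 2
    · exact Or.inl ⟨hz, near f1 c1, k, hKE hk, e, he, rfl⟩
    by_cases c2 : ‖k - f2‖ < δ / 2
    · exact Or.inr ⟨hz, near f2 c2, k, hKE hk, e, he, rfl⟩
    exfalso
    apply hz
    have hm := hμ (k, d) ⟨⟨hk, hd⟩, not_lt.1 c1, not_lt.1 c2⟩
    simp only at hm
    rw [ed, B_smul] at hm
    have q1 := mem_ell.1 (hKE hk)
    have q2 := mem_ell.1 he
    have q3 := B_le_one (hKE hk) he
    have q4 := B_comb (a := a) (b := b) k e 1 (C * t)
    rw [one_smul] at q4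
    rw [mem_ell, q4]
    have ct : 0 < C * t := by positivity
    have q5 := mul_le_mul_of_nonneg_left q2 (sq_nonneg (C * t))
    rcases min_le_iff.1 hm with c | c
    · have q6 := mul_le_mul_of_nonneg_left q3 ct.le
      nlinarith
    · have q6 := mul_le_mul_of_nonneg_left c t0'.le
      nlinarith
  refine (measureReal_mono sub (measure_union_ne_top s1' s2')).trans
    ((measureReal_union_le _ _).trans ((add_le_add s1 s2).trans ?_))
  rw [le_div_iff₀ (by positivity)] at δ2
  rw [← hM]
  nlinarith [mul_le_mul_of_nonneg_left δ2 t0'.le, mul_le_mul_of_nonneg_left t5.le t0'.le]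

lemma extreme (ha : 0 < a) (hb : 0 < b) {X : Set ℂ} (hX : IsCompact X) (nX : X.Nonempty)
    (hXE : X ⊆ ell a b) {z : ℂ} (hz : z ∈ closedConvexHull ℝ X) (h1 : B a b z z = 1) : z ∈ X := by
  obtain ⟨k, hk, e⟩ := exists_hs hX nX (nu a b z)
  have h2 := le_hs (isCompact_cch hX) hz (nu a b z)
  rw [hs_cch hX nX, ← e, dot_nu, dot_nu, h1] at h2
  by_contra hc
  have := B_lt_one ha hb (mem_ell.2 h1.le) (hXE hk) (fun h => hc (h ▸ hk))
  linarith

lemma cch_subset {X : Set ℂ} (h : X ⊆ ell a b) : closedConvexHull ℝ X ⊆ ell a b :=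
  closedConvexHull_min h convex_ell isClosed_ell

lemma compl_preconn {K : Set ℂ} (hK : IsCompact K) (cK : Convex ℝ K) (nK : K.Nonempty) :
    IsPreconnected Kᶜ := by
  obtain ⟨R, R0, hR⟩ := hK.isBounded.exists_pos_norm_le
  obtain ⟨k, hk⟩ := nK
  let O : Set ℂ := (fun x : ℝ × ℝ => x.1 • ev x.2) '' (Ioi R ×ˢ univ)
  have cO : IsPreconnected O :=
    (isPreconnected_Ioi.prod isPreconnected_univ).image _ (by fun_prop)
  have mO : ∀ z, R < ‖z‖ → z ∈ O := fun z hz =>
    ⟨(‖z‖, Complex.arg z), ⟨hz, mem_univ _⟩, (eq_smul_ev z).symm⟩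
  have sO : O ⊆ Kᶜ := by
    rintro _ ⟨x, hx, rfl⟩ h
    have h1 := hR _ h
    have h2 : R < x.1 := hx.1
    rw [norm_smul, norm_ev, Real.norm_eq_abs, abs_of_pos (by linarith), mul_one] at h1
    linarith
  apply isPreconnected_of_forall ((R + 1 : ℝ) : ℂ)
  intro z hz
  let ray : Set ℂ := (fun t : ℝ => z + t • (z - k)) '' Ici 0
  have cr : IsPreconnected ray := isPreconnected_Ici.image _ (by fun_prop)
  have zk : 0 < ‖z - k‖ := norm_pos_iff.2 (sub_ne_zero.2 fun h => hz (h ▸ hk))
  refine ⟨O ∪ ray, union_subset sO ?_, Or.inl (mO _ ?_), Or.inr ⟨0, self_mem_Ici, by simp⟩,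
    IsPreconnected.union (z + ((R + ‖z‖ + 1) / ‖z - k‖) • (z - k)) (mO _ ?_)
      ⟨_, show (0:ℝ) ≤ _ by positivity, rfl⟩ cO cr⟩
  · rintro _ ⟨t, ht, rfl⟩ h
    have t0 : (0:ℝ) ≤ t := ht
    apply hz
    have := cK hk h (a := t / (1 + t)) (b := 1 / (1 + t)) (by positivity) (by positivity)
      (by field_simp; ring)
    convert this using 1
    have : (1 + (t:ℂ)) ≠ 0 := by exact_mod_cast (show (1 + t) ≠ 0 by positivity)
    simp only [Complex.real_smul]; push_cast; field_simp; ring
  · rw [Complex.norm_real, Real.norm_eq_abs, abs_of_pos (by linarith)]; linarith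
  · have h1 := norm_sub_norm_le (((R + ‖z‖ + 1) / ‖z - k‖) • (z - k)) (-z)
    rw [norm_smul, Real.norm_eq_abs, abs_of_pos (by positivity), div_mul_cancel₀ _ zk.ne',
      norm_neg, sub_neg_eq_add, add_comm _ z] at h1
    linarith

lemma adm_parts {p q : ℂ} {γ : Path p q} (h : Admissible a b γ) (ha : 0 < a) (hb : 0 < b) :
    ∃ U V : Set ℂ, IsOpen U ∧ IsOpen V ∧ IsPreconnected U ∧ IsPreconnected V ∧ Disjoint U V ∧
      U ∪ V = interior (ell a b) \ range γ ∧ volume.real U = π * a * b / 2 ∧
      volume.real V = π * a * b / 2 := by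
  obtain ⟨-, -, -, U, V, hne, him, -, -, vU, vV⟩ := h
  have oS : IsOpen (interior (ell a b) \ range γ) :=
    isOpen_interior.sdiff (isCompact_range γ.continuous).isClosed
  set S := interior (ell a b) \ range γ
  obtain ⟨x, hx, ex⟩ : U ∈ (fun z => connectedComponentIn S z) '' S := by rw [him]; simp
  obtain ⟨y, hy, ey⟩ : V ∈ (fun z => connectedComponentIn S z) '' S := by rw [him]; simp
  simp only at ex ey
  have hp : 0 ≤ π * a * b / 2 := by positivity
  refine ⟨U, V, ex ▸ oS.connectedComponentIn, ey ▸ oS.connectedComponentIn,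
    ex ▸ isPreconnected_connectedComponentIn, ey ▸ isPreconnected_connectedComponentIn, ?_, ?_,
    by rw [Measure.real, vU, ENNReal.toReal_ofReal hp],
    by rw [Measure.real, vV, ENNReal.toReal_ofReal hp]⟩
  · rw [disjoint_left]
    intro z h1 h2
    apply hne
    rw [← ex] at h1
    rw [← ey] at h2
    rw [← ex, ← ey, connectedComponentIn_eq h1, connectedComponentIn_eq h2]
  · apply subset_antisymm
    · exact union_subset (ex ▸ connectedComponentIn_subset _ _) (ey ▸ connectedComponentIn_subset _ _)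
    · intro z hz
      have h1 : connectedComponentIn S z ∈ ({U, V} : Set (Set ℂ)) := him ▸ ⟨z, hz, rfl⟩
      have h2 := mem_connectedComponentIn hz
      rcases h1 with e | e
      · exact Or.inl (e ▸ h2)
      · exact Or.inr (e ▸ h2)

lemma per_homothety {L : Set ℂ} (hL : IsCompact L) (nL : L.Nonempty) {l : ℝ} (hl : 0 ≤ l) (c : ℂ) :
    per ((fun z => (l : ℂ) * z + c) '' L) = l * per L := by
  have h : ∀ θ, hs ((fun z => (l : ℂ) * z + c) '' L) (ev θ) = l * hs L (ev θ) + dot (ev θ) c :=
    fun θ => hs_image hL nL (by fun_prop) hl fun z => by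
      rw [dot_add, ← dot_smul, Complex.real_smul]
  unfold per
  simp only [h]
  rw [intervalIntegral.integral_add ((ii_hs hL nL _ _).const_mul _)
    (by apply Continuous.intervalIntegrable; fun_prop), integral_dot_ev,
    intervalIntegral.integral_const_mul, add_zero]

/-- given the two components with `U` inside a convex set of the same area, the other component
is the outside. -/
lemma other_comp {K U V G : Set ℂ} (hK : IsCompact K) (cK : Convex ℝ K) (oU : IsOpen U)
    (oV : IsOpen V) (dj : Disjoint U V) (hUV : U ∪ V = interior (ell a b) \ G) (hG : G ⊆ K)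
    (hU : U ⊆ K) (nU : U.Nonempty) (hA : volume.real K ≤ volume.real U) :
    V = interior (ell a b) \ K := by
  have dK : ∀ z ∈ V, z ∉ K := by
    intro z hz hzK
    have h1 : z ∈ closure (interior K) := by
      rw [cK.closure_interior_eq_closure_of_nonempty_interior
        (nU.mono (interior_maximal hU oU))]
      exact subset_closure hzK
    have h2 := mem_closure_iff.1 h1 V oV hz
    have h3 : 0 < volume.real (V ∩ interior K) :=
      ENNReal.toReal_pos ((oV.inter isOpen_interior).measure_pos volume h2).ne'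
        ((measure_mono (inter_subset_right.trans interior_subset)).trans_lt hK.measure_lt_top).ne
    have h4 : volume.real (U ∪ V ∩ interior K) ≤ volume.real K :=
      measureReal_mono (union_subset hU (inter_subset_right.trans interior_subset))
        hK.measure_lt_top.ne
    rw [measureReal_union (dj.mono_right inter_subset_left)
      (oV.inter isOpen_interior).measurableSet ((measure_mono hU).trans_lt hK.measure_lt_top).ne
      ((measure_mono (inter_subset_right.trans interior_subset)).trans_lt hK.measure_lt_top).ne]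
      at h4
    linarith
  apply subset_antisymm
  · intro z hz
    have : z ∈ interior (ell a b) \ G := hUV ▸ Or.inr hz
    exact ⟨this.1, dK z hz⟩
  · intro z hz
    have : z ∈ U ∪ V := hUV ▸ ⟨hz.1, fun h => hz.2 (hG h)⟩
    exact this.resolve_left fun h => hz.2 (hU h)

end Pool.Agent.MP_7791e4_an

end

section

set_option autoImplicit false

namespace Pool.Agent.MP_7791e4_an

open Set MeasureTheory Real Metric Filter Topology Pointwise

variable {a b : ℝ}

lemma ev_lt {c : ℝ} (hc : 0 < c) : ∀ᶠ t : ℝ in 𝓝[>] 0, t < c := nhdsWithin_le_nhds (Iio_mem_nhds hc)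

lemma ev_pos : ∀ᶠ t : ℝ in 𝓝[>] 0, 0 < t := self_mem_nhdsWithin

lemma ev_neg {f : ℝ → ℝ} (hf : Continuous f) (h : f 0 < 0) : ∀ᶠ t : ℝ in 𝓝[>] 0, f t < 0 :=
  nhdsWithin_le_nhds (hf.continuousAt.eventually_lt continuousAt_const h)

lemma on_line (ha : 0 < a) (hb : 0 < b) {k1 k2 z : ℂ} (h1 : B a b k1 k1 = 1) (h2 : B a b k2 k2 = 1)
    (hne : k1 ≠ k2) (hz : z ∈ ell a b) (h : cross (k2 - k1) (z - k1) = 0) : z ∈ segment ℝ k1 k2 := by
  have n0 : 0 < ‖k2 - k1‖ ^ 2 := by
    have := norm_pos_iff.2 (sub_ne_zero.2 hne.symm); positivity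
  set s := dot (k2 - k1) (z - k1) / ‖k2 - k1‖ ^ 2 with hs
  have e : z = (1 - s) • k1 + s • k2 := by
    have hs' : s * ‖k2 - k1‖ ^ 2 = dot (k2 - k1) (z - k1) := by
      rw [hs]; exact div_mul_cancel₀ _ n0.ne'
    rw [sq_norm'] at hs' n0
    simp only [dot, cross, Complex.sub_re, Complex.sub_im] at hs' h n0
    apply Complex.ext
    · simp only [Complex.add_re, Complex.smul_re, smul_eq_mul]
      apply mul_right_cancel₀ n0.ne'
      linear_combination (-(k2.re - k1.re)) * hs' - (k2.im - k1.im) * h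
    · simp only [Complex.add_im, Complex.smul_im, smul_eq_mul]
      apply mul_right_cancel₀ n0.ne'
      linear_combination (-(k2.im - k1.im)) * hs' + (k2.re - k1.re) * h
  have q := mem_ell.1 hz
  rw [e, B_comb, h1, h2] at q
  have β := B_lt_one ha hb (mem_ell.2 h1.le) (mem_ell.2 h2.le) hne
  have : 0 ≤ s * (1 - s) := by
    by_contra hc
    push Not at hc
    nlinarith
  refine ⟨1 - s, s, ?_, ?_, by ring, e.symm⟩ <;> nlinarith

lemma caps (ha : 0 < a) (hb : 0 < b) {K : Set ℂ} (cK : Convex ℝ K)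
    (hc : IsPreconnected (interior (ell a b) \ K)) {k1 k2 : ℂ} (m1 : k1 ∈ K) (m2 : k2 ∈ K)
    (h1 : B a b k1 k1 = 1) (h2 : B a b k2 k2 = 1) (hne : k1 ≠ k2) :
    (∀ z ∈ interior (ell a b), cross (k2 - k1) (z - k1) ≤ 0 → z ∈ K) ∨
    (∀ z ∈ interior (ell a b), 0 ≤ cross (k2 - k1) (z - k1) → z ∈ K) := by
  have := hc.subset_or_subset (u := {z | 0 < cross (k2 - k1) (z - k1)})
    (v := {z | cross (k2 - k1) (z - k1) < 0}) (isOpen_lt continuous_const (by fun_prop))
    (isOpen_lt (by fun_prop) continuous_const)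
    (disjoint_left.2 fun z h h' => by simp only [mem_ofPred_eq] at h h'; linarith)
    (fun z hz => by
      rcases lt_trichotomy 0 (cross (k2 - k1) (z - k1)) with h | h | h
      · exact Or.inl h
      · exact absurd (cK.segment_subset m1 m2
          (on_line ha hb h1 h2 hne (interior_subset hz.1) h.symm)) hz.2
      · exact Or.inr h)
  rcases this with h | h
  · left
    intro z hz h'
    by_contra hK
    exact absurd (h ⟨hz, hK⟩) (not_lt.2 h')
  · right
    intro z hz h'
    by_contra hK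
    exact absurd (h ⟨hz, hK⟩) (not_lt.2 h')

lemma fin_int (hb : 0 < b) (hab : b ≤ a) {S : Set ℂ} (h : S ⊆ ell a b) : volume S ≠ ⊤ :=
  ((measure_mono h).trans_lt (isCompact_ell hb hab).measure_lt_top).ne

lemma half_le (hb : 0 < b) (hab : b ≤ a) (v : ℂ) :
    π * a * b / 2 ≤ volume.real {z | z ∈ interior (ell a b) ∧ 0 ≤ cross v z} := by
  have ha : 0 < a := by linarith
  set H := {z | z ∈ interior (ell a b) ∧ 0 ≤ cross v z}
  have fH : volume H ≠ ⊤ := fin_int hb hab fun z hz => interior_subset hz.1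
  have e := ar_mul (-1) 0 H
  have f2 : volume ((fun z : ℂ => -1 * z + 0) '' H) ≠ ⊤ := by
    rw [vol_mul]; exact ENNReal.mul_ne_top ENNReal.ofReal_ne_top fH
  have sub : interior (ell a b) ⊆ H ∪ (fun z : ℂ => -1 * z + 0) '' H := by
    intro z hz
    rcases le_total 0 (cross v z) with h | h
    · exact Or.inl ⟨hz, h⟩
    · refine Or.inr ⟨-z, ⟨?_, ?_⟩, by simp⟩
      · rw [mem_int] at hz ⊢; rwa [neg_B, B_neg, neg_neg]
      · simp only [cross, Complex.neg_re, Complex.neg_im] at h ⊢; linarith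
  have h1 := (measureReal_mono sub (measure_union_ne_top fH f2)).trans (measureReal_union_le _ _)
  rw [ar_interior convex_ell, ar_ell ha hb, e] at h1
  simp only [norm_neg, norm_one, one_pow, one_mul] at h1
  linarith

lemma cross_I (v : ℂ) : cross v (Complex.I * v) = ‖v‖ ^ 2 := by
  rw [sq_norm']; simp [cross]; ring

lemma cross_smul (u z : ℂ) (t : ℝ) : cross u (t • z) = t * cross u z := by simp [cross]; ring
lemma cross_add (u x y : ℂ) : cross u (x + y) = cross u x + cross u y := by simp [cross]; ring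
lemma cross_sub (u x y : ℂ) : cross u (x - y) = cross u x - cross u y := by simp [cross]; ring
lemma sub_cross (u x y : ℂ) : cross (x - y) u = cross x u - cross y u := by simp [cross]; ring
lemma cross_self (u : ℂ) : cross u u = 0 := by simp [cross]; ring
lemma cross_anti (u v : ℂ) : cross u v = -cross v u := by simp [cross]; ring

lemma big_cap (hb : 0 < b) (hab : b ≤ a) {v : ℂ} (hv : v ≠ 0) {κ : ℝ} (hκ : 0 < κ) :
    π * a * b / 2 < volume.real {z | z ∈ interior (ell a b) ∧ 0 ≤ cross v z + κ} := by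
  set H := {z | z ∈ interior (ell a b) ∧ 0 ≤ cross v z}
  set W := interior (ell a b) ∩ ({z | -κ < cross v z} ∩ {z | cross v z < 0})
  have oW : IsOpen W := isOpen_interior.inter
    ((isOpen_lt continuous_const (by fun_prop)).inter (isOpen_lt (by fun_prop) continuous_const))
  have n0 : 0 < ‖v‖ ^ 2 := by have := norm_pos_iff.2 hv; positivity
  have nW : W.Nonempty := by
    obtain ⟨t, t0, t1, t2⟩ := (ev_pos.and ((ev_lt (div_pos hκ n0)).and
      (ev_neg (f := fun t => B a b ((-t) • (Complex.I * v)) ((-t) • (Complex.I * v)) - 1)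
        (by fun_prop) (by simp)))).exists
    refine ⟨(-t) • (Complex.I * v), mem_int.2 (by linarith), ?_, ?_⟩
    · simp only [mem_ofPred_eq, cross_smul, cross_I]
      rw [lt_div_iff₀ n0] at t1; linarith
    · simp only [mem_ofPred_eq, cross_smul, cross_I]; nlinarith
  have fW : volume W ≠ ⊤ := fin_int hb hab fun z hz => interior_subset hz.1
  have pW : 0 < volume.real W := ENNReal.toReal_pos (oW.measure_pos volume nW).ne' fW
  have h1 : volume.real (H ∪ W) ≤ volume.real {z | z ∈ interior (ell a b) ∧ 0 ≤ cross v z + κ} :=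
    measureReal_mono (by
      rintro z (h | h)
      · exact ⟨h.1, by linarith [h.2]⟩
      · exact ⟨h.1, by have : -κ < cross v z := h.2.1
                       linarith⟩) (fin_int hb hab fun z hz => interior_subset hz.1)
  rw [measureReal_union (disjoint_left.2 fun z h h' => by
    have : cross v z < 0 := h'.2.2
    linarith [h.2]) oW.measurableSet (fin_int hb hab fun z hz => interior_subset hz.1) fW] at h1
  linarith [half_le hb hab v]

lemma small_cap (hb : 0 < b) (hab : b ≤ a) {K : Set ℂ} (hK : IsCompact K) (cK : Convex ℝ K)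
    (hA : volume.real K ≤ π * a * b / 2)
    (hc : IsPreconnected (interior (ell a b) \ K)) {k1 k2 : ℂ} (m1 : k1 ∈ K) (m2 : k2 ∈ K)
    (h1 : B a b k1 k1 = 1) (h2 : B a b k2 k2 = 1) (hx : 0 < cross k1 k2) :
    ∀ z ∈ interior (ell a b), cross (k2 - k1) (z - k1) ≤ 0 → z ∈ K := by
  have ha : 0 < a := by linarith
  have hne : k1 ≠ k2 := fun h => by rw [h, cross_self] at hx; exact lt_irrefl _ hx
  refine (caps ha hb cK hc m1 m2 h1 h2 hne).resolve_right fun h => ?_
  have h3 := big_cap hb hab (sub_ne_zero.2 hne.symm) hx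
  have h4 : volume.real {z | z ∈ interior (ell a b) ∧ 0 ≤ cross (k2 - k1) z + cross k1 k2}
      ≤ volume.real K := measureReal_mono (fun z hz => h z hz.1 (by
        have := hz.2
        rw [cross_sub, sub_cross k1, cross_self, cross_anti k2 k1]; linarith)) hK.measure_lt_top.ne
  linarith

lemma cross_tg (ha : 0 < a) (hb : 0 < b) (v p : ℂ) : cross v (tg a b p) = a * b * B a b v p := by
  simp only [cross, tg, B]; field_simp; ring

lemma cross_eq (ha : 0 < a) (hb : 0 < b) (p k : ℂ) : cross p k = a * b * B a b (tg a b p) k := by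
  simp only [cross, tg, B]; field_simp; ring

lemma cross_coord (ha : 0 < a) (hb : 0 < b) {p : ℂ} (hp : B a b p p = 1) (k k' : ℂ) :
    cross k k' = a * b * (B a b p k * B a b (tg a b p) k' - B a b (tg a b p) k * B a b p k') := by
  have h : p.re * p.re / a ^ 2 + p.im * p.im / b ^ 2 = 1 := hp
  have : cross k k' = cross k k' * (p.re * p.re / a ^ 2 + p.im * p.im / b ^ 2) := by rw [h, mul_one]
  rw [this]
  simp only [cross, tg, B]; field_simp; ring

lemma coord_sq (ha : 0 < a) (hb : 0 < b) {p : ℂ} (hp : B a b p p = 1) (k : ℂ) :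
    B a b k k = B a b p k ^ 2 + B a b (tg a b p) k ^ 2 := by
  conv_lhs => rw [decomp ha hb hp k]
  rw [B_coord ha hb hp]; ring

/-- a contact point on one side forces the normal cone at `p` to the other side. -/
lemma tangent_side (hb : 0 < b) (hab : b ≤ a) {K : Set ℂ} (hK : IsCompact K) (cK : Convex ℝ K)
    (hA : volume.real K ≤ π * a * b / 2) (hc : IsPreconnected (interior (ell a b) \ K))
    {p k : ℂ} (mp : p ∈ K) (mk : k ∈ K) (hp : B a b p p = 1) (hk : B a b k k = 1) {s : ℝ}
    (hs1 : s = 1 ∨ s = -1) (hx : 0 < s * cross p k) {u : ℂ} (hu : hs K u = dot u p) :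
    s * dot u (tg a b p) ≤ 0 := by
  have ha : 0 < a := by linarith
  have hne : k ≠ p := fun h => by rw [h, cross_self] at hx; simp at hx
  have β := B_lt_one ha hb (mem_ell.2 hk.le) (mem_ell.2 hp.le) hne
  have ct : cross (k - p) (tg a b p) < 0 := by
    rw [cross_tg ha hb, sub_B, hp]
    exact mul_neg_of_pos_of_neg (by positivity) (by linarith)
  have s2 : s * s = 1 := by rcases hs1 with h | h <;> rw [h] <;> norm_num
  have cap : ∀ z ∈ interior (ell a b), s * cross (k - p) (z - p) ≤ 0 → z ∈ K := by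
    intro z hz h
    rcases hs1 with e | e
    · rw [e, one_mul] at hx h
      exact small_cap hb hab hK cK hA hc mp mk hp hk hx z hz h
    · rw [e] at hx h
      apply small_cap hb hab hK cK hA hc mk mp hk hp (by rw [cross_anti]; linarith) z hz
      simp only [cross, Complex.sub_re, Complex.sub_im] at h ⊢
      linarith
  by_contra hcon
  push Not at hcon
  obtain ⟨t, t0, t1, t2, t3⟩ := (ev_pos.and ((ev_lt one_pos).and
    ((ev_neg (f := fun t => cross (k - p) (tg a b p) - t * (s * cross (k - p) p)) (by fun_prop)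
      (by simpa using ct)).and
    (ev_neg (f := fun t => t * dot u p - s * dot u (tg a b p)) (by fun_prop)
      (by simpa using hcon))))).exists
  have hz := cap ((1 - t ^ 2) • p + (s * t) • tg a b p) (by
    rw [mem_int, B_coord ha hb hp]
    have : 0 < t ^ 2 * (1 - t ^ 2) := mul_pos (by positivity) (by nlinarith)
    nlinarith) (by
    rw [show (1 - t ^ 2) • p + (s * t) • tg a b p - p = (-t ^ 2) • p + (s * t) • tg a b p by
      simp only [Complex.real_smul]; push_cast; ring, cross_add, cross_smul, cross_smul]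
    have : s * (-t ^ 2 * cross (k - p) p + s * t * cross (k - p) (tg a b p))
        = t * (cross (k - p) (tg a b p) - t * (s * cross (k - p) p)) := by
      linear_combination (t * cross (k - p) (tg a b p)) * s2
    rw [this]
    nlinarith)
  have h3 := le_hs hK hz u
  rw [hu, dot_add, dot_smul, dot_smul] at h3
  nlinarith

lemma ext_alg {x y X Y : ℝ} (h1 : x ^ 2 + y ^ 2 = 1) (h2 : X ^ 2 + Y ^ 2 = 1) (y0 : 0 ≤ y)
    (Y0 : 0 ≤ Y) (h : X ≤ x) : 0 ≤ x * Y - y * X := by
  rcases le_total 0 X with c | c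
  · have : y ≤ Y := le_of_sq_le_sq (by nlinarith) Y0
    nlinarith
  rcases le_total 0 x with d | d
  · nlinarith [mul_nonneg d Y0, mul_nonneg y0 (neg_nonneg.2 c)]
  · have : Y ≤ y := le_of_sq_le_sq (by nlinarith) y0
    nlinarith

/-- if contact points lie on both sides of `p` and there is no antipodal pair, the contact set
lies in an open half plane through the centre. -/
lemma exists_dir (hb : 0 < b) (hab : b ≤ a) {K : Set ℂ} (hK : IsCompact K) (cK : Convex ℝ K)
    (hA : volume.real K ≤ π * a * b / 2) (hc : IsPreconnected (interior (ell a b) \ K))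
    {p : ℂ} (mp : p ∈ K) (hp : B a b p p = 1)
    (anti : ∀ k ∈ K, B a b k k = 1 → -k ∉ K)
    {k1 k2 : ℂ} (m1 : k1 ∈ K) (m2 : k2 ∈ K) (h1 : B a b k1 k1 = 1) (h2 : B a b k2 k2 = 1)
    (c1 : 0 < cross p k1) (c2 : cross p k2 < 0) :
    ∃ W : ℂ, ∀ k ∈ K, B a b k k = 1 → 0 < B a b k W := by
  have ha : 0 < a := by linarith
  have hab' : 0 < a * b := by positivity
  set T := tg a b p with hT
  let x : ℂ → ℝ := fun k => B a b p k
  let y : ℂ → ℝ := fun k => B a b T k
  have sq : ∀ k, B a b k k = 1 → x k ^ 2 + y k ^ 2 = 1 := fun k hk => by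
    rw [← hk, coord_sq ha hb hp k]
  have xp : x p = 1 := hp
  have yp : y p = 0 := by simp only [y, hT]; rw [B_comm, B_tg ha hb]
  have pair : ∀ k ∈ K, ∀ k' ∈ K, B a b k k = 1 → B a b k' k' = 1 → 0 < y k → y k' < 0 →
      0 < x k' * y k - y k' * x k := by
    intro k mk k' mk' hk hk' y1 y2
    have s1 := sq k hk
    have s2 := sq k' hk'
    rcases lt_trichotomy 0 (x k' * y k - y k' * x k) with h | h | h
    · exact h
    · exfalso
      apply anti k mk hk
      have e1 : (x k * x k' + y k * y k') ^ 2 = 1 := by nlinarith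
      have e2 : y k = (x k * x k' + y k * y k') * y k' := by
        linear_combination (-(y k)) * s2 - (x k') * h
      have e3 : x k * x k' + y k * y k' = -1 := by
        have : (x k * x k' + y k * y k' - 1) * (x k * x k' + y k * y k' + 1) = 0 := by
          linear_combination e1
        rcases mul_eq_zero.1 this with e | e
        · have : x k * x k' + y k * y k' = 1 := by linarith
          rw [this] at e2; linarith
        · linarith
      have e4 : y k' = -y k := by rw [e3] at e2; linarith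
      have e5 : x k' = -x k := by nlinarith
      have : -k = k' := by
        rw [decomp ha hb hp k, decomp ha hb hp k']
        show -(x k • p + y k • T) = x k' • p + y k' • T
        rw [e4, e5]; simp [add_comm]
      rw [this]; exact mk'
    · exfalso
      apply anti p mp hp
      have cap := small_cap hb hab hK cK hA hc mk mk' hk hk' (by
        rw [cross_coord ha hb hp]
        exact mul_pos hab' (by show 0 < x k * y k' - y k * x k'; linarith))
      have x1 : 0 < 1 + x k := by nlinarith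
      have x2 : 0 < 1 + x k' := by nlinarith
      have neg : cross (k' - k) (-p - k) < 0 := by
        rw [cross_coord ha hb hp]
        apply mul_neg_of_pos_of_neg hab'
        rw [B_sub, B_sub, B_sub, B_sub, B_neg, B_neg]
        show (x k' - x k) * (-y p - y k) - (y k' - y k) * (-x p - x k) < 0
        rw [xp, yp]
        nlinarith [mul_pos y1 x2, mul_pos (neg_pos.2 y2) x1]
      have lim : Tendsto (fun t : ℝ => (1 - t) • (-p)) (𝓝[>] 0) (𝓝 (-p)) := by
        have : Continuous fun t : ℝ => (1 - t) • (-p) := by fun_prop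
        simpa using (this.tendsto 0).mono_left nhdsWithin_le_nhds
      apply hK.isClosed.mem_of_tendsto lim
      filter_upwards [ev_pos, ev_lt one_pos,
        ev_neg (f := fun t => cross (k' - k) ((1 - t) • (-p) - k)) (by fun_prop) (by simpa using neg)]
        with t t0 t1 t2
      apply cap _ _ t2.le
      rw [mem_int, smul_B, B_smul, neg_B, B_neg, hp]
      nlinarith
  have kG : IsCompact (K ∩ {k | B a b k k = 1}) :=
    hK.inter_right (isClosed_eq (by fun_prop) continuous_const)
  obtain ⟨P, ⟨⟨mP, hP⟩, yP⟩, minP⟩ := (kG.inter_right (t := {k | 0 ≤ y k})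
    (isClosed_le continuous_const (by fun_prop))).exists_isMinOn ⟨p, ⟨mp, hp⟩, yp.ge⟩
    (f := x) (by fun_prop)
  obtain ⟨M, ⟨⟨mM, hM⟩, yM⟩, minM⟩ := (kG.inter_right (t := {k | y k ≤ 0})
    (isClosed_le (by fun_prop) continuous_const)).exists_isMinOn ⟨p, ⟨mp, hp⟩, yp.le⟩
    (f := x) (by fun_prop)
  simp only [mem_ofPred_eq] at hP yP hM yM
  have y1 : 0 < y k1 := by rw [cross_eq ha hb] at c1; exact (mul_pos_iff_of_pos_left hab').1 c1
  have y2 : y k2 < 0 := by
    rw [cross_eq ha hb] at c2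
    by_contra h
    exact absurd c2 (not_lt.2 (mul_nonneg hab'.le (not_lt.1 h)))
  have one : ∀ k ∈ K, B a b k k = 1 → y k = 0 → x k = 1 := by
    intro k mk hk h0
    have s := sq k hk
    rw [h0] at s
    have : (x k - 1) * (x k + 1) = 0 := by linear_combination s
    rcases mul_eq_zero.1 this with e | e
    · linarith
    · exfalso
      apply anti p mp hp
      have : -p = k := by
        rw [decomp ha hb hp k]
        show -p = x k • p + y k • T
        rw [h0, show x k = -1 by linarith]; simp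
      rw [this]; exact mk
  have yP' : 0 < y P := by
    refine lt_of_le_of_ne yP fun h => ?_
    have e1 := one P mP hP h.symm
    have e2 : x P ≤ x k1 := minP ⟨⟨m1, h1⟩, y1.le⟩
    have := sq k1 h1
    nlinarith
  have yM' : y M < 0 := by
    refine lt_of_le_of_ne yM fun h => ?_
    have e1 := one M mM hM h
    have e2 : x M ≤ x k2 := minM ⟨⟨m2, h2⟩, y2.le⟩
    have := sq k2 h2
    nlinarith
  refine ⟨(y P - y M) • p + (x M - x P) • T, fun k mk hk => ?_⟩
  rw [B_add, B_smul, B_smul, B_comm k p, B_comm k T]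
  show 0 < (y P - y M) * x k + (x M - x P) * y k
  rcases lt_trichotomy 0 (y k) with h | h | h
  · have e1 := pair k mk M mM hk hM h yM'
    have e2 := ext_alg (sq k hk) (sq P hP) h.le yP (minP ⟨⟨mk, hk⟩, h.le⟩)
    linarith
  · rw [← h, one k mk hk h.symm]; linarith
  · have e1 := pair P mP k mk hP hk yP' h
    have e2 := ext_alg (x := x k) (y := -y k) (X := x M) (Y := -y M) (by rw [neg_sq]; exact sq k hk)
      (by rw [neg_sq]; exact sq M hM) (by linarith) (by linarith) (minM ⟨⟨mk, hk⟩, h.le⟩)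
    linarith

end Pool.Agent.MP_7791e4_an

end
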