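import Mathlib

section

/-! Signed vertex sets, mod 2 chains, circuits. -/

namespace Pool.Agent.MP_d539bc_co

open Finset
open scoped Pointwise

/-- A fixed point free involution written as negation. -/
class FreeNeg (V : Type) extends InvolutiveNeg V where
  neg_ne : ∀ x : V, -x ≠ x

variable {V : Type} [Fintype V] [DecidableEq V] [FreeNeg V]

omit [Fintype V] [DecidableEq V] in
lemma neg_ne' (x : V) : -x ≠ x := FreeNeg.neg_ne x

omit [Fintype V] [DecidableEq V] in
lemma ne_neg' (x : V) : x ≠ -x := (FreeNeg.neg_ne x).symm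

/-- antipodal free -/
def AF (F : Finset V) : Prop := ∀ x ∈ F, -x ∉ F

/-- graph of a single clique together with its antipode -/
def kq (Q : Finset V) (x y : V) : Prop := x ≠ y ∧ ((x ∈ Q ∧ y ∈ Q) ∨ (-x ∈ Q ∧ -y ∈ Q))

/-- symmetric graph of a family of faces -/
def gr (T : Finset (Finset V)) (x y : V) : Prop := ∃ F ∈ T, kq F x y

/-- cross polytope graph -/
def oct (Q : Finset V) (x y : V) : Prop :=
  x ≠ y ∧ x ≠ -y ∧ (x ∈ Q ∨ -x ∈ Q) ∧ (y ∈ Q ∨ -y ∈ Q)

def vs (T : Finset (Finset V)) : Finset V := T.biUnion id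

def Clique (G : V → V → Prop) (Q : Finset V) : Prop := ∀ a ∈ Q, ∀ b ∈ Q, a ≠ b → G a b

/-- symmetric graphs -/
structure SG (G : V → V → Prop) : Prop where
  symm : ∀ {x y}, G x y → G y x
  neg : ∀ {x y}, G x y → G (-x) (-y)
  ne : ∀ {x y}, G x y → x ≠ y
  ne_neg : ∀ {x y}, G x y → x ≠ -y

omit [Fintype V] [FreeNeg V] in
@[simp] lemma mem_vs {T : Finset (Finset V)} {x : V} : x ∈ vs T ↔ ∃ F ∈ T, x ∈ F := by
  simp [vs]

omit [Fintype V] [DecidableEq V] in
lemma AF.mono {F G : Finset V} (h : AF G) (hs : F ⊆ G) : AF F :=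
  fun x hx hx' => h x (hs hx) (hs hx')

omit [Fintype V] in
lemma AF.neg {F : Finset V} (h : AF F) : AF (-F) := by
  intro x hx hx'
  rw [Finset.mem_neg'] at hx hx'
  exact h _ hx hx'

omit [Fintype V] in
lemma AF.insert {F : Finset V} (h : AF F) {x : V} (hx : -x ∉ F) : AF (insert x F) := by
  intro y hy hy'
  rw [mem_insert] at hy hy'
  rcases hy with rfl | hy
  · rcases hy' with h1 | h1
    · exact neg_ne' _ h1
    · exact hx h1
  · rcases hy' with h1 | h1
    · apply hx; rw [← h1, neg_neg]; exact hy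
    · exact h y hy h1

omit [Fintype V] [DecidableEq V] in
lemma sg_kq {Q : Finset V} (h : AF Q) : SG (kq Q) where
  symm := fun ⟨h1, h2⟩ => ⟨h1.symm, by tauto⟩
  neg := fun ⟨h1, h2⟩ => ⟨by simpa using h1, by simp only [neg_neg]; tauto⟩
  ne := fun h => h.1
  ne_neg := by
    rintro x y ⟨-, h2 | h2⟩ rfl
    · exact h _ h2.2 h2.1
    · exact h _ h2.1 (by simpa using h2.2)

omit [Fintype V] [DecidableEq V] in
lemma sg_oct (Q : Finset V) : SG (oct Q) where
  symm := fun ⟨h1, h2, h3, h4⟩ => ⟨h1.symm, fun h => h2 (by rw [h, neg_neg]), h4, h3⟩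
  neg := fun ⟨h1, h2, h3, h4⟩ =>
    ⟨by simpa using h1, by simpa using fun h => h2 (by rw [← h, neg_neg]),
      by simp only [neg_neg]; tauto, by simp only [neg_neg]; tauto⟩
  ne := fun h => h.1
  ne_neg := fun h => h.2.1

omit [Fintype V] [DecidableEq V] in
lemma sg_gr {T : Finset (Finset V)} (h : ∀ F ∈ T, AF F) : SG (gr T) where
  symm := fun ⟨F, hF, h1⟩ => ⟨F, hF, (sg_kq (h F hF)).symm h1⟩
  neg := fun ⟨F, hF, h1⟩ => ⟨F, hF, (sg_kq (h F hF)).neg h1⟩
  ne := fun ⟨F, hF, h1⟩ => (sg_kq (h F hF)).ne h1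
  ne_neg := fun ⟨F, hF, h1⟩ => (sg_kq (h F hF)).ne_neg h1

omit [Fintype V] [DecidableEq V] in
lemma SG.sup {G H : V → V → Prop} (hG : SG G) (hH : SG H) : SG (G ⊔ H) where
  symm := fun h => h.imp hG.symm hH.symm
  neg := fun h => h.imp hG.neg hH.neg
  ne := fun h => h.elim hG.ne hH.ne
  ne_neg := fun h => h.elim hG.ne_neg hH.ne_neg

omit [Fintype V] [DecidableEq V] in
lemma SG.neg' {G : V → V → Prop} (hG : SG G) {x y : V} (h : G (-x) (-y)) : G x y := by
  simpa using hG.neg h

omit [Fintype V] [DecidableEq V] in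
lemma SG.neg_left {G : V → V → Prop} (hG : SG G) {x y : V} (h : G (-x) y) : G x (-y) := by
  simpa using hG.neg h

omit [Fintype V] [DecidableEq V] in
lemma SG.neg_right {G : V → V → Prop} (hG : SG G) {x y : V} (h : G x (-y)) : G (-x) y := by
  simpa using hG.neg h

omit [Fintype V] [DecidableEq V] in
lemma Clique.af {G : V → V → Prop} (hG : SG G) {Q : Finset V} (h : Clique G Q) : AF Q := by
  intro x hx hx'
  exact hG.ne_neg (h x hx (-x) hx' (ne_neg' x)) (by simp)

omit [Fintype V] in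
lemma Clique.neg {G : V → V → Prop} (hG : SG G) {Q : Finset V} (h : Clique G Q) :
    Clique G (-Q) := by
  intro a ha b hb hab
  rw [Finset.mem_neg'] at ha hb
  exact hG.neg' (h _ ha _ hb (by simpa using hab))

omit [Fintype V] [DecidableEq V] [FreeNeg V] in
lemma Clique.mono {G H : V → V → Prop} (hGH : G ≤ H) {Q : Finset V} (h : Clique G Q) :
    Clique H Q := fun a ha b hb hab => hGH _ _ (h a ha b hb hab)

omit [Fintype V] [DecidableEq V] in
lemma kq_le_of_clique {G : V → V → Prop} (hG : SG G) {Q : Finset V} (h : Clique G Q) :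
    kq Q ≤ G := by
  rintro a b ⟨hab, h1 | h1⟩
  · exact h _ h1.1 _ h1.2 hab
  · exact hG.neg' (h _ h1.1 _ h1.2 (by simpa using hab))

omit [Fintype V] [DecidableEq V] in
lemma clique_kq (Q : Finset V) : Clique (kq Q) Q := fun _ ha _ hb hab => ⟨hab, Or.inl ⟨ha, hb⟩⟩

omit [Fintype V] [DecidableEq V] in
lemma clique_gr {T : Finset (Finset V)} {F : Finset V} (hF : F ∈ T) : Clique (gr T) F :=
  fun _ ha _ hb hab => ⟨F, hF, hab, Or.inl ⟨ha, hb⟩⟩

omit [Fintype V] in
lemma kq_neg (Q : Finset V) : kq (-Q) = kq Q := by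
  funext a b
  simp only [kq, Finset.mem_neg', neg_neg]
  apply propext; tauto

omit [Fintype V] [DecidableEq V] in
lemma kq_mono {Q Q' : Finset V} (h : Q ⊆ Q') : kq Q ≤ kq Q' := by
  rintro a b ⟨hab, h1 | h1⟩
  · exact ⟨hab, Or.inl ⟨h h1.1, h h1.2⟩⟩
  · exact ⟨hab, Or.inr ⟨h h1.1, h h1.2⟩⟩

/-! ### chains mod 2 -/

def bd (c : Finset V → ZMod 2) (R : Finset V) : ZMod 2 := ∑ z ∈ Rᶜ, c (insert z R)

def ind (T : Finset (Finset V)) (F : Finset V) : ZMod 2 := if F ∈ T then 1 else 0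

def Cyc (T : Finset (Finset V)) : Prop := bd (ind T) = 0

structure Good (d : ℕ) (T : Finset (Finset V)) : Prop where
  card : ∀ F ∈ T, F.card = d
  af : ∀ F ∈ T, AF F

structure Circ (d : ℕ) (T : Finset (Finset V)) : Prop extends Good d T where
  nonempty : T.Nonempty
  cyc : Cyc T
  min : ∀ S ⊆ T, S.Nonempty → Cyc S → S = T

lemma zmod2_add_self (a : ZMod 2) : a + a = 0 := by revert a; decide
lemma zmod2_ne_zero {a : ZMod 2} (h : a ≠ 0) : a = 1 := by revert a; decide
lemma zmod2_eq_of_add {a b : ZMod 2} (h : a + b = 0) : a = b := by revert a b; decide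

omit [FreeNeg V] in
lemma bd_add (c c' : Finset V → ZMod 2) : bd (c + c') = bd c + bd c' := by
  funext R; simp [bd, sum_add_distrib]

omit [FreeNeg V] in
lemma bd_zero : bd (0 : Finset V → ZMod 2) = 0 := by
  funext R; simp [bd]

omit [FreeNeg V] in
lemma bd_sum {ι : Type} (s : Finset ι) (c : ι → Finset V → ZMod 2) :
    bd (∑ i ∈ s, c i) = ∑ i ∈ s, bd (c i) := by
  classical
  induction s using Finset.induction_on with
  | empty => simp [bd_zero]
  | insert a s ha ih => rw [sum_insert ha, sum_insert ha, bd_add, ih]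

omit [FreeNeg V] in
lemma bd_bd (c : Finset V → ZMod 2) : bd (bd c) = 0 := by
  funext R
  simp only [bd, Pi.zero_apply]
  have h1 : ∀ z ∈ Rᶜ, ∑ w ∈ (insert z R)ᶜ, c (insert w (insert z R))
      = ∑ w ∈ Rᶜ, if w = z then 0 else c (insert w (insert z R)) := by
    intro z hz
    rw [compl_insert, ← Finset.add_sum_erase _ _ hz]
    simp only [if_true, zero_add]
    apply sum_congr rfl
    intro w hw
    rw [if_neg (ne_of_mem_erase hw)]
  rw [sum_congr rfl h1, ← sum_product']
  apply Finset.sum_involution (fun e _ => e.swap)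
  · rintro ⟨a, b⟩ _
    simp only [Prod.swap, Prod.fst, Prod.snd]
    by_cases hab : b = a
    · subst hab; simp
    · rw [if_neg hab, if_neg (Ne.symm hab), Finset.insert_comm]
      exact zmod2_add_self _
  · rintro ⟨a, b⟩ _ h heq
    apply h
    have : b = a := by simpa using congrArg Prod.fst heq
    simp [this]
  · rintro ⟨a, b⟩ _; rfl
  · rintro ⟨a, b⟩ h
    simp only [mem_product] at h ⊢
    exact ⟨h.2, h.1⟩

omit [FreeNeg V] in
lemma bd_single (σ : Finset V) :
    bd (Pi.single σ 1) = ∑ r ∈ σ, Pi.single (σ.erase r) (1 : ZMod 2) := by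
  funext R
  simp only [bd, Finset.sum_apply, Pi.single_apply]
  rw [← Finset.sum_filter, ← Finset.sum_filter]
  congr 1
  ext z
  simp only [mem_filter, mem_compl]
  constructor
  · rintro ⟨h1, rfl⟩
    exact ⟨mem_insert_self _ _, (erase_insert h1).symm⟩
  · rintro ⟨h1, rfl⟩
    exact ⟨notMem_erase _ _, insert_erase h1⟩

omit [Fintype V] [FreeNeg V] in
lemma ind_eq_sum (T : Finset (Finset V)) : ind T = ∑ F ∈ T, Pi.single F (1 : ZMod 2) := by
  funext R
  simp only [ind, Finset.sum_apply, Pi.single_apply]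
  rw [Finset.sum_ite_eq]

omit [Fintype V] [FreeNeg V] in
lemma ind_union {S T : Finset (Finset V)} (h : Disjoint S T) : ind (S ∪ T) = ind S + ind T := by
  rw [ind_eq_sum, ind_eq_sum, ind_eq_sum, sum_union h]

omit [Fintype V] [FreeNeg V] in
lemma ind_ne_zero {T : Finset (Finset V)} {F : Finset V} : ind T F ≠ 0 ↔ F ∈ T := by
  unfold ind; split_ifs with h <;> simp [h]

omit [FreeNeg V] in
lemma Cyc.other {T : Finset (Finset V)} (h : Cyc T) {F : Finset V} (hF : F ∈ T) {y : V}
    (hy : y ∈ F) : ∃ z, z ∉ F ∧ insert z (F.erase y) ∈ T := by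
  by_contra hcon
  push Not at hcon
  have h1 := congrFun h (F.erase y)
  simp only [bd, Pi.zero_apply] at h1
  rw [Finset.sum_eq_single y] at h1
  · rw [insert_erase hy] at h1
    simp [ind, hF] at h1
  · intro z hz hzy
    have : z ∉ F := by
      intro hzF
      exact (mem_compl.1 hz) (mem_erase.2 ⟨hzy, hzF⟩)
    simp [ind, hcon z this]
  · intro hy'
    exact absurd (mem_compl.2 (notMem_erase _ _)) hy'

omit [FreeNeg V] in
lemma Cyc.filter {T : Finset (Finset V)} (h : Cyc T) (P : Finset V → Prop) [DecidablePred P]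
    (hP : ∀ (R : Finset V) (z z' : V), z ∉ R → z' ∉ R → insert z R ∈ T → insert z' R ∈ T →
      P (insert z R) → P (insert z' R)) : Cyc (T.filter P) := by
  funext R
  simp only [bd, Pi.zero_apply]
  by_cases hex : ∃ z, z ∉ R ∧ insert z R ∈ T ∧ P (insert z R)
  · obtain ⟨z, hz, hzT, hzP⟩ := hex
    have h1 := congrFun h R
    simp only [bd, Pi.zero_apply] at h1
    rw [← h1]
    apply sum_congr rfl
    intro w hw
    simp only [ind, mem_filter]
    by_cases hw' : insert w R ∈ T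
    · simp [hw', hP R z w hz (mem_compl.1 hw) hzT hw' hzP]
    · simp [hw']
  · push Not at hex
    apply sum_eq_zero
    intro w hw
    simp only [ind, mem_filter]
    rw [if_neg]
    rintro ⟨h1, h2⟩
    exact hex w (mem_compl.1 hw) h1 h2

/-- strong connectivity of circuits -/
lemma Circ.conn {d : ℕ} {T : Finset (Finset V)} (h : Circ d T) (P : Finset V → Prop)
    (h0 : ∃ F ∈ T, P F)
    (hP : ∀ (R : Finset V) (z z' : V), z ∉ R → z' ∉ R → insert z R ∈ T → insert z' R ∈ T →
      P (insert z R) → P (insert z' R)) : ∀ F ∈ T, P F := by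
  classical
  have := h.min (T.filter P) (filter_subset _ _)
    (by obtain ⟨F, h1, h2⟩ := h0; exact ⟨F, mem_filter.2 ⟨h1, h2⟩⟩) (h.cyc.filter P hP)
  intro F hF
  rw [← this] at hF
  exact (mem_filter.1 hF).2

end Pool.Agent.MP_d539bc_co

end

section

/-! Symmetric edge contraction and the Fogelsanger decomposition. -/

namespace Pool.Agent.MP_d539bc_co

open Finset
open scoped Pointwise

variable {V : Type} [Fintype V] [DecidableEq V] [FreeNeg V]

def kap (u v x : V) : V := if x = v then u else if x = -v then -u else x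

def deg (u v : V) (F : Finset V) : Prop := (u ∈ F ∧ v ∈ F) ∨ (-u ∈ F ∧ -v ∈ F)

instance (u v : V) : DecidablePred (deg u v) := fun F => by unfold deg; infer_instance

def nd (u v : V) (T : Finset (Finset V)) : Finset (Finset V) := T.filter (fun F => ¬ deg u v F)

def NoX (u v : V) (F : Finset V) : Prop := ¬ (u ∈ F ∧ -v ∈ F) ∧ ¬ (-u ∈ F ∧ v ∈ F)

omit [Fintype V] in
@[simp] lemma kap_v (u v : V) : kap u v v = u := by simp [kap]

omit [Fintype V] in
@[simp] lemma kap_negv (u v : V) : kap u v (-v) = -u := by simp [kap, neg_ne']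

omit [Fintype V] in
lemma kap_of_ne {u v x : V} (h1 : x ≠ v) (h2 : x ≠ -v) : kap u v x = x := by simp [kap, h1, h2]

omit [Fintype V] in
lemma kap_neg (u v x : V) : kap u v (-x) = - kap u v x := by
  by_cases h1 : x = v
  · subst h1; simp
  by_cases h2 : x = -v
  · subst h2; simp
  rw [kap_of_ne h1 h2, kap_of_ne]
  · intro h; apply h2; rw [← h, neg_neg]
  · simpa using h1

omit [Fintype V] in
lemma kap_negneg (u v : V) : kap (-u) (-v) = kap u v := by
  funext x
  by_cases h1 : x = v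
  · subst h1; simpa using kap_negv (-u) (-x)
  by_cases h2 : x = -v
  · subst h2; simp
  rw [kap_of_ne h1 h2, kap_of_ne h2 (by simpa using h1)]

omit [Fintype V] in
lemma kap_cases (u v x : V) :
    (x = v ∧ kap u v x = u) ∨ (x = -v ∧ kap u v x = -u) ∨ (x ≠ v ∧ x ≠ -v ∧ kap u v x = x) := by
  by_cases h1 : x = v
  · subst h1; simp
  by_cases h2 : x = -v
  · subst h2; simp
  exact Or.inr (Or.inr ⟨h1, h2, kap_of_ne h1 h2⟩)

omit [Fintype V] in
lemma kap_ne_v {u v : V} (h1 : u ≠ v) (h2 : u ≠ -v) (x : V) : kap u v x ≠ v := by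
  rcases kap_cases u v x with ⟨-, h⟩ | ⟨-, h⟩ | ⟨h3, -, h⟩ <;> rw [h]
  · exact h1
  · intro h'; apply h2; rw [← h', neg_neg]
  · exact h3

omit [Fintype V] in
lemma kap_ne_negv {u v : V} (h1 : u ≠ v) (h2 : u ≠ -v) (x : V) : kap u v x ≠ -v := by
  intro h
  apply kap_ne_v h1 h2 (-x)
  rw [kap_neg, h, neg_neg]

omit [Fintype V] in
lemma kap_u {u v : V} (h1 : u ≠ v) (h2 : u ≠ -v) : kap u v u = u := kap_of_ne h1 h2

omit [Fintype V] in
lemma eq_of_kap_eq {u v x y : V} (h : kap u v x = y) (h1 : y ≠ u) (h2 : y ≠ -u) : x = y := by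
  rcases kap_cases u v x with ⟨-, h'⟩ | ⟨-, h'⟩ | ⟨-, -, h'⟩
  · exact absurd (h.symm.trans h') h1
  · exact absurd (h.symm.trans h') h2
  · exact h'.symm.trans h

omit [Fintype V] in
lemma kap_eq_u {u v x : V} (h : kap u v x = u) : x = u ∨ x = v := by
  rcases kap_cases u v x with ⟨h0, -⟩ | ⟨-, h'⟩ | ⟨-, -, h'⟩
  · exact Or.inr h0
  · exact absurd (h'.symm.trans h) (neg_ne' u)
  · exact Or.inl (h'.symm.trans h)

omit [Fintype V] in
lemma kap_eq_negu {u v x : V} (h : kap u v x = -u) : x = -u ∨ x = -v := by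
  have : kap u v (-x) = u := by rw [kap_neg, h, neg_neg]
  rcases kap_eq_u this with h | h
  · left; rw [← h, neg_neg]
  · right; rw [← h, neg_neg]

omit [Fintype V] [DecidableEq V] in
lemma deg_negneg (u v : V) : deg (-u) (-v) = deg u v := by
  funext F; simp only [deg, neg_neg]; apply propext; tauto

omit [Fintype V] in
lemma nd_negneg (u v : V) (T : Finset (Finset V)) : nd (-u) (-v) T = nd u v T := by
  ext F; simp only [nd, mem_filter, deg_negneg]

omit [Fintype V] [DecidableEq V] in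
lemma NoX_negneg (u v : V) (F : Finset V) : NoX (-u) (-v) F ↔ NoX u v F := by
  simp only [NoX, neg_neg]; tauto

omit [Fintype V] in
lemma mem_nd {u v : V} {T : Finset (Finset V)} {F : Finset V} :
    F ∈ nd u v T ↔ F ∈ T ∧ ¬ deg u v F := by simp [nd]

omit [Fintype V] in
lemma image_kap_of_mem {u v : V} {F : Finset V} (hF : AF F) (hv : v ∈ F) :
    F.image (kap u v) = insert u (F.erase v) := by
  ext y
  simp only [mem_image, mem_insert, mem_erase]
  constructor
  · rintro ⟨x, hx, rfl⟩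
    rcases kap_cases u v x with ⟨-, h⟩ | ⟨h0, -⟩ | ⟨h3, -, h⟩
    · exact Or.inl h
    · exact absurd (h0 ▸ hx) (hF v hv)
    · right; rw [h]; exact ⟨h3, hx⟩
  · rintro (rfl | ⟨h1, h2⟩)
    · exact ⟨v, hv, kap_v _ _⟩
    · exact ⟨y, h2, kap_of_ne h1 (fun h => hF v hv (h ▸ h2))⟩

omit [Fintype V] in
lemma image_kap_of_not_mem {u v : V} {F : Finset V} (hv : v ∉ F) (hv' : -v ∉ F) :
    F.image (kap u v) = F := by
  conv_rhs => rw [← Finset.image_id (s := F)]
  apply image_congr
  intro x hx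
  exact kap_of_ne (fun h => hv (h ▸ hx)) (fun h => hv' (h ▸ hx))

omit [Fintype V] in
lemma image_kap_good1 {u v : V} {F : Finset V} (hF : AF F) (hn : ¬ deg u v F) (hx : NoX u v F)
    (hv : v ∈ F) : (F.image (kap u v)).card = F.card ∧ AF (F.image (kap u v)) := by
  have hu : u ∉ F := fun h => hn (Or.inl ⟨h, hv⟩)
  have hu' : -u ∉ F := fun h => hx.2 ⟨h, hv⟩
  rw [image_kap_of_mem hF hv]
  refine ⟨?_, ?_⟩
  · rw [card_insert_of_notMem (fun h => hu (mem_of_mem_erase h)), card_erase_add_one hv]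
  · exact (hF.mono (erase_subset _ _)).insert (fun h => hu' (mem_of_mem_erase h))

omit [Fintype V] in
lemma image_kap_good {u v : V} {F : Finset V} (hF : AF F) (hn : ¬ deg u v F) (hx : NoX u v F) :
    (F.image (kap u v)).card = F.card ∧ AF (F.image (kap u v)) := by
  by_cases hv : v ∈ F
  · exact image_kap_good1 hF hn hx hv
  by_cases hv' : -v ∈ F
  · rw [← kap_negneg]
    exact image_kap_good1 hF (by rwa [deg_negneg]) (by rwa [NoX_negneg]) hv'
  rw [image_kap_of_not_mem hv hv']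
  exact ⟨rfl, hF⟩

/-- half of the degenerate part of the prism -/
def dg1 (u v : V) (F : Finset V) : Finset V → ZMod 2 :=
  if v ∈ F then ∑ r ∈ F.erase v, Pi.single (insert u (F.erase r)) 1 else 0

def dg (u v : V) (F : Finset V) : Finset V → ZMod 2 := dg1 u v F + dg1 (-u) (-v) F

lemma prism1 {u v : V} {F : Finset V} (hF : AF F) (hn : ¬ deg u v F) (hv : v ∈ F) :
    bd (Pi.single F 1 + Pi.single (F.image (kap u v)) 1 + dg1 u v F) = 0 := by
  have hu : u ∉ F := fun h => hn (Or.inl ⟨h, hv⟩)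
  have : Pi.single F 1 + Pi.single (F.image (kap u v)) 1 + dg1 u v F
      = bd (Pi.single (insert u F) (1 : ZMod 2)) := by
    rw [bd_single, sum_insert hu, erase_insert hu, image_kap_of_mem hF hv, dg1, if_pos hv,
      ← Finset.add_sum_erase F _ hv, add_assoc]
    congr 2
    · congr 1
      rw [erase_insert_of_ne]
      rintro rfl; exact hu hv
    · apply sum_congr rfl
      intro r hr
      congr 1
      rw [erase_insert_of_ne]
      rintro rfl; exact hu (mem_of_mem_erase hr)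
  rw [this, bd_bd]

lemma prism {u v : V} {F : Finset V} (hF : AF F) (hn : ¬ deg u v F) :
    bd (Pi.single F 1 + Pi.single (F.image (kap u v)) 1 + dg u v F) = 0 := by
  by_cases hv : v ∈ F
  · have : dg1 (-u) (-v) F = 0 := by simp [dg1, hF v hv]
    rw [dg, this, add_zero]
    exact prism1 hF hn hv
  have h0 : dg1 u v F = 0 := by simp [dg1, hv]
  by_cases hv' : -v ∈ F
  · rw [dg, h0, zero_add, ← kap_negneg]
    exact prism1 hF (by rwa [deg_negneg]) hv'
  have h1 : dg1 (-u) (-v) F = 0 := by simp [dg1, hv']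
  rw [dg, h0, h1, image_kap_of_not_mem hv hv']
  have : (Pi.single F 1 + Pi.single F 1 + (0 + 0) : Finset V → ZMod 2) = 0 := by
    funext R; simp [zmod2_add_self]
  rw [this, bd_zero]

omit [Fintype V] in
lemma dg1_supp {u v : V} {F D : Finset V} (hF : AF F) (hn : ¬ deg u v F) (hx : NoX u v F)
    (h : dg1 u v F D ≠ 0) : (u ∈ D ∧ v ∈ D) ∧ D.card = F.card ∧ AF D := by
  unfold dg1 at h
  split_ifs at h with hv
  · rw [Finset.sum_apply] at h
    obtain ⟨r, hr, h1⟩ := exists_ne_zero_of_sum_ne_zero h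
    have hD : D = insert u (F.erase r) := by
      by_contra hne
      exact h1 (Pi.single_eq_of_ne hne _)
    have hu : u ∉ F := fun h => hn (Or.inl ⟨h, hv⟩)
    have hu' : -u ∉ F := fun h => hx.2 ⟨h, hv⟩
    subst hD
    refine ⟨⟨mem_insert_self _ _, mem_insert_of_mem (mem_erase.2 ⟨?_, hv⟩)⟩, ?_, ?_⟩
    · exact (ne_of_mem_erase hr).symm
    · rw [card_insert_of_notMem (fun h => hu (mem_of_mem_erase h)),
        card_erase_add_one (mem_of_mem_erase hr)]
    · exact (hF.mono (erase_subset _ _)).insert (fun h => hu' (mem_of_mem_erase h))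
  · simp at h

omit [Fintype V] in
lemma dg_supp {u v : V} {F D : Finset V} (hF : AF F) (hn : ¬ deg u v F) (hx : NoX u v F)
    (h : dg u v F D ≠ 0) : deg u v D ∧ D.card = F.card ∧ AF D := by
  by_cases h1 : dg1 u v F D = 0
  · have h2 : dg1 (-u) (-v) F D ≠ 0 := by
      intro h2; apply h; simp [dg, h1, h2]
    have := dg1_supp hF (by rwa [deg_negneg]) (by rwa [NoX_negneg]) h2
    exact ⟨Or.inr this.1, this.2⟩
  · have := dg1_supp hF hn hx h1
    exact ⟨Or.inl this.1, this.2⟩

lemma degzero1 {u v : V} (huv : u ≠ v) {c : Finset V → ZMod 2}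
    (hc : ∀ D, c D ≠ 0 → deg u v D ∧ AF D) (hb : ∀ R, v ∈ R → bd c R = 0) {D : Finset V}
    (hu : u ∈ D) (hv : v ∈ D) : c D = 0 := by
  have hvR : v ∈ D.erase u := mem_erase.2 ⟨huv.symm, hv⟩
  have h1 := hb _ hvR
  unfold bd at h1
  rw [Finset.sum_eq_single u] at h1
  · rwa [insert_erase hu] at h1
  · intro z _ hzu
    by_contra hne
    obtain ⟨h2 | h2, h3⟩ := hc _ hne
    · rcases mem_insert.1 h2.1 with h | h
      · exact hzu h.symm
      · exact notMem_erase _ _ h
    · exact h3 v (mem_insert_of_mem hvR) h2.2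
  · intro h
    exact absurd (mem_compl.2 (notMem_erase _ _)) h

lemma degzero {u v : V} (huv : u ≠ v) {c : Finset V → ZMod 2}
    (hc : ∀ D, c D ≠ 0 → deg u v D ∧ AF D) (hb : ∀ R, v ∈ R ∨ -v ∈ R → bd c R = 0) : c = 0 := by
  funext D
  by_contra hne
  rcases (hc D hne).1 with h | h
  · exact hne (degzero1 huv hc (fun R hR => hb R (Or.inl hR)) h.1 h.2)
  · exact hne (degzero1 (u := -u) (v := -v) (by simpa using huv) (by rwa [deg_negneg])
      (fun R hR => hb R (Or.inr hR)) h.1 h.2)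

def kc (u v : V) (S : Finset (Finset V)) : Finset V → ZMod 2 :=
  ∑ F ∈ S, Pi.single (F.image (kap u v)) 1

def Dg (u v : V) (S : Finset (Finset V)) : Finset V → ZMod 2 := ∑ F ∈ S, dg u v F

def fill (u v : V) (S : Finset (Finset V)) : Finset (Finset V) :=
  univ.filter (fun D => Dg u v S D ≠ 0)

def KCyc (u v : V) (S : Finset (Finset V)) : Prop := bd (kc u v S) = 0

/-- admissible families of nondegenerate faces -/
structure Adm (d : ℕ) (u v : V) (S : Finset (Finset V)) : Prop extends Good d S where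
  nd : ∀ F ∈ S, ¬ deg u v F
  nox : ∀ F ∈ S, NoX u v F

omit [Fintype V] [DecidableEq V] in
lemma Adm.mono {d : ℕ} {u v : V} {S S' : Finset (Finset V)} (h : Adm d u v S) (hs : S' ⊆ S) :
    Adm d u v S' :=
  ⟨⟨fun F hF => h.card F (hs hF), fun F hF => h.af F (hs hF)⟩, fun F hF => h.nd F (hs hF),
    fun F hF => h.nox F (hs hF)⟩

lemma ind_fill (u v : V) (S : Finset (Finset V)) : ind (fill u v S) = Dg u v S := by
  funext D
  simp only [ind, fill, mem_filter, mem_univ, true_and]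
  split_ifs with h
  · exact (zmod2_ne_zero h).symm
  · simpa using (not_not.1 h).symm

lemma mem_fill {u v : V} {S : Finset (Finset V)} {D : Finset V} :
    D ∈ fill u v S ↔ Dg u v S D ≠ 0 := by simp [fill]

lemma fill_good {d : ℕ} {u v : V} {S : Finset (Finset V)} (h : Adm d u v S) {D : Finset V}
    (hD : D ∈ fill u v S) : deg u v D ∧ D.card = d ∧ AF D := by
  rw [mem_fill, Dg, Finset.sum_apply] at hD
  obtain ⟨F, hF, h1⟩ := exists_ne_zero_of_sum_ne_zero hD
  have := dg_supp (h.af F hF) (h.nd F hF) (h.nox F hF) h1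
  rwa [h.card F hF] at this

lemma prism_sum {d : ℕ} {u v : V} {S : Finset (Finset V)} (h : Adm d u v S) :
    bd (ind S) + bd (kc u v S) + bd (Dg u v S) = 0 := by
  rw [← bd_add, ← bd_add, ind_eq_sum, kc, Dg, ← sum_add_distrib, ← sum_add_distrib, bd_sum]
  exact sum_eq_zero (fun F hF => prism (h.af F hF) (h.nd F hF))

lemma bd_kc_of_mem {u v : V} (h1 : u ≠ v) (h2 : u ≠ -v) (S : Finset (Finset V)) {R : Finset V}
    (hR : v ∈ R ∨ -v ∈ R) : bd (kc u v S) R = 0 := by
  unfold bd
  apply sum_eq_zero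
  intro z _
  rw [kc, Finset.sum_apply]
  apply sum_eq_zero
  intro F _
  apply Pi.single_eq_of_ne
  intro h
  rcases hR with hR | hR
  · have : v ∈ F.image (kap u v) := h ▸ mem_insert_of_mem hR
    obtain ⟨x, -, hx⟩ := mem_image.1 this
    exact kap_ne_v h1 h2 x hx
  · have : -v ∈ F.image (kap u v) := h ▸ mem_insert_of_mem hR
    obtain ⟨x, -, hx⟩ := mem_image.1 this
    exact kap_ne_negv h1 h2 x hx

omit [Fintype V] in
lemma adm_nd {d : ℕ} {u v : V} {Y : Finset (Finset V)} (hY : Good d Y)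
    (hx : ∀ F ∈ Y, NoX u v F) : Adm d u v (nd u v Y) :=
  ⟨⟨fun F hF => hY.card F (mem_nd.1 hF).1, fun F hF => hY.af F (mem_nd.1 hF).1⟩,
    fun _ hF => (mem_nd.1 hF).2, fun F hF => hx F (mem_nd.1 hF).1⟩

/-- Lemma A -/
lemma lemA {d : ℕ} {u v : V} (h1 : u ≠ v) (h2 : u ≠ -v) {Y : Finset (Finset V)} (hY : Good d Y)
    (hc : Cyc Y) (hx : ∀ F ∈ Y, NoX u v F) :
    KCyc u v (nd u v Y) ∧ fill u v (nd u v Y) = Y.filter (deg u v) := by
  have hA := adm_nd hY hx
  have hp := prism_sum hA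
  have hsplit : ind Y = ind (nd u v Y) + ind (Y.filter (deg u v)) := by
    rw [← ind_union, nd, union_comm, filter_union_filter_not_eq]
    rw [nd]; exact (disjoint_filter_filter_not Y Y (deg u v)).symm
  have hc' : bd (ind (nd u v Y)) + bd (ind (Y.filter (deg u v))) = 0 := by
    rw [← bd_add, ← hsplit]; exact hc
  have key : ∀ R, bd (ind (Y.filter (deg u v)) + Dg u v (nd u v Y)) R
      = bd (kc u v (nd u v Y)) R := by
    intro R
    have e1 := congrFun hp R
    have e2 := congrFun hc' R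
    rw [bd_add]
    simp only [Pi.add_apply, Pi.zero_apply] at e1 e2 ⊢
    revert e1 e2
    generalize bd (ind (nd u v Y)) R = a
    generalize bd (kc u v (nd u v Y)) R = b
    generalize bd (Dg u v (nd u v Y)) R = c
    generalize bd (ind (Y.filter (deg u v))) R = e
    revert a b c e; decide
  have hz : ind (Y.filter (deg u v)) + Dg u v (nd u v Y) = 0 := by
    apply degzero h1
    · intro D hD
      by_cases h3 : D ∈ Y.filter (deg u v)
      · exact ⟨(mem_filter.1 h3).2, hY.af D (mem_filter.1 h3).1⟩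
      · have : D ∈ fill u v (nd u v Y) := by
          rw [mem_fill]; intro h4; apply hD; simp only [Pi.add_apply, ind, h3, h4]; simp
        have := fill_good hA this
        exact ⟨this.1, this.2.2⟩
    · intro R hR
      rw [key, bd_kc_of_mem h1 h2 _ hR]
  refine ⟨?_, ?_⟩
  · funext R
    rw [← key, hz, bd_zero]
  · ext D
    rw [mem_fill, ← ind_ne_zero]
    have := congrFun hz D
    simp only [Pi.add_apply, Pi.zero_apply] at this
    rw [zmod2_eq_of_add this]

def plus (u v : V) (S : Finset (Finset V)) : Finset (Finset V) := S ∪ fill u v S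

lemma disj_fill {d : ℕ} {u v : V} {S : Finset (Finset V)} (h : Adm d u v S) :
    Disjoint S (fill u v S) :=
  disjoint_left.2 (fun F hF hF' => h.nd F hF (fill_good h hF').1)

lemma plus_cyc {d : ℕ} {u v : V} {S : Finset (Finset V)} (h : Adm d u v S) (hk : KCyc u v S) :
    Cyc (plus u v S) := by
  unfold Cyc plus
  rw [ind_union (disj_fill h), bd_add, ind_fill]
  have := prism_sum h
  rwa [hk, add_zero] at this

lemma plus_good {d : ℕ} {u v : V} {S : Finset (Finset V)} (h : Adm d u v S) :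
    Good d (plus u v S) :=
  ⟨fun F hF => (mem_union.1 hF).elim (h.card F) (fun h' => (fill_good h h').2.1),
    fun F hF => (mem_union.1 hF).elim (h.af F) (fun h' => (fill_good h h').2.2)⟩

omit [Fintype V] [DecidableEq V] in
lemma nox_of_deg {u v : V} {D : Finset V} (h : deg u v D) (hD : AF D) : NoX u v D := by
  rcases h with h | h
  · exact ⟨fun h' => hD v h.2 h'.2, fun h' => hD u h.1 h'.1⟩
  · exact ⟨fun h' => hD u h'.1 h.1, fun h' => hD v h'.2 h.2⟩

lemma plus_nox {d : ℕ} {u v : V} {S : Finset (Finset V)} (h : Adm d u v S) :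
    ∀ F ∈ plus u v S, NoX u v F :=
  fun F hF => (mem_union.1 hF).elim (h.nox F)
    (fun h' => nox_of_deg (fill_good h h').1 (fill_good h h').2.2)

lemma nd_plus {d : ℕ} {u v : V} {S : Finset (Finset V)} (h : Adm d u v S) :
    nd u v (plus u v S) = S := by
  ext F
  rw [mem_nd, plus, mem_union]
  constructor
  · rintro ⟨h1 | h1, h2⟩
    · exact h1
    · exact absurd (fill_good h h1).1 h2
  · intro h1; exact ⟨Or.inl h1, h.nd F h1⟩

lemma plus_nd {d : ℕ} {u v : V} (h1 : u ≠ v) (h2 : u ≠ -v) {Y : Finset (Finset V)} (hY : Good d Y)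
    (hc : Cyc Y) (hx : ∀ F ∈ Y, NoX u v F) : plus u v (nd u v Y) = Y := by
  rw [plus, (lemA h1 h2 hY hc hx).2, nd, union_comm, filter_union_filter_not_eq]

lemma plus_empty (u v : V) : plus u v (∅ : Finset (Finset V)) = ∅ := by
  ext D; simp [plus, mem_fill, Dg]

/-- a ridge of a degenerate face missing `v` lies in a nondegenerate face -/
lemma deg_ridge {d : ℕ} {u v : V} {Y : Finset (Finset V)} (hY : Good d Y)
    (hc : Cyc Y) {D : Finset V} (hD : D ∈ Y) (huv : u ≠ v) (hu : u ∈ D) (hv : v ∈ D) :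
    ∃ F ∈ nd u v Y, D.erase v ⊆ F := by
  obtain ⟨z, hz, hF⟩ := hc.other hD hv
  refine ⟨_, mem_nd.2 ⟨hF, ?_⟩, subset_insert _ _⟩
  have hu' : u ∈ insert z (D.erase v) := mem_insert_of_mem (mem_erase.2 ⟨huv, hu⟩)
  rintro (h | h)
  · rcases mem_insert.1 h.2 with h' | h'
    · exact hz (h' ▸ hv)
    · exact notMem_erase _ _ h'
  · exact hY.af _ hF u hu' h.1

omit [Fintype V] [DecidableEq V] in
lemma deg_comm (u v : V) : deg u v = deg v u := by
  funext F; simp only [deg]; apply propext; tauto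

omit [Fintype V] in
lemma nd_comm (u v : V) (T : Finset (Finset V)) : nd u v T = nd v u T := by
  ext F; simp only [mem_nd, deg_comm u v]

/-- two vertices of a face, other than the contracted pair, lie in a nondegenerate face -/
lemma pair_nd1 {d : ℕ} {u v : V} {Y : Finset (Finset V)} (hY : Good d Y)
    (hc : Cyc Y) {D : Finset V} (hD : D ∈ Y) (huv : u ≠ v) (hu : u ∈ D) (hv : v ∈ D)
    {a b : V} (ha : a ∈ D) (hb : b ∈ D) :
    (∃ F ∈ nd u v Y, a ∈ F ∧ b ∈ F) ∨ (a = u ∧ b = v) ∨ (a = v ∧ b = u) := by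
  by_cases h1 : a ≠ v ∧ b ≠ v
  · obtain ⟨F, hF, hs⟩ := deg_ridge hY hc hD huv hu hv
    exact Or.inl ⟨F, hF, hs (mem_erase.2 ⟨h1.1, ha⟩), hs (mem_erase.2 ⟨h1.2, hb⟩)⟩
  by_cases h2 : a ≠ u ∧ b ≠ u
  · obtain ⟨F, hF, hs⟩ := deg_ridge hY hc hD huv.symm hv hu
    rw [← nd_comm] at hF
    exact Or.inl ⟨F, hF, hs (mem_erase.2 ⟨h2.1, ha⟩), hs (mem_erase.2 ⟨h2.2, hb⟩)⟩
  right
  by_cases h3 : a = v
  · by_cases h4 : b = u
    · exact Or.inr ⟨h3, h4⟩
    · exfalso; apply h2; exact ⟨by rw [h3]; exact huv.symm, h4⟩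
  · have h5 : b = v := by by_contra h; exact h1 ⟨h3, h⟩
    left
    refine ⟨?_, h5⟩
    by_contra h; apply h2; exact ⟨h, by rw [h5]; exact huv.symm⟩

lemma pair_nd {d : ℕ} {u v : V} {Y : Finset (Finset V)} (hY : Good d Y)
    (hc : Cyc Y) {D : Finset V} (hD : D ∈ Y) (huv : u ≠ v)
    {a b : V} (ha : a ∈ D) (hb : b ∈ D) :
    (∃ F ∈ nd u v Y, a ∈ F ∧ b ∈ F) ∨ (a = u ∧ b = v) ∨ (a = v ∧ b = u) ∨
      (a = -u ∧ b = -v) ∨ (a = -v ∧ b = -u) := by
  by_cases hd : deg u v D
  · rcases hd with h | h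
    · rcases pair_nd1 hY hc hD huv h.1 h.2 ha hb with h | h | h
      · exact Or.inl h
      · exact Or.inr (Or.inl h)
      · exact Or.inr (Or.inr (Or.inl h))
    · have := pair_nd1 hY hc hD (by simpa using huv) h.1 h.2 ha hb
      rw [nd_negneg] at this
      rcases this with h | h | h
      · exact Or.inl h
      · exact Or.inr (Or.inr (Or.inr (Or.inl h)))
      · exact Or.inr (Or.inr (Or.inr (Or.inr h)))
  · exact Or.inl ⟨D, mem_nd.2 ⟨hD, hd⟩, ha, hb⟩

lemma vs_nd {d : ℕ} {u v : V} {Y : Finset (Finset V)} (hY : Good d Y)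
    (hc : Cyc Y) (huv : u ≠ v) : vs (nd u v Y) = vs Y := by
  ext a
  simp only [mem_vs]
  constructor
  · rintro ⟨F, hF, h⟩; exact ⟨F, (mem_nd.1 hF).1, h⟩
  · rintro ⟨D, hD, ha⟩
    rcases pair_nd hY hc hD huv ha ha with ⟨F, hF, h, -⟩ | h | h | h | h
    · exact ⟨F, hF, h⟩
    · exact absurd (h.1.symm.trans h.2) huv
    · exact absurd (h.2.symm.trans h.1) huv
    · exact absurd (neg_injective (h.1.symm.trans h.2)) huv
    · exact absurd (neg_injective (h.2.symm.trans h.1)) huv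

lemma gr_nd {d : ℕ} {u v : V} {Y : Finset (Finset V)} (hY : Good d Y)
    (hc : Cyc Y) (huv : u ≠ v) (hdeg : ∃ D ∈ Y, deg u v D) :
    gr Y = gr (nd u v Y) ⊔ kq {u, v} := by
  have key : ∀ D ∈ Y, ∀ a ∈ D, ∀ b ∈ D, a ≠ b → (gr (nd u v Y) ⊔ kq {u, v}) a b := by
    intro D hD a ha b hb hab
    rcases pair_nd hY hc hD huv ha hb with ⟨F, hF, h⟩ | h | h | h | h
    · exact Or.inl ⟨F, hF, hab, Or.inl h⟩
    all_goals
      right
      refine ⟨hab, ?_⟩
      simp [h.1, h.2]
  have hsg : SG (gr (nd u v Y) ⊔ kq {u, v}) := by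
    apply (sg_gr (fun F hF => hY.af F (mem_nd.1 hF).1)).sup (sg_kq _)
    obtain ⟨D, hD, h | h⟩ := hdeg
    · exact (hY.af D hD).mono (by intro x; simp; rintro (rfl | rfl) <;> tauto)
    · exact (hY.af D hD).neg.mono (by intro x; simp [Finset.mem_neg']; rintro (rfl | rfl) <;> tauto)
  apply le_antisymm
  · rintro a b ⟨D, hD, h⟩
    exact kq_le_of_clique hsg (key D hD) a b h
  · apply sup_le
    · rintro a b ⟨F, hF, h⟩; exact ⟨F, (mem_nd.1 hF).1, h⟩
    · obtain ⟨D, hD, h | h⟩ := hdeg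
      · intro a b hab
        exact ⟨D, hD, kq_mono (by intro x; simp; rintro (rfl | rfl) <;> tauto) a b hab⟩
      · intro a b hab
        refine ⟨D, hD, ?_⟩
        rw [← kq_neg]
        exact kq_mono (by intro x; simp [Finset.mem_neg']; rintro (rfl | rfl) <;> tauto) a b hab

end Pool.Agent.MP_d539bc_co

end

section

/-! Symmetric graphs built by simplicial additions. -/

namespace Pool.Agent.MP_d539bc_co

open Finset
open scoped Pointwise

variable {V : Type} [DecidableEq V] [FreeNeg V] {d : ℕ}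

structure AddS (d : ℕ) (G : V → V → Prop) (Q : Finset V) (x : V) : Prop where
  sg : SG G
  card : Q.card = d
  clique : Clique G Q
  iso : ∀ y, ¬ G x y
  notin : x ∉ Q
  negnotin : -x ∉ Q

inductive Built (d : ℕ) : Bool → (V → V → Prop) → Prop
  | baseA (Q : Finset V) : AF Q → Q.card = d → Built d false (kq Q)
  | baseB (Q : Finset V) : AF Q → Q.card = d → Built d true (oct Q)
  | add (f : Bool) (G : V → V → Prop) (Q : Finset V) (x : V) : Built d f G → AddS d G Q x →
      Built d f (G ⊔ kq (insert x Q))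

namespace AddS

variable {G : V → V → Prop} {Q : Finset V} {x : V} (h : AddS d G Q x)
include h

lemma af : AF (insert x Q) := (h.clique.af h.sg).insert h.negnotin

lemma sg' : SG (G ⊔ kq (insert x Q)) := h.sg.sup (sg_kq h.af)

omit [DecidableEq V] in
lemma ne_of_adj {a b : V} (hab : G a b) : a ≠ x ∧ a ≠ -x ∧ b ≠ x ∧ b ≠ -x := by
  refine ⟨?_, ?_, ?_, ?_⟩ <;> rintro rfl
  · exact h.iso _ hab
  · exact h.iso _ (h.sg.neg_left hab)
  · exact h.iso _ (h.sg.symm hab)
  · exact h.iso _ (h.sg.neg_left (h.sg.symm hab))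

lemma nbr {y : V} : (G ⊔ kq (insert x Q)) x y ↔ y ∈ Q := by
  constructor
  · rintro (h1 | ⟨h1, h2 | h2⟩)
    · exact absurd h1 (h.iso y)
    · exact (mem_insert.1 h2.2).resolve_left h1.symm
    · exact absurd h2.1 (h.af x (mem_insert_self _ _))
  · intro hy
    exact Or.inr ⟨fun e => h.notin (e ▸ hy), Or.inl ⟨mem_insert_self _ _, mem_insert_of_mem hy⟩⟩

lemma old {a b : V} (hab : (G ⊔ kq (insert x Q)) a b) (h1 : a ≠ x) (h2 : a ≠ -x) (h3 : b ≠ x)
    (h4 : b ≠ -x) : G a b := by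
  rcases hab with hab | ⟨hab, h5 | h5⟩
  · exact hab
  · exact h.clique a ((mem_insert.1 h5.1).resolve_left h1) b
      ((mem_insert.1 h5.2).resolve_left h3) hab
  · exact h.sg.neg' (h.clique _ ((mem_insert.1 h5.1).resolve_left (fun e => h2 (by rw [← e, neg_neg])))
      _ ((mem_insert.1 h5.2).resolve_left (fun e => h4 (by rw [← e, neg_neg]))) (by simpa using hab))

lemma neg : AddS d G (-Q) (-x) where
  sg := h.sg
  card := by rw [card_neg, h.card]
  clique := h.clique.neg h.sg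
  iso := fun y hy => h.iso _ (h.sg.neg_left hy)
  notin := by simpa [Finset.mem_neg'] using h.notin
  negnotin := by simpa [Finset.mem_neg'] using h.negnotin

omit h in
lemma kq_neg_insert (Q : Finset V) (x : V) : kq (insert (-x) (-Q)) = kq (insert x Q) := by
  rw [← kq_neg (insert x Q)]; congr 1; ext y; simp [Finset.mem_neg', neg_eq_iff_eq_neg]

lemma wlog (u : V) : ∃ Q' x', AddS d G Q' x' ∧ kq (insert x Q) = kq (insert x' Q') ∧
    -u ∉ insert x' Q' := by
  by_cases hu : -u ∈ insert x Q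
  · refine ⟨-Q, -x, h.neg, (kq_neg_insert Q x).symm, ?_⟩
    have := h.af _ hu
    simpa [Finset.mem_neg'] using this
  · exact ⟨Q, x, h, rfl, hu⟩

end AddS

lemma Built.sg {f : Bool} {G : V → V → Prop} (h : Built d f G) : SG G := by
  induction h with
  | baseA Q hQ _ => exact sg_kq hQ
  | baseB Q _ _ => exact sg_oct Q
  | add f G Q x _ h _ => exact h.sg'

omit [DecidableEq V] in
lemma kq_nbr {Q : Finset V} (hQ : AF Q) {u a b : V} (ha : kq Q u a) (hb : kq Q u b)
    (hab : a ≠ b) : kq Q a b := by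
  refine ⟨hab, ?_⟩
  rcases ha.2 with ha | ha <;> rcases hb.2 with hb | hb
  · exact Or.inl ⟨ha.2, hb.2⟩
  · exact absurd hb.1 (hQ u ha.1)
  · exact absurd ha.1 (hQ u hb.1)
  · exact Or.inr ⟨ha.2, hb.2⟩

lemma card_le_of_pm {S Q : Finset V} (hS : AF S) (h : ∀ x ∈ S, x ∈ Q ∨ -x ∈ Q) :
    S.card ≤ Q.card := by
  apply card_le_card_of_injOn (fun x => if x ∈ Q then x else -x)
  · intro x hx
    have := h x hx
    by_cases h1 : x ∈ Q
    · simp [h1]
    · simpa [h1] using this
  · intro x hx y hy hxy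
    simp only at hxy
    split_ifs at hxy with h1 h2 h2
    · exact hxy
    · exact absurd (show -y ∈ S from hxy ▸ hx) (hS y hy)
    · exact absurd (show -x ∈ S from hxy ▸ hy) (hS x hx)
    · exact neg_injective hxy

theorem Built.conn (hd : 3 ≤ d) {f : Bool} {G : V → V → Prop} (h : Built d f G) (u : V) :
    ∀ (A B : V → Prop) (R : Finset V), R.card + 2 ≤ d → (∀ y, G u y → A y ∨ B y ∨ y ∈ R) →
      (∀ a, A a → G u a) → (∀ b, B b → G u b) → (∀ a b, A a → B b → a ≠ b ∧ ¬ G a b) →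
      ∀ a b, A a → B b → False := by
  induction h with
  | baseA Q hQ _ =>
    intro A B R _ _ hA hB hAB a b ha hb
    exact (hAB a b ha hb).2 (kq_nbr hQ (hA a ha) (hB b hb) (hAB a b ha hb).1)
  | baseB Q hQ hc =>
    intro A B R hR hN hA hB hAB a b ha hb
    have key : ∀ a b, A a → B b → a = -b := by
      intro a b ha hb
      by_contra hne
      exact (hAB a b ha hb).2 ⟨(hAB a b ha hb).1, hne, (hA a ha).2.2.2, (hB b hb).2.2.2⟩
    have hab := key a b ha hb
    let Q' := Q.filter (fun y => y ≠ u ∧ y ≠ -u ∧ y ≠ a ∧ y ≠ -a)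
    have h1 : ∀ y, (y ∈ Q' ∨ -y ∈ Q') → y ∈ R := by
      intro y hy
      have hy' : (y ∈ Q ∨ -y ∈ Q) ∧ y ≠ u ∧ y ≠ -u ∧ y ≠ a ∧ y ≠ -a := by
        rcases hy with hy | hy
        · exact ⟨Or.inl (mem_filter.1 hy).1, (mem_filter.1 hy).2⟩
        · obtain ⟨e0, e1, e2, e3, e4⟩ := mem_filter.1 hy
          exact ⟨Or.inr e0, by simpa using e2, fun e => e1 (by rw [e, neg_neg]),
            by simpa using e4, fun e => e3 (by rw [e, neg_neg])⟩
      have : oct Q u y := ⟨hy'.2.1.symm, fun e => hy'.2.2.1 (by rw [e, neg_neg]),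
        (hA a ha).2.2.1, hy'.1⟩
      rcases hN y this with h' | h' | h'
      · exact absurd ((key y b h' hb).trans hab.symm) hy'.2.2.2.1
      · exact absurd (by rw [key a y ha h', neg_neg]) hy'.2.2.2.2
      · exact h'
    have h2 : (Q' ∪ -Q').card ≤ R.card := by
      apply card_le_card
      intro y hy
      apply h1
      simpa [Finset.mem_neg'] using hy
    have hQ' : AF Q' := hQ.mono (filter_subset _ _)
    rw [card_union_of_disjoint (disjoint_left.2 (fun y hy hy' =>
      hQ' y hy (Finset.mem_neg'.1 hy'))), card_neg] at h2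
    have h3 : (Q \ Q').card ≤ ({u, a} : Finset V).card := by
      apply card_le_of_pm (hQ.mono sdiff_subset)
      intro x hx
      obtain ⟨e1, e2⟩ := mem_sdiff.1 hx
      simp only [Q', mem_filter, e1, true_and] at e2
      simp only [mem_insert, mem_singleton, neg_eq_iff_eq_neg]
      tauto
    have h4 : (Q \ Q').card + Q'.card = Q.card :=
      card_sdiff_add_card_eq_card (filter_subset _ Q : Q' ⊆ Q)
    have h5 : ({u, a} : Finset V).card ≤ 2 := card_le_two
    omega
  | add f G Q x _ hS ih =>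
    obtain ⟨Q, x, hS, e, hu⟩ := hS.wlog u
    rw [e]
    have hsg := hS.sg'
    have hnx : ¬ (G ⊔ kq (insert x Q)) u (-x) := fun h =>
      hu (mem_insert_of_mem (hS.nbr.1 (hsg.symm (hsg.neg_right h))))
    have hux' : u ≠ -x := by rintro rfl; exact hu (by simp)
    by_cases hux : u = x
    · subst hux
      intro A B R _ _ hA hB hAB a b ha hb
      exact (hAB a b ha hb).2
        (Or.inl (hS.clique a (hS.nbr.1 (hA a ha)) b (hS.nbr.1 (hB b hb)) (hAB a b ha hb).1))
    have aux : ∀ (A B : V → Prop) (R : Finset V), R.card + 2 ≤ d →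
        (∀ y, (G ⊔ kq (insert x Q)) u y → A y ∨ B y ∨ y ∈ R) →
        (∀ a, A a → (G ⊔ kq (insert x Q)) u a) → (∀ b, B b → (G ⊔ kq (insert x Q)) u b) →
        (∀ a b, A a → B b → a ≠ b ∧ ¬ (G ⊔ kq (insert x Q)) a b) → ¬ B x →
        ∀ a b, A a → B b → False := by
      intro A B R hR hN hA hB hAB hBx a b ha hb
      have hih := ih (fun y => A y ∧ y ≠ x) B R hR
        (fun y hy => by
          have := hN y (Or.inl hy)
          have := (hS.ne_of_adj hy).2.2.1
          tauto)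
        (fun a ha => hS.old (hA a ha.1) hux hux' ha.2 (fun e => hnx (e ▸ hA a ha.1)))
        (fun b hb => hS.old (hB b hb) hux hux' (fun e => hBx (e ▸ hb)) (fun e => hnx (e ▸ hB b hb)))
        (fun a b ha hb => ⟨(hAB a b ha.1 hb).1, fun h => (hAB a b ha.1 hb).2 (Or.inl h)⟩)
      have hA' : ∀ a, A a → a = x := by
        intro a ha
        by_contra hne
        exact hih a b ⟨ha, hne⟩ hb
      have hax := hA' a ha
      subst hax
      have huQ : u ∈ Q := hS.nbr.1 (hsg.symm (hA a ha))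
      obtain ⟨q, hq, hqR⟩ : ∃ q ∈ Q.erase u, q ∉ R := by
        apply exists_mem_notMem_of_card_lt_card
        rw [card_erase_of_mem huQ, hS.card]; omega
      have hqQ := mem_of_mem_erase hq
      rcases hN q (Or.inl (hS.clique u huQ q hqQ (ne_of_mem_erase hq).symm)) with h' | h' | h'
      · exact hS.notin (hA' q h' ▸ hqQ)
      · exact (hAB a q ha h').2 (hS.nbr.2 hqQ)
      · exact hqR h'
    intro A B R hR hN hA hB hAB a b ha hb
    by_cases hBx : B x
    · exact aux B A R hR (fun y hy => by have := hN y hy; tauto) hB hA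
        (fun b a hb ha => ⟨(hAB a b ha hb).1.symm, fun h => (hAB a b ha hb).2 (hsg.symm h)⟩)
        (fun hAx => (hAB x x hAx hBx).1 rfl) b a hb ha
    · exact aux A B R hR hN hA hB hAB hBx a b ha hb

theorem Built.rename {f : Bool} {G : V → V → Prop} (h : Built d f G) (σ : V ≃ V)
    (hσ : ∀ x, σ (-x) = -σ x) : Built d f (fun a b => G (σ a) (σ b)) := by
  have hm : ∀ (Q : Finset V) x, x ∈ Q.map σ.symm.toEmbedding ↔ σ x ∈ Q := by
    intro Q x; rw [mem_map_equiv]; rfl
  have haf : ∀ Q : Finset V, AF Q → AF (Q.map σ.symm.toEmbedding) := by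
    intro Q hQ x hx; rw [hm] at hx ⊢; rw [hσ]; exact hQ _ hx
  have hkq : ∀ Q : Finset V, (fun a b => kq Q (σ a) (σ b)) = kq (Q.map σ.symm.toEmbedding) := by
    intro Q; funext a b; simp only [kq, hm, hσ, ne_eq, EmbeddingLike.apply_eq_iff_eq]
  induction h with
  | baseA Q hQ hc =>
    rw [hkq]; exact Built.baseA _ (haf Q hQ) (by rw [card_map, hc])
  | baseB Q hQ hc =>
    have : (fun a b => oct Q (σ a) (σ b)) = oct (Q.map σ.symm.toEmbedding) := by
      funext a b; simp only [oct, hm, ← hσ, ne_eq, EmbeddingLike.apply_eq_iff_eq]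
    rw [this]; exact Built.baseB _ (haf Q hQ) (by rw [card_map, hc])
  | add f G Q x _ hS ih =>
    have : (fun a b => (G ⊔ kq (insert x Q)) (σ a) (σ b)) = (fun a b => G (σ a) (σ b)) ⊔
        kq (insert (σ.symm x) (Q.map σ.symm.toEmbedding)) := by
      have := hkq (insert x Q)
      rw [map_insert] at this
      erw [← this]
      rfl
    rw [this]
    refine Built.add _ _ _ _ ih ⟨ih.sg, by rw [card_map, hS.card], ?_, ?_, ?_, ?_⟩
    · intro a ha b hb hab
      exact hS.clique _ ((hm _ _).1 ha) _ ((hm _ _).1 hb) (by simpa using hab)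
    · intro y; simpa using hS.iso _
    · rw [hm]; simpa using hS.notin
    · rw [hm, hσ]; simpa using hS.negnotin

def contr (G : V → V → Prop) (u v a b : V) : Prop :=
  a ≠ b ∧ ∃ x y, G x y ∧ kap u v x = a ∧ kap u v y = b

lemma contr_of_adj {G : V → V → Prop} {u v x y : V} (h : G x y) (hne : kap u v x ≠ kap u v y) :
    contr G u v (kap u v x) (kap u v y) := ⟨hne, x, y, h, rfl, rfl⟩

lemma adj_of_contr {G : V → V → Prop} {u v a b : V} (h : contr G u v a b) (h1 : a ≠ u)
    (h2 : a ≠ -u) (h3 : b ≠ u) (h4 : b ≠ -u) : G a b := by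
  obtain ⟨-, x, y, hxy, hx, hy⟩ := h
  rwa [eq_of_kap_eq hx h1 h2, eq_of_kap_eq hy h3 h4] at hxy

lemma contr_ne {G : V → V → Prop} {u v a b : V} (h1 : u ≠ v) (h2 : u ≠ -v) (h : contr G u v a b) :
    a ≠ v ∧ a ≠ -v ∧ b ≠ v ∧ b ≠ -v := by
  obtain ⟨-, x, y, -, rfl, rfl⟩ := h
  exact ⟨kap_ne_v h1 h2 _, kap_ne_negv h1 h2 _, kap_ne_v h1 h2 _, kap_ne_negv h1 h2 _⟩

/-- data of a vertex split -/
structure Split (d : ℕ) (G : V → V → Prop) (u v : V) (R : Finset V) : Prop where
  sg : SG G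
  adj : G u v
  nadj : ¬ G u (-v)
  mem : ∀ r, r ∈ R ↔ G u r ∧ G v r
  card : R.card + 1 = d
  clique : Clique G R
  sep : ∀ a b, G u a → G v b → a ∉ R → b ∉ R → a ≠ v → b ≠ u → ¬ G a b

omit [DecidableEq V] in
lemma Split.symm {G : V → V → Prop} {u v : V} {R : Finset V} (h : Split d G u v R) :
    Split d G v u R where
  sg := h.sg
  adj := h.sg.symm h.adj
  nadj := fun h' => h.nadj (h.sg.symm (by simpa using h.sg.neg h'))
  mem := fun r => (h.mem r).trans and_comm
  card := h.card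
  clique := h.clique
  sep := fun a b ha hb h1 h2 h3 h4 h5 => h.sep b a hb ha h2 h1 h4 h3 (h.sg.symm h5)

lemma Split.kap_nbr {G : V → V → Prop} {u v : V} {R : Finset V} (h : Split d G u v R) {y : V}
    (hy : (G u y ∧ y ≠ v) ∨ (G v y ∧ y ≠ u)) :
    kap u v y = y ∧ contr G u v u y ∧ y ≠ u ∧ y ≠ -u := by
  have h1 := h.sg.ne h.adj
  have h2 := h.sg.ne_neg h.adj
  rcases hy with hy | hy
  · have e : kap u v y = y := kap_of_ne hy.2 (fun e => h.nadj (e ▸ hy.1))
    exact ⟨e, ⟨h.sg.ne hy.1, u, y, hy.1, kap_u h1 h2, e⟩, (h.sg.ne hy.1).symm,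
      fun e => h.sg.ne_neg hy.1 (by rw [e, neg_neg])⟩
  · have e : kap u v y = y :=
      kap_of_ne (h.sg.ne hy.1).symm (fun e => h.sg.ne_neg hy.1 (by rw [e, neg_neg]))
    exact ⟨e, ⟨hy.2.symm, v, y, hy.1, kap_v _ _, e⟩, hy.2, fun e => h.symm.nadj (e ▸ hy.1)⟩

lemma Split.nbr_of_contr {G : V → V → Prop} {u v : V} {R : Finset V} (h : Split d G u v R) {y : V}
    (hy : contr G u v u y) : (G u y ∧ y ≠ v) ∨ (G v y ∧ y ≠ u) := by
  have h1 := h.sg.ne h.adj
  have h2 := h.sg.ne_neg h.adj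
  have hn := contr_ne h1 h2 hy
  obtain ⟨hne, a, b, hab, ha, hb⟩ := hy
  have hyu : y ≠ -u := by
    rintro rfl
    rcases kap_eq_u ha with rfl | rfl <;> rcases kap_eq_negu hb with rfl | rfl
    · exact h.sg.ne_neg hab (by simp)
    · exact h.nadj hab
    · exact h.symm.nadj hab
    · exact h.sg.ne_neg hab (by simp)
  have := eq_of_kap_eq hb hne.symm hyu
  subst this
  rcases kap_eq_u ha with rfl | rfl
  · exact Or.inl ⟨hab, hn.2.2.1⟩
  · exact Or.inr ⟨hab, hne.symm⟩

lemma Split.direct {G : V → V → Prop} {u v : V} {R : Finset V} (h : Split d G u v R) {f : Bool}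
    (hB : ∀ b, G v b → b ∈ R ∨ b = u) (hb : Built d f (contr G u v)) : Built d f G := by
  have h1 := h.sg.ne h.adj
  have h2 := h.sg.ne_neg h.adj
  have huR : u ∉ R := fun e => h.sg.ne ((h.mem u).1 e).1 rfl
  have hvR : v ∉ R := fun e => h.sg.ne ((h.mem v).1 e).2 rfl
  have hclq : Clique G (insert v (insert u R)) := by
    intro a ha b hb hab
    simp only [mem_insert] at ha hb
    rcases ha with rfl | rfl | ha <;> rcases hb with rfl | rfl | hb
    · exact absurd rfl hab
    · exact h.sg.symm h.adj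
    · exact ((h.mem b).1 hb).2
    · exact h.adj
    · exact absurd rfl hab
    · exact ((h.mem b).1 hb).1
    · exact h.sg.symm ((h.mem a).1 ha).2
    · exact h.sg.symm ((h.mem a).1 ha).1
    · exact h.clique a ha b hb hab
  have haf := hclq.af h.sg
  have hk : ∀ a ∈ insert u R, kap u v a = a := by
    intro a ha
    apply kap_of_ne
    · rintro rfl
      rcases mem_insert.1 ha with e | e
      · exact h1 e.symm
      · exact hvR e
    · rintro rfl
      exact haf v (mem_insert_self _ _) (mem_insert_of_mem ha)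
  have hS : AddS d (contr G u v) (insert u R) v :=
    { sg := hb.sg
      card := by rw [card_insert_of_notMem huR, h.card]
      clique := fun a ha b hb hab =>
        ⟨hab, a, b, hclq a (mem_insert_of_mem ha) b (mem_insert_of_mem hb) hab, hk a ha, hk b hb⟩
      iso := fun y hy => (contr_ne h1 h2 hy).1 rfl
      notin := by simp [h1.symm, hvR]
      negnotin := fun e => haf v (mem_insert_self _ _) (mem_insert_of_mem e) }
  have key : ∀ y, G v y → kap u v v ≠ kap u v y → G (kap u v v) (kap u v y) := by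
    intro y hy hne
    rcases hB y hy with e | rfl
    · rw [kap_v, hk y (mem_insert_of_mem e)]; exact ((h.mem y).1 e).1
    · exact absurd (by rw [kap_v, kap_u h1 h2]) hne
  have key2 : ∀ y, G v y → kq (insert v (insert u R)) v y := by
    intro y hy
    refine ⟨h.sg.ne hy, Or.inl ⟨mem_insert_self _ _, mem_insert_of_mem ?_⟩⟩
    rcases hB y hy with e | rfl
    · exact mem_insert_of_mem e
    · exact mem_insert_self _ _
  have e : G = contr G u v ⊔ kq (insert v (insert u R)) := by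
    apply le_antisymm
    · intro a b hab
      by_cases c1 : a = v
      · subst c1; exact Or.inr (key2 b hab)
      by_cases c2 : a = -v
      · subst c2; exact Or.inr ((sg_kq haf).neg_right (key2 _ (h.sg.neg_left hab)))
      by_cases c3 : b = v
      · subst c3; exact Or.inr ((sg_kq haf).symm (key2 a (h.sg.symm hab)))
      by_cases c4 : b = -v
      · subst c4
        exact Or.inr ((sg_kq haf).symm ((sg_kq haf).neg_right
          (key2 _ (h.sg.neg_left (h.sg.symm hab)))))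
      exact Or.inl ⟨h.sg.ne hab, a, b, hab, kap_of_ne c1 c2, kap_of_ne c3 c4⟩
    · apply sup_le _ (kq_le_of_clique h.sg hclq)
      rintro _ _ ⟨hne, a, b, hab, rfl, rfl⟩
      by_cases c1 : a = v
      · subst c1; exact key b hab hne
      by_cases c2 : a = -v
      · subst c2
        have := key _ (h.sg.neg_left hab) (by
          rw [kap_neg] at hne ⊢; intro e; apply hne; rw [e, neg_neg])
        rw [kap_neg] at this ⊢
        exact h.sg.neg_right this
      by_cases c3 : b = v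
      · subst c3; exact h.sg.symm (key a (h.sg.symm hab) hne.symm)
      by_cases c4 : b = -v
      · subst c4
        have := key _ (h.sg.neg_left (h.sg.symm hab)) (by
          rw [kap_neg] at hne ⊢; intro e; apply hne; rw [e, neg_neg])
        rw [kap_neg] at this ⊢
        exact h.sg.symm (h.sg.neg_right this)
      rwa [kap_of_ne c1 c2, kap_of_ne c3 c4]
  rw [e]
  exact Built.add _ _ _ _ hb hS

lemma contr_swap {G : V → V → Prop} {u v : V} (h1 : u ≠ v) (h2 : u ≠ -v) {f : Bool}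
    (hb : Built d f (contr G u v)) : Built d f (contr G v u) := by
  have h3 : v ≠ -u := fun e => h2 (by rw [e, neg_neg])
  let s : V → V := fun x => if x = u then v else if x = -u then -v else kap u v x
  have su : s u = v := by simp [s]
  have snu : s (-u) = -v := by simp [s, neg_ne']
  have sv : s v = u := by simp [s, h1.symm, h3]
  have snv : s (-v) = -u := by simp [s, h1.symm, h2.symm]
  have so : ∀ x, x ≠ u → x ≠ -u → x ≠ v → x ≠ -v → s x = x := by
    intro x a b c e; simp [s, a, b, kap_of_ne c e]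
  have cs : ∀ x, x = u ∨ x = -u ∨ x = v ∨ x = -v ∨ (x ≠ u ∧ x ≠ -u ∧ x ≠ v ∧ x ≠ -v) := by
    intro x; tauto
  have hinv : Function.Involutive s := by
    intro x
    rcases cs x with rfl | rfl | rfl | rfl | ⟨a, b, c, e⟩
    · rw [su, sv]
    · rw [snu, snv]
    · rw [sv, su]
    · rw [snv, snu]
    · rw [so x a b c e, so x a b c e]
  have hneg : ∀ x, s (-x) = -s x := by
    intro x
    rcases cs x with rfl | rfl | rfl | rfl | ⟨a, b, c, e⟩
    · rw [su, snu]
    · rw [neg_neg, su, snu, neg_neg]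
    · rw [sv, snv]
    · rw [neg_neg, sv, snv, neg_neg]
    · rw [so x a b c e, so]
      · exact fun h => b (by rw [← h, neg_neg])
      · simpa using a
      · exact fun h => e (by rw [← h, neg_neg])
      · simpa using c
  have hk : ∀ x, s (kap v u x) = kap u v x := by
    intro x
    rcases cs x with rfl | rfl | rfl | rfl | ⟨a, b, c, e⟩
    · rw [kap_v, sv, kap_u h1 h2]
    · rw [kap_negv, snv, kap_neg, kap_u h1 h2]
    · rw [kap_v, kap_u h1.symm h3, sv]
    · rw [kap_negv, kap_neg, kap_u h1.symm h3, snv]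
    · rw [kap_of_ne a b, kap_of_ne c e, so x a b c e]
  have := hb.rename (hinv.toPerm s) hneg
  convert this using 1
  funext a b
  simp only [Function.Involutive.coe_toPerm, contr, ← hk, ne_eq, hinv.injective.eq_iff]

end Pool.Agent.MP_d539bc_co

end

section

/-! Vertex splitting for built graphs; unstacking of circuits. -/

namespace Pool.Agent.MP_d539bc_co

open Finset
open scoped Pointwise

variable {V : Type} [Fintype V] [DecidableEq V] [FreeNeg V] {d : ℕ}

omit [Fintype V] in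
lemma Split.easy {G : V → V → Prop} {u v : V} {R : Finset V} (h : Split d G u v R) {f : Bool}
    (hb : Built d f (contr G u v)) : Built d f G ∨
      ∃ a b, (G u a ∧ a ∉ R ∧ a ≠ v) ∧ (G v b ∧ b ∉ R ∧ b ≠ u) := by
  by_cases hB : ∀ b, G v b → b ∈ R ∨ b = u
  · exact Or.inl (h.direct hB hb)
  by_cases hA : ∀ a, G u a → a ∈ R ∨ a = v
  · exact Or.inl (h.symm.direct hA (contr_swap (h.sg.ne h.adj) (h.sg.ne_neg h.adj) hb))
  push Not at hA hB
  obtain ⟨a, ha⟩ := hA
  obtain ⟨b, hb⟩ := hB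
  exact Or.inr ⟨a, b, ha, hb⟩

omit [Fintype V] in
lemma Split.nonadj {G : V → V → Prop} {u v : V} {R : Finset V} (h : Split d G u v R) {a b : V}
    (ha : G u a ∧ a ∉ R ∧ a ≠ v) (hb : G v b ∧ b ∉ R ∧ b ≠ u) : a ≠ b ∧ ¬ contr G u v a b := by
  refine ⟨fun e => ha.2.1 ((h.mem a).2 ⟨ha.1, e ▸ hb.1⟩), fun hc => ?_⟩
  have h1 := h.kap_nbr (Or.inl ⟨ha.1, ha.2.2⟩)
  have h2 := h.kap_nbr (Or.inr ⟨hb.1, hb.2.2⟩)
  exact h.sep a b ha.1 hb.1 ha.2.1 hb.2.1 ha.2.2 hb.2.2
    (adj_of_contr hc h1.2.2.1 h1.2.2.2 h2.2.2.1 h2.2.2.2)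

def del (G : V → V → Prop) (x a b : V) : Prop := G a b ∧ a ≠ x ∧ a ≠ -x ∧ b ≠ x ∧ b ≠ -x

omit [Fintype V] [DecidableEq V] in
lemma SG.del {G : V → V → Prop} (hG : SG G) (x : V) : SG (del G x) where
  symm := fun ⟨h, h1, h2, h3, h4⟩ => ⟨hG.symm h, h3, h4, h1, h2⟩
  neg := fun ⟨h, h1, h2, h3, h4⟩ => ⟨hG.neg h, fun e => h2 (by rw [← e, neg_neg]), by simpa using h1,
    fun e => h4 (by rw [← e, neg_neg]), by simpa using h3⟩
  ne := fun h => hG.ne h.1
  ne_neg := fun h => hG.ne_neg h.1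

omit [Fintype V] in
lemma eq_del_sup {G : V → V → Prop} (hG : SG G) {x : V} {Q : Finset V}
    (hQ : ∀ y, y ∈ Q ↔ G x y) (hc : Clique G Q) : G = del G x ⊔ kq (insert x Q) := by
  have hcl : Clique G (insert x Q) := by
    intro a ha b hb hab
    rcases mem_insert.1 ha with ha' | ha' <;> rcases mem_insert.1 hb with hb' | hb'
    · exact absurd (ha'.trans hb'.symm) hab
    · rw [ha']; exact (hQ b).1 hb'
    · rw [hb']; exact hG.symm ((hQ a).1 ha')
    · exact hc a ha' b hb' hab
  have hk := sg_kq (hcl.af hG)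
  have key : ∀ y, G x y → kq (insert x Q) x y := fun y hy =>
    ⟨hG.ne hy, Or.inl ⟨mem_insert_self _ _, mem_insert_of_mem ((hQ y).2 hy)⟩⟩
  apply le_antisymm
  · intro a b hab
    by_cases c1 : a = x
    · subst c1; exact Or.inr (key b hab)
    by_cases c2 : a = -x
    · subst c2; exact Or.inr (hk.neg_right (key _ (hG.neg_left hab)))
    by_cases c3 : b = x
    · subst c3; exact Or.inr (hk.symm (key a (hG.symm hab)))
    by_cases c4 : b = -x
    · subst c4
      exact Or.inr (hk.symm (hk.neg_right (key _ (hG.neg_left (hG.symm hab)))))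
    exact Or.inl ⟨hab, c1, c2, c3, c4⟩
  · exact sup_le (fun _ _ h => h.1) (kq_le_of_clique hG hcl)

theorem Built.split (hd : 3 ≤ d) {f : Bool} {G' : V → V → Prop} (hb : Built d f G') {u v : V}
    {R : Finset V} : ∀ G, Split d G u v R → G' = contr G u v → Built d f G := by
  induction hb with
  | baseA Q hQ hc =>
    intro G h e
    rcases h.easy (e ▸ Built.baseA Q hQ hc) with h' | ⟨a, b, ha, hb⟩
    · exact h'
    exfalso
    have h1 := (h.kap_nbr (Or.inl ⟨ha.1, ha.2.2⟩)).2.1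
    have h2 := (h.kap_nbr (Or.inr ⟨hb.1, hb.2.2⟩)).2.1
    have h3 := h.nonadj ha hb
    rw [← e] at h1 h2 h3
    exact h3.2 (kq_nbr hQ h1 h2 h3.1)
  | baseB Q hQ hc =>
    intro G h e
    rcases h.easy (e ▸ Built.baseB Q hQ hc) with h' | ⟨a, b, ha, hb⟩
    · exact h'
    exfalso
    have h1 := (h.kap_nbr (Or.inl ⟨ha.1, ha.2.2⟩)).2.1
    have h2 := (h.kap_nbr (Or.inr ⟨hb.1, hb.2.2⟩)).2.1
    have h3 := h.nonadj ha hb
    rw [← e] at h1 h2 h3
    have hab : a = -b := by
      by_contra hne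
      exact h3.2 ⟨h3.1, hne, h1.2.2.2, h2.2.2.2⟩
    have hR : ∀ r ∈ R, oct Q u r := by
      intro r hr
      have := (h.mem r).1 hr
      rw [e]
      exact (h.kap_nbr (Or.inl ⟨this.1, (h.sg.ne this.2).symm⟩)).2.1
    have huR : u ∉ insert a R := by
      intro hu
      rcases mem_insert.1 hu with e' | e'
      · exact h1.1 e'
      · exact (hR u e').1 rfl
    have := card_le_of_pm (S := insert u (insert a R)) (Q := Q) (by
      apply AF.insert
      · apply (h.clique.af h.sg).insert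
        rw [hab, neg_neg]; exact hb.2.1
      · intro hu
        rcases mem_insert.1 hu with e' | e'
        · exact h1.2.1 (by rw [← e', neg_neg])
        · exact (hR _ e').2.1 (by simp)) (by
      intro x hx
      rcases mem_insert.1 hx with rfl | hx
      · exact h1.2.2.1
      rcases mem_insert.1 hx with rfl | hx
      · exact h1.2.2.2
      · exact (hR x hx).2.2.2)
    rw [card_insert_of_notMem huR, card_insert_of_notMem ha.2.1] at this
    have := h.card
    omega
  | add f G0 Q x hb0 hS ih =>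
    classical
    intro G h e
    rcases h.easy (e ▸ Built.add f G0 Q x hb0 hS) with h' | ⟨a0, b0, ha0, hb0'⟩
    · exact h'
    obtain ⟨Q, x, hS, e', hu⟩ := hS.wlog u
    rw [e'] at e
    have h1 := h.sg.ne h.adj
    have h2 := h.sg.ne_neg h.adj
    have hsg := hS.sg'
    have hnx : ¬ contr G u v u (-x) := fun h' => by
      rw [← e] at h'
      exact hu (mem_insert_of_mem (hS.nbr.1 (hsg.symm (hsg.neg_right h'))))
    have hux' : u ≠ -x := by rintro rfl; exact hu (by simp)
    have hxu' : x ≠ -u := fun e => hux' (by rw [e, neg_neg])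
    have hA : ∀ a, (G u a ∧ a ∉ R ∧ a ≠ v) → contr G u v u a := fun a ha =>
      (h.kap_nbr (Or.inl ⟨ha.1, ha.2.2⟩)).2.1
    have hB : ∀ b, (G v b ∧ b ∉ R ∧ b ≠ u) → contr G u v u b := fun b hb =>
      (h.kap_nbr (Or.inr ⟨hb.1, hb.2.2⟩)).2.1
    have hux : u ≠ x := by
      rintro rfl
      have h3 := h.nonadj ha0 hb0'
      apply h3.2
      rw [← e]
      exact Or.inl (hS.clique a0 (hS.nbr.1 (e ▸ hA a0 ha0)) b0 (hS.nbr.1 (e ▸ hB b0 hb0')) h3.1)
    obtain ⟨q0, hq0⟩ : Q.Nonempty := card_pos.1 (by rw [hS.card]; omega)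
    have hxv := contr_ne h1 h2 (e ▸ hS.nbr.2 hq0 : contr G u v x q0)
    have hkx : kap u v x = x := kap_of_ne hxv.1 hxv.2.1
    have hkx1 : ∀ y, kap u v y = x → y = x := fun y hy => eq_of_kap_eq hy hux.symm hxu'
    have hkx2 : ∀ y, kap u v y = -x → y = -x := fun y hy =>
      eq_of_kap_eq hy hux'.symm (by simpa using hux.symm)
    by_cases hxR : x ∈ R
    · exfalso
      refine hb0.conn hd u (fun a => G u a ∧ a ∉ R ∧ a ≠ v) (fun b => G v b ∧ b ∉ R ∧ b ≠ u)
        (R.erase x) ?_ ?_ ?_ ?_ ?_ a0 b0 ha0 hb0'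
      · have := h.card
        have := card_erase_add_one hxR
        omega
      · intro y hy
        have h3 := h.nbr_of_contr (e ▸ Or.inl hy : contr G u v u y)
        have h4 := (hS.ne_of_adj hy).2.2.1
        by_cases hyR : y ∈ R
        · exact Or.inr (Or.inr (mem_erase.2 ⟨h4, hyR⟩))
        · tauto
      · intro a ha
        exact hS.old (e ▸ hA a ha) hux hux' (fun e => ha.2.1 (e ▸ hxR))
          (fun e => hnx (e ▸ hA a ha))
      · intro b hb
        exact hS.old (e ▸ hB b hb) hux hux' (fun e => hb.2.1 (e ▸ hxR))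
          (fun e => hnx (e ▸ hB b hb))
      · intro a b ha hb
        have h3 := h.nonadj ha hb
        exact ⟨h3.1, fun h' => h3.2 (e ▸ Or.inl h')⟩
    have hRx : ∀ r ∈ R, r ≠ x ∧ r ≠ -x := by
      intro r hr
      have := (h.mem r).1 hr
      exact ⟨fun e => hxR (e ▸ hr), fun e => hnx (e ▸
        (h.kap_nbr (Or.inl ⟨this.1, (h.sg.ne this.2).symm⟩)).2.1)⟩
    have hvx' : v ≠ -x := fun e => hxv.2.1 (by rw [e, neg_neg])
    have hS0 : Split d (del G x) u v R :=
      { sg := h.sg.del x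
        adj := ⟨h.adj, hux, hux', hxv.1.symm, hvx'⟩
        nadj := fun h' => h.nadj h'.1
        mem := fun r => ⟨fun hr => ⟨⟨((h.mem r).1 hr).1, hux, hux', hRx r hr⟩,
          ⟨((h.mem r).1 hr).2, hxv.1.symm, hvx', hRx r hr⟩⟩, fun hr => (h.mem r).2 ⟨hr.1.1, hr.2.1⟩⟩
        card := h.card
        clique := fun a ha b hb hab =>
          ⟨h.clique a ha b hb hab, (hRx a ha).1, (hRx a ha).2, hRx b hb⟩
        sep := fun a b ha hb c1 c2 c3 c4 c5 => h.sep a b ha.1 hb.1 c1 c2 c3 c4 c5.1 }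
    have e0 : G0 = contr (del G x) u v := by
      apply le_antisymm
      · intro a b hab
        obtain ⟨hne, a', b', hab', rfl, rfl⟩ := (e ▸ Or.inl hab : contr G u v a b)
        have := hS.ne_of_adj hab
        refine ⟨hne, a', b', ⟨hab', ?_, ?_, ?_, ?_⟩, rfl, rfl⟩ <;> rintro rfl
        · exact this.1 hkx
        · exact this.2.1 (by rw [kap_neg, hkx])
        · exact this.2.2.1 hkx
        · exact this.2.2.2 (by rw [kap_neg, hkx])
      · rintro _ _ ⟨hne, a, b, hab, rfl, rfl⟩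
        exact hS.old (e ▸ contr_of_adj hab.1 hne) (fun e => hab.2.1 (hkx1 _ e))
          (fun e => hab.2.2.1 (hkx2 _ e)) (fun e => hab.2.2.2.1 (hkx1 _ e))
          (fun e => hab.2.2.2.2 (hkx2 _ e))
    have hb1 := ih _ hS0 e0
    let N : Finset V := univ.filter (fun y => G x y)
    have hN : ∀ y, y ∈ N ↔ G x y := fun y => by simp [N]
    have hNQ : ∀ y, G x y → kap u v y ∈ Q := by
      intro y hy
      apply hS.nbr.1
      rw [e]
      exact ⟨fun e => h.sg.ne hy (hkx1 y e.symm).symm, x, y, hy, hkx, rfl⟩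
    have hinj : ∀ y y', G x y → G x y' → kap u v y = kap u v y' → y = y' := by
      intro y y' hy hy' hk
      by_cases c : kap u v y = u
      · have hnot : ¬ (G x u ∧ G x v) := fun h' =>
          hxR ((h.mem x).2 ⟨h.sg.symm h'.1, h.sg.symm h'.2⟩)
        rcases kap_eq_u c with rfl | rfl <;> rcases kap_eq_u (hk ▸ c : kap _ _ y' = _) with rfl | rfl
        · rfl
        · exact absurd ⟨hy, hy'⟩ hnot
        · exact absurd ⟨hy', hy⟩ hnot
        · rfl
      have c' : kap u v y ≠ -u := fun e => hu (mem_insert_of_mem (e ▸ hNQ y hy))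
      exact (eq_of_kap_eq rfl c c').trans (eq_of_kap_eq hk.symm c c').symm
    have hNc : N.card = d := by
      rw [← hS.card]
      apply card_bij (fun y _ => kap u v y)
      · intro y hy; exact hNQ y ((hN y).1 hy)
      · intro y hy y' hy'; exact hinj y y' ((hN y).1 hy) ((hN y').1 hy')
      · intro q hq
        obtain ⟨-, x', y, hy, hx', rfl⟩ := (e ▸ hS.nbr.2 hq : contr G u v x q)
        rw [hkx1 x' hx'] at hy
        exact ⟨y, (hN y).2 hy, rfl⟩
    have hcl0 : ∀ y y', G x y → G x y' → y ≠ y' → kap u v y' ≠ u → G y y' := by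
      intro y y' hy hy' hne c
      have c' : kap u v y' ≠ -u := fun e => hu (mem_insert_of_mem (e ▸ hNQ y' hy'))
      have hc : contr G u v (kap u v y) (kap u v y') := by
        rw [← e]
        exact Or.inl (hS.clique _ (hNQ y hy) _ (hNQ y' hy') (fun e => hne (hinj y y' hy hy' e)))
      have ey' : kap u v y' = y' := (eq_of_kap_eq rfl c c').symm
      rw [ey'] at c c'
      by_cases c2 : kap u v y = u
      · rw [c2, ey'] at hc
        by_contra hcon
        rcases kap_eq_u c2 with rfl | rfl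
        · rcases h.nbr_of_contr hc with h3 | h3
          · exact hcon h3.1
          · exact h.sep x y' (h.sg.symm hy) h3.1 hxR (fun e => hcon ((h.mem _).1 e).1) hxv.1 c hy'
        · rcases h.nbr_of_contr hc with h3 | h3
          · exact h.sep y' x h3.1 (h.sg.symm hy) (fun e => hcon ((h.mem _).1 e).2) hxR h3.2
              hux.symm (h.sg.symm hy')
          · exact hcon h3.1
      have c2' : kap u v y ≠ -u := fun e => hu (mem_insert_of_mem (e ▸ hNQ y hy))
      have ey : kap u v y = y := (eq_of_kap_eq rfl c2 c2').symm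
      rw [ey] at c2 c2'
      rw [ey, ey'] at hc
      exact adj_of_contr hc c2 c2' c c'
    have hcl : Clique G N := by
      intro y hy y' hy' hne
      rw [hN] at hy hy'
      by_cases c : kap u v y' = u
      · exact h.sg.symm (hcl0 y' y hy' hy hne.symm
          (fun c' => hne (hinj y y' hy hy' (c'.trans c.symm))))
      · exact hcl0 y y' hy hy' hne c
    have hNx : ∀ y ∈ N, y ≠ x ∧ y ≠ -x := fun y hy =>
      ⟨(h.sg.ne ((hN y).1 hy)).symm, fun e => h.sg.ne_neg ((hN y).1 hy) (by rw [e, neg_neg])⟩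
    rw [eq_del_sup h.sg hN hcl]
    exact Built.add _ _ _ _ hb1 ⟨hS0.sg, hNc,
      fun a ha b hb hab => ⟨hcl a ha b hb hab, (hNx a ha).1, (hNx a ha).2, hNx b hb⟩,
      fun y hy => hy.2.1 rfl, fun hx => (hNx x hx).1 rfl, fun hx => (hNx _ hx).2 rfl⟩

end Pool.Agent.MP_d539bc_co

end

section

/-! The induction principle for antipodal free circuits. -/

namespace Pool.Agent.MP_d539bc_co

open Finset
open scoped Pointwise

variable {V : Type} [Fintype V] [DecidableEq V] [FreeNeg V]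

def MinK (u v : V) (S : Finset (Finset V)) : Prop :=
  S.Nonempty ∧ KCyc u v S ∧ ∀ S' ⊆ S, S'.Nonempty → KCyc u v S' → S' = S

lemma KCyc.union {u v : V} {S S' : Finset (Finset V)} (h : KCyc u v S) (h' : KCyc u v S')
    (hd : Disjoint S S') : KCyc u v (S ∪ S') := by
  unfold KCyc kc at *
  rw [sum_union hd, bd_add, h, h', add_zero]

lemma KCyc.sdiff {u v : V} {S S' : Finset (Finset V)} (h : KCyc u v S) (h' : KCyc u v S')
    (hs : S' ⊆ S) : KCyc u v (S \ S') := by
  unfold KCyc kc at *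
  rw [← sum_sdiff hs, bd_add, h', add_zero] at h
  exact h

omit [Fintype V] in
lemma Dg_sdiff {u v : V} {S S' : Finset (Finset V)} (hs : S' ⊆ S) :
    Dg u v (S \ S') + Dg u v S' = Dg u v S := by
  unfold Dg; exact sum_sdiff hs

lemma exists_min_fill {u v : V} (D : Finset V) (Y : Finset (Finset V)) :
    KCyc u v Y → D ∈ fill u v Y → ∃ S ⊆ Y, MinK u v S ∧ D ∈ fill u v S := by
  induction Y using Finset.strongInduction with
  | H Y ih =>
    intro hY hD
    by_cases hm : ∀ S' ⊆ Y, S'.Nonempty → KCyc u v S' → S' = Y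
    · refine ⟨Y, subset_rfl, ⟨?_, hY, hm⟩, hD⟩
      rw [nonempty_iff_ne_empty]
      rintro rfl
      simp [mem_fill, Dg] at hD
    · push Not at hm
      obtain ⟨S', hs, hne, hk, hneq⟩ := hm
      have h1 := congrFun (Dg_sdiff (u := u) (v := v) hs) D
      rw [mem_fill] at hD
      by_cases h2 : D ∈ fill u v S'
      · obtain ⟨S, h3, h4⟩ := ih S' (lt_of_le_of_ne hs hneq) hk h2
        exact ⟨S, h3.trans hs, h4⟩
      · have h3 : D ∈ fill u v (Y \ S') := by
          rw [mem_fill] at h2 ⊢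
          push Not at h2
          intro h4
          apply hD
          rw [← h1]; simp [h2, h4]
        obtain ⟨S, h4, h5⟩ := ih (Y \ S') (sdiff_ssubset hs hne) (hY.sdiff hk hs) h3
        exact ⟨S, h4.trans sdiff_subset, h5⟩

lemma plus_circ {d : ℕ} {u v : V} (h1 : u ≠ v) (h2 : u ≠ -v) {S : Finset (Finset V)}
    (h : Adm d u v S) (hm : MinK u v S) : Circ d (plus u v S) where
  toGood := plus_good h
  nonempty := hm.1.mono subset_union_left
  cyc := plus_cyc h hm.2.1
  min := by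
    intro Y hY hne hc
    have hg : Good d Y :=
      ⟨fun F hF => (plus_good h).card F (hY hF), fun F hF => (plus_good h).af F (hY hF)⟩
    have hx : ∀ F ∈ Y, NoX u v F := fun F hF => plus_nox h F (hY hF)
    have e1 := plus_nd h1 h2 hg hc hx
    have hsub : nd u v Y ⊆ S := by
      rw [← nd_plus h]
      exact filter_subset_filter _ hY
    have hne' : (nd u v Y).Nonempty := by
      rw [nonempty_iff_ne_empty]
      intro h0
      rw [h0, plus_empty] at e1
      exact hne.ne_empty e1.symm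
    rw [← e1, hm.2.2 _ hsub hne' (lemA h1 h2 hg hc hx).1]

lemma exists_fill_not_mem {d : ℕ} {u v : V} {T S : Finset (Finset V)} (hT : Circ d T)
    (hx : ∀ F ∈ T, NoX u v F) (hS : S ⊆ nd u v T) (hne : S.Nonempty) (hk : KCyc u v S)
    (hneq : S ≠ nd u v T) : ∃ D ∈ fill u v S, D ∉ T := by
  have hA := (adm_nd hT.toGood hx).mono hS
  by_contra hcon
  push Not at hcon
  have : plus u v S ⊆ T :=
    union_subset (fun F hF => (mem_nd.1 (hS hF)).1) hcon
  have h3 := hT.min _ this (hne.mono subset_union_left) (plus_cyc hA hk)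
  apply hneq
  rw [← h3, nd_plus hA]

lemma exists_deg_plus {d : ℕ} {u v : V} (h1 : u ≠ v) (h2 : u ≠ -v) {T S : Finset (Finset V)}
    (hT : Circ d T) (hx : ∀ F ∈ T, NoX u v F) (hdeg : ∃ D ∈ T, deg u v D)
    (hS : S ⊆ nd u v T) (hne : S.Nonempty) (hk : KCyc u v S) : ∃ D ∈ plus u v S, deg u v D := by
  have hA := (adm_nd hT.toGood hx).mono hS
  by_cases hneq : S = nd u v T
  · rw [hneq, plus_nd h1 h2 hT.toGood hT.cyc hx]; exact hdeg
  · obtain ⟨D, hD, -⟩ := exists_fill_not_mem hT hx hS hne hk hneq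
    exact ⟨D, mem_union_right _ hD, (fill_good hA hD).1⟩

omit [Fintype V] in
lemma same_image1 {u v : V} {F F' : Finset V} (hF : AF F) (hn : ¬ deg u v F) (hx : NoX u v F)
    (hF' : AF F') (hn' : ¬ deg u v F') (hne : F ≠ F')
    (he : F.image (kap u v) = F'.image (kap u v)) (hv : v ∈ F) : F' = insert u (F.erase v) := by
  have hu : u ∉ F := fun h => hn (Or.inl ⟨h, hv⟩)
  have e1 := image_kap_of_mem (u := u) hF hv
  by_cases hv' : v ∈ F'
  · exfalso
    have hu' : u ∉ F' := fun h => hn' (Or.inl ⟨h, hv'⟩)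
    rw [e1, image_kap_of_mem hF' hv'] at he
    apply hne
    have := congrArg (fun s => insert v (Finset.erase s u)) he
    rwa [erase_insert (fun h => hu (mem_of_mem_erase h)),
      erase_insert (fun h => hu' (mem_of_mem_erase h)), insert_erase hv, insert_erase hv'] at this
  by_cases hv'' : -v ∈ F'
  · exfalso
    have h3 : -u ∈ F.image (kap u v) := he ▸ mem_image.2 ⟨-v, hv'', kap_negv _ _⟩
    have h4 : u ∈ F.image (kap u v) := mem_image.2 ⟨v, hv, kap_v _ _⟩
    exact (image_kap_good hF hn hx).2 u h4 h3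
  rw [image_kap_of_not_mem hv' hv''] at he
  rw [← he, e1]

omit [Fintype V] in
lemma triv_piece1 {u v : V} {F : Finset V} (hF : AF F) (hn : ¬ deg u v F) (hx : NoX u v F)
    (hv : v ∈ F) : AF (insert u F) ∧ (insert u F).card = F.card + 1 ∧
      gr {F, insert u (F.erase v)} ⊔ kq {u, v} = kq (insert u F) ∧
      vs {F, insert u (F.erase v)} = insert u F := by
  have hu : u ∉ F := fun h => hn (Or.inl ⟨h, hv⟩)
  have hu' : -u ∉ F := fun h => hx.2 ⟨h, hv⟩
  have haf : AF (insert u F) := hF.insert hu'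
  have hs1 : F ⊆ insert u F := subset_insert _ _
  have hs2 : insert u (F.erase v) ⊆ insert u F := insert_subset_insert _ (erase_subset _ _)
  have hs3 : {u, v} ⊆ insert u F := insert_subset_insert _ (singleton_subset_iff.2 hv)
  refine ⟨haf, card_insert_of_notMem hu, ?_, ?_⟩
  · apply le_antisymm
    · apply sup_le
      · rintro a b ⟨G, hG, h⟩
        rcases mem_insert.1 hG with rfl | hG
        · exact kq_mono hs1 a b h
        · rw [mem_singleton.1 hG] at h; exact kq_mono hs2 a b h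
      · exact kq_mono hs3
    · apply kq_le_of_clique
      · apply SG.sup (sg_gr _) (sg_kq (haf.mono hs3))
        intro G hG
        rcases mem_insert.1 hG with rfl | hG
        · exact hF
        · rw [mem_singleton.1 hG]; exact haf.mono hs2
      · intro a ha b hb hab
        by_cases h1 : a ∈ F ∧ b ∈ F
        · exact Or.inl ⟨F, by simp, hab, Or.inl h1⟩
        by_cases h2 : a ≠ v ∧ b ≠ v
        · refine Or.inl ⟨insert u (F.erase v), by simp, hab, Or.inl ⟨?_, ?_⟩⟩
          · simp only [mem_insert, mem_erase] at ha ⊢; tauto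
          · simp only [mem_insert, mem_erase] at hb ⊢; tauto
        right
        refine ⟨hab, Or.inl ?_⟩
        simp only [mem_insert, mem_singleton] at ha hb ⊢
        by_cases h3 : a = v
        · refine ⟨Or.inr h3, Or.inl ?_⟩
          rcases hb with hb | hb
          · exact hb
          · exact absurd ⟨h3 ▸ hv, hb⟩ h1
        · have h4 : b = v := by by_contra h; exact h2 ⟨h3, h⟩
          refine ⟨Or.inl ?_, Or.inr h4⟩
          rcases ha with ha | ha
          · exact ha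
          · exact absurd ⟨ha, h4 ▸ hv⟩ h1
  · ext a
    simp only [mem_vs, mem_insert, mem_singleton, exists_eq_or_imp, exists_eq_left, mem_erase]
    tauto

omit [Fintype V] [DecidableEq V] in
lemma kq_pair_neg [DecidableEq V] (u v : V) : kq {-u, -v} = kq ({u, v} : Finset V) := by
  rw [← kq_neg]; congr 1; ext x; simp [Finset.mem_neg']

lemma piece_cases {d : ℕ} {u v : V} {S : Finset (Finset V)} (h : Adm d u v S) (hm : MinK u v S) :
    (∃ σ, AF σ ∧ σ.card = d + 1 ∧ gr S ⊔ kq {u, v} = kq σ ∧ vs S = σ) ∨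
      Circ d (S.image (fun F => F.image (kap u v))) := by
  by_cases hinj : Set.InjOn (fun F : Finset V => F.image (kap u v)) S
  · right
    have hind : ∀ S' ⊆ S, ind (S'.image (fun F => F.image (kap u v))) = kc u v S' := by
      intro S' hS'
      rw [ind_eq_sum, kc, sum_image (hinj.mono (coe_subset.2 hS'))]
    refine ⟨⟨?_, ?_⟩, hm.1.image _, ?_, ?_⟩
    · intro F hF
      obtain ⟨G, hG, rfl⟩ := mem_image.1 hF
      rw [(image_kap_good (h.af G hG) (h.nd G hG) (h.nox G hG)).1, h.card G hG]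
    · intro F hF
      obtain ⟨G, hG, rfl⟩ := mem_image.1 hF
      exact (image_kap_good (h.af G hG) (h.nd G hG) (h.nox G hG)).2
    · unfold Cyc; rw [hind S subset_rfl]; exact hm.2.1
    · intro Y hY hne hc
      obtain ⟨S', hS', rfl⟩ := subset_image_iff.1 hY
      have : KCyc u v S' := by unfold KCyc; rw [← hind S' hS']; exact hc
      rw [hm.2.2 S' hS' (by simpa using hne) this]
  · left
    simp only [Set.InjOn, not_forall] at hinj
    obtain ⟨F, hF, F', hF', he, hne⟩ := hinj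
    have hF : F ∈ S := hF
    have hF' : F' ∈ S := hF'
    have hS : ({F, F'} : Finset (Finset V)) = S := by
      apply hm.2.2
      · intro G hG
        rcases mem_insert.1 hG with rfl | hG
        · exact hF
        · rw [mem_singleton.1 hG]; exact hF'
      · simp
      · unfold KCyc kc
        rw [sum_pair hne, he]
        have : (Pi.single (F'.image (kap u v)) 1 + Pi.single (F'.image (kap u v)) 1 :
            Finset V → ZMod 2) = 0 := by
          funext R; simp [zmod2_add_self]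
        rw [this, bd_zero]
    have main : ∀ (a b : V) (G G' : Finset V), kap a b = kap u v → deg a b = deg u v →
        (∀ F, NoX a b F ↔ NoX u v F) → kq {a, b} = kq ({u, v} : Finset V) →
        G ∈ S → G' ∈ S → G ≠ G' → ({G, G'} : Finset (Finset V)) = S →
        G.image (kap u v) = G'.image (kap u v) → b ∈ G →
        ∃ σ, AF σ ∧ σ.card = d + 1 ∧ gr S ⊔ kq {u, v} = kq σ ∧ vs S = σ := by
      intro a b G G' e1 e2 e3 e4 hG hG' hne hS he hb
      have h1 : ¬ deg a b G := e2 ▸ h.nd G hG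
      have h2 : NoX a b G := (e3 G).2 (h.nox G hG)
      have h3 := same_image1 (h.af G hG) h1 h2 (h.af G' hG') (e2 ▸ h.nd G' hG') hne
        (e1 ▸ he) hb
      have h4 := triv_piece1 (h.af G hG) h1 h2 hb
      rw [← h3, hS, e4, h.card G hG] at h4
      exact ⟨_, h4⟩
    by_cases c1 : v ∈ F
    · exact main u v F F' rfl rfl (fun _ => Iff.rfl) rfl hF hF' hne hS he c1
    by_cases c2 : v ∈ F'
    · exact main u v F' F rfl rfl (fun _ => Iff.rfl) rfl hF' hF (Ne.symm hne)
        (by rw [pair_comm, hS]) he.symm c2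
    by_cases c3 : -v ∈ F
    · exact main (-u) (-v) F F' (kap_negneg _ _) (deg_negneg _ _) (NoX_negneg _ _)
        (kq_pair_neg _ _) hF hF' hne hS he c3
    by_cases c4 : -v ∈ F'
    · exact main (-u) (-v) F' F (kap_negneg _ _) (deg_negneg _ _) (NoX_negneg _ _)
        (kq_pair_neg _ _) hF' hF (Ne.symm hne) (by rw [pair_comm, hS]) he.symm c4
    exfalso
    rw [image_kap_of_not_mem c1 c3, image_kap_of_not_mem c2 c4] at he
    exact hne he

omit [Fintype V] [DecidableEq V] in
lemma gr_union [DecidableEq V] (S S' : Finset (Finset V)) : gr (S ∪ S') = gr S ⊔ gr S' := by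
  funext a b
  simp only [gr, mem_union, Pi.sup_apply, sup_Prop_eq]
  apply propext
  constructor
  · rintro ⟨F, h | h, h'⟩
    · exact Or.inl ⟨F, h, h'⟩
    · exact Or.inr ⟨F, h, h'⟩
  · rintro (⟨F, h, h'⟩ | ⟨F, h, h'⟩)
    · exact ⟨F, Or.inl h, h'⟩
    · exact ⟨F, Or.inr h, h'⟩

omit [Fintype V] [FreeNeg V] in
lemma vs_union (S S' : Finset (Finset V)) : vs (S ∪ S') = vs S ∪ vs S' := by
  simp [vs, union_biUnion]

omit [Fintype V] [FreeNeg V] in
lemma vs_mono {S S' : Finset (Finset V)} (h : S ⊆ S') : vs S ⊆ vs S' := by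
  intro x hx
  obtain ⟨F, hF, hx⟩ := mem_vs.1 hx
  exact mem_vs.2 ⟨F, h hF, hx⟩

omit [Fintype V] [FreeNeg V] in
lemma subset_vs {S : Finset (Finset V)} {F : Finset V} (h : F ∈ S) : F ⊆ vs S :=
  fun _ hx => mem_vs.2 ⟨F, h, hx⟩

/-- the gluing hypothesis -/
def Glue (d : ℕ) (P : (V → V → Prop) → Finset V → Prop) : Prop :=
  ∀ G W G' W' D, SG G → SG G' → P G W → P G' W' → D.card = d → D ⊆ W → D ⊆ W' →
    Clique G D → Clique G' D → P (G ⊔ G') (W ∪ W')

theorem fog {d : ℕ} {P : (V → V → Prop) → Finset V → Prop} (hglue : Glue d P)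
    {u v : V} (h1 : u ≠ v) (h2 : u ≠ -v) {T : Finset (Finset V)}
    (hT : Circ d T) (hx : ∀ F ∈ T, NoX u v F) (hdeg : ∃ D ∈ T, deg u v D)
    (hp : ∀ S ⊆ nd u v T, MinK u v S → P (gr (plus u v S)) (vs (plus u v S))) :
    P (gr T) (vs T) := by
  have hA := adm_nd hT.toGood hx
  have hk := (lemA h1 h2 hT.toGood hT.cyc hx).1
  have hgr : ∀ S ⊆ nd u v T, S.Nonempty → KCyc u v S →
      gr (plus u v S) = gr S ⊔ kq {u, v} ∧ vs (plus u v S) = vs S := by
    intro S hS hne hkS
    have hAS := hA.mono hS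
    have e1 := gr_nd (plus_good hAS) (plus_cyc hAS hkS) h1
      (exists_deg_plus h1 h2 hT hx hdeg hS hne hkS)
    have e2 := vs_nd (plus_good hAS) (plus_cyc hAS hkS) h1
    rw [nd_plus hAS] at e1 e2
    exact ⟨e1, e2.symm⟩
  have main : ∀ n, ∀ U ⊆ nd u v T, (nd u v T \ U).card = n → U.Nonempty → KCyc u v U →
      P (gr (plus u v U)) (vs (plus u v U)) → P (gr T) (vs T) := by
    intro n
    induction n using Nat.strong_induction_on with
    | _ n ih =>
      intro U hU hn hne hkU hP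
      by_cases hUe : U = nd u v T
      · rwa [hUe, plus_nd h1 h2 hT.toGood hT.cyc hx] at hP
      obtain ⟨D, hD, hDT⟩ := exists_fill_not_mem hT hx hU hne hkU hUe
      have hD' : D ∈ fill u v (nd u v T \ U) := by
        have e := congrFun (Dg_sdiff (u := u) (v := v) hU) D
        have e2 : D ∉ fill u v (nd u v T) := by
          rw [(lemA h1 h2 hT.toGood hT.cyc hx).2]
          exact fun h => hDT (mem_filter.1 h).1
        rw [mem_fill] at hD e2 ⊢
        push Not at e2
        intro h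
        apply hD
        simpa [h, e2] using e
      obtain ⟨S, hS, hm, hDS⟩ := exists_min_fill D _ (hk.sdiff hkU hU) hD'
      have hS' : S ⊆ nd u v T := hS.trans sdiff_subset
      have hdis : Disjoint U S := disjoint_left.2 (fun F hF hF' => (mem_sdiff.1 (hS hF')).2 hF)
      have hUS : U ∪ S ⊆ nd u v T := union_subset hU hS'
      have hkUS := hkU.union hm.2.1 hdis
      have hneUS : (U ∪ S).Nonempty := hne.mono subset_union_left
      apply ih _ _ (U ∪ S) hUS rfl hneUS hkUS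
      · have hDU : D ∈ plus u v U := mem_union_right _ hD
        have hDS' : D ∈ plus u v S := mem_union_right _ hDS
        have := hglue _ _ _ _ D (sg_gr (plus_good (hA.mono hU)).af)
          (sg_gr (plus_good (hA.mono hS')).af) hP (hp S hS' hm)
          ((plus_good (hA.mono hU)).card D hDU) (subset_vs hDU) (subset_vs hDS')
          (clique_gr hDU) (clique_gr hDS')
        rw [(hgr _ hUS hneUS hkUS).1, (hgr _ hUS hneUS hkUS).2, gr_union, vs_union]
        rw [(hgr _ hU hne hkU).1, (hgr _ hU hne hkU).2, (hgr _ hS' hm.1 hm.2.1).1,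
          (hgr _ hS' hm.1 hm.2.1).2, sup_sup_sup_comm, sup_idem] at this
        exact this
      · rw [← hn]
        apply card_lt_card
        obtain ⟨F, hF⟩ := hm.1
        rw [ssubset_iff_of_subset (sdiff_subset_sdiff subset_rfl subset_union_left)]
        exact ⟨F, hS hF, fun h => (mem_sdiff.1 h).2 (mem_union_right _ hF)⟩
  obtain ⟨D, hD, hDd⟩ := hdeg
  have hD' : D ∈ fill u v (nd u v T) := by
    rw [(lemA h1 h2 hT.toGood hT.cyc hx).2]; exact mem_filter.2 ⟨hD, hDd⟩
  obtain ⟨S, hS, hm, -⟩ := exists_min_fill D _ hk hD'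
  exact main _ S hS rfl hm.1 hm.2.1 (hp S hS hm)

def Big (d : ℕ) (W : Finset V) : Prop := ∃ F : Finset V, AF F ∧ F.card = d ∧ ∀ x ∈ F, x ∈ W ∧ -x ∈ W

/-- the contracted family -/
def ctr (u v : V) (X : Finset (Finset V)) : Finset (Finset V) :=
  (nd u v X).image (fun F => F.image (kap u v))

omit [Fintype V] in
lemma ctr_negneg (u v : V) (X : Finset (Finset V)) : ctr (-u) (-v) X = ctr u v X := by
  unfold ctr; rw [nd_negneg, kap_negneg]

omit [Fintype V] [DecidableEq V] in
lemma nox_of_not_gr {u v : V} {T : Finset (Finset V)} (h2 : u ≠ -v)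
    (h : ¬ gr T u (-v)) : ∀ F ∈ T, NoX u v F := by
  intro F hF
  exact ⟨fun h' => h ⟨F, hF, h2, Or.inl h'⟩, fun h' => h ⟨F, hF, h2, Or.inr (by simpa using h')⟩⟩

omit [Fintype V] [DecidableEq V] in
lemma not_gr_of_nox {u v : V} {T : Finset (Finset V)} (h : ∀ F ∈ T, NoX u v F) :
    ¬ gr T u (-v) := by
  rintro ⟨F, hF, -, h1 | h1⟩
  · exact (h F hF).1 h1
  · exact (h F hF).2 (by simpa using h1)

theorem circuit_ind {d : ℕ} {P : (V → V → Prop) → Finset V → Prop} (hglue : Glue d P)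
    (hdbl : ∀ T, Circ d T → (∀ x y, gr T x y → gr T x (-y)) → P (gr T) (vs T))
    (hsimp : ∀ σ, AF σ → σ.card = d + 1 → P (kq σ) σ)
    (hlift : ∀ X u v, Circ d X → u ≠ v → (∃ D ∈ X, u ∈ D ∧ v ∈ D) → ¬ gr X u (-v) →
      Circ d (ctr u v X) → (-v ∉ vs X ∨ Big d (vs X)) →
      P (gr (ctr u v X)) (vs (ctr u v X)) → P (gr X) (vs X)) :
    ∀ T, Circ d T → P (gr T) (vs T) := by
  suffices H : ∀ N, ∀ T, Circ d T → (vs T ∪ -vs T).card ≤ N → P (gr T) (vs T) from
    fun T hT => H _ T hT le_rfl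
  intro N
  induction N using Nat.strong_induction_on with
  | _ N ih =>
  have step : ∀ T u v, Circ d T → (vs T ∪ -vs T).card ≤ N → u ≠ v → (∃ D ∈ T, u ∈ D ∧ v ∈ D) →
      ¬ gr T u (-v) →
      (∀ X, Circ d X → vs X ⊆ vs T → -v ∈ vs X → ¬ Big d (vs X) → P (gr X) (vs X)) →
      P (gr T) (vs T) := by
    intro T u v hT hN huv ⟨D, hD, hu, hv⟩ hng hrest
    have h2 : u ≠ -v := fun h => hT.af D hD v hv (h ▸ hu)
    have hx := nox_of_not_gr h2 hng
    have hdeg : ∃ D ∈ T, deg u v D := ⟨D, hD, Or.inl ⟨hu, hv⟩⟩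
    apply fog hglue huv h2 hT hx hdeg
    intro S hS hm
    have hA := (adm_nd hT.toGood hx).mono hS
    have hX := plus_circ huv h2 hA hm
    have hdX := exists_deg_plus huv h2 hT hx hdeg hS hm.1 hm.2.1
    have e1 := gr_nd hX.toGood hX.cyc huv hdX
    have e2 := vs_nd hX.toGood hX.cyc huv
    rw [nd_plus hA] at e1 e2
    have hsub : vs (plus u v S) ⊆ vs T := by
      rw [← e2]; exact vs_mono (hS.trans (filter_subset _ _))
    rcases piece_cases hA hm with ⟨σ, h3, h4, h5, h6⟩ | hc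
    · rw [e1, ← e2, h5, h6]; exact hsimp σ h3 h4
    have hctr : ctr u v (plus u v S) = S.image (fun F => F.image (kap u v)) := by
      rw [ctr, nd_plus hA]
    rw [← hctr] at hc
    have hP' : P (gr (ctr u v (plus u v S))) (vs (ctr u v (plus u v S))) := by
      apply ih _ _ _ hc le_rfl
      refine lt_of_lt_of_le (card_lt_card ?_) hN
      have hmem : ∀ x ∈ vs (ctr u v (plus u v S)), ∃ y ∈ vs T, kap u v y = x := by
        intro x hx
        obtain ⟨F, hF, hxF⟩ := mem_vs.1 hx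
        obtain ⟨G, hG, rfl⟩ := mem_image.1 hF
        obtain ⟨y, hy, rfl⟩ := mem_image.1 hxF
        exact ⟨y, hsub (subset_vs (mem_nd.1 hG).1 hy), rfl⟩
      have huT : u ∈ vs T := subset_vs hD hu
      have hsub2 : ∀ x ∈ vs (ctr u v (plus u v S)), x ∈ vs T ∪ -vs T ∧ -x ∈ vs T ∪ -vs T := by
        intro x hx
        obtain ⟨y, hy, rfl⟩ := hmem x hx
        rcases kap_cases u v y with ⟨-, h⟩ | ⟨-, h⟩ | ⟨-, -, h⟩ <;> rw [h] <;>
          simp [Finset.mem_neg', huT, hy, -mem_vs]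
      rw [ssubset_iff_of_subset]
      · refine ⟨v, mem_union_left _ (subset_vs hD hv), ?_⟩
        intro h
        rcases mem_union.1 h with h | h
        · obtain ⟨y, -, hy⟩ := hmem _ h
          exact kap_ne_v huv h2 y hy
        · obtain ⟨y, -, hy⟩ := hmem _ (Finset.mem_neg'.1 h)
          exact kap_ne_negv huv h2 y hy
      · intro x hx
        rcases mem_union.1 hx with h | h
        · exact (hsub2 x h).1
        · simpa using (hsub2 _ (Finset.mem_neg'.1 h)).2
    have hngX : ¬ gr (plus u v S) u (-v) := not_gr_of_nox (plus_nox hA)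
    by_cases hcase : -v ∉ vs (plus u v S) ∨ Big d (vs (plus u v S))
    · obtain ⟨D', hD', h | h⟩ := hdX
      · exact hlift _ u v hX huv ⟨D', hD', h⟩ hngX hc hcase hP'
      · have hbig : Big d (vs (plus u v S)) :=
          hcase.resolve_left (fun h' => h' (subset_vs hD' h.2))
        apply hlift _ (-u) (-v) hX (by simpa using huv) ⟨D', hD', h⟩ _ (by rwa [ctr_negneg])
          (Or.inr hbig) (by rwa [ctr_negneg])
        exact fun h' => hngX ((sg_gr hX.af).neg' h')
    · push Not at hcase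
      exact hrest _ hX hsub hcase.1 hcase.2
  have part1 : ∀ T, Circ d T → (vs T ∪ -vs T).card ≤ N → ¬ Big d (vs T) → P (gr T) (vs T) := by
    intro T hT hN hbig
    by_cases hex : ∃ u v, u ≠ v ∧ (∃ D ∈ T, u ∈ D ∧ v ∈ D) ∧ ¬ gr T u (-v) ∧ -v ∉ vs T
    · obtain ⟨u, v, h1, h2, h3, h4⟩ := hex
      exact step T u v hT hN h1 h2 h3 (fun X _ hs hv => absurd (hs hv) h4)
    push Not at hex
    have hsg := sg_gr hT.af
    have h0 : ∀ D ∈ T, ∀ u ∈ D, ∀ v ∈ D, u ≠ v → -v ∉ vs T → gr T u (-v) := by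
      intro D hD u hu v hv huv hv'
      by_contra h
      exact hv' (hex u v huv ⟨D, hD, hu, hv⟩ h)
    have h1 : ∀ D ∈ T, ∀ u ∈ D, ∀ v ∈ D, u ≠ v → -v ∉ vs T → -u ∈ vs T := by
      intro D hD u hu v hv huv hv'
      obtain ⟨F, hF, -, h | h⟩ := h0 D hD u hu v hv huv hv'
      · exact absurd (subset_vs hF h.2) hv'
      · exact subset_vs hF h.1
    have key : ∀ F ∈ T, ∀ x ∈ F, ∀ y ∈ F, x ≠ y → gr T x (-y) := by
      intro F hF x hx y hy hxy
      obtain ⟨v, hv, hv'⟩ : ∃ v ∈ F, -v ∉ vs T := by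
        by_contra hcon
        push Not at hcon
        exact hbig ⟨F, hT.af F hF, hT.card F hF, fun x hx => ⟨subset_vs hF hx, hcon x hx⟩⟩
      by_cases hyv : y = v
      · subst hyv; exact h0 F hF x hx y hy hxy hv'
      by_cases hxv : x = v
      · subst hxv
        exact hsg.neg_left (hsg.symm (h0 F hF y hy x hx hxy.symm hv'))
      obtain ⟨z, hz, hF'⟩ := hT.cyc.other hF hy
      have hvF' : v ∈ insert z (F.erase y) := mem_insert_of_mem (mem_erase.2 ⟨Ne.symm hyv, hv⟩)
      have hzy : z = -y := by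
        by_contra hzy
        apply hbig
        refine ⟨insert z (F.erase v), ?_, ?_, ?_⟩
        · apply ((hT.af F hF).mono (erase_subset _ _)).insert
          intro h
          apply hT.af _ hF' z (mem_insert_self _ _)
          refine mem_insert_of_mem (mem_erase.2 ⟨?_, mem_of_mem_erase h⟩)
          intro h'; apply hzy; rw [← h', neg_neg]
        · rw [card_insert_of_notMem (fun h => hz (mem_of_mem_erase h)), card_erase_add_one hv,
            hT.card F hF]
        · intro w hw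
          rcases mem_insert.1 hw with rfl | hw
          · exact ⟨subset_vs hF' (mem_insert_self _ _),
              h1 _ hF' w (mem_insert_self _ _) v hvF' (fun h => hz (h ▸ hv)) hv'⟩
          · exact ⟨subset_vs hF (mem_of_mem_erase hw),
              h1 F hF w (mem_of_mem_erase hw) v hv (ne_of_mem_erase hw) hv'⟩
      subst hzy
      exact ⟨_, hF', fun h => hz (h ▸ hx),
        Or.inl ⟨mem_insert_of_mem (mem_erase.2 ⟨hxy, hx⟩), mem_insert_self _ _⟩⟩
    apply hdbl T hT
    rintro x y ⟨F, hF, hxy, h | h⟩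
    · exact key F hF x h.1 y h.2 hxy
    · exact hsg.neg' (key F hF _ h.1 _ h.2 (by simpa using hxy))
  intro T hT hN
  by_cases hex : ∃ u v, u ≠ v ∧ (∃ D ∈ T, u ∈ D ∧ v ∈ D) ∧ ¬ gr T u (-v)
  · obtain ⟨u, v, h1, h2, h3⟩ := hex
    apply step T u v hT hN h1 h2 h3
    intro X hX hs _ hb
    apply part1 X hX _ hb
    refine le_trans (card_le_card ?_) hN
    exact union_subset_union hs (neg_subset_neg hs)
  push Not at hex
  have hsg := sg_gr hT.af
  apply hdbl T hT
  rintro x y ⟨F, hF, hxy, h | h⟩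
  · exact hex x y hxy ⟨F, hF, h⟩
  · exact hsg.neg' (hex _ _ (by simpa using hxy) ⟨F, hF, h⟩)

end Pool.Agent.MP_d539bc_co

end

section

/-! Unstacking of circuits whose graph is built by simplicial additions. -/

namespace Pool.Agent.MP_d539bc_co

open Finset
open scoped Pointwise symmDiff

variable {V : Type} [Fintype V] [DecidableEq V] [FreeNeg V] {d : ℕ}

omit [Fintype V] in
lemma negneg_finset (Q : Finset V) : - -Q = Q := by ext; simp [Finset.mem_neg']

def bdy (σ : Finset V) : Finset (Finset V) := σ.image (fun r => σ.erase r)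

omit [FreeNeg V] in
lemma cyc_bdy (σ : Finset V) : Cyc (bdy σ) := by
  unfold Cyc
  rw [ind_eq_sum, bdy, sum_image (fun a ha b hb h => erase_injOn σ ha hb h), ← bd_single, bd_bd]

omit [FreeNeg V] in
lemma Cyc.symmDiff {S T : Finset (Finset V)} (hS : Cyc S) (hT : Cyc T) : Cyc (S ∆ T) := by
  have : ind (S ∆ T) = ind S + ind T := by
    funext F
    simp only [ind, mem_symmDiff, Pi.add_apply]
    by_cases h1 : F ∈ S <;> by_cases h2 : F ∈ T <;> simp [h1, h2, zmod2_add_self]
  unfold Cyc at *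
  rw [this, bd_add, hS, hT, add_zero]

omit [Fintype V] [FreeNeg V] in
lemma eq_erase_of_subset {F σ : Finset V} (h : F ⊆ σ) (hc : σ.card = F.card + 1) :
    ∃ r ∈ σ, F = σ.erase r := by
  obtain ⟨r, hr, hr'⟩ : ∃ r ∈ σ, r ∉ F := exists_mem_notMem_of_card_lt_card (by omega)
  refine ⟨r, hr, eq_of_subset_of_card_le (subset_erase.2 ⟨h, hr'⟩) ?_⟩
  rw [card_erase_of_mem hr]; omega

lemma star_faces {Y : Finset (Finset V)} (hY : Good d Y) (hc : Cyc Y) {σ : Finset V} {x : V}
    (hσ : σ.card = d + 1) (hx : ∀ F ∈ Y, x ∈ F → F ⊆ σ) (hex : ∃ F ∈ Y, x ∈ F) :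
    ∀ q ∈ σ, q ≠ x → σ.erase q ∈ Y := by
  obtain ⟨F, hF, hxF⟩ := hex
  obtain ⟨r, hr, rfl⟩ := eq_erase_of_subset (hx F hF hxF) (by rw [hY.card F hF, hσ])
  intro q hq hqx
  by_cases hqr : q = r
  · rwa [hqr]
  obtain ⟨z, hz, hF'⟩ := hc.other hF (mem_erase.2 ⟨hqr, hq⟩)
  have h1 := hx _ hF' (mem_insert_of_mem (mem_erase.2 ⟨hqx.symm, hxF⟩))
  have h2 : z = r := by
    by_contra hne
    exact hz (mem_erase.2 ⟨hne, h1 (mem_insert_self _ _)⟩)
  rwa [h2, erase_right_comm, insert_erase (mem_erase.2 ⟨Ne.symm hqr, hr⟩)] at hF'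

lemma unstack1 {Y : Finset (Finset V)} (hY : Circ d Y) {Q : Finset V} {x : V} (hQ : AF Q)
    (hc : Q.card = d) (hxQ : x ∉ Q) (hx : ∀ F ∈ Y, x ∈ F → F ⊆ insert x Q) :
    (∀ F ∈ Y, F ⊆ insert x Q) ∨ ∃ Y1, Circ d Y1 ∧ (∀ F ∈ Y1, x ∉ F) ∧ (∀ F ∈ Y1, F ∈ Y ∨ F = Q) ∧
      (∀ F ∈ Y, x ∉ F → F ∈ Y1) ∧ ((∃ F ∈ Y, x ∈ F) → Q ∈ Y1 ∧ Q ∉ Y) := by
  by_cases hex : ∃ F ∈ Y, x ∈ F
  swap
  · refine Or.inr ⟨Y, hY, fun F hF h => hex ⟨F, hF, h⟩, fun F hF => Or.inl hF, fun F hF _ => hF,
      fun h => absurd h hex⟩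
  have hσ : (insert x Q).card = d + 1 := by rw [card_insert_of_notMem hxQ, hc]
  have hst := star_faces hY.toGood hY.cyc hσ hx hex
  have hb : ∀ F, F ∈ bdy (insert x Q) ↔ F = Q ∨ (F ∈ Y ∧ x ∈ F) := by
    intro F
    simp only [bdy, mem_image]
    constructor
    · rintro ⟨r, hr, rfl⟩
      by_cases hrx : r = x
      · left; rw [hrx, erase_insert hxQ]
      · exact Or.inr ⟨hst r hr hrx, mem_erase.2 ⟨Ne.symm hrx, mem_insert_self _ _⟩⟩
    · rintro (rfl | ⟨h1, h2⟩)
      · exact ⟨x, mem_insert_self _ _, erase_insert hxQ⟩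
      · obtain ⟨r, hr, h3⟩ := eq_erase_of_subset (hx F h1 h2) (by rw [hY.card F h1, hσ])
        exact ⟨r, hr, h3.symm⟩
  by_cases hQY : Q ∈ Y
  · left
    have : bdy (insert x Q) = Y := by
      apply hY.min _ _ ⟨Q, (hb Q).2 (Or.inl rfl)⟩ (cyc_bdy _)
      intro F hF
      rcases (hb F).1 hF with rfl | h
      · exact hQY
      · exact h.1
    intro F hF
    rw [← this] at hF
    obtain ⟨r, -, rfl⟩ := mem_image.1 hF
    exact erase_subset _ _
  right
  have hm : ∀ F, F ∈ Y ∆ bdy (insert x Q) ↔ F = Q ∨ (F ∈ Y ∧ x ∉ F) := by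
    intro F
    rw [mem_symmDiff, hb]
    by_cases h1 : F = Q
    · subst h1; simp [hQY]
    · tauto
  refine ⟨Y ∆ bdy (insert x Q), ⟨⟨?_, ?_⟩, ⟨Q, (hm Q).2 (Or.inl rfl)⟩,
    hY.cyc.symmDiff (cyc_bdy _), ?_⟩, ?_, ?_, ?_, fun _ => ⟨(hm Q).2 (Or.inl rfl), hQY⟩⟩
  · intro F hF
    rcases (hm F).1 hF with rfl | h
    · exact hc
    · exact hY.card F h.1
  · intro F hF
    rcases (hm F).1 hF with rfl | h
    · exact hQ
    · exact hY.af F h.1
  · intro Z hZ hne hcZ
    obtain ⟨F0, hF0, hxF0⟩ := hex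
    have hF0Z : F0 ∉ Z := fun h => by
      rcases (hm F0).1 (hZ h) with rfl | h
      · exact hQY hF0
      · exact h.2 hxF0
    by_cases hQZ : Q ∈ Z
    · have : Z ∆ bdy (insert x Q) = Y := by
        apply hY.min _ _ ⟨F0, mem_symmDiff.2 (Or.inr ⟨(hb _).2 (Or.inr ⟨hF0, hxF0⟩), hF0Z⟩)⟩
          (hcZ.symmDiff (cyc_bdy _))
        intro F hF
        rcases mem_symmDiff.1 hF with h | h
        · rcases (hm F).1 (hZ h.1) with rfl | h'
          · exact absurd ((hb _).2 (Or.inl rfl)) h.2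
          · exact h'.1
        · rcases (hb F).1 h.1 with rfl | h'
          · exact absurd hQZ h.2
          · exact h'.1
      rw [← this, symmDiff_symmDiff_cancel_right]
    · exfalso
      have : Z = Y := by
        apply hY.min _ _ hne hcZ
        intro F hF
        rcases (hm F).1 (hZ hF) with rfl | h'
        · exact absurd hF hQZ
        · exact h'.1
      exact hF0Z (this ▸ hF0)
  · intro F hF
    rcases (hm F).1 hF with rfl | h
    · exact hxQ
    · exact h.2
  · intro F hF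
    rcases (hm F).1 hF with rfl | h
    · exact Or.inr rfl
    · exact Or.inl h.1
  · intro F hF hxF
    exact (hm F).2 (Or.inr ⟨hF, hxF⟩)

omit [Fintype V] in
lemma AddS.face_sub {G : V → V → Prop} {Q : Finset V} {x : V} (hS : AddS d G Q x)
    {Y : Finset (Finset V)} (e : gr Y = G ⊔ kq (insert x Q)) :
    ∀ F ∈ Y, x ∈ F → F ⊆ insert x Q := by
  intro F hF hx y hy
  by_cases h : x = y
  · rw [h]; exact mem_insert_self _ _
  · exact mem_insert_of_mem (hS.nbr.1 (e ▸ clique_gr hF x hx y hy h))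

lemma unstack2 (hd : 1 ≤ d) {G : V → V → Prop} {Q : Finset V} {x : V} (hS : AddS d G Q x)
    {Y : Finset (Finset V)} (hY : Circ d Y) (e : gr Y = G ⊔ kq (insert x Q)) :
    (∀ F ∈ Y, F ⊆ insert x Q) ∨ (∀ F ∈ Y, F ⊆ insert (-x) (-Q)) ∨
      ∃ Y2, Circ d Y2 ∧ gr Y2 = G ∧ (∀ F ∈ Y2, F ∈ Y ∨ F = Q ∨ F = -Q) ∧
        (∀ F ∈ Y2, x ∉ F ∧ -x ∉ F) ∧ (∀ F ∈ Y, x ∉ F → -x ∉ F → F ∈ Y2) ∧
        ((∃ F ∈ Y, x ∈ F) → Q ∈ Y2 ∧ Q ∉ Y) ∧ ((∃ F ∈ Y, -x ∈ F) → -Q ∈ Y2 ∧ -Q ∉ Y) := by
  have hQ := hS.clique.af hS.sg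
  have f1 := hS.face_sub e
  have f2 := hS.neg.face_sub (e.trans (by rw [AddS.kq_neg_insert]))
  rcases unstack1 hY hQ hS.card hS.notin f1 with h | ⟨Y1, hY1, a1, a2, a3, a4⟩
  · exact Or.inl h
  right
  have f3 : ∀ F ∈ Y1, -x ∈ F → F ⊆ insert (-x) (-Q) := by
    intro F hF hx
    rcases a2 F hF with h | rfl
    · exact f2 F h hx
    · exact absurd hx hS.negnotin
  obtain ⟨q0, hq0⟩ : Q.Nonempty := card_pos.1 (by rw [hS.card]; omega)
  have hQn : ¬ Q ⊆ insert (-x) (-Q) := by
    intro h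
    rcases mem_insert.1 (h hq0) with h' | h'
    · exact hS.negnotin (h' ▸ hq0)
    · exact hQ q0 hq0 (Finset.mem_neg'.1 h')
  rcases unstack1 hY1 hQ.neg hS.neg.card hS.neg.notin f3 with h | ⟨Y2, hY2, b1, b2, b3, b4⟩
  · left
    intro F hF
    apply h F (a3 F hF _)
    intro hx
    exact hQn (h Q (a4 ⟨F, hF, hx⟩).1)
  right
  have c1 : ∀ F ∈ Y2, F ∈ Y ∨ F = Q ∨ F = -Q := by
    intro F hF
    rcases b2 F hF with h | h
    · exact (a2 F h).imp_right Or.inl
    · exact Or.inr (Or.inr h)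
  have c2 : ∀ F ∈ Y2, x ∉ F ∧ -x ∉ F := by
    intro F hF
    refine ⟨?_, b1 F hF⟩
    rcases b2 F hF with h | rfl
    · exact a1 F h
    · simpa [Finset.mem_neg'] using hS.negnotin
  have c3 : ∀ F ∈ Y, x ∉ F → -x ∉ F → F ∈ Y2 := fun F hF h1 h2 => b3 F (a3 F hF h1) h2
  have c4 : (∃ F ∈ Y, x ∈ F) → Q ∈ Y2 ∧ Q ∉ Y := fun h =>
    ⟨b3 Q (a4 h).1 hS.negnotin, (a4 h).2⟩
  have c5 : (∃ F ∈ Y, -x ∈ F) → -Q ∈ Y2 ∧ -Q ∉ Y := by
    rintro ⟨F, hF, hx⟩
    have := b4 ⟨F, a3 F hF (fun h => hY.af F hF x h hx), hx⟩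
    exact ⟨this.1, fun h => this.2 (a3 _ h (by simpa [Finset.mem_neg'] using hS.negnotin))⟩
  refine ⟨Y2, hY2, ?_, c1, c2, c3, c4, c5⟩
  apply le_antisymm
  · rintro a b ⟨F, hF, hab⟩
    refine kq_le_of_clique hS.sg ?_ a b hab
    rcases c1 F hF with h | rfl | rfl
    · intro a ha b hb hab
      exact hS.old (e ▸ clique_gr h a ha b hb hab) (fun e => (c2 F hF).1 (e ▸ ha))
        (fun e => (c2 F hF).2 (e ▸ ha)) (fun e => (c2 F hF).1 (e ▸ hb))
        (fun e => (c2 F hF).2 (e ▸ hb))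
    · exact hS.clique
    · exact hS.neg.clique
  · have key : ∀ a b, G a b → ∀ F ∈ Y, a ∈ F → b ∈ F → gr Y2 a b := by
      intro a b hab F hF ha hb
      have hne := hS.ne_of_adj hab
      by_cases h1 : x ∈ F
      · exact clique_gr (c4 ⟨F, hF, h1⟩).1 a ((mem_insert.1 (f1 F hF h1 ha)).resolve_left hne.1)
          b ((mem_insert.1 (f1 F hF h1 hb)).resolve_left hne.2.2.1) (hS.sg.ne hab)
      by_cases h2 : -x ∈ F
      · exact clique_gr (c5 ⟨F, hF, h2⟩).1 a ((mem_insert.1 (f2 F hF h2 ha)).resolve_left hne.2.1)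
          b ((mem_insert.1 (f2 F hF h2 hb)).resolve_left hne.2.2.2) (hS.sg.ne hab)
      exact clique_gr (c3 F hF h1 h2) a ha b hb (hS.sg.ne hab)
    intro a b hab
    obtain ⟨F, hF, -, h | h⟩ := (e ▸ Or.inl hab : gr Y a b)
    · exact key a b hab F hF h.1 h.2
    · exact (sg_gr hY2.af).neg' (key _ _ (hS.sg.neg hab) F hF h.1 h.2)

omit [Fintype V] in
lemma transversal {S Q : Finset V} (hS : AF S) (hc : S.card = Q.card)
    (h : ∀ x ∈ S, x ∈ Q ∨ -x ∈ Q) {y : V} (hy : y ∈ Q ∨ -y ∈ Q) : y ∈ S ∨ -y ∈ S := by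
  by_contra hcon
  push Not at hcon
  have := card_le_of_pm (hS.insert hcon.2) (Q := Q) (by
    intro x hx
    rcases mem_insert.1 hx with rfl | hx
    · exact hy
    · exact h x hx)
  rw [card_insert_of_notMem hcon.1] at this
  omega

lemma cross_sub {Y : Finset (Finset V)} (hY : Circ d Y) {Q : Finset V} (hc : Q.card = d)
    (h : ∀ F ∈ Y, ∀ x ∈ F, x ∈ Q ∨ -x ∈ Q) (S : Finset V) :
    AF S → (∀ x ∈ S, x ∈ Q ∨ -x ∈ Q) → ∃ F ∈ Y, S ⊆ F := by
  induction S using Finset.induction_on with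
  | empty => intro _ _; obtain ⟨F, hF⟩ := hY.nonempty; exact ⟨F, hF, empty_subset _⟩
  | insert a S _ ih =>
    intro hS hSQ
    obtain ⟨F, hF, hs⟩ := ih (hS.mono (subset_insert _ _)) (fun x hx => hSQ x (mem_insert_of_mem hx))
    have tr := fun y hy => transversal (hY.af F hF) ((hY.card F hF).trans hc.symm) (h F hF) (y := y) hy
    rcases tr a (hSQ a (mem_insert_self _ _)) with ha | ha
    · exact ⟨F, hF, insert_subset ha hs⟩
    obtain ⟨z, hz, hF'⟩ := hY.cyc.other hF ha
    have hz' := (tr z (h _ hF' z (mem_insert_self _ _))).resolve_left hz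
    have hza : z = a := by
      by_contra hne
      exact hY.af _ hF' z (mem_insert_self _ _)
        (mem_insert_of_mem (mem_erase.2 ⟨by simpa using hne, hz'⟩))
    subst hza
    refine ⟨_, hF', insert_subset_insert _ (subset_erase.2 ⟨hs, fun h => ?_⟩)⟩
    exact hS z (mem_insert_self _ _) (mem_insert_of_mem h)

omit [Fintype V] [DecidableEq V] in
lemma face_pm_of_oct (hd : 2 ≤ d) {Y : Finset (Finset V)} (hY : Good d Y) {Q : Finset V}
    (e : gr Y ≤ oct Q) : ∀ F ∈ Y, ∀ x ∈ F, x ∈ Q ∨ -x ∈ Q := by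
  intro F hF x hx
  obtain ⟨y, hy, hyx⟩ := exists_mem_ne (s := F) (by rw [hY.card F hF]; omega) x
  exact (e _ _ (clique_gr hF x hx y hy hyx.symm)).2.2.1

omit [Fintype V] in
lemma clique_kq_sub {Q D : Finset V} (hQ : AF Q) (h : Clique (kq Q) D) (hD : 2 ≤ D.card) :
    D ⊆ Q ∨ D ⊆ -Q := by
  obtain ⟨x, hx⟩ : D.Nonempty := card_pos.1 (by omega)
  obtain ⟨y, hy, hyx⟩ := exists_mem_ne (s := D) (by omega) x
  rcases (h x hx y hy hyx.symm).2 with h1 | h1
  · left
    intro z hz
    by_cases hzx : x = z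
    · exact hzx ▸ h1.1
    · rcases (h x hx z hz hzx).2 with h2 | h2
      · exact h2.2
      · exact absurd h2.1 (hQ x h1.1)
  · right
    intro z hz
    rw [Finset.mem_neg']
    by_cases hzx : x = z
    · exact hzx ▸ h1.1
    · rcases (h x hx z hz hzx).2 with h2 | h2
      · exact absurd h1.1 (hQ x h2.1)
      · exact h2.2

omit [Fintype V] in
lemma clique_kq_eq {Q D : Finset V} (hQ : AF Q) (h : Clique (kq Q) D) (hD : 2 ≤ D.card)
    (hc : Q.card = D.card) : D = Q ∨ D = -Q :=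
  (clique_kq_sub hQ h hD).imp (fun h => eq_of_subset_of_card_le h hc.le)
    (fun h => eq_of_subset_of_card_le h (by rw [card_neg, hc]))

lemma not_gr_eq_kq (hd : 2 ≤ d) {Y : Finset (Finset V)} (hY : Circ d Y) {Q : Finset V} (hQ : AF Q)
    (hc : Q.card = d) (e : gr Y = kq Q) : False := by
  have key : ∀ F ∈ Y, F = Q ∨ F = -Q := fun F hF =>
    clique_kq_eq hQ (e ▸ clique_gr hF) (by rw [hY.card F hF]; exact hd) (by rw [hY.card F hF, hc])
  obtain ⟨F, hF⟩ := hY.nonempty
  obtain ⟨x, hx⟩ : F.Nonempty := card_pos.1 (by rw [hY.card F hF]; omega)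
  obtain ⟨y, hy, hyx⟩ := exists_mem_ne (s := F) (by rw [hY.card F hF]; omega) x
  obtain ⟨z, hz, hF'⟩ := hY.cyc.other hF hy
  have hx' : x ∈ insert z (F.erase y) := mem_insert_of_mem (mem_erase.2 ⟨hyx.symm, hx⟩)
  have hz' : z ∈ insert z (F.erase y) := mem_insert_self _ _
  rcases key F hF with h1 | h1 <;> rcases key _ hF' with h2 | h2 <;> rw [h2] at hx' hz' <;>
    rw [h1] at hx hz
  · exact hz hz'
  · exact hQ x hx (Finset.mem_neg'.1 hx')
  · exact hQ x hx' (Finset.mem_neg'.1 hx)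
  · exact hz hz'

/-- every triangle of the graph lies in a face up to sign -/
theorem Built.tri (hd : 4 ≤ d) {f : Bool} {G : V → V → Prop} (hb : Built d f G) :
    ∀ Y, Circ d Y → gr Y = G → ∀ a b c, G a b → G a c → G b c →
      ∃ F ∈ Y, (a ∈ F ∧ b ∈ F ∧ c ∈ F) ∨ (-a ∈ F ∧ -b ∈ F ∧ -c ∈ F) := by
  induction hb with
  | baseA Q hQ hc =>
    intro Y hY e
    exact (not_gr_eq_kq (by omega) hY hQ hc e).elim
  | baseB Q hQ hc =>
    intro Y hY e a b c hab hac hbc
    have hcl : Clique (oct Q) {a, b, c} := by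
      have hs := sg_oct Q
      intro x hx y hy hxy
      simp only [mem_insert, mem_singleton] at hx hy
      rcases hx with rfl | rfl | rfl <;> rcases hy with rfl | rfl | rfl <;>
        first | exact absurd rfl hxy | assumption | exact hs.symm (by assumption)
    obtain ⟨F, hF, hs⟩ := cross_sub hY hc (face_pm_of_oct (by omega) hY.toGood e.le) {a, b, c}
      (hcl.af (sg_oct Q)) (by
        intro x hx
        simp only [mem_insert, mem_singleton] at hx
        rcases hx with rfl | rfl | rfl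
        · exact hab.2.2.1
        · exact hab.2.2.2
        · exact hac.2.2.2)
    exact ⟨F, hF, Or.inl ⟨hs (by simp), hs (by simp), hs (by simp)⟩⟩
  | add f G Q x _ hS ih =>
    intro Y hY e
    have hsg := hS.sg'
    have f1 := hS.face_sub e
    have f2 := hS.neg.face_sub (e.trans (by rw [AddS.kq_neg_insert]))
    have hσ : (insert x Q).card = d + 1 := by rw [card_insert_of_notMem hS.notin, hS.card]
    have hσ' : (insert (-x) (-Q)).card = d + 1 := by
      rw [card_insert_of_notMem hS.neg.notin, hS.neg.card]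
    have H : ∀ a ∈ insert x Q, ∀ b ∈ insert x Q, ∀ c ∈ insert x Q,
        ∃ F ∈ Y, (a ∈ F ∧ b ∈ F ∧ c ∈ F) ∨ (-a ∈ F ∧ -b ∈ F ∧ -c ∈ F) := by
      intro a ha b hb c hc
      obtain ⟨q, hq, hq'⟩ : ∃ q ∈ Q, q ∉ ({a, b, c} : Finset V) := by
        apply exists_mem_notMem_of_card_lt_card
        have : ({a, b, c} : Finset V).card ≤ 3 := card_le_three
        rw [hS.card]; omega
      simp only [mem_insert, mem_singleton, not_or] at hq'
      have hqx : q ≠ x := fun e => hS.notin (e ▸ hq)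
      obtain ⟨F, hF, -, h | h⟩ := (e ▸ hS.nbr.2 hq : gr Y x q)
      · refine ⟨_, star_faces hY.toGood hY.cyc hσ f1 ⟨F, hF, h.1⟩ q (mem_insert_of_mem hq) hqx,
          Or.inl ⟨mem_erase.2 ⟨Ne.symm hq'.1, ha⟩, mem_erase.2 ⟨Ne.symm hq'.2.1, hb⟩,
            mem_erase.2 ⟨Ne.symm hq'.2.2, hc⟩⟩⟩
      · have hm : ∀ y ∈ insert x Q, q ≠ y → -y ∈ (insert (-x) (-Q)).erase (-q) := by
          intro y hy hqy
          simpa [Finset.mem_neg', hqy.symm] using hy
        refine ⟨_, star_faces hY.toGood hY.cyc hσ' f2 ⟨F, hF, h.1⟩ (-q)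
          (by simp [Finset.mem_neg', hq]) (by simpa using hqx),
          Or.inr ⟨hm a ha hq'.1, hm b hb hq'.2.1, hm c hc hq'.2.2⟩⟩
    have H' : ∀ a b c, -a ∈ insert x Q → -b ∈ insert x Q → -c ∈ insert x Q →
        ∃ F ∈ Y, (a ∈ F ∧ b ∈ F ∧ c ∈ F) ∨ (-a ∈ F ∧ -b ∈ F ∧ -c ∈ F) := by
      intro a b c ha hb hc
      obtain ⟨F, hF, h⟩ := H _ ha _ hb _ hc
      simp only [neg_neg] at h
      exact ⟨F, hF, h.symm⟩
    have H2 : ∀ a b c, kq (insert x Q) a b → kq (insert x Q) a c →
        ∃ F ∈ Y, (a ∈ F ∧ b ∈ F ∧ c ∈ F) ∨ (-a ∈ F ∧ -b ∈ F ∧ -c ∈ F) := by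
      rintro a b c ⟨-, h1 | h1⟩ ⟨-, h2 | h2⟩
      · exact H a h1.1 b h1.2 c h2.2
      · exact absurd h2.1 (hS.af a h1.1)
      · exact absurd h1.1 (hS.af a h2.1)
      · exact H' a b c h1.1 h1.2 h2.2
    have hx : ∀ a y, (a = x ∨ a = -x) → (G ⊔ kq (insert x Q)) a y → kq (insert x Q) a y := by
      rintro a y ha (h | h)
      · have := hS.ne_of_adj h; tauto
      · exact h
    intro a b c hab hac hbc
    by_cases ha : a = x ∨ a = -x
    · exact H2 a b c (hx a b ha hab) (hx a c ha hac)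
    by_cases hb : b = x ∨ b = -x
    · obtain ⟨F, hF, h⟩ := H2 b a c (hx b a hb (hsg.symm hab)) (hx b c hb hbc)
      exact ⟨F, hF, by tauto⟩
    by_cases hc : c = x ∨ c = -x
    · obtain ⟨F, hF, h⟩ := H2 c a b (hx c a hc (hsg.symm hac)) (hx c b hc (hsg.symm hbc))
      exact ⟨F, hF, by tauto⟩
    push Not at ha hb hc
    rcases unstack2 (by omega) hS hY e with h | h | ⟨Y2, hY2, e2, c1, -⟩
    · have : gr Y ≤ kq (insert x Q) := fun a b ⟨F, hF, h'⟩ => kq_mono (h F hF) a b h'
      exact H2 a b c (this _ _ (e ▸ hab)) (this _ _ (e ▸ hac))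
    · have : gr Y ≤ kq (insert x Q) := fun a b ⟨F, hF, h'⟩ => by
        rw [← AddS.kq_neg_insert]; exact kq_mono (h F hF) a b h'
      exact H2 a b c (this _ _ (e ▸ hab)) (this _ _ (e ▸ hac))
    obtain ⟨F, hF, h⟩ := ih Y2 hY2 e2 a b c (hS.old hab ha.1 ha.2 hb.1 hb.2)
      (hS.old hac ha.1 ha.2 hc.1 hc.2) (hS.old hbc hb.1 hb.2 hc.1 hc.2)
    rcases c1 F hF with h' | rfl | rfl
    · exact ⟨F, h', h⟩
    · rcases h with h | h
      · exact H a (mem_insert_of_mem h.1) b (mem_insert_of_mem h.2.1) c (mem_insert_of_mem h.2.2)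
      · exact H' a b c (mem_insert_of_mem h.1) (mem_insert_of_mem h.2.1) (mem_insert_of_mem h.2.2)
    · simp only [Finset.mem_neg', neg_neg] at h
      rcases h with h | h
      · exact H' a b c (mem_insert_of_mem h.1) (mem_insert_of_mem h.2.1) (mem_insert_of_mem h.2.2)
      · exact H a (mem_insert_of_mem h.1) b (mem_insert_of_mem h.2.1) c (mem_insert_of_mem h.2.2)

open Classical in
/-- facets of the cross polytope on the classes of `Q` -/
noncomputable def crossF (d : ℕ) (Q : Finset V) : Finset (Finset V) :=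
  univ.filter (fun F => F.card = d ∧ AF F ∧ ∀ x ∈ F, x ∈ Q ∨ -x ∈ Q)

def stackF (T : Finset (Finset V)) (Q : Finset V) (x : V) : Finset (Finset V) :=
  ((T.erase Q).erase (-Q) ∪ Q.image (fun q => (insert x Q).erase q)) ∪
    (-Q).image (fun q => (insert (-x) (-Q)).erase q)

inductive SS (d : ℕ) : Finset (Finset V) → Prop
  | base (Q : Finset V) : AF Q → Q.card = d → SS d (crossF d Q)
  | step (T : Finset (Finset V)) (Q : Finset V) (x : V) : SS d T → Q ∈ T →
      (∀ F ∈ T, x ∉ F ∧ -x ∉ F) → SS d (stackF T Q x)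

theorem Built.ss (hd : 2 ≤ d) {f : Bool} {G : V → V → Prop} (hb : Built d f G) :
    ∀ T, Circ d T → (∀ F ∈ T, -F ∈ T) → gr T = G → SS d T := by
  induction hb with
  | baseA Q hQ hc =>
    intro Y hY _ e
    exact (not_gr_eq_kq hd hY hQ hc e).elim
  | baseB Q hQ hc =>
    intro Y hY _ e
    have h1 := face_pm_of_oct hd hY.toGood e.le
    have : Y = crossF d Q := by
      ext F
      simp only [crossF, mem_filter, mem_univ, true_and]
      refine ⟨fun hF => ⟨hY.card F hF, hY.af F hF, h1 F hF⟩, fun h => ?_⟩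
      obtain ⟨F', hF', hs⟩ := cross_sub hY hc h1 F h.2.1 h.2.2
      rwa [eq_of_subset_of_card_le hs (by rw [hY.card F' hF', h.1])]
    rw [this]
    exact SS.base Q hQ hc
  | add f G Q x _ hS ih =>
    intro Y hY hsym e
    have f1 := hS.face_sub e
    have f2 := hS.neg.face_sub (e.trans (by rw [AddS.kq_neg_insert]))
    have hσ : (insert x Q).card = d + 1 := by rw [card_insert_of_notMem hS.notin, hS.card]
    have hσ' : (insert (-x) (-Q)).card = d + 1 := by
      rw [card_insert_of_notMem hS.neg.notin, hS.neg.card]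
    have hns : ∀ σ : Finset V, AF σ → ¬ ∀ F ∈ Y, F ⊆ σ := by
      intro σ hσ h
      obtain ⟨F, hF⟩ := hY.nonempty
      obtain ⟨y, hy⟩ : F.Nonempty := card_pos.1 (by rw [hY.card F hF]; omega)
      exact hσ y (h F hF hy) (h _ (hsym F hF) (by simpa [Finset.mem_neg'] using hy))
    rcases unstack2 (by omega) hS hY e with h | h | ⟨Y2, hY2, e2, c1, c2, c3, c4, c5⟩
    · exact absurd h (hns _ hS.af)
    · exact absurd h (hns _ hS.neg.af)
    obtain ⟨q0, hq0⟩ : Q.Nonempty := card_pos.1 (by rw [hS.card]; omega)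
    have hex : ∃ F ∈ Y, x ∈ F := by
      obtain ⟨F, hF, -, h | h⟩ := (e ▸ hS.nbr.2 hq0 : gr Y x q0)
      · exact ⟨F, hF, h.1⟩
      · exact ⟨-F, hsym F hF, Finset.mem_neg'.2 h.1⟩
    have hex' : ∃ F ∈ Y, -x ∈ F := by
      obtain ⟨F, hF, h⟩ := hex
      exact ⟨-F, hsym F hF, by simpa [Finset.mem_neg'] using h⟩
    have s1 := star_faces hY.toGood hY.cyc hσ f1 hex
    have s2 := star_faces hY.toGood hY.cyc hσ' f2 hex'
    have hsym2 : ∀ F ∈ Y2, -F ∈ Y2 := by
      intro F hF
      rcases c1 F hF with h | rfl | rfl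
      · exact c3 _ (hsym F h) (by simpa [Finset.mem_neg'] using (c2 F hF).2)
          (by simpa [Finset.mem_neg'] using (c2 F hF).1)
      · exact (c5 hex').1
      · rw [negneg_finset]; exact (c4 hex).1
    have : Y = stackF Y2 Q x := by
      ext F
      simp only [stackF, mem_union, mem_erase, mem_image]
      constructor
      · intro hF
        by_cases h1 : x ∈ F
        · obtain ⟨r, hr, rfl⟩ := eq_erase_of_subset (f1 F hF h1) (by rw [hY.card F hF, hσ])
          exact Or.inl (Or.inr ⟨r, (mem_insert.1 hr).resolve_left (ne_of_mem_erase h1).symm, rfl⟩)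
        by_cases h2 : -x ∈ F
        · obtain ⟨r, hr, rfl⟩ := eq_erase_of_subset (f2 F hF h2) (by rw [hY.card F hF, hσ'])
          exact Or.inr ⟨r, (mem_insert.1 hr).resolve_left (ne_of_mem_erase h2).symm, rfl⟩
        exact Or.inl (Or.inl ⟨fun h => (c5 hex').2 (h ▸ hF), fun h => (c4 hex).2 (h ▸ hF),
          c3 F hF h1 h2⟩)
      · rintro ((⟨h1, h2, h3⟩ | ⟨r, hr, rfl⟩) | ⟨r, hr, rfl⟩)
        · rcases c1 F h3 with h | h | h
          · exact h
          · exact absurd h h2
          · exact absurd h h1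
        · exact s1 r (mem_insert_of_mem hr) (fun e => hS.notin (e ▸ hr))
        · exact s2 r (mem_insert_of_mem hr) (fun e => hS.neg.notin (e ▸ hr))
    rw [this]
    exact SS.step Y2 Q x (ih Y2 hY2 hsym2 e2) (c4 hex).1 c2

end Pool.Agent.MP_d539bc_co

end
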