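import Pool.Agent.Mg.F5cfbf6.G387b34
import Pool.Agent.Mg.F5cfbf6.G52ca4d
import Pool.Agent.Mg.F5cfbf6.G807fc3
import Pool.Agent.Mg.F5cfbf6.Gd501be

/-! The same construction with an arbitrary constant. -/

namespace Pool.Agent.MP_6a6613_co

namespace Strong

open Set Final

open Pool.Agent.MP_d539bc_co (realization HasDim IsSphere PM pm_of_sphere pure_of_lc
  lc_of_charted Eu LC)

open Classical in
/-- The statement with an arbitrary constant. -/
def TargetC (C : ℕ) : Prop :=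
  ∃ d m : ℕ, 2 ≤ d ∧
    ∃ K : Geometry.SimplicialComplex ℝ (EuclideanSpace ℝ (Fin m)),
      K.faces.Finite ∧
      Nonempty (K.space ≃ₜ Metric.sphere (0 : EuclideanSpace ℝ (Fin d)) 1) ∧
      (∀ s ∈ K.facets, s.card = d) ∧
      (SimpleGraph.fromRel (fun s t : K.facets => (s.1 ∩ t.1).card + 1 = d)).Connected ∧
      C * K.vertices.ncard ≤
        (SimpleGraph.fromRel (fun s t : K.facets => (s.1 ∩ t.1).card + 1 = d)).diam

theorem core (C : ℕ) {m d : ℕ} (A : AbstractSimplicialComplex (Fin m)) (hd : 2 ≤ d)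
    (e : realization A ≃ₜ Metric.sphere (0 : EuclideanSpace ℝ (Fin d)) 1)
    (Φ : Finset (Fin m) → ℤ) (z0 z1 : Fin m)
    (hlip : ∀ F ∈ A.faces, ∀ G ∈ A.faces, F.card = d → G.card = d → (F ∩ G).card + 1 = d →
      Φ G ≤ Φ F + 1)
    (h0 : ∀ F ∈ A.faces, F.card = d → z0 ∈ F → Φ F ≤ 0)
    (h1 : ∀ F ∈ A.faces, F.card = d → z1 ∈ F → C * (m : ℤ) ≤ Φ F) : TargetC C := by
  classical
  obtain ⟨k, rfl⟩ : ∃ k, d = k + 1 := ⟨d - 1, by omega⟩
  have hdim : HasDim A (k + 1) := by
    obtain ⟨s, hs, hmax⟩ := (toFinite A.faces).toFinset.exists_max_image Finset.card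
      ⟨{z0}, (Finite.mem_toFinset _).2 (A.singleton_mem z0)⟩
    have hd' : HasDim A s.card :=
      ⟨fun t ht => hmax t ((Finite.mem_toFinset _).2 ht), s, (Finite.mem_toFinset _).1 hs, rfl⟩
    have c : ChartedSpace (Eu k) (realization A) := e.symm.chartedSpace
    have hc : ∀ x ∈ realization A, LC (realization A) k x := fun x hx => lc_of_charted c hx
    rw [(pure_of_lc hc hd').1]
    exact hd'
  have hp : PM A (k + 1) := pm_of_sphere hd hdim ⟨k, ⟨e⟩⟩
  unfold TargetC
  refine ⟨k + 1, m, hd, geo A, ?_, ⟨?_⟩, ?_, ?_⟩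
  · exact ((toFinite A.faces).image (Finset.map (bv m))).subset fun F hF => hF
  · exact ((PiLp.homeomorph 2 fun _ : Fin m => ℝ).subtype fun x => mem_space).trans e
  · intro F hF
    obtain ⟨s, -, hc, rfl⟩ := (mem_facets hdim hp).1 hF
    rw [Finset.card_map, hc]
  · have hn : (geo A).vertices.ncard ≤ m := by
      have : (geo A).vertices ⊆ bv m '' univ := by
        rintro x ⟨s, -, hs⟩
        have : x ∈ s.map (bv m) := hs ▸ Finset.mem_singleton_self x
        obtain ⟨i, -, rfl⟩ := Finset.mem_map.1 this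
        exact ⟨i, mem_univ _, rfl⟩
      refine (ncard_le_ncard this (toFinite _)).trans ((ncard_image_le).trans ?_)
      simp [ncard_univ]
    have hfin : Finite (geo A).facets :=
      (((toFinite A.faces).image (Finset.map (bv m))).subset fun F hF =>
        Geometry.SimplicialComplex.facets_subset hF).to_subtype
    generalize hH : SimpleGraph.fromRel _ = H
    have hadj : ∀ (s t : Finset (Fin m)) (hs : s.map (bv m) ∈ (geo A).facets)
        (ht : t.map (bv m) ∈ (geo A).facets),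
        H.Adj ⟨_, hs⟩ ⟨_, ht⟩ ↔ s ≠ t ∧ (s ∩ t).card + 1 = k + 1 := by
      intro s t hs ht
      rw [← hH, SimpleGraph.fromRel_adj]
      simp only [← Finset.map_inter, Finset.card_map, ne_eq, Subtype.mk.injEq, Finset.map_inj,
        Finset.inter_comm t s, or_self]
    have hmk : ∀ s ∈ A.faces, s.card = k + 1 → s.map (bv m) ∈ (geo A).facets :=
      fun s hs hc => (mem_facets hdim hp).2 ⟨s, hs, hc, rfl⟩
    obtain ⟨F0, hF0, hz0, c0⟩ := hp.pure _ (A.singleton_mem z0)
    obtain ⟨F1, hF1, hz1, c1⟩ := hp.pure _ (A.singleton_mem z1)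
    have hreach : ∀ v, H.Reachable ⟨_, hmk F0 hF0 c0⟩ v := by
      rintro ⟨F, hF⟩
      obtain ⟨s, hs, hc, rfl⟩ := (mem_facets hdim hp).1 hF
      have := hp.strong (fun s => ∀ h : s.map (bv m) ∈ (geo A).facets,
        H.Reachable ⟨_, hmk F0 hF0 c0⟩ ⟨_, h⟩) (fun R z z' hR hz hz' f1 f2 ih h => by
          have a1 := hmk _ f1 (by rw [Finset.card_insert_of_notMem hz, hR])
          by_cases ezz : z = z'
          · subst ezz; exact ih h
          · refine (ih a1).trans (SimpleGraph.Adj.reachable ((hadj _ _ a1 h).2 ⟨fun e => ?_, ?_⟩))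
            · have : z ∈ insert z' R := e ▸ Finset.mem_insert_self z R
              rcases Finset.mem_insert.1 this with a | a
              exacts [ezz a, hz a]
            · rw [← hR]
              congr 2
              ext v
              simp only [Finset.mem_inter, Finset.mem_insert]
              constructor
              · rintro ⟨a | a, b | b⟩
                exacts [absurd (a.symm.trans b) ezz, b, a, a]
              · exact fun a => ⟨Or.inr a, Or.inr a⟩)
        F0 hF0 s hs c0 hc (fun _ => SimpleGraph.Reachable.refl _)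
      exact this hF
    have hne : Nonempty (geo A).facets := ⟨⟨_, hmk F0 hF0 c0⟩⟩
    have hconn : H.Connected := ⟨fun u v => (hreach u).symm.trans (hreach v)⟩
    have hdiam := SimpleGraph.dist_le_diam (SimpleGraph.connected_iff_ediam_ne_top.1 hconn)
      (u := ⟨_, hmk F0 hF0 c0⟩) (v := ⟨_, hmk F1 hF1 c1⟩)
    obtain ⟨p, hp'⟩ := hconn.exists_walk_length_eq_dist ⟨_, hmk F0 hF0 c0⟩ ⟨_, hmk F1 hF1 c1⟩
    have hpre : ∀ s : Finset (Fin m), pre (bv m) (s.map (bv m)) = s := fun s => by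
      ext i; simp
    have hw := walk_bound (H := H) (fun F => Φ (pre (bv m) F.1)) (by
      rintro ⟨F, hF⟩ ⟨G, hG⟩ h
      obtain ⟨s, hs, hc, rfl⟩ := (mem_facets hdim hp).1 hF
      obtain ⟨t, ht, hc', rfl⟩ := (mem_facets hdim hp).1 hG
      simp only [hpre]
      exact hlip s hs t ht hc hc' ((hadj s t hF hG).1 h).2) p
    simp only [hpre] at hw
    have a0 := h0 F0 hF0 c0 (Finset.singleton_subset_iff.1 hz0)
    have a1 := h1 F1 hF1 c1 (Finset.singleton_subset_iff.1 hz1)
    have a2 : C * (geo A).vertices.ncard ≤ C * m := Nat.mul_le_mul_left _ hn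
    have a3 : ((C * m : ℕ) : ℤ) ≤ H.diam := by push_cast; omega
    exact ⟨hconn, a2.trans (by exact_mod_cast a3)⟩

theorem finalC (C : ℕ) (V : Type) [Fintype V] [DecidableEq V] (K : Set (Finset V)) (d : ℕ)
    (Φ : Finset V → ℤ) (z0 z1 : V) (hK : Down K) (hd : 2 ≤ d) (hS : Sph K d) (hz0 : {z0} ∈ K)
    (hz1 : {z1} ∈ K)
    (hlip : ∀ F ∈ K, ∀ G ∈ K, F.card = d → G.card = d → (F ∩ G).card + 1 = d → Φ G ≤ Φ F + 1)
    (h0 : ∀ F ∈ K, F.card = d → z0 ∈ F → Φ F ≤ 0)
    (h1 : ∀ F ∈ K, F.card = d → z1 ∈ F → C * (Fintype.card V : ℤ) ≤ Φ F) : TargetC C := by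
  classical
  let V' := {v : V // {v} ∈ K}
  let m := Fintype.card V'
  let e : Fin m ↪ V := (Fintype.equivFin V').symm.toEmbedding.trans (Function.Embedding.subtype _)
  have he : ∀ v, {v} ∈ K → ∃ w, e w = v := fun v hv =>
    ⟨Fintype.equivFin V' ⟨v, hv⟩,
      congrArg Subtype.val ((Fintype.equivFin V').symm_apply_apply ⟨v, hv⟩)⟩
  have he' : ∀ w, {e w} ∈ K := fun w => ((Fintype.equivFin V').symm w).2
  have hm : m ≤ Fintype.card V := Fintype.card_subtype_le _
  have hS' : Sph {s : Finset (Fin m) | s.map e ∈ K} d := by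
    obtain ⟨f, g, h⟩ := hS
    exact ⟨_, _, (Final.hh_extend e hK he).trans h⟩
  obtain ⟨φ⟩ := Final.sphere_homeo hS'
  let A : AbstractSimplicialComplex (Fin m) :=
    ⟨⟨{s | s.Nonempty ∧ s.map e ∈ K}, fun s hs =>
      ⟨hs.1, fun t ht ht' => ⟨ht', hK _ hs.2 _ (Finset.map_subset_map.2 ht)⟩⟩⟩,
      fun w => ⟨Finset.singleton_nonempty w, by simpa using he' w⟩⟩
  have hA : realization A =
      {p : Fin m → ℝ | p ∈ Cn {s : Finset (Fin m) | s.map e ∈ K} ∧ ∑ v, p v = 1} := by
    ext p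
    constructor
    · rintro ⟨a, b, s, hs, c⟩
      exact ⟨⟨a, hK _ hs.2 _ (Finset.map_subset_map.2 fun v hv =>
        by_contra fun h => mem_supp.1 hv (c v h))⟩, b⟩
    · rintro ⟨⟨a, c⟩, b⟩
      refine ⟨a, b, supp p, ⟨?_, c⟩, fun v hv => by simpa using hv⟩
      by_contra hne
      rw [Finset.not_nonempty_iff_eq_empty] at hne
      have : ∀ v, p v = 0 := fun v => by
        by_contra h
        have : v ∈ supp p := mem_supp.2 h
        simp [hne] at this
      simp [this] at b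
  obtain ⟨w0, rfl⟩ := he z0 hz0
  obtain ⟨w1, rfl⟩ := he z1 hz1
  refine core C A hd ((Homeomorph.setCongr hA).trans φ) (fun s => Φ (s.map e)) w0 w1
    (fun F hF G hG c1 c2 c3 => hlip _ hF.2 _ hG.2 (by simpa using c1) (by simpa using c2)
      (by rw [← Finset.map_inter, Finset.card_map, c3]))
    (fun F hF c hz => h0 _ hF.2 (by simpa using c) (Finset.mem_map_of_mem _ hz))
    (fun F hF c hz => le_trans ?_ (h1 _ hF.2 (by simpa using c) (Finset.mem_map_of_mem _ hz)))
  exact mul_le_mul_of_nonneg_left (by exact_mod_cast hm) (Int.natCast_nonneg _)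

theorem inv_final (C : ℕ) {V : Type} [Fintype V] [DecidableEq V] {zt zb : V} {U S : Set (Finset V)} {d : ℕ} {D : ℤ}
    (h : Inv zt zb U S d D) (hd : 2 ≤ d) (dS : Down S) (h0 : ∅ ∈ S) (hz : zt ≠ zb)
    (h1 : ∀ F ∈ S, F.card < d ∧ zt ∉ F) (hD : C * (Fintype.card V : ℤ) ≤ D) :
    TargetC C := by
  obtain ⟨Φ, a0, a1, a2, a3⟩ := h.pot
  have inU : ∀ F ∈ U ∪ cone zb S, F.card = d → zb ∉ F → F ∈ U := fun F hF a b =>
    hF.resolve_right fun c => by
      have c' : F.erase zb ∈ S := c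
      rw [Finset.erase_eq_of_notMem b] at c'
      have := (h1 F c').1
      omega
  have inS : ∀ F ∈ U ∪ cone zb S, zb ∈ F → F.erase zb ∈ S := fun F hF b =>
    hF.resolve_left fun c => h.nz F c b
  refine finalC C V (U ∪ cone zb S) d (fun F => if zb ∈ F then D else Φ F) zt zb
    (h.dU.union (dS.cone zb)) hd h.sph (Or.inl h.top) (Or.inr (by simpa [cone] using h0))
    (fun F hF G hG a b ab => ?_) (fun F hF a b => ?_) fun F _ _ b => by simpa [b] using hD
  · by_cases x : zb ∈ F <;> by_cases y : zb ∈ G <;> simp only [x, y, if_true, if_false]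
    · omega
    · have := a0 G
      omega
    · have hS : F ∩ G ∈ S := dS _ (inS G hG y) _ fun v hv => Finset.mem_erase.2
        ⟨fun e => x (e ▸ (Finset.mem_inter.1 hv).1), (Finset.mem_inter.1 hv).2⟩
      have := a3 F (inU F hF a x) a _ Finset.inter_subset_left hS ab.ge
      omega
    · exact a1 F (inU F hF a x) G (inU G hG b y) a b ab
  · have x : zb ∉ F := fun y => (h1 _ (inS F hF y)).2 (Finset.mem_erase.2 ⟨hz, b⟩)
    simp only [x, if_false]
    exact a2 F (inU F hF a x) a b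

theorem countC (T : ℕ) : ∃ k : ℕ, 1 ≤ k ∧ (T * k ^ 2 : ℤ) ≤
    ∑ i ∈ Finset.range (2 * k), ∑ j ∈ Finset.range i, ((k / (2 * (j + 1)) : ℕ) : ℤ) := by
  obtain ⟨k, hk, hk1⟩ := ((Real.tendsto_sum_range_one_div_nat_succ_atTop.eventually_ge_atTop
    (2 * T + 2)).and (Filter.eventually_ge_atTop 1)).exists
  refine ⟨k, hk1, ?_⟩
  have h1 : (T * k : ℤ) ≤ ∑ j ∈ Finset.range k, ((k / (2 * (j + 1)) : ℕ) : ℤ) := by
    have a : ∀ j ∈ Finset.range k, (k : ℝ) / 2 * (1 / ((j : ℝ) + 1)) - 1 ≤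
        ((k / (2 * (j + 1)) : ℕ) : ℝ) := fun j _ => by
      have b : (k : ℝ) < (2 * (j + 1)) * (((k / (2 * (j + 1)) : ℕ) : ℝ) + 1) := by
        exact_mod_cast Nat.lt_mul_div_succ k (show 0 < 2 * (j + 1) by omega)
      have c : (k : ℝ) / 2 * (1 / ((j : ℝ) + 1)) = k / (2 * (j + 1)) := by field_simp
      rw [c, sub_le_iff_le_add, div_le_iff₀ (by positivity)]
      linarith
    have b := Finset.sum_le_sum a
    rw [Finset.sum_sub_distrib, ← Finset.mul_sum] at b
    simp only [Finset.sum_const, Finset.card_range, nsmul_eq_mul, mul_one] at b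
    have c : (0 : ℝ) ≤ k := Nat.cast_nonneg k
    have d : (T * k : ℝ) ≤ ∑ j ∈ Finset.range k, ((k / (2 * (j + 1)) : ℕ) : ℝ) := by nlinarith
    exact_mod_cast d
  calc (T * k ^ 2 : ℤ) = ∑ _i ∈ Finset.Ico k (2 * k), (T * k : ℤ) := by
        simp [show 2 * k - k = k by omega]; ring
    _ ≤ ∑ i ∈ Finset.Ico k (2 * k), ∑ j ∈ Finset.range i, ((k / (2 * (j + 1)) : ℕ) : ℤ) :=
        Finset.sum_le_sum fun i hi => h1.trans (Finset.sum_le_sum_of_subset_of_nonneg
          (Finset.range_mono (Finset.mem_Ico.1 hi).1) fun _ _ _ => Int.natCast_nonneg _)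
    _ ≤ _ := Finset.sum_le_sum_of_subset_of_nonneg (fun i hi => Finset.mem_range.2
          (Finset.mem_Ico.1 hi).2) fun _ _ _ => Finset.sum_nonneg fun _ _ => Int.natCast_nonneg _

theorem targetC (C : ℕ) : TargetC C := by
  have hS := sphStmt
  have hB := bdStmt ballQStmt (pageStmt arcStmt) bookStmt
  have hM := modelStmt
  obtain ⟨k, hk, hc⟩ := countC (218 * C)
  have : NeZero (6 * (8 * k)) := ⟨by omega⟩
  obtain ⟨τ, pos, bd⟩ := hB (2 * k) (8 * k) (by omega)
  obtain ⟨U, inv, -⟩ := bd.chain hS hM (fun j => ((k / (2 * (j + 1)) : ℕ) : ℤ))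
    (fun _ => Int.natCast_nonneg _) (fun j hj => by
      have a := Nat.mul_div_le k (2 * (j + 1))
      have b : 4 * (j + 1) * (k / (2 * (j + 1))) + 3 * (j + 1) ≤ 8 * k := by nlinarith
      exact_mod_cast b) (2 * k) le_rfl
  refine inv_final C inv ?_ (down_Sig bd.down _ _) ⟨fun i => bd.down _ _ (bd.empty _) _
    fun _ h => by simp [fib] at h, fun q => down_Tri _ _ (empty_Tri _) _
      fun _ h => by simp [tri] at h, by simp, by simp⟩ (by simp [zt, zb])
    (fun F h => ⟨Nat.lt_succ_of_le (card_Sig (fun i => bd.card_le (lv_le 0 le_rfl i)) h),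
      h.2.2.1⟩) (le_trans ?_ hc)
  · have := Finset.single_le_sum (f := fun q => if ac (2 * k) (2 * k) 0 q then 2 else 0)
      (fun _ _ => Nat.zero_le _)
      (Finset.mem_univ (((⟨0, by omega⟩, ⟨0, by omega⟩), false) : (Fin (2 * k) × Fin (2 * k)) × Bool))
    rw [if_pos (by simp [ac])] at this
    unfold dimf
    omega
  · simp only [Fintype.card_sum, Fintype.card_prod, Fintype.card_fin, Fintype.card_bool, ZMod.card]
    have : (1 : ℤ) ≤ k := by exact_mod_cast hk
    have h2 : (1 : ℤ) ≤ k ^ 2 := one_le_pow₀ this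
    have h3 := mul_le_mul_of_nonneg_left h2 (Int.natCast_nonneg C)
    push_cast
    nlinarith

end Strong

end Pool.Agent.MP_6a6613_co
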