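import Mathlib
import Pool.Agent.Mg.F5cfbf6.G270f6c
import Pool.Agent.MP_d539bc_co.Brouwer

section

/-! A set of positive measure in `ℝ^m` is not a limit of spaces of Hausdorff dimension `< m`. -/

open Set Filter MeasureTheory Topology
open scoped NNReal ENNReal

namespace Pool.Agent.MP_616ade_gt

set_option maxHeartbeats 400000

variable {m : ℕ}

lemma null_of_image_null {f : (Fin m → ℝ) → Fin m → ℝ} {s : Set (Fin m → ℝ)}
    {f' : (Fin m → ℝ) → (Fin m → ℝ) →L[ℝ] Fin m → ℝ}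
    (hf : ∀ x ∈ s, HasFDerivWithinAt f (f' x) s x) (hdet : ∀ x ∈ s, (f' x).det ≠ 0)
    (h0 : volume (f '' s) = 0) : volume s = 0 := by
  rcases s.eq_empty_or_nonempty with rfl | hs
  · simp
  have h1 : ∀ A : (Fin m → ℝ) →L[ℝ] Fin m → ℝ, ∃ δ : ℝ≥0, δ ≠ 0 ∧ (A.det ≠ 0 → ∃ c : ℝ≥0, c ≠ 0 ∧
      ∀ t g, ApproximatesLinearOn g A t δ → (c : ℝ≥0∞) * volume t ≤ volume (g '' t)) := by
    intro A
    by_cases hA : A.det = 0
    · exact ⟨1, one_ne_zero, fun h => (h hA).elim⟩
    have hpos : 0 < |A.det| := abs_pos.2 hA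
    have hm : (((|A.det| / 2).toNNReal : ℝ≥0) : ℝ≥0∞) < ENNReal.ofReal |A.det| :=
      (ENNReal.ofReal_lt_ofReal_iff hpos).2 (half_lt_self hpos)
    obtain ⟨δ, h2, h3⟩ :=
      ((mul_le_addHaar_image_of_lt_det volume A hm).and self_mem_nhdsWithin).exists
    exact ⟨δ, ne_of_gt h3, fun _ => ⟨_, by simpa using hA, h2⟩⟩
  choose r hr0 hr using h1
  obtain ⟨t, A, -, h2, h3, h4⟩ :=
    exists_closed_cover_approximatesLinearOn_of_hasFDerivWithinAt f s f' hf r hr0
  have h6 : s ⊆ ⋃ n, s ∩ t n := by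
    rw [← inter_iUnion]
    exact subset_inter Subset.rfl h2
  refine measure_mono_null h6 (measure_iUnion_null fun n => ?_)
  obtain ⟨y, hy, hA⟩ := h4 hs n
  obtain ⟨c, hc0, hc⟩ := hr (A n) (hA ▸ hdet y hy)
  have h5 := (hc _ _ (h3 n)).trans (measure_mono (image_mono inter_subset_left))
  rw [h0, nonpos_iff_eq_zero, mul_eq_zero] at h5
  exact h5.resolve_left (by simpa using hc0)

lemma exists_tuple {I : Type} [Nonempty I] (ℓ : I → (Fin m → ℝ) →L[ℝ] ℝ)
    (h : ∀ v, v ≠ 0 → ∃ i, ℓ i v ≠ 0) :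
    ∃ τ : Fin m → I, (ContinuousLinearMap.pi fun k => ℓ (τ k)).det ≠ 0 := by
  have key : ∀ k : ℕ, ∃ τ : Fin k → I,
      Module.finrank ℝ (⨅ j, (ℓ (τ j)).ker : Submodule ℝ (Fin m → ℝ)) ≤ m - k := by
    intro k
    induction k with
    | zero => exact ⟨Fin.elim0, (Submodule.finrank_le _).trans (by simp)⟩
    | succ k ih =>
      obtain ⟨τ, hτ⟩ := ih
      have hle : ∀ i, (⨅ j, (ℓ ((Fin.cons i τ : Fin (k + 1) → I) j)).ker) ≤ ⨅ j, (ℓ (τ j)).ker :=
        fun i => le_iInf fun j => iInf_le_of_le j.succ (by simp)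
      by_cases h0 : (⨅ j, (ℓ (τ j)).ker : Submodule ℝ (Fin m → ℝ)) = ⊥
      · refine ⟨Fin.cons (Classical.arbitrary I) τ, (Submodule.finrank_mono (hle _)).trans ?_⟩
        rw [h0, finrank_bot]; exact Nat.zero_le _
      · obtain ⟨v, hv, hv0⟩ := Submodule.exists_mem_ne_zero_of_ne_bot h0
        obtain ⟨i, hi⟩ := h v hv0
        refine ⟨Fin.cons i τ, ?_⟩
        have h1 := Submodule.finrank_lt_finrank_of_lt (lt_of_le_of_ne (hle i) fun he => hi (by
          rw [← he] at hv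
          simpa using (Submodule.mem_iInf _).1 hv 0))
        omega
  obtain ⟨τ, hτ⟩ := key m
  rw [Nat.sub_self, Nat.le_zero, Submodule.finrank_eq_zero] at hτ
  refine ⟨τ, fun h0 => LinearMap.det_eq_zero_iff_ker_ne_bot.1 h0 (eq_bot_iff.2 fun v hv => ?_)⟩
  rw [← hτ]
  exact (Submodule.mem_iInf _).2 fun j => congrFun hv j

lemma slope_le {g : ℝ → ℝ} {K : ℝ≥0} (hg : LipschitzWith K g) {T : Set ℝ} (hT : MeasurableSet T)
    {c : ℝ} (hc0 : 0 ≤ c) (hc : ∀ t ∈ T, |deriv g t| ≤ c) {a b : ℝ} (hab : a ≤ b) :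
    |g b - g a| ≤ c * (b - a) + K * volume.real (Ioc a b \ T) := by
  rw [← (hg.lipschitzOnWith.absolutelyContinuousOnInterval (a := a) (b := b)).integral_deriv_eq_sub]
  have hi : IntervalIntegrable (Tᶜ.indicator fun _ : ℝ => (K : ℝ)) volume a b :=
    ⟨(integrableOn_const (by simp)).indicator hT.compl,
      (integrableOn_const (by simp)).indicator hT.compl⟩
  rw [← Real.norm_eq_abs]
  refine (intervalIntegral.norm_integral_le_of_norm_le (g := fun t => c +
    Tᶜ.indicator (fun _ => (K : ℝ)) t) hab (Eventually.of_forall fun t _ => ?_)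
    (intervalIntegrable_const.add hi)).trans (le_of_eq ?_)
  · by_cases ht : t ∈ T
    · simpa [ht] using hc t ht
    · have := norm_deriv_le_of_lipschitz (x₀ := t) hg
      rw [indicator_of_mem (show t ∈ Tᶜ from ht)]
      linarith
  · rw [intervalIntegral.integral_add intervalIntegrable_const hi, intervalIntegral.integral_const,
      intervalIntegral.integral_of_le hab, setIntegral_indicator hT.compl, setIntegral_const,
      diff_eq]
    simp [mul_comm]

lemma exists_line {P : Set (Fin m → ℝ)} (hP : MeasurableSet P) (h0 : volume P ≠ 0)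
    (v : Fin m → ℝ) : ∃ x, volume {t : ℝ | x + t • v ∈ P} ≠ 0 := by
  by_contra h
  push Not at h
  have hs : MeasurableSet {z : ℝ × (Fin m → ℝ) | z.2 + z.1 • v ∈ P} :=
    hP.preimage (by fun_prop)
  have h1 : (volume : Measure ℝ).prod volume {z : ℝ × (Fin m → ℝ) | z.2 + z.1 • v ∈ P} = 0 := by
    rw [Measure.prod_apply_symm hs]
    exact (lintegral_congr fun x => h x).trans lintegral_zero
  obtain ⟨t, ht⟩ := ((Measure.measure_prod_null hs).1 h1).exists
  exact h0 ((measure_preimage_add_right volume (t • v) P).symm.trans ht)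

lemma exists_dense_pair {T : Set ℝ} (hT : MeasurableSet T) (h0 : volume T ≠ 0) {η : ℝ}
    (hη : 0 < η) (hη1 : η ≤ 1 / 8) :
    ∃ a ∈ T, ∃ b ∈ T, a < b ∧ volume.real (Ioc a b \ T) ≤ 4 * η * (b - a) := by
  have hne : (ae (volume.restrict T)).NeBot := ae_neBot.2 (by simpa using h0)
  obtain ⟨a, ha, hlim⟩ := ((ae_restrict_mem hT).and
    (Besicovitch.ae_tendsto_measure_inter_div volume T)).exists
  have h1 : ENNReal.ofReal (1 - η) < 1 := ENNReal.ofReal_lt_one.2 (by linarith)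
  obtain ⟨r, hr1, hr⟩ := ((hlim.eventually (lt_mem_nhds h1)).and self_mem_nhdsWithin).exists
  have hr : 0 < r := hr
  have hB : volume (Metric.closedBall a r) = ENNReal.ofReal (2 * r) := Real.volume_closedBall a r
  have hfin : volume (Metric.closedBall a r) ≠ ⊤ := by rw [hB]; exact ENNReal.ofReal_ne_top
  have h2 : (1 - η) * (2 * r) ≤ volume.real (Metric.closedBall a r ∩ T) := by
    rw [ENNReal.lt_div_iff_mul_lt (Or.inl (by rw [hB]; simpa using hr)) (Or.inl hfin), hB,
      ← ENNReal.ofReal_mul (by linarith), inter_comm] at hr1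
    exact (ENNReal.ofReal_le_iff_le_toReal
      (ne_top_of_le_ne_top hfin (measure_mono inter_subset_left))).1 hr1.le
  have h3 := measureReal_inter_add_diff (μ := volume) (s := Metric.closedBall a r) hT hfin
  rw [Real.volume_real_closedBall hr.le] at h3
  have h4 : ∀ S ⊆ Metric.closedBall a r \ T, volume.real S ≤ 2 * η * r := fun S hS =>
    (measureReal_mono hS (ne_top_of_le_ne_top hfin (measure_mono diff_subset))).trans (by linarith)
  obtain ⟨b, hb, hbT⟩ : ∃ b ∈ Icc (a + r / 2) (a + r), b ∈ T := by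
    by_contra h
    push Not at h
    have h5 := h4 (Icc (a + r / 2) (a + r)) fun t ht => ⟨by
      rw [Real.closedBall_eq_Icc]; exact ⟨by linarith [ht.1], ht.2⟩, h t ht⟩
    rw [Real.volume_real_Icc_of_le (by linarith)] at h5
    nlinarith
  refine ⟨a, ha, b, hbT, by linarith [hb.1], (h4 _ fun t ht => ⟨?_, ht.2⟩).trans ?_⟩
  · rw [Real.closedBall_eq_Icc]; exact ⟨by linarith [ht.1.1], ht.1.2.trans hb.2⟩
  · nlinarith [hb.1]

theorem obstruct {A : Set (Fin m → ℝ)} (hA : MeasurableSet A) (hpos : volume A ≠ 0)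
    {M : ℕ → Type*} [∀ n, MetricSpace (M n)] (p : ∀ n, (Fin m → ℝ) → M n)
    (hp : ∀ n, LipschitzOnWith 2 (p n) A)
    (bond : ∀ n N, n ≤ N → ∃ g : M N → M n, LipschitzWith 1 g ∧ ∀ x, g (p N x) = p n x)
    (hdim : ∀ n, dimH (univ : Set (M n)) < m) :
    ∃ a ∈ A, ∃ b ∈ A, a ≠ b ∧ ∀ n, dist (p n a) (p n b) ≤ dist a b * (3 / 4) := by
  classical
  have hne : A.Nonempty := nonempty_of_measure_ne_zero hpos
  haveI := hne.to_subtype
  set D : ℕ → Fin m → ℝ := fun k => (TopologicalSpace.denseSeq A k : A) with hD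
  have h1 : ∀ i : ℕ × ℕ, ∃ φ : (Fin m → ℝ) → ℝ, LipschitzWith 2 φ ∧
      EqOn (fun x => dist (p i.1 x) (p i.1 (D i.2))) φ A := fun i => by
    refine LipschitzOnWith.extend_real ?_
    have := (LipschitzWith.dist_left (p i.1 (D i.2))).comp_lipschitzOnWith (hp i.1)
    rw [one_mul] at this
    exact this
  choose φ hφ hφA using h1
  have h2 : ∀ τ : Fin m → ℕ × ℕ, volume {x | x ∈ A ∧ (∀ i, DifferentiableAt ℝ (φ i) x) ∧
      (ContinuousLinearMap.pi fun k => fderiv ℝ (φ (τ k)) x).det ≠ 0} = 0 := fun τ => by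
    refine null_of_image_null (f := fun x k => φ (τ k) x) (fun x hx => (hasFDerivAt_pi.2
      fun k => (hx.2.1 (τ k)).hasFDerivAt).hasFDerivWithinAt) (fun x hx => hx.2.2) ?_
    set N := Finset.univ.sup fun k => (τ k).1
    choose g hg hg' using fun k => bond (τ k).1 N
      (Finset.le_sup (f := fun k => (τ k).1) (Finset.mem_univ k))
    have hΨ : LipschitzWith 1 fun (y : M N) k => dist (g k y) (p (τ k).1 (D (τ k).2)) :=
      LipschitzWith.of_dist_le_mul fun y y' => (dist_pi_le_iff (by positivity)).2 fun k =>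
        (by simpa using ((LipschitzWith.dist_left _).comp (hg k)).dist_le_mul y y')
    refine measure_mono_null (t := range fun (y : M N) k => dist (g k y) (p (τ k).1 (D (τ k).2)))
      ?_ ?_
    · rintro _ ⟨x, hx, rfl⟩
      refine ⟨p N x, funext fun k => ?_⟩
      show dist (g k (p N x)) _ = _
      rw [hg']
      exact hφA (τ k) hx.1
    · rw [← hausdorffMeasure_pi_real, Fintype.card_fin]
      exact_mod_cast hausdorffMeasure_of_dimH_lt (d := m)
        (hΨ.dimH_range_le.trans_lt (by exact_mod_cast hdim N))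
  set v : ℕ → Fin m → ℝ := TopologicalSpace.denseSeq _ with hv
  set P : ℕ → Set (Fin m → ℝ) := fun j => {x | x ∈ A ∧ 1 / 2 ≤ ‖v j‖ ∧
    ∀ i, DifferentiableAt ℝ (φ i) x ∧ |fderiv ℝ (φ i) x (v j)| ≤ 1 / 8} with hP
  have hPm : ∀ j, MeasurableSet (P j) := fun j => by
    refine hA.inter ((MeasurableSet.const _).inter ?_)
    show MeasurableSet {x | ∀ i, DifferentiableAt ℝ (φ i) x ∧ |fderiv ℝ (φ i) x (v j)| ≤ 1 / 8}
    rw [setOf_forall]
    refine MeasurableSet.iInter fun i => ?_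
    have h6 : MeasurableSet {x | |fderiv ℝ (φ i) x (v j)| ≤ 1 / 8} :=
      measurableSet_le (measurable_fderiv_apply_const ℝ (φ i) (v j)).abs measurable_const
    exact (measurableSet_of_differentiableAt ℝ (φ i)).inter h6
  obtain ⟨j, hj⟩ : ∃ j, volume (P j) ≠ 0 := by
    by_contra h
    push Not at h
    have h3 : ∀ᵐ x : Fin m → ℝ, ∀ i, DifferentiableAt ℝ (φ i) x :=
      ae_all_iff.2 fun i => (hφ i).ae_differentiableAt
    have h4 := ae_all_iff.2 fun τ => measure_eq_zero_iff_ae_notMem.1 (h2 τ)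
    have h5 := ae_all_iff.2 fun j => measure_eq_zero_iff_ae_notMem.1 (h j)
    refine hpos (measure_eq_zero_iff_ae_notMem.2 ?_)
    filter_upwards [h3, h4, h5] with x e3 e4 e5 hx
    obtain ⟨w, hw0, hw⟩ : ∃ w, w ≠ 0 ∧ ∀ i, fderiv ℝ (φ i) x w = 0 := by
      by_contra h6
      push Not at h6
      obtain ⟨τ, hτ⟩ := exists_tuple (fun i => fderiv ℝ (φ i) x) h6
      exact e4 τ ⟨hx, e3, hτ⟩
    have hw1 : 0 < ‖w‖ := norm_pos_iff.2 hw0
    obtain ⟨j, hj⟩ := (TopologicalSpace.denseRange_denseSeq (Fin m → ℝ)).exists_dist_lt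
      (‖w‖⁻¹ • w) (show (0 : ℝ) < 1 / 16 by norm_num)
    rw [dist_comm, dist_eq_norm] at hj
    have hu : ‖‖w‖⁻¹ • w‖ = 1 := by rw [norm_smul]; simp [hw1.ne']
    refine e5 j ⟨hx, ?_, fun i => ⟨e3 i, ?_⟩⟩
    · have := abs_le.1 ((abs_norm_sub_norm_le _ _).trans hj.le)
      linarith
    · have h6 : fderiv ℝ (φ i) x (v j) = fderiv ℝ (φ i) x (v j - ‖w‖⁻¹ • w) := by
        rw [map_sub, map_smul, hw, smul_zero, sub_zero]
      have h7 := (fderiv ℝ (φ i) x).le_of_opNorm_le_of_le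
        (norm_fderiv_le_of_lipschitz ℝ (hφ i)) hj.le
      rw [h6]
      exact h7.trans (by norm_num)
  obtain ⟨x, hx⟩ := exists_line (hPm j) hj (v j)
  have hT : MeasurableSet {t : ℝ | x + t • v j ∈ P j} := (hPm j).preimage (by fun_prop)
  obtain ⟨a, ha, b, hb, hab, hvol⟩ := exists_dense_pair hT hx (η := 1 / 32) (by norm_num)
    (by norm_num)
  have hv1 : 1 / 2 ≤ ‖v j‖ := ha.2.1
  have hd : dist (x + a • v j) (x + b • v j) = (b - a) * ‖v j‖ := by
    rw [dist_add_left, dist_comm, dist_eq_norm, ← sub_smul, norm_smul, Real.norm_eq_abs,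
      abs_of_pos (by linarith)]
  refine ⟨_, ha.1, _, hb.1, fun h => ?_, fun n => ?_⟩
  · rw [h, dist_self] at hd
    nlinarith
  have h3 : ∀ i, |φ i (x + b • v j) - φ i (x + a • v j)| ≤ (b - a) * ‖v j‖ * (3 / 4) := by
    intro i
    have hl : LipschitzWith ‖v j‖₊ fun t : ℝ => x + t • v j :=
      LipschitzWith.of_dist_le_mul fun s t => by
        rw [dist_add_left, dist_eq_norm, ← sub_smul, norm_smul, mul_comm, dist_eq_norm]; rfl
    have h4 := slope_le ((hφ i).comp hl) hT (c := 1 / 8) (by norm_num) (fun t ht => by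
      have h5 : HasDerivAt (fun t : ℝ => x + t • v j) (v j) t := by
        simpa using ((hasDerivAt_id t).smul_const (v j)).const_add x
      rw [((ht.2.2 i).1.hasFDerivAt.comp_hasDerivAt t h5).deriv]
      exact (ht.2.2 i).2) hab.le
    refine h4.trans ?_
    push_cast
    nlinarith [mul_le_mul_of_nonneg_left hvol (norm_nonneg (v j))]
  rw [hd]
  refine le_of_forall_pos_le_add fun ε hε => ?_
  obtain ⟨k, hk⟩ := (TopologicalSpace.denseRange_denseSeq A).exists_dist_lt ⟨_, ha.1⟩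
    (show 0 < ε / 4 by positivity)
  have h4 := (hp n).dist_le_mul _ ha.1 (D k) (TopologicalSpace.denseSeq A k).2
  have h5 : dist (x + a • v j) (D k) < ε / 4 := hk
  have h6 := h3 (n, k)
  rw [← hφA (n, k) ha.1, ← hφA (n, k) hb.1, abs_le] at h6
  have h7 := dist_triangle_right (p n (x + a • v j)) (p n (x + b • v j)) (p n (D k))
  simp only [NNReal.coe_ofNat] at h4 h6
  linarith [h6.2]

end Pool.Agent.MP_616ade_gt

end

section

/-! Upper and lower bounds for the covering dimension in every dimension. -/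

open scoped ENNReal Topology
open Set Filter Metric

namespace Pool.Agent.MP_616ade_gt

set_option maxHeartbeats 400000

/-- shifted open intervals of generation `n` -/
def II (n : ℕ) (β : ℝ) (a : ℤ) : Set ℝ :=
  {t | (ra n : ℝ) * a + β < NN (n + 1) * t ∧ NN (n + 1) * t < ra n * (a + 1) + β}

lemma isOpen_II (n : ℕ) (β : ℝ) (a : ℤ) : IsOpen (II n β a) := by
  have h1 : IsOpen {x : ℝ | (ra n : ℝ) * a + β < NN (n + 1) * x} :=
    isOpen_lt (by fun_prop) (by fun_prop)
  have h2 : IsOpen {x : ℝ | NN (n + 1) * x < (ra n : ℝ) * (a + 1) + β} :=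
    isOpen_lt (by fun_prop) (by fun_prop)
  exact h1.inter h2

lemma II_le {n : ℕ} {β t : ℝ} {a a' : ℤ} (h : t ∈ II n β a) (h' : t ∈ II n β a') : a ≤ a' := by
  have ha := ra_geR n
  have h1 : (ra n : ℝ) * a < ra n * (a' + 1) := by linarith [h.1, h'.2]
  have h2 : (a : ℝ) < a' + 1 := lt_of_mul_lt_mul_left h1 (by linarith)
  have h3 : a < a' + 1 := by exact_mod_cast h2
  omega

lemma II_diam {n : ℕ} {β t t' : ℝ} {a : ℤ} (h : t ∈ II n β a) (h' : t' ∈ II n β a) :
    t - t' ≤ 1 / NN n := by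
  have ha := ra_geR n
  have h1 : (ra n : ℝ) * (NN n * (t - t')) < ra n * 1 := by
    have h2 := h.2
    have h3 := h'.1
    rw [NN_succR] at h2 h3
    linarith
  have h2 := lt_of_mul_lt_mul_left h1 (by linarith)
  rw [le_div_iff₀ (NN_posR n)]
  linarith

lemma II_hole {n : ℕ} {t : ℝ} (h : t ∈ Hole n) : ∃ a, t ∈ II n 0 a := by
  obtain ⟨i, h1, h2⟩ := h
  have ha := ra_geR n
  exact ⟨i, by linarith, by linarith⟩

lemma II_not_hole {n : ℕ} {t : ℝ} (h : t ∉ Hole n) : ∃ a, t ∈ II n (3 / 2) a := by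
  have ha := ra_geR n
  have ha0 : (0 : ℝ) < ra n := by linarith
  set u : ℝ := (NN (n + 1) * t - 3 / 2) / ra n with hu
  have hu' : (ra n : ℝ) * u = NN (n + 1) * t - 3 / 2 := by rw [hu]; field_simp
  have h1 := mul_le_mul_of_nonneg_left (Int.floor_le u) ha0.le
  have h2 := mul_lt_mul_of_pos_left (Int.lt_floor_add_one u) ha0
  refine ⟨⌊u⌋, ?_, by linarith⟩
  by_contra hc
  exact h ⟨⌊u⌋, by linarith, by linarith [not_lt.1 hc]⟩

/-- the cells of the cover of generation `n` -/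
def VV {m : ℕ} (n : ℕ) (J : Finset (Fin m)) (a : Fin m → ℤ) : Set (Fin m → ℝ) :=
  {x | (∀ i ∈ J, ∀ k ∉ J, infDist (x i) (Hole n)ᶜ < infDist (x k) (Hole n)ᶜ) ∧
    ∀ i, x i ∈ II n (if i ∈ J then 3 / 2 else 0) (a i)}

lemma isOpen_VV {m : ℕ} (n : ℕ) (J : Finset (Fin m)) (a : Fin m → ℤ) : IsOpen (VV n J a) := by
  have hc : ∀ i : Fin m, Continuous fun x : Fin m → ℝ => infDist (x i) (Hole n)ᶜ := fun i =>
    (continuous_infDist_pt _).comp (continuous_apply i)
  refine IsOpen.inter (s := {x | ∀ i ∈ J, ∀ k ∉ J, _}) (t := {x | ∀ i, _}) ?_ ?_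
  · simp only [setOf_forall]
    exact isOpen_iInter_of_finite fun i => isOpen_iInter_of_finite fun _ =>
      isOpen_iInter_of_finite fun k => isOpen_iInter_of_finite fun _ => isOpen_lt (hc i) (hc k)
  · simp only [setOf_forall]
    exact isOpen_iInter_of_finite fun i => (isOpen_II _ _ _).preimage (continuous_apply i)

lemma VV_unique {m n : ℕ} {J J' : Finset (Fin m)} {a a' : Fin m → ℤ} {x : Fin m → ℝ}
    (h : x ∈ VV n J a) (h' : x ∈ VV n J' a') (hc : J.card = J'.card) : J = J' ∧ a = a' := by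
  have hJ : J = J' := by
    by_contra hne
    obtain ⟨i, hi, hi'⟩ := Finset.not_subset.1 fun hs =>
      hne (Finset.eq_of_subset_of_card_le hs hc.ge)
    obtain ⟨k, hk, hk'⟩ := Finset.not_subset.1 fun hs =>
      hne (Finset.eq_of_subset_of_card_le hs hc.le).symm
    exact lt_asymm (h.1 i hi k hk') (h'.1 k hk i hi')
  subst hJ
  exact ⟨rfl, funext fun i => le_antisymm (II_le (h.2 i) (h'.2 i)) (II_le (h'.2 i) (h.2 i))⟩

lemma exists_VV {m : ℕ} (n : ℕ) (x : Fin m → ℝ) :
    ∃ J a, x ∈ VV n J a ∧ ∀ i, x i ∉ Hole n → i ∈ J := by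
  classical
  have h1 : ∀ i, ∃ a, x i ∈ II n
      (if i ∈ Finset.univ.filter fun i => x i ∉ Hole n then 3 / 2 else 0) a := fun i => by
    by_cases h : x i ∈ Hole n
    · simpa [h] using II_hole h
    · simpa [h] using II_not_hole h
  choose a ha using h1
  refine ⟨_, a, ⟨fun i hi k hk => ?_, ha⟩, fun i hi => by simpa using hi⟩
  have hi' : x i ∈ (Hole n)ᶜ := by simpa using hi
  rw [infDist_zero_of_mem hi']
  exact ((isOpen_Hole n).isClosed_compl.notMem_iff_infDist_pos ⟨_, hi'⟩).1 (by simpa using hk)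

theorem coveringDimLE_of_holes {d : ℕ} {K : Set (Fin (d + 1) → ℝ)} (hK : IsCompact K)
    (h : ∀ n, ∀ x ∈ K, ∃ i, x i ∉ Hole n) : CoveringDimLE K d := by
  classical
  intro 𝒰 hfin hopen hcov
  haveI := isCompact_iff_compactSpace.1 hK
  obtain ⟨δ, hδ, hleb⟩ := lebesgue_number_lemma_of_metric_sUnion (s := (univ : Set K))
    isCompact_univ hopen (hcov ▸ subset_rfl)
  obtain ⟨n, hn⟩ := exists_NN (δ / 2) (by linarith)
  have hn := hn n le_rfl
  choose J a hx hJ using fun x : K => exists_VV n x.1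
  let W : K → Set K := fun x => Subtype.val ⁻¹' VV n (J x) (a x)
  have hW : ∀ x, IsOpen (W x) := fun x => (isOpen_VV _ _ _).preimage continuous_subtype_val
  obtain ⟨t, ht⟩ := isCompact_univ.elim_finite_subcover W hW fun x _ => mem_iUnion.2 ⟨x, hx x⟩
  refine ⟨W '' t, t.finite_toSet.image _, ?_, ?_, ?_, fun p => ?_⟩
  · rintro _ ⟨x, -, rfl⟩
    exact hW x
  · rw [sUnion_image]
    exact univ_subset_iff.1 ht
  · rintro _ ⟨x, -, rfl⟩
    obtain ⟨U, hU, hball⟩ := hleb x (mem_univ _)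
    refine ⟨U, hU, fun q hq => hball ?_⟩
    rw [mem_ball, Subtype.dist_eq]
    refine lt_of_le_of_lt ((dist_pi_le_iff (by linarith)).2 fun i => ?_) (half_lt_self hδ)
    rw [Real.dist_eq, abs_le]
    constructor <;> linarith [II_diam (hq.2 i) ((hx x).2 i), II_diam ((hx x).2 i) (hq.2 i)]
  · have h1 : ∀ V : Set K, ∃ c ∈ Finset.Icc 1 (d + 1), V ∈ W '' t → ∃ x, W x = V ∧
        (J x).card = c := fun V => by
      by_cases hV : V ∈ W '' t
      · obtain ⟨x, -, rfl⟩ := hV
        obtain ⟨i, hi⟩ := h n x x.2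
        refine ⟨(J x).card, Finset.mem_Icc.2 ⟨Finset.card_pos.2 ⟨i, hJ x i hi⟩, ?_⟩,
          fun _ => ⟨x, rfl, rfl⟩⟩
        simpa using (J x).card_le_univ
      · exact ⟨1, by simp, fun h => (hV h).elim⟩
    choose c hc hc' using h1
    have h2 := ncard_le_ncard_of_injOn (s := {V | V ∈ W '' t ∧ p ∈ V})
      (t := (Finset.Icc 1 (d + 1) : Set ℕ)) c (fun V _ => hc V) (fun V hV V' hV' e => by
        obtain ⟨x, rfl, h3⟩ := hc' V hV.1
        obtain ⟨y, rfl, h4⟩ := hc' V' hV'.1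
        obtain ⟨h5, h6⟩ := VV_unique hV.2 hV'.2 (by rw [h3, h4, e])
        simp only [W, h5, h6]) (Finset.finite_toSet _)
    simpa using h2

theorem le_of_coveringDimLE {X : Type*} [TopologicalSpace X] {d n : ℕ} (h : CoveringDimLE X n)
    (b : X → Fin (d + 1) → ℝ) (hb : Continuous b) (hs : ∀ x, ∑ i, b x i = 1)
    (j : stdSimplex ℝ (Fin (d + 1)) → X) (hj : Continuous j) (hbj : ∀ y, b (j y) = y.1) :
    d ≤ n := by
  classical
  obtain ⟨𝒱, h1, h2, h3, h4, h5⟩ := h (range fun i => {x | 0 < b x i}) (finite_range _)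
    (by
      rintro _ ⟨i, rfl⟩
      exact isOpen_lt continuous_const ((continuous_apply i).comp hb))
    (by
      rw [sUnion_range, eq_univ_iff_forall]
      intro x
      by_contra hx
      simp only [mem_iUnion, mem_setOf_eq, not_exists, not_lt] at hx
      linarith [hs x, Finset.sum_nonpos fun i (_ : i ∈ Finset.univ) => hx i])
  have h6 : ∀ V : Set X, ∃ i, V ∈ 𝒱 → ∀ x ∈ V, 0 < b x i := fun V => by
    by_cases hV : V ∈ 𝒱
    · obtain ⟨_, ⟨i, rfl⟩, hi⟩ := h4 V hV
      exact ⟨i, fun _ => hi⟩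
    · exact ⟨0, fun h => (hV h).elim⟩
  choose σ hσ using h6
  let W : Fin (d + 1) → Set (stdSimplex ℝ (Fin (d + 1))) := fun i =>
    ⋃ V ∈ {V | V ∈ 𝒱 ∧ σ V = i}, j ⁻¹' V
  obtain ⟨f, hf⟩ := PartitionOfUnity.exists_isSubordinate isClosed_univ W
    (fun i => isOpen_biUnion fun V hV => (h2 V hV.1).preimage hj) fun y _ => by
      obtain ⟨V, hV, hy⟩ : j y ∈ ⋃₀ 𝒱 := h3 ▸ mem_univ _
      exact mem_iUnion.2 ⟨σ V, mem_biUnion (⟨hV, rfl⟩ : V ∈ {V' | V' ∈ 𝒱 ∧ σ V' = σ V}) hy⟩
  have hsum : ∀ y, ∑ i, f i y = 1 := fun y => by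
    rw [← finsum_eq_sum_of_fintype]; exact f.sum_eq_one (mem_univ y)
  let g : (Fin (d + 1) → ℝ) → Fin (d + 1) → ℝ := fun y i => max (y i) 0 + |1 - ∑ k, max (y k) 0|
  have hg0 : ∀ y i, 0 ≤ g y i := fun y i => add_nonneg (le_max_right _ _) (abs_nonneg _)
  have hg1 : ∀ y, 0 < ∑ i, g y i := fun y => by
    have e1 : ∑ k, max (y k) 0 ≤ ∑ i, g y i :=
      Finset.sum_le_sum fun i _ => le_add_of_nonneg_right (abs_nonneg _)
    have e2 := Finset.single_le_sum (fun i _ => hg0 y i) (Finset.mem_univ 0)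
    have e3 : 1 - ∑ k, max (y k) 0 ≤ g y 0 :=
      (le_abs_self _).trans (le_add_of_nonneg_left (le_max_right _ _))
    linarith
  let ρ : (Fin (d + 1) → ℝ) → stdSimplex ℝ (Fin (d + 1)) := fun y =>
    ⟨fun i => g y i / ∑ k, g y k, fun i => div_nonneg (hg0 y i) (hg1 y).le, by
      rw [← Finset.sum_div, div_self (hg1 y).ne']⟩
  have hρ : Continuous ρ := Continuous.subtype_mk (continuous_pi fun i =>
    Continuous.div (by fun_prop) (by fun_prop) fun y => (hg1 y).ne') _
  obtain ⟨a, -, ha⟩ := Pool.Agent.MP_d539bc_co.brouwer_cube zero_le_one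
    (fun y i => f (i + 1) (ρ y)) (continuous_pi fun i => (f (i + 1)).continuous.comp hρ).continuousOn
    fun y _ i => abs_le.2 ⟨by linarith [f.nonneg (i + 1) (ρ y)], f.le_one _ _⟩
  have ha' : ∀ i, a i = f (i + 1) (ρ a) := fun i => (congrFun ha i).symm
  have h7 : ∀ i, max (a i) 0 = a i := fun i => max_eq_left (ha' i ▸ f.nonneg _ _)
  have h8 : ∑ i, a i = 1 := by
    rw [← hsum (ρ a), ← Equiv.sum_comp (Equiv.addRight 1) fun i => f i (ρ a)]
    exact Finset.sum_congr rfl fun i _ => ha' i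
  have h9 : ∀ i, (ρ a).1 i = a i := fun i => by simp [ρ, g, h7, h8]
  have hW : ∀ i, f i (ρ a) ≠ 0 → ∃ V, (V ∈ 𝒱 ∧ σ V = i) ∧ j (ρ a) ∈ V := fun i hi => by
    simpa [W] using hf i (subset_tsupport _ hi)
  have step : ∀ i, f i (ρ a) ≠ 0 → f (i + 1) (ρ a) ≠ 0 := fun i hi => by
    obtain ⟨V, ⟨hV, rfl⟩, hx⟩ := hW i hi
    have := hσ V hV _ hx
    rw [hbj, h9, ha'] at this
    exact this.ne'
  have h0 : f 0 (ρ a) ≠ 0 := fun h0 => by
    have : ∀ i, f i (ρ a) = 0 := fun i => by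
      induction i using Fin.reverseInduction with
      | last => exact not_not.1 fun hi => step _ hi (by rwa [Fin.last_add_one])
      | cast i ih => exact not_not.1 fun hi => step _ hi (by rwa [Fin.coeSucc_eq_succ])
    simpa [this] using hsum (ρ a)
  have hall : ∀ i, f i (ρ a) ≠ 0 := fun i => by
    induction i using Fin.induction with
    | zero => exact h0
    | succ i ih => rw [← Fin.coeSucc_eq_succ]; exact step _ ih
  choose V hV hV' using fun i => hW i (hall i)
  have h10 := ncard_le_ncard_of_injOn (s := univ) (t := {V | V ∈ 𝒱 ∧ j (ρ a) ∈ V}) V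
    (fun i _ => ⟨(hV i).1, hV' i⟩) (fun i _ k _ e => by rw [← (hV i).2, e, (hV k).2])
    (h1.subset fun V hV => hV.1)
  have h11 := h10.trans (h5 _)
  simpa using h11

end Pool.Agent.MP_616ade_gt

end

section

/-! The fat carpet times a cube: a counterexample in every dimension. -/

open scoped ENNReal NNReal Topology
open Set Filter MeasureTheory

namespace Pool.Agent.MP_616ade_gt

universe u

set_option maxHeartbeats 400000

lemma IsMinkowskiSimplex.dimH_le {d : ℕ} {M : Type*} [MetricSpace M] {S : Set M}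
    (h : IsMinkowskiSimplex d S) : dimH S ≤ d := by
  obtain ⟨E, _, _, _, k, hk, Δ, ψ, hbij, hiso⟩ := h
  have hl : LipschitzOnWith 1 ψ (convexHull ℝ (range Δ.points)) := fun a ha b hb => by
    rw [ENNReal.coe_one, one_mul]
    rcases hiso with hiso | hiso
    · exact (hiso a ha b hb).le
    · exact (edist_le_inducedLengthDist S _ _).trans (hiso a ha b hb).le
  rw [← hbij.image_eq]
  refine hl.dimH_image_le.trans ?_
  rw [Real.Convex.dimH_eq_finrank_vectorSpan (convex_convexHull ℝ _)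
    (range_nonempty _).convexHull, ← direction_affineSpan, affineSpan_convexHull,
    direction_affineSpan]
  exact_mod_cast (finrank_vectorSpan_range_le ℝ Δ.points (Fintype.card_fin _)).trans hk

lemma IsMinkowskiPolyhedron.dimH_le {d : ℕ} {M : Type*} [MetricSpace M]
    (h : IsMinkowskiPolyhedron d M) : dimH (univ : Set M) ≤ d := by
  obtain ⟨-, N, K, h, hfin, hK⟩ := h
  have : (univ : Set M) ⊆ ⋃ s ∈ K.faces,
      {x : M | (h x : Fin N → ℝ) ∈ convexHull ℝ (s : Set (Fin N → ℝ))} := fun x _ => by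
    obtain ⟨s, hs, hx⟩ := Geometry.SimplicialComplex.mem_space_iff.1 (h x).2
    exact mem_biUnion hs hx
  refine (dimH_mono this).trans ?_
  rw [dimH_bUnion hfin.countable]
  exact iSup₂_le fun s hs => (hK s hs).2.dimH_le

theorem not_inverseLimit {d : ℕ} {X : Type*} [MetricSpace X] {A : Set (Fin (d + 1) → ℝ)}
    (hA : MeasurableSet A) (hpos : volume A ≠ 0) (q : (Fin (d + 1) → ℝ) → X)
    (hq : ∀ a ∈ A, ∀ b ∈ A, dist a b ≤ dist (q a) (q b) ∧ dist (q a) (q b) ≤ 2 * dist a b) :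
    ¬ IsInverseLimitOfMinkowskiPolyhedra.{u} d X := by
  rintro ⟨M, _, f, hM, hf, π, hπ⟩
  have hle : ∀ n x y, dist ((π x).1 n) ((π y).1 n) ≤ dist x y := fun n x y =>
    Monotone.ge_of_tendsto (monotone_nat_of_le_succ fun n => by
      have := (hf n).dist_le_mul ((π x).1 (n + 1)) ((π y).1 (n + 1))
      rw [(π x).2 n, (π y).2 n] at this
      simpa using this) (hπ x y) n
  obtain ⟨a, ha, b, hb, hab, h⟩ := obstruct hA hpos (fun n x => (π (q x)).1 n)
    (fun n => LipschitzOnWith.of_dist_le_mul fun a ha b hb =>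
      (hle n _ _).trans (hq a ha b hb).2)
    (fun n N hN => by
      induction N, hN using Nat.le_induction with
      | base => exact ⟨id, LipschitzWith.id, fun _ => rfl⟩
      | succ N _ ih =>
        obtain ⟨g, hg, hg'⟩ := ih
        refine ⟨g ∘ f N, by simpa using hg.comp (hf N), fun x => ?_⟩
        rw [Function.comp_apply, (π (q x)).2 N, hg'])
    fun n => (hM n).dimH_le.trans_lt (by exact_mod_cast d.lt_succ_self)
  have h1 := le_of_tendsto' (hπ (q a) (q b)) h
  linarith [(hq a ha b hb).1, dist_pos.2 hab]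

lemma vol_hole (n : ℕ) : volume (Hole n ∩ Icc (0 : ℝ) 1) ≤ (2⁻¹ : ℝ≥0∞) ^ (n + 3) := by
  have hN := NN_posR n
  have hN1 := NN_posR (n + 1)
  have ha := ra_geR n
  have h1 : Hole n ∩ Icc (0 : ℝ) 1 ⊆ ⋃ i ∈ Finset.Ico (0 : ℤ) (NN n),
      Ioo ((ra n * i + 1 : ℝ) / NN (n + 1)) ((ra n * i + 2) / NN (n + 1)) := by
    rintro x ⟨⟨i, h1, h2⟩, h3, h4⟩
    simp only [mem_iUnion, Finset.mem_Ico, mem_Ioo]
    have h5 := mul_nonneg hN1.le h3
    have h6 := mul_le_mul_of_nonneg_left h4 hN1.le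
    refine ⟨i, ⟨?_, ?_⟩, ?_, ?_⟩
    · have : (-1 : ℝ) < i := by nlinarith
      have : (-1 : ℤ) < i := by exact_mod_cast this
      omega
    · have : (i : ℝ) < NN n := lt_of_mul_lt_mul_left (a := (ra n : ℝ))
        (by rw [← NN_succR]; linarith) (by linarith)
      exact_mod_cast this
    · rw [div_lt_iff₀ hN1]; linarith
    · rw [lt_div_iff₀ hN1]; linarith
  refine (measure_mono h1).trans ((measure_biUnion_finset_le _ _).trans (le_of_eq ?_))
  have h2 : ∀ i : ℤ, ((ra n * i + 2 : ℝ) / NN (n + 1)) - (ra n * i + 1) / NN (n + 1) =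
      1 / NN (n + 1) := fun i => by ring
  simp only [Real.volume_Ioo, h2, Finset.sum_const, Int.card_Ico, sub_zero, Int.toNat_natCast,
    nsmul_eq_mul]
  rw [← ENNReal.ofReal_natCast, ← ENNReal.ofReal_mul hN.le, NN_succR,
    show (NN n : ℝ) * (1 / (ra n * NN n)) = 2⁻¹ ^ (n + 3) by simp [ra]; field_simp,
    ENNReal.ofReal_pow (by norm_num), ENNReal.ofReal_inv_of_pos two_pos, ENNReal.ofReal_ofNat]

lemma measurableSet_isC : MeasurableSet {x | IsC x} := by
  refine measurableSet_Icc.inter (s₂ := {x | ∀ n, x ∉ Hole n}) ?_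
  rw [setOf_forall]
  exact MeasurableSet.iInter fun n => (isOpen_Hole n).measurableSet.compl

lemma vol_isC : volume {x | IsC x} ≠ 0 := fun h => by
  have h1 : Icc (0 : ℝ) 1 ⊆ {x | IsC x} ∪ ⋃ n, Hole n ∩ Icc (0 : ℝ) 1 := fun x hx => by
    by_cases h2 : ∀ n, x ∉ Hole n
    · exact Or.inl ⟨hx, h2⟩
    · push Not at h2
      exact Or.inr (mem_iUnion.2 (h2.imp fun n hn => ⟨hn, hx⟩))
  have h2 := (measure_mono (μ := volume) h1).trans ((measure_union_le _ _).trans
    (add_le_add le_rfl ((measure_iUnion_le _).trans (ENNReal.tsum_le_tsum vol_hole))))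
  simp only [h, pow_add, ENNReal.tsum_mul_right, ENNReal.tsum_geometric, Real.volume_Icc,
    ENNReal.one_sub_inv_two, inv_inv, zero_add, sub_zero, ENNReal.ofReal_one] at h2
  have h3 := ENNReal.toReal_mono (by finiteness) h2
  norm_num at h3

lemma isLengthSpace_of_geodesic {X : Type*} [MetricSpace X] (h : ∀ x y : X,
    ∃ γ : unitInterval → X, γ 0 = x ∧ γ 1 = y ∧ LipschitzWith (nndist x y) γ) :
    IsLengthSpace X := by
  intro x y
  refine le_antisymm (le_iInf fun γ => edist_le_curveLength γ) ?_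
  obtain ⟨γ, h0, h1, hlip⟩ := h x y
  refine iInf_le_of_le ⟨⟨γ, hlip.continuous⟩, h0, h1⟩ ?_
  refine iSup_le fun ⟨n, v, hv, _⟩ => ?_
  have hv' : ∀ i, (0 : ℝ) ≤ v (i + 1) - v i := fun i =>
    sub_nonneg.2 (Subtype.coe_le_coe.2 (hv i.le_succ))
  calc _ ≤ ∑ i ∈ Finset.range n, ENNReal.ofReal (dist x y * ((v (i + 1) : ℝ) - v i)) :=
        Finset.sum_le_sum fun i _ => by
          rw [edist_dist]
          refine ENNReal.ofReal_le_ofReal ((hlip.dist_le_mul _ _).trans (le_of_eq ?_))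
          rw [Subtype.dist_eq, Real.dist_eq, abs_of_nonneg (hv' i)]
          rfl
    _ ≤ edist x y := by
      rw [← ENNReal.ofReal_sum_of_nonneg fun i _ =>
        mul_nonneg dist_nonneg (hv' i), ← Finset.mul_sum,
        Finset.sum_range_sub fun i => (v i : ℝ), edist_dist]
      exact ENNReal.ofReal_le_ofReal (mul_le_of_le_one_right dist_nonneg
        (by linarith [(v n).2.2, (v 0).2.1]))

/-- The fat carpet times a cube, with the maximum metric. -/
abbrev FatSlab (e : ℕ) : Type := FatCarpet × Icc (0 : Fin e → ℝ) 1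

theorem isLengthSpace_fatSlab (e : ℕ) : IsLengthSpace (FatSlab e) := by
  refine isLengthSpace_of_geodesic fun x y => ?_
  obtain ⟨γ, h0, h1, h2⟩ := Intr.exists_geodesic x.1 y.1
  refine ⟨fun t => (γ t, ⟨AffineMap.lineMap x.2.1 y.2.1 (t : ℝ),
    (convex_Icc _ _).lineMap_mem x.2.2 y.2.2 t.2⟩), by simp [h0], by simp [h1],
    LipschitzWith.of_dist_le_mul fun s t => ?_⟩
  rw [Prod.dist_eq, coe_nndist, Prod.dist_eq]
  refine max_le (le_trans ?_ (mul_le_mul_of_nonneg_right (le_max_left _ _) dist_nonneg))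
    (le_trans ?_ (mul_le_mul_of_nonneg_right (le_max_right _ _) dist_nonneg))
  · rw [Subtype.dist_eq s, Real.dist_eq]
    rcases le_total (s : ℝ) t with h | h
    · rw [abs_of_nonpos (by linarith), neg_sub]
      exact h2 s t h
    · rw [abs_of_nonneg (by linarith), dist_comm]
      exact h2 t s h
  · rw [Subtype.dist_eq s, Subtype.dist_eq x.2, Subtype.dist_eq]
    exact (lipschitzWith_lineMap x.2.1 y.2.1).dist_le_mul (s : ℝ) (t : ℝ)

/-- coordinates of the slab -/
noncomputable def slabCoord {e : ℕ} (x : FatSlab e) : Fin (e + 2) → ℝ :=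
  Fin.cons x.1.pt.1.fst (Fin.cons x.1.pt.1.snd x.2.1)

lemma continuous_fst' {e : ℕ} : Continuous fun x : FatSlab e => x.1.pt.1.fst :=
  (WithLp.continuous_fst 1 ℝ ℝ).comp (continuous_subtype_val.comp
    (Intr.lipschitz_pt.continuous.comp continuous_fst))

lemma continuous_snd' {e : ℕ} : Continuous fun x : FatSlab e => x.1.pt.1.snd :=
  (WithLp.continuous_snd 1 ℝ ℝ).comp (continuous_subtype_val.comp
    (Intr.lipschitz_pt.continuous.comp continuous_fst))

lemma continuous_tail {e : ℕ} : Continuous fun x : FatSlab e => (Fin.cons x.1.pt.1.snd x.2.1 :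
    Fin (e + 1) → ℝ) :=
  continuous_snd'.finCons (continuous_subtype_val.comp continuous_snd)

theorem coveringDimLE_fatSlab (e : ℕ) : CoveringDimLE (FatSlab e) (e + 1) := by
  have hc : Continuous (slabCoord (e := e)) := continuous_fst'.finCons continuous_tail
  have hi : Function.Injective (slabCoord (e := e)) := fun x y h => by
    obtain ⟨h1, h2⟩ := Fin.cons_inj.1 h
    obtain ⟨h2, h3⟩ := Fin.cons_inj.1 h2
    refine Prod.ext (Subtype.ext ?_) (Subtype.ext h3)
    exact (WithLp.ofLp_injective 1) (Prod.ext h1 h2)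
  refine (coveringDimLE_of_holes (isCompact_range hc) ?_).of_homeomorph
    (hc.isClosedEmbedding hi).isEmbedding.toHomeomorph
  rintro n _ ⟨x, rfl⟩
  rcases x.1.pt.2.2.2 n with h | h
  · exact ⟨0, h⟩
  · exact ⟨1, h⟩

theorem hasCoveringDim_fatSlab (e : ℕ) : HasCoveringDim (FatSlab e) (e + 1) := by
  refine ⟨coveringDimLE_fatSlab e, fun n hn => ?_⟩
  have hy : ∀ (y : stdSimplex ℝ (Fin (e + 2))) i, y.1 i ∈ Icc (0 : ℝ) 1 := fun y i =>
    mem_Icc_of_mem_stdSimplex y.2 i
  refine le_of_coveringDimLE hn (fun x => Fin.cons (1 - (x.1.pt.1.snd + ∑ i, x.2.1 i))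
      (Fin.cons x.1.pt.1.snd x.2.1)) (Continuous.finCons ?_ continuous_tail)
    (fun x => by simp [Fin.sum_univ_succ])
    (fun y => (Intr.mk carpet_hB (cpt 0 (y.1 1) (isC_zero.inC_left (hy y 1))),
      ⟨fun i => y.1 i.succ.succ, fun i => (hy y _).1, fun i => (hy y _).2⟩)) ?_ fun y => ?_
  · exact continuous_const.sub (continuous_snd'.add (by fun_prop))
  · have hc : ∀ i, Continuous fun y : stdSimplex ℝ (Fin (e + 2)) => y.1 i := fun i =>
      (continuous_apply i).comp continuous_subtype_val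
    exact Continuous.prodMk (fatHomeo.symm.continuous.comp (Continuous.subtype_mk
      ((WithLp.prod_continuous_toLp 1 ℝ ℝ).comp (continuous_const.prodMk (hc 1))) _))
      (Continuous.subtype_mk (continuous_pi fun i => hc _) _)
  · have h1 := y.2.2
    rw [Fin.sum_univ_succ, Fin.sum_univ_succ] at h1
    funext i
    refine Fin.cases ?_ (fun i => Fin.cases rfl (fun i => rfl) i) i
    show 1 - (y.1 1 + ∑ i : Fin e, y.1 i.succ.succ) = y.1 0
    rw [← h1]
    simp

theorem not_inverseLimit_fatSlab (e : ℕ) :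
    ¬ IsInverseLimitOfMinkowskiPolyhedra.{u} (e + 1) (FatSlab e) := by
  classical
  refine not_inverseLimit (A := pi univ fun _ => {x | IsC x})
    (MeasurableSet.univ_pi fun _ => measurableSet_isC)
    (by rw [volume_pi_pi]; exact Finset.prod_ne_zero_iff.2 fun _ _ => vol_isC)
    (fun a => if h : ∀ i, IsC (a i) then (ccpt (a 0) (a 1) (h 0) (h 1),
      ⟨fun i => a i.succ.succ, fun i => (h _).1.1, fun i => (h _).1.2⟩)
      else (ccpt 0 0 isC_zero isC_zero, ⟨0, le_rfl, zero_le_one⟩)) fun a ha b hb => ?_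
  have ha' : ∀ i, IsC (a i) := fun i => ha i (mem_univ i)
  have hb' : ∀ i, IsC (b i) := fun i => hb i (mem_univ i)
  simp only [dif_pos ha', dif_pos hb', Prod.dist_eq, dist_ccpt, Subtype.dist_eq]
  have h0 : |a 0 - b 0| ≤ dist a b := dist_le_pi_dist a b 0
  have h1 : |a 1 - b 1| ≤ dist a b := dist_le_pi_dist a b 1
  refine ⟨(dist_pi_le_iff (by positivity)).2 fun i => ?_, max_le (by linarith)
    ((dist_pi_le_iff (by positivity)).2 fun i =>
      (dist_le_pi_dist a b _).trans (by linarith [dist_nonneg (x := a) (y := b)]))⟩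
  refine Fin.cases ?_ (fun i => Fin.cases ?_ (fun i => ?_) i) i
  · exact le_max_of_le_left (le_add_of_nonneg_right (abs_nonneg _))
  · exact le_max_of_le_left (le_add_of_nonneg_left (abs_nonneg _))
  · exact le_max_of_le_right (dist_le_pi_dist (fun i : Fin e => a i.succ.succ)
      (fun i => b i.succ.succ) i)

theorem main_all (d : ℕ) (hd : 1 ≤ d) :
    ∃ (X : Type) (_ : MetricSpace X), CompactSpace X ∧ IsLengthSpace X ∧ HasCoveringDim X d ∧
      ¬ IsInverseLimitOfMinkowskiPolyhedra.{u} d X := by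
  obtain ⟨e, rfl⟩ := Nat.exists_eq_add_of_le' hd
  exact ⟨FatSlab e, inferInstance, inferInstance, isLengthSpace_fatSlab e,
    hasCoveringDim_fatSlab e, not_inverseLimit_fatSlab e⟩

end Pool.Agent.MP_616ade_gt

end
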