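import Pool.Agent.Mg.F5cfbf6.Gd23183

section

set_option autoImplicit false
set_option linter.unusedSectionVars false

namespace Pool.Agent.MP_5cfbf6_gt

open Set Filter Topology MeasureTheory Module

lemma exists_frame {n : E3} : ∃ e : E3, dt e e = 1 ∧ dt n e = 0 := by
  obtain ⟨z, hz, h1, -⟩ := exists_orth2 n n
  refine ⟨‖z‖⁻¹ • z, ?_, by rw [dt_smul, h1, mul_zero]⟩
  have : ‖z‖ ≠ 0 := norm_ne_zero_iff.2 hz
  rw [dt_smul, smul_dt, dt_self]
  field_simp

lemma dt_cr_unit {n e : E3} (hn : dt n n = 1) (he : dt e e = 1) (hne : dt n e = 0) :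
    dt (cr n e) (cr n e) = 1 := by
  rw [dt_cr_cr, hn, he, hne]; ring

/-- expansion in the orthonormal frame `n, e, cr n e` -/
lemma frame_expand {n e : E3} (hn : dt n n = 1) (he : dt e e = 1) (hne : dt n e = 0) (x : E3) :
    x = dt n x • n + dt e x • e + dt (cr n e) x • cr n e := by
  have hd : det3 n e (cr n e) ≠ 0 := by
    rw [← dt_cr, dt_cr_unit hn he hne]; exact one_ne_zero
  have h1 := dt_cr_left n e
  have h2 := dt_cr_right n e
  have h3 := dt_cr_unit hn he hne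
  apply eq_of_dt3 hd
  · simp only [dt_add, dt_smul, hn, hne, h1]; ring
  · simp only [dt_add, dt_smul, he, dt_comm e n, hne, h2]; ring
  · simp only [dt_add, dt_smul, h3, dt_comm (cr n e) n, dt_comm (cr n e) e, h1, h2]; ring

lemma frame_sq {n e : E3} (hn : dt n n = 1) (he : dt e e = 1) (hne : dt n e = 0) (x y : E3) :
    dt x y = dt n x * dt n y + dt e x * dt e y + dt (cr n e) x * dt (cr n e) y := by
  conv_lhs => rw [frame_expand hn he hne x]
  simp only [add_dt, smul_dt]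

/-- plane chart -/
noncomputable def pl (b e f : E3) (z : ℂ) : E3 := b + z.re • e + z.im • f

lemma continuous_pl (b e f : E3) : Continuous (pl b e f) := by
  unfold pl; fun_prop

lemma isometry_pl (b : E3) {e f : E3} (he : dt e e = 1) (hf : dt f f = 1) (hef : dt e f = 0) :
    Isometry (pl b e f) := by
  apply Isometry.of_dist_eq
  intro z w
  have e1 : pl b e f z - pl b e f w = (z - w).re • e + (z - w).im • f := by
    simp only [pl, Complex.sub_re, Complex.sub_im]; module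
  rw [dist_eq_norm, dist_eq_norm, e1, ← sq_eq_sq₀ (norm_nonneg _) (norm_nonneg _), ← dt_self,
    Complex.sq_norm, Complex.normSq_apply]
  simp only [dt_add, add_dt, dt_smul, smul_dt, he, hf, hef, dt_comm f e]
  ring

lemma mem_range_pl {n e b x : E3} (hn : dt n n = 1) (he : dt e e = 1) (hne : dt n e = 0)
    (hx : dt n x = dt n b) : pl b e (cr n e) ⟨dt e (x - b), dt (cr n e) (x - b)⟩ = x := by
  have := frame_expand hn he hne (x - b)
  rw [dt_sub n, hx, sub_self, zero_smul, zero_add] at this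
  unfold pl
  rw [add_assoc, ← this]; abel

lemma area_pl {n e b : E3} (hn : dt n n = 1) (he : dt e e = 1) (hne : dt n e = 0) {F : Set E3}
    (hF : ∀ x ∈ F, dt n x = dt n b) : μHE[2] F = volume (pl b e (cr n e) ⁻¹' F) := by
  have hi := isometry_pl b he (dt_cr_unit hn he hne) (dt_cr_right n e)
  have h1 := hi.euclideanHausdorffMeasure_preimage (d := 2) F
  have h2 : F ∩ range (pl b e (cr n e)) = F :=
    inter_eq_left.2 fun x hx => ⟨_, mem_range_pl hn he hne (hF x hx)⟩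
  have h3 : (μHE[finrank ℝ ℂ] : Measure ℂ) = volume :=
    InnerProductSpace.euclideanHausdorffMeasure_eq_volume
  rw [Complex.finrank_real_complex] at h3
  rw [← h3, h1, h2]

lemma isCompact_pl {n e b : E3} (hn : dt n n = 1) (he : dt e e = 1) (hne : dt n e = 0)
    {F : Set E3} (hF : IsCompact F) : IsCompact (pl b e (cr n e) ⁻¹' F) :=
  (isometry_pl b he (dt_cr_unit hn he hne) (dt_cr_right n e)).isClosedEmbedding.isCompact_preimage hF

lemma convex_pl (b e f : E3) {F : Set E3} (hF : Convex ℝ F) : Convex ℝ (pl b e f ⁻¹' F) := by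
  intro z hz w hw s t hs ht hst
  have : pl b e f (s • z + t • w) = s • pl b e f z + t • pl b e f w := by
    obtain rfl : t = 1 - s := by linarith
    simp only [pl, Complex.add_re, Complex.add_im, Complex.smul_re, Complex.smul_im, smul_eq_mul]
    module
  show pl b e f (s • z + t • w) ∈ F
  rw [this]; exact hF hz hw hs ht hst

end Pool.Agent.MP_5cfbf6_gt

end

section

set_option autoImplicit false
set_option linter.unusedSectionVars false

namespace Pool.Agent.MP_5cfbf6_gt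

open Set Filter Topology MeasureTheory Module

variable {ι : Type} [Fintype ι] [DecidableEq ι]

/-- the linear map with columns `a b c` -/
noncomputable def lin (a b c : E3) : E3 →ₗ[ℝ] E3 where
  toFun z := z 0 • a + z 1 • b + z 2 • c
  map_add' x y := by simp only [PiLp.add_apply]; module
  map_smul' t x := by simp only [PiLp.smul_apply, smul_eq_mul, RingHom.id_apply]; module

lemma lin_apply (a b c z : E3) : lin a b c z = z 0 • a + z 1 • b + z 2 • c := rfl

lemma dt_lin (w a b c z : E3) :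
    dt w (lin a b c z) = z 0 * dt w a + z 1 * dt w b + z 2 * dt w c := by
  rw [lin_apply, dt_add, dt_add, dt_smul, dt_smul, dt_smul]

lemma det_lin (a b c : E3) : LinearMap.det (lin a b c) = det3 a b c := by
  rw [← LinearMap.det_toMatrix (EuclideanSpace.basisFun (Fin 3) ℝ).toBasis, Matrix.det_fin_three]
  simp [LinearMap.toMatrix_apply, lin_apply, det3, dt]
  ring

lemma vol_lin (a b c : E3) (Z : Set E3) :
    volume (lin a b c '' Z) = ENNReal.ofReal |det3 a b c| * volume Z := by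
  rw [Measure.addHaar_image_linearMap, det_lin]

/-- closed positive orthant -/
def orth : Set E3 := {z | 0 ≤ z 0 ∧ 0 ≤ z 1 ∧ 0 ≤ z 2}

/-- coordinate tetrahedron -/
def tet (α0 α1 α2 : ℝ) : Set E3 := {z | z ∈ orth ∧ α0 * z 0 + α1 * z 1 + α2 * z 2 ≤ 1}

/-- coordinate tetrahedron cut by a second half-space -/
def cut (α0 α1 α2 β0 β1 β2 : ℝ) : Set E3 :=
  {z | z ∈ tet α0 α1 α2 ∧ β0 * z 0 + β1 * z 1 + β2 * z 2 ≤ 1}

def QQ (a b : ℝ) : ℝ := a ^ 2 + a * b + b ^ 2

/-- the cut tetrahedron of a perturbation of size `ε` -/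
def cutE (A B c a1 a2 b0 b1 b2 ε : ℝ) : Set E3 :=
  cut (1 / (1 + ε ^ 2 * A / 2)) ((1 + ε * a1) / (1 + ε ^ 2 * A / 2))
    ((1 + ε * a2) / (1 + ε ^ 2 * A / 2)) ((c + ε * b0) / (1 + ε ^ 2 * B / 2))
    ((1 + ε * b1) / (1 + ε ^ 2 * B / 2)) ((1 + ε * b2) / (1 + ε ^ 2 * B / 2))

/-- `c i` lies in the relative interior of face `i` -/
def Ctr (u : ι → E3) (h : ι → ℝ) (c : ι → E3) : Prop :=
  ∀ i, dt (u i) (c i) = h i ∧ ∀ l, l ≠ i → dt (u l) (c i) < h l

/-- absolute determinant of the flag `(c i, ep i j, em i j)` -/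
noncomputable def DD (u : ι → E3) (Tr : ι → ι → ι → Prop) (h : ι → ℝ) (c : ι → E3) (i j : ι) : ℝ :=
  mu u Tr h i j * (h i * (h j - dt (u j) (c i)))

/-- twice the mixed area of face `i` (unit normals) -/
noncomputable def aa (u : ι → E3) (Tr : ι → ι → ι → Prop) (y z : ι → ℝ) (i : ι) : ℝ :=
  ∑ j, mu u Tr y i j * (z j - dt (u i) (u j) * z i)

/-- six times the mixed volume (unit normals) -/
noncomputable def TT (u : ι → E3) (Tr : ι → ι → ι → Prop) (x y z : ι → ℝ) : ℝ :=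
  ∑ i, x i * aa u Tr y z i

variable {u : ι → E3} {h : ι → ℝ} {Tr : ι → ι → ι → Prop}

lemma Sys.exists_ctr (S : Sys u h Tr) : ∃ c, Ctr u h c := by
  choose c hc using S.exists_center
  exact ⟨c, hc⟩

lemma Sys.u_inj (S : Sys u 1 Tr) {i j : ι} (hij : i ≠ j) : u i ≠ u j := by
  obtain ⟨c, h1, h2⟩ := S.exists_center i
  intro e
  have := h2 j hij.symm
  rw [← e, h1] at this
  exact lt_irrefl _ this

lemma Sys.cos_lt (S : Sys u 1 Tr) (hu : ∀ i, dt (u i) (u i) = 1) {i j : ι} (hij : i ≠ j) :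
    dt (u i) (u j) < 1 := by
  have := dt_self_pos (sub_ne_zero.2 (S.u_inj hij))
  rw [dt_sub, sub_dt, sub_dt, hu, hu, dt_comm (u j) (u i)] at this
  linarith

lemma Sys.ctr_u (S : Sys u 1 Tr) (hu : ∀ i, dt (u i) (u i) = 1) : Ctr u 1 u :=
  fun i => ⟨hu i, fun _ hl => S.cos_lt hu hl⟩

lemma Sys.u_mem (S : Sys u 1 Tr) (hu : ∀ i, dt (u i) (u i) = 1) (i : ι) : u i ∈ fc u 1 {i} := by
  refine ⟨fun l => ?_, fun l hl => by rw [mem_singleton_iff.1 hl]; exact hu i⟩
  by_cases e : l = i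
  · rw [e]; exact (hu i).le
  · exact (S.cos_lt hu e).le

lemma Sys.DD_nonneg (S : Sys u h Tr) (hh : ∀ i, 0 < h i) {c : ι → E3} (hc : Ctr u h c) (i j : ι) :
    0 ≤ DD u Tr h c i j := by
  by_cases A : Adj Tr i j
  · have := (hc i).2 j (S.adj_ne A).symm
    exact mul_nonneg (S.mu_nonneg i j) (mul_nonneg (hh i).le (by linarith))
  · simp [DD, mu_of_not A]

end Pool.Agent.MP_5cfbf6_gt

end

section

set_option autoImplicit false
set_option linter.unusedSectionVars false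

namespace Pool.Agent.MP_5cfbf6_gt

open Set Filter Topology MeasureTheory Module

lemma mp_coord : MeasurePreserving (fun z : E3 => ((z 2, z 0, z 1) : ℝ × ℝ × ℝ)) := by
  have h1 := PiLp.volume_preserving_ofLp (Fin 3)
  have h2 := volume_preserving_piFinSuccAbove (fun _ : Fin 3 => ℝ) 2
  have h3 := (MeasurePreserving.id (volume : Measure ℝ)).prod (volume_preserving_finTwoArrow ℝ)
  exact (h3.comp h2).comp h1

lemma lint_Icc {f : ℝ → ℝ} (hf : Continuous f) {D : ℝ} (hD : 0 ≤ D)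
    (h0 : ∀ t ∈ Icc 0 D, 0 ≤ f t) :
    ∫⁻ t, (Icc 0 D).indicator (fun t => ENNReal.ofReal (f t)) t
      = ENNReal.ofReal (∫ t in (0 : ℝ)..D, f t) := by
  rw [lintegral_indicator measurableSet_Icc, intervalIntegral.integral_of_le hD,
    ← integral_Icc_eq_integral_Ioc, ofReal_integral_eq_lintegral_ofReal
      (hf.continuousOn.integrableOn_Icc) ((ae_restrict_iff' measurableSet_Icc).2
        (Eventually.of_forall h0))]

lemma vol_tri (m : ℝ) {k0 k1 : ℝ} (hk0 : 0 < k0) (hk1 : 0 < k1) :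
    volume {p : ℝ × ℝ | 0 ≤ p.1 ∧ 0 ≤ p.2 ∧ k0 * p.1 + k1 * p.2 < m}
      = ENNReal.ofReal ((max m 0) ^ 2 / (2 * k0 * k1)) := by
  rcases le_total m 0 with hm | hm
  · have : {p : ℝ × ℝ | 0 ≤ p.1 ∧ 0 ≤ p.2 ∧ k0 * p.1 + k1 * p.2 < m} = ∅ := by
      rw [eq_empty_iff_forall_notMem]
      rintro p ⟨h1, h2, h3⟩
      nlinarith [mul_nonneg hk0.le h1, mul_nonneg hk1.le h2]
    rw [this, max_eq_right hm]; simp
  have hS : MeasurableSet {p : ℝ × ℝ | 0 ≤ p.1 ∧ 0 ≤ p.2 ∧ k0 * p.1 + k1 * p.2 < m} := by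
    measurability
  rw [Measure.volume_eq_prod, Measure.prod_apply hS, max_eq_left hm]
  have : (fun x : ℝ => volume (Prod.mk x ⁻¹'
      {p : ℝ × ℝ | 0 ≤ p.1 ∧ 0 ≤ p.2 ∧ k0 * p.1 + k1 * p.2 < m}))
      = (Icc 0 (m / k0)).indicator fun t => ENNReal.ofReal ((m - k0 * t) / k1) := by
    funext x
    by_cases hx : x ∈ Icc 0 (m / k0)
    · rw [indicator_of_mem hx]
      have : Prod.mk x ⁻¹' {p : ℝ × ℝ | 0 ≤ p.1 ∧ 0 ≤ p.2 ∧ k0 * p.1 + k1 * p.2 < m}
          = Ico 0 ((m - k0 * x) / k1) := by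
        ext y
        simp only [mem_preimage, mem_ofPred_eq, mem_Ico, hx.1, true_and, lt_div_iff₀ hk1]
        constructor <;> rintro ⟨a, b⟩ <;> exact ⟨a, by linarith⟩
      rw [this, Real.volume_Ico, sub_zero]
    · rw [indicator_of_notMem hx]
      have : Prod.mk x ⁻¹' {p : ℝ × ℝ | 0 ≤ p.1 ∧ 0 ≤ p.2 ∧ k0 * p.1 + k1 * p.2 < m} = ∅ := by
        rw [eq_empty_iff_forall_notMem]
        rintro y ⟨h1, h2, h3⟩
        apply hx
        refine ⟨h1, ?_⟩
        rw [le_div_iff₀ hk0]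
        simp only at h1 h2 h3
        nlinarith [mul_nonneg hk1.le h2]
      rw [this, measure_empty]
  rw [this, lint_Icc (by fun_prop) (by positivity)]
  · congr 1
    have : ∀ t : ℝ, HasDerivAt (fun t => (m * t - k0 * t ^ 2 / 2) / k1) ((m - k0 * t) / k1) t := by
      intro t
      have := ((((hasDerivAt_id t).const_mul m).sub
        (((hasDerivAt_pow 2 t).const_mul k0).div_const 2))).div_const k1
      exact this.congr_deriv (by simp; ring)
    rw [intervalIntegral.integral_eq_sub_of_hasDerivAt (fun t _ => this t)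
      (Continuous.intervalIntegrable (by fun_prop) _ _)]
    field_simp; ring
  · intro t ht
    have := (le_div_iff₀ hk0).1 ht.2
    apply div_nonneg _ hk1.le
    linarith

theorem vol_wedge (m0 m1 : ℝ) {D k0 k1 : ℝ} (hD : 0 ≤ D) (hk0 : 0 < k0) (hk1 : 0 < k1) :
    volume {z : E3 | 0 ≤ z 0 ∧ 0 ≤ z 1 ∧ 0 ≤ z 2 ∧ z 2 ≤ D ∧ k0 * z 0 + k1 * z 1 < m0 + m1 * z 2}
      = ENNReal.ofReal ((∫ τ in (0 : ℝ)..D, (max (m0 + m1 * τ) 0) ^ 2) / (2 * k0 * k1)) := by
  set S : Set (ℝ × ℝ × ℝ) := {p | 0 ≤ p.2.1 ∧ 0 ≤ p.2.2 ∧ 0 ≤ p.1 ∧ p.1 ≤ D ∧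
    k0 * p.2.1 + k1 * p.2.2 < m0 + m1 * p.1} with hSd
  have hS : MeasurableSet S := by rw [hSd]; measurability
  have h1 := mp_coord.measure_preimage hS.nullMeasurableSet
  refine h1.trans ?_
  rw [Measure.volume_eq_prod, Measure.prod_apply hS]
  have : (fun x : ℝ => volume (Prod.mk x ⁻¹' S))
      = (Icc 0 D).indicator fun t => ENNReal.ofReal ((max (m0 + m1 * t) 0) ^ 2 / (2 * k0 * k1)) := by
    funext x
    by_cases hx : x ∈ Icc 0 D
    · rw [indicator_of_mem hx, ← vol_tri _ hk0 hk1]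
      congr 1
      ext y
      simp [hSd, hx.1, hx.2]
    · rw [indicator_of_notMem hx]
      have : Prod.mk x ⁻¹' S = ∅ := by
        rw [eq_empty_iff_forall_notMem]
        rintro y ⟨-, -, h3, h4, -⟩
        exact hx ⟨h3, h4⟩
      rw [this, measure_empty]
  rw [this, lint_Icc (by fun_prop) hD (fun t _ => by positivity), intervalIntegral.integral_div]

lemma vol_le_null {A B N : Set E3} (hN : volume N = 0) (h : A ⊆ B ∪ N) : volume A ≤ volume B :=
  (measure_mono h).trans ((measure_union_le _ _).trans (by rw [hN, add_zero]))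

lemma vol_plane {a : E3} (ha : a ≠ 0) (c : ℝ) : volume {z : E3 | dt a z = c} = 0 := by
  have hp := dt_self_pos ha
  have e : {z : E3 | dt a z = c}
      = (AffineSubspace.mk' ((c / dt a a) • a) (perp a) : Set E3) := by
    ext z
    simp only [mem_ofPred_eq, SetLike.mem_coe, AffineSubspace.mem_mk', vsub_eq_sub, mem_perp,
      dt_sub, dt_smul, div_mul_cancel₀ _ hp.ne', sub_eq_zero]
  rw [e]
  apply Measure.addHaar_affineSubspace
  intro htop
  have : (c / dt a a) • a + a ∈ AffineSubspace.mk' ((c / dt a a) • a) (perp a) := by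
    rw [htop]; trivial
  rw [AffineSubspace.mem_mk', vsub_eq_sub, add_sub_cancel_left, mem_perp] at this
  exact hp.ne' this

lemma vol_plane' {a0 a1 a2 : ℝ} (ha : a0 ≠ 0 ∨ a1 ≠ 0 ∨ a2 ≠ 0) (c : ℝ) :
    volume {z : E3 | a0 * z 0 + a1 * z 1 + a2 * z 2 = c} = 0 := by
  have := vol_plane (a := !₂[a0, a1, a2]) (by
    intro e
    have h0 := congrArg (fun v : E3 => v 0) e
    have h1 := congrArg (fun v : E3 => v 1) e
    have h2 := congrArg (fun v : E3 => v 2) e
    simp at h0 h1 h2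
    tauto) c
  simpa [dt] using this

theorem vol_tet {α0 α1 α2 : ℝ} (h0 : 0 < α0) (h1 : 0 < α1) (h2 : 0 < α2) :
    volume (tet α0 α1 α2) = ENNReal.ofReal (1 / (6 * α0 * α1 * α2)) := by
  have hw := vol_wedge 1 (-α2) (D := 1 / α2) (by positivity) h0 h1
  have hi : ∫ τ in (0 : ℝ)..1 / α2, (max (1 + -α2 * τ) 0) ^ 2 = 1 / (3 * α2) := by
    rw [intervalIntegral.integral_congr (g := fun τ => (1 - α2 * τ) ^ 2)]
    · have : ∀ t : ℝ, HasDerivAt (fun t => -(1 - α2 * t) ^ 3 / (3 * α2)) ((1 - α2 * t) ^ 2) t := by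
        intro t
        have := (((((hasDerivAt_id t).const_mul α2).const_sub 1).pow 3).neg).div_const (3 * α2)
        exact this.congr_deriv (by simp; field_simp)
      rw [intervalIntegral.integral_eq_sub_of_hasDerivAt (fun t _ => this t)
        (Continuous.intervalIntegrable (by fun_prop) _ _)]
      field_simp; ring
    · intro t ht
      rw [uIcc_of_le (by positivity)] at ht
      have := (le_div_iff₀ h2).1 ht.2
      simp only
      rw [max_eq_left (by linarith)]; ring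
  rw [hi] at hw
  have e : 1 / (3 * α2) / (2 * α0 * α1) = 1 / (6 * α0 * α1 * α2) := by field_simp; ring
  rw [e] at hw
  rw [← hw]
  apply le_antisymm
  · refine vol_le_null (vol_plane' (a1 := α1) (a2 := α2) (Or.inl h0.ne') 1) ?_
    rintro z ⟨⟨a, b, c⟩, d⟩
    rcases d.eq_or_lt with d | d
    · exact Or.inr d
    · refine Or.inl ⟨a, b, c, ?_, by linarith⟩
      rw [le_div_iff₀ h2]
      nlinarith [mul_nonneg h0.le a, mul_nonneg h1.le b]
  · apply measure_mono
    rintro z ⟨a, b, c, -, d⟩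
    exact ⟨⟨a, b, c⟩, by linarith⟩

theorem vol_tet_open :
    volume {z : E3 | 0 < z 0 ∧ 0 < z 1 ∧ 0 < z 2 ∧ z 0 + z 1 + z 2 < 1} = ENNReal.ofReal (1 / 6) := by
  have h := vol_tet one_pos one_pos one_pos
  norm_num at h
  norm_num
  rw [← h]
  apply le_antisymm
  · apply measure_mono
    rintro z ⟨a, b, c, d⟩
    exact ⟨⟨a.le, b.le, c.le⟩, by linarith⟩
  · have n0 := vol_plane' (a0 := 1) (a1 := 0) (a2 := 0) (by simp) 0
    have n1 := vol_plane' (a0 := 0) (a1 := 1) (a2 := 0) (by simp) 0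
    have n2 := vol_plane' (a0 := 0) (a1 := 0) (a2 := 1) (by simp) 0
    have n3 := vol_plane' (a0 := 1) (a1 := 1) (a2 := 1) (by simp) 1
    have n := measure_union_null (measure_union_null n0 n1) (measure_union_null n2 n3)
    refine vol_le_null n ?_
    rintro z ⟨⟨a, b, c⟩, d⟩
    by_contra hc
    simp only [mem_union, mem_ofPred_eq, not_or] at hc
    obtain ⟨h1, ⟨h2, h3⟩, h4, h5⟩ := hc
    apply h1
    exact ⟨lt_of_le_of_ne a fun e => h2 (by linarith), lt_of_le_of_ne b fun e => h3 (by linarith),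
      lt_of_le_of_ne c fun e => h4 (by linarith), by
        have := lt_of_le_of_ne d h5; linarith⟩

end Pool.Agent.MP_5cfbf6_gt

end

section

set_option autoImplicit false
set_option linter.unusedSectionVars false

namespace Pool.Agent.MP_5cfbf6_gt

open Set Filter Topology MeasureTheory Module

variable {ι : Type} [Fintype ι] [DecidableEq ι]
variable {u : ι → E3} {h : ι → ℝ} {Tr : ι → ι → ι → Prop}

namespace FlagX

variable {c : ι → E3} {i j : ι}

/-- the linear map of a flag -/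
noncomputable abbrev LL (u : ι → E3) (Tr : ι → ι → ι → Prop) (h : ι → ℝ) (c : ι → E3) (i j : ι) :
    E3 →ₗ[ℝ] E3 := lin (c i) (ep u Tr h i j) (em u Tr h i j)

/-- the open coordinate tetrahedron -/
def T0 : Set E3 := {z : E3 | 0 < z 0 ∧ 0 < z 1 ∧ 0 < z 2 ∧ z 0 + z 1 + z 2 < 1}

lemma det_eq (S : Sys u h Tr) (hc : Ctr u h c) (A : Adj Tr i j) :
    det3 (c i) (ep u Tr h i j) (em u Tr h i j) = -DD u Tr h c i j := by
  have e : ∀ (x q a b : E3) (m : ℝ),
      det3 x (m • cr a b + q) q = m * (dt a q * dt b x - dt b q * dt a x) := by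
    intro x q a b m
    simp [det3, dt]
    ring
  rw [sub_eq_iff_eq_add.1 (S.ep_sub A h), e, S.em1 A, S.em2 A, (hc i).1, DD]
  ring

lemma DD_pos (S : Sys u h Tr) (hh : ∀ i, 0 < h i) (hc : Ctr u h c) (A : Adj Tr i j) :
    0 < DD u Tr h c i j :=
  mul_pos (S.mu_pos A) (mul_pos (hh i) (sub_pos.2 ((hc i).2 j (S.adj_ne A).symm)))

lemma vol_img (S : Sys u h Tr) (hh : ∀ i, 0 < h i) (hc : Ctr u h c) (A : Adj Tr i j) (Z : Set E3) :
    volume (LL u Tr h c i j '' Z) = ENNReal.ofReal (DD u Tr h c i j) * volume Z := by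
  rw [vol_lin, det_eq S hc A, abs_neg, abs_of_pos (DD_pos S hh hc A)]

lemma ctr_mem (hc : Ctr u h c) (i : ι) : c i ∈ poly u h := fun l => by
  by_cases e : l = i
  · rw [e, (hc i).1]
  · exact ((hc i).2 l e).le

/-- the first constraint met by a ray -/
lemma ray (S : Sys u h Tr) {b d : E3} (hb : b ∈ poly u h) (hd : d ≠ 0) :
    ∃ (j : ι) (t : ℝ), 0 < dt (u j) d ∧ b + t • d ∈ poly u h ∧ dt (u j) (b + t • d) = h j := by
  have hne : (Finset.univ.filter fun l => 0 < dt (u l) d).Nonempty := by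
    by_contra hn
    simp only [Finset.not_nonempty_iff_eq_empty, Finset.filter_eq_empty_iff, Finset.mem_univ,
      not_lt, true_implies] at hn
    obtain ⟨R, hR⟩ := isBounded_iff_forall_norm_le.1 S.bdd
    have h0 : 0 < ‖d‖ := norm_pos_iff.2 hd
    have h1 := hR b hb
    have h2 : 0 ≤ (2 * R + 1) / ‖d‖ := div_nonneg (by linarith [norm_nonneg b]) h0.le
    have h3 := hR (b + ((2 * R + 1) / ‖d‖) • d) fun l => by
      rw [dt_add, dt_smul]
      linarith [hb l, mul_nonpos_of_nonneg_of_nonpos h2 (@hn l)]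
    have h4 := norm_sub_le (b + ((2 * R + 1) / ‖d‖) • d) b
    rw [add_sub_cancel_left, norm_smul, Real.norm_of_nonneg h2, div_mul_cancel₀ _ h0.ne'] at h4
    linarith
  obtain ⟨j, hj, H⟩ := Finset.exists_min_image _ (fun l => (h l - dt (u l) b) / dt (u l) d) hne
  have hj' := (Finset.mem_filter.1 hj).2
  refine ⟨j, (h j - dt (u j) b) / dt (u j) d, hj', fun l => ?_, ?_⟩
  · rw [dt_add, dt_smul]
    by_cases hl : 0 < dt (u l) d
    · linarith [(le_div_iff₀ hl).1 (H l (by simpa using hl))]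
    · linarith [hb l, mul_nonpos_of_nonneg_of_nonpos (div_nonneg (sub_nonneg.2 (hb j)) hj'.le)
        (not_lt.1 hl)]
  · rw [dt_add, dt_smul, div_mul_cancel₀ _ hj'.ne', add_sub_cancel]

lemma cover_face (S : Sys u h Tr) (hc : Ctr u h c) {y : E3} (hy : y ∈ fc u h {i}) {s : ℝ}
    (hs : 0 ≤ s) :
    ∃ j, Adj Tr i j ∧ ∃ z ∈ orth, z 0 + z 1 + z 2 = s ∧ LL u Tr h c i j z = s • y := by
  by_cases e : y - c i = 0
  · obtain ⟨j, k, T⟩ := S.used i
    refine ⟨j, ⟨k, T⟩, !₂[s, 0, 0], ⟨hs, le_rfl, le_rfl⟩, by simp, ?_⟩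
    simp [lin_apply, sub_eq_zero.1 e]
  obtain ⟨j, t, h1, h2, h3⟩ := ray S (ctr_mem hc i) e
  have h4 : dt (u i) (y - c i) = 0 := by rw [dt_sub, hy.2 i rfl, (hc i).1, sub_self]
  have h5 : 1 ≤ t := by
    have := hy.1 j
    rw [dt_add, dt_smul] at h3
    rw [dt_sub] at h1 h3
    nlinarith
  have t0 : 0 < t := by linarith
  obtain ⟨A, r, r0, r1, h6⟩ := S.edge_pt (i := i) (j := j) (fun e => h1.ne' (e ▸ h4)) h2
    (by rw [dt_add, dt_smul, h4, (hc i).1, mul_zero, add_zero]) h3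
  refine ⟨j, A, !₂[s * (1 - t⁻¹), s * t⁻¹ * r, s * t⁻¹ * (1 - r)],
    ⟨mul_nonneg hs (sub_nonneg.2 (inv_le_one_of_one_le₀ h5)), by
      show 0 ≤ s * t⁻¹ * r
      positivity, mul_nonneg (by positivity) (sub_nonneg.2 r1)⟩, by simp; ring, ?_⟩
  have h7 : y = c i + t⁻¹ • (r • ep u Tr h i j + (1 - r) • em u Tr h i j - c i) := by
    rw [← h6, add_sub_cancel_left, smul_smul, inv_mul_cancel₀ t0.ne', one_smul, add_sub_cancel]
  rw [h7]
  change (s * (1 - t⁻¹)) • c i + (s * t⁻¹ * r) • ep u Tr h i j +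
    (s * t⁻¹ * (1 - r)) • em u Tr h i j = _
  module

lemma cover (S : Sys u h Tr) (hh : ∀ i, 0 < h i) (hc : Ctr u h c) (x : E3) :
    ∃ i j, Adj Tr i j ∧ ∃ z ∈ orth, LL u Tr h c i j z = x := by
  by_cases e : x = 0
  · obtain ⟨i, j, k, T⟩ := S.ne
    exact ⟨i, j, ⟨k, T⟩, 0, ⟨le_rfl, le_rfl, le_rfl⟩, by rw [map_zero, e]⟩
  obtain ⟨i, t, h1, h2, h3⟩ := ray S (b := 0) (fun l => by simpa using (hh l).le) e
  rw [zero_add] at h2 h3
  have t0 : 0 < t := by
    rw [dt_smul] at h3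
    exact (mul_pos_iff_of_pos_right h1).1 (h3 ▸ hh i)
  obtain ⟨j, A, z, hz, -, h4⟩ := cover_face S hc (i := i) ⟨h2, by simpa using h3⟩ (inv_pos.2 t0).le
  exact ⟨i, j, A, z, hz, by rw [h4, smul_smul, inv_mul_cancel₀ t0.ne', one_smul]⟩

lemma dt_self (S : Sys u h Tr) (hc : Ctr u h c) (A : Adj Tr i j) (z : E3) :
    dt (u i) (LL u Tr h c i j z) = (z 0 + z 1 + z 2) * h i := by
  rw [dt_lin, (hc i).1, S.ep1 A, S.em1 A]
  ring

lemma dt_snd (S : Sys u h Tr) (A : Adj Tr i j) (z : E3) :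
    dt (u j) (LL u Tr h c i j z) = (z 0 + z 1 + z 2) * h j - z 0 * (h j - dt (u j) (c i)) := by
  rw [dt_lin, S.ep2 A, S.em2 A]
  ring

lemma dt_le (S : Sys u h Tr) (A : Adj Tr i j) {z : E3} (hz : z ∈ T0) (m : ι) :
    dt (u m) (LL u Tr h c i j z) ≤ (z 0 + z 1 + z 2) * h m - z 0 * (h m - dt (u m) (c i)) := by
  rw [dt_lin]
  nlinarith [mul_le_mul_of_nonneg_left (S.ep_mem A m) hz.2.1.le,
    mul_le_mul_of_nonneg_left (S.em_mem A m) hz.2.2.1.le]

lemma dt_lt (S : Sys u h Tr) (A : Adj Tr i j) {z : E3} (hz : z ∈ T0) {m : ι} (h1 : m ≠ i)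
    (h2 : m ≠ j) :
    dt (u m) (LL u Tr h c i j z) < (z 0 + z 1 + z 2) * h m - z 0 * (h m - dt (u m) (c i)) := by
  rw [dt_lin]
  by_cases e : m = kp u Tr i j
  · have : dt (u m) (em u Tr h i j) < h m :=
      S.strict _ _ _ (S.km_spec A).1 m h1 h2 (e ▸ S.kp_ne_km A)
    nlinarith [mul_le_mul_of_nonneg_left (S.ep_mem A m) hz.2.1.le,
      mul_lt_mul_of_pos_left this hz.2.2.1]
  · have : dt (u m) (ep u Tr h i j) < h m := S.strict _ _ _ (S.kp_spec A).1 m h1 h2 e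
    nlinarith [mul_lt_mul_of_pos_left this hz.2.1,
      mul_le_mul_of_nonneg_left (S.em_mem A m) hz.2.2.1.le]

lemma disj (S : Sys u h Tr) (hh : ∀ i, 0 < h i) (hc : Ctr u h c) {k l : ι} (A : Adj Tr i j)
    (B : Adj Tr k l) {z z' : E3} (hz : z ∈ T0) (hz' : z' ∈ T0)
    (e : LL u Tr h c i j z = LL u Tr h c k l z') : i = k ∧ j = l := by
  have h1 := dt_self S hc A z
  have h2 := dt_self S hc B z'
  obtain rfl : i = k := by
    by_contra hne
    have h3 := dt_le (c := c) S A hz k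
    have h4 := dt_le (c := c) S B hz' i
    have h5 := mul_pos hz.1 (sub_pos.2 ((hc i).2 k (Ne.symm hne)))
    have h6 := mul_pos hz'.1 (sub_pos.2 ((hc k).2 i hne))
    rw [e] at h1 h3
    have h7 : z' 0 + z' 1 + z' 2 < z 0 + z 1 + z 2 :=
      lt_of_mul_lt_mul_right (by linarith) (hh k).le
    have h8 : z 0 + z 1 + z 2 < z' 0 + z' 1 + z' 2 :=
      lt_of_mul_lt_mul_right (by linarith) (hh i).le
    linarith
  refine ⟨rfl, by_contra fun hne => ?_⟩
  rw [e, h2] at h1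
  have h3 := mul_right_cancel₀ (hh i).ne' h1
  have h4 := dt_lt (c := c) S A hz (S.adj_ne B).symm (Ne.symm hne)
  have h5 := dt_lt (c := c) S B hz' (S.adj_ne A).symm hne
  rw [e, dt_snd S B, h3] at h4
  rw [← e, dt_snd S A, h3] at h5
  have h7 : z 0 < z' 0 :=
    lt_of_mul_lt_mul_right (by linarith) (sub_pos.2 ((hc i).2 l (S.adj_ne B).symm)).le
  have h8 : z' 0 < z 0 :=
    lt_of_mul_lt_mul_right (by linarith) (sub_pos.2 ((hc i).2 j (S.adj_ne A).symm)).le
  linarith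

open Classical in
lemma sum_adj (s : Finset (ι × ι)) (w : ι → ι → ℝ) :
    ∑ a ∈ s.filter fun a => Adj Tr a.1 a.2, DD u Tr h c a.1 a.2 * w a.1 a.2 =
      ∑ a ∈ s, DD u Tr h c a.1 a.2 * w a.1 a.2 :=
  Finset.sum_filter_of_ne fun a _ ha => by_contra fun A => ha (by simp [DD, mu_of_not A])

lemma le_aux (S : Sys u h Tr) (hh : ∀ i, 0 < h i) (hc : Ctr u h c) (s : Finset (ι × ι))
    {X : Set E3} {Z : ι → ι → Set E3} {w : ι → ι → ℝ}
    (hX : ∀ x ∈ X, ∃ a ∈ s, Adj Tr a.1 a.2 ∧ x ∈ LL u Tr h c a.1 a.2 '' Z a.1 a.2)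
    (hw0 : ∀ i j, Adj Tr i j → 0 ≤ w i j)
    (hw : ∀ i j, Adj Tr i j → volume (Z i j) ≤ ENNReal.ofReal (w i j)) :
    volume X ≤ ENNReal.ofReal (∑ a ∈ s, DD u Tr h c a.1 a.2 * w a.1 a.2) := by
  classical
  rw [← sum_adj, ENNReal.ofReal_sum_of_nonneg fun a ha =>
    mul_nonneg (S.DD_nonneg hh hc _ _) (hw0 _ _ (Finset.mem_filter.1 ha).2)]
  refine (measure_mono fun x hx => ?_).trans ((measure_biUnion_finset_le _
    fun a : ι × ι => LL u Tr h c a.1 a.2 '' Z a.1 a.2).trans (Finset.sum_le_sum fun a ha => ?_))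
  · obtain ⟨a, h1, h2, h3⟩ := hX x hx
    exact mem_biUnion (Finset.mem_filter.2 ⟨h1, h2⟩) h3
  · have A := (Finset.mem_filter.1 ha).2
    rw [vol_img S hh hc A, ENNReal.ofReal_mul (S.DD_nonneg hh hc _ _)]
    exact mul_le_mul_right (hw _ _ A) _

lemma ge_aux (S : Sys u h Tr) (hh : ∀ i, 0 < h i) (hc : Ctr u h c) (s : Finset (ι × ι))
    {X : Set E3} (hX : ∀ a ∈ s, Adj Tr a.1 a.2 → ∀ z ∈ T0, LL u Tr h c a.1 a.2 z ∈ X) :
    ENNReal.ofReal (∑ a ∈ s, DD u Tr h c a.1 a.2 * (1 / 6)) ≤ volume X := by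
  classical
  have hT : IsOpen T0 := by
    refine IsOpen.and ?_ (IsOpen.and ?_ (IsOpen.and ?_ ?_)) <;>
      exact isOpen_lt (by fun_prop) (by fun_prop)
  rw [← sum_adj s fun _ _ => 1 / 6, ENNReal.ofReal_sum_of_nonneg fun a ha =>
    mul_nonneg (S.DD_nonneg hh hc _ _) (by norm_num)]
  refine le_trans (Finset.sum_le_sum fun a ha => ?_) ((measure_biUnion_finset
    (f := fun a : ι × ι => LL u Tr h c a.1 a.2 '' T0) ?_ fun a ha => ?_).ge.trans
      (measure_mono (iUnion₂_subset fun a ha => ?_)))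
  · rw [vol_img S hh hc (Finset.mem_filter.1 ha).2, ENNReal.ofReal_mul (S.DD_nonneg hh hc _ _), T0,
      vol_tet_open]
  · intro a ha b hb hab
    refine disjoint_left.2 ?_
    rintro _ ⟨z, hz, rfl⟩ ⟨z', hz', e⟩
    have := disj S hh hc (Finset.mem_filter.1 ha).2 (Finset.mem_filter.1 hb).2 hz hz' e.symm
    exact hab (Prod.ext this.1 this.2)
  · have A := (Finset.mem_filter.1 ha).2
    have hd : LinearMap.det (LL u Tr h c a.1 a.2) ≠ 0 := by
      rw [det_lin, det_eq S hc A]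
      exact neg_ne_zero.2 (DD_pos S hh hc A).ne'
    exact (LinearMap.isOpenMap_of_finiteDimensional (LL u Tr h c a.1 a.2)
      (LinearMap.range_eq_top.1 (LinearMap.isUnit_iff_range_eq_top _ |>.1
        ((LinearMap.isUnit_iff_isUnit_det _).2 hd.isUnit))) _ hT).measurableSet
  · rintro _ ⟨z, hz, rfl⟩
    exact hX a (Finset.mem_filter.1 ha).1 (Finset.mem_filter.1 ha).2 z hz

lemma vol_aux (S : Sys u h Tr) (hh : ∀ i, 0 < h i) (hc : Ctr u h c) (s : Finset (ι × ι))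
    {X : Set E3} (h1 : ∀ x ∈ X, ∃ a ∈ s, Adj Tr a.1 a.2 ∧ x ∈ LL u Tr h c a.1 a.2 '' tet 1 1 1)
    (h2 : ∀ a ∈ s, Adj Tr a.1 a.2 → ∀ z ∈ T0, LL u Tr h c a.1 a.2 z ∈ X) :
    (volume X).toReal = (∑ a ∈ s, DD u Tr h c a.1 a.2) / 6 := by
  rw [le_antisymm (le_aux S hh hc s (w := fun _ _ => 1 / 6) h1 (fun _ _ _ => by norm_num)
    fun _ _ _ => by rw [vol_tet one_pos one_pos one_pos]; norm_num) (ge_aux S hh hc s h2),
    ENNReal.toReal_ofReal (Finset.sum_nonneg fun a _ =>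
      mul_nonneg (S.DD_nonneg hh hc _ _) (by norm_num)), ← Finset.sum_mul, mul_one_div]

lemma dt_le' (S : Sys u h Tr) (hc : Ctr u h c) (A : Adj Tr i j) {z : E3} (hz : z ∈ T0) (m : ι) :
    dt (u m) (LL u Tr h c i j z) ≤ (z 0 + z 1 + z 2) * h m := by
  linarith [dt_le (c := c) S A hz m, mul_nonneg hz.1.le (sub_nonneg.2 (ctr_mem hc i m))]

/-- the pyramid over a face -/
def pyr (u : ι → E3) (h : ι → ℝ) (i : ι) : Set E3 :=
  {x | 0 < dt (u i) x ∧ dt (u i) x ≤ h i ∧ ∀ l, h i * dt (u l) x ≤ h l * dt (u i) x}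

lemma pyr_mem (hi : 0 < h i) {x : E3} (hx : x ∈ pyr u h i) {t : ℝ} (ht : dt (u i) x = t * h i) :
    t ∈ Ioc (0 : ℝ) 1 ∧ t⁻¹ • x ∈ fc u h {i} := by
  obtain ⟨h1, h2, h3⟩ := hx
  rw [ht] at h1 h2 h3
  have t0 : 0 < t := (mul_pos_iff_of_pos_right hi).1 h1
  refine ⟨⟨t0, by nlinarith⟩, fun l => ?_, fun l hl => ?_⟩
  · rw [dt_smul, inv_mul_le_iff₀ t0]
    exact le_of_mul_le_mul_left (by linarith [h3 l]) hi
  · rw [mem_singleton_iff.1 hl, dt_smul, ht, inv_mul_cancel_left₀ t0.ne']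

lemma vol_pyr (hi : 0 < h i) (hu : u i ≠ 0) :
    (volume (pyr u h i)).toReal = h i / ‖u i‖ * (1 / 3 * ar u h i) := by
  have hn : 0 < ‖u i‖ := norm_pos_iff.2 hu
  have hv : (h i / ‖u i‖ ^ 2) • u i ≠ 0 := smul_ne_zero (by positivity) hu
  have hm : MeasurableSet (pyr u h i) := by
    have h1 := MeasurableSet.iInter fun l => (isClosed_le
      (f := fun x => h i * dt (u l) x) (g := fun x => h l * dt (u i) x)
      (by fun_prop) (by fun_prop)).measurableSet
    rw [← ofPred_forall] at h1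
    exact (isOpen_lt (f := fun _ => (0 : ℝ)) (g := fun x => dt (u i) x) continuous_const
      (by fun_prop)).measurableSet.inter ((isClosed_le (f := fun x => dt (u i) x)
        (g := fun _ => h i) (by fun_prop) continuous_const).measurableSet.inter h1)
  have h1 := EuclideanGeometry.euclideanHausdorffMeasure_eq_lintegral (0 : E3) hv hm
  have h2 : ∀ t : ℝ, μHE[2] (pyr u h i ∩ AffineSubspace.mk' (t • (h i / ‖u i‖ ^ 2) • u i +ᵥ (0 : E3))
      (Submodule.orthogonal (ℝ ∙ (h i / ‖u i‖ ^ 2) • u i))) =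
      (Ioc (0 : ℝ) 1).indicator (fun t => ENNReal.ofReal (t ^ 2) * μHE[2] (fc u h {i})) t := by
    intro t
    have h3 : ∀ x : E3, x ∈ (AffineSubspace.mk' (t • (h i / ‖u i‖ ^ 2) • u i +ᵥ (0 : E3))
        (Submodule.orthogonal (ℝ ∙ (h i / ‖u i‖ ^ 2) • u i)) : Set E3) ↔
          dt (u i) x = t * h i := fun x => by
      rw [SetLike.mem_coe, AffineSubspace.mem_mk', ← perp, mem_perp, smul_dt, vadd_eq_add, add_zero,
        vsub_eq_sub, dt_sub, dt_smul, dt_smul, MP_5cfbf6_gt.dt_self,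
        div_mul_cancel₀ _ (pow_pos hn 2).ne', mul_eq_zero, or_iff_right (by positivity), sub_eq_zero]
    by_cases ht : t ∈ Ioc (0 : ℝ) 1
    · rw [indicator_of_mem ht, ENNReal.ofReal_pow ht.1.le, ← Real.enorm_eq_ofReal ht.1.le]
      refine Eq.trans ?_ (Measure.euclideanHausdorffMeasure_smul₀ 2 ht.1.ne' (fc u h {i}))
      congr 1
      ext x
      rw [mem_smul_set_iff_inv_smul_mem₀ ht.1.ne', mem_inter_iff, h3]
      refine ⟨fun hx => (pyr_mem hi hx.1 hx.2).2, fun hx => ?_⟩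
      have h4 := hx.2 i rfl
      rw [dt_smul, inv_mul_eq_iff_eq_mul₀ ht.1.ne'] at h4
      refine ⟨⟨h4 ▸ mul_pos ht.1 hi, by nlinarith [ht.2], fun l => ?_⟩, h4⟩
      have h5 := hx.1 l
      rw [dt_smul, inv_mul_le_iff₀ ht.1] at h5
      rw [h4]
      linarith [mul_le_mul_of_nonneg_left h5 hi.le]
    · rw [indicator_of_notMem ht]
      exact measure_mono_null (fun x hx => (ht (pyr_mem hi hx.1 ((h3 x).1 hx.2)).1).elim)
        measure_empty
  have h4 : ∫⁻ t in Ioc (0 : ℝ) 1, ENNReal.ofReal (t ^ 2) = ENNReal.ofReal (1 / 3) := by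
    rw [← ofReal_integral_eq_lintegral_ofReal
      (by fun_prop : Continuous fun t : ℝ => t ^ 2).integrableOn_Ioc
      (ae_of_all _ fun t => sq_nonneg t), ← intervalIntegral.integral_of_le zero_le_one,
      integral_pow]
    norm_num
  rw [InnerProductSpace.euclideanHausdorffMeasure_eq_volume, finrank_euclideanSpace_fin] at h1
  simp only [show 3 - 1 = 2 from rfl, h2] at h1
  rw [h1, lintegral_indicator measurableSet_Ioc, lintegral_mul_const _ (by fun_prop), h4,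
    ENNReal.toReal_mul, ENNReal.toReal_mul, toReal_enorm, ENNReal.toReal_ofReal (by norm_num),
    norm_smul, Real.norm_of_nonneg (by positivity), ar]
  field_simp

end FlagX

open FlagX

theorem Sys.vol_le_flags (S : Sys u h Tr) (hh : ∀ i, 0 < h i) {c : ι → E3} (hc : Ctr u h c)
    (X : Set E3) (Z : ι → ι → Set E3) (w : ι → ι → ℝ)
    (hZ : ∀ i j, Adj Tr i j → ∀ z ∈ orth,
      lin (c i) (ep u Tr h i j) (em u Tr h i j) z ∈ X → z ∈ Z i j)
    (hw0 : ∀ i j, Adj Tr i j → 0 ≤ w i j)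
    (hw : ∀ i j, Adj Tr i j → volume (Z i j) ≤ ENNReal.ofReal (w i j)) :
    (volume X).toReal ≤ ∑ i, ∑ j, DD u Tr h c i j * w i j := by
  classical
  rw [← Fintype.sum_prod_type']
  refine ENNReal.toReal_le_of_le_ofReal ?_ (le_aux S hh hc _ (fun x hx => ?_) hw0 hw)
  · rw [← sum_adj]
    exact Finset.sum_nonneg fun a ha =>
      mul_nonneg (S.DD_nonneg hh hc _ _) (hw0 _ _ (Finset.mem_filter.1 ha).2)
  · obtain ⟨i, j, A, z, hz, rfl⟩ := FlagX.cover S hh hc x
    exact ⟨(i, j), Finset.mem_univ _, A, z, hZ i j A z hz hx, rfl⟩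

theorem Sys.vol_eq (S : Sys u h Tr) (hh : ∀ i, 0 < h i) {c : ι → E3} (hc : Ctr u h c) :
    vol u h = (∑ i, ∑ j, DD u Tr h c i j) / 6 := by
  rw [← Fintype.sum_prod_type']
  refine vol_aux S hh hc _ (fun x hx => ?_) fun a _ A z hz m => ?_
  · obtain ⟨i, j, A, z, hz, rfl⟩ := FlagX.cover S hh hc x
    refine ⟨(i, j), Finset.mem_univ _, A, z, ⟨hz, ?_⟩, rfl⟩
    have := hx i
    rw [FlagX.dt_self S hc A] at this
    nlinarith [hh i]
  · nlinarith [dt_le' S hc A hz m, hh m, hz.2.2.2]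

theorem Sys.ar_eq (S : Sys u h Tr) (hh : ∀ i, 0 < h i) {c : ι → E3} (hc : Ctr u h c) (i : ι) :
    h i * ar u h i = ‖u i‖ * (∑ j, DD u Tr h c i j) / 2 := by
  have h1 := vol_aux S hh hc ({i} ×ˢ Finset.univ) (X := pyr u h i) (fun x hx => ?_) ?_
  · have hn : 0 < ‖u i‖ := norm_pos_iff.2 (S.u_ne i)
    rw [vol_pyr (hh i) (S.u_ne i), Finset.sum_product, Finset.sum_singleton] at h1
    field_simp at h1
    linarith
  · obtain ⟨h2, h3⟩ := pyr_mem (hh i) hx (div_mul_cancel₀ _ (hh i).ne').symm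
    obtain ⟨j, A, z, hz, h4, h5⟩ := cover_face S hc h3 h2.1.le
    refine ⟨(i, j), by simp, A, z, ⟨hz, by linarith [h2.2]⟩, ?_⟩
    rw [h5, smul_smul, mul_inv_cancel₀ h2.1.ne', one_smul]
  · rintro ⟨k, j⟩ ha A z hz
    obtain rfl : i = k := by simpa using ha
    have h2 := FlagX.dt_self (i := i) (j := j) S hc A z
    have h3 : 0 < z 0 + z 1 + z 2 := by linarith [hz.1, hz.2.1, hz.2.2.1]
    refine ⟨h2 ▸ mul_pos h3 (hh i), by nlinarith [hz.2.2.2, hh i], fun l => ?_⟩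
    rw [h2]
    linarith [mul_le_mul_of_nonneg_left (dt_le' (i := i) (j := j) S hc A hz l) (hh i).le]

theorem Sys.sum_DD_pos (S : Sys u h Tr) (hh : ∀ i, 0 < h i) {c : ι → E3} (hc : Ctr u h c) (i : ι) :
    0 < ∑ j, DD u Tr h c i j := by
  obtain ⟨j, k, T⟩ := S.used i
  exact Finset.sum_pos' (fun l _ => S.DD_nonneg hh hc i l)
    ⟨j, Finset.mem_univ _, DD_pos S hh hc ⟨k, T⟩⟩

end Pool.Agent.MP_5cfbf6_gt

end
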