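import Pool.Agent.Mg.F5cfbf6.G2f7109

set_option autoImplicit false
set_option linter.unusedSectionVars false

namespace Pool.Agent.MP_5cfbf6_gt

open Set Filter Topology MeasureTheory Module

namespace Geo2

/-- the sine of the angle between two unit vectors -/
noncomputable def sn (a b : E3) : ℝ := √(1 - dt a b ^ 2)

/-- the unit vector orthogonal to `a` pointing towards `b` -/
noncomputable def nu (a b : E3) : E3 := (sn a b)⁻¹ • (b - dt a b • a)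

variable {a b : E3}

lemma sn_pos (h : dt a b ^ 2 < 1) : 0 < sn a b := Real.sqrt_pos.2 (by linarith)

lemma sn_sq (h : dt a b ^ 2 < 1) : sn a b ^ 2 = 1 - dt a b ^ 2 := Real.sq_sqrt (by linarith)

lemma nu_dt (a b x : E3) : dt (nu a b) x = (dt b x - dt a b * dt a x) / sn a b := by
  rw [nu, smul_dt, sub_dt, smul_dt, div_eq_inv_mul]

lemma dt_nu (ha : dt a a = 1) (b : E3) : dt a (nu a b) = 0 := by
  rw [dt_comm, nu_dt, ha, dt_comm b a, mul_one, sub_self, zero_div]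

lemma nu_nu (ha : dt a a = 1) (b c : E3) :
    dt (nu a b) (nu a c) = (dt b c - dt a b * dt a c) / (sn a b * sn a c) := by
  rw [nu_dt, dt_nu ha, mul_zero, sub_zero, dt_comm b, nu_dt, div_div, dt_comm c b,
    mul_comm (dt a c), mul_comm (sn a c)]

lemma nu_unit (ha : dt a a = 1) (hb : dt b b = 1) (h : dt a b ^ 2 < 1) :
    dt (nu a b) (nu a b) = 1 := by
  rw [nu_nu ha, hb, ← sq, ← sq, sn_sq h]
  exact div_self (by linarith)

lemma gram (p q y : E3) : det3 p q y ^ 2 = dt p p * (dt q q * dt y y - dt q y ^ 2)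
    - dt p q * (dt p q * dt y y - dt q y * dt p y)
    + dt p y * (dt p q * dt q y - dt q q * dt p y) := by
  simp [det3, dt]; ring

lemma quad_le {a b t g Y : ℝ} (hb : b ≤ t) (ht : t ≤ a) (hg : g ≤ 1) (hY : a ^ 2 ≤ Y)
    (hG : a ^ 2 + b ^ 2 - 2 * g * a * b ≤ (1 - g ^ 2) * Y) :
    a ^ 2 + t ^ 2 - 2 * g * a * t ≤ (2 - 2 * g) * Y := by
  have hY0 : 0 ≤ Y := (sq_nonneg a).trans hY
  rcases le_total (2 * g * a) (a + t) with h | h
  · nlinarith [mul_nonneg (sub_nonneg.2 ht) (sub_nonneg.2 h), mul_nonneg (sub_nonneg.2 hg) (sub_nonneg.2 hY)]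
  · have h' : b + t ≤ 2 * g * a := by linarith
    nlinarith [mul_nonneg (sub_nonneg.2 hb) (sub_nonneg.2 h'), mul_nonneg (sq_nonneg (1 - g)) hY0]

lemma half_angle {c s : ℝ} (hs : 0 < s) (h : s ^ 2 = 1 - c ^ 2) :
    c * (1 + ((1 - c) / s) ^ 2) = 1 - ((1 - c) / s) ^ 2 ∧
      s * (1 + ((1 - c) / s) ^ 2) = 2 * ((1 - c) / s) := by
  constructor
  · field_simp
    linear_combination (c - 1) * h
  · field_simp
    linear_combination h

lemma stereo {c₁ s₁ d₁ c₂ s₂ d₂ g c : ℝ} (h₁ : c₁ * (1 + d₁ ^ 2) = 1 - d₁ ^ 2)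
    (h₁' : s₁ * (1 + d₁ ^ 2) = 2 * d₁) (h₂ : c₂ * (1 + d₂ ^ 2) = 1 - d₂ ^ 2)
    (h₂' : s₂ * (1 + d₂ ^ 2) = 2 * d₂) (hc : c = c₁ * c₂ + g * (s₁ * s₂)) (hd₁ : 0 ≤ d₁)
    (hd₂ : 0 ≤ d₂) (hg : 0 ≤ g) (hc1 : c < 1) :
    0 < 1 + c ∧ 0 < d₁ ^ 2 + d₂ ^ 2 - 2 * g * d₁ * d₂ ∧
      1 - c ≤ (d₁ ^ 2 + d₂ ^ 2 - 2 * g * d₁ * d₂) * (1 + c) := by
  have hD : 0 < (1 + d₁ ^ 2) * (1 + d₂ ^ 2) := by positivity
  have e : c * ((1 + d₁ ^ 2) * (1 + d₂ ^ 2)) = (1 - d₁ ^ 2) * (1 - d₂ ^ 2) + 4 * g * d₁ * d₂ := by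
    rw [← h₁, ← h₂, hc]
    linear_combination g * s₂ * (1 + d₂ ^ 2) * h₁' + 2 * g * d₁ * h₂'
  have e1 : (1 - c) * ((1 + d₁ ^ 2) * (1 + d₂ ^ 2)) =
      2 * (d₁ ^ 2 + d₂ ^ 2 - 2 * g * d₁ * d₂) := by linear_combination -e
  have e2 : 2 ≤ (1 + c) * ((1 + d₁ ^ 2) * (1 + d₂ ^ 2)) := by
    have : 0 ≤ d₁ ^ 2 * d₂ ^ 2 + 2 * g * d₁ * d₂ := by positivity
    nlinarith
  have hQ : 0 < d₁ ^ 2 + d₂ ^ 2 - 2 * g * d₁ * d₂ := by
    have := mul_pos (sub_pos.2 hc1) hD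
    linarith
  refine ⟨(pos_iff_pos_of_mul_pos (two_pos.trans_le e2)).2 hD, hQ, le_of_mul_le_mul_right ?_ hD⟩
  have := mul_le_mul_of_nonneg_left e2 hQ.le
  rw [e1]
  linarith

end Geo2

open Geo2

variable {ι : Type} [Fintype ι] [DecidableEq ι]
variable {u : ι → E3} {Tr : ι → ι → ι → Prop}

lemma Sys.geo2_sq_lt (S : Sys u 1 Tr) (hu : ∀ i, dt (u i) (u i) = 1) {i j : ι} (A : Adj Tr i j) :
    dt (u i) (u j) ^ 2 < 1 := by
  have := S.cr_pos A
  rw [dt_cr_cr, hu, hu] at this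
  linarith

lemma Sys.geo2_sep_aux (S : Sys u 1 Tr) (O : Opt u 1 Tr) (hu : ∀ i, dt (u i) (u i) = 1)
    {i j k : ι} (Aj : Adj Tr i j) (Ak : Adj Tr i k) (hjk : j ≠ k)
    (hd : (1 - dt (u i) (u k)) / sn (u i) (u k) ≤ (1 - dt (u i) (u j)) / sn (u i) (u j)) :
    1 ≤ 484 * (2 - 2 * dt (nu (u i) (u j)) (nu (u i) (u k))) := by
  have qj := S.geo2_sq_lt hu Aj
  have qk := S.geo2_sq_lt hu Ak
  have sj := sn_pos qj
  have sk := sn_pos qk
  have nj := nu_unit (hu i) (hu j) qj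
  have nk := nu_unit (hu i) (hu k) qk
  set g := dt (nu (u i) (u j)) (nu (u i) (u k)) with hg
  rcases lt_or_ge g 0 with g0 | g0
  · linarith
  have g1 : g ≤ 1 := by
    have := dt_sq_le (nu (u i) (u j)) (nu (u i) (u k))
    rw [nj, nk] at this
    nlinarith
  have c1 := S.cos_lt hu hjk
  obtain ⟨c0, hQ, hρ⟩ := stereo (half_angle sj (sn_sq qj)).1 (half_angle sj (sn_sq qj)).2
    (half_angle sk (sn_sq qk)).1 (half_angle sk (sn_sq qk)).2 (c := dt (u j) (u k)) (g := g)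
    (by rw [hg, nu_nu (hu i), div_mul_cancel₀ _ (mul_pos sj sk).ne']; ring)
    (div_nonneg (sub_nonneg.2 (S.cos_lt hu (S.adj_ne Aj)).le) sj.le)
    (div_nonneg (sub_nonneg.2 (S.cos_lt hu (S.adj_ne Ak)).le) sk.le) g0 c1
  have q : dt (u j) (u k) ^ 2 < 1 := by nlinarith
  have s0 := sn_pos q
  have xi : dt (u i) (ep u Tr 1 i j) = 1 := S.ep1 Aj 1
  have xj : dt (u j) (ep u Tr 1 i j) = 1 := S.ep2 Aj 1
  have xk : dt (u k) (ep u Tr 1 i j) ≤ 1 := S.ep_mem Aj k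
  have hfat := S.fat O hu j (dt_nu (hu j) (u k)) (nu_unit (hu j) (hu k) q)
    (ρ := (1 - dt (u j) (u k)) / sn (u j) (u k)) (fun x hx => by
      have h1 : dt (u j) x = 1 := hx.2 j rfl
      have h2 : dt (u k) x ≤ 1 := hx.1 k
      rw [nu_dt, h1, mul_one]
      exact div_le_div_of_nonneg_right (by linarith) s0.le) (ep u Tr 1 i j)
    ⟨S.ep_mem Aj, fun l hl => by rw [mem_singleton_iff.1 hl]; exact xj⟩
  generalize ep u Tr 1 i j = x at xi xj xk hfat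
  have hY : dt (x - u i) (x - u i) = dt x x - 1 := by
    rw [dt_sub, sub_dt, sub_dt, hu, dt_comm x (u i), xi]; ring
  have ha : dt (nu (u i) (u j)) (x - u i) = (1 - dt (u i) (u j)) / sn (u i) (u j) := by
    rw [dt_sub, dt_comm _ (u i), dt_nu (hu i), sub_zero, nu_dt, xi, xj, mul_one]
  have hb : dt (nu (u i) (u k)) (x - u i) ≤ (1 - dt (u i) (u k)) / sn (u i) (u k) := by
    rw [dt_sub, dt_comm _ (u i), dt_nu (hu i), sub_zero, nu_dt, xi, mul_one]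
    exact div_le_div_of_nonneg_right (by linarith) sk.le
  have hCS := dt_sq_le (nu (u i) (u j)) (x - u i)
  have hG := sq_nonneg (det3 (nu (u i) (u j)) (nu (u i) (u k)) (x - u i))
  rw [gram, nj, nk, ← hg, ha] at hG
  rw [nj, one_mul, ha] at hCS
  have key := quad_le hb hd g1 hCS (by linarith)
  have hρ2 : ((1 - dt (u j) (u k)) / sn (u j) (u k)) ^ 2 * (1 + dt (u j) (u k)) =
      1 - dt (u j) (u k) := by
    rw [div_pow, sn_sq q, div_mul_eq_mul_div, div_eq_iff (by linarith)]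
    ring
  have hρ3 := le_of_mul_le_mul_right (hρ2.trans_le hρ) c0
  generalize ((1 - dt (u i) (u j)) / sn (u i) (u j)) ^ 2 + ((1 - dt (u i) (u k)) / sn (u i) (u k)) ^ 2
    - 2 * g * ((1 - dt (u i) (u j)) / sn (u i) (u j)) * ((1 - dt (u i) (u k)) / sn (u i) (u k)) = Q
    at hQ hρ3 key
  have h5 : dt (x - u i) (x - u i) ≤ 484 * Q := by linarith
  have h6 := key.trans (mul_le_mul_of_nonneg_left h5 (by linarith))
  exact le_of_mul_le_mul_right (by linarith) hQ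

lemma Sys.geo2_sep (S : Sys u 1 Tr) (O : Opt u 1 Tr) (hu : ∀ i, dt (u i) (u i) = 1)
    {i j k : ι} (Aj : Adj Tr i j) (Ak : Adj Tr i k) (hjk : j ≠ k) :
    1 ≤ 484 * (2 - 2 * dt (nu (u i) (u j)) (nu (u i) (u k))) := by
  rcases le_total ((1 - dt (u i) (u k)) / sn (u i) (u k)) ((1 - dt (u i) (u j)) / sn (u i) (u j))
    with h | h
  · exact S.geo2_sep_aux O hu Aj Ak hjk h
  · rw [dt_comm]
    exact S.geo2_sep_aux O hu Ak Aj hjk.symm h

theorem Sys.card_adj (S : Sys u 1 Tr) (O : Opt u 1 Tr) (hu : ∀ i, dt (u i) (u i) = 1) (i : ι) :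
    {j | Adj Tr i j}.ncard ≤ 139 := by
  obtain ⟨e, he, hie⟩ := exists_frame (n := u i)
  let θ : ι → ℝ := fun j =>
    Complex.arg ⟨dt e (nu (u i) (u j)), dt (cr (u i) e) (nu (u i) (u j))⟩
  have hθ : ∀ j, Adj Tr i j → Real.cos (θ j) = dt e (nu (u i) (u j)) ∧
      Real.sin (θ j) = dt (cr (u i) e) (nu (u i) (u j)) := by
    intro j A
    have h1 := frame_sq (hu i) he hie (nu (u i) (u j)) (nu (u i) (u j))
    rw [nu_unit (hu i) (hu j) (S.geo2_sq_lt hu A), dt_nu (hu i), mul_zero, zero_add] at h1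
    have h2 : ‖(⟨dt e (nu (u i) (u j)), dt (cr (u i) e) (nu (u i) (u j))⟩ : ℂ)‖ = 1 := by
      rw [Complex.norm_def, Complex.normSq_mk, ← h1, Real.sqrt_one]
    constructor
    · rw [Complex.cos_arg (by rw [← norm_ne_zero_iff, h2]; exact one_ne_zero), h2, div_one]
    · rw [Complex.sin_arg, h2, div_one]
  have h0 : ∀ j, 0 ≤ 22 * (θ j + Real.pi) := fun j => by
    have : -Real.pi < θ j := Complex.neg_pi_lt_arg _
    linarith
  refine (ncard_le_ncard_of_injOn (fun j => ⌊22 * (θ j + Real.pi)⌋₊)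
    (t := (Finset.range 139 : Set ℕ)) (fun j _ => ?_) (fun j hj k hk hjk => ?_)).trans_eq (by simp)
  · rw [Finset.mem_coe, Finset.mem_range, Nat.floor_lt (h0 j)]
    have : θ j ≤ Real.pi := Complex.arg_le_pi _
    have := Real.pi_lt_d2
    push_cast
    linarith
  · by_contra hne
    have h1 := S.geo2_sep O hu hj hk hne
    rw [frame_sq (hu i) he hie, dt_nu (hu i), zero_mul, zero_add, ← (hθ j hj).1, ← (hθ j hj).2,
      ← (hθ k hk).1, ← (hθ k hk).2, ← Real.cos_sub] at h1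
    have h2 := Real.one_sub_sq_div_two_le_cos (x := θ j - θ k)
    have a1 := Nat.floor_le (h0 j)
    have a2 := Nat.lt_floor_add_one (22 * (θ j + Real.pi))
    have b1 := Nat.floor_le (h0 k)
    have b2 := Nat.lt_floor_add_one (22 * (θ k + Real.pi))
    have hjk' : ⌊22 * (θ j + Real.pi)⌋₊ = ⌊22 * (θ k + Real.pi)⌋₊ := hjk
    rw [hjk'] at a1 a2
    have h3 : (22 * (θ j - θ k)) ^ 2 < 1 ^ 2 := sq_lt_sq' (by linarith) (by linarith)
    nlinarith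

end Pool.Agent.MP_5cfbf6_gt
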