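import Mathlib
import Pool.Agent.Mg.F5cfbf6.G8b6e9a
import Pool.Agent.MP_89350a_an.WDefs
import Pool.Agent.MP_d539bc_co.Brouwer

section

open TopologicalSpace Topology Filter Set Metric

namespace Pool.Agent.MP_89350a_an

variable {𝕜 E : Type*} [NontriviallyNormedField 𝕜] [NormedAddCommGroup E] [NormedSpace 𝕜 E]

lemma ne_cs (X : ClosedSubmodule 𝕜 E) : (X : Set E).Nonempty := ⟨0, X.toSubmodule.zero_mem⟩

/-- distance code along a sequence -/
noncomputable def dcode (𝕜 : Type*) [NontriviallyNormedField 𝕜] [NormedSpace 𝕜 E]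
    (d : ℕ → E) (X : ClosedSubmodule 𝕜 E) : ℕ → ℝ := fun n => infDist (d n) (X : Set E)

structure IsDCode (𝕜 : Type*) [NontriviallyNormedField 𝕜] [NormedSpace 𝕜 E]
    (d : ℕ → E) (φ : ℕ → ℝ) : Prop where
  nonneg : ∀ n, 0 ≤ φ n
  add : ∀ a b c, φ c ≤ φ a + φ b + ‖d c - (d a + d b)‖
  smul : ∀ (t : 𝕜) a c, φ c ≤ ‖t‖ * φ a + ‖d c - t • d a‖
  near : ∀ n k : ℕ, ∃ m, φ m < 1 / ((k : ℝ) + 1) ∧ ‖d n - d m‖ < φ n + 1 / ((k : ℝ) + 1)

lemma infDist_le_norm_sub (X : ClosedSubmodule 𝕜 E) (x : E) {y : E} (hy : y ∈ (X : Set E)) :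
    infDist x (X : Set E) ≤ ‖x - y‖ := by
  rw [← dist_eq_norm]; exact infDist_le_dist_of_mem hy

lemma exists_near (X : ClosedSubmodule 𝕜 E) (x : E) {ε : ℝ} (hε : 0 < ε) :
    ∃ y ∈ (X : Set E), ‖x - y‖ < infDist x (X : Set E) + ε := by
  obtain ⟨y, hy, h⟩ := (infDist_lt_iff (ne_cs X)).1 (lt_add_of_pos_right (infDist x (X : Set E)) hε)
  exact ⟨y, hy, by rwa [← dist_eq_norm]⟩

lemma isDCode_dcode {d : ℕ → E} (hd : DenseRange d) (X : ClosedSubmodule 𝕜 E) :
    IsDCode 𝕜 d (dcode 𝕜 d X) where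
  nonneg _ := infDist_nonneg
  add a b c := by
    refine le_of_forall_pos_le_add fun ε hε => ?_
    obtain ⟨y, hy, h1⟩ := exists_near X (d a) (half_pos hε)
    obtain ⟨z, hz, h2⟩ := exists_near X (d b) (half_pos hε)
    have h3 := infDist_le_norm_sub X (d c) (X.toSubmodule.add_mem hy hz)
    have h4 : d c - (y + z) = (d c - (d a + d b)) + (d a - y) + (d b - z) := by abel
    have h5 := norm_add₃_le (a := d c - (d a + d b)) (b := d a - y) (c := d b - z)
    rw [← h4] at h5
    simp only [dcode]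
    linarith
  smul t a c := by
    refine le_of_forall_pos_le_add fun ε hε => ?_
    have hε' : 0 < ε / (‖t‖ + 1) := by positivity
    obtain ⟨y, hy, h1⟩ := exists_near X (d a) hε'
    have h3 := infDist_le_norm_sub X (d c) (X.toSubmodule.smul_mem t hy)
    have h4 : d c - t • y = (d c - t • d a) + t • (d a - y) := by rw [smul_sub]; abel
    have h5 := norm_add_le (d c - t • d a) (t • (d a - y))
    rw [← h4, norm_smul] at h5
    have h6 : ‖t‖ * ‖d a - y‖ ≤ ‖t‖ * (infDist (d a) (X : Set E) + ε / (‖t‖ + 1)) :=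
      mul_le_mul_of_nonneg_left h1.le (norm_nonneg _)
    have h7 : ‖t‖ * (ε / (‖t‖ + 1)) ≤ ε := by
      rw [← mul_div_assoc, div_le_iff₀ (by positivity)]
      nlinarith [norm_nonneg t]
    simp only [dcode]
    nlinarith
  near n k := by
    have hk : (0 : ℝ) < 1 / ((k : ℝ) + 1) / 2 := by positivity
    obtain ⟨y, hy, h1⟩ := exists_near X (d n) hk
    obtain ⟨m, hm⟩ := hd.exists_dist_lt y hk
    rw [dist_eq_norm] at hm
    refine ⟨m, ?_, ?_⟩
    · have := infDist_le_norm_sub X (d m) hy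
      rw [norm_sub_rev] at this
      simp only [dcode]
      linarith
    · have h4 : d n - d m = (d n - y) + (y - d m) := by abel
      have h5 := norm_add_le (d n - y) (y - d m)
      rw [← h4] at h5
      simp only [dcode]
      linarith

lemma exists_dcode_eq [CompleteSpace E] {d : ℕ → E} (hd : DenseRange d) {φ : ℕ → ℝ}
    (hφ : IsDCode 𝕜 d φ) : ∃ X : ClosedSubmodule 𝕜 E, dcode 𝕜 d X = φ := by
  have hlip : ∀ a c, φ c ≤ φ a + ‖d c - d a‖ := fun a c => by
    simpa using hφ.smul 1 a c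
  let S : Submodule 𝕜 E :=
    { carrier := {x | ∀ n, φ n ≤ ‖d n - x‖}
      zero_mem' := fun n => by simpa using hφ.smul 0 0 n
      add_mem' := by
        intro x y hx hy c
        refine le_of_forall_pos_le_add fun ε hε => ?_
        have hε' : 0 < ε / 4 := by positivity
        obtain ⟨a, ha⟩ := hd.exists_dist_lt x hε'
        obtain ⟨b, hb⟩ := hd.exists_dist_lt y hε'
        rw [dist_eq_norm] at ha hb
        have h1 := hx a
        have h2 := hy b
        rw [norm_sub_rev] at h1 h2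
        have h3 := hφ.add a b c
        have h4 : d c - (d a + d b) = (d c - (x + y)) + (x - d a) + (y - d b) := by abel
        have h5 := norm_add₃_le (a := d c - (x + y)) (b := x - d a) (c := y - d b)
        rw [← h4] at h5
        linarith
      smul_mem' := by
        intro t x hx c
        refine le_of_forall_pos_le_add fun ε hε => ?_
        have hε' : 0 < ε / 2 / (‖t‖ + 1) := by positivity
        obtain ⟨a, ha⟩ := hd.exists_dist_lt x hε'
        rw [dist_eq_norm] at ha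
        have h1 := hx a
        rw [norm_sub_rev] at h1
        have h3 := hφ.smul t a c
        have h4 : d c - t • d a = (d c - t • x) + t • (x - d a) := by rw [smul_sub]; abel
        have h5 := norm_add_le (d c - t • x) (t • (x - d a))
        rw [← h4, norm_smul] at h5
        have h7 : ‖t‖ * (ε / 2 / (‖t‖ + 1)) ≤ ε / 2 := by
          rw [← mul_div_assoc, div_le_iff₀ (by positivity)]
          nlinarith [norm_nonneg t]
        have h8 : ‖t‖ * ‖x - d a‖ ≤ ‖t‖ * (ε / 2 / (‖t‖ + 1)) :=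
          mul_le_mul_of_nonneg_left ha.le (norm_nonneg _)
        have h9 : ‖t‖ * φ a ≤ ‖t‖ * ‖x - d a‖ := mul_le_mul_of_nonneg_left h1 (norm_nonneg _)
        linarith }
  have hS : IsClosed (S : Set E) := by
    have : (S : Set E) = ⋂ n, {x | φ n ≤ ‖d n - x‖} := by
      ext x
      simp only [mem_iInter]
      rfl
    rw [this]
    exact isClosed_iInter fun n => isClosed_le continuous_const (by fun_prop)
  refine ⟨⟨S, hS⟩, ?_⟩
  funext n
  apply le_antisymm
  · refine le_of_forall_pos_le_add fun ε hε => ?_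
    have hstep : ∀ (m k : ℕ), ∃ m', φ m' < ε / 4 / 2 ^ (k + 1) ∧
        ‖d m - d m'‖ < φ m + ε / 4 / 2 ^ (k + 1) := by
      intro m k
      obtain ⟨j, hj⟩ := exists_nat_one_div_lt (show (0 : ℝ) < ε / 4 / 2 ^ (k + 1) by positivity)
      obtain ⟨m', h1, h2⟩ := hφ.near m j
      exact ⟨m', h1.trans hj, by linarith⟩
    choose nxt hn1 hn2 using hstep
    let u : ℕ → ℕ := fun k => Nat.rec (nxt n 0) (fun k m => nxt m (k + 1)) k
    have hu0 : u 0 = nxt n 0 := rfl
    have hus : ∀ k, u (k + 1) = nxt (u k) (k + 1) := fun k => rfl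
    have hφu : ∀ k, φ (u k) < ε / 4 / 2 ^ (k + 1) := by
      intro k
      cases k with
      | zero => exact hn1 n 0
      | succ k => rw [hus]; exact hn1 _ _
    have hdist : ∀ k, dist (d (u k)) (d (u (k + 1))) ≤ ε / 2 / 2 / 2 ^ k := by
      intro k
      rw [dist_eq_norm, hus]
      have h1 := hn2 (u k) (k + 1)
      have h2 := hφu k
      have h3 : ε / 4 / 2 ^ (k + 1 + 1) ≤ ε / 4 / 2 ^ (k + 1) := by
        apply div_le_div_of_nonneg_left (by positivity) (by positivity)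
        exact pow_le_pow_right₀ (by norm_num) (by omega)
      have h4 : ε / 2 / 2 / 2 ^ k = ε / 4 / 2 ^ (k + 1) + ε / 4 / 2 ^ (k + 1) := by
        rw [pow_succ]; field_simp; ring
      linarith
    have hcau : CauchySeq fun k => d (u k) := cauchySeq_of_le_geometric_two hdist
    obtain ⟨z, hz⟩ := cauchySeq_tendsto_of_complete hcau
    have hz0 : dist (d (u 0)) z ≤ ε / 2 := dist_le_of_le_geometric_two_of_tendsto₀ hdist hz
    have hφ0 : Tendsto (fun k => φ (u k)) atTop (𝓝 0) := by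
      have h1 : Tendsto (fun k : ℕ => ε / 4 / 2 ^ (k + 1)) atTop (𝓝 0) := by
        have := (tendsto_pow_atTop_atTop_of_one_lt (show (1 : ℝ) < 2 by norm_num)).comp
          (tendsto_add_atTop_nat 1)
        exact this.const_div_atTop _
      exact squeeze_zero (fun k => hφ.nonneg _) (fun k => (hφu k).le) h1
    have hzS : z ∈ S := by
      intro c
      have h1 : Tendsto (fun k => φ (u k) + ‖d c - d (u k)‖) atTop (𝓝 (0 + ‖d c - z‖)) :=
        hφ0.add ((tendsto_const_nhds.sub hz).norm)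
      rw [zero_add] at h1
      exact ge_of_tendsto' h1 fun k => hlip _ _
    have h1 : dcode 𝕜 d ⟨S, hS⟩ n ≤ ‖d n - z‖ := infDist_le_norm_sub ⟨S, hS⟩ _ hzS
    have h2 := hn2 n 0
    rw [← hu0] at h2
    rw [dist_eq_norm] at hz0
    have h4 : d n - z = (d n - d (u 0)) + (d (u 0) - z) := by abel
    have h5 := norm_add_le (d n - d (u 0)) (d (u 0) - z)
    rw [← h4] at h5
    norm_num at h2
    linarith
  · refine (le_infDist (ne_cs (⟨S, hS⟩ : ClosedSubmodule 𝕜 E))).2 fun y hy => ?_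
    rw [dist_eq_norm]
    exact hy n

lemma isGδ_isDCode (d : ℕ → E) : IsGδ {φ : ℕ → ℝ | IsDCode 𝕜 d φ} := by
  have h1 : IsClosed {φ : ℕ → ℝ | ∀ n, 0 ≤ φ n} := by
    rw [ofPred_forall]
    exact isClosed_iInter fun n => isClosed_le continuous_const (continuous_apply n)
  have h2 : IsClosed {φ : ℕ → ℝ | ∀ a b c, φ c ≤ φ a + φ b + ‖d c - (d a + d b)‖} := by
    rw [ofPred_forall]; refine isClosed_iInter fun a => ?_
    rw [ofPred_forall]; refine isClosed_iInter fun b => ?_
    rw [ofPred_forall]; refine isClosed_iInter fun c => ?_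
    exact isClosed_le (by fun_prop) (by fun_prop)
  have h3 : IsClosed {φ : ℕ → ℝ | ∀ (t : 𝕜) a c, φ c ≤ ‖t‖ * φ a + ‖d c - t • d a‖} := by
    rw [ofPred_forall]; refine isClosed_iInter fun a => ?_
    rw [ofPred_forall]; refine isClosed_iInter fun b => ?_
    rw [ofPred_forall]; refine isClosed_iInter fun c => ?_
    exact isClosed_le (by fun_prop) (by fun_prop)
  have h4 : IsGδ {φ : ℕ → ℝ | ∀ n k : ℕ, ∃ m, φ m < 1 / ((k : ℝ) + 1) ∧
      ‖d n - d m‖ < φ n + 1 / ((k : ℝ) + 1)} := by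
    rw [ofPred_forall]; refine IsGδ.iInter fun n => ?_
    rw [ofPred_forall]; refine IsGδ.iInter fun k => ?_
    refine IsOpen.isGδ ?_
    rw [ofPred_exists]
    refine isOpen_iUnion fun m => ?_
    have a1 : IsOpen {φ : ℕ → ℝ | φ m < 1 / ((k : ℝ) + 1)} := isOpen_lt (by fun_prop) (by fun_prop)
    have a2 : IsOpen {φ : ℕ → ℝ | ‖d n - d m‖ < φ n + 1 / ((k : ℝ) + 1)} :=
      isOpen_lt (by fun_prop) (by fun_prop)
    exact a1.inter a2
  convert ((h1.isGδ.inter h2.isGδ).inter h3.isGδ).inter h4 using 1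
  ext φ
  exact ⟨fun h => ⟨⟨⟨h.nonneg, h.add⟩, h.smul⟩, h.near⟩, fun h => ⟨h.1.1.1, h.1.1.2, h.1.2, h.2⟩⟩

lemma continuous_wijsman (x : E) :
    Continuous[wijsman 𝕜 E, inferInstance]
      fun X : ClosedSubmodule 𝕜 E => infDist x (X : Set E) := by
  let _ := wijsman 𝕜 E
  have h : Continuous fun (X : ClosedSubmodule 𝕜 E) (x : E) => Metric.infDist x (X : Set E) :=
    continuous_induced_dom
  exact (continuous_apply x).comp h

lemma continuous_wijsman_rng {P : Type*} [TopologicalSpace P] {X : P → ClosedSubmodule 𝕜 E}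
    (h : ∀ x : E, Continuous fun p => infDist x (X p : Set E)) :
    Continuous[inferInstance, wijsman 𝕜 E] X :=
  continuous_induced_rng.2 (continuous_pi h)

lemma wijsman_eq_induced {d : ℕ → E} (hd : DenseRange d) :
    wijsman 𝕜 E = induced (dcode 𝕜 d) inferInstance := by
  apply le_antisymm
  · refine continuous_iff_le_induced.1 ?_
    let _ := wijsman 𝕜 E
    exact continuous_pi fun n => continuous_wijsman (d n)
  · let _ : TopologicalSpace (ClosedSubmodule 𝕜 E) := induced (dcode 𝕜 d) inferInstance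
    refine continuous_iff_le_induced.1 (continuous_pi fun x => ?_)
    have hc : ∀ n, Continuous fun X : ClosedSubmodule 𝕜 E => infDist (d n) (X : Set E) :=
      fun n => (continuous_apply n).comp
        (show Continuous (dcode 𝕜 d) from continuous_induced_dom)
    refine continuous_of_uniform_approx_of_continuous fun u hu => ?_
    obtain ⟨ε, hε, hεu⟩ := mem_uniformity_dist.1 hu
    obtain ⟨n, hn⟩ := hd.exists_dist_lt x hε
    refine ⟨_, hc n, fun X => hεu ?_⟩
    exact ((lipschitz_infDist_pt (X : Set E)).dist_le_mul x (d n)).trans_lt (by simpa using hn)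

theorem isAdmissible_wijsman [CompleteSpace E] [SeparableSpace E] :
    IsAdmissible (wijsman 𝕜 E) := by
  let _ := wijsman 𝕜 E
  have hopen : ∀ U : Set E, IsOpen U → IsOpen (hits 𝕜 U) := by
    intro U hU
    rw [isOpen_iff_mem_nhds]
    rintro X ⟨x, hx, hxU⟩
    obtain ⟨ε, hε, hb⟩ := Metric.isOpen_iff.1 hU x hxU
    have h1 : {Y : ClosedSubmodule 𝕜 E | infDist x (Y : Set E) < ε} ∈ 𝓝 X := by
      refine (isOpen_lt (continuous_wijsman x) continuous_const).mem_nhds ?_
      simp only [mem_ofPred_eq, infDist_zero_of_mem hx, hε]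
    filter_upwards [h1] with Y hY
    obtain ⟨y, hy, h⟩ := (infDist_lt_iff (ne_cs Y)).1 hY
    exact ⟨y, hy, hb (by rwa [mem_ball, dist_comm])⟩
  refine ⟨?_, hopen, ?_⟩
  · obtain ⟨d, hd⟩ := exists_dense_seq E
    have hemb : IsEmbedding (dcode 𝕜 d) := by
      refine ⟨⟨wijsman_eq_induced hd⟩, fun X Y h => ?_⟩
      have key : ∀ X Y : ClosedSubmodule 𝕜 E, dcode 𝕜 d X = dcode 𝕜 d Y → (X : Set E) ⊆ Y := by
        intro X Y h x hx
        rw [← Y.isClosed.closure_eq, mem_closure_iff_infDist_zero (ne_cs Y)]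
        have : (fun x => infDist x (X : Set E)) = fun x => infDist x (Y : Set E) :=
          hd.equalizer (continuous_infDist_pt _) (continuous_infDist_pt _) h
        rw [← congrFun this x]
        exact infDist_zero_of_mem hx
      exact SetLike.coe_injective (Subset.antisymm (key X Y h) (key Y X h.symm))
    have hrange : range (dcode 𝕜 d) = {φ : ℕ → ℝ | IsDCode 𝕜 d φ} := by
      ext φ
      exact ⟨by rintro ⟨X, rfl⟩; exact isDCode_dcode hd X, fun h => exists_dcode_eq hd h⟩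
    have hP : PolishSpace (range (dcode 𝕜 d)) := polishSpace_of_isGδ (hrange ▸ isGδ_isDCode d)
    exact hemb.toHomeomorph.isClosedEmbedding.polishSpace
  · let S : Set (Set (ClosedSubmodule 𝕜 E)) :=
      {s | ∃ (x : E) (r : ℝ), s = {X : ClosedSubmodule 𝕜 E | infDist x (X : Set E) < r} ∨
        s = {X : ClosedSubmodule 𝕜 E | r < infDist x (X : Set E)}}
    refine ⟨S, ?_, ?_⟩
    · apply le_antisymm
      · refine le_generateFrom ?_
        rintro s ⟨x, r, rfl | rfl⟩
        · exact isOpen_lt (continuous_wijsman x) continuous_const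
        · exact isOpen_lt continuous_const (continuous_wijsman x)
      · refine continuous_iff_le_induced.1 ?_
        let σ : TopologicalSpace (ClosedSubmodule 𝕜 E) := generateFrom S
        refine @continuous_pi _ _ _ σ _ _ fun x => ?_
        refine (@OrderTopology.continuous_iff _ _ _ _ _ σ _).2 fun r => ⟨?_, ?_⟩
        · exact isOpen_generateFrom_of_mem ⟨x, r, Or.inr rfl⟩
        · exact isOpen_generateFrom_of_mem ⟨x, r, Or.inl rfl⟩
    · rintro s ⟨x, r, rfl | rfl⟩
      · refine ⟨fun _ => ball x r, fun _ => ∅, fun _ => isOpen_ball, fun _ => isOpen_empty, ?_⟩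
        ext X
        simp only [hits, mem_ofPred_eq, mem_iUnion, Set.mem_sdiff, inter_empty,
          Set.not_nonempty_empty, not_false_eq_true, and_true, exists_const,
          infDist_lt_iff (ne_cs X)]
        constructor
        · rintro ⟨y, hy, h⟩
          exact ⟨y, hy, by rwa [mem_ball, dist_comm]⟩
        · rintro ⟨y, hy, h⟩
          exact ⟨y, hy, by rwa [mem_ball, dist_comm] at h⟩
      · refine ⟨fun _ => univ, fun n => ball x (r + 1 / ((n : ℝ) + 1)), fun _ => isOpen_univ,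
          fun _ => isOpen_ball, ?_⟩
        ext X
        simp only [hits, mem_ofPred_eq, mem_iUnion, Set.mem_sdiff, inter_univ]
        constructor
        · intro h
          obtain ⟨n, hn⟩ := exists_nat_one_div_lt (sub_pos.2 h)
          refine ⟨n, ne_cs X, ?_⟩
          rintro ⟨y, hy, hb⟩
          have := infDist_le_dist_of_mem (x := x) hy
          rw [mem_ball, dist_comm] at hb
          linarith
        · rintro ⟨n, -, hn⟩
          by_contra hc
          have h1 : infDist x (X : Set E) < r + 1 / ((n : ℝ) + 1) :=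
            (not_lt.1 hc).trans_lt (lt_add_of_pos_right _ (by positivity))
          obtain ⟨y, hy, h⟩ := (infDist_lt_iff (ne_cs X)).1 h1
          exact hn ⟨y, hy, by rwa [mem_ball, dist_comm]⟩

end Pool.Agent.MP_89350a_an

end

section

open Topology Filter Set Metric

namespace Pool.Agent.MP_89350a_an

/-- escaping bump functions -/
noncomputable def bump (k : ℕ) (s : ℝ) : ℝ := k * max 0 (min (4 * k * s - 1) (2 - k * s))

lemma continuous_bump (k : ℕ) : Continuous (bump k) := by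
  unfold bump; fun_prop

lemma bump_nonneg (k : ℕ) (s : ℝ) : 0 ≤ bump k s := mul_nonneg (Nat.cast_nonneg _) (le_max_left _ _)

lemma bump_small {k : ℕ} {s : ℝ} (h : k * s ≤ 1 / 4) : bump k s = 0 := by
  unfold bump
  rw [max_eq_left ((min_le_left _ _).trans (by linarith)), mul_zero]

lemma bump_large {k : ℕ} {s : ℝ} (h : 2 ≤ k * s) : bump k s = 0 := by
  unfold bump
  rw [max_eq_left ((min_le_right _ _).trans (by linarith)), mul_zero]

lemma exists_bump {s : ℝ} (h0 : 0 < s) (h1 : s ≤ 1) : ∃ k, 1 ≤ 2 * s * bump k s := by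
  have hs : 1 ≤ 1 / s := by rw [le_div_iff₀ h0]; linarith
  refine ⟨⌊1 / s⌋₊, ?_⟩
  have a1 : (⌊1 / s⌋₊ : ℝ) ≤ 1 / s := Nat.floor_le (by positivity)
  have a2 : 1 / s < ⌊1 / s⌋₊ + 1 := Nat.lt_floor_add_one _
  have a3 : (1 : ℝ) ≤ ⌊1 / s⌋₊ := by exact_mod_cast Nat.le_floor (by simpa using hs)
  set k : ℝ := (⌊1 / s⌋₊ : ℝ) with hk
  have b1 : k * s ≤ 1 := by rwa [le_div_iff₀ h0] at a1
  have b2 : 1 < (k + 1) * s := by rwa [div_lt_iff₀ h0] at a2
  have b3 : 1 / 2 ≤ k * s := by nlinarith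
  have b4 : 1 ≤ max 0 (min (4 * k * s - 1) (2 - k * s)) :=
    le_max_of_le_right (le_min (by nlinarith) (by linarith))
  unfold bump
  rw [← hk]
  nlinarith

variable {𝕜 : Type} [RCLike 𝕜]

/-- the condition defining one block -/
structure Cond (b w : EuclideanSpace 𝕜 (Fin 2)) (f : ℕ → 𝕜) : Prop where
  esc : ∀ k, f k = inner 𝕜 b w * (bump k (1 - ‖b‖) : 𝕜)
  tan : 1 ≤ ‖b‖ → inner 𝕜 b w = 0

/-- elements of the block at `b` can be approximated by elements of the block at `b'` -/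
def Appr (M : ℕ) (R η : ℝ) (b b' : EuclideanSpace 𝕜 (Fin 2)) : Prop :=
  ∀ w f, Cond b w f → ‖w‖ ≤ R → (∀ k, ‖f k‖ ≤ R) →
    ∃ w' f', Cond b' w' f' ∧ ‖w' - w‖ ≤ η ∧ (∀ k < M, ‖f' k - f k‖ ≤ η) ∧ ∀ k, M ≤ k → f' k = 0

lemma block (a : EuclideanSpace 𝕜 (Fin 2)) : ∃ M0 : ℕ, ∀ M, M0 ≤ M → ∀ R η : ℝ, 0 < R → 0 < η →
    ∃ Q ∈ 𝓝 a, ∀ b ∈ Q, ∀ b' ∈ Q, Appr M R η b b' := by
  rcases lt_or_ge ‖a‖ 1 with ha | ha
  · have hs : 0 < 1 - ‖a‖ := sub_pos.2 ha
    obtain ⟨M0, hM0⟩ := exists_nat_ge (4 / (1 - ‖a‖))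
    refine ⟨M0, fun M hM R η hR hη => ?_⟩
    let G : ℕ → EuclideanSpace 𝕜 (Fin 2) → EuclideanSpace 𝕜 (Fin 2) :=
      fun k b => (bump k (1 - ‖b‖) : 𝕜) • b
    have hG : ∀ k, Continuous (G k) := fun k => by
      have h : Continuous fun b : EuclideanSpace 𝕜 (Fin 2) => (bump k (1 - ‖b‖) : 𝕜) :=
        RCLike.continuous_ofReal.comp ((continuous_bump k).comp
          (show Continuous fun b : EuclideanSpace 𝕜 (Fin 2) => 1 - ‖b‖ by fun_prop))
      exact h.fun_smul continuous_id'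
    have h1 : ∀ᶠ b in 𝓝 a, ∀ k ∈ Finset.range M, ‖G k b - G k a‖ < η / R / 2 := by
      rw [Finset.eventually_all]
      intro k _
      have := (hG k).continuousAt.eventually (ball_mem_nhds (G k a)
        (show 0 < η / R / 2 by positivity))
      filter_upwards [this] with b hb
      rwa [← dist_eq_norm]
    have h2 : ∀ᶠ b in 𝓝 a, (1 - ‖a‖) / 2 < 1 - ‖b‖ :=
      (show Continuous fun b : EuclideanSpace 𝕜 (Fin 2) => 1 - ‖b‖ by
        fun_prop).continuousAt.eventually (lt_mem_nhds (by linarith))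
    refine ⟨_, h1.and h2, ?_⟩
    rintro b ⟨hb1, -⟩ b' ⟨hb1', hb2'⟩ w f hc hw -
    refine ⟨w, fun k => inner 𝕜 b' w * (bump k (1 - ‖b'‖) : 𝕜), ⟨fun k => rfl, fun h => ?_⟩,
      by simpa using hη.le, fun k hk => ?_, fun k hk => ?_⟩
    · linarith
    · have e : inner 𝕜 b' w * (bump k (1 - ‖b'‖) : 𝕜) - f k = inner 𝕜 (G k b' - G k b) w := by
        rw [hc.esc k, inner_sub_left]
        simp only [G, inner_smul_left, RCLike.conj_ofReal]
        ring
      rw [e]
      have e1 := hb1 k (Finset.mem_range.2 hk)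
      have e2 := hb1' k (Finset.mem_range.2 hk)
      have e3 : ‖G k b' - G k b‖ ≤ η / R := by
        have := norm_sub_le (G k b' - G k a) (G k b - G k a)
        rw [sub_sub_sub_cancel_right] at this
        linarith
      calc _ ≤ ‖G k b' - G k b‖ * ‖w‖ := norm_inner_le_norm _ _
        _ ≤ η / R * R := by gcongr
        _ = η := by field_simp
    · have e1 : (4 / (1 - ‖a‖)) ≤ k := hM0.trans (by exact_mod_cast hM.trans hk)
      rw [div_le_iff₀ hs] at e1
      have e2 : 2 ≤ (k : ℝ) * (1 - ‖b'‖) := by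
        have : (0 : ℝ) ≤ k := Nat.cast_nonneg _
        nlinarith
      simp [bump_large e2]
  · refine ⟨0, fun M _ R η hR hη => ?_⟩
    obtain ⟨δ, hδ, hδ1, hδ2, hδ3⟩ : ∃ δ : ℝ, 0 < δ ∧ δ ≤ 1 / 2 ∧ M * δ ≤ 1 / 4 ∧ 8 * δ * R ≤ η := by
      refine ⟨min (1 / (4 * (M + 1))) (η / (8 * R)), by positivity, ?_, ?_, ?_⟩
      · refine (min_le_left _ _).trans ?_
        apply one_div_le_one_div_of_le (by norm_num)
        have : (0 : ℝ) ≤ M := Nat.cast_nonneg _
        linarith
      · have h1 : min (1 / (4 * ((M : ℝ) + 1))) (η / (8 * R)) ≤ 1 / (4 * (M + 1)) := min_le_left _ _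
        have h2 : (M : ℝ) * (1 / (4 * (M + 1))) ≤ 1 / 4 := by
          rw [mul_one_div, div_le_div_iff₀ (by positivity) (by positivity)]
          linarith
        exact (mul_le_mul_of_nonneg_left h1 (Nat.cast_nonneg _)).trans h2
      · have h1 : min (1 / (4 * ((M : ℝ) + 1))) (η / (8 * R)) ≤ η / (8 * R) := min_le_right _ _
        rw [le_div_iff₀ (by positivity)] at h1
        linarith
    refine ⟨ball a δ, ball_mem_nhds a hδ, ?_⟩
    intro b hb b' hb' w f hc hw hf
    rw [mem_ball, dist_eq_norm] at hb hb'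
    have n1 : 1 - ‖b‖ ≤ δ := by
      have := norm_sub_norm_le a b
      rw [norm_sub_rev] at this
      linarith
    have n2 : 1 / 2 ≤ ‖b'‖ := by
      have := norm_sub_norm_le a b'
      rw [norm_sub_rev] at this
      linarith
    have i1 : ‖inner 𝕜 b w‖ ≤ 2 * δ * R := by
      rcases lt_or_ge ‖b‖ 1 with h | h
      · obtain ⟨k, hk⟩ := exists_bump (sub_pos.2 h) (by linarith [norm_nonneg b])
        have e1 := hf k
        rw [hc.esc k, norm_mul, RCLike.norm_ofReal, abs_of_nonneg (bump_nonneg _ _)] at e1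
        have e2 := norm_nonneg (inner 𝕜 b w)
        have e3 := bump_nonneg k (1 - ‖b‖)
        calc ‖inner 𝕜 b w‖ ≤ ‖inner 𝕜 b w‖ * (2 * (1 - ‖b‖) * bump k (1 - ‖b‖)) := by nlinarith
          _ = 2 * (1 - ‖b‖) * (‖inner 𝕜 b w‖ * bump k (1 - ‖b‖)) := by ring
          _ ≤ 2 * δ * R := by
            have : 0 ≤ 1 - ‖b‖ := by linarith
            gcongr
      · rw [hc.tan h, norm_zero]; positivity
    have i2 : ‖inner 𝕜 b' w‖ ≤ 4 * δ * R := by
      have e1 : inner 𝕜 b' w = inner 𝕜 b w + inner 𝕜 (b' - b) w := by rw [inner_sub_left]; ring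
      have e2 : ‖b' - b‖ ≤ 2 * δ := by
        have := norm_sub_le (b' - a) (b - a)
        rw [sub_sub_sub_cancel_right] at this
        linarith
      have e3 : ‖inner 𝕜 (b' - b) w‖ ≤ 2 * δ * R :=
        (norm_inner_le_norm _ _).trans (by gcongr)
      rw [e1]
      exact (norm_add_le _ _).trans (by linarith)
    have hb0 : (‖b'‖ : 𝕜) ≠ 0 := by
      rw [RCLike.ofReal_ne_zero]; linarith
    have o1 : inner 𝕜 b' (w - (inner 𝕜 b' w / (‖b'‖ : 𝕜) ^ 2) • b') = 0 := by
      rw [inner_sub_right, inner_smul_right, inner_self_eq_norm_sq_to_K]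
      field_simp
      ring
    refine ⟨w - (inner 𝕜 b' w / (‖b'‖ : 𝕜) ^ 2) • b', fun _ => 0,
      ⟨fun k => by rw [o1, zero_mul], fun _ => o1⟩, ?_, fun k hk => ?_, fun _ _ => rfl⟩
    · rw [sub_sub_cancel_left, norm_neg, norm_smul, norm_div, norm_pow, RCLike.norm_ofReal,
        abs_norm]
      have : ‖inner 𝕜 b' w‖ / ‖b'‖ ^ 2 * ‖b'‖ = ‖inner 𝕜 b' w‖ / ‖b'‖ := by
        field_simp
      rw [this, div_le_iff₀ (by linarith)]
      nlinarith
    · have e1 : (k : ℝ) * (1 - ‖b‖) ≤ 1 / 4 := by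
        have h1 : (k : ℝ) ≤ M := by exact_mod_cast hk.le
        have h2 : (0 : ℝ) ≤ k := Nat.cast_nonneg _
        nlinarith
      rw [hc.esc k, bump_small e1]
      simpa using hη.le

lemma exists_orth (b : EuclideanSpace 𝕜 (Fin 2)) :
    ∃ w : EuclideanSpace 𝕜 (Fin 2), w ≠ 0 ∧ inner 𝕜 b w = 0 := by
  by_cases hb : b = 0
  · exact ⟨EuclideanSpace.single 0 1, by simp, by simp [hb]⟩
  · refine ⟨WithLp.toLp 2 ![-(starRingEnd 𝕜) (b 1), (starRingEnd 𝕜) (b 0)], ?_, ?_⟩
    · intro h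
      apply hb
      have h0 := congrArg (fun v : EuclideanSpace 𝕜 (Fin 2) => v 0) h
      have h1 := congrArg (fun v : EuclideanSpace 𝕜 (Fin 2) => v 1) h
      simp at h0 h1
      ext i
      fin_cases i <;> simp [h0, h1]
    · simp [PiLp.inner_apply, Fin.sum_univ_two]
      ring

lemma fixed_normed {E : Type} [NormedAddCommGroup E] [NormedSpace ℝ E] [FiniteDimensional ℝ E]
    (F : E → E) (hF : Continuous F) {M : ℝ} (hM : ∀ x, ‖F x‖ ≤ M) : ∃ x, F x = x := by
  let e := toEuclidean (E := E)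
  obtain ⟨x, hx⟩ := Pool.Agent.MP_d539bc_co.fixed_of_bounded (fun y => e (F (e.symm y)))
    (by fun_prop) (M := ‖e.toContinuousLinearMap‖ * M) (fun y => by
      have := e.toContinuousLinearMap.le_opNorm (F (e.symm y))
      exact this.trans (mul_le_mul_of_nonneg_left (hM _) (norm_nonneg _)))
  exact ⟨e.symm x, e.injective (by rw [hx]; simp)⟩

/-- A continuous family of vector fields tangent to the spheres has a common zero. -/
theorem exists_common_zero (v : (ℕ → EuclideanSpace 𝕜 (Fin 2)) → ℕ → EuclideanSpace 𝕜 (Fin 2))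
    (hv : Continuous v) (htan : ∀ p i, 1 ≤ ‖p i‖ → inner 𝕜 (p i) (v p i) = 0) :
    ∃ p, ∀ i, v p i = 0 := by
  let K : Set (ℕ → EuclideanSpace 𝕜 (Fin 2)) := Set.pi univ fun _ => closedBall 0 1
  have hK : IsCompact K := isCompact_univ_pi fun _ => isCompact_closedBall _ _
  let r : EuclideanSpace 𝕜 (Fin 2) → EuclideanSpace 𝕜 (Fin 2) :=
    fun q => (((max 1 ‖q‖)⁻¹ : ℝ) : 𝕜) • q
  have hr : Continuous r := by
    have h : Continuous fun q : EuclideanSpace 𝕜 (Fin 2) => (max 1 ‖q‖)⁻¹ :=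
      (continuous_const.max continuous_norm).inv₀ fun q =>
        (lt_of_lt_of_le one_pos (le_max_left _ _)).ne'
    have h' : Continuous fun q : EuclideanSpace 𝕜 (Fin 2) => (((max 1 ‖q‖)⁻¹ : ℝ) : 𝕜) :=
      RCLike.continuous_ofReal.comp h
    exact h'.fun_smul continuous_id'
  have hrn : ∀ q, ‖r q‖ = ‖q‖ / max 1 ‖q‖ := fun q => by
    simp only [r, norm_smul, RCLike.norm_ofReal]
    rw [abs_of_nonneg (by positivity), inv_mul_eq_div]
  have hr1 : ∀ q, ‖r q‖ ≤ 1 := fun q => by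
    rw [hrn, div_le_one (lt_of_lt_of_le one_pos (le_max_left _ _))]
    exact le_max_right _ _
  have hfin : ∀ N : ℕ, ∃ p ∈ K, ∀ i < N, v p i = 0 := by
    intro N
    let ext : (Fin N → EuclideanSpace 𝕜 (Fin 2)) → ℕ → EuclideanSpace 𝕜 (Fin 2) :=
      fun q i => if h : i < N then r (q ⟨i, h⟩) else 0
    have hext : Continuous ext := by
      refine continuous_pi fun i => ?_
      by_cases h : i < N
      · simp only [ext, h, dif_pos]
        exact hr.comp (continuous_apply _)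
      · simp only [ext, h, dif_neg, not_false_eq_true]
        exact continuous_const
    have hextK : ∀ q, ext q ∈ K := by
      intro q i _
      by_cases h : i < N
      · simp only [ext, h, dif_pos, mem_closedBall, dist_zero_right]
        exact hr1 _
      · simp [ext, h]
    let V : (ℕ → EuclideanSpace 𝕜 (Fin 2)) → Fin N → EuclideanSpace 𝕜 (Fin 2) :=
      fun p i => v p i
    have hV : Continuous V := continuous_pi fun i => (continuous_apply (i : ℕ)).comp hv
    obtain ⟨C, hC⟩ := hK.exists_bound_of_continuousOn hV.continuousOn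
    obtain ⟨q, hq⟩ := fixed_normed (fun q : Fin N → EuclideanSpace 𝕜 (Fin 2) =>
      (fun i => r (q i)) + V (ext q))
      ((continuous_pi fun i => hr.comp (continuous_apply i)).add (hV.comp hext)) (M := 1 + C)
      (fun q => (norm_add_le _ _).trans (add_le_add
        ((pi_norm_le_iff_of_nonneg zero_le_one).2 fun i => hr1 _) (hC _ (hextK q))))
    refine ⟨ext q, hextK q, fun i hi => ?_⟩
    have e1 : r (q ⟨i, hi⟩) + v (ext q) i = q ⟨i, hi⟩ := congrFun hq ⟨i, hi⟩
    have e2 : ext q i = r (q ⟨i, hi⟩) := by simp [ext, hi]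
    set x := q ⟨i, hi⟩ with hx
    rcases le_or_gt ‖x‖ 1 with h | h
    · have : r x = x := by simp [r, max_eq_left h]
      rw [this] at e1
      simpa using e1
    · exfalso
      have hx0 : 0 < ‖x‖ := by linarith
      have e3 : ‖r x‖ = 1 := by rw [hrn, max_eq_right h.le, div_self hx0.ne']
      have e4 := htan (ext q) i (by rw [e2, e3])
      have e5 : v (ext q) i = ((‖x‖ - 1 : ℝ) : 𝕜) • r x := by
        rw [eq_sub_of_add_eq' e1]
        have hx0' : (‖x‖ : 𝕜) ≠ 0 := by rw [RCLike.ofReal_ne_zero]; exact hx0.ne'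
        simp only [r, max_eq_right h.le, smul_smul]
        push_cast
        rw [sub_mul, mul_inv_cancel₀ hx0', one_mul, sub_smul, one_smul]
      rw [e2, e5, inner_smul_right, inner_self_eq_norm_sq_to_K, e3] at e4
      simp only [RCLike.ofReal_one, one_pow, mul_one, RCLike.ofReal_eq_zero] at e4
      linarith
  let Z : ℕ → Set (ℕ → EuclideanSpace 𝕜 (Fin 2)) := fun N => K ∩ {p | ∀ i < N, v p i = 0}
  have hZc : ∀ N, IsClosed (Z N) := by
    intro N
    refine hK.isClosed.inter ?_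
    rw [ofPred_forall]; refine isClosed_iInter fun i => ?_
    rw [ofPred_forall]; refine isClosed_iInter fun _ => ?_
    exact isClosed_eq ((continuous_apply i).comp hv) continuous_const
  obtain ⟨p, hp⟩ := IsCompact.nonempty_iInter_of_sequence_nonempty_isCompact_isClosed Z
    (fun N p hp => ⟨hp.1, fun i hi => hp.2 i (by omega)⟩)
    (fun N => let ⟨p, h1, h2⟩ := hfin N; ⟨p, h1, h2⟩)
    (hK.of_isClosed_subset (hZc 0) inter_subset_left) hZc
  exact ⟨p, fun i => (mem_iInter.1 hp (i + 1)).2 i (by omega)⟩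

end Pool.Agent.MP_89350a_an

end

section

open Topology Filter Set Metric

namespace Pool.Agent.MP_89350a_an

/-- disjoint clopen cells converging to a point -/
structure Cells (Δ ι : Type) [TopologicalSpace Δ] where
  U : ι → Set Δ
  t : ι → Δ
  ω : Δ
  clopen : ∀ n, IsClopen (U n)
  mem : ∀ n, t n ∈ U n
  disj : ∀ n m s, s ∈ U n → s ∈ U m → n = m
  not_mem : ∀ n, ω ∉ U n
  lim : ∀ N ∈ 𝓝 ω, ∀ᶠ n in cofinite, U n ⊆ N

variable {𝕜 : Type} [RCLike 𝕜] {Δ ι : Type} [TopologicalSpace Δ]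

noncomputable def Cells.ind (C : Cells Δ ι) (n : ι) : C(Δ, 𝕜) :=
  ⟨(C.U n).indicator fun _ => 1, (C.clopen n).continuous_indicator continuous_const⟩

noncomputable def Cells.build (C : Cells Δ ι) (F : Finset ι) (c : ι → 𝕜) : C(Δ, 𝕜) :=
  ∑ n ∈ F, c n • C.ind n

open Classical in
lemma Cells.build_mem (C : Cells Δ ι) (F : Finset ι) (c : ι → 𝕜) {n : ι} {s : Δ}
    (hs : s ∈ C.U n) : C.build F c s = if n ∈ F then c n else 0 := by
  have h : ∀ m, (c m • C.ind m : C(Δ, 𝕜)) s = if n = m then c m else 0 := by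
    intro m
    by_cases hm : n = m
    · subst hm
      simp [Cells.ind, hs]
    · have : s ∉ C.U m := fun h => hm (C.disj _ _ _ hs h)
      simp [Cells.ind, this, hm]
  rw [Cells.build, ContinuousMap.coe_sum, Finset.sum_apply]
  simp only [h]
  rw [Finset.sum_ite_eq]

lemma Cells.build_not_mem (C : Cells Δ ι) (F : Finset ι) (c : ι → 𝕜) {s : Δ}
    (hs : ∀ n, s ∉ C.U n) : C.build F c s = 0 := by
  rw [Cells.build, ContinuousMap.coe_sum, Finset.sum_apply]
  exact Finset.sum_eq_zero fun m _ => by simp [Cells.ind, hs m]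

/-- step functions on the cells -/
def Cells.Step (C : Cells Δ ι) (y : C(Δ, 𝕜)) : Prop :=
  (∀ n, ∀ s ∈ C.U n, y s = y (C.t n)) ∧ ∀ s, (∀ n, s ∉ C.U n) → y s = 0

lemma Cells.step_build (C : Cells Δ ι) (F : Finset ι) (c : ι → 𝕜) : C.Step (C.build F c) :=
  ⟨fun n _ hs => by rw [C.build_mem F c hs, C.build_mem F c (C.mem n)],
    fun _ hs => C.build_not_mem F c hs⟩

variable [CompactSpace Δ]

lemma Cells.compare (C : Cells Δ ι) (y : C(Δ, 𝕜)) {ε : ℝ} (hε : 0 < ε) :
    ∃ F0 : Finset ι, ∀ F, F0 ⊆ F → ∀ x : C(Δ, 𝕜), C.Step x → ∀ c : ι → 𝕜,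
      (∀ n ∈ F, ‖c n - x (C.t n)‖ ≤ ε) → ‖y - C.build F c‖ ≤ ‖y - x‖ + ε := by
  have h1 : {s | ‖y s - y C.ω‖ < ε} ∈ 𝓝 C.ω :=
    (isOpen_lt (by fun_prop) continuous_const).mem_nhds (by simpa using hε)
  have h2 := C.lim _ h1
  rw [Filter.eventually_cofinite] at h2
  refine ⟨h2.toFinset, fun F hF x hx c hc => ?_⟩
  refine (ContinuousMap.norm_le _ (by positivity)).2 fun s => ?_
  have hb : ∀ s, ‖y s - x s‖ ≤ ‖y - x‖ := fun s => (y - x).norm_coe_le_norm s
  rw [ContinuousMap.sub_apply]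
  by_cases hs : ∃ n, s ∈ C.U n
  · obtain ⟨n, hn⟩ := hs
    rw [C.build_mem F c hn]
    split_ifs with h
    · have e : y s - c n = (y s - x s) - (c n - x (C.t n)) := by rw [hx.1 n s hn]; ring
      rw [e]
      exact (norm_sub_le _ _).trans (add_le_add (hb s) (hc n h))
    · have h3 : C.U n ⊆ {s | ‖y s - y C.ω‖ < ε} := by
        by_contra hcon
        exact h (hF (h2.mem_toFinset.2 hcon))
      have h4 : ‖y s - y C.ω‖ < ε := h3 hn
      have h5 := hb C.ω
      rw [hx.2 _ C.not_mem] at h5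
      have e : y s - 0 = (y C.ω - 0) + (y s - y C.ω) := by ring
      rw [e]
      exact (norm_add_le _ _).trans (add_le_add h5 h4.le)
  · push Not at hs
    rw [C.build_not_mem F c hs, ← hx.2 s hs]
    linarith [hb s]

/-- the vector read off block `i` -/
noncomputable def wv (C : Cells Δ (ℕ × (Fin 2 ⊕ ℕ))) (y : C(Δ, 𝕜)) (i : ℕ) :
    EuclideanSpace 𝕜 (Fin 2) := WithLp.toLp 2 fun j => y (C.t (i, Sum.inl j))

omit [CompactSpace Δ] in
lemma continuous_wv (C : Cells Δ (ℕ × (Fin 2 ⊕ ℕ))) (i : ℕ) :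
    Continuous fun y : C(Δ, 𝕜) => wv C y i := by
  unfold wv; fun_prop

lemma norm_wv_le (C : Cells Δ (ℕ × (Fin 2 ⊕ ℕ))) (y : C(Δ, 𝕜)) (i : ℕ) :
    ‖wv C y i‖ ≤ 2 * ‖y‖ := by
  rw [EuclideanSpace.norm_eq, Fin.sum_univ_two]
  have h0 : ‖wv C y i 0‖ ≤ ‖y‖ := y.norm_coe_le_norm _
  have h1 : ‖wv C y i 1‖ ≤ ‖y‖ := y.norm_coe_le_norm _
  rw [Real.sqrt_le_left (by positivity)]
  nlinarith [norm_nonneg (wv C y i 0), norm_nonneg (wv C y i 1), norm_nonneg y]

/-- the family of subspaces -/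
noncomputable def fam (C : Cells Δ (ℕ × (Fin 2 ⊕ ℕ))) (p : ℕ → EuclideanSpace 𝕜 (Fin 2)) :
    ClosedSubmodule 𝕜 C(Δ, 𝕜) where
  carrier := {y | C.Step y ∧ ∀ i, Cond (p i) (wv C y i) fun k => y (C.t (i, Sum.inr k))}
  zero_mem' := ⟨⟨fun _ _ _ => rfl, fun _ _ => rfl⟩, fun i => by
    have : wv C (0 : C(Δ, 𝕜)) i = 0 := rfl
    exact ⟨fun k => by simp [this], fun _ => by simp [this]⟩⟩
  add_mem' := by
    rintro x y ⟨hx, hx'⟩ ⟨hy, hy'⟩
    refine ⟨⟨fun n s hs => by simp [hx.1 n s hs, hy.1 n s hs],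
      fun s hs => by simp [hx.2 s hs, hy.2 s hs]⟩, fun i => ?_⟩
    have : wv C (x + y) i = wv C x i + wv C y i := rfl
    refine ⟨fun k => ?_, fun h => ?_⟩
    · have h1 := (hx' i).esc k
      have h2 := (hy' i).esc k
      simp only [this, inner_add_right, ContinuousMap.add_apply] at h1 h2 ⊢
      rw [h1, h2]; ring
    · rw [this, inner_add_right, (hx' i).tan h, (hy' i).tan h, add_zero]
  smul_mem' := by
    rintro a x ⟨hx, hx'⟩
    refine ⟨⟨fun n s hs => by simp [hx.1 n s hs], fun s hs => by simp [hx.2 s hs]⟩, fun i => ?_⟩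
    have : wv C (a • x) i = a • wv C x i := rfl
    refine ⟨fun k => ?_, fun h => ?_⟩
    · have h1 := (hx' i).esc k
      simp only [this, inner_smul_right, ContinuousMap.smul_apply, smul_eq_mul] at h1 ⊢
      rw [h1]; ring
    · rw [this, inner_smul_right, (hx' i).tan h, mul_zero]
  isClosed' := by
    have e : {y : C(Δ, 𝕜) | C.Step y ∧
        ∀ i, Cond (p i) (wv C y i) fun k => y (C.t (i, Sum.inr k))} =
        ((⋂ n, ⋂ s ∈ C.U n, {y : C(Δ, 𝕜) | y s = y (C.t n)}) ∩
          ⋂ s, ⋂ (_ : ∀ n, s ∉ C.U n), {y : C(Δ, 𝕜) | y s = 0}) ∩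
        ⋂ i, ((⋂ k, {y : C(Δ, 𝕜) | y (C.t (i, Sum.inr k)) =
            inner 𝕜 (p i) (wv C y i) * (bump k (1 - ‖p i‖) : 𝕜)}) ∩
          ⋂ (_ : 1 ≤ ‖p i‖), {y : C(Δ, 𝕜) | inner 𝕜 (p i) (wv C y i) = 0}) := by
      ext y
      simp only [Cells.Step, mem_ofPred_eq, mem_inter_iff, mem_iInter]
      exact and_congr Iff.rfl (forall_congr' fun i => ⟨fun h => ⟨h.1, h.2⟩, fun h => ⟨h.1, h.2⟩⟩)
    have hw := continuous_wv (𝕜 := 𝕜) C
    change IsClosed {y : C(Δ, 𝕜) | C.Step y ∧
        ∀ i, Cond (p i) (wv C y i) fun k => y (C.t (i, Sum.inr k))}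
    rw [e]
    refine IsClosed.inter (IsClosed.inter ?_ ?_) (isClosed_iInter fun i => IsClosed.inter ?_ ?_)
    · exact isClosed_iInter fun n => isClosed_biInter fun s _ =>
        isClosed_eq (by fun_prop) (by fun_prop)
    · exact isClosed_iInter fun s => isClosed_iInter fun _ =>
        isClosed_eq (by fun_prop) continuous_const
    · exact isClosed_iInter fun k => isClosed_eq (by fun_prop)
        ((continuous_const.inner (hw i)).mul continuous_const)
    · exact isClosed_iInter fun _ => isClosed_eq (continuous_const.inner (hw i)) continuous_const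

lemma mem_fam {C : Cells Δ (ℕ × (Fin 2 ⊕ ℕ))} {p : ℕ → EuclideanSpace 𝕜 (Fin 2)} {y : C(Δ, 𝕜)} :
    y ∈ (fam C p : Set C(Δ, 𝕜)) ↔
      C.Step y ∧ ∀ i, Cond (p i) (wv C y i) fun k => y (C.t (i, Sum.inr k)) := Iff.rfl

/-- coefficients from block data -/
def coef (w : ℕ → EuclideanSpace 𝕜 (Fin 2)) (f : ℕ → ℕ → 𝕜) : ℕ × (Fin 2 ⊕ ℕ) → 𝕜 :=
  fun n => Sum.elim (fun j => w n.1 j) (fun k => f n.1 k) n.2

lemma build_mem_fam (C : Cells Δ (ℕ × (Fin 2 ⊕ ℕ))) (p : ℕ → EuclideanSpace 𝕜 (Fin 2))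
    (I : Finset ℕ) (M : ℕ) (w : ℕ → EuclideanSpace 𝕜 (Fin 2)) (f : ℕ → ℕ → 𝕜)
    (h : ∀ i ∈ I, Cond (p i) (w i) (f i) ∧ ∀ k, M ≤ k → f i k = 0) :
    C.build (I ×ˢ (Finset.univ.disjSum (Finset.range M))) (coef w f) ∈
      (fam C p : Set C(Δ, 𝕜)) := by
  refine ⟨C.step_build _ _, fun i => ?_⟩
  by_cases hi : i ∈ I
  · have e1 : wv C (C.build (I ×ˢ (Finset.univ.disjSum (Finset.range M))) (coef w f)) i = w i := by
      ext j
      simp [wv, C.build_mem _ _ (C.mem _), hi, coef]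
    have e2 : (fun k => C.build (I ×ˢ (Finset.univ.disjSum (Finset.range M))) (coef w f)
        (C.t (i, Sum.inr k))) = f i := by
      funext k
      by_cases hk : k < M
      · simp [C.build_mem _ _ (C.mem _), hi, coef, hk]
      · simp [C.build_mem _ _ (C.mem _), hk, (h i hi).2 k (not_lt.1 hk)]
    rw [e1, e2]
    exact (h i hi).1
  · have e1 : wv C (C.build (I ×ˢ (Finset.univ.disjSum (Finset.range M))) (coef w f)) i = 0 := by
      ext j
      simp [wv, C.build_mem _ _ (C.mem _), hi]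
    rw [e1]
    exact ⟨fun k => by simp [C.build_mem _ _ (C.mem _), hi], fun _ => by simp⟩

lemma continuous_fam (C : Cells Δ (ℕ × (Fin 2 ⊕ ℕ))) (y : C(Δ, 𝕜)) :
    Continuous fun p : ℕ → EuclideanSpace 𝕜 (Fin 2) => infDist y (fam C p : Set C(Δ, 𝕜)) := by
  rw [continuous_iff_continuousAt]
  intro a
  rw [ContinuousAt, Metric.tendsto_nhds]
  intro ε3 hε3
  obtain ⟨ε, hε, rfl⟩ : ∃ ε, 0 < ε ∧ ε3 = 3 * ε := ⟨ε3 / 3, by positivity, by ring⟩
  obtain ⟨F0, hF0⟩ := C.compare y hε
  choose M0 hM0 using fun i => block (a i)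
  obtain ⟨N, hN⟩ := (F0.image fun n => n.1 + Sum.elim (fun _ => 0) id n.2).finite_toSet.bddAbove
  let M : ℕ := N + 1 + ∑ i ∈ Finset.range (N + 1), M0 i
  have hM : ∀ i ∈ Finset.range (N + 1), M0 i ≤ M := fun i hi =>
    (Finset.single_le_sum (f := M0) (fun _ _ => Nat.zero_le _) hi).trans (Nat.le_add_left _ _)
  have hsub : F0 ⊆ Finset.range (N + 1) ×ˢ (Finset.univ.disjSum (Finset.range M)) := by
    rintro ⟨i, u⟩ hn
    have := hN (Finset.mem_coe.2 (Finset.mem_image_of_mem _ hn))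
    cases u with
    | inl j => simp at this ⊢; omega
    | inr k => simp at this ⊢; omega
  have hR : 0 < 2 * (2 * ‖y‖ + ε) := by positivity
  have hQ : ∀ i, ∃ Q ∈ 𝓝 (a i), i ∈ Finset.range (N + 1) →
      ∀ b ∈ Q, ∀ b' ∈ Q, Appr M (2 * (2 * ‖y‖ + ε)) ε b b' := by
    intro i
    by_cases hi : i ∈ Finset.range (N + 1)
    · obtain ⟨Q, h1, h2⟩ := hM0 i M (hM i hi) _ ε hR hε
      exact ⟨Q, h1, fun _ => h2⟩
    · exact ⟨univ, univ_mem, fun h => (hi h).elim⟩
  choose Q hQ1 hQ2 using hQ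
  have key : ∀ p p' : ℕ → EuclideanSpace 𝕜 (Fin 2),
      (∀ i ∈ Finset.range (N + 1), p i ∈ Q i) → (∀ i ∈ Finset.range (N + 1), p' i ∈ Q i) →
      infDist y (fam C p' : Set C(Δ, 𝕜)) < infDist y (fam C p : Set C(Δ, 𝕜)) + 2 * ε := by
    intro p p' hp hp'
    obtain ⟨x, hx, hxd⟩ := exists_near (fam C p) y hε
    have h0 : infDist y (fam C p : Set C(Δ, 𝕜)) ≤ ‖y‖ := by
      simpa using infDist_le_norm_sub (fam C p) y (fam C p).toSubmodule.zero_mem
    have hxn : ‖x‖ ≤ 2 * ‖y‖ + ε := by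
      have := norm_sub_norm_le x y
      rw [norm_sub_rev] at this
      linarith
    have hb : ∀ i, ∃ (w' : EuclideanSpace 𝕜 (Fin 2)) (f' : ℕ → 𝕜), i ∈ Finset.range (N + 1) →
        Cond (p' i) w' f' ∧ ‖w' - wv C x i‖ ≤ ε ∧
        (∀ k < M, ‖f' k - x (C.t (i, Sum.inr k))‖ ≤ ε) ∧ ∀ k, M ≤ k → f' k = 0 := by
      intro i
      by_cases hi : i ∈ Finset.range (N + 1)
      · obtain ⟨w', f', h⟩ := hQ2 i hi _ (hp i hi) _ (hp' i hi) _ _ (hx.2 i)
          ((norm_wv_le C x i).trans (by linarith))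
          (fun k => (x.norm_coe_le_norm _).trans (by linarith [norm_nonneg x]))
        exact ⟨w', f', fun _ => h⟩
      · exact ⟨0, 0, fun h => (hi h).elim⟩
    choose w' f' hb using hb
    have hmem := build_mem_fam C p' (Finset.range (N + 1)) M w' f'
      fun i hi => ⟨(hb i hi).1, (hb i hi).2.2.2⟩
    have h1 := hF0 _ hsub x hx.1 (coef w' f') (by
      rintro ⟨i, u⟩ hn
      rw [Finset.mem_product] at hn
      cases u with
      | inl j =>
        exact (PiLp.norm_apply_le (w' i - wv C x i) j).trans (hb i hn.1).2.1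
      | inr k =>
        exact (hb i hn.1).2.2.1 k (by simpa using hn.2))
    have h2 := infDist_le_norm_sub (fam C p') y hmem
    linarith
  have ha : ∀ i ∈ Finset.range (N + 1), a i ∈ Q i := fun i _ => mem_of_mem_nhds (hQ1 i)
  have hev : ∀ᶠ p in 𝓝 a, ∀ i ∈ Finset.range (N + 1), p i ∈ Q i := by
    rw [Finset.eventually_all]
    exact fun i _ => (continuous_apply i).continuousAt.eventually (hQ1 i)
  filter_upwards [hev] with p hp
  have h1 := key p a hp ha
  have h2 := key a p ha hp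
  rw [Real.dist_eq, abs_lt]
  constructor <;> linarith

lemma fam_infinite (C : Cells Δ (ℕ × (Fin 2 ⊕ ℕ))) (p : ℕ → EuclideanSpace 𝕜 (Fin 2)) :
    ¬ FiniteDimensional 𝕜 (fam C p).toSubmodule := by
  intro hfin
  choose w hw0 hw using fun i => exists_orth (p i)
  have hmem : ∀ i, C.build ({i} ×ˢ (Finset.univ.disjSum (Finset.range 0))) (coef w fun _ _ => 0) ∈
      (fam C p : Set C(Δ, 𝕜)) := fun i =>
    build_mem_fam C p {i} 0 w _ fun j _ =>
      ⟨⟨fun k => by simp [hw j], fun _ => hw j⟩, fun _ _ => rfl⟩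
  let e : ℕ → (fam C p).toSubmodule := fun i => ⟨_, hmem i⟩
  have hwv : ∀ i j, wv C (e i : C(Δ, 𝕜)) j = if j = i then w j else 0 := by
    intro i j
    ext l
    by_cases h : j = i
    · simp [e, wv, C.build_mem _ _ (C.mem _), h, coef]
    · have h' : ¬ i = j := fun h' => h h'.symm
      simp [e, wv, C.build_mem _ _ (C.mem _), h, h']
  have hli : LinearIndependent 𝕜 e := by
    rw [linearIndependent_iff']
    intro s g hs i hi
    let L : (fam C p).toSubmodule →ₗ[𝕜] EuclideanSpace 𝕜 (Fin 2) :=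
      { toFun := fun y => wv C (y : C(Δ, 𝕜)) i
        map_add' := fun _ _ => rfl
        map_smul' := fun _ _ => rfl }
    have h1 := congrArg L hs
    rw [map_sum, map_zero] at h1
    have h2 : ∀ j, L (g j • e j) = if i = j then g i • w i else 0 := by
      intro j
      rw [map_smul]
      change g j • wv C (e j : C(Δ, 𝕜)) i = _
      rw [hwv]
      split_ifs with h
      · rw [h]
      · simp
    simp only [h2, Finset.sum_ite_eq, hi, if_true] at h1
    exact (smul_eq_zero.1 h1).resolve_right (hw0 i)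
  exact Module.Finite.not_linearIndependent_of_infinite e hli

theorem no_selection (C : Cells Δ (ℕ × (Fin 2 ⊕ ℕ))) :
    ¬ ∃ h : ClosedSubmodule 𝕜 C(Δ, 𝕜) → C(Δ, 𝕜),
      @ContinuousOn _ _ (wijsman 𝕜 C(Δ, 𝕜)) _ h {X | ¬ FiniteDimensional 𝕜 X.toSubmodule} ∧
      ∀ X : ClosedSubmodule 𝕜 C(Δ, 𝕜), ¬ FiniteDimensional 𝕜 X.toSubmodule →
        h X ∈ X ∧ h X ≠ 0 := by
  rintro ⟨h, hc, hh⟩
  let _ := wijsman 𝕜 C(Δ, 𝕜)
  have hX : Continuous (fam (𝕜 := 𝕜) C) := continuous_wijsman_rng (continuous_fam C)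
  have hs : Continuous fun p => h (fam C p) := hc.comp_continuous hX (fam_infinite C)
  have hm : ∀ p, h (fam C p) ∈ (fam C p : Set C(Δ, 𝕜)) := fun p => (hh _ (fam_infinite C p)).1
  obtain ⟨p, hp⟩ := exists_common_zero (fun p i => wv C (h (fam C p)) i)
    (continuous_pi fun i => (continuous_wv C i).comp hs) (fun p i hi => ((hm p).2 i).tan hi)
  apply (hh _ (fam_infinite C p)).2
  ext s
  by_cases hs : ∃ n, s ∈ C.U n
  · obtain ⟨⟨i, u⟩, hn⟩ := hs
    rw [(hm p).1.1 _ s hn]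
    cases u with
    | inl j => exact congrArg (fun v : EuclideanSpace 𝕜 (Fin 2) => v j) (hp i)
    | inr k =>
      have := ((hm p).2 i).esc k
      simp only [hp i, inner_zero_right, zero_mul] at this
      exact this
  · push Not at hs
    exact (hm p).1.2 s hs

omit [CompactSpace Δ] in
lemma exists_cells (e : Δ ≃ₜ (ℕ → Bool)) (ι : Type) [Countable ι] : Nonempty (Cells Δ ι) := by
  obtain ⟨ν, hν⟩ := exists_injective_nat ι
  let U : ℕ → Set (ℕ → Bool) := fun n => {s | s n = true} ∩ ⋂ k ∈ Finset.range n, {s | s k = false}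
  have hcl : ∀ (n : ℕ) (b : Bool), IsClopen {s : ℕ → Bool | s n = b} := fun n b =>
    (isClopen_discrete ({b} : Set Bool)).preimage (continuous_apply n)
  have hU : ∀ n s, s ∈ U n ↔ s n = true ∧ ∀ k < n, s k = false := by
    intro n s
    simp [U]
  refine ⟨⟨fun n => e ⁻¹' U (ν n), fun n => e.symm fun k => decide (k = ν n),
    e.symm fun _ => false, fun n => ?_, fun n => ?_, fun n m s hn hm => ?_, fun n => ?_, ?_⟩⟩
  · exact ((hcl _ _).inter (isClopen_biInter_finset fun k _ => hcl k false)).preimage e.continuous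
  · rw [mem_preimage, hU]
    simp only [Homeomorph.apply_symm_apply, decide_true, decide_eq_false_iff_not, true_and]
    exact fun k hk => hk.ne
  · rw [mem_preimage, hU] at hn hm
    apply hν
    rcases lt_trichotomy (ν n) (ν m) with h | h | h
    · have := hm.2 _ h
      rw [hn.1] at this
      exact absurd this (by simp)
    · exact h
    · have := hn.2 _ h
      rw [hm.1] at this
      exact absurd this (by simp)
  · rw [mem_preimage, hU]
    simp
  · intro N hN
    have h1 : e.symm ⁻¹' N ∈ 𝓝 (fun _ : ℕ => false) :=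
      e.symm.continuous.continuousAt.preimage_mem_nhds hN
    rw [nhds_pi, Filter.mem_pi] at h1
    obtain ⟨I, hI, W, hW, hsub⟩ := h1
    obtain ⟨B, hB⟩ := hI.bddAbove
    have h2 : ∀ᶠ n in cofinite, B < ν n :=
      hν.tendsto_cofinite.eventually (Nat.cofinite_eq_atTop ▸ eventually_gt_atTop B)
    filter_upwards [h2] with n hn s hs
    rw [mem_preimage, hU] at hs
    have h3 : e s ∈ I.pi W := fun k hk => by
      rw [hs.2 k ((hB hk).trans_lt hn)]
      exact mem_of_mem_nhds (hW k)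
    simpa using hsub h3

end Pool.Agent.MP_89350a_an

end
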