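import Pool.Agent.Mg.F5cfbf6.G416da4

set_option autoImplicit false
set_option linter.unusedSectionVars false

namespace Pool.Agent.MP_5cfbf6_gt

open Set Filter Topology MeasureTheory Module

variable {ι : Type} [Fintype ι] [DecidableEq ι]
variable {u : ι → E3} {Tr : ι → ι → ι → Prop}

/-- the second variation of one face -/
noncomputable def triH (u : ι → E3) (Tr : ι → ι → ι → Prop) (i : ι) (v : E3) : ℝ :=
  6 * ar u 1 i * dt v v - 2 * ∑ j, mu u Tr 1 i j * dt (u i) (u j)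
    * QQ (dt v (ep u Tr 1 i j)) (dt v (em u Tr 1 i j))

/-- the edge term -/
noncomputable def triG (u : ι → E3) (Tr : ι → ι → ι → Prop) (v : E3) (i j : ι) : ℝ :=
  mu u Tr 1 i j * QQ (dt v (ep u Tr 1 i j)) (dt v (em u Tr 1 i j))

lemma tri_G_symm (S : Sys u 1 Tr) (v : E3) (i j : ι) : triG u Tr v j i = triG u Tr v i j := by
  unfold triG
  by_cases A : Adj Tr i j
  · rw [S.mu_symm, S.ep_swap A, S.em_swap A]
    unfold QQ
    ring
  · rw [mu_of_not A, mu_of_not fun B => A (S.adj_symm B), zero_mul, zero_mul]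

lemma tri_G_self (S : Sys u 1 Tr) (v : E3) (i : ι) : triG u Tr v i i = 0 := by
  unfold triG
  rw [mu_of_not fun A => S.adj_ne A rfl, zero_mul]

lemma tri_weights (C : Crit u Tr) (τ : E3) (w : ι → ℝ) (hw : ∀ i, w i * dt (u i) τ = 0) :
    0 ≤ ∑ i, w i ^ 2 * triH u Tr i τ + 2 * ∑ i, ∑ j, w i * w j * triG u Tr τ i j := by
  have H := C.sys.second_var C.opt C.unit (fun i => w i • τ) fun i => by rw [dt_smul, hw]
  have e1 : ∑ i, ∑ j, w j ^ 2 * triG u Tr τ i j = ∑ i, ∑ j, w i ^ 2 * triG u Tr τ i j := by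
    rw [Finset.sum_comm]
    exact Finset.sum_congr rfl fun i _ => Finset.sum_congr rfl fun j _ => by
      rw [tri_G_symm C.sys]
  have e2 : ∀ i, w i ^ 2 * triH u Tr i τ = ∑ j, w i ^ 2 * (mu u Tr 1 i j * (1 - dt (u i) (u j))
      * (3 * dt τ τ) - 2 * (dt (u i) (u j) * triG u Tr τ i j)) := fun i => by
    rw [triH, C.sys.ar_one C.unit, ← Finset.mul_sum, Finset.sum_sub_distrib, ← Finset.sum_mul,
      ← Finset.mul_sum]
    congr 2
    · ring
    · congr 1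
      exact Finset.sum_congr rfl fun j _ => by unfold triG; ring
  have e3 : ∑ i, w i ^ 2 * triH u Tr i τ + 2 * ∑ i, ∑ j, w i * w j * triG u Tr τ i j
      = ∑ i, w i ^ 2 * triH u Tr i τ + 2 * ∑ i, ∑ j, w i * w j * triG u Tr τ i j
        + (∑ i, ∑ j, w i ^ 2 * triG u Tr τ i j - ∑ i, ∑ j, w j ^ 2 * triG u Tr τ i j) := by
    rw [e1, sub_self, add_zero]
  rw [e3]
  simp only [e2, Finset.mul_sum, ← Finset.sum_add_distrib, ← Finset.sum_sub_distrib]
  refine H.trans (le_of_eq (Finset.sum_congr rfl fun i _ => Finset.sum_congr rfl fun j _ => ?_))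
  simp only [triG, QQ, sub_dt, smul_dt, dt_smul]
  ring

lemma tri_pair (C : Crit u Tr) {k l : ι} (hkl : k ≠ l) {τ : E3} (hk : dt (u k) τ = 0)
    (hl : dt (u l) τ = 0) (s : ℝ) :
    0 ≤ s ^ 2 * triH u Tr k τ + triH u Tr l τ - 4 * s * triG u Tr τ k l := by
  have H := tri_weights C τ (fun i => if i = k then -s else if i = l then 1 else 0) fun i => by
    split_ifs with h1 h2
    · rw [h1, hk, mul_zero]
    · rw [h2, hl, mul_zero]
    · exact zero_mul _
  rw [Fintype.sum_eq_add k l hkl fun x hx => by simp [hx.1, hx.2],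
    Fintype.sum_eq_add k l hkl fun x hx => by simp [hx.1, hx.2],
    Fintype.sum_eq_add k l hkl fun x hx => by simp [hx.1, hx.2],
    Fintype.sum_eq_add k l hkl fun x hx => by simp [hx.1, hx.2]] at H
  simp only [if_true, if_neg hkl.symm, tri_G_self C.sys, tri_G_symm C.sys τ k l] at H
  linarith

lemma tri_first (C : Crit u Tr) (i : ι) {x : E3} (hx : x ∈ fc u 1 {i}) {v : E3}
    (hv : dt (u i) v = 0) :
    ∑ j, mu u Tr 1 i j * (1 - dt (u j) x)
      * (dt v x + dt v (ep u Tr 1 i j) + dt v (em u Tr 1 i j)) = 0 := by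
  have key : ∀ t : ℝ, 0 < t → t ≤ 1 → ∑ j, mu u Tr 1 i j * (1 - dt (u j) ((1 - t) • x + t • u i))
      * (dt v ((1 - t) • x + t • u i) + dt v (ep u Tr 1 i j) + dt v (em u Tr 1 i j)) = 0 :=
    fun t t0 t1 => C.sys.first_var C.opt C.unit i (by
      rw [dt_add, dt_smul, dt_smul, Crit.mem_face hx, C.unit]; ring) (fun l hl => by
      have b1 : dt (u l) x ≤ 1 := hx.1 l
      have b2 := C.sys.cos_lt C.unit hl
      rw [dt_add, dt_smul, dt_smul]
      nlinarith) hv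
  have h1 := key (1 / 3) (by norm_num) (by norm_num)
  have h2 := key (2 / 3) (by norm_num) (by norm_num)
  have h3 := key 1 (by norm_num) (by norm_num)
  rw [← show 3 * (0 : ℝ) - 3 * 0 + 0 = 0 by norm_num]
  nth_rewrite 1 [← h1]
  nth_rewrite 1 [← h2]
  nth_rewrite 1 [← h3]
  simp only [Finset.mul_sum, ← Finset.sum_add_distrib, ← Finset.sum_sub_distrib]
  refine Finset.sum_congr rfl fun j _ => ?_
  simp only [dt_add, dt_smul]
  ring

/-- a triangular face with its neighbours in cyclic order -/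
structure TriCyc (u : ι → E3) (Tr : ι → ι → ι → Prop) (k a b c : ι) : Prop where
  Aa : Adj Tr k a
  Ab : Adj Tr k b
  Ac : Adj Tr k c
  ab : a ≠ b
  bc : b ≠ c
  ca : c ≠ a
  all : ∀ j, Adj Tr k j → j = a ∨ j = b ∨ j = c
  e1 : em u Tr 1 k b = ep u Tr 1 k a
  e2 : em u Tr 1 k c = ep u Tr 1 k b
  e3 : em u Tr 1 k a = ep u Tr 1 k c

lemma TriCyc.rot {k a b c : ι} (T : TriCyc u Tr k a b c) : TriCyc u Tr k b c a :=
  ⟨T.Ab, T.Ac, T.Aa, T.bc, T.ca, T.ab, fun j A => by have := T.all j A; tauto, T.e2, T.e3, T.e1⟩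

lemma tri_cyc (S : Sys u 1 Tr) {k : ι} (h3 : {j | Adj Tr k j}.ncard = 3) :
    ∃ a b c, TriCyc u Tr k a b c := by
  obtain ⟨a, z, T⟩ := S.used k
  have A : Adj Tr k a := ⟨z, T⟩
  obtain ⟨Tb, db⟩ := S.kp_spec A
  obtain ⟨Tc, dc⟩ := S.km_spec A
  have hbc := S.kp_ne_km A
  have pa : ep u Tr 1 k a = vx u 1 k a (kp u Tr k a) := rfl
  have qa : em u Tr 1 k a = vx u 1 k a (km u Tr k a) := rfl
  generalize kp u Tr k a = b at *
  generalize km u Tr k a = c at *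
  have Ab : Adj Tr k b := ⟨a, S.s23 _ _ _ Tb⟩
  have Ac : Adj Tr k c := ⟨a, S.s23 _ _ _ Tc⟩
  have hab := S.ne23 Tb
  have hac := S.ne23 Tc
  have all : ∀ j, Adj Tr k j → j = a ∨ j = b ∨ j = c := by
    have e : ({a, b, c} : Set ι) = {j | Adj Tr k j} := by
      refine eq_of_subset_of_ncard_le ?_ ?_
      · rintro j (rfl | rfl | rfl) <;> assumption
      · rw [h3, ncard_eq_three.2 ⟨a, b, c, hab, hac, hbc, rfl⟩]
    intro j hj
    have : j ∈ ({a, b, c} : Set ι) := by rw [e]; exact hj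
    exact this
  have m1 : a = km u Tr k b := S.eq_km (S.s23 _ _ _ Tb) (by rw [det3_swap23]; linarith)
  have m2 : a = kp u Tr k c := S.eq_kp (S.s23 _ _ _ Tc) (by rw [det3_swap23]; linarith)
  have m3 : kp u Tr k b = c := by
    have T1 := (S.kp_spec Ab).1
    rcases all _ ⟨b, S.s23 _ _ _ T1⟩ with e | e | e
    · exact absurd (e.trans m1) (S.kp_ne_km Ab)
    · exact absurd e.symm (S.ne23 T1)
    · exact e
  have m4 : km u Tr k c = b := by
    have T1 := (S.km_spec Ac).1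
    rcases all _ ⟨c, S.s23 _ _ _ T1⟩ with e | e | e
    · exact absurd (m2.symm.trans e.symm) (S.kp_ne_km Ac)
    · exact e
    · exact absurd e.symm (S.ne23 T1)
  refine ⟨a, b, c, A, Ab, Ac, hab, hbc, hac.symm, all, ?_, ?_, ?_⟩
  · rw [pa, em, ← m1, vx_swap23]
  · rw [em, ep, m3, m4, vx_swap23]
  · rw [qa, ep, ← m2, vx_swap23]

lemma TriCyc.sum {k a b c : ι} (T : TriCyc u Tr k a b c) (f : ι → ℝ) :
    ∑ j, mu u Tr 1 k j * f j
      = mu u Tr 1 k a * f a + mu u Tr 1 k b * f b + mu u Tr 1 k c * f c := by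
  rw [← Finset.sum_subset (Finset.subset_univ {a, b, c}) fun j _ hj => by
    rw [mu_of_not fun A => hj (by simpa using T.all j A), zero_mul],
    Finset.sum_insert (by simp [T.ab, T.ca.symm]), Finset.sum_pair T.bc, add_assoc]

lemma TriCyc.area {k a b c : ι} (T : TriCyc u Tr k a b c) (C : Crit u Tr) :
    mu u Tr 1 k c * (1 - dt (u c) (ep u Tr 1 k a)) = 2 * ar u 1 k := by
  have h1 := C.sys.closed C.unit 1 (ep u Tr 1 k a) k
  have h2 := C.sys.ar_one C.unit k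
  have h3 : dt (u b) (ep u Tr 1 k a) = 1 := by rw [← T.e1]; exact C.sys.em2 T.Ab 1
  rw [T.sum, C.sys.ep1 T.Aa, C.sys.ep2 T.Aa, h3] at h1
  rw [T.sum] at h2
  simp only [Pi.one_apply] at h1
  linarith

lemma TriCyc.cent {k a b c : ι} (T : TriCyc u Tr k a b c) (C : Crit u Tr) {v : E3}
    (hv : dt (u k) v = 0) :
    dt v (ep u Tr 1 k a) + dt v (ep u Tr 1 k b) + dt v (ep u Tr 1 k c) = 0 := by
  have h1 := tri_first C k (C.sys.var1_ep T.Aa).1 hv
  have h3 : dt (u b) (ep u Tr 1 k a) = 1 := by rw [← T.e1]; exact C.sys.em2 T.Ab 1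
  simp only [mul_assoc] at h1
  rw [T.sum, C.sys.ep2 T.Aa, h3, T.e2, ← mul_assoc (mu u Tr 1 k c), T.area C] at h1
  simp only [Pi.one_apply, sub_self, zero_mul, mul_zero, zero_add] at h1
  have := (mul_eq_zero.1 h1).resolve_left (by
    have := C.sys.ar_pos var1_one_pos k
    positivity)
  linarith

lemma TriCyc.cent' {k a b c : ι} (T : TriCyc u Tr k a b c) (C : Crit u Tr) :
    ep u Tr 1 k a + ep u Tr 1 k b + ep u Tr 1 k c = (3 : ℝ) • u k := by
  have h0 : dt (u k) (ep u Tr 1 k a + ep u Tr 1 k b + ep u Tr 1 k c - (3 : ℝ) • u k) = 0 := by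
    rw [dt_sub, dt_add, dt_add, dt_smul, C.sys.ep1 T.Aa, C.sys.ep1 T.Ab, C.sys.ep1 T.Ac, C.unit]
    norm_num
  have h1 := T.cent C h0
  rw [← dt_add, ← dt_add] at h1
  refine sub_eq_zero.1 (eq_zero_of_dt_self ?_)
  rw [dt_sub _ _ ((3 : ℝ) • u k), h1, dt_smul, dt_comm, h0]
  ring

lemma TriCyc.third {k a b c : ι} (T : TriCyc u Tr k a b c) (C : Crit u Tr) :
    mu u Tr 1 k c * (1 - dt (u k) (u c)) = 2 * ar u 1 k / 3 := by
  have h1 := congrArg (dt (u c)) (T.cent' C)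
  have h2 : dt (u c) (ep u Tr 1 k b) = 1 := by rw [← T.e2]; exact C.sys.em2 T.Ac 1
  rw [dt_add, dt_add, dt_smul, h2, C.sys.ep2 T.Ac, dt_comm (u c) (u k)] at h1
  simp only [Pi.one_apply] at h1
  rw [← T.area C, show dt (u c) (ep u Tr 1 k a) = 3 * dt (u k) (u c) - 2 by linarith]
  ring

lemma tri_len (C : Crit u Tr) {k j : ι} (A : Adj Tr k j) :
    dt (ep u Tr 1 k j - em u Tr 1 k j) (ep u Tr 1 k j - em u Tr 1 k j)
      = mu u Tr 1 k j * (1 - dt (u k) (u j)) * (mu u Tr 1 k j * (1 + dt (u k) (u j))) := by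
  rw [C.sys.ep_sub A, dt_smul, smul_dt, dt_cr_cr, C.unit, C.unit]
  ring

lemma tri_gram {n p q : E3} (hn : dt n n = 1) (hp : dt n p = 1) (hq : dt n q = 1) :
    det3 n p q ^ 2 = (dt p p - 1) * (dt q q - 1) - (dt p q - 1) ^ 2 := by
  have : det3 n p q ^ 2 = dt n n * (dt p p * dt q q - dt p q ^ 2)
      - dt n p * (dt n p * dt q q - dt p q * dt n q)
      + dt n q * (dt n p * dt p q - dt p p * dt n q) := by
    simp [det3, dt]; ring
  rw [this, hn, hp, hq]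
  ring

lemma tri_alg {A r H Q G X Y m M : ℝ} (hA : A < 1 / 2000) (A0 : 0 < A) (r0 : 0 ≤ r)
    (Hl : r ≤ 1 → H ≤ 24 * r) (hY : Y ≤ 3 * X) (hM : 2 * M = Y - 2 * A)
    (hm : 2 * m = X + 2 * A / 3) (hW : A * Y = 9 * (Q + G)) (hg : 4 * A ^ 2 ≤ 3 * (Q + G) ^ 2)
    (hQ : 2 * A / 3 * X ≤ 4 * Q) (hG : G * M ≤ 3 * A) (hr : r * X ≤ 484 * (2 * A / 3))
    (P : 0 ≤ (1 / A) ^ 2 * (6 * A - 2 * (Q * M)) + H - 4 * (1 / A) * (m * Q))
    (hQG : 0 ≤ Q + G) : False := by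
  have Y0 : 0 ≤ Y := nonneg_of_mul_nonneg_right (by linarith) A0
  have Y1 : 108 ≤ Y ^ 2 := by
    have : A ^ 2 * 108 ≤ A ^ 2 * Y ^ 2 := by nlinarith
    exact le_of_mul_le_mul_left this (by positivity)
  have Y2 : 10.3 ≤ Y := by nlinarith
  have X0 : 3.4 ≤ X := by linarith
  have r1 : r ≤ 0.048 := by nlinarith
  have h1 := Hl (by linarith)
  have h2 : 6 * A - 2 * (Q * M) ≤ A ^ 2 * (2 * Y / 9) := by
    have e : Q = A * Y / 9 - G := by linarith
    have e2 : M = Y / 2 - A := by linarith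
    have : Q * M = A * Y / 9 * (Y / 2 - A) - G * M := by rw [e]; nth_rewrite 1 [← e2]; ring
    nlinarith [mul_le_mul_of_nonneg_left Y1 A0.le]
  have h3 : (1 / A) ^ 2 * (6 * A - 2 * (Q * M)) ≤ 2 * Y / 9 := by
    rw [div_pow, one_pow, one_div, inv_mul_le_iff₀ (by positivity)]
    exact h2
  have h4 : X ^ 2 / 3 ≤ 4 * (1 / A) * (m * Q) := by
    rw [show 4 * (1 / A) * (m * Q) = m * (4 * Q) / A by ring, le_div_iff₀ A0]
    calc X ^ 2 / 3 * A = X / 2 * (2 * A / 3 * X) := by ring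
      _ ≤ m * (4 * Q) := mul_le_mul (by linarith) hQ (by positivity) (by linarith)
  nlinarith

lemma TriCyc.main {k a b c : ι} (T : TriCyc u Tr k a b c) (C : Crit u Tr)
    (hb : mu u Tr 1 k b * (1 + dt (u k) (u b)) ≤ mu u Tr 1 k a * (1 + dt (u k) (u a)))
    (hc : mu u Tr 1 k c * (1 + dt (u k) (u c)) ≤ mu u Tr 1 k a * (1 + dt (u k) (u a))) :
    1 / 2000 ≤ ar u 1 k := by
  have S := C.sys
  by_contra hA
  push Not at hA
  have A0 := S.ar_pos var1_one_pos k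
  have ta := T.rot.third C
  have tb := T.rot.rot.third C
  have tc := T.third C
  have la := tri_len C T.Aa
  have lb := tri_len C T.Ab
  have lc := tri_len C T.Ac
  rw [ta] at la
  rw [tb] at lb
  rw [tc] at lc
  have hd := FlagX.det_eq S (S.ctr_u C.unit) T.Ab
  rw [DD, dt_comm (u b) (u k)] at hd
  simp only [Pi.one_apply, one_mul] at hd
  rw [tb] at hd
  have hg := tri_gram (C.unit k) (S.ep1 T.Ab 1) (S.em1 T.Ab 1)
  rw [hd] at hg
  -- the unit vector along the edge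
  have hne : ep u Tr 1 k a - em u Tr 1 k a ≠ 0 := by
    rw [S.ep_sub T.Aa]
    refine smul_ne_zero (S.mu_pos T.Aa).ne' fun e => ?_
    have := S.cr_pos T.Aa
    rw [e, dt_zero] at this
    exact lt_irrefl _ this
  obtain ⟨τ, t1, tk, tl, tt⟩ : ∃ τ : E3, dt τ τ = 1 ∧ dt (u k) τ = 0 ∧ dt (u a) τ = 0 ∧
      dt τ (ep u Tr 1 k a - em u Tr 1 k a) ^ 2
        = dt (ep u Tr 1 k a - em u Tr 1 k a) (ep u Tr 1 k a - em u Tr 1 k a) := by
    have hn : ‖ep u Tr 1 k a - em u Tr 1 k a‖ ≠ 0 := norm_ne_zero_iff.2 hne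
    refine ⟨‖ep u Tr 1 k a - em u Tr 1 k a‖⁻¹ • (ep u Tr 1 k a - em u Tr 1 k a), ?_, ?_, ?_, ?_⟩
    · rw [dt_smul, smul_dt, dt_self]; field_simp
    · rw [dt_smul, dt_sub, S.ep1 T.Aa, S.em1 T.Aa, sub_self, mul_zero]
    · rw [dt_smul, dt_sub, S.ep2 T.Aa, S.em2 T.Aa, sub_self, mul_zero]
    · rw [smul_dt, dt_self]; field_simp
  have f1 := dt_cr_left (u k) τ
  have f3 := dt_cr_unit (C.unit k) t1 tk
  have P := tri_pair C (S.adj_ne T.Aa) tk tl (1 / ar u 1 k)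
  have Hf := S.second_single C.opt C.unit k f1 f3
  have c1 := T.cent C tk
  have c2 := T.cent C f1
  have fr := fun x y => frame_sq (C.unit k) t1 tk x y
  have r1 := C.rsq_le (S.adj_ne T.Aa)
  have r0 := C.rsq_nonneg a
  have r2 := C.ar_le_rsq a
  rw [dt_comm (u a) (u k)] at r1
  have ma := S.mu_pos T.Aa
  -- pass to coordinates
  rw [la, dt_sub, T.e3] at tt
  rw [fr, dt_sub, dt_sub, dt_sub, S.ep1 T.Aa, S.em1 T.Aa, T.e3] at la
  rw [fr, dt_sub, dt_sub, dt_sub, S.ep1 T.Ab, S.em1 T.Ab, T.e1] at lb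
  rw [fr, dt_sub, dt_sub, dt_sub, S.ep1 T.Ac, S.em1 T.Ac, T.e2] at lc
  rw [fr (ep u Tr 1 k b) (ep u Tr 1 k b), fr (em u Tr 1 k b) (em u Tr 1 k b),
    fr (ep u Tr 1 k b) (em u Tr 1 k b), S.ep1 T.Ab, S.em1 T.Ab, T.e1] at hg
  have Hl : rsq u a ≤ 1 → triH u Tr a τ ≤ 24 * rsq u a := fun h => by
    have : 0 ≤ ∑ j, mu u Tr 1 a j * dt (u a) (u j)
        * QQ (dt τ (ep u Tr 1 a j)) (dt τ (em u Tr 1 a j)) := by
      refine Finset.sum_nonneg fun j _ => ?_
      by_cases A : Adj Tr a j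
      · refine mul_nonneg (mul_nonneg (S.mu_nonneg a j) ?_) (Geo1.QQ_nonneg _ _)
        have h1 := C.adj_cos A
        have h2 := C.neg_le_cos a j
        nlinarith
      · rw [mu_of_not A, zero_mul, zero_mul]
    rw [triH, t1]
    linarith
  simp only [mul_assoc] at Hf
  rw [T.sum, T.e1, T.e2, T.e3] at Hf
  rw [triH, triG, t1] at P
  simp only [mul_assoc (mu u Tr 1 k _)] at P
  rw [T.sum, T.e1, T.e2, T.e3] at P
  simp only [Pi.one_apply, QQ] at *
  generalize triH u Tr a τ = Ha at *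
  generalize rsq u a = r at *
  generalize ar u 1 k = A at *
  generalize dt τ (ep u Tr 1 k a) = s1 at *
  generalize dt τ (ep u Tr 1 k b) = s2 at *
  generalize dt τ (ep u Tr 1 k c) = s3 at *
  generalize dt (cr (u k) τ) (ep u Tr 1 k a) = g1 at *
  generalize dt (cr (u k) τ) (ep u Tr 1 k b) = g2 at *
  generalize dt (cr (u k) τ) (ep u Tr 1 k c) = g3 at *
  generalize mu u Tr 1 k a = m1 at *
  generalize mu u Tr 1 k b = m2 at *
  generalize mu u Tr 1 k c = m3 at *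
  generalize dt (u k) (u a) = d1 at *
  generalize dt (u k) (u b) = d2 at *
  generalize dt (u k) (u c) = d3 at *
  obtain rfl : s3 = -s1 - s2 := by linarith
  obtain rfl : g3 = -g1 - g2 := by linarith
  refine tri_alg (Q := s1 ^ 2 + s1 * s2 + s2 ^ 2) (G := g1 ^ 2 + g1 * g2 + g2 ^ 2)
    (X := m1 * (1 + d1)) (Y := m1 * (1 + d1) + m2 * (1 + d2) + m3 * (1 + d3)) (m := m1)
    (M := m1 * d1 + m2 * d2 + m3 * d3) hA A0 r0 Hl (by linarith) (by linarith) (by linarith)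
    (by linarith) ?_ ?_ (by linarith) ?_ ?_
    (add_nonneg (Geo1.QQ_nonneg s1 s2) (Geo1.QQ_nonneg g1 g2))
  · nlinarith [sq_nonneg (s1 * s1 + g1 * g1 - s2 * s2 - g2 * g2),
      sq_nonneg (s1 * s1 + g1 * g1 + s2 * s2 + g2 * g2 + 4 * (s2 * s1 + g2 * g1))]
  · nlinarith [sq_nonneg s2]
  · nlinarith [mul_le_mul_of_nonneg_left r1 ma.le]
  · refine P.trans (le_of_eq ?_)
    ring

theorem Crit.tri_area (C : Crit u Tr) (k : ι) (h3 : {j | Adj Tr k j}.ncard = 3) :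
    1 / 2000 ≤ ar u 1 k := by
  obtain ⟨a, b, c, T⟩ := tri_cyc C.sys h3
  rcases le_total (mu u Tr 1 k b * (1 + dt (u k) (u b))) (mu u Tr 1 k a * (1 + dt (u k) (u a)))
    with h1 | h1
  · rcases le_total (mu u Tr 1 k c * (1 + dt (u k) (u c))) (mu u Tr 1 k a * (1 + dt (u k) (u a)))
      with h2 | h2
    · exact T.main C h1 h2
    · exact T.rot.rot.main C h2 (h1.trans h2)
  · rcases le_total (mu u Tr 1 k c * (1 + dt (u k) (u c))) (mu u Tr 1 k b * (1 + dt (u k) (u b)))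
      with h2 | h2
    · exact T.rot.main C h2 h1
    · exact T.rot.rot.main C (h1.trans h2) h2

theorem tri_card : ∃ N : ℕ,
    ∀ (ι : Type) [Fintype ι] [DecidableEq ι] (u : ι → E3) (Tr : ι → ι → ι → Prop), Crit u Tr →
    (∃ k, {j | Adj Tr k j}.ncard = 3) → Fintype.card ι ≤ N := by
  obtain ⟨K, D, hK, hD, H⟩ := power
  refine ⟨⌈K * 10 ^ (D - 1) * (484 * 648) / (1 / 8000) ^ D⌉₊, fun ι _ _ u Tr C ⟨k, hk⟩ => ?_⟩
  have h1 := C.tri_area k hk
  have h2 := C.ar_le_rsq k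
  have h3 : ∀ i, (1 / 8000 : ℝ) ^ D ≤ K * 10 ^ (D - 1) * (484 * ar u 1 i) := fun i => by
    have a1 := C.rsq_nonneg i
    have a2 := C.rsq_le_eight i
    have a3 := C.neg_le_cos i k
    have a4 := C.cos_le i k
    have a5 := C.rsq_le_ar i
    calc _ ≤ rsq u k ^ D := pow_le_pow_left₀ (by norm_num) (by linarith) D
      _ ≤ _ := H ι u Tr C i k
      _ ≤ _ := by
        gcongr
        linarith
  have h4 := Finset.sum_le_sum fun i (_ : i ∈ Finset.univ) => h3 i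
  rw [Finset.sum_const, Finset.card_univ, nsmul_eq_mul, ← Finset.mul_sum, ← Finset.mul_sum] at h4
  have h5 := C.sum_ar_le
  have h6 : (Fintype.card ι : ℝ) ≤ K * 10 ^ (D - 1) * (484 * 648) / (1 / 8000) ^ D := by
    rw [le_div_iff₀ (by positivity)]
    refine h4.trans ?_
    gcongr
  exact_mod_cast h6.trans (Nat.le_ceil _)

end Pool.Agent.MP_5cfbf6_gt
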