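import Pool.Agent.Mg.F5cfbf6.G92a7f6
import Pool.Agent.MP_d539bc_co.Defs
import Pool.Agent.Mg.F5cfbf6.Ge0db86

section

/-! Antisymmetric motions and generic centrally symmetric configurations. -/

namespace Pool.Agent.MP_d539bc_co

open Finset Module
open scoped Pointwise

section pencil

variable {A B : Type} [AddCommGroup A] [Module ℝ A] [FiniteDimensional ℝ A]
  [AddCommGroup B] [Module ℝ B]

theorem pencil_ker (f g : A →ₗ[ℝ] B) :
    {s : ℝ | finrank ℝ (LinearMap.ker f) < finrank ℝ (LinearMap.ker (f + s • g))}.Finite := by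
  obtain ⟨C, hC⟩ := Submodule.exists_isCompl (LinearMap.ker f)
  have hinj : LinearMap.ker (f ∘ₗ C.subtype) = ⊥ := by
    rw [LinearMap.ker_eq_bot']
    intro c hc
    have : (c : A) ∈ LinearMap.ker f ⊓ C := ⟨hc, c.2⟩
    rw [hC.inf_eq_bot] at this
    exact Subtype.ext this
  obtain ⟨L, hL⟩ := LinearMap.exists_leftInverse_of_injective _ hinj
  let T : Module.End ℝ C := L ∘ₗ g ∘ₗ C.subtype
  refine ((Module.End.finite_hasEigenvalue T).image (fun μ => -μ⁻¹)).subset ?_
  intro s hs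
  by_contra hcon
  rw [Set.mem_ofPred_eq] at hs
  apply not_le.2 hs
  have hdis : Disjoint (LinearMap.ker (f + s • g)) C := by
    rw [Submodule.disjoint_def]
    intro a ha haC
    by_contra hne
    have h1 : (⟨a, haC⟩ : C) + s • T ⟨a, haC⟩ = 0 := by
      have h2 := LinearMap.congr_fun hL ⟨a, haC⟩
      have h3 : f a + s • g a = 0 := by simpa using ha
      have h4 := congrArg L h3
      simp only [map_add, map_smul, map_zero] at h4
      simp only [LinearMap.comp_apply, Submodule.subtype_apply, LinearMap.id_apply] at h2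
      rw [h2] at h4
      exact h4
    have hne' : (⟨a, haC⟩ : C) ≠ 0 := fun h => hne (congrArg Subtype.val h)
    have hs0 : s ≠ 0 := by
      rintro rfl
      simp only [zero_smul, add_zero] at h1
      exact hne' h1
    apply hcon
    refine ⟨-s⁻¹, ?_, by simp⟩
    apply Module.End.hasEigenvalue_of_hasEigenvector (x := ⟨a, haC⟩)
    refine ⟨?_, hne'⟩
    rw [Module.End.mem_eigenspace_iff]
    have : s • T ⟨a, haC⟩ = -⟨a, haC⟩ := by rw [eq_neg_iff_add_eq_zero, add_comm]; exact h1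
    calc T ⟨a, haC⟩ = s⁻¹ • (s • T ⟨a, haC⟩) := by rw [smul_smul, inv_mul_cancel₀ hs0, one_smul]
      _ = _ := by rw [this, smul_neg, neg_smul]
  have e1 := Submodule.finrank_add_finrank_le_of_disjoint hdis
  have e2 := Submodule.finrank_add_eq_of_isCompl hC
  omega

/-- common kernel of a family of functionals -/
def Z {ι : Type} (f : ι → Dual ℝ A) : Submodule ℝ A := LinearMap.ker (LinearMap.pi f)

omit [FiniteDimensional ℝ A] in
lemma mem_Z {ι : Type} {f : ι → Dual ℝ A} {a : A} : a ∈ Z f ↔ ∀ i, f i a = 0 := by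
  simp [Z, funext_iff]

theorem pencil_Z {ι : Type} (f g : ι → Dual ℝ A) :
    {s : ℝ | finrank ℝ (Z f) < finrank ℝ (Z (f + s • g))}.Finite := by
  have := pencil_ker (LinearMap.pi f) (LinearMap.pi g)
  have e : ∀ s : ℝ, Z (f + s • g) = LinearMap.ker (LinearMap.pi f + s • LinearMap.pi g) := by
    intro s; unfold Z; congr 1
  refine this.subset ?_
  intro s hs
  rw [Set.mem_ofPred_eq] at hs ⊢
  rw [← e]
  exact hs

omit [FiniteDimensional ℝ A] in
theorem finrank_range_le_of_ker_le {C : Type} [AddCommGroup C] [Module ℝ C]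
    [FiniteDimensional ℝ C] (f g : C →ₗ[ℝ] A) (h : LinearMap.ker g ≤ LinearMap.ker f) :
    finrank ℝ (LinearMap.range f) ≤ finrank ℝ (LinearMap.range g) := by
  have e1 := LinearMap.finrank_range_add_finrank_ker f
  have e2 := LinearMap.finrank_range_add_finrank_ker g
  have e3 := Submodule.finrank_mono h
  omega

theorem finrank_le_inf_ker_add [FiniteDimensional ℝ B] (S : Submodule ℝ A) (f : A →ₗ[ℝ] B) :
    finrank ℝ S ≤ finrank ℝ (S ⊓ LinearMap.ker f : Submodule ℝ A) + finrank ℝ B := by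
  have e1 := LinearMap.finrank_range_add_finrank_ker (f ∘ₗ S.subtype)
  have e2 : finrank ℝ (LinearMap.range (f ∘ₗ S.subtype)) ≤ finrank ℝ B := Submodule.finrank_le _
  have e3 : finrank ℝ (LinearMap.ker (f ∘ₗ S.subtype))
      = finrank ℝ (S ⊓ LinearMap.ker f : Submodule ℝ A) := by
    rw [LinearMap.ker_comp, ← Submodule.map_comap_subtype,
      Submodule.finrank_map_subtype_eq]
  omega

end pencil

variable {V : Type} [Fintype V] [DecidableEq V] [FreeNeg V]

def clsSetoid (V : Type) [FreeNeg V] : Setoid V where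
  r x y := x = y ∨ x = -y
  iseqv := ⟨fun _ => Or.inl rfl, by rintro x y (rfl | rfl) <;> simp,
    by rintro x y z (rfl | rfl) (rfl | rfl) <;> simp⟩

def Cl (V : Type) [FreeNeg V] : Type := Quotient (clsSetoid V)

def cls (x : V) : Cl V := Quotient.mk (clsSetoid V) x

noncomputable instance : DecidableEq (Cl V) := Classical.decEq _

omit [DecidableEq V] in
instance : Finite (Cl V) := Quotient.finite _

noncomputable instance : Fintype (Cl V) := Fintype.ofFinite _

omit [Fintype V] [DecidableEq V] in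
lemma cls_eq {x y : V} : cls x = cls y ↔ x = y ∨ x = -y := Quotient.eq

omit [Fintype V] [DecidableEq V] in
@[simp] lemma cls_neg (x : V) : cls (-x) = cls x := cls_eq.2 (Or.inr rfl)

omit [Fintype V] [DecidableEq V] in
lemma cls_surj (c : Cl V) : ∃ x, cls x = c := Quotient.exists_rep c

lemma card_cl : Fintype.card V = 2 * Fintype.card (Cl V) := by
  have h := Finset.card_eq_sum_card_fiberwise (f := cls) (s := (univ : Finset V))
    (t := (univ : Finset (Cl V))) (fun _ _ => mem_univ _)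
  rw [← card_univ, h, ← card_univ, mul_comm, ← smul_eq_mul, ← sum_const]
  apply sum_congr rfl
  intro c _
  obtain ⟨x, rfl⟩ := cls_surj c
  have : univ.filter (fun a : V => cls a = cls x) = {x, -x} := by
    ext y; simp [cls_eq]
  rw [this, card_pair (ne_neg' x)]

abbrev E (d : ℕ) := Fin d → ℝ
abbrev Du (d : ℕ) := Dual ℝ (E d)
abbrev Mot (V : Type) [FreeNeg V] (d : ℕ) := Cl V → Du d

lemma finrank_Du (d : ℕ) : finrank ℝ (Du d) = d := by simp

variable {d : ℕ}

/-- the edge functional -/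
noncomputable def ell (x y : V) : (V → E d) →ₗ[ℝ] Dual ℝ (Mot V d) :=
  LinearMap.mk₂ ℝ (fun p m => (m (cls x) - m (cls y)) (p x - p y))
    (by intro p q m; simp; ring) (by intro c p m; simp; ring)
    (by intro p m m'; simp; ring) (by intro c p m; simp; ring)

omit [Fintype V] [DecidableEq V] in
lemma ell_apply (x y : V) (p : V → E d) (m : Mot V d) :
    ell x y p m = (m (cls x) - m (cls y)) (p x - p y) := rfl

noncomputable def K (p : V → E d) (G : V → V → Prop) : Submodule ℝ (Mot V d) :=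
  Z (fun e : {e : V × V // G e.1 e.2} => ell e.1.1 e.1.2 p)

omit [Fintype V] [DecidableEq V] in
lemma mem_K {p : V → E d} {G : V → V → Prop} {m : Mot V d} :
    m ∈ K p G ↔ ∀ x y, G x y → ell x y p m = 0 := by
  simp [K, mem_Z]

omit [Fintype V] [DecidableEq V] in
lemma K_anti {p : V → E d} {G H : V → V → Prop} (h : G ≤ H) : K p H ≤ K p G :=
  fun _ hm => mem_K.2 (fun x y hxy => mem_K.1 hm x y (h x y hxy))

def OddF (p : V → E d) : Prop := ∀ x, p (-x) = - p x

def Gen (P : (V → E d) → Prop) : Prop :=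
  (∃ p, OddF p ∧ P p) ∧ ∀ p q, OddF p → OddF q → P p → {s : ℝ | ¬ P (p + s • q)}.Finite

omit [Fintype V] [DecidableEq V] in
lemma OddF.add_smul {p q : V → E d} (hp : OddF p) (hq : OddF q) (s : ℝ) : OddF (p + s • q) := by
  intro x; simp [hp x, hq x, add_comm]

omit [Fintype V] [DecidableEq V] in
lemma OddF.sub {p q : V → E d} (hp : OddF p) (hq : OddF q) : OddF (p - q) := by
  intro x; simp [hp x, hq x]; abel

omit [Fintype V] [DecidableEq V] in
lemma Gen.and {P Q : (V → E d) → Prop} (hP : Gen P) (hQ : Gen Q) : Gen (fun p => P p ∧ Q p) := by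
  refine ⟨?_, ?_⟩
  · obtain ⟨p, hp, hPp⟩ := hP.1
    obtain ⟨q, hq, hQq⟩ := hQ.1
    have f1 := hP.2 p (q - p) hp (hq.sub hp) hPp
    have f2 := (hQ.2 q (p - q) hq (hp.sub hq) hQq).image (fun t => 1 - t)
    obtain ⟨s, hs⟩ := (f1.union f2).exists_notMem
    simp only [Set.mem_union, Set.mem_ofPred_eq, not_or, not_not, Set.mem_image, not_exists,
      not_and] at hs
    refine ⟨p + s • (q - p), hp.add_smul (hq.sub hp) s, hs.1, ?_⟩
    by_contra h
    apply hs.2 (1 - s) _ (by ring)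
    convert h using 2
    module
  · intro p q hp hq h
    refine ((hP.2 p q hp hq h.1).union (hQ.2 p q hp hq h.2)).subset ?_
    intro s hs
    simp only [Set.mem_union, Set.mem_ofPred_eq] at hs ⊢
    tauto

omit [Fintype V] [DecidableEq V] in
lemma gen_forall {J : Type} [Finite J] {P : J → (V → E d) → Prop} (h : ∀ j, Gen (P j)) :
    Gen (fun p => ∀ j, P j p) := by
  classical
  have := Fintype.ofFinite J
  have key : ∀ s : Finset J, Gen (fun p => ∀ j ∈ s, P j p) := by
    intro s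
    induction s using Finset.induction_on with
    | empty => exact ⟨⟨0, fun _ => by simp, by simp⟩, by simp⟩
    | insert a s _ ih =>
      have := (h a).and ih
      simpa using this
  simpa using key univ

omit [Fintype V] [DecidableEq V] in
lemma gen_min {A ι : Type} [AddCommGroup A] [Module ℝ A] [FiniteDimensional ℝ A]
    (L : ι → (V → E d) →ₗ[ℝ] Dual ℝ A) :
    Gen (fun p => ∀ q, OddF q →
      finrank ℝ (Z (fun i => L i p)) ≤ finrank ℝ (Z (fun i => L i q))) := by
  refine ⟨?_, ?_⟩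
  · obtain ⟨p, hp, hmin⟩ := (measure (fun p : V → E d => finrank ℝ (Z (fun i => L i p)))).wf.has_min
      {p | OddF p} ⟨0, fun _ => by simp⟩
    exact ⟨p, hp, fun q hq => not_lt.1 (hmin q hq)⟩
  · intro p q _ _ h
    refine (pencil_Z (fun i => L i p) (fun i => L i q)).subset ?_
    intro s hs
    simp only [Set.mem_ofPred_eq, not_forall, not_le] at hs ⊢
    obtain ⟨r, hr, hlt⟩ := hs
    have e : (fun i => L i (p + s • q)) = (fun i => L i p) + s • (fun i => L i q) := by
      funext i; simp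
    rw [← e]
    exact lt_of_le_of_lt (h r hr) hlt

omit [Fintype V] in
lemma exists_frame {F : Finset V} (hF : AF F) (hc : F.card = d) :
    ∃ q : V → E d, OddF q ∧ (∀ x, x ∉ F → -x ∉ F → q x = 0) ∧
      ∀ φ : Du d, (∀ x ∈ F, φ (q x) = 0) → φ = 0 := by
  let e : F ≃ Fin d := F.equivFinOfCardEq hc
  refine ⟨fun x => if h : x ∈ F then Pi.single (e ⟨x, h⟩) 1 else
    if h : -x ∈ F then - Pi.single (e ⟨-x, h⟩) 1 else 0, ?_, ?_, ?_⟩
  · intro x
    by_cases h1 : x ∈ F
    · simp [h1, hF x h1]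
    · by_cases h2 : -x ∈ F <;> simp [h1, h2]
  · intro x h1 h2; simp [h1, h2]
  · intro φ hφ
    apply (Pi.basisFun ℝ (Fin d)).ext
    intro i
    have := hφ (e.symm i).1 (e.symm i).2
    simpa using this

structure Generic (p : V → E d) : Prop where
  odd : OddF p
  gp1 : ∀ F : Finset V, AF F → F.card = d → ∀ φ : Du d, (∀ x ∈ F, φ (p x) = 0) → φ = 0
  gp2 : ∀ (Q : Finset V) (x : V), AF Q → Q.card = d → x ∉ Q → -x ∉ Q →
    ∀ φ : Du d, (∀ q ∈ Q, φ (p x - p q) = 0) → φ = 0
  min : ∀ G (q : V → E d), OddF q → finrank ℝ (K p G) ≤ finrank ℝ (K q G)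

lemma Z_bot_of_le {A ι : Type} [AddCommGroup A] [Module ℝ A] [FiniteDimensional ℝ A]
    {f g : ι → Dual ℝ A} (h : finrank ℝ (Z f) ≤ finrank ℝ (Z g))
    (hg : ∀ a, (∀ i, g i a = 0) → a = 0) : ∀ a, (∀ i, f i a = 0) → a = 0 := by
  have h1 : Z g = ⊥ := (Submodule.eq_bot_iff _).2 (fun a ha => hg a (mem_Z.1 ha))
  rw [h1, finrank_bot, Nat.le_zero, Submodule.finrank_eq_zero] at h
  exact fun a ha => (Submodule.eq_bot_iff _).1 h a (mem_Z.2 ha)

theorem exists_generic (d : ℕ) : ∃ p : V → E d, Generic p := by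
  let ev : V → (V → E d) →ₗ[ℝ] Dual ℝ (Du d) := fun x =>
    LinearMap.mk₂ ℝ (fun p φ => φ (p x)) (by intros; simp) (by intros; simp)
      (by intros; simp) (by intros; simp)
  have g1 := gen_forall (fun F : Finset V => gen_min (fun x : F => ev x))
  have g2 := gen_forall (fun F : Finset V × V => gen_min (fun x : F.1 => ev F.2 - ev x))
  have g3 := gen_forall (fun G : V → V → Prop =>
    gen_min (d := d) (fun e : {e : V × V // G e.1 e.2} => ell e.1.1 e.1.2))
  obtain ⟨p, hp, h1, h2, h3⟩ := (g1.and (g2.and g3)).1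
  refine ⟨p, hp, ?_, ?_, h3⟩
  · intro F hF hc φ hφ
    obtain ⟨q, hq, -, hq2⟩ := exists_frame hF hc
    exact Z_bot_of_le (h1 F q hq) (fun a ha => hq2 a (fun x hx => ha ⟨x, hx⟩)) φ
      (fun i => hφ i.1 i.2)
  · intro Q x hQ hc hx hx' φ hφ
    obtain ⟨q, hq, hq1, hq2⟩ := exists_frame hQ hc
    refine Z_bot_of_le (h2 (Q, x) q hq) (fun a ha => hq2 a (fun y hy => ?_)) φ (fun i => ?_)
    · have := ha ⟨y, hy⟩
      simpa [ev, hq1 x hx hx'] using this
    · simpa [ev] using hφ i.1 i.2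

end Pool.Agent.MP_d539bc_co

end

section

/-! Antisymmetric rigidity of antipodal free circuits. -/

namespace Pool.Agent.MP_d539bc_co

open Finset Module
open scoped Pointwise

variable {V : Type} [Fintype V] [DecidableEq V] [FreeNeg V] {d : ℕ}

def Alt (B : E d →ₗ[ℝ] Du d) : Prop := ∀ w, B w w = 0

lemma Alt.skew {B : E d →ₗ[ℝ] Du d} (h : Alt B) (w w' : E d) : B w w' = - B w' w := by
  have := h (w + w')
  simp only [map_add, LinearMap.add_apply, h w, h w'] at this
  linarith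

def Triv (p : V → E d) (W : Finset V) : Submodule ℝ (Mot V d) where
  carrier := {m | ∃ (B : E d →ₗ[ℝ] Du d) (b : Du d), Alt B ∧ ∀ x ∈ W, m (cls x) = B (p x) + b}
  add_mem' := by
    rintro m m' ⟨B, b, h1, h2⟩ ⟨B', b', h1', h2'⟩
    refine ⟨B + B', b + b', fun w => by simp [h1 w, h1' w], fun x hx => ?_⟩
    simp only [Pi.add_apply, h2 x hx, h2' x hx, LinearMap.add_apply]; abel
  zero_mem' := ⟨0, 0, fun w => by simp, fun x _ => by simp⟩
  smul_mem' := by
    rintro c m ⟨B, b, h1, h2⟩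
    refine ⟨c • B, c • b, fun w => by simp [h1 w], fun x hx => ?_⟩
    simp [h2 x hx]

omit [Fintype V] [DecidableEq V] in
lemma mem_Triv {p : V → E d} {W : Finset V} {m : Mot V d} : m ∈ Triv p W ↔
    ∃ (B : E d →ₗ[ℝ] Du d) (b : Du d), Alt B ∧ ∀ x ∈ W, m (cls x) = B (p x) + b := Iff.rfl

omit [Fintype V] [DecidableEq V] in
lemma ell_neg {p : V → E d} (hp : OddF p) (x y : V) (m : Mot V d) :
    ell (-x) (-y) p m = - ell x y p m := by
  rw [ell_apply, ell_apply, cls_neg, cls_neg, hp, hp, ← map_neg]; congr 1; abel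

omit [Fintype V] [DecidableEq V] in
lemma ell_symm (p : V → E d) (x y : V) (m : Mot V d) : ell y x p m = ell x y p m := by
  simp only [ell_apply, LinearMap.sub_apply, map_sub]; ring

omit [Fintype V] [DecidableEq V] in
lemma ell_of_triv {p : V → E d} {m : Mot V d} {B : E d →ₗ[ℝ] Du d} {b : Du d} (hB : Alt B)
    {x y : V} (hx : m (cls x) = B (p x) + b) (hy : m (cls y) = B (p y) + b) :
    ell x y p m = 0 := by
  rw [ell_apply, hx, hy, add_sub_add_right_eq_sub, ← map_sub]; exact hB _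

omit [Fintype V] [DecidableEq V] in
lemma triv_le_K {p : V → E d} (hp : OddF p) {G : V → V → Prop} {W : Finset V} (h : G ≤ kq W) :
    Triv p W ≤ K p G := by
  rintro m ⟨B, b, hB, hm⟩
  rw [mem_K]
  intro x y hxy
  rcases (h x y hxy).2 with h1 | h1
  · exact ell_of_triv hB (hm x h1.1) (hm y h1.2)
  · have := ell_of_triv hB (hm _ h1.1) (hm _ h1.2)
    rwa [ell_neg hp, neg_eq_zero] at this

omit [Fintype V] in
lemma Triv_neg {p : V → E d} (hp : OddF p) (W : Finset V) : Triv p W ≤ Triv p (-W) := by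
  rintro m ⟨B, b, hB, hm⟩
  refine ⟨-B, b, fun w => by simp [hB w], fun x hx => ?_⟩
  have := hm _ (Finset.mem_neg'.1 hx)
  rw [cls_neg, hp] at this
  simp [this]

omit [Fintype V] [DecidableEq V] in
lemma gr_le_kq_vs [DecidableEq V] (T : Finset (Finset V)) : gr T ≤ kq (vs T) := by
  rintro a b ⟨F, hF, h⟩
  exact kq_mono (subset_vs hF) a b h

namespace Generic

variable {p : V → E d} (hp : Generic p)
include hp

omit [Fintype V] [DecidableEq V] in
lemma map_zero' {F : Finset V} (hF : AF F) (hc : F.card = d) {B : E d →ₗ[ℝ] Du d}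
    (h : ∀ x ∈ F, B (p x) = 0) : B = 0 := by
  refine LinearMap.ext (fun w => LinearMap.ext (fun w' => ?_))
  have := hp.gp1 F hF hc (B.flip w') (fun x hx => by simp [h x hx])
  simpa using LinearMap.congr_fun this w

omit [Fintype V] [DecidableEq V] in
lemma uniq {F : Finset V} (hF : AF F) (hc : F.card = d) {B B' : E d →ₗ[ℝ] Du d} {b b' : Du d}
    (hB : Alt B) (hB' : Alt B') (h : ∀ x ∈ F, B (p x) + b = B' (p x) + b') : B = B' ∧ b = b' := by
  have h1 : b - b' = 0 := by
    apply hp.gp1 F hF hc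
    intro x hx
    have := LinearMap.congr_fun (h x hx) (p x)
    simp only [LinearMap.add_apply, hB (p x), hB' (p x), zero_add] at this
    simp [this]
  have h2 : b = b' := sub_eq_zero.1 h1
  subst h2
  refine ⟨sub_eq_zero.1 (hp.map_zero' hF hc (fun x hx => ?_)), rfl⟩
  have := add_right_cancel (h x hx)
  simp [this]

omit [Fintype V] [DecidableEq V] in
lemma exists_dual {F : Finset V} (hF : AF F) (hc : F.card = d) (c : V → ℝ) :
    ∃ φ : Du d, ∀ x ∈ F, φ (p x) = c x := by
  let L : Du d →ₗ[ℝ] (F → ℝ) := LinearMap.pi (fun x => Dual.eval ℝ (E d) (p x))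
  have hinj : Function.Injective L := by
    rw [← LinearMap.ker_eq_bot, LinearMap.ker_eq_bot']
    intro φ hφ
    exact hp.gp1 F hF hc φ (fun x hx => congrFun hφ ⟨x, hx⟩)
  have hsurj := (LinearMap.injective_iff_surjective_of_finrank_eq_finrank
    (by simp [hc])).1 hinj
  obtain ⟨φ, hφ⟩ := hsurj (fun x => c x)
  exact ⟨φ, fun x hx => congrFun hφ ⟨x, hx⟩⟩

omit [Fintype V] in
lemma clique_triv {Q : Finset V} (hQ : AF Q) (hc : Q.card = d) {m : Mot V d}
    (h : ∀ x ∈ Q, ∀ y ∈ Q, x ≠ y → ell x y p m = 0) : m ∈ Triv p Q := by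
  obtain ⟨b, hb⟩ := hp.exists_dual hQ hc (fun x => m (cls x) (p x))
  choose φ hφ using fun x : V => hp.exists_dual hQ hc (fun y => if x = y then 1 else 0)
  let B : E d →ₗ[ℝ] Du d := ∑ x ∈ Q, (φ x).smulRight (m (cls x) - b)
  have hB : ∀ y ∈ Q, B (p y) = m (cls y) - b := by
    intro y hy
    simp only [B, LinearMap.sum_apply, LinearMap.smulRight_apply]
    rw [sum_congr rfl (fun x _ => by rw [hφ x y hy])]
    simp [hy]
  have hS : B + B.flip = 0 := by
    apply hp.map_zero' hQ hc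
    intro x hx
    apply hp.gp1 Q hQ hc
    intro y hy
    simp only [LinearMap.add_apply, LinearMap.flip_apply, hB x hx, hB y hy, LinearMap.sub_apply,
      hb x hx, hb y hy]
    by_cases hxy : x = y
    · subst hxy; ring
    · have := h x hx y hy hxy
      simp only [ell_apply, LinearMap.sub_apply, map_sub] at this
      linarith
  refine ⟨B, b, fun w => ?_, fun x hx => by rw [hB x hx]; abel⟩
  have := LinearMap.congr_fun (LinearMap.congr_fun hS w) w
  simp only [LinearMap.add_apply, LinearMap.flip_apply, LinearMap.zero_apply] at this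
  linarith

omit [Fintype V] [DecidableEq V] in
lemma extend {Q : Finset V} (hQ : AF Q) (hc : Q.card = d) {m : Mot V d} {B : E d →ₗ[ℝ] Du d}
    {b : Du d} (hB : Alt B) (hm : ∀ q ∈ Q, m (cls q) = B (p q) + b) {x : V} (hx : x ∉ Q)
    (hx' : -x ∉ Q) (h : ∀ q ∈ Q, ell x q p m = 0) : m (cls x) = B (p x) + b := by
  rw [← sub_eq_zero]
  apply hp.gp2 Q x hQ hc hx hx'
  intro q hq
  have h1 := h q hq
  have h2 := hB (p x - p q)
  simp only [ell_apply, hm q hq, LinearMap.sub_apply, LinearMap.add_apply, map_sub] at h1 h2 ⊢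
  linarith

omit [Fintype V] [DecidableEq V] in
lemma alt_zero {F : Finset V} (hF : AF F) (hc : F.card = d) {B : E d →ₗ[ℝ] Du d} (hB : Alt B)
    (y : V) (h : ∀ x ∈ F, x ≠ y → B (p x) = 0) : B = 0 := by
  apply hp.map_zero' hF hc
  intro x hx
  by_cases hxy : x = y
  · apply hp.gp1 F hF hc
    intro z hz
    by_cases hzy : z = y
    · rw [hxy, hzy]; exact hB _
    · rw [hB.skew, h z hz hzy]; simp
  · exact h x hx hxy

omit [Fintype V] [DecidableEq V] in
lemma dbl_pair {m : Mot V d} {x y : V} (h1 : ell x y p m = 0) (h2 : ell x (-y) p m = 0) :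
    m (cls x) (p y) = m (cls y) (p y) ∧ m (cls x) (p x) = m (cls y) (p x) := by
  simp only [ell_apply, cls_neg, hp.odd y, LinearMap.sub_apply, map_sub, map_neg] at h1 h2
  constructor <;> linarith

omit [Fintype V] [DecidableEq V] in
lemma dbl_const {F : Finset V} (hF : AF F) (hc : F.card = d) {m : Mot V d}
    (h : ∀ x ∈ F, ∀ y ∈ F, x ≠ y → ell x y p m = 0 ∧ ell x (-y) p m = 0) :
    ∀ x ∈ F, ∀ y ∈ F, m (cls x) = m (cls y) := by
  have key : ∀ x ∈ F, ∀ y ∈ F, m (cls x) (p y) = m (cls y) (p y) := by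
    intro x hx y hy
    by_cases hxy : x = y
    · rw [hxy]
    · exact (hp.dbl_pair (h x hx y hy hxy).1 (h x hx y hy hxy).2).1
  intro x hx y hy
  rw [← sub_eq_zero]
  apply hp.gp1 F hF hc
  intro z hz
  simp [key x hx z hz, key y hy z hz]

end Generic

omit [Fintype V] in
lemma kap_eq_of_kq {u v x y : V} (h1 : u ≠ v) (h2 : u ≠ -v) (h : kq {u, v} x y) :
    kap u v x = kap u v y := by
  have key : ∀ z ∈ ({u, v} : Finset V), kap u v z = u := by
    intro z hz
    rcases mem_insert.1 hz with rfl | hz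
    · exact kap_u h1 h2
    · rw [mem_singleton.1 hz, kap_v]
  rcases h.2 with h | h
  · rw [key x h.1, key y h.2]
  · apply neg_injective
    rw [← kap_neg, ← kap_neg, key _ h.1, key _ h.2]

noncomputable def evc (c : Cl V) : Mot V d →ₗ[ℝ] Du d := LinearMap.proj c

omit [Fintype V] [DecidableEq V] in
@[simp] lemma evc_apply (c : Cl V) (m : Mot V d) : evc c m = m c := rfl

noncomputable def K0 (p : V → E d) (G : V → V → Prop) (u v : V) : Submodule ℝ (Mot V d) :=
  K p G ⊓ LinearMap.ker (evc (cls u) - evc (cls v))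

omit [Fintype V] [DecidableEq V] in
lemma mem_K0 {p : V → E d} {G : V → V → Prop} {u v : V} {m : Mot V d} :
    m ∈ K0 p G u v ↔ m ∈ K p G ∧ m (cls u) = m (cls v) := by
  simp [K0, sub_eq_zero]

omit [DecidableEq V] in
lemma finrank_K_le_K0 (p : V → E d) (G : V → V → Prop) (u v : V) :
    finrank ℝ (K p G) ≤ finrank ℝ (K0 p G u v) + d := by
  have := finrank_le_inf_ker_add (K p G) (evc (cls u) - evc (cls v))
  rwa [finrank_Du] at this

omit [Fintype V] in
lemma mot_kap {m : Mot V d} {u v : V} (h : m (cls u) = m (cls v)) (x : V) :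
    m (cls (kap u v x)) = m (cls x) := by
  rcases kap_cases u v x with ⟨h0, h1⟩ | ⟨h0, h1⟩ | ⟨-, -, h1⟩ <;> rw [h1]
  · rw [h0, h]
  · rw [h0, cls_neg, cls_neg, h]

theorem lift_dim {p : V → E d} (hp : Generic p) {G G' : V → V → Prop} (hG : SG G) {u v : V}
    (huv : G u v) (hG' : ∀ a b, G' a b → a ≠ b ∧ ∃ x y, G x y ∧ kap u v x = a ∧ kap u v y = b)
    (hδ : ∃ δ : E d, ∀ φ : Du d, (∀ r, G u r → G v r → φ (p u - p r) = 0) → φ δ = 0 → φ = 0) :
    finrank ℝ (K p G) ≤ finrank ℝ (K0 p G' u v) := by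
  classical
  obtain ⟨δ, hδ⟩ := hδ
  have h1 := hG.ne huv
  have h2 := hG.ne_neg huv
  let p' : V → E d := fun x => p (kap u v x)
  let δ' : V → E d := fun x => if x = v then δ else if x = -v then -δ else 0
  have hp' : OddF p' := fun x => by simp only [p', kap_neg, hp.odd (kap u v x)]
  have hδ' : OddF δ' := by
    intro x
    by_cases e1 : x = v
    · subst e1; simp [δ', neg_ne']
    by_cases e2 : x = -v
    · subst e2; simp [δ', neg_ne']
    have e3 : -x ≠ v := fun h => e2 (by rw [← h, neg_neg])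
    simp [δ', e1, e2, e3]
  let f : {e : V × V // G e.1 e.2} → Dual ℝ (Mot V d) := fun e =>
    if kq {u, v} e.1.1 e.1.2 then ell e.1.1 e.1.2 δ' else ell e.1.1 e.1.2 p'
  let g : {e : V × V // G e.1 e.2} → Dual ℝ (Mot V d) := fun e =>
    if kq {u, v} e.1.1 e.1.2 then 0 else ell e.1.1 e.1.2 δ'
  obtain ⟨s, hs⟩ := ((pencil_Z f g).union (Set.finite_singleton 0)).exists_notMem
  simp only [Set.mem_union, Set.mem_ofPred_eq, Set.mem_singleton_iff, not_or, not_lt] at hs
  have e1 := hp.min G (p' + s • δ') (hp'.add_smul hδ' s)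
  have e2 : K (p' + s • δ') G ≤ Z (f + s • g) := by
    intro m hm
    rw [mem_K] at hm
    rw [mem_Z]
    rintro ⟨⟨x, y⟩, hxy⟩
    have := hm x y hxy
    simp only [map_add, map_smul, LinearMap.add_apply, LinearMap.smul_apply, smul_eq_mul] at this
    by_cases hk : kq {u, v} x y
    · have h0 : ell x y p' m = 0 := by
        simp only [ell_apply, p', kap_eq_of_kq h1 h2 hk, sub_self, map_zero]
      rw [h0, zero_add] at this
      simpa [f, g, hk, hs.2] using this
    · simpa [f, g, hk] using this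
  have e3 : Z f ≤ K0 p G' u v := by
    intro m hm
    rw [mem_Z] at hm
    have hm1 : ∀ x y, G x y → ¬ kq {u, v} x y → ell x y p' m = 0 := by
      intro x y hxy hk
      simpa [f, hk] using hm ⟨(x, y), hxy⟩
    have hmuv : m (cls u) = m (cls v) := by
      rw [← sub_eq_zero]
      apply hδ
      · intro r hur hvr
        have hr : ∀ x, ¬ kq {u, v} x r := by
          rintro x ⟨-, h | h⟩
          · rcases mem_insert.1 h.2 with h | h
            · exact hG.ne hur h.symm
            · exact hG.ne hvr (mem_singleton.1 h).symm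
          · rcases mem_insert.1 h.2 with h | h
            · exact hG.ne_neg hur h.symm
            · exact hG.ne_neg hvr (mem_singleton.1 h).symm
        have hkr : kap u v r = r :=
          kap_of_ne (hG.ne hvr).symm (fun h => hG.ne_neg hvr (by rw [h, neg_neg]))
        have a1 := hm1 u r hur (hr u)
        have a2 := hm1 v r hvr (hr v)
        simp only [ell_apply, p', hkr, kap_v, kap_u h1 h2, LinearMap.sub_apply] at a1 a2 ⊢
        linarith
      · have hk : kq {u, v} u v := ⟨h1, Or.inl ⟨by simp, by simp⟩⟩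
        have := hm ⟨(u, v), huv⟩
        simp only [f, hk, if_true, ell_apply, δ', h1, h2, if_false, zero_sub, map_neg,
          neg_eq_zero] at this
        exact this
    rw [mem_K0, mem_K]
    refine ⟨?_, hmuv⟩
    intro a b hab
    obtain ⟨hne, x, y, hxy, rfl, rfl⟩ := hG' a b hab
    have := hm1 x y hxy (fun hk => hne (kap_eq_of_kq h1 h2 hk))
    rw [ell_apply, mot_kap hmuv, mot_kap hmuv]
    exact this
  exact e1.trans ((Submodule.finrank_mono e2).trans (hs.1.trans (Submodule.finrank_mono e3)))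

theorem finrank_map_le_of_ker {A C : Type} [AddCommGroup A] [Module ℝ A] [AddCommGroup C]
    [Module ℝ C] [FiniteDimensional ℝ C] (S : Submodule ℝ C) (f g : C →ₗ[ℝ] A)
    (h : ∀ t ∈ S, g t = 0 → f t = 0) : finrank ℝ (S.map f) ≤ finrank ℝ (S.map g) := by
  have := finrank_range_le_of_ker_le (f ∘ₗ S.subtype) (g ∘ₗ S.subtype) (fun t ht => h t t.2 ht)
  rwa [LinearMap.range_comp, LinearMap.range_comp, Submodule.range_subtype] at this

theorem K0_le_triv {p : V → E d} (hp : Generic p) {G' : V → V → Prop} {W W' : Finset V} {u v : V}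
    (h1 : u ≠ v) (h2 : u ≠ -v) (hK : K p G' ≤ Triv p W') (hW : ∀ x ∈ W, kap u v x ∈ W')
    (hc : -v ∉ W ∨ Big d W) : finrank ℝ (K0 p G' u v) ≤ finrank ℝ (Triv p W) := by
  rcases hc with hc | ⟨F, hF, hFc, hFW⟩
  · let 𝒢 : Submodule ℝ (Mot V d × (E d →ₗ[ℝ] Du d) × Du d) :=
      { carrier := {t | Alt t.2.1 ∧ ∀ x ∈ W', t.1 (cls x) = t.2.1 (p x) + t.2.2}
        add_mem' := by
          rintro ⟨m, B, b⟩ ⟨m', B', b'⟩ ⟨h1, h2⟩ ⟨h1', h2'⟩
          refine ⟨fun w => by simpa using by rw [h1 w, h1' w, add_zero], fun x hx => ?_⟩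
          have e1 := h2 x hx
          have e2 := h2' x hx
          simp only [Prod.mk_add_mk, Pi.add_apply, LinearMap.add_apply] at e1 e2 ⊢
          rw [e1, e2]; abel
        zero_mem' := ⟨fun w => by simp, fun x _ => by simp⟩
        smul_mem' := by
          rintro c ⟨m, B, b⟩ ⟨h1, h2⟩
          refine ⟨fun w => by simpa using Or.inr (h1 w), fun x hx => ?_⟩
          have e1 := h2 x hx
          simp only [Prod.smul_mk, Pi.smul_apply, LinearMap.smul_apply] at e1 ⊢
          rw [e1, smul_add] }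
    let π1 : (Mot V d × (E d →ₗ[ℝ] Du d) × Du d) →ₗ[ℝ] Mot V d :=
      LinearMap.pi (fun c => if c = cls v then LinearMap.proj (cls u) ∘ₗ LinearMap.fst ℝ _ _
        else LinearMap.proj c ∘ₗ LinearMap.fst ℝ _ _)
    let π2 : (Mot V d × (E d →ₗ[ℝ] Du d) × Du d) →ₗ[ℝ] Mot V d :=
      LinearMap.pi (fun c => if c = cls v then
        (LinearMap.applyₗ (p v) ∘ₗ LinearMap.fst ℝ _ _ + LinearMap.snd ℝ _ _) ∘ₗ LinearMap.snd ℝ _ _
        else LinearMap.proj c ∘ₗ LinearMap.fst ℝ _ _)
    have hπ1 : ∀ t c, π1 t c = if c = cls v then t.1 (cls u) else t.1 c := by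
      intro t c; simp only [π1, LinearMap.pi_apply]; split_ifs <;> rfl
    have hπ2 : ∀ t c, π2 t c = if c = cls v then t.2.1 (p v) + t.2.2 else t.1 c := by
      intro t c; simp only [π2, LinearMap.pi_apply]; split_ifs <;> rfl
    have huv : cls u ≠ cls v := fun h => (cls_eq.1 h).elim h1 h2
    have e1 : K0 p G' u v ≤ 𝒢.map π1 := by
      intro m hm
      rw [mem_K0] at hm
      obtain ⟨B, b, hB, hm'⟩ := hK hm.1
      refine ⟨(m, B, b), ⟨hB, hm'⟩, ?_⟩
      funext c
      rw [hπ1]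
      split_ifs with h
      · rw [h]; exact hm.2
      · rfl
    have e2 : 𝒢.map π2 ≤ Triv p W := by
      rintro _ ⟨⟨m, B, b⟩, ⟨hB, hm⟩, rfl⟩
      refine ⟨B, b, hB, fun x hx => ?_⟩
      rw [hπ2]
      have hxv : x ≠ -v := fun h => hc (h ▸ hx)
      split_ifs with h
      · rw [(cls_eq.1 h).resolve_right hxv]
      · have := hW x hx
        rw [kap_of_ne (fun h' => h (by rw [h'])) hxv] at this
        exact hm x this
    have e3 : ∀ t ∈ 𝒢, π2 t = 0 → π1 t = 0 := by
      intro t _ ht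
      have key : ∀ c, c ≠ cls v → t.1 c = 0 := by
        intro c hc
        have := congrFun ht c
        rw [hπ2, if_neg hc] at this
        exact this
      funext c
      rw [hπ1]
      split_ifs with h
      · exact key _ huv
      · exact key _ h
    have e4 := finrank_map_le_of_ker (A := Mot V d) (C := Mot V d × (E d →ₗ[ℝ] Du d) × Du d)
      𝒢 π1 π2 e3
    exact (Submodule.finrank_mono e1).trans (e4.trans (Submodule.finrank_mono e2))
  · apply Submodule.finrank_mono
    intro m hm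
    rw [mem_K0] at hm
    obtain ⟨B, b, hB, hm'⟩ := hK hm.1
    have hB0 : B = 0 := by
      apply hp.alt_zero hF hFc hB (if v ∈ F then v else -v)
      intro x hx hxy
      have hx1 : x ≠ v := by
        rintro rfl; simp [hx] at hxy
      have hx2 : x ≠ -v := by
        rintro rfl
        have : v ∉ F := fun h => hF v h hx
        simp [this] at hxy
      have a1 := hW x (hFW x hx).1
      have a2 := hW _ (hFW x hx).2
      rw [kap_neg] at a2
      rw [kap_of_ne hx1 hx2] at a1 a2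
      have b1 := hm' _ a1
      have b2 := hm' _ a2
      rw [cls_neg, hp.odd, map_neg, b1, add_left_inj] at b2
      have : (2 : ℝ) • B (p x) = 0 := by rw [two_smul]; nth_rewrite 1 [b2]; abel
      simpa using this
    refine ⟨0, b, fun w => by simp, fun x hx => ?_⟩
    rw [← mot_kap hm.2, hm' _ (hW x hx), hB0]
    simp

lemma gr_ctr {X : Finset (Finset V)} (hX : Good d X) (hc : Cyc X) {u v : V} (h1 : u ≠ v)
    (h2 : u ≠ -v) (a b : V) :
    gr (ctr u v X) a b ↔ a ≠ b ∧ ∃ x y, gr X x y ∧ kap u v x = a ∧ kap u v y = b := by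
  constructor
  · rintro ⟨F', hF', hab, h⟩
    obtain ⟨F, hF, rfl⟩ := mem_image.1 hF'
    refine ⟨hab, ?_⟩
    rcases h with h | h
    · obtain ⟨x, hx, rfl⟩ := mem_image.1 h.1
      obtain ⟨y, hy, rfl⟩ := mem_image.1 h.2
      exact ⟨x, y, ⟨F, (mem_nd.1 hF).1, fun h => hab (by rw [h]), Or.inl ⟨hx, hy⟩⟩, rfl, rfl⟩
    · obtain ⟨x, hx, ex⟩ := mem_image.1 h.1
      obtain ⟨y, hy, ey⟩ := mem_image.1 h.2
      refine ⟨-x, -y, ⟨F, (mem_nd.1 hF).1, ?_, Or.inr (by simp [hx, hy])⟩,
        by rw [kap_neg, ex, neg_neg], by rw [kap_neg, ey, neg_neg]⟩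
      intro h
      apply hab
      apply neg_injective
      rw [← ex, ← ey, neg_injective h]
  · have key : ∀ D ∈ X, ∀ x ∈ D, ∀ y ∈ D, kap u v x ≠ kap u v y →
        ∃ F' ∈ ctr u v X, kap u v x ∈ F' ∧ kap u v y ∈ F' := by
      intro D hD x hx y hy hne
      rcases pair_nd hX hc hD h1 hx hy with ⟨F, hF, h⟩ | h | h | h | h
      · exact ⟨_, mem_image_of_mem _ hF, mem_image_of_mem _ h.1, mem_image_of_mem _ h.2⟩
      all_goals
        exfalso; apply hne
        simp [h.1, h.2, kap_neg, kap_u h1 h2]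
    rintro ⟨hab, x, y, ⟨D, hD, -, h | h⟩, rfl, rfl⟩
    · obtain ⟨F', hF', h'⟩ := key D hD x h.1 y h.2 hab
      exact ⟨F', hF', hab, Or.inl h'⟩
    · obtain ⟨F', hF', h'⟩ := key D hD _ h.1 _ h.2 (by simpa [kap_neg] using hab)
      exact ⟨F', hF', hab, Or.inr (by simpa [kap_neg] using h')⟩

lemma kap_mem_vs_ctr {X : Finset (Finset V)} (hX : Good d X) (hc : Cyc X) {u v : V} (h1 : u ≠ v) :
    ∀ x ∈ vs X, kap u v x ∈ vs (ctr u v X) := by
  intro x hx
  rw [← vs_nd hX hc h1] at hx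
  obtain ⟨F, hF, hx⟩ := mem_vs.1 hx
  exact mem_vs.2 ⟨_, mem_image_of_mem _ hF, mem_image_of_mem _ hx⟩

omit [Fintype V] [FreeNeg V] in
lemma card_erase_erase {D : Finset V} {u v : V} (h : u ≠ v) (hu : u ∈ D) (hv : v ∈ D) :
    ((D.erase u).erase v).card + 2 = D.card := by
  rw [← card_erase_add_one hu, ← card_erase_add_one (mem_erase.2 ⟨h.symm, hv⟩)]

lemma exists_delta {p : V → E d} (hp : Generic p) (hd : 3 ≤ d) {X : Finset (Finset V)}
    (hX : Good d X) (hc : Cyc X) {u v : V} (h1 : u ≠ v) {D : Finset V} (hD : D ∈ X) (hu : u ∈ D)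
    (hv : v ∈ D) : ∃ δ : E d, ∀ φ : Du d,
      (∀ r, gr X u r → gr X v r → φ (p u - p r) = 0) → φ δ = 0 → φ = 0 := by
  have hcard := card_erase_erase h1 hu hv
  rw [hX.card D hD] at hcard
  obtain ⟨r, hr⟩ : ((D.erase u).erase v).Nonempty := card_pos.1 (by omega)
  simp only [mem_erase] at hr
  obtain ⟨z, hz, hD'⟩ := hc.other hD hr.2.2
  have huD' : u ∈ insert z (D.erase r) := mem_insert_of_mem (mem_erase.2 ⟨Ne.symm hr.2.1, hu⟩)
  have hvD' : v ∈ insert z (D.erase r) := mem_insert_of_mem (mem_erase.2 ⟨Ne.symm hr.1, hv⟩)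
  have hzu : u ≠ z := fun h => hz (h ▸ hu)
  have hzv : v ≠ z := fun h => hz (h ▸ hv)
  have key : ∀ φ : Du d, (∀ r, gr X u r → gr X v r → φ (p u - p r) = 0) →
      φ (p z) = φ (p u) ∧ ∀ x ∈ D, x ≠ v → φ (p x) = φ (p u) := by
    intro φ hφ
    refine ⟨?_, fun x hx hxv => ?_⟩
    · have := hφ z (clique_gr hD' _ huD' _ (mem_insert_self _ _) hzu)
        (clique_gr hD' _ hvD' _ (mem_insert_self _ _) hzv)
      rw [map_sub] at this; linarith
    · by_cases hxu : x = u
      · rw [hxu]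
      have := hφ x (clique_gr hD _ hu _ hx (Ne.symm hxu)) (clique_gr hD _ hv _ hx (Ne.symm hxv))
      rw [map_sub] at this; linarith
  by_cases hzr : z = -r
  · refine ⟨p v, fun φ hφ hδ => ?_⟩
    obtain ⟨k1, k2⟩ := key φ hφ
    have k3 := k2 r hr.2.2 hr.1
    rw [hzr, hp.odd, map_neg] at k1
    apply hp.gp1 D (hX.af D hD) (hX.card D hD)
    intro x hx
    by_cases hxv : x = v
    · rw [hxv, hδ]
    · rw [k2 x hx hxv]; linarith
  · refine ⟨p u, fun φ hφ hδ => ?_⟩
    obtain ⟨k1, k2⟩ := key φ hφ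
    apply hp.gp1 (insert z (D.erase v))
    · apply ((hX.af D hD).mono (erase_subset _ _)).insert
      intro h
      apply hX.af _ hD' z (mem_insert_self _ _)
      refine mem_insert_of_mem (mem_erase.2 ⟨?_, mem_of_mem_erase h⟩)
      intro h'; apply hzr; rw [← h', neg_neg]
    · rw [card_insert_of_notMem (fun h => hz (mem_of_mem_erase h)), card_erase_add_one hv,
        hX.card D hD]
    · intro x hx
      rcases mem_insert.1 hx with rfl | hx
      · rw [k1, hδ]
      · rw [k2 x (mem_of_mem_erase hx) (ne_of_mem_erase hx), hδ]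

/-- the dimension comparison in the lifting step -/
theorem lift_chain {p : V → E d} (hp : Generic p) (hd : 3 ≤ d) {X : Finset (Finset V)}
    (hX : Circ d X) {u v : V} (h1 : u ≠ v) (hD : ∃ D ∈ X, u ∈ D ∧ v ∈ D)
    (hc : -v ∉ vs X ∨ Big d (vs X)) (hK : K p (gr (ctr u v X)) ≤ Triv p (vs (ctr u v X))) :
    finrank ℝ (K p (gr X)) ≤ finrank ℝ (K0 p (gr (ctr u v X)) u v) ∧
      finrank ℝ (K0 p (gr (ctr u v X)) u v) ≤ finrank ℝ (Triv p (vs X)) := by
  obtain ⟨D, hD, hu, hv⟩ := hD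
  have h2 : u ≠ -v := fun h => hX.af D hD v hv (h ▸ hu)
  exact ⟨lift_dim hp (sg_gr hX.af) (clique_gr hD _ hu _ hv h1)
    (fun a b => (gr_ctr hX.toGood hX.cyc h1 h2 a b).1)
    (exists_delta hp hd hX.toGood hX.cyc h1 hD hu hv),
    K0_le_triv hp h1 h2 hK (kap_mem_vs_ctr hX.toGood hX.cyc h1) hc⟩

omit [Fintype V] in
lemma simplex_triv {p : V → E d} (hp : Generic p) {σ : Finset V} (hσ : AF σ)
    (hc : σ.card = d + 1) : K p (kq σ) ≤ Triv p σ := by
  intro m hm
  rw [mem_K] at hm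
  obtain ⟨x, hx⟩ : σ.Nonempty := card_pos.1 (by omega)
  have hQ : AF (σ.erase x) := hσ.mono (erase_subset _ _)
  have hQc : (σ.erase x).card = d := by rw [card_erase_of_mem hx]; omega
  obtain ⟨B, b, hB, hm'⟩ := hp.clique_triv hQ hQc (m := m) (fun a ha b hb hab =>
    hm a b (clique_kq σ a (mem_of_mem_erase ha) b (mem_of_mem_erase hb) hab))
  refine ⟨B, b, hB, fun y hy => ?_⟩
  by_cases hyx : y = x
  · subst hyx
    exact hp.extend hQ hQc hB hm' (notMem_erase _ _) (fun h => hσ y hy (mem_of_mem_erase h))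
      (fun q hq => hm y q (clique_kq σ y hy q (mem_of_mem_erase hq) (ne_of_mem_erase hq).symm))
  · exact hm' y (mem_erase.2 ⟨hyx, hy⟩)

theorem rigid {p : V → E d} (hp : Generic p) (hd : 3 ≤ d) :
    ∀ T, Circ d T → K p (gr T) ≤ Triv p (vs T) := by
  apply circuit_ind (P := fun G W => K p G ≤ Triv p W)
  · intro G W G' W' D hG _ h h' hc hDW hDW' hD _ m hm
    obtain ⟨B, b, hB, hm1⟩ := h (K_anti le_sup_left hm)
    obtain ⟨B', b', hB', hm2⟩ := h' (K_anti le_sup_right hm)
    obtain ⟨rfl, rfl⟩ := hp.uniq (hD.af hG) hc hB hB'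
      (fun x hx => (hm1 x (hDW hx)).symm.trans (hm2 x (hDW' hx)))
    exact ⟨B, b, hB, fun x hx => (mem_union.1 hx).elim (hm1 x) (hm2 x)⟩
  · intro T hT hdbl m hm
    rw [mem_K] at hm
    have hconst : ∀ F ∈ T, ∀ x ∈ F, ∀ y ∈ F, m (cls x) = m (cls y) := by
      intro F hF
      apply hp.dbl_const (hT.af F hF) (hT.card F hF)
      intro x hx y hy hxy
      exact ⟨hm _ _ (clique_gr hF x hx y hy hxy), hm _ _ (hdbl _ _ (clique_gr hF x hx y hy hxy))⟩
    obtain ⟨F0, hF0⟩ := hT.nonempty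
    obtain ⟨x0, hx0⟩ : F0.Nonempty := card_pos.1 (by rw [hT.card F0 hF0]; omega)
    have := hT.conn (fun F => ∀ x ∈ F, m (cls x) = m (cls x0))
      ⟨F0, hF0, fun x hx => hconst F0 hF0 x hx x0 hx0⟩ (by
        intro R z z' hz _ h1 h2 h3 x hx
        have hc := hT.card _ h1
        rw [card_insert_of_notMem hz] at hc
        obtain ⟨r, hr⟩ : R.Nonempty := card_pos.1 (by omega)
        rw [hconst _ h2 x hx r (mem_insert_of_mem hr), h3 r (mem_insert_of_mem hr)])
    refine ⟨0, m (cls x0), fun w => by simp, fun x hx => ?_⟩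
    obtain ⟨F, hF, hx⟩ := mem_vs.1 hx
    simp [this F hF x hx]
  · intro σ hσ hc
    exact simplex_triv hp hσ hc
  · intro X u v hX h1 hD _ _ hc hK
    have := lift_chain hp hd hX h1 hD hc hK
    exact (Submodule.eq_of_le_of_finrank_le (triv_le_K hp.odd (gr_le_kq_vs X))
      (this.1.trans this.2)).ge

end Pool.Agent.MP_d539bc_co

end

section

/-! Edge counts and independence. -/

namespace Pool.Agent.MP_d539bc_co

open Finset Module
open scoped Pointwise

variable {V : Type} [Fintype V] [DecidableEq V] [FreeNeg V] {d : ℕ}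

open Classical in
noncomputable def ec (G : V → V → Prop) : ℕ := (univ.filter (fun e : V × V => G e.1 e.2)).card

def rem (G : V → V → Prop) (x y : V) (a b : V) : Prop := G a b ∧ ¬ kq {x, y} a b

omit [Fintype V] in
lemma af_pair {x y : V} (h : x ≠ -y) : AF ({x, y} : Finset V) := by
  intro z hz hz'
  simp only [mem_insert, mem_singleton] at hz hz'
  rcases hz with rfl | rfl <;> rcases hz' with h' | h'
  · exact neg_ne' _ h'
  · exact h (by rw [← h', neg_neg])
  · exact h h'.symm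
  · exact neg_ne' _ h'

omit [Fintype V] in
lemma kq_pair_iff {x y a b : V} (hxy : x ≠ y) : kq {x, y} a b ↔
    (a = x ∧ b = y) ∨ (a = y ∧ b = x) ∨ (a = -x ∧ b = -y) ∨ (a = -y ∧ b = -x) := by
  simp only [kq, mem_insert, mem_singleton, neg_eq_iff_eq_neg]
  constructor
  · rintro ⟨hab, ⟨rfl | rfl, rfl | rfl⟩ | ⟨rfl | rfl, rfl | rfl⟩⟩ <;> simp at hab ⊢
  · rintro (⟨rfl, rfl⟩ | ⟨rfl, rfl⟩ | ⟨rfl, rfl⟩ | ⟨rfl, rfl⟩) <;> simp [hxy, hxy.symm]

omit [Fintype V] in
lemma SG.rem {G : V → V → Prop} (hG : SG G) {x y : V} (h : x ≠ -y) : SG (rem G x y) where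
  symm := fun h' => ⟨hG.symm h'.1, fun h'' => h'.2 ((sg_kq (af_pair h)).symm h'')⟩
  neg := fun h' => ⟨hG.neg h'.1, fun h'' => h'.2 ((sg_kq (af_pair h)).neg' h'')⟩
  ne := fun h' => hG.ne h'.1
  ne_neg := fun h' => hG.ne_neg h'.1

omit [Fintype V] in
lemma rem_le (G : V → V → Prop) (x y : V) : rem G x y ≤ G := fun _ _ h => h.1

omit [Fintype V] in
lemma le_rem {G H : V → V → Prop} (hH : SG H) (hle : H ≤ G) {x y : V} (hxy : x ≠ y)
    (h : ¬ H x y) : H ≤ rem G x y := by
  intro a b hab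
  refine ⟨hle a b hab, fun hk => h ?_⟩
  rcases (kq_pair_iff hxy).1 hk with ⟨rfl, rfl⟩ | ⟨rfl, rfl⟩ | ⟨rfl, rfl⟩ | ⟨rfl, rfl⟩
  · exact hab
  · exact hH.symm hab
  · exact hH.neg' hab
  · exact hH.symm (hH.neg' hab)

lemma ec_rem {G : V → V → Prop} (hG : SG G) {x y : V} (h : G x y) :
    ec (rem G x y) + 4 = ec G := by
  classical
  have h1 := hG.ne h
  have h2 := hG.ne_neg h
  have h3 : y ≠ -x := fun e => h2 (by rw [e, neg_neg])
  have hc : ({(x, y), (y, x), (-x, -y), (-y, -x)} : Finset (V × V)).card = 4 := by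
    rw [card_insert_of_notMem, card_insert_of_notMem, card_pair]
    · simp [h1]
    · simp [h3, ne_neg' y]
    · simp [h1, h2, ne_neg' x]
  rw [← hc, ec, ec, ← card_union_of_disjoint]
  · congr 1
    ext ⟨a, b⟩
    simp only [mem_union, mem_filter, mem_univ, true_and, rem, kq_pair_iff h1, mem_insert,
      mem_singleton, Prod.mk.injEq]
    constructor
    · rintro (h' | ⟨rfl, rfl⟩ | ⟨rfl, rfl⟩ | ⟨rfl, rfl⟩ | ⟨rfl, rfl⟩)
      · exact h'.1
      · exact h
      · exact hG.symm h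
      · exact hG.neg h
      · exact hG.symm (hG.neg h)
    · intro h'; tauto
  · rw [disjoint_left]
    rintro ⟨a, b⟩ h' h''
    simp only [mem_filter, mem_univ, true_and, rem, kq_pair_iff h1, mem_insert,
      mem_singleton, Prod.mk.injEq] at h' h''
    exact h'.2 h''

omit [Fintype V] in
lemma mem_K_of_rem {p : V → E d} (hp : OddF p) {G : V → V → Prop} {x y : V} (hxy : x ≠ y)
    {m : Mot V d} (hm : m ∈ K p (rem G x y)) (h : ell x y p m = 0) : m ∈ K p G := by
  rw [mem_K] at hm ⊢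
  intro a b hab
  by_cases hk : kq {x, y} a b
  · rcases (kq_pair_iff hxy).1 hk with ⟨rfl, rfl⟩ | ⟨rfl, rfl⟩ | ⟨rfl, rfl⟩ | ⟨rfl, rfl⟩
    · exact h
    · rw [ell_symm, h]
    · rw [ell_neg hp, h, neg_zero]
    · rw [ell_neg hp, ell_symm, h, neg_zero]
  · exact hm a b ⟨hab, hk⟩

lemma finrank_K_rem {p : V → E d} (hp : OddF p) (G : V → V → Prop) {x y : V} (hxy : x ≠ y) :
    finrank ℝ (K p (rem G x y)) ≤ finrank ℝ (K p G) + 1 := by
  have h1 := finrank_le_inf_ker_add (K p (rem G x y)) (ell x y p)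
  have h2 : K p (rem G x y) ⊓ LinearMap.ker (ell x y p) ≤ K p G :=
    fun m hm => mem_K_of_rem hp hxy hm.1 hm.2
  have h3 := Submodule.finrank_mono h2
  rw [finrank_self] at h1
  omega

noncomputable def phi (p : V → E d) (G : V → V → Prop) : ℕ := 4 * finrank ℝ (K p G) + ec G

lemma phi_mono {p : V → E d} (hp : OddF p) {G' : V → V → Prop} (hG' : SG G') :
    ∀ n, ∀ G : V → V → Prop, ec G = n → SG G → G' ≤ G → phi p G' ≤ phi p G := by
  intro n
  induction n using Nat.strong_induction_on with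
  | _ n ih =>
    intro G hn hG hle
    by_cases h : G ≤ G'
    · rw [le_antisymm hle h]
    obtain ⟨x, y, hxy, hxy'⟩ : ∃ x y, G x y ∧ ¬ G' x y := by
      by_contra hcon
      push Not at hcon
      exact h hcon
    have e1 := ec_rem hG hxy
    have e2 := finrank_K_rem hp G (hG.ne hxy)
    have e3 := ih _ (by omega) (rem G x y) rfl (hG.rem (hG.ne_neg hxy))
      (le_rem hG' hle (hG.ne hxy) hxy')
    unfold phi at *
    omega

omit [Fintype V] [DecidableEq V] in
lemma sg_bot : SG (⊥ : V → V → Prop) := ⟨fun h => h, fun h => h, fun h => h.elim, fun h => h.elim⟩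

omit [DecidableEq V] in
lemma phi_bot (p : V → E d) : phi p ⊥ = 4 * finrank ℝ (Mot V d) := by
  have h1 : K p ⊥ = ⊤ := eq_top_iff.2 (fun m _ => mem_K.2 (fun _ _ h => h.elim))
  have h2 : ec (⊥ : V → V → Prop) = 0 := by simp [ec]
  rw [phi, h1, h2, finrank_top, add_zero]

lemma phi_ge {p : V → E d} (hp : OddF p) {G : V → V → Prop} (hG : SG G) :
    phi p ⊥ ≤ phi p G := phi_mono hp sg_bot _ G rfl hG bot_le

def Ind (p : V → E d) (G : V → V → Prop) : Prop :=
  ∀ x y, G x y → ∃ m ∈ K p (rem G x y), ell x y p m ≠ 0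

omit [Fintype V] in
lemma Ind.mono {p : V → E d} {G G' : V → V → Prop} (h : Ind p G) (hle : G' ≤ G) : Ind p G' := by
  intro x y hxy
  obtain ⟨m, hm, h1⟩ := h x y (hle x y hxy)
  exact ⟨m, K_anti (fun a b hab => ⟨hle a b hab.1, hab.2⟩) hm, h1⟩

omit [Fintype V] in
lemma Ind.present {p : V → E d} {G H : V → V → Prop} (h : Ind p G) (hH : SG H) (hle : H ≤ G)
    {x y : V} (hxy : G x y) (hne : x ≠ y) (himp : ∀ m ∈ K p H, ell x y p m = 0) : H x y := by
  by_contra hcon
  obtain ⟨m, hm, h1⟩ := h x y hxy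
  exact h1 (himp m (K_anti (le_rem hH hle hne hcon) hm))

lemma Ind.phi_le {p : V → E d} :
    ∀ n, ∀ G : V → V → Prop, ec G = n → SG G → Ind p G → phi p G ≤ phi p ⊥ := by
  intro n
  induction n using Nat.strong_induction_on with
  | _ n ih =>
    intro G hn hG hI
    by_cases h : G ≤ ⊥
    · rw [le_bot_iff.1 h]
    obtain ⟨x, y, hxy⟩ : ∃ x y, G x y := by
      by_contra hcon
      push Not at hcon
      exact h hcon
    have e1 := ec_rem hG hxy
    have e3 := ih _ (by omega) (rem G x y) rfl (hG.rem (hG.ne_neg hxy)) (hI.mono (rem_le G x y))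
    have e2 : finrank ℝ (K p G) < finrank ℝ (K p (rem G x y)) := by
      apply Submodule.finrank_lt_finrank_of_lt
      obtain ⟨m, hm, h1⟩ := hI x y hxy
      exact lt_of_le_of_ne (K_anti (rem_le G x y))
        (fun e => h1 (mem_K.1 (e ▸ hm : m ∈ K p G) x y hxy))
    unfold phi at *
    omega

lemma ind_of_phi_le {p : V → E d} (hp : OddF p) {G : V → V → Prop} (hG : SG G)
    (h : phi p G ≤ phi p ⊥) : Ind p G := by
  intro x y hxy
  by_contra hcon
  push Not at hcon
  have e1 := ec_rem hG hxy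
  have e2 : K p (rem G x y) ≤ K p G := fun m hm => mem_K_of_rem hp (hG.ne hxy) hm (hcon m hm)
  have e3 := Submodule.finrank_mono e2
  have e4 := phi_ge hp (hG.rem (hG.ne_neg hxy))
  unfold phi at *
  omega

lemma ec_star {G : V → V → Prop} (hG : SG G) (v : V) (N : Finset V) (hN : ∀ r ∈ N, G v r) :
    SG (fun a b => G a b ∧ ∀ r ∈ N, ¬ kq {v, r} a b) ∧
      ec (fun a b => G a b ∧ ∀ r ∈ N, ¬ kq {v, r} a b) + 4 * N.card = ec G := by
  induction N using Finset.induction_on with
  | empty => simpa using hG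
  | insert s N hs ih =>
    obtain ⟨h1, h2⟩ := ih (fun r hr => hN r (mem_insert_of_mem hr))
    have hvs := hN s (mem_insert_self _ _)
    have e : (fun a b => G a b ∧ ∀ r ∈ insert s N, ¬ kq {v, r} a b)
        = rem (fun a b => G a b ∧ ∀ r ∈ N, ¬ kq {v, r} a b) v s := by
      funext a b
      simp only [rem, forall_mem_insert]
      apply propext; tauto
    rw [e, card_insert_of_notMem hs]
    refine ⟨h1.rem (hG.ne_neg hvs), ?_⟩
    have := ec_rem h1 (x := v) (y := s) ⟨hvs, fun r hr hk => by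
      have hvr := hN r (mem_insert_of_mem hr)
      rcases (kq_pair_iff (hG.ne hvr)).1 hk with h | h | h | h
      · exact hs (h.2 ▸ hr)
      · exact hG.ne hvr h.1
      · exact ne_neg' _ h.1
      · exact hG.ne_neg hvr h.1⟩
    omega

lemma ec_contr {G G' : V → V → Prop} (hG : SG G) {u v : V} (huv : G u v)
    (hG' : ∀ a b, G' a b → a ≠ b ∧ ∃ x y, G x y ∧ kap u v x = a ∧ kap u v y = b)
    (R : Finset V) (hR : ∀ r ∈ R, G u r ∧ G v r) : ec G' + 4 + 4 * R.card ≤ ec G := by
  classical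
  have h1 := hG.ne huv
  have h2 := hG.ne_neg huv
  have huR : u ∉ R := fun h => hG.ne (hR u h).1 rfl
  obtain ⟨hs, hc⟩ := ec_star hG v (insert u R) (by
    intro r hr
    rcases mem_insert.1 hr with rfl | hr
    · exact hG.symm huv
    · exact (hR r hr).2)
  rw [card_insert_of_notMem huR] at hc
  set H : V → V → Prop := fun a b => G a b ∧ ∀ r ∈ insert u R, ¬ kq {v, r} a b with hH
  have hur : ∀ r ∈ R, H u r ∧ kap u v r = r := by
    intro r hr
    have hur := (hR r hr).1
    have hvr := (hR r hr).2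
    refine ⟨⟨hur, fun r' hr' hk => ?_⟩,
      kap_of_ne (hG.ne hvr).symm (fun h => hG.ne_neg hvr (by rw [h, neg_neg]))⟩
    have hne : v ≠ r' := by
      rcases mem_insert.1 hr' with rfl | hr'
      · exact h1.symm
      · exact hG.ne (hR r' hr').2
    rcases (kq_pair_iff hne).1 hk with h | h | h | h
    · exact h1 h.1
    · exact hG.ne hvr h.2.symm
    · exact h2 h.1
    · exact hG.ne_neg hvr (by rw [h.2, neg_neg])
  have : ec G' ≤ ec H := by
    apply card_le_card_of_surjOn (fun e : V × V => (kap u v e.1, kap u v e.2))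
    rintro ⟨a, b⟩ hab
    simp only [coe_filter, mem_univ, true_and, Set.mem_ofPred_eq] at hab
    obtain ⟨hne, x, y, hxy, rfl, rfl⟩ := hG' a b hab
    simp only [Set.mem_image, coe_filter, mem_univ, true_and, Set.mem_ofPred_eq, Prod.mk.injEq,
      Prod.exists]
    by_cases hk0 : H x y
    · exact ⟨x, y, hk0, rfl, rfl⟩
    obtain ⟨r, hr, hk⟩ : ∃ r ∈ insert u R, kq {v, r} x y := by
      by_contra hcon
      push Not at hcon
      exact hk0 ⟨hxy, hcon⟩
    rcases mem_insert.1 hr with hr | hr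
    · rw [hr, pair_comm] at hk
      exact absurd (kap_eq_of_kq h1 h2 hk) hne
    have h3 := hur r hr
    rcases (kq_pair_iff (hG.ne (hR r hr).2)).1 hk with
      ⟨rfl, rfl⟩ | ⟨rfl, rfl⟩ | ⟨rfl, rfl⟩ | ⟨rfl, rfl⟩
    · exact ⟨u, y, h3.1, by simp [kap_u h1 h2], rfl⟩
    · exact ⟨x, u, hs.symm h3.1, rfl, by simp [kap_u h1 h2]⟩
    · exact ⟨-u, -r, hs.neg h3.1, by simp [kap_neg, kap_u h1 h2], rfl⟩
    · exact ⟨-r, -u, hs.symm (hs.neg h3.1), rfl, by simp [kap_neg, kap_u h1 h2]⟩
  omega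

/-- transfer of independence to the contracted circuit -/
theorem ind_ctr {p : V → E d} (hp : Generic p) (hd : 3 ≤ d) {X : Finset (Finset V)}
    (hX : Circ d X) {u v : V} (h1 : u ≠ v) (hD : ∃ D ∈ X, u ∈ D ∧ v ∈ D)
    (hX' : Circ d (ctr u v X)) (hc : -v ∉ vs X ∨ Big d (vs X)) (hI : Ind p (gr X))
    (R : Finset V) (hR : ∀ r ∈ R, gr X u r ∧ gr X v r) :
    R.card + 1 ≤ d ∧ (d ≤ R.card + 1 → Ind p (gr (ctr u v X))) := by
  have hl := lift_chain hp hd hX h1 hD hc (rigid hp hd _ hX')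
  obtain ⟨D, hD, hu, hv⟩ := hD
  have h2 : u ≠ -v := fun h => hX.af D hD v hv (h ▸ hu)
  have e1 := Submodule.finrank_mono (triv_le_K hp.odd (gr_le_kq_vs X))
  have e2 := finrank_K_le_K0 p (gr (ctr u v X)) u v
  have e3 := ec_contr (sg_gr hX.af) (clique_gr hD _ hu _ hv h1)
    (fun a b => (gr_ctr hX.toGood hX.cyc h1 h2 a b).1) R hR
  have e4 := Ind.phi_le _ _ rfl (sg_gr hX.af) hI
  have e5 := phi_ge hp.odd (sg_gr hX'.af)
  refine ⟨?_, fun h => ind_of_phi_le hp.odd (sg_gr hX'.af) ?_⟩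
  · generalize phi p ⊥ = t at *
    unfold phi at *
    omega
  · generalize phi p ⊥ = t at *
    unfold phi at *
    omega

end Pool.Agent.MP_d539bc_co

end

section

/-! Combinatorics of symmetric stacking. -/

namespace Pool.Agent.MP_d539bc_co

open Finset
open scoped Pointwise

variable {V : Type} [Fintype V] [DecidableEq V] [FreeNeg V] {d : ℕ}

lemma mem_crossF {Q F : Finset V} :
    F ∈ crossF d Q ↔ F.card = d ∧ AF F ∧ ∀ x ∈ F, x ∈ Q ∨ -x ∈ Q := by simp [crossF]

omit [Fintype V] in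
lemma mem_stackF {T : Finset (Finset V)} {Q F : Finset V} {x : V} :
    F ∈ stackF T Q x ↔ (F ∈ T ∧ F ≠ Q ∧ F ≠ -Q) ∨ (∃ q ∈ Q, F = (insert x Q).erase q) ∨
      (∃ q ∈ -Q, F = (insert (-x) (-Q)).erase q) := by
  simp only [stackF, mem_union, mem_erase, mem_image, or_assoc, eq_comm (a := F)]
  exact or_congr_left (by tauto)

lemma exists_cross {Q S : Finset V} (hQ : AF Q) (hc : Q.card = d) (hS : AF S)
    (h : ∀ x ∈ S, x ∈ Q ∨ -x ∈ Q) : ∃ F ∈ crossF d Q, S ⊆ F := by
  refine ⟨Q.image (fun q => if -q ∈ S then -q else q), mem_crossF.2 ⟨?_, ?_, ?_⟩, ?_⟩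
  · rw [card_image_of_injOn, hc]
    intro a ha b hb hab
    simp only at hab
    split_ifs at hab
    · exact neg_injective hab
    · exact absurd (show -a ∈ Q from hab ▸ hb) (hQ a ha)
    · exact absurd (show -b ∈ Q from hab ▸ ha) (hQ b hb)
    · exact hab
  · intro y hy hy'
    obtain ⟨a, ha, e1⟩ := mem_image.1 hy
    obtain ⟨b, hb, e2⟩ := mem_image.1 hy'
    split_ifs at e1 e2 with h1 h2 h2
    · subst e1; exact hQ a ha (by rw [← neg_injective e2]; exact hb)
    · subst e1; rw [neg_neg] at e2; subst e2; exact h2 h1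
    · subst e1; rw [neg_injective e2] at h2; exact h1 h2
    · subst e1; exact hQ a ha (e2 ▸ hb)
  · intro y hy
    obtain ⟨a, ha, rfl⟩ := mem_image.1 hy
    split_ifs
    · right; simpa
    · left; exact ha
  · intro y hy
    rcases h y hy with h1 | h1
    · exact mem_image.2 ⟨y, h1, by simp [hS y hy]⟩
    · exact mem_image.2 ⟨-y, h1, by simp [hy]⟩

lemma vs_crossF {Q : Finset V} (hQ : AF Q) (hc : Q.card = d) : vs (crossF d Q) = Q ∪ -Q := by
  ext x
  rw [mem_vs, mem_union, Finset.mem_neg']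
  constructor
  · rintro ⟨F, hF, hx⟩; exact (mem_crossF.1 hF).2.2 x hx
  · intro h
    obtain ⟨F, hF, hs⟩ := exists_cross hQ hc (S := {x})
      (by intro y hy; simp only [mem_singleton] at hy ⊢; subst hy; exact neg_ne' _) (by simpa)
    exact ⟨F, hF, hs (by simp)⟩

lemma gr_crossF {Q : Finset V} (hQ : AF Q) (hc : Q.card = d) : gr (crossF d Q) = oct Q := by
  apply le_antisymm
  · rintro a b ⟨F, hF, h⟩
    rw [mem_crossF] at hF
    refine kq_le_of_clique (sg_oct Q) (fun x hx y hy hxy => ?_) a b h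
    exact ⟨hxy, fun e => hF.2.1 y hy (e ▸ hx), hF.2.2 x hx, hF.2.2 y hy⟩
  · intro a b hab
    obtain ⟨F, hF, hs⟩ := exists_cross hQ hc (af_pair hab.2.1) (by
      intro x hx
      rcases mem_insert.1 hx with rfl | hx
      · exact hab.2.2.1
      · rw [mem_singleton.1 hx]; exact hab.2.2.2)
    exact clique_gr hF a (hs (by simp)) b (hs (by simp)) hab.1

omit [Fintype V] in
lemma card_pm {Q : Finset V} (hQ : AF Q) : (Q ∪ -Q).card = 2 * Q.card := by
  rw [card_union_of_disjoint (disjoint_left.2 (fun y hy hy' => hQ y hy (Finset.mem_neg'.1 hy'))),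
    card_neg, two_mul]

lemma ec_oct {Q : Finset V} (hQ : AF Q) (hc : Q.card = d) : ec (oct Q) + 4 * d = 2 * d * (2 * d) := by
  classical
  have hW := card_pm hQ
  rw [hc] at hW
  have h1 : ec (oct Q) = ∑ a ∈ Q ∪ -Q, (((Q ∪ -Q).erase a).erase (-a)).card := by
    rw [ec, card_eq_sum_card_fiberwise (f := Prod.fst) (t := Q ∪ -Q)]
    · apply sum_congr rfl
      intro a ha
      apply card_bij (fun e _ => e.2)
      · rintro ⟨x, y⟩ h
        simp only [mem_filter, mem_univ, true_and] at h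
        obtain ⟨h, rfl⟩ := h
        simp only [mem_erase, mem_union, Finset.mem_neg']
        exact ⟨fun e => h.2.1 (by rw [e, neg_neg]), h.1.symm, h.2.2.2⟩
      · rintro ⟨x, y⟩ h ⟨x', y'⟩ h' e
        simp only [mem_filter] at h h'
        exact Prod.ext (h.2.trans h'.2.symm) e
      · intro y hy
        simp only [mem_erase, mem_union, Finset.mem_neg'] at hy ha
        exact ⟨(a, y), by
          simp only [mem_filter, mem_univ, true_and, and_true]
          exact ⟨hy.2.1.symm, fun e => hy.1 (by rw [e, neg_neg]), ha, hy.2.2⟩, rfl⟩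
    · rintro ⟨x, y⟩ h
      simp only [coe_filter, mem_univ, true_and, Set.mem_ofPred_eq] at h
      simpa [Finset.mem_neg'] using h.2.2.1
  have h2 : ∀ a ∈ Q ∪ -Q, (((Q ∪ -Q).erase a).erase (-a)).card + 2 = 2 * d := by
    intro a ha
    rw [card_erase_erase (ne_neg' a) ha (by simpa [Finset.mem_neg', or_comm] using ha), hW]
  have h3 := sum_congr rfl h2
  rw [sum_add_distrib, ← h1] at h3
  simp only [sum_const, hW, smul_eq_mul] at h3
  omega

/-- combinatorial invariants of symmetric stacking -/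
structure Comb (d : ℕ) (T : Finset (Finset V)) : Prop extends Good d T where
  sym : ∀ F ∈ T, -F ∈ T
  ridge : ∀ F ∈ T, ∀ q ∈ F, ∃ G ∈ T, G ≠ F ∧ F.erase q ⊆ G

lemma comb_cross (Q : Finset V) : Comb d (crossF d Q) where
  card := fun _ hF => (mem_crossF.1 hF).1
  af := fun _ hF => (mem_crossF.1 hF).2.1
  sym := fun F hF => by
    rw [mem_crossF] at hF ⊢
    exact ⟨by rw [card_neg, hF.1], hF.2.1.neg, fun x hx => by
      simpa [or_comm] using hF.2.2 _ (Finset.mem_neg'.1 hx)⟩
  ridge := fun F hF q hq => by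
    rw [mem_crossF] at hF
    have h1 : -q ∉ F := hF.2.1 q hq
    refine ⟨insert (-q) (F.erase q), mem_crossF.2 ⟨?_, ?_, ?_⟩,
      fun e => h1 (e ▸ mem_insert_self _ _), subset_insert _ _⟩
    · rw [card_insert_of_notMem (fun h => h1 (mem_of_mem_erase h)), card_erase_add_one hq, hF.1]
    · exact (hF.2.1.mono (erase_subset _ _)).insert (by simp)
    · intro x hx
      rcases mem_insert.1 hx with rfl | hx
      · simpa [or_comm] using hF.2.2 q hq
      · exact hF.2.2 x (mem_of_mem_erase hx)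

omit [Fintype V] in
lemma neg_erase_insert (Q : Finset V) (x q : V) :
    -((insert x Q).erase q) = (insert (-x) (-Q)).erase (-q) := by
  ext y; simp [Finset.mem_neg', neg_eq_iff_eq_neg]

omit [Fintype V] in
lemma stackF_neg (T : Finset (Finset V)) (Q : Finset V) (x : V) :
    stackF T (-Q) (-x) = stackF T Q x := by
  ext F; simp only [mem_stackF, negneg_finset, neg_neg]
  exact or_congr (by tauto) or_comm

omit [Fintype V] in
lemma comb_stack (hd : 2 ≤ d) {T : Finset (Finset V)} (h : Comb d T) {Q : Finset V} {x : V}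
    (hQ : Q ∈ T) (hx : ∀ F ∈ T, x ∉ F ∧ -x ∉ F) : Comb d (stackF T Q x) := by
  have half : ∀ (Q : Finset V) (x : V), Q ∈ T → (∀ F ∈ T, x ∉ F ∧ -x ∉ F) → ∀ r ∈ Q,
      ((insert x Q).erase r).card = d ∧ AF ((insert x Q).erase r) ∧
      ∀ q ∈ (insert x Q).erase r, ∃ G ∈ stackF T Q x, G ≠ (insert x Q).erase r ∧
        ((insert x Q).erase r).erase q ⊆ G := by
    intro Q x hQ hx r hr
    have hxQ := (hx Q hQ).1
    refine ⟨?_, ((h.af Q hQ).insert (hx Q hQ).2).mono (erase_subset _ _), fun q hq => ?_⟩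
    · rw [card_erase_of_mem (mem_insert_of_mem hr), card_insert_of_notMem hxQ, h.card Q hQ]; rfl
    by_cases hqx : q = x
    · obtain ⟨G, hG, hGQ, hs⟩ := h.ridge Q hQ r hr
      refine ⟨G, mem_stackF.2 (Or.inl ⟨hG, hGQ, ?_⟩), fun e => (hx G hG).1 (e ▸ hqx ▸ hq), ?_⟩
      · rintro rfl
        obtain ⟨y, hy⟩ : (Q.erase r).Nonempty :=
          card_pos.1 (by rw [card_erase_of_mem hr, h.card Q hQ]; omega)
        exact h.af Q hQ y (mem_of_mem_erase hy) (Finset.mem_neg'.1 (hs hy))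
      · rw [hqx, erase_right_comm, erase_insert hxQ]; exact hs
    · have hq' := mem_erase.1 hq
      refine ⟨(insert x Q).erase q,
        mem_stackF.2 (Or.inr (Or.inl ⟨q, (mem_insert.1 hq'.2).resolve_left hqx, rfl⟩)),
        fun e => notMem_erase q (insert x Q) (e ▸ hq), ?_⟩
      rw [erase_right_comm]; exact erase_subset _ _
  have hx' : ∀ F ∈ T, -x ∉ F ∧ - -x ∉ F := fun F hF => by simp [(hx F hF).1, (hx F hF).2]
  have old : ∀ (Q : Finset V) (x : V), Q ∈ T → (∀ F ∈ T, x ∉ F ∧ -x ∉ F) → ∀ F ∈ T, ∀ q ∈ F,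
      F.erase q ⊆ Q → ∃ G ∈ stackF T Q x, G ≠ F ∧ F.erase q ⊆ G := by
    intro Q x hQ hx F hF q hq hs
    obtain ⟨r, hr, e⟩ := eq_erase_of_subset hs
      (by rw [card_erase_add_one hq, h.card Q hQ, h.card F hF])
    refine ⟨(insert x Q).erase r, mem_stackF.2 (Or.inr (Or.inl ⟨r, hr, rfl⟩)), fun e' => ?_, ?_⟩
    · exact (hx F hF).1 (e' ▸ mem_erase.2 ⟨fun e => (hx Q hQ).1 (e ▸ hr), mem_insert_self _ _⟩)
    · rw [e]; exact erase_subset_erase _ (subset_insert _ _)
  refine ⟨⟨fun F hF => ?_, fun F hF => ?_⟩, fun F hF => ?_, fun F hF q hq => ?_⟩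
  · rcases mem_stackF.1 hF with h1 | ⟨r, hr, rfl⟩ | ⟨r, hr, rfl⟩
    · exact h.card F h1.1
    · exact (half Q x hQ hx r hr).1
    · exact (half _ _ (h.sym Q hQ) hx' r hr).1
  · rcases mem_stackF.1 hF with h1 | ⟨r, hr, rfl⟩ | ⟨r, hr, rfl⟩
    · exact h.af F h1.1
    · exact (half Q x hQ hx r hr).2.1
    · exact (half _ _ (h.sym Q hQ) hx' r hr).2.1
  · rw [mem_stackF]
    rcases mem_stackF.1 hF with h1 | ⟨r, hr, rfl⟩ | ⟨r, hr, rfl⟩
    · exact Or.inl ⟨h.sym F h1.1, fun e => h1.2.2 (by rw [← e, negneg_finset]),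
        fun e => h1.2.1 (by rw [← negneg_finset F, e, negneg_finset])⟩
    · exact Or.inr (Or.inr ⟨-r, by simpa [Finset.mem_neg'], neg_erase_insert _ _ _⟩)
    · exact Or.inr (Or.inl ⟨-r, Finset.mem_neg'.1 hr,
        by rw [neg_erase_insert, neg_neg, negneg_finset]⟩)
  · rcases mem_stackF.1 hF with h1 | ⟨r, hr, rfl⟩ | ⟨r, hr, rfl⟩
    · obtain ⟨G, hG, hGF, hs⟩ := h.ridge F h1.1 q hq
      by_cases c1 : G = Q
      · exact old Q x hQ hx F h1.1 q hq (c1 ▸ hs)
      by_cases c2 : G = -Q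
      · rw [← stackF_neg]
        exact old _ _ (h.sym Q hQ) hx' F h1.1 q hq (c2 ▸ hs)
      exact ⟨G, mem_stackF.2 (Or.inl ⟨hG, c1, c2⟩), hGF, hs⟩
    · exact (half Q x hQ hx r hr).2.2 q hq
    · rw [← stackF_neg]
      exact (half _ _ (h.sym Q hQ) hx' r hr).2.2 q hq

omit [Fintype V] in
lemma pair_stack (hd : 3 ≤ d) (T : Finset (Finset V)) {Q : Finset V} (hc : Q.card = d) (x : V)
    {a b : V} (ha : a ∈ insert x Q) (hb : b ∈ insert x Q) :
    ∃ F ∈ stackF T Q x, a ∈ F ∧ b ∈ F := by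
  obtain ⟨q, hq, hq'⟩ : ∃ q ∈ Q, q ∉ ({a, b} : Finset V) := by
    apply exists_mem_notMem_of_card_lt_card
    have : ({a, b} : Finset V).card ≤ 2 := card_le_two
    omega
  simp only [mem_insert, mem_singleton, not_or] at hq'
  exact ⟨_, mem_stackF.2 (Or.inr (Or.inl ⟨q, hq, rfl⟩)), mem_erase.2 ⟨Ne.symm hq'.1, ha⟩,
    mem_erase.2 ⟨Ne.symm hq'.2, hb⟩⟩

omit [Fintype V] in
lemma pair_stack' (hd : 3 ≤ d) {T : Finset (Finset V)} {Q : Finset V} (hc : Q.card = d) (x : V)
    {F : Finset V} (hF : F ∈ T) {a b : V} (ha : a ∈ F) (hb : b ∈ F) :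
    ∃ F ∈ stackF T Q x, a ∈ F ∧ b ∈ F := by
  by_cases c1 : F = Q
  · exact pair_stack hd T hc x (mem_insert_of_mem (c1 ▸ ha)) (mem_insert_of_mem (c1 ▸ hb))
  by_cases c2 : F = -Q
  · rw [← stackF_neg]
    exact pair_stack hd T (by rw [card_neg, hc]) _ (mem_insert_of_mem (c2 ▸ ha))
      (mem_insert_of_mem (c2 ▸ hb))
  exact ⟨F, mem_stackF.2 (Or.inl ⟨hF, c1, c2⟩), ha, hb⟩

omit [Fintype V] in
lemma vs_stackF (hd : 3 ≤ d) {T : Finset (Finset V)} (h : Comb d T) {Q : Finset V} (x : V)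
    (hQ : Q ∈ T) : vs (stackF T Q x) = insert x (insert (-x) (vs T)) := by
  ext y
  simp only [mem_insert]
  constructor
  · intro hy
    obtain ⟨F, hF, hy⟩ := mem_vs.1 hy
    rcases mem_stackF.1 hF with h1 | ⟨r, hr, rfl⟩ | ⟨r, hr, rfl⟩
    · exact Or.inr (Or.inr (subset_vs h1.1 hy))
    · exact (mem_insert.1 (mem_of_mem_erase hy)).imp_right (fun h => Or.inr (subset_vs hQ h))
    · exact Or.inr ((mem_insert.1 (mem_of_mem_erase hy)).imp_right
        (fun h' => subset_vs (h.sym Q hQ) h'))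
  · rintro (rfl | rfl | hy)
    · obtain ⟨F, hF, h1, -⟩ := pair_stack hd T (h.card Q hQ) y (mem_insert_self _ _)
        (mem_insert_self _ _)
      exact subset_vs hF h1
    · obtain ⟨F, hF, h1, -⟩ := pair_stack hd T (h.card _ (h.sym Q hQ)) (-x) (mem_insert_self _ _)
        (mem_insert_self _ _)
      rw [stackF_neg] at hF
      exact subset_vs hF h1
    · obtain ⟨F, hF, hy⟩ := mem_vs.1 hy
      obtain ⟨F', hF', h1, -⟩ := pair_stack' hd (h.card Q hQ) x hF hy hy
      exact subset_vs hF' h1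

omit [Fintype V] in
lemma gr_stackF (hd : 3 ≤ d) {T : Finset (Finset V)} (h : Comb d T) {Q : Finset V} {x : V}
    (hQ : Q ∈ T) (hx : ∀ F ∈ T, x ∉ F ∧ -x ∉ F) :
    gr (stackF T Q x) = gr T ⊔ kq (insert x Q) := by
  have hsg := sg_gr (comb_stack (by omega) h hQ hx).af
  apply le_antisymm
  · rintro a b ⟨F, hF, hab⟩
    rcases mem_stackF.1 hF with h1 | ⟨r, hr, rfl⟩ | ⟨r, hr, rfl⟩
    · exact Or.inl ⟨F, h1.1, hab⟩
    · exact Or.inr (kq_mono (erase_subset _ _) a b hab)
    · right; rw [← AddS.kq_neg_insert]; exact kq_mono (erase_subset _ _) a b hab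
  · apply sup_le
    · rintro a b ⟨F, hF, hab⟩
      refine kq_le_of_clique hsg (fun a ha b hb hab => ?_) a b hab
      obtain ⟨F', hF', h1⟩ := pair_stack' hd (h.card Q hQ) x hF ha hb
      exact clique_gr hF' a h1.1 b h1.2 hab
    · refine kq_le_of_clique hsg (fun a ha b hb hab => ?_)
      obtain ⟨F', hF', h1⟩ := pair_stack hd T (h.card Q hQ) x ha hb
      exact clique_gr hF' a h1.1 b h1.2 hab

lemma ec_add {G : V → V → Prop} {Q : Finset V} {x : V} (hS : AddS d G Q x) :
    ec (G ⊔ kq (insert x Q)) = ec G + 4 * d := by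
  have := (ec_star hS.sg' x Q (fun r hr => hS.nbr.2 hr)).2
  rw [← this, hS.card]
  congr 2
  funext a b
  apply propext
  constructor
  · rintro ⟨h1, h2⟩
    have key : ∀ a b, (G ⊔ kq (insert x Q)) a b → (∀ r ∈ Q, ¬ kq {x, r} a b) → a ≠ x ∧ a ≠ -x := by
      intro a b h1 h2
      constructor <;> rintro rfl
      · exact h2 b (hS.nbr.1 h1) ⟨hS.sg'.ne h1, Or.inl (by simp)⟩
      · exact h2 (-b) (hS.nbr.1 (hS.sg'.neg_left h1)) ⟨hS.sg'.ne h1, Or.inr (by simp)⟩
    have k1 := key a b h1 h2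
    have k2 := key b a (hS.sg'.symm h1) (fun r hr hk => h2 r hr ⟨hk.1.symm, by
      have := hk.2; tauto⟩)
    exact hS.old h1 k1.1 k1.2 k2.1 k2.2
  · intro h1
    refine ⟨Or.inl h1, fun r hr hk => ?_⟩
    have := hS.ne_of_adj h1
    have hxr : x ≠ r := fun e => hS.notin (e ▸ hr)
    rcases (kq_pair_iff hxr).1 hk with h | h | h | h
    · exact this.1 h.1
    · exact this.2.2.1 h.2
    · exact this.2.1 h.1
    · exact this.2.2.2 h.2

theorem SS.comb (hd : 2 ≤ d) {T : Finset (Finset V)} (h : SS d T) : Comb d T := by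
  induction h with
  | base Q _ _ => exact comb_cross Q
  | step T Q x _ hQ hx ih => exact comb_stack hd ih hQ hx

theorem SS.count (hd : 3 ≤ d) {T : Finset (Finset V)} (h : SS d T) :
    ec (gr T) + 4 * d = 2 * d * (vs T).card := by
  induction h with
  | base Q hQ hc => rw [gr_crossF hQ hc, vs_crossF hQ hc, card_pm hQ, hc, ec_oct hQ hc]
  | step T Q x h hQ hx ih =>
    have hC := h.comb (by omega)
    have h1 : x ∉ vs T := fun h => by
      obtain ⟨F, hF, h⟩ := mem_vs.1 h; exact (hx F hF).1 h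
    have h2 : -x ∉ vs T := fun h => by
      obtain ⟨F, hF, h⟩ := mem_vs.1 h; exact (hx F hF).2 h
    rw [gr_stackF hd hC hQ hx, vs_stackF hd hC x hQ, ec_add ⟨sg_gr hC.af, hC.card Q hQ, clique_gr hQ,
      fun y ⟨F, hF, h⟩ => h.2.elim (fun h => (hx F hF).1 h.1) (fun h => (hx F hF).2 h.1),
      (hx Q hQ).1, (hx Q hQ).2⟩, card_insert_of_notMem (by simp [ne_neg', h1, -mem_vs]),
      card_insert_of_notMem h2, ih]
    ring

end Pool.Agent.MP_d539bc_co

end

section

/-! Geometric realisation of symmetric stacking by polytopes. -/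

namespace Pool.Agent.MP_d539bc_co

open Finset Filter Topology
open scoped Pointwise

variable {V : Type} [Fintype V] [DecidableEq V] [FreeNeg V] {d : ℕ}

def InCone (e : V → E d) (F : Finset V) (z : E d) : Prop :=
  ∃ l : V → ℝ, (∀ x, 0 ≤ l x) ∧ z = ∑ x ∈ F, l x • e x

structure Real' (e : V → E d) (T : Finset (Finset V)) : Prop extends Comb d T where
  inj : Set.InjOn e (vs T)
  fn : ∀ F ∈ T, ∃ f : Du d, (∀ x ∈ F, f (e x) = 1) ∧ ∀ x ∈ vs T, x ∉ F → f (e x) < 1
  span : ∀ F ∈ T, ∀ φ : Du d, (∀ x ∈ F, φ (e x) = 0) → φ = 0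
  cone : ∀ z, ∃ F ∈ T, InCone e F z

omit [Fintype V] in
lemma Comb.neg_mem_vs {T : Finset (Finset V)} (h : Comb d T) {x : V} (hx : x ∈ vs T) :
    -x ∈ vs T := by
  obtain ⟨F, hF, hx⟩ := mem_vs.1 hx
  exact subset_vs (h.sym F hF) (by simpa [Finset.mem_neg'] using hx)

namespace Real'

variable {e : V → E d} {T : Finset (Finset V)} (h : Real' e T)
include h

omit [Fintype V] in
lemma congr {e' : V → E d} (he : ∀ x ∈ vs T, e' x = e x) : Real' e' T where
  toComb := h.toComb
  inj := fun x hx y hy hxy => h.inj hx hy (by rw [← he x hx, ← he y hy, hxy])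
  fn := fun F hF => by
    obtain ⟨f, h1, h2⟩ := h.fn F hF
    exact ⟨f, fun x hx => by rw [he x (subset_vs hF hx), h1 x hx],
      fun x hx hx' => by rw [he x hx]; exact h2 x hx hx'⟩
  span := fun F hF φ hφ => h.span F hF φ (fun x hx => by rw [← he x (subset_vs hF hx), hφ x hx])
  cone := fun z => by
    obtain ⟨F, hF, l, h1, h2⟩ := h.cone z
    exact ⟨F, hF, l, h1, h2.trans (sum_congr rfl (fun x hx => by rw [he x (subset_vs hF hx)]))⟩

omit [Fintype V] in
lemma lt_one {F : Finset V} (hF : F ∈ T) {f : Du d} (hf : ∀ x ∈ F, f (e x) = 1) :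
    ∀ x ∈ vs T, x ∉ F → f (e x) < 1 := by
  obtain ⟨g, h1, h2⟩ := h.fn F hF
  have : f - g = 0 := h.span F hF _ (fun x hx => by simp [hf x hx, h1 x hx])
  rwa [sub_eq_zero.1 this]

omit [Fintype V] in
lemma le_one {F : Finset V} (hF : F ∈ T) {f : Du d} (hf : ∀ x ∈ F, f (e x) = 1) :
    ∀ x ∈ vs T, f (e x) ≤ 1 := by
  intro x hx
  by_cases hxF : x ∈ F
  · exact (hf x hxF).le
  · exact (h.lt_one hF hf x hx hxF).le

omit [Fintype V] in
lemma face_sub (he : OddF e) {f : Du d} {c : ℝ} (hf : f ≠ 0) (hc : ∀ x ∈ vs T, f (e x) ≤ c) :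
    0 < c ∧ ∃ F ∈ T, ∀ x ∈ vs T, f (e x) = c → x ∈ F := by
  classical
  have hpos : 0 < c := by
    by_contra hle
    push Not at hle
    obtain ⟨F, hF, -⟩ := h.cone 0
    apply hf
    apply h.span F hF
    intro x hx
    have h1 := hc x (subset_vs hF hx)
    have h2 := hc _ (h.neg_mem_vs (subset_vs hF hx))
    rw [he, map_neg] at h2
    linarith
  refine ⟨hpos, ?_⟩
  let S := (vs T).filter (fun x => f (e x) = c)
  obtain ⟨G, hG, l, hl, hz⟩ := h.cone (∑ x ∈ S, e x)
  obtain ⟨g, hg1, hg2⟩ := h.fn G hG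
  refine ⟨G, hG, fun x hx hxc => ?_⟩
  by_contra hxG
  have e1 : c * S.card ≤ c * ∑ y ∈ G, l y := by
    have := congrArg f hz
    simp only [map_sum, map_smul, smul_eq_mul] at this
    rw [sum_congr rfl (fun y hy => (mem_filter.1 hy).2), sum_const, nsmul_eq_mul] at this
    rw [mul_comm, this, mul_sum]
    exact sum_le_sum (fun y hy => by
      rw [mul_comm c]; exact mul_le_mul_of_nonneg_left (hc y (subset_vs hG hy)) (hl y))
  have e2 : ∑ y ∈ G, l y < S.card := by
    have := congrArg g hz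
    simp only [map_sum, map_smul, smul_eq_mul] at this
    rw [sum_congr rfl (fun y hy => by rw [hg1 y hy, mul_one] : ∀ y ∈ G, l y * g (e y) = l y)] at this
    rw [← this, card_eq_sum_ones, Nat.cast_sum]
    exact sum_lt_sum (fun y hy => by simpa using h.le_one hG hg1 y (mem_filter.1 hy).1)
      ⟨x, mem_filter.2 ⟨hx, hxc⟩, by simpa using hg2 x hx hxG⟩
  have := le_of_mul_le_mul_left e1 hpos
  linarith

omit [Fintype V] in
lemma exists_support {F : Finset V} (hF : F ∈ T) (D : Finset V) : D ⊆ F →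
    ∃ (f : Du d) (c : ℝ), 0 < c ∧ (∀ x ∈ vs T, f (e x) ≤ c) ∧
      ∀ x ∈ vs T, (f (e x) = c ↔ x ∈ F ∧ x ∉ D) := by
  induction D using Finset.induction_on with
  | empty =>
    intro _
    obtain ⟨f, h1, h2⟩ := h.fn F hF
    refine ⟨f, 1, one_pos, h.le_one hF h1, fun x hx => ⟨fun h3 => ⟨?_, by simp⟩, fun h3 => h1 x h3.1⟩⟩
    by_contra h4
    exact (h2 x hx h4).ne h3
  | insert q D _ ih =>
    intro hs
    obtain ⟨f, c, hc, h1, h2⟩ := ih ((subset_insert _ _).trans hs)
    have hq := hs (mem_insert_self _ _)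
    obtain ⟨G, hG, hGF, hsG⟩ := h.ridge F hF q hq
    obtain ⟨g, hg1, hg2⟩ := h.fn G hG
    have hqG : q ∉ G := fun hqG => hGF (eq_of_subset_of_card_le
      (by rw [← insert_erase hq]; exact insert_subset hqG hsG) (by rw [h.card F hF, h.card G hG])).symm
    refine ⟨f + g, c + 1, by positivity, fun x hx => add_le_add (h1 x hx) (h.le_one hG hg1 x hx),
      fun x hx => ?_⟩
    have a1 := h1 x hx
    have a2 := h.le_one hG hg1 x hx
    rw [LinearMap.add_apply, mem_insert, not_or]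
    constructor
    · intro h3
      have a3 := (h2 x hx).1 (by linarith)
      refine ⟨a3.1, ?_, a3.2⟩
      rintro rfl
      linarith [hg2 x hx hqG]
    · rintro ⟨b1, b2, b3⟩
      rw [(h2 x hx).2 ⟨b1, b3⟩, hg1 x (hsG (mem_erase.2 ⟨b2, b1⟩))]

omit [Fintype V] in
lemma isFace_of_sub {F s : Finset V} (hF : F ∈ T) (hs : s ⊆ F) (hne : s.Nonempty) :
    IsFace (e '' (vs T : Set V)) (e '' (s : Set V)) := by
  obtain ⟨f, c, hc, h1, h2⟩ := h.exists_support hF (F \ s) sdiff_subset
  have h3 : ∀ x ∈ vs T, (f (e x) = c ↔ x ∈ s) := by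
    intro x hx
    rw [h2 x hx]
    exact ⟨fun h => by by_contra h'; exact h.2 (mem_sdiff.2 ⟨h.1, h'⟩),
      fun h => ⟨hs h, fun h' => (mem_sdiff.1 h').2 h⟩⟩
  obtain ⟨x0, hx0⟩ := hne
  refine ⟨⟨_, x0, hx0, rfl⟩, f, c, ?_, ?_, ?_⟩
  · rintro rfl
    have := (h3 x0 (subset_vs hF (hs hx0))).2 hx0
    simp at this
    linarith
  · rintro _ ⟨x, hx, rfl⟩; exact h1 x hx
  · ext y
    constructor
    · rintro ⟨x, hx, rfl⟩
      have hx' := subset_vs hF (hs hx)
      exact ⟨⟨x, hx', rfl⟩, (h3 x hx').2 hx⟩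
    · rintro ⟨⟨x, hx, rfl⟩, hy⟩
      exact ⟨x, (h3 x hx).1 hy, rfl⟩

omit [Fintype V] in
lemma sub_of_isFace (he : OddF e) {S : Set (E d)} (hS : IsFace (e '' (vs T : Set V)) S) :
    ∃ F ∈ T, S ⊆ e '' (F : Set V) := by
  obtain ⟨-, f, c, h1, h2, rfl⟩ := hS
  obtain ⟨-, F, hF, h3⟩ := h.face_sub he h1 (fun x hx => h2 _ ⟨x, hx, rfl⟩)
  refine ⟨F, hF, ?_⟩
  rintro _ ⟨⟨x, hx, rfl⟩, hy⟩
  exact ⟨x, h3 x hx hy, rfl⟩

omit [Fintype V] in
lemma sub_of_image {s t : Finset V} (hs : s ⊆ vs T) (ht : t ⊆ vs T)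
    (hst : e '' (s : Set V) ⊆ e '' (t : Set V)) : s ⊆ t := by
  intro x hx
  obtain ⟨y, hy, hxy⟩ := hst ⟨x, hx, rfl⟩
  rwa [← h.inj (ht hy) (hs hx) hxy]

omit [Fintype V] in
lemma isFace_iff (he : OddF e) {s : Finset V} (hs : s ⊆ vs T) :
    IsFace (e '' (vs T : Set V)) (e '' (s : Set V)) ↔ s.Nonempty ∧ ∃ F ∈ T, s ⊆ F := by
  constructor
  · intro hS
    obtain ⟨F, hF, h1⟩ := h.sub_of_isFace he hS
    exact ⟨by simpa using hS.1, F, hF, h.sub_of_image hs (subset_vs hF) h1⟩
  · rintro ⟨h1, F, hF, h2⟩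
    exact h.isFace_of_sub hF h2 h1

omit [Fintype V] in
lemma isFacet_iff (hd : 1 ≤ d) (he : OddF e) {S : Set (E d)} :
    IsFacet (e '' (vs T : Set V)) S ↔ ∃ F ∈ T, S = e '' (F : Set V) := by
  have hne : ∀ F ∈ T, F.Nonempty := fun F hF => card_pos.1 (by rw [h.card F hF]; omega)
  constructor
  · rintro ⟨h1, h2⟩
    obtain ⟨F, hF, h3⟩ := h.sub_of_isFace he h1
    exact ⟨F, hF, (h2 _ (h.isFace_of_sub hF subset_rfl (hne F hF)) h3).symm⟩
  · rintro ⟨F, hF, rfl⟩
    refine ⟨h.isFace_of_sub hF subset_rfl (hne F hF), fun G hG hs => ?_⟩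
    obtain ⟨F', hF', h3⟩ := h.sub_of_isFace he hG
    have := eq_of_subset_of_card_le (h.sub_of_image (subset_vs hF) (subset_vs hF') (hs.trans h3))
      (by rw [h.card F hF, h.card F' hF'])
    subst this
    exact Set.Subset.antisymm h3 hs

omit [Fintype V] in
lemma supports_fn (hd : 1 ≤ d) {F : Finset V} (hF : F ∈ T) {f : Du d}
    (hf : ∀ x ∈ F, f (e x) = 1) : Supports (e '' (vs T : Set V)) f 1 (e '' (F : Set V)) := by
  obtain ⟨x0, hx0⟩ : F.Nonempty := card_pos.1 (by rw [h.card F hF]; omega)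
  refine ⟨?_, ?_, ?_⟩
  · rintro rfl
    simpa using hf x0 hx0
  · rintro _ ⟨x, hx, rfl⟩; exact h.le_one hF hf x hx
  · ext y
    constructor
    · rintro ⟨x, hx, rfl⟩
      exact ⟨⟨x, subset_vs hF hx, rfl⟩, hf x hx⟩
    · rintro ⟨⟨x, hx, rfl⟩, hy⟩
      refine ⟨x, ?_, rfl⟩
      by_contra h'
      exact (h.lt_one hF hf x hx h').ne hy

omit [Fintype V] in
lemma of_supports (he : OddF e) {F : Finset V} {f : Du d} {c : ℝ}
    (hS : Supports (e '' (vs T : Set V)) f c (e '' (F : Set V))) :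
    0 < c ∧ ∀ x ∈ F, (c⁻¹ • f) (e x) = 1 := by
  obtain ⟨h1, h2, h3⟩ := hS
  have hc := (h.face_sub he h1 (fun x hx => h2 _ ⟨x, hx, rfl⟩)).1
  refine ⟨hc, fun x hx => ?_⟩
  have : e x ∈ e '' (F : Set V) := ⟨x, hx, rfl⟩
  rw [h3] at this
  simp [this.2, hc.ne']

end Real'

/-- the new vertex is beyond `Q` and beneath all other facets -/
def Beyond (e : V → E d) (T : Finset (Finset V)) (Q : Finset V) (v : E d) : Prop :=
  (∀ f : Du d, (∀ q ∈ Q, f (e q) = 1) → 1 < f v) ∧
    ∀ G ∈ T, G ≠ Q → ∀ g : Du d, (∀ q ∈ G, g (e q) = 1) → g v < 1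

omit [Fintype V] in
lemma Beyond.neg {e : V → E d} (he : OddF e) {T : Finset (Finset V)} (h : Comb d T) {Q : Finset V}
    {v : E d} (hb : Beyond e T Q v) : Beyond e T (-Q) (-v) := by
  refine ⟨fun f hf => ?_, fun G hG hGQ g hg => ?_⟩
  · have := hb.1 (-f) (fun q hq => by
      rw [LinearMap.neg_apply, ← map_neg, ← he, hf _ (by simpa [Finset.mem_neg'])])
    simpa using this
  · have := hb.2 (-G) (h.sym G hG) (fun e => hGQ (by rw [← e, negneg_finset])) (-g) (fun q hq => by
      rw [LinearMap.neg_apply, ← map_neg, ← he, hg _ (Finset.mem_neg'.1 hq)])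
    simpa using this

omit [Fintype V] in
lemma Real'.half {e : V → E d} {T : Finset (Finset V)} (h : Real' e T) (he : OddF e)
    {Q : Finset V} (hQ : Q ∈ T) {x : V} (hx : x ∉ vs T) (hb : Beyond e T Q (e x)) :
    (∀ q ∈ Q, ∃ f : Du d, (∀ y ∈ (insert x Q).erase q, f (e y) = 1) ∧
      (∀ y ∈ vs T, y ∉ (insert x Q).erase q → f (e y) < 1) ∧ f (e (-x)) < 1) ∧
    (∀ q ∈ Q, ∀ φ : Du d, (∀ y ∈ (insert x Q).erase q, φ (e y) = 0) → φ = 0) ∧
    (∀ z, InCone e Q z → Q.Nonempty → ∃ q ∈ Q, InCone e ((insert x Q).erase q) z) := by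
  have hxQ : x ∉ Q := fun h' => hx (subset_vs hQ h')
  obtain ⟨fQ, hf1, hf2⟩ := h.fn Q hQ
  have hfv := hb.1 fQ hf1
  have herase : ∀ q ∈ Q, (insert x Q).erase q = insert x (Q.erase q) := fun q hq =>
    erase_insert_of_ne (fun e => hxQ (e ▸ hq))
  obtain ⟨μ, hμ0, hμ⟩ : InCone e Q (e x) := by
    obtain ⟨G, hG, l, hl, hz⟩ := h.cone (e x)
    by_cases hGQ : G = Q
    · exact ⟨l, hl, hGQ ▸ hz⟩
    exfalso
    obtain ⟨g, hg1, -⟩ := h.fn G hG
    have a1 := hb.2 G hG hGQ g hg1
    rw [hz] at a1 hfv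
    simp only [map_sum, map_smul, smul_eq_mul] at a1 hfv
    have : ∑ y ∈ G, l y * fQ (e y) ≤ ∑ y ∈ G, l y * g (e y) := sum_le_sum (fun y hy => by
      rw [hg1 y hy]; exact mul_le_mul_of_nonneg_left (h.le_one hQ hf1 y (subset_vs hG hy)) (hl y))
    linarith
  have hval : ∀ q ∈ Q, ∀ φ : Du d, φ (e x) = μ q * φ (e q) + ∑ y ∈ Q.erase q, μ y * φ (e y) := by
    intro q hq φ
    rw [hμ, ← add_sum_erase _ _ hq]; simp
  have hμpos : ∀ q ∈ Q, 0 < μ q := by
    intro q hq
    refine lt_of_le_of_ne (hμ0 q) (fun h0 => ?_)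
    obtain ⟨G, hG, hGQ, hs⟩ := h.ridge Q hQ q hq
    obtain ⟨g, hg1, -⟩ := h.fn G hG
    have a1 := hb.2 G hG hGQ g hg1
    rw [hval q hq, ← h0, zero_mul] at a1 hfv
    rw [sum_congr rfl (fun y hy => by rw [hg1 y (hs hy)])] at a1
    rw [sum_congr rfl (fun y hy => by rw [hf1 y (mem_of_mem_erase hy)])] at hfv
    linarith
  refine ⟨fun q hq => ?_, fun q hq φ hφ => ?_, fun z ⟨l, hl, hz⟩ hne => ?_⟩
  · obtain ⟨G, hG, hGQ, hs⟩ := h.ridge Q hQ q hq
    obtain ⟨g, hg1, hg2⟩ := h.fn G hG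
    have a1 := hb.2 G hG hGQ g hg1
    have hqG : q ∉ G := fun hqG => hGQ (eq_of_subset_of_card_le
      (by rw [← insert_erase hq]; exact insert_subset hqG hs) (by rw [h.card Q hQ, h.card G hG])).symm
    set θ := (fQ (e x) - 1) / (fQ (e x) - g (e x)) with hθ
    have hden : 0 < fQ (e x) - g (e x) := by linarith
    have θ0 : 0 < θ := div_pos (by linarith) hden
    have θ1 : θ < 1 := (div_lt_one hden).2 (by linarith)
    have hfx : ((1 - θ) • fQ + θ • g) (e x) = 1 := by
      simp only [LinearMap.add_apply, LinearMap.smul_apply, smul_eq_mul, hθ]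
      field_simp
      ring
    refine ⟨(1 - θ) • fQ + θ • g, fun y hy => ?_, fun y hy hy' => ?_, ?_⟩
    · rw [herase q hq] at hy
      rcases mem_insert.1 hy with rfl | hy
      · exact hfx
      · simp [hf1 y (mem_of_mem_erase hy), hg1 y (hs hy)]
    · rw [herase q hq, mem_insert, mem_erase, not_or] at hy'
      simp only [LinearMap.add_apply, LinearMap.smul_apply, smul_eq_mul]
      have b1 := h.le_one hQ hf1 y hy
      have b2 := h.le_one hG hg1 y hy
      by_cases hyQ : y ∈ Q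
      · have : y = q := by by_contra h'; exact hy'.2 ⟨h', hyQ⟩
        have b3 := hg2 y hy (this ▸ hqG)
        nlinarith
      · have b3 := hf2 y hy hyQ
        nlinarith
    · rw [he, map_neg, hfx]; norm_num
  · rw [herase q hq] at hφ
    apply h.span Q hQ
    intro y hy
    by_cases hyq : y = q
    · have := hval q hq φ
      rw [hφ x (mem_insert_self _ _), sum_eq_zero (fun y hy => by
        rw [hφ y (mem_insert_of_mem hy), mul_zero]), add_zero] at this
      rw [hyq]
      exact (mul_eq_zero.1 this.symm).resolve_left (hμpos q hq).ne'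
    · exact hφ y (mem_insert_of_mem (mem_erase.2 ⟨hyq, hy⟩))
  · obtain ⟨q, hq, hmin⟩ := exists_min_image Q (fun y => l y / μ y) hne
    refine ⟨q, hq, fun y => if y = x then l q / μ q else if y ∈ Q then l y - l q / μ q * μ y else 0,
      fun y => ?_, ?_⟩
    · beta_reduce
      split_ifs with h1 h2
      · exact div_nonneg (hl q) (hμ0 q)
      · have := hmin y h2
        rw [le_div_iff₀ (hμpos y h2)] at this
        linarith
      · exact le_rfl
    · beta_reduce
      rw [herase q hq, sum_insert (fun h' => hxQ (mem_of_mem_erase h')), if_pos rfl,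
        sum_congr rfl (g := fun y => (l y - l q / μ q * μ y) • e y) (fun y hy => by
          rw [if_neg (fun e : y = x => hxQ (e ▸ mem_of_mem_erase hy)),
            if_pos (mem_of_mem_erase hy)]),
        sum_erase _ (by rw [div_mul_cancel₀ _ (hμpos q hq).ne', sub_self, zero_smul])]
      nth_rewrite 1 [hμ]
      rw [hz, smul_sum, ← sum_add_distrib]
      exact sum_congr rfl (fun y _ => by module)

omit [Fintype V] in
lemma Real'.stack (hd : 3 ≤ d) {e : V → E d} {T : Finset (Finset V)} (h : Real' e T) (he : OddF e)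
    {Q : Finset V} (hQ : Q ∈ T) {x : V} (hx : x ∉ vs T) (hb : Beyond e T Q (e x)) :
    Real' e (stackF T Q x) := by
  have hx' : -x ∉ vs T := fun h' => hx (by simpa using h.neg_mem_vs h')
  have hxF : ∀ F ∈ T, x ∉ F ∧ -x ∉ F := fun F hF =>
    ⟨fun h' => hx (subset_vs hF h'), fun h' => hx' (subset_vs hF h')⟩
  have hQ' := h.sym Q hQ
  have hb' : Beyond e T (-Q) (e (-x)) := by rw [he]; exact hb.neg he h.toComb
  obtain ⟨a1, a2, a3⟩ := h.half he hQ hx hb
  obtain ⟨b1, b2, b3⟩ := h.half he hQ' hx' hb'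
  have hvs := vs_stackF hd h.toComb x hQ
  refine ⟨comb_stack (by omega) h.toComb hQ hxF, ?_, fun F hF => ?_, fun F hF => ?_, fun z => ?_⟩
  · obtain ⟨f, hf1, -⟩ := h.fn Q hQ
    have c1 := hb.1 f hf1
    have c2 : ∀ y ∈ vs T, -1 ≤ f (e y) ∧ f (e y) ≤ 1 := fun y hy =>
      ⟨by have := h.le_one hQ hf1 _ (h.neg_mem_vs hy); rw [he, map_neg] at this; linarith,
        h.le_one hQ hf1 y hy⟩
    have c3 : f (e (-x)) < -1 := by rw [he, map_neg]; linarith
    rw [hvs]
    intro y hy y' hy' hyy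
    have c4 := congrArg f hyy
    simp only [coe_insert, Set.mem_insert_iff, mem_coe] at hy hy'
    rcases hy with rfl | rfl | hy <;> rcases hy' with rfl | rfl | hy' <;>
      first | rfl | exact h.inj hy hy' hyy | (exfalso; first | linarith | linarith [c2 _ hy] | linarith [c2 _ hy'])
  · rw [hvs]
    rcases mem_stackF.1 hF with h1 | ⟨r, hr, rfl⟩ | ⟨r, hr, rfl⟩
    · obtain ⟨f, hf1, hf2⟩ := h.fn F h1.1
      refine ⟨f, hf1, fun y hy hyF => ?_⟩
      rcases mem_insert.1 hy with rfl | hy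
      · exact hb.2 F h1.1 h1.2.1 f hf1
      rcases mem_insert.1 hy with rfl | hy
      · exact hb'.2 F h1.1 h1.2.2 f hf1
      · exact hf2 y hy hyF
    · obtain ⟨f, hf1, hf2, hf3⟩ := a1 r hr
      refine ⟨f, hf1, fun y hy hyF => ?_⟩
      rcases mem_insert.1 hy with rfl | hy
      · exact absurd (mem_erase.2 ⟨fun e : y = r => (hxF Q hQ).1 (e ▸ hr), mem_insert_self _ _⟩) hyF
      rcases mem_insert.1 hy with rfl | hy
      · exact hf3
      · exact hf2 y hy hyF
    · obtain ⟨f, hf1, hf2, hf3⟩ := b1 r hr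
      refine ⟨f, hf1, fun y hy hyF => ?_⟩
      rcases mem_insert.1 hy with rfl | hy
      · simpa using hf3
      rcases mem_insert.1 hy with rfl | hy
      · exact absurd (mem_erase.2 ⟨fun e : -x = r => (hxF _ hQ').2 (e ▸ hr), mem_insert_self _ _⟩) hyF
      · exact hf2 y hy hyF
  · rcases mem_stackF.1 hF with h1 | ⟨r, hr, rfl⟩ | ⟨r, hr, rfl⟩
    · exact h.span F h1.1
    · exact a2 r hr
    · exact b2 r hr
  · obtain ⟨F, hF, hz⟩ := h.cone z
    have hne : F.Nonempty := card_pos.1 (by rw [h.card F hF]; omega)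
    by_cases c1 : F = Q
    · obtain ⟨q, hq, h1⟩ := a3 z (c1 ▸ hz) (c1 ▸ hne)
      exact ⟨_, mem_stackF.2 (Or.inr (Or.inl ⟨q, hq, rfl⟩)), h1⟩
    by_cases c2 : F = -Q
    · obtain ⟨q, hq, h1⟩ := b3 z (c2 ▸ hz) (c2 ▸ hne)
      exact ⟨_, mem_stackF.2 (Or.inr (Or.inr ⟨q, hq, rfl⟩)), h1⟩
    exact ⟨F, mem_stackF.2 (Or.inl ⟨hF, c1, c2⟩), hz⟩

omit [Fintype V] in
lemma Real'.beyond_iff (hd : 1 ≤ d) {e : V → E d} {T : Finset (Finset V)} (h : Real' e T)
    (he : OddF e) {Q : Finset V} (hQ : Q ∈ T) (v : E d) : Beyond e T Q v ↔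
      (∀ f c, Supports (e '' (vs T : Set V)) f c (e '' (Q : Set V)) → c < f v) ∧
      (∀ G f c, IsFacet (e '' (vs T : Set V)) G → G ≠ e '' (Q : Set V) →
        Supports (e '' (vs T : Set V)) f c G → f v < c) := by
  constructor
  · intro hb
    refine ⟨fun f c hS => ?_, fun G f c hG hne hS => ?_⟩
    · obtain ⟨hc, h1⟩ := h.of_supports he hS
      have := hb.1 _ h1
      simp only [LinearMap.smul_apply, smul_eq_mul] at this
      rwa [lt_inv_mul_iff₀ hc, mul_one] at this
    · obtain ⟨F, hF, rfl⟩ := (h.isFacet_iff hd he).1 hG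
      obtain ⟨hc, h1⟩ := h.of_supports he hS
      have := hb.2 F hF (fun e => hne (by rw [e])) _ h1
      simp only [LinearMap.smul_apply, smul_eq_mul] at this
      rwa [inv_mul_lt_iff₀ hc, mul_one] at this
  · rintro ⟨h1, h2⟩
    refine ⟨fun f hf => h1 f 1 (h.supports_fn hd hQ hf), fun G hG hne g hg => ?_⟩
    refine h2 _ g 1 ((h.isFacet_iff hd he).2 ⟨G, hG, rfl⟩) (fun e' => hne ?_)
      (h.supports_fn hd hG hg)
    exact Subset.antisymm (h.sub_of_image (subset_vs hG) (subset_vs hQ) e'.le)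
      (h.sub_of_image (subset_vs hQ) (subset_vs hG) e'.ge)

omit [Fintype V] in
lemma Real'.exists_beyond (hd : 1 ≤ d) {e : V → E d} {T : Finset (Finset V)} (h : Real' e T)
    {Q : Finset V} (hQ : Q ∈ T) : ∃ v, Beyond e T Q v := by
  have hd' : (0 : ℝ) < d := by exact_mod_cast hd
  let c : E d := (d : ℝ)⁻¹ • ∑ q ∈ Q, e q
  have h1 : ∀ G ∈ T, ∀ᶠ t : ℝ in 𝓝 1, G ≠ Q → ∀ g : Du d, (∀ q ∈ G, g (e q) = 1) →
      g (t • c) < 1 := by
    intro G hG
    by_cases hGQ : G = Q
    · exact Eventually.of_forall (fun _ h => absurd hGQ h)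
    obtain ⟨g, hg1, hg2⟩ := h.fn G hG
    have hlt : g c < 1 := by
      obtain ⟨q, hq, hq'⟩ : ∃ q ∈ Q, q ∉ G := by
        by_contra hcon
        push Not at hcon
        exact hGQ (eq_of_subset_of_card_le hcon (by rw [h.card Q hQ, h.card G hG])).symm
      have : ∑ q ∈ Q, g (e q) < ∑ _q ∈ Q, (1 : ℝ) :=
        sum_lt_sum (fun y hy => h.le_one hG hg1 y (subset_vs hQ hy))
          ⟨q, hq, hg2 q (subset_vs hQ hq) hq'⟩
      simp only [sum_const, h.card Q hQ, nsmul_eq_mul, mul_one] at this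
      simp only [c, map_smul, map_sum, smul_eq_mul]
      rwa [inv_mul_lt_iff₀ hd', mul_one]
    have hcont : Continuous (fun t : ℝ => t * g c) := by fun_prop
    have := (hcont.tendsto 1).eventually (gt_mem_nhds (by simpa using hlt))
    filter_upwards [this] with t ht _ g' hg'
    have : g' - g = 0 := h.span G hG _ (fun x hx => by simp [hg' x hx, hg1 x hx])
    rw [sub_eq_zero.1 this]
    simpa using ht
  have h2 := (eventually_all_finset T).2 h1
  obtain ⟨t, ht, ht1⟩ := ((h2.filter_mono (nhdsWithin_le_nhds (s := Set.Ioi 1))).and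
    self_mem_nhdsWithin).exists
  refine ⟨t • c, fun f hf => ?_, ht⟩
  simp only [c, map_smul, map_sum, smul_eq_mul, sum_congr rfl hf, sum_const, h.card Q hQ,
    nsmul_eq_mul, mul_one, inv_mul_cancel₀ hd'.ne']
  exact ht1

lemma real_cross {e : V → E d} (he : OddF e) {b : Fin d → V} (hb : ∀ i, e (b i) = Pi.single i 1) :
    AF (univ.image b) ∧ (univ.image b).card = d ∧ Real' e (crossF d (univ.image b)) ∧
      e '' (vs (crossF d (univ.image b)) : Set V) =
        {x | ∃ i, x = Pi.single i 1 ∨ x = -Pi.single i 1} := by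
  have hb' : ∀ i, e (-b i) = -Pi.single i 1 := fun i => by rw [he, hb]
  have hne : ∀ i j : Fin d, (Pi.single i 1 : E d) ≠ -Pi.single j 1 := by
    intro i j h
    have := congrFun h i
    simp only [Pi.single_eq_same, Pi.neg_apply, Pi.single_apply] at this
    split_ifs at this <;> linarith
  have hinj1 : ∀ i j : Fin d, (Pi.single i 1 : E d) = Pi.single j 1 → i = j := by
    intro i j h
    have := congrFun h i
    simp only [Pi.single_eq_same, Pi.single_apply] at this
    split_ifs at this with h'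
    · exact h'
    · linarith
  have hbinj : Function.Injective b := fun i j h => hinj1 i j (by rw [← hb, ← hb, h])
  have haf : AF (univ.image b) := by
    intro x hx hx'
    obtain ⟨i, -, rfl⟩ := mem_image.1 hx
    obtain ⟨j, -, h⟩ := mem_image.1 hx'
    exact hne j i (by rw [← hb, h, hb'])
  have hc : (univ.image b).card = d := by rw [card_image_of_injective _ hbinj]; simp
  have hpm : ∀ x, (x ∈ univ.image b ∨ -x ∈ univ.image b) ↔ ∃ i, x = b i ∨ x = -b i := by
    intro x
    simp only [mem_image, mem_univ, true_and, exists_or]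
    exact or_congr (exists_congr (fun _ => eq_comm))
      (exists_congr (fun i => by rw [eq_comm, neg_eq_iff_eq_neg]))
  have hvs : ∀ x, x ∈ vs (crossF d (univ.image b)) ↔ ∃ i, x = b i ∨ x = -b i := by
    intro x; rw [vs_crossF haf hc, mem_union, Finset.mem_neg', hpm]
  have htr : ∀ F ∈ crossF d (univ.image b), ∀ i, b i ∈ F ∨ -b i ∈ F := by
    intro F hF i
    rw [mem_crossF] at hF
    exact transversal hF.2.1 (hF.1.trans hc.symm) hF.2.2 (Or.inl (mem_image_of_mem _ (mem_univ i)))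
  refine ⟨haf, hc, ⟨comb_cross _, ?_, fun F hF => ?_, fun F hF φ hφ => ?_, fun z => ?_⟩, ?_⟩
  · intro x hx y hy h
    obtain ⟨i, rfl | rfl⟩ := (hvs x).1 hx <;> obtain ⟨j, rfl | rfl⟩ := (hvs y).1 hy <;>
      simp only [hb, hb', neg_inj] at h
    · rw [hinj1 i j h]
    · exact absurd h (hne i j)
    · exact absurd h.symm (hne j i)
    · rw [hinj1 i j h]
  · let f : Du d := ∑ i, (if b i ∈ F then (1 : ℝ) else -1) • LinearMap.proj i
    have hf : ∀ i, f (Pi.single i 1) = if b i ∈ F then 1 else -1 := by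
      intro i
      simp only [f, LinearMap.sum_apply, LinearMap.smul_apply, LinearMap.proj_apply,
        Pi.single_apply, smul_eq_mul, mul_ite, mul_one, mul_zero]
      simp
    have hF' := mem_crossF.1 hF
    refine ⟨f, fun x hx => ?_, fun x hx hxF => ?_⟩
    · obtain ⟨i, rfl | rfl⟩ := (hpm x).1 (hF'.2.2 x hx)
      · rw [hb, hf, if_pos hx]
      · rw [hb', map_neg, hf, if_neg (fun h => hF'.2.1 _ h hx)]; norm_num
    · obtain ⟨i, rfl | rfl⟩ := (hvs x).1 hx
      · rw [hb, hf, if_neg hxF]; norm_num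
      · rw [hb', map_neg, hf, if_pos ((htr F hF i).resolve_right hxF)]; norm_num
  · apply (Pi.basisFun ℝ (Fin d)).ext
    intro i
    rcases htr F hF i with h | h
    · simpa [hb] using hφ _ h
    · simpa [hb'] using hφ _ h
  · let s : Fin d → V := fun i => if 0 ≤ z i then b i else -b i
    have hs : ∀ i, e (s i) = (if 0 ≤ z i then (1 : ℝ) else -1) • Pi.single i 1 := by
      intro i; simp only [s]; split_ifs <;> simp [hb, hb']
    have hcl : ∀ i j, s i = s j ∨ s i = -s j → i = j := by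
      intro i j h
      by_contra hij
      have h1 : e (s i) i = 0 := by
        rcases h with h | h <;> rw [h]
        · rw [hs, Pi.smul_apply, Pi.single_eq_of_ne hij, smul_zero]
        · rw [he, hs, Pi.neg_apply, Pi.smul_apply, Pi.single_eq_of_ne hij, smul_zero, neg_zero]
      rw [hs, Pi.smul_apply, Pi.single_eq_same] at h1
      split_ifs at h1 <;> simp at h1
    have hsinj : Function.Injective s := fun i j h => hcl i j (Or.inl h)
    refine ⟨univ.image s, mem_crossF.2 ⟨by rw [card_image_of_injective _ hsinj]; simp, ?_, ?_⟩,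
      fun x => |∑ i, e x i * z i|, fun x => abs_nonneg _, ?_⟩
    · intro x hx hx'
      obtain ⟨i, -, rfl⟩ := mem_image.1 hx
      obtain ⟨j, -, h⟩ := mem_image.1 hx'
      have := hcl j i (Or.inr h)
      subst this
      exact ne_neg' _ h
    · intro x hx
      obtain ⟨i, -, rfl⟩ := mem_image.1 hx
      refine (hpm _).2 ⟨i, ?_⟩
      simp only [s]; split_ifs <;> simp
    · rw [sum_image (fun i _ j _ h => hsinj h)]
      funext j
      simp only [hs, Finset.sum_apply, Pi.smul_apply, Pi.single_apply, smul_eq_mul, mul_ite,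
        mul_one, mul_zero, ite_mul, zero_mul, sum_ite_eq, sum_ite_eq', mem_univ, if_true]
      split_ifs with h
      · simp [abs_of_nonneg h]
      · simp [abs_of_neg (not_le.1 h)]
  · ext y
    simp only [Set.mem_image, mem_coe, hvs, Set.mem_ofPred_eq]
    constructor
    · rintro ⟨x, ⟨i, rfl | rfl⟩, rfl⟩
      · exact ⟨i, Or.inl (hb i)⟩
      · exact ⟨i, Or.inr (hb' i)⟩
    · rintro ⟨i, rfl | rfl⟩
      · exact ⟨_, ⟨i, Or.inl rfl⟩, hb i⟩
      · exact ⟨_, ⟨i, Or.inr rfl⟩, hb' i⟩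

theorem SS.realize (hd : 3 ≤ d) {T : Finset (Finset V)} (h : SS d T) :
    ∃ e : V → E d, OddF e ∧ Real' e T ∧ SymStacked d (e '' (vs T : Set V)) := by
  induction h with
  | base Q hQ hc =>
    let σ : Q ≃ Fin d := Q.equivFinOfCardEq hc
    let e : V → E d := fun x => if h : x ∈ Q then Pi.single (σ ⟨x, h⟩) 1 else
      if h : -x ∈ Q then - Pi.single (σ ⟨-x, h⟩) 1 else 0
    have he : OddF e := by
      intro x
      by_cases h1 : x ∈ Q
      · simp [e, h1, hQ x h1]
      · by_cases h2 : -x ∈ Q <;> simp [e, h1, h2]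
    have hb : ∀ i, e (σ.symm i) = Pi.single i 1 := fun i => by simp [e, (σ.symm i).2]
    have hQb : univ.image (fun i => (σ.symm i : V)) = Q := by
      ext x
      simp only [mem_image, mem_univ, true_and]
      exact ⟨fun ⟨i, hi⟩ => hi ▸ (σ.symm i).2, fun hx => ⟨σ ⟨x, hx⟩, by simp⟩⟩
    have := real_cross he hb
    rw [hQb] at this
    exact ⟨e, he, this.2.2.1, this.2.2.2 ▸ SymStacked.cross⟩
  | step T Q x _ hQ hx ih =>
    obtain ⟨e, he, hr, hs⟩ := ih
    obtain ⟨v, hv⟩ := hr.exists_beyond (by omega) hQ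
    have h1 : x ∉ vs T := fun h => by
      obtain ⟨F, hF, h⟩ := mem_vs.1 h; exact (hx F hF).1 h
    have h2 : -x ∉ vs T := fun h => by
      obtain ⟨F, hF, h⟩ := mem_vs.1 h; exact (hx F hF).2 h
    let e' : V → E d := fun y => if y = x then v else if y = -x then -v else e y
    have he' : OddF e' := by
      intro y
      by_cases e1 : y = x
      · subst e1; simp [e', neg_ne']
      by_cases e2 : y = -x
      · subst e2; simp [e', neg_ne']
      have e3 : -y ≠ x := fun h => e2 (by rw [← h, neg_neg])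
      simp [e', e1, e2, e3, he y]
    have hee : ∀ y ∈ vs T, e' y = e y := by
      intro y hy
      have e1 : y ≠ x := fun h => h1 (h ▸ hy)
      have e2 : y ≠ -x := fun h => h2 (h ▸ hy)
      simp [e', e1, e2]
    have hex : e' x = v := by simp [e']
    have hr' := hr.congr hee
    have hv' : Beyond e' T Q (e' x) := by
      rw [hex]
      exact ⟨fun f hf => hv.1 f (fun q hq => by rw [← hee q (subset_vs hQ hq), hf q hq]),
        fun G hG hne g hg => hv.2 G hG hne g
          (fun q hq => by rw [← hee q (subset_vs hG hq), hg q hq])⟩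
    refine ⟨e', he', hr'.stack hd he' hQ h1 hv', ?_⟩
    rw [vs_stackF hd hr.toComb x hQ, coe_insert, coe_insert, Set.image_insert_eq,
      Set.image_insert_eq, he']
    have hb := (hr'.beyond_iff (by omega) he' hQ _).1 hv'
    exact SymStacked.stack _ _ _ (by rwa [Set.image_congr hee])
      ((hr'.isFacet_iff (by omega) he').2 ⟨Q, hQ, rfl⟩) hb.1 hb.2

theorem SymStacked.unrealize (hd : 3 ≤ d) {e : V → E d} (he : OddF e) {P : Set (E d)}
    (h : SymStacked d P) : P ⊆ Set.range e →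
      ∃ T, SS d T ∧ Real' e T ∧ e '' (vs T : Set V) = P := by
  induction h with
  | cross =>
    intro hP
    choose b hb using fun i : Fin d => hP ⟨i, Or.inl rfl⟩
    have := real_cross he hb
    exact ⟨_, SS.base _ this.1 this.2.1, this.2.2⟩
  | stack P F v _ hF h1 h2 ih =>
    intro hP
    obtain ⟨T, hT, hr, rfl⟩ := ih (fun y hy => hP (Or.inr (Or.inr hy)))
    obtain ⟨x, rfl⟩ := hP (Set.mem_insert _ _)
    obtain ⟨Q, hQ, rfl⟩ := (hr.isFacet_iff (by omega) he).1 hF
    have hb := (hr.beyond_iff (by omega) he hQ _).2 ⟨h1, h2⟩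
    have hx : x ∉ vs T := fun hx => by
      obtain ⟨f, hf, -⟩ := hr.fn Q hQ
      exact absurd (hb.1 f hf) (not_lt.2 (hr.le_one hQ hf x hx))
    have hx' : -x ∉ vs T := fun h' => hx (by simpa using hr.neg_mem_vs h')
    refine ⟨_, SS.step T Q x hT hQ (fun F hF =>
      ⟨fun h' => hx (subset_vs hF h'), fun h' => hx' (subset_vs hF h')⟩),
      hr.stack hd he hQ hx hb, ?_⟩
    rw [vs_stackF hd hr.toComb x hQ, coe_insert, coe_insert, Set.image_insert_eq,
      Set.image_insert_eq, he]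

theorem SymStacked.symm {P : Set (E d)} (h : SymStacked d P) : ∀ x ∈ P, -x ∈ P := by
  induction h with
  | cross => rintro x ⟨i, rfl | rfl⟩ <;> exact ⟨i, by simp⟩
  | stack P F v _ _ _ _ ih =>
    rintro x (rfl | rfl | hx)
    · exact Or.inr (Or.inl rfl)
    · exact Or.inl (neg_neg _)
    · exact Or.inr (Or.inr (ih x hx))

end Pool.Agent.MP_d539bc_co

end

section

/-! Circuits with independent symmetric graph are built by simplicial additions. -/

namespace Pool.Agent.MP_d539bc_co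

open Finset Module
open scoped Pointwise

variable {V : Type} [Fintype V] [DecidableEq V] [FreeNeg V] {d : ℕ}

omit [Fintype V] [DecidableEq V] [FreeNeg V] in
lemma Clique.exists_adj {G : V → V → Prop} {Q : Finset V} (h : Clique G Q) (hc : 2 ≤ Q.card)
    {x : V} (hx : x ∈ Q) : ∃ y, G x y := by
  obtain ⟨y, hy, hyx⟩ := exists_mem_ne (s := Q) (by omega) x
  exact ⟨y, h x hx y hy hyx.symm⟩

omit [Fintype V] in
lemma rigB {p : V → E d} (hp : Generic p) (hd : 2 ≤ d) {f : Bool} {G : V → V → Prop}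
    (hb : Built d f G) : f = true → ∀ m ∈ K p G, ∃ b, ∀ x y, G x y → m (cls x) = b := by
  induction hb with
  | baseA Q _ _ => intro h; cases h
  | baseB Q hQ hc =>
    intro _ m hm
    rw [mem_K] at hm
    obtain ⟨q, hq⟩ : Q.Nonempty := card_pos.1 (by omega)
    have := hp.dbl_const hQ hc (m := m) (fun x hx y hy hxy =>
      ⟨hm _ _ ⟨hxy, fun e => hQ y hy (e ▸ hx), Or.inl hx, Or.inl hy⟩,
        hm _ _ ⟨fun e => hQ y hy (e ▸ hx), by simpa using hxy, Or.inl hx, Or.inr (by simpa)⟩⟩)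
    refine ⟨m (cls q), fun x y hxy => ?_⟩
    rcases hxy.2.2.1 with h | h
    · exact this x h q hq
    · simpa using this _ h q hq
  | add f G Q x _ hS ih =>
    intro hf m hm
    obtain ⟨b, hb⟩ := ih hf m (K_anti le_sup_left hm)
    have hQ : ∀ q ∈ Q, m (cls q) = b := by
      intro q hq
      obtain ⟨y, hy⟩ := hS.clique.exists_adj (by rw [hS.card]; exact hd) hq
      exact hb q y hy
    have hx : m (cls x) = b := by
      have := hp.extend (hS.clique.af hS.sg) hS.card (m := m) (B := 0) (b := b) (fun w => by simp)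
        (by simpa using hQ) hS.notin hS.negnotin (fun q hq => mem_K.1 hm _ _ (hS.nbr.2 hq))
      simpa using this
    have hσ : ∀ a ∈ insert x Q, m (cls a) = b := by
      intro a ha
      rcases mem_insert.1 ha with rfl | ha
      · exact hx
      · exact hQ a ha
    refine ⟨b, ?_⟩
    rintro a y (h | ⟨-, h | h⟩)
    · exact hb a y h
    · exact hσ a h.1
    · simpa using hσ _ h.1

def RA (p : V → E d) (G : V → V → Prop) (W : Finset V) : Prop :=
  AF W ∧ G ≤ kq W ∧ (∀ a ∈ W, ∃ b, G a b) ∧ K p G ≤ Triv p W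

omit [Fintype V] in
lemma RA.wlog {p : V → E d} (hp : OddF p) {G : V → V → Prop} (hG : SG G) {W Q : Finset V}
    (h : RA p G W) (hQ : Clique G Q) (hc : 2 ≤ Q.card) : ∃ W', RA p G W' ∧ Q ⊆ W' := by
  rcases clique_kq_sub h.1 (hQ.mono h.2.1) hc with h' | h'
  · exact ⟨W, h, h'⟩
  · refine ⟨-W, ⟨h.1.neg, by rw [kq_neg]; exact h.2.1, fun a ha => ?_,
      h.2.2.2.trans (Triv_neg hp W)⟩, h'⟩
    obtain ⟨b, hb⟩ := h.2.2.1 _ (Finset.mem_neg'.1 ha)
    exact ⟨_, hG.neg_left hb⟩

omit [Fintype V] in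
lemma rigA {p : V → E d} (hp : Generic p) (hd : 2 ≤ d) {f : Bool} {G : V → V → Prop}
    (hb : Built d f G) : f = false → ∃ W, RA p G W := by
  induction hb with
  | baseB Q _ _ => intro h; cases h
  | baseA Q hQ hc =>
    intro _
    exact ⟨Q, hQ, le_rfl, fun a ha => (clique_kq Q).exists_adj (by omega) ha, fun m hm =>
      hp.clique_triv hQ hc (fun x hx y hy hxy => mem_K.1 hm x y (clique_kq Q x hx y hy hxy))⟩
  | add f G Q x _ hS ih =>
    intro hf
    obtain ⟨W, hW⟩ := ih hf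
    obtain ⟨W, ⟨h1, h2, h3, h4⟩, hQW⟩ := hW.wlog hp.odd hS.sg hS.clique (by rw [hS.card]; exact hd)
    obtain ⟨q, hq⟩ : Q.Nonempty := card_pos.1 (by rw [hS.card]; omega)
    refine ⟨insert x W, h1.insert (fun h => ?_), sup_le (h2.trans (kq_mono (subset_insert _ _)))
      (kq_mono (insert_subset_insert _ hQW)), fun a ha => ?_, fun m hm => ?_⟩
    · obtain ⟨b, hb⟩ := h3 _ h
      exact hS.iso _ (hS.sg.neg_left hb)
    · rcases mem_insert.1 ha with rfl | ha
      · exact ⟨q, hS.nbr.2 hq⟩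
      · obtain ⟨b, hb⟩ := h3 a ha
        exact ⟨b, Or.inl hb⟩
    · obtain ⟨B, b, hB, hm'⟩ := h4 (K_anti le_sup_left hm)
      refine ⟨B, b, hB, fun a ha => ?_⟩
      rcases mem_insert.1 ha with rfl | ha
      · exact hp.extend (hS.clique.af hS.sg) hS.card hB (fun q hq => hm' q (hQW hq)) hS.notin
          hS.negnotin (fun q hq => mem_K.1 hm _ _ (hS.nbr.2 hq))
      · exact hm' a ha

omit [Fintype V] in
lemma absorb_one {p : V → E d} (hp : Generic p) (hd : 2 ≤ d) {f : Bool} {Y : V → V → Prop}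
    (hb : Built d f Y) {Q : Finset V} {x : V} (hc : Q.card = d) (hQ : Clique Y Q) (hx : x ∉ Q)
    (hx' : -x ∉ Q) (hI : Ind p (Y ⊔ kq (insert x Q))) : Built d f (Y ⊔ kq (insert x Q)) := by
  have hY := hb.sg
  by_cases hiso : ∀ y, ¬ Y x y
  · exact Built.add _ _ _ _ hb ⟨hY, hc, hQ, hiso, hx, hx'⟩
  push Not at hiso
  obtain ⟨y, hy⟩ := hiso
  have hne : ∀ q ∈ Q, x ≠ q := fun q hq e => hx (e ▸ hq)
  have hadj : ∀ q ∈ Q, (Y ⊔ kq (insert x Q)) x q := fun q hq =>
    Or.inr (clique_kq _ x (mem_insert_self _ _) q (mem_insert_of_mem hq) (hne q hq))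
  have key : ∀ q ∈ Q, Y x q := by
    intro q hq
    cases f with
    | true =>
      apply hI.present hY le_sup_left (hadj q hq) (hne q hq)
      intro m hm
      obtain ⟨b, hb'⟩ := rigB hp hd hb rfl m hm
      obtain ⟨z, hz⟩ := hQ.exists_adj (by omega) hq
      rw [ell_apply, hb' x y hy, hb' q z hz]; simp
    | false =>
      obtain ⟨W, hW⟩ := rigA hp hd hb rfl
      obtain ⟨W, ⟨h1, h2, -, h4⟩, hQW⟩ := hW.wlog hp.odd hY hQ (by omega)
      rcases (h2 x y hy).2 with h | h
      · apply hI.present hY le_sup_left (hadj q hq) (hne q hq)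
        intro m hm
        obtain ⟨B, b, hB, hm'⟩ := h4 hm
        exact ell_of_triv hB (hm' x h.1) (hm' q (hQW hq))
      · exfalso
        obtain ⟨m, hm, hne'⟩ := hI x q (hadj q hq)
        have hnY : ¬ Y x q := fun h' => by
          rcases (h2 x q h').2 with h3 | h3
          · exact h1 x h3.1 h.1
          · exact h1 q (hQW hq) h3.2
        obtain ⟨B, b, hB, hm'⟩ := h4 (K_anti (le_rem hY le_sup_left (hne q hq) hnY) hm)
        have hell : ∀ r ∈ Q, ell x r p m = 2 * B (p x) (p r) := by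
          intro r hr
          have e1 := hm' _ h.1
          rw [cls_neg, hp.odd, map_neg] at e1
          rw [ell_apply, e1, hm' r (hQW hr)]
          have := hB.skew (p r) (p x)
          simp only [LinearMap.sub_apply, LinearMap.add_apply, LinearMap.neg_apply, map_sub,
            hB (p x), hB (p r)]
          linarith
        have h0 : B (p x) = 0 := by
          apply hp.gp1 (insert x (Q.erase q))
          · exact ((hQ.af hY).mono (erase_subset _ _)).insert (fun h => hx' (mem_of_mem_erase h))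
          · rw [card_insert_of_notMem (fun h => hx (mem_of_mem_erase h)), card_erase_add_one hq, hc]
          · intro r hr
            rcases mem_insert.1 hr with rfl | hr
            · exact hB _
            have hrQ := mem_of_mem_erase hr
            have := mem_K.1 hm x r ⟨hadj r hrQ, fun hk => by
              rcases (kq_pair_iff (hne q hq)).1 hk with h | h | h | h
              · exact ne_of_mem_erase hr h.2
              · exact hne q hq h.1
              · exact ne_neg' _ h.1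
              · exact hx' (by rw [h.1, neg_neg]; exact hq)⟩
            rw [hell r hrQ] at this
            linarith
        apply hne'
        rw [hell q hq, h0]; simp
  have : kq (insert x Q) ≤ Y := by
    apply kq_le_of_clique hY
    intro a ha b hb hab
    rcases mem_insert.1 ha with ha' | ha' <;> rcases mem_insert.1 hb with hb' | hb'
    · exact absurd (ha'.trans hb'.symm) hab
    · rw [ha']; exact key b hb'
    · rw [hb']; exact hY.symm (key a ha')
    · exact hQ a ha' b hb' hab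
  rwa [sup_eq_left.2 this]

omit [Fintype V] in
lemma absorb {p : V → E d} (hp : Generic p) (hd : 2 ≤ d) {f' : Bool} {X : V → V → Prop}
    (hX : Built d f' X) {f : Bool} : (f' = true → f = true) → ∀ (U : V → V → Prop) (D : Finset V),
      Built d f U → D.card = d → Clique U D → Clique X D → Ind p (U ⊔ X) → Built d f (U ⊔ X) := by
  induction hX with
  | baseA Q hQ hc =>
    intro _ U D hU hD h1 h2 _
    have : kq Q ≤ U := by
      rcases clique_kq_eq hQ h2 (by omega) (hc.trans hD.symm) with rfl | rfl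
      · exact kq_le_of_clique hU.sg h1
      · rw [← kq_neg]; exact kq_le_of_clique hU.sg h1
    rwa [sup_eq_left.2 this]
  | baseB Q hQ hc =>
    intro hf U D hU hD h1 h2 hI
    have hDQ : ∀ x ∈ D, x ∈ Q ∨ -x ∈ Q := by
      intro x hx
      obtain ⟨y, hy⟩ := h2.exists_adj (by omega) hx
      exact hy.2.2.1
    have hv : ∀ x, (x ∈ Q ∨ -x ∈ Q) → ∃ y, U x y := by
      intro x hx
      rcases transversal (h1.af hU.sg) (hD.trans hc.symm) hDQ hx with h | h
      · exact h1.exists_adj (by omega) h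
      · obtain ⟨y, hy⟩ := h1.exists_adj (by omega) h
        exact ⟨_, hU.sg.neg_left hy⟩
    have : oct Q ≤ U := by
      intro x y hxy
      apply hI.present hU.sg le_sup_left (Or.inr hxy) hxy.1
      intro m hm
      obtain ⟨b, hb⟩ := rigB hp hd hU (hf rfl) m hm
      obtain ⟨x', hx'⟩ := hv x hxy.2.2.1
      obtain ⟨y', hy'⟩ := hv y hxy.2.2.2
      rw [ell_apply, hb x x' hx', hb y y' hy']; simp
    rwa [sup_eq_left.2 this]
  | add f' X Q x _ hS ih =>
    intro hf
    have aux : ∀ (U : V → V → Prop) (D : Finset V), Built d f U → D.card = d → Clique U D →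
        Clique (X ⊔ kq (insert x Q)) D → Ind p (U ⊔ (X ⊔ kq (insert x Q))) → x ∈ D →
        Built d f (U ⊔ (X ⊔ kq (insert x Q))) := by
      intro U D hU hD h1 h2 hI hx
      have hsub : D ⊆ insert x Q := by
        intro y hy
        by_cases h : x = y
        · rw [h]; exact mem_insert_self _ _
        · exact mem_insert_of_mem (hS.nbr.1 (h2 x hx y hy h))
      obtain ⟨q, hq, rfl⟩ := eq_erase_of_subset hsub
        (by rw [card_insert_of_notMem hS.notin, hS.card, hD])
      have h3 := absorb_one hp hd hU hD h1 (notMem_erase _ _)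
        (fun h => hS.af q hq (mem_of_mem_erase h)) (by
          rw [insert_erase hq]
          exact hI.mono (sup_le_sup_left le_sup_right _))
      rw [insert_erase hq] at h3
      have := ih hf _ Q h3 hS.card
        ((Clique.mono le_sup_right (clique_kq (insert x Q))) |> fun h a ha b hb hab =>
          h a (mem_insert_of_mem ha) b (mem_insert_of_mem hb) hab) hS.clique
        (by rwa [sup_assoc, sup_comm (kq _) X])
      rwa [sup_assoc, sup_comm (kq _) X] at this
    intro U D hU hD h1 h2 hI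
    by_cases c1 : x ∈ D
    · exact aux U D hU hD h1 h2 hI c1
    by_cases c2 : -x ∈ D
    · exact aux U (-D) hU (by rw [card_neg, hD]) (h1.neg hU.sg) (h2.neg hS.sg') hI
        (Finset.mem_neg'.2 c2)
    have h3 := ih hf U D hU hD h1 (fun a ha b hb hab => hS.old (h2 a ha b hb hab)
      (fun e => c1 (e ▸ ha)) (fun e => c2 (e ▸ ha)) (fun e => c1 (e ▸ hb)) (fun e => c2 (e ▸ hb)))
      (hI.mono (sup_le_sup_left le_sup_left _))
    rw [← sup_assoc] at hI ⊢
    exact absorb_one hp hd h3 hS.card (hS.clique.mono le_sup_right) hS.notin hS.negnotin hI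

lemma split_of_ind {p : V → E d} (hp : Generic p) (hd : 4 ≤ d) {X : Finset (Finset V)}
    (hX : Circ d X) {u v : V} (h1 : u ≠ v) (hD : ∃ D ∈ X, u ∈ D ∧ v ∈ D) (hn : ¬ gr X u (-v))
    (hX' : Circ d (ctr u v X)) (hc : -v ∉ vs X ∨ Big d (vs X)) (hI : Ind p (gr X))
    (ih : Ind p (gr (ctr u v X)) → ∃ f, Built d f (gr (ctr u v X))) :
    ∃ f, Built d f (gr X) := by
  classical
  let R : Finset V := univ.filter (fun r => gr X u r ∧ gr X v r)
  have hR : ∀ r, r ∈ R ↔ gr X u r ∧ gr X v r := fun r => by simp [R]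
  have hi := ind_ctr hp (by omega) hX h1 hD hX' hc hI R (fun r => (hR r).1)
  obtain ⟨D, hD, hu, hv⟩ := hD
  have h2 : u ≠ -v := fun h => hX.af D hD v hv (h ▸ hu)
  have hsg := sg_gr hX.af
  have hcard := card_erase_erase h1 hu hv
  rw [hX.card D hD] at hcard
  set R0 := (D.erase u).erase v with hR0
  have hface : ∀ F ∈ X, u ∈ F → v ∈ F → ∀ r ∈ F, r ≠ u → r ≠ v → r ∈ R := fun F hF hu hv r hr a b =>
    (hR r).2 ⟨clique_gr hF u hu r hr a.symm, clique_gr hF v hv r hr b.symm⟩
  have hsub : R0 ⊆ R := by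
    intro r hr
    simp only [hR0, mem_erase] at hr
    exact hface D hD hu hv r hr.2.2 hr.2.1 hr.1
  have hoth : ∀ r ∈ R0, ∃ z ∈ R, z ∉ D ∧ insert z (D.erase r) ∈ X := by
    intro r hr
    simp only [hR0, mem_erase] at hr
    obtain ⟨z, hz, hF⟩ := hX.cyc.other hD hr.2.2
    exact ⟨z, hface _ hF (mem_insert_of_mem (mem_erase.2 ⟨Ne.symm hr.2.1, hu⟩))
      (mem_insert_of_mem (mem_erase.2 ⟨Ne.symm hr.1, hv⟩)) z (mem_insert_self _ _)
      (fun e => hz (e ▸ hu)) (fun e => hz (e ▸ hv)), hz, hF⟩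
  have hR0D : R0 ⊆ D := (erase_subset _ _).trans (erase_subset _ _)
  obtain ⟨r0, hr0⟩ : R0.Nonempty := card_pos.1 (by omega)
  obtain ⟨z, hzR, hzD, -⟩ := hoth r0 hr0
  have hzR0 : z ∉ R0 := fun h => hzD (hR0D h)
  have hRe : insert z R0 = R := eq_of_subset_of_card_le (insert_subset hzR hsub)
    (by rw [card_insert_of_notMem hzR0]; omega)
  have hRc : R.card + 1 = d := by rw [← hRe, card_insert_of_notMem hzR0]; omega
  obtain ⟨f, hb⟩ := ih (hi.2 hRc.ge)
  have hz : ∀ r ∈ R0, gr X z r := by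
    intro r hr
    obtain ⟨r', hr', hne⟩ := exists_mem_ne (s := R0) (by omega) r
    obtain ⟨z', hz'R, hz'D, hF⟩ := hoth r' hr'
    rw [← hRe] at hz'R
    have : z' = z := (mem_insert.1 hz'R).resolve_right (fun h => hz'D (hR0D h))
    subst this
    exact clique_gr hF z' (mem_insert_self _ _) r
      (mem_insert_of_mem (mem_erase.2 ⟨hne.symm, hR0D hr⟩)) (fun e => hzR0 (e ▸ hr))
  have hcl : Clique (gr X) R := by
    rw [← hRe]
    intro a ha b hb hab
    rcases mem_insert.1 ha with ha' | ha' <;> rcases mem_insert.1 hb with hb' | hb'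
    · exact absurd (ha'.trans hb'.symm) hab
    · rw [ha']; exact hz b hb'
    · rw [hb']; exact hsg.symm (hz a ha')
    · exact clique_gr hD a (hR0D ha') b (hR0D hb') hab
  have e : gr (ctr u v X) = contr (gr X) u v := by
    funext a b; exact propext (gr_ctr hX.toGood hX.cyc h1 h2 a b)
  refine ⟨f, hb.split (by omega) (gr X) ⟨hsg, clique_gr hD u hu v hv h1, hn, hR, hRc, hcl, ?_⟩ e⟩
  intro a b ha hb' haR hbR hav hbu hab
  have hva : ¬ gr X v a := fun h => haR ((hR a).2 ⟨ha, h⟩)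
  have hub : ¬ gr X u b := fun h => hbR ((hR b).2 ⟨h, hb'⟩)
  have hav' : a ≠ -v := fun e => hn (e ▸ ha)
  have hbu' : b ≠ -u := fun e => hn (hsg.symm (by simpa using hsg.neg (e ▸ hb' : gr X v (-u))))
  have hau : a ≠ u := (hsg.ne ha).symm
  have hau' : a ≠ -u := fun e => hsg.ne_neg ha (by rw [e, neg_neg])
  have hbv : b ≠ v := (hsg.ne hb').symm
  have hbv' : b ≠ -v := fun e => hsg.ne_neg hb' (by rw [e, neg_neg])
  have ka : kap u v a = a := kap_of_ne hav hav'
  have kb : kap u v b = b := kap_of_ne hbv hbv'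
  obtain ⟨F', hF', h⟩ := hb.tri hd _ hX' rfl u a b
    (e ▸ ⟨hau.symm, u, a, ha, kap_u h1 h2, ka⟩) (e ▸ ⟨hbu.symm, v, b, hb', kap_v _ _, kb⟩)
    (e ▸ ⟨hsg.ne hab, a, b, hab, ka, kb⟩)
  obtain ⟨F, hF, rfl⟩ := mem_image.1 hF'
  replace hF := (mem_nd.1 hF).1
  rcases h with ⟨t1, t2, t3⟩ | ⟨t1, t2, t3⟩
  · obtain ⟨x, hx, ex⟩ := mem_image.1 t1
    obtain ⟨y, hy, ey⟩ := mem_image.1 t2
    obtain ⟨w, hw, ew⟩ := mem_image.1 t3
    rw [eq_of_kap_eq ey hau hau'] at hy
    rw [eq_of_kap_eq ew hbu hbu'] at hw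
    rcases kap_eq_u ex with rfl | rfl
    · exact hub (clique_gr hF _ hx _ hw hbu.symm)
    · exact hva (clique_gr hF _ hx _ hy hav.symm)
  · obtain ⟨x, hx, ex⟩ := mem_image.1 t1
    obtain ⟨y, hy, ey⟩ := mem_image.1 t2
    obtain ⟨w, hw, ew⟩ := mem_image.1 t3
    rw [eq_of_kap_eq ey (fun e => hau' (by rw [← e, neg_neg])) (by simpa using hau)] at hy
    rw [eq_of_kap_eq ew (fun e => hbu' (by rw [← e, neg_neg])) (by simpa using hbu)] at hw
    rcases kap_eq_negu ex with rfl | rfl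
    · exact hub (hsg.neg' (clique_gr hF _ hx _ hw (by simpa using hbu.symm)))
    · exact hva (hsg.neg' (clique_gr hF _ hx _ hy (by simpa using hav.symm)))

lemma built_of_dbl {p : V → E d} (hp : Generic p) (hd : 3 ≤ d) {T : Finset (Finset V)}
    (hT : Circ d T) (hdbl : ∀ x y, gr T x y → gr T x (-y)) (hI : Ind p (gr T)) :
    Built d true (gr T) := by
  have hsg := sg_gr hT.af
  obtain ⟨F0, hF0⟩ := hT.nonempty
  have key := hT.conn (fun F => ∀ x ∈ F, x ∈ F0 ∨ -x ∈ F0) ⟨F0, hF0, fun x hx => Or.inl hx⟩ (by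
    intro R z z' hz hz' h1 h2 h3
    have hc := hT.card _ h1
    rw [card_insert_of_notMem hz] at hc
    suffices h : z' ∈ F0 ∨ -z' ∈ F0 by
      intro x hx
      rcases mem_insert.1 hx with rfl | hx
      · exact h
      · exact h3 x (mem_insert_of_mem hx)
    by_contra hcon
    have hz1 : ∀ y ∈ insert z R, y ≠ z' ∧ y ≠ -z' := by
      intro y hy
      have := h3 y hy
      constructor <;> rintro rfl
      · exact hcon this
      · exact hcon (by simpa using this.symm)
    obtain ⟨r1, hr1, r2, hr2, hne⟩ := one_lt_card.1 (show 1 < R.card by omega)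
    have hadj : ∀ r ∈ R, gr T z' r := fun r hr =>
      clique_gr h2 z' (mem_insert_self _ _) r (mem_insert_of_mem hr) (fun e => hz' (e ▸ hr))
    have hne2 : z' ≠ -r2 := hsg.ne_neg (hadj r2 hr2)
    obtain ⟨m, hm, hne'⟩ := hI z' (-r2) (hdbl _ _ (hadj r2 hr2))
    rw [mem_K] at hm
    have hm1 : ∀ a b, gr T a b → a ≠ z' → a ≠ -z' → b ≠ z' → b ≠ -z' → ell a b p m = 0 := by
      intro a b hab c1 c2 c3 c4
      refine hm a b ⟨hab, fun hk => ?_⟩
      rcases (kq_pair_iff hne2).1 hk with h | h | h | h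
      · exact c1 h.1
      · exact c3 h.2
      · exact c2 h.1
      · exact c4 h.2
    have hm2 : ∀ b, gr T z' b → b ≠ -r2 → ell z' b p m = 0 := by
      intro b hb c
      refine hm _ b ⟨hb, fun hk => ?_⟩
      rcases (kq_pair_iff hne2).1 hk with h | h | h | h
      · exact c h.2
      · exact hne2 h.1
      · exact ne_neg' _ h.1
      · exact hsg.ne_neg hb (by rw [h.2, neg_neg])
    have hconst := hp.dbl_const (hT.af _ h1) (hT.card _ h1) (m := m) (fun x hx y hy hxy =>
      ⟨hm1 _ _ (clique_gr h1 x hx y hy hxy) (hz1 x hx).1 (hz1 x hx).2 (hz1 y hy).1 (hz1 y hy).2,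
        hm1 _ _ (hdbl _ _ (clique_gr h1 x hx y hy hxy)) (hz1 x hx).1 (hz1 x hx).2
          (fun e => (hz1 y hy).2 (by rw [← e, neg_neg])) (by simpa using (hz1 y hy).1)⟩)
      r1 (mem_insert_of_mem hr1) r2 (mem_insert_of_mem hr2)
    have a1 := hm2 r1 (hadj r1 hr1)
      (fun e => hT.af _ h1 r2 (mem_insert_of_mem hr2) (e ▸ mem_insert_of_mem hr1))
    have a2 := hm2 (-r1) (hdbl _ _ (hadj r1 hr1)) (by simpa using hne)
    have a3 := hm2 r2 (hadj r2 hr2) (ne_neg' _)
    have a4 := (hp.dbl_pair a1 a2).2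
    apply hne'
    rw [hconst] at a4
    simp only [ell_apply, cls_neg, hp.odd r2, LinearMap.sub_apply, map_sub, map_neg] at a3 ⊢
    linarith)
  have e : gr T = oct F0 := by
    apply le_antisymm
    · rintro a b hab
      refine ⟨hsg.ne hab, hsg.ne_neg hab, ?_⟩
      obtain ⟨F, hF, -, h | h⟩ := hab
      · exact ⟨key F hF a h.1, key F hF b h.2⟩
      · exact ⟨by simpa using (key F hF _ h.1).symm, by simpa using (key F hF _ h.2).symm⟩
    · have hc := clique_gr hF0
      rintro a b ⟨h1, h2, h3 | h3, h4 | h4⟩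
      · exact hc a h3 b h4 h1
      · simpa using hdbl _ _ (hc a h3 _ h4 h2)
      · exact hsg.neg' (hdbl _ _ (hc _ h3 b h4 (fun e => h2 (by rw [← e, neg_neg]))))
      · exact hsg.neg' (hc _ h3 _ h4 (by simpa using h1))
  rw [e]
  exact Built.baseB F0 (hT.af F0 hF0) (hT.card F0 hF0)

theorem built_of_ind {p : V → E d} (hp : Generic p) (hd : 4 ≤ d) :
    ∀ T, Circ d T → Ind p (gr T) → ∃ f, Built d f (gr T) := by
  apply circuit_ind (P := fun G _ => Ind p G → ∃ f, Built d f G)
  · intro G W G' W' D _ _ h h' hc _ _ hD hD' hI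
    obtain ⟨f, hf⟩ := h (hI.mono le_sup_left)
    obtain ⟨f', hf'⟩ := h' (hI.mono le_sup_right)
    by_cases c : f' = true → f = true
    · exact ⟨f, absorb hp (by omega) hf' c G D hf hc hD hD' hI⟩
    · push Not at c
      rw [sup_comm] at hI ⊢
      exact ⟨f', absorb hp (by omega) hf (fun _ => c.1) G' D hf' hc hD' hD hI⟩
  · intro T hT hdbl hI
    exact ⟨true, built_of_dbl hp (by omega) hT hdbl hI⟩
  · intro σ hσ hc hI
    obtain ⟨x, hx⟩ : σ.Nonempty := card_pos.1 (by omega)
    have hQ : AF (σ.erase x) := hσ.mono (erase_subset _ _)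
    have hQc : (σ.erase x).card = d := by rw [card_erase_of_mem hx]; omega
    have e : kq (σ.erase x) ⊔ kq (insert x (σ.erase x)) = kq σ := by
      rw [insert_erase hx, sup_eq_right.2 (kq_mono (erase_subset _ _))]
    have := absorb_one hp (by omega) (Built.baseA _ hQ hQc) hQc (clique_kq _) (notMem_erase x σ)
      (fun h => hσ x hx (mem_of_mem_erase h)) (by rwa [e])
    exact ⟨false, e ▸ this⟩
  · intro X u v hX h1 hD hn hX' hc ih hI
    exact split_of_ind hp hd hX h1 hD hn hX' hc hI ih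

theorem core (hd : 4 ≤ d) {T : Finset (Finset V)} (hT : Circ d T) (hsym : ∀ F ∈ T, -F ∈ T)
    (hv : ∀ x, x ∈ vs T) :
    2 * d * Fintype.card V ≤ ec (gr T) + 4 * d ∧
      (ec (gr T) + 4 * d = 2 * d * Fintype.card V → SS d T) := by
  obtain ⟨p, hp⟩ := exists_generic (V := V) d
  have hsg := sg_gr hT.af
  obtain ⟨F0, hF0⟩ := hT.nonempty
  obtain ⟨x0, hx0⟩ : F0.Nonempty := card_pos.1 (by rw [hT.card F0 hF0]; omega)
  have h1 : finrank ℝ (K p (gr T)) ≤ d := by
    have hinj : Function.Injective (evc (cls x0) ∘ₗ (K p (gr T)).subtype) := by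
      refine (injective_iff_map_eq_zero _).2 ?_
      rintro ⟨m, hm⟩ h0
      obtain ⟨B, b, hB, hm'⟩ := rigid hp (by omega) T hT hm
      have hB0 : B = 0 := by
        apply hp.map_zero' (hT.af F0 hF0) (hT.card F0 hF0)
        intro x _
        have b1 := hm' _ (hv x)
        have b2 := hm' _ (hv (-x))
        rw [cls_neg, hp.odd, map_neg, b1, add_left_inj] at b2
        have : (2 : ℝ) • B (p x) = 0 := by rw [two_smul]; nth_rewrite 1 [b2]; abel
        simpa using this
      have hb : b = 0 := by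
        have := hm' x0 (hv x0)
        rw [hB0] at this
        simpa [this] using h0
      ext1
      funext c
      obtain ⟨x, rfl⟩ := cls_surj c
      simp [hm' x (hv x), hB0, hb]
    have := LinearMap.finrank_le_finrank_of_injective hinj
    rwa [finrank_Du] at this
  have h2 : phi p ⊥ = 2 * d * Fintype.card V := by
    rw [phi_bot, card_cl, Module.finrank_pi_fintype]
    simp; ring
  have h3 := phi_ge hp.odd hsg
  refine ⟨by unfold phi at h3 h2; omega, fun h => ?_⟩
  have hI : Ind p (gr T) := ind_of_phi_le hp.odd hsg (by unfold phi at *; omega)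
  obtain ⟨f, hb⟩ := built_of_ind hp hd T hT hI
  exact hb.ss (by omega) T hT hsym rfl

end Pool.Agent.MP_d539bc_co

end

section

/-! Assembly of the lower bound theorem for centrally symmetric pseudomanifolds. -/

namespace Pool.Agent.MP_d539bc_co

open Finset
open scoped Pointwise

variable {V : Type} [Fintype V] [DecidableEq V] {d : ℕ}

lemma numFaces_one (K : AbstractSimplicialComplex V) : numFaces K 1 = Fintype.card V := by
  have : {s : Finset V | s ∈ K.faces ∧ s.card = 1} = Set.range (fun v : V => ({v} : Finset V)) := by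
    ext s
    simp only [Set.mem_ofPred_eq, card_eq_one, Set.mem_range]
    exact ⟨fun ⟨_, a, h⟩ => ⟨a, h.symm⟩, fun ⟨a, h⟩ => ⟨h ▸ K.singleton_mem a, a, h.symm⟩⟩
  rw [numFaces, this, Set.ncard_range_of_injective singleton_injective, Nat.card_eq_fintype_card]

lemma ec_eq (K : AbstractSimplicialComplex V) {G : V → V → Prop}
    (h : ∀ x y, G x y ↔ x ≠ y ∧ {x, y} ∈ K.faces) : ec G = 2 * numFaces K 2 := by
  classical
  have e : {s : Finset V | s ∈ K.faces ∧ s.card = 2}
      = ↑(univ.filter (fun s : Finset V => s ∈ K.faces ∧ s.card = 2)) := by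
    ext s; simp
  rw [numFaces, e, Set.ncard_coe_finset, ec,
    card_eq_sum_card_fiberwise (f := fun e : V × V => ({e.1, e.2} : Finset V))
      (t := univ.filter (fun s : Finset V => s ∈ K.faces ∧ s.card = 2)), mul_comm,
    ← smul_eq_mul, ← sum_const]
  · apply sum_congr rfl
    intro s hs
    obtain ⟨hs, hc⟩ := (mem_filter.1 hs).2
    obtain ⟨a, b, hab, rfl⟩ := card_eq_two.1 hc
    rw [← card_pair (show (a, b) ≠ (b, a) from fun e => hab (congrArg Prod.fst e))]
    congr 1
    ext ⟨x, y⟩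
    simp only [mem_filter, mem_univ, true_and, h, mem_insert, mem_singleton, Prod.mk.injEq]
    constructor
    · rintro ⟨⟨h1, -⟩, h2⟩
      have hx : x ∈ ({a, b} : Finset V) := h2 ▸ by simp
      have hy : y ∈ ({a, b} : Finset V) := h2 ▸ by simp
      simp only [mem_insert, mem_singleton] at hx hy
      rcases hx with rfl | rfl <;> rcases hy with rfl | rfl <;> simp at h1 ⊢
    · rintro (⟨rfl, rfl⟩ | ⟨rfl, rfl⟩)
      · exact ⟨⟨hab, hs⟩, rfl⟩
      · exact ⟨⟨hab.symm, by rwa [pair_comm]⟩, pair_comm _ _⟩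
  · rintro ⟨x, y⟩ hxy
    simp only [coe_filter, mem_univ, true_and, Set.mem_ofPred_eq, h] at hxy ⊢
    exact ⟨hxy.2, card_pair hxy.1⟩

omit [Fintype V] in
lemma gr_iff [FreeNeg V] (K : AbstractSimplicialComplex V) {T : Finset (Finset V)}
    (hsym : ∀ F ∈ T, -F ∈ T) (h : ∀ s, s ∈ K.faces ↔ s.Nonempty ∧ ∃ F ∈ T, s ⊆ F) (x y : V) :
    gr T x y ↔ x ≠ y ∧ {x, y} ∈ K.faces := by
  rw [h]
  constructor
  · rintro ⟨F, hF, hxy, h1 | h1⟩
    · exact ⟨hxy, by simp, F, hF, insert_subset h1.1 (singleton_subset_iff.2 h1.2)⟩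
    · exact ⟨hxy, by simp, -F, hsym F hF, insert_subset (Finset.mem_neg'.2 h1.1)
        (singleton_subset_iff.2 (Finset.mem_neg'.2 h1.2))⟩
  · rintro ⟨hxy, -, F, hF, hs⟩
    exact clique_gr hF x (hs (by simp)) y (hs (by simp)) hxy

lemma count_of_stacked (hd : 3 ≤ d) {K : AbstractSimplicialComplex V}
    (h : IsStackedBoundary K d) : numFaces K 2 + 2 * d = d * Fintype.card V := by
  obtain ⟨P, hP, e, hinj, hrange, hfaces⟩ := h
  choose φ hφ using fun x : V => (hrange ▸ hP.symm (e x) (hrange ▸ Set.mem_range_self x) :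
    -e x ∈ Set.range e)
  have hne : ∀ x, φ x ≠ x := by
    intro x hx
    have h0 : e x = 0 := by
      have := hφ x
      rw [hx] at this
      have h2 : (2 : ℝ) • e x = 0 := by rw [two_smul]; nth_rewrite 1 [this]; abel
      simpa using h2
    obtain ⟨-, f, c, h1, h2, h3⟩ := (hfaces {x}).1 (K.singleton_mem x)
    have hx' : e x ∈ e '' (({x} : Finset V) : Set V) := ⟨x, by simp, rfl⟩
    rw [h3] at hx'
    have hc : c = 0 := by rw [← hx'.2, h0, map_zero]
    have hall : ∀ y ∈ P, y = e x := by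
      intro y hy
      have a1 := h2 y hy
      have a2 := h2 _ (hP.symm y hy)
      rw [map_neg] at a2
      have : y ∈ e '' (({x} : Finset V) : Set V) := by rw [h3]; exact ⟨hy, by linarith⟩
      simpa [eq_comm] using this
    have : ∀ {P : Set (E d)}, SymStacked d P → Pi.single ⟨0, by omega⟩ 1 ∈ P := by
      intro P hP
      induction hP with
      | cross => exact ⟨_, Or.inl rfl⟩
      | stack _ _ _ _ _ _ _ ih => exact Or.inr (Or.inr ih)
    have := congrFun ((hall _ (this hP)).trans h0) ⟨0, by omega⟩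
    simp at this
  letI : FreeNeg V :=
    { neg := φ
      neg_neg := fun x => hinj (by
        change e (φ (φ x)) = e x
        rw [hφ, hφ, neg_neg])
      neg_ne := hne }
  have he : OddF e := hφ
  obtain ⟨T, hT, hr, hTP⟩ := hP.unrealize hd he hrange.ge
  have hv : vs T = univ := by
    apply eq_univ_of_forall
    intro x
    have : e x ∈ e '' (vs T : Set V) := by rw [hTP, ← hrange]; exact Set.mem_range_self x
    obtain ⟨y, hy, hyx⟩ := this
    exact hinj hyx ▸ hy
  have h1 := hT.count hd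
  rw [hv, card_univ, ec_eq K (gr_iff K hr.sym (fun s => by
    rw [hfaces, ← hTP, hr.isFace_iff he (hv ▸ subset_univ s)]))] at h1
  nlinarith

theorem main_pm (hd : 4 ≤ d) {K : AbstractSimplicialComplex V} (hcs : IsCS K) (h : PM K d)
    (hne : ∃ s, s ∈ K.faces) : d * Fintype.card V ≤ numFaces K 2 + 2 * d ∧
      (numFaces K 2 + 2 * d = d * Fintype.card V → IsStackedBoundary K d) := by
  classical
  obtain ⟨φ, hφ, hK⟩ := hcs
  letI : FreeNeg V :=
    { neg := φ
      neg_neg := hφ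
      neg_ne := fun x hx => (hK {x} (K.singleton_mem x)).2 (by
        rw [image_singleton]; exact congrArg _ hx) }
  let T : Finset (Finset V) := univ.filter (fun s => s ∈ K.faces ∧ s.card = d)
  have hT : ∀ s, s ∈ T ↔ s ∈ K.faces ∧ s.card = d := fun s => by simp [T]
  have hsym : ∀ F ∈ T, -F ∈ T := fun F hF =>
    (hT _).2 ⟨(hK F ((hT F).1 hF).1).1, by rw [card_neg, ((hT F).1 hF).2]⟩
  have hfaces : ∀ s, s ∈ K.faces ↔ s.Nonempty ∧ ∃ F ∈ T, s ⊆ F := by
    intro s
    constructor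
    · intro hs
      obtain ⟨t, ht, hst, htc⟩ := h.pure s hs
      exact ⟨face_nonempty hs, t, (hT t).2 ⟨ht, htc⟩, hst⟩
    · rintro ⟨h1, F, hF, h2⟩
      exact face_down ((hT F).1 hF).1 h2 h1
  have hrid : ∀ (R : Finset V) z, z ∉ R → insert z R ∈ T → R ∈ K.faces ∧ R.card + 1 = d := by
    intro R z hz hR
    have h1 := (hT _).1 hR
    rw [card_insert_of_notMem hz] at h1
    exact ⟨face_down h1.1 (subset_insert _ _) (card_pos.1 (by omega)), h1.2⟩
  have hcirc : Circ d T :=
    { card := fun F hF => ((hT F).1 hF).2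
      af := fun F hF x hx hx' => by
        have h1 : {x, -x} ∈ K.faces := face_down ((hT F).1 hF).1
          (insert_subset hx (singleton_subset_iff.2 hx')) (insert_nonempty _ _)
        apply (hK _ h1).2
        change -({x, -x} : Finset V) = _
        ext y; simp [Finset.mem_neg', neg_eq_iff_eq_neg, or_comm]
      nonempty := by
        obtain ⟨s, hs⟩ := hne
        obtain ⟨-, F, hF, -⟩ := (hfaces s).1 hs
        exact ⟨F, hF⟩
      cyc := by
        funext R
        simp only [bd, Pi.zero_apply]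
        by_cases hex : ∃ z, z ∉ R ∧ insert z R ∈ T
        · obtain ⟨z, hz, hzT⟩ := hex
          obtain ⟨hR, hRc⟩ := hrid R z hz hzT
          obtain ⟨z1, z2, h12, h1, h2, f1, f2, hall⟩ := h.ridge R hR hRc
          rw [← sum_subset (s₁ := {z1, z2}), sum_pair h12]
          · have t1 : insert z1 R ∈ T := (hT _).2 ⟨f1, by rw [card_insert_of_notMem h1, hRc]⟩
            have t2 : insert z2 R ∈ T := (hT _).2 ⟨f2, by rw [card_insert_of_notMem h2, hRc]⟩
            simp only [ind, t1, t2, if_true]; decide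
          · exact insert_subset (mem_compl.2 h1) (singleton_subset_iff.2 (mem_compl.2 h2))
          · intro w hw hw'
            rw [ind, if_neg]
            intro hwT
            exact hw' (by simpa using hall w (mem_compl.1 hw) ((hT _).1 hwT).1)
        · push Not at hex
          exact sum_eq_zero (fun w hw => by rw [ind, if_neg (hex w (mem_compl.1 hw))])
      min := by
        intro S hS ⟨F0, hF0⟩ hc
        apply Subset.antisymm hS
        intro F hF
        refine h.strong (fun F => F ∈ S) ?_ F0 ((hT _).1 (hS hF0)).1 F ((hT _).1 hF).1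
          ((hT _).1 (hS hF0)).2 ((hT _).1 hF).2 hF0
        intro R z z' _ hz hz' f1 f2 hzS
        obtain ⟨hR, hRc⟩ := hrid R z hz (hS hzS)
        obtain ⟨z1, z2, -, -, -, -, -, hall⟩ := h.ridge R hR hRc
        obtain ⟨w, hw, hwS⟩ := hc.other hzS (mem_insert_self z R)
        rw [erase_insert hz] at hwS
        rw [mem_insert, not_or] at hw
        have a1 := hall z hz f1
        have a2 := hall z' hz' f2
        have a3 := hall w hw.2 ((hT _).1 (hS hwS)).1
        have : z' = z ∨ z' = w := by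
          have := hw.1
          rcases a1 with rfl | rfl <;> rcases a2 with rfl | rfl <;> rcases a3 with rfl | rfl <;>
            simp at this ⊢
        rcases this with rfl | rfl
        · exact hzS
        · exact hwS }
  have hv : ∀ x, x ∈ vs T := fun x => by
    obtain ⟨-, F, hF, hs⟩ := (hfaces {x}).1 (K.singleton_mem x)
    exact subset_vs hF (hs (mem_singleton_self x))
  have hc := core hd hcirc hsym hv
  rw [ec_eq K (gr_iff K hsym hfaces)] at hc
  refine ⟨by nlinarith [hc.1], fun heq => ?_⟩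
  obtain ⟨e, he, hr, hs⟩ := (hc.2 (by nlinarith)).realize (by omega)
  have hv' : vs T = univ := eq_univ_of_forall hv
  refine ⟨_, hs, e, fun x y hxy => hr.inj (hv x) (hv y) hxy, by simp [hv'], fun s => ?_⟩
  rw [hfaces, hr.isFace_iff he (fun x _ => hv x)]

end Pool.Agent.MP_d539bc_co

end
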